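import Pool.Agent.TPH.TrAb
import Pool.Agent.Lib_helper82.PlaneF

/-!
# Three parallel hyperplanes: from polytopes to facet data
-/

set_option autoImplicit false

namespace TPH

namespace Tr

open Pool.Agent.Lib_helper82.Plane (exists_data card_three_le_two convPos_lift)

section lin

variable {W : Type*} [AddCommGroup W] [Module ℝ W]

/-- Coordinates for which a given functional is the height. -/
theorem exists_coord [FiniteDimensional ℝ W] (hdim : Module.finrank ℝ W = 4) (l : W →ₗ[ℝ] ℝ)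
    (hl : l ≠ 0) : ∃ Θ : W ≃ₗ[ℝ] (E × ℝ), ∀ x, (Θ x).2 = l x := by
  obtain ⟨x, hx⟩ : ∃ x, l x ≠ 0 := by
    by_contra hcon
    push Not at hcon
    exact hl (LinearMap.ext hcon)
  set e0 : W := (l x)⁻¹ • x with he0
  have hl0 : l e0 = 1 := by rw [he0, map_smul, smul_eq_mul, inv_mul_cancel₀ hx]
  have hker : Module.finrank ℝ (LinearMap.ker l) = 3 := by
    have hr := LinearMap.finrank_range_add_finrank_ker l
    have hsurj : LinearMap.range l = ⊤ := by
      rw [LinearMap.range_eq_top]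
      exact LinearMap.surjective hl
    rw [hsurj, finrank_top, Module.finrank_self, hdim] at hr
    omega
  have hE : Module.finrank ℝ E = 3 := by
    show Module.finrank ℝ (Fin 3 → ℝ) = 3
    simp
  let φ : LinearMap.ker l ≃ₗ[ℝ] E := LinearEquiv.ofFinrankEq _ _ (by rw [hker, hE])
  have hmem : ∀ y : W, (LinearMap.id - l.smulRight e0 : W →ₗ[ℝ] W) y ∈ LinearMap.ker l := by
    intro y
    rw [LinearMap.mem_ker]
    simp [hl0]
  let f : W →ₗ[ℝ] (E × ℝ) :=
    ((φ : LinearMap.ker l →ₗ[ℝ] E).comp ((LinearMap.id - l.smulRight e0).codRestrict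
      (LinearMap.ker l) hmem)).prod l
  have hf : Function.Injective f := by
    rw [← LinearMap.ker_eq_bot, LinearMap.ker_eq_bot']
    intro y hy
    have h2 : l y = 0 := congrArg Prod.snd hy
    have h1 : φ ((LinearMap.id - l.smulRight e0).codRestrict (LinearMap.ker l) hmem y) = 0 :=
      congrArg Prod.fst hy
    have h3 := (LinearEquiv.map_eq_zero_iff φ).1 h1
    have h4 := congrArg Subtype.val h3
    rw [LinearMap.codRestrict_apply] at h4
    simpa [h2] using h4
  refine ⟨LinearMap.linearEquivOfInjective f hf ?_, fun y => rfl⟩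
  rw [hdim, Module.finrank_prod, hE, Module.finrank_self]

/-- Functionals in coordinates. -/
theorem lin_rep (Θ : W ≃ₗ[ℝ] (E × ℝ)) (ψ : W × ℝ →ₗ[ℝ] ℝ) : ∃ (u : E) (s q : ℝ),
    ∀ (x : W) (r : ℝ), ψ (x, r) = q * r - val u s (Θ x) := by
  refine ⟨![-ψ (Θ.symm (![1, 0, 0], 0), 0), -ψ (Θ.symm (![0, 1, 0], 0), 0),
    -ψ (Θ.symm (![0, 0, 1], 0), 0)], -ψ (Θ.symm (0, 1), 0), ψ (0, 1), fun x r => ?_⟩
  obtain ⟨y, rfl⟩ := Θ.symm.surjective x
  rw [LinearEquiv.apply_symm_apply]
  obtain ⟨w, t⟩ := y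
  have h1 : ((Θ.symm (w, t), r) : W × ℝ) = w 0 • (Θ.symm (![1, 0, 0], 0), 0) +
      w 1 • (Θ.symm (![0, 1, 0], 0), 0) + w 2 • (Θ.symm (![0, 0, 1], 0), 0) +
      t • (Θ.symm (0, 1), 0) + r • (0, 1) := by
    have h2 : ((w, t) : E × ℝ) = w 0 • ((![1, 0, 0] : E), (0 : ℝ)) +
        w 1 • ((![0, 1, 0] : E), (0 : ℝ)) + w 2 • ((![0, 0, 1] : E), (0 : ℝ)) +
        t • ((0 : E), (1 : ℝ)) := by
      ext i
      · fin_cases i <;> simp
      · simp
    ext
    · simp only [Prod.fst_add, Prod.smul_fst, smul_zero, add_zero]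
      rw [h2]
      simp only [map_add, map_smul]
    · simp
  rw [h1]
  simp only [map_add, map_smul, smul_eq_mul, val, ip, Matrix.cons_val_zero, Matrix.cons_val_one,
    Matrix.cons_val]
  ring

/-- Every triple comes from a functional. -/
theorem exists_lin (Θ : W ≃ₗ[ℝ] (E × ℝ)) (u : E) (s q : ℝ) : ∃ φ : W × ℝ →ₗ[ℝ] ℝ,
    ∀ (x : W) (r : ℝ), φ (x, r) = q * r - val u s (Θ x) := by
  refine ⟨{ toFun := fun p => q * p.2 - val u s (Θ p.1), map_add' := ?_, map_smul' := ?_ },
    fun x r => rfl⟩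
  · intro p p'
    simp only [Prod.fst_add, Prod.snd_add, map_add, val, ip, Pi.add_apply]
    ring
  · intro k p
    simp only [Prod.smul_fst, Prod.smul_snd, map_smul, val, ip, Pi.smul_apply, smul_eq_mul,
      RingHom.id_apply]
    ring

theorem ip_ext {u u' : E} {c : ℝ} (h : ∀ w : E, ip w u' = c * ip w u) : u' = c • u := by
  have h0 := h ![1, 0, 0]
  have h1 := h ![0, 1, 0]
  have h2 := h ![0, 0, 1]
  simp only [ip, Matrix.cons_val_zero, Matrix.cons_val_one, Matrix.cons_val] at h0 h1 h2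
  funext i
  fin_cases i
  · show u' 0 = c * u 0
    linarith
  · show u' 1 = c * u 1
    linarith
  · show u' 2 = c * u 2
    linarith

end lin

variable {W : Type*} [NormedAddCommGroup W] [NormedSpace ℝ W] [FiniteDimensional ℝ W]

/-- Every vertex is exposed. -/
theorem exposed_pt {V : Finset W} (hV : Pool.Agent.Lib_helper82.Facets4.ConvPos V) {v : W}
    (hv : v ∈ V) : ∃ f : W →ₗ[ℝ] ℝ, ∀ w ∈ V, w ≠ v → f w < f v := by
  have hc : IsClosed (convexHull ℝ ((V : Set W) \ {v})) :=
    ((V.finite_toSet.subset Set.sdiff_subset).isCompact_convexHull ℝ).isClosed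
  obtain ⟨f, r, h1, h2⟩ := geometric_hahn_banach_closed_point (convex_convexHull ℝ _) hc (hV v hv)
  refine ⟨(f : W →ₗ[ℝ] ℝ), fun w hw hwv => ?_⟩
  have := h1 w (subset_convexHull ℝ _ ⟨hw, hwv⟩)
  exact this.trans h2

/-- **Facet data of a polytope.** -/
theorem exists_facet_data (hdim : Module.finrank ℝ W = 4) {S P : Set W} (hS : S.Finite)
    (hspan : affineSpan ℝ S = ⊤) (hP : P = convexHull ℝ S) (l : W →ₗ[ℝ] ℝ) (hl : l ≠ 0) (n : ℕ)
    (hn : (P.extremePoints ℝ).encard = n) :
    ∃ (V : Finset (E × ℝ)) (G : Finset (Set W)) (u : Set W → E) (s q : Set W → ℝ),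
      Data V G u s q ∧ V.card = n ∧
      {F : Set W | IsExposed ℝ P F ∧ Module.finrank ℝ (vectorSpan ℝ F) = 3 ∧
        (F.extremePoints ℝ).encard ≠ 4}.encard = G.card ∧
      ∀ v ∈ V, ∃ x ∈ P.extremePoints ℝ, l x = v.2 := by
  classical
  obtain ⟨V, hV, hconv, hVspan, Ψ, hΨ⟩ := exists_data hdim hS hspan hP
  obtain ⟨Θ, hΘ⟩ := exists_coord hdim l hl
  set 𝓕 : Set (Set W) := {F : Set W | IsExposed ℝ P F ∧ Module.finrank ℝ (vectorSpan ℝ F) = 3 ∧
      (F.extremePoints ℝ).encard ≠ 4} with h𝓕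
  have hVcard : V.card = n := by
    have : (V.card : ℕ∞) = n := by rw [← Set.encard_coe_eq_coe_finsetCard, hV, hn]
    exact_mod_cast this
  have hinj : ∀ F ∈ 𝓕, ∀ F' ∈ 𝓕, (∀ v ∈ V, Ψ F (v, 1) = 0 → Ψ F' (v, 1) = 0) → F = F' := by
    intro F hF F' hF' hz
    exact (hΨ F hF.1 hF.2.1).2.2.2.2.2.2 F' hF'.1 hF'.2.1 hz
  have hfin : 𝓕.Finite := by
    apply Set.Finite.of_finite_image (f := fun F : Set W => F.extremePoints ℝ)
    · apply V.finite_toSet.finite_subsets.subset
      rintro _ ⟨F, hF, rfl⟩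
      exact (hΨ F hF.1 hF.2.1).2.2.2.1
    · intro F hF F' hF' he
      have he' : F.extremePoints ℝ = F'.extremePoints ℝ := he
      apply hinj F hF F' hF'
      intro v hv h0
      rw [(hΨ F hF.1 hF.2.1).2.2.1 v hv, he'] at h0
      exact ((hΨ F' hF'.1 hF'.2.1).2.2.1 v hv).2 h0
  set G : Finset (Set W) := hfin.toFinset with hG
  have hGm : ∀ F, F ∈ G ↔ F ∈ 𝓕 := fun F => hfin.mem_toFinset
  choose u s q hrep using fun F : Set W => lin_rep Θ (Ψ F)
  have hzero : ∀ (F : Set W) (v : W), val (u F) (s F) (Θ v) = q F ↔ Ψ F (v, 1) = 0 := by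
    intro F v
    rw [hrep F v 1, mul_one, sub_eq_zero, eq_comm]
  have hVm : ∀ w ∈ V.image Θ, ∃ v ∈ V, Θ v = w := fun w hw => Finset.mem_image.1 hw
  -- at least five vertices
  have h5 : ∀ F ∈ G, 5 ≤ (V.filter (fun v => Ψ F (v, 1) = 0)).card := by
    intro F hF
    obtain ⟨h1, h3, h4⟩ := (hGm F).1 hF
    have hd := hΨ F h1 h3
    have he : ((V.filter (fun v => Ψ F (v, 1) = 0) : Finset W) : Set W) = F.extremePoints ℝ := by
      ext v
      rw [Finset.coe_filter, Set.mem_setOf_eq]
      constructor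
      · rintro ⟨hv, h0⟩
        exact (hd.2.2.1 v hv).1 h0
      · intro hv
        have hvV : v ∈ V := by exact_mod_cast hd.2.2.2.1 hv
        exact ⟨hvV, (hd.2.2.1 v hvV).2 hv⟩
    have hc : (F.extremePoints ℝ).encard = ((V.filter (fun v => Ψ F (v, 1) = 0)).card : ℕ∞) := by
      rw [← he, Set.encard_coe_eq_coe_finsetCard]
    have h7 := hd.2.2.2.2.1
    rw [hc] at h7 h4
    have h8 : 4 ≤ (V.filter (fun v => Ψ F (v, 1) = 0)).card := by exact_mod_cast h7
    have h9 : (V.filter (fun v => Ψ F (v, 1) = 0)).card ≠ 4 := by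
      intro h
      apply h4
      rw [h]
      rfl
    omega
  refine ⟨V.image Θ, G, u, s, q, ?_, ?_, ?_, ?_⟩
  · refine ⟨?_, ?_, ?_, ?_, ?_, ?_, ?_⟩
    · -- nonnegativity
      intro F hF w hw
      obtain ⟨v, hv, rfl⟩ := hVm w hw
      have hF' := (hGm F).1 hF
      have h := (hΨ F hF'.1 hF'.2.1).2.1 v hv
      rw [hrep F v 1, mul_one] at h
      linarith
    · -- injectivity
      intro F hF F' hF' hz
      apply hinj F ((hGm F).1 hF) F' ((hGm F').1 hF')
      intro v hv h0
      rw [← hzero] at h0 ⊢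
      exact hz _ (Finset.mem_image_of_mem _ hv) h0
    · -- span
      intro F hF u' s' q' hz
      have hF' := (hGm F).1 hF
      obtain ⟨φ, hφ⟩ := exists_lin Θ u' s' q'
      obtain ⟨c, hc⟩ := (hΨ F hF'.1 hF'.2.1).2.2.2.2.2.1 φ (by
        intro v hv h0
        rw [← hzero] at h0
        rw [hφ v 1, mul_one, hz _ (Finset.mem_image_of_mem _ hv) h0, sub_self])
      have hall : ∀ (x : W) (r : ℝ), q' * r - val u' s' (Θ x) =
          c * (q F * r - val (u F) (s F) (Θ x)) := by
        intro x r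
        rw [← hφ x r, ← hrep F x r, hc]
        rfl
      have hv0 : ∀ (u'' : E) (s'' : ℝ), val u'' s'' (0 : E × ℝ) = 0 := by
        intro u'' s''
        simp [val, ip]
      refine ⟨c, ?_, ?_, ?_⟩
      · apply ip_ext
        intro w
        have h := hall (Θ.symm (w, 0)) 0
        rw [LinearEquiv.apply_symm_apply] at h
        simp only [val, mul_zero, add_zero, zero_sub] at h
        linarith
      · have h := hall (Θ.symm (0, 1)) 0
        rw [LinearEquiv.apply_symm_apply] at h
        simp only [val, ip_zero_left, mul_zero, mul_one, zero_add, zero_sub] at h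
        linarith
      · have h := hall 0 1
        rw [map_zero, hv0, hv0, mul_one, mul_one, sub_zero, sub_zero] at h
        exact h
    · -- not zero
      intro F hF hu hs
      have hF' := (hGm F).1 hF
      have hd := hΨ F hF'.1 hF'.2.1
      obtain ⟨v, hv⟩ := Finset.card_pos.1 (by have := h5 F hF; omega :
        0 < (V.filter (fun v => Ψ F (v, 1) = 0)).card)
      have h0 := (Finset.mem_filter.1 hv).2
      have hq : q F = 0 := by
        rw [← hzero, hu, hs] at h0
        rw [← h0]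
        simp [val, ip]
      apply hd.1
      apply LinearMap.ext
      rintro ⟨x, r⟩
      rw [hrep F x r, hu, hs, hq]
      simp [val, ip]
    · -- five
      intro F hF
      refine ⟨(V.filter (fun v => Ψ F (v, 1) = 0)).image Θ, ?_, ?_⟩
      · rw [Finset.card_image_of_injective _ Θ.injective]
        exact h5 F hF
      · intro w hw
        obtain ⟨v, hv, rfl⟩ := Finset.mem_image.1 hw
        rw [Finset.mem_filter] at hv
        exact ⟨Finset.mem_image_of_mem _ hv.1, (hzero F v).2 hv.2⟩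
    · -- exposed
      intro w hw
      obtain ⟨v, hv, rfl⟩ := hVm w hw
      obtain ⟨f, hf⟩ := exposed_pt hconv hv
      obtain ⟨u', s', q', hr⟩ := lin_rep Θ (-(f.comp (LinearMap.fst ℝ W ℝ)))
      have hval : ∀ x : W, val u' s' (Θ x) = f x := by
        intro x
        have h := hr x 0
        rw [mul_zero, zero_sub] at h
        have h' : (-(f.comp (LinearMap.fst ℝ W ℝ))) (x, (0 : ℝ)) = -f x := rfl
        rw [h'] at h
        linarith
      refine ⟨u', s', fun w' hw' hne => ?_⟩
      obtain ⟨v', hv', rfl⟩ := hVm w' hw'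
      rw [hval, hval]
      exact hf v' hv' (by rintro rfl; exact hne rfl)
    · -- at most two facets through three vertices
      intro x hx y hy z hz hxy hxz hyz T hT hTz
      obtain ⟨x', hx', rfl⟩ := hVm x hx
      obtain ⟨y', hy', rfl⟩ := hVm y hy
      obtain ⟨z', hz', rfl⟩ := hVm z hz
      have hH : Module.finrank ℝ (W × ℝ) = 5 := by
        rw [Module.finrank_prod, hdim, Module.finrank_self]
      set L : W → W × ℝ := fun v => (v, 1) with hL
      have hLinj : Function.Injective L := fun x y h => congrArg Prod.fst h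
      have hconv' := convPos_lift hconv
      have hsnd : ∀ w ∈ V.image L, (LinearMap.snd ℝ W ℝ) w = 1 := by
        intro w hw
        obtain ⟨v, _, rfl⟩ := Finset.mem_image.1 hw
        rfl
      have hT0 := fun F (hF : F ∈ T) => (hGm F).1 (hT hF)
      refine card_three_le_two (V := V.image L) (G := G) (Ψ := Ψ) hH ?_ ?_ (x := L x') (y := L y')
        (z := L z') ?_ T hT ?_
      · intro F hF w hw
        obtain ⟨v, hv, rfl⟩ := Finset.mem_image.1 hw
        have hF' := (hGm F).1 hF
        exact (hΨ F hF'.1 hF'.2.1).2.1 v hv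
      · intro F hF F' hF' hz
        apply hinj F ((hGm F).1 hF) F' ((hGm F').1 hF')
        intro v hv h0
        exact hz (L v) (Finset.mem_image_of_mem _ hv) h0
      · intro a b c h
        exact hconv'.li hsnd (Finset.mem_image_of_mem L hx') (Finset.mem_image_of_mem L hy')
          (Finset.mem_image_of_mem L hz') (hLinj.ne (by rintro rfl; exact hxy rfl))
          (hLinj.ne (by rintro rfl; exact hxz rfl)) (hLinj.ne (by rintro rfl; exact hyz rfl)) h
      · intro F hF
        have h := hTz F hF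
        exact ⟨(hzero F x').1 h.1, (hzero F y').1 h.2.1, (hzero F z').1 h.2.2⟩
  · rw [Finset.card_image_of_injective _ Θ.injective, hVcard]
  · rw [hfin.encard_eq_coe_toFinset_card]
  · intro w hw
    obtain ⟨v, hv, rfl⟩ := hVm w hw
    refine ⟨v, ?_, (hΘ v).symm⟩
    rw [← hV]
    exact hv

end Tr

end TPH
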