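import Pool.Agent.TPH.TrB

/-!
# Three parallel hyperplanes: the bound for polytopes from the bound for flats
-/

set_option autoImplicit false

namespace TPH

/-- **StmtFlatsBound'.** The number of flats is at most a constant times the power `3/2` of the number
of points. -/
def StmtFlatsBound' : Prop := ∃ K : ℕ, ∀ A B C : Finset E, ConvPos A → ConvPos B → ConvPos C →
  (∀ c ∈ C, ∃ r, InR A B c r) →
  (flats A B C).card ^ 2 ≤ K * (A.card + B.card + C.card) ^ 3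

namespace Tr

theorem exists_sorted (t : Fin 3 → ℝ) : ∃ t₁ t₂ t₃ : ℝ, t₁ < t₂ ∧ t₂ < t₃ ∧
    ∀ i, t i = t₁ ∨ t i = t₂ ∨ t i = t₃ := by
  classical
  obtain ⟨T, hT, hc⟩ := Infinite.exists_superset_card_eq (Finset.univ.image t) 3
    (Finset.card_image_le.trans (by simp))
  refine ⟨T.orderEmbOfFin hc 0, T.orderEmbOfFin hc 1, T.orderEmbOfFin hc 2,
    (T.orderEmbOfFin hc).strictMono (by decide), (T.orderEmbOfFin hc).strictMono (by decide),
    fun i => ?_⟩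
  have h1 : t i ∈ T := hT (Finset.mem_image_of_mem _ (Finset.mem_univ _))
  have h2 : t i ∈ Set.range (T.orderEmbOfFin hc) := by
    rw [Finset.range_orderEmbOfFin]; exact h1
  obtain ⟨j, hj⟩ := h2
  rw [← hj]
  fin_cases j
  · exact Or.inl rfl
  · exact Or.inr (Or.inl rfl)
  · exact Or.inr (Or.inr rfl)

variable {W : Type*} [NormedAddCommGroup W] [NormedSpace ℝ W] [FiniteDimensional ℝ W]

/-- **The translation.** -/
theorem main (hEL : StmtEdgeLin) (hdim : Module.finrank ℝ W = 4) {S P : Set W} (hS : S.Finite)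
    (hspan : affineSpan ℝ S = ⊤) (hP : P = convexHull ℝ S) (l : W →ₗ[ℝ] ℝ) (hl : l ≠ 0)
    (t : Fin 3 → ℝ) (ht : ∀ v ∈ P.extremePoints ℝ, ∃ i, l v = t i) (n : ℕ)
    (hn : (P.extremePoints ℝ).encard = n) :
    ∃ (A B C : Finset E) (N : ℕ), ConvPos A ∧ ConvPos B ∧ ConvPos C ∧
      (∀ c ∈ C, ∃ r, InR A B c r) ∧ A.card + B.card + C.card = n ∧
      {F : Set W | IsExposed ℝ P F ∧ Module.finrank ℝ (vectorSpan ℝ F) = 3 ∧
        (F.extremePoints ℝ).encard ≠ 4}.encard = N ∧ N ≤ (flats A B C).card + 29 * n := by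
  obtain ⟨V, G, u, s, q, D, hV, hG, hlV⟩ := exists_facet_data hdim hS hspan hP l hl n hn
  obtain ⟨t₁, t₂, t₃, h12, h23, hts⟩ := exists_sorted t
  have hlay : ∀ v ∈ V, v.2 = t₁ ∨ v.2 = t₂ ∨ v.2 = t₃ := by
    intro v hv
    obtain ⟨x, hx, he⟩ := hlV v hv
    obtain ⟨i, hi⟩ := ht x hx
    rw [← he, hi]
    exact hts i
  obtain ⟨A, B, C, hA, hB, hC, hR, hcard, hN⟩ := count_all D hEL h12 h23 hlay
  exact ⟨A, B, C, G.card, hA, hB, hC, hR, by rw [hcard, hV], hG, by rw [← hV]; exact hN⟩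

/-- **The bound for polytopes.** -/
theorem bound (hEL : StmtEdgeLin) (hFB : StmtFlatsBound') : ∃ K : ℝ, 0 < K ∧
    ∀ {W : Type} [NormedAddCommGroup W] [NormedSpace ℝ W] [FiniteDimensional ℝ W],
    Module.finrank ℝ W = 4 → ∀ S P : Set W, S.Finite → affineSpan ℝ S = ⊤ → P = convexHull ℝ S →
    ∀ l : W →ₗ[ℝ] ℝ, l ≠ 0 → ∀ t : Fin 3 → ℝ, (∀ v ∈ P.extremePoints ℝ, ∃ i, l v = t i) →
    ∀ n : ℕ, (P.extremePoints ℝ).encard = n →
    ∃ N : ℕ, {F : Set W | IsExposed ℝ P F ∧ Module.finrank ℝ (vectorSpan ℝ F) = 3 ∧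
        (F.extremePoints ℝ).encard ≠ 4}.encard = N ∧ (N : ℝ) ≤ K * (n : ℝ) ^ (3 / 2 : ℝ) := by
  obtain ⟨K, hK⟩ := hFB
  refine ⟨√K + 29, by positivity, ?_⟩
  intro W _ _ _ hdim S P hS hspan hP l hl t ht n hn
  obtain ⟨A, B, C, N, hA, hB, hC, hR, hcard, hNe, hN⟩ :=
    main hEL hdim hS hspan hP l hl t ht n hn
  refine ⟨N, hNe, ?_⟩
  have h1 := hK A B C hA hB hC hR
  rw [hcard] at h1
  have h2 : ((flats A B C).card : ℝ) ^ 2 ≤ K * (n : ℝ) ^ 3 := by exact_mod_cast h1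
  have hn0 : (0 : ℝ) ≤ n := Nat.cast_nonneg n
  have h3 : ((n : ℝ) ^ (3 / 2 : ℝ)) ^ 2 = (n : ℝ) ^ 3 := by
    rw [← Real.rpow_natCast, ← Real.rpow_mul hn0, ← Real.rpow_natCast]
    norm_num
  have h4 : (0 : ℝ) ≤ (n : ℝ) ^ (3 / 2 : ℝ) := Real.rpow_nonneg hn0 _
  have h5 : ((flats A B C).card : ℝ) ≤ √K * (n : ℝ) ^ (3 / 2 : ℝ) := by
    apply le_of_sq_le_sq _ (by positivity)
    rw [mul_pow, Real.sq_sqrt (Nat.cast_nonneg K), h3]
    exact h2
  have h6 : (n : ℝ) ≤ (n : ℝ) ^ (3 / 2 : ℝ) := by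
    rcases Nat.eq_zero_or_pos n with h | h
    · rw [h]
      norm_num
    · have h1n : (1 : ℝ) ≤ n := by exact_mod_cast h
      calc (n : ℝ) = (n : ℝ) ^ (1 : ℝ) := (Real.rpow_one _).symm
        _ ≤ (n : ℝ) ^ (3 / 2 : ℝ) := Real.rpow_le_rpow_of_exponent_le h1n (by norm_num)
  have h7 : (N : ℝ) ≤ (flats A B C).card + 29 * n := by exact_mod_cast hN
  nlinarith

end Tr

end TPH
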