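import Pool.Agent.TPH.St4

/-!
# Three parallel hyperplanes: both sets of bad gaps are small (module BadAB)
-/

set_option autoImplicit false

namespace TPH

namespace MBadAB

theorem det3_swap (w s t : E) : det3 w t s = - det3 w s t := by
  unfold det3
  ring

theorem mem_BdA {A B : Finset E} {X : Finset Fl} {u z c' : Fl → E} {σ : Fl → ℝ}
    {lab : Fl → Fin 8} {x : Fl} (h : x ∈ BdA A B X u z c' σ lab) : x ∈ X ∧
    ∃ x' ∈ X, Same c' lab x x' ∧ 0 < σ x * det3 (x.2.1 - c' x) (z x) (z x') ∧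
    (∀ k ∈ X, Same c' lab x k → ¬ (0 < σ x * det3 (x.2.1 - c' x) (z x) (z k) ∧
      0 < σ x * det3 (x.2.1 - c' x) (z k) (z x'))) ∧
    ¬ Good A B x.2.1 (z x) (u x) (z x') (u x') := by
  exact (@Finset.mem_filter Fl _ (Classical.decPred _) X x).1 h

theorem injB {A B C : Finset E} {X : Finset Fl} {u z y c' : Fl → E} {σ : Fl → ℝ}
    {lab : Fl → Fin 8} (h : MD A B C X u z y c' σ lab) {x x' : Fl} (hx : x ∈ X) (hx' : x' ∈ X)
    (hs : Same c' lab x x') (h0 : det3 (x.2.1 - c' x) (y x) (y x') = 0) : x = x' := by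
  refine h.inj x hx x' hx' hs ?_
  have hs' : Same c' lab x' x := ⟨hs.1.symm, hs.2.1.symm, hs.2.2.symm⟩
  have h1 := h.ag x hx x' hx' hs
  have h2 := h.ag x' hx' x hx hs'
  rw [← hs.1, ← hs.2.1, ← h.sσ x hx x' hx' hs, det3_swap _ (z x), det3_swap _ (y x), h0] at h2
  rw [h0] at h1
  have h3 : ¬ 0 < σ x * det3 (x.2.1 - c' x) (z x) (z x') := fun h4 => by
    have := h1.1 h4
    simp at this
  have h5 : ¬ 0 < σ x * -det3 (x.2.1 - c' x) (z x) (z x') := fun h4 => by
    have := h2.1 h4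
    simp at this
  rcases h.sg x hx with h6 | h6
  · rw [h6] at h3 h5
    linarith
  · rw [h6] at h3 h5
    linarith

end MBadAB

theorem t_BadAB (hBadCount : StmtBadCount) : StmtBadAB := by
  intro A B C X u z y c' σ lab hA hB hC h
  constructor
  · refine hBadCount Fl X (BdA A B X u z c' σ lab) A B C (fun x => x.1) (fun x => x.2.1) c' u z lab σ
      hA hC (fun x hx => (h.gd x hx).hA) h.sg
      (fun x hx x' hx' hs => ⟨h.sσ x hx x' hx' hs, h.mA x hx x' hx' hs⟩)
      (fun x hx x' hx' hs h0 => h.inj x hx x' hx' hs h0)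
      (fun x hx => (MBadAB.mem_BdA hx).1) (fun x hx => ?_)
    exact (MBadAB.mem_BdA hx).2
  · refine hBadCount Fl X (BdA B A X u y c' σ lab) B A C (fun x => x.2.2) (fun x => x.2.1) c' u y lab σ
      hB hC (fun x hx => (h.gd x hx).hB) h.sg
      (fun x hx x' hx' hs => ⟨h.sσ x hx x' hx' hs, h.mB x hx x' hx' hs⟩)
      (fun x hx x' hx' hs h0 => MBadAB.injB h hx hx' hs h0)
      (fun x hx => (MBadAB.mem_BdA hx).1) (fun x hx => ?_)
    exact (MBadAB.mem_BdA hx).2

end TPH
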