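import Pool.Agent.TPH.St3

/-!
# Three parallel hyperplanes: a gap that is not good has a charge
-/

set_option autoImplicit false

namespace TPH

namespace MBadCharge

theorem pth_zero (p q : E) : pth p q 0 = p := by
  rw [pth, sub_zero, one_smul, zero_smul, add_zero]

theorem pth_one (p q : E) : pth p q 1 = q := by
  rw [pth, sub_self, one_smul, zero_smul, zero_add]

theorem pth_eq (p q : E) (t : ℝ) : pth p q t = p + t • (q - p) := by
  rw [pth, sub_smul, one_smul, smul_sub]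
  abel

theorem pair_ne {C : Finset E} {c c' : E} (hC : 3 ≤ C.card) : C ≠ {c, c'} := by
  intro h
  rw [h] at hC
  have := Finset.card_le_two (a := c) (b := c')
  omega

/-- A functional which is positive at `s` and zero at `q`, and vanishes on the plane of the edge. -/
theorem side {z u s q d : E} (hcr : cr z u ≠ 0) (hz : ip d z = 0) (hu : ip d u = 0)
    (hs : 0 < ip d s) (hq : ip d q = 0) (hdet : 0 < det3 z s u * det3 z q u) : False := by
  obtain ⟨k, hk⟩ := par_cr_of_ip hcr hz hu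
  have h1 : ∀ v, ip d v = -k * det3 z v u := by
    intro v
    rw [hk, ip_smul_left, ip_cr, det3_swap23 z v u]
    ring
  rw [h1] at hs hq
  rcases mul_eq_zero.mp hq with h | h
  · rw [h, zero_mul] at hs
    exact lt_irrefl _ hs
  · rw [h, mul_zero] at hdet
    exact lt_irrefl _ hdet

end MBadCharge

open MBadCharge in
theorem t_BadCharge (hSegZ : StmtSegZ) (hIntIn : StmtIntIn) (hFirstBad : StmtFirstBad)
    (hRegTie : StmtRegTie) (hSameNbr : StmtSameNbr) (hRegCorner : StmtRegCorner)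
    (hCornerNbr : StmtCornerNbr) (hTwoMax : StmtTwoMax) : StmtBadCharge := by
  intro A B C e₁ e₂ c c' u₁ z₁ u₂ z₂ hA hC h₁ h₂ hpos hmiss hng
  obtain ⟨q, a, a₂, hq, hl, haq, ha₂q, ⟨α, β, hα, hβ, hs⟩, hnr⟩ :=
    hTwoMax A B C e₁ e₂ c c' u₁ z₁ u₂ z₂ h₁ h₂ hpos hng
  obtain ⟨hωq, hseg⟩ := hSegZ A B C e₁ e₂ c c' u₁ z₁ u₂ z₂ q h₁ h₂ hpos hmiss hq hl
  set s := α • z₁ + β • z₂ with hsdef
  have hne2 : a₂ ≠ a := by
    rintro rfl
    exact hnr ⟨α, β, hα, hβ, hs⟩
  have hCs : Mx C s = {c, c'} :=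
    Mx_comb_left hα hβ.le ⟨c, by simp⟩ h₁.cz (by rw [h₂.cz])
  have hωs : ip (c - c') s = 0 := by
    rw [hsdef, ip_add_right, ip_smul_right, ip_smul_right, h₁.wz, h₂.wz]
    ring
  have hs0 : s ≠ 0 := by
    intro h0
    rw [h0, Mx_zero] at hCs
    exact pair_ne hC hCs
  have hq0 : q ≠ 0 := by
    rintro rfl
    exact not_inR_zero h₁.A_ne h₁.B_ne c hq
  have hNA : c' ∈ NA C A c a := mem_NA.mpr ⟨h₁.ne.symm, s, hCs, hs⟩
  have hFc : (a, c) ∈ Fc A C := by
    obtain ⟨ε₀, h0, h⟩ := Mx_pert3 A A C s (c - c')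
    obtain ⟨k1, -, k3⟩ := h (ε₀ / 2) (by linarith) (by linarith)
    refine mem_Fc.mpr ⟨s + (ε₀ / 2) • (c - c'), ?_, ?_⟩
    · rw [k1, hs, Mx_singleton]
    · rw [k3, hCs]
      apply Mx_pair_left
      have := ip_self_pos (sub_ne_zero.mpr h₁.ne)
      rw [ip_sub_left] at this
      linarith
  by_cases hreg : Reg A C a c
  swap
  · exact ⟨a, c, c', mem_Sp.mpr ⟨hFc, hreg⟩, hNA, α, β, hα, hβ, hs, Or.inl ⟨rfl, rfl, hreg⟩⟩
  have hSeg : Seg A C a c s q := by
    refine ⟨by rw [hs]; simp, haq, ?_, ?_, hreg⟩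
    · intro t ht0 ht1 hz
      rcases ht0.eq_or_lt with h | h
      · rw [← h, pth_zero] at hz
        exact hs0 hz
      · have hp : pth s q t = ((1 - t) * α) • z₁ + ((1 - t) * β) • z₂ + t • q := by
          rw [pth, hsdef, smul_add, smul_smul, smul_smul]
        have := hseg ((1 - t) * α) ((1 - t) * β) t (mul_nonneg (by linarith) hα.le)
          (mul_nonneg (by linarith) hβ.le) h
        rw [← hp, hz] at this
        rcases this with h5 | h5
        · exact not_inR_zero h₁.A_ne h₁.B_ne c h5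
        · rw [Mx_zero] at h5
          rw [h5, Finset.card_singleton] at hC
          omega
    · obtain ⟨ε₀, h0, h⟩ := Mx_pert C s (q - s)
      refine ⟨ε₀, h0, fun t ht htε => ?_⟩
      rw [pth_eq, h t ht htε, hCs]
      apply Mx_pair_left
      have h5 : 0 < ip (c - c') (q - s) := by
        rw [ip_sub_right, hωs, sub_zero]
        exact hωq
      rw [ip_sub_left] at h5
      linarith
  by_cases hall : ∀ t, 0 < t → t ≤ 1 → ∀ d ∈ Mx C (pth s q t), Reg A C a d
  swap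
  · push Not at hall
    obtain ⟨t, ht0, ht1, d, hd, hdr⟩ := hall
    obtain ⟨t', c₁, c₂, hst⟩ := hFirstBad A C a c s q hA hC hSeg ⟨t, d, ht0, ht1, hd, hdr⟩
    exact ⟨a, c₁, c₂, mem_Sp.mpr ⟨hst.fc, hst.bad⟩, hst.nbr, α, β, hα, hβ, hs,
      Or.inr ⟨q, t', hq, hl, hSeg, hst⟩⟩
  exfalso
  have hCne : C.Nonempty := ⟨c, h₁.c_mem⟩
  obtain ⟨d, hd⟩ := Mx_nonempty hCne q
  have hd1 : d ∈ Mx C (pth s q 1) := by rw [pth_one]; exact hd
  have hNAd := hSameNbr A C a c s q hA hC hSeg hall 1 one_pos le_rfl d hd1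
  have hregd := hall 1 one_pos le_rfl d hd1
  have hAq : Mx A q = {a, a₂} ∧ a₂ ∈ NA A C a c := by
    rcases (hRegTie A C a d q hA hregd hq0 haq hd).1 with h | ⟨a', ha', h⟩
    · rw [h, Finset.mem_singleton] at ha₂q
      exact absurd ha₂q hne2
    · rw [h, Finset.mem_insert, Finset.mem_singleton] at ha₂q
      rcases ha₂q with h5 | h5
      · exact absurd h5 hne2
      · rw [h5]
        exact ⟨h, hNAd ▸ ha'⟩
  obtain ⟨hAq, ha₂N⟩ := hAq
  have hcor := hRegCorner A C a c a₂ c' hA hreg ha₂N hNA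
  obtain ⟨-, -, ⟨ρ, hρA, hρC⟩, -⟩ := id hcor
  obtain ⟨α', β', hα', hβ', hρ, -⟩ := hIntIn A B C e₁ e₂ c c' u₁ z₁ u₂ z₂ a ρ α β hC h₁ h₂ hpos
    hα hβ hs hρC (by rw [hρA]; simp)
  have hρ0 : ρ ≠ 0 := by
    intro h0
    rw [h0, Mx_zero] at hρC
    exact pair_ne hC hρC
  have hdρ : ip (a - a₂) ρ = 0 := by
    have := Mx_eq (A := A) (u := ρ) (a := a) (a' := a₂) (by rw [hρA]; simp) (by rw [hρA]; simp)
    rw [ip_sub_left, this, sub_self]
  have hdq : ip (a - a₂) q = 0 := by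
    have := Mx_eq haq ha₂q
    rw [ip_sub_left, this, sub_self]
  have ha₂A : a₂ ∈ A := Mx_subset _ _ ha₂q
  have hds : 0 < ip (a - a₂) s := by
    have := Mx_lt (A := A) (u := s) (a := a) (a' := a₂) (by rw [hs]; simp) ha₂A
      (by rw [hs, Finset.mem_singleton]; exact hne2)
    rw [ip_sub_left]
    linarith
  have hd1u : 0 < det3 z₁ z₂ u₁ := (h₁.det_pos_iff h₂ h₁.wu).1.mpr hpos
  have hd2u : 0 < det3 z₁ z₂ u₂ := (h₁.det_pos_iff h₂ h₂.wu).1.mpr hpos
  obtain ⟨hlu1, hlu2⟩ := (h₁.lune_iff h₂ hpos q).mp hl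
  rcases hβ'.eq_or_lt with hb | hb
  · -- the ray is that of `z₁`
    rw [← hb, zero_smul, add_zero] at hρ
    have hα'0 : 0 < α' := by
      rcases hα'.eq_or_lt with h | h
      · rw [← h, zero_smul] at hρ
        exact absurd hρ hρ0
      · exact h
    have he : e₁ = {a, a₂} := by
      rw [← h₁.ez, ← hρA, hρ, Mx_smul hα'0]
    have hz : ip (a - a₂) z₁ = 0 := by
      have := h₁.perp_z
      rw [he, perp_pair] at this
      rw [ip_sub_left, this, sub_self]
    have hu : ip (a - a₂) u₁ = 0 := by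
      have := h₁.perp_u
      rw [he, perp_pair] at this
      rw [ip_sub_left, this, sub_self]
    refine side h₁.cr_ne hz hu hds hdq (mul_pos ?_ hlu1)
    rw [hsdef, det3_add2, det3_smul2, det3_smul2, det3_self12, mul_zero, zero_add]
    exact mul_pos hβ hd1u
  rcases hα'.eq_or_lt with ha | ha
  · -- the ray is that of `z₂`
    rw [← ha, zero_smul, zero_add] at hρ
    have he : e₂ = {a, a₂} := by
      rw [← h₂.ez, ← hρA, hρ, Mx_smul hb]
    have hz : ip (a - a₂) z₂ = 0 := by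
      have := h₂.perp_z
      rw [he, perp_pair] at this
      rw [ip_sub_left, this, sub_self]
    have hu : ip (a - a₂) u₂ = 0 := by
      have := h₂.perp_u
      rw [he, perp_pair] at this
      rw [ip_sub_left, this, sub_self]
    refine side h₂.cr_ne hz hu hds hdq (mul_pos_of_neg_of_neg ?_ hlu2)
    rw [hsdef, det3_add2, det3_smul2, det3_smul2, det3_self12, mul_zero, add_zero,
      det3_swap12 z₁ z₂ u₂]
    have := mul_pos hα hd2u
    linarith
  -- both coefficients are positive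
  have hnot : ¬ (ip (a - a₂) z₁ = 0 ∧ ip (a - a₂) z₂ = 0) := by
    rintro ⟨k1, k2⟩
    obtain ⟨w, hw1, hw2⟩ := (hCornerNbr A C a a₂ c c' hcor).2.2.2.2.2.2 1 0
    have hcr : cr z₁ z₂ ≠ 0 := by
      intro h0
      have h6 : det3 (c - c') z₁ z₂ = det3 z₁ z₂ (c - c') := by
        simp only [det3]; ring
      rw [h6, ← ip_cr, h0, ip_zero_left] at hpos
      exact lt_irrefl _ hpos
    obtain ⟨x, y, hxy⟩ := comb_of_perp (sub_ne_zero.mpr h₁.ne) hcr h₁.wz h₂.wz hw2
    rw [hxy, ip_add_right, ip_smul_right, ip_smul_right, k1, k2] at hw1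
    norm_num at hw1
  have hsum : α' * ip (a - a₂) z₁ + β' * ip (a - a₂) z₂ = 0 := by
    rw [hρ, ip_add_right, ip_smul_right, ip_smul_right] at hdρ
    exact hdρ
  rcases lt_trichotomy (ip (a - a₂) z₁) 0 with hlt | h0 | hgt
  · obtain ⟨ε₀, hε, h⟩ := Mx_pert A ρ z₁
    apply hnr
    refine ⟨α' + ε₀ / 2, β', by linarith, hb, ?_⟩
    have h5 : (α' + ε₀ / 2) • z₁ + β' • z₂ = ρ + (ε₀ / 2) • z₁ := by
      rw [hρ, add_smul]; abel
    rw [h5, h (ε₀ / 2) (by linarith) (by linarith), hρA]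
    apply Mx_pair_right
    rw [ip_sub_left] at hlt
    linarith
  · have h5 : ip (a - a₂) z₂ = 0 := by
      rw [h0, mul_zero, zero_add] at hsum
      rcases mul_eq_zero.mp hsum with h | h
      · exact absurd h hb.ne'
      · exact h
    exact hnot ⟨h0, h5⟩
  · have hlt : ip (a - a₂) z₂ < 0 := by
      by_contra hcon
      push Not at hcon
      have := mul_pos ha hgt
      have := mul_nonneg hb.le hcon
      linarith
    obtain ⟨ε₀, hε, h⟩ := Mx_pert A ρ z₂
    apply hnr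
    refine ⟨α', β' + ε₀ / 2, ha, by linarith, ?_⟩
    have h5 : α' • z₁ + (β' + ε₀ / 2) • z₂ = ρ + (ε₀ / 2) • z₂ := by
      rw [hρ, add_smul]; abel
    rw [h5, h (ε₀ / 2) (by linarith) (by linarith), hρA]
    apply Mx_pair_right
    rw [ip_sub_left] at hlt
    linarith

end TPH
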