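import Pool.Agent.TPH.St4

/-!
# The number of bad consecutive gaps is linear (BadCount)
-/

set_option autoImplicit false

namespace TPH

namespace MBadCount

/-- The data of the bad gap at `x`. -/
def Dat (A B C : Finset E) {ι : Type} (X : Finset ι) (c c' z : ι → E) (lab : ι → Fin 8)
    (σ : ι → ℝ) (x : ι) (a c₁ c₂ : E) : Prop :=
  (a, c₁) ∈ Sp A C ∧ c₂ ∈ NA C A c₁ a ∧ ∃ y ∈ X, SameC c c' lab x y ∧
    0 < σ x * det3 (c x - c' x) (z x) (z y) ∧
    (∀ k ∈ X, SameC c c' lab x k → ¬ (0 < σ x * det3 (c x - c' x) (z x) (z k) ∧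
      0 < σ x * det3 (c x - c' x) (z k) (z y))) ∧
    ∃ (e₁ e₂ : Finset E) (u₁ z₁ u₂ z₂ : E), Gap A B C e₁ e₂ (c x) (c' x) u₁ z₁ u₂ z₂ ∧
      Chg A B C (c x) (c' x) z₁ u₁ z₂ u₂ a c₁ c₂ ∧
      ((z₁ = z x ∧ z₂ = z y) ∨ (z₁ = z y ∧ z₂ = z x))

theorem exDat (hBadCharge : StmtBadCharge) {ι : Type} {X : Finset ι} {A B C : Finset E}
    {e : ι → Finset E} {c c' u z : ι → E} {lab : ι → Fin 8} {σ : ι → ℝ} (hA : 3 ≤ A.card)
    (hC : 3 ≤ C.card) (hHF : ∀ x ∈ X, HF A B C (e x) (c x) (c' x) (u x) (z x))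
    (hσ : ∀ x ∈ X, σ x = 1 ∨ σ x = -1)
    (hsm : ∀ x ∈ X, ∀ y ∈ X, SameC c c' lab x y → σ x = σ y ∧ Miss A B (c x) (z x) (z y))
    {x y : ι} (hx : x ∈ X) (hy : y ∈ X) (hs : SameC c c' lab x y)
    (hpos : 0 < σ x * det3 (c x - c' x) (z x) (z y))
    (hk : ∀ k ∈ X, SameC c c' lab x k → ¬ (0 < σ x * det3 (c x - c' x) (z x) (z k) ∧
      0 < σ x * det3 (c x - c' x) (z k) (z y)))
    (hng : ¬ Good A B (c x) (z x) (u x) (z y) (u y)) :
    ∃ a c₁ c₂, Dat A B C X c c' z lab σ x a c₁ c₂ := by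
  have h1 := hHF x hx
  have h2 : HF A B C (e y) (c x) (c' x) (u y) (z y) := by
    rw [hs.1, hs.2.1]; exact hHF y hy
  have hm := (hsm x hx y hy hs).2
  rcases hσ x hx with h | h
  · have hp : 0 < det3 (c x - c' x) (z x) (z y) := by
      rw [h, one_mul] at hpos; exact hpos
    obtain ⟨a, c₁, c₂, g1, g2, g3⟩ := hBadCharge A B C (e x) (e y) (c x) (c' x) (u x) (z x) (u y)
      (z y) hA hC h1 h2 hp hm hng
    exact ⟨a, c₁, c₂, g1, g2, y, hy, hs, hpos, hk, e x, e y, u x, z x, u y, z y,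
      ⟨h1, h2, hp, hm⟩, g3, Or.inl ⟨rfl, rfl⟩⟩
  · have hp : 0 < det3 (c x - c' x) (z y) (z x) := by
      rw [det3_swap23]
      rw [h] at hpos
      linarith
    have hm' := Miss_swap.1 hm
    obtain ⟨a, c₁, c₂, g1, g2, g3⟩ := hBadCharge A B C (e y) (e x) (c x) (c' x) (u y) (z y) (u x)
      (z x) hA hC h2 h1 hp hm' (fun hg => hng (Good_swap.1 hg))
    exact ⟨a, c₁, c₂, g1, g2, y, hy, hs, hpos, hk, e y, e x, u y, z y, u x, z x,
      ⟨h2, h1, hp, hm'⟩, g3, Or.inr ⟨rfl, rfl⟩⟩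

/-- Transitivity of the order of the rays of the arc. -/
theorem trans (hBetween : StmtBetween) {C : Finset E} {c c' p s t : E} {σ : ℝ} (hC : 3 ≤ C.card)
    (hne : c ≠ c') (hσ : σ = 1 ∨ σ = -1) (hp : Mx C p = {c, c'}) (hs : Mx C s = {c, c'})
    (ht : Mx C t = {c, c'}) (h1 : 0 < σ * det3 (c - c') p s) (h2 : 0 < σ * det3 (c - c') s t) :
    0 < σ * det3 (c - c') p t := by
  rcases hσ with h | h
  · subst h
    rw [one_mul] at h1 h2 ⊢
    exact (hBetween C c c' p s t hC hne hp hs ht h1 h2).1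
  · subst h
    have e1 := det3_swap23 (c - c') s p
    have e2 := det3_swap23 (c - c') t s
    have e3 := det3_swap23 (c - c') t p
    have h3 := (hBetween C c c' t s p hC hne ht hs hp (by linarith) (by linarith)).1
    linarith

/-- The common point of two gaps. -/
theorem core (hBetween : StmtBetween) {C : Finset E} {c c' zx zy zt s : E} {σ : ℝ}
    (hC : 3 ≤ C.card) (hne : c ≠ c') (hσ : σ = 1 ∨ σ = -1) (hzy : Mx C zy = {c, c'})
    (hzt : Mx C zt = {c, c'}) (hs : Mx C s = {c, c'})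
    (h0 : 0 < σ * det3 (c - c') zx zy) {p q : ℝ} (hp : 0 < p) (e1 : s = p • zx + q • zy)
    (h2 : 0 < σ * det3 (c - c') zt s) : 0 < σ * det3 (c - c') zt zy := by
  refine trans hBetween hC hne hσ hzt hs hzy h2 ?_
  rw [e1, det3_add2, det3_smul2, det3_smul2, det3_self23]
  have := mul_pos hp h0
  linarith

/-- A point of the open cone comes after `zx`. -/
theorem after {c c' zx zy s : E} {σ : ℝ} (h0 : 0 < σ * det3 (c - c') zx zy) {p q : ℝ}
    (hq : 0 < q) (e1 : s = p • zx + q • zy) : 0 < σ * det3 (c - c') zx s := by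
  rw [e1, det3_add3, det3_smul3, det3_smul3, det3_self23]
  have := mul_pos hq h0
  linarith

theorem inj (hBetween : StmtBetween) (hGapInj : StmtGapInj) {ι : Type} {X : Finset ι}
    {A B C : Finset E} {e : ι → Finset E} {c c' u z : ι → E} {lab : ι → Fin 8} {σ : ι → ℝ}
    (hA : 3 ≤ A.card) (hC : 3 ≤ C.card)
    (hHF : ∀ x ∈ X, HF A B C (e x) (c x) (c' x) (u x) (z x))
    (hσ : ∀ x ∈ X, σ x = 1 ∨ σ x = -1)
    (hsm : ∀ x ∈ X, ∀ y ∈ X, SameC c c' lab x y → σ x = σ y ∧ Miss A B (c x) (z x) (z y))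
    (hdet : ∀ x ∈ X, ∀ y ∈ X, SameC c c' lab x y → det3 (c x - c' x) (z x) (z y) = 0 → x = y)
    {x x' : ι} (hx : x ∈ X) (hx' : x' ∈ X) {a c₁ c₂ : E}
    (hd : Dat A B C X c c' z lab σ x a c₁ c₂) (hd' : Dat A B C X c c' z lab σ x' a c₁ c₂)
    (hl : lab x = lab x') : x = x' := by
  obtain ⟨-, -, y, hy, hs, hpos, hk, e₁, e₂, u₁, z₁, u₂, z₂, hG, hCh, hor⟩ := hd
  obtain ⟨-, -, y', hy', hs', hpos', hk', g₁, g₂, v₁, w₁, v₂, w₂, hG', hCh', hor'⟩ := hd'
  obtain ⟨hcc, hcc', α, β, α', β', hα, hβ, hα', hβ', hE⟩ := hGapInj A B C e₁ e₂ g₁ g₂ (c x) (c' x)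
    u₁ z₁ u₂ z₂ (c x') (c' x') v₁ w₁ v₂ w₂ a c₁ c₂ hA hC hG hG' hCh hCh'
  have hss : SameC c c' lab x x' := ⟨hcc, hcc', hl⟩
  have hss' : SameC c c' lab x' x := ⟨hcc.symm, hcc'.symm, hl.symm⟩
  have hσσ := (hsm x hx x' hx' hss).1
  have hne : c x ≠ c' x := (hHF x hx).ne
  -- the common point in both descriptions
  obtain ⟨p, q, hp, hq, e1⟩ : ∃ p q : ℝ, 0 < p ∧ 0 < q ∧
      α • z₁ + β • z₂ = p • z x + q • z y := by
    rcases hor with ⟨rfl, rfl⟩ | ⟨rfl, rfl⟩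
    · exact ⟨α, β, hα, hβ, rfl⟩
    · exact ⟨β, α, hβ, hα, add_comm _ _⟩
  obtain ⟨p', q', hp', hq', e2⟩ : ∃ p q : ℝ, 0 < p ∧ 0 < q ∧
      α • z₁ + β • z₂ = p • z x' + q • z y' := by
    rcases hor' with ⟨rfl, rfl⟩ | ⟨rfl, rfl⟩
    · exact ⟨α', β', hα', hβ', hE⟩
    · exact ⟨β', α', hβ', hα', hE.trans (add_comm _ _)⟩
  set s := α • z₁ + β • z₂ with hsdef
  rw [← hσσ, ← hcc, ← hcc'] at hpos'
  have mx : Mx C (z x) = {c x, c' x} := (hHF x hx).cz
  have my : Mx C (z y) = {c x, c' x} := by rw [hs.1, hs.2.1]; exact (hHF y hy).cz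
  have mx' : Mx C (z x') = {c x, c' x} := by rw [hcc, hcc']; exact (hHF x' hx').cz
  have my' : Mx C (z y') = {c x, c' x} := by
    rw [hcc, hcc', hs'.1, hs'.2.1]; exact (hHF y' hy').cz
  have ms : Mx C s = {c x, c' x} := by
    have m1 : c x ∈ Mx C (z x) := by rw [mx]; simp
    have m2 : c x ∈ Mx C (z y) := by rw [my]; simp
    rw [e1, Mx_comb hp hq m1 m2, mx, my, Finset.inter_self]
  have hσx := hσ x hx
  by_contra hxx
  have hD : det3 (c x - c' x) (z x) (z x') ≠ 0 := fun h => hxx (hdet x hx x' hx' hss h)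
  have hσ0 : σ x ≠ 0 := by
    rcases hσx with h | h <;> rw [h] <;> norm_num
  rcases lt_or_gt_of_ne (mul_ne_zero hσ0 hD) with hlt | hgt
  · -- `z x' < z x`
    have h1 : 0 < σ x * det3 (c x - c' x) (z x') (z x) := by
      rw [det3_swap23]; linarith
    have h2 : 0 < σ x * det3 (c x - c' x) (z x) (z y') :=
      core hBetween hC hne hσx my' mx ms hpos' hp' e2 (after hpos hq e1)
    refine hk' x hx hss' ?_
    rw [← hσσ, ← hcc, ← hcc']
    exact ⟨h1, h2⟩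
  · have h2 : 0 < σ x * det3 (c x - c' x) (z x') (z y) :=
      core hBetween hC hne hσx my mx' ms hpos hp e1 (after hpos' hq' e2)
    exact hk x' hx' hss ⟨hgt, h2⟩

end MBadCount

open MBadCount in
theorem t_BadCount (hBetween : StmtBetween) (hBadCharge : StmtBadCharge) (hGapInj : StmtGapInj) :
    StmtBadCount := by
  intro ι X Bd A B C e c c' u z lab σ hA hC hHF hσ hsm hdet hBd hbad
  have hex : ∀ x ∈ Bd, ∃ a c₁ c₂, Dat A B C X c c' z lab σ x a c₁ c₂ := by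
    intro x hx
    obtain ⟨y, hy, hs, hpos, hk, hng⟩ := hbad x hx
    exact exDat hBadCharge hA hC hHF hσ hsm (hBd hx) hy hs hpos hk hng
  choose! fa f1 f2 hf using hex
  let T : Finset ((Σ _ : E × E, E) × Fin 8) :=
    ((Sp A C).sigma (fun p => NA C A p.2 p.1)) ×ˢ (Finset.univ : Finset (Fin 8))
  have hcard : Bd.card ≤ T.card := by
    refine Finset.card_le_card_of_injOn (fun x => (⟨(fa x, f1 x), f2 x⟩, lab x)) ?_ ?_
    · intro x hx
      have h := hf x hx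
      simp only [T, Finset.coe_product, Finset.coe_univ, Set.mem_prod, Set.mem_univ, and_true,
        Finset.mem_coe, Finset.mem_sigma]
      exact ⟨h.1, h.2.1⟩
    · intro x hx x' hx' he
      have h := hf x hx
      have h' := hf x' hx'
      simp only [Prod.mk.injEq, Sigma.mk.injEq, heq_eq_eq] at he
      obtain ⟨⟨⟨ea, e1⟩, e2⟩, el⟩ := he
      rw [← ea, ← e1, ← e2] at h'
      exact inj hBetween hGapInj hA hC hHF hσ hsm hdet (hBd hx) (hBd hx') h h' el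
  refine hcard.trans ?_
  have h1 : T.card = (∑ p ∈ Sp A C, (NA C A p.2 p.1).card) * 8 := by
    simp only [T, Finset.card_product, Finset.card_sigma, Finset.card_univ, Fintype.card_fin]
  rw [h1, mul_comm]
  refine Nat.mul_le_mul_left 8 ?_
  unfold spSum
  exact Finset.sum_le_sum fun p _ => Nat.le_add_left _ _

end TPH
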