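import Pool.Agent.TPH.St3

/-!
# Between: a ray of the arc between two others is a positive combination of them
-/

set_option autoImplicit false

namespace TPH

theorem t_Between : StmtBetween := by
  intro C c c' p s t hC hcc hp hs ht h1 h2
  have hw : c - c' ≠ 0 := sub_ne_zero.mpr hcc
  have mem1 : ∀ v : E, Mx C v = {c, c'} → c ∈ Mx C v := by
    intro v hv; rw [hv]; simp
  have mem2 : ∀ v : E, Mx C v = {c, c'} → c' ∈ Mx C v := by
    intro v hv; rw [hv]; simp
  have perp : ∀ v : E, Mx C v = {c, c'} → ip (c - c') v = 0 := by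
    intro v hv
    rw [ip_sub_left, Mx_eq (mem1 v hv) (mem2 v hv), sub_self]
  obtain ⟨c'', hc''C, hc''⟩ : ∃ c'' ∈ C, c'' ∉ ({c, c'} : Finset E) := by
    by_contra hcon
    push Not at hcon
    have hsub : C ⊆ {c, c'} := fun x hx => hcon x hx
    have h3 := Finset.card_le_card hsub
    have h4 : ({c, c'} : Finset E).card ≤ 2 := Finset.card_le_two
    omega
  have pos : ∀ v : E, Mx C v = {c, c'} → 0 < ip (c - c'') v := by
    intro v hv
    have := Mx_lt (mem1 v hv) hc''C (by rw [hv]; exact hc'')
    rw [ip_sub_left]; linarith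
  have hpp := pos p hp
  have hps := pos s hs
  have hpt := pos t ht
  have hpl := plucker hw (perp p hp) (perp s hs) (perp t ht)
  have hip : det3 (c - c') s t * ip (c - c'') p - det3 (c - c') p t * ip (c - c'') s
      + det3 (c - c') p s * ip (c - c'') t = 0 := by
    have := congrArg (fun v => ip (c - c'') v) hpl
    simpa only [ip_add_right, ip_sub_right, ip_smul_right, ip_zero_right] using this
  have hpos : 0 < det3 (c - c') p t * ip (c - c'') s := by
    have e1 := mul_pos h2 hpp
    have e2 := mul_pos h1 hpt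
    linarith
  have hPT : 0 < det3 (c - c') p t := (pos_iff_pos_of_mul_pos hpos).mpr hps
  refine ⟨hPT, det3 (c - c') s t / det3 (c - c') p t, det3 (c - c') p s / det3 (c - c') p t,
    div_pos h2 hPT, div_pos h1 hPT, ?_⟩
  have hne := hPT.ne'
  funext i
  have hi := congrFun hpl i
  simp only [Pi.smul_apply, Pi.add_apply, Pi.sub_apply, Pi.zero_apply, smul_eq_mul] at hi ⊢
  field_simp
  linarith

end TPH
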