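import Pool.Agent.TPH.St1

/-!
# Regular cells which share a side of the second kind have the same neighbours of the first kind
-/

set_option autoImplicit false

namespace TPH

namespace MConstNbr

theorem sub_NA {A C : Finset E} {a c₁ c₂ : E} (hRegCorner : StmtRegCorner)
    (hCornerNbr : StmtCornerNbr) (hA : 3 ≤ A.card) (h1 : Reg A C a c₁)
    (h12 : c₂ ∈ NA C A c₁ a) : NA A C a c₁ ⊆ NA A C a c₂ := by
  intro a' ha'
  have h := hRegCorner A C a c₁ a' c₂ hA h1 ha' h12
  have h' := (hCornerNbr A C a a' c₁ c₂ h).1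
  exact (hCornerNbr A C a a' c₂ c₁ h').2.2.2.1

end MConstNbr

theorem t_ConstNbr (hRegCorner : StmtRegCorner) (hCornerNbr : StmtCornerNbr) : StmtConstNbr := by
  intro A C a c₁ c₂ hA h1 h2 h12
  refine Finset.eq_of_subset_of_card_le
    (MConstNbr.sub_NA hRegCorner hCornerNbr hA h1 h12) ?_
  rw [h1.2.2.1, h2.2.2.1]

end TPH
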