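import Pool.Agent.TPH.St1

set_option autoImplicit false

namespace TPH

namespace MCornerNbr

theorem surj {a a' c c' v : E} (ha : a' ≠ a) (h1 : ip a v = ip a' v) (h2 : ip c v ≠ ip c' v)
    (s t : ℝ) : ∃ w, ip (a - a') w = s ∧ ip (c - c') w = t := by
  have hd : a - a' ≠ 0 := sub_ne_zero.mpr ha.symm
  have hdd : ip (a - a') (a - a') ≠ 0 := (ip_self_pos hd).ne'
  have hdv : ip (a - a') v = 0 := by rw [ip_sub_left, h1, sub_self]
  have hcv : ip (c - c') v ≠ 0 := by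
    rw [ip_sub_left]
    exact sub_ne_zero.mpr h2
  refine ⟨(s / ip (a - a') (a - a')) • (a - a') +
    ((t - s / ip (a - a') (a - a') * ip (c - c') (a - a')) / ip (c - c') v) • v, ?_, ?_⟩
  · rw [ip_add_right, ip_smul_right, ip_smul_right, hdv, mul_zero, add_zero,
      div_mul_cancel₀ _ hdd]
  · rw [ip_add_right, ip_smul_right, ip_smul_right, div_mul_cancel₀ _ hcv]
    ring

theorem swapC {A C : Finset E} {a a' c c' : E} (h : Corner A C a a' c c') :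
    Corner A C a a' c' c := by
  obtain ⟨ha, hc, ⟨ρ, h1, h2⟩, v, h3, h4⟩ := h
  refine ⟨ha, hc.symm, ⟨ρ, h1, ?_⟩, v, h3, ?_⟩
  · rw [h2, Finset.pair_comm]
  · rwa [Finset.pair_comm]

theorem swapA {A C : Finset E} {a a' c c' : E} (h : Corner A C a a' c c') :
    Corner A C a' a c c' := by
  obtain ⟨ha, hc, ⟨ρ, h1, h2⟩, v, h3, h4⟩ := h
  refine ⟨ha.symm, hc, ⟨ρ, ?_, h2⟩, v, ?_, h4⟩
  · rw [h1, Finset.pair_comm]
  · rwa [Finset.pair_comm]

/-- perturbation of the corner in a direction `w` -/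
theorem pert {A C : Finset E} {ρ : E} (w : E) : ∃ u, Mx A u = Mx (Mx A ρ) w ∧
    Mx C u = Mx (Mx C ρ) w := by
  obtain ⟨ε₀, h0, h⟩ := Mx_pert3 A C C ρ w
  obtain ⟨h1, h2, _⟩ := h (ε₀ / 2) (by linarith) (by linarith)
  exact ⟨_, h1, h2⟩

end MCornerNbr

open MCornerNbr in
theorem t_CornerNbr : StmtCornerNbr := by
  intro A C a a' c c' h
  have hswC := swapC h
  have hswA := swapA h
  obtain ⟨ha, hc, ⟨ρ, h1, h2⟩, v, h3, h4⟩ := h
  have hs : ∀ s t : ℝ, ∃ w, ip (a - a') w = s ∧ ip (c - c') w = t := by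
    intro s t
    exact surj ha (perp_pair.mp h3) (fun he => h4 (perp_pair.mpr he)) s t
  refine ⟨hswC, hswA, ?_, ?_, ?_, ?_, hs⟩
  · obtain ⟨w, hw1, hw2⟩ := hs 1 0
    refine ⟨hc, ha, ⟨ρ, h2, h1⟩, w, ?_, ?_⟩
    · rw [perp_pair]
      rw [ip_sub_left] at hw2
      linarith
    · rw [perp_pair]
      rw [ip_sub_left] at hw1
      intro he
      linarith
  · obtain ⟨w, hw1, hw2⟩ := hs 0 1
    rw [ip_sub_left] at hw1 hw2
    obtain ⟨u, hu1, hu2⟩ := pert (A := A) (C := C) (ρ := ρ) w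
    rw [mem_NA]
    refine ⟨ha, u, ?_, ?_⟩
    · rw [hu1, h1]
      exact Mx_of_perp (perp_pair.mpr (by linarith))
    · rw [hu2, h2]
      exact Mx_pair_left (by linarith)
  · obtain ⟨w, hw1, hw2⟩ := hs 1 0
    rw [ip_sub_left] at hw1 hw2
    obtain ⟨u, hu1, hu2⟩ := pert (A := A) (C := C) (ρ := ρ) w
    rw [mem_NA]
    refine ⟨hc, u, ?_, ?_⟩
    · rw [hu2, h2]
      exact Mx_of_perp (perp_pair.mpr (by linarith))
    · rw [hu1, h1]
      exact Mx_pair_left (by linarith)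
  · obtain ⟨w, hw1, hw2⟩ := hs 1 1
    rw [ip_sub_left] at hw1 hw2
    obtain ⟨u, hu1, hu2⟩ := pert (A := A) (C := C) (ρ := ρ) w
    rw [mem_Fc]
    refine ⟨u, ?_, ?_⟩
    · rw [hu1, h1]
      exact Mx_pair_left (by linarith)
    · rw [hu2, h2]
      exact Mx_pair_left (by linarith)

end TPH
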