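import Pool.Agent.TPH.St1

/-!
# Three parallel hyperplanes: there are at most as many crossings as cells
-/

set_option autoImplicit false

namespace TPH

namespace MCrossLe

/-- A corner of two non-parallel edges is a corner of each of the four cells. -/
theorem mem_Fc_of_corner {A C : Finset E} {a a' c c' : E} (ha : a ≠ a')
    (hu : ∃ u, Mx A u = {a, a'} ∧ Mx C u = {c, c'})
    (hv : ∃ v, Perp {a, a'} v ∧ ¬ Perp {c, c'} v) : (a, c) ∈ Fc A C := by
  obtain ⟨u, hA, hC⟩ := hu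
  obtain ⟨v, h1, h2⟩ := hv
  have h1' : ip (a - a') v = 0 := by
    rw [ip_sub_left, h1 a (by simp) a' (by simp), sub_self]
  have h2' : ip (c - c') v ≠ 0 := by
    intro h
    apply h2
    rw [ip_sub_left] at h
    have h3 : ip c v = ip c' v := by linarith
    intro b hb b' hb'
    simp only [Finset.mem_insert, Finset.mem_singleton] at hb hb'
    rcases hb with rfl | rfl <;> rcases hb' with rfl | rfl <;> simp [h3]
  have hd : 0 < ip (a - a') (a - a') := ip_self_pos (sub_ne_zero.mpr ha)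
  set k : ℝ := (1 - ip (c - c') (a - a')) / ip (c - c') v with hk
  set w : E := (a - a') + k • v with hw
  have hw1 : ip a' w < ip a w := by
    have h3 : 0 < ip (a - a') w := by
      rw [hw, ip_add_right, ip_smul_right, h1', mul_zero, add_zero]
      exact hd
    rw [ip_sub_left] at h3
    linarith
  have hw2 : ip c' w < ip c w := by
    have h3 : ip (c - c') w = 1 := by
      rw [hw, ip_add_right, ip_smul_right, hk, div_mul_cancel₀ _ h2']
      ring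
    rw [ip_sub_left] at h3
    linarith
  obtain ⟨ε₀, h0, hε⟩ := Mx_pert3 A C C u w
  obtain ⟨e1, e2, _⟩ := hε (ε₀ / 2) (by linarith) (by linarith)
  rw [mem_Fc]
  refine ⟨u + (ε₀ / 2) • w, ?_, ?_⟩
  · rw [e1, hA, Mx_pair_left hw1]
  · rw [e2, hC, Mx_pair_left hw2]

/-- `(a, c)` is a middle cell of the crossing `x`. -/
def Mid (φ : E) (x : Finset E × Finset E) (p : E × E) : Prop :=
  ∃ a' c', x.1 = {p.1, a'} ∧ x.2 = {p.2, c'} ∧
    (ip a' φ - ip p.1 φ) * (ip c' φ - ip p.2 φ) < 0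

theorem pair_comm' (a b : E) : ({a, b} : Finset E) = {b, a} := Finset.pair_comm a b

/-- Every crossing has two middle cells. -/
theorem two_mid {A C : Finset E} {φ : E}
    (hφ : ∀ a ∈ A ∪ C, ∀ a' ∈ A ∪ C, ip a φ = ip a' φ → a = a')
    {x : Finset E × Finset E} (hx : x ∈ Xc A C) :
    ∃ p q : E × E, p ≠ q ∧ p ∈ Fc A C ∧ q ∈ Fc A C ∧ Mid φ x p ∧ Mid φ x q := by
  obtain ⟨e, g⟩ := x
  rw [mem_Xc] at hx
  obtain ⟨he, hg, hu, hv⟩ := hx
  have hu' := hu
  obtain ⟨u, hA, hC⟩ := hu'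
  have heA : e ⊆ A := hA ▸ Mx_subset A u
  have hgC : g ⊆ C := hC ▸ Mx_subset C u
  -- order the two pairs
  have hlow : ∀ s : Finset E, s.card = 2 → s ⊆ A ∪ C →
      ∃ a a' : E, a ≠ a' ∧ s = {a, a'} ∧ ip a φ < ip a' φ := by
    intro s hs hsub
    obtain ⟨a, a', hne, rfl⟩ := Finset.card_eq_two.mp hs
    have h1 : ip a φ ≠ ip a' φ := fun h => hne (hφ a (hsub (by simp)) a' (hsub (by simp)) h)
    rcases lt_or_gt_of_ne h1 with h | h
    · exact ⟨a, a', hne, rfl, h⟩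
    · exact ⟨a', a, hne.symm, Finset.pair_comm a a', h⟩
  obtain ⟨a, a', hne, rfl, hlt⟩ := hlow e he (heA.trans Finset.subset_union_left)
  obtain ⟨c, c', hne', rfl, hlt'⟩ := hlow g hg (hgC.trans Finset.subset_union_right)
  refine ⟨(a, c'), (a', c), fun h => hne (congrArg Prod.fst h), ?_, ?_, ?_, ?_⟩
  · apply mem_Fc_of_corner (a' := a') (c' := c) hne
    · rw [pair_comm' c' c]; exact hu
    · rw [pair_comm' c' c]; exact hv
  · apply mem_Fc_of_corner (a' := a) (c' := c') hne.symm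
    · rw [pair_comm' a' a]; exact hu
    · rw [pair_comm' a' a]; exact hv
  · refine ⟨a', c, rfl, Finset.pair_comm c c', ?_⟩
    show (ip a' φ - ip a φ) * (ip c φ - ip c' φ) < 0
    exact mul_neg_of_pos_of_neg (by linarith) (by linarith)
  · refine ⟨a, c', Finset.pair_comm a a', rfl, ?_⟩
    show (ip a φ - ip a' φ) * (ip c' φ - ip c φ) < 0
    exact mul_neg_of_neg_of_pos (by linarith) (by linarith)

/-- The vector attached to a crossing with the middle cell `(a, c)`. -/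
theorem mid_data {A C : Finset E} {φ u₀ a c : E} (h1 : Mx A u₀ = {a}) (h2 : Mx C u₀ = {c})
    {x : Finset E × Finset E} (hx : x ∈ Xc A C) (hm : Mid φ x (a, c)) :
    ∃ (a' c' u d : E), x = ({a, a'}, {c, c'}) ∧ a' ≠ a ∧ c' ≠ c ∧ Mx A u = {a, a'} ∧
      Mx C u = {c, c'} ∧ ip φ d = 0 ∧ ip u₀ d < 0 ∧ ip u d = 0 ∧
      ∀ v, a ∈ Mx A v → c ∈ Mx C v → ¬ (a' ∈ Mx A v ∧ c' ∈ Mx C v) → ip v d < 0 := by
  obtain ⟨e, g⟩ := x
  obtain ⟨a', c', he, hg, hs⟩ := hm
  dsimp only at he hg hs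
  subst he hg
  rw [mem_Xc] at hx
  obtain ⟨hce, hcg, ⟨u, hA, hC⟩, -⟩ := hx
  have hα : ip a' φ - ip a φ ≠ 0 := fun h => by rw [h, zero_mul] at hs; exact lt_irrefl _ hs
  have hβ : ip c' φ - ip c φ ≠ 0 := fun h => by rw [h, mul_zero] at hs; exact lt_irrefl _ hs
  have hp : 0 < |ip c' φ - ip c φ| := abs_pos.mpr hβ
  have hq : 0 < |ip a' φ - ip a φ| := abs_pos.mpr hα
  have hne : a' ≠ a := fun h => hα (by rw [h, sub_self])
  have hne' : c' ≠ c := fun h => hβ (by rw [h, sub_self])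
  have haA : a' ∈ A := Mx_subset A u (hA ▸ by simp)
  have hcC : c' ∈ C := Mx_subset C u (hC ▸ by simp)
  have key : ∀ v, ip v (|ip c' φ - ip c φ| • (a' - a) + |ip a' φ - ip a φ| • (c' - c)) =
      |ip c' φ - ip c φ| * (ip a' v - ip a v) + |ip a' φ - ip a φ| * (ip c' v - ip c v) := by
    intro v
    rw [ip_add_right, ip_smul_right, ip_smul_right, ip_sub_right, ip_sub_right, ip_comm v a',
      ip_comm v a, ip_comm v c', ip_comm v c]
  have hlt : ∀ v, a ∈ Mx A v → c ∈ Mx C v → ¬ (a' ∈ Mx A v ∧ c' ∈ Mx C v) →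
      ip v (|ip c' φ - ip c φ| • (a' - a) + |ip a' φ - ip a φ| • (c' - c)) < 0 := by
    intro v ha hc hn
    rw [key]
    have l1 := Mx_le ha haA
    have l2 := Mx_le hc hcC
    by_cases h3 : a' ∈ Mx A v
    · have h4 : c' ∉ Mx C v := fun h => hn ⟨h3, h⟩
      have l3 := Mx_lt hc hcC h4
      have m1 := mul_nonneg hp.le (sub_nonneg.mpr l1)
      have m2 := mul_pos hq (sub_pos.mpr l3)
      nlinarith
    · have l3 := Mx_lt ha haA h3
      have m1 := mul_nonneg hq.le (sub_nonneg.mpr l2)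
      have m2 := mul_pos hp (sub_pos.mpr l3)
      nlinarith
  refine ⟨a', c', u, |ip c' φ - ip c φ| • (a' - a) + |ip a' φ - ip a φ| • (c' - c), rfl, hne,
    hne', hA, hC, ?_, ?_, ?_, hlt⟩
  · rw [key]
    rcases mul_neg_iff.mp hs with ⟨h5, h6⟩ | ⟨h5, h6⟩
    · rw [abs_of_pos h5, abs_of_neg h6]; ring
    · rw [abs_of_neg h5, abs_of_pos h6]; ring
  · apply hlt
    · rw [h1]; simp
    · rw [h2]; simp
    · rintro ⟨h3, -⟩
      rw [h1, Finset.mem_singleton] at h3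
      exact hne h3
  · rw [key]
    have e1 : ip a' u = ip a u := Mx_eq (u := u) (A := A) (by rw [hA]; simp) (by rw [hA]; simp)
    have e2 : ip c' u = ip c u := Mx_eq (u := u) (A := C) (by rw [hC]; simp) (by rw [hC]; simp)
    rw [e1, e2]
    ring

end MCrossLe

open MCrossLe in
/-- **There are at most as many crossings as cells.** -/
theorem t_CrossLe (hThree : StmtThree) (hGeneric : StmtGeneric) : StmtCrossLe := by
  classical
  intro A C
  obtain ⟨φ, hφ0, hφ⟩ := hGeneric (A ∪ C)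
  have hmain : (Xc A C).card * 2 ≤ (Fc A C).card * 2 := by
    refine Finset.card_mul_le_card_mul (Mid φ) ?_ ?_
    · intro x hx
      obtain ⟨p, q, hpq, hp, hq, mp, mq⟩ := two_mid hφ hx
      have h1 : ({p, q} : Finset (E × E)) ⊆ (Fc A C).bipartiteAbove (Mid φ) x := by
        intro y hy
        rw [Finset.mem_bipartiteAbove]
        simp only [Finset.mem_insert, Finset.mem_singleton] at hy
        rcases hy with rfl | rfl
        · exact ⟨hp, mp⟩
        · exact ⟨hq, mq⟩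
      have h2 := Finset.card_le_card h1
      rwa [Finset.card_pair hpq] at h2
    · rintro ⟨a, c⟩ hac
      by_contra hcon
      rw [not_le, Finset.two_lt_card] at hcon
      obtain ⟨x₁, m1, x₂, m2, x₃, m3, n12, n13, n23⟩ := hcon
      rw [Finset.mem_bipartiteBelow] at m1 m2 m3
      rw [mem_Fc] at hac
      obtain ⟨u₀, hu1, hu2⟩ := hac
      obtain ⟨a₁, c₁, u₁, d₁, e1, k1, l1, A1, C1, p1, q1, r1, s1⟩ :=
        mid_data hu1 hu2 m1.1 m1.2
      obtain ⟨a₂, c₂, u₂, d₂, e2, k2, l2, A2, C2, p2, q2, r2, s2⟩ :=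
        mid_data hu1 hu2 m2.1 m2.2
      obtain ⟨a₃, c₃, u₃, d₃, e3, k3, l3, A3, C3, p3, q3, r3, s3⟩ :=
        mid_data hu1 hu2 m3.1 m3.2
      have hno : ∀ (x y : Finset E × Finset E) (a' c' u a'' c'' : E), x ≠ y →
          x = ({a, a'}, {c, c'}) → y = ({a, a''}, {c, c''}) → a'' ≠ a → c'' ≠ c →
          Mx A u = {a, a'} → Mx C u = {c, c'} →
          a ∈ Mx A u ∧ c ∈ Mx C u ∧ ¬ (a'' ∈ Mx A u ∧ c'' ∈ Mx C u) := by
        intro x y a' c' u a'' c'' hxy hx hy ha hc hA hC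
        refine ⟨by rw [hA]; simp, by rw [hC]; simp, ?_⟩
        rintro ⟨h1, h2⟩
        rw [hA, Finset.mem_insert, Finset.mem_singleton] at h1
        rw [hC, Finset.mem_insert, Finset.mem_singleton] at h2
        apply hxy
        rw [hx, hy, h1.resolve_left ha, h2.resolve_left hc]
      obtain ⟨b1, b2, b3⟩ := hno x₁ x₂ a₁ c₁ u₁ a₂ c₂ n12 e1 e2 k2 l2 A1 C1
      obtain ⟨b4, b5, b6⟩ := hno x₁ x₃ a₁ c₁ u₁ a₃ c₃ n13 e1 e3 k3 l3 A1 C1
      obtain ⟨b7, b8, b9⟩ := hno x₂ x₁ a₂ c₂ u₂ a₁ c₁ n12.symm e2 e1 k1 l1 A2 C2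
      obtain ⟨f1, f2, f3⟩ := hno x₂ x₃ a₂ c₂ u₂ a₃ c₃ n23 e2 e3 k3 l3 A2 C2
      obtain ⟨f4, f5, f6⟩ := hno x₃ x₁ a₃ c₃ u₃ a₁ c₁ n13.symm e3 e1 k1 l1 A3 C3
      obtain ⟨f7, f8, f9⟩ := hno x₃ x₂ a₃ c₃ u₃ a₂ c₂ n23.symm e3 e2 k2 l2 A3 C3
      exact hThree φ u₀ u₁ u₂ u₃ d₁ d₂ d₃ hφ0 p1 p2 p3 q1 q2 q3 r1 (s2 _ b1 b2 b3)
        (s3 _ b4 b5 b6) r2 (s1 _ b7 b8 b9) (s3 _ f1 f2 f3) r3 (s1 _ f4 f5 f6) (s2 _ f7 f8 f9)
  omega

end TPH
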