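import Pool.Agent.TPH.St4

/-!
# Three parallel hyperplanes: of three flats of a run, two neighbours cross
-/

set_option autoImplicit false

namespace TPH

namespace MCrossTri

/-- Two steps of the same sign on an arc compose, and the middle ray is a positive combination. -/
theorem trans (hBetween : StmtBetween) {C : Finset E} {c c' p s t : E} {σ : ℝ} (hC : 3 ≤ C.card)
    (hcc : c ≠ c') (hσ : σ = 1 ∨ σ = -1) (hp : Mx C p = {c, c'}) (hs : Mx C s = {c, c'})
    (ht : Mx C t = {c, c'}) (h1 : 0 < σ * det3 (c - c') p s) (h2 : 0 < σ * det3 (c - c') s t) :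
    0 < σ * det3 (c - c') p t ∧ ∃ α β : ℝ, 0 < α ∧ 0 < β ∧ s = α • p + β • t := by
  rcases hσ with rfl | rfl
  · rw [one_mul] at h1 h2 ⊢
    exact hBetween C c c' p s t hC hcc hp hs ht h1 h2
  · have e1 : 0 < det3 (c - c') s p := by rw [det3_swap23]; linarith
    have e2 : 0 < det3 (c - c') t s := by rw [det3_swap23]; linarith
    obtain ⟨h3, α, β, hα, hβ, he⟩ := hBetween C c c' t s p hC hcc ht hs hp e2 e1
    refine ⟨?_, β, α, hβ, hα, by rw [he, add_comm]⟩
    rw [det3_swap23] at h3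
    linarith

/-- Same class is symmetric. -/
theorem symm {c' : Fl → E} {lab : Fl → Fin 8} {x y : Fl} (h : Same c' lab x y) :
    Same c' lab y x := ⟨h.1.symm, h.2.1.symm, h.2.2.symm⟩

/-- Same class is transitive. -/
theorem tr {c' : Fl → E} {lab : Fl → Fin 8} {x y w : Fl} (h : Same c' lab x y)
    (h' : Same c' lab y w) : Same c' lab x w :=
  ⟨h.1.trans h'.1, h.2.1.trans h'.2.1, h.2.2.trans h'.2.2⟩

/-- A gap inside a class which contains no bad consecutive gap is good. -/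
theorem run (hRunGood : StmtRunGood) {A B C : Finset E} {X : Finset Fl} {u z c' : Fl → E}
    {σ : Fl → ℝ} {lab : Fl → Fin 8} {e : Fl → Finset E} (hC : 3 ≤ C.card) {x₀ x w : Fl}
    (hx₀ : x₀ ∈ X) (hσ : σ x₀ = 1 ∨ σ x₀ = -1)
    (sσ : ∀ x ∈ X, ∀ x' ∈ X, Same c' lab x x' → σ x = σ x')
    (hf : ∀ x ∈ X, HF A B C (e x) x.2.1 (c' x) (u x) (z x))
    (inj : ∀ x ∈ X, ∀ x' ∈ X, Same c' lab x x' → det3 (x.2.1 - c' x) (z x) (z x') = 0 → x = x')
    (hx : x ∈ X) (hw : w ∈ X) (sx : Same c' lab x₀ x) (sw : Same c' lab x₀ w)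
    (hxw : 0 < σ x₀ * det3 (x₀.2.1 - c' x₀) (z x) (z w))
    (hno : ∀ k ∈ X, k ∈ BdA A B X u z c' σ lab → Same c' lab x₀ k →
      ¬ ((k = x ∨ 0 < σ x₀ * det3 (x₀.2.1 - c' x₀) (z x) (z k)) ∧
        0 < σ x₀ * det3 (x₀.2.1 - c' x₀) (z k) (z w))) :
    Good A B x₀.2.1 (z x) (u x) (z w) (u w) := by
  classical
  refine hRunGood Fl (X.filter (fun k => Same c' lab x₀ k))
    ((BdA A B X u z c' σ lab).filter (fun k => Same c' lab x₀ k)) A B C e x₀.2.1 (c' x₀) u z
    (σ x₀) x w hC hσ ?_ ?_ (Finset.mem_filter.mpr ⟨hx, sx⟩) (Finset.mem_filter.mpr ⟨hw, sw⟩) hxw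
    ?_ ?_
  · intro i hi
    obtain ⟨hi, si⟩ := Finset.mem_filter.mp hi
    have h := hf i hi
    rw [← si.1, ← si.2.1] at h
    exact h
  · intro i hi j hj hd
    obtain ⟨hi, si⟩ := Finset.mem_filter.mp hi
    obtain ⟨hj, sj⟩ := Finset.mem_filter.mp hj
    refine inj i hi j hj (tr (symm si) sj) ?_
    rw [← si.1, ← si.2.1]
    exact hd
  · rintro k hk ⟨j, hj, hkj, hbt, hng⟩
    obtain ⟨hk, sk⟩ := Finset.mem_filter.mp hk
    obtain ⟨hj, sj⟩ := Finset.mem_filter.mp hj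
    refine Finset.mem_filter.mpr ⟨?_, sk⟩
    unfold BdA
    rw [@Finset.mem_filter _ _ (Classical.decPred _)]
    refine ⟨hk, j, hj, tr (symm sk) sj, ?_, ?_, ?_⟩
    · rw [← sσ x₀ hx₀ k hk sk, ← sk.1, ← sk.2.1]
      exact hkj
    · intro i hi si
      rw [← sσ x₀ hx₀ k hk sk, ← sk.1, ← sk.2.1]
      exact hbt i (Finset.mem_filter.mpr ⟨hi, tr sk si⟩)
    · rw [← sk.1]
      exact hng
  · intro k hk
    obtain ⟨hk, sk⟩ := Finset.mem_filter.mp hk
    have hkX : k ∈ X := by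
      unfold BdA at hk
      exact @Finset.filter_subset _ _ (Classical.decPred _) _ _ hk
    exact hno k hkX hk sk

end MCrossTri

open MCrossTri in
/-- **Of three flats of a run, two neighbours cross.** -/
theorem t_CrossTri (hBetween : StmtBetween) (hKey : StmtKey) (hRunGood : StmtRunGood) :
    StmtCrossTri := by
  intro A B C X u z y c' σ lab x x' x'' hA hB hC md hx hx' hx'' hs hs' h1 h2 hbad
  by_contra hcon
  rw [not_or] at hcon
  obtain ⟨hc1, hc2⟩ := hcon
  have hs'' : Same c' lab x x'' := tr hs hs'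
  have hσ := md.sg x hx
  have hne : x.2.1 ≠ c' x := (md.gd x hx).hA.ne
  -- membership in the arc
  have hz : ∀ k ∈ X, Same c' lab x k → Mx C (z k) = {x.2.1, c' x} := by
    intro k hk sk
    rw [sk.1, sk.2.1]
    exact (md.gd k hk).hA.cz
  have hy : ∀ k ∈ X, Same c' lab x k → Mx C (y k) = {x.2.1, c' x} := by
    intro k hk sk
    rw [sk.1, sk.2.1]
    exact (md.gd k hk).hB.cz
  have hxx : Same c' lab x x := ⟨rfl, rfl, rfl⟩
  -- the two orders agree
  have ag : ∀ i ∈ X, ∀ j ∈ X, Same c' lab x i → Same c' lab x j →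
      (0 < σ x * det3 (x.2.1 - c' x) (z i) (z j) ↔ 0 < σ x * det3 (x.2.1 - c' x) (y i) (y j)) := by
    intro i hi j hj si sj
    have h := md.ag i hi j hj (tr (symm si) sj)
    rw [← md.sσ x hx i hi si, ← si.1, ← si.2.1] at h
    exact h
  have ty : ∀ i ∈ X, Same c' lab x i → 0 < σ x * det3 (x.2.1 - c' x) (z i) (y i) := by
    intro i hi si
    have h := md.ty i hi
    rw [← md.sσ x hx i hi si, ← si.1, ← si.2.1] at h
    exact h
  -- injectivity for `y`
  have injy : ∀ i ∈ X, ∀ j ∈ X, Same c' lab i j →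
      det3 (i.2.1 - c' i) (y i) (y j) = 0 → i = j := by
    intro i hi j hj sij hd
    refine md.inj i hi j hj sij ?_
    have a1 := md.ag i hi j hj sij
    have a2 := md.ag j hj i hi (symm sij)
    rw [← md.sσ i hi j hj sij, ← sij.1, ← sij.2.1] at a2
    rw [hd, mul_zero] at a1
    have hd' : det3 (i.2.1 - c' i) (y j) (y i) = 0 := by rw [det3_swap23, hd, neg_zero]
    rw [hd', mul_zero, det3_swap23] at a2
    have n1 : ¬ 0 < σ i * det3 (i.2.1 - c' i) (z i) (z j) := fun h => lt_irrefl _ (a1.mp h)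
    have n2 : ¬ 0 < σ i * -det3 (i.2.1 - c' i) (z i) (z j) := fun h => lt_irrefl _ (a2.mp h)
    rcases md.sg i hi with h | h
    · rw [h] at n1 n2; linarith
    · rw [h] at n1 n2; linarith
  -- the first gap is good for `B`
  have g1 : Good B A x.2.1 (y x) (u x) (y x') (u x') := by
    refine run hRunGood (A := B) (B := A) (C := C) (X := X) (u := u) (z := y) (c' := c') (σ := σ)
      (lab := lab) (e := fun k => k.2.2) (x₀ := x) hC hx hσ md.sσ (fun k hk => (md.gd k hk).hB) injy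
      hx hx' hxx hs ((ag x hx x' hx' hxx hs).mp h1) ?_
    rintro k hk hkB sk ⟨hor, hlt⟩
    refine hbad k hk (Or.inr hkB) sk ?_ ?_
    · rcases hor with h | h
      · exact Or.inl h
      · exact Or.inr ((ag x hx k hk hxx sk).mpr h)
    · exact (trans hBetween hC hne hσ (hz k hk sk) (hz x' hx' hs) (hz x'' hx'' hs'')
        ((ag k hk x' hx' sk hs).mpr hlt) h2).1
  -- the second gap is good for `A`
  have g2 : Good A B x.2.1 (z x') (u x') (z x'') (u x'') := by
    refine run hRunGood (A := A) (B := B) (C := C) (X := X) (u := u) (z := z) (c' := c') (σ := σ)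
      (lab := lab) (e := fun k => k.1) (x₀ := x) hC hx hσ md.sσ (fun k hk => (md.gd k hk).hA) md.inj
      hx' hx'' hs hs'' h2 ?_
    rintro k hk hkA sk ⟨hor, hlt⟩
    refine hbad k hk (Or.inl hkA) sk (Or.inr ?_) hlt
    rcases hor with rfl | h
    · exact h1
    · exact (trans hBetween hC hne hσ (hz x hx hxx) (hz x' hx' hs) (hz k hk sk) h1 h).1
  -- the three positive combinations
  have k1 := (trans hBetween hC hne hσ (hz x hx hxx) (hy x hx hxx) (hy x' hx' hs)
    (ty x hx hxx) ((ag x hx x' hx' hxx hs).mp h1)).2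
  have k2 := trans hBetween hC hne hσ (hz x' hx' hs) (hz x'' hx'' hs'') (hy x'' hx'' hs'')
    h2 (ty x'' hx'' hs'')
  have k3 := (trans hBetween hC hne hσ (hz x hx hxx) (hz x' hx' hs) (hy x'' hx'' hs'')
    h1 k2.1).2
  obtain ⟨-, α, β, hα, hβ, he⟩ := k2
  have f1 := md.gd x hx
  have f2 : HF A B C x'.1 x.2.1 (c' x) (u x') (z x') ∧ HF B A C x'.2.2 x.2.1 (c' x) (u x') (y x') := by
    have h := md.gd x' hx'
    rw [hs.1, hs.2.1]
    exact ⟨h.hA, h.hB⟩
  have f3 : HF A B C x''.1 x.2.1 (c' x) (u x'') (z x'') ∧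
      HF B A C x''.2.2 x.2.1 (c' x) (u x'') (y x'') := by
    have h := md.gd x'' hx''
    rw [hs''.1, hs''.2.1]
    exact ⟨h.hA, h.hB⟩
  refine hKey A B C x.1 x.2.2 x'.1 x'.2.2 x''.1 x''.2.2 x.2.1 (c' x) (u x) (z x) (y x) (u x')
    (z x') (y x') (u x'') (z x'') (y x'') hA hB f1.hA f1.hB f2.1 f2.2 f3.1 f3.2 k1
    ⟨β, α, hβ, hα, by rw [he, add_comm]⟩ k3 ?_ ?_ g1 g2
  · intro r hr hp hq
    exact hc1 ⟨r, hr, hp, hq⟩
  · intro r hr hp hq
    exact hc2 ⟨r, hs.1 ▸ hr, hp, hq⟩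

end TPH
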