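import Pool.Agent.TPH.St2

set_option autoImplicit false

/-!
# Three parallel hyperplanes: dropping the flats with a special cell
-/

namespace TPH

theorem MDrop1.mem_D1 {A B C : Finset E} {x : Finset E × E × Finset E} :
    x ∈ D1 A B C ↔ x ∈ flats A B C ∧ ∃ a ∈ x.1, ¬ Reg A C a x.2.1 := by
  simp only [D1, Finset.mem_filter]

theorem t_Drop1 (hFlatBasic : StmtFlatBasic) (hTwoPer : StmtTwoPer) : StmtDrop1 := by
  classical
  intro A B C hA
  have key : ∀ x ∈ D1 A B C, ∃ q : (Σ _ : E × E, E),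
      q ∈ (Sp A C).sigma (fun p => NA A C p.1 p.2) ∧ x.1 = {q.1.1, q.2} ∧ x.2.1 = q.1.2 := by
    intro x hx
    obtain ⟨hx1, a, ha, hreg⟩ := MDrop1.mem_D1.mp hx
    obtain ⟨u, hu⟩ := mem_flats.mp hx1
    obtain ⟨_, _, _, _, h5, _, _⟩ := hFlatBasic A B C x u (Or.inl hA) hu
    obtain ⟨h6, h7⟩ := h5 a ha
    have h8 : 1 < x.1.card := by rw [hu.1]; norm_num
    obtain ⟨a', ha', hne⟩ := Finset.exists_mem_ne h8 a
    obtain ⟨h9, h10⟩ := h7 a' ha' hne
    refine ⟨⟨(a, x.2.1), a'⟩, ?_, h9, rfl⟩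
    rw [Finset.mem_sigma]
    exact ⟨mem_Sp.mpr ⟨h6, hreg⟩, h10⟩
  choose! F hF using key
  have h1 : (D1 A B C).card ≤ 2 * ((D1 A B C).image F).card := by
    apply Finset.card_le_mul_card_image
    intro q _
    refine le_trans (Finset.card_le_card ?_) (hTwoPer A B C {q.1.1, q.2} q.1.2 (Or.inl hA))
    intro x hx
    obtain ⟨hx1, hx2⟩ := Finset.mem_filter.mp hx
    simp only [Finset.mem_filter]
    obtain ⟨_, h3, h4⟩ := hF x hx1
    rw [hx2] at h3 h4
    exact ⟨(MDrop1.mem_D1.mp hx1).1, h3, h4⟩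
  have h2 : ((D1 A B C).image F).card ≤ ((Sp A C).sigma (fun p => NA A C p.1 p.2)).card := by
    apply Finset.card_le_card
    intro q hq
    obtain ⟨x, hx, rfl⟩ := Finset.mem_image.mp hq
    exact (hF x hx).1
  have h3 : ((Sp A C).sigma (fun p => NA A C p.1 p.2)).card ≤ spSum A C := by
    rw [Finset.card_sigma, spSum]
    exact Finset.sum_le_sum fun p _ => Nat.le_add_right _ _
  exact h1.trans (Nat.mul_le_mul_left 2 (h2.trans h3))

end TPH
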