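import Pool.Agent.TPH.Basic

/-!
# Three parallel hyperplanes: first facts about half flats
-/

namespace TPH

namespace HF

variable {A B C e : Finset E} {c c' u z : E}

theorem perp_u (h : HF A B C e c c' u z) : Perp e u := h.eu ▸ perp_Mx A u
theorem perp_z (h : HF A B C e c c' u z) : Perp e z := h.ez ▸ perp_Mx A z

theorem e_ne (h : HF A B C e c c' u z) : e.Nonempty := by
  rw [← Finset.card_pos, h.card]; norm_num

theorem c_mem (h : HF A B C e c c' u z) : c ∈ C :=
  Mx_subset C u (h.cu ▸ Finset.mem_singleton_self c)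

theorem c'_mem (h : HF A B C e c c' u z) : c' ∈ C :=
  Mx_subset C z (h.cz ▸ by simp)

theorem c'_notmem (h : HF A B C e c c' u z) : c' ∉ Mx C u := by
  rw [h.cu, Finset.mem_singleton]; exact h.ne.symm

/-- `c - c'` vanishes at `z`. -/
theorem wz (h : HF A B C e c c' u z) : ip (c - c') z = 0 := by
  have := Mx_eq (A := C) (u := z) (a := c) (a' := c') (h.cz ▸ by simp) (h.cz ▸ by simp)
  rw [ip_sub_left, this, sub_self]

/-- `c - c'` is positive at `u`. -/
theorem wu (h : HF A B C e c c' u z) : 0 < ip (c - c') u := by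
  have := Mx_lt (A := C) (u := u) (a := c) (a' := c') (h.cu ▸ Finset.mem_singleton_self c)
    h.c'_mem h.c'_notmem
  rw [ip_sub_left]; linarith

theorem out1 (h : HF A B C e c c' u z) : ¬ InR A B c u := by
  have := h.out 1; rwa [one_smul] at this

theorem A_ne (h : HF A B C e c c' u z) : A.Nonempty := by
  by_contra hne
  rw [Finset.not_nonempty_iff_eq_empty] at hne
  exact h.out1 (by intro a ha; rw [hne] at ha; simp at ha)

theorem B_ne (h : HF A B C e c c' u z) : B.Nonempty := by
  by_contra hne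
  rw [Finset.not_nonempty_iff_eq_empty] at hne
  exact h.out1 (by intro a _ b hb; rw [hne] at hb; simp at hb)

theorem u_ne (h : HF A B C e c c' u z) : u ≠ 0 := by
  intro h0; have := h.wu; rw [h0, ip_zero_right] at this; exact lt_irrefl _ this

theorem z_ne (h : HF A B C e c c' u z) : z ≠ 0 := by
  rintro rfl
  obtain ⟨κ, _, hk⟩ := h.enter
  rw [smul_zero, sub_zero] at hk
  exact h.out1 hk

/-- `z` and `u` are linearly independent. -/
theorem cr_ne (h : HF A B C e c c' u z) : cr z u ≠ 0 := by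
  intro h0
  obtain ⟨k, hk⟩ := par_of_cr h.z_ne h0
  have := h.wu
  rw [hk, ip_smul_right, h.wz, mul_zero] at this
  exact lt_irrefl _ this

/-- The plane of `e` in terms of the determinant. -/
theorem perp_iff (h : HF A B C e c c' u z) (v : E) : Perp e v ↔ det3 z v u = 0 :=
  perp_iff_det h.card h.perp_z h.perp_u h.cr_ne v

/-- The plane of `e` is spanned by `u` and `z`. -/
theorem comb (h : HF A B C e c c' u z) {v : E} (hv : Perp e v) :
    ∃ α β : ℝ, v = α • u + β • z := by
  obtain ⟨β, α, hv⟩ := perp_comb h.card h.perp_z h.perp_u h.cr_ne hv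
  exact ⟨α, β, by rw [hv]; abel⟩

/-- Points of the plane of `e` on the side of `z` are not in `R_c`. -/
theorem not_inR (h : HF A B C e c c' u z) {α β : ℝ} (hβ : 0 ≤ β) :
    ¬ InR A B c (α • u + β • z) := by
  intro hin
  obtain ⟨κ, hκ, hk⟩ := h.enter
  rcases hβ.eq_or_lt with h0 | h0
  · rw [← h0, zero_smul, add_zero] at hin
    exact h.out α hin
  · have hs := hin.add (hk.smul (div_pos h0 hκ)).le
    have he : α • u + β • z + (β / κ) • (u - κ • z) = (α + β / κ) • u := by
      rw [smul_sub, smul_smul, div_mul_cancel₀ _ hκ.ne', add_smul]; abel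
    rw [he] at hs
    exact h.out _ hs

/-- Points of `R_c` in the plane of `e` have negative `z`-coordinate. -/
theorem beta_neg (h : HF A B C e c c' u z) {v : E} (hv : InR A B c v) (hp : Perp e v) :
    ∃ α β : ℝ, β < 0 ∧ v = α • u + β • z := by
  obtain ⟨α, β, rfl⟩ := h.comb hp
  refine ⟨α, β, ?_, rfl⟩
  by_contra hβ
  exact h.not_inR (not_lt.mp hβ) hv

/-- At `u` there is equality in the definition of `R_c`, for maximisers. -/
theorem tie (h : HF A B C e c c' u z) {a b : E} (ha : a ∈ e) (hb : b ∈ Mx B u) :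
    ip a u + ip b u = 2 * ip c u := by
  have haM : a ∈ Mx A u := h.eu ▸ ha
  apply le_antisymm (h.clo a (Mx_subset _ _ haM) b (Mx_subset _ _ hb))
  by_contra hlt
  exact h.out1 (inR_of_mem haM hb (not_le.mp hlt))

/-- The linear functional `a + b - 2 c` of the flat is positive at `z`. -/
theorem beyond (h : HF A B C e c c' u z) {a b : E} (ha : a ∈ e) (hb : b ∈ Mx B u) :
    2 * ip c z < ip a z + ip b z := by
  obtain ⟨κ, hκ, hk⟩ := h.enter
  have h1 := hk a (Mx_subset _ _ (h.eu ▸ ha : a ∈ Mx A u)) b (Mx_subset _ _ hb)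
  have h2 := h.tie ha hb
  simp only [ip_sub_right, ip_smul_right] at h1
  have h3 : κ * (2 * ip c z) < κ * (ip a z + ip b z) := by linarith
  exact lt_of_mul_lt_mul_left h3 hκ.le

/-- Along the segment from `u` to `z` the maximisers on `A` are `e`. -/
theorem Mx_A_comb (h : HF A B C e c c' u z) {α β : ℝ} (hα : 0 ≤ α) (hβ : 0 ≤ β)
    (hs : 0 < α + β) : Mx A (α • u + β • z) = e := by
  rcases hα.eq_or_lt with h0 | h0
  · rw [← h0] at hs ⊢
    exact Mx_comb_right le_rfl (by linarith) h.e_ne h.ez (h.eu ▸ subset_rfl)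
  · exact Mx_comb_left h0 hβ h.e_ne h.eu (h.ez ▸ subset_rfl)

/-- Strictly before `z` the only maximiser on `C` is `c`. -/
theorem Mx_C_comb (h : HF A B C e c c' u z) {α β : ℝ} (hα : 0 < α) (hβ : 0 ≤ β) :
    Mx C (α • u + β • z) = {c} :=
  Mx_comb_left hα hβ (Finset.singleton_nonempty c) h.cu (by rw [h.cz]; simp)

/-- For `s`, `t` in the plane `(c-c')^⊥` and any `p`. -/
theorem sign_aux {w s t : E} (hs : ip w s = 0) (ht : ip w t = 0) (p : E) :
    det3 s t p * ip w w = det3 w s t * ip w p := by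
  have e1 : w 0 * s 0 + w 1 * s 1 + w 2 * s 2 = 0 := by simpa [ip] using hs
  have e2 : w 0 * t 0 + w 1 * t 1 + w 2 * t 2 = 0 := by simpa [ip] using ht
  simp only [det3, ip]
  linear_combination
    (w 0 * (t 1 * p 2 - t 2 * p 1) + w 1 * (t 2 * p 0 - t 0 * p 2) + w 2 * (t 0 * p 1 - t 1 * p 0)) * e1
      + (w 0 * (p 1 * s 2 - p 2 * s 1) + w 1 * (p 2 * s 0 - p 0 * s 2) + w 2 * (p 0 * s 1 - p 1 * s 0)) * e2

/-- The sign of `det3 s t p` for `s`, `t` in the plane `(c-c')^⊥` and `p` on the side of `c`. -/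
theorem sign_iff {w s t p : E} (hs : ip w s = 0) (ht : ip w t = 0) (hp : 0 < ip w p) :
    (0 < det3 s t p ↔ 0 < det3 w s t) ∧ (det3 s t p < 0 ↔ det3 w s t < 0) ∧
      (det3 s t p = 0 ↔ det3 w s t = 0) := by
  have hw : w ≠ 0 := by rintro rfl; rw [ip_zero_left] at hp; exact lt_irrefl _ hp
  have hww := ip_self_pos hw
  have h := sign_aux hs ht p
  refine ⟨⟨fun h1 => ?_, fun h1 => ?_⟩, ⟨fun h1 => ?_, fun h1 => ?_⟩, ⟨fun h1 => ?_, fun h1 => ?_⟩⟩
  · have := mul_pos h1 hww; rw [h] at this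
    exact (pos_iff_pos_of_mul_pos this).mpr hp
  · have := mul_pos h1 hp; rw [← h] at this
    exact (pos_iff_pos_of_mul_pos this).mpr hww
  · have := mul_neg_of_neg_of_pos h1 hww; rw [h] at this
    by_contra h2; push Not at h2
    have := mul_nonneg h2 hp.le; linarith
  · have := mul_neg_of_neg_of_pos h1 hp; rw [← h] at this
    by_contra h2; push Not at h2
    have := mul_nonneg h2 hww.le; linarith
  · rw [h1, zero_mul] at h
    rcases mul_eq_zero.mp h.symm with h2 | h2
    · exact h2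
    · exact absurd h2 hp.ne'
  · rw [h1, zero_mul] at h
    rcases mul_eq_zero.mp h with h2 | h2
    · exact h2
    · exact absurd h2 hww.ne'

end HF

theorem Reach_swap {A : Finset E} {z₁ z₂ a : E} : Reach A z₁ z₂ a ↔ Reach A z₂ z₁ a := by
  constructor <;> rintro ⟨α, β, h1, h2, h3⟩ <;> exact ⟨β, α, h2, h1, by rw [add_comm]; exact h3⟩

theorem Lune_swap {z₁ u₁ z₂ u₂ q : E} : Lune z₁ u₁ z₂ u₂ q ↔ Lune z₂ u₂ z₁ u₁ q :=
  ⟨fun h => ⟨h.2, h.1⟩, fun h => ⟨h.2, h.1⟩⟩

theorem Good_swap {A B : Finset E} {c z₁ u₁ z₂ u₂ : E} :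
    Good A B c z₁ u₁ z₂ u₂ ↔ Good A B c z₂ u₂ z₁ u₁ := by
  constructor <;> intro h q hq hl a ha <;> exact Reach_swap.mp (h q hq (Lune_swap.mp hl) a ha)

theorem Miss_swap {A B : Finset E} {c z₁ z₂ : E} : Miss A B c z₁ z₂ ↔ Miss A B c z₂ z₁ := by
  constructor <;> intro h α β hα hβ hin <;>
    exact h β α hβ hα (by rw [add_comm]; exact hin)

/-- Plücker's relation in a plane `w^⊥`. -/
theorem plucker {w s t r : E} (hw : w ≠ 0) (hs : ip w s = 0) (ht : ip w t = 0) (hr : ip w r = 0) :
    det3 w t r • s - det3 w s r • t + det3 w s t • r = 0 := by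
  have hww := ip_self_pos hw
  have key : ip w w • (det3 w t r • s - det3 w s r • t + det3 w s t • r) = 0 := by
    have e1 : w 0 * s 0 + w 1 * s 1 + w 2 * s 2 = 0 := by simpa [ip] using hs
    have e2 : w 0 * t 0 + w 1 * t 1 + w 2 * t 2 = 0 := by simpa [ip] using ht
    have e3 : w 0 * r 0 + w 1 * r 1 + w 2 * r 2 = 0 := by simpa [ip] using hr
    have h1 := cramer s t r w
    -- `det3 s t r = 0`
    have hdet : det3 s t r * ip w w = det3 w s t * ip w r := HF.sign_aux hs ht r
    rw [hr, mul_zero] at hdet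
    have hd0 : det3 s t r = 0 := by
      rcases mul_eq_zero.mp hdet with h | h
      · exact h
      · exact absurd h hww.ne'
    rw [hd0, zero_smul] at h1
    have h2 : det3 w t r • s - det3 w s r • t + det3 w s t • r = 0 := by
      have e : det3 s w r = - det3 w s r := by simp only [det3]; ring
      have e' : det3 s t w = det3 w s t := by simp only [det3]; ring
      rw [e, e'] at h1
      rw [h1]
      rw [neg_smul]; abel
    rw [h2, smul_zero]
  rcases smul_eq_zero.mp key with h | h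
  · exact absurd h hww.ne'
  · exact h

end TPH
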