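import Pool.Agent.TPH.St1
import Pool.Agent.TPH.HFBasic

/-!
# Three parallel hyperplanes: statements about flats (dropping the exceptional ones)

`A`, `B` are the outer layers, `C` is the middle layer.  A flat `x = (e,c,f)` is exposed by a vector
`u` (unique up to positive scaling): `Mx A u = e`, `Mx C u = {c}`, `Mx B u = f`, and the value of
`h_A + h_B - 2 c` at `u` is zero.  `InR A B c` is the open convex cone where this function is
negative, `InRc A B c` is the closed one.  Facts in `Basic`: `InR.add`, `InR.comb`, `InR.smul`,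
`InR.open'`, `inR_of_mem`, `inRc_of_mem`, `not_inR_zero`.  Facts about half flats are in `HFBasic`.
-/

namespace TPH

/-- **StmtFlatBasic.** First facts about a flat and its exposing vector.
PROOF. `InRc`: `e = Mx A u`, `f = Mx B u` and the equality in `IsFlat` (`inRc_of_mem`).
`¬ InR A B c (κ • u)`: for `a ∈ e`, `b ∈ f` the two sides are equal at `κ • u`.  `¬ InR A B d u` for every
`d ∈ C`: `ip d u ≤ ip c u` because `Mx C u = {c}`.  `u ≠ 0` if `2 ≤ |C|` or `3 ≤ |A|`: otherwise
`Mx C u = C`, `Mx A u = A`.  `(a,c) ∈ Fc A C` for `a ∈ e`: with `e = {a,a'}` perturb `u` in the direction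
`a - a'` (`Mx_pert3`, `Mx_pair_left`, `Mx_singleton`). `a' ∈ NA A C a c` by definition.  Uniqueness: if
`u'` exposes the same flat then it satisfies the three orthogonality conditions of `IsFlat` for `u`, so
`u' = κ • u`; `κ > 0` because otherwise (for `3 ≤ |A|`) `u` is constant on `A` (`κ < 0`) or `u' = 0`
(`κ = 0`, `Mx A 0 = A`), similarly if `2 ≤ |C|`. -/
def StmtFlatBasic : Prop := ∀ (A B C : Finset E) (x : Finset E × E × Finset E) (u : E),
  (3 ≤ A.card ∨ 2 ≤ C.card) → IsFlat A B C x u →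
  InRc A B x.2.1 u ∧ (∀ κ : ℝ, ¬ InR A B x.2.1 (κ • u)) ∧ (∀ d ∈ C, ¬ InR A B d u) ∧ u ≠ 0 ∧
  (∀ a ∈ x.1, (a, x.2.1) ∈ Fc A C ∧ ∀ a' ∈ x.1, a' ≠ a → x.1 = {a, a'} ∧ a' ∈ NA A C a x.2.1) ∧
  (∀ u', IsFlat A B C x u' → ∃ κ : ℝ, 0 < κ ∧ u' = κ • u) ∧
  (∀ y u', IsFlat A B C y u' → ∀ κ : ℝ, 0 < κ → u' = κ • u → y = x)

/-- **StmtTwoPer.** At most two flats for given `e` and `c`.
PROOF. Suppose three different flats `x₁,x₂,x₃` have the same `e` and `c`, exposed by `u₁,u₂,u₃`.
They are pairwise not positively parallel (`StmtFlatBasic`, last clause), and not negatively parallel,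
because they lie in a convex cone which does not contain `0`: `{v | Mx A v = e}` if `3 ≤ |A|`,
`{v | Mx C v = {c}}` if `2 ≤ |C|` (a sum of two elements is in the cone by `Mx_comb`).  They lie in the
plane `δ^⊥`, `δ = a - a'`, `e = {a,a'}`.  So one of them is a positive combination of the other two:
write `[i,j] = det3 δ u_i u_j ≠ 0` and Plücker's relation `[2,3] u₁ - [1,3] u₂ + [1,2] u₃ = 0`
(`plucker`); the three coefficients cannot all have the same sign (the sum would be in the cone and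
zero), so after renaming `u₂ = α u₁ + β u₃` with `α, β > 0`.  Take `b ∈ f₂ = Mx B u₂` and `a ∈ e`.
`ip a u_i + ip b u_i ≤ 2 ip c u_i` for `i = 1, 3` (`InRc`), and the combination with the weights
`α, β` is an equality; so both are equalities, hence `b ∈ Mx B u₁` (its value is
`2 ip c u₁ - ip a u₁`, the value of the points of `f₁`) and `b ∈ Mx B u₃`.  So `f₂ ⊆ f₁`, `f₂ ⊆ f₃`, and
all three have two elements, so `f₁ = f₂ = f₃` and the three flats are equal.  (The clause ND is not
needed when the flats are different.) -/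
def StmtTwoPer : Prop := ∀ (A B C : Finset E) (e : Finset E) (c : E), (3 ≤ A.card ∨ 2 ≤ C.card) →
  (@Finset.filter (Finset E × E × Finset E) (fun x => x.1 = e ∧ x.2.1 = c) (Classical.decPred _)
    (flats A B C)).card ≤ 2

/-- **StmtFirstExit.** A flat is determined by its edge `e`, a point `t` of `R_c` in the plane of `e`,
and the side of `t` on which it lies.
PROOF. Write `δ = a - a'`; `u, u', t` are orthogonal to `δ`, and `t` is not a multiple of `u` or of `u'`
(by hypothesis the determinants are not zero).  So `u' = α t + β u`, and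
`det3 δ t u' = β det3 δ t u`, so `β > 0`.  If `α > 0`: `u' ∈ R_c` with `c = x.2.1` (`InR.comb`: `t ∈ R_c`,
`u ∈ K_c`), but `u'` is in no `R_d`, `d ∈ C`, by `StmtFlatBasic`; contradiction.  If `α < 0`:
`u = (1/β) u' + (-α/β) t` and the same with the roles exchanged.  So `α = 0`, `u' = β u`, and the flats
agree (`StmtFlatBasic`). -/
def StmtFirstExit : Prop := ∀ (A B C : Finset E) (x x' : Finset E × E × Finset E) (u u' t a a' : E),
  3 ≤ A.card → IsFlat A B C x u → IsFlat A B C x' u' → x.1 = {a, a'} → x'.1 = {a, a'} → a ≠ a' →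
  Perp {a, a'} t → InR A B x.2.1 t → InR A B x'.2.1 t →
  0 < det3 (a - a') t u * det3 (a - a') t u' → x = x'

/-- The flats for which some cell `(a,c)`, `a ∈ e`, is special. -/
noncomputable def D1 (A B C : Finset E) : Finset (Finset E × E × Finset E) :=
  @Finset.filter _ (fun x => ∃ a ∈ x.1, ¬ Reg A C a x.2.1) (Classical.decPred _) (flats A B C)

/-- The flats with regular cells for which `R_c` meets the plane of `e`, but the arc of `e` does not
contain the whole chord. -/
noncomputable def D2 (A B C : Finset E) : Finset (Finset E × E × Finset E) :=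
  @Finset.filter _ (fun x => (∀ a ∈ x.1, Reg A C a x.2.1) ∧ (∃ r, InR A B x.2.1 r ∧ Perp x.1 r) ∧
    ¬ ∀ v, InR A B x.2.1 v → Perp x.1 v → Mx A v = x.1) (Classical.decPred _) (flats A B C)

/-- The flats with regular cells for which `R_c` does not meet the plane of `e`. -/
noncomputable def D3 (A B C : Finset E) : Finset (Finset E × E × Finset E) :=
  @Finset.filter _ (fun x => (∀ a ∈ x.1, Reg A C a x.2.1) ∧ ∀ r, InR A B x.2.1 r → ¬ Perp x.1 r)
    (Classical.decPred _) (flats A B C)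

/-- **StmtDrop1.**
PROOF. For `x ∈ D1` choose `a ∈ x.1` with `¬ Reg A C a c` and the other element `a'` of `x.1`.  By
`StmtFlatBasic` `(a,c) ∈ Fc A C`, so `(a,c) ∈ Sp A C`, and `a' ∈ NA A C a c`.  The triple `((a,c),a')`
determines `e` and `c`, so each triple is obtained at most twice (`StmtTwoPer`).  The number of triples
is at most `∑_{p ∈ Sp} |NA A C p.1 p.2| ≤ spSum A C` (use `Finset.sigma` or `Finset.card_le_mul_card_image`). -/
def StmtDrop1 : Prop := ∀ A B C : Finset E, 3 ≤ A.card → (D1 A B C).card ≤ 2 * spSum A C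

/-- **StmtDrop2Path.** What happens for a flat in `D2`.
PROOF. Let `u` expose `x`, `e = x.1`, `c = x.2.1`, `a ∈ e`, `a'` the other element, and `v` with
`InR A B c v`, `Perp e v`, `Mx A v ≠ e`.  For `s ∈ [0,1]` the point `pth u v s` is orthogonal to `e` and for
`s > 0` it is in `R_c` (`InR.comb`), in particular not zero (`not_inR_zero`; `A`, `B` are not empty).
FIRST we find `q` with `InR A B c q`, `Perp e q`, `e ⊆ Mx A q`, `3 ≤ |Mx A q|`.  If `a ∈ Mx A v`, then
`e ⊆ Mx A v` (because `Perp e v`) and `q = v` works.  Otherwise let `s` be the smallest time at which some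
`b ∈ A \ e` has `ip b (pth u v s) = ip a (pth u v s)`; it exists since the affine function
`ip b - ip a` is negative at `s = 0` for all `b ∈ A \ e` and positive at `1` for some `b`; `0 < s < 1`;
`q = pth u v s`.  NOW apply `StmtFirstBad` to the segment from `u` to `q` with the vertex `a` and
`c₀ = c`: `Seg` holds (`Mx C (pth u q s) = {c}` for small `s > 0` by `Mx_pert` at `u` in direction
`q - u`: `pth u q s = u + s • (q - u)`; `(a,c)` is regular because `x ∈ D2`).  There is a bad cell at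
time `1`: any `d ∈ Mx C q` has `Ov A C a d` because of `q`.  So `Stop A C a u q t c₁ c₂`.  Put
`ρ = pth u q t`.  Then `InR A B c ρ`, `Perp e ρ`, `Mx C ρ = {c₁,c₂}`, `(a,c₂)` is regular, `a, a' ∈ Mx A ρ`
so `Mx A ρ = {a,a'}` by `StmtRegTie`, which also gives `Corner A C a a' c₂ c₁`.  Finally
`ip c₁ u < ip c₂ u` is `Stop.lt` at time `0`. -/
def StmtDrop2Path : Prop := ∀ (A B C : Finset E) (x : Finset E × E × Finset E) (u : E),
  3 ≤ A.card → 3 ≤ C.card → x ∈ D2 A B C → IsFlat A B C x u → ∀ a ∈ x.1, ∀ a' ∈ x.1, a' ≠ a →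
  ∃ ρ c₁ c₂, InR A B x.2.1 ρ ∧ Perp x.1 ρ ∧ Mx A ρ = {a, a'} ∧ Mx C ρ = {c₁, c₂} ∧
    (a, c₁) ∈ Sp A C ∧ c₂ ∈ NA C A c₁ a ∧ Reg A C a c₂ ∧ a' ∈ NA A C a c₂ ∧
    Corner A C a a' c₂ c₁ ∧ ip c₁ u < ip c₂ u

/-- **StmtDrop2.**
PROOF. For every `x ∈ D2` choose `u`, `a ≠ a'` in `x.1`, and `ρ, c₁, c₂` by `StmtDrop2Path`.  The
quadruple `((a,c₁),c₂,a')` takes at most `2 * ∑_{p ∈ Sp} |NA C A p.2 p.1| ≤ 2 * spSum A C` values, because
`a' ∈ NA A C a c₂` and this set has two elements (`Reg A C a c₂`).  It determines `x`: let `x, x'` have the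
same quadruple, with `u, ρ` and `u', ρ'`.  Then `x.1 = x'.1 = {a,a'}`.  `ρ` and `ρ'` are both orthogonal
to the independent vectors `a - a'` and `c₁ - c₂` (independent by `StmtCornerNbr`), not zero, so
`ρ' = κ ρ`; `κ > 0` because `Mx A ρ = Mx A ρ' = {a,a'} ≠ A`.  So `InR A B x'.2.1 ρ` as well
(`InR.smul`).  On the plane `(a-a')^⊥` the functional `c₂ - c₁` vanishes at `ρ`, so it is
`λ * det3 (a-a') ρ ·`, and it is positive at `u` and at `u'`; so `det3 (a-a') ρ u` and
`det3 (a-a') ρ u'` have the same sign and `StmtFirstExit` gives `x = x'`. -/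
def StmtDrop2 : Prop := ∀ A B C : Finset E, 3 ≤ A.card → 3 ≤ C.card →
  (D2 A B C).card ≤ 2 * spSum A C

/-- The data attached to a tangent flat: `c'` is a `C`-neighbour, `z` the end of the piece `(e,c)` on the
arc of `{c,c'}`, and `(a₁,c)` is the first cell on the way along this arc (away from `R_c`, which is
contained in the half space `0 < ip δ`) which is not regular, entered from `(a₂,c)`. -/
structure TG (A B C : Finset E) (x : Finset E × E × Finset E) (δ c' z ρ a₁ a₂ : E) : Prop where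
  perp : ∀ v, Perp x.1 v ↔ ip δ v = 0
  side : ∀ r, InR A B x.2.1 r → 0 < ip δ r
  nc : c' ≠ x.2.1
  zA : Mx A z = x.1
  zC : Mx C z = {x.2.1, c'}
  ρA : Mx A ρ = {a₁, a₂}
  ρC : Mx C ρ = {x.2.1, c'}
  ρδ : ip δ ρ < 0
  za : ip a₁ z < ip a₂ z
  sp : (a₁, x.2.1) ∈ Sp A C
  na : a₂ ∈ NA A C a₁ x.2.1
  reg : Reg A C a₂ x.2.1
  nc' : c' ∈ NA C A x.2.1 a₂
  cor : Corner A C a₂ a₁ x.2.1 c'

/-- **StmtTangentPath.** Every tangent flat has such data.
PROOF. Let `u` expose `x = (e,c,f)`, `e = {a,a'}`.  `ip (a - a')` does not vanish on `R_c` (that would be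
`Perp e r`), `R_c` is convex and not empty, so `ip (a-a')` has constant sign on `R_c`; name the points so
that it is positive, `δ = a - a'`.  By `StmtTwoCorners` (cell `(a,c)`, side `a'`; `a' ∈ NA A C a c` by
`StmtFlatBasic`) there is a corner `Corner A C a a' c c'`; let `z` be its ray: `Mx A z = {a,a'}`,
`Mx C z = {c,c'}`, `z ≠ 0`.  By `StmtCornerNbr` there is `w` with `ip (c-c') w = 0`, `ip δ w = -1`.  Rotate
`z` (lemma `rotate` with both sets equal to `C`, `S = T = {c,c'} ≠ C` as `3 ≤ |C|`) in the direction `w`: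
`q = z + τ (w - M z)`, `{c,c'} ⊊ Mx C q`, so `3 ≤ |Mx C q|`; `ip δ q = -τ < 0`, `q ≠ 0`.  Consider the
segment from `z` to `q` in the overlay of `C` and `A` (roles exchanged), with the vertex `c`:
`Seg C A c a' z q`: `c ∈ Mx C z`, `c ∈ Mx C q`; `pth z q s ≠ 0` (for `s > 0` its product with `δ` is
negative, for `s = 0` it is `z`); for small `s > 0`, `Mx A (pth z q s) = Mx {a,a'} (q - z) = {a'}` since
`ip (a - a') (q - z) < 0`; `Reg C A c a'` by `Reg_swap`.  At time 1 every `b ∈ Mx A q` is bad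
(`Ov C A c b` because of `q`).  So `StmtFirstBad` (for `C`, `A`) gives `Stop C A c z q t a₁ a₂`;
`ρ = pth z q t`.  `Mx A ρ = {a₁,a₂}`, `ip δ ρ = -t τ < 0`, `(c,a₁) ∈ Fc C A` is not regular so
`(a₁,c) ∈ Sp A C`, `a₂ ∈ NA A C a₁ c`, `Reg A C a₂ c`.  `{c,c'} ⊆ Mx C ρ` (both are maximisers at `z` and
`q`), `|Mx C ρ| ≤ 2` by regularity of `(a₂,c)` so `Mx C ρ = {c,c'}`, and `StmtRegTie` gives
`c' ∈ NA C A c a₂` and the corner.  `ip a₁ z < ip a₂ z` is `Stop.lt` at time 0. -/
def StmtTangentPath : Prop := ∀ (A B C : Finset E) (x : Finset E × E × Finset E),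
  3 ≤ A.card → 3 ≤ C.card → (∃ r, InR A B x.2.1 r) → x ∈ D3 A B C →
  ∃ δ c' z ρ a₁ a₂, TG A B C x δ c' z ρ a₁ a₂

/-- **StmtDrop3.**
PROOF. Choose the data of `StmtTangentPath` for every `x ∈ D3`.  The value `((a₁,c),a₂,c')` takes at
most `2 * ∑_{p ∈ Sp} |NA A C p.1 p.2| ≤ 2 * spSum A C` values (`c' ∈ NA C A c a₂`, which has two elements
by `Reg A C a₂ c`).  CLAIM: if `x`, `y` have the same value then `x.1 = y.1` (and `x.2.1 = y.2.1`); with
`StmtTwoPer` this gives the bound `4 * spSum A C`.  Let `z, ρ, δ` belong to `x` and `z', ρ', δ'` to `y`,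
`u, u'` exposing vectors.  `ρ, ρ'` are orthogonal to the independent vectors `a₁ - a₂` and `c - c'`
(`StmtCornerNbr` for `cor`), so `ρ' = κ ρ`, `κ > 0` because `Mx A ρ = Mx A ρ' ≠ A`.  In the plane
`(c-c')^⊥` the functional `a₂ - a₁` vanishes at `ρ` and is positive at `z` and `z'`, so
`z' = α ρ + β z` with `β > 0` (`z` and `ρ` are independent).  If `α = 0` then `Mx A z' = Mx A z`, so
`x.1 = y.1`.  Suppose `α > 0` (if `α < 0` exchange `x` and `y`: `z = (1/β) z' - (α/β) ρ`).  Then
`ip δ z' = α ip δ ρ + β ip δ z = α ip δ ρ < 0` (`ip δ z = 0` as `Perp x.1 z`).  `InRc A B c u'` and a point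
`r ∈ R_c` give `ip δ (u' + ε r) > 0` for all `ε > 0` (`TG.side`), so `ip δ u' ≥ 0`.  So there is
`s ∈ (0,1]` with `v = pth z' u' s`, `ip δ v = 0`.  `Mx C v = {c}` (`Mx_comb_right`, `Mx C u' = {c} ⊆
Mx C z'`), so `v ≠ 0` and `StmtRegSide` for `x` (cell `(a,c)`, `a ∈ x.1`, regular as `x ∈ D3`) gives
`Mx A v = x.1`; but `Mx A v = y.1` as well (`Mx A z' = Mx A u' = y.1`, `Mx_comb`).  So `x.1 = y.1`. -/
def StmtDrop3 : Prop := ∀ A B C : Finset E, 3 ≤ A.card → 3 ≤ C.card →
  (∀ c ∈ C, ∃ r, InR A B c r) → (D3 A B C).card ≤ 4 * spSum A C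

/-- **StmtHalfExit.** The remaining flats have an exit.
PROOF. Let `e = x.1 = {a,a'}`, `c = x.2.1`.  The fields `card, eu, cu` are part of `IsFlat`, `clo, out` are
in `StmtFlatBasic`, `full` is the hypothesis that `x ∉ D2` (with `∃ r`, as `x ∉ D3`), `fullZ` is
`StmtRegSide` for the cell `(a,c)`, regular as `x ∉ D1`.  EXIT: let `r ∈ R_c`, `Perp e r`.  Rotate `u`
(`rotate`, `S = e ≠ A`, `T = {c}`) in the direction `w = -r`: `z = u + τ (-r - M u)`.  `r` is not a multiple
of `u` (`StmtFlatBasic`), so `z ≠ 0`.  `e ⊆ Mx A z`, `c ∈ Mx C z`, one of the sets is bigger than `e`,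
`{c}`.  By `¬ Ov A C a c` both sets have at most two elements, so `Mx A z = e`, and
`Mx C z = {c,c'}` with `c' ≠ c`.  `enter`: for small `κ > 0`, `u - κ z = (1 - κ (1 - τ M)) u + κ τ r` has
positive coefficients, so it is in `R_c` (`InR.comb`). -/
def StmtHalfExit : Prop := ∀ (A B C : Finset E) (x : Finset E × E × Finset E) (u : E),
  3 ≤ A.card → 3 ≤ C.card → IsFlat A B C x u → x ∉ D1 A B C → x ∉ D2 A B C → x ∉ D3 A B C →
  ∃ z c', HF A B C x.1 x.2.1 c' u z

/-- The flats which are good for `A` and for `B`, with all their data. -/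
structure GD (A B C : Finset E) (x : Finset E × E × Finset E) (u z y c₁ c₂ : E) : Prop where
  fl : IsFlat A B C x u
  hA : HF A B C x.1 x.2.1 c₁ u z
  hB : HF B A C x.2.2 x.2.1 c₂ u y

/-- The good flats. -/
noncomputable def GF (A B C : Finset E) : Finset (Finset E × E × Finset E) :=
  @Finset.filter _ (fun x => ∃ u z y c₁ c₂, GD A B C x u z y c₁ c₂) (Classical.decPred _)
    (flats A B C)

/-- **StmtDropAll.** All but linearly many flats are good.
PROOF. The map `(e,c,f) ↦ (f,c,e)` is a bijection between `flats A B C` and `flats B A C` (the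
definition `IsFlat` is symmetric up to the order of the clauses).  If `x ∉ GF` then `x` is in
`D1 ∪ D2 ∪ D3` for `(A,B,C)` or its image is in `D1 ∪ D2 ∪ D3` for `(B,A,C)` (`StmtHalfExit` for both; the
two half flats have the same `u`; `InR A B` and `InR B A` are equivalent by `inR_comm`).
`StmtDrop1`, `StmtDrop2`, `StmtDrop3` for both, total at most `8 * (spSum A C + spSum B C)`. -/
def StmtDropAll : Prop := ∀ A B C : Finset E, 3 ≤ A.card → 3 ≤ B.card → 3 ≤ C.card →
  (∀ c ∈ C, ∃ r, InR A B c r) →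
  (flats A B C).card ≤ (GF A B C).card + 8 * (spSum A C + spSum B C)

end TPH
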