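import Mathlib
import Pool.Agent.TPH.St2

/-!
# Dropping the flats whose arc does not contain the chord
-/

namespace TPH

namespace MDrop2

/-- The quadruple attached to a flat of `D2`. -/
def Q (A B C : Finset E) (x : Finset E × E × Finset E) (q : (E × E) × E × E) : Prop :=
  ∃ u ρ, IsFlat A B C x u ∧ InR A B x.2.1 ρ ∧ x.1 = {q.1.1, q.2.2} ∧ q.2.2 ≠ q.1.1 ∧
    Mx A ρ = {q.1.1, q.2.2} ∧ Mx C ρ = {q.1.2, q.2.1} ∧ q.1 ∈ Sp A C ∧
    q.2.1 ∈ NA C A q.1.2 q.1.1 ∧ Reg A C q.1.1 q.2.1 ∧ q.2.2 ∈ NA A C q.1.1 q.2.1 ∧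
    Corner A C q.1.1 q.2.2 q.2.1 q.1.2 ∧ ip q.1.2 u < ip q.2.1 u

theorem mem_flats_of_D2 {A B C : Finset E} {x : Finset E × E × Finset E}
    (hx : x ∈ D2 A B C) : x ∈ flats A B C :=
  (@Finset.mem_filter _ _ (Classical.decPred _) _ _).mp hx |>.1

theorem exQ (hDrop2Path : StmtDrop2Path) {A B C : Finset E} (hA : 3 ≤ A.card) (hC : 3 ≤ C.card)
    {x : Finset E × E × Finset E} (hx : x ∈ D2 A B C) : ∃ q, Q A B C x q := by
  classical
  have hx' : x ∈ flats A B C := mem_flats_of_D2 hx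
  rw [mem_flats] at hx'
  obtain ⟨u, hu⟩ := hx'
  obtain ⟨a, a', hne, he⟩ := Finset.card_eq_two.mp hu.1
  obtain ⟨ρ, c₁, c₂, h1, h2, h3, h4, h5, h6, h7, h8, h9, h10⟩ :=
    hDrop2Path A B C x u hA hC hx hu a (by rw [he]; simp) a' (by rw [he]; simp) hne.symm
  exact ⟨((a, c₁), c₂, a'), u, ρ, hu, h1, he, hne.symm, h3, h4, h5, h6, h7, h8, h9, h10⟩

theorem not_const {A : Finset E} (hA : 3 ≤ A.card) {ρ a a' : E} (h : Mx A ρ = {a, a'})
    (hc : ∀ b ∈ A, ip b ρ = ip a ρ) : False := by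
  classical
  have h1 : A ⊆ Mx A ρ := by
    intro b hb
    refine mem_Mx_of_eq (a := a) ?_ hb (hc b hb)
    rw [h]; simp
  have h2 := Finset.card_le_card h1
  rw [h] at h2
  have h3 : ({a, a'} : Finset E).card ≤ 2 := Finset.card_le_two
  omega

theorem inj (hFirstExit : StmtFirstExit) (hCornerNbr : StmtCornerNbr) {A B C : Finset E}
    (hA : 3 ≤ A.card) {x x' : Finset E × E × Finset E} {q : (E × E) × E × E}
    (h : Q A B C x q) (h' : Q A B C x' q) : x = x' := by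
  classical
  obtain ⟨⟨a, c₁⟩, c₂, a'⟩ := q
  obtain ⟨u, ρ, f1, f2, f3, f4, f5, f6, -, -, -, -, f7, f8⟩ := h
  obtain ⟨u', ρ', g1, g2, g3, g4, g5, g6, -, -, -, -, g7, g8⟩ := h'
  simp only at f3 f4 f5 f6 f7 f8 g3 g4 g5 g6 g7 g8
  have hδ : a - a' ≠ 0 := sub_ne_zero.mpr f4.symm
  have hind := (hCornerNbr A C a a' c₂ c₁ f7).2.2.2.2.2.2
  have hcr : cr (a - a') (c₂ - c₁) ≠ 0 := by
    intro h0
    obtain ⟨k, hk⟩ := par_of_cr hδ h0
    obtain ⟨w, hw1, hw2⟩ := hind 0 1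
    rw [hk, ip_smul_left, hw1, mul_zero] at hw2
    exact zero_ne_one hw2
  have orth : ∀ r : E, Mx A r = {a, a'} → Mx C r = {c₁, c₂} →
      ip r (a - a') = 0 ∧ ip r (c₂ - c₁) = 0 := by
    intro r h1 h2
    constructor
    · rw [ip_sub_right, ip_comm r a, ip_comm r a',
        Mx_eq (A := A) (u := r) (a := a) (a' := a') (h1 ▸ by simp) (h1 ▸ by simp), sub_self]
    · rw [ip_sub_right, ip_comm r c₂, ip_comm r c₁,
        Mx_eq (A := C) (u := r) (a := c₂) (a' := c₁) (h2 ▸ by simp) (h2 ▸ by simp), sub_self]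
  obtain ⟨k, hk⟩ := par_cr_of_ip hcr (orth ρ f5 f6).1 (orth ρ f5 f6).2
  obtain ⟨k', hk'⟩ := par_cr_of_ip hcr (orth ρ' g5 g6).1 (orth ρ' g5 g6).2
  have nz : ∀ r : E, Mx A r = {a, a'} → r ≠ 0 := by
    intro r hr h0
    refine not_const hA hr (fun b _ => ?_)
    rw [h0, ip_zero_right, ip_zero_right]
  have hk0 : k ≠ 0 := by
    rintro rfl
    rw [zero_smul] at hk
    exact nz ρ f5 hk
  have hk0' : k' ≠ 0 := by
    rintro rfl
    rw [zero_smul] at hk'
    exact nz ρ' g5 hk'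
  have hρ' : ρ' = (k' / k) • ρ := by
    rw [hk, hk', smul_smul, div_mul_cancel₀ _ hk0]
  have hκ : 0 < k' / k := by
    rcases lt_trichotomy (k' / k) 0 with hlt | h0 | hgt
    · exfalso
      refine not_const hA f5 (fun b hb => ?_)
      have h1 : a ∈ Mx A ρ := by rw [f5]; simp
      have h2 : a ∈ Mx A ρ' := by rw [g5]; simp
      have h3 := Mx_le h1 hb
      have h4 := Mx_le h2 hb
      rw [hρ', ip_smul_right, ip_smul_right] at h4
      have h5 : ip a ρ ≤ ip b ρ := by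
        by_contra hcon
        push Not at hcon
        nlinarith
      exact le_antisymm h3 h5
    · exfalso
      exact (div_ne_zero hk0' hk0) h0
    · exact hgt
  have hρ : ρ = (k' / k)⁻¹ • ρ' := by
    rw [hρ', smul_smul, inv_mul_cancel₀ hκ.ne', one_smul]
  have hR' : InR A B x'.2.1 ρ := by
    rw [hρ]
    exact InR.smul (inv_pos.mpr hκ) g2
  have hperp : Perp {a, a'} ρ := f5 ▸ perp_Mx A ρ
  have dotu : ∀ (y : Finset E × E × Finset E) (v : E), IsFlat A B C y v → y.1 = {a, a'} →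
      ip (a - a') v = 0 := by
    intro y v hy hy1
    have h1 : Mx A v = {a, a'} := hy.2.2.1.trans hy1
    rw [ip_sub_left, Mx_eq (A := A) (u := v) (a := a) (a' := a') (h1 ▸ by simp) (h1 ▸ by simp),
      sub_self]
  have hdet : ∀ v : E, ip (a - a') v = 0 →
      det3 (a - a') ρ v = -k * (ip (a - a') (a - a') * ip (c₂ - c₁) v) := by
    intro v hv
    rw [hk, det3_smul2]
    have e1 : det3 (a - a') (cr (a - a') (c₂ - c₁)) v =
        ip (a - a') (c₂ - c₁) * ip (a - a') v - ip (a - a') (a - a') * ip (c₂ - c₁) v := by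
      simp only [det3, cr, ip, Matrix.cons_val_zero, Matrix.cons_val_one, Matrix.cons_val]
      ring
    rw [e1, hv]
    ring
  have hu0 := dotu x u f1 f3
  have hu0' := dotu x' u' g1 g3
  have hpos : 0 < ip (a - a') (a - a') := ip_self_pos hδ
  have hw : 0 < ip (c₂ - c₁) u := by rw [ip_sub_left]; linarith
  have hw' : 0 < ip (c₂ - c₁) u' := by rw [ip_sub_left]; linarith
  refine hFirstExit A B C x x' u u' ρ a a' hA f1 g1 f3 g3 f4.symm hperp f2 hR' ?_
  rw [hdet u hu0, hdet u' hu0']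
  have e2 : -k * (ip (a - a') (a - a') * ip (c₂ - c₁) u) *
      (-k * (ip (a - a') (a - a') * ip (c₂ - c₁) u')) =
      (k * k) * ((ip (a - a') (a - a') * ip (c₂ - c₁) u) *
        (ip (a - a') (a - a') * ip (c₂ - c₁) u')) := by ring
  rw [e2]
  have hkk : 0 < k * k := mul_self_pos.mpr hk0
  positivity

end MDrop2

theorem t_Drop2 (hFlatBasic : StmtFlatBasic) (hFirstExit : StmtFirstExit)
    (hCornerNbr : StmtCornerNbr) (hDrop2Path : StmtDrop2Path) : StmtDrop2 := by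
  classical
  intro A B C hA hC
  have _ := hFlatBasic
  have hex : ∀ x ∈ D2 A B C, ∃ q, MDrop2.Q A B C x q := fun x hx =>
    MDrop2.exQ hDrop2Path hA hC hx
  choose! Φ hΦ using hex
  set T : Finset ((E × E) × E × E) := (Sp A C).biUnion (fun p => (NA C A p.2 p.1).biUnion
    (fun c₂ => (if (NA A C p.1 c₂).card = 2 then NA A C p.1 c₂ else ∅).image
      (fun a' => (p, c₂, a')))) with hT
  have h1 : (D2 A B C).card ≤ T.card := by
    refine Finset.card_le_card_of_injOn Φ ?_ ?_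
    · intro x hx
      obtain ⟨u, ρ, -, -, -, -, -, -, f1, f2, f3, f4, -, -⟩ := hΦ x hx
      rw [hT, Finset.mem_coe, Finset.mem_biUnion]
      refine ⟨(Φ x).1, f1, ?_⟩
      rw [Finset.mem_biUnion]
      refine ⟨(Φ x).2.1, f2, ?_⟩
      rw [if_pos f3.2.2.1, Finset.mem_image]
      exact ⟨(Φ x).2.2, f4, rfl⟩
    · intro x hx x' hx' heq
      have a1 := hΦ x hx
      have a2 := hΦ x' hx'
      rw [← heq] at a2
      exact MDrop2.inj hFirstExit hCornerNbr hA a1 a2
  have h2 : T.card ≤ ∑ p ∈ Sp A C, 2 * (NA C A p.2 p.1).card := by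
    rw [hT]
    refine Finset.card_biUnion_le.trans (Finset.sum_le_sum (fun p _ => ?_))
    refine Finset.card_biUnion_le.trans ?_
    calc ∑ c₂ ∈ NA C A p.2 p.1, _ ≤ ∑ c₂ ∈ NA C A p.2 p.1, 2 := by
          refine Finset.sum_le_sum (fun c₂ _ => ?_)
          refine Finset.card_image_le.trans ?_
          split_ifs with h
          · exact h.le
          · simp
      _ = 2 * (NA C A p.2 p.1).card := by
          rw [Finset.sum_const, smul_eq_mul, mul_comm]
  refine h1.trans (h2.trans ?_)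
  unfold spSum
  rw [Finset.mul_sum]
  refine Finset.sum_le_sum (fun p _ => ?_)
  omega

end TPH
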