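import Pool.Agent.TPH.St2

/-!
# Module Drop2Path   (helper37)
-/

set_option autoImplicit false

namespace TPH

namespace MDrop2Path

theorem three_le {S : Finset E} {a a' b : E} (ha : a ∈ S) (ha' : a' ∈ S) (hb : b ∈ S)
    (h1 : a' ≠ a) (h2 : b ≠ a) (h3 : b ≠ a') : 3 ≤ S.card := by
  classical
  have hcard : ({a, a', b} : Finset E).card = 3 := by
    rw [Finset.card_eq_three]
    exact ⟨a, a', b, h1.symm, h2.symm, h3.symm, rfl⟩
  rw [← hcard]
  refine Finset.card_le_card ?_
  intro x hx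
  rcases Finset.mem_insert.1 hx with rfl | hx
  · exact ha
  · rcases Finset.mem_insert.1 hx with rfl | hx
    · exact ha'
    · rw [Finset.mem_singleton.1 hx]
      exact hb

theorem ip_pth (x u v : E) (t : ℝ) : ip x (pth u v t) = (1 - t) * ip x u + t * ip x v := by
  unfold pth
  rw [ip_add_right, ip_smul_right, ip_smul_right]

theorem pth_zero (u v : E) : pth u v 0 = u := by
  unfold pth
  simp

theorem pth_one (u v : E) : pth u v 1 = v := by
  unfold pth
  simp

theorem pth_eq (u v : E) (t : ℝ) : pth u v t = u + t • (v - u) := by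
  unfold pth
  module

/-- the first time at which a third point of `A` ties with `a` and `a'` -/
theorem cross {A : Finset E} {a a' u v : E} (hne : a' ≠ a) (hu : Mx A u = {a, a'})
    (hP : ip a v = ip a' v) (ha : a ∉ Mx A v) :
    ∃ t : ℝ, 0 < t ∧ t < 1 ∧ a ∈ Mx A (pth u v t) ∧ 3 ≤ (Mx A (pth u v t)).card := by
  classical
  have haA : a ∈ Mx A u := by rw [hu]; exact Finset.mem_insert_self _ _
  have haA' : a' ∈ Mx A u := by
    rw [hu]; exact Finset.mem_insert_of_mem (Finset.mem_singleton_self _)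
  have hex : ∃ b ∈ A, ip a v < ip b v := by
    by_contra hall
    push Not at hall
    exact ha (mem_Mx.2 ⟨Mx_subset _ _ haA, fun b hb => hall b hb⟩)
  set D : Finset E := A.filter fun b => ip a v < ip b v with hD
  have hDne : D.Nonempty := by
    obtain ⟨b, hb, h⟩ := hex
    exact ⟨b, Finset.mem_filter.2 ⟨hb, h⟩⟩
  have hDu : ∀ b ∈ D, ip b u < ip a u := by
    intro b hb
    obtain ⟨hbA, hbv⟩ := Finset.mem_filter.1 hb
    refine Mx_lt haA hbA ?_
    rw [hu]
    intro hmem
    rcases Finset.mem_insert.1 hmem with rfl | hmem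
    · exact lt_irrefl _ hbv
    · rw [Finset.mem_singleton.1 hmem, hP] at hbv
      exact lt_irrefl _ hbv
  obtain ⟨b, hbD, hmin⟩ := D.exists_min_image
    (fun b => (ip a u - ip b u) / ((ip a u - ip b u) + (ip b v - ip a v))) hDne
  obtain ⟨hbA, hbv⟩ := Finset.mem_filter.1 hbD
  have hbu := hDu b hbD
  set s : ℝ := (ip a u - ip b u) + (ip b v - ip a v) with hs
  have hs0 : 0 < s := by rw [hs]; linarith
  set t : ℝ := (ip a u - ip b u) / s with ht
  have ht0 : 0 < t := div_pos (by linarith) hs0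
  have htl : t < 1 := by
    rw [ht, div_lt_one hs0, hs]
    linarith
  have ht1 : 0 < 1 - t := by linarith
  have hts : t * s = ip a u - ip b u := by
    rw [ht]
    field_simp
  have hap : a ∈ Mx A (pth u v t) := by
    refine mem_Mx.2 ⟨Mx_subset _ _ haA, fun x hx => ?_⟩
    rw [ip_pth, ip_pth]
    by_cases hxD : x ∈ D
    · have h1 := hmin x hxD
      have hxv := (Finset.mem_filter.1 hxD).2
      have hxu := hDu x hxD
      have h2 : 0 < (ip a u - ip x u) + (ip x v - ip a v) := by linarith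
      have h3 : t ≤ (ip a u - ip x u) / ((ip a u - ip x u) + (ip x v - ip a v)) := h1
      rw [le_div_iff₀ h2] at h3
      nlinarith
    · have h1 : ip x v ≤ ip a v := by
        by_contra h
        push Not at h
        exact hxD (Finset.mem_filter.2 ⟨hx, h⟩)
      have h2 := Mx_le haA hx
      have h3 := mul_le_mul_of_nonneg_left h2 ht1.le
      have h4 := mul_le_mul_of_nonneg_left h1 ht0.le
      linarith
  have hap' : a' ∈ Mx A (pth u v t) := by
    refine mem_Mx_of_eq hap (Mx_subset _ _ haA') ?_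
    rw [ip_pth, ip_pth, hP, Mx_eq haA' haA]
  have hbp : b ∈ Mx A (pth u v t) := by
    refine mem_Mx_of_eq hap hbA ?_
    rw [ip_pth, ip_pth]
    rw [hs] at hts
    linarith
  have h2 : b ≠ a := by
    rintro rfl
    exact lt_irrefl _ hbv
  have h3 : b ≠ a' := by
    rintro rfl
    rw [hP] at hbv
    exact lt_irrefl _ hbv
  exact ⟨t, ht0, htl, hap, three_le hap hap' hbp hne h2 h3⟩

theorem main (hFlatBasic : StmtFlatBasic) (hFirstBad : StmtFirstBad) (hRegTie : StmtRegTie) :
    StmtDrop2Path := by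
  classical
  intro A B C x u hA hC hx hfl a ha a' ha' hne
  obtain ⟨hD1, hD2⟩ : x ∈ flats A B C ∧ ((∀ a ∈ x.1, Reg A C a x.2.1) ∧
      (∃ r, InR A B x.2.1 r ∧ Perp x.1 r) ∧
      ¬ ∀ v, InR A B x.2.1 v → Perp x.1 v → Mx A v = x.1) := by
    simpa only [D2, Finset.mem_filter] using hx
  obtain ⟨hreg, _, hv⟩ := hD2
  push Not at hv
  obtain ⟨v, hvR, hvP, hvne⟩ := hv
  obtain ⟨hcl, hout, hoC, hu0, hfb, _, _⟩ := hFlatBasic A B C x u (Or.inl hA) hfl
  obtain ⟨he, hNA⟩ := (hfb a ha).2 a' ha' hne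
  have huA : Mx A u = {a, a'} := by rw [← he]; exact hfl.2.2.1
  have huC : Mx C u = {x.2.1} := hfl.2.2.2.1
  have huP : Perp x.1 u := by rw [he, ← huA]; exact perp_Mx A u
  have haA : a ∈ Mx A u := by rw [huA]; exact Finset.mem_insert_self _ _
  have hAne : A.Nonempty := ⟨a, Mx_subset _ _ haA⟩
  have hBne : B.Nonempty := by
    have h1 : x.2.2.card = 2 := hfl.2.1
    have h2 : Mx B u = x.2.2 := hfl.2.2.2.2.1
    have h3 : x.2.2.Nonempty := by
      rw [← Finset.card_pos, h1]
      norm_num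
    obtain ⟨b, hb⟩ := h3
    rw [← h2] at hb
    exact ⟨b, Mx_subset _ _ hb⟩
  -- the segment to a point of `R_c`
  have hseg : ∀ w : E, InR A B x.2.1 w → ∀ t : ℝ, 0 < t → t ≤ 1 →
      InR A B x.2.1 (pth u w t) := by
    intro w hw t h0 h1
    unfold pth
    rw [add_comm]
    exact hw.comb h0 (by linarith) hcl
  have hsegP : ∀ w : E, Perp x.1 w → ∀ t : ℝ, Perp x.1 (pth u w t) := by
    intro w hw t
    unfold pth
    exact huP.comb _ _ hw
  -- the point q
  obtain ⟨q, hqR, hqP, hqa, hq3⟩ : ∃ q, InR A B x.2.1 q ∧ Perp x.1 q ∧ a ∈ Mx A q ∧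
      3 ≤ (Mx A q).card := by
    by_cases hav : a ∈ Mx A v
    · refine ⟨v, hvR, hvP, hav, ?_⟩
      have hav' : a' ∈ Mx A v :=
        mem_Mx_of_eq hav (Mx_subset _ _ (by
          rw [huA]; exact Finset.mem_insert_of_mem (Finset.mem_singleton_self _) : a' ∈ Mx A u))
          (hvP a' ha' a ha)
      have hsub : x.1 ⊆ Mx A v := by
        rw [he]
        intro y hy
        rcases Finset.mem_insert.1 hy with rfl | hy
        · exact hav
        · rw [Finset.mem_singleton.1 hy]
          exact hav'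
      have h1 : x.1.card < (Mx A v).card := by
        refine Finset.card_lt_card (Finset.ssubset_iff_subset_ne.2 ⟨hsub, fun h => hvne h.symm⟩)
      have h2 : x.1.card = 2 := hfl.1
      omega
    · obtain ⟨t, h0, h1, h2, h3⟩ := cross hne huA (hvP a ha a' ha') hav
      exact ⟨pth u v t, hseg v hvR t h0 h1.le, hsegP v hvP t, h2, h3⟩
  have hq0 : q ≠ 0 := by
    rintro rfl
    exact not_inR_zero hAne hBne _ hqR
  -- the first bad time
  have hSeg : Seg A C a x.2.1 u q := by
    refine ⟨haA, hqa, ?_, ?_, hreg a ha⟩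
    · intro t h0 h1
      rcases h0.eq_or_lt with h | h
      · rw [← h, pth_zero]
        exact hu0
      · intro hz
        have := hseg q hqR t h h1
        rw [hz] at this
        exact not_inR_zero hAne hBne _ this
    · obtain ⟨ε, hε, hpert⟩ := Mx_pert C u (q - u)
      refine ⟨ε, hε, fun t h0 h1 => ?_⟩
      rw [pth_eq, hpert t h0 h1, huC, Mx_singleton]
  have hCne : C.Nonempty := by
    rw [← Finset.card_pos]
    omega
  obtain ⟨d, hd⟩ := Mx_nonempty hCne q
  obtain ⟨t, c₁, c₂, hS⟩ := hFirstBad A C a x.2.1 u q hA hC hSeg ⟨1, d, one_pos, le_rfl, by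
    rw [pth_one]; exact hd, fun hR => hR.2.1 ⟨q, hq0, hqa, hd, Or.inl hq3⟩⟩
  have hρR := hseg q hqR t hS.pos hS.le
  have hρP := hsegP q hqP t
  have hρ0 : pth u q t ≠ 0 := hSeg.nz t hS.pos.le hS.le
  have hρa : a ∈ Mx A (pth u q t) := by
    unfold pth
    exact mem_Mx_comb (by linarith [hS.le]) hS.pos.le haA hqa
  have hρa' : a' ∈ Mx A (pth u q t) :=
    mem_Mx_of_eq hρa (Mx_subset _ _ (by
      rw [huA]; exact Finset.mem_insert_of_mem (Finset.mem_singleton_self _) : a' ∈ Mx A u))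
      (hρP a' ha' a ha)
  have hρc : c₂ ∈ Mx C (pth u q t) := by
    rw [hS.tie]
    exact Finset.mem_insert_of_mem (Finset.mem_singleton_self _)
  obtain ⟨h1, _, h3⟩ := hRegTie A C a c₂ (pth u q t) hA hS.reg hρ0 hρa hρc
  have hMA : Mx A (pth u q t) = {a, a'} ∧ a' ∈ NA A C a c₂ := by
    rcases h1 with h | ⟨a'', ha'', h⟩
    · rw [h, Finset.mem_singleton] at hρa'
      exact absurd hρa' hne
    · rw [h] at hρa'
      rcases Finset.mem_insert.1 hρa' with h4 | h4
      · exact absurd h4 hne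
      · rw [Finset.mem_singleton] at h4
        subst h4
        exact ⟨h, ha''⟩
  refine ⟨pth u q t, c₁, c₂, hρR, hρP, hMA.1, hS.tie, mem_Sp.2 ⟨hS.fc, hS.bad⟩, hS.nbr, hS.reg,
    hMA.2, h3 a' c₁ hne hS.ne hMA.1 (by rw [hS.tie, Finset.pair_comm]), ?_⟩
  have := hS.lt 0 le_rfl hS.pos
  rw [pth_zero] at this
  exact this

end MDrop2Path

theorem t_Drop2Path (hFlatBasic : StmtFlatBasic) (hFirstBad : StmtFirstBad)
    (hRegTie : StmtRegTie) : StmtDrop2Path := MDrop2Path.main hFlatBasic hFirstBad hRegTie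

end TPH
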