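import Pool.Agent.TPH.St2

/-!
# Three parallel hyperplanes: there are few tangent flats
-/

set_option autoImplicit false

namespace TPH

namespace MDrop3

theorem mem_D3 {A B C : Finset E} {x : Finset E × E × Finset E} : x ∈ D3 A B C ↔
    x ∈ flats A B C ∧ (∀ a ∈ x.1, Reg A C a x.2.1) ∧ ∀ r, InR A B x.2.1 r → ¬ Perp x.1 r := by
  simp only [D3, Finset.mem_filter]

/-- A common maximiser of `ρ` and of a negative multiple. -/
theorem Mx_neg {A : Finset E} {ρ a : E} {κ : ℝ} (hκ : κ < 0) (h1 : a ∈ Mx A ρ)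
    (h2 : a ∈ Mx A (κ • ρ)) : Mx A ρ = A := by
  apply Finset.Subset.antisymm (Mx_subset _ _)
  intro b hb
  apply mem_Mx_of_eq h1 hb
  have e1 := Mx_le h1 hb
  have e2 := Mx_le h2 hb
  rw [ip_smul_right, ip_smul_right] at e2
  have e3 : ip a ρ ≤ ip b ρ := by
    by_contra hc
    push Not at hc
    have := mul_lt_mul_of_neg_left hc hκ
    linarith
  linarith

/-- The main step of the claim. -/
theorem core (hFlatBasic : StmtFlatBasic) (hRegSide : StmtRegSide) {A B C : Finset E}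
    {x y : Finset E × E × Finset E} {δ c' z ρ a₁ a₂ δ' z' ρ' : E} (hA : 3 ≤ A.card)
    (hC : 3 ≤ C.card) (hx : x ∈ D3 A B C) (hy : y ∈ D3 A B C) (hr : ∃ r, InR A B x.2.1 r)
    (h : TG A B C x δ c' z ρ a₁ a₂) (h' : TG A B C y δ' c' z' ρ' a₁ a₂) (hc : x.2.1 = y.2.1)
    {α β : ℝ} (hα : 0 < α) (he : z' = β • z + α • ρ) : x.1 = y.1 := by
  classical
  rw [mem_D3] at hx hy
  obtain ⟨u, hu⟩ := mem_flats.1 hx.1
  obtain ⟨u', hu'⟩ := mem_flats.1 hy.1
  obtain ⟨r, hr⟩ := hr
  have fx := hFlatBasic A B C x u (Or.inl hA) hu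
  have fy := hFlatBasic A B C y u' (Or.inl hA) hu'
  have hz0 : ip δ z = 0 := (h.perp z).1 (h.zA ▸ perp_Mx A z)
  have hz' : ip δ z' < 0 := by
    rw [he, ip_add_right, ip_smul_right, ip_smul_right, hz0, mul_zero, zero_add]
    exact mul_neg_of_pos_of_neg hα h.ρδ
  have hu0 : 0 ≤ ip δ u' := by
    by_contra hneg
    push Not at hneg
    have hδr := h.side r hr
    have hε : 0 < -ip δ u' / ip δ r := div_pos (by linarith) hδr
    have hin : InR A B x.2.1 (u' + (-ip δ u' / ip δ r) • r) := by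
      have h1 : InRc A B x.2.1 u' := by rw [hc]; exact fy.1
      have h2 := (hr.smul hε).add h1
      rwa [add_comm] at h2
    have h3 := h.side _ hin
    rw [ip_add_right, ip_smul_right, div_mul_cancel₀ _ hδr.ne'] at h3
    linarith
  set v : E := (ip δ u') • z' + (-ip δ z') • u' with hv
  have hpos : 0 < -ip δ z' := by linarith
  have hδv : ip δ v = 0 := by
    rw [hv, ip_add_right, ip_smul_right, ip_smul_right]; ring
  have huC : Mx C u' = {x.2.1} := by rw [hc]; exact hu'.2.2.2.1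
  have hvC : Mx C v = {x.2.1} := by
    refine Mx_comb_right hu0 hpos (Finset.singleton_nonempty _) huC ?_
    rw [h'.zC, ← hc]
    simp
  have hy2 : y.1.card = 2 := hu'.1
  have hvA : Mx A v = y.1 := by
    refine Mx_comb_right hu0 hpos ?_ hu'.2.2.1 ?_
    · rw [← Finset.card_pos, hy2]; norm_num
    · rw [h'.zA]
  have hv0 : v ≠ 0 := by
    intro h0
    rw [h0, Mx_zero] at hvC
    rw [hvC, Finset.card_singleton] at hC
    omega
  obtain ⟨a, a', haa, hxe⟩ := Finset.card_eq_two.1 hu.1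
  have ha : a ∈ x.1 := by rw [hxe]; simp
  have ha' : a' ∈ x.1 := by rw [hxe]; simp
  have hnb := ((fx.2.2.2.2.1 a ha).2 a' ha' haa.symm).2
  have hreg := hx.2.1 a ha
  have hside := hRegSide A C a x.2.1 a' v (by omega) hreg.2.1 hnb hv0
    (by rw [← hxe]; exact (h.perp v).2 hδv) (by rw [hvC]; simp)
  rw [hxe, ← hside, hvA]

/-- The claim: the charge determines the edge. -/
theorem claim (hFlatBasic : StmtFlatBasic) (hCornerNbr : StmtCornerNbr) (hRegSide : StmtRegSide)
    {A B C : Finset E} {x y : Finset E × E × Finset E} {δ c' z ρ a₁ a₂ δ' z' ρ' : E}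
    (hA : 3 ≤ A.card) (hC : 3 ≤ C.card) (hx : x ∈ D3 A B C) (hy : y ∈ D3 A B C)
    (hr : ∃ r, InR A B x.2.1 r)
    (h : TG A B C x δ c' z ρ a₁ a₂) (h' : TG A B C y δ' c' z' ρ' a₁ a₂) (hc : x.2.1 = y.2.1) :
    x.1 = y.1 := by
  classical
  have hN := (hCornerNbr A C a₂ a₁ x.2.1 c' h.cor).2.2.2.2.2.2
  set d₁ : E := a₂ - a₁ with hd₁
  set d₂ : E := x.2.1 - c' with hd₂
  have hd1 : d₁ ≠ 0 := by
    intro h0
    obtain ⟨w, hw, -⟩ := hN 1 0
    rw [h0, ip_zero_left] at hw
    norm_num at hw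
  have hd2 : d₂ ≠ 0 := by
    intro h0
    obtain ⟨w, -, hw⟩ := hN 0 1
    rw [h0, ip_zero_left] at hw
    norm_num at hw
  have hcr : cr d₁ d₂ ≠ 0 := by
    intro h0
    obtain ⟨k, hk⟩ := par_of_cr hd1 h0
    obtain ⟨w, hw1, hw2⟩ := hN 0 1
    rw [hk, ip_smul_left, hw1, mul_zero] at hw2
    norm_num at hw2
  -- orthogonality
  have o1 : ∀ {w : E}, Mx A w = {a₁, a₂} → ip d₁ w = 0 := by
    intro w hw
    rw [hd₁, ip_sub_left, Mx_eq (A := A) (u := w) (a := a₂) (a' := a₁) (by rw [hw]; simp)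
      (by rw [hw]; simp), sub_self]
  have o2 : ∀ {w : E}, Mx C w = {x.2.1, c'} → ip d₂ w = 0 := by
    intro w hw
    rw [hd₂, ip_sub_left, Mx_eq (A := C) (u := w) (a := x.2.1) (a' := c') (by rw [hw]; simp)
      (by rw [hw]; simp), sub_self]
  have hρ1 := o1 h.ρA
  have hρ1' := o1 h'.ρA
  have hρ2 := o2 h.ρC
  have hρ2' : ip d₂ ρ' = 0 := o2 (by rw [h'.ρC, hc])
  have hz2 := o2 h.zC
  have hz2' : ip d₂ z' = 0 := o2 (by rw [h'.zC, hc])
  have hρ0 : ρ ≠ 0 := by
    intro h0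
    have := h.ρδ
    rw [h0, ip_zero_right] at this
    exact lt_irrefl _ this
  have hρ0' : ρ' ≠ 0 := by
    intro h0
    have := h'.ρδ
    rw [h0, ip_zero_right] at this
    exact lt_irrefl _ this
  -- `ρ'` is a positive multiple of `ρ`
  obtain ⟨k, hk⟩ := par_cr_of_ip hcr (by rw [ip_comm]; exact hρ1) (by rw [ip_comm]; exact hρ2)
  obtain ⟨k', hk'⟩ := par_cr_of_ip hcr (by rw [ip_comm]; exact hρ1') (by rw [ip_comm]; exact hρ2')
  have hk0 : k ≠ 0 := by
    rintro rfl
    exact hρ0 (by rw [hk, zero_smul])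
  have hκ : ρ' = (k' / k) • ρ := by
    rw [hk, hk', smul_smul, div_mul_cancel₀ _ hk0]
  have hκ0 : k' / k ≠ 0 := by
    intro h0
    rw [h0, zero_smul] at hκ
    exact hρ0' hκ
  have hκpos : 0 < k' / k := by
    rcases lt_or_gt_of_ne hκ0 with hneg | hpos
    · exfalso
      have h1 : a₁ ∈ Mx A ρ := by rw [h.ρA]; simp
      have h2 : a₁ ∈ Mx A ((k' / k) • ρ) := by rw [← hκ, h'.ρA]; simp
      have h3 := Mx_neg hneg h1 h2
      rw [h.ρA] at h3
      rw [← h3] at hA
      have := Finset.card_le_two (a := a₁) (b := a₂)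
      omega
    · exact hpos
  -- decomposition of `z'`
  have hza : 0 < ip d₁ z := by
    rw [hd₁, ip_sub_left]
    have := h.za
    linarith
  have hza' : 0 < ip d₁ z' := by
    rw [hd₁, ip_sub_left]
    have := h'.za
    linarith
  have hz0 : z ≠ 0 := by
    intro h0
    rw [h0, ip_zero_right] at hza
    exact lt_irrefl _ hza
  have hzρ : cr z ρ ≠ 0 := by
    intro h0
    obtain ⟨m, hm⟩ := par_of_cr hz0 h0
    rw [hm, ip_smul_right] at hρ1
    rcases mul_eq_zero.1 hρ1 with h1 | h1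
    · apply hρ0
      rw [hm, h1, zero_smul]
    · exact hza.ne' h1
  obtain ⟨β, α, he⟩ := comb_of_perp hd2 hzρ hz2 hρ2 hz2'
  have hβ : 0 < β := by
    rw [he, ip_add_right, ip_smul_right, ip_smul_right, hρ1, mul_zero, add_zero] at hza'
    exact (pos_iff_pos_of_mul_pos hza').mpr hza
  rcases lt_trichotomy α 0 with hα | hα | hα
  · -- exchange the roles
    have hr' : ∃ r, InR A B y.2.1 r := by rw [← hc]; exact hr
    have he' : z = (1 / β) • z' + (-α / (β * (k' / k))) • ρ' := by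
      have h1 : (-α / (β * (k' / k))) • ρ' = (-α / β) • ρ := by
        rw [hκ, smul_smul]
        congr 1
        generalize k' / k = κ at hκ0
        field_simp
      rw [h1, he, smul_add, smul_smul, smul_smul, one_div, inv_mul_cancel₀ hβ.ne', one_smul,
        add_assoc, ← add_smul]
      have : β⁻¹ * α + -α / β = 0 := by field_simp; ring
      rw [this, zero_smul, add_zero]
    exact (core hFlatBasic hRegSide hA hC hy hx hr' h' h hc.symm
      (div_pos (by linarith) (mul_pos hβ hκpos)) he').symm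
  · rw [hα, zero_smul, add_zero] at he
    rw [← h.zA, ← h'.zA, he, Mx_smul hβ]
  · exact core hFlatBasic hRegSide hA hC hx hy hr h h' hc hα he

end MDrop3

theorem t_Drop3 (hFlatBasic : StmtFlatBasic) (hTwoPer : StmtTwoPer) (hCornerNbr : StmtCornerNbr)
    (hRegSide : StmtRegSide) (hTangentPath : StmtTangentPath) : StmtDrop3 := by
  classical
  intro A B C hA hC hR
  have hdata : ∀ x ∈ D3 A B C, ∃ c' a₁ a₂ : E, ∃ δ z ρ : E, TG A B C x δ c' z ρ a₁ a₂ := by
    intro x hx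
    have hc : x.2.1 ∈ C := by
      obtain ⟨u, hu⟩ := mem_flats.1 (MDrop3.mem_D3.1 hx).1
      exact Mx_subset C u (by rw [hu.2.2.2.1]; simp)
    obtain ⟨δ, c', z, ρ, a₁, a₂, h⟩ := hTangentPath A B C x hA hC (hR _ hc) hx
    exact ⟨c', a₁, a₂, δ, z, ρ, h⟩
  choose! c' a₁ a₂ h using hdata
  set k : Finset E × E × Finset E → E × E × E × E := fun x => (a₁ x, x.2.1, a₂ x, c' x) with hk
  set T : Finset (E × E × E × E) := (Sp A C).biUnion (fun p =>
    ((NA A C p.1 p.2).filter (fun a => Reg A C a p.2)).biUnion (fun a =>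
      (NA C A p.2 a).image (fun c => (p.1, p.2, a, c)))) with hT
  have hmaps : ∀ x ∈ D3 A B C, k x ∈ T := by
    intro x hx
    obtain ⟨δ, z, ρ, hg⟩ := h x hx
    rw [hT, Finset.mem_biUnion]
    refine ⟨(a₁ x, x.2.1), hg.sp, ?_⟩
    rw [Finset.mem_biUnion]
    refine ⟨a₂ x, Finset.mem_filter.2 ⟨hg.na, hg.reg⟩, ?_⟩
    rw [Finset.mem_image]
    exact ⟨c' x, hg.nc', rfl⟩
  have hfib : ∀ t ∈ T, ((D3 A B C).filter (fun x => k x = t)).card ≤ 2 := by
    intro t _
    rcases ((D3 A B C).filter (fun x => k x = t)).eq_empty_or_nonempty with he | ⟨x, hx⟩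
    · rw [he, Finset.card_empty]; norm_num
    · rw [Finset.mem_filter] at hx
      refine (Finset.card_le_card ?_).trans (hTwoPer A B C x.1 x.2.1 (Or.inl hA))
      intro y hy
      rw [Finset.mem_filter] at hy
      simp only [Finset.mem_filter]
      have hky : k x = k y := hx.2.trans hy.2.symm
      have e1 : a₁ x = a₁ y := congrArg Prod.fst hky
      have e2 : x.2.1 = y.2.1 := congrArg (fun w => w.2.1) hky
      have e3 : a₂ x = a₂ y := congrArg (fun w => w.2.2.1) hky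
      have e4 : c' x = c' y := congrArg (fun w => w.2.2.2) hky
      obtain ⟨δ, z, ρ, hg⟩ := h x hx.1
      obtain ⟨δ', z', ρ', hg'⟩ := h y hy.1
      rw [← e1, ← e3, ← e4] at hg'
      have hc : x.2.1 ∈ C := by
        obtain ⟨u, hu⟩ := mem_flats.1 (MDrop3.mem_D3.1 hx.1).1
        exact Mx_subset C u (by rw [hu.2.2.2.1]; simp)
      refine ⟨(MDrop3.mem_D3.1 hy.1).1, ?_, e2.symm⟩
      exact (MDrop3.claim hFlatBasic hCornerNbr hRegSide hA hC hx.1 hy.1 (hR _ hc) hg hg' e2).symm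
  have h1 := Finset.card_le_mul_card_image_of_maps_to hmaps 2 hfib
  have h2 : T.card ≤ ∑ p ∈ Sp A C, (NA A C p.1 p.2).card * 2 := by
    rw [hT]
    refine Finset.card_biUnion_le.trans (Finset.sum_le_sum (fun p _ => ?_))
    refine (Finset.card_biUnion_le_card_mul _ _ 2 (fun a ha => ?_)).trans
      (Nat.mul_le_mul_right _ (Finset.card_le_card (Finset.filter_subset _ _)))
    rw [Finset.mem_filter] at ha
    refine Finset.card_image_le.trans ?_
    exact ha.2.2.2.2.le
  have h3 : ∑ p ∈ Sp A C, (NA A C p.1 p.2).card * 2 ≤ spSum A C * 2 := by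
    rw [← Finset.sum_mul]
    refine Nat.mul_le_mul_right _ ?_
    unfold spSum
    exact Finset.sum_le_sum (fun p _ => Nat.le_add_right _ _)
  omega

end TPH
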