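import Pool.Agent.TPH.St2

set_option autoImplicit false

/-!
# Three parallel hyperplanes: all but linearly many flats are good
-/

namespace TPH

namespace MDropAll

/-- Exchange of the two outer edges. -/
def sg (x : Finset E × E × Finset E) : Finset E × E × Finset E := (x.2.2, x.2.1, x.1)

theorem sg_sg (x : Finset E × E × Finset E) : sg (sg x) = x := rfl

theorem flat_sg {A B C : Finset E} {x : Finset E × E × Finset E} {u : E}
    (h : IsFlat A B C x u) : IsFlat B A C (sg x) u := by
  obtain ⟨h1, h2, h3, h4, h5, h6, h7⟩ := h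
  refine ⟨h2, h1, h5, h4, h3, ?_, ?_⟩
  · intro b hb a ha
    have := h6 a ha b hb
    show ip b u + ip a u = 2 * ip x.2.1 u
    linarith
  · intro v hv1 hv2 hv3
    refine h7 v hv2 hv1 ?_
    intro a ha b hb
    have := hv3 b hb a ha
    have h8 : ip b v + ip a v = 2 * ip x.2.1 v := this
    linarith

theorem mem_flats_of {A B C : Finset E} {x : Finset E × E × Finset E}
    (h : x ∈ flats A B C) : ∃ u, IsFlat A B C x u := by
  unfold flats at h
  exact ((@Finset.mem_filter _ _ (Classical.decPred _) _ _).mp h).2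

end MDropAll

theorem t_DropAll (hDrop1 : StmtDrop1) (hDrop2 : StmtDrop2) (hDrop3 : StmtDrop3)
    (hHalfExit : StmtHalfExit) : StmtDropAll := by
  intro A B C hA hB hC hR
  classical
  have hR' : ∀ c ∈ C, ∃ r, InR B A c r := by
    intro c hc
    obtain ⟨r, hr⟩ := hR c hc
    refine ⟨r, fun b hb a ha => ?_⟩
    have := hr a ha b hb
    linarith
  have a1 := hDrop1 A B C hA
  have a2 := hDrop2 A B C hA hC
  have a3 := hDrop3 A B C hA hC hR
  have b1 := hDrop1 B A C hB
  have b2 := hDrop2 B A C hB hC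
  have b3 := hDrop3 B A C hB hC hR'
  have hsub : flats A B C ⊆ GF A B C ∪ (D1 A B C ∪ (D2 A B C ∪ (D3 A B C ∪
      ((D1 B A C).image MDropAll.sg ∪ ((D2 B A C).image MDropAll.sg ∪
        (D3 B A C).image MDropAll.sg))))) := by
    intro x hx
    obtain ⟨u, hu⟩ := MDropAll.mem_flats_of hx
    by_contra hcon
    simp only [Finset.mem_union, not_or] at hcon
    obtain ⟨n0, n1, n2, n3, m1, m2, m3⟩ := hcon
    have k1 : MDropAll.sg x ∉ D1 B A C := fun h =>
      m1 (Finset.mem_image.mpr ⟨MDropAll.sg x, h, MDropAll.sg_sg x⟩)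
    have k2 : MDropAll.sg x ∉ D2 B A C := fun h =>
      m2 (Finset.mem_image.mpr ⟨MDropAll.sg x, h, MDropAll.sg_sg x⟩)
    have k3 : MDropAll.sg x ∉ D3 B A C := fun h =>
      m3 (Finset.mem_image.mpr ⟨MDropAll.sg x, h, MDropAll.sg_sg x⟩)
    obtain ⟨z, c₁, hz⟩ := hHalfExit A B C x u hA hC hu n1 n2 n3
    obtain ⟨y, c₂, hy⟩ := hHalfExit B A C (MDropAll.sg x) u hB hC (MDropAll.flat_sg hu) k1 k2 k3
    apply n0
    unfold GF
    exact (@Finset.mem_filter _ _ (Classical.decPred _) _ _).mpr
      ⟨hx, u, z, y, c₁, c₂, ⟨hu, hz, hy⟩⟩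
  have h1 := Finset.card_le_card hsub
  have h2 := Finset.card_union_le (GF A B C) (D1 A B C ∪ (D2 A B C ∪ (D3 A B C ∪
      ((D1 B A C).image MDropAll.sg ∪ ((D2 B A C).image MDropAll.sg ∪
        (D3 B A C).image MDropAll.sg)))))
  have h3 := Finset.card_union_le (D1 A B C) (D2 A B C ∪ (D3 A B C ∪
      ((D1 B A C).image MDropAll.sg ∪ ((D2 B A C).image MDropAll.sg ∪
        (D3 B A C).image MDropAll.sg))))
  have h4 := Finset.card_union_le (D2 A B C) (D3 A B C ∪
      ((D1 B A C).image MDropAll.sg ∪ ((D2 B A C).image MDropAll.sg ∪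
        (D3 B A C).image MDropAll.sg)))
  have h5 := Finset.card_union_le (D3 A B C)
      ((D1 B A C).image MDropAll.sg ∪ ((D2 B A C).image MDropAll.sg ∪
        (D3 B A C).image MDropAll.sg))
  have h6 := Finset.card_union_le ((D1 B A C).image MDropAll.sg)
    ((D2 B A C).image MDropAll.sg ∪ (D3 B A C).image MDropAll.sg)
  have h7 := Finset.card_union_le ((D2 B A C).image MDropAll.sg) ((D3 B A C).image MDropAll.sg)
  have i1 : ((D1 B A C).image MDropAll.sg).card ≤ (D1 B A C).card := Finset.card_image_le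
  have i2 : ((D2 B A C).image MDropAll.sg).card ≤ (D2 B A C).card := Finset.card_image_le
  have i3 : ((D3 B A C).image MDropAll.sg).card ≤ (D3 B A C).card := Finset.card_image_le
  omega

end TPH
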