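import Pool.Agent.TPH.St1

/-!
# Three parallel hyperplanes: the number of edges (module EdgeCount)
-/

namespace TPH

namespace MEdgeCount

/-- Data attached to an edge. -/
structure Dat (A : Finset E) (e : Finset E) (a a' u z : E) : Prop where
  he : e = {a, a'}
  ne : a ≠ a'
  hu : Mx A u = e
  sub : e ⊆ Mx A z
  face : Mx A z ∈ Faces A
  z0 : z ≠ 0
  det : 0 < det3 z u (a - a')

theorem exists_dat {A : Finset E} (hA : 3 ≤ A.card) {e : Finset E} (he : e ∈ Ed A) :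
    ∃ a a' u z, Dat A e a a' u z := by
  obtain ⟨h2, u, hu⟩ := mem_Ed.mp he
  obtain ⟨a, a', hne, rfl⟩ := Finset.card_eq_two.mp h2
  have hu0 : u ≠ 0 := by
    rintro rfl
    rw [Mx_zero] at hu
    rw [hu] at hA
    omega
  have haM : a ∈ Mx A u := by rw [hu]; simp
  have haM' : a' ∈ Mx A u := by rw [hu]; simp
  have hd0 : a - a' ≠ 0 := sub_ne_zero.mpr hne
  have hdu : ip (a - a') u = 0 := by rw [ip_sub_left, Mx_eq haM haM', sub_self]
  set w : E := cr (a - a') u with hw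
  have hdw : ip (a - a') w = 0 := by rw [hw, ip_cr', det3_self13]
  have hw0 : w ≠ 0 := by
    intro h
    obtain ⟨k, hk⟩ := par_of_cr hd0 (by rw [← hw]; exact h)
    rw [hk, ip_smul_right] at hdu
    rcases mul_eq_zero.mp hdu with h' | h'
    · apply hu0; rw [hk, h', zero_smul]
    · exact (ip_self_pos hd0).ne' h'
  have hwp : Perp {a, a'} w := by
    rw [perp_pair]
    rw [ip_sub_left] at hdw
    linarith
  have hneA : ({a, a'} : Finset E) ≠ A := by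
    intro h
    rw [← h] at hA
    omega
  obtain ⟨M, τ, hM, hτ, hS, -, hch, -⟩ := rotate (A := A) (C := A) (S := {a, a'}) (T := {a, a'})
    (u := u) (w := w) hu hu (by simp) (by simp) (Or.inl hneA) hwp hwp
  have hne2 : Mx A (u + τ • (w - M • u)) ≠ {a, a'} := by
    rcases hch with h | h <;> exact h
  set z : E := u + τ • (w - M • u) with hz
  have hww : 0 < ip w w := ip_self_pos hw0
  have hdet : det3 z u (a' - a) = τ * ip w w := by
    rw [hz, det3_add1, det3_self12, det3_smul1, det3_sub1, det3_smul1, det3_self12]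
    have h1 : det3 w u (a' - a) = ip w w := by
      have h2 : a' - a = -(a - a') := by abel
      rw [h2, det3_neg3, ← det3_cyc (w) u (a - a'), det3_swap12, neg_neg, ← ip_cr, ← hw]
    rw [h1]; ring
  have hdpos : 0 < det3 z u (a' - a) := by rw [hdet]; exact mul_pos hτ hww
  have hz0 : z ≠ 0 := by
    intro h
    rw [h, det3_zero1] at hdpos
    exact lt_irrefl _ hdpos
  refine ⟨a', a, u, z, ⟨Finset.pair_comm _ _, hne.symm, hu, hS, ?_, hz0, hdpos⟩⟩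
  refine mem_Faces.mpr ⟨?_, z, hz0, rfl⟩
  have hlt : ({a, a'} : Finset E).card < (Mx A z).card :=
    Finset.card_lt_card (lt_of_le_of_ne hS (Ne.symm hne2))
  omega

/-- Two edges at the same point with positively parallel face normals agree. -/
theorem same {A : Finset E} {e₁ e₂ : Finset E} {a a₁ a₂ u₁ u₂ z₁ z₂ : E}
    (h1 : Dat A e₁ a a₁ u₁ z₁) (h2 : Dat A e₂ a a₂ u₂ z₂) {κ : ℝ} (hκ : 0 < κ)
    (hz : z₂ = κ • z₁) : e₁ = e₂ := by
  by_contra hcon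
  have hne12 : a₁ ≠ a₂ := by
    rintro rfl
    exact hcon (h1.he.trans h2.he.symm)
  have a_u1 : a ∈ Mx A u₁ := by rw [h1.hu, h1.he]; simp
  have a1_u1 : a₁ ∈ Mx A u₁ := by rw [h1.hu, h1.he]; simp
  have a_u2 : a ∈ Mx A u₂ := by rw [h2.hu, h2.he]; simp
  have a2_u2 : a₂ ∈ Mx A u₂ := by rw [h2.hu, h2.he]; simp
  have a1_A : a₁ ∈ A := Mx_subset _ _ a1_u1
  have a2_A : a₂ ∈ A := Mx_subset _ _ a2_u2
  have n2 : a₂ ∉ Mx A u₁ := by
    rw [h1.hu, h1.he]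
    simp only [Finset.mem_insert, Finset.mem_singleton, not_or]
    exact ⟨h2.ne.symm, hne12.symm⟩
  have n1 : a₁ ∉ Mx A u₂ := by
    rw [h2.hu, h2.he]
    simp only [Finset.mem_insert, Finset.mem_singleton, not_or]
    exact ⟨h1.ne.symm, hne12⟩
  have d2u1 : 0 < ip (a - a₂) u₁ := by
    rw [ip_sub_left]; have := Mx_lt a_u1 a2_A n2; linarith
  have d1u2 : 0 < ip (a - a₁) u₂ := by
    rw [ip_sub_left]; have := Mx_lt a_u2 a1_A n1; linarith
  have d1u1 : ip (a - a₁) u₁ = 0 := by rw [ip_sub_left, Mx_eq a_u1 a1_u1, sub_self]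
  have d2u2 : ip (a - a₂) u₂ = 0 := by rw [ip_sub_left, Mx_eq a_u2 a2_u2, sub_self]
  have a_z1 : a ∈ Mx A z₁ := h1.sub (by rw [h1.he]; simp)
  have a1_z1 : a₁ ∈ Mx A z₁ := h1.sub (by rw [h1.he]; simp)
  have a_z2 : a ∈ Mx A z₂ := h2.sub (by rw [h2.he]; simp)
  have a2_z2 : a₂ ∈ Mx A z₂ := h2.sub (by rw [h2.he]; simp)
  have hzz : Mx A z₂ = Mx A z₁ := by rw [hz, Mx_smul hκ]
  have a2_z1 : a₂ ∈ Mx A z₁ := hzz ▸ a2_z2
  have d1z1 : ip (a - a₁) z₁ = 0 := by rw [ip_sub_left, Mx_eq a_z1 a1_z1, sub_self]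
  have d2z1 : ip (a - a₂) z₁ = 0 := by rw [ip_sub_left, Mx_eq a_z1 a2_z1, sub_self]
  have det1 : 0 < det3 z₁ u₁ (a - a₁) := h1.det
  have det2 : 0 < det3 z₁ u₂ (a - a₂) := by
    have := h2.det
    rw [hz, det3_smul1] at this
    exact (pos_iff_pos_of_mul_pos this).mp hκ
  have aux : ∀ u d : E, ip d z₁ = 0 → ip d u = 0 → 0 < det3 z₁ u d →
      ∃ μ : ℝ, 0 < μ ∧ d = μ • cr z₁ u := by
    intro u d hdz hdu hdet
    have hcr : cr z₁ u ≠ 0 := by
      intro h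
      rw [← ip_cr, h, ip_zero_left] at hdet
      exact lt_irrefl _ hdet
    obtain ⟨μ, hμ⟩ := par_cr_of_ip hcr hdz hdu
    refine ⟨μ, ?_, hμ⟩
    rw [← ip_cr, hμ, ip_smul_right] at hdet
    exact (pos_iff_pos_of_mul_pos hdet).mpr (ip_self_pos hcr)
  obtain ⟨μ₁, hμ₁, e1⟩ := aux u₁ (a - a₁) d1z1 d1u1 det1
  obtain ⟨μ₂, hμ₂, e2⟩ := aux u₂ (a - a₂) d2z1 d2u2 det2
  rw [e2, ip_smul_left, ip_cr] at d2u1
  rw [e1, ip_smul_left, ip_cr, det3_swap23] at d1u2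
  have k1 : 0 < det3 z₁ u₂ u₁ := (pos_iff_pos_of_mul_pos d2u1).mp hμ₂
  have k2 : 0 < -det3 z₁ u₂ u₁ := (pos_iff_pos_of_mul_pos d1u2).mp hμ₁
  linarith

/-- The normals of a common face are parallel. -/
theorem par (hNonCol : StmtNonCol) {A : Finset E} (hA : ConvPos A) {z₁ z₂ : E} (h1 : z₁ ≠ 0)
    (h3 : 3 ≤ (Mx A z₁).card) (h : Mx A z₂ = Mx A z₁) : ∃ κ : ℝ, z₂ = κ • z₁ := by
  obtain ⟨x, hx, y, hy, t, ht, hxy, hxt, hyt⟩ := Finset.two_lt_card.mp (show 2 < (Mx A z₁).card by omega)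
  have hsub : ({x, y, t} : Finset E) ⊆ Mx A z₁ := by
    intro s hs
    simp only [Finset.mem_insert, Finset.mem_singleton] at hs
    rcases hs with rfl | rfl | rfl <;> assumption
  exact hNonCol A x y t z₁ z₂ hA (Mx_subset _ _ hx) (Mx_subset _ _ hy) (Mx_subset _ _ ht) hxy hxt hyt
    h1 ((perp_Mx A z₁).mono hsub) ((perp_Mx A z₂).mono (h ▸ hsub))

/-- Three edges with the same data: two of them agree. -/
theorem three (hNonCol : StmtNonCol) {A : Finset E} (hA : ConvPos A) {e₁ e₂ e₃ : Finset E}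
    {a a₁ a₂ a₃ u₁ u₂ u₃ z₁ z₂ z₃ : E}
    (h1 : Dat A e₁ a a₁ u₁ z₁) (h2 : Dat A e₂ a a₂ u₂ z₂) (h3 : Dat A e₃ a a₃ u₃ z₃)
    (h12 : Mx A z₂ = Mx A z₁) (h13 : Mx A z₃ = Mx A z₁) : e₁ = e₂ ∨ e₁ = e₃ ∨ e₂ = e₃ := by
  have hc := (mem_Faces.mp h1.face).1
  obtain ⟨κ₂, hκ₂⟩ := par hNonCol hA h1.z0 hc h12
  obtain ⟨κ₃, hκ₃⟩ := par hNonCol hA h1.z0 hc h13
  have n2 : κ₂ ≠ 0 := by
    rintro rfl; apply h2.z0; rw [hκ₂, zero_smul]
  have n3 : κ₃ ≠ 0 := by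
    rintro rfl; apply h3.z0; rw [hκ₃, zero_smul]
  rcases lt_or_gt_of_ne n2 with l2 | l2
  · rcases lt_or_gt_of_ne n3 with l3 | l3
    · right; right
      refine same h2 h3 (κ := κ₃ / κ₂) (div_pos_of_neg_of_neg l3 l2) ?_
      rw [hκ₂, hκ₃, smul_smul, div_mul_cancel₀ _ n2]
    · right; left
      exact same h1 h3 l3 hκ₃
  · left
    exact same h1 h2 l2 hκ₂

end MEdgeCount

open MEdgeCount in
theorem t_EdgeCount (hNonCol : StmtNonCol) : StmtEdgeCount := by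
  classical
  intro A hA hconv
  have hex : ∀ e : Finset E, ∃ p : E × E × E × E, e ∈ Ed A → Dat A e p.1 p.2.1 p.2.2.1 p.2.2.2 := by
    intro e
    by_cases he : e ∈ Ed A
    · obtain ⟨a, a', u, z, h⟩ := exists_dat hA he
      exact ⟨(a, a', u, z), fun _ => h⟩
    · exact ⟨0, fun h => absurd h he⟩
  choose p hp using hex
  have hcard : ∑ G ∈ Faces A, G.card = ((Faces A).sigma (fun G => G)).card := by
    rw [Finset.card_sigma]
  rw [hcard]
  refine Finset.card_le_mul_card_image_of_maps_to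
    (f := fun e => (⟨Mx A (p e).2.2.2, (p e).1⟩ : Σ _ : Finset E, E)) ?_ 2 ?_
  · intro e he
    have h := hp e he
    rw [Finset.mem_sigma]
    exact ⟨h.face, h.sub ((Finset.ext_iff.mp h.he (p e).1).mpr (by simp))⟩
  · rintro ⟨G, a⟩ -
    by_contra hcon
    push Not at hcon
    obtain ⟨e₁, m1, e₂, m2, e₃, m3, n12, n13, n23⟩ := Finset.two_lt_card.mp hcon
    rw [Finset.mem_filter] at m1 m2 m3
    obtain ⟨m1, q1⟩ := m1
    obtain ⟨m2, q2⟩ := m2
    obtain ⟨m3, q3⟩ := m3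
    have d1 := hp e₁ m1
    have d2 := hp e₂ m2
    have d3 := hp e₃ m3
    simp only [Sigma.mk.injEq, heq_eq_eq] at q1 q2 q3
    rw [q1.2] at d1
    rw [q2.2] at d2
    rw [q3.2] at d3
    rcases three hNonCol hconv d1 d2 d3 (q2.1.trans q1.1.symm) (q3.1.trans q1.1.symm) with h | h | h
    · exact n12 h
    · exact n13 h
    · exact n23 h

end TPH
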