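import Pool.Agent.TPH.St3

/-!
# Three parallel hyperplanes: the escape lemma
-/

set_option autoImplicit false

namespace TPH

namespace MEscape

/-- the first point of a ray outside the open cone -/
theorem crossing {A B : Finset E} {c v₀ z : E} (h0 : InR A B c v₀) {τ₁ : ℝ} (h1 : 0 ≤ τ₁)
    (h2 : ¬ InR A B c (v₀ - τ₁ • z)) :
    ∃ T : ℝ, 0 < T ∧ InRc A B c (v₀ - T • z) ∧ ¬ InR A B c (v₀ - T • z) := by
  classical
  set q : E × E → ℝ := fun p => ip p.1 z + ip p.2 z - 2 * ip c z with hq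
  set p0 : E × E → ℝ := fun p => ip p.1 v₀ + ip p.2 v₀ - 2 * ip c v₀ with hp0
  have hneg : ∀ p ∈ A ×ˢ B, p0 p < 0 := by
    intro p hp
    rw [Finset.mem_product] at hp
    have := h0 p.1 hp.1 p.2 hp.2
    simp only [hp0]
    linarith
  have hval : ∀ (p : E × E) (τ : ℝ), ip p.1 (v₀ - τ • z) + ip p.2 (v₀ - τ • z) -
      2 * ip c (v₀ - τ • z) = p0 p - τ * q p := by
    intro p τ
    simp only [ip_sub_right, ip_smul_right, hq, hp0]
    ring
  have hex : ((A ×ˢ B).filter (fun p => q p < 0)).Nonempty := by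
    unfold InR at h2
    push Not at h2
    obtain ⟨a, ha, b, hb, hab⟩ := h2
    refine ⟨(a, b), Finset.mem_filter.2 ⟨Finset.mem_product.2 ⟨ha, hb⟩, ?_⟩⟩
    have h3 := hval (a, b) τ₁
    have h4 := hneg (a, b) (Finset.mem_product.2 ⟨ha, hb⟩)
    by_contra h5
    push Not at h5
    have h6 : 0 ≤ τ₁ * q (a, b) := mul_nonneg h1 h5
    simp only at h3
    linarith
  obtain ⟨x, hx, hmin⟩ := Finset.exists_min_image _ (fun p => p0 p / q p) hex
  rw [Finset.mem_filter] at hx
  have hT : 0 < p0 x / q x := div_pos_of_neg_of_neg (hneg x hx.1) hx.2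
  refine ⟨p0 x / q x, hT, ?_, ?_⟩
  · intro a ha b hb
    have hab : (a, b) ∈ A ×ˢ B := Finset.mem_product.2 ⟨ha, hb⟩
    have h3 := hval (a, b) (p0 x / q x)
    have h4 := hneg (a, b) hab
    simp only at h3
    rcases lt_or_ge (q (a, b)) 0 with h5 | h5
    · have h6 := hmin (a, b) (Finset.mem_filter.2 ⟨hab, h5⟩)
      have h7 : p0 (a, b) ≤ p0 x / q x * q (a, b) := (le_div_iff_of_neg h5).1 h6
      linarith
    · have h6 : 0 ≤ p0 x / q x * q (a, b) := mul_nonneg hT.le h5
      linarith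
  · intro hin
    have h3 := hin x.1 (Finset.mem_product.1 hx.1).1 x.2 (Finset.mem_product.1 hx.1).2
    have h4 := hval x (p0 x / q x)
    rw [div_mul_cancel₀ _ hx.2.ne, sub_self] at h4
    linarith

end MEscape

open MEscape in
theorem t_Escape : StmtEscape := by
  intro A B C e c c' u z m hA h hm hex
  obtain ⟨a, ha, ham⟩ := hex
  obtain ⟨κ, hκ, hin⟩ := h.enter
  set v₀ := u - κ • z with hv₀
  have hperp0 : Perp e v₀ := h.perp_u.sub (h.perp_z.smul κ)
  clear_value v₀
  have hperp : ∀ τ : ℝ, Perp e (v₀ - τ • z) := fun τ => hperp0.sub (h.perp_z.smul τ)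
  -- the whole ray is in the cone
  have hall : ∀ τ : ℝ, 0 ≤ τ → InR A B c (v₀ - τ • z) := by
    intro τ₁ hτ₁
    by_contra hcon
    obtain ⟨T, hT, hTc, hTn⟩ := crossing hin hτ₁ hcon
    have hbefore : ∀ τ : ℝ, 0 ≤ τ → τ < T → InR A B c (v₀ - τ • z) := by
      intro τ hτ hlt
      have h1 : v₀ - τ • z = (1 - τ / T) • v₀ + (τ / T) • (v₀ - T • z) := by
        rw [smul_sub, smul_smul, div_mul_cancel₀ _ hT.ne', sub_smul, one_smul]
        abel
      rw [h1]
      refine InR.comb ?_ (by positivity) hin hTc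
      rw [sub_pos, div_lt_one hT]
      exact hlt
    obtain ⟨ε₀, hε₀, hε⟩ := Mx_pert3 A B C (v₀ - T • z) z
    set η := min (ε₀ / 2) (T / 2) with hη
    have hη0 : 0 < η := lt_min (by linarith) (by linarith)
    have hη1 : η < ε₀ := (min_le_left _ _).trans_lt (by linarith)
    have hη2 : η < T := (min_le_right _ _).trans_lt (by linarith)
    obtain ⟨hMA, hMB, -⟩ := hε η hη0 hη1
    have hpt : v₀ - T • z + η • z = v₀ - (T - η) • z := by
      rw [sub_smul]
      abel
    rw [hpt] at hMA hMB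
    have hinη := hbefore (T - η) (by linarith) (by linarith)
    have hAe := h.full _ hinη (hperp (T - η))
    have haT : a ∈ Mx A (v₀ - T • z) := by
      apply Mx_subset _ z
      rw [← hMA, hAe]
      exact ha
    obtain ⟨b, hb⟩ := Mx_nonempty h.B_ne (v₀ - (T - η) • z)
    have hbT : b ∈ Mx B (v₀ - T • z) := by
      apply Mx_subset _ z
      rw [← hMB]
      exact hb
    have hmb := hm _ hinη (hperp (T - η)) b hb
    have haA : a ∈ A := Mx_subset _ _ haT
    have hbB : b ∈ B := Mx_subset _ _ hbT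
    have hval := hinη a haA b hbB
    apply hTn
    refine inR_of_mem haT hbT ?_
    have hpt2 : v₀ - T • z = (v₀ - (T - η) • z) - η • z := by
      rw [sub_smul]
      abel
    rw [hpt2, ip_sub_right a, ip_sub_right b, ip_sub_right c, ip_smul_right, ip_smul_right,
      ip_smul_right]
    have h1 : 0 < η * (ip a z + ip b z - 2 * ip c z) := mul_pos hη0 (by linarith)
    linarith
  -- the end
  have hsub : e ⊆ A := by
    rw [← h.ez]
    exact Mx_subset _ _
  obtain ⟨b, hbA, hbe⟩ : ∃ b ∈ A, b ∉ e := by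
    by_contra hcon
    push Not at hcon
    have h1 : A ⊆ e := fun x hx => hcon x hx
    have h2 := Finset.card_le_card h1
    rw [h.card] at h2
    omega
  have haz : a ∈ Mx A z := by
    rw [h.ez]
    exact ha
  have hbz : ip b z < ip a z := Mx_lt haz hbA (by rw [h.ez]; exact hbe)
  have hd : 0 < ip a z - ip b z := by linarith
  set τ := |ip a v₀ - ip b v₀| / (ip a z - ip b z) with hτ
  have hτ0 : 0 ≤ τ := by positivity
  have hMe := h.full _ (hall τ hτ0) (hperp τ)
  have hlt : ip b (v₀ - τ • z) < ip a (v₀ - τ • z) :=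
    Mx_lt (by rw [hMe]; exact ha) hbA (by rw [hMe]; exact hbe)
  rw [ip_sub_right, ip_sub_right, ip_smul_right, ip_smul_right] at hlt
  have h1 : τ * (ip a z - ip b z) = |ip a v₀ - ip b v₀| := div_mul_cancel₀ _ hd.ne'
  have h2 := le_abs_self (ip a v₀ - ip b v₀)
  nlinarith

end TPH
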