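import Pool.Agent.TPH.St3

set_option autoImplicit false

/-!
# Three parallel hyperplanes: a half flat is determined by a point and a side
-/

namespace TPH

theorem t_Exit2 : StmtExit2 := by
  intro A B C e c c₁ c₂ u₁ z₁ u₂ z₂ t a a' α₁ β₁ α₂ β₂ h₁ h₂ he hne hα₁ hβ₁ hα₂ hβ₂ ht₁ ht₂ hdet
  obtain ⟨x, y, hxy⟩ := h₁.comb h₂.perp_u
  have hy : y ≤ 0 := by
    refine h₁.beta_nonpos (α := x) (β := y) ?_
    rw [← hxy]
    exact h₂.clo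
  -- `u₂ = β₀ u₁ + α₀ t`
  obtain ⟨α₀, hα₀⟩ : ∃ α₀, α₀ = y / β₁ := ⟨_, rfl⟩
  obtain ⟨β₀, hβ₀⟩ : ∃ β₀, β₀ = x - α₀ * α₁ := ⟨_, rfl⟩
  have hyβ : y = α₀ * β₁ := by
    rw [hα₀]
    field_simp
  have hα₀0 : α₀ ≤ 0 := by
    rw [hα₀]
    exact div_nonpos_of_nonpos_of_nonneg hy hβ₁.le
  have hu₂ : u₂ = β₀ • u₁ + α₀ • t := by
    rw [hxy, ht₁, hyβ, hβ₀]
    module
  have hd : det3 (a - a') t u₂ = β₀ * det3 (a - a') t u₁ := by
    rw [hu₂, det3_add3, det3_smul3, det3_smul3, det3_self23]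
    ring
  have hβ₀0 : 0 < β₀ := by
    rw [hd] at hdet
    by_contra hcon
    push Not at hcon
    have h1 : det3 (a - a') t u₁ * (β₀ * det3 (a - a') t u₁) =
        β₀ * (det3 (a - a') t u₁) ^ 2 := by ring
    rw [h1] at hdet
    have h2 := mul_nonpos_of_nonpos_of_nonneg hcon (sq_nonneg (det3 (a - a') t u₁))
    linarith
  have hu₁ : u₁ = (1 / β₀ - α₀ / β₀ * α₂) • u₂ + (-(α₀ / β₀) * β₂) • z₂ := by
    have h1 : u₁ = (1 / β₀) • u₂ - (α₀ / β₀) • t := by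
      rw [hu₂, smul_add, smul_smul, smul_smul, one_div, inv_mul_cancel₀ hβ₀0.ne', one_smul,
        div_eq_inv_mul]
      abel
    have h2 : (1 / β₀) • u₂ - (α₀ / β₀) • t =
        (1 / β₀ - α₀ / β₀ * α₂) • u₂ + (-(α₀ / β₀) * β₂) • z₂ := by
      rw [ht₂]
      module
    rw [← h2]
    exact h1
  have hz : -(α₀ / β₀) * β₂ ≤ 0 := by
    refine h₂.beta_nonpos (α := 1 / β₀ - α₀ / β₀ * α₂) (β := -(α₀ / β₀) * β₂) ?_
    rw [← hu₁]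
    exact h₁.clo
  have hα₀1 : α₀ = 0 := by
    by_contra hcon
    have h1 : α₀ < 0 := lt_of_le_of_ne hα₀0 hcon
    have h2 : α₀ / β₀ < 0 := div_neg_of_neg_of_pos h1 hβ₀0
    have h3 : 0 < -(α₀ / β₀) * β₂ := mul_pos (neg_pos.2 h2) hβ₂
    linarith
  refine ⟨β₀, hβ₀0, ?_⟩
  rw [hu₂, hα₀1, zero_smul, add_zero]

end TPH
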