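import Pool.Agent.TPH.St1

/-!
# The sum of `|G| - 2` over the faces   (helper96)
-/

set_option autoImplicit false

namespace TPH

namespace MFaceSum

/-- data of a face with a middle point `a` -/
structure FD (A : Finset E) (φ a : E) (G : Finset E) (u x y : E) : Prop where
  u0 : u ≠ 0
  eq : Mx A u = G
  ga : a ∈ G
  gx : x ∈ G
  gy : y ∈ G
  lx : ip x φ < ip a φ
  ly : ip a φ < ip y φ

/-- the direction -/
def dv (φ a x y : E) : E := (ip y φ - ip a φ) • (x - a) + (ip a φ - ip x φ) • (y - a)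

theorem ip_dv (φ a x y v : E) : ip v (dv φ a x y) =
    (ip y φ - ip a φ) * (ip x v - ip a v) + (ip a φ - ip x φ) * (ip y v - ip a v) := by
  unfold dv
  rw [ip_comm, ip_add_left, ip_smul_left, ip_smul_left, ip_sub_left, ip_sub_left]

theorem FD.mem {A : Finset E} {φ a : E} {G : Finset E} {u x y : E} (h : FD A φ a G u x y) {z : E}
    (hz : z ∈ G) : z ∈ Mx A u := by rw [h.eq]; exact hz

theorem FD.zero {A : Finset E} {φ a : E} {G : Finset E} {u x y : E} (h : FD A φ a G u x y) :
    ip u (dv φ a x y) = 0 := by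
  rw [ip_dv, Mx_eq (h.mem h.gx) (h.mem h.ga), Mx_eq (h.mem h.gy) (h.mem h.ga)]
  ring

theorem FD.phi {A : Finset E} {φ a : E} {G : Finset E} {u x y : E} (_ : FD A φ a G u x y) :
    ip φ (dv φ a x y) = 0 := by
  rw [ip_dv]; ring

theorem FD.neg0 {A : Finset E} {φ a : E} {G : Finset E} {u x y : E} (h : FD A φ a G u x y) {v : E}
    (hv : Mx A v = {a}) : ip v (dv φ a x y) < 0 := by
  rw [ip_dv]
  have ha : a ∈ Mx A v := by rw [hv]; exact Finset.mem_singleton_self a
  have hx : ip x v < ip a v := by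
    refine Mx_lt ha (Mx_subset _ _ (h.mem h.gx)) ?_
    rw [hv, Finset.mem_singleton]
    rintro rfl
    exact lt_irrefl _ h.lx
  have hy : ip y v < ip a v := by
    refine Mx_lt ha (Mx_subset _ _ (h.mem h.gy)) ?_
    rw [hv, Finset.mem_singleton]
    rintro rfl
    exact lt_irrefl _ h.ly
  have h1 := h.lx
  have h2 := h.ly
  nlinarith [mul_pos (sub_pos.2 h2) (sub_pos.2 hx), mul_pos (sub_pos.2 h1) (sub_pos.2 hy)]

theorem FD.neg (hNonCol : StmtNonCol) {A : Finset E} (hA : ConvPos A) {φ a : E}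
    {G G' : Finset E} {u x y u' x' y' : E} (h : FD A φ a G u x y) (h' : FD A φ a G' u' x' y')
    (hne : G ≠ G') : ip u' (dv φ a x y) < 0 := by
  rw [ip_dv]
  have ha : a ∈ Mx A u' := h'.mem h'.ga
  have hxA : x ∈ A := Mx_subset _ _ (h.mem h.gx)
  have hyA : y ∈ A := Mx_subset _ _ (h.mem h.gy)
  have haA : a ∈ A := Mx_subset _ _ (h.mem h.ga)
  have hx : ip x u' ≤ ip a u' := Mx_le ha hxA
  have hy : ip y u' ≤ ip a u' := Mx_le ha hyA
  have h1 := sub_pos.2 h.lx
  have h2 := sub_pos.2 h.ly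
  by_contra hcon
  push Not at hcon
  have hx' : ip x u' = ip a u' := by
    by_contra hc
    have : ip x u' < ip a u' := lt_of_le_of_ne hx hc
    nlinarith [mul_pos h2 (sub_pos.2 this), mul_nonneg h1.le (sub_nonneg.2 hy)]
  have hy' : ip y u' = ip a u' := by
    by_contra hc
    have : ip y u' < ip a u' := lt_of_le_of_ne hy hc
    nlinarith [mul_pos h1 (sub_pos.2 this), mul_nonneg h2.le (sub_nonneg.2 hx)]
  have p1 : Perp {a, x, y} u := by
    have e1 := Mx_eq (h.mem h.gx) (h.mem h.ga)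
    have e2 := Mx_eq (h.mem h.gy) (h.mem h.ga)
    have key : ∀ z ∈ ({a, x, y} : Finset E), ip z u = ip a u := by
      intro z hz
      simp only [Finset.mem_insert, Finset.mem_singleton] at hz
      rcases hz with rfl | rfl | rfl
      · rfl
      · exact e1
      · exact e2
    intro z hz z' hz'
    rw [key z hz, key z' hz']
  have p2 : Perp {a, x, y} u' := by
    have key : ∀ z ∈ ({a, x, y} : Finset E), ip z u' = ip a u' := by
      intro z hz
      simp only [Finset.mem_insert, Finset.mem_singleton] at hz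
      rcases hz with rfl | rfl | rfl
      · rfl
      · exact hx'
      · exact hy'
    intro z hz z' hz'
    rw [key z hz, key z' hz']
  have n1 : a ≠ x := by rintro rfl; exact lt_irrefl _ h.lx
  have n2 : a ≠ y := by rintro rfl; exact lt_irrefl _ h.ly
  have n3 : x ≠ y := by rintro rfl; exact lt_irrefl _ (h.lx.trans h.ly)
  obtain ⟨κ, hκ⟩ := hNonCol A a x y u u' hA haA hxA hyA n1 n2 n3 h.u0 p1 p2
  apply hne
  rcases lt_trichotomy κ 0 with hk | hk | hk
  · have hconst : ∀ b ∈ A, ip b u = ip a u := by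
      intro b hb
      have a1 := Mx_le (h.mem h.ga) hb
      have a2 := Mx_le ha hb
      rw [hκ, ip_smul_right, ip_smul_right] at a2
      have a3 : ip a u ≤ ip b u := by
        by_contra hc
        push Not at hc
        nlinarith
      linarith
    have g1 : Mx A u = A := by
      apply Finset.Subset.antisymm (Mx_subset _ _)
      intro b hb
      exact mem_Mx_of_eq (h.mem h.ga) hb (hconst b hb)
    have g2 : Mx A u' = A := by
      apply Finset.Subset.antisymm (Mx_subset _ _)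
      intro b hb
      refine mem_Mx_of_eq ha hb ?_
      rw [hκ, ip_smul_right, ip_smul_right, hconst b hb]
    rw [← h.eq, ← h'.eq, g1, g2]
  · exfalso
    apply h'.u0
    rw [hκ, hk, zero_smul]
  · rw [← h.eq, ← h'.eq, hκ, Mx_smul hk]

/-- the middle points of a face -/
def Mid (φ : E) (G : Finset E) (a : E) : Prop :=
  a ∈ G ∧ ∃ x ∈ G, ∃ y ∈ G, ip x φ < ip a φ ∧ ip a φ < ip y φ

theorem exists_FD {A : Finset E} {φ a : E} {G : Finset E} (hG : G ∈ Faces A) (h : Mid φ G a) :
    ∃ u x y, FD A φ a G u x y := by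
  obtain ⟨-, u, hu, hG'⟩ := mem_Faces.1 hG
  obtain ⟨ha, x, hx, y, hy, h1, h2⟩ := h
  exact ⟨u, x, y, hu, hG', ha, hx, hy, h1, h2⟩

open Classical in
theorem mid_card (hThree : StmtThree) (hNonCol : StmtNonCol) {A : Finset E} (hA : ConvPos A)
    {φ : E} (hφ : φ ≠ 0) {a : E} (ha : a ∈ A) :
    ((Faces A).filter fun G => Mid φ G a).card ≤ 2 := by
  by_contra hcon
  push Not at hcon
  obtain ⟨G1, h1, G2, h2, G3, h3, n12, n13, n23⟩ := Finset.two_lt_card.1 hcon
  rw [Finset.mem_filter] at h1 h2 h3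
  obtain ⟨u1, x1, y1, f1⟩ := exists_FD h1.1 h1.2
  obtain ⟨u2, x2, y2, f2⟩ := exists_FD h2.1 h2.2
  obtain ⟨u3, x3, y3, f3⟩ := exists_FD h3.1 h3.2
  obtain ⟨u0, hu0⟩ := hA a ha
  exact hThree φ u0 u1 u2 u3 (dv φ a x1 y1) (dv φ a x2 y2) (dv φ a x3 y3) hφ f1.phi f2.phi f3.phi
    (f1.neg0 hu0) (f2.neg0 hu0) (f3.neg0 hu0)
    f1.zero (f2.neg hNonCol hA f1 n12.symm) (f3.neg hNonCol hA f1 n13.symm)
    f2.zero (f1.neg hNonCol hA f2 n12) (f3.neg hNonCol hA f2 n23.symm)
    f3.zero (f1.neg hNonCol hA f3 n13) (f2.neg hNonCol hA f3 n23)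

open Classical in
theorem face_card {A : Finset E} {φ : E} (hφ : ∀ a ∈ A, ∀ a' ∈ A, ip a φ = ip a' φ → a = a')
    {G : Finset E} (hG : G ∈ Faces A) : G.card - 2 ≤ (A.filter fun a => Mid φ G a).card := by
  obtain ⟨h3, u, -, hG'⟩ := mem_Faces.1 hG
  have hGA : G ⊆ A := by rw [← hG']; exact Mx_subset _ _
  have hne : G.Nonempty := Finset.card_pos.1 (by omega)
  obtain ⟨p, hp, hp'⟩ := G.exists_min_image (fun z => ip z φ) hne
  obtain ⟨q, hq, hq'⟩ := G.exists_max_image (fun z => ip z φ) hne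
  have hsub : (G.erase p).erase q ⊆ A.filter fun a => Mid φ G a := by
    intro z hz
    rw [Finset.mem_erase, Finset.mem_erase] at hz
    obtain ⟨z1, z2, z3⟩ := hz
    rw [Finset.mem_filter]
    refine ⟨hGA z3, z3, p, hp, q, hq, ?_, ?_⟩
    · refine lt_of_le_of_ne (hp' z z3) fun h => z2 ?_
      exact (hφ p (hGA hp) z (hGA z3) h).symm
    · refine lt_of_le_of_ne (hq' z z3) fun h => z1 ?_
      exact hφ z (hGA z3) q (hGA hq) h
  have h1 := Finset.card_le_card hsub
  have h2 := Finset.pred_card_le_card_erase (s := G.erase p) (a := q)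
  have h4 := Finset.pred_card_le_card_erase (s := G) (a := p)
  omega

end MFaceSum

open MFaceSum in
open Classical in
theorem t_FaceSum (hThree : StmtThree) (hGeneric : StmtGeneric) (hNonCol : StmtNonCol) :
    StmtFaceSum := by
  intro A hA
  obtain ⟨φ, hφ, hinj⟩ := hGeneric A
  calc ∑ G ∈ Faces A, (G.card - 2) ≤ ∑ G ∈ Faces A, (A.filter fun a => Mid φ G a).card :=
        Finset.sum_le_sum fun G hG => face_card hinj hG
    _ = ∑ a ∈ A, ((Faces A).filter fun G => Mid φ G a).card := by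
        simp only [Finset.card_filter]
        rw [Finset.sum_comm]
    _ ≤ ∑ _a ∈ A, 2 := Finset.sum_le_sum fun a ha => mid_card hThree hNonCol hA hφ ha
    _ = 2 * A.card := by rw [Finset.sum_const, smul_eq_mul, mul_comm]

end TPH
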