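import Pool.Agent.TPH.St1

/-!
# Three parallel hyperplanes: the first bad time
-/

set_option autoImplicit false

namespace TPH

namespace MFirstBad

theorem ip_pth (x p q : E) (t : ℝ) : ip x (pth p q t) = (1 - t) * ip x p + t * ip x q := by
  rw [pth, ip_add_right, ip_smul_right, ip_smul_right]

theorem closed_mem (C : Finset E) (p q c : E) : IsClosed {t : ℝ | c ∈ Mx C (pth p q t)} := by
  have h : {t : ℝ | c ∈ Mx C (pth p q t)} =
      {t : ℝ | c ∈ C} ∩ ⋂ b ∈ C, {t : ℝ | ip b (pth p q t) ≤ ip c (pth p q t)} := by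
    ext t
    simp only [mem_Mx, Set.mem_setOf_eq, Set.mem_inter_iff, Set.mem_iInter]
  rw [h]
  refine IsClosed.inter isClosed_const (isClosed_biInter fun b _ => ?_)
  apply isClosed_le
  · simp only [ip_pth]
    fun_prop
  · simp only [ip_pth]
    fun_prop

theorem closed_bad (C : Finset E) (p q : E) (P : E → Prop) :
    IsClosed {t : ℝ | ∃ c ∈ C, P c ∧ c ∈ Mx C (pth p q t)} := by
  have h : {t : ℝ | ∃ c ∈ C, P c ∧ c ∈ Mx C (pth p q t)} =
      ⋃ c ∈ (C : Set E) ∩ {c | P c}, {t : ℝ | c ∈ Mx C (pth p q t)} := by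
    ext t
    simp only [Set.mem_setOf_eq, Set.mem_iUnion, Set.mem_inter_iff, Finset.mem_coe, exists_prop,
      and_assoc]
  rw [h]
  exact Set.Finite.isClosed_biUnion (C.finite_toSet.inter_of_left _) fun c _ => closed_mem C p q c

theorem pth_sub (p q : E) (t η : ℝ) : pth p q (t - η) = pth p q t + η • (p - q) := by
  simp only [pth]
  module

end MFirstBad

open MFirstBad in
theorem t_FirstBad (hRegTie : StmtRegTie) : StmtFirstBad := by
  intro A C a c₀ p q hA hC hseg hbad
  obtain ⟨ε, hε, hst⟩ := hseg.start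
  obtain ⟨t₀, c, h0, h1, hc, hcb⟩ := hbad
  have hsmall : ∀ t', 0 < t' → t' < ε → ∀ c ∈ Mx C (pth p q t'), Reg A C a c := by
    intro t' h0' h1' c' hc'
    rw [hst t' h0' h1', Finset.mem_singleton] at hc'
    rw [hc']
    exact hseg.reg
  have ht₀ : ε ≤ t₀ := by
    by_contra hlt
    exact hcb (hsmall t₀ h0 (not_le.mp hlt) c hc)
  -- the first bad time
  have hcomp : IsCompact (Set.Icc (ε / 2) 1 ∩
      {t : ℝ | ∃ c ∈ C, ¬ Reg A C a c ∧ c ∈ Mx C (pth p q t)}) :=
    isCompact_Icc.inter_right (closed_bad C p q _)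
  obtain ⟨t, ht, hmin⟩ := hcomp.exists_isLeast
    ⟨t₀, ⟨by linarith, h1⟩, c, Mx_subset _ _ hc, hcb, hc⟩
  obtain ⟨⟨hta, htb⟩, c₁, -, hb1, hc1⟩ := ht
  have htpos : 0 < t := by linarith
  have hbefore : ∀ t', 0 < t' → t' < t → ∀ c ∈ Mx C (pth p q t'), Reg A C a c := by
    intro t' h0' h1' c' hc'
    by_contra hb'
    rcases lt_or_ge t' ε with hl | hl
    · exact hb' (hsmall t' h0' hl c' hc')
    · have := hmin ⟨⟨by linarith, by linarith⟩, c', Mx_subset _ _ hc', hb', hc'⟩
      linarith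
  -- shortly before
  obtain ⟨ε₀, hε₀, hpert⟩ := Mx_pert C (pth p q t) (p - q)
  have hη0 : 0 < min ε₀ t / 2 := by
    have := lt_min hε₀ htpos
    linarith
  have hη1 : min ε₀ t / 2 < ε₀ := by
    have := min_le_left ε₀ t
    linarith
  have hη2 : min ε₀ t / 2 < t := by
    have := min_le_right ε₀ t
    linarith
  have hp := hpert _ hη0 hη1
  rw [← pth_sub] at hp
  have hCne : C.Nonempty := Finset.card_pos.mp (by omega)
  obtain ⟨c₂, hc2⟩ := Mx_nonempty hCne (pth p q (t - min ε₀ t / 2))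
  have hreg2 : Reg A C a c₂ := hbefore _ (by linarith) (by linarith) c₂ hc2
  have hne : c₁ ≠ c₂ := by
    rintro rfl
    exact hb1 hreg2
  have hn1 : c₁ ∉ Mx (Mx C (pth p q t)) (p - q) := by
    rw [← hp]
    intro h
    exact hb1 (hbefore _ (by linarith) (by linarith) c₁ h)
  rw [hp] at hc2
  have hc2' : c₂ ∈ Mx C (pth p q t) := Mx_subset _ _ hc2
  have hdir : ip c₁ (p - q) < ip c₂ (p - q) := Mx_lt hc2 hc1 hn1
  have haM : a ∈ Mx A (pth p q t) := mem_Mx_comb (by linarith) htpos.le hseg.ap hseg.aq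
  obtain ⟨-, htie, -⟩ := hRegTie A C a c₂ (pth p q t) hA hreg2 (hseg.nz t htpos.le htb) haM hc2'
  rcases htie with h | ⟨c', hc', h⟩
  · rw [h, Finset.mem_singleton] at hc1
    exact absurd hc1 hne
  · rw [h, Finset.mem_insert, Finset.mem_singleton] at hc1
    rcases hc1 with h' | h'
    · exact absurd h' hne
    · subst h'
      have hmem := mem_NA.mp hc'
      obtain ⟨_, u, hu1, hu2⟩ := hmem
      refine ⟨t, c₁, c₂, ?_⟩
      refine
        { pos := htpos
          le := htb
          tie := by rw [h, Finset.pair_comm]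
          ne := hne
          bad := hb1
          reg := hreg2
          fc := ?_
          nbr := mem_NA.mpr ⟨hne.symm, u, by rw [hu1, Finset.pair_comm], hu2⟩
          nbr' := hc'
          before := hbefore
          lt := ?_ }
      · obtain ⟨δ, hδ, hpp⟩ := Mx_pert3 A A C u (c₁ - c₂)
        obtain ⟨e1, -, e3⟩ := hpp (δ / 2) (by linarith) (by linarith)
        refine mem_Fc.mpr ⟨u + (δ / 2) • (c₁ - c₂), ?_, ?_⟩
        · rw [e1, hu2, Mx_singleton]
        · rw [e3, hu1]
          apply Mx_pair_right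
          have := ip_self_pos (sub_ne_zero.mpr hne)
          rw [ip_sub_left] at this
          linarith
      · intro t' h0' h1'
        have e0 : ip c₁ (pth p q t) = ip c₂ (pth p q t) := by
          apply Mx_eq (A := C) (u := pth p q t) _ hc2'
          rw [h]
          simp
        rw [ip_pth, ip_pth] at e0 ⊢
        rw [ip_sub_right, ip_sub_right] at hdir
        nlinarith

end TPH
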