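import Pool.Agent.TPH.St2

/-!
# Three parallel hyperplanes: a flat is determined by a point of the cone and a side
-/

set_option autoImplicit false

namespace TPH

theorem t_FirstExit (hFlatBasic : StmtFlatBasic) : StmtFirstExit := by
  intro A B C x x' u u' t a a' hA hx hx' hxe hxe' hne hpt ht ht' hdet
  have hFB := hFlatBasic A B C x u (Or.inl hA) hx
  have hFB' := hFlatBasic A B C x' u' (Or.inl hA) hx'
  obtain ⟨hc1, hc2, hc3, hc4, -, -, hc7⟩ := hFB
  obtain ⟨hd1, hd2, hd3, hd4, -, -, hd7⟩ := hFB'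
  have hMu : Mx A u = {a, a'} := by rw [hx.2.2.1, hxe]
  have hMu' : Mx A u' = {a, a'} := by rw [hx'.2.2.1, hxe']
  have haa : ∀ v, Mx A v = {a, a'} → ip (a - a') v = 0 := by
    intro v hv
    have h1 : a ∈ Mx A v := by rw [hv]; simp
    have h2 : a' ∈ Mx A v := by rw [hv]; simp
    rw [ip_sub_left, Mx_eq h1 h2, sub_self]
  have hu := haa u hMu
  have hu' := haa u' hMu'
  have htt : ip (a - a') t = 0 := by
    rw [ip_sub_left, hpt a (by simp) a' (by simp), sub_self]
  have hd0 : det3 (a - a') t u ≠ 0 := by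
    intro h0
    rw [h0, zero_mul] at hdet
    exact lt_irrefl _ hdet
  have hcr : cr t u ≠ 0 := by
    intro h0
    apply hd0
    rw [← det3_cyc, ← ip_cr, h0, ip_zero_left]
  obtain ⟨α, β, hab⟩ := comb_of_perp (sub_ne_zero.mpr hne) hcr htt hu hu'
  have hβ : 0 < β := by
    rw [hab, det3_add3, det3_smul3, det3_smul3, det3_self23, mul_zero, zero_add] at hdet
    by_contra hc
    push Not at hc
    have h1 := mul_nonneg (mul_self_nonneg (det3 (a - a') t u)) (neg_nonneg.2 hc)
    nlinarith
  have hcC : x.2.1 ∈ C := Mx_subset C u (by rw [hx.2.2.2.1]; exact Finset.mem_singleton_self _)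
  have hcC' : x'.2.1 ∈ C := Mx_subset C u' (by rw [hx'.2.2.2.1]; exact Finset.mem_singleton_self _)
  rcases lt_trichotomy α 0 with hα | hα | hα
  · exfalso
    apply hc3 x'.2.1 hcC'
    have e : u = (-α / β) • t + (1 / β) • u' := by
      rw [hab]
      funext i
      simp only [Pi.add_apply, Pi.smul_apply, smul_eq_mul]
      field_simp
      ring
    rw [e]
    exact InR.comb (div_pos (neg_pos.2 hα) hβ) (by positivity) ht' hd1
  · rw [hα, zero_smul, zero_add] at hab
    exact (hc7 x' u' hx' β hβ hab).symm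
  · exfalso
    apply hd3 x.2.1 hcC
    rw [hab]
    exact InR.comb hα hβ.le ht hc1

end TPH
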