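import Pool.Agent.TPH.St2

/-!
# Three parallel hyperplanes: first facts about a flat and its exposing vector   (helper12)
-/

namespace TPH

namespace MFlatBasic

theorem kpos {A S : Finset E} {u : E} {κ : ℝ} (hS : Mx A u = S) (hS' : Mx A (κ • u) = S)
    (hne : S.Nonempty) (hA : S ≠ A) : 0 < κ := by
  obtain ⟨a, ha⟩ := hne
  have hSA : S ⊆ A := hS ▸ Mx_subset A u
  obtain ⟨b, hbA, hbS⟩ : ∃ b ∈ A, b ∉ S := by
    by_contra hcon
    push Not at hcon
    exact hA (Finset.Subset.antisymm hSA hcon)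
  have h1 := Mx_lt (A := A) (u := u) (hS.symm ▸ ha) hbA (hS.symm ▸ hbS)
  have h2 := Mx_lt (A := A) (u := κ • u) (hS'.symm ▸ ha) hbA (hS'.symm ▸ hbS)
  rw [ip_smul_right, ip_smul_right] at h2
  by_contra hk
  push Not at hk
  nlinarith

end MFlatBasic

theorem t_FlatBasic : StmtFlatBasic := by
  intro A B C x u hcard hx
  obtain ⟨e, c, f⟩ := x
  obtain ⟨he, hf, hA, hC, hB, heq, huniq⟩ := hx
  simp only at he hf hA hC hB heq huniq ⊢
  have hene : e.Nonempty := Finset.card_pos.mp (by omega)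
  have hfne : f.Nonempty := Finset.card_pos.mp (by omega)
  have hcC : c ∈ Mx C u := hC ▸ Finset.mem_singleton_self c
  refine ⟨?_, ?_, ?_, ?_, ?_, ?_, ?_⟩
  · obtain ⟨a, ha⟩ := hene
    obtain ⟨b, hb⟩ := hfne
    exact inRc_of_mem (hA.symm ▸ ha) (hB.symm ▸ hb) (heq a ha b hb).le
  · intro κ h
    obtain ⟨a, ha⟩ := hene
    obtain ⟨b, hb⟩ := hfne
    have h1 := h a (Mx_subset A u (hA.symm ▸ ha)) b (Mx_subset B u (hB.symm ▸ hb))
    rw [ip_smul_right, ip_smul_right, ip_smul_right] at h1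
    have h2 : κ * ip a u + κ * ip b u = 2 * (κ * ip c u) := by
      rw [← mul_add, heq a ha b hb]; ring
    linarith
  · intro d hd h
    obtain ⟨a, ha⟩ := hene
    obtain ⟨b, hb⟩ := hfne
    have h1 := h a (Mx_subset A u (hA.symm ▸ ha)) b (Mx_subset B u (hB.symm ▸ hb))
    have h2 := heq a ha b hb
    have h3 := Mx_le hcC hd
    linarith
  · rintro rfl
    rw [Mx_zero] at hA hC
    subst hA
    rcases hcard with h | h
    · omega
    · rw [hC] at h
      simp at h
  · intro a ha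
    obtain ⟨p, q, hpq, rfl⟩ := Finset.card_eq_two.mp he
    have hswap : ∀ a' ∈ ({p, q} : Finset E), a' ≠ a → ({p, q} : Finset E) = {a, a'} := by
      intro a' ha' hne
      simp only [Finset.mem_insert, Finset.mem_singleton] at ha ha'
      rcases ha with rfl | rfl <;> rcases ha' with rfl | rfl
      · exact absurd rfl hne
      · rfl
      · exact Finset.pair_comm _ _
      · exact absurd rfl hne
    refine ⟨?_, fun a' ha' hne => ⟨hswap a' ha' hne, ?_⟩⟩
    · obtain ⟨a', ha', hne⟩ : ∃ a' ∈ ({p, q} : Finset E), a' ≠ a := by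
        simp only [Finset.mem_insert, Finset.mem_singleton] at ha
        rcases ha with rfl | rfl
        · exact ⟨q, by simp, fun h => hpq h.symm⟩
        · exact ⟨p, by simp, hpq⟩
      have h1 := hswap a' ha' hne
      obtain ⟨ε₀, hε₀, hε⟩ := Mx_pert3 A C C u (a - a')
      obtain ⟨h2, h3, -⟩ := hε (ε₀ / 2) (by linarith) (by linarith)
      rw [mem_Fc]
      refine ⟨u + (ε₀ / 2) • (a - a'), ?_, ?_⟩
      · rw [h2, hA, h1]
        apply Mx_pair_left
        have h4 := ip_self_pos (sub_ne_zero.mpr hne.symm : a - a' ≠ 0)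
        rw [ip_sub_left] at h4
        linarith
      · rw [h3, hC, Mx_singleton]
    · rw [mem_NA]
      refine ⟨hne, u, ?_, hC⟩
      rw [hA]
      exact hswap a' ha' hne
  · rintro u' ⟨-, -, hA', hC', hB', heq', -⟩
    simp only at hA' hC' hB' heq'
    obtain ⟨κ, hκ⟩ := huniq u' (hA' ▸ perp_Mx A u') (hB' ▸ perp_Mx B u') heq'
    refine ⟨κ, ?_, hκ⟩
    subst hκ
    rcases hcard with h | h
    · refine MFlatBasic.kpos hA hA' hene ?_
      rintro rfl
      omega
    · refine MFlatBasic.kpos hC hC' ⟨c, Finset.mem_singleton_self c⟩ ?_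
      intro h1
      rw [← h1] at h
      simp at h
  · rintro ⟨e', c', f'⟩ u' ⟨-, -, hA', hC', hB', -, -⟩ κ hκ rfl
    simp only at hA' hC' hB'
    rw [Mx_smul hκ, hA] at hA'
    rw [Mx_smul hκ, hC] at hC'
    rw [Mx_smul hκ, hB] at hB'
    rw [← hA', ← hB', ← Finset.singleton_inj.mp hC']

end TPH
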