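import Pool.Agent.TPH.St4

/-!
# Three parallel hyperplanes: the bound for the number of flats

Proof of `StmtFlatsBound` from the bounds for main flats, out flats and dropped flats.
-/

namespace TPH.MFlatsBound

theorem arith (x a n : ℕ) (hn : 1 ≤ n) (h : x ^ 2 ≤ a * n * (576 * n ^ 2 + x)) :
    x ^ 2 ≤ (1152 * a + 4 * a ^ 2) * n ^ 3 := by
  by_cases hx : x ≤ 576 * n ^ 2
  · calc x ^ 2 ≤ a * n * (576 * n ^ 2 + x) := h
      _ ≤ a * n * (576 * n ^ 2 + 576 * n ^ 2) :=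
        Nat.mul_le_mul_left _ (Nat.add_le_add_left hx _)
      _ = 1152 * a * n ^ 3 := by ring
      _ ≤ (1152 * a + 4 * a ^ 2) * n ^ 3 := Nat.mul_le_mul_right _ (Nat.le_add_right _ _)
  · push Not at hx
    have hxpos : 0 < x := by omega
    have h1 : x * x ≤ (2 * a * n) * x := by
      calc x * x = x ^ 2 := by ring
        _ ≤ a * n * (576 * n ^ 2 + x) := h
        _ ≤ a * n * (x + x) := Nat.mul_le_mul_left _ (Nat.add_le_add_right hx.le _)
        _ = (2 * a * n) * x := by ring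
    have h2 : x ≤ 2 * a * n := Nat.le_of_mul_le_mul_right h1 hxpos
    calc x ^ 2 ≤ (2 * a * n) ^ 2 := Nat.pow_le_pow_left h2 2
      _ = 4 * a ^ 2 * n ^ 2 := by ring
      _ ≤ 4 * a ^ 2 * n ^ 3 := Nat.mul_le_mul_left _ (Nat.pow_le_pow_right hn (by norm_num))
      _ ≤ (1152 * a + 4 * a ^ 2) * n ^ 3 := Nat.mul_le_mul_right _ (Nat.le_add_left _ _)

theorem sq3 (x y z w : ℕ) (h : w ≤ x + y + z) : w ^ 2 ≤ 3 * (x ^ 2 + y ^ 2 + z ^ 2) := by
  have h1 : w ^ 2 ≤ (x + y + z) ^ 2 := Nat.pow_le_pow_left h 2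
  zify at h1 ⊢
  nlinarith [sq_nonneg ((x : ℤ) - y), sq_nonneg ((x : ℤ) - z), sq_nonneg ((y : ℤ) - z)]

end TPH.MFlatsBound

namespace TPH

open MFlatsBound in
theorem t_FlatsBound (hEdgeLin : StmtEdgeLin) (hSpecialBound : StmtSpecialBound)
    (hDropAll : StmtDropAll) (hMainCount : StmtMainCount) (hOutCount : StmtOutCount)
    (hSmall : StmtSmall) : StmtFlatsBound := by
  classical
  obtain ⟨K₁, hK₁⟩ := hSpecialBound
  refine ⟨2304 + 3 * (2 * (1152 * (8 * (192 + 16 * K₁)) + 4 * (8 * (192 + 16 * K₁)) ^ 2) +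
    256 * K₁ ^ 2), ?_⟩
  intro A B C hA hB hC hR
  set n := A.card + B.card + C.card with hn
  by_cases hs : A.card ≤ 2 ∨ B.card ≤ 2 ∨ C.card ≤ 2
  · have h := hSmall A B C hA hB hs
    rw [← hn] at h
    rcases Nat.eq_zero_or_pos n with h0 | hpos
    · rw [h0] at h ⊢
      have h1 : (flats A B C).card = 0 := by omega
      rw [h1]; norm_num
    · calc (flats A B C).card ^ 2 ≤ (48 * n) ^ 2 := Nat.pow_le_pow_left h 2
        _ = 2304 * n ^ 2 := by ring
        _ ≤ 2304 * n ^ 3 := Nat.mul_le_mul_left _ (Nat.pow_le_pow_right hpos (by norm_num))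
        _ ≤ _ := Nat.mul_le_mul_right _ (Nat.le_add_right _ _)
  · push Not at hs
    obtain ⟨hA3, hB3, hC3⟩ := hs
    have hA3 : 3 ≤ A.card := hA3
    have hB3 : 3 ≤ B.card := hB3
    have hC3 : 3 ≤ C.card := hC3
    have hnpos : 1 ≤ n := by omega
    have hEA : (Ed A).card ≤ 12 * n := (hEdgeLin A hA).2.2.trans (by omega)
    have hEB : (Ed B).card ≤ 12 * n := (hEdgeLin B hB).2.2.trans (by omega)
    have hEC : (Ed C).card ≤ 12 * n := (hEdgeLin C hC).2.2.trans (by omega)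
    have hSA : spSum A C ≤ K₁ * n :=
      (hK₁ A C hA3 hC3 hA hC).trans (Nat.mul_le_mul_left _ (by omega))
    have hSB : spSum B C ≤ K₁ * n :=
      (hK₁ B C hB3 hC3 hB hC).trans (Nat.mul_le_mul_left _ (by omega))
    have hprod : 4 * ((Ed A).card * (Ed B).card) ≤ 576 * n ^ 2 := by
      calc 4 * ((Ed A).card * (Ed B).card) ≤ 4 * ((12 * n) * (12 * n)) :=
            Nat.mul_le_mul_left _ (Nat.mul_le_mul hEA hEB)
        _ = 576 * n ^ 2 := by ring
    have hdrop := hDropAll A B C hA3 hB3 hC3 hR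
    -- main flats
    let X₁ : Finset Fl := (GF A B C).filter fun x => ∃ u z y c', GD A B C x u z y c' c'
    let X₂ : Finset Fl := (GF A B C).filter fun x => ∃ u z y c₁ c₂, GD A B C x u z y c₁ c₂ ∧ c₂ ≠ c₁
    have hcov : GF A B C ⊆ X₁ ∪ X₂ := by
      intro x hx
      have hx' := hx
      simp only [GF, Finset.mem_filter] at hx'
      obtain ⟨-, u, z, y, c₁, c₂, h⟩ := hx'
      by_cases hc : c₂ = c₁
      · subst hc
        exact Finset.mem_union_left _ (Finset.mem_filter.mpr ⟨hx, u, z, y, c₂, h⟩)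
      · exact Finset.mem_union_right _ (Finset.mem_filter.mpr ⟨hx, u, z, y, c₁, c₂, h, hc⟩)
    have hGF : (GF A B C).card ≤ X₁.card + X₂.card :=
      (Finset.card_le_card hcov).trans (Finset.card_union_le _ _)
    have h1 := hMainCount A B C X₁ hA3 hB3 hC3 fun x hx => (Finset.mem_filter.mp hx).2
    have h2 := hOutCount A B C X₂ hA3 hB3 hC3 fun x hx => (Finset.mem_filter.mp hx).2
    have h1' : X₁.card ^ 2 ≤ (8 * (192 + 16 * K₁)) * n * (576 * n ^ 2 + X₁.card) := by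
      refine h1.trans (Nat.mul_le_mul ?_ (Nat.add_le_add_right hprod _))
      calc 8 * (16 * (Ed C).card + (8 * spSum A C + 8 * spSum B C))
          ≤ 8 * (16 * (12 * n) + (8 * (K₁ * n) + 8 * (K₁ * n))) := by
            apply Nat.mul_le_mul_left
            omega
        _ = (8 * (192 + 16 * K₁)) * n := by ring
    have h2' : X₂.card ^ 2 ≤ (8 * (192 + 16 * K₁)) * n * (576 * n ^ 2 + X₂.card) := by
      refine h2.trans (Nat.mul_le_mul ?_ (Nat.add_le_add_right hprod _))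
      calc 8 * (16 * (Ed C).card) ≤ 8 * (16 * (12 * n) + 16 * K₁ * n) := by
            apply Nat.mul_le_mul_left
            have : 16 * (Ed C).card ≤ 16 * (12 * n) := Nat.mul_le_mul_left _ hEC
            exact this.trans (Nat.le_add_right _ _)
        _ = (8 * (192 + 16 * K₁)) * n := by ring
    have b1 := arith _ _ _ hnpos h1'
    have b2 := arith _ _ _ hnpos h2'
    have hsum : (flats A B C).card ≤ X₁.card + X₂.card + 16 * (K₁ * n) := by
      have h3 : 8 * (spSum A C + spSum B C) ≤ 16 * (K₁ * n) := by omega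
      omega
    have h4 := sq3 _ _ _ _ hsum
    have h5 : (16 * (K₁ * n)) ^ 2 ≤ 256 * K₁ ^ 2 * n ^ 3 := by
      calc (16 * (K₁ * n)) ^ 2 = 256 * K₁ ^ 2 * n ^ 2 := by ring
        _ ≤ 256 * K₁ ^ 2 * n ^ 3 :=
          Nat.mul_le_mul_left _ (Nat.pow_le_pow_right hnpos (by norm_num))
    calc (flats A B C).card ^ 2 ≤ 3 * (X₁.card ^ 2 + X₂.card ^ 2 + (16 * (K₁ * n)) ^ 2) := h4
      _ ≤ 3 * ((1152 * (8 * (192 + 16 * K₁)) + 4 * (8 * (192 + 16 * K₁)) ^ 2) * n ^ 3 +
          (1152 * (8 * (192 + 16 * K₁)) + 4 * (8 * (192 + 16 * K₁)) ^ 2) * n ^ 3 +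
          256 * K₁ ^ 2 * n ^ 3) :=
        Nat.mul_le_mul_left _ (Nat.add_le_add (Nat.add_le_add b1 b2) h5)
      _ = (3 * (2 * (1152 * (8 * (192 + 16 * K₁)) + 4 * (8 * (192 + 16 * K₁)) ^ 2) +
          256 * K₁ ^ 2)) * n ^ 3 := by ring
      _ ≤ _ := Nat.mul_le_mul_right _ (Nat.le_add_left _ _)

end TPH
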