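import Pool.Agent.TPH.St3

/-!
# The charge determines the gap (GapInj)
-/

set_option autoImplicit false

namespace TPH

namespace MGapInj

theorem mxC {A B C e₁ e₂ : Finset E} {c c' u₁ z₁ u₂ z₂ : E}
    (G : Gap A B C e₁ e₂ c c' u₁ z₁ u₂ z₂) {α β : ℝ} (hα : 0 < α) (hβ : 0 < β) :
    Mx C (α • z₁ + β • z₂) = {c, c'} := by
  have h1 : c ∈ Mx C z₁ := by rw [G.h₁.cz]; simp
  have h2 : c ∈ Mx C z₂ := by rw [G.h₂.cz]; simp
  rw [Mx_comb hα hβ h1 h2, G.h₁.cz, G.h₂.cz, Finset.inter_self]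

theorem apth {A : Finset E} {a p q : E} (hp : a ∈ Mx A p) (hq : a ∈ Mx A q) {τ : ℝ} (h0 : 0 ≤ τ)
    (h1 : τ ≤ 1) : a ∈ Mx A (pth p q τ) := by
  unfold pth
  exact mem_Mx_comb (by linarith) h0 hp hq

theorem nt (hNoTie : StmtNoTie) {A B C e₁ e₂ g₁ g₂ : Finset E}
    {c c' u₁ z₁ u₂ z₂ d d' v₁ w₁ v₂ w₂ a q' : E} {α β α' β' τ : ℝ} (h3 : 3 ≤ C.card)
    (G1 : Gap A B C e₁ e₂ c c' u₁ z₁ u₂ z₂) (G2 : Gap A B C g₁ g₂ d d' v₁ w₁ v₂ w₂)
    (hα : 0 < α) (hβ : 0 < β) (hs : Mx A (α • z₁ + β • z₂) = {a}) (hα' : 0 < α') (hβ' : 0 < β')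
    (hR : InR A B d q') (hL : Lune w₁ v₁ w₂ v₂ q') (hap : a ∈ Mx A (α' • w₁ + β' • w₂))
    (haq : a ∈ Mx A q') (h0 : 0 < τ) (h1 : τ ≤ 1)
    (hC : Mx C (pth (α' • w₁ + β' • w₂) q' τ) = {c, c'}) : False := by
  refine hNoTie A B C e₁ e₂ g₁ g₂ c c' u₁ z₁ u₂ z₂ d d' v₁ w₁ v₂ w₂ a q'
    (pth (α' • w₁ + β' • w₂) q' τ) α β ((1 - τ) * α') ((1 - τ) * β') τ h3 G1 G2 hα hβ hs
    (mul_nonneg (by linarith) hα'.le) (mul_nonneg (by linarith) hβ'.le) h0 hR hL ?_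
    (apth hap haq h0.le h1) hC
  unfold pth
  rw [smul_add, smul_smul, smul_smul]

/-- a tie at a point of a walk gives a neighbour -/
theorem tie (hRegTie : StmtRegTie) {A C : Finset E} {a c n ρ : E} (hA : 3 ≤ A.card)
    (hr : Reg A C a c) (hρ : ρ ≠ 0) (ha : a ∈ Mx A ρ) (hn : n ≠ c) (hC : Mx C ρ = {c, n}) :
    n ∈ NA C A c a := by
  have hc : c ∈ Mx C ρ := by rw [hC]; simp
  rcases (hRegTie A C a c ρ hA hr hρ ha hc).2.1 with h | ⟨c'', h1, h2⟩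
  · exfalso
    have h3 : n ∈ Mx C ρ := by rw [hC]; simp
    rw [h, Finset.mem_singleton] at h3
    exact hn h3
  · have h3 : n ∈ Mx C ρ := by rw [hC]; simp
    rw [h2, Finset.mem_insert, Finset.mem_singleton] at h3
    rcases h3 with h3 | h3
    · exact absurd h3 hn
    · rw [h3]
      exact h1

/-- the start gives a neighbour -/
theorem startN {A C : Finset E} {a c c' s : E} (hne : c ≠ c') (hA : Mx A s = {a})
    (hC : Mx C s = {c, c'}) : c' ∈ NA C A c a :=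
  mem_NA.2 ⟨hne.symm, s, hC, hA⟩

/-- a set with two elements -/
theorem two {S : Finset E} (hS : S.card = 2) {x y w : E} (hx : x ∈ S) (hy : y ∈ S) (hxy : x ≠ y)
    (hw : w ∈ S) : w = x ∨ w = y := by
  by_contra h
  push Not at h
  have h1 : ({x, y, w} : Finset E) ⊆ S := by
    intro v hv
    simp only [Finset.mem_insert, Finset.mem_singleton] at hv
    rcases hv with rfl | rfl | rfl <;> assumption
  have h2 : ({x, y, w} : Finset E).card = 3 := by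
    rw [Finset.card_eq_three]
    exact ⟨x, y, w, hxy, fun e => h.1 e.symm, fun e => h.2 e.symm, rfl⟩
  have h3 := Finset.card_le_card h1
  omega

/-- the main case: the second walk visits `c` -/
theorem core (hRegTie : StmtRegTie) (hLocalPath : StmtLocalPath) (hSegZ : StmtSegZ)
    (hNoTie : StmtNoTie) {A B C e₁ e₂ g₁ g₂ : Finset E}
    {c c' u₁ z₁ u₂ z₂ d d' v₁ w₁ v₂ w₂ a q q' c₁ c₂ : E} {α β α' β' t' : ℝ}
    (hA3 : 3 ≤ A.card) (h3 : 3 ≤ C.card)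
    (G1 : Gap A B C e₁ e₂ c c' u₁ z₁ u₂ z₂) (G2 : Gap A B C g₁ g₂ d d' v₁ w₁ v₂ w₂)
    (hα : 0 < α) (hβ : 0 < β) (hs : Mx A (α • z₁ + β • z₂) = {a}) (hα' : 0 < α') (hβ' : 0 < β')
    (hs' : Mx A (α' • w₁ + β' • w₂) = {a})
    (hR : InR A B d q') (hL : Lune w₁ v₁ w₂ v₂ q')
    (hseg : Seg A C a c (α • z₁ + β • z₂) q)
    (hseg' : Seg A C a d (α' • w₁ + β' • w₂) q')
    (hstop' : Stop A C a (α' • w₁ + β' • w₂) q' t' c₁ c₂)
    (hvis : Vis C (α' • w₁ + β' • w₂) q' t' c) : c = d ∧ c' = d' := by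
  have hreg : Reg A C a c := hseg.reg
  have hcard : (NA C A c a).card = 2 := hreg.2.2.2
  have hc' : c' ∈ NA C A c a := startN G1.h₁.ne hs (mxC G1 hα hβ)
  have key : ∀ τ, 0 < τ → τ ≤ 1 → Mx C (pth (α' • w₁ + β' • w₂) q' τ) ≠ {c, c'} :=
    fun τ h0 h1 h => nt hNoTie h3 G1 G2 hα hβ hs hα' hβ' hR hL hseg'.ap hseg'.aq h0 h1 h
  obtain ⟨tb, n₂, hb0, hbt, hn2, hMb, -, hin⟩ :=
    hLocalPath A C a d (α' • w₁ + β' • w₂) q' t' c₁ c₂ c hA3 h3 hseg' hstop' hvis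
  have hb1 : tb ≤ 1 := hbt.trans hstop'.le
  have hn2N : n₂ ∈ NA C A c a := tie hRegTie hA3 hreg (hseg'.nz tb hb0.le hb1)
    (apth hseg'.ap hseg'.aq hb0.le hb1) hn2 hMb
  have hcd : c = d := by
    by_contra hcd
    obtain ⟨ta, n₁, ha0, hab, hn1, hn12, hMa, -⟩ := hin hcd
    have ha1 : ta ≤ 1 := hab.le.trans hb1
    have hMa' : Mx C (pth (α' • w₁ + β' • w₂) q' ta) = {c, n₁} := by
      rw [hMa, Finset.pair_comm]
    have hn1N : n₁ ∈ NA C A c a := tie hRegTie hA3 hreg (hseg'.nz ta ha0.le ha1)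
      (apth hseg'.ap hseg'.aq ha0.le ha1) hn1 hMa'
    rcases two hcard hn1N hn2N hn12 hc' with h | h
    · exact key ta ha0 ha1 (by rw [hMa', h])
    · exact key tb hb0 hb1 (by rw [hMb, h])
  refine ⟨hcd, ?_⟩
  subst hcd
  by_contra hne
  have hd' : d' ∈ NA C A c a := startN G2.h₁.ne hs' (mxC G2 hα' hβ')
  rcases two hcard hc' hd' hne hn2N with h | h
  · exact key tb hb0 hb1 (by rw [hMb, h])
  · have hpos := (hSegZ A B C g₁ g₂ c d' v₁ w₁ v₂ w₂ q' G2.h₁ G2.h₂ G2.pos G2.miss hR hL).1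
    have h4 : ip c (pth (α' • w₁ + β' • w₂) q' tb) = ip d' (pth (α' • w₁ + β' • w₂) q' tb) := by
      apply Mx_eq (A := C)
      · rw [hMb]; simp
      · rw [hMb, h]; simp
    have hMs' := mxC G2 hα' hβ'
    have h5 : ip c (α' • w₁ + β' • w₂) = ip d' (α' • w₁ + β' • w₂) := by
      apply Mx_eq (A := C)
      · rw [hMs']; simp
      · rw [hMs']; simp
    unfold pth at h4
    rw [ip_add_right, ip_add_right, ip_smul_right, ip_smul_right, ip_smul_right, ip_smul_right,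
      h5] at h4
    rw [ip_sub_left] at hpos
    have h6 : tb * (ip c q' - ip d' q') = 0 := by linarith
    have h7 : 0 < tb * (ip c q' - ip d' q') := mul_pos hb0 hpos
    linarith

end MGapInj

theorem t_GapInj (hRegTie : StmtRegTie) (hLocalPath : StmtLocalPath) (hSegZ : StmtSegZ)
    (hIntIn : StmtIntIn) (hNoTie : StmtNoTie) (hVisit : StmtVisit) : StmtGapInj := by
  intro A B C e₁ e₂ g₁ g₂ c c' u₁ z₁ u₂ z₂ d d' v₁ w₁ v₂ w₂ a c₁ c₂ hA3 h3 G1 G2 hC1 hC2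
  obtain ⟨α, β, hα, hβ, hs, hform⟩ := hC1
  obtain ⟨α', β', hα', hβ', hs', hform'⟩ := hC2
  have main : c = d ∧ c' = d' := by
    rcases hform with ⟨h1, h2, -⟩ | ⟨q, t, hR, hL, hseg, hstop⟩
    · rcases hform' with ⟨h3', h4, -⟩ | ⟨q', t', hR', hL', hseg', hstop'⟩
      · exact ⟨h1.symm.trans h3', h2.symm.trans h4⟩
      · exfalso
        refine MGapInj.nt hNoTie h3 G1 G2 hα hβ hs hα' hβ' hR' hL' hseg'.ap hseg'.aq hstop'.pos
          hstop'.le ?_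
        rw [hstop'.tie, h1, h2]
    · rcases hform' with ⟨h3', h4, -⟩ | ⟨q', t', hR', hL', hseg', hstop'⟩
      · exfalso
        refine MGapInj.nt hNoTie h3 G2 G1 hα' hβ' hs' hα hβ hR hL hseg.ap hseg.aq hstop.pos
          hstop.le ?_
        rw [hstop.tie, h3', h4]
      · rcases hVisit A C a c d (α • z₁ + β • z₂) q (α' • w₁ + β' • w₂) q' t t' c₁ c₂ hA3 h3 hseg
          hseg' hstop hstop' with hv | hv
        · exact MGapInj.core hRegTie hLocalPath hSegZ hNoTie hA3 h3 G1 G2 hα hβ hs hα' hβ' hs'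
            hR' hL' hseg hseg' hstop' hv
        · have h5 := MGapInj.core hRegTie hLocalPath hSegZ hNoTie hA3 h3 G2 G1 hα' hβ' hs' hα hβ
            hs hR hL hseg' hseg hstop hv
          exact ⟨h5.1.symm, h5.2.symm⟩
  refine ⟨main.1, main.2, ?_⟩
  have hMs : Mx C (α • z₁ + β • z₂) = {d, d'} := by
    rw [MGapInj.mxC G1 hα hβ, main.1, main.2]
  have ha : a ∈ Mx A (α • z₁ + β • z₂) := by rw [hs]; simp
  obtain ⟨α'', β'', -, -, h6, h7⟩ := hIntIn A B C g₁ g₂ d d' v₁ w₁ v₂ w₂ a (α • z₁ + β • z₂) α' β'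
    h3 G2.h₁ G2.h₂ G2.pos hα' hβ' hs' hMs ha
  obtain ⟨h8, h9⟩ := h7 hs
  exact ⟨α, β, α'', β'', hα, hβ, h8, h9, h6⟩

end TPH
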