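import Pool.Agent.TPH.St3

/-!
# Three parallel hyperplanes: transitivity of good gaps
-/

set_option autoImplicit false

namespace TPH

namespace MGapTrans

/-- reaching is inherited by larger cones -/
theorem reach_of {A : Finset E} {zx zw zk zj a : E} {p p' r r' : ℝ} (hp : 0 < p) (hp' : 0 ≤ p')
    (hr : 0 ≤ r) (hr' : 0 < r') (hk : zk = p • zx + p' • zw) (hj : zj = r • zx + r' • zw)
    (h : Reach A zk zj a) : Reach A zx zw a := by
  obtain ⟨α, β, hα, hβ, hM⟩ := h
  refine ⟨α * p + β * r, α * p' + β * r', by positivity, by positivity, ?_⟩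
  rw [← hM]
  congr 1
  rw [hk, hj, smul_add, smul_add, smul_smul, smul_smul, smul_smul, smul_smul, add_smul, add_smul]
  abel

/-- the case where `q` lies in the plane of a flat between the two ends -/
theorem reach_mid {A : Finset E} {zx zw zk a a' : E} {p p' : ℝ} (hp : 0 < p) (hp' : 0 < p')
    (hk : zk = p • zx + p' • zw) (hM : Mx A zk = {a, a'}) (hx : ip (a - a') zx ≠ 0) :
    Reach A zx zw a := by
  have h0 : ip (a - a') zk = 0 := by
    have h1 : ip a zk = ip a' zk := perp_pair.mp (hM ▸ perp_Mx A zk)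
    rw [ip_sub_left, h1, sub_self]
  rw [hk, ip_add_right, ip_smul_right, ip_smul_right] at h0
  have hside : ∀ z : E, 0 < ip (a - a') z → ∃ η : ℝ, 0 < η ∧ Mx A (zk + η • z) = {a} := by
    intro z hz
    obtain ⟨ε₀, hε, hpert⟩ := Mx_pert A zk z
    refine ⟨ε₀ / 2, by linarith, ?_⟩
    rw [hpert (ε₀ / 2) (by linarith) (by linarith), hM]
    apply Mx_pair_left
    rw [ip_sub_left] at hz
    linarith
  rcases lt_or_gt_of_ne hx with hneg | hpos
  · have hw : 0 < ip (a - a') zw := by
      by_contra hc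
      have h1 : p' * ip (a - a') zw ≤ 0 := mul_nonpos_of_nonneg_of_nonpos hp'.le (not_lt.mp hc)
      have h2 : p * ip (a - a') zx < 0 := mul_neg_of_pos_of_neg hp hneg
      linarith
    obtain ⟨η, hη, hMη⟩ := hside zw hw
    refine ⟨p, p' + η, hp, by linarith, ?_⟩
    rw [← hMη]
    congr 1
    rw [hk, add_smul]
    abel
  · obtain ⟨η, hη, hMη⟩ := hside zx hpos
    refine ⟨p + η, p', by linarith, hp', ?_⟩
    rw [← hMη]
    congr 1
    rw [hk, add_smul]
    abel

end MGapTrans

theorem t_GapTrans (hKeyFn : StmtKeyFn) (hBetween : StmtBetween) : StmtGapTrans := by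
  classical
  intro ι S A B C e c c' u z x w hC hHF hinj hx hw hxw hgood
  have hne : c ≠ c' := (hHF x hx).ne
  obtain ⟨key, hkey⟩ := hKeyFn C c c' hC hne
  have hlt : ∀ i ∈ S, ∀ j ∈ S, (key (z i) < key (z j) ↔ 0 < det3 (c - c') (z i) (z j)) :=
    fun i hi j hj => (hkey (z i) (z j) (hHF i hi).cz (hHF j hj).cz).1
  intro q hq hlune a ha
  have hl := ((hHF x hx).lune_iff (hHF w hw) hxw q).mp hlune
  -- the largest `k`
  set K := S.filter (fun k => (k = x ∨ key (z x) < key (z k)) ∧ key (z k) < key (z w) ∧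
    0 ≤ det3 (z k) q (u k)) with hK
  have hxK : x ∈ K := by
    rw [hK, Finset.mem_filter]
    exact ⟨hx, Or.inl rfl, (hlt x hx w hw).mpr hxw, hl.1.le⟩
  obtain ⟨k, hkK, hkmax⟩ := K.exists_max_image (fun k => key (z k)) ⟨x, hxK⟩
  obtain ⟨hkS, hkx, hkw, hkd⟩ := by
    rw [hK, Finset.mem_filter] at hkK
    exact hkK
  -- the smallest `j`
  set J := S.filter (fun j => key (z k) < key (z j) ∧ (j = w ∨ key (z j) < key (z w))) with hJ
  have hwJ : w ∈ J := by
    rw [hJ, Finset.mem_filter]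
    exact ⟨hw, hkw, Or.inl rfl⟩
  obtain ⟨j, hjJ, hjmin⟩ := J.exists_min_image (fun j => key (z j)) ⟨w, hwJ⟩
  obtain ⟨hjS, hkj, hjw⟩ := by
    rw [hJ, Finset.mem_filter] at hjJ
    exact hjJ
  have hjw' : key (z j) ≤ key (z w) := by
    rcases hjw with h | h
    · rw [h]
    · exact h.le
  have hxk' : key (z x) ≤ key (z k) := by
    rcases hkx with h | h
    · rw [h]
    · exact h.le
  have hcons : ∀ l ∈ S, ¬ (0 < det3 (c - c') (z k) (z l) ∧ 0 < det3 (c - c') (z l) (z j)) := by
    rintro l hlS ⟨h1, h2⟩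
    rw [← hlt k hkS l hlS] at h1
    rw [← hlt l hlS j hjS] at h2
    have hlJ : l ∈ J := by
      rw [hJ, Finset.mem_filter]
      exact ⟨hlS, h1, Or.inr (h2.trans_le hjw')⟩
    exact absurd (hjmin l hlJ) (not_le.mpr h2)
  have hjd : det3 (z j) q (u j) < 0 := by
    rcases hjw with h | h
    · rw [h]
      exact hl.2
    · by_contra hc
      have hjK : j ∈ K := by
        rw [hK, Finset.mem_filter]
        exact ⟨hjS, Or.inr (hxk'.trans_lt hkj), h, not_lt.mp hc⟩
      exact absurd (hkmax j hjK) (not_le.mpr hkj)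
  have hkj' : 0 < det3 (c - c') (z k) (z j) := (hlt k hkS j hjS).mp hkj
  have hGkj : Good A B c (z k) (u k) (z j) (u j) := by
    refine hgood k hkS j hjS ?_ ?_ hkj' hcons
    · rcases hkx with h | h
      · exact Or.inl h
      · exact Or.inr ((hlt x hx k hkS).mp h)
    · rcases hjw with h | h
      · exact Or.inl h
      · exact Or.inr ((hlt j hjS w hw).mp h)
  rcases hkd.eq_or_lt with h0 | hpos
  · -- `q` is in the plane of `e k`
    have hkx' : key (z x) < key (z k) := by
      rcases hkx with h | h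
      · exfalso
        rw [h] at h0
        exact absurd hl.1 (by rw [← h0]; exact lt_irrefl 0)
      · exact h
    have hperp : Perp (e k) q := ((hHF k hkS).perp_iff q).mpr h0.symm
    have hMq : Mx A q = e k := (hHF k hkS).full q hq hperp
    rw [hMq] at ha
    obtain ⟨a', hek⟩ : ∃ a', e k = {a, a'} := by
      obtain ⟨b, b', _, hb⟩ := Finset.card_eq_two.mp (hHF k hkS).card
      rw [hb, Finset.mem_insert, Finset.mem_singleton] at ha
      rcases ha with rfl | rfl
      · exact ⟨b', hb⟩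
      · exact ⟨b, by rw [hb, Finset.pair_comm]⟩
    have hxk1 : 0 < det3 (c - c') (z x) (z k) := (hlt x hx k hkS).mp hkx'
    have hkw1 : 0 < det3 (c - c') (z k) (z w) := (hlt k hkS w hw).mp hkw
    obtain ⟨_, p, p', hp, hp', hzk⟩ := hBetween C c c' (z x) (z k) (z w) hC hne (hHF x hx).cz
      (hHF k hkS).cz (hHF w hw).cz hxk1 hkw1
    refine MGapTrans.reach_mid hp hp' hzk ((hHF k hkS).ez.trans hek) ?_
    intro h1
    have h2 : Perp (e k) (z x) := by
      rw [hek, perp_pair]
      rw [ip_sub_left] at h1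
      linarith
    have h3 := ((hHF k hkS).perp_iff (z x)).mp h2
    have h4 := (((hHF k hkS).det_pos_iff (hHF x hx) (hHF k hkS).wu).2.2).mp h3
    have h5 : det3 (c - c') (z k) (z x) = - det3 (c - c') (z x) (z k) := det3_swap23 _ _ _
    linarith
  · -- `q` is in the lune of `k` and `j`
    have hlk : Lune (z k) (u k) (z j) (u j) q :=
      ((hHF k hkS).lune_iff (hHF j hjS) hkj' q).mpr ⟨hpos, hjd⟩
    have hR := hGkj q hq hlk a ha
    obtain ⟨p, p', hp, hp', hzk⟩ : ∃ p p' : ℝ, 0 < p ∧ 0 ≤ p' ∧ z k = p • z x + p' • z w := by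
      rcases hkx with h | h
      · exact ⟨1, 0, one_pos, le_rfl, by rw [h]; simp⟩
      · obtain ⟨_, p, p', h1, h2, h3⟩ := hBetween C c c' (z x) (z k) (z w) hC hne (hHF x hx).cz
          (hHF k hkS).cz (hHF w hw).cz ((hlt x hx k hkS).mp h) ((hlt k hkS w hw).mp hkw)
        exact ⟨p, p', h1, h2.le, h3⟩
    obtain ⟨r, r', hr, hr', hzj⟩ : ∃ r r' : ℝ, 0 ≤ r ∧ 0 < r' ∧ z j = r • z x + r' • z w := by
      rcases hjw with h | h
      · exact ⟨0, 1, le_rfl, one_pos, by rw [h]; simp⟩
      · obtain ⟨_, p, p', h1, h2, h3⟩ := hBetween C c c' (z x) (z j) (z w) hC hne (hHF x hx).cz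
          (hHF j hjS).cz (hHF w hw).cz ((hlt x hx j hjS).mp (hxk'.trans_lt hkj))
          ((hlt j hjS w hw).mp h)
        exact ⟨p, p', h1.le, h2, h3⟩
    exact MGapTrans.reach_of hp hp' hr hr' hzk hzj hR

end TPH
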