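import Pool.Agent.TPH.St1

/-!
# Three parallel hyperplanes: a generic functional
-/

namespace TPH

namespace MGeneric

open Polynomial

/-- The polynomial `d 0 + d 1 X + d 2 X^2`. -/
noncomputable def pol (d : E) : ℝ[X] := C (d 0) + C (d 1) * X + C (d 2) * X ^ 2

theorem pol_ne {d : E} (h : d ≠ 0) : pol d ≠ 0 := by
  intro h0
  apply h
  have c0 : (pol d).coeff 0 = 0 := by rw [h0]; simp
  have c1 : (pol d).coeff 1 = 0 := by rw [h0]; simp
  have c2 : (pol d).coeff 2 = 0 := by rw [h0]; simp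
  simp [pol, coeff_X, coeff_C] at c0 c1 c2
  funext i
  fin_cases i
  · simpa using c0
  · simpa using c1
  · simpa using c2

theorem pol_eval (d : E) (t : ℝ) : (pol d).eval t = ip d ![1, t, t ^ 2] := by
  simp [pol, ip]

theorem exists_phi (S : Finset E) : ∃ φ : E, φ ≠ 0 ∧
    ∀ a ∈ S, ∀ a' ∈ S, ip a φ = ip a' φ → a = a' := by
  classical
  let T : Finset (E × E) := (S ×ˢ S).filter (fun p => p.1 ≠ p.2)
  let P : ℝ[X] := ∏ p ∈ T, pol (p.1 - p.2)
  have hP : P ≠ 0 := by
    refine Finset.prod_ne_zero_iff.mpr ?_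
    intro p hp
    refine pol_ne ?_
    intro h
    exact (Finset.mem_filter.mp hp).2 (sub_eq_zero.mp h)
  obtain ⟨t, ht⟩ : ∃ t : ℝ, P.eval t ≠ 0 := by
    by_contra hcon
    push Not at hcon
    exact hP (Polynomial.funext (fun r => by rw [hcon r, eval_zero]))
  refine ⟨![1, t, t ^ 2], ?_, ?_⟩
  · intro h
    have := congrFun h 0
    simp at this
  · intro a ha a' ha' h
    by_contra hne
    apply ht
    have hmem : (a, a') ∈ T := Finset.mem_filter.mpr ⟨Finset.mem_product.mpr ⟨ha, ha'⟩, hne⟩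
    have : (pol (a - a')).eval t = 0 := by
      rw [pol_eval, ip_sub_left, h, sub_self]
    rw [show P = ∏ p ∈ T, pol (p.1 - p.2) from rfl, eval_prod]
    exact Finset.prod_eq_zero hmem this

end MGeneric

theorem t_Generic : StmtGeneric := MGeneric.exists_phi

end TPH
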