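import Pool.Agent.TPH.St2

/-!
# Three parallel hyperplanes: the remaining flats have an exit
-/

set_option autoImplicit false

namespace TPH

namespace MHalfExit

/-- a set with at most two elements which contains `c` and is not `{c}` is a pair -/
theorem pair_of {S : Finset E} {c : E} (hc : c ∈ S) (hne : S ≠ {c}) (hcard : S.card ≤ 2) :
    ∃ c', c ≠ c' ∧ S = {c, c'} := by
  classical
  obtain ⟨c', hc', hcne⟩ : ∃ c' ∈ S, c' ≠ c := by
    by_contra h
    push Not at h
    exact hne (Finset.eq_singleton_iff_unique_mem.mpr ⟨hc, h⟩)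
  refine ⟨c', hcne.symm, ?_⟩
  symm
  apply Finset.eq_of_subset_of_card_le
  · intro d hd
    simp only [Finset.mem_insert, Finset.mem_singleton] at hd
    rcases hd with rfl | rfl
    · exact hc
    · exact hc'
  · rw [Finset.card_pair hcne.symm]; exact hcard

end MHalfExit

theorem t_HalfExit (hFlatBasic : StmtFlatBasic) (hRegSide : StmtRegSide) : StmtHalfExit := by
  classical
  intro A B C x u hA hC hfl hD1 hD2 hD3
  obtain ⟨hclo, hout, -, -, hcell, -, -⟩ := hFlatBasic A B C x u (Or.inl hA) hfl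
  have hmem : x ∈ flats A B C := mem_flats.mpr ⟨u, hfl⟩
  obtain ⟨hc2, -, heu, hcu, -, -, -⟩ := hfl
  have hreg : ∀ a ∈ x.1, Reg A C a x.2.1 := by
    intro a ha
    by_contra h
    apply hD1
    simp only [D1, Finset.mem_filter]
    exact ⟨hmem, a, ha, h⟩
  have hr : ∃ r, InR A B x.2.1 r ∧ Perp x.1 r := by
    by_contra h
    apply hD3
    simp only [D3, Finset.mem_filter]
    exact ⟨hmem, hreg, fun r hr hp => h ⟨r, hr, hp⟩⟩
  have hfull : ∀ v, InR A B x.2.1 v → Perp x.1 v → Mx A v = x.1 := by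
    by_contra h
    apply hD2
    simp only [D2, Finset.mem_filter]
    exact ⟨hmem, hreg, hr, h⟩
  obtain ⟨a, a', hne, he⟩ := Finset.card_eq_two.mp hc2
  have ha : a ∈ x.1 := by rw [he]; simp
  have ha' : a' ∈ x.1 := by rw [he]; simp
  obtain ⟨-, hcell'⟩ := hcell a ha
  obtain ⟨-, hNA⟩ := hcell' a' ha' hne.symm
  have hOv : ¬ Ov A C a x.2.1 := (hreg a ha).2.1
  have hfullZ : ∀ v, v ≠ 0 → Perp x.1 v → x.2.1 ∈ Mx C v → Mx A v = x.1 := by
    intro v hv hp hc
    rw [he] at hp ⊢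
    exact hRegSide A C a x.2.1 a' v (by omega) hOv hNA hv hp hc
  obtain ⟨r, hrR, hrP⟩ := hr
  have hSA : x.1 ≠ A := by
    intro h
    rw [h] at hc2
    omega
  have hPr : Perp x.1 (-r) := by
    have h := hrP.smul (-1)
    rwa [neg_one_smul] at h
  obtain ⟨M, τ, hM, hτ, hSz, hTz, hor, -⟩ := rotate heu hcu ⟨a, ha⟩
    ⟨x.2.1, Finset.mem_singleton_self _⟩ (Or.inl hSA) hPr (perp_singleton _ _)
  have hPu : Perp x.1 u := heu ▸ perp_Mx A u
  have hPz : Perp x.1 (u + τ • (-r - M • u)) := hPu.add ((hPr.sub (hPu.smul M)).smul τ)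
  have hcz : x.2.1 ∈ Mx C (u + τ • (-r - M • u)) := hTz (Finset.mem_singleton_self _)
  have hz0 : u + τ • (-r - M • u) ≠ 0 := by
    intro h
    have hreq : r = ((1 - τ * M) / τ) • u := by
      funext i
      have h1 := congrFun h i
      simp only [Pi.add_apply, Pi.smul_apply, Pi.sub_apply, Pi.neg_apply, Pi.zero_apply,
        smul_eq_mul] at h1 ⊢
      rw [div_mul_eq_mul_div, eq_div_iff hτ.ne']
      linarith
    rw [hreq] at hrR
    exact hout _ hrR
  have hAz := hfullZ _ hz0 hPz hcz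
  have hcard : (Mx C (u + τ • (-r - M • u))).card ≤ 2 := by
    by_contra h
    exact hOv ⟨_, hz0, by rw [hAz]; exact ha, hcz, Or.inr (by omega)⟩
  have hCne : Mx C (u + τ • (-r - M • u)) ≠ {x.2.1} := by
    rcases hor with h | h
    · exact absurd hAz h
    · exact h
  obtain ⟨c', hcc', hCz⟩ := MHalfExit.pair_of hcz hCne hcard
  refine ⟨_, c', ⟨hc2, heu, hcu, hclo, hout, hAz, hCz, hcc', ⟨1, one_pos, ?_⟩, hfull, hfullZ⟩⟩
  have h1 : InR A B x.2.1 (τ • r + (τ * M) • u) :=
    InR.comb hτ (mul_pos hτ hM).le hrR hclo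
  have h2 : u - (1 : ℝ) • (u + τ • (-r - M • u)) = τ • r + (τ * M) • u := by
    funext i
    simp only [Pi.add_apply, Pi.smul_apply, Pi.sub_apply, Pi.neg_apply, smul_eq_mul]
    ring
  rw [h2]
  exact h1

end TPH
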