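import Pool.Agent.TPH.St3

set_option autoImplicit false

/-! # Three parallel hyperplanes, module IntIn -/

namespace TPH

namespace MIntIn

/-- The end `z` of a half flat cannot be a positive combination of two points at which `a` is a
maximiser, the only one at the second. -/
theorem no_end {A B C e : Finset E} {c c' u z p s a : E} {k l : ℝ} (h : HF A B C e c c' u z)
    (hk : 0 < k) (hl : 0 < l) (hp : a ∈ Mx A p) (hs : Mx A s = {a}) (hz : z = k • p + l • s) :
    False := by
  have h1 : Mx A z = {a} := by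
    rw [hz, Mx_comb hk hl hp (hs ▸ Finset.mem_singleton_self a), hs]
    exact Finset.inter_eq_right.mpr (Finset.singleton_subset_iff.mpr hp)
  have h2 := h.card
  rw [← h.ez, h1, Finset.card_singleton] at h2
  omega

/-- `a` is not the only maximiser at a positive multiple of the end of a half flat. -/
theorem no_mul {A B C e : Finset E} {c c' u z a : E} {k : ℝ} (h : HF A B C e c c' u z)
    (hk : 0 < k) (hs : Mx A (k • z) = {a}) : False := by
  have h2 := h.card
  rw [← h.ez, ← Mx_smul hk, hs, Finset.card_singleton] at h2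
  omega

end MIntIn

open MIntIn in
theorem t_IntIn (hBetween : StmtBetween) : StmtIntIn := by
  intro A B C e₁ e₂ c c' u₁ z₁ u₂ z₂ a p α β hC h₁ h₂ hpos hα hβ hs hCp hap
  have hω : c - c' ≠ 0 := sub_ne_zero.mpr h₁.ne
  have hcr : cr z₁ z₂ ≠ 0 := by
    intro h0
    have h1 : ip (c - c') (cr z₁ z₂) = 0 := by rw [h0, ip_zero_right]
    rw [ip_cr', det3_cyc] at h1
    linarith
  have hpω : ip (c - c') p = 0 := by
    have := Mx_eq (A := C) (u := p) (a := c) (a' := c') (hCp ▸ by simp) (hCp ▸ by simp)
    rw [ip_sub_left, this, sub_self]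
  obtain ⟨α', β', hp⟩ := comb_of_perp hω hcr h₁.wz h₂.wz hpω
  have hCs : Mx C (α • z₁ + β • z₂) = {c, c'} := by
    rw [Mx_comb hα hβ (a := c) (h₁.cz ▸ by simp) (h₂.cz ▸ by simp), h₁.cz, h₂.cz,
      Finset.inter_self]
  have hβ' : 0 ≤ β' := by
    by_contra hlt
    push Not at hlt
    have d1 : 0 < det3 (c - c') p z₁ := by
      rw [hp, det3_add2, det3_smul2, det3_smul2, det3_self23, det3_swap23 (c - c') z₁ z₂]
      nlinarith
    have d2 : 0 < det3 (c - c') z₁ (α • z₁ + β • z₂) := by
      rw [det3_add3, det3_smul3, det3_smul3, det3_self23]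
      nlinarith
    obtain ⟨_, k, l, hk, hl, hz⟩ := hBetween C c c' p z₁ _ hC h₁.ne hCp h₁.cz hCs d1 d2
    exact no_end h₁ hk hl hap hs hz
  have hα' : 0 ≤ α' := by
    by_contra hlt
    push Not at hlt
    have d1 : 0 < det3 (c - c') z₂ p := by
      rw [hp, det3_add3, det3_smul3, det3_smul3, det3_self23, det3_swap23 (c - c') z₁ z₂]
      nlinarith
    have d2 : 0 < det3 (c - c') (α • z₁ + β • z₂) z₂ := by
      rw [det3_add2, det3_smul2, det3_smul2, det3_self23]
      nlinarith
    obtain ⟨_, k, l, hk, hl, hz⟩ := hBetween C c c' _ z₂ p hC h₁.ne hCs h₂.cz hCp d2 d1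
    exact no_end h₂ hl hk hap hs (hz.trans (add_comm _ _))
  refine ⟨α', β', hα', hβ', hp, fun hM => ?_⟩
  have hp0 : p ≠ 0 := by
    rintro rfl
    rw [Mx_zero] at hCp
    have := Finset.card_le_two (a := c) (b := c')
    rw [← hCp] at this
    omega
  constructor
  · rcases hα'.eq_or_lt with h0 | h0
    · exfalso
      rw [← h0, zero_smul, zero_add] at hp
      rcases hβ'.eq_or_lt with h3 | h3
      · rw [← h3, zero_smul] at hp
        exact hp0 hp
      · exact no_mul h₂ h3 (hp ▸ hM)
    · exact h0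
  · rcases hβ'.eq_or_lt with h0 | h0
    · exfalso
      rw [← h0, zero_smul, add_zero] at hp
      rcases hα'.eq_or_lt with h3 | h3
      · rw [← h3, zero_smul] at hp
        exact hp0 hp
      · exact no_mul h₁ h3 (hp ▸ hM)
    · exact h0

end TPH
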