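import Pool.Agent.TPH.St3

/-!
# Three parallel hyperplanes: the key lemma

Proof of `StmtKey` from `StmtKeyHalf`: the linear functional of the middle flat is negative at its exit
`z₂`, which is a positive combination of `z₁` and `y₃`; so it is negative at one of them, and the half
lemma applies to the first or to the third flat.
-/

namespace TPH

theorem t_Key (hKeyHalf : StmtKeyHalf) : StmtKey := by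
  intro A B C e₁ f₁ e₂ f₂ e₃ f₃ c c' u₁ z₁ y₁ u₂ z₂ y₂ u₃ z₃ y₃ hA hB h₁ h₁' h₂ h₂' h₃ h₃'
    hy₁ hz₃ hz₂ hn₁ hn₂ hg₁ hg₂
  obtain ⟨κ₁, μ₁, hκ₁, hμ₁, hy₁⟩ := hy₁
  obtain ⟨κ₃, μ₃, hκ₃, hμ₃, hz₃⟩ := hz₃
  obtain ⟨κ, μ, hκ, hμ, hz₂⟩ := hz₂
  obtain ⟨a, ha⟩ := h₂.e_ne
  obtain ⟨b, hb⟩ := h₂'.e_ne
  have haA : a ∈ A := Mx_subset A u₂ (h₂.eu ▸ ha)
  have hbB : b ∈ B := Mx_subset B u₂ (h₂'.eu ▸ hb)
  have hT := h₂.beyond ha (h₂'.eu ▸ hb : b ∈ Mx B u₂)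
  have hT' : κ * (ip a z₁ + ip b z₁ - 2 * ip c z₁) + μ * (ip a y₃ + ip b y₃ - 2 * ip c y₃) > 0 := by
    have e : ∀ x : E, ip x z₂ = κ * ip x z₁ + μ * ip x y₃ := by
      intro x
      rw [hz₂, ip_add_right, ip_smul_right, ip_smul_right]
    rw [e a, e b, e c] at hT
    linarith
  by_cases hc : 0 < ip a z₁ + ip b z₁ - 2 * ip c z₁
  · obtain ⟨a₁, ha₁⟩ := h₁.e_ne
    have hle : ip a z₁ ≤ ip a₁ z₁ := Mx_le (h₁.ez ▸ ha₁ : a₁ ∈ Mx A z₁) haA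
    exact hKeyHalf A B C e₁ f₁ f₂ c c' u₁ z₁ y₁ u₂ y₂ b κ₁ μ₁ hA h₁ h₁' h₂' hκ₁ hμ₁ hy₁ hn₁ hg₁ hb
      ⟨a₁, ha₁, by linarith⟩
  · push Not at hc
    have hd : 0 < ip a y₃ + ip b y₃ - 2 * ip c y₃ := by
      by_contra hd
      push Not at hd
      have h1 := mul_nonpos_of_nonneg_of_nonpos hκ.le hc
      have h2 := mul_nonpos_of_nonneg_of_nonpos hμ.le hd
      linarith
    obtain ⟨b₃, hb₃⟩ := h₃'.e_ne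
    have hle : ip b y₃ ≤ ip b₃ y₃ := Mx_le (h₃'.ez ▸ hb₃ : b₃ ∈ Mx B y₃) hbB
    exact hKeyHalf B A C f₃ e₃ e₂ c c' u₃ y₃ z₃ u₂ z₂ a κ₃ μ₃ hB h₃' h₃ h₂ hκ₃ hμ₃ hz₃
      (fun r hr hp hp' => hn₂ r (inR_comm.mp hr) hp' hp) (Good_swap.mp hg₂) ha
      ⟨b₃, hb₃, by linarith⟩

end TPH
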