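import Pool.Agent.TPH.St3

/-!
# Module KeyFn   (helper37)
-/

set_option autoImplicit false

namespace TPH

namespace MKeyFn

theorem ip_w {C : Finset E} {c c' s : E} (hs : Mx C s = {c, c'}) : ip (c - c') s = 0 := by
  have h1 : c ∈ Mx C s := by rw [hs]; exact Finset.mem_insert_self _ _
  have h2 : c' ∈ Mx C s := by
    rw [hs]; exact Finset.mem_insert_of_mem (Finset.mem_singleton_self _)
  rw [ip_sub_left, Mx_eq h1 h2, sub_self]

theorem ip_q {C : Finset E} {c c' d s : E} (hs : Mx C s = {c, c'}) (hd : d ∈ C) (h1 : d ≠ c)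
    (h2 : d ≠ c') : 0 < ip (c - d) s := by
  have h3 : c ∈ Mx C s := by rw [hs]; exact Finset.mem_insert_self _ _
  have h4 : d ∉ Mx C s := by
    rw [hs]
    intro h
    rcases Finset.mem_insert.1 h with h | h
    · exact h1 h
    · exact h2 (Finset.mem_singleton.1 h)
  have := Mx_lt h3 hd h4
  rw [ip_sub_left]
  linarith

/-- a third point of `C` -/
theorem third {C : Finset E} (hC : 3 ≤ C.card) (c c' : E) : ∃ d ∈ C, d ≠ c ∧ d ≠ c' := by
  classical
  have h : 0 < (C \ {c, c'}).card := by
    have h1 := Finset.le_card_sdiff {c, c'} C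
    have h2 : ({c, c'} : Finset E).card ≤ 2 := Finset.card_le_two
    omega
  obtain ⟨d, hd⟩ := Finset.card_pos.1 h
  rw [Finset.mem_sdiff] at hd
  refine ⟨d, hd.1, fun h => hd.2 ?_, fun h => hd.2 ?_⟩
  · rw [h]; exact Finset.mem_insert_self _ _
  · rw [h]; exact Finset.mem_insert_of_mem (Finset.mem_singleton_self _)

/-- Plucker's relation in the plane orthogonal to `w`, multiplied by `w` -/
theorem rel (w r s t q : E) (hr : ip w r = 0) (hs : ip w s = 0) (ht : ip w t = 0) (hw : w ≠ 0) :
    det3 w r t * ip q s - det3 w r s * ip q t = det3 w s t * ip q r := by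
  have hp := ip_self_pos hw
  -- the identity is linear in `q`; it is enough to know it for the cross products
  have e1 : w 0 * r 0 + w 1 * r 1 + w 2 * r 2 = 0 := by simpa [ip] using hr
  have e2 : w 0 * s 0 + w 1 * s 1 + w 2 * s 2 = 0 := by simpa [ip] using hs
  have e3 : w 0 * t 0 + w 1 * t 1 + w 2 * t 2 = 0 := by simpa [ip] using ht
  -- `r, s, t` are linearly dependent
  have hd : det3 r s t = 0 := by
    have h : ip w w * det3 r s t = 0 := by
      simp only [ip, det3]
      linear_combination (w 0 * (s 1 * t 2 - s 2 * t 1) + w 1 * (s 2 * t 0 - s 0 * t 2) +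
        w 2 * (s 0 * t 1 - s 1 * t 0)) * e1 + (w 0 * (t 1 * r 2 - t 2 * r 1) +
        w 1 * (t 2 * r 0 - t 0 * r 2) + w 2 * (t 0 * r 1 - t 1 * r 0)) * e2 +
        (w 0 * (r 1 * s 2 - r 2 * s 1) + w 1 * (r 2 * s 0 - r 0 * s 2) +
        w 2 * (r 0 * s 1 - r 1 * s 0)) * e3
    exact (mul_eq_zero.1 h).resolve_left hp.ne'
  have hc := cramer r s t w
  have h1 : ip q (det3 r s t • w) = ip q (det3 w s t • r + det3 r w t • s + det3 r s w • t) := by
    rw [hc]
  rw [hd, zero_smul, ip_zero_right, ip_add_right, ip_add_right, ip_smul_right, ip_smul_right,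
    ip_smul_right] at h1
  have h2 : det3 r w t = -det3 w r t := det3_swap12 w r t
  have h3 : det3 r s w = det3 w r s := det3_cyc w r s
  rw [h2, h3] at h1
  linarith

theorem main (C : Finset E) (c c' : E) (hC : 3 ≤ C.card) (hne : c ≠ c') :
    ∃ key : E → ℝ, ∀ s t, Mx C s = {c, c'} → Mx C t = {c, c'} →
      (key s < key t ↔ 0 < det3 (c - c') s t) ∧ (key s = key t ↔ ∃ k : ℝ, 0 < k ∧ t = k • s) := by
  by_cases h : ∃ r, Mx C r = {c, c'}
  · obtain ⟨r, hr⟩ := h
    obtain ⟨d, hd, hd1, hd2⟩ := third hC c c'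
    have hw : c - c' ≠ 0 := sub_ne_zero.2 hne
    refine ⟨fun s => det3 (c - c') r s / ip (c - d) s, fun s t hs ht => ?_⟩
    have qr := ip_q hr hd hd1 hd2
    have qs := ip_q hs hd hd1 hd2
    have qt := ip_q ht hd hd1 hd2
    have key := rel (c - c') r s t (c - d) (ip_w hr) (ip_w hs) (ip_w ht) hw
    have hdiff : det3 (c - c') r t / ip (c - d) t - det3 (c - c') r s / ip (c - d) s =
        det3 (c - c') s t * (ip (c - d) r / (ip (c - d) s * ip (c - d) t)) := by
      rw [div_sub_div _ _ qt.ne' qs.ne', mul_comm (ip (c - d) t) (det3 (c - c') r s), key]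
      field_simp
    have hpos : 0 < ip (c - d) r / (ip (c - d) s * ip (c - d) t) := div_pos qr (mul_pos qs qt)
    constructor
    · constructor
      · intro h1
        have h2 : 0 < det3 (c - c') s t * (ip (c - d) r / (ip (c - d) s * ip (c - d) t)) := by
          rw [← hdiff]
          exact sub_pos.2 h1
        exact (mul_pos_iff_of_pos_right hpos).1 h2
      · intro h1
        have h2 := mul_pos h1 hpos
        rw [← hdiff] at h2
        exact sub_pos.1 h2
    · constructor
      · intro h1
        have h2 : det3 (c - c') s t * (ip (c - d) r / (ip (c - d) s * ip (c - d) t)) = 0 := by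
          rw [← hdiff]
          exact sub_eq_zero.2 h1.symm
        have h3 : det3 (c - c') s t = 0 := (mul_eq_zero.1 h2).resolve_right hpos.ne'
        have hs0 : s ≠ 0 := by
          rintro rfl
          rw [ip_zero_right] at qs
          exact lt_irrefl _ qs
        have hcr : cr s t = 0 := by
          by_contra hcr
          obtain ⟨k, hk⟩ := par_cr_of_ip hcr (ip_w hs) (ip_w ht)
          have h4 : det3 (c - c') s t = k * ip (cr s t) (cr s t) := by
            have h5 : det3 (c - c') s t = ip (c - c') (cr s t) := by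
              rw [ip_cr', ← det3_cyc (c - c') s t]
            rw [h5]
            nth_rewrite 1 [hk]
            rw [ip_smul_left]
          rw [h4] at h3
          rcases mul_eq_zero.1 h3 with h6 | h6
          · rw [h6, zero_smul] at hk
            exact hw hk
          · exact (ip_self_pos hcr).ne' h6
        obtain ⟨k, hk⟩ := par_of_cr hs0 hcr
        refine ⟨k, ?_, hk⟩
        rw [hk, ip_smul_right] at qt
        exact (mul_pos_iff_of_pos_right qs).1 qt
      · rintro ⟨k, hk, rfl⟩
        have h1 : det3 (c - c') s (k • s) = 0 := by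
          rw [det3_smul3, det3_self23, mul_zero]
        rw [h1, zero_mul] at hdiff
        exact (sub_eq_zero.1 hdiff).symm
  · refine ⟨fun _ => 0, fun s t hs _ => absurd ⟨s, hs⟩ h⟩

end MKeyFn

theorem t_KeyFn : StmtKeyFn := MKeyFn.main

end TPH
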