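import Pool.Agent.TPH.St3

set_option autoImplicit false

/-!
# Three parallel hyperplanes: the first half of the key lemma
-/

namespace TPH

theorem t_KeyHalf (hOrder : StmtOrder) (hEscape : StmtEscape) (hNotPar : StmtNotPar) :
    StmtKeyHalf := by
  intro A B C e₁ f₁ f₂ c c' u₁ z₁ y₁ u₂ y₂ b' κ μ hA h1 h2 h3 hκ hμ hy hcross hgood hb' hex
  refine hEscape A B C e₁ c c' u₁ z₁ (ip b' z₁) hA h1 ?_ hex
  intro v hv hpv b hb
  have hnp := hNotPar A B C e₁ f₁ c c' c' u₁ z₁ y₁ hA h1 h2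
  -- the position of `y₁` and `y₂`
  have hzy : det3 (c - c') z₁ y₁ ≠ 0 := fun h0 =>
    hnp ((HF.sign_iff h1.wz h2.wz h1.wu).2.2.mpr h0)
  have e1 : det3 (c - c') z₁ y₁ = μ * det3 (c - c') z₁ y₂ := by
    rw [hy, det3_add3, det3_smul3, det3_smul3, det3_self23]; ring
  have e2 : det3 (c - c') y₁ y₂ = κ * det3 (c - c') z₁ y₂ := by
    rw [hy, det3_add2, det3_smul2, det3_smul2, det3_self23]; ring
  have hz2 : det3 (c - c') z₁ y₂ ≠ 0 := by
    intro h0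
    rw [h0, mul_zero] at e1
    exact hzy e1
  have hyy : det3 (c - c') y₁ y₂ ≠ 0 := by
    rw [e2]
    exact mul_ne_zero hκ.ne' hz2
  -- the lune
  have hl1 : 0 < det3 y₁ y₂ u₁ * det3 y₁ v u₁ := by
    have hD : det3 y₁ y₂ u₁ ≠ 0 := fun h0 =>
      hyy ((HF.sign_iff h2.wz h3.wz h2.wu).2.2.mp h0)
    obtain ⟨α, β, hβ, hve⟩ := h1.beta_neg hv hpv
    have a1 : det3 y₁ v u₁ = β * det3 y₁ z₁ u₁ := by
      rw [hve, det3_add2, det3_smul2, det3_smul2, det3_self23]; ring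
    have a2 : κ * det3 y₁ z₁ u₁ + μ * det3 y₁ y₂ u₁ = 0 := by
      have : det3 y₁ (κ • z₁ + μ • y₂) u₁ = 0 := by rw [← hy, det3_self12]
      rw [det3_add2, det3_smul2, det3_smul2] at this
      exact this
    have a3 : det3 y₁ z₁ u₁ = -(μ * det3 y₁ y₂ u₁) / κ := by
      rw [eq_div_iff hκ.ne']
      linarith
    have a4 : det3 y₁ y₂ u₁ * det3 y₁ v u₁ =
        -β * μ / κ * (det3 y₁ y₂ u₁ * det3 y₁ y₂ u₁) := by
      rw [a1, a3]
      field_simp
    rw [a4]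
    exact mul_pos (div_pos (mul_pos (neg_pos.mpr hβ) hμ) hκ) (mul_self_pos.mpr hD)
  have hseg : ∀ α β : ℝ, 0 ≤ α → 0 < β → α * det3 y₂ u₁ u₂ + β * det3 y₂ v u₂ ≠ 0 := by
    intro α β hα hβ h0
    have hin : InR A B c (β • v + α • u₁) := InR.comb hβ hα hv h1.clo
    have hp : Perp e₁ (β • v + α • u₁) := Perp.comb β α hpv h1.perp_u
    apply hcross _ hin hp
    rw [h3.perp_iff, det3_add2, det3_smul2, det3_smul2]
    linarith
  have hl2 : 0 < det3 y₂ y₁ u₂ * det3 y₂ v u₂ := by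
    rcases lt_or_gt_of_ne hyy with h0 | h0
    · -- `[y₂, y₁] > 0`
      have h0' : 0 < det3 (c - c') y₂ y₁ := by rw [det3_swap23]; linarith
      have g1 : 0 < det3 y₂ u₁ u₂ := (hOrder B A C f₂ f₁ c c' u₂ y₂ u₁ y₁ h3 h2 h0').2.2.1
      have g2 : 0 < det3 y₂ y₁ u₂ := (HF.sign_iff h3.wz h2.wz h3.wu).1.mpr h0'
      have g3 : 0 < det3 y₂ v u₂ := by
        by_contra hcon
        push Not at hcon
        exact hseg (-det3 y₂ v u₂) (det3 y₂ u₁ u₂) (by linarith) g1 (by ring)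
      exact mul_pos g2 g3
    · have g1 : det3 y₂ u₁ u₂ < 0 := (hOrder B A C f₁ f₂ c c' u₁ y₁ u₂ y₂ h2 h3 h0).1
      have h0' : det3 (c - c') y₂ y₁ < 0 := by rw [det3_swap23]; linarith
      have g2 : det3 y₂ y₁ u₂ < 0 := (HF.sign_iff h3.wz h2.wz h3.wu).2.1.mpr h0'
      have g3 : det3 y₂ v u₂ < 0 := by
        by_contra hcon
        push Not at hcon
        exact hseg (det3 y₂ v u₂) (-det3 y₂ u₁ u₂) hcon (by linarith) (by ring)
      exact mul_pos_of_neg_of_neg g2 g3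
  obtain ⟨α, β, hα, hβ, hs⟩ := hgood v (inR_comm.mp hv) ⟨hl1, hl2⟩ b hb
  have hb2 : b' ∈ Mx B y₂ := by rw [h3.ez]; exact hb'
  have hbs : b ∈ Mx B (α • y₁ + β • y₂) := by rw [hs]; exact Finset.mem_singleton_self b
  have h4 := Mx_le hbs (Mx_subset _ _ hb2)
  have h5 := Mx_le hb2 (Mx_subset _ _ hbs)
  rw [hy] at h4
  simp only [ip_add_right, ip_smul_right] at h4
  have h6 : 0 ≤ (α * κ) * (ip b z₁ - ip b' z₁) := by
    have h7 : 0 ≤ (α * μ + β) * (ip b' y₂ - ip b y₂) :=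
      mul_nonneg (by positivity) (by linarith)
    nlinarith
  have h8 : 0 < α * κ := mul_pos hα hκ
  have h9 : 0 ≤ ip b z₁ - ip b' z₁ := by
    by_contra hcon
    push Not at hcon
    have := mul_neg_of_pos_of_neg h8 hcon
    linarith
  linarith

end TPH
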