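import Pool.Agent.TPH.St4

/-!
# Three parallel hyperplanes: the data of the main flats exist
-/

namespace TPH

namespace MMDex

/-- Three truth values in one number below eight. -/
noncomputable def code (p q r : Prop) : Fin 8 :=
  @ite _ p (Classical.propDecidable p)
    (@ite _ q (Classical.propDecidable q)
      (@ite _ r (Classical.propDecidable r) 0 1)
      (@ite _ r (Classical.propDecidable r) 2 3))
    (@ite _ q (Classical.propDecidable q)
      (@ite _ r (Classical.propDecidable r) 4 5)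
      (@ite _ r (Classical.propDecidable r) 6 7))

theorem code_inj {p q r p' q' r' : Prop} (h : code p q r = code p' q' r') :
    (p ↔ p') ∧ (q ↔ q') ∧ (r ↔ r') := by
  unfold code at h
  by_cases hp : p <;> by_cases hq : q <;> by_cases hr : r <;> by_cases hp' : p' <;>
    by_cases hq' : q' <;> by_cases hr' : r' <;>
    simp [hp, hq, hr, hp', hq', hr'] at h ⊢

theorem swap23 (w s t : E) : det3 w t s = - det3 w s t := by
  simp only [det3]; ring

theorem det_self (w s : E) : det3 w s s = 0 := by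
  simp only [det3]; ring

/-- The signs. -/
noncomputable def sg (x : ℝ) : ℝ := @ite _ (0 < x) (Classical.propDecidable _) 1 (-1)

theorem sg_cases (x : ℝ) : sg x = 1 ∨ sg x = -1 := by
  unfold sg
  by_cases h : 0 < x
  · left; simp [h]
  · right; simp [h]

theorem sg_mul {x : ℝ} (hx : x ≠ 0) : 0 < sg x * x := by
  unfold sg
  by_cases h : 0 < x
  · simp [h]
  · simp only [h, if_false]
    have : x < 0 := lt_of_le_of_ne (not_lt.mp h) hx
    linarith

theorem sg_congr {x y : ℝ} (h : 0 < x ↔ 0 < y) : sg x = sg y := by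
  unfold sg
  by_cases hx : 0 < x
  · simp [hx, h.mp hx]
  · have hy : ¬ 0 < y := fun hy => hx (h.mpr hy)
    simp [hx, hy]

end MMDex

open MMDex in
theorem t_MDex (hFlatBasic : StmtFlatBasic) (hKeyFn : StmtKeyFn) (hNotPar : StmtNotPar)
    (hZDet : StmtZDet) (hSide : StmtSide) (hOrderAgree : StmtOrderAgree) : StmtMDex := by
  intro A B C X hA hB hC hX
  choose! u z y c' hG using hX
  -- the sign determinant is not zero
  have hne : ∀ x ∈ X, det3 (x.2.1 - c' x) (z x) (y x) ≠ 0 := by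
    intro x hx h0
    have g := hG x hx
    have h1 := (HF.sign_iff (w := x.2.1 - c' x) (s := z x) (t := y x) (p := u x)
      g.hA.wz g.hB.wz g.hA.wu).2.2.mpr h0
    exact hNotPar A B C x.1 x.2.2 x.2.1 (c' x) (c' x) (u x) (z x) (y x) hA g.hA g.hB h1
  let lab : Fl → Fin 8 := fun x => code (0 < det3 (x.2.1 - c' x) (z x) (y x))
    (SideR A B C x.2.1 (c' x) (z x)) (SideR B A C x.2.1 (c' x) (y x))
  let σ : Fl → ℝ := fun x => sg (det3 (x.2.1 - c' x) (z x) (y x))
  have hsσ : ∀ x ∈ X, ∀ x' ∈ X, Same c' lab x x' → σ x = σ x' := by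
    intro x _ x' _ hs
    exact sg_congr (code_inj hs.2.2).1
  have hσ : ∀ x ∈ X, σ x = 1 ∨ σ x = -1 := fun x _ => sg_cases _
  have hty : ∀ x ∈ X, 0 < σ x * det3 (x.2.1 - c' x) (z x) (y x) := fun x hx => sg_mul (hne x hx)
  have hinj : ∀ x ∈ X, ∀ x' ∈ X, Same c' lab x x' →
      det3 (x.2.1 - c' x) (z x) (z x') = 0 → x = x' := by
    intro x hx x' hx' hs h0
    have g := hG x hx
    have g' := hG x' hx'
    obtain ⟨hs1, hs2, _⟩ := hs
    have gA' := g'.hA
    rw [← hs1, ← hs2] at gA'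
    obtain ⟨key, hkey⟩ := hKeyFn C x.2.1 (c' x) hC g.hA.ne
    have k1 := hkey (z x) (z x') g.hA.cz gA'.cz
    have k2 := hkey (z x') (z x) gA'.cz g.hA.cz
    have e1 : ¬ key (z x) < key (z x') := by
      rw [k1.1, h0]; exact lt_irrefl _
    have e2 : ¬ key (z x') < key (z x) := by
      rw [k2.1, swap23, h0, neg_zero]; exact lt_irrefl _
    have e3 : key (z x) = key (z x') := le_antisymm (not_lt.mp e2) (not_lt.mp e1)
    obtain ⟨k, hk, hzk⟩ := k1.2.mp e3
    obtain ⟨k', hk', huk⟩ := hZDet A B C x.1 x'.1 x.2.1 (c' x) (c' x) (u x) (z x) (u x') (z x') k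
      g.hA gA' hk hzk
    have hb := hFlatBasic A B C x (u x) (Or.inl hA) g.fl
    exact (hb.2.2.2.2.2.2 x' (u x') g'.fl k' hk' huk).symm
  have hag1 : ∀ x ∈ X, ∀ x' ∈ X, Same c' lab x x' →
      0 < σ x * det3 (x.2.1 - c' x) (z x) (z x') →
      0 < σ x * det3 (x.2.1 - c' x) (y x) (y x') := by
    intro x hx x' hx' hs h0
    have g := hG x hx
    have g' := hG x' hx'
    have gA' := g'.hA
    have gB' := g'.hB
    rw [← hs.1, ← hs.2.1] at gA' gB'
    exact hOrderAgree A B C x.1 x.2.2 x'.1 x'.2.2 x.2.1 (c' x) (u x) (z x) (y x) (u x') (z x')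
      (y x') (σ x) hC g.hA g.hB gA' gB' (hσ x hx) (hty x hx) h0
  have hsym : ∀ x x', Same c' lab x x' → Same c' lab x' x :=
    fun x x' hs => ⟨hs.1.symm, hs.2.1.symm, hs.2.2.symm⟩
  refine ⟨u, z, y, c', σ, lab, ?_⟩
  refine ⟨hG, hσ, hty, hsσ, ?_, ?_, hinj, ?_⟩
  · intro x hx x' hx' hs
    have g := hG x hx
    have gA' := (hG x' hx').hA
    have hc := (code_inj hs.2.2).2.1
    rw [← hs.1, ← hs.2.1] at gA' hc
    exact hSide A B C x.1 x'.1 x.2.1 (c' x) (u x) (z x) (u x') (z x') hC g.hA gA' hc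
  · intro x hx x' hx' hs
    have g := hG x hx
    have gB' := (hG x' hx').hB
    have hc := (code_inj hs.2.2).2.2
    rw [← hs.1, ← hs.2.1] at gB' hc
    exact hSide B A C x.2.2 x'.2.2 x.2.1 (c' x) (u x) (y x) (u x') (y x') hC g.hB gB' hc
  · intro x hx x' hx' hs
    refine ⟨hag1 x hx x' hx' hs, fun h0 => ?_⟩
    have hxx : x ≠ x' := by
      rintro rfl
      rw [det_self, mul_zero] at h0
      exact lt_irrefl _ h0
    have hd : det3 (x.2.1 - c' x) (z x) (z x') ≠ 0 := fun h => hxx (hinj x hx x' hx' hs h)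
    rcases lt_trichotomy (σ x * det3 (x.2.1 - c' x) (z x) (z x')) 0 with h | h | h
    · exfalso
      have h1 := hag1 x' hx' x hx (hsym x x' hs)
      rw [← hs.1, ← hs.2.1, ← hsσ x hx x' hx' hs, swap23 _ (z x) (z x'),
        swap23 _ (y x) (y x')] at h1
      have h2 : 0 < σ x * -det3 (x.2.1 - c' x) (z x) (z x') := by
        rw [mul_neg]; linarith
      have h3 := h1 h2
      rw [mul_neg] at h3
      linarith
    · exfalso
      rcases mul_eq_zero.mp h with h1 | h1
      · rcases hσ x hx with h2 | h2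
        · rw [h2] at h1; norm_num at h1
        · rw [h2] at h1; norm_num at h1
      · exact hd h1
    · exact h

end TPH
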