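import Pool.Agent.TPH.St4

/-!
# Three parallel hyperplanes: the bound for main flats
-/

set_option autoImplicit false

namespace TPH

namespace MMainCount

/-- Key functions chosen for every pair of points. -/
theorem keys (hKeyFn : StmtKeyFn) (C : Finset E) (hC : 3 ≤ C.card) :
    ∃ K : E → E → E → ℝ, ∀ c c', c ≠ c' → ∀ s t, Mx C s = {c, c'} → Mx C t = {c, c'} →
      (K c c' s < K c c' t ↔ 0 < det3 (c - c') s t) := by
  classical
  have h : ∀ c c' : E, ∃ key : E → ℝ, c ≠ c' → ∀ s t, Mx C s = {c, c'} → Mx C t = {c, c'} →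
      (key s < key t ↔ 0 < det3 (c - c') s t) := by
    intro c c'
    by_cases hcc : c ≠ c'
    · obtain ⟨key, hk⟩ := hKeyFn C c c' hC hcc
      exact ⟨key, fun _ s t hs ht => (hk s t hs ht).1⟩
    · exact ⟨fun _ => 0, fun h => absurd h hcc⟩
  choose K hK using h
  exact ⟨K, hK⟩

/-- The order by the signed key is the order by the signed determinant. -/
theorem key_iff {σ a b d : ℝ} (hσ : σ = 1 ∨ σ = -1) (h1 : a < b ↔ 0 < d) (h2 : b < a ↔ 0 < -d) :
    σ * a < σ * b ↔ 0 < σ * d := by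
  rcases hσ with rfl | rfl
  · rw [one_mul, one_mul, one_mul]; exact h1
  · rw [neg_one_mul, neg_one_mul, neg_one_mul, neg_lt_neg_iff]; exact h2

/-- Two steps of the same sign on an arc compose. -/
theorem step (hBetween : StmtBetween) {C : Finset E} {c c' p s t : E} {σ : ℝ} (hC : 3 ≤ C.card)
    (hcc : c ≠ c') (hσ : σ = 1 ∨ σ = -1) (hp : Mx C p = {c, c'}) (hs : Mx C s = {c, c'})
    (ht : Mx C t = {c, c'}) (h1 : 0 < σ * det3 (c - c') p s) (h2 : 0 < σ * det3 (c - c') s t) :
    det3 (c - c') p t ≠ 0 := by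
  rcases hσ with rfl | rfl
  · rw [one_mul] at h1 h2
    exact (hBetween C c c' p s t hC hcc hp hs ht h1 h2).1.ne'
  · have e1 : 0 < det3 (c - c') s p := by rw [det3_swap23]; linarith
    have e2 : 0 < det3 (c - c') t s := by rw [det3_swap23]; linarith
    have h3 := (hBetween C c c' t s p hC hcc ht hs hp e2 e1).1
    intro h0
    rw [det3_swap23, h0] at h3
    simp at h3

/-- The number of classes. -/
theorem classes {C : Finset E} (I : Finset (E × E × Fin 8))
    (h : ∀ p ∈ I, p.1 ≠ p.2.1 ∧ ({p.1, p.2.1} : Finset E) ∈ Ed C) :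
    I.card ≤ 16 * (Ed C).card := by
  classical
  let T : Finset (E × E) := (Ed C).biUnion (fun g => g.offDiag)
  have hT : T.card ≤ (Ed C).card * 2 := by
    refine Finset.card_biUnion_le_card_mul _ _ _ (fun g hg => ?_)
    rw [Finset.offDiag_card, (mem_Ed.mp hg).1]
  let S : Finset ((E × E) × Fin 8) := T ×ˢ (Finset.univ : Finset (Fin 8))
  have hS : S.card = T.card * 8 := by
    rw [Finset.card_product, Finset.card_univ, Fintype.card_fin]
  have hsub : I ⊆ S.image (fun q => (q.1.1, q.1.2, q.2)) := by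
    intro p hp
    obtain ⟨h1, h2⟩ := h p hp
    refine Finset.mem_image.mpr ⟨((p.1, p.2.1), p.2.2), ?_, rfl⟩
    refine Finset.mem_product.mpr ⟨Finset.mem_biUnion.mpr ⟨_, h2, ?_⟩, Finset.mem_univ _⟩
    rw [Finset.mem_offDiag]
    exact ⟨Finset.mem_insert_self _ _, Finset.mem_insert_of_mem (Finset.mem_singleton_self _), h1⟩
  have h3 := Finset.card_le_card hsub
  have h4 : (S.image (fun q => (q.1.1, q.1.2, q.2))).card ≤ S.card := Finset.card_image_le
  omega

theorem BdA_sub {A B : Finset E} {X : Finset Fl} {u z c' : Fl → E} {σ : Fl → ℝ}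
    {lab : Fl → Fin 8} : BdA A B X u z c' σ lab ⊆ X := by
  unfold BdA
  exact @Finset.filter_subset _ _ (Classical.decPred _) _

end MMainCount

open MMainCount in
theorem t_MainCount (hAbstract : StmtAbstract) (hKeyFn : StmtKeyFn) (hBetween : StmtBetween)
    (hMainMult : StmtMainMult) (hMDex : StmtMDex) (hBadAB : StmtBadAB)
    (hCrossTri : StmtCrossTri) : StmtMainCount := by
  classical
  intro A B C X hA hB hC hX
  obtain ⟨u, z, y, c', σ, lab, md⟩ := hMDex A B C X hA hB hC hX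
  obtain ⟨K, hK⟩ := keys hKeyFn C hC
  obtain ⟨hb1, hb2⟩ := hBadAB A B C X u z y c' σ lab hA hB hC md
  let key : Fl → ℝ := fun x => σ x * K x.2.1 (c' x) (z x)
  let cls : Fl → E × E × Fin 8 := fun x => (x.2.1, c' x, lab x)
  have hcls : ∀ x x' : Fl, cls x = cls x' ↔ Same c' lab x x' := by
    intro x x'
    constructor
    · intro h
      have h' := Prod.mk.inj h
      have h'' := Prod.mk.inj h'.2
      exact ⟨h'.1, h''.1, h''.2⟩
    · rintro ⟨h1, h2, h3⟩
      exact Prod.ext h1 (Prod.ext h2 h3)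
  have hne : ∀ x ∈ X, x.2.1 ≠ c' x := fun x hx => (md.gd x hx).hA.ne
  have hz : ∀ x ∈ X, Mx C (z x) = {x.2.1, c' x} := fun x hx => (md.gd x hx).hA.cz
  have hy : ∀ x ∈ X, Mx C (y x) = {x.2.1, c' x} := fun x hx => (md.gd x hx).hB.cz
  have hkey : ∀ x ∈ X, ∀ x' ∈ X, Same c' lab x x' →
      (key x < key x' ↔ 0 < σ x * det3 (x.2.1 - c' x) (z x) (z x')) := by
    intro x hx x' hx' hs
    have hz' : Mx C (z x') = {x.2.1, c' x} := by rw [hs.1, hs.2.1]; exact hz x' hx'
    have e : key x' = σ x * K x.2.1 (c' x) (z x') := by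
      show σ x' * K x'.2.1 (c' x') (z x') = _
      rw [← md.sσ x hx x' hx' hs, ← hs.1, ← hs.2.1]
    rw [e]
    refine key_iff (md.sg x hx) (hK _ _ (hne x hx) _ _ (hz x hx) hz') ?_
    rw [← det3_swap23]
    exact hK _ _ (hne x hx) _ _ hz' (hz x hx)
  have hsym : ∀ x x' : Fl, Same c' lab x x' → Same c' lab x' x :=
    fun x x' h => ⟨h.1.symm, h.2.1.symm, h.2.2.symm⟩
  let Bd : Finset Fl := BdA A B X u z c' σ lab ∪ BdA B A X u y c' σ lab
  let P : Finset (Fl × Fl) := (X ×ˢ X).filter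
    (fun p => cls p.1 = cls p.2 ∧ key p.1 < key p.2 ∧ Crs A B p.1 p.2)
  have hBd : ∀ k ∈ Bd, k ∈ X ∧ (k ∈ BdA A B X u z c' σ lab ∨ k ∈ BdA B A X u y c' σ lab) := by
    intro k hk
    have hk' := Finset.mem_union.mp hk
    refine ⟨?_, hk'⟩
    rcases hk' with h | h
    · exact BdA_sub h
    · exact BdA_sub h
  -- the abstract counting lemma
  have main := hAbstract Fl (E × E × Fin 8) X Bd cls key (Crs A B) P
    (by
      intro x hx x' hx' hc hk
      have hs := (hcls x x').mp hc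
      have hs' := hsym x x' hs
      have n1 : ¬ 0 < σ x * det3 (x.2.1 - c' x) (z x) (z x') := by
        rw [← hkey x hx x' hx' hs, hk]; exact lt_irrefl _
      have n2 : ¬ 0 < σ x' * det3 (x'.2.1 - c' x') (z x') (z x) := by
        rw [← hkey x' hx' x hx hs', hk]; exact lt_irrefl _
      rw [← md.sσ x hx x' hx' hs, ← hs.1, ← hs.2.1, det3_swap23] at n2
      refine md.inj x hx x' hx' hs ?_
      rcases md.sg x hx with h | h
      · rw [h] at n1 n2; linarith
      · rw [h] at n1 n2; linarith)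
    (by
      intro x hx x' hx' x'' hx'' hc hc' hk hk' hB'
      have hs := (hcls x x').mp hc
      have hs' := (hcls x' x'').mp hc'
      have h1 := (hkey x hx x' hx' hs).mp hk
      have h2 := (hkey x' hx' x'' hx'' hs').mp hk'
      rw [← md.sσ x hx x' hx' hs, ← hs.1, ← hs.2.1] at h2
      refine hCrossTri A B C X u z y c' σ lab x x' x'' hA hB hC md hx hx' hx'' hs hs' h1 h2 ?_
      intro k hkX hkB hxk hor h3
      refine hB' k (Finset.mem_union.mpr hkB) ((hcls k x).mpr (hsym x k hxk)) ?_ ?_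
      · rcases hor with rfl | hor
        · exact le_refl _
        · exact ((hkey x hx k hkX hxk).mpr hor).le
      · have hkx'' : Same c' lab k x'' :=
          ⟨hxk.1.symm.trans (hs.1.trans hs'.1), hxk.2.1.symm.trans (hs.2.1.trans hs'.2.1),
            hxk.2.2.symm.trans (hs.2.2.trans hs'.2.2)⟩
        refine (hkey k hkX x'' hx'' hkx'').mpr ?_
        rw [← md.sσ x hx k hkX hxk, ← hxk.1, ← hxk.2.1]
        exact h3)
    (by
      intro x hx x' hx' hc hk hcr
      exact Finset.mem_filter.mpr ⟨Finset.mem_product.mpr ⟨hx, hx'⟩, hc, hk, hcr⟩)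
  -- multiplicities
  have hP : P.card ≤ 4 * ((Ed A).card * (Ed B).card) := by
    refine hMainMult A B C P hA hB ?_
    rintro ⟨x, x'⟩ hp
    obtain ⟨hpX, hc, hk, r, hr, hr1, hr2⟩ := Finset.mem_filter.mp hp
    obtain ⟨hx, hx'⟩ := Finset.mem_product.mp hpX
    simp only at hx hx' hc hk hr hr1 hr2 ⊢
    have hs := (hcls x x').mp hc
    have gx := md.gd x hx
    have gx' := md.gd x' hx'
    have hr' : InR A B x'.2.1 r := by rw [← hs.1]; exact hr
    refine ⟨mem_flats.mpr ⟨_, gx.fl⟩, mem_flats.mpr ⟨_, gx'.fl⟩, r, hr, hr',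
      gx.hA.full r hr hr1, gx'.hB.full r (inR_comm.mp hr') hr2, z x, gx.hA.perp_z, ?_⟩
    intro hperp
    have h1 := (hkey x hx x' hx' hs).mp hk
    have h2 := (md.ag x hx x' hx' hs).mp h1
    have hz' : Mx C (y x') = {x.2.1, c' x} := by rw [hs.1, hs.2.1]; exact hy x' hx'
    have h3 := step hBetween hC (hne x hx) (md.sg x hx) (hz x hx) (hy x hx) hz' (md.ty x hx) h2
    have h4 := (gx'.hB.perp_iff (z x)).mp hperp
    have w1 : ip (x'.2.1 - c' x') (z x) = 0 := by rw [← hs.1, ← hs.2.1]; exact gx.hA.wz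
    have h5 := (HF.sign_iff gx'.hB.wz w1 gx'.hB.wu).2.2.mp h4
    rw [← hs.1, ← hs.2.1, det3_swap23, neg_eq_zero] at h5
    exact h3 h5
  have hI : (X.image cls).card ≤ 16 * (Ed C).card := by
    refine classes _ (fun p hp => ?_)
    obtain ⟨x, hx, rfl⟩ := Finset.mem_image.mp hp
    refine ⟨hne x hx, mem_Ed.mpr ⟨Finset.card_pair (hne x hx), z x, hz x hx⟩⟩
  have hBc : Bd.card ≤ 8 * spSum A C + 8 * spSum B C :=
    (Finset.card_union_le _ _).trans (add_le_add hb1 hb2)
  refine main.trans ?_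
  exact Nat.mul_le_mul (Nat.mul_le_mul_left _ (add_le_add hI hBc)) (Nat.add_le_add_right hP _)

end TPH
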