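import Pool.Agent.TPH.St4

/-!
# Three parallel hyperplanes: multiplicity of crossings of main flats
-/

namespace TPH

namespace MMainMult

theorem flat_swap {A B C : Finset E} {x : Fl} {u : E} (h : IsFlat A B C x u) :
    IsFlat B A C (x.2.2, x.2.1, x.1) u := by
  obtain ⟨h1, h2, h3, h4, h5, h6, h7⟩ := h
  refine ⟨h2, h1, h5, h4, h3, fun b hb a ha => ?_, fun v hv1 hv2 hv3 => ?_⟩
  · rw [add_comm]; exact h6 a ha b hb
  · exact h7 v hv2 hv1 fun a ha b hb => by rw [add_comm]; exact hv3 b hb a ha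

theorem ne_zero {A e : Finset E} {t : E} (hA : 3 ≤ A.card) (he : e.card = 2) (h : Mx A t = e) :
    t ≠ 0 := by
  rintro rfl
  rw [Mx_zero] at h
  rw [h] at hA
  omega

/-- Two edges which are not parallel determine the exposing ray. -/
theorem same_ray {A B e f : Finset E} {t t' v : E} (hA : 3 ≤ A.card) (he : e.card = 2)
    (hf : f.card = 2) (h1 : Mx A t = e) (h1' : Mx A t' = e) (h2 : Mx B t = f) (h2' : Mx B t' = f)
    (hv : Perp e v) (hv' : ¬ Perp f v) : ∃ κ : ℝ, 0 < κ ∧ t' = κ • t := by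
  have ht0 := ne_zero hA he h1
  have ht0' := ne_zero hA he h1'
  obtain ⟨a, a', haa, hea⟩ := Finset.card_eq_two.mp he
  obtain ⟨b, b', hbb, hfb⟩ := Finset.card_eq_two.mp hf
  have hma : a ∈ e := by rw [hea]; simp
  have hma' : a' ∈ e := by rw [hea]; simp
  have hmb : b ∈ f := by rw [hfb]; simp
  have hmb' : b' ∈ f := by rw [hfb]; simp
  have hcr : cr (a - a') (b - b') ≠ 0 := by
    intro h0
    obtain ⟨k, hk⟩ := par_of_cr (sub_ne_zero.mpr haa) h0
    apply hv'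
    have h3 : ip (b - b') v = 0 := by
      rw [hk, ip_smul_left, ip_sub_left, hv a hma a' hma', sub_self, mul_zero]
    rw [ip_sub_left] at h3
    have h4 : ip b v = ip b' v := by linarith
    intro x hx y hy
    rw [hfb, Finset.mem_insert, Finset.mem_singleton] at hx hy
    rcases hx with rfl | rfl <;> rcases hy with rfl | rfl
    · rfl
    · exact h4
    · exact h4.symm
    · rfl
  have hperp : ∀ s, Mx A s = e → Mx B s = f → ∃ k : ℝ, s = k • cr (a - a') (b - b') := by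
    intro s hs1 hs2
    apply par_cr_of_ip hcr
    · rw [ip_comm, ip_sub_left, Mx_eq (A := A) (u := s) (hs1 ▸ hma) (hs1 ▸ hma'), sub_self]
    · rw [ip_comm, ip_sub_left, Mx_eq (A := B) (u := s) (hs2 ▸ hmb) (hs2 ▸ hmb'), sub_self]
  obtain ⟨k, hk⟩ := hperp t h1 h2
  obtain ⟨k', hk'⟩ := hperp t' h1' h2'
  have hk0 : k ≠ 0 := by
    rintro rfl
    exact ht0 (by rw [hk, zero_smul])
  have hk0' : k' ≠ 0 := by
    rintro rfl
    exact ht0' (by rw [hk', zero_smul])
  have hκ : t' = (k' / k) • t := by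
    rw [hk, hk', smul_smul, div_mul_cancel₀ _ hk0]
  refine ⟨k' / k, ?_, hκ⟩
  have hne : k' / k ≠ 0 := div_ne_zero hk0' hk0
  rcases hne.lt_or_gt with hlt | hgt
  · exfalso
    obtain ⟨x, hx, hxe⟩ : ∃ x ∈ A, x ∉ e := by
      by_contra hcon
      push Not at hcon
      have := Finset.card_le_card hcon
      omega
    have h3 := Mx_lt (A := A) (u := t) (h1 ▸ hma) hx (h1 ▸ hxe)
    have h4 := Mx_lt (A := A) (u := t') (h1' ▸ hma) hx (h1' ▸ hxe)
    rw [hκ, ip_smul_right, ip_smul_right] at h4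
    nlinarith
  · exact hgt

theorem det_ne (hFB : StmtFlatBasic) {A B C : Finset E} {x : Fl} {u t a a' : E}
    (hA : 3 ≤ A.card) (hx : IsFlat A B C x u) (he : x.1 = {a, a'}) (hne : a ≠ a')
    (ht : Mx A t = {a, a'}) (hR : InR A B x.2.1 t) : det3 (a - a') t u ≠ 0 := by
  intro h0
  obtain ⟨-, hout, -, hu0, -⟩ := hFB A B C x u (Or.inl hA) hx
  have ht0 : t ≠ 0 := ne_zero hA (Finset.card_pair hne) ht
  have h1 : ip (a - a') t = 0 := by
    rw [ip_sub_left, Mx_eq (A := A) (u := t) (a := a) (a' := a') (by rw [ht]; simp)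
      (by rw [ht]; simp), sub_self]
  have hAu : Mx A u = {a, a'} := by rw [hx.2.2.1, he]
  have h2 : ip (a - a') u = 0 := by
    rw [ip_sub_left, Mx_eq (A := A) (u := u) (a := a) (a' := a') (by rw [hAu]; simp)
      (by rw [hAu]; simp), sub_self]
  by_cases hc : cr t u = 0
  · obtain ⟨k, hk⟩ := par_of_cr ht0 hc
    have hk0 : k ≠ 0 := by
      rintro rfl
      exact hu0 (by rw [hk, zero_smul])
    apply hout k⁻¹
    rw [hk, smul_smul, inv_mul_cancel₀ hk0, one_smul]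
    exact hR
  · obtain ⟨k, hk⟩ := par_cr_of_ip hc h1 h2
    have hk0 : k ≠ 0 := by
      rintro rfl
      exact hne (sub_eq_zero.mp (by rw [hk, zero_smul]))
    rw [hk, det3_smul1, ← det3_cyc, ← ip_cr] at h0
    rcases mul_eq_zero.mp h0 with h | h
    · exact hk0 h
    · exact (ip_self_pos hc).ne' h

theorem inj1 (hFB : StmtFlatBasic) (hFE : StmtFirstExit) {A B C : Finset E} {x x' : Fl}
    {u u' t a a' : E} (hA : 3 ≤ A.card) (hx : IsFlat A B C x u) (hx' : IsFlat A B C x' u')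
    (he : x.1 = {a, a'}) (he' : x'.1 = {a, a'}) (hne : a ≠ a') (ht : Mx A t = {a, a'})
    (hR : InR A B x.2.1 t) (hR' : InR A B x'.2.1 t)
    (hs : 0 < det3 (a - a') t u ↔ 0 < det3 (a - a') t u') : x = x' := by
  have h1 := det_ne hFB hA hx he hne ht hR
  have h2 := det_ne hFB hA hx' he' hne ht hR'
  refine hFE A B C x x' u u' t a a' hA hx hx' he he' hne (ht ▸ perp_Mx A t) hR hR' ?_
  rcases h1.lt_or_gt with h | h
  · rcases h2.lt_or_gt with h' | h'
    · exact mul_pos_of_neg_of_neg h h'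
    · exact absurd (hs.mpr h') (not_lt.mpr h.le)
  · exact mul_pos h (hs.mp h)

end MMainMult

open MMainMult

theorem t_MainMult (hFlatBasic : StmtFlatBasic) (hFirstExit : StmtFirstExit) : StmtMainMult := by
  classical
  intro A B C P hA hB hP
  have hcard : ∀ p ∈ P, p.1.1.card = 2 ∧ p.2.2.2.card = 2 := by
    intro p hp
    obtain ⟨h1, h2, -⟩ := hP p hp
    obtain ⟨u, hu⟩ := mem_flats.mp h1
    obtain ⟨w, hw⟩ := mem_flats.mp h2
    exact ⟨hu.1, hw.2.1⟩
  rw [← Finset.card_product]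
  refine Finset.card_le_mul_card_image_of_maps_to (f := fun p : Fl × Fl => (p.1.1, p.2.2.2))
    (fun p hp => ?_) 4 ?_
  · obtain ⟨-, -, t, -, -, h3, h4, -⟩ := hP p hp
    exact Finset.mem_product.mpr ⟨mem_Ed.mpr ⟨(hcard p hp).1, t, h3⟩,
      mem_Ed.mpr ⟨(hcard p hp).2, t, h4⟩⟩
  rintro ⟨e, f⟩ -
  rcases (P.filter fun p => (p.1.1, p.2.2.2) = (e, f)).eq_empty_or_nonempty with h0 | ⟨p₀, hp₀⟩
  · rw [h0]; simp
  rw [Finset.mem_filter, Prod.mk.injEq] at hp₀
  obtain ⟨hp₀P, he₀, hf₀⟩ := hp₀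
  obtain ⟨-, -, t, -, -, htA, htB, v, hv, hv'⟩ := hP p₀ hp₀P
  have hce : e.card = 2 := he₀ ▸ (hcard p₀ hp₀P).1
  have hcf : f.card = 2 := hf₀ ▸ (hcard p₀ hp₀P).2
  rw [he₀] at htA hv
  rw [hf₀] at htB hv'
  obtain ⟨a, a', haa, hea⟩ := Finset.card_eq_two.mp hce
  obtain ⟨b, b', hbb, hfb⟩ := Finset.card_eq_two.mp hcf
  -- data for each member of the fibre
  have hdat : ∀ p : Fl × Fl, ∃ u w : E, p ∈ P → p.1.1 = e → p.2.2.2 = f →
      IsFlat A B C p.1 u ∧ IsFlat A B C p.2 w ∧ InR A B p.1.2.1 t ∧ InR A B p.2.2.1 t := by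
    intro p
    by_cases hp : p ∈ P ∧ p.1.1 = e ∧ p.2.2.2 = f
    · obtain ⟨hpP, hpe, hpf⟩ := hp
      obtain ⟨h1, h2, s, hs1, hs2, hsA, hsB, -⟩ := hP p hpP
      obtain ⟨u, hu⟩ := mem_flats.mp h1
      obtain ⟨w, hw⟩ := mem_flats.mp h2
      rw [hpe] at hsA
      rw [hpf] at hsB
      obtain ⟨κ, hκ, hst⟩ := same_ray hA hce hcf hsA htA hsB htB hv hv'
      refine ⟨u, w, fun _ _ _ => ⟨hu, hw, ?_, ?_⟩⟩
      · rw [hst]; exact hs1.smul hκ
      · rw [hst]; exact hs2.smul hκ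
    · exact ⟨0, 0, fun h1 h2 h3 => absurd ⟨h1, h2, h3⟩ hp⟩
  choose u w huw using hdat
  have hle : (P.filter fun p => (p.1.1, p.2.2.2) = (e, f)).card ≤
      (Finset.univ : Finset (Bool × Bool)).card := by
    refine Finset.card_le_card_of_injOn
      (fun p => (decide (0 < det3 (a - a') t (u p)), decide (0 < det3 (b - b') t (w p))))
      (fun _ _ => Finset.mem_coe.mpr (Finset.mem_univ _)) ?_
    intro p hp q hq hpq
    rw [Finset.mem_coe, Finset.mem_filter, Prod.mk.injEq] at hp hq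
    obtain ⟨hpP, hpe, hpf⟩ := hp
    obtain ⟨hqP, hqe, hqf⟩ := hq
    obtain ⟨p1, p2, p3, p4⟩ := huw p hpP hpe hpf
    obtain ⟨q1, q2, q3, q4⟩ := huw q hqP hqe hqf
    simp only [Prod.mk.injEq, decide_eq_decide] at hpq
    obtain ⟨hpq1, hpq2⟩ := hpq
    have h1 : p.1 = q.1 := inj1 hFlatBasic hFirstExit hA p1 q1 (hpe.trans hea) (hqe.trans hea) haa
      (htA.trans hea) p3 q3 hpq1
    have h2 := inj1 hFlatBasic hFirstExit (A := B) (B := A) (C := C) (t := t) (a := b) (a' := b')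
      hB (flat_swap p2) (flat_swap q2)
      (hpf.trans hfb) (hqf.trans hfb) hbb (htB.trans hfb) (inR_comm.mp p4) (inR_comm.mp q4) hpq2
    have h3 : p.2 = q.2 := by
      simp only [Prod.mk.injEq] at h2
      obtain ⟨h3, h4, h5⟩ := h2
      exact Prod.ext h5 (Prod.ext h4 h3)
    exact Prod.ext h1 h3
  exact hle

end TPH
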