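import Pool.Agent.TPH.St3

/-!
# Three parallel hyperplanes: the walk of one gap does not cross the arc of another gap
-/

namespace TPH

theorem t_NoTie (hSegZ : StmtSegZ) (hIntIn : StmtIntIn) : StmtNoTie := by
  intro A B C e₁ e₂ g₁ g₂ c c' u₁ z₁ u₂ z₂ d d' v₁ w₁ v₂ w₂ a q' w α β α' β' γ hC G₁ G₂ hα hβ hMx
    hα' hβ' hγ hq' hL hw haw hCw
  obtain ⟨α₀, β₀, hα₀, hβ₀, hw₀, -⟩ := hIntIn A B C e₁ e₂ c c' u₁ z₁ u₂ z₂ a w α β hC G₁.h₁ G₁.h₂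
    G₁.pos hα hβ hMx hCw haw
  have hmiss : ¬ InR A B c w := hw₀ ▸ G₁.miss α₀ β₀ hα₀ hβ₀
  obtain ⟨-, hseg⟩ := hSegZ A B C g₁ g₂ d d' v₁ w₁ v₂ w₂ q' G₂.h₁ G₂.h₂ G₂.pos G₂.miss hq' hL
  have hor := hseg α' β' γ hα' hβ' hγ
  rw [← hw] at hor
  rcases hor with h | h
  · apply hmiss
    intro a₁ ha₁ b₁ hb₁
    have h1 := h a₁ ha₁ b₁ hb₁
    have hcw : c ∈ Mx C w := by rw [hCw]; simp
    have h2 := Mx_le hcw G₂.h₁.c_mem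
    linarith
  · have h1 : c ∈ ({d} : Finset E) := by rw [← h, hCw]; simp
    have h2 : c' ∈ ({d} : Finset E) := by rw [← h, hCw]; simp
    rw [Finset.mem_singleton] at h1 h2
    exact G₁.h₁.ne (h1.trans h2.symm)

end TPH
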