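import Pool.Agent.TPH.St1

set_option autoImplicit false

/-!
# Three parallel hyperplanes: points in convex position are not collinear
-/

namespace TPH

namespace MNonCol

/-- The point exposed by `u` beats the other points strictly. -/
theorem exposed {A : Finset E} {a b u : E} (h : Mx A u = {a}) (hb : b ∈ A) (hne : b ≠ a) :
    0 < ip (a - b) u := by
  have ha : a ∈ Mx A u := by rw [h]; exact Finset.mem_singleton_self a
  have hb' : b ∉ Mx A u := by
    rw [h, Finset.mem_singleton]
    exact hne
  have := Mx_lt ha hb hb'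
  rw [ip_sub_left]
  linarith

theorem not_col {A : Finset E} {a b c : E} (hA : ConvPos A) (ha : a ∈ A) (hb : b ∈ A)
    (hc : c ∈ A) (hab : a ≠ b) (hac : a ≠ c) (hbc : b ≠ c) : cr (a - b) (a - c) ≠ 0 := by
  intro h
  have hd : a - b ≠ 0 := sub_ne_zero.mpr hab
  obtain ⟨k, hk⟩ := par_of_cr hd h
  obtain ⟨ua, hua⟩ := hA a ha
  obtain ⟨ub, hub⟩ := hA b hb
  obtain ⟨uc, huc⟩ := hA c hc
  have hkv : ∀ v, ip (a - c) v = k * ip (a - b) v := by
    intro v
    rw [hk, ip_smul_left]
  have h1 := exposed hua hb hab.symm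
  have h2 := exposed hua hc hac.symm
  rw [hkv] at h2
  have hk0 : 0 < k := by
    by_contra hcon
    push Not at hcon
    nlinarith
  have h3 := exposed hub ha hab
  have h4 := exposed hub hc hbc.symm
  have h5 := exposed huc ha hac
  have h6 := exposed huc hb hbc
  have e3 : ip (b - a) ub = -ip (a - b) ub := by
    rw [ip_sub_left, ip_sub_left]; ring
  have e4 : ip (b - c) ub = (k - 1) * ip (a - b) ub := by
    have := hkv ub
    rw [ip_sub_left, ip_sub_left] at this
    rw [ip_sub_left, ip_sub_left]
    linarith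
  have e5 : ip (c - a) uc = -(k * ip (a - b) uc) := by
    rw [← hkv, ip_sub_left, ip_sub_left]; ring
  have e6 : ip (c - b) uc = -((k - 1) * ip (a - b) uc) := by
    have := hkv uc
    rw [ip_sub_left, ip_sub_left] at this
    rw [ip_sub_left, ip_sub_left]
    linarith
  rw [e3] at h3
  rw [e4] at h4
  rw [e5] at h5
  rw [e6] at h6
  have hk1 : k < 1 := by
    by_contra hcon
    push Not at hcon
    nlinarith
  have h7 : ip (a - b) uc < 0 := by
    by_contra hcon
    push Not at hcon
    nlinarith
  nlinarith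

end MNonCol

theorem t_NonCol : StmtNonCol := by
  intro A a b c u u' hA ha hb hc hab hac hbc hu hp hp'
  have hcr := MNonCol.not_col hA ha hb hc hab hac hbc
  have key : ∀ v, Perp {a, b, c} v → ∃ k : ℝ, v = k • cr (a - b) (a - c) := by
    intro v hv
    refine par_cr_of_ip hcr ?_ ?_
    · rw [ip_comm, ip_sub_left, hv a (by simp) b (by simp), sub_self]
    · rw [ip_comm, ip_sub_left, hv a (by simp) c (by simp), sub_self]
  obtain ⟨k, hk⟩ := key u hp
  obtain ⟨k', hk'⟩ := key u' hp'
  have hk0 : k ≠ 0 := by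
    rintro rfl
    apply hu
    rw [hk, zero_smul]
  refine ⟨k' / k, ?_⟩
  rw [hk', hk, smul_smul, div_mul_cancel₀ _ hk0]

end TPH
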