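import Pool.Agent.TPH.St3

/-!
# Three parallel hyperplanes: the edges of a good flat are not parallel
-/

set_option autoImplicit false

namespace TPH

namespace MNotPar

theorem perp_iff_perp {A B C e f : Finset E} {c c₁ c₂ u z y : E} (h : HF A B C e c c₁ u z)
    (h' : HF B A C f c c₂ u y) (hd : det3 z y u = 0) (v : E) : Perp e v ↔ Perp f v := by
  obtain ⟨α, β, hy⟩ := h.comb ((h.perp_iff y).mpr hd)
  have hβ : β ≠ 0 := by
    rintro rfl
    apply h'.cr_ne
    rw [hy, zero_smul, add_zero]
    funext i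
    fin_cases i <;> simp [cr] <;> ring
  have hdet : det3 y v u = β * det3 z v u := by
    rw [hy, det3_add1, det3_smul1, det3_smul1, det3_self13, mul_zero, zero_add]
  rw [h.perp_iff, h'.perp_iff, hdet]
  constructor
  · intro h0
    rw [h0, mul_zero]
  · intro h0
    exact (mul_eq_zero.mp h0).resolve_left hβ

end MNotPar

open MNotPar in
theorem t_NotPar (hEscape : StmtEscape) : StmtNotPar := by
  intro A B C e f c c₁ c₂ u z y hA h h' hd
  have hiff := perp_iff_perp h h' hd
  obtain ⟨b, hb⟩ := h'.e_ne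
  have hbu : b ∈ Mx B u := by
    rw [h'.eu]
    exact hb
  obtain ⟨a, ha⟩ := h.e_ne
  have hfz : Perp f z := (hiff z).mp h.perp_z
  refine hEscape A B C e c c₁ u z (ip b z) hA h ?_ ⟨a, ha, h.beyond ha hbu⟩
  intro v hv hpv b' hb'
  have hB : Mx B v = f := h'.full v (inR_comm.mp hv) ((hiff v).mp hpv)
  rw [hB] at hb'
  exact (hfz b hb b' hb').le

end TPH
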