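import Pool.Agent.TPH.St1

/-!
# Three parallel hyperplanes: the number of cells with a degenerate corner
-/

set_option autoImplicit false

namespace TPH

namespace MOCount

/-- The faces of `D` exposed by pairwise non-proportional (positively) vectors. -/
theorem fib_card (hNC : StmtNonCol) (D : Finset E) (hD : ConvPos D) (R : Finset E)
    (h0 : ∀ v ∈ R, v ≠ 0)
    (h1 : ∀ v ∈ R, ∀ v' ∈ R, ∀ κ : ℝ, 0 < κ → v' = κ • v → v' = v) (G : Finset E)
    (hG : 3 ≤ G.card) (hR : ∀ v ∈ R, Mx D v = G) : R.card ≤ 2 := by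
  by_contra hc
  have hc' : 2 < R.card := by omega
  obtain ⟨v1, v2, v3, hv1, hv2, hv3, h12, h13, h23⟩ := Finset.two_lt_card_iff.mp hc'
  obtain ⟨a, b, c, ha, hb, hcG, hab, hac, hbc⟩ := Finset.two_lt_card_iff.mp (by omega : 2 < G.card)
  have hGD : G ⊆ D := by
    rw [← hR v1 hv1]
    exact Mx_subset _ _
  have hsub : ({a, b, c} : Finset E) ⊆ G := by
    intro x hx
    simp only [Finset.mem_insert, Finset.mem_singleton] at hx
    rcases hx with rfl | rfl | rfl
    · exact ha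
    · exact hb
    · exact hcG
  have hperp : ∀ v ∈ R, Perp {a, b, c} v := by
    intro v hv
    have h2 := perp_Mx D v
    rw [hR v hv] at h2
    exact h2.mono hsub
  have key : ∀ v ∈ R, ∀ v' ∈ R, v' ≠ v → ∃ κ : ℝ, κ < 0 ∧ v' = κ • v := by
    intro v hv v' hv' hne
    obtain ⟨κ, hκ⟩ := hNC D a b c v v' hD (hGD ha) (hGD hb) (hGD hcG) hab hac hbc (h0 v hv)
      (hperp v hv) (hperp v' hv')
    refine ⟨κ, ?_, hκ⟩
    by_contra hn
    rcases (not_lt.mp hn).lt_or_eq with h | h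
    · exact hne (h1 v hv v' hv' κ h hκ)
    · apply h0 v' hv'
      rw [hκ, ← h, zero_smul]
  obtain ⟨κ, hκ0, hκ⟩ := key v1 hv1 v2 hv2 h12.symm
  obtain ⟨κ', hκ0', hκ'⟩ := key v1 hv1 v3 hv3 h13.symm
  apply h23
  symm
  refine h1 v2 hv2 v3 hv3 (κ' / κ) (div_pos_of_neg_of_neg hκ0' hκ0) ?_
  rw [hκ, hκ', smul_smul, div_mul_cancel₀ _ hκ0.ne]

/-- The sum of the sizes of the faces exposed by the vectors of `R`. -/
theorem fib_sum (hNC : StmtNonCol) (D : Finset E) (hD : ConvPos D) (R : Finset E)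
    (h0 : ∀ v ∈ R, v ≠ 0)
    (h1 : ∀ v ∈ R, ∀ v' ∈ R, ∀ κ : ℝ, 0 < κ → v' = κ • v → v' = v)
    (h3 : ∀ v ∈ R, 3 ≤ (Mx D v).card) :
    ∑ v ∈ R, (Mx D v).card ≤ 2 * ∑ G ∈ Faces D, G.card := by
  classical
  have hmap : ∀ v ∈ R, Mx D v ∈ Faces D := fun v hv => mem_Faces.mpr ⟨h3 v hv, v, h0 v hv, rfl⟩
  rw [← Finset.sum_fiberwise_of_maps_to hmap, Finset.mul_sum]
  refine Finset.sum_le_sum fun G hG => ?_
  have hc : (R.filter fun v => Mx D v = G).card ≤ 2 := by
    refine fib_card hNC D hD _ ?_ ?_ G (mem_Faces.mp hG).1 ?_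
    · intro v hv
      exact h0 v (Finset.mem_filter.mp hv).1
    · intro v hv v' hv'
      exact h1 v (Finset.mem_filter.mp hv).1 v' (Finset.mem_filter.mp hv').1
    · intro v hv
      exact (Finset.mem_filter.mp hv).2
  calc ∑ v ∈ R.filter (fun v => Mx D v = G), (Mx D v).card
      = ∑ v ∈ R.filter (fun v => Mx D v = G), G.card :=
        Finset.sum_congr rfl fun v hv => by rw [(Finset.mem_filter.mp hv).2]
    _ = (R.filter fun v => Mx D v = G).card * G.card := by
        rw [Finset.sum_const, smul_eq_mul]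
    _ ≤ 2 * G.card := Nat.mul_le_mul_right _ hc

/-- Scaling a nonzero vector to length one. -/
theorem exists_unit {u : E} (hu : u ≠ 0) : ∃ k : ℝ, 0 < k ∧ ip (k • u) (k • u) = 1 := by
  have hp := ip_self_pos hu
  refine ⟨(Real.sqrt (ip u u))⁻¹, inv_pos.mpr (Real.sqrt_pos.mpr hp), ?_⟩
  rw [ip_smul_left, ip_smul_right]
  have hs := Real.mul_self_sqrt hp.le
  have hne : Real.sqrt (ip u u) ≠ 0 := (Real.sqrt_pos.mpr hp).ne'
  field_simp
  nlinarith [hs]

theorem half (hNC : StmtNonCol) (hPS : StmtPolySum) (hEL : StmtEdgeLin) (A C : Finset E)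
    (hA : ConvPos A) (hC : ConvPos C) (S : Finset (E × E)) (hS : ∀ p ∈ S, p ∈ Fc A C ∧
      ∃ ρ : E, ρ ≠ 0 ∧ p.1 ∈ Mx A ρ ∧ p.2 ∈ Mx C ρ ∧ 3 ≤ (Mx A ρ).card) :
    S.card ≤ 20 * (A.card + C.card) := by
  classical
  have hch : ∀ G : Finset E, ∃ v : E, G ∈ Faces A → ip v v = 1 ∧ Mx A v = G := by
    intro G
    by_cases hG : G ∈ Faces A
    · obtain ⟨-, u, hu, hMu⟩ := mem_Faces.mp hG
      obtain ⟨k, hk, h1⟩ := exists_unit hu
      refine ⟨k • u, fun _ => ⟨h1, ?_⟩⟩
      rw [Mx_smul hk, hMu]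
    · exact ⟨0, fun h => absurd h hG⟩
  choose r hr using hch
  set R : Finset E := ((Faces A).image r ∪ (Faces A).image fun G => -r G).filter
    (fun v => 3 ≤ (Mx A v).card) with hRdef
  have hunit : ∀ v ∈ R, ip v v = 1 := by
    intro v hv
    rw [hRdef, Finset.mem_filter, Finset.mem_union, Finset.mem_image, Finset.mem_image] at hv
    rcases hv.1 with ⟨G, hG, rfl⟩ | ⟨G, hG, rfl⟩
    · exact (hr G hG).1
    · rw [ip_neg_left, ip_neg_right, neg_neg]
      exact (hr G hG).1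
  have h0 : ∀ v ∈ R, v ≠ 0 := by
    rintro v hv rfl
    have := hunit 0 hv
    rw [ip_zero_left] at this
    exact zero_ne_one this
  have h1 : ∀ v ∈ R, ∀ v' ∈ R, ∀ κ : ℝ, 0 < κ → v' = κ • v → v' = v := by
    intro v hv v' hv' κ hκ he
    have e1 := hunit v hv
    have e2 := hunit v' hv'
    rw [he, ip_smul_left, ip_smul_right, e1] at e2
    have e3 : κ = 1 := by nlinarith
    rw [he, e3, one_smul]
  have h3 : ∀ v ∈ R, 3 ≤ (Mx A v).card := by
    intro v hv
    rw [hRdef, Finset.mem_filter] at hv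
    exact hv.2
  have hRc : R.card ≤ 2 * (Faces A).card := by
    calc R.card ≤ ((Faces A).image r ∪ (Faces A).image fun G => -r G).card :=
          Finset.card_filter_le _ _
      _ ≤ ((Faces A).image r).card + ((Faces A).image fun G => -r G).card :=
          Finset.card_union_le _ _
      _ ≤ (Faces A).card + (Faces A).card := add_le_add Finset.card_image_le Finset.card_image_le
      _ = 2 * (Faces A).card := by ring
  have hray : ∀ ρ : E, ρ ≠ 0 → 3 ≤ (Mx A ρ).card → ∃ v ∈ R, ∃ k : ℝ, 0 < k ∧ ρ = k • v := by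
    intro ρ hρ hcard
    have hG : Mx A ρ ∈ Faces A := mem_Faces.mpr ⟨hcard, ρ, hρ, rfl⟩
    obtain ⟨hu, hM⟩ := hr _ hG
    obtain ⟨a, b, c, ha, hb, hcG, hab, hac, hbc⟩ :=
      Finset.two_lt_card_iff.mp (by omega : 2 < (Mx A ρ).card)
    have hsub : ({a, b, c} : Finset E) ⊆ Mx A ρ := by
      intro x hx
      simp only [Finset.mem_insert, Finset.mem_singleton] at hx
      rcases hx with rfl | rfl | rfl
      · exact ha
      · exact hb
      · exact hcG
    have hp1 : Perp {a, b, c} ρ := (perp_Mx A ρ).mono hsub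
    have hp2 : Perp {a, b, c} (r (Mx A ρ)) := by
      have h2 := perp_Mx A (r (Mx A ρ))
      rw [hM] at h2
      exact h2.mono hsub
    have hr0 : r (Mx A ρ) ≠ 0 := by
      intro h
      rw [h, ip_zero_left] at hu
      exact zero_ne_one hu
    obtain ⟨κ, hκ⟩ := hNC A a b c _ ρ hA (Mx_subset _ _ ha) (Mx_subset _ _ hb)
      (Mx_subset _ _ hcG) hab hac hbc hr0 hp2 hp1
    rcases lt_trichotomy κ 0 with hneg | hz | hpos
    · refine ⟨-r (Mx A ρ), ?_, -κ, by linarith, ?_⟩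
      · rw [hRdef, Finset.mem_filter, Finset.mem_union]
        refine ⟨Or.inr (Finset.mem_image.mpr ⟨_, hG, rfl⟩), ?_⟩
        have he : ρ = (-κ) • (-r (Mx A ρ)) := by
          rw [smul_neg, neg_smul, neg_neg]
          exact hκ
        have h5 : Mx A ρ = Mx A (-r (Mx A ρ)) := by
          have h6 := Mx_smul (k := -κ) (by linarith) A (-r (Mx A ρ))
          rw [← he] at h6
          exact h6
        rw [← h5]
        exact hcard
      · rw [smul_neg, neg_smul, neg_neg]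
        exact hκ
    · exfalso
      rw [hz, zero_smul] at hκ
      exact hρ hκ
    · refine ⟨r (Mx A ρ), ?_, κ, hpos, hκ⟩
      rw [hRdef, Finset.mem_filter, Finset.mem_union]
      refine ⟨Or.inl (Finset.mem_image.mpr ⟨_, hG, rfl⟩), ?_⟩
      rw [hM]
      exact hcard
  set P : E → Finset (E × E) := fun v =>
    @Finset.filter (E × E) (fun p => p.1 ∈ Mx A v ∧ p.2 ∈ Mx C v) (Classical.decPred _)
      (Fc A C) with hP
  have hcov : S ⊆ R.biUnion P := by
    intro p hp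
    obtain ⟨hF, ρ, hρ, hpA, hpC, hcard⟩ := hS p hp
    obtain ⟨v, hv, k, hk, he⟩ := hray ρ hρ hcard
    refine Finset.mem_biUnion.mpr ⟨v, hv, ?_⟩
    rw [hP]
    beta_reduce
    rw [@Finset.mem_filter _ _ (Classical.decPred _)]
    refine ⟨hF, ?_, ?_⟩
    · rw [he, Mx_smul hk] at hpA
      exact hpA
    · rw [he, Mx_smul hk] at hpC
      exact hpC
  obtain ⟨hEA1, hEA2, -⟩ := hEL A hA
  obtain ⟨-, hEC2, -⟩ := hEL C hC
  have hsA := fib_sum hNC A hA R h0 h1 h3
  have hsC := fib_sum hNC C hC (R.filter fun v => 3 ≤ (Mx C v).card)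
    (fun v hv => h0 v (Finset.mem_filter.mp hv).1)
    (fun v hv v' hv' => h1 v (Finset.mem_filter.mp hv).1 v' (Finset.mem_filter.mp hv').1)
    (fun v hv => (Finset.mem_filter.mp hv).2)
  clear_value R
  have hsC' : ∑ v ∈ R, (Mx C v).card ≤
      2 * R.card + ∑ v ∈ R.filter (fun v => 3 ≤ (Mx C v).card), (Mx C v).card := by
    rw [Finset.sum_filter, mul_comm, ← smul_eq_mul, ← Finset.sum_const, ← Finset.sum_add_distrib]
    refine Finset.sum_le_sum fun v _ => ?_
    split_ifs with h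
    · omega
    · omega
  have hfin : S.card ≤ ∑ v ∈ R, (Mx A v).card + ∑ v ∈ R, (Mx C v).card := by
    calc S.card ≤ (R.biUnion P).card := Finset.card_le_card hcov
      _ ≤ ∑ v ∈ R, (P v).card := Finset.card_biUnion_le
      _ ≤ ∑ v ∈ R, ((Mx A v).card + (Mx C v).card) :=
          Finset.sum_le_sum fun v hv => hPS A C v (h0 v hv)
      _ = _ := Finset.sum_add_distrib
  omega

end MOCount

open MOCount

theorem t_OCount (hNonCol : StmtNonCol) (hPolySum : StmtPolySum) (hEdgeLin : StmtEdgeLin) :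
    StmtOCount := by
  classical
  refine ⟨40, fun A C hA hC => ?_⟩
  set S := @Finset.filter (E × E) (fun p => Ov A C p.1 p.2) (Classical.decPred _) (Fc A C) with hSd
  have hmem : ∀ p, p ∈ S ↔ p ∈ Fc A C ∧ Ov A C p.1 p.2 := fun p => by
    rw [hSd, @Finset.mem_filter _ _ (Classical.decPred _)]
  clear_value S
  set S1 := S.filter fun p => ∃ ρ : E, ρ ≠ 0 ∧ p.1 ∈ Mx A ρ ∧ p.2 ∈ Mx C ρ ∧ 3 ≤ (Mx A ρ).card
    with hS1
  set S2 := S.filter fun p => ∃ ρ : E, ρ ≠ 0 ∧ p.2 ∈ Mx C ρ ∧ p.1 ∈ Mx A ρ ∧ 3 ≤ (Mx C ρ).card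
    with hS2
  clear_value S1 S2
  have hcov : S ⊆ S1 ∪ S2 := by
    intro p hp
    obtain ⟨ρ, hρ, h1, h2, h3⟩ := ((hmem p).mp hp).2
    rw [Finset.mem_union, hS1, hS2, Finset.mem_filter, Finset.mem_filter]
    rcases h3 with h3 | h3
    · exact Or.inl ⟨hp, ρ, hρ, h1, h2, h3⟩
    · exact Or.inr ⟨hp, ρ, hρ, h2, h1, h3⟩
  have hc1 : S1.card ≤ 20 * (A.card + C.card) := by
    refine half hNonCol hPolySum hEdgeLin A C hA hC S1 fun p hp => ?_
    rw [hS1, Finset.mem_filter] at hp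
    exact ⟨((hmem p).mp hp.1).1, hp.2⟩
  have hc2 : S2.card ≤ 20 * (C.card + A.card) := by
    have h := half hNonCol hPolySum hEdgeLin C A hC hA (S2.image Prod.swap) ?_
    · rwa [Finset.card_image_of_injective _ Prod.swap_injective] at h
    · intro p hp
      obtain ⟨q, hq, rfl⟩ := Finset.mem_image.mp hp
      rw [hS2, Finset.mem_filter] at hq
      obtain ⟨a, c⟩ := q
      exact ⟨fc_swap.mp ((hmem _).mp hq.1).1, hq.2⟩
  have h4 := Finset.card_le_card hcov
  have h5 := Finset.card_union_le S1 S2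
  omega

end TPH
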