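import Pool.Agent.TPH.St3

/-!
# Relative position of two half flats with exits on the same arc
-/

set_option autoImplicit false

namespace TPH

namespace MOrder

variable {A B C e₁ e₂ : Finset E} {c c' u₁ z₁ u₂ z₂ : E}

/-- The two edges are different. -/
theorem ne (H1 : HF A B C e₁ c c' u₁ z₁) (H2 : HF A B C e₂ c c' u₂ z₂)
    (hd : det3 z₁ z₂ u₁ ≠ 0) : e₁ ≠ e₂ := by
  rintro rfl
  exact hd ((H1.perp_iff z₂).mp H2.perp_z)

/-- The general form of the statement, with a sign `s`. -/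
theorem side (H1 : HF A B C e₁ c c' u₁ z₁) (H2 : HF A B C e₂ c c' u₂ z₂) (hne : e₁ ≠ e₂)
    {s : ℝ} (hs : 0 < s * det3 z₂ z₁ u₂) :
    0 < s * det3 z₂ u₁ u₂ ∧ ∀ r, InR A B c r → Perp e₁ r → 0 < s * det3 z₂ r u₂ := by
  have h1 : 0 < s * det3 z₂ u₁ u₂ := by
    by_contra hcon
    push Not at hcon
    have hβ : 0 ≤ -(s * det3 z₂ u₁ u₂) := by linarith
    have hd : det3 z₂ ((s * det3 z₂ z₁ u₂) • u₁ + (-(s * det3 z₂ u₁ u₂)) • z₁) u₂ = 0 := by
      rw [det3_add2, det3_smul2, det3_smul2]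
      ring
    have hp := (H2.perp_iff _).mpr hd
    have hC := H1.Mx_C_comb hs hβ
    have hA := H1.Mx_A_comb hs.le hβ (by linarith)
    have hv : (s * det3 z₂ z₁ u₂) • u₁ + (-(s * det3 z₂ u₁ u₂)) • z₁ ≠ 0 := by
      intro h0
      rw [h0, Mx_zero] at hC
      have h2 := H1.c'_mem
      rw [hC, Finset.mem_singleton] at h2
      exact H1.ne h2.symm
    have h3 := H2.fullZ _ hv hp (by rw [hC]; exact Finset.mem_singleton_self c)
    exact hne (hA.symm.trans h3)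
  refine ⟨h1, fun r hr hpr => ?_⟩
  by_contra hcon
  push Not at hcon
  have hβ : 0 ≤ -(s * det3 z₂ r u₂) := by linarith
  have hd : det3 z₂ ((s * det3 z₂ u₁ u₂) • r + (-(s * det3 z₂ r u₂)) • u₁) u₂ = 0 := by
    rw [det3_add2, det3_smul2, det3_smul2]
    ring
  have hp2 := (H2.perp_iff _).mpr hd
  have hp1 := Perp.comb (s * det3 z₂ u₁ u₂) (-(s * det3 z₂ r u₂)) hpr H1.perp_u
  have hR := InR.comb h1 hβ hr H1.clo
  exact hne ((H1.full _ hR hp1).symm.trans (H2.full _ hR hp2))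

end MOrder

open MOrder in
theorem t_Order : StmtOrder := by
  intro A B C e₁ e₂ c c' u₁ z₁ u₂ z₂ H1 H2 hpos
  have d1 : 0 < det3 z₁ z₂ u₁ := (H1.det_pos_iff H2 H1.wu).1.mpr hpos
  have d2 : 0 < det3 z₁ z₂ u₂ := (H1.det_pos_iff H2 H2.wu).1.mpr hpos
  have hne := MOrder.ne H1 H2 d1.ne'
  have hs : 0 < (-1 : ℝ) * det3 z₂ z₁ u₂ := by
    rw [det3_swap12 z₁ z₂ u₂]
    linarith
  obtain ⟨h1, h2⟩ := side H1 H2 hne hs
  obtain ⟨h3, h4⟩ := side H2 H1 hne.symm (s := 1) (by rw [one_mul]; exact d1)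
  refine ⟨by linarith, fun r hr hp => ?_, by linarith, fun r hr hp => ?_⟩
  · have := h2 r hr hp
    linarith
  · have := h4 r hr hp
    linarith

end TPH
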