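import Pool.Agent.TPH.St3

set_option autoImplicit false

namespace TPH

namespace MOrderAgree

/-- The third conclusion of the order statement, with a sign. -/
theorem order_sign (hOrder : StmtOrder) {A B C e₁ e₂ : Finset E} {c c' u₁ z₁ u₂ z₂ : E} {σ : ℝ}
    (h1 : HF A B C e₁ c c' u₁ z₁) (h2 : HF A B C e₂ c c' u₂ z₂) (hσ : σ = 1 ∨ σ = -1)
    (h : 0 < σ * det3 (c - c') z₁ z₂) : 0 < σ * det3 z₁ u₂ u₁ := by
  rcases hσ with rfl | rfl
  · rw [one_mul] at h ⊢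
    exact (hOrder A B C e₁ e₂ c c' u₁ z₁ u₂ z₂ h1 h2 h).2.2.1
  · have h' : 0 < det3 (c - c') z₂ z₁ := by rw [det3_swap23]; linarith
    have := (hOrder A B C e₂ e₁ c c' u₂ z₂ u₁ z₁ h2 h1 h').1
    linarith

end MOrderAgree

open MOrderAgree in
theorem t_OrderAgree (hKeyFn : StmtKeyFn) (hOrder : StmtOrder) : StmtOrderAgree := by
  intro A B C e₁ f₁ e₂ f₂ c c' u₁ z₁ y₁ u₂ z₂ y₂ σ hC h1 g1 h2 g2 hσ hzy hzz
  have hs2 : σ * σ = 1 := by rcases hσ with rfl | rfl <;> norm_num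
  -- the sign of `det3 z₁ y₁ u₁`
  have hD : 0 < σ * det3 z₁ y₁ u₁ := by
    have hs := HF.sign_iff h1.wz g1.wz h1.wu
    rcases hσ with rfl | rfl
    · rw [one_mul] at hzy ⊢
      exact hs.1.mpr hzy
    · have : det3 z₁ y₁ u₁ < 0 := hs.2.1.mpr (by linarith)
      linarith
  have hz : 0 < σ * det3 z₁ u₂ u₁ := order_sign hOrder h1 h2 hσ hzz
  by_contra hcon
  rcases (not_lt.mp hcon).lt_or_eq with hneg | h0
  · have hσ' : -σ = 1 ∨ -σ = -1 := by
      rcases hσ with rfl | rfl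
      · right; rfl
      · left; norm_num
    have hy : 0 < -σ * det3 y₁ u₂ u₁ := order_sign hOrder g1 g2 hσ' (by linarith)
    have hDD : 0 < det3 z₁ y₁ u₁ * det3 z₁ y₁ u₁ := by
      have : det3 z₁ y₁ u₁ ≠ 0 := by
        intro h; rw [h, mul_zero] at hD; exact lt_irrefl _ hD
      exact mul_self_pos.mpr this
    have key := cramer z₁ y₁ u₁ u₂
    have hα : 0 < det3 u₂ y₁ u₁ * det3 z₁ y₁ u₁ := by
      have e : det3 u₂ y₁ u₁ * det3 z₁ y₁ u₁ = (-σ * det3 y₁ u₂ u₁) * (σ * det3 z₁ y₁ u₁) := by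
        rw [det3_swap12 y₁ u₂ u₁]
        linear_combination (det3 y₁ u₂ u₁ * det3 z₁ y₁ u₁) * hs2
      rw [e]
      exact mul_pos hy hD
    have hβ : 0 < det3 z₁ u₂ u₁ * det3 z₁ y₁ u₁ := by
      have e : det3 z₁ u₂ u₁ * det3 z₁ y₁ u₁ = (σ * det3 z₁ u₂ u₁) * (σ * det3 z₁ y₁ u₁) := by
        linear_combination -(det3 z₁ u₂ u₁ * det3 z₁ y₁ u₁) * hs2
      rw [e]
      exact mul_pos hz hD
    have hin : InRc A B c ((det3 z₁ y₁ u₁ * det3 z₁ y₁ u₁) • u₂) := h2.clo.smul hDD.le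
    have e : (det3 z₁ y₁ u₁ * det3 z₁ y₁ u₁) • u₂ = (det3 z₁ y₁ u₂ * det3 z₁ y₁ u₁) • u₁ +
        (det3 u₂ y₁ u₁ * det3 z₁ y₁ u₁) • z₁ + (det3 z₁ u₂ u₁ * det3 z₁ y₁ u₁) • y₁ := by
      rw [mul_comm (det3 z₁ y₁ u₂), mul_comm (det3 u₂ y₁ u₁), mul_comm (det3 z₁ u₂ u₁),
        mul_smul, mul_smul, mul_smul, mul_smul, key, ← smul_add, ← smul_add]
      congr 1
      abel
    rw [e] at hin
    exact h1.wedge g1 hα.le hβ.le (add_pos hα hβ) hin
  · -- equal positions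
    have h00 : det3 (c - c') y₁ y₂ = 0 := by
      rcases mul_eq_zero.mp h0 with h | h
      · rw [h, mul_zero] at hs2; exact absurd hs2 (by norm_num)
      · exact h
    obtain ⟨key, hkey⟩ := hKeyFn C c c' hC h1.ne
    have hk1 := hkey y₁ y₂ g1.cz g2.cz
    have hk2 := hkey y₂ y₁ g2.cz g1.cz
    have hkk : key y₁ = key y₂ := by
      rcases lt_trichotomy (key y₁) (key y₂) with h | h | h
      · have := hk1.1.mp h; rw [h00] at this; exact absurd this (lt_irrefl _)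
      · exact h
      · have := hk2.1.mp h
        rw [det3_swap23, h00, neg_zero] at this
        exact absurd this (lt_irrefl _)
    obtain ⟨k, hk, hy⟩ := hk1.2.mp hkk
    have hf : f₂ = f₁ := by rw [← g2.ez, hy, Mx_smul hk, g1.ez]
    have hp : Perp f₁ u₂ := hf ▸ g2.perp_u
    obtain ⟨α, β, hu⟩ := g1.comb hp
    have hβ : β ≤ 0 := g1.beta_nonpos (hu ▸ g2.clo)
    have hz' : det3 z₁ u₂ u₁ = β * det3 z₁ y₁ u₁ := by
      rw [hu, det3_add2, det3_smul2, det3_smul2, det3_self23, mul_zero, zero_add]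
    rw [hz'] at hz
    have : σ * (β * det3 z₁ y₁ u₁) = β * (σ * det3 z₁ y₁ u₁) := by ring
    rw [this] at hz
    have := mul_nonpos_of_nonpos_of_nonneg hβ hD.le
    linarith

end TPH
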