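import Pool.Agent.TPH.St4

/-!
# Three parallel hyperplanes: the bound for out flats
-/

set_option autoImplicit false

namespace TPH

namespace MOutCount

/-- The sign. -/
noncomputable def sg (u z y : Fl → E) (x : Fl) : Bool :=
  @decide (0 < det3 (z x) (y x) (u x)) (Classical.propDecidable _)

/-- The sign as a number. -/
noncomputable def sr (b : Bool) : ℝ := if b then 1 else -1

theorem sg_true {u z y : Fl → E} {x : Fl} (h : sg u z y x = true) : 0 < det3 (z x) (y x) (u x) := by
  unfold sg at h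
  exact @of_decide_eq_true _ (Classical.propDecidable _) h

theorem sg_false {u z y : Fl → E} {x : Fl} (h : sg u z y x = false) :
    ¬ 0 < det3 (z x) (y x) (u x) := by
  unfold sg at h
  exact @of_decide_eq_false _ (Classical.propDecidable _) h

end MOutCount

open MOutCount in
theorem t_OutCount (hAbstract : StmtAbstract) (hFlatBasic : StmtFlatBasic) (hKeyFn : StmtKeyFn)
    (hNotPar : StmtNotPar) (hZDet : StmtZDet) (hOrder : StmtOrder) (hOutPair : StmtOutPair)
    (hOutMult : StmtOutMult) : StmtOutCount := by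
  classical
  intro A B C X hA hB hC hX
  choose! u z y c₁ c₂ hG using hX
  have hk : ∀ c c' : E, c ≠ c' → ∃ key : E → ℝ, ∀ s t, Mx C s = {c, c'} → Mx C t = {c, c'} →
      (key s < key t ↔ 0 < det3 (c - c') s t) ∧ (key s = key t ↔ ∃ k : ℝ, 0 < k ∧ t = k • s) :=
    fun c c' hne => hKeyFn C c c' hC hne
  choose! kf hkf using hk
  set cls : Fl → E × E × Bool := fun x => (x.2.1, c₁ x, sg u z y x) with hcls
  set key : Fl → ℝ := fun x => sr (sg u z y x) * kf x.2.1 (c₁ x) (z x) with hkey
  set P : Finset (Fl × Fl) := (X ×ˢ X).filter (fun p => cls p.1 = cls p.2 ∧ key p.1 < key p.2)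
    with hP
  have hdet0 : ∀ x ∈ X, det3 (z x) (y x) (u x) ≠ 0 := fun x hx =>
    hNotPar A B C x.1 x.2.2 x.2.1 (c₁ x) (c₂ x) (u x) (z x) (y x) hA (hG x hx).1.hA (hG x hx).1.hB
  -- transport of the half flat
  have hHF : ∀ x ∈ X, ∀ x' ∈ X, cls x = cls x' →
      HF A B C x'.1 x.2.1 (c₁ x) (u x') (z x') := by
    intro x _ x' hx' he
    have h1 : x.2.1 = x'.2.1 := congrArg (fun q : E × E × Bool => q.1) he
    have h2 : c₁ x = c₁ x' := congrArg (fun q : E × E × Bool => q.2.1) he
    rw [h1, h2]
    exact (hG x' hx').1.hA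
  have hsg : ∀ x x', cls x = cls x' → sg u z y x = sg u z y x' := fun x x' he =>
    congrArg (fun q : E × E × Bool => q.2.2) he
  have hkey' : ∀ x x', cls x = cls x' →
      key x' = sr (sg u z y x) * kf x.2.1 (c₁ x) (z x') := by
    intro x x' he
    have h1 : x.2.1 = x'.2.1 := congrArg (fun q : E × E × Bool => q.1) he
    have h2 : c₁ x = c₁ x' := congrArg (fun q : E × E × Bool => q.2.1) he
    rw [h1, h2, hsg x x' he]
  have hmain := hAbstract Fl (E × E × Bool) X ∅ cls key (fun _ _ => True) P ?_ ?_ ?_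
  · -- conclusion
    have hcard1 : (X.image cls).card ≤ 16 * (Ed C).card := by
      have hsub : X.image cls ⊆
          (Ed C).biUnion (fun e => e ×ˢ (e ×ˢ (Finset.univ : Finset Bool))) := by
        intro q hq
        rw [Finset.mem_image] at hq
        obtain ⟨x, hx, rfl⟩ := hq
        have hf := (hG x hx).1.hA
        rw [Finset.mem_biUnion]
        refine ⟨{x.2.1, c₁ x}, ?_, ?_⟩
        · rw [mem_Ed]
          exact ⟨Finset.card_pair hf.ne, z x, hf.cz⟩
        · simp only [hcls, Finset.mem_product, Finset.mem_univ, and_true]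
          exact ⟨by simp, by simp⟩
      refine (Finset.card_le_card hsub).trans ?_
      refine (Finset.card_biUnion_le_card_mul _ _ 16 ?_).trans (by rw [Nat.mul_comm])
      intro e he
      have h2 := (mem_Ed.mp he).1
      rw [Finset.card_product, Finset.card_product, h2]
      simp
    have hcard2 : P.card ≤ 4 * ((Ed A).card * (Ed B).card) := by
      refine hOutMult A B C P hA hB ?_
      intro p hp
      rw [hP, Finset.mem_filter, Finset.mem_product] at hp
      obtain ⟨⟨hx, hx'⟩, he, hlt⟩ := hp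
      set x := p.1 with hxdef
      set x' := p.2 with hx'def
      have hf := (hG x hx).1.hA
      have hf' := hHF x hx x' hx' he
      have hfB := (hG x hx).1.hB
      have h1 : x.2.1 = x'.2.1 := congrArg (fun q : E × E × Bool => q.1) he
      rw [hkey' x x' he] at hlt
      have hkk := hkf x.2.1 (c₁ x) hf.ne
      have hcase : (0 < det3 (x.2.1 - c₁ x) (z x) (z x') ∧ 0 < det3 (z x) (y x) (u x)) ∨
          (0 < det3 (x.2.1 - c₁ x) (z x') (z x) ∧ det3 (z x) (y x) (u x) < 0) := by
        cases hb : sg u z y x with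
        | true =>
          left
          have hlt' : kf x.2.1 (c₁ x) (z x) < kf x.2.1 (c₁ x) (z x') := by
            simpa [hkey, hb, sr] using hlt
          exact ⟨(hkk _ _ hf.cz hf'.cz).1.mp hlt', sg_true hb⟩
        | false =>
          right
          have hlt' : kf x.2.1 (c₁ x) (z x') < kf x.2.1 (c₁ x) (z x) := by
            simpa [hkey, hb, sr] using hlt
          refine ⟨(hkk _ _ hf'.cz hf.cz).1.mp hlt', ?_⟩
          exact lt_of_le_of_ne (not_lt.mp (sg_false hb)) (hdet0 x hx)
      have hprod : 0 < det3 (z x) (z x') (u x) * det3 (z x) (y x) (u x) := by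
        rcases hcase with ⟨ha, hb⟩ | ⟨ha, hb⟩
        · exact mul_pos ((hf.det_pos_iff hf' hf.wu).1.mpr ha) hb
        · have h3 : det3 (x.2.1 - c₁ x) (z x) (z x') < 0 := by
            rw [det3_swap23] at ha
            linarith
          exact mul_pos_of_neg_of_neg ((hf.det_pos_iff hf' hf.wu).2.1.mpr h3) hb
      have hnp : ¬ Perp x'.1 (u x) := by
        rw [hf'.perp_iff]
        rcases hcase with ⟨ha, _⟩ | ⟨ha, _⟩
        · have := (hOrder A B C x.1 x'.1 x.2.1 (c₁ x) (u x) (z x) (u x') (z x') hf hf' ha).1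
          exact this.ne
        · have := (hOrder A B C x'.1 x.1 x.2.1 (c₁ x) (u x') (z x') (u x) (z x) hf' hf ha).2.2.1
          exact this.ne'
      obtain ⟨α, β, α', β', g1, g2, g3, g4, g5⟩ := hOutPair A B C x.1 x.2.2 x'.1 x.2.1 (c₁ x) (c₂ x)
        (u x) (z x) (y x) (u x') (z x') hf hfB hf' (hG x hx).2 hprod
      exact ⟨u x, z x, y x, c₁ x, c₂ x, u x', z x', y x', c₁ x', c₂ x', α, β, α', β',
        (hG x hx).1, (hG x' hx').1, h1, g1, g2, g3, g4, g5, hnp⟩
    refine hmain.trans ?_
    rw [Finset.card_empty, add_zero]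
    exact Nat.mul_le_mul (Nat.mul_le_mul_left 8 hcard1) (Nat.add_le_add_right hcard2 _)
  · intro x hx x' hx' he hkeq
    have hf := (hG x hx).1.hA
    have hf' := hHF x hx x' hx' he
    rw [hkey' x x' he] at hkeq
    have hkeq' : kf x.2.1 (c₁ x) (z x) = kf x.2.1 (c₁ x) (z x') := by
      cases hb : sg u z y x with
      | true => simpa [hkey, hb, sr] using hkeq
      | false => simpa [hkey, hb, sr] using hkeq
    obtain ⟨k, hk0, hzk⟩ := (hkf x.2.1 (c₁ x) hf.ne _ _ hf.cz hf'.cz).2.mp hkeq'
    obtain ⟨k', hk'0, huk⟩ := hZDet A B C x.1 x'.1 x.2.1 (c₁ x) (c₁ x) (u x) (z x) (u x') (z x') k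
      hf hf' hk0 hzk
    have hfb := hFlatBasic A B C x (u x) (Or.inl hA) (hG x hx).1.fl
    exact (hfb.2.2.2.2.2.2 x' (u x') (hG x' hx').1.fl k' hk'0 huk).symm
  · intro x _ y' _ z' _ _ _ _ _ _
    exact Or.inl trivial
  · intro x hx x' hx' he hlt _
    rw [hP, Finset.mem_filter, Finset.mem_product]
    exact ⟨⟨hx, hx'⟩, he, hlt⟩

end TPH
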