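import Pool.Agent.TPH.St4

/-!
# Three parallel hyperplanes: the multiplicity of the crossings of out flats
-/

set_option autoImplicit false

namespace TPH

namespace MOutMult

/-- The data of a pair of flats and of their crossing. -/
structure PD (A B C : Finset E) (p : Fl × Fl) (t u₁ y₁ d₁ u₂ z₂ c₂ : E) (α β α' β' : ℝ) : Prop where
  fl1 : IsFlat A B C p.1 u₁
  fl2 : IsFlat A B C p.2 u₂
  hB : HF B A C p.1.2.2 p.1.2.1 d₁ u₁ y₁
  hA : HF A B C p.2.1 p.2.2.1 c₂ u₂ z₂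
  cc : p.1.2.1 = p.2.2.1
  hα : 0 < α
  hβ : 0 < β
  hα' : 0 < α'
  hβ' : 0 < β'
  t1 : t = α • u₁ + β • y₁
  t2 : t = α' • u₂ + β' • z₂
  np : ¬ Perp p.2.1 u₁

/-- The determinant that decides the side. -/
theorem det_ne {A B C e : Finset E} {c c' u z t a a' : E} {α β : ℝ} (h : HF A B C e c c' u z)
    (he : e = {a, a'}) (ha : a ≠ a') (hβ : 0 < β) (ht : t = α • u + β • z) :
    det3 (a - a') t u ≠ 0 := by
  have h1 : ip (a - a') z = 0 := by
    have := h.perp_z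
    rw [he, perp_pair] at this
    rw [ip_sub_left, this, sub_self]
  have h2 : ip (a - a') u = 0 := by
    have := h.perp_u
    rw [he, perp_pair] at this
    rw [ip_sub_left, this, sub_self]
  obtain ⟨k, hk⟩ := par_cr_of_ip h.cr_ne h1 h2
  have hk0 : k ≠ 0 := by
    rintro rfl
    apply ha
    rw [zero_smul] at hk
    exact sub_eq_zero.mp hk
  have h3 : det3 (a - a') t u = β * (k * ip (cr z u) (cr z u)) := by
    rw [ht, det3_add2, det3_smul2, det3_smul2, det3_self23, mul_zero, zero_add,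
      ← det3_cyc (a - a') z u, ← ip_cr, hk, ip_smul_right]
  rw [h3]
  exact mul_ne_zero hβ.ne' (mul_ne_zero hk0 (ip_self_pos h.cr_ne).ne')

section

variable {A B C : Finset E} {p p' : Fl × Fl} {t u₁ y₁ d₁ u₂ z₂ c₂ : E} {α β α' β' : ℝ}
  {s v₁ w₁ b₁ v₂ w₂ b₂ : E} {γ δ γ' δ' : ℝ}

theorem PD.MxA (h : PD A B C p t u₁ y₁ d₁ u₂ z₂ c₂ α β α' β') : Mx A t = p.2.1 := by
  rw [h.t2]
  exact h.hA.Mx_A_comb h.hα'.le h.hβ'.le (add_pos h.hα' h.hβ')

theorem PD.MxC (h : PD A B C p t u₁ y₁ d₁ u₂ z₂ c₂ α β α' β') : Mx C t = {p.1.2.1} := by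
  rw [h.t1]
  exact h.hB.Mx_C_comb h.hα h.hβ.le

theorem PD.perpA (h : PD A B C p t u₁ y₁ d₁ u₂ z₂ c₂ α β α' β') : Perp p.2.1 t := by
  rw [h.t2]
  exact Perp.comb _ _ h.hA.perp_u h.hA.perp_z

theorem PD.perpB (h : PD A B C p t u₁ y₁ d₁ u₂ z₂ c₂ α β α' β') : Perp p.1.2.2 t := by
  rw [h.t1]
  exact Perp.comb _ _ h.hB.perp_u h.hB.perp_z

theorem PD.t_ne (hA3 : 3 ≤ A.card) (h : PD A B C p t u₁ y₁ d₁ u₂ z₂ c₂ α β α' β') : t ≠ 0 := by
  intro h0
  have h1 := h.MxA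
  rw [h0, Mx_zero] at h1
  have h2 := h.hA.card
  rw [← h1] at h2
  omega

/-- The crossing is determined by the two edges up to a positive factor. -/
theorem par (hA3 : 3 ≤ A.card) (h : PD A B C p t u₁ y₁ d₁ u₂ z₂ c₂ α β α' β')
    (h' : PD A B C p' s v₁ w₁ b₁ v₂ w₂ b₂ γ δ γ' δ') (he : p.2.1 = p'.2.1)
    (hf : p.1.2.2 = p'.1.2.2) : ∃ k : ℝ, 0 < k ∧ s = k • t := by
  obtain ⟨a, a', hne, hea⟩ := Finset.card_eq_two.mp h.hA.card
  obtain ⟨b, b', hne', hfb⟩ := Finset.card_eq_two.mp h.hB.card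
  have hd : a - a' ≠ 0 := sub_ne_zero.mpr hne
  have hg : b - b' ≠ 0 := sub_ne_zero.mpr hne'
  have hcr : cr (a - a') (b - b') ≠ 0 := by
    intro h0
    obtain ⟨k, hk⟩ := par_of_cr hd h0
    have hk0 : k ≠ 0 := by
      rintro rfl
      rw [zero_smul] at hk
      exact hg hk
    have h1 := h.hB.perp_u
    rw [hfb, perp_pair] at h1
    have h2 : ip (b - b') u₁ = 0 := by rw [ip_sub_left, h1, sub_self]
    rw [hk, ip_smul_left] at h2
    rcases mul_eq_zero.mp h2 with h3 | h3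
    · exact hk0 h3
    · apply h.np
      rw [hea, perp_pair]
      rw [ip_sub_left] at h3
      linarith
  have key : ∀ x : E, Perp p.2.1 x → Perp p.1.2.2 x → ∃ k : ℝ, x = k • cr (a - a') (b - b') := by
    intro x hx hx'
    rw [hea, perp_pair] at hx
    rw [hfb, perp_pair] at hx'
    apply par_cr_of_ip hcr
    · rw [ip_comm, ip_sub_left, hx, sub_self]
    · rw [ip_comm, ip_sub_left, hx', sub_self]
  obtain ⟨k₁, hk₁⟩ := key t h.perpA h.perpB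
  obtain ⟨k₂, hk₂⟩ := key s (he ▸ h'.perpA) (hf ▸ h'.perpB)
  have ht := h.t_ne hA3
  have hs := h'.t_ne hA3
  have hk₁0 : k₁ ≠ 0 := by
    rintro rfl
    rw [zero_smul] at hk₁
    exact ht hk₁
  have hk₂0 : k₂ ≠ 0 := by
    rintro rfl
    rw [zero_smul] at hk₂
    exact hs hk₂
  have hst : s = (k₂ / k₁) • t := by
    rw [hk₁, smul_smul, div_mul_cancel₀ _ hk₁0, hk₂]
  refine ⟨k₂ / k₁, ?_, hst⟩
  rcases lt_or_gt_of_ne (div_ne_zero hk₂0 hk₁0) with hneg | hpos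
  · exfalso
    -- a point of `A` outside of the edge
    have hsub : ∃ x ∈ A, x ∉ p.2.1 := by
      by_contra hcon
      push Not at hcon
      have := Finset.card_le_card hcon
      have h2 := h.hA.card
      omega
    obtain ⟨x, hxA, hx⟩ := hsub
    have haM : a ∈ Mx A t := by rw [h.MxA, hea]; simp
    have haM' : a ∈ Mx A s := by rw [h'.MxA, ← he, hea]; simp
    have h1 := Mx_lt haM hxA (by rw [h.MxA]; exact hx)
    have h2 := Mx_le haM' hxA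
    rw [hst, ip_smul_right, ip_smul_right] at h2
    have h3 : (k₂ / k₁) * ip a t < (k₂ / k₁) * ip x t := mul_lt_mul_of_neg_left h1 hneg
    linarith
  · exact hpos

/-- A pair is determined by the two edges and two signs. -/
theorem uniq (hFlatBasic : StmtFlatBasic) (hExit2 : StmtExit2) (hA3 : 3 ≤ A.card)
    (h : PD A B C p t u₁ y₁ d₁ u₂ z₂ c₂ α β α' β')
    (h' : PD A B C p' s v₁ w₁ b₁ v₂ w₂ b₂ γ δ γ' δ') {a a' b b' : E} (ha : a ≠ a') (hb : b ≠ b')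
    (he : p.2.1 = {a, a'}) (he' : p'.2.1 = {a, a'})
    (hf : p.1.2.2 = {b, b'}) (hf' : p'.1.2.2 = {b, b'})
    (hs1 : 0 < det3 (b - b') t u₁ ↔ 0 < det3 (b - b') s v₁)
    (hs2 : 0 < det3 (a - a') t u₂ ↔ 0 < det3 (a - a') s v₂) : p = p' := by
  obtain ⟨k, hk, hst⟩ := par hA3 h h' (he.trans he'.symm) (hf.trans hf'.symm)
  have hc : p.1.2.1 = p'.1.2.1 := by
    have h1 := h.MxC
    have h2 := h'.MxC
    rw [hst, Mx_smul hk, h1] at h2
    exact Finset.singleton_inj.mp h2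
  have sgn : ∀ x y : ℝ, x ≠ 0 → y ≠ 0 → (0 < x ↔ 0 < y) → 0 < x * y := by
    intro x y hx hy hxy
    rcases lt_or_gt_of_ne hx with h1 | h1
    · have h2 : ¬ 0 < y := fun h3 => absurd (hxy.mpr h3) (not_lt.mpr h1.le)
      exact mul_pos_of_neg_of_neg h1 (lt_of_le_of_ne (not_lt.mp h2) hy)
    · exact mul_pos h1 (hxy.mp h1)
  have hk' : t = (1 / k) • s := by
    rw [hst, smul_smul, one_div, inv_mul_cancel₀ hk.ne', one_smul]
  -- first flats
  have n1 := det_ne h.hB hf hb h.hβ h.t1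
  have n1' := det_ne h'.hB hf' hb h'.hβ h'.t1
  have q1 : 0 < det3 (b - b') t u₁ * det3 (b - b') t v₁ := by
    have h1 := sgn _ _ n1 n1' hs1
    rw [hst, det3_smul2] at h1
    have h2 : 0 < k * (det3 (b - b') t u₁ * det3 (b - b') t v₁) := by
      have : k * (det3 (b - b') t u₁ * det3 (b - b') t v₁) =
        det3 (b - b') t u₁ * (k * det3 (b - b') t v₁) := by ring
      rw [this]; exact h1
    exact pos_of_mul_pos_right h2 hk.le
  have n2 := det_ne h.hA he ha h.hβ' h.t2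
  have n2' := det_ne h'.hA he' ha h'.hβ' h'.t2
  have q2 : 0 < det3 (a - a') t u₂ * det3 (a - a') t v₂ := by
    have h1 := sgn _ _ n2 n2' hs2
    rw [hst, det3_smul2] at h1
    have h2 : 0 < k * (det3 (a - a') t u₂ * det3 (a - a') t v₂) := by
      have : k * (det3 (a - a') t u₂ * det3 (a - a') t v₂) =
        det3 (a - a') t u₂ * (k * det3 (a - a') t v₂) := by ring
      rw [this]; exact h1
    exact pos_of_mul_pos_right h2 hk.le
  have g1 : ∃ k : ℝ, 0 < k ∧ v₁ = k • u₁ := by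
    refine hExit2 B A C {b, b'} p.1.2.1 d₁ b₁ u₁ y₁ v₁ w₁ t b b' α β ((1 / k) * γ) ((1 / k) * δ)
      (hf ▸ h.hB) ?_ rfl hb h.hα h.hβ (mul_pos (one_div_pos.mpr hk) h'.hα)
      (mul_pos (one_div_pos.mpr hk) h'.hβ) h.t1 ?_ q1
    · rw [hc]
      exact hf' ▸ h'.hB
    · rw [hk', h'.t1, smul_add, smul_smul, smul_smul]
  have g2 : ∃ k : ℝ, 0 < k ∧ v₂ = k • u₂ := by
    refine hExit2 A B C {a, a'} p.2.2.1 c₂ b₂ u₂ z₂ v₂ w₂ t a a' α' β' ((1 / k) * γ')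
      ((1 / k) * δ') (he ▸ h.hA) ?_ rfl ha h.hα' h.hβ' (mul_pos (one_div_pos.mpr hk) h'.hα')
      (mul_pos (one_div_pos.mpr hk) h'.hβ') h.t2 ?_ q2
    · rw [← h.cc, hc, h'.cc]
      exact he' ▸ h'.hA
    · rw [hk', h'.t2, smul_add, smul_smul, smul_smul]
  obtain ⟨k₁, hk₁, hv₁⟩ := g1
  obtain ⟨k₂, hk₂, hv₂⟩ := g2
  have r1 : p'.1 = p.1 := (hFlatBasic A B C p.1 u₁ (Or.inl hA3) h.fl1).2.2.2.2.2.2 p'.1 v₁ h'.fl1
    k₁ hk₁ hv₁
  have r2 : p'.2 = p.2 := (hFlatBasic A B C p.2 u₂ (Or.inl hA3) h.fl2).2.2.2.2.2.2 p'.2 v₂ h'.fl2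
    k₂ hk₂ hv₂
  exact (Prod.ext r1 r2).symm

end

/-- The relation between a pair of flats and its two signs. -/
def Rel (A B C : Finset E) (a a' b b' : E) (p : Fl × Fl) (σ : Bool × Bool) : Prop :=
  ∃ (t u₁ y₁ d₁ u₂ z₂ c₂ : E) (α β α' β' : ℝ), PD A B C p t u₁ y₁ d₁ u₂ z₂ c₂ α β α' β' ∧
    (σ.1 = true ↔ 0 < det3 (b - b') t u₁) ∧ (σ.2 = true ↔ 0 < det3 (a - a') t u₂)

end MOutMult

open MOutMult in
theorem t_OutMult (hFlatBasic : StmtFlatBasic) (hExit2 : StmtExit2) : StmtOutMult := by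
  classical
  intro A B C P hA3 _ hP
  have hPD : ∀ p ∈ P, ∃ (t u₁ y₁ d₁ u₂ z₂ c₂ : E) (α β α' β' : ℝ),
      PD A B C p t u₁ y₁ d₁ u₂ z₂ c₂ α β α' β' := by
    intro p hp
    obtain ⟨u₁, z₁, y₁, c₁, d₁, u₂, z₂, y₂, c₂, d₂, α, β, α', β', h1, h2, h3, h4, h5, h6, h7, h8,
      h9⟩ := hP p hp
    exact ⟨α • u₁ + β • y₁, u₁, y₁, d₁, u₂, z₂, c₂, α, β, α', β',
      ⟨h1.fl, h2.fl, h1.hB, h2.hA, h3, h4, h5, h6, h7, rfl, h8, h9⟩⟩
  have hfib : ∀ x ∈ P.image (fun p : Fl × Fl => (p.2.1, p.1.2.2)),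
      (P.filter fun p => (p.2.1, p.1.2.2) = x).card ≤ 4 := by
    intro x hx
    rw [Finset.mem_image] at hx
    obtain ⟨p₀, hp₀, rfl⟩ := hx
    obtain ⟨t, u₁, y₁, d₁, u₂, z₂, c₂, α, β, α', β', h0⟩ := hPD p₀ hp₀
    obtain ⟨a, a', hne, hea⟩ := Finset.card_eq_two.mp h0.hA.card
    obtain ⟨b, b', hne', hfb⟩ := Finset.card_eq_two.mp h0.hB.card
    have h4 : (4 : ℕ) = (Finset.univ : Finset (Bool × Bool)).card := by decide
    rw [h4]
    refine Finset.card_le_card_of_forall_subsingleton (Rel A B C a a' b b') ?_ ?_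
    · intro p hp
      rw [Finset.mem_filter] at hp
      obtain ⟨t, u₁, y₁, d₁, u₂, z₂, c₂, α, β, α', β', h⟩ := hPD p hp.1
      exact ⟨(decide (0 < det3 (b - b') t u₁), decide (0 < det3 (a - a') t u₂)),
        Finset.mem_univ _, t, u₁, y₁, d₁, u₂, z₂, c₂, α, β, α', β', h, decide_eq_true_iff,
        decide_eq_true_iff⟩
    · rintro σ _ p ⟨hp, hr⟩ p' ⟨hp', hr'⟩
      have m := (Finset.mem_filter.mp hp).2
      have m' := (Finset.mem_filter.mp hp').2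
      obtain ⟨t, u₁, y₁, d₁, u₂, z₂, c₂, α, β, α', β', h, h1, h2⟩ := hr
      obtain ⟨s, v₁, w₁, b₁, v₂, w₂, b₂, γ, δ, γ', δ', h', h1', h2'⟩ := hr'
      have m1 := (Prod.mk.injEq _ _ _ _).mp m
      have m1' := (Prod.mk.injEq _ _ _ _).mp m'
      exact uniq hFlatBasic hExit2 hA3 h h' hne hne' (m1.1.trans hea) (m1'.1.trans hea)
        (m1.2.trans hfb) (m1'.2.trans hfb) (h1.symm.trans h1') (h2.symm.trans h2')
  have himg : (P.image (fun p : Fl × Fl => (p.2.1, p.1.2.2))).card ≤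
      (Ed A).card * (Ed B).card := by
    rw [← Finset.card_product]
    apply Finset.card_le_card
    intro x hx
    rw [Finset.mem_image] at hx
    obtain ⟨p, hp, rfl⟩ := hx
    obtain ⟨t, u₁, y₁, d₁, u₂, z₂, c₂, α, β, α', β', h⟩ := hPD p hp
    rw [Finset.mem_product]
    exact ⟨mem_Ed.mpr ⟨h.hA.card, u₂, h.hA.eu⟩, mem_Ed.mpr ⟨h.hB.card, u₁, h.hB.eu⟩⟩
  calc P.card ≤ 4 * (P.image (fun p : Fl × Fl => (p.2.1, p.1.2.2))).card :=
        Finset.card_le_mul_card_image P 4 hfib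
    _ ≤ 4 * ((Ed A).card * (Ed B).card) := Nat.mul_le_mul_left 4 himg

end TPH
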