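import Pool.Agent.TPH.St3

/-!
# Three parallel hyperplanes: two out flats of the same group cross
-/

set_option autoImplicit false

namespace TPH

namespace MOutPair

theorem det3_smul3' (s : ℝ) (hs : s * s = 1) (a b c : E) :
    det3 (s • a) (s • b) (s • c) = s * det3 a b c := by
  rw [det3_smul1, det3_smul2, det3_smul3]
  linear_combination (s * det3 a b c) * hs

theorem core (hQuadCone : StmtQuadCone) {A B C e₁ f₁ e₂ : Finset E}
    {c c' c'' u₁ z₁ y₁ u₂ z₂ : E} {s : ℝ} (hs : s * s = 1)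
    (h1 : HF A B C e₁ c c' u₁ z₁) (h2 : HF B A C f₁ c c'' u₁ y₁)
    (h3 : HF A B C e₂ c c' u₂ z₂) (hne : c'' ≠ c')
    (d1 : 0 < s * det3 z₁ z₂ u₁) (d2 : 0 < s * det3 z₁ y₁ u₁)
    (d3 : s * det3 z₂ u₁ u₂ < 0) (d4 : 0 < s * det3 z₁ u₂ u₁) :
    ∃ α β α' β' : ℝ, 0 < α ∧ 0 < β ∧ 0 < α' ∧ 0 < β' ∧ α • u₁ + β • y₁ = α' • u₂ + β' • z₂ := by
  -- positivity of the functionals `c - c'` and `c - c''`
  have hω1 : 0 < ip (c - c') u₁ := h1.wu
  have hω2 : 0 < ip (c - c') u₂ := h3.wu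
  have hωy : 0 < ip (c - c') y₁ := by
    have h := Mx_lt (A := C) (u := y₁) (a := c) (a' := c') (by rw [h2.cz]; simp) h1.c'_mem
      (by
        rw [h2.cz, Finset.mem_insert, Finset.mem_singleton]
        rintro (h | h)
        · exact h1.ne h.symm
        · exact hne h.symm)
    rw [ip_sub_left]; linarith
  have hc2 : ∀ z : E, Mx C z = {c, c'} → 0 < ip (c - c'') z := by
    intro z hz
    have h := Mx_lt (A := C) (u := z) (a := c) (a' := c'') (by rw [hz]; simp) h2.c'_mem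
      (by
        rw [hz, Finset.mem_insert, Finset.mem_singleton]
        rintro (h | h)
        · exact h2.ne h.symm
        · exact hne h)
    rw [ip_sub_left]; linarith
  have hc3 : ∀ z : E, Mx C z = {c} → 0 < ip (c - c'') z := by
    intro z hz
    have h := Mx_lt (A := C) (u := z) (a := c) (a' := c'') (by rw [hz]; simp) h2.c'_mem
      (by
        rw [hz, Finset.mem_singleton]
        exact fun h => h2.ne h.symm)
    rw [ip_sub_left]; linarith
  -- the form `v ↦ det3 u₁ v u₂`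
  have l1 : 0 < s * det3 u₁ z₁ u₂ := by
    have e : det3 u₁ z₁ u₂ = det3 z₁ u₂ u₁ := (det3_cyc u₁ z₁ u₂).symm
    rw [e]; exact d4
  have l2 : 0 < s * det3 u₁ z₂ u₂ := by
    have e : det3 u₁ z₂ u₂ = -det3 z₂ u₁ u₂ := det3_swap12 z₂ u₁ u₂
    rw [e]; linarith
  -- (1)
  have l3 : 0 < s * det3 u₁ y₁ u₂ := by
    by_contra hcon
    push Not at hcon
    have hc := cramer z₁ u₂ u₁ y₁
    have e : det3 y₁ u₂ u₁ = det3 u₁ y₁ u₂ := det3_cyc u₁ y₁ u₂
    rw [e] at hc
    have h5 : (s * det3 z₁ y₁ u₁) • u₂ = (-(s * det3 z₁ u₂ y₁)) • u₁ +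
        (-(s * det3 u₁ y₁ u₂)) • z₁ + (s * det3 z₁ u₂ u₁) • y₁ := by
      have h6 : (s * det3 z₁ u₂ u₁) • y₁ = s • (det3 z₁ u₂ u₁ • y₁) := by rw [smul_smul]
      rw [h6, hc, smul_add, smul_add, smul_smul, smul_smul, smul_smul, neg_smul, neg_smul]
      abel
    have h7 : InRc A B c ((s * det3 z₁ y₁ u₁) • u₂) := h3.clo.smul d2.le
    rw [h5] at h7
    exact h1.wedge h2 (by linarith) d4.le (by linarith) h7
  -- (2)
  have hp : s * det3 z₁ z₂ y₁ > 0 := by
    have hpi := h1.det_pos_iff h3 hωy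
    have hpu := h1.det_pos_iff h3 hω1
    rcases lt_trichotomy s 0 with hs0 | hs0 | hs0
    · have h5 : det3 z₁ z₂ u₁ < 0 := by
        by_contra h6; push Not at h6; nlinarith
      have h6 := hpi.2.1.mpr (hpu.2.1.mp h5)
      exact mul_pos_of_neg_of_neg hs0 h6
    · rw [hs0, zero_mul] at d1; exact absurd d1 (lt_irrefl _)
    · have h5 : 0 < det3 z₁ z₂ u₁ := by
        by_contra h6; push Not at h6; nlinarith
      have h6 := hpi.1.mpr (hpu.1.mp h5)
      exact mul_pos hs0 h6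
  have l4 : 0 < s * det3 z₂ y₁ u₂ := by
    by_contra hcon
    push Not at hcon
    obtain ⟨k₁, k₂, k₃, k₄, p1, p2, p3, p4, _, hv⟩ := hQuadCone (s • z₁) (s • z₂) (s • u₁)
      (s • u₂) (s • y₁) (by rw [det3_smul3' s hs]; exact d1) (by rw [det3_smul3' s hs]; exact hp)
      (by rw [det3_smul3' s hs]; exact d2) (by rw [det3_smul3' s hs]; exact hcon)
      (by rw [det3_smul3' s hs]; exact l3) (by rw [det3_smul3' s hs]; exact d3)
    have hs0 : s ≠ 0 := by rintro rfl; simp at hs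
    have h5 := congrArg (fun v => ip (c - c'') v) hv
    simp only [ip_add_right, ip_smul_right] at h5
    have h6 : s * (k₁ * ip (c - c'') z₁ + k₂ * ip (c - c'') z₂ + k₃ * ip (c - c'') u₁ +
        k₄ * ip (c - c'') u₂) = 0 := by
      have h7 : ip (c - c'') y₁ = 0 := h2.wz
      rw [h7] at h5
      linarith
    have h7 := (mul_eq_zero.mp h6).resolve_left hs0
    have q1 := mul_nonneg p1 (hc2 z₁ h1.cz).le
    have q2 := mul_pos p2 (hc2 z₂ h3.cz)
    have q3 := mul_nonneg p3 (hc3 u₁ h1.cu).le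
    have q4 := mul_nonneg p4 (hc3 u₂ h3.cu).le
    linarith
  -- (3)
  set t : E := (s * det3 z₂ y₁ u₂) • u₁ + (-(s * det3 z₂ u₁ u₂)) • y₁ with ht
  have hβ : 0 < -(s * det3 z₂ u₁ u₂) := by linarith
  have hdt : det3 z₂ t u₂ = 0 := by
    rw [ht, det3_add2, det3_smul2, det3_smul2]; ring
  obtain ⟨α', β', hc⟩ := h3.comb ((h3.perp_iff t).mpr hdt)
  refine ⟨s * det3 z₂ y₁ u₂, -(s * det3 z₂ u₁ u₂), α', β', l4, hβ, ?_, ?_, hc⟩
  · have e1 : ip (c - c') t = α' * ip (c - c') u₂ := by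
      rw [hc, ip_add_right, ip_smul_right, ip_smul_right, h3.wz, mul_zero, add_zero]
    have e2 : 0 < ip (c - c') t := by
      rw [ht, ip_add_right, ip_smul_right, ip_smul_right]
      exact add_pos (mul_pos l4 hω1) (mul_pos hβ hωy)
    rw [e1] at e2
    exact (pos_iff_pos_of_mul_pos e2).mpr hω2
  · have e1 : s * det3 u₁ t u₂ = β' * (s * det3 u₁ z₂ u₂) := by
      rw [hc, det3_add2, det3_smul2, det3_smul2, det3_self23]; ring
    have e2 : 0 < s * det3 u₁ t u₂ := by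
      rw [ht, det3_add2, det3_smul2, det3_smul2, det3_self12, mul_zero, zero_add]
      have h5 := mul_pos hβ l3
      linarith
    rw [e1] at e2
    exact (pos_iff_pos_of_mul_pos e2).mpr l2

end MOutPair

open MOutPair in
/-- **Two out flats of the same group cross.** -/
theorem t_OutPair (hOrder : StmtOrder) (hQuadCone : StmtQuadCone) : StmtOutPair := by
  intro A B C e₁ f₁ e₂ c c' c'' u₁ z₁ y₁ u₂ z₂ h1 h2 h3 hne hpos
  rcases lt_trichotomy (det3 z₁ z₂ u₁) 0 with h0 | h0 | h0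
  · have hy : det3 z₁ y₁ u₁ < 0 := by
      by_contra h; push Not at h; nlinarith
    have hω : det3 (c - c') z₁ z₂ < 0 := (h1.det_pos_iff h3 h1.wu).2.1.mp h0
    have hω' : 0 < det3 (c - c') z₂ z₁ := by rw [det3_swap23]; linarith
    obtain ⟨o1, -, o3, -⟩ := hOrder A B C e₂ e₁ c c' u₂ z₂ u₁ z₁ h3 h1 hω'
    exact core hQuadCone (s := -1) (by norm_num) h1 h2 h3 hne (by linarith) (by linarith)
      (by linarith) (by linarith)
  · rw [h0, zero_mul] at hpos; exact absurd hpos (lt_irrefl _)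
  · have hy : 0 < det3 z₁ y₁ u₁ := (pos_iff_pos_of_mul_pos hpos).mp h0
    have hω : 0 < det3 (c - c') z₁ z₂ := (h1.det_pos_iff h3 h1.wu).1.mp h0
    obtain ⟨o1, -, o3, -⟩ := hOrder A B C e₁ e₂ c c' u₁ z₁ u₂ z₂ h1 h3 hω
    exact core hQuadCone (s := 1) (by norm_num) h1 h2 h3 hne (by linarith) (by linarith)
      (by linarith) (by linarith)

end TPH
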