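import Pool.Agent.TPH.St1

/-!
# Three parallel hyperplanes: parallel edges exposed together give a degenerate corner
-/

set_option autoImplicit false

namespace TPH

namespace MParO

theorem ip_cr_left (u v : E) : ip u (cr u v) = 0 := by
  rw [ip_cr', det3_self13]

theorem ip_cr_right (u v : E) : ip v (cr u v) = 0 := by
  rw [ip_cr', det3_self23]

/-- a proper superset of a pair has at least three elements -/
theorem three_le {x y : E} (hne : y ≠ x) {S : Finset E} (h : {x, y} ⊆ S) (h' : S ≠ {x, y}) :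
    3 ≤ S.card := by
  classical
  have h1 : ({x, y} : Finset E) ⊂ S := Finset.ssubset_iff_subset_ne.mpr ⟨h, h'.symm⟩
  have h2 := Finset.card_lt_card h1
  have h3 : ({x, y} : Finset E).card = 2 := Finset.card_pair hne.symm
  omega

end MParO

theorem t_ParO : StmtParO := by
  classical
  intro A C a a' c c' ρ hA3 ha hc hMA hMC hnp
  have hcardA : ({a, a'} : Finset E).card = 2 := Finset.card_pair ha.symm
  have hρ : ρ ≠ 0 := by
    rintro rfl
    rw [Mx_zero] at hMA
    rw [hMA, hcardA] at hA3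
    omega
  have hSA : ({a, a'} : Finset E) ≠ A := by
    intro h
    rw [← h, hcardA] at hA3
    omega
  have hδ : a - a' ≠ 0 := sub_ne_zero.mpr ha.symm
  have hδρ : ip (a - a') ρ = 0 := by
    have h1 : a ∈ Mx A ρ := by rw [hMA]; simp
    have h2 : a' ∈ Mx A ρ := by rw [hMA]; simp
    rw [ip_sub_left, Mx_eq h1 h2, sub_self]
  have hww : 0 < ip (cr (a - a') ρ) (cr (a - a') ρ) := by
    rw [lagrange, hδρ, mul_zero, sub_zero]
    exact mul_pos (ip_self_pos hδ) (ip_self_pos hρ)
  have hwA : Perp {a, a'} (cr (a - a') ρ) := by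
    rw [perp_pair]
    have h := MParO.ip_cr_left (a - a') ρ
    rw [ip_sub_left] at h
    linarith
  have hwC : Perp {c, c'} (cr (a - a') ρ) := by
    by_contra h
    exact hnp ⟨_, hwA, h⟩
  obtain ⟨M, τ, hM, hτ, hSz, hTz, hor, -⟩ := rotate hMA hMC ⟨a, by simp⟩ ⟨c, by simp⟩
    (Or.inl hSA) hwA hwC
  have hz0 : ρ + τ • (cr (a - a') ρ - M • ρ) ≠ 0 := by
    intro h
    have h1 : ip (cr (a - a') ρ) (ρ + τ • (cr (a - a') ρ - M • ρ)) = 0 := by
      rw [h, ip_zero_right]
    have h2 : ip (cr (a - a') ρ) ρ = 0 := by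
      rw [ip_comm]; exact MParO.ip_cr_right (a - a') ρ
    rw [ip_add_right, ip_smul_right, ip_sub_right, ip_smul_right, h2] at h1
    have h3 := mul_pos hτ hww
    linarith
  refine ⟨_, hz0, hSz (by simp), hTz (by simp), ?_⟩
  rcases hor with h | h
  · exact Or.inl (MParO.three_le ha hSz h)
  · exact Or.inr (MParO.three_le hc hTz h)

end TPH
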