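import Pool.Agent.TPH.St1

/-!
# Three parallel hyperplanes: the number of pieces

Proof of `StmtPieces` from `StmtNonCol`: every piece is charged to an edge of `A`, to a crossing, or
to a face of `C` (the last one at most twice), by walking along the piece to its left end.
-/

namespace TPH.MPieces

/-- A piece `(e,c)`, exposed by `u`, together with its left end `z`. -/
structure Dat (A C e : Finset E) (c d u z : E) : Prop where
  hd : d ≠ 0
  card : e.card = 2
  perp : ∀ v, Perp e v ↔ ip d v = 0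
  eu : Mx A u = e
  cu : Mx C u = {c}
  ez : e ⊆ Mx A z
  cz : c ∈ Mx C z
  ch : Mx A z ≠ e ∨ Mx C z ≠ {c}
  dt : 0 < det3 d u z

theorem exists_dir (e : Finset E) (he : e.card = 2) : ∃ d : E, d ≠ 0 ∧ ∀ v, Perp e v ↔ ip d v = 0 := by
  obtain ⟨a, a', hne, rfl⟩ := Finset.card_eq_two.mp he
  refine ⟨a - a', sub_ne_zero.mpr hne, fun v => ?_⟩
  rw [perp_pair, ip_sub_left, sub_eq_zero]

theorem exists_dat {A C e : Finset E} {c d : E} (hA : 3 ≤ A.card) (he : e.card = 2)
    (hd : d ≠ 0) (hp : ∀ v, Perp e v ↔ ip d v = 0) (u : E) (hu : Mx A u = e)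
    (hc : Mx C u = {c}) : ∃ z, Dat A C e c d u z := by
  have heA : e ≠ A := by
    rintro rfl; omega
  have hdu : ip d u = 0 := (hp u).mp (hu ▸ perp_Mx A u)
  have hw : cr d u ≠ 0 := by
    intro h
    obtain ⟨k, hk⟩ := par_of_cr hd h
    have hpos := ip_self_pos hd
    rw [hk, ip_smul_right] at hdu
    have hk0 : k = 0 := by
      rcases mul_eq_zero.mp hdu with h | h
      · exact h
      · exact absurd h hpos.ne'
    apply heA
    rw [← hu, hk, hk0, zero_smul, Mx_zero]
  have hdw : ip d (cr d u) = 0 := by rw [ip_cr', det3_self13]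
  have hene : e.Nonempty := Finset.card_pos.mp (by omega)
  obtain ⟨M, τ, hM, hτ, h1, h2, h3, -⟩ := rotate (w := cr d u) hu hc hene
    (Finset.singleton_nonempty c) (Or.inl heA) ((hp _).mpr hdw) (perp_singleton c _)
  refine ⟨u + τ • (cr d u - M • u), hd, he, hp, hu, hc, h1,
    h2 (Finset.mem_singleton_self c), h3, ?_⟩
  rw [det3_add3, det3_smul3, det3_sub3, det3_smul3, det3_self23, mul_zero, sub_zero, zero_add,
    ← ip_cr]
  exact mul_pos hτ (ip_self_pos hw)

namespace Dat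

variable {A C e : Finset E} {c d u z : E}

theorem du (h : Dat A C e c d u z) : ip d u = 0 := (h.perp u).mp (h.eu ▸ perp_Mx A u)

theorem dz (h : Dat A C e c d u z) : ip d z = 0 :=
  (h.perp z).mp ((perp_Mx A z).mono h.ez)

theorem indep (h : Dat A C e c d u z) : cr z u ≠ 0 := by
  intro h0
  have h1 : det3 d u z = - ip (cr z u) d := by
    rw [ip_cr]; simp only [det3]; ring
  have h2 := h.dt
  rw [h1, h0, ip_zero_left] at h2
  simp at h2

theorem zne (h : Dat A C e c d u z) : z ≠ 0 := by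
  intro h0
  have h2 := h.dt
  rw [h0, det3_zero3] at h2
  exact lt_irrefl _ h2

end Dat

/-- The key fact: the left end determines the point `c`. -/
theorem key {A C e : Finset E} {c₁ c₂ d u₁ u₂ z₁ z₂ : E} (h₁ : Dat A C e c₁ d u₁ z₁)
    (h₂ : Dat A C e c₂ d u₂ z₂) {κ : ℝ} (hκ : 0 < κ) (hz : z₂ = κ • z₁) : c₁ = c₂ := by
  have hdt : 0 < det3 d u₂ z₁ := by
    have := h₂.dt
    rw [hz, det3_smul3] at this
    exact (mul_pos_iff_of_pos_left hκ).mp this
  have hind : cr z₁ u₂ ≠ 0 := by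
    intro h0
    have h1 : det3 d u₂ z₁ = - ip (cr z₁ u₂) d := by
      rw [ip_cr]; simp only [det3]; ring
    rw [h1, h0, ip_zero_left] at hdt
    simp at hdt
  obtain ⟨α, β, hu⟩ := comb_of_perp h₁.hd hind h₁.dz h₂.du h₁.du
  have hβ : 0 < β := by
    have h1 := h₁.dt
    rw [hu, det3_add2, det3_smul2, det3_smul2, det3_self23, mul_zero, zero_add] at h1
    exact (pos_iff_pos_of_mul_pos h1).mpr hdt
  have hc2 : c₂ ∈ Mx C z₁ := by
    have := h₂.cz
    rw [hz, Mx_smul hκ] at this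
    exact this
  rcases le_or_gt 0 α with hα | hα
  · have h3 : Mx C u₁ = {c₂} := by
      rw [hu]
      exact Mx_comb_right hα hβ (Finset.singleton_nonempty c₂) h₂.cu
        (Finset.singleton_subset_iff.mpr hc2)
    rw [h₁.cu] at h3
    exact Finset.singleton_injective h3
  · have hu2 : u₂ = (-α / β) • z₁ + (1 / β) • u₁ := by
      rw [hu]
      funext i
      simp only [Pi.add_apply, Pi.smul_apply, smul_eq_mul]
      field_simp
      ring
    have h3 : Mx C u₂ = {c₁} := by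
      rw [hu2]
      exact Mx_comb_right (div_nonneg (by linarith) hβ.le) (by positivity)
        (Finset.singleton_nonempty c₁) h₁.cu (Finset.singleton_subset_iff.mpr h₁.cz)
    rw [h₂.cu] at h3
    exact (Finset.singleton_injective h3).symm

/-- In the plane of the edge, a functional which vanishes at `z` is a multiple of `det3 d z`. -/
theorem prop_det {A C e : Finset E} {c d u z : E} (h : Dat A C e c d u z) {x v : E}
    (hv : ip d v = 0) (hx : ip x z = 0) : ip x v * det3 d z u = ip x u * det3 d z v := by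
  obtain ⟨α, β, hv'⟩ := comb_of_perp h.hd h.indep h.dz h.du hv
  rw [hv', ip_add_right, ip_smul_right, ip_smul_right, hx, det3_add3, det3_smul3, det3_smul3,
    det3_self23]
  ring

/-- First half of case (i). -/
theorem half {A C e : Finset E} {c₁ c₂ d u₁ u₂ z₁ z₂ : E} (h₁ : Dat A C e c₁ d u₁ z₁)
    (h₂ : Dat A C e c₂ d u₂ z₂) (hne : Mx A z₁ ≠ e) :
    det3 d z₁ z₂ ≤ 0 ∧ 0 < det3 d u₂ z₁ := by
  have hex : ∃ b ∈ Mx A z₁, b ∉ e := by
    by_contra hcon
    push_neg at hcon
    exact hne (Finset.Subset.antisymm hcon h₁.ez)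
  obtain ⟨b, hb, hbe⟩ := hex
  obtain ⟨a, ha⟩ : e.Nonempty := Finset.card_pos.mp (by rw [h₁.card]; norm_num)
  have hbA := Mx_subset _ _ hb
  have hx : ip (a - b) z₁ = 0 := by
    rw [ip_sub_left, Mx_eq (h₁.ez ha) hb, sub_self]
  have hlt : ∀ u, Mx A u = e → 0 < ip (a - b) u := by
    intro u hu
    have := Mx_lt (A := A) (u := u) (a := a) (a' := b) (hu ▸ ha) hbA (hu ▸ hbe)
    rw [ip_sub_left]; linarith
  have hxu₁ := hlt u₁ h₁.eu
  have hxu₂ := hlt u₂ h₂.eu
  have hxz₂ : 0 ≤ ip (a - b) z₂ := by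
    have := Mx_le (h₂.ez ha) hbA
    rw [ip_sub_left]; linarith
  have hneg : det3 d z₁ u₁ < 0 := by
    have := h₁.dt
    rw [det3_swap23] ; linarith
  constructor
  · have hp := prop_det h₁ h₂.dz hx
    by_contra hcon
    push_neg at hcon
    have h3 : 0 < ip (a - b) u₁ * det3 d z₁ z₂ := mul_pos hxu₁ hcon
    have h4 : ip (a - b) z₂ * det3 d z₁ u₁ ≤ 0 := mul_nonpos_of_nonneg_of_nonpos hxz₂ hneg.le
    linarith
  · have hp := prop_det h₁ h₂.du hx
    rw [det3_swap23 d z₁ u₂]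
    have h4 : ip (a - b) u₂ * det3 d z₁ u₁ < 0 := mul_neg_of_pos_of_neg hxu₂ hneg
    rw [hp] at h4
    have h5 : det3 d z₁ u₂ < 0 := by
      by_contra hcon
      push_neg at hcon
      have := mul_nonneg hxu₁.le hcon
      linarith
    linarith

/-- Case (i): two pieces of the same edge whose left ends are vertices of `A`. -/
theorem caseI {A C e : Finset E} {c₁ c₂ d u₁ u₂ z₁ z₂ : E} (h₁ : Dat A C e c₁ d u₁ z₁)
    (h₂ : Dat A C e c₂ d u₂ z₂) (hne₁ : Mx A z₁ ≠ e) (hne₂ : Mx A z₂ ≠ e) : c₁ = c₂ := by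
  obtain ⟨ha, hb⟩ := half h₁ h₂ hne₁
  obtain ⟨ha', -⟩ := half h₂ h₁ hne₂
  have h0 : det3 d z₁ z₂ = 0 := by
    rw [det3_swap23 d z₁ z₂] at ha'
    linarith
  obtain ⟨α, β, hz⟩ := comb_of_perp h₁.hd h₁.indep h₁.dz h₁.du h₂.dz
  have hβ : β = 0 := by
    rw [hz, det3_add3, det3_smul3, det3_smul3, det3_self23, mul_zero, zero_add] at h0
    rcases mul_eq_zero.mp h0 with h | h
    · exact h
    · have := h₁.dt
      rw [det3_swap23 d z₁ u₁, h] at this
      simp at this
  rw [hβ, zero_smul, add_zero] at hz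
  have hα : 0 < α := by
    have h1 := h₂.dt
    rw [hz, det3_smul3] at h1
    exact (pos_iff_pos_of_mul_pos h1).mpr hb
  exact key h₁ h₂ hα hz

/-- If `z` and `α z` expose the same proper subset, then `α` is positive. -/
theorem pos_of_real {A e : Finset E} {z₁ z₂ : E} (he : e.Nonempty) (heA : e ≠ A)
    (h₁ : Mx A z₁ = e) (h₂ : Mx A z₂ = e) {α : ℝ} (hz : z₂ = α • z₁) : 0 < α := by
  by_contra hcon
  push_neg at hcon
  obtain ⟨a, ha⟩ := he
  apply heA
  apply Finset.Subset.antisymm (h₁ ▸ Mx_subset A z₁)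
  intro b hb
  rw [← h₂, hz]
  have h3 := Mx_le (h₁ ▸ ha : a ∈ Mx A z₁) hb
  have h4 : a ∈ Mx A z₂ := h₂ ▸ ha
  apply mem_Mx_of_eq (hz ▸ h4) hb
  have h5 := Mx_le h4 hb
  rw [hz, ip_smul_right, ip_smul_right] at h5
  rw [ip_smul_right, ip_smul_right]
  apply le_antisymm h5
  exact mul_le_mul_of_nonpos_left h3 hcon

/-- Case (ii). -/
theorem caseII {A C e g : Finset E} {c₁ c₂ d u₁ u₂ z₁ z₂ : E} (h₁ : Dat A C e c₁ d u₁ z₁)
    (h₂ : Dat A C e c₂ d u₂ z₂) (heA : e ≠ A) (he₁ : Mx A z₁ = e) (he₂ : Mx A z₂ = e)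
    (hg : g.card = 2) (hg₁ : Mx C z₁ = g) (hg₂ : Mx C z₂ = g) : c₁ = c₂ := by
  have hc1 : c₁ ∈ g := hg₁ ▸ h₁.cz
  obtain ⟨c', hc', hne⟩ : ∃ c' ∈ g, c' ≠ c₁ := by
    have : 1 < g.card := by omega
    obtain ⟨x, hx, hx'⟩ := Finset.exists_mem_ne this c₁
    exact ⟨x, hx, hx'⟩
  have hx1 : ip (c₁ - c') z₁ = 0 := by
    rw [ip_sub_left, Mx_eq h₁.cz (hg₁ ▸ hc' : c' ∈ Mx C z₁), sub_self]
  have hx2 : ip (c₁ - c') z₂ = 0 := by
    rw [ip_sub_left, Mx_eq (hg₂ ▸ hc1 : c₁ ∈ Mx C z₂) (hg₂ ▸ hc' : c' ∈ Mx C z₂), sub_self]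
  have hxu : 0 < ip (c₁ - c') u₁ := by
    have hc'C : c' ∈ C := Mx_subset C z₁ (hg₁ ▸ hc')
    have := Mx_lt (A := C) (u := u₁) (a := c₁) (a' := c')
      (h₁.cu ▸ Finset.mem_singleton_self c₁) hc'C
      (by rw [h₁.cu, Finset.mem_singleton]; exact hne)
    rw [ip_sub_left]; linarith
  obtain ⟨α, β, hz⟩ := comb_of_perp h₁.hd h₁.indep h₁.dz h₁.du h₂.dz
  have hβ : β = 0 := by
    rw [hz, ip_add_right, ip_smul_right, ip_smul_right, hx1, mul_zero, zero_add] at hx2
    rcases mul_eq_zero.mp hx2 with h | h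
    · exact h
    · exact absurd h hxu.ne'
  rw [hβ, zero_smul, add_zero] at hz
  have hene : e.Nonempty := Finset.card_pos.mp (by rw [h₁.card]; norm_num)
  exact key h₁ h₂ (pos_of_real hene heA he₁ he₂ hz) hz

end TPH.MPieces

namespace TPH

open MPieces in
theorem t_Pieces (hNonCol : StmtNonCol) : StmtPieces := by
  classical
  intro A C hA hC
  -- a direction for every pair
  have hdir : ∀ e : Finset E, ∃ d : E, e.card = 2 → (d ≠ 0 ∧ ∀ v, Perp e v ↔ ip d v = 0) := by
    intro e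
    by_cases he : e.card = 2
    · obtain ⟨d, h⟩ := exists_dir e he
      exact ⟨d, fun _ => h⟩
    · exact ⟨0, fun h => absurd h he⟩
  choose dl hdl using hdir
  have hdat : ∀ p ∈ Pc A C, ∃ u z, Dat A C p.1 p.2 (dl p.1) u z := by
    rintro ⟨e, c⟩ hp
    rw [mem_Pc] at hp
    obtain ⟨he, u, hu, hc⟩ := hp
    obtain ⟨h1, h2⟩ := hdl e he
    obtain ⟨z, hz⟩ := exists_dat hA he h1 h2 u hu hc
    exact ⟨u, z, hz⟩
  choose! u z hz using hdat
  have heA : ∀ p ∈ Pc A C, p.1 ≠ A := by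
    intro p hp h
    have := (hz p hp).card
    rw [h] at this; omega
  -- reference functional for every face
  have href : ∀ H : Finset E, ∃ v : E, H ∈ Faces C → (v ≠ 0 ∧ Mx C v = H) := by
    intro H
    by_cases hH : H ∈ Faces C
    · obtain ⟨-, v, h1, h2⟩ := mem_Faces.mp hH
      exact ⟨v, fun _ => ⟨h1, h2⟩⟩
    · exact ⟨0, fun h => absurd h hH⟩
  choose rf hrf using href
  -- the three classes
  have hsplit1 := Finset.card_filter_add_card_filter_not (s := Pc A C)
    (fun p => Mx A (z p) ≠ p.1)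
  have hsplit2 := Finset.card_filter_add_card_filter_not
    (s := (Pc A C).filter (fun p => ¬ Mx A (z p) ≠ p.1)) (fun p => (Mx C (z p)).card = 2)
  have hb1 : ((Pc A C).filter (fun p => Mx A (z p) ≠ p.1)).card ≤ (Ed A).card := by
    apply Finset.card_le_card_of_injOn (fun p => p.1)
    · intro p hp
      have hp := Finset.mem_filter.mp (Finset.mem_coe.mp hp)
      have h := hz p hp.1
      exact Finset.mem_coe.mpr (mem_Ed.mpr ⟨h.card, u p, h.eu⟩)
    · rintro ⟨e, c₁⟩ hp ⟨e', c₂⟩ hq heq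
      have hp := Finset.mem_filter.mp (Finset.mem_coe.mp hp)
      have hq := Finset.mem_filter.mp (Finset.mem_coe.mp hq)
      simp only at heq
      subst heq
      have h₁ := hz _ hp.1
      have h₂ := hz _ hq.1
      have := caseI h₁ h₂ hp.2 hq.2
      simp only at this
      rw [this]
  have hb2 : (((Pc A C).filter (fun p => ¬ Mx A (z p) ≠ p.1)).filter
      (fun p => (Mx C (z p)).card = 2)).card ≤ (Xc A C).card := by
    apply Finset.card_le_card_of_injOn (fun p => (p.1, Mx C (z p)))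
    · intro p hp
      have hp := Finset.mem_filter.mp (Finset.mem_coe.mp hp)
      obtain ⟨hp1, hp2⟩ := hp
      obtain ⟨hp1, hp3⟩ := Finset.mem_filter.mp hp1
      push_neg at hp3
      have h := hz p hp1
      refine Finset.mem_coe.mpr (mem_Xc.mpr ⟨h.card, hp2, ⟨z p, hp3, rfl⟩, u p,
        h.eu ▸ perp_Mx A (u p), ?_⟩)
      intro hperp
      obtain ⟨c', hc', hne⟩ : ∃ c' ∈ Mx C (z p), c' ≠ p.2 :=
        Finset.exists_mem_ne (by omega) p.2
      have h1 := hperp p.2 h.cz c' hc'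
      have h2 : p.2 ∈ Mx C (u p) := h.cu ▸ Finset.mem_singleton_self _
      have h3 := mem_Mx_of_eq h2 (Mx_subset _ _ hc') h1.symm
      rw [h.cu, Finset.mem_singleton] at h3
      exact hne h3
    · rintro ⟨e, c₁⟩ hp ⟨e', c₂⟩ hq heq
      have hp := Finset.mem_filter.mp (Finset.mem_coe.mp hp)
      have hq := Finset.mem_filter.mp (Finset.mem_coe.mp hq)
      obtain ⟨hp1, hp2⟩ := hp
      obtain ⟨hp1, hp3⟩ := Finset.mem_filter.mp hp1
      obtain ⟨hq1, hq2⟩ := hq
      obtain ⟨hq1, hq3⟩ := Finset.mem_filter.mp hq1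
      push_neg at hp3 hq3
      simp only [Prod.mk.injEq] at heq
      obtain ⟨he, hg⟩ := heq
      subst he
      have h₁ := hz _ hp1
      have h₂ := hz _ hq1
      have := caseII h₁ h₂ (heA _ hp1) hp3 hq3 hp2 rfl hg.symm
      simp only at this
      rw [this]
  have hface : ∀ p ∈ ((Pc A C).filter (fun p => ¬ Mx A (z p) ≠ p.1)).filter
      (fun p => ¬ (Mx C (z p)).card = 2), p ∈ Pc A C ∧ Mx A (z p) = p.1 ∧
        Mx C (z p) ∈ Faces C := by
    intro p hp
    obtain ⟨hp1, hp2⟩ := Finset.mem_filter.mp hp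
    obtain ⟨hp1, hp3⟩ := Finset.mem_filter.mp hp1
    push_neg at hp3
    have h := hz p hp1
    refine ⟨hp1, hp3, mem_Faces.mpr ⟨?_, z p, h.zne, rfl⟩⟩
    have h1 : 0 < (Mx C (z p)).card := Finset.card_pos.mpr ⟨_, h.cz⟩
    have h2 : (Mx C (z p)).card ≠ 1 := by
      intro h1
      obtain ⟨x, hx⟩ := Finset.card_eq_one.mp h1
      have hcx := h.cz
      rw [hx, Finset.mem_singleton] at hcx
      rcases h.ch with h' | h'
      · exact h' hp3
      · apply h'; rw [hx, hcx]
    omega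
  -- every functional exposing a face is a nonzero multiple of the reference functional
  have hmul : ∀ H ∈ Faces C, ∀ v : E, Mx C v = H → ∃ κ : ℝ, v = κ • rf H := by
    intro H hH v hv
    obtain ⟨h3, -⟩ := mem_Faces.mp hH
    obtain ⟨h0, hr⟩ := hrf H hH
    obtain ⟨a, b, c, ha, hb, hc, hab, hac, hbc⟩ := Finset.two_lt_card_iff.mp (by omega : 2 < H.card)
    have hsub : ({a, b, c} : Finset E) ⊆ H := by
      intro x hx
      simp only [Finset.mem_insert, Finset.mem_singleton] at hx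
      rcases hx with rfl | rfl | rfl <;> assumption
    have hHC : H ⊆ C := hv ▸ Mx_subset C v
    have hpr : Perp H (rf H) := by
      have h := perp_Mx C (rf H)
      rw [hr] at h
      exact h
    have hpv : Perp H v := by
      have h := perp_Mx C v
      rw [hv] at h
      exact h
    exact hNonCol C a b c (rf H) v hC (hHC ha) (hHC hb) (hHC hc) hab hac hbc h0
      (hpr.mono hsub) (hpv.mono hsub)
  have hb3 : (((Pc A C).filter (fun p => ¬ Mx A (z p) ≠ p.1)).filter
      (fun p => ¬ (Mx C (z p)).card = 2)).card ≤ 2 * (Faces C).card := by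
    have hcard : (Faces C ×ˢ (Finset.univ : Finset Bool)).card = 2 * (Faces C).card := by
      rw [Finset.card_product, Finset.card_univ, Fintype.card_bool, mul_comm]
    rw [← hcard]
    apply Finset.card_le_card_of_injOn
      (fun p => (Mx C (z p), decide (0 < ip (z p) (rf (Mx C (z p))))))
    · intro p hp
      obtain ⟨-, -, h3⟩ := hface p (Finset.mem_coe.mp hp)
      exact Finset.mem_coe.mpr (Finset.mem_product.mpr ⟨h3, Finset.mem_univ _⟩)
    · rintro ⟨e, c₁⟩ hp ⟨e', c₂⟩ hq heq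
      obtain ⟨hp1, hp2, hp3⟩ := hface _ (Finset.mem_coe.mp hp)
      obtain ⟨hq1, hq2, hq3⟩ := hface _ (Finset.mem_coe.mp hq)
      simp only [Prod.mk.injEq] at heq
      obtain ⟨hH, hs⟩ := heq
      rw [decide_eq_decide] at hs
      obtain ⟨κ₁, hκ₁⟩ := hmul _ hp3 (z (e, c₁)) rfl
      obtain ⟨κ₂, hκ₂⟩ := hmul _ hp3 (z (e', c₂)) hH.symm
      rw [← hH] at hs
      obtain ⟨h0, -⟩ := hrf _ hp3
      have hpos := ip_self_pos h0
      have h₁ := hz _ hp1
      have h₂ := hz _ hq1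
      set r := rf (Mx C (z (e, c₁))) with hr
      have hk1 : κ₁ ≠ 0 := by
        intro h; apply h₁.zne; rw [hκ₁, h, zero_smul]
      have hk2 : κ₂ ≠ 0 := by
        intro h; apply h₂.zne; rw [hκ₂, h, zero_smul]
      have e1 : ip (z (e, c₁)) r = κ₁ * ip r r := by rw [hκ₁, ip_smul_left]
      have e2 : ip (z (e', c₂)) r = κ₂ * ip r r := by rw [hκ₂, ip_smul_left]
      rw [e1, e2, mul_pos_iff_of_pos_right hpos, mul_pos_iff_of_pos_right hpos] at hs
      have hκ : 0 < κ₂ / κ₁ := by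
        rcases lt_or_gt_of_ne hk1 with h | h
        · have : κ₂ < 0 := by
            rcases lt_or_gt_of_ne hk2 with h' | h'
            · exact h'
            · exact absurd (hs.mpr h') (by linarith)
          exact div_pos_of_neg_of_neg this h
        · exact div_pos (hs.mp h) h
      have hzz : z (e', c₂) = (κ₂ / κ₁) • z (e, c₁) := by
        rw [hκ₂, hκ₁, smul_smul, div_mul_cancel₀ _ hk1]
      have hee : e = e' := by
        have h5 : Mx A (z (e', c₂)) = Mx A (z (e, c₁)) := by rw [hzz, Mx_smul hκ]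
        rw [hp2, hq2] at h5
        exact h5.symm
      subst hee
      have := key h₁ h₂ hκ hzz
      simp only at this
      rw [this]
  omega

end TPH
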