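import Pool.Agent.TPH.St1

/-!
# Three parallel hyperplanes: the number of cells around a ray
-/

set_option autoImplicit false

namespace TPH

namespace MPolySum

/-- Data of a cell `(a,c)` seen from the ray `ρ`: a functional `u` in the cell and its left end `z`. -/
structure Dat (G H : Finset E) (ρ a c u z : E) : Prop where
  aG : a ∈ G
  cH : c ∈ H
  ua : ∀ g ∈ G, g ≠ a → ip g u < ip a u
  uc : ∀ h ∈ H, h ≠ c → ip h u < ip c u
  za : ∀ g ∈ G, ip g z ≤ ip a z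
  zc : ∀ h ∈ H, ip h z ≤ ip c z
  det : 0 < det3 ρ u z

theorem Dat.swap {G H : Finset E} {ρ a c u z : E} (h : Dat G H ρ a c u z) : Dat H G ρ c a u z :=
  ⟨h.cH, h.aG, h.uc, h.ua, h.zc, h.za, h.det⟩

/-- one half of the comparison of two cells which share `a` -/
theorem half {G H : Finset E} {ρ a c₁ c₂ u₁ z₁ u₂ z₂ a₁ : E}
    (hG : ∀ g ∈ G, ∀ g' ∈ G, ip g ρ = ip g' ρ)
    (h₁ : Dat G H ρ a c₁ u₁ z₁) (h₂ : Dat G H ρ a c₂ u₂ z₂)
    (ha₁ : a₁ ∈ G) (hne : a₁ ≠ a) (hz : ip a₁ z₁ = ip a z₁) :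
    det3 ρ z₁ z₂ ≤ 0 ∧ det3 ρ z₁ u₂ < 0 ∧ cr ρ z₁ ≠ 0 := by
  have hd := h₁.det
  have hcr : cr ρ z₁ ≠ 0 := by
    intro h0
    have h1 : det3 ρ z₁ u₁ = 0 := by rw [← ip_cr, h0, ip_zero_left]
    rw [det3_swap23] at h1
    linarith
  obtain ⟨k, hk⟩ := par_cr_of_ip (z := ρ) (u := z₁) (d := a - a₁) hcr
    (by rw [ip_sub_left, hG a h₁.aG a₁ ha₁, sub_self]) (by rw [ip_sub_left, hz, sub_self])
  have hv : ∀ v, ip a v - ip a₁ v = k * det3 ρ z₁ v := by
    intro v
    rw [← ip_sub_left, hk, ip_smul_left, ip_cr]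
  have e1 := hv u₁
  have e2 := hv z₂
  have e3 := hv u₂
  have i1 := h₁.ua a₁ ha₁ hne
  have i2 := h₂.za a₁ ha₁
  have i3 := h₂.ua a₁ ha₁ hne
  rw [det3_swap23 ρ u₁ z₁] at e1
  have hk0 : k < 0 := by
    by_contra hk0
    push Not at hk0
    have : k * -det3 ρ u₁ z₁ ≤ 0 := by
      have := mul_nonneg hk0 hd.le
      linarith
    linarith
  refine ⟨?_, ?_, hcr⟩
  · by_contra hc
    push Not at hc
    have := mul_neg_of_neg_of_pos hk0 hc
    linarith
  · by_contra hc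
    push Not at hc
    have := mul_nonpos_of_nonpos_of_nonneg hk0.le hc
    linarith

/-- two cells which get the same `a` are equal -/
theorem inj {G H : Finset E} {ρ a c₁ c₂ u₁ z₁ u₂ z₂ a₁ a₂ : E}
    (hG : ∀ g ∈ G, ∀ g' ∈ G, ip g ρ = ip g' ρ) (hH : ∀ g ∈ H, ∀ g' ∈ H, ip g ρ = ip g' ρ)
    (h₁ : Dat G H ρ a c₁ u₁ z₁) (h₂ : Dat G H ρ a c₂ u₂ z₂)
    (ha₁ : a₁ ∈ G) (hne₁ : a₁ ≠ a) (hz₁ : ip a₁ z₁ = ip a z₁)
    (ha₂ : a₂ ∈ G) (hne₂ : a₂ ≠ a) (hz₂ : ip a₂ z₂ = ip a z₂) : c₁ = c₂ := by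
  obtain ⟨p1, p2, hcr⟩ := half hG h₁ h₂ ha₁ hne₁ hz₁
  obtain ⟨q1, q2, _⟩ := half hG h₂ h₁ ha₂ hne₂ hz₂
  rw [det3_swap23 ρ z₁ z₂] at q1
  have h0 : det3 ρ z₁ z₂ = 0 := by linarith
  obtain ⟨α, β, hab⟩ := comb_of_perp (z := ρ) (u := z₁) (d := cr ρ z₁) (v := z₂) hcr hcr
    (by rw [ip_cr, det3_self13]) (by rw [ip_cr, det3_self23]) (by rw [ip_cr, h0])
  have hβ : 0 < β := by
    have h1 := h₂.det
    rw [hab, det3_add3, det3_smul3, det3_smul3, det3_self13, mul_zero, zero_add,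
      det3_swap23 ρ z₁ u₂] at h1
    by_contra hc
    push Not at hc
    have : β * -det3 ρ z₁ u₂ ≤ 0 := mul_nonpos_of_nonpos_of_nonneg hc (by linarith)
    linarith
  by_contra hne
  have h2 := h₂.zc c₁ h₁.cH
  have h3 := h₁.zc c₂ h₂.cH
  have h4 := hH c₁ h₁.cH c₂ h₂.cH
  rw [hab, ip_add_right, ip_add_right, ip_smul_right, ip_smul_right, ip_smul_right,
    ip_smul_right, h4] at h2
  have h5 : ip c₁ z₁ ≤ ip c₂ z₁ := by
    have : β * ip c₁ z₁ ≤ β * ip c₂ z₁ := by linarith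
    exact le_of_mul_le_mul_left this hβ
  have h6 : ip c₁ z₁ = ip c₂ z₁ := le_antisymm h5 h3
  obtain ⟨k, hk⟩ := par_cr_of_ip (z := ρ) (u := z₁) (d := c₁ - c₂) hcr
    (by rw [ip_sub_left, h4, sub_self]) (by rw [ip_sub_left, h6, sub_self])
  have hv : ∀ v, ip c₁ v - ip c₂ v = k * det3 ρ z₁ v := by
    intro v
    rw [← ip_sub_left, hk, ip_smul_left, ip_cr]
  have e1 := hv u₁
  have e2 := hv u₂
  have i1 := h₁.uc c₂ h₂.cH (Ne.symm hne)
  have i2 := h₂.uc c₁ h₁.cH hne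
  have hd := h₁.det
  rw [det3_swap23 ρ u₁ z₁] at e1
  rcases le_or_gt 0 k with hk0 | hk0
  · have := mul_nonneg hk0 hd.le
    linarith
  · have := mul_pos_of_neg_of_neg hk0 p2
    linarith

/-- every cell has data -/
theorem exists_dat {A C : Finset E} {ρ a c : E} (hρ : ρ ≠ 0) (hac : (a, c) ∈ Fc A C)
    (ha : a ∈ Mx A ρ) (hc : c ∈ Mx C ρ) (hne : Mx A ρ ≠ {a} ∨ Mx C ρ ≠ {c}) :
    ∃ u z, Dat (Mx A ρ) (Mx C ρ) ρ a c u z ∧
      ((∃ a' ∈ Mx A ρ, a' ≠ a ∧ ip a' z = ip a z) ∨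
        (∃ c' ∈ Mx C ρ, c' ≠ c ∧ ip c' z = ip c z)) := by
  obtain ⟨u, hu1, hu2⟩ := mem_Fc.mp hac
  have haA : a ∈ Mx A u := by rw [hu1]; exact Finset.mem_singleton_self a
  have hcC : c ∈ Mx C u := by rw [hu2]; exact Finset.mem_singleton_self c
  have ua : ∀ g ∈ Mx A ρ, g ≠ a → ip g u < ip a u := by
    intro g hg hga
    apply Mx_lt haA (Mx_subset _ _ hg)
    rw [hu1, Finset.mem_singleton]
    exact hga
  have uc : ∀ h ∈ Mx C ρ, h ≠ c → ip h u < ip c u := by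
    intro g hg hga
    apply Mx_lt hcC (Mx_subset _ _ hg)
    rw [hu2, Finset.mem_singleton]
    exact hga
  have hGu : Mx (Mx A ρ) u = {a} := by
    ext g
    rw [mem_Mx, Finset.mem_singleton]
    constructor
    · rintro ⟨h1, h2⟩
      by_contra h3
      have := ua g h1 h3
      have := h2 a ha
      linarith
    · rintro rfl
      refine ⟨ha, fun g hg => ?_⟩
      exact Mx_le haA (Mx_subset _ _ hg)
  have hHu : Mx (Mx C ρ) u = {c} := by
    ext g
    rw [mem_Mx, Finset.mem_singleton]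
    constructor
    · rintro ⟨h1, h2⟩
      by_contra h3
      have := uc g h1 h3
      have := h2 c hc
      linarith
    · rintro rfl
      refine ⟨hc, fun g hg => ?_⟩
      exact Mx_le hcC (Mx_subset _ _ hg)
  have hw : cr ρ u ≠ 0 := by
    intro h0
    obtain ⟨k, hk⟩ := par_of_cr hρ h0
    rcases hne with h | h
    · apply h
      ext g
      rw [Finset.mem_singleton]
      constructor
      · intro hg
        by_contra h3
        have h4 := ua g hg h3
        rw [hk, ip_smul_right, ip_smul_right, Mx_eq hg ha] at h4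
        exact lt_irrefl _ h4
      · rintro rfl
        exact ha
    · apply h
      ext g
      rw [Finset.mem_singleton]
      constructor
      · intro hg
        by_contra h3
        have h4 := uc g hg h3
        rw [hk, ip_smul_right, ip_smul_right, Mx_eq hg hc] at h4
        exact lt_irrefl _ h4
      · rintro rfl
        exact hc
  have hperp : ∀ (x v : E), Perp {x} v := by
    intro x v b hb b' hb'
    rw [Finset.mem_singleton] at hb hb'
    rw [hb, hb']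
  obtain ⟨M, τ, hM, hτ, h1, h2, h3, _⟩ := rotate hGu hHu (Finset.singleton_nonempty a)
    (Finset.singleton_nonempty c)
    (by
      rcases hne with h | h
      · left; exact fun h' => h h'.symm
      · right; exact fun h' => h h'.symm) (hperp a (cr ρ u)) (hperp c (cr ρ u))
  have ha1 : a ∈ Mx (Mx A ρ) (u + τ • (cr ρ u - M • u)) := h1 (Finset.mem_singleton_self a)
  have hc1 : c ∈ Mx (Mx C ρ) (u + τ • (cr ρ u - M • u)) := h2 (Finset.mem_singleton_self c)
  refine ⟨u, u + τ • (cr ρ u - M • u), ⟨ha, hc, ua, uc, fun g hg => Mx_le ha1 hg,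
    fun g hg => Mx_le hc1 hg, ?_⟩, ?_⟩
  · rw [det3_add3, det3_self23, det3_smul3, det3_sub3, det3_smul3, det3_self23, mul_zero, sub_zero,
      zero_add, ← ip_cr]
    exact mul_pos hτ (ip_self_pos hw)
  · rcases h3 with h3 | h3
    · left
      by_contra hcon
      push Not at hcon
      apply h3
      ext g
      rw [Finset.mem_singleton]
      constructor
      · intro hg
        by_contra h4
        exact hcon g (Mx_subset _ _ hg) h4 (Mx_eq hg ha1)
      · rintro rfl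
        exact ha1
    · right
      by_contra hcon
      push Not at hcon
      apply h3
      ext g
      rw [Finset.mem_singleton]
      constructor
      · intro hg
        by_contra h4
        exact hcon g (Mx_subset _ _ hg) h4 (Mx_eq hg hc1)
      · rintro rfl
        exact hc1

end MPolySum

open MPolySum in
theorem t_PolySum : StmtPolySum := by
  classical
  intro A C ρ hρ
  set S : Finset (E × E) := @Finset.filter (E × E) (fun p => p.1 ∈ Mx A ρ ∧ p.2 ∈ Mx C ρ)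
    (Classical.decPred _) (Fc A C) with hS
  have hmem : ∀ p : E × E, p ∈ S ↔ p ∈ Fc A C ∧ p.1 ∈ Mx A ρ ∧ p.2 ∈ Mx C ρ := by
    intro p
    simp only [hS, Finset.mem_filter]
  have hG : ∀ g ∈ Mx A ρ, ∀ g' ∈ Mx A ρ, ip g ρ = ip g' ρ := fun g hg g' hg' => Mx_eq hg hg'
  have hH : ∀ g ∈ Mx C ρ, ∀ g' ∈ Mx C ρ, ip g ρ = ip g' ρ := fun g hg g' hg' => Mx_eq hg hg'
  by_cases hsmall : (Mx A ρ).card ≤ 1 ∧ (Mx C ρ).card ≤ 1
  · rcases S.eq_empty_or_nonempty with h0 | ⟨p, hp⟩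
    · rw [h0, Finset.card_empty]
      exact Nat.zero_le _
    · have hp' := (hmem p).1 hp
      have h1 : S ⊆ {p} := by
        intro q hq
        have hq' := (hmem q).1 hq
        rw [Finset.mem_singleton]
        exact Prod.ext (Finset.card_le_one.1 hsmall.1 _ hq'.2.1 _ hp'.2.1)
          (Finset.card_le_one.1 hsmall.2 _ hq'.2.2 _ hp'.2.2)
      have h2 := Finset.card_le_card h1
      rw [Finset.card_singleton] at h2
      have h3 : 1 ≤ (Mx A ρ).card := Finset.card_pos.2 ⟨p.1, hp'.2.1⟩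
      omega
  · have hne : ∀ a c : E, Mx A ρ ≠ {a} ∨ Mx C ρ ≠ {c} := by
      intro a c
      by_contra hcon
      push Not at hcon
      apply hsmall
      rw [hcon.1, hcon.2, Finset.card_singleton, Finset.card_singleton]
      exact ⟨le_rfl, le_rfl⟩
    set P₁ : E × E → Prop := fun p => ∃ u z, Dat (Mx A ρ) (Mx C ρ) ρ p.1 p.2 u z ∧
      ∃ a' ∈ Mx A ρ, a' ≠ p.1 ∧ ip a' z = ip p.1 z with hP₁
    set P₂ : E × E → Prop := fun p => ∃ u z, Dat (Mx A ρ) (Mx C ρ) ρ p.1 p.2 u z ∧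
      ∃ c' ∈ Mx C ρ, c' ≠ p.2 ∧ ip c' z = ip p.2 z with hP₂
    have hsub : S ⊆ S.filter P₁ ∪ S.filter P₂ := by
      intro p hp
      have hp' := (hmem p).1 hp
      obtain ⟨u, z, hd, h | h⟩ := exists_dat hρ (show (p.1, p.2) ∈ Fc A C from hp'.1) hp'.2.1
        hp'.2.2 (hne p.1 p.2)
      · exact Finset.mem_union_left _ (Finset.mem_filter.2 ⟨hp, u, z, hd, h⟩)
      · exact Finset.mem_union_right _ (Finset.mem_filter.2 ⟨hp, u, z, hd, h⟩)
    have hc1 : (S.filter P₁).card ≤ (Mx A ρ).card := by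
      apply Finset.card_le_card_of_injOn Prod.fst
      · intro p hp
        have hp1 := Finset.mem_filter.1 (Finset.mem_coe.1 hp)
        exact ((hmem p).1 hp1.1).2.1
      · intro p hp q hq hpq
        obtain ⟨_, u₁, z₁, hd₁, a₁, h1, h2, h3⟩ := Finset.mem_filter.1 (Finset.mem_coe.1 hp)
        obtain ⟨_, u₂, z₂, hd₂, a₂, h4, h5, h6⟩ := Finset.mem_filter.1 (Finset.mem_coe.1 hq)
        rw [← hpq] at hd₂ h5 h6
        exact Prod.ext hpq (inj hG hH hd₁ hd₂ h1 h2 h3 h4 h5 h6)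
    have hc2 : (S.filter P₂).card ≤ (Mx C ρ).card := by
      apply Finset.card_le_card_of_injOn Prod.snd
      · intro p hp
        have hp1 := Finset.mem_filter.1 (Finset.mem_coe.1 hp)
        exact ((hmem p).1 hp1.1).2.2
      · intro p hp q hq hpq
        obtain ⟨_, u₁, z₁, hd₁, a₁, h1, h2, h3⟩ := Finset.mem_filter.1 (Finset.mem_coe.1 hp)
        obtain ⟨_, u₂, z₂, hd₂, a₂, h4, h5, h6⟩ := Finset.mem_filter.1 (Finset.mem_coe.1 hq)
        rw [← hpq] at hd₂ h5 h6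
        exact Prod.ext (inj hH hG hd₁.swap hd₂.swap h1 h2 h3 h4 h5 h6) hpq
    calc S.card ≤ (S.filter P₁ ∪ S.filter P₂).card := Finset.card_le_card hsub
      _ ≤ (S.filter P₁).card + (S.filter P₂).card := Finset.card_union_le _ _
      _ ≤ _ := Nat.add_le_add hc1 hc2

end TPH
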