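import Pool.Agent.TPH.St1

/-!
# Three parallel hyperplanes: a cell without degenerate corners has two sides of each kind
-/

set_option autoImplicit false

namespace TPH

namespace MQuad

theorem cr_smul_right (u w : E) (k : ℝ) : cr u (k • w) = k • cr u w := by
  funext i; fin_cases i <;> simp [cr] <;> ring

theorem cr_add_right (u v w : E) : cr u (v + w) = cr u v + cr u w := by
  funext i; fin_cases i <;> simp [cr] <;> ring

theorem cr_sub_right (u v w : E) : cr u (v - w) = cr u v - cr u w := by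
  funext i; fin_cases i <;> simp [cr] <;> ring

theorem cr_zero_right (u : E) : cr u 0 = 0 := by
  funext i; fin_cases i <;> simp [cr]

/-- A vector which is not parallel to `u`. -/
theorem exists_indep {u : E} (hu : u ≠ 0) : ∃ w : E, cr u w ≠ 0 := by
  by_contra h
  push Not at h
  have h0 := h ![1, 0, 0]
  have h1 := h ![0, 1, 0]
  have a1 : u 2 = 0 := by simpa [cr] using congrFun h0 1
  have a2 : u 1 = 0 := by simpa [cr] using congrFun h0 2
  have a3 : u 0 = 0 := by simpa [cr] using congrFun h1 2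
  apply hu
  funext i; fin_cases i <;> simp [a1, a2, a3]

/-- The end point of a rotation is not zero. -/
theorem end_ne {u w : E} (h : cr u w ≠ 0) {M τ : ℝ} (hτ : 0 < τ) : u + τ • (w - M • u) ≠ 0 := by
  intro h0
  have h1 : cr u (u + τ • (w - M • u)) = τ • cr u w := by
    rw [cr_add_right, cr_smul_right, cr_sub_right, cr_smul_right, cr_self, smul_zero, sub_zero,
      zero_add]
  rw [h0, cr_zero_right] at h1
  rcases smul_eq_zero.mp h1.symm with h2 | h2
  · exact hτ.ne' h2
  · exact h h2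

/-- Sets with at most two elements. -/
theorem small {S : Finset E} {a : E} (ha : a ∈ S) (h : ¬ 3 ≤ S.card) :
    S = {a} ∨ ∃ a', a' ≠ a ∧ S = {a, a'} := by
  classical
  have h1 : 0 < S.card := Finset.card_pos.mpr ⟨a, ha⟩
  have h2 : S.card = 1 ∨ S.card = 2 := by omega
  rcases h2 with h2 | h2
  · left
    obtain ⟨b, hb⟩ := Finset.card_eq_one.mp h2
    rw [hb, Finset.mem_singleton] at ha
    rw [hb, ha]
  · right
    obtain ⟨x, y, hxy, hS⟩ := Finset.card_eq_two.mp h2
    rw [hS, Finset.mem_insert, Finset.mem_singleton] at ha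
    rcases ha with rfl | rfl
    · exact ⟨y, hxy.symm, hS⟩
    · exact ⟨x, hxy, by rw [hS, Finset.pair_comm]⟩

theorem two_le {S : Finset E} {x y : E} (hx : x ∈ S) (hy : y ∈ S) (h : x ≠ y) : 2 ≤ S.card := by
  classical
  have h1 : ({x, y} : Finset E) ⊆ S := by
    intro b hb
    rw [Finset.mem_insert, Finset.mem_singleton] at hb
    rcases hb with rfl | rfl
    · exact hx
    · exact hy
  have h2 := Finset.card_le_card h1
  rwa [Finset.card_pair h] at h2

/-- One side is enough. -/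
theorem of_side (hTwoCorners : StmtTwoCorners) (hCornerNbr : StmtCornerNbr) {A C : Finset E}
    {a c a' : E} (hA : 3 ≤ A.card) (hC : 3 ≤ C.card) (hO : ¬ Ov A C a c)
    (h : a' ∈ NA A C a c) : 2 ≤ (NA A C a c).card ∧ 2 ≤ (NA C A c a).card := by
  obtain ⟨c₁, c₂, hne, hc1, hc2⟩ := hTwoCorners A C a a' c hA hO h
  have k1 := (hCornerNbr A C a a' c c₁ hc1).2.2.2.2.1
  have k2 := (hCornerNbr A C a a' c c₂ hc2).2.2.2.2.1
  have hO' : ¬ Ov C A c a := fun h' => hO (Ov_swap.mp h')
  obtain ⟨a₁, a₂, hne', ha1, ha2⟩ := hTwoCorners C A c c₁ a hC hO' k1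
  have l1 := (hCornerNbr C A c c₁ a a₁ ha1).2.2.2.2.1
  have l2 := (hCornerNbr C A c c₁ a a₂ ha2).2.2.2.2.1
  exact ⟨two_le l1 l2 hne', two_le k1 k2 hne⟩

end MQuad

theorem t_Quad (hTwoCorners : StmtTwoCorners) (hCornerNbr : StmtCornerNbr) (hParO : StmtParO) :
    StmtQuad := by
  classical
  intro A C a c hA hC hac hO
  obtain ⟨u₀, hu1, hu2⟩ := mem_Fc.mp hac
  have hSA : ({a} : Finset E) ≠ A := by
    intro h
    rw [← h, Finset.card_singleton] at hA
    omega
  have hu0 : u₀ ≠ 0 := by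
    rintro rfl
    rw [Mx_zero] at hu1
    exact hSA hu1.symm
  obtain ⟨w, hw⟩ := MQuad.exists_indep hu0
  have hperp : ∀ b : E, Perp {b} w := by
    intro b x hx y hy
    rw [Finset.mem_singleton] at hx hy
    rw [hx, hy]
  obtain ⟨M, τ, hM, hτ, hS, hT, hne, -⟩ := rotate hu1 hu2 ⟨a, by simp⟩ ⟨c, by simp⟩ (Or.inl hSA)
    (hperp a) (hperp c)
  set z : E := u₀ + τ • (w - M • u₀) with hz
  have hz0 : z ≠ 0 := MQuad.end_ne hw hτ
  have haz : a ∈ Mx A z := hS (by simp)
  have hcz : c ∈ Mx C z := hT (by simp)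
  have hno : ¬ (3 ≤ (Mx A z).card ∨ 3 ≤ (Mx C z).card) := by
    intro h
    exact hO ⟨z, hz0, haz, hcz, h⟩
  push Not at hno
  have hO' : ¬ Ov C A c a := fun h' => hO (Ov_swap.mp h')
  rcases MQuad.small haz (by omega) with h1 | ⟨a', ha', h1⟩
  · rcases MQuad.small hcz (by omega) with h2 | ⟨c', hc', h2⟩
    · rcases hne with h | h
      · exact absurd h1 h
      · exact absurd h2 h
    · have h3 : c' ∈ NA C A c a := mem_NA.mpr ⟨hc', z, h2, h1⟩
      have h4 := MQuad.of_side hTwoCorners hCornerNbr hC hA hO' h3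
      exact ⟨h4.2, h4.1⟩
  · rcases MQuad.small hcz (by omega) with h2 | ⟨c', hc', h2⟩
    · exact MQuad.of_side hTwoCorners hCornerNbr hA hC hO (mem_NA.mpr ⟨ha', z, h1, h2⟩)
    · by_cases hv : ∃ v, Perp {a, a'} v ∧ ¬ Perp {c, c'} v
      · have hcor : Corner A C a a' c c' := ⟨ha', hc', ⟨z, h1, h2⟩, hv⟩
        exact MQuad.of_side hTwoCorners hCornerNbr hA hC hO (hCornerNbr A C a a' c c' hcor).2.2.2.1
      · exact absurd (hParO A C a a' c c' z hA ha' hc' h1 h2 hv) hO

end TPH
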