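import Pool.Agent.TPH.Basic

/-!
# Three parallel hyperplanes: statements about the overlay of two normal fans

Picture. `A` and `C` are finite sets in `ℝ^3`.  The vectors `u : E` are functionals; think of them as
points of a sphere.  `{u | Mx A u = {a}}` is an open convex cone (a cell of the normal fan of `A`),
`{u | Mx A u = {a,a'}}` is an open piece of the plane `(a-a')^⊥` (the arc of the edge `{a,a'}`).
`Fc A C` are the cells of the overlay of the two fans; `NA A C a c` are the cells `(a',c)` which share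
an `A`-side with the cell `(a,c)`; `NA C A c a` are the `c'` such that `(a,c')` shares a `C`-side with
`(a,c)` (note the swapped arguments; by definition it is the set of `c' ≠ c` such that
`Mx C u = {c,c'}` and `Mx A u = {a}` for some `u`).

Every statement is proved in a module of its own; the docstrings contain complete proofs.
Useful facts in `Basic`: `Mx_comb`, `Mx_comb_left`, `Mx_comb_right`, `Mx_pert`, `Mx_pert3`,
`rotate`, `perp_iff_det`, `perp_comb`, `par_of_cr`, `cramer`, `Mx_of_perp`, `Mx_pair_left`.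
-/

namespace TPH

/-- A corner of the cells `(a,c)`, `(a',c)`, `(a,c')`, `(a',c')`: the arc of the edge `{a,a'}` of `A`
crosses the arc of the (not parallel) edge `{c,c'}` of `C`. -/
def Corner (A C : Finset E) (a a' c c' : E) : Prop :=
  a' ≠ a ∧ c' ≠ c ∧ (∃ ρ, Mx A ρ = {a, a'} ∧ Mx C ρ = {c, c'}) ∧
    ∃ v, Perp {a, a'} v ∧ ¬ Perp {c, c'} v

/-- **StmtThree.** Three vectors in a plane which are in an open half plane cannot each be supported.
PROOF. For `d i` in the plane `φ^⊥` write `[i,j] = det3 φ (d i) (d j)`.  The identity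
`[j,k] d i - [i,k] d j + [i,j] d k = 0` holds for vectors of `φ^⊥` (check it by taking cross products
or coordinates; it follows from `cramer` with the fourth vector, or from
`det3 φ x y • φ = ip φ φ • cr x y` for `x,y ∈ φ^⊥`).  Take the inner product with `u i`:
`[i,k] * ip (u i) (d j) = [i,j] * ip (u i) (d k)`, where both inner products are negative, so `[i,j]`
and `[i,k]` have the same sign, for all three choices of `i`.  Since `[j,i] = -[i,j]`, this forces all
three brackets to be zero.  Then `d 2 = κ d 1`, `κ > 0` because of `u0`, and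
`ip (u 1) (d 2) = κ ip (u 1) (d 1) = 0`, a contradiction. -/
def StmtThree : Prop := ∀ φ u0 u1 u2 u3 d1 d2 d3 : E, φ ≠ 0 →
  ip φ d1 = 0 → ip φ d2 = 0 → ip φ d3 = 0 →
  ip u0 d1 < 0 → ip u0 d2 < 0 → ip u0 d3 < 0 →
  ip u1 d1 = 0 → ip u1 d2 < 0 → ip u1 d3 < 0 →
  ip u2 d2 = 0 → ip u2 d1 < 0 → ip u2 d3 < 0 →
  ip u3 d3 = 0 → ip u3 d1 < 0 → ip u3 d2 < 0 → False

/-- **StmtGeneric.** There is a functional which separates the points of a finite set.
PROOF. Avoid finitely many planes: e.g. take `φ = (1, t, t^2)` with `t` not a root of finitely many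
nonzero polynomials of degree at most 2 in `t` (`a - a'` gives `d 0 + d 1 t + d 2 t^2`); a nonzero
polynomial has finitely many roots, `ℝ` is infinite. -/
def StmtGeneric : Prop := ∀ S : Finset E, ∃ φ : E, φ ≠ 0 ∧
  ∀ a ∈ S, ∀ a' ∈ S, ip a φ = ip a' φ → a = a'

/-- **StmtCrossLe.** There are at most as many crossings as cells.
PROOF. Take a generic `φ` for `A ∪ C` (`StmtGeneric`).  For a crossing `(e,g)`, `e = {a,a'}` with
`ip a φ < ip a' φ`, `g = {c,c'}` with `ip c φ < ip c' φ`, the two pairs `(a,c')` and `(a',c)` are its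
middle cells; both lie in `Fc A C` (perturb the exposing `u` in a direction `w` which is positive on
`a - a'` and on `c' - c`, such `w` exists because the two differences are independent).  The number of
pairs (crossing, middle cell) is `2 * (Xc A C).card`.  CLAIM: every cell `(a,c)` is a middle cell of at
most two crossings; this gives `2 * |Xc| ≤ 2 * |Fc|`.  Proof of the claim: suppose `(a,c)` is the
middle cell of three different crossings `({a,a_i},{c,c_i})`, exposed by `u_i`, `i = 1,2,3`.  Then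
`ip (a_i - a) φ` and `ip (c_i - c) φ` have opposite signs; choose `p,q > 0` with
`d_i = p (a_i - a) + q (c_i - c)`, `ip φ d_i = 0`.  `ip u_j d_i ≤ 0` with equality iff
`a_i ∈ Mx A u_j = {a,a_j}` and `c_i ∈ {c,c_j}`, that is iff the crossings `i`, `j` coincide.  With
`u_0` exposing `(a,c)` (or `u_0 = u_1 + u_2 + u_3`) all `ip u_0 d_i < 0`.  `StmtThree` gives the
contradiction. -/
def StmtCrossLe : Prop := ∀ A C : Finset E, (Xc A C).card ≤ (Fc A C).card

/-- **StmtNonCol.** Three different points of a set in convex position are not collinear, so two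
nonzero functionals which are constant on them are parallel.
PROOF. If `a - b` and `a - c` are parallel, one of the three points is a convex combination
`t x + (1-t) y`, `0 < t < 1`, of the other two, and it cannot be the only maximiser of a functional.
So `cr (a - b) (a - c) ≠ 0`, and `u`, `u'` are both orthogonal to `a-b` and `a-c`, hence multiples of
`cr (a-b) (a-c)` (`par_cr_of_ip`). -/
def StmtNonCol : Prop := ∀ (A : Finset E) (a b c u u' : E), ConvPos A → a ∈ A → b ∈ A → c ∈ A →
  a ≠ b → a ≠ c → b ≠ c → u ≠ 0 → Perp {a, b, c} u → Perp {a, b, c} u' →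
  ∃ κ : ℝ, u' = κ • u

/-- **StmtFaceSum.** The sum of `|G| - 2` over the faces with at least three points is at most `2|A|`.
PROOF. Take a generic `φ` for `A` (`StmtGeneric`).  In a face `G` exactly `|G| - 2` points are neither
the lowest nor the highest point of `G` with respect to `φ`.  CLAIM: a point `a ∈ A` is such a middle
point of at most two faces.  Suppose it is a middle point of three different faces `G_i = Mx A u_i`,
`u_i ≠ 0`; choose `x_i, y_i ∈ G_i` with `ip x_i φ < ip a φ < ip y_i φ` and `p,q > 0` with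
`d_i = p (x_i - a) + q (y_i - a)`, `ip φ d_i = 0`.  Then `ip u_i d_i = 0`, `ip u_j d_i ≤ 0`, with
equality iff `x_i, y_i ∈ G_j`.  In the case of equality the three different points `a, x_i, y_i` lie in
`G_i ∩ G_j`, so `u_j = κ u_i` by `StmtNonCol`, `κ ≠ 0`; for `κ > 0` we get `G_i = G_j`; for `κ < 0` the
point `a` is a maximiser of `u_i` and of `-u_i`, so `u_i` is constant on `A` and `G_i = A = G_j`.
Contradiction, so `ip u_j d_i < 0` for `i ≠ j`.  `u_0` exposing `a` alone has `ip u_0 d_i < 0`.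
`StmtThree` gives the contradiction.  Double counting finishes the proof. -/
def StmtFaceSum : Prop := ∀ A : Finset E, ConvPos A → ∑ G ∈ Faces A, (G.card - 2) ≤ 2 * A.card

/-- **StmtPolySum.** For a ray `ρ`, the number of cells of the overlay which have `ρ` as a corner is at
most the sum of the numbers of maximisers.
PROOF. Put `G = Mx A ρ`, `H = Mx C ρ`.  Let `(a,c)` be in the set on the left, `u₀` a functional with
`Mx A u₀ = {a}`, `Mx C u₀ = {c}`; then `Mx G u₀ = {a}`, `Mx H u₀ = {c}`.  If `G = {a}` and `H = {c}`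
there is only one cell.  Otherwise `u₀` is not parallel to `ρ`, put `w = cr ρ u₀` and rotate
(`rotate` for the sets `G`, `H`): `z = u₀ + τ (w - M u₀)`, with `Mx G z ≠ {a}` or `Mx H z ≠ {c}`, and
`det3 ρ u₀ z = τ * ip w w > 0`.  Assign to `(a,c)` the element `a` of `G` if `Mx G z ≠ {a}` and the
element `c` of `H` otherwise.  This is injective: suppose `(a,c₁)` and `(a,c₂)` both get `a`, with
`u₁,z₁` and `u₂,z₂`.  All functionals are considered modulo `ρ` (the points of `G` have equal value on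
`ρ`, so do those of `H`).  Choose `a₁ ∈ G` with `a₁ ≠ a`, `ip a₁ z₁ = ip a z₁`; `x = a - a₁` is
orthogonal to `ρ` and to `z₁`, so `ip x v = λ * det3 ρ z₁ v` for all `v`, and `ip x u₁ > 0` shows
`λ < 0`; `ip x z₂ ≥ 0` gives `det3 ρ z₁ z₂ ≤ 0`, and by symmetry `det3 ρ z₂ z₁ ≤ 0`, so
`det3 ρ z₁ z₂ = 0`, `z₂ = κ z₁ + μ ρ`.  `ip x u₂ > 0` gives `det3 ρ z₁ u₂ < 0`, that is
`det3 ρ u₂ z₁ > 0`, and `det3 ρ u₂ z₂ = κ det3 ρ u₂ z₁ > 0` gives `κ > 0`.  Hence
`Mx H z₂ = Mx H z₁` contains `c₁` and `c₂` (`H ∋ c_i` stays a maximiser until `z_i`).  If `c₁ ≠ c₂`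
then `y = c₁ - c₂` is orthogonal to `ρ` and `z₁`, `ip y v = λ' det3 ρ z₁ v`, and `det3 ρ z₁ u₁ < 0`,
`det3 ρ z₁ u₂ < 0` have the same sign, but `ip y u₁ > 0 > ip y u₂`.  Contradiction.  The case where
both get an element `c` of `H` is the same with the roles exchanged (there the maximisers in `G` do
not change at `z`, but the same computation works: `Mx H z ≠ {c}`, and `a₁, a₂` are both maximisers at
`z₁`). -/
def StmtPolySum : Prop := ∀ (A C : Finset E) (ρ : E), ρ ≠ 0 →
  (@Finset.filter (E × E) (fun p => p.1 ∈ Mx A ρ ∧ p.2 ∈ Mx C ρ) (Classical.decPred _)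
    (Fc A C)).card ≤ (Mx A ρ).card + (Mx C ρ).card

/-- **StmtPieces.** The number of pieces `(e,c)` is at most the number of edges plus the number of
crossings plus twice the number of faces of `C`.
PROOF. For an edge `e = {a,a'}` of `A` fix the order of the two points (by choice) and put
`δ = a - a'`.  Let `(e,c)` be a piece, `Mx A u₁ = e`, `Mx C u₁ = {c}`.  `u₁ ≠ 0` because
`3 ≤ |A|` (`Mx A 0 = A`).  Rotate `u₁` (lemma `rotate`, sets `A`, `C`, `S = e ≠ A`, `T = {c}`) in the
direction `w = cr δ u₁`, which is orthogonal to `e`: `z = u₁ + τ (w - M u₁)`, `e ⊆ Mx A z`,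
`c ∈ Mx C z`, and `det3 δ u₁ z = τ * ip w w > 0` (so `z` is the left end of the piece; `z ≠ 0`).
Cases: (i) `Mx A z ≠ e`: charge the edge `e`.  (ii) `Mx A z = e` and `|Mx C z| = 2`: charge the
crossing `(e, Mx C z)`, it is not parallel: `Perp e u₁` but not `Perp (Mx C z) u₁`.  (iii) `Mx A z = e`
and `|Mx C z| ≥ 3`: charge the face `Mx C z ∈ Faces C`.  Multiplicities: in (i) and (ii) one, in (iii)
two.  KEY FACT: if `(e,c₁)` and `(e,c₂)` are pieces with data `u₁,z₁` and `u₂,z₂`, and `z₂ = κ z₁`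
with `κ > 0`, then `c₁ = c₂`: in the plane `δ^⊥` both `u₁`, `u₂` are on the same side of the line of
`z₁`, so `u₁ = α z₁ + β u₂` with `β > 0`; if `α ≥ 0` then `c₂ ∈ Mx C z₁` and `Mx C u₂ = {c₂}` give
`Mx C u₁ = {c₂}` (`Mx_comb_right`); if `α < 0` exchange the roles.  In case (i) the two left ends
of pieces of the same edge are positively parallel: choose `b ∈ Mx A z₁ \ e` and `x = a - b`, so
`ip x z₁ = 0`, `ip x u₁ > 0`, `ip x u₂ > 0` (both `u_i` have `Mx A u_i = e`), `ip x z₂ ≥ 0` (because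
`a ∈ Mx A z₂`).  On the plane `δ^⊥` the functional `x` is `λ * det3 δ z₁ ·` (it vanishes at `z₁`);
`ip x u₁ > 0` and `det3 δ u₁ z₁ > 0` give `λ < 0`, then `ip x z₂ ≥ 0` gives `det3 δ z₁ z₂ ≤ 0`, by
symmetry `det3 δ z₂ z₁ ≤ 0`, so `z₂ = κ z₁`.  `ip x u₂ > 0` gives `det3 δ u₂ z₁ > 0`, and
`0 < det3 δ u₂ z₂ = κ * det3 δ u₂ z₁` gives `κ > 0`.  In case (ii) `z` is determined up to positive multiples by
`(e,g)` (it is orthogonal to two independent vectors, and `-z` is excluded by `Mx A z = e ≠ A`).  In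
case (iii) `z` is determined up to real multiples by `H = Mx C z` (`StmtNonCol`), so there are at most
two rays, and the ray determines `e = Mx A z` and then `c` by the key fact. -/
def StmtPieces : Prop := ∀ A C : Finset E, 3 ≤ A.card → ConvPos C →
  (Pc A C).card ≤ (Ed A).card + (Xc A C).card + 2 * (Faces C).card

/-- **StmtEdgeCount.** The number of edges is at most twice the sum of the sizes of the faces.
PROOF. For an edge `e = {a,a'}`, `Mx A u₁ = e`, rotate `u₁` with `rotate` (both sets equal to `A`,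
`S = T = e ≠ A` because `3 ≤ |A|`) in the direction `w = cr (a-a') u₁`: `z = u₁ + τ (w - M u₁)`,
`Mx A z = G` contains `e` properly, so `G ∈ Faces A` (`z ≠ 0` because `cr u₁ z ≠ 0`).  Name the two
points of `e` so that `det3 z u₁ (a - a') > 0` (it is not zero: `a - a'` is orthogonal to the
independent vectors `z`, `u₁`), and assign to `e` the pair `(G,a)`.  CLAIM: each pair `(G,a)` is
assigned to at most two edges.  For a fixed `G` the vector `z` is determined up to real multiples
(`StmtNonCol`), so it is enough to show: for `e₁ = {a,a₁}`, `e₂ = {a,a₂}` with `u₁,z₁` and `u₂,z₂`,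
`z₂ = κ z₁`, `κ > 0`, we have `e₁ = e₂`.  Put `d_i = a - a_i`, `ρ = z₁`, orthogonal to `d₁`, `d₂`.
`ip d₁ u₁ = 0`, `ip d₂ u₁ ≥ 0`, `ip d₂ u₂ = 0`, `ip d₁ u₂ ≥ 0`.  If `a₁ ≠ a₂` these are strict.
`d_i` is orthogonal to `ρ` and `u_i`, so `d_i = μ_i cr ρ u_i`, and `μ_i > 0` by the choice of the order
(`det3 ρ u_i d_i > 0`).  So `ip d₂ u₁ = μ₂ det3 ρ u₂ u₁ > 0` and `ip d₁ u₂ = μ₁ det3 ρ u₁ u₂ > 0`, a
contradiction. -/
def StmtEdgeCount : Prop := ∀ A : Finset E, 3 ≤ A.card → ConvPos A →
  (Ed A).card ≤ 2 * ∑ G ∈ Faces A, G.card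

/-- **StmtEdgeLin.** Number of edges, number of faces and total size of the faces are linear.
PROOF. `StmtFaceSum` gives `∑ (|G| - 2) ≤ 2|A|`; all terms are at least 1, so `|Faces A| ≤ 2|A|` and
`∑ |G| ≤ 6|A|`; then `StmtEdgeCount`.  For `|A| ≤ 2` there is at most one edge. -/
def StmtEdgeLin : Prop := ∀ A : Finset E, ConvPos A →
  (Faces A).card ≤ 2 * A.card ∧ ∑ G ∈ Faces A, G.card ≤ 6 * A.card ∧ (Ed A).card ≤ 12 * A.card

/-- **StmtOCount.** The number of cells with a degenerate corner is linear.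
PROOF. Let `(a,c)` be such a cell, `ρ` as in `Ov`.  Suppose `3 ≤ |Mx A ρ|`, `G = Mx A ρ ∈ Faces A`.
Choose for every `G ∈ Faces A` a vector `ρ_G ≠ 0` with `Mx A ρ_G = G`.  By `StmtNonCol` `ρ = κ ρ_G`,
`κ ≠ 0`.  If `κ > 0` the cell is counted in `StmtPolySum` for `ρ_G`; if `κ < 0` it is counted for
`-ρ_G`, and then `Mx A (-ρ_G) = G`.  So the number of these cells is at most the sum over
`G ∈ Faces A` of `|G| + |Mx C ρ_G|` and (if `Mx A (-ρ_G) = G`) of `|G| + |Mx C (-ρ_G)|`.
The sum of the `|G|` is at most `12|A|` by `StmtEdgeLin`.  The terms `|Mx C ρ_G| ≤ 2` contribute at most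
`4 |Faces A|`, the terms with `H = Mx C (± ρ_G) ∈ Faces C` contribute at most `4 ∑ |H|` because `H`
determines `± ρ_G` up to real multiples and hence at most two `G`.  The case `3 ≤ |Mx C ρ|` is the same
with the roles exchanged. -/
def StmtOCount : Prop := ∃ K : ℕ, ∀ A C : Finset E, ConvPos A → ConvPos C →
  (@Finset.filter (E × E) (fun p => Ov A C p.1 p.2) (Classical.decPred _) (Fc A C)).card ≤
    K * (A.card + C.card)

/-- **StmtParO.** Parallel edges exposed together give a degenerate corner.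
PROOF. `ρ ≠ 0` because `Mx A 0 = A` has at least three points.  Choose `w` orthogonal to `a - a'`, not
a multiple of `ρ` (for example `w = cr (a - a') ρ`).  By hypothesis `w` is also orthogonal to `c - c'`.
Rotate (lemma `rotate` with `S = {a,a'} ≠ A`, `T = {c,c'}`): `z = ρ + τ (w - M ρ) ≠ 0` has
`{a,a'} ⊆ Mx A z`, `{c,c'} ⊆ Mx C z` and one of the inclusions is proper, so this set has at least
three elements. -/
def StmtParO : Prop := ∀ (A C : Finset E) (a a' c c' ρ : E), 3 ≤ A.card → a' ≠ a → c' ≠ c →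
  Mx A ρ = {a, a'} → Mx C ρ = {c, c'} → (¬ ∃ v, Perp {a, a'} v ∧ ¬ Perp {c, c'} v) → Ov A C a c

/-- **StmtCornerNbr.** At a corner the four cells are adjacent in the expected way.
PROOF. `a - a'` and `c - c'` are linearly independent (from the last clause of `Corner`: if
`a - a' = k (c - c')`, `k ≠ 0`, or `c - c' = k (a-a')`, then the two orthogonality conditions agree).
Hence for all real `s,t` there is `w` with `ip (a-a') w = s`, `ip (c-c') w = t`.  Perturb `ρ` in the
direction `w` (`Mx_pert3`, `Mx_pair_left/right`, `Mx_of_perp`). -/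
def StmtCornerNbr : Prop := ∀ (A C : Finset E) (a a' c c' : E), Corner A C a a' c c' →
  Corner A C a a' c' c ∧ Corner A C a' a c c' ∧ Corner C A c c' a a' ∧
  a' ∈ NA A C a c ∧ c' ∈ NA C A c a ∧ (a, c) ∈ Fc A C ∧
  ∀ s t : ℝ, ∃ w, ip (a - a') w = s ∧ ip (c - c') w = t

/-- **StmtTwoCorners.** An `A`-side of a cell without degenerate corners has two different ends.
PROOF. Let `Mx A u = {a,a'} = e`, `Mx C u = {c}`.  `u ≠ 0` because `3 ≤ |A|`.  Put `δ = a - a'`,
`w = cr δ u ≠ 0`, orthogonal to `e`.  Rotate in the directions `w` and `-w` (`rotate`, `S = e ≠ A`,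
`T = {c}`): `z₁ = u + τ₁ (w - M₁ u)`, `z₂ = u + τ₂ (-w - M₂ u)`; both are not zero (their cross product
with `u` is `± τ_i cr u w ≠ 0`).  By `¬ Ov`, `|Mx A z_i| ≤ 2` and `|Mx C z_i| ≤ 2`, so
`Mx A z_i = e` and `Mx C z_i = {c,c_i}` with `c_i ≠ c`.  It is not parallel: `Perp e u` but
`ip c u > ip c_i u`.  So both are corners.  `c₁ ≠ c₂`: otherwise `q = c - c₁` has `ip q u > 0`,
`ip q z₁ = ip q z₂ = 0`, that is `(1 - τ₁ M₁) ip q u + τ₁ ip q w = 0` and
`(1 - τ₂ M₂) ip q u - τ₂ ip q w = 0`; eliminating `ip q w` we get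
`τ₂ (1 - τ₁ M₁) + τ₁ (1 - τ₂ M₂) = 0`, hence `τ₂ z₁ + τ₁ z₂ = 0`, `z₂ = -κ z₁` with `κ > 0`, and
`a ∈ Mx A z₁ ∩ Mx A (-z₁)` makes `z₁` constant on `A`, so `Mx A z₁ = A` has three elements. -/
def StmtTwoCorners : Prop := ∀ (A C : Finset E) (a a' c : E), 3 ≤ A.card → ¬ Ov A C a c →
  a' ∈ NA A C a c → ∃ c₁ c₂, c₁ ≠ c₂ ∧ Corner A C a a' c c₁ ∧ Corner A C a a' c c₂

/-- **StmtQuad.** A cell without degenerate corners has at least two sides of each kind.
PROOF. Let `Mx A u₀ = {a}`, `Mx C u₀ = {c}`.  Choose `w` not a multiple of `u₀` and rotate (`rotate`,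
`S = {a} ≠ A`, `T = {c}`): `z ≠ 0`, `a ∈ Mx A z`, `c ∈ Mx C z`, one of the sets is bigger.  By `¬ Ov`
both have at most two elements.  If `Mx A z = {a,a'}`, `Mx C z = {c}`, then `a' ∈ NA A C a c`;
`StmtTwoCorners` gives `c₁ ≠ c₂` in `NA C A c a` (through `StmtCornerNbr`), and `StmtTwoCorners` for
`(C,A)` and the side `c₁` gives two different elements of `NA A C a c`.  Symmetric if `Mx A z = {a}`,
`Mx C z = {c,c'}` (use `Ov_swap`).  If both sets have two elements, then either it is a corner and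
`StmtCornerNbr` gives a side, or it is parallel and `StmtParO` gives `Ov`, a contradiction. -/
def StmtQuad : Prop := ∀ (A C : Finset E) (a c : E), 3 ≤ A.card → 3 ≤ C.card → (a, c) ∈ Fc A C →
  ¬ Ov A C a c → 2 ≤ (NA A C a c).card ∧ 2 ≤ (NA C A c a).card

/-- **StmtRegCorner.** In a regular cell every `A`-side meets every `C`-side in a corner.
PROOF. `StmtTwoCorners` for `a'` gives `c₁ ≠ c₂` with corners, both in `NA C A c a` by `StmtCornerNbr`;
this set has exactly two elements, so `c'` is one of them. -/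
def StmtRegCorner : Prop := ∀ (A C : Finset E) (a c a' c' : E), 3 ≤ A.card → Reg A C a c →
  a' ∈ NA A C a c → c' ∈ NA C A c a → Corner A C a a' c c'

/-- **StmtSpecialBound.** The total number of sides of the special cells is linear.
PROOF. Write `t p = |NA A C p.1 p.2| + |NA C A p.2 p.1|`.  (1) `∑_{p ∈ Fc} |NA A C p.1 p.2| ≤
2 |Pc A C|` (the pair `(p, a')` determines the piece `({p.1,a'},p.2)`, and each piece arises from at
most two such pairs), and similarly for `C` with `Pc C A` (use `fc_swap`).  (2) `StmtPieces`,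
`StmtCrossLe`, `StmtEdgeLin` and `|Xc C A| = |Xc A C|` (swap; for the last clause of `Xc` use linear
algebra: if `a - a'`, `c - c'` are independent then both `∃ v, Perp e v ∧ ¬ Perp g v` and
`∃ v, Perp g v ∧ ¬ Perp e v`; the statement `StmtCornerNbr` contains this) give
`∑_{p ∈ Fc} t p ≤ 4 |Xc A C| + K₁ (|A| + |C|) ≤ 4 |Fc A C| + K₁ (|A|+|C|)`.  (3) For `p ∈ Fc` without
`Ov`, `t p ≥ 4` by `StmtQuad`.  So the sum of `t p - 4` over these `p` plus the sum of `t p` over the
`p` with `Ov` is at most `4 |{p | Ov}| + K₁ (|A|+|C|) ≤ K₂ (|A|+|C|)` by `StmtOCount`.  (4) A special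
`p` without `Ov` has `t p ≥ 5` (if `t p = 4` both parts are 2 and the cell is regular), so
`t p ≤ 5 (t p - 4)`.  Hence `spSum A C ≤ 5 K₂ (|A|+|C|)`. -/
def StmtSpecialBound : Prop := ∃ K : ℕ, ∀ A C : Finset E, 3 ≤ A.card → 3 ≤ C.card → ConvPos A →
  ConvPos C → spSum A C ≤ K * (A.card + C.card)

/-- **StmtRegSide.** In the closure of the cell of `c`, the plane of an `A`-side of a cell without
degenerate corners is covered by the arc of the edge.
PROOF. Let `Mx A u = {a,a'}`, `Mx C u = {c}`, and `p t = (1-t) u + t v`, `0 ≤ t ≤ 1`.  `Perp {a,a'}`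
holds along the segment and `c ∈ Mx C (p t)`, `Mx C (p t) = {c}` for `t < 1` (`Mx_comb_left`), so
`p t ≠ 0` for `t < 1` (as `2 ≤ |C|`, `Mx C 0 = C`), and `p 1 = v ≠ 0`.  Suppose `Mx A v ≠ {a,a'}`.  If
`a ∈ Mx A v`, then `{a,a'} ⊊ Mx A v` and `v` shows `Ov A C a c`.  If `a ∉ Mx A v`, some `b ∈ A` has
`ip b v > ip a v`, while `ip b u < ip a u` for every `b ∉ {a,a'}`; take the smallest `t` in `(0,1)` at
which some `b ∈ A \ {a,a'}` satisfies `ip b (p t) = ip a (p t)` (finitely many linear functions; or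
use a minimum over the finite set of the `b` with `ip b v > ip a v` of the crossing time): there
`a,a',b` are all maximisers, `p t ≠ 0`, `c ∈ Mx C (p t)`, so again `Ov A C a c`. -/
def StmtRegSide : Prop := ∀ (A C : Finset E) (a c a' v : E), 2 ≤ C.card → ¬ Ov A C a c →
  a' ∈ NA A C a c → v ≠ 0 → Perp {a, a'} v → c ∈ Mx C v → Mx A v = {a, a'}

/-- **StmtRegTie.** Ties in the closure of a regular cell.
PROOF. By `¬ Ov` both `Mx A ρ` and `Mx C ρ` have at most two elements.  If `Mx A ρ = {a,a'}`,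
`a' ≠ a`, and `Mx C ρ = {c}`, then `a' ∈ NA A C a c` by definition.  If both have two elements then
`StmtParO` and `¬ Ov` show the last clause of `Corner`, so it is a corner and `StmtCornerNbr` gives
the rest. -/
def StmtRegTie : Prop := ∀ (A C : Finset E) (a c ρ : E), 3 ≤ A.card → Reg A C a c → ρ ≠ 0 →
  a ∈ Mx A ρ → c ∈ Mx C ρ →
  (Mx A ρ = {a} ∨ ∃ a' ∈ NA A C a c, Mx A ρ = {a, a'}) ∧
  (Mx C ρ = {c} ∨ ∃ c' ∈ NA C A c a, Mx C ρ = {c, c'}) ∧
  ∀ a' c', a' ≠ a → c' ≠ c → Mx A ρ = {a, a'} → Mx C ρ = {c, c'} → Corner A C a a' c c'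

/-- **StmtConstNbr.** Regular cells which share a `C`-side have the same `A`-neighbours.
PROOF. Let `a' ∈ NA A C a c₁`.  By `StmtRegCorner` there is a corner `Corner A C a a' c₁ c₂`, hence by
`StmtCornerNbr` (first conclusion, applied twice) `a' ∈ NA A C a c₂`.  So
`NA A C a c₁ ⊆ NA A C a c₂`, and both have two elements. -/
def StmtConstNbr : Prop := ∀ (A C : Finset E) (a c₁ c₂ : E), 3 ≤ A.card → Reg A C a c₁ →
  Reg A C a c₂ → c₂ ∈ NA C A c₁ a → NA A C a c₁ = NA A C a c₂

/-- The segment from `p` to `q`. -/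
def pth (p q : E) (t : ℝ) : E := (1 - t) • p + t • q

/-- `t` is the first time at which the segment from `p` to `q` meets a cell `(a,c₁)` which is not
regular; it enters it from the regular cell `(a,c₂)`. -/
structure Stop (A C : Finset E) (a p q : E) (t : ℝ) (c₁ c₂ : E) : Prop where
  pos : 0 < t
  le : t ≤ 1
  tie : Mx C (pth p q t) = {c₁, c₂}
  ne : c₁ ≠ c₂
  bad : ¬ Reg A C a c₁
  reg : Reg A C a c₂
  fc : (a, c₁) ∈ Fc A C
  nbr : c₂ ∈ NA C A c₁ a
  nbr' : c₁ ∈ NA C A c₂ a
  before : ∀ t', 0 < t' → t' < t → ∀ c ∈ Mx C (pth p q t'), Reg A C a c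
  lt : ∀ t', 0 ≤ t' → t' < t → ip c₁ (pth p q t') < ip c₂ (pth p q t')

/-- Standing assumptions on a segment: `a` is a maximiser along it, it avoids zero, and it starts in
the cell of `c₀`. -/
structure Seg (A C : Finset E) (a c₀ p q : E) : Prop where
  ap : a ∈ Mx A p
  aq : a ∈ Mx A q
  nz : ∀ t : ℝ, 0 ≤ t → t ≤ 1 → pth p q t ≠ 0
  start : ∃ ε : ℝ, 0 < ε ∧ ∀ t, 0 < t → t < ε → Mx C (pth p q t) = {c₀}
  reg : Reg A C a c₀

/-- **StmtFirstBad.** If a segment meets a cell which is not regular, there is a first time.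
PROOF. Let `ε` be as in `Seg.start`; we may assume `ε < 1`.  The set of bad times in `[ε/2,1]`
(times `t` such that some `c ∈ Mx C (p t)` has `¬ Reg A C a c`) is a finite union of closed sets
(for each `c ∈ C` the set `{t | c ∈ Mx C (p t)}` is closed, being defined by finitely many weak
inequalities between continuous functions), it is not empty (the given bad time is not in `(0,ε)` since
there `Mx C = {c₀}` and `(a,c₀)` is regular).  So it has a smallest element `t` (compactness), and no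
time in `(0,t)` is bad.  Let `c₁ ∈ Mx C (p t)` be bad.  By `Mx_pert` at `p t` in the direction
`p - q`, for small `η > 0` (note `pth p q (t - η) = pth p q t + η • (p - q)`)
`Mx C (p (t - η)) = Mx (Mx C (p t)) (p - q) ⊆ Mx C (p t)`; take `c₂` in it; `t - η > 0` is not bad, so
`(a,c₂)` is regular.  `a ∈ Mx A (p t)` (`mem_Mx_comb`), `p t ≠ 0`, so by `StmtRegTie` for `(a,c₂)`,
`Mx C (p t) = {c₂,c₁}` and `c₁ ∈ NA C A c₂ a`; the definition of `NA C A · a` is symmetric, so
`c₂ ∈ NA C A c₁ a` (`{c₁,c₂} = {c₂,c₁}`).  `(a,c₁) ∈ Fc A C`: take `u` with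
`Mx C u = {c₁,c₂}`, `Mx A u = {a}` and perturb it in the direction `c₁ - c₂`.  Finally `c₁` is not a
maximiser at `t - η`, so `ip c₁ < ip c₂` there, with equality at `t`; by linearity
`ip c₁ (p t') < ip c₂ (p t')` for all `t' < t`. -/
def StmtFirstBad : Prop := ∀ (A C : Finset E) (a c₀ p q : E), 3 ≤ A.card → 3 ≤ C.card →
  Seg A C a c₀ p q →
  (∃ t c, 0 < t ∧ t ≤ 1 ∧ c ∈ Mx C (pth p q t) ∧ ¬ Reg A C a c) →
  ∃ t c₁ c₂, Stop A C a p q t c₁ c₂

/-- `c` is visited by the segment before time `t`. -/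
def Vis (C : Finset E) (p q : E) (t : ℝ) (c : E) : Prop :=
  ∃ t', 0 < t' ∧ t' < t ∧ c ∈ Mx C (pth p q t')

/-- **StmtLocalPath.** Before the first bad time, the segment enters every visited cell `(a,x)` (except
the first one) from a visited neighbour and leaves it to another neighbour.
PROOF. Write `p s = pth p q s`.  `a ∈ Mx A (p s)` for all `s ∈ [0,1]`.  Let `x` be visited.
LEAVING: let `t_b` be the largest `s ∈ (0,t]` with `x ∈ Mx C (p s)` (the set of these `s` in
`[t_x,t]`, where `t_x` is a time of visit, is closed).  If `t_b = t` then `x ∈ Mx C (p t) =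
{c₁,c₂}` and `x ≠ c₁` because `(a,x)` is regular; so `x = c₂`, and `n₂ = c₁` works.  If `t_b < t`, by
`Mx_pert` forward (`p (t_b + η) = p t_b + η (q - p)`) some `n₂ ∈ Mx C (p t_b)` is a maximiser shortly
after, `x` is not, so `n₂ ≠ x` and `Mx C (p t_b) = {x,n₂}` by `StmtRegTie` (for the regular cell
`(a,x)`), and `n₂` is visited (at `t_b`).  ENTERING (if `x ≠ c₀`): let `t_a` be the smallest
`s` with `x ∈ Mx C (p s)`, it is positive because of `Seg.start`; by `Mx_pert` backward there is
`n₁ ∈ Mx C (p t_a)` which is a maximiser shortly before, `x` is not; so `Mx C (p t_a) = {n₁,x}`,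
`n₁ ≠ x`, and `n₁` is visited.  `t_a < t_b` and `n₁ ≠ n₂`: `f s = ip (n₁ - x) (p s)` is an affine
function of `s`, zero at `t_a` and positive shortly before, so negative for all `s > t_a`.  Since
`Mx C (p t_a) = {n₁,x}`, shortly after `t_a` the maximisers are among `{n₁,x}`, so `x` is a maximiser
there, whence `t_b > t_a`, and `f t_b < 0` shows `n₁ ∉ Mx C (p t_b)`, so `n₁ ≠ n₂`.  (If
`t_b = t`, the same argument works as `t_a < t`.) -/
def StmtLocalPath : Prop := ∀ (A C : Finset E) (a c₀ p q : E) (t : ℝ) (c₁ c₂ x : E), 3 ≤ A.card →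
  3 ≤ C.card → Seg A C a c₀ p q → Stop A C a p q t c₁ c₂ → Vis C p q t x →
  (∃ tb n₂, 0 < tb ∧ tb ≤ t ∧ n₂ ≠ x ∧ Mx C (pth p q tb) = {x, n₂} ∧ (n₂ = c₁ ∨ Vis C p q t n₂) ∧
    (x ≠ c₀ → ∃ ta n₁, 0 < ta ∧ ta < tb ∧ n₁ ≠ x ∧ n₁ ≠ n₂ ∧ Mx C (pth p q ta) = {n₁, x} ∧
      Vis C p q t n₁))

end TPH
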