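import Mathlib
import Pool.Agent.TPH.St1

/-!
# In a regular cell every side of `A` meets every side of `C` in a corner
-/

namespace TPH

theorem t_RegCorner (hTwoCorners : StmtTwoCorners) (hCornerNbr : StmtCornerNbr) :
    StmtRegCorner := by
  classical
  intro A C a c a' c' hA hreg ha' hc'
  obtain ⟨-, hov, -, hcard⟩ := hreg
  obtain ⟨c₁, c₂, hne, h1, h2⟩ := hTwoCorners A C a a' c hA hov ha'
  have m1 : c₁ ∈ NA C A c a := (hCornerNbr A C a a' c c₁ h1).2.2.2.2.1
  have m2 : c₂ ∈ NA C A c a := (hCornerNbr A C a a' c c₂ h2).2.2.2.2.1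
  have hsub : ({c₁, c₂} : Finset E) ⊆ NA C A c a := by
    intro x hx
    rcases Finset.mem_insert.mp hx with h | h
    · rw [h]; exact m1
    · rw [Finset.mem_singleton.mp h]; exact m2
  have heq : ({c₁, c₂} : Finset E) = NA C A c a :=
    Finset.eq_of_subset_of_card_le hsub (by rw [hcard, Finset.card_pair hne])
  rw [← heq] at hc'
  rcases Finset.mem_insert.mp hc' with h | h
  · rw [h]; exact h1
  · rw [Finset.mem_singleton.mp h]; exact h2

end TPH
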