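import Pool.Agent.TPH.St1

/-!
# Module RegSide   (helper37)
-/

set_option autoImplicit false

namespace TPH

namespace MRegSide

/-- three common maximisers at a nonzero functional give a degenerate corner -/
theorem ov_of {A C : Finset E} {a a' b c p : E} (hp : p ≠ 0) (hc : c ∈ Mx C p)
    (ha : a ∈ Mx A p) (ha' : a' ∈ Mx A p) (hb : b ∈ Mx A p) (h1 : a' ≠ a) (h2 : b ≠ a)
    (h3 : b ≠ a') : Ov A C a c := by
  classical
  refine ⟨p, hp, ha, hc, Or.inl ?_⟩
  have hcard : ({a, a', b} : Finset E).card = 3 := by
    rw [Finset.card_eq_three]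
    exact ⟨a, a', b, h1.symm, h2.symm, h3.symm, rfl⟩
  rw [← hcard]
  refine Finset.card_le_card ?_
  intro x hx
  rcases Finset.mem_insert.1 hx with rfl | hx
  · exact ha
  · rcases Finset.mem_insert.1 hx with rfl | hx
    · exact ha'
    · rw [Finset.mem_singleton.1 hx]
      exact hb

theorem main (A C : Finset E) (a c a' v : E) (hC : 2 ≤ C.card) (hO : ¬ Ov A C a c)
    (hN : a' ∈ NA A C a c) (hv : v ≠ 0) (hP : Perp {a, a'} v) (hc : c ∈ Mx C v) :
    Mx A v = {a, a'} := by
  classical
  obtain ⟨hne, u, hu, huc⟩ := mem_NA.1 hN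
  have haA : a ∈ Mx A u := by rw [hu]; exact Finset.mem_insert_self _ _
  have haA' : a' ∈ Mx A u := by
    rw [hu]; exact Finset.mem_insert_of_mem (Finset.mem_singleton_self _)
  have hav : ip a' v = ip a v :=
    hP a' (Finset.mem_insert_of_mem (Finset.mem_singleton_self _)) a (Finset.mem_insert_self _ _)
  by_cases ha : a ∈ Mx A v
  · have ha' : a' ∈ Mx A v := mem_Mx_of_eq ha (Mx_subset _ _ haA') hav
    by_contra hcon
    apply hO
    have : ∃ b ∈ Mx A v, b ∉ ({a, a'} : Finset E) := by
      by_contra hall
      push Not at hall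
      apply hcon
      refine Finset.Subset.antisymm (fun b hb => hall b hb) ?_
      intro x hx
      rcases Finset.mem_insert.1 hx with rfl | hx
      · exact ha
      · rw [Finset.mem_singleton.1 hx]
        exact ha'
    obtain ⟨b, hb, hb'⟩ := this
    have h2 : b ≠ a := fun h => hb' (by rw [h]; exact Finset.mem_insert_self _ _)
    have h3 : b ≠ a' := fun h => hb' (by
      rw [h]; exact Finset.mem_insert_of_mem (Finset.mem_singleton_self _))
    exact ov_of hv hc ha ha' hb hne h2 h3
  · exfalso
    apply hO
    have hex : ∃ b ∈ A, ip a v < ip b v := by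
      by_contra hall
      push Not at hall
      exact ha (mem_Mx.2 ⟨Mx_subset _ _ haA, fun b hb => hall b hb⟩)
    set D : Finset E := A.filter fun b => ip a v < ip b v with hD
    have hDne : D.Nonempty := by
      obtain ⟨b, hb, h⟩ := hex
      exact ⟨b, Finset.mem_filter.2 ⟨hb, h⟩⟩
    have hDu : ∀ b ∈ D, ip b u < ip a u := by
      intro b hb
      obtain ⟨hbA, hbv⟩ := Finset.mem_filter.1 hb
      refine Mx_lt haA hbA ?_
      rw [hu]
      intro hmem
      rcases Finset.mem_insert.1 hmem with rfl | hmem
      · exact lt_irrefl _ hbv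
      · rw [Finset.mem_singleton.1 hmem, hav] at hbv
        exact lt_irrefl _ hbv
    obtain ⟨b, hbD, hmin⟩ := D.exists_min_image
      (fun b => (ip a u - ip b u) / ((ip a u - ip b u) + (ip b v - ip a v))) hDne
    obtain ⟨hbA, hbv⟩ := Finset.mem_filter.1 hbD
    have hbu := hDu b hbD
    set s : ℝ := (ip a u - ip b u) + (ip b v - ip a v) with hs
    have hs0 : 0 < s := by rw [hs]; linarith
    set t : ℝ := (ip a u - ip b u) / s with ht
    have ht0 : 0 < t := div_pos (by linarith) hs0
    have ht1 : 0 < 1 - t := by
      have : t < 1 := by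
        rw [ht, div_lt_one hs0, hs]
        linarith
      linarith
    have hts : t * s = ip a u - ip b u := by
      rw [ht]
      field_simp
    -- the point on the segment
    set p : E := (1 - t) • u + t • v with hp
    have hcp : Mx C p = {c} :=
      Mx_comb_left ht1 ht0.le (Finset.singleton_nonempty c) huc (Finset.singleton_subset_iff.2 hc)
    have hp0 : p ≠ 0 := by
      intro h0
      rw [h0, Mx_zero] at hcp
      rw [hcp, Finset.card_singleton] at hC
      omega
    have hval : ∀ x : E, ip x p = (1 - t) * ip x u + t * ip x v := by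
      intro x
      rw [hp, ip_add_right, ip_smul_right, ip_smul_right]
    have hap : a ∈ Mx A p := by
      refine mem_Mx.2 ⟨Mx_subset _ _ haA, fun x hx => ?_⟩
      rw [hval, hval]
      by_cases hxD : x ∈ D
      · have h1 := hmin x hxD
        have hxv := (Finset.mem_filter.1 hxD).2
        have hxu := hDu x hxD
        have h2 : 0 < (ip a u - ip x u) + (ip x v - ip a v) := by linarith
        have h3 : t ≤ (ip a u - ip x u) / ((ip a u - ip x u) + (ip x v - ip a v)) := h1
        rw [le_div_iff₀ h2] at h3
        nlinarith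
      · have h1 : ip x v ≤ ip a v := by
          by_contra h
          push Not at h
          exact hxD (Finset.mem_filter.2 ⟨hx, h⟩)
        have h2 := Mx_le haA hx
        have h3 := mul_le_mul_of_nonneg_left h2 ht1.le
        have h4 := mul_le_mul_of_nonneg_left h1 ht0.le
        linarith
    have hap' : a' ∈ Mx A p := by
      refine mem_Mx_of_eq hap (Mx_subset _ _ haA') ?_
      rw [hval, hval, hav, Mx_eq haA' haA]
    have hbp : b ∈ Mx A p := by
      refine mem_Mx_of_eq hap hbA ?_
      rw [hval, hval]
      rw [hs] at hts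
      linarith
    have h2 : b ≠ a := by
      rintro rfl
      exact lt_irrefl _ hbv
    have h3 : b ≠ a' := by
      rintro rfl
      rw [hav] at hbv
      exact lt_irrefl _ hbv
    have hcp' : c ∈ Mx C p := by rw [hcp]; exact Finset.mem_singleton_self _
    exact ov_of hp0 hcp' hap hap' hbp hne h2 h3

end MRegSide

theorem t_RegSide : StmtRegSide := MRegSide.main

end TPH
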