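import Pool.Agent.TPH.St1

/-!
# Three parallel hyperplanes: ties in the closure of a regular cell
-/

set_option autoImplicit false

namespace TPH

namespace MRegTie

/-- A set with at most two elements which contains `a`. -/
theorem small {S : Finset E} {a : E} (h : ¬ 3 ≤ S.card) (ha : a ∈ S) :
    S = {a} ∨ ∃ a', a' ≠ a ∧ S = {a, a'} := by
  classical
  have hpos : 0 < S.card := Finset.card_pos.mpr ⟨a, ha⟩
  have hc : S.card = 1 ∨ S.card = 2 := by omega
  rcases hc with h1 | h2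
  · left
    obtain ⟨b, hb⟩ := Finset.card_eq_one.mp h1
    rw [hb, Finset.mem_singleton] at ha
    rw [hb, ha]
  · right
    obtain ⟨x, y, hne, hS⟩ := Finset.card_eq_two.mp h2
    rw [hS, Finset.mem_insert, Finset.mem_singleton] at ha
    rcases ha with rfl | rfl
    · exact ⟨y, fun h => hne h.symm, hS⟩
    · exact ⟨x, hne, by rw [hS, Finset.pair_comm]⟩

end MRegTie

open MRegTie in
theorem t_RegTie (hParO : StmtParO) (hCornerNbr : StmtCornerNbr) : StmtRegTie := by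
  intro A C a c ρ hA hReg hρ ha hc
  have hOv : ¬ Ov A C a c := hReg.2.1
  have hA3 : ¬ 3 ≤ (Mx A ρ).card := fun h => hOv ⟨ρ, hρ, ha, hc, Or.inl h⟩
  have hC3 : ¬ 3 ≤ (Mx C ρ).card := fun h => hOv ⟨ρ, hρ, ha, hc, Or.inr h⟩
  have hcor : ∀ a' c', a' ≠ a → c' ≠ c → Mx A ρ = {a, a'} → Mx C ρ = {c, c'} →
      Corner A C a a' c c' := by
    intro a' c' ha' hc' h1 h2
    refine ⟨ha', hc', ⟨ρ, h1, h2⟩, ?_⟩
    by_contra hno
    exact hOv (hParO A C a a' c c' ρ hA ha' hc' h1 h2 hno)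
  have key : ∀ a' c', a' ≠ a → c' ≠ c → Mx A ρ = {a, a'} → Mx C ρ = {c, c'} →
      a' ∈ NA A C a c ∧ c' ∈ NA C A c a := by
    intro a' c' ha' hc' h1 h2
    have h := hCornerNbr A C a a' c c' (hcor a' c' ha' hc' h1 h2)
    exact ⟨h.2.2.2.1, h.2.2.2.2.1⟩
  refine ⟨?_, ?_, hcor⟩
  · rcases small hA3 ha with h1 | ⟨a', ha', h1⟩
    · exact Or.inl h1
    · right
      refine ⟨a', ?_, h1⟩
      rcases small hC3 hc with h2 | ⟨c', hc', h2⟩
      · exact mem_NA.mpr ⟨ha', ρ, h1, h2⟩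
      · exact (key a' c' ha' hc' h1 h2).1
  · rcases small hC3 hc with h2 | ⟨c', hc', h2⟩
    · exact Or.inl h2
    · right
      refine ⟨c', ?_, h2⟩
      rcases small hA3 ha with h1 | ⟨a', ha', h1⟩
      · exact mem_NA.mpr ⟨hc', ρ, h2, h1⟩
      · exact (key a' c' ha' hc' h1 h2).2

end TPH
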