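import Pool.Agent.TPH.St4

/-!
# Three parallel hyperplanes: a run without bad gaps is good
-/

set_option autoImplicit false

namespace TPH

namespace MRunGood

theorem neg_det (a s t : E) : -1 * det3 a s t = det3 a t s := by
  rw [det3_swap23 a s t]
  ring

end MRunGood

open MRunGood in
theorem t_RunGood (hBetween : StmtBetween) (hGapTrans : StmtGapTrans) : StmtRunGood := by
  intro ι S Bd A B C e c c' u z σ x w hC hσ hf hinj hx hw hxw h7 h8
  have tr : ∀ i ∈ S, ∀ j ∈ S, ∀ k ∈ S, 0 < det3 (c - c') (z i) (z j) →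
      0 < det3 (c - c') (z j) (z k) → 0 < det3 (c - c') (z i) (z k) := by
    intro i hi j hj k hk h1 h2
    exact (hBetween C c c' (z i) (z j) (z k) hC (hf i hi).ne (hf i hi).cz (hf j hj).cz
      (hf k hk).cz h1 h2).1
  rcases hσ with rfl | rfl
  · simp only [one_mul] at hxw h7 h8
    refine hGapTrans ι S A B C e c c' u z x w hC hf hinj hx hw hxw ?_
    intro i hi j hj hxi hjw hij hno
    by_contra hg
    have hi2 := h7 i hi ⟨j, hj, hij, hno, hg⟩
    refine h8 i hi2 ⟨hxi, ?_⟩
    rcases hjw with rfl | hjw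
    · exact hij
    · exact tr i hi j hj w hw hij hjw
  · simp only [neg_det] at hxw h7 h8
    rw [Good_swap]
    refine hGapTrans ι S A B C e c c' u z w x hC hf hinj hw hx hxw ?_
    intro i hi j hj hwi hjx hij hno
    by_contra hg
    have hj2 := h7 j hj ⟨i, hi, hij, fun k hk hk2 => hno k hk ⟨hk2.2, hk2.1⟩,
      fun hg2 => hg (Good_swap.mp hg2)⟩
    refine h8 j hj2 ⟨hjx, ?_⟩
    rcases hwi with rfl | hwi
    · exact hij
    · exact tr w hw i hi j hj hwi hij

end TPH
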