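import Pool.Agent.TPH.St3

/-!
# Three parallel hyperplanes: constant neighbours along a segment of regular cells
-/

set_option autoImplicit false

namespace TPH

namespace MSameNbr

theorem ip_pth (x p q : E) (t : ℝ) : ip x (pth p q t) = (1 - t) * ip x p + t * ip x q := by
  rw [pth, ip_add_right, ip_smul_right, ip_smul_right]

theorem closed_mem (C : Finset E) (p q c : E) : IsClosed {t : ℝ | c ∈ Mx C (pth p q t)} := by
  have h : {t : ℝ | c ∈ Mx C (pth p q t)} =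
      {t : ℝ | c ∈ C} ∩ ⋂ b ∈ C, {t : ℝ | ip b (pth p q t) ≤ ip c (pth p q t)} := by
    ext t
    simp only [mem_Mx, Set.mem_setOf_eq, Set.mem_inter_iff, Set.mem_iInter]
  rw [h]
  refine IsClosed.inter isClosed_const (isClosed_biInter fun b _ => ?_)
  apply isClosed_le
  · simp only [ip_pth]
    fun_prop
  · simp only [ip_pth]
    fun_prop

theorem closed_some (C : Finset E) (p q : E) (P : E → Prop) :
    IsClosed {t : ℝ | ∃ c ∈ C, P c ∧ c ∈ Mx C (pth p q t)} := by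
  have h : {t : ℝ | ∃ c ∈ C, P c ∧ c ∈ Mx C (pth p q t)} =
      ⋃ c ∈ (C : Set E) ∩ {c | P c}, {t : ℝ | c ∈ Mx C (pth p q t)} := by
    ext t
    simp only [Set.mem_setOf_eq, Set.mem_iUnion, Set.mem_inter_iff, Finset.mem_coe, exists_prop,
      and_assoc]
  rw [h]
  exact Set.Finite.isClosed_biUnion (C.finite_toSet.inter_of_left _) fun c _ => closed_mem C p q c

end MSameNbr

open MSameNbr in
theorem t_SameNbr (hRegTie : StmtRegTie) (hConstNbr : StmtConstNbr) : StmtSameNbr := by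
  intro A C a c₀ p q hA hC hseg hreg t h0 h1 d hd
  by_contra hne
  obtain ⟨ε, hε, hst⟩ := hseg.start
  have hCne : C.Nonempty := Finset.card_pos.mp (by omega)
  have hcover : Set.Ioc (0 : ℝ) 1 ⊆
      {t : ℝ | ∃ c ∈ C, NA A C a c = NA A C a c₀ ∧ c ∈ Mx C (pth p q t)} ∪
      {t : ℝ | ∃ c ∈ C, ¬ NA A C a c = NA A C a c₀ ∧ c ∈ Mx C (pth p q t)} := by
    intro s _
    obtain ⟨c, hc⟩ := Mx_nonempty hCne (pth p q s)
    by_cases hP : NA A C a c = NA A C a c₀
    · exact Or.inl ⟨c, Mx_subset _ _ hc, hP, hc⟩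
    · exact Or.inr ⟨c, Mx_subset _ _ hc, hP, hc⟩
  have hfirst : (Set.Ioc (0 : ℝ) 1 ∩
      {t : ℝ | ∃ c ∈ C, NA A C a c = NA A C a c₀ ∧ c ∈ Mx C (pth p q t)}).Nonempty := by
    have hm : 0 < min ε 1 := lt_min hε one_pos
    have hm1 := min_le_left ε 1
    have hm2 := min_le_right ε 1
    have hc := hst (min ε 1 / 2) (by linarith) (by linarith)
    have hc' : c₀ ∈ Mx C (pth p q (min ε 1 / 2)) := by
      rw [hc]
      exact Finset.mem_singleton_self c₀
    exact ⟨min ε 1 / 2, ⟨by linarith, by linarith⟩, c₀, Mx_subset _ _ hc', rfl, hc'⟩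
  have hsecond : (Set.Ioc (0 : ℝ) 1 ∩
      {t : ℝ | ∃ c ∈ C, ¬ NA A C a c = NA A C a c₀ ∧ c ∈ Mx C (pth p q t)}).Nonempty :=
    ⟨t, ⟨h0, h1⟩, d, Mx_subset _ _ hd, hne, hd⟩
  obtain ⟨s, ⟨hs0, hs1⟩, ⟨d₁, -, hP1, hd1⟩, ⟨d₂, -, hP2, hd2⟩⟩ :=
    isPreconnected_closed_iff.mp (isPreconnected_Ioc (a := (0 : ℝ)) (b := 1)) _ _
      (closed_some C p q (fun c => NA A C a c = NA A C a c₀))
      (closed_some C p q (fun c => ¬ NA A C a c = NA A C a c₀)) hcover hfirst hsecond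
  have haM : a ∈ Mx A (pth p q s) := mem_Mx_comb (by linarith) hs0.le hseg.ap hseg.aq
  have hr1 := hreg s hs0 hs1 d₁ hd1
  have hr2 := hreg s hs0 hs1 d₂ hd2
  obtain ⟨-, htie, -⟩ := hRegTie A C a d₁ (pth p q s) hA hr1 (hseg.nz s hs0.le hs1) haM hd1
  have hne12 : d₂ ≠ d₁ := by
    rintro rfl
    exact hP2 hP1
  rcases htie with h | ⟨c', hc', h⟩
  · rw [h, Finset.mem_singleton] at hd2
    exact hne12 hd2
  · rw [h, Finset.mem_insert, Finset.mem_singleton] at hd2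
    rcases hd2 with h' | h'
    · exact hne12 h'
    · subst h'
      exact hP2 ((hConstNbr A C a d₁ d₂ hA hr1 hr2 hc').symm.trans hP1)

end TPH
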