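import Pool.Agent.TPH.St3

set_option autoImplicit false

/-! # Project TPH, module SegZ -/

namespace TPH

namespace MSegZ

/-- No point of `R_c` strictly between the two planes lies in the plane `(c-c')^⊥`. -/
theorem ne_zero {A B C e₁ e₂ : Finset E} {c c' u₁ z₁ u₂ z₂ p : E}
    (h₁ : HF A B C e₁ c c' u₁ z₁) (h₂ : HF A B C e₂ c c' u₂ z₂)
    (hpos : 0 < det3 (c - c') z₁ z₂) (hm : Miss A B c z₁ z₂) (hp : InR A B c p)
    (p1 : 0 < det3 z₁ p u₁) (p2 : det3 z₂ p u₂ < 0) : ip (c - c') p ≠ 0 := by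
  intro h0
  have hw : c - c' ≠ 0 := sub_ne_zero.mpr h₁.ne
  have hcr : cr z₁ z₂ ≠ 0 := by
    intro hcr
    have h := ip_cr' z₁ z₂ (c - c')
    rw [hcr, ip_zero_right, ← det3_cyc'] at h
    rw [← h] at hpos
    exact lt_irrefl _ hpos
  obtain ⟨α, β, rfl⟩ := comb_of_perp hw hcr h₁.wz h₂.wz h0
  have D1 : 0 < det3 z₁ z₂ u₁ := (h₁.det_pos_iff h₂ h₁.wu).1.mpr hpos
  have D2 : 0 < det3 z₁ z₂ u₂ := (h₁.det_pos_iff h₂ h₂.wu).1.mpr hpos
  rw [det3_add2, det3_smul2, det3_smul2, det3_self12, mul_zero, zero_add] at p1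
  rw [det3_add2, det3_smul2, det3_smul2, det3_self12, mul_zero, add_zero, det3_swap12] at p2
  have hβ : 0 < β := (pos_iff_pos_of_mul_pos p1).mpr D1
  have hα : 0 < α := by
    by_contra hcon
    have := mul_nonneg_of_nonpos_of_nonpos (not_lt.mp hcon) (neg_nonpos.mpr D2.le)
    linarith
  exact hm α β hα.le hβ.le hp

end MSegZ

theorem t_SegZ (hOrder : StmtOrder) (hQuadCone : StmtQuadCone) : StmtSegZ := by
  intro A B C e₁ e₂ c c' u₁ z₁ u₂ z₂ q h₁ h₂ hpos hm hq hl
  have D1 : 0 < det3 z₁ z₂ u₁ := (h₁.det_pos_iff h₂ h₁.wu).1.mpr hpos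
  have D2 : 0 < det3 z₁ z₂ u₂ := (h₁.det_pos_iff h₂ h₂.wu).1.mpr hpos
  have D2' : det3 z₂ z₁ u₂ < 0 := by rw [det3_swap12]; linarith
  obtain ⟨q1, q2⟩ := (h₁.lune_iff h₂ hpos q).mp hl
  obtain ⟨o1, -, o3, -⟩ := hOrder A B C e₁ e₂ c c' u₁ z₁ u₂ z₂ h₁ h₂ hpos
  -- part (1)
  have hwq : 0 < ip (c - c') q := by
    by_contra hcon
    rcases (not_lt.mp hcon).lt_or_eq with hlt | heq
    · have hx : 0 < ip (c - c') u₁ := h₁.wu
      have hy : 0 < -ip (c - c') q := by linarith
      have hin : InR A B c (ip (c - c') u₁ • q + (-ip (c - c') q) • u₁) :=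
        InR.comb hx hy.le hq h₁.clo
      refine MSegZ.ne_zero h₁ h₂ hpos hm hin ?_ ?_ ?_
      · rw [det3_add2, det3_smul2, det3_smul2, det3_self23, mul_zero, add_zero]
        exact mul_pos hx q1
      · rw [det3_add2, det3_smul2, det3_smul2]
        have e1 := mul_neg_of_pos_of_neg hx q2
        have e2 := mul_neg_of_pos_of_neg hy o1
        linarith
      · rw [ip_add_right, ip_smul_right, ip_smul_right]
        ring
    · exact MSegZ.ne_zero h₁ h₂ hpos hm hq q1 q2 heq
  refine ⟨hwq, ?_⟩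
  intro α β γ hα hβ hγ
  set v : E := α • z₁ + β • z₂ + γ • q with hv
  -- values
  have v1 : 0 < det3 z₁ v u₁ := by
    rw [hv, det3_add2, det3_add2, det3_smul2, det3_smul2, det3_smul2, det3_self12, mul_zero,
      zero_add]
    have e1 := mul_nonneg hβ D1.le
    have e2 := mul_pos hγ q1
    linarith
  have v2 : det3 z₂ v u₂ < 0 := by
    rw [hv, det3_add2, det3_add2, det3_smul2, det3_smul2, det3_smul2, det3_self12, mul_zero,
      add_zero]
    have e1 := mul_nonpos_of_nonneg_of_nonpos hα D2'.le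
    have e2 := mul_neg_of_pos_of_neg hγ q2
    linarith
  have vw : 0 < ip (c - c') v := by
    rw [hv, ip_add_right, ip_add_right, ip_smul_right, ip_smul_right, ip_smul_right, h₁.wz, h₂.wz,
      mul_zero, mul_zero, zero_add, zero_add]
    exact mul_pos hγ hwq
  have l1 : 0 < det3 u₁ z₁ u₂ := by rw [← det3_cyc]; exact o3
  have l2 : 0 < det3 u₁ z₂ u₂ := by rw [det3_swap12]; linarith
  have lv : det3 u₁ v u₂ = det3 u₁ (α • z₁ + β • z₂) u₂ + γ * det3 u₁ q u₂ := by
    rw [hv, det3_add2, det3_smul2 γ]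
  have ls : det3 u₁ (α • z₁ + β • z₂) u₂ = α * det3 u₁ z₁ u₂ + β * det3 u₁ z₂ u₂ := by
    rw [det3_add2, det3_smul2, det3_smul2]
  by_cases hlam : 0 < det3 u₁ v u₂
  · -- the cone over the quadrilateral
    right
    have v3 : 0 < det3 z₁ z₂ v := (h₁.det_pos_iff h₂ vw).1.mpr hpos
    obtain ⟨k₁, k₂, k₃, k₄, g1, g2, g3, g4, -, hk⟩ :=
      hQuadCone z₁ z₂ u₁ u₂ v D1 v3 v1 v2.le hlam o1
    have c1 : c ∈ Mx C z₁ := by rw [h₁.cz]; simp
    have c2 : c ∈ Mx C z₂ := by rw [h₂.cz]; simp
    have c3 : c ∈ Mx C u₁ := by rw [h₁.cu]; simp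
    have c4 : c ∈ Mx C u₂ := by rw [h₂.cu]; simp
    have hval : ∀ d : E, ip d v = k₁ * ip d z₁ + k₂ * ip d z₂ + k₃ * ip d u₁ + k₄ * ip d u₂ := by
      intro d
      rw [hk, ip_add_right, ip_add_right, ip_add_right, ip_smul_right, ip_smul_right,
        ip_smul_right, ip_smul_right]
    have hcv : c ∈ Mx C v := by
      refine mem_Mx.mpr ⟨h₁.c_mem, fun d hd => ?_⟩
      rw [hval, hval]
      have t1 := mul_le_mul_of_nonneg_left (Mx_le c1 hd) g1
      have t2 := mul_le_mul_of_nonneg_left (Mx_le c2 hd) g2.le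
      have t3 := mul_le_mul_of_nonneg_left (Mx_le c3 hd) g3
      have t4 := mul_le_mul_of_nonneg_left (Mx_le c4 hd) g4
      linarith
    refine Finset.eq_singleton_iff_unique_mem.mpr ⟨hcv, fun d hd => ?_⟩
    by_contra hdc
    have hdC := Mx_subset _ _ hd
    have heq := Mx_eq hd hcv
    by_cases hdc' : d = c'
    · rw [hdc'] at heq
      rw [ip_sub_left, heq, sub_self] at vw
      exact lt_irrefl _ vw
    · have hn : d ∉ Mx C z₂ := by
        rw [h₂.cz]
        simp only [Finset.mem_insert, Finset.mem_singleton, not_or]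
        exact ⟨hdc, hdc'⟩
      have s2 := mul_lt_mul_of_pos_left (Mx_lt c2 hdC hn) g2
      have t1 := mul_le_mul_of_nonneg_left (Mx_le c1 hdC) g1
      have t3 := mul_le_mul_of_nonneg_left (Mx_le c3 hdC) g3
      have t4 := mul_le_mul_of_nonneg_left (Mx_le c4 hdC) g4
      rw [hval, hval] at heq
      linarith
  · have hlam' := not_lt.mp hlam
    by_cases hab : α = 0 ∧ β = 0
    · left
      rw [hv, hab.1, hab.2, zero_smul, zero_smul, zero_add, zero_add]
      exact hq.smul hγ
    · have lspos : 0 < det3 u₁ (α • z₁ + β • z₂) u₂ := by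
        rw [ls]
        rcases hα.eq_or_lt with h0 | h0
        · have hβ0 : 0 < β := lt_of_le_of_ne hβ fun h => hab ⟨h0.symm, h.symm⟩
          rw [← h0, zero_mul, zero_add]
          exact mul_pos hβ0 l2
        · have e1 := mul_pos h0 l1
          have e2 := mul_nonneg hβ l2.le
          linarith
      have lq : det3 u₁ q u₂ < 0 := by
        by_contra hcon
        have := mul_nonneg hγ.le (not_lt.mp hcon)
        linarith
      set lam : ℝ := det3 u₁ (α • z₁ + β • z₂) u₂ with hlamdef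
      set L : ℝ := -det3 u₁ q u₂ with hL
      have hLpos : 0 < L := by rw [hL]; linarith
      set p : E := lam • q + L • (α • z₁ + β • z₂) with hpdef
      have plam : det3 u₁ p u₂ = 0 := by
        rw [hpdef, det3_add2, det3_smul2, det3_smul2, ← hlamdef, hL]
        ring
      have pd1 : 0 < det3 z₁ p u₁ := by
        rw [hpdef, det3_add2, det3_smul2, det3_smul2, det3_add2, det3_smul2, det3_smul2,
          det3_self12, mul_zero, zero_add]
        have e1 := mul_pos lspos q1
        have e2 := mul_nonneg hLpos.le (mul_nonneg hβ D1.le)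
        linarith
      have pd2 : det3 z₂ p u₂ < 0 := by
        rw [hpdef, det3_add2, det3_smul2, det3_smul2, det3_add2, det3_smul2, det3_smul2,
          det3_self12, mul_zero, add_zero]
        have e1 := mul_neg_of_pos_of_neg lspos q2
        have e2 := mul_nonpos_of_nonneg_of_nonpos hLpos.le
          (mul_nonpos_of_nonneg_of_nonpos hα D2'.le)
        linarith
      have hcr : cr u₁ u₂ ≠ 0 := by
        intro hcr
        have h := ip_cr' u₁ u₂ z₂
        rw [hcr, ip_zero_right, ← det3_cyc'] at h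
        rw [← h] at o1
        exact lt_irrefl _ o1
      obtain ⟨x, y, hxy⟩ : ∃ x y : ℝ, p = x • u₁ + y • u₂ := by
        refine comb_of_perp (d := cr u₁ u₂) hcr hcr ?_ ?_ ?_
        · rw [ip_cr, det3_self13]
        · rw [ip_cr, det3_self23]
        · rw [ip_cr, det3_swap23, plam, neg_zero]
      have hy : 0 < y := by
        rw [hxy, det3_add2, det3_smul2, det3_smul2, det3_self23, mul_zero, zero_add] at pd1
        exact (pos_iff_pos_of_mul_pos pd1).mpr o3
      have hx : 0 < x := by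
        rw [hxy, det3_add2, det3_smul2, det3_smul2, det3_self23, mul_zero, add_zero] at pd2
        by_contra hcon
        have := mul_nonneg_of_nonpos_of_nonpos (not_lt.mp hcon) o1.le
        linarith
      have pK : InRc A B c p := by
        rw [hxy]
        exact InRc.comb hx.le hy.le h₁.clo h₂.clo
      have pC : Mx C p = {c} := by
        rw [hxy]
        exact Mx_comb_left hx hy.le (Finset.singleton_nonempty c) h₁.cu (h₂.cu ▸ subset_rfl)
      have hLv : L • v = (-det3 u₁ v u₂) • q + (1 : ℝ) • p := by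
        rw [hpdef, lv, hv, one_smul, smul_add, smul_smul L γ]
        have e1 : L * γ = (-(lam + γ * det3 u₁ q u₂)) + lam := by rw [hL]; ring
        rw [e1, add_smul]
        abel
      rcases hlam'.lt_or_eq with hlt | heq
      · left
        have hin : InR A B c (L • v) := by
          rw [hLv]
          exact InR.comb (by linarith) zero_le_one hq pK
        have h := hin.smul (inv_pos.mpr hLpos)
        rwa [smul_smul, inv_mul_cancel₀ hLpos.ne', one_smul] at h
      · right
        rw [heq, neg_zero, zero_smul, zero_add, one_smul] at hLv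
        rw [← Mx_smul hLpos C v, hLv, pC]

end TPH
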