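import Pool.Agent.TPH.St4

/-!
# Three parallel hyperplanes: two exits on the same side
-/

set_option autoImplicit false

namespace TPH

namespace MSide

theorem core (hBetween : StmtBetween) {A B C e₁ e₂ : Finset E} {c c' u₁ z₁ u₂ z₂ : E}
    (hC : 3 ≤ C.card) (h₁ : HF A B C e₁ c c' u₁ z₁) (h₂ : HF A B C e₂ c c' u₂ z₂)
    (hs : SideR A B C c c' z₁ → SideR A B C c c' z₂) (hpos : 0 < det3 (c - c') z₁ z₂) {α β : ℝ}
    (hα : 0 < α) (hβ : 0 < β) (hr : InR A B c (α • z₁ + β • z₂)) : False := by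
  have hMx : Mx C (α • z₁ + β • z₂) = {c, c'} := by
    rw [Mx_comb (a := c) hα hβ (by rw [h₁.cz]; simp) (by rw [h₂.cz]; simp), h₁.cz, h₂.cz,
      Finset.inter_self]
  have h1 : det3 (c - c') z₁ (α • z₁ + β • z₂) = β * det3 (c - c') z₁ z₂ := by
    rw [det3_add3, det3_smul3, det3_smul3, det3_self23]; ring
  have h2 : det3 (c - c') (α • z₁ + β • z₂) z₂ = α * det3 (c - c') z₁ z₂ := by
    rw [det3_add2, det3_smul2, det3_smul2, det3_self23]; ring
  obtain ⟨r', hr', hM', hp'⟩ := hs ⟨_, hr, hMx, by rw [h1]; exact mul_pos hβ hpos⟩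
  obtain ⟨_, κ, μ, hκ, hμ, hz⟩ := hBetween C c c' _ z₂ r' hC h₁.ne hMx h₂.cz hM'
    (by rw [h2]; exact mul_pos hα hpos) hp'
  have hin : InR A B c z₂ := by
    rw [hz]; exact InR.comb hκ hμ.le hr hr'.le
  apply h₂.not_inR (α := 0) (β := 1) zero_le_one
  rwa [zero_smul, zero_add, one_smul]

end MSide

open MSide in
theorem t_Side (hKeyFn : StmtKeyFn) (hBetween : StmtBetween) : StmtSide := by
  intro A B C e₁ e₂ c c' u₁ z₁ u₂ z₂ hC h₁ h₂ hs α β hα hβ hr
  rcases hα.eq_or_lt with h0 | h0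
  · rw [← h0] at hr
    apply h₂.not_inR (α := 0) (β := β) hβ
    rw [zero_smul] at hr ⊢
    exact hr
  rcases hβ.eq_or_lt with h0' | h0'
  · rw [← h0'] at hr
    apply h₁.not_inR (α := 0) (β := α) hα
    rw [zero_smul, add_zero] at hr
    rw [zero_smul, zero_add]
    exact hr
  rcases lt_trichotomy (det3 (c - c') z₁ z₂) 0 with h | h | h
  · refine core hBetween hC h₂ h₁ hs.mpr ?_ h0' h0 (by rwa [add_comm])
    rw [det3_swap23]; linarith
  · obtain ⟨key, hkey⟩ := hKeyFn C c c' hC h₁.ne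
    obtain ⟨h12, heq⟩ := hkey z₁ z₂ h₁.cz h₂.cz
    obtain ⟨h21, _⟩ := hkey z₂ z₁ h₂.cz h₁.cz
    have hk : key z₁ = key z₂ := by
      rcases lt_trichotomy (key z₁) (key z₂) with hl | hl | hl
      · have := h12.mp hl
        rw [h] at this
        exact absurd this (lt_irrefl _)
      · exact hl
      · have := h21.mp hl
        rw [det3_swap23, h, neg_zero] at this
        exact absurd this (lt_irrefl _)
    obtain ⟨k, hk0, hz⟩ := heq.mp hk
    apply h₁.not_inR (α := 0) (β := α + β * k) (by positivity)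
    rw [zero_smul, zero_add, add_smul, mul_smul, ← hz]
    exact hr
  · exact core hBetween hC h₁ h₂ hs.mp h h0 h0' hr

end TPH
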