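import Pool.Agent.TPH.St4

/-!
# Three parallel hyperplanes: the bound if one of the sets has at most two elements
-/

set_option autoImplicit false

namespace TPH

namespace MSmall

/-- Exchange of the two outer edges. -/
def sg (x : Finset E × E × Finset E) : Finset E × E × Finset E := (x.2.2, x.2.1, x.1)

theorem flat_sg {A B C : Finset E} {x : Finset E × E × Finset E} {u : E}
    (h : IsFlat A B C x u) : IsFlat B A C (sg x) u := by
  obtain ⟨h1, h2, h3, h4, h5, h6, h7⟩ := h
  refine ⟨h2, h1, h5, h4, h3, ?_, ?_⟩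
  · intro b hb a ha
    have := h6 a ha b hb
    show ip b u + ip a u = 2 * ip x.2.1 u
    linarith
  · intro v hv1 hv2 hv3
    refine h7 v hv2 hv1 ?_
    intro a ha b hb
    have := hv3 b hb a ha
    have h8 : ip b v + ip a v = 2 * ip x.2.1 v := this
    linarith

theorem mem_flats {A B C : Finset E} {x : Finset E × E × Finset E} :
    x ∈ flats A B C ↔ ∃ u, IsFlat A B C x u := by
  unfold flats
  rw [@Finset.mem_filter _ _ (Classical.decPred _) _ _]
  constructor
  · exact fun h => h.2
  · intro h
    refine ⟨?_, h⟩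
    obtain ⟨u, -, -, h3, h4, h5, -⟩ := h
    rw [Finset.mem_product, Finset.mem_product, Finset.mem_powerset, Finset.mem_powerset]
    exact ⟨h3 ▸ Mx_subset A u, Mx_subset C u (h4 ▸ Finset.mem_singleton_self _),
      h5 ▸ Mx_subset B u⟩

theorem card_swap (A B C : Finset E) : (flats A B C).card ≤ (flats B A C).card := by
  refine Finset.card_le_card_of_injOn sg ?_ ?_
  · intro x hx
    obtain ⟨u, hu⟩ := mem_flats.mp hx
    exact mem_flats.mpr ⟨u, flat_sg hu⟩
  · intro x _ y _ hxy
    have h : sg (sg x) = sg (sg y) := by rw [hxy]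
    exact h

theorem le_two (hTwoPer : StmtTwoPer) (A B C : Finset E) (h : 3 ≤ A.card ∨ 2 ≤ C.card) :
    (flats A B C).card ≤ 2 * ((Ed A).card * C.card) := by
  classical
  rw [← Finset.card_product]
  refine Finset.card_le_mul_card_image_of_maps_to (f := fun x : Fl => (x.1, x.2.1)) ?_ 2 ?_
  · intro x hx
    obtain ⟨u, h1, h2, h3, h4, h5, -⟩ := mem_flats.mp hx
    refine Finset.mem_product.mpr ⟨mem_Ed.mpr ⟨h1, u, h3⟩, ?_⟩
    exact Mx_subset C u (h4 ▸ Finset.mem_singleton_self _)
  · rintro ⟨e, c⟩ -
    refine le_trans (le_of_eq ?_) (hTwoPer A B C e c h)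
    congr 1
    ext x
    rw [Finset.mem_filter, @Finset.mem_filter _ _ (Classical.decPred _) _ _, Prod.mk.injEq]

theorem ed_small {A : Finset E} (h : A.card ≤ 2) : (Ed A).card ≤ 1 := by
  have hsub : Ed A ⊆ {A} := by
    intro e he
    rw [mem_Ed] at he
    obtain ⟨h2, u, hu⟩ := he
    have hs : e ⊆ A := hu ▸ Mx_subset A u
    rw [Finset.mem_singleton]
    exact Finset.eq_of_subset_of_card_le hs (by omega)
  have := Finset.card_le_card hsub
  simpa using this

theorem one_flat {A B C : Finset E} (hA : A.card ≤ 2) (hB : B.card ≤ 2) (hC : C.card = 1) :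
    (flats A B C).card ≤ 1 := by
  obtain ⟨c, rfl⟩ := Finset.card_eq_one.mp hC
  have hsub : flats A B {c} ⊆ {(A, c, B)} := by
    rintro ⟨e, d, f⟩ hx
    obtain ⟨u, h1, h2, h3, h4, h5, -⟩ := mem_flats.mp hx
    simp only at h1 h2 h3 h4 h5
    have he : e = A :=
      Finset.eq_of_subset_of_card_le (h3 ▸ Mx_subset A u) (by omega)
    have hf : f = B :=
      Finset.eq_of_subset_of_card_le (h5 ▸ Mx_subset B u) (by omega)
    have hd : d ∈ ({c} : Finset E) := Mx_subset _ u (h4 ▸ Finset.mem_singleton_self _)
    rw [Finset.mem_singleton] at hd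
    rw [Finset.mem_singleton, he, hf, hd]
  have := Finset.card_le_card hsub
  simpa using this

theorem no_flat {A B C : Finset E} (hC : C.card = 0) : (flats A B C).card = 0 := by
  rw [Finset.card_eq_zero] at hC
  subst hC
  rw [Finset.card_eq_zero, Finset.eq_empty_iff_forall_notMem]
  intro x hx
  obtain ⟨u, h1, h2, h3, h4, h5, -⟩ := mem_flats.mp hx
  have := Mx_subset _ u (h4 ▸ Finset.mem_singleton_self x.2.1)
  simp at this

end MSmall

open MSmall in
theorem t_Small (hTwoPer : StmtTwoPer) (hEdgeLin : StmtEdgeLin) : StmtSmall := by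
  intro A B C hA hB hsm
  have eA := (hEdgeLin A hA).2.2
  have eB := (hEdgeLin B hB).2.2
  have hsw := card_swap A B C
  rcases Nat.lt_or_ge C.card 2 with hC | hC
  · rcases Nat.eq_zero_or_pos C.card with h0 | h0
    · rw [no_flat h0]
      exact Nat.zero_le _
    · have h1 : C.card = 1 := by omega
      rcases Nat.lt_or_ge A.card 3 with hA3 | hA3
      · rcases Nat.lt_or_ge B.card 3 with hB3 | hB3
        · have := one_flat (A := A) (B := B) (C := C) (by omega) (by omega) h1
          omega
        · have := le_two hTwoPer B A C (Or.inl hB3)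
          rw [h1] at this
          omega
      · have := le_two hTwoPer A B C (Or.inl hA3)
        rw [h1] at this
        omega
  · have kA := le_two hTwoPer A B C (Or.inr hC)
    have kB := le_two hTwoPer B A C (Or.inr hC)
    rcases hsm with h | h | h
    · have h1 := ed_small h
      have h2 : (Ed A).card * C.card ≤ 1 * C.card := Nat.mul_le_mul_right _ h1
      omega
    · have h1 := ed_small h
      have h2 : (Ed B).card * C.card ≤ 1 * C.card := Nat.mul_le_mul_right _ h1
      omega
    · have h1 : C.card = 2 := by omega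
      rw [h1] at kA
      omega

end TPH
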