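import Pool.Agent.TPH.St1

set_option autoImplicit false

/-!
# Three parallel hyperplanes: the special cells have linearly many sides
-/

namespace TPH

namespace MSpecialBound

/-- the first component of the pair determines the second element of a two element set -/
theorem pair_inj {a x y : E} (hx : x ≠ a) (h : ({a, x} : Finset E) = {a, y}) :
    x = y := by
  have h1 : x ∈ ({a, y} : Finset E) := by
    rw [← h]
    simp
  rw [Finset.mem_insert, Finset.mem_singleton] at h1
  rcases h1 with h1 | h1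
  · exact absurd h1 hx
  · exact h1

/-- sides and pieces -/
theorem sum_NA (A C : Finset E) :
    ∑ p ∈ Fc A C, (NA A C p.1 p.2).card ≤ 2 * (Pc A C).card := by
  classical
  have h1 : ((Fc A C).sigma (fun p => NA A C p.1 p.2)).card ≤
      ((Pc A C).sigma (fun q => q.1)).card := by
    apply Finset.card_le_card_of_injOn
      (fun s : (Σ _ : E × E, E) => (⟨(({s.1.1, s.2} : Finset E), s.1.2), s.1.1⟩ :
        Σ _ : Finset E × E, E))
    · rintro ⟨⟨a, c⟩, a'⟩ hs
      rw [Finset.mem_coe, Finset.mem_sigma] at hs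
      obtain ⟨_, h2⟩ := hs
      obtain ⟨hne, u, hu, hv⟩ := mem_NA.mp h2
      rw [Finset.mem_coe, Finset.mem_sigma]
      refine ⟨mem_Pc.mpr ⟨?_, u, hu, hv⟩, ?_⟩
      · exact Finset.card_pair (fun h => hne h.symm)
      · simp
    · rintro ⟨⟨a, c⟩, a'⟩ hs ⟨⟨b, d⟩, b'⟩ ht hst
      rw [Finset.mem_coe, Finset.mem_sigma] at hs ht
      have ha := (mem_NA.mp hs.2).1
      simp only [Sigma.mk.injEq, Prod.mk.injEq, heq_eq_eq] at hst
      obtain ⟨⟨h2, h3⟩, h4⟩ := hst
      subst h3
      subst h4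
      have h5 := pair_inj ha h2
      subst h5
      rfl
  rw [Finset.card_sigma, Finset.card_sigma] at h1
  refine h1.trans ?_
  have h2 : ∀ q ∈ Pc A C, q.1.card = 2 := by
    rintro ⟨e, c⟩ hq
    exact (mem_Pc.mp hq).1
  rw [Finset.sum_congr rfl h2, Finset.sum_const, smul_eq_mul, mul_comm]

theorem Fc_card_swap (A C : Finset E) : (Fc C A).card = (Fc A C).card := by
  apply Finset.card_nbij Prod.swap
  · rintro ⟨c, a⟩ h
    exact Finset.mem_coe.mpr (fc_swap.mp (Finset.mem_coe.mp h))
  · intro x _ y _ h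
    exact Prod.swap_injective h
  · rintro ⟨a, c⟩ h
    exact ⟨(c, a), Finset.mem_coe.mpr (fc_swap.mp (Finset.mem_coe.mp h)), rfl⟩

theorem sum_NA_swap (A C : Finset E) :
    ∑ p ∈ Fc A C, (NA C A p.2 p.1).card = ∑ p ∈ Fc C A, (NA C A p.1 p.2).card := by
  apply Finset.sum_nbij Prod.swap
  · rintro ⟨a, c⟩ h
    exact fc_swap.mp h
  · intro x _ y _ h
    exact Prod.swap_injective h
  · rintro ⟨c, a⟩ h
    exact ⟨(a, c), Finset.mem_coe.mpr (fc_swap.mp (Finset.mem_coe.mp h)), rfl⟩
  · rintro ⟨a, c⟩ _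
    rfl

/-- the total number of sides -/
theorem total (hPieces : StmtPieces) (hCrossLe : StmtCrossLe) (hEdgeLin : StmtEdgeLin)
    (A C : Finset E) (hA : 3 ≤ A.card) (hC : 3 ≤ C.card) (cA : ConvPos A) (cC : ConvPos C) :
    ∑ p ∈ Fc A C, ((NA A C p.1 p.2).card + (NA C A p.2 p.1).card) ≤
      4 * (Fc A C).card + 32 * (A.card + C.card) := by
  rw [Finset.sum_add_distrib, sum_NA_swap]
  have h1 := sum_NA A C
  have h2 := sum_NA C A
  have h3 := hPieces A C hA cC
  have h4 := hPieces C A hC cA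
  have h5 := hCrossLe A C
  have h6 := hCrossLe C A
  rw [Fc_card_swap] at h6
  obtain ⟨e1, _, e3⟩ := hEdgeLin A cA
  obtain ⟨f1, _, f3⟩ := hEdgeLin C cC
  omega

end MSpecialBound

theorem t_SpecialBound (hPieces : StmtPieces) (hCrossLe : StmtCrossLe) (hEdgeLin : StmtEdgeLin)
    (hQuad : StmtQuad) (hOCount : StmtOCount) (_hCornerNbr : StmtCornerNbr) :
    StmtSpecialBound := by
  classical
  obtain ⟨K, hK⟩ := hOCount
  refine ⟨160 + 20 * K, ?_⟩
  intro A C hA hC cA cC
  have h1 := MSpecialBound.total hPieces hCrossLe hEdgeLin A C hA hC cA cC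
  have h2 := hK A C cA cC
  -- the pointwise inequality
  have h3 : ∀ p ∈ Fc A C,
      (if p ∈ Sp A C then ((NA A C p.1 p.2).card + (NA C A p.2 p.1).card) else 0) + 20 ≤
        5 * ((NA A C p.1 p.2).card + (NA C A p.2 p.1).card) + (if Ov A C p.1 p.2 then 20 else 0) := by
    rintro ⟨a, c⟩ hp
    by_cases ho : Ov A C a c
    · simp only [ho, if_true]
      split_ifs <;> omega
    · obtain ⟨q1, q2⟩ := hQuad A C a c hA hC hp ho
      by_cases hs : (a, c) ∈ Sp A C
      · have h4 : ¬ Reg A C a c := (mem_Sp.mp hs).2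
        have h5 : ¬ ((NA A C a c).card = 2 ∧ (NA C A c a).card = 2) := by
          rintro ⟨h6, h7⟩
          exact h4 ⟨hp, ho, h6, h7⟩
        simp only [ho, hs, if_true, if_false]
        omega
      · simp only [ho, hs, if_false]
        omega
  have h4 := Finset.sum_le_sum h3
  rw [Finset.sum_add_distrib, Finset.sum_add_distrib, ← Finset.mul_sum, Finset.sum_const,
    smul_eq_mul, ← Finset.sum_filter, ← Finset.sum_filter, Finset.sum_const, smul_eq_mul] at h4
  have h5 : (Fc A C).filter (fun p => p ∈ Sp A C) = Sp A C := by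
    ext ⟨a, c⟩
    rw [Finset.mem_filter]
    constructor
    · exact fun h => h.2
    · intro h
      exact ⟨(mem_Sp.mp h).1, h⟩
  have h6 : ((Fc A C).filter (fun p => Ov A C p.1 p.2)).card ≤ K * (A.card + C.card) := by
    refine le_trans (le_of_eq ?_) h2
    congr 1
  rw [h5] at h4
  have h7 : spSum A C = ∑ p ∈ Sp A C, ((NA A C p.1 p.2).card + (NA C A p.2 p.1).card) := rfl
  rw [h7]
  have h8 : (160 + 20 * K) * (A.card + C.card) =
      160 * (A.card + C.card) + 20 * (K * (A.card + C.card)) := by ring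
  rw [h8]
  omega

end TPH
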