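import Pool.Agent.TPH.St2

/-!
# Three parallel hyperplanes: the path of a tangent flat
-/

set_option autoImplicit false

namespace TPH

namespace MTangentPath

theorem pth_zero (p q : E) : pth p q 0 = p := by
  simp [pth]

theorem pth_one (p q : E) : pth p q 1 = q := by
  simp [pth]

theorem pth_eq (p q : E) (t : ℝ) : pth p q t = p + t • (q - p) := by
  funext i
  simp only [pth, Pi.add_apply, Pi.smul_apply, Pi.sub_apply, smul_eq_mul]
  ring

theorem ip_pth (d p q : E) (t : ℝ) : ip d (pth p q t) = (1 - t) * ip d p + t * ip d q := by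
  rw [pth, ip_add_right, ip_smul_right, ip_smul_right]

/-- A pair inside a set of maximisers, with at most two elements. -/
theorem pair_eq {S : Finset E} {c c' : E} (hne : c' ≠ c) (hc : c ∈ S) (hc' : c' ∈ S)
    (hcard : ¬ 3 ≤ S.card) : S = {c, c'} := by
  symm
  apply Finset.eq_of_subset_of_card_le
  · intro y hy
    rw [Finset.mem_insert, Finset.mem_singleton] at hy
    rcases hy with rfl | rfl
    · exact hc
    · exact hc'
  · rw [Finset.card_pair hne.symm]; omega

theorem card_pair_le (a b : E) : ({a, b} : Finset E).card ≤ 2 := Finset.card_le_two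

/-- The functional `a - a'` has constant sign on the cone if it does not vanish there. -/
theorem side_or {A B : Finset E} {c a a' : E}
    (hno : ∀ r, InR A B c r → ¬ Perp {a, a'} r) :
    (∀ r, InR A B c r → 0 < ip (a - a') r) ∨ (∀ r, InR A B c r → 0 < ip (a' - a) r) := by
  by_contra hcon
  rw [not_or] at hcon
  obtain ⟨h1, h2⟩ := hcon
  push Not at h1 h2
  obtain ⟨r, hr, hr'⟩ := h1
  obtain ⟨s, hs, hs'⟩ := h2
  have hr0 : ip (a - a') r ≠ 0 := by
    intro h0
    apply hno r hr
    rw [perp_pair]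
    rw [ip_sub_left] at h0; linarith
  have hs0 : ip (a - a') s ≠ 0 := by
    intro h0
    apply hno s hs
    rw [perp_pair]
    rw [ip_sub_left] at h0; linarith
  have hrneg : ip (a - a') r < 0 := lt_of_le_of_ne hr' hr0
  have hspos : 0 < ip (a - a') s := by
    have : ip (a - a') s = - ip (a' - a) s := by rw [ip_sub_left, ip_sub_left]; ring
    rcases lt_trichotomy (ip (a - a') s) 0 with h | h | h
    · exfalso; linarith
    · exact absurd h hs0
    · exact h
  apply hno (ip (a - a') s • r + (- ip (a - a') r) • s)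
  · exact InR.comb hspos (by linarith) hr hs.le
  · rw [perp_pair]
    have : ip (a - a') (ip (a - a') s • r + (- ip (a - a') r) • s) = 0 := by
      rw [ip_add_right, ip_smul_right, ip_smul_right]; ring
    rw [ip_sub_left] at this; linarith

/-- The main step, after naming the two points of the edge. -/
theorem main (hTwoCorners : StmtTwoCorners) (hCornerNbr : StmtCornerNbr)
    (hFirstBad : StmtFirstBad) (hRegTie : StmtRegTie) {A B C f : Finset E} {c a a' : E}
    (hA : 3 ≤ A.card) (hC : 3 ≤ C.card) (hside : ∀ r, InR A B c r → 0 < ip (a - a') r)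
    (hreg : Reg A C a c) (hreg' : Reg A C a' c) (hNA : a' ∈ NA A C a c) :
    ∃ δ c' z ρ a₁ a₂, TG A B C ({a, a'}, c, f) δ c' z ρ a₁ a₂ := by
  obtain ⟨c', _, _, hcor, _⟩ := hTwoCorners A C a a' c hA hreg.2.1 hNA
  obtain ⟨_, _, _, _, _, _, hlin⟩ := hCornerNbr A C a a' c c' hcor
  obtain ⟨_, hcc, ⟨z, hzA, hzC⟩, _⟩ := hcor
  obtain ⟨w, hw1, hw2⟩ := hlin (-1) 0
  have hpz : ip (a - a') z = 0 := by
    have : Perp {a, a'} z := hzA ▸ perp_Mx A z
    rw [perp_pair] at this
    rw [ip_sub_left]; linarith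
  have hz0 : z ≠ 0 := by
    rintro rfl
    rw [Mx_zero] at hzA
    have := card_pair_le a a'
    rw [← hzA] at this
    omega
  have hCne : ({c, c'} : Finset E) ≠ C := by
    intro h
    have := card_pair_le c c'
    rw [h] at this
    omega
  have hwS : Perp {c, c'} w := by
    rw [perp_pair]
    rw [ip_sub_left] at hw2; linarith
  obtain ⟨M, τ, hM, hτ, hsub, _, hdiff, _⟩ := rotate (A := C) (C := C) (S := {c, c'}) (T := {c, c'})
    (u := z) (w := w) hzC hzC (by simp) (by simp) (Or.inl hCne) hwS hwS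
  set q : E := z + τ • (w - M • z) with hq
  have hdiff' : Mx C q ≠ {c, c'} := by
    rcases hdiff with h | h <;> exact h
  have hcq : c ∈ Mx C q := hsub (by simp)
  have hc'q : c' ∈ Mx C q := hsub (by simp)
  have hq3 : 3 ≤ (Mx C q).card := by
    by_contra hcon
    exact hdiff' (pair_eq hcc hcq hc'q hcon)
  have hqδ : ip (a - a') q = -τ := by
    rw [hq, ip_add_right, ip_smul_right, ip_sub_right, ip_smul_right, hpz, hw1]; ring
  have hpδ : ∀ t : ℝ, ip (a - a') (pth z q t) = -(t * τ) := by
    intro t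
    rw [ip_pth, hpz, hqδ]; ring
  have hnz : ∀ t : ℝ, 0 ≤ t → pth z q t ≠ 0 := by
    intro t ht h0
    rcases ht.eq_or_lt with h | h
    · rw [← h, pth_zero] at h0; exact hz0 h0
    · have h1 := hpδ t
      rw [h0, ip_zero_right] at h1
      have h2 := mul_pos h hτ
      linarith
  have hcz : c ∈ Mx C z := by rw [hzC]; simp
  have hc'z : c' ∈ Mx C z := by rw [hzC]; simp
  have hseg : Seg C A c a' z q := by
    refine ⟨hcz, hcq, fun t ht _ => hnz t ht, ?_, Reg_swap.mp hreg'⟩
    obtain ⟨ε₀, hε, hε'⟩ := Mx_pert A z (q - z)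
    refine ⟨ε₀, hε, fun t ht ht' => ?_⟩
    rw [pth_eq, hε' t ht ht', hzA]
    apply Mx_pair_right
    have h1 : ip (a - a') (q - z) = -τ := by rw [ip_sub_right, hqδ, hpz]; ring
    rw [ip_sub_left] at h1
    linarith
  have hq0 : q ≠ 0 := by
    have := hnz 1 zero_le_one
    rwa [pth_one] at this
  have hAne : A.Nonempty := by
    rw [← Finset.card_pos]; omega
  obtain ⟨b, hb⟩ := Mx_nonempty hAne q
  have hbad : ¬ Reg C A c b := fun h => h.2.1 ⟨q, hq0, hcq, hb, Or.inl hq3⟩
  obtain ⟨t, a₁, a₂, hst⟩ := hFirstBad C A c a' z q hC hA hseg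
    ⟨1, b, one_pos, le_rfl, by rw [pth_one]; exact hb, hbad⟩
  have hρ0 : pth z q t ≠ 0 := hnz t hst.pos.le
  have hcomb : ∀ y, y ∈ Mx C z → y ∈ Mx C q → y ∈ Mx C (pth z q t) := by
    intro y h1 h2
    exact mem_Mx_comb (by have := hst.le; linarith) hst.pos.le h1 h2
  have hcρ : c ∈ Mx C (pth z q t) := hcomb c hcz hcq
  have hc'ρ : c' ∈ Mx C (pth z q t) := hcomb c' hc'z hc'q
  have hregc : Reg A C a₂ c := Reg_swap.mpr hst.reg
  have ha₂ρ : a₂ ∈ Mx A (pth z q t) := by rw [hst.tie]; simp
  have hρC : Mx C (pth z q t) = {c, c'} := by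
    apply pair_eq hcc hcρ hc'ρ
    intro h3
    exact hregc.2.1 ⟨pth z q t, hρ0, ha₂ρ, hcρ, Or.inr h3⟩
  obtain ⟨_, htie2, htie3⟩ := hRegTie A C a₂ c (pth z q t) hA hregc hρ0 ha₂ρ hcρ
  have hnc' : c' ∈ NA C A c a₂ := by
    rcases htie2 with h | ⟨c'', h1, h2⟩
    · exfalso
      rw [hρC] at h
      have : c' ∈ ({c} : Finset E) := by rw [← h]; simp
      rw [Finset.mem_singleton] at this
      exact hcc this
    · rw [hρC] at h2
      have : c' ∈ ({c, c''} : Finset E) := by rw [← h2]; simp
      rw [Finset.mem_insert, Finset.mem_singleton] at this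
      rcases this with h | h
      · exact absurd h hcc
      · rw [h]; exact h1
  refine ⟨a - a', c', z, pth z q t, a₁, a₂, ?_⟩
  exact
    { perp := by
        intro v
        show Perp {a, a'} v ↔ _
        rw [perp_pair, ip_sub_left, sub_eq_zero]
      side := hside
      nc := hcc
      zA := hzA
      zC := hzC
      ρA := hst.tie
      ρC := hρC
      ρδ := by
        rw [hpδ]
        have := mul_pos hst.pos hτ
        linarith
      za := by
        have := hst.lt 0 le_rfl hst.pos
        rwa [pth_zero] at this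
      sp := mem_Sp.mpr ⟨fc_swap.mpr hst.fc, fun h => hst.bad (Reg_swap.mp h)⟩
      na := hst.nbr
      reg := hregc
      nc' := hnc'
      cor := htie3 a₁ c' hst.ne hcc (by rw [hst.tie, Finset.pair_comm]) hρC }

end MTangentPath

open MTangentPath in
theorem t_TangentPath (hFlatBasic : StmtFlatBasic) (hTwoCorners : StmtTwoCorners)
    (hCornerNbr : StmtCornerNbr) (hFirstBad : StmtFirstBad) (hRegTie : StmtRegTie) :
    StmtTangentPath := by
  rintro A B C ⟨e, c, f⟩ hA hC _ hx
  simp only [D3, Finset.mem_filter] at hx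
  obtain ⟨hfl, hreg, hno⟩ := hx
  obtain ⟨u, hu⟩ := mem_flats.mp hfl
  obtain ⟨_, _, _, _, hcell, _, _⟩ := hFlatBasic A B C (e, c, f) u (Or.inl hA) hu
  have hcard : e.card = 2 := hu.1
  obtain ⟨a, a', hne, rfl⟩ := Finset.card_eq_two.mp hcard
  have ha : a ∈ ({a, a'} : Finset E) := by simp
  have ha' : a' ∈ ({a, a'} : Finset E) := by simp
  rcases side_or (A := A) (B := B) (c := c) (a := a) (a' := a') hno with hs | hs
  · exact main hTwoCorners hCornerNbr hFirstBad hRegTie hA hC hs (hreg a ha)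
      (hreg a' ha') ((hcell a ha).2 a' ha' hne.symm).2
  · rw [Finset.pair_comm a a']
    exact main hTwoCorners hCornerNbr hFirstBad hRegTie hA hC hs (hreg a' ha')
      (hreg a ha) ((hcell a' ha').2 a ha hne).2

end TPH
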