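import Pool.Agent.TPH.St1

set_option autoImplicit false

/-! # Project TPH, module Three -/

namespace TPH

theorem t_Three : StmtThree := by
  intro φ u0 u1 u2 u3 d1 d2 d3 hφ p1 p2 p3 a1 a2 a3 b1 b2 b3 c2 c1 c3 e3 e1 e2
  have hφφ := ip_self_pos hφ
  have hc := cramer φ d1 d2 d3
  -- the coefficient of `φ` vanishes
  have h0 : det3 d3 d1 d2 = 0 := by
    have h := congrArg (fun x => ip φ x) hc
    simp only [ip_add_right, ip_smul_right, p1, p2, p3, mul_zero, add_zero] at h
    rcases mul_eq_zero.mp h.symm with h | h
    · exact h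
    · exact absurd h hφφ.ne'
  have key : ∀ u : E, det3 φ d1 d2 * ip u d3 =
      det3 φ d3 d2 * ip u d1 + det3 φ d1 d3 * ip u d2 := by
    intro u
    have h := congrArg (fun x => ip u x) hc
    simp only [ip_add_right, ip_smul_right, h0, zero_mul, zero_add] at h
    exact h
  have k1 := key u1
  have k2 := key u2
  have k3 := key u3
  rw [b1, mul_zero, zero_add] at k1
  rw [c2, mul_zero, add_zero] at k2
  rw [e3, mul_zero] at k3
  have hzero : det3 φ d1 d2 = 0 := by
    rcases lt_trichotomy (det3 φ d1 d2) 0 with hp | hp | hp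
    · exfalso
      have q1 : det3 φ d1 d3 < 0 := by
        by_contra hq
        have := mul_pos_of_neg_of_neg hp b3
        have := mul_nonpos_of_nonneg_of_nonpos (not_lt.mp hq) b2.le
        linarith
      have q2 : det3 φ d3 d2 < 0 := by
        by_contra hq
        have := mul_pos_of_neg_of_neg hp c3
        have := mul_nonpos_of_nonneg_of_nonpos (not_lt.mp hq) c1.le
        linarith
      have := mul_pos_of_neg_of_neg q1 e2
      have := mul_pos_of_neg_of_neg q2 e1
      linarith
    · exact hp
    · exfalso
      have q1 : 0 < det3 φ d1 d3 := by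
        by_contra hq
        have := mul_neg_of_pos_of_neg hp b3
        have := mul_nonneg_of_nonpos_of_nonpos (not_lt.mp hq) b2.le
        linarith
      have q2 : 0 < det3 φ d3 d2 := by
        by_contra hq
        have := mul_neg_of_pos_of_neg hp c3
        have := mul_nonneg_of_nonpos_of_nonpos (not_lt.mp hq) c1.le
        linarith
      have := mul_neg_of_pos_of_neg q1 e2
      have := mul_neg_of_pos_of_neg q2 e1
      linarith
  have hcr : cr d1 d2 = 0 := by
    by_contra hne
    obtain ⟨k, hk⟩ := par_cr_of_ip hne p1 p2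
    have hpos := ip_self_pos hne
    rw [hk, det3_smul1, ← det3_cyc (cr d1 d2) d1 d2, ← ip_cr] at hzero
    rcases mul_eq_zero.mp hzero with h | h
    · apply hφ
      rw [hk, h, zero_smul]
    · exact absurd h hpos.ne'
  have hd1 : d1 ≠ 0 := by
    rintro rfl
    rw [ip_zero_right] at a1
    exact lt_irrefl _ a1
  obtain ⟨κ, hκ⟩ := par_of_cr hd1 hcr
  rw [hκ, ip_smul_right, b1, mul_zero] at b2
  exact lt_irrefl _ b2

end TPH
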