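import Pool.Agent.TPH.St1

/-!
# An `A`-side of a cell without degenerate corners has two different ends
-/

set_option autoImplicit false

namespace TPH

namespace MTwoCorners

theorem pair_ne {A : Finset E} {a a' : E} (hA : 3 ≤ A.card) : ({a, a'} : Finset E) ≠ A := by
  intro h
  have h1 : ({a, a'} : Finset E).card ≤ 2 := Finset.card_le_two
  rw [h] at h1
  omega

/-- rotation towards `w` reaches a corner -/
theorem side {A C : Finset E} {a a' c u w : E} (hA : 3 ≤ A.card) (hov : ¬ Ov A C a c)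
    (hne : a' ≠ a) (h1 : Mx A u = {a, a'}) (h2 : Mx C u = {c}) (hw : Perp {a, a'} w)
    (hw0 : w ≠ 0) (huw : ip u w = 0) :
    ∃ M τ : ℝ, 0 < τ ∧ Mx A (u + τ • (w - M • u)) = {a, a'} ∧
      ∃ c₁, c₁ ≠ c ∧ Mx C (u + τ • (w - M • u)) = {c, c₁} := by
  classical
  obtain ⟨M, τ, _, hτ, hS, hT, hch, _⟩ := rotate (A := A) (C := C) (S := {a, a'}) (T := {c}) h1 h2
    ⟨a, by simp⟩ ⟨c, by simp⟩ (Or.inl (pair_ne hA)) hw (perp_singleton c w)
  have hz : u + τ • (w - M • u) ≠ 0 := by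
    intro h0
    have h3 : ip (u + τ • (w - M • u)) w = 0 := by rw [h0, ip_zero_left]
    rw [ip_add_left, ip_smul_left, ip_sub_left, ip_smul_left, huw] at h3
    have h4 := ip_self_pos hw0
    have h5 : 0 < τ * ip w w := mul_pos hτ h4
    linarith
  have ha : a ∈ Mx A (u + τ • (w - M • u)) := hS (by simp)
  have hc : c ∈ Mx C (u + τ • (w - M • u)) := hT (by simp)
  have hcard : ¬ (3 ≤ (Mx A (u + τ • (w - M • u))).card ∨
      3 ≤ (Mx C (u + τ • (w - M • u))).card) := fun h => hov ⟨_, hz, ha, hc, h⟩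
  push Not at hcard
  have hpair : ({a, a'} : Finset E).card = 2 := Finset.card_pair (Ne.symm hne)
  have eA : Mx A (u + τ • (w - M • u)) = {a, a'} :=
    (Finset.eq_of_subset_of_card_le hS (by rw [hpair]; omega)).symm
  have hC : Mx C (u + τ • (w - M • u)) ≠ {c} := by
    rcases hch with h | h
    · exact absurd eA h
    · exact h
  have hex : ∃ c₁ ∈ Mx C (u + τ • (w - M • u)), c₁ ≠ c := by
    by_contra hcon
    push Not at hcon
    apply hC
    ext x
    rw [Finset.mem_singleton]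
    constructor
    · exact hcon x
    · rintro rfl
      exact hc
  obtain ⟨c₁, hc₁, hne₁⟩ := hex
  refine ⟨M, τ, hτ, eA, c₁, hne₁, ?_⟩
  symm
  apply Finset.eq_of_subset_of_card_le
  · intro x hx
    rw [Finset.mem_insert, Finset.mem_singleton] at hx
    rcases hx with rfl | rfl
    · exact hc
    · exact hc₁
  · rw [Finset.card_pair (Ne.symm hne₁)]
    omega

theorem not_perp {C : Finset E} {c c₁ u z : E} (h2 : Mx C u = {c}) (hne : c₁ ≠ c)
    (h : Mx C z = {c, c₁}) : ¬ Perp {c, c₁} u := by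
  intro hp
  rw [perp_pair] at hp
  have hc : c ∈ Mx C u := by rw [h2]; simp
  have hc₁ : c₁ ∈ C := Mx_subset C z (by rw [h]; simp)
  have h3 := mem_Mx_of_eq hc hc₁ hp.symm
  rw [h2, Finset.mem_singleton] at h3
  exact hne h3

end MTwoCorners

open MTwoCorners in
theorem t_TwoCorners : StmtTwoCorners := by
  classical
  intro A C a a' c hA hov hNA
  obtain ⟨hne, u, h1, h2⟩ := mem_NA.mp hNA
  have hu0 : u ≠ 0 := by
    rintro rfl
    rw [Mx_zero] at h1
    exact pair_ne hA h1.symm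
  have hperp : Perp {a, a'} u := h1 ▸ perp_Mx A u
  have hδ : a - a' ≠ 0 := sub_ne_zero.mpr (Ne.symm hne)
  have hδu : ip (a - a') u = 0 := by
    rw [ip_sub_left, perp_pair.mp hperp, sub_self]
  have hw0 : cr (a - a') u ≠ 0 := by
    intro h0
    obtain ⟨k, hk⟩ := par_of_cr hδ h0
    rw [hk, ip_smul_right] at hδu
    rcases mul_eq_zero.mp hδu with h | h
    · apply hu0
      rw [hk, h, zero_smul]
    · exact (ip_self_pos hδ).ne' h
  have huw : ip u (cr (a - a') u) = 0 := by rw [ip_cr', det3_self23]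
  have hw : Perp {a, a'} (cr (a - a') u) := by
    rw [perp_pair]
    have h3 : ip (a - a') (cr (a - a') u) = 0 := by rw [ip_cr', det3_self13]
    rw [ip_sub_left] at h3
    linarith
  have hw' : Perp {a, a'} (-cr (a - a') u) := by
    rw [perp_pair, ip_neg_right, ip_neg_right, perp_pair.mp hw]
  obtain ⟨M₁, τ₁, hτ₁, eA₁, c₁, hc₁, eC₁⟩ := side hA hov hne h1 h2 hw hw0 huw
  obtain ⟨M₂, τ₂, hτ₂, eA₂, c₂, hc₂, eC₂⟩ := side hA hov hne h1 h2 hw' (neg_ne_zero.mpr hw0)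
    (by rw [ip_neg_right, huw, neg_zero])
  refine ⟨c₁, c₂, ?_, ⟨hne, hc₁, ⟨_, eA₁, eC₁⟩, u, hperp, not_perp h2 hc₁ eC₁⟩,
    ⟨hne, hc₂, ⟨_, eA₂, eC₂⟩, u, hperp, not_perp h2 hc₂ eC₂⟩⟩
  rintro rfl
  set w := cr (a - a') u with hwdef
  -- `q = c - c₁`
  have hcu : c ∈ Mx C u := by rw [h2]; simp
  have hq : ip c₁ u < ip c u := by
    apply Mx_lt hcu (Mx_subset C _ (by rw [eC₁]; simp))
    rw [h2, Finset.mem_singleton]
    exact hc₁
  have k1 : ip c (u + τ₁ • (w - M₁ • u)) = ip c₁ (u + τ₁ • (w - M₁ • u)) :=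
    Mx_eq (by rw [eC₁]; simp) (by rw [eC₁]; simp)
  have k2 : ip c (u + τ₂ • (-w - M₂ • u)) = ip c₁ (u + τ₂ • (-w - M₂ • u)) :=
    Mx_eq (by rw [eC₂]; simp) (by rw [eC₂]; simp)
  simp only [ip_add_right, ip_smul_right, ip_sub_right, ip_neg_right] at k1 k2
  have k3 : (τ₂ * (1 - τ₁ * M₁) + τ₁ * (1 - τ₂ * M₂)) * (ip c u - ip c₁ u) = 0 := by
    linear_combination τ₂ * k1 + τ₁ * k2
  have k4 : τ₂ * (1 - τ₁ * M₁) + τ₁ * (1 - τ₂ * M₂) = 0 := by
    rcases mul_eq_zero.mp k3 with h | h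
    · exact h
    · linarith
  have k5 : τ₂ • (u + τ₁ • (w - M₁ • u)) + τ₁ • (u + τ₂ • (-w - M₂ • u)) = 0 := by
    have e1 : τ₂ • (u + τ₁ • (w - M₁ • u)) + τ₁ • (u + τ₂ • (-w - M₂ • u)) =
        (τ₂ * (1 - τ₁ * M₁) + τ₁ * (1 - τ₂ * M₂)) • u := by
      module
    rw [e1, k4, zero_smul]
  have k6 := Mx_comb (A := A) (a := a) hτ₂ hτ₁ (u := u + τ₁ • (w - M₁ • u))
    (v := u + τ₂ • (-w - M₂ • u)) (by rw [eA₁]; simp) (by rw [eA₂]; simp)
  rw [k5, Mx_zero, eA₁, eA₂, Finset.inter_self] at k6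
  exact pair_ne hA k6.symm

end TPH
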