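import Pool.Agent.TPH.St3

/-!
# Module TwoMax: two maximisers tie in the lune of a gap that is not good
-/

namespace TPH

namespace MTwoMax

theorem ip_path_cont (a p q : E) : Continuous (fun t : ℝ => ip a (pth p q t)) := by
  have h : (fun t : ℝ => ip a (pth p q t)) = fun t : ℝ => (1 - t) * ip a p + t * ip a q := by
    funext t
    rw [pth, ip_add_right, ip_smul_right, ip_smul_right]
  rw [h]
  fun_prop

theorem closed_max (A : Finset E) (p q a : E) : IsClosed {t : ℝ | a ∈ Mx A (pth p q t)} := by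
  have h : {t : ℝ | a ∈ Mx A (pth p q t)} =
      {t : ℝ | a ∈ A} ∩ ⋂ a' ∈ A, {t : ℝ | ip a' (pth p q t) ≤ ip a (pth p q t)} := by
    ext t
    simp only [Set.mem_setOf_eq, mem_Mx, Set.mem_inter_iff, Set.mem_iInter]
  rw [h]
  refine IsClosed.inter isClosed_const ?_
  exact isClosed_biInter fun a' _ => isClosed_le (ip_path_cont a' p q) (ip_path_cont a p q)

theorem closed_fin (A : Finset E) (p q : E) (P : E → Prop) :
    IsClosed {t : ℝ | ∃ a ∈ A, P a ∧ a ∈ Mx A (pth p q t)} := by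
  have h : {t : ℝ | ∃ a ∈ A, P a ∧ a ∈ Mx A (pth p q t)} =
      ⋃ a ∈ (↑A : Set E), {t : ℝ | P a ∧ a ∈ Mx A (pth p q t)} := by
    ext t
    simp only [Set.mem_setOf_eq, Set.mem_iUnion, Finset.mem_coe, exists_prop]
  rw [h]
  refine Set.Finite.isClosed_biUnion A.finite_toSet fun a _ => ?_
  exact IsClosed.inter isClosed_const (closed_max A p q a)

/-- a tie between two kinds of maximisers along a path -/
theorem tie_on_path (A : Finset E) (hA : A.Nonempty) (p q : E) (P : E → Prop) {a b : E}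
    (ha : a ∈ Mx A p) (hPa : P a) (hb : b ∈ Mx A q) (hPb : ¬ P b) :
    ∃ t : ℝ, 0 ≤ t ∧ t ≤ 1 ∧ ∃ a₁ a₂, a₁ ∈ Mx A (pth p q t) ∧ a₂ ∈ Mx A (pth p q t) ∧ P a₁ ∧
      ¬ P a₂ := by
  have hp0 : pth p q 0 = p := by simp [pth]
  have hp1 : pth p q 1 = q := by simp [pth]
  have h := isPreconnected_closed_iff.1 (isPreconnected_Icc (a := (0 : ℝ)) (b := 1))
    {t : ℝ | ∃ a ∈ A, P a ∧ a ∈ Mx A (pth p q t)} {t : ℝ | ∃ a ∈ A, ¬ P a ∧ a ∈ Mx A (pth p q t)}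
    (closed_fin A p q P) (closed_fin A p q fun a => ¬ P a) ?_ ?_ ?_
  · obtain ⟨t, ht, ⟨a₁, _, h1, h2⟩, a₂, _, h3, h4⟩ := h
    exact ⟨t, ht.1, ht.2, a₁, a₂, h2, h4, h1, h3⟩
  · intro t _
    obtain ⟨x, hx⟩ := Mx_nonempty hA (pth p q t)
    by_cases hPx : P x
    · exact Or.inl ⟨x, Mx_subset _ _ hx, hPx, hx⟩
    · exact Or.inr ⟨x, Mx_subset _ _ hx, hPx, hx⟩
  · refine ⟨0, ⟨le_rfl, zero_le_one⟩, a, Mx_subset _ _ ha, hPa, ?_⟩
    rw [hp0]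
    exact ha
  · refine ⟨1, ⟨zero_le_one, le_rfl⟩, b, Mx_subset _ _ hb, hPb, ?_⟩
    rw [hp1]
    exact hb

theorem inR_path {A B : Finset E} {c p q : E} (hp : InR A B c p) (hq : InR A B c q) {t : ℝ}
    (h0 : 0 ≤ t) (h1 : t ≤ 1) : InR A B c (pth p q t) := by
  unfold pth
  rcases h0.eq_or_lt with h | h
  · rw [← h]
    simpa using hp
  · rw [add_comm]
    exact InR.comb h (by linarith) hq hp.le

theorem det_path (z u p q : E) (t : ℝ) :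
    det3 z (pth p q t) u = (1 - t) * det3 z p u + t * det3 z q u := by
  unfold pth
  rw [det3_add2, det3_smul2, det3_smul2]

end MTwoMax

open MTwoMax in
theorem t_TwoMax (hOrder : StmtOrder) : StmtTwoMax := by
  intro A B C e₁ e₂ c c' u₁ z₁ u₂ z₂ h₁ h₂ hpos hbad
  obtain ⟨_, o2, _, _⟩ := hOrder A B C e₁ e₂ c c' u₁ z₁ u₂ z₂ h₁ h₂ hpos
  have hd1 : 0 < det3 z₁ z₂ u₁ := (h₁.det_pos_iff h₂ h₁.wu).1.mpr hpos
  obtain ⟨κ, hκ, hr⟩ := h₁.enter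
  obtain ⟨r, hrdef⟩ : ∃ r : E, r = u₁ - κ • z₁ := ⟨_, rfl⟩
  rw [← hrdef] at hr
  have hPr : Perp e₁ r := by
    rw [hrdef]
    exact h₁.perp_u.sub (h₁.perp_z.smul κ)
  have hMr : Mx A r = e₁ := h₁.full r hr hPr
  have hdr : det3 z₁ r u₁ = 0 := (h₁.perp_iff r).1 hPr
  have hd2 : det3 z₂ r u₂ < 0 := o2 r hr hPr
  -- the maximiser of `e₁` in the direction `z₂`
  have hnp : ¬ Perp e₁ z₂ := by
    rw [h₁.perp_iff]
    exact hd1.ne'
  obtain ⟨a, haM⟩ : ∃ a, Mx e₁ z₂ = {a} := by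
    obtain ⟨x, y, hxy, he⟩ := Finset.card_eq_two.1 h₁.card
    rw [he, perp_pair] at hnp
    rcases lt_or_gt_of_ne hnp with h | h
    · exact ⟨y, by rw [he]; exact Mx_pair_right h⟩
    · exact ⟨x, by rw [he]; exact Mx_pair_left h⟩
  -- it reaches
  have hreach : Reach A z₁ z₂ a := by
    obtain ⟨ε, hε, hM⟩ := Mx_pert A z₁ z₂
    refine ⟨1, ε / 2, one_pos, by positivity, ?_⟩
    rw [one_smul, hM (ε / 2) (by positivity) (by linarith), h₁.ez, haM]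
  -- the point `q₁`
  obtain ⟨ε₁, hε₁, hI⟩ := hr.open' z₂
  obtain ⟨ε₂, hε₂, hM⟩ := Mx_pert A r z₂
  obtain ⟨ε, hεdef⟩ : ∃ ε : ℝ, ε = min ε₁ ε₂ / 2 := ⟨_, rfl⟩
  have hmin : 0 < min ε₁ ε₂ := lt_min hε₁ hε₂
  have hε : 0 < ε := by rw [hεdef]; positivity
  have hεlt : ε < min ε₁ ε₂ := by rw [hεdef]; linarith
  obtain ⟨q₁, hq₁⟩ : ∃ q₁ : E, q₁ = r + ε • z₂ := ⟨_, rfl⟩
  have hq₁R : InR A B c q₁ := by
    rw [hq₁]
    exact hI ε (by rw [abs_of_pos hε]; exact hεlt.trans_le (min_le_left _ _))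
  have hq₁M : Mx A q₁ = {a} := by
    rw [hq₁, hM ε hε (hεlt.trans_le (min_le_right _ _)), hMr, haM]
  have hq₁d1 : 0 < det3 z₁ q₁ u₁ := by
    rw [hq₁, det3_add2, det3_smul2, hdr, zero_add]
    exact mul_pos hε hd1
  have hq₁d2 : det3 z₂ q₁ u₂ < 0 := by
    rw [hq₁, det3_add2, det3_smul2, det3_self12, mul_zero, add_zero]
    exact hd2
  -- the point `q₀`
  unfold Good at hbad
  push Not at hbad
  obtain ⟨q₀, hq₀R, hq₀L, b, hbM, hbR⟩ := hbad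
  obtain ⟨hq₀d1, hq₀d2⟩ := (h₁.lune_iff h₂ hpos q₀).1 hq₀L
  obtain ⟨t, ht0, ht1, a₁, a₂, ha₁, ha₂, hP₁, hP₂⟩ := tie_on_path A h₁.A_ne q₁ q₀
    (fun x => Reach A z₁ z₂ x) (a := a) (b := b) (by rw [hq₁M]; simp) hreach hbM hbR
  refine ⟨pth q₁ q₀ t, a₁, a₂, inR_path hq₁R hq₀R ht0 ht1, ?_, ha₁, ha₂, hP₁, hP₂⟩
  rw [h₁.lune_iff h₂ hpos, det_path, det_path]
  constructor
  · rcases ht0.eq_or_lt with h | h
    · rw [← h]
      linarith
    · have := mul_pos h hq₀d1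
      have := mul_nonneg (by linarith : 0 ≤ 1 - t) hq₁d1.le
      linarith
  · rcases ht0.eq_or_lt with h | h
    · rw [← h]
      linarith
    · have := mul_neg_of_pos_of_neg h hq₀d2
      have := mul_nonpos_of_nonneg_of_nonpos (by linarith : 0 ≤ 1 - t) hq₁d2.le
      linarith

end TPH
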