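import Pool.Agent.TPH.St2

/-!
# Three parallel hyperplanes: at most two flats for given `e` and `c`
-/

namespace TPH

namespace MTwoPer

/-- the convex cone of the vectors exposing `e` in `A` and `c` in `C` -/
def K (A C e : Finset E) (c v : E) : Prop := Mx A v = e ∧ Mx C v = {c}

theorem K.ne_zero {A C e : Finset E} {c v : E} (hc : 3 ≤ A.card ∨ 2 ≤ C.card) (he : e.card = 2)
    (h : K A C e c v) : v ≠ 0 := by
  rintro rfl
  obtain ⟨h1, h2⟩ := h
  rw [Mx_zero] at h1 h2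
  rcases hc with hc | hc
  · rw [h1] at hc
    omega
  · rw [h2, Finset.card_singleton] at hc
    omega

theorem K.comb {A C e : Finset E} {c u v : E} {α β : ℝ} (he : e.card = 2) (hα : 0 < α)
    (hβ : 0 < β) (hu : K A C e c u) (hv : K A C e c v) : K A C e c (α • u + β • v) := by
  have hne : e.Nonempty := Finset.card_pos.1 (by omega)
  exact ⟨Mx_comb_left hα hβ.le hne hu.1 (by rw [hv.1]),
    Mx_comb_left hα hβ.le (Finset.singleton_nonempty c) hu.2 (by rw [hv.2])⟩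

theorem flatK {A B C : Finset E} {x : Finset E × E × Finset E} {u : E} (h : IsFlat A B C x u) :
    K A C x.1 x.2.1 u := ⟨h.2.2.1, h.2.2.2.1⟩

/-- the flat in the middle is equal to the first -/
theorem mid {A B C : Finset E} {x₁ x₂ : Finset E × E × Finset E} {u₁ u₂ u₃ : E}
    {α β : ℝ} (hα : 0 < α) (hβ : 0 < β) (h1 : IsFlat A B C x₁ u₁) (h2 : IsFlat A B C x₂ u₂)
    (he : x₂.1 = x₁.1) (hc : x₂.2.1 = x₁.2.1) (hc1 : InRc A B x₁.2.1 u₁)
    (hc3 : InRc A B x₁.2.1 u₃) (h : u₂ = α • u₁ + β • u₃) : x₂ = x₁ := by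
  obtain ⟨a1, a2, a3, a4, a5, a6, -⟩ := h1
  obtain ⟨b1, b2, b3, b4, b5, b6, -⟩ := h2
  have hne : x₁.1.Nonempty := Finset.card_pos.1 (by omega)
  have hne' : x₁.2.2.Nonempty := Finset.card_pos.1 (by omega)
  obtain ⟨a, ha⟩ := hne
  obtain ⟨b', hb'⟩ := hne'
  have haA : a ∈ A := by
    rw [← a3] at ha
    exact Mx_subset _ _ ha
  have hsub : x₂.2.2 ⊆ x₁.2.2 := by
    intro b hb
    have hbB : b ∈ B := by
      rw [← b5] at hb
      exact Mx_subset _ _ hb
    have e2 := b6 a (by rw [he]; exact ha) b hb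
    rw [hc, h, ip_add_right, ip_add_right, ip_add_right, ip_smul_right, ip_smul_right,
      ip_smul_right, ip_smul_right, ip_smul_right, ip_smul_right] at e2
    have e1 := hc1 a haA b hbB
    have e3 := hc3 a haA b hbB
    have e4 : ip a u₁ + ip b u₁ = 2 * ip x₁.2.1 u₁ := by
      refine le_antisymm e1 ?_
      by_contra hcon
      push Not at hcon
      nlinarith
    have e5 := a6 a ha b' hb'
    have e6 : ip b u₁ = ip b' u₁ := by linarith
    rw [← a5] at hb' ⊢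
    exact mem_Mx_of_eq hb' hbB e6
  have hf : x₂.2.2 = x₁.2.2 := Finset.eq_of_subset_of_card_le hsub (by rw [a2, b2])
  exact Prod.ext he (Prod.ext hc hf)

end MTwoPer

open MTwoPer in
theorem t_TwoPer (hFlatBasic : StmtFlatBasic) : StmtTwoPer := by
  intro A B C e c hAC
  by_contra hcon
  push Not at hcon
  obtain ⟨x₁, m1, x₂, m2, x₃, m3, n12, n13, n23⟩ := Finset.two_lt_card.1 hcon
  have key : ∀ x, x ∈ @Finset.filter (Finset E × E × Finset E)
      (fun x => x.1 = e ∧ x.2.1 = c) (Classical.decPred _) (flats A B C) →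
      (∃ u, IsFlat A B C x u) ∧ x.1 = e ∧ x.2.1 = c := by
    intro x hx
    obtain ⟨hx1, hx2, hx3⟩ := (@Finset.mem_filter _ _ (Classical.decPred _) _ _).1 hx
    have hx4 := (@Finset.mem_filter _ _ (Classical.decPred _) _ _).1 hx1
    exact ⟨hx4.2, hx2, hx3⟩
  obtain ⟨⟨u₁, f1⟩, e1, c1⟩ := key x₁ m1
  obtain ⟨⟨u₂, f2⟩, e2, c2⟩ := key x₂ m2
  obtain ⟨⟨u₃, f3⟩, e3, c3⟩ := key x₃ m3
  obtain ⟨r1, -, -, z1, -, -, p1⟩ := hFlatBasic A B C x₁ u₁ hAC f1
  obtain ⟨r2, -, -, z2, -, -, p2⟩ := hFlatBasic A B C x₂ u₂ hAC f2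
  obtain ⟨r3, -, -, z3, -, -, p3⟩ := hFlatBasic A B C x₃ u₃ hAC f3
  have he : e.card = 2 := by rw [← e1]; exact f1.1
  have k1 : K A C e c u₁ := by rw [← e1, ← c1]; exact flatK f1
  have k2 : K A C e c u₂ := by rw [← e2, ← c2]; exact flatK f2
  have k3 : K A C e c u₃ := by rw [← e3, ← c3]; exact flatK f3
  rw [c1] at r1
  rw [c2] at r2
  rw [c3] at r3
  obtain ⟨a, a', haa, hea⟩ := Finset.card_eq_two.1 he
  obtain ⟨δ, hδ⟩ : ∃ δ, δ = a - a' := ⟨_, rfl⟩
  have hδ0 : δ ≠ 0 := by rw [hδ]; exact sub_ne_zero.2 haa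
  have hperp : ∀ u, K A C e c u → ip δ u = 0 := by
    intro u hu
    have ha : a ∈ Mx A u := by rw [hu.1, hea]; simp
    have ha' : a' ∈ Mx A u := by rw [hu.1, hea]; simp
    rw [hδ, ip_sub_left, Mx_eq ha ha', sub_self]
  -- the determinants do not vanish
  have hdet : ∀ x y : Finset E × E × Finset E, ∀ u v : E, x ≠ y → K A C e c u → K A C e c v →
      u ≠ 0 → (∀ κ : ℝ, 0 < κ → v = κ • u → y = x) → det3 δ u v ≠ 0 := by
    intro x y u v hxy hu hv hu0 hp h0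
    by_cases hcr : cr u v = 0
    · obtain ⟨k, hk⟩ := par_of_cr hu0 hcr
      rcases lt_trichotomy k 0 with hk0 | hk0 | hk0
      · have h1 := (hv.comb he one_pos (neg_pos.2 hk0) hu).ne_zero hAC he
        apply h1
        rw [hk, one_smul, neg_smul, add_neg_cancel]
      · apply hv.ne_zero hAC he
        rw [hk, hk0, zero_smul]
      · exact hxy (hp k hk0 hk).symm
    · obtain ⟨k, hk⟩ := par_cr_of_ip hcr (hperp u hu) (hperp v hv)
      have hk0 : k ≠ 0 := by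
        rintro rfl
        apply hδ0
        rw [hk, zero_smul]
      have h1 : det3 δ u v = k * ip (cr u v) (cr u v) := by
        rw [← det3_cyc, ← ip_cr, ← ip_smul_right, ← hk]
      rw [h1] at h0
      exact mul_ne_zero hk0 (ip_self_pos hcr).ne' h0
  have d12 := hdet x₁ x₂ u₁ u₂ n12 k1 k2 z1 fun κ h1 h2 => p1 x₂ u₂ f2 κ h1 h2
  have d13 := hdet x₁ x₃ u₁ u₃ n13 k1 k3 z1 fun κ h1 h2 => p1 x₃ u₃ f3 κ h1 h2
  have d23 := hdet x₂ x₃ u₂ u₃ n23 k2 k3 z2 fun κ h1 h2 => p2 x₃ u₃ f3 κ h1 h2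
  have hpl := plucker hδ0 (hperp u₁ k1) (hperp u₂ k2) (hperp u₃ k3)
  obtain ⟨p, hp⟩ : ∃ p, p = det3 δ u₂ u₃ := ⟨_, rfl⟩
  obtain ⟨q, hq⟩ : ∃ q, q = det3 δ u₁ u₃ := ⟨_, rfl⟩
  obtain ⟨r, hr⟩ : ∃ r, r = det3 δ u₁ u₂ := ⟨_, rfl⟩
  rw [← hp] at d23
  rw [← hq] at d13
  rw [← hr] at d12
  rw [← hp, ← hq, ← hr] at hpl
  -- `p u₁ - q u₂ + r u₃ = 0`
  have hco : ∀ i, p * u₁ i - q * u₂ i + r * u₃ i = 0 := fun i => by
    have := congrFun hpl i
    simpa using this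
  have hall : ∀ α β γ : ℝ, 0 < α → 0 < β → 0 < γ → α • u₁ + (β • u₂ + γ • u₃) ≠ 0 := by
    intro α β γ hα hβ hγ
    have h1 := (k1.comb he hα one_pos (k2.comb he hβ hγ k3)).ne_zero hAC he
    rwa [one_smul] at h1
  -- the three possible middles
  have m1' : ∀ α β : ℝ, 0 < α → 0 < β → u₁ = α • u₂ + β • u₃ → False := by
    intro α β hα hβ h
    exact n12 (mid hα hβ f2 f1 (e1.trans e2.symm) (c1.trans c2.symm) (by rw [c2]; exact r2)
      (by rw [c2]; exact r3) h)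
  have m2' : ∀ α β : ℝ, 0 < α → 0 < β → u₂ = α • u₁ + β • u₃ → False := by
    intro α β hα hβ h
    exact n12 (mid hα hβ f1 f2 (e2.trans e1.symm) (c2.trans c1.symm) (by rw [c1]; exact r1)
      (by rw [c1]; exact r3) h).symm
  have m3' : ∀ α β : ℝ, 0 < α → 0 < β → u₃ = α • u₁ + β • u₂ → False := by
    intro α β hα hβ h
    exact n13 (mid hα hβ f1 f3 (e3.trans e1.symm) (c3.trans c1.symm) (by rw [c1]; exact r1)
      (by rw [c1]; exact r2) h).symm
  have e1' : p ≠ 0 → u₁ = (q / p) • u₂ + (-r / p) • u₃ := fun h => by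
    funext i
    have := hco i
    simp only [Pi.add_apply, Pi.smul_apply, smul_eq_mul]
    field_simp
    linarith
  have e2' : q ≠ 0 → u₂ = (p / q) • u₁ + (r / q) • u₃ := fun h => by
    funext i
    have := hco i
    simp only [Pi.add_apply, Pi.smul_apply, smul_eq_mul]
    field_simp
    linarith
  have e3' : r ≠ 0 → u₃ = (-p / r) • u₁ + (q / r) • u₂ := fun h => by
    funext i
    have := hco i
    simp only [Pi.add_apply, Pi.smul_apply, smul_eq_mul]
    field_simp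
    linarith
  rcases lt_or_gt_of_ne d23 with hp0 | hp0 <;> rcases lt_or_gt_of_ne d13 with hq0 | hq0 <;>
    rcases lt_or_gt_of_ne d12 with hr0 | hr0
  · exact m2' _ _ (div_pos_of_neg_of_neg hp0 hq0) (div_pos_of_neg_of_neg hr0 hq0) (e2' d13)
  · exact m1' _ _ (div_pos_of_neg_of_neg hq0 hp0) (div_pos_of_neg_of_neg (neg_neg_of_pos hr0) hp0)
      (e1' d23)
  · -- `p < 0`, `q > 0`, `r < 0`
    refine hall (-p) q (-r) (neg_pos.2 hp0) hq0 (neg_pos.2 hr0) ?_
    funext i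
    have := hco i
    simp only [Pi.add_apply, Pi.smul_apply, smul_eq_mul, Pi.zero_apply]
    linarith
  · exact m3' _ _ (div_pos (neg_pos.2 hp0) hr0) (div_pos hq0 hr0) (e3' d12)
  · exact m3' _ _ (div_pos_of_neg_of_neg (neg_neg_of_pos hp0) hr0) (div_pos_of_neg_of_neg hq0 hr0)
      (e3' d12)
  · -- `p > 0`, `q < 0`, `r > 0`
    refine hall p (-q) r hp0 (neg_pos.2 hq0) hr0 ?_
    funext i
    have := hco i
    simp only [Pi.add_apply, Pi.smul_apply, smul_eq_mul, Pi.zero_apply]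
    linarith
  · exact m1' _ _ (div_pos hq0 hp0) (div_pos (neg_pos.2 hr0) hp0) (e1' d23)
  · exact m2' _ _ (div_pos hp0 hq0) (div_pos hr0 hq0) (e2' d13)

end TPH
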