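import Pool.Agent.TPH.HFBasic

/-!
# Three parallel hyperplanes: more facts about half flats
-/

namespace TPH

namespace HF

variable {A B C e f : Finset E} {c c' c₁ c₂ u z y : E}

/-- Points of the closed cone in the plane of `e` have nonpositive `z`-coordinate. -/
theorem beta_nonpos (h : HF A B C e c c' u z) {α β : ℝ} (hv : InRc A B c (α • u + β • z)) :
    β ≤ 0 := by
  by_contra hβ
  push Not at hβ
  obtain ⟨κ, hκ, hk⟩ := h.enter
  have hs := (hk.smul (div_pos hβ hκ)).add hv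
  have he : (β / κ) • (u - κ • z) + (α • u + β • z) = (α + β / κ) • u := by
    rw [smul_sub, smul_smul, div_mul_cancel₀ _ hκ.ne', add_smul]; abel
  rw [he] at hs
  exact h.out _ hs

/-- The wedge argument. -/
theorem wedge (h : HF A B C e c c₁ u z) (h' : HF B A C f c c₂ u y) {κ α β : ℝ} (hα : 0 ≤ α)
    (hβ : 0 ≤ β) (hs : 0 < α + β) : ¬ InRc A B c (κ • u + α • z + β • y) := by
  intro hin
  obtain ⟨k₁, hk₁, hi₁⟩ := h.enter
  obtain ⟨k₂, hk₂, hi₂⟩ := h'.enter
  rw [inR_comm] at hi₂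
  have he : (κ • u + α • z + β • y) + ((α / k₁) • (u - k₁ • z) + (β / k₂) • (u - k₂ • y)) =
      (κ + α / k₁ + β / k₂) • u := by
    rw [smul_sub, smul_smul, div_mul_cancel₀ _ hk₁.ne', smul_sub, smul_smul,
      div_mul_cancel₀ _ hk₂.ne', add_smul, add_smul]; abel
  have hR : InR A B c ((α / k₁) • (u - k₁ • z) + (β / k₂) • (u - k₂ • y)) := by
    rcases hα.eq_or_lt with h0 | h0
    · rw [← h0] at hs ⊢
      rw [zero_div, zero_smul, zero_add]
      exact hi₂.smul (div_pos (by linarith) hk₂)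
    · exact InR.comb (div_pos h0 hk₁) (div_nonneg hβ hk₂.le) hi₁ hi₂.le
  have := hR.add hin
  rw [add_comm, he] at this
  exact h.out _ this

theorem det_pos_iff (h₁ : HF A B C e c c' u z) {e₂ : Finset E} {u₂ z₂ : E}
    (h₂ : HF A B C e₂ c c' u₂ z₂) {p : E} (hp : 0 < ip (c - c') p) :
    (0 < det3 z z₂ p ↔ 0 < det3 (c - c') z z₂) ∧ (det3 z z₂ p < 0 ↔ det3 (c - c') z z₂ < 0) ∧
      (det3 z z₂ p = 0 ↔ det3 (c - c') z z₂ = 0) :=
  sign_iff h₁.wz h₂.wz hp

/-- The lune in terms of determinants, for the positive order. -/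
theorem lune_iff (h₁ : HF A B C e c c' u z) {e₂ : Finset E} {u₂ z₂ : E}
    (h₂ : HF A B C e₂ c c' u₂ z₂) (hpos : 0 < det3 (c - c') z z₂) (q : E) :
    Lune z u z₂ u₂ q ↔ 0 < det3 z q u ∧ det3 z₂ q u₂ < 0 := by
  have h1 : 0 < det3 z z₂ u := (h₁.det_pos_iff h₂ h₁.wu).1.mpr hpos
  have h2 : 0 < det3 z z₂ u₂ := (h₁.det_pos_iff h₂ h₂.wu).1.mpr hpos
  have h3 : det3 z₂ z u₂ < 0 := by rw [det3_swap12]; linarith
  unfold Lune
  constructor
  · rintro ⟨ha, hb⟩
    exact ⟨(pos_iff_pos_of_mul_pos ha).mp h1, by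
      by_contra hcon
      push Not at hcon
      have := mul_nonpos_of_nonpos_of_nonneg h3.le hcon
      linarith⟩
  · rintro ⟨ha, hb⟩
    exact ⟨mul_pos h1 ha, mul_pos_of_neg_of_neg h3 hb⟩

end HF

end TPH
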