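import Pool.Agent.TPH.St2
import Pool.Agent.TPH.HFMore

/-!
# Three parallel hyperplanes: statements about half flats (the geometry of the main part)

Conventions used in the proofs.  `ω = c - c'`.  The arc of the edge `{c,c'}` of `C` is the set of the `s`
with `Mx C s = {c,c'}`; it lies in the plane `ω^⊥`; its rays are ordered by `[s,t] = det3 ω s t`
(`s < t` iff `[s,t] > 0`).  For a half flat with data `e₁,u₁,z₁`: `δ₁ v = det3 z₁ v u₁`; it vanishes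
exactly on the plane of `e₁` (`HF.perp_iff`).  For `ip ω p > 0` the sign of `det3 s t p` is the sign of
`[s,t]` (`HF.sign_iff`, `HF.det_pos_iff`).  `K_c` is the closed cone `InRc A B c`, `R_c` the open cone
`InR A B c`.
-/

namespace TPH

/-- **StmtKeyFn.** A real valued position function on the arc of `{c,c'}`.
PROOF. If no `s` has `Mx C s = {c,c'}` there is nothing to prove.  Otherwise fix such an `s₀` and
`c'' ∈ C` different from `c, c'` (`3 ≤ |C|`); `q = c - c''` is positive at all `s` of the arc.  Put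
`key s = det3 ω s₀ s / ip q s`.  Plücker's relation (`plucker`) for `s₀,s,t`, multiplied by `q`, gives
`[s,t] ip q s₀ = [s₀,t] ip q s - [s₀,s] ip q t`, so
`key t - key s = [s,t] ip q s₀ / (ip q s * ip q t)`.  If the keys agree then `[s,t] = 0`, so `s`, `t`
are parallel (`cr s t` is orthogonal to `s`, `t`, and is a multiple of `ω`; or use
`HF.sign_aux` to see `det3 s t p = 0` for all `p`, so `cr s t = 0`), `s ≠ 0` (`Mx C 0 = C`), and the factor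
is positive because `q` is positive at both.  Conversely clear. -/
def StmtKeyFn : Prop := ∀ (C : Finset E) (c c' : E), 3 ≤ C.card → c ≠ c' →
  ∃ key : E → ℝ, ∀ s t, Mx C s = {c, c'} → Mx C t = {c, c'} →
    (key s < key t ↔ 0 < det3 (c - c') s t) ∧ (key s = key t ↔ ∃ k : ℝ, 0 < k ∧ t = k • s)

/-- **StmtBetween.** A ray of the arc between two others is a positive combination of them.
PROOF. `plucker` for `p,s,t`: `[s,t] p - [p,t] s + [p,s] t = 0`.  Multiply by `q = c - c''` (positive at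
`p`, `s`, `t`, where `c'' ∈ C` is different from `c, c'`): `[p,t] ip q s = [s,t] ip q p + [p,s] ip q t > 0`,
so `[p,t] > 0`, and `s = ([s,t]/[p,t]) p + ([p,s]/[p,t]) t`. -/
def StmtBetween : Prop := ∀ (C : Finset E) (c c' p s t : E), 3 ≤ C.card → c ≠ c' →
  Mx C p = {c, c'} → Mx C s = {c, c'} → Mx C t = {c, c'} → 0 < det3 (c - c') p s →
  0 < det3 (c - c') s t → 0 < det3 (c - c') p t ∧ ∃ α β : ℝ, 0 < α ∧ 0 < β ∧ s = α • p + β • t

/-- **StmtOrder.** Relative position of two half flats with exits on the same arc.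
PROOF. First `e₁ ≠ e₂`: otherwise `z₁`, `z₂`, `u₁` are in the plane of `e₁`, `z₁` and `z₂` are
independent (`[z₁,z₂] > 0`), so `u₁` is a combination of `z₁`, `z₂` (`perp_comb`), hence `ip ω u₁ = 0`,
but `ip ω u₁ > 0` (`HF.wu`).  (a) `δ₂ u₁ < 0`, where `δ₂ v = det3 z₂ v u₂`: `δ₂ z₁ = -det3 z₁ z₂ u₂ < 0`.
If `δ₂ u₁ ≥ 0` there are `α ≥ 0`, `β > 0` with `v = α z₁ + β u₁`, `δ₂ v = 0` (affine function on the
segment from `z₁` to `u₁`), so `Perp e₂ v`.  `Mx C v = {c}` (`HF.Mx_C_comb`), so `v ≠ 0` or at least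
`ip ω v > 0` gives `v ≠ 0`, and `HF.fullZ` of the second half flat gives `Mx A v = e₂`;
`HF.Mx_A_comb` of the first gives `Mx A v = e₁`.  Contradiction.  (b) Let `r ∈ R_c`, `Perp e₁ r`.  If
`δ₂ r ≥ 0` then, as `δ₂ u₁ < 0`, some `v = (1-t) u₁ + t r`, `0 < t ≤ 1`, has `δ₂ v = 0`; `v ∈ R_c`
(`InR.comb` with `HF.clo`), `Perp e₁ v`, `Perp e₂ v`, so `HF.full` of both give `e₁ = Mx A v = e₂`.
Contradiction.  (c), (d) are symmetric: `δ₁ z₂ = det3 z₁ z₂ u₁ > 0`, and the same argument with the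
signs reversed. -/
def StmtOrder : Prop := ∀ (A B C e₁ e₂ : Finset E) (c c' u₁ z₁ u₂ z₂ : E),
  HF A B C e₁ c c' u₁ z₁ → HF A B C e₂ c c' u₂ z₂ → 0 < det3 (c - c') z₁ z₂ →
  det3 z₂ u₁ u₂ < 0 ∧ (∀ r, InR A B c r → Perp e₁ r → det3 z₂ r u₂ < 0) ∧
  0 < det3 z₁ u₂ u₁ ∧ (∀ r, InR A B c r → Perp e₂ r → 0 < det3 z₁ r u₁)

/-- **StmtEscape.** If `h_B` decreases fast enough in the direction `-z` along the chord of a half
flat, we get a contradiction.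
PROOF. Let `a ∈ e` with `2 ip c z < ip a z + m`.  Take `v₀ = u - κ z ∈ R_c` (`HF.enter`), `Perp e v₀`, and
`v τ = v₀ - τ z`.  CLAIM: `v τ ∈ R_c` for all `τ ≥ 0`.  Otherwise let `T` be the infimum of the `τ ≥ 0`
with `v τ ∉ R_c`; since `R_c` is open (`InR.open'`), `T > 0` and `v T ∉ R_c`, while `v τ ∈ R_c` for
`0 ≤ τ < T`.  For `τ < T`: `Mx A (v τ) = e` (`HF.full`), so `a` is a maximiser, hence also
`a ∈ Mx A (v T)` (weak inequalities, continuity; or linear in `τ`).  By `Mx_pert` at `v T` in the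
direction `z` there are `b` and `η > 0` small (`η < T`) with `b ∈ Mx B (v T)` and
`b ∈ Mx B (v T + η z) = Mx B (v (T - η))`.  By hypothesis `m ≤ ip b z`.  Now
`ip a (v T) + ip b (v T) - 2 ip c (v T) = (the same at v (T - η)) - η (ip a z + ip b z - 2 ip c z)`, the
first term is negative as `v (T-η) ∈ R_c`, the second is `≤ 0` as
`ip a z + ip b z - 2 ip c z ≥ ip a z + m - 2 ip c z > 0`.  So `v T ∈ R_c` (`inR_of_mem`), a contradiction.
END: `v τ ∈ R_c` for all `τ ≥ 0`, so `Mx A (v τ) = e` for all `τ ≥ 0`.  As `3 ≤ |A|` there is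
`b ∈ A \ e`; `ip b z < ip a z` (`Mx A z = e`), but `ip b (v τ) < ip a (v τ)` for all `τ ≥ 0` means
`ip (b - a) v₀ < τ ip (b - a) z` for all `τ`, which is false for large `τ`. -/
def StmtEscape : Prop := ∀ (A B C e : Finset E) (c c' u z : E) (m : ℝ), 3 ≤ A.card →
  HF A B C e c c' u z → (∀ v, InR A B c v → Perp e v → ∀ b ∈ Mx B v, m ≤ ip b z) →
  (∃ a ∈ e, 2 * ip c z < ip a z + m) → False

/-- **StmtNotPar.** The edges `e` and `f` of a good flat are not parallel, and `y` is not in the plane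
of `e`.
PROOF. Suppose `det3 z y u = 0`, so `Perp e y`.  `y, u` are independent and `z, u` are independent
(`HF.cr_ne`), all in the plane of `e`, so `y = α z + β u` and (both spans are this plane)
`z = α' y + β' u`; hence `Perp e v ↔ Perp f v` for all `v` (both are the span of `z, u`).  For
`v ∈ R_c`, `Perp e v`, `HF.full` of the second half flat (with `inR_comm`) gives `Mx B v = f`.  Take
`b ∈ f`, `m = ip b z` (all points of `f` have the same value at `z` since `Perp f z`).  `HF.beyond`: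
`2 ip c z < ip a z + ip b z` for `a ∈ e`.  `StmtEscape` gives the contradiction. -/
def StmtNotPar : Prop := ∀ (A B C e f : Finset E) (c c₁ c₂ u z y : E), 3 ≤ A.card →
  HF A B C e c c₁ u z → HF B A C f c c₂ u y → det3 z y u ≠ 0

/-- **StmtExit2.** A half flat is determined by `e`, `c`, a point `t` strictly between `u` and `z`, and
the side of `t` on which `u` lies.
PROOF. `t, u₁, u₂` are in the plane of `e = {a,a'}`; `t` is not a multiple of `u₁` (the determinant is not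
zero).  So `u₂ = α₀ t + β₀ u₁`, and `det3 (a-a') t u₂ = β₀ det3 (a-a') t u₁`, so `β₀ > 0`.  If `α₀ > 0`,
`u₂ = (α₀ α₁ + β₀) u₁ + α₀ β₁ z₁ ∈ K_c` contradicts `HF.beta_nonpos`.  If `α₀ < 0`,
`u₁ = (1/β₀) u₂ + (-α₀/β₀) t`, and the same with the roles exchanged.  So `u₂ = β₀ u₁`. -/
def StmtExit2 : Prop := ∀ (A B C e : Finset E) (c c₁ c₂ u₁ z₁ u₂ z₂ t a a' : E) (α₁ β₁ α₂ β₂ : ℝ),
  HF A B C e c c₁ u₁ z₁ → HF A B C e c c₂ u₂ z₂ → e = {a, a'} → a ≠ a' →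
  0 < α₁ → 0 < β₁ → 0 < α₂ → 0 < β₂ → t = α₁ • u₁ + β₁ • z₁ → t = α₂ • u₂ + β₂ • z₂ →
  0 < det3 (a - a') t u₁ * det3 (a - a') t u₂ → ∃ k : ℝ, 0 < k ∧ u₂ = k • u₁

/-- **StmtQuadCone.** A cone over a convex quadrilateral, in terms of determinants.
PROOF. Let `μ = det3 v z₂ u₁`.  If `μ ≥ 0`, Cramer's rule (`cramer`) for the basis `z₁, z₂, u₁` writes
`v` with the coefficients `det3 v z₂ u₁`, `det3 z₁ v u₁`, `det3 z₁ z₂ v` divided by `det3 z₁ z₂ u₁`: all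
nonnegative, and the second and third are positive.  If `μ < 0`, Cramer's rule for the basis
`z₂, u₁, u₂` writes `v` with the coefficients `det3 v u₁ u₂`, `det3 z₂ v u₂`, `det3 z₂ u₁ v` divided by
`det3 z₂ u₁ u₂ < 0`; `det3 v u₁ u₂ = - det3 u₁ v u₂ < 0`, `det3 z₂ v u₂ ≤ 0`,
`det3 z₂ u₁ v = det3 v z₂ u₁ = μ < 0`; so the coefficients of `z₂` and of `u₂` are positive, that of `u₁`
is nonnegative. -/
def StmtQuadCone : Prop := ∀ z₁ z₂ u₁ u₂ v : E, 0 < det3 z₁ z₂ u₁ → 0 < det3 z₁ z₂ v →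
  0 < det3 z₁ v u₁ → det3 z₂ v u₂ ≤ 0 → 0 < det3 u₁ v u₂ → det3 z₂ u₁ u₂ < 0 →
  ∃ k₁ k₂ k₃ k₄ : ℝ, 0 ≤ k₁ ∧ 0 < k₂ ∧ 0 ≤ k₃ ∧ 0 ≤ k₄ ∧ 0 < k₃ + k₄ ∧
    v = k₁ • z₁ + k₂ • z₂ + k₃ • u₁ + k₄ • u₂

/-- **StmtOutPair.** Two out flats of the same group cross.
PROOF. Write `ω = c - c'`.  By the symmetry which changes all signs (treat the case of negative
determinants in the same way) assume first `0 < det3 z₁ z₂ u₁` and `0 < det3 z₁ y₁ u₁`; then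
`[z₁,z₂] > 0`.  `StmtOrder`: `det3 z₂ u₁ u₂ < 0`, `0 < det3 z₁ u₂ u₁`.  Put `λ v = det3 u₁ v u₂`:
`λ z₁ = det3 z₁ u₂ u₁ > 0`, `λ z₂ = det3 u₁ z₂ u₂ = - det3 z₂ u₁ u₂ > 0`.
(1) `λ y₁ > 0`: by Cramer in the basis `z₁, u₂, u₁` (determinant `D = det3 z₁ u₂ u₁ > 0`)
`y₁ = α z₁ + β u₂ + γ u₁`, `α = det3 y₁ u₂ u₁ / D = λ y₁ / D`, `β = det3 z₁ y₁ u₁ / D > 0`.  If
`λ y₁ ≤ 0`, then `β u₂ = y₁ + (-α) z₁ - γ u₁`, that is `β u₂ = (-γ) u₁ + (-α) z₁ + 1 y₁` is in `K_c`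
(`HF.clo`), with nonnegative coefficients `-α` and `1` of `z₁` and `y₁`: contradiction to `HF.wedge`.
(2) `δ₂ y₁ := det3 z₂ y₁ u₂ > 0`: suppose not.  `ip ω y₁ > 0` as `c' ∉ Mx C y₁ = {c,c''}`, so
`det3 z₁ z₂ y₁ > 0`.  `StmtQuadCone` with `v = y₁` gives `y₁ = k₁ z₁ + k₂ z₂ + k₃ u₁ + k₄ u₂`, and
`ip (c - c'')` is positive at `z₁, z₂` (`Mx C z_i = {c,c'}`, `c'' ≠ c, c'`) and at `u₁, u₂`, but zero at
`y₁`: contradiction.
(3) `δ₂ u₁ < 0 < δ₂ y₁`, so `t = α u₁ + β y₁` with `α = δ₂ y₁`, `β = -δ₂ u₁` has `δ₂ t = 0`,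
`Perp e₂ t`, `t = α' u₂ + β' z₂` (`HF.comb`).  `ip ω t = α ip ω u₁ + β ip ω y₁ > 0` and
`ip ω z₂ = 0` give `α' > 0`; `λ u₁ = λ u₂ = 0`, `λ t = β λ y₁ > 0`, `λ z₂ > 0` give `β' > 0`.
In the case of negative determinants: `[z₁,z₂] < 0`, `StmtOrder` for `(2,1)`, and all the inequalities
are reversed; apply `StmtQuadCone` to the five negated vectors (`det3` of three negated vectors is the
negative). -/
def StmtOutPair : Prop := ∀ (A B C e₁ f₁ e₂ : Finset E) (c c' c'' u₁ z₁ y₁ u₂ z₂ : E),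
  HF A B C e₁ c c' u₁ z₁ → HF B A C f₁ c c'' u₁ y₁ → HF A B C e₂ c c' u₂ z₂ → c'' ≠ c' →
  0 < det3 z₁ z₂ u₁ * det3 z₁ y₁ u₁ →
  ∃ α β α' β' : ℝ, 0 < α ∧ 0 < β ∧ 0 < α' ∧ 0 < β' ∧ α • u₁ + β • y₁ = α' • u₂ + β' • z₂

/-- **StmtOrderAgree.** In a main group the order of the `z` and the order of the `y` agree.
PROOF. Case `σ = 1`: `[z₁,y₁] > 0`, `[z₁,z₂] > 0`; so `det3 z₁ y₁ u₁ > 0`, and `det3 z₁ u₂ u₁ > 0` by
`StmtOrder`.  Suppose `[y₁,y₂] ≤ 0`.  If `[y₁,y₂] < 0`, i.e. `[y₂,y₁] > 0`, `StmtOrder` for the half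
flats of `B` (second, first) gives `det3 y₁ u₂ u₁ < 0`.  By Cramer in the basis `z₁, y₁, u₁`,
`u₂ = α z₁ + β y₁ + γ u₁` with `α = det3 u₂ y₁ u₁ / det3 z₁ y₁ u₁ = - det3 y₁ u₂ u₁ / ... > 0` and
`β = det3 z₁ u₂ u₁ / ... > 0`; this contradicts `HF.wedge` since `u₂ ∈ K_c`.  If `[y₁,y₂] = 0`, then
`y₂ = k y₁` (`StmtKeyFn` and trichotomy, or directly), `k > 0`, so `f₁ = Mx B y₁ = Mx B y₂ = f₂`.  Then
`u₂ = α u₁ + β y₁` (`HF.comb` for the first half flat of `B`), `β ≤ 0` (`HF.beta_nonpos`, use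
`inRc_comm`), `α > 0` (apply `ip ω`), and `u₁ = (1/α) u₂ - (β/(α k)) y₂` gives `-β/(α k) ≤ 0`, so
`β = 0`, `u₂ = α u₁`, `det3 z₁ u₂ u₁ = 0`, contradiction.  Case `σ = -1`: all inequalities reversed:
`det3 z₁ y₁ u₁ < 0`, `det3 z₁ u₂ u₁ < 0` (`StmtOrder` for `(2,1)`), and if `[y₁,y₂] > 0` then
`det3 y₁ u₂ u₁ > 0` (`StmtOrder` for `B`, `(1,2)`), so again `α, β > 0`. -/
def StmtOrderAgree : Prop := ∀ (A B C e₁ f₁ e₂ f₂ : Finset E) (c c' u₁ z₁ y₁ u₂ z₂ y₂ : E) (σ : ℝ),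
  3 ≤ C.card → HF A B C e₁ c c' u₁ z₁ → HF B A C f₁ c c' u₁ y₁ → HF A B C e₂ c c' u₂ z₂ →
  HF B A C f₂ c c' u₂ y₂ → (σ = 1 ∨ σ = -1) → 0 < σ * det3 (c - c') z₁ y₁ →
  0 < σ * det3 (c - c') z₁ z₂ → 0 < σ * det3 (c - c') y₁ y₂

/-- **StmtKeyHalf.** The first half of the key lemma.
PROOF. Apply `StmtEscape` to the first half flat (`A,B,C,e₁,c,c',u₁,z₁`) with `m = ip b' z₁`.  Let
`v ∈ R_c`, `Perp e₁ v`, `b ∈ Mx B v`; we have to show `ip b' z₁ ≤ ip b z₁`.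
(1) `[y₁,y₂] ≠ 0`: `y₁ = κ z₁ + μ y₂` gives `[y₁,y₂] = κ [z₁,y₂]` and `[z₁,y₁] = μ [z₁,y₂]`, and
`[z₁,y₁] ≠ 0` since `det3 z₁ y₁ u₁ ≠ 0` (`StmtNotPar`, `HF.sign_iff`).
(2) `Lune y₁ u₁ y₂ u₂ v`.  First factor: `v = α u₁ + β z₁`, `β < 0` (`HF.beta_neg`), so
`det3 y₁ v u₁ = β det3 y₁ z₁ u₁`, and `0 = det3 y₁ y₁ u₁ = κ det3 y₁ z₁ u₁ + μ det3 y₁ y₂ u₁`, so
`det3 y₁ v u₁ = -(β μ / κ) det3 y₁ y₂ u₁` has the sign of `det3 y₁ y₂ u₁`.  Second factor: we need that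
`det3 y₂ v u₂` has the sign of `det3 y₂ y₁ u₂`.  `StmtOrder` for the half flats of `B` (in the order in
which `[·,·] > 0`) says this for `u₁` instead of `v` (its first or third conclusion).  On the segment
from `u₁` to `v` all points `(1-t) u₁ + t v`, `0 < t ≤ 1`, are in `R_c` and orthogonal to `e₁`, so by
hypothesis they are not orthogonal to `f₂`, so `det3 y₂ · u₂` does not vanish there; the affine function
keeps its sign (at `t = 0` it is not zero either).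
(3) By `Good` there are `α, β > 0` with `s = α y₁ + β y₂`, `Mx B s = {b}`.  Then
`s = (α κ) z₁ + (α μ + β) y₂`.  `ip b s ≥ ip b' s`, and `ip b y₂ ≤ ip b' y₂` because
`b' ∈ f₂ = Mx B y₂`.  Hence `α κ (ip b z₁ - ip b' z₁) ≥ 0`. -/
def StmtKeyHalf : Prop := ∀ (A B C e₁ f₁ f₂ : Finset E) (c c' u₁ z₁ y₁ u₂ y₂ b' : E) (κ μ : ℝ),
  3 ≤ A.card → HF A B C e₁ c c' u₁ z₁ → HF B A C f₁ c c' u₁ y₁ → HF B A C f₂ c c' u₂ y₂ →
  0 < κ → 0 < μ → y₁ = κ • z₁ + μ • y₂ → (∀ r, InR A B c r → Perp e₁ r → ¬ Perp f₂ r) →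
  Good B A c y₁ u₁ y₂ u₂ → b' ∈ f₂ → (∃ a ∈ e₁, 2 * ip c z₁ < ip a z₁ + ip b' z₁) → False

/-- **StmtKey.** The key lemma: three main flats of which no two neighbours cross in `R_c`.
PROOF. Choose `a ∈ e₂`, `b ∈ f₂` and let `T v = 2 ip c v - ip a v - ip b v`.  `HF.beyond` for the half
flat `(e₂,u₂,z₂)` gives `T z₂ < 0`.  `z₂ = α z₁ + β y₃`, so `T z₁ < 0` or `T y₃ < 0`.  If `T z₁ < 0`: for
`a₁ ∈ e₁ = Mx A z₁`, `ip a z₁ ≤ ip a₁ z₁`, so `2 ip c z₁ < ip a₁ z₁ + ip b z₁`: `StmtKeyHalf`.  If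
`T y₃ < 0`: for `b₃ ∈ f₃ = Mx B y₃`, `2 ip c y₃ < ip b₃ y₃ + ip a y₃`: `StmtKeyHalf` with `A` and `B`
exchanged, for the half flats `(f₃,u₃,y₃)`, `(e₃,u₃,z₃)`, `(e₂,u₂,z₂)` and the point `a ∈ e₂`, where
`z₃ = κ' y₃ + μ' z₂`; `Good A B c z₃ u₃ z₂ u₂` is `Good_swap`, and the non-crossing hypothesis is used
with `inR_comm`. -/
def StmtKey : Prop := ∀ (A B C e₁ f₁ e₂ f₂ e₃ f₃ : Finset E)
  (c c' u₁ z₁ y₁ u₂ z₂ y₂ u₃ z₃ y₃ : E), 3 ≤ A.card → 3 ≤ B.card →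
  HF A B C e₁ c c' u₁ z₁ → HF B A C f₁ c c' u₁ y₁ →
  HF A B C e₂ c c' u₂ z₂ → HF B A C f₂ c c' u₂ y₂ →
  HF A B C e₃ c c' u₃ z₃ → HF B A C f₃ c c' u₃ y₃ →
  (∃ κ μ : ℝ, 0 < κ ∧ 0 < μ ∧ y₁ = κ • z₁ + μ • y₂) →
  (∃ κ μ : ℝ, 0 < κ ∧ 0 < μ ∧ z₃ = κ • y₃ + μ • z₂) →
  (∃ κ μ : ℝ, 0 < κ ∧ 0 < μ ∧ z₂ = κ • z₁ + μ • y₃) →
  (∀ r, InR A B c r → Perp e₁ r → ¬ Perp f₂ r) →
  (∀ r, InR A B c r → Perp e₂ r → ¬ Perp f₃ r) →
  Good B A c y₁ u₁ y₂ u₂ → Good A B c z₂ u₂ z₃ u₃ → False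

/-- **StmtSegZ.** Points of `R_c` in the lune, and the segments to them from the cone over `z₁, z₂`.
PROOF. Write `ω = c - c'`, `δ₁ v = det3 z₁ v u₁`, `δ₂ v = det3 z₂ v u₂`, `λ v = det3 u₁ v u₂`.
`HF.lune_iff`: `δ₁ q > 0 > δ₂ q`.  `StmtOrder`: `δ₂ u₁ < 0 < δ₁ u₂`.
(1) `ip ω q > 0`.  If `ip ω q = 0` then `q = α z₁ + β z₂` (both sides are in the plane `ω^⊥`, `z₁`, `z₂`
are independent: `comb_of_perp`); `δ₁ q = β det3 z₁ z₂ u₁ > 0` gives `β > 0`, `δ₂ q = α det3 z₂ z₁ u₂ < 0`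
gives `α > 0`; this contradicts `Miss`.  If `ip ω q < 0`, some `p = (1-t) u₁ + t q` with `0 < t < 1` has
`ip ω p = 0`; `p ∈ R_c` (`InR.comb`), `δ₁ p = t δ₁ q > 0`, `δ₂ p < 0`, and we get the same
contradiction for `p`.
(2) Let `v = s + γ q`, `s = α z₁ + β z₂`, `γ > 0`.  If `s = 0` (that is `α = β = 0`), `v = γ q ∈ R_c`.
Otherwise `λ s > 0` because `λ z₁ = det3 z₁ u₂ u₁ = δ₁ u₂ > 0` and `λ z₂ = - δ₂ u₁ > 0`.
`δ₁ v = β det3 z₁ z₂ u₁ + γ δ₁ q > 0`, `δ₂ v = α det3 z₂ z₁ u₂ + γ δ₂ q < 0`, `ip ω v = γ ip ω q > 0`.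
Case `λ v > 0`: `StmtQuadCone` (with `det3 z₁ z₂ v > 0` from `HF.sign_iff`) writes
`v = k₁ z₁ + k₂ z₂ + k₃ u₁ + k₄ u₂`; for `d ∈ C`, `d ≠ c, c'`, `ip (c-d)` is positive at the four vectors,
so `ip (c-d) v > 0`, and `ip (c-c') v > 0`; so `Mx C v = {c}`.  Case `λ v ≤ 0`: then
`λ q < 0`.  Let `p = λ s • q - λ q • s`, so `λ p = 0`, `δ₁ p > 0`, `δ₂ p < 0`; `p = x u₁ + y u₂`
(`λ p = 0` and `u₁, u₂` independent: Cramer or `comb_of_perp` with the normal vector `cr u₁ u₂`),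
`δ₁ p = y δ₁ u₂` gives `y > 0`, `δ₂ p = x δ₂ u₁` gives `x > 0`.  So `p ∈ K_c` and `Mx C p = {c}`
(`Mx_comb`).  With `L = -λ q > 0`: `v = (1/L) p + (γ - λ s / L) q`, and
`γ - λ s / L = (-λ v)/L ≥ 0`.  If it is positive, `v ∈ R_c` (`InR.comb`), if it is zero,
`v = (1/L) p` and `Mx C v = {c}`. -/
def StmtSegZ : Prop := ∀ (A B C e₁ e₂ : Finset E) (c c' u₁ z₁ u₂ z₂ q : E),
  HF A B C e₁ c c' u₁ z₁ → HF A B C e₂ c c' u₂ z₂ → 0 < det3 (c - c') z₁ z₂ →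
  Miss A B c z₁ z₂ → InR A B c q → Lune z₁ u₁ z₂ u₂ q →
  0 < ip (c - c') q ∧ ∀ α β γ : ℝ, 0 ≤ α → 0 ≤ β → 0 < γ →
    InR A B c (α • z₁ + β • z₂ + γ • q) ∨ Mx C (α • z₁ + β • z₂ + γ • q) = {c}

/-- **StmtIntIn.** If `a` is the only maximiser at a point of the open cone over `z₁, z₂`, then all
points of the arc of `{c,c'}` at which `a` is a maximiser lie in the closed cone over `z₁, z₂`.
PROOF. `p ∈ ω^⊥`, `z₁, z₂` independent, so `p = α' z₁ + β' z₂` (`comb_of_perp`).  Let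
`s = α z₁ + β z₂`; `Mx C s = {c,c'}` (`Mx_comb`).  If `β' < 0`: `[p,z₁] = -β' [z₁,z₂] > 0`... precisely
`det3 ω p z₁ = β' det3 ω z₂ z₁ = -β' [z₁,z₂] > 0`, and `det3 ω z₁ s = β [z₁,z₂] > 0`, so by
`StmtBetween` `z₁ = k p + l s`, `k, l > 0`, and `Mx A z₁ = Mx A p ∩ Mx A s = {a}` (`Mx_comb`), but
`Mx A z₁ = e₁` has two elements.  Similarly `α' ≥ 0`.  If `Mx A p = {a}` and, say, `β' = 0`, then
`p = α' z₁` with `α' > 0` (`p ≠ 0` because `Mx C 0 = C` has three elements), so `Mx A p = e₁` has two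
elements, a contradiction. -/
def StmtIntIn : Prop := ∀ (A B C e₁ e₂ : Finset E) (c c' u₁ z₁ u₂ z₂ a p : E) (α β : ℝ),
  3 ≤ C.card → HF A B C e₁ c c' u₁ z₁ → HF A B C e₂ c c' u₂ z₂ → 0 < det3 (c - c') z₁ z₂ →
  0 < α → 0 < β → Mx A (α • z₁ + β • z₂) = {a} → Mx C p = {c, c'} → a ∈ Mx A p →
  ∃ α' β' : ℝ, 0 ≤ α' ∧ 0 ≤ β' ∧ p = α' • z₁ + β' • z₂ ∧ (Mx A p = {a} → 0 < α' ∧ 0 < β')

/-- The charge `(a,c₁,c₂)` of a gap that is not good: either the cell `(a,c)` itself is special, or the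
segment from a point of the open cone over `z₁, z₂` (where `a` is the only maximiser) to a point `q` of
`R_c` in the lune first meets a special cell `(a,c₁)`, coming from `(a,c₂)`. -/
def Chg (A B C : Finset E) (c c' z₁ u₁ z₂ u₂ a c₁ c₂ : E) : Prop :=
  ∃ α β : ℝ, 0 < α ∧ 0 < β ∧ Mx A (α • z₁ + β • z₂) = {a} ∧
    ((c₁ = c ∧ c₂ = c' ∧ ¬ Reg A C a c) ∨
      ∃ q t, InR A B c q ∧ Lune z₁ u₁ z₂ u₂ q ∧ Seg A C a c (α • z₁ + β • z₂) q ∧
        Stop A C a (α • z₁ + β • z₂) q t c₁ c₂)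

/-- **StmtTwoMax.** If a gap is not good, two maximisers, one reaching and one not, tie somewhere in
`R_c` in the lune.
PROOF. `r₁ = u₁ - κ z₁ ∈ R_c` (`HF.enter`), `Perp e₁ r₁`, `Mx A r₁ = e₁` (`HF.full`), and
`det3 z₂ r₁ u₂ < 0` (`StmtOrder`).  For small `ε > 0` put `q₁ = r₁ + ε z₂`: in `R_c` (`InR.open'`),
`Mx A q₁ = Mx e₁ z₂` (`Mx_pert`), `det3 z₁ q₁ u₁ = ε det3 z₁ z₂ u₁ > 0` (as `det3 z₁ r₁ u₁ = 0`),
`det3 z₂ q₁ u₂ = det3 z₂ r₁ u₂ < 0`; so `q₁` is in the lune (`HF.lune_iff`).  As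
`det3 z₁ z₂ u₁ ≠ 0`, `¬ Perp e₁ z₂`, so `Mx e₁ z₂ = {a⁺}`; `a⁺` reaches, as
`Mx A (z₁ + η z₂) = Mx e₁ z₂ = {a⁺}` for small `η > 0`.  By `¬ Good` there is `q₀ ∈ R_c` in the lune with
a maximiser that does not reach.  The whole segment from `q₁` to `q₀` is in `R_c` and in the lune.  The
sets of `t ∈ [0,1]` for which some reaching (some not reaching) point of `A` is a maximiser at
`pth q₁ q₀ t` are closed, not empty, and cover `[0,1]` (`A` is not empty), so they meet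
(`isPreconnected_Icc`, `isPreconnected_closed_iff`; or a supremum argument). -/
def StmtTwoMax : Prop := ∀ (A B C e₁ e₂ : Finset E) (c c' u₁ z₁ u₂ z₂ : E),
  HF A B C e₁ c c' u₁ z₁ → HF A B C e₂ c c' u₂ z₂ → 0 < det3 (c - c') z₁ z₂ →
  ¬ Good A B c z₁ u₁ z₂ u₂ → ∃ q a a₂, InR A B c q ∧ Lune z₁ u₁ z₂ u₂ q ∧ a ∈ Mx A q ∧
    a₂ ∈ Mx A q ∧ Reach A z₁ z₂ a ∧ ¬ Reach A z₁ z₂ a₂

/-- **StmtSameNbr.** If all cells met by a segment are regular, their `A`-neighbours are the same.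
PROOF. For `0 < t ≤ 1` and `d, d' ∈ Mx C (pth p q t)`, `d ≠ d'`: `StmtRegTie` for the regular cell
`(a,d)` gives `d' ∈ NA C A d a`, so `StmtConstNbr` gives `NA A C a d = NA A C a d'`.  Let `N₀ = NA A C a c₀`.
The set of `t ∈ (0,1]` such that some `d ∈ Mx C (pth p q t)` has `NA A C a d = N₀` and the set of
`t ∈ (0,1]` such that some `d ∈ Mx C (pth p q t)` has `NA A C a d ≠ N₀` are relatively closed, cover
`(0,1]`, are disjoint by the above, and the first is not empty (small `t`); `(0,1]` is connected, so the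
second is empty. -/
def StmtSameNbr : Prop := ∀ (A C : Finset E) (a c₀ p q : E), 3 ≤ A.card → 3 ≤ C.card →
  Seg A C a c₀ p q → (∀ t, 0 < t → t ≤ 1 → ∀ d ∈ Mx C (pth p q t), Reg A C a d) →
  ∀ t, 0 < t → t ≤ 1 → ∀ d ∈ Mx C (pth p q t), NA A C a d = NA A C a c₀

/-- **StmtBadCharge.** A gap that is not good has a charge.
PROOF. `StmtTwoMax` gives `q, a, a₂`; `Reach`: `s = α z₁ + β z₂`, `Mx A s = {a}`, `α, β > 0`.
`Mx C s = {c,c'}` (`Mx_comb`).  So `c' ∈ NA C A c a`, and `(a,c) ∈ Fc A C` (perturb `s` in the direction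
`c - c'`).  (5) If `¬ Reg A C a c`, take `c₁ = c`, `c₂ = c'`.  (6) Otherwise `Seg A C a c s q`: `a ∈ Mx A s`,
`a ∈ Mx A q`; not zero: at time 0, `s ≠ 0` because `Mx C 0 = C`; at `t > 0`, by `StmtSegZ`
`pth s q t = (1-t) s + t q` is in `R_c` or has `Mx C = {c}`, in both cases not zero (`not_inR_zero`,
`HF.A_ne`, `HF.B_ne`); start: `Mx_pert` at `s` in the direction `q - s`:
`Mx {c,c'} (q - s) = {c}` because `ip (c-c') q > 0 = ip (c-c') s` (`StmtSegZ`).  (7) If some cell met is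
not regular, `StmtFirstBad` gives `Stop`, and `(a,c₁) ∈ Sp A C` (`Stop.fc`, `Stop.bad`), `Stop.nbr`.
(8) Otherwise all are regular; by `StmtSameNbr` at time 1, for `d ∈ Mx C q`, `NA A C a d = NA A C a c`.
`a₂ ≠ a` (one reaches, the other does not), `a₂ ∈ Mx A q`, so `StmtRegTie` for `(a,d)` at `q` gives
`Mx A q = {a,a₂}`, `a₂ ∈ NA A C a d = NA A C a c`.  `StmtRegCorner`: `Corner A C a a₂ c c'`, let `ρ` be its
ray: `Mx A ρ = {a,a₂}`, `Mx C ρ = {c,c'}`.  `StmtIntIn`: `ρ = α' z₁ + β' z₂`, `α', β' ≥ 0`.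
If `α', β' > 0`: `ip (a - a₂) ρ = 0`, and `ip (a-a₂)` does not vanish at both `z₁`, `z₂` (else it vanishes on
`ω^⊥`, so `a - a₂` is a multiple of `c - c'`, contradicting the corner, `StmtCornerNbr`); so one of
`z₁, z₂`, call it `z`, has `ip (a₂ - a) z > 0`, and `Mx A (ρ + η z) = {a₂}` for small `η > 0`
(`Mx_pert`), so `a₂` reaches: contradiction.  If `β' = 0`: `ρ = α' z₁`, `α' > 0` (`ρ ≠ 0`), so
`e₁ = {a,a₂}`; the functional `ip (a-a₂)` vanishes on the plane of `e₁`, so it is `l * det3 z₁ · u₁`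
(`par_cr_of_ip`); at `s`: `ip (a-a₂) s > 0` and `det3 z₁ s u₁ = β det3 z₁ z₂ u₁ > 0` give `l > 0`; at `q`:
`det3 z₁ q u₁ > 0` (lune) gives `ip (a-a₂) q > 0`, contradicting `a₂ ∈ Mx A q`.  If `α' = 0`: the same with
`z₂`: `e₂ = {a,a₂}`, `det3 z₂ s u₂ = α det3 z₂ z₁ u₂ < 0`, `det3 z₂ q u₂ < 0`. -/
def StmtBadCharge : Prop := ∀ (A B C e₁ e₂ : Finset E) (c c' u₁ z₁ u₂ z₂ : E), 3 ≤ A.card →
  3 ≤ C.card → HF A B C e₁ c c' u₁ z₁ → HF A B C e₂ c c' u₂ z₂ → 0 < det3 (c - c') z₁ z₂ →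
  Miss A B c z₁ z₂ → ¬ Good A B c z₁ u₁ z₂ u₂ →
  ∃ a c₁ c₂, (a, c₁) ∈ Sp A C ∧ c₂ ∈ NA C A c₁ a ∧ Chg A B C c c' z₁ u₁ z₂ u₂ a c₁ c₂

/-- The data of a gap, for short. -/
structure Gap (A B C e₁ e₂ : Finset E) (c c' u₁ z₁ u₂ z₂ : E) : Prop where
  h₁ : HF A B C e₁ c c' u₁ z₁
  h₂ : HF A B C e₂ c c' u₂ z₂
  pos : 0 < det3 (c - c') z₁ z₂
  miss : Miss A B c z₁ z₂

/-- **StmtNoTie.** The walk of one gap does not cross the arc of another gap of the same `a`.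
Here `(c,c',…)` is a gap with `Mx A s = {a}` at a point `s` of its open cone, and `w` is a point of the
walk of another gap `(d,d',…)`: `w = s' + γ q'` with `s'` in the cone over `w₁, w₂`, `γ > 0`,
`q' ∈ R_d` in the lune.  Then `a ∈ Mx A w` and `Mx C w = {c,c'}` cannot both hold.
PROOF. Suppose they do.  `StmtIntIn` for the first gap with `p = w`: `w` is in the closed cone over
`z₁, z₂`, so `w ∉ R_c` (`Miss`).  So `w ∉ R_d` as well: if `w ∈ R_d` then, as `ip d w ≤ ip c w`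
(`c ∈ Mx C w`, `d ∈ C`), `w ∈ R_c`.  By `StmtSegZ` for the second gap, `Mx C w = {d}`; but it has two
elements. -/
def StmtNoTie : Prop := ∀ (A B C e₁ e₂ g₁ g₂ : Finset E)
  (c c' u₁ z₁ u₂ z₂ d d' v₁ w₁ v₂ w₂ a q' w : E) (α β α' β' γ : ℝ), 3 ≤ C.card →
  Gap A B C e₁ e₂ c c' u₁ z₁ u₂ z₂ → Gap A B C g₁ g₂ d d' v₁ w₁ v₂ w₂ →
  0 < α → 0 < β → Mx A (α • z₁ + β • z₂) = {a} → 0 ≤ α' → 0 ≤ β' → 0 < γ →
  InR A B d q' → Lune w₁ v₁ w₂ v₂ q' → w = α' • w₁ + β' • w₂ + γ • q' →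
  a ∈ Mx A w → Mx C w = {c, c'} → False

/-- **StmtVisit.** Two walks with the same charge: the starting cell of one is visited by the other.
PROOF. Write `F` for the set of the `x` with `Vis C p q t x` and `F'` for those with `Vis C p' q' t' x`;
all cells `(a,x)` with `x ∈ F` or `x ∈ F'` are regular (`Stop.before`).  `c₂ ∈ F`: by `Mx_pert` at
`pth p q t` backward, the maximisers shortly before `t` are in `{c₁,c₂}`, and not `c₁` (`Stop.lt`), so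
`c₂` is one; the same for `F'`.  `c ∈ F` and `d ∈ F'` (small times).  Suppose `c ∉ F'` and `d ∉ F`.
Consider the times `s ∈ (0,t)`: the set of `s` such that some element of `Mx C (pth p q s)` is in `F'`
and the set of `s` such that some element is not in `F'` are relatively closed, cover `(0,t)`, and are
not empty (`c₂` is a maximiser for `s` near `t`; `c` for `s` near `0`).  By connectedness there is `s`
with `x ∈ F'`, `y ∉ F'`, both in `Mx C (pth p q s)`.  `x ≠ y`, `(a,x)` is regular, so `StmtRegTie` gives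
`y ∈ NA C A x a`.  `x ≠ d` because `x ∈ F` and `d ∉ F`.  `StmtLocalPath` for the second walk and `x ∈ F'`,
`x ≠ d`: there are `n₁ ≠ n₂`, different from `x`, with `Mx C (pth p' q' ta) = {n₁,x}`,
`Mx C (pth p' q' tb) = {x,n₂}`, `n₁ ∈ F'`, `n₂ = c₁` or `n₂ ∈ F'`.  By `StmtRegTie` both are in
`NA C A x a`, which has two elements, so `y = n₁` or `y = n₂`.  As `y ∉ F'`, `y = n₂ = c₁`; but
`(a,y)` is regular (`y ∈ F`) and `(a,c₁)` is not (`Stop.bad`).  Contradiction. -/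
def StmtVisit : Prop := ∀ (A C : Finset E) (a c d p q p' q' : E) (t t' : ℝ) (c₁ c₂ : E),
  3 ≤ A.card → 3 ≤ C.card → Seg A C a c p q → Seg A C a d p' q' → Stop A C a p q t c₁ c₂ →
  Stop A C a p' q' t' c₁ c₂ → Vis C p' q' t' c ∨ Vis C p q t d

/-- **StmtGapInj.** The charge determines the gap (up to overlap).
PROOF. Let `s = α z₁ + β z₂` and `s' = α' w₁ + β' w₂` be the starting points; `Mx A s = Mx A s' = {a}`,
`Mx C s = {c,c'}`, `Mx C s' = {d,d'}` (`Mx_comb`).  Once `c = d` and `c' = d'` are known, `StmtIntIn` for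
the second gap with `p = s` gives `s = α'' w₁ + β'' w₂` with positive coefficients (`Mx A s = {a}`).
FORM 0 and FORM 0: `c = c₁ = d`, `c' = c₂ = d'`.
FORM 0 and FORM 1: `c₁ = c`, `c₂ = c'`, and the second walk has
`Mx C (pth s' q' t) = {c₁,c₂} = {c,c'}`, `a ∈ Mx A (pth s' q' t)` (`Seg.ap`, `Seg.aq`), `t > 0`; this point
is `(1-t) s' + t q'`: contradiction by `StmtNoTie`.
FORM 1 and FORM 1: by `StmtVisit` and symmetry assume that the second walk visits `c`.  CLAIM 1: `c = d`.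
If `c ≠ d`, `StmtLocalPath` for the second walk and `x = c`: `n₁ ≠ n₂` with
`Mx C = {n₁,c}` at a time `ta`, `Mx C = {c,n₂}` at a time `tb`, `0 < ta < tb ≤ t'`, both in
`NA C A c a` (`StmtRegTie`, `(a,c)` is regular by `Seg.reg`), which has two elements and contains `c'`
(because of `s`).  So `c' = n₁` or `c' = n₂`, and at `ta` or `tb` the second walk is at a point with
`Mx C = {c,c'}` at which `a` is a maximiser: contradiction by `StmtNoTie`.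
CLAIM 2: `c' = d'`.  Suppose `c' ≠ d'`.  Both are in `NA C A c a` (because of `s` and `s'`, as `c = d`),
which has two elements.  `StmtLocalPath` for the second walk and `x = c = d` (it is visited): there are
`tb` and `n₂ ≠ c` with `Mx C (pth s' q' tb) = {c,n₂}`, so `n₂ ∈ NA C A c a = {c',d'}`.  `n₂ ≠ d'`
because `ip (c - d') (pth s' q' tb) = tb * ip (c-d') q' > 0` (`StmtSegZ` (1), `d = c`).  So `n₂ = c'`:
contradiction by `StmtNoTie`. -/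
def StmtGapInj : Prop := ∀ (A B C e₁ e₂ g₁ g₂ : Finset E)
  (c c' u₁ z₁ u₂ z₂ d d' v₁ w₁ v₂ w₂ a c₁ c₂ : E), 3 ≤ A.card → 3 ≤ C.card →
  Gap A B C e₁ e₂ c c' u₁ z₁ u₂ z₂ → Gap A B C g₁ g₂ d d' v₁ w₁ v₂ w₂ →
  Chg A B C c c' z₁ u₁ z₂ u₂ a c₁ c₂ → Chg A B C d d' w₁ v₁ w₂ v₂ a c₁ c₂ →
  c = d ∧ c' = d' ∧ ∃ α β α' β' : ℝ, 0 < α ∧ 0 < β ∧ 0 < α' ∧ 0 < β' ∧
    α • z₁ + β • z₂ = α' • w₁ + β' • w₂

/-- **StmtGapTrans.** If all consecutive gaps between two members of a group are good, then the gap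
between these two members is good.
PROOF. Let `q ∈ R_c` be in the lune of `x` and `w`: `det3 (z x) q (u x) > 0 > det3 (z w) q (u w)`
(`HF.lune_iff`).  Among the `k ∈ S` with (`k = x` or `[z x, z k] > 0`) and (`[z k, z w] > 0`) and
`det3 (z k) q (u k) ≥ 0` take one, `k`, with the largest position (`StmtKeyFn`; `x` is one of them); and
among the `j ∈ S` with `[z k, z j] > 0` and (`j = w` or `[z j, z w] > 0`) take `j` with the smallest
position (`w` is one of them).  Then `k`, `j` are consecutive, so `Good` holds for them, and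
`det3 (z j) q (u j) < 0` by the choice of `k` (for `j = w` by assumption).  Let `a ∈ Mx A q`.
If `det3 (z k) q (u k) > 0`, `q` is in the lune of `k, j`, so `Mx A (α z k + β z j) = {a}` with
`α, β > 0`; `z k` and `z j` are in the closed cone over `z x`, `z w` (equal to one of them, or
`StmtBetween`), and not both equal to the same end, so `α z k + β z j` is in the open cone: `a` reaches.
If `det3 (z k) q (u k) = 0`, then `k ≠ x`, `Perp (e k) q`, so `Mx A q = e k` (`HF.full`), and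
`z k = κ z x + μ z w`, `κ, μ > 0` (`StmtBetween`).  `e k = {a,a'}`; `¬ Perp (e k) (z x)` (the determinant
`det3 (z k) (z x) (u k)` is not zero), and `ip (a - a') (z k) = 0`, so `ip (a-a')` is positive at exactly
one of `z x`, `z w`, call it `z`; `Mx A (z k + η z) = {a}` for small `η > 0` (`Mx_pert`,
`Mx_pair_left`), and this point is in the open cone over `z x`, `z w`.  So `a` reaches. -/
def StmtGapTrans : Prop := ∀ (ι : Type) (S : Finset ι) (A B C : Finset E) (e : ι → Finset E)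
  (c c' : E) (u z : ι → E) (x w : ι), 3 ≤ C.card →
  (∀ i ∈ S, HF A B C (e i) c c' (u i) (z i)) →
  (∀ i ∈ S, ∀ j ∈ S, det3 (c - c') (z i) (z j) = 0 → i = j) → x ∈ S → w ∈ S →
  0 < det3 (c - c') (z x) (z w) →
  (∀ i ∈ S, ∀ j ∈ S, (i = x ∨ 0 < det3 (c - c') (z x) (z i)) →
    (j = w ∨ 0 < det3 (c - c') (z j) (z w)) → 0 < det3 (c - c') (z i) (z j) →
    (∀ k ∈ S, ¬ (0 < det3 (c - c') (z i) (z k) ∧ 0 < det3 (c - c') (z k) (z j))) →
    Good A B c (z i) (u i) (z j) (u j)) →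
  Good A B c (z x) (u x) (z w) (u w)

end TPH
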