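import Mathlib
import Pool.Agent.TPH.St3

/-!
# Two walks with the same charge
-/

namespace TPH

namespace MVisit

theorem pth_back (p q : E) (t ε : ℝ) : pth p q (t - ε) = pth p q t + ε • (p - q) := by
  unfold pth
  funext i
  simp only [Pi.add_apply, Pi.smul_apply, Pi.sub_apply, smul_eq_mul]
  ring

theorem cont_pth (p q x : E) : Continuous (fun s => ip x (pth p q s)) := by
  unfold ip pth
  simp only [Pi.add_apply, Pi.smul_apply, smul_eq_mul]
  fun_prop

theorem closed_mem (C : Finset E) (p q x : E) : IsClosed {s : ℝ | x ∈ Mx C (pth p q s)} := by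
  by_cases hx : x ∈ C
  · have h : {s : ℝ | x ∈ Mx C (pth p q s)} =
        ⋂ y ∈ C, {s : ℝ | ip y (pth p q s) ≤ ip x (pth p q s)} := by
      ext s
      simp only [Set.mem_setOf_eq, mem_Mx, Set.mem_iInter]
      exact ⟨fun h => h.2, fun h => ⟨hx, h⟩⟩
    rw [h]
    exact isClosed_biInter (fun y _ => isClosed_le (cont_pth p q y) (cont_pth p q x))
  · have h : {s : ℝ | x ∈ Mx C (pth p q s)} = ∅ := by
      ext s
      simp only [Set.mem_setOf_eq, Set.mem_empty_iff_false, iff_false]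
      exact fun h => hx (Mx_subset _ _ h)
    rw [h]
    exact isClosed_empty

theorem nbr_of_tie (hRegTie : StmtRegTie) {A C : Finset E} {a x y ρ : E} (hA : 3 ≤ A.card)
    (hreg : Reg A C a x) (hρ : ρ ≠ 0) (ha : a ∈ Mx A ρ) (hx : x ∈ Mx C ρ) (hy : y ∈ Mx C ρ)
    (hne : y ≠ x) : y ∈ NA C A x a := by
  classical
  obtain ⟨-, h, -⟩ := hRegTie A C a x ρ hA hreg hρ ha hx
  rcases h with h | ⟨c', hc', h⟩
  · rw [h, Finset.mem_singleton] at hy
    exact absurd hy hne
  · rw [h, Finset.mem_insert, Finset.mem_singleton] at hy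
    rcases hy with hy | hy
    · exact absurd hy hne
    · rw [hy]; exact hc'

/-- The last regular cell is visited. -/
theorem vis_last {A C : Finset E} {a p q : E} {t : ℝ} {c₁ c₂ : E}
    (hs : Stop A C a p q t c₁ c₂) : Vis C p q t c₂ := by
  classical
  obtain ⟨ε₀, hε₀, hp⟩ := Mx_pert C (pth p q t) (p - q)
  have htp := hs.pos
  set ε : ℝ := min ε₀ t / 2 with hε
  have hm : 0 < min ε₀ t := lt_min hε₀ htp
  have hε1 : 0 < ε := by rw [hε]; linarith
  have hε2 : ε < ε₀ := by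
    have : min ε₀ t ≤ ε₀ := min_le_left _ _
    rw [hε]; linarith
  have hε3 : ε < t := by
    have : min ε₀ t ≤ t := min_le_right _ _
    rw [hε]; linarith
  have h1 := hp ε hε1 hε2
  rw [← pth_back, hs.tie] at h1
  have hne : (Mx {c₁, c₂} (p - q)).Nonempty := Mx_nonempty ⟨c₁, by simp⟩ _
  obtain ⟨x, hx⟩ := hne
  have hx2 := Mx_subset _ _ hx
  rw [← h1] at hx
  refine ⟨t - ε, by linarith, by linarith, ?_⟩
  rw [Finset.mem_insert, Finset.mem_singleton] at hx2
  rcases hx2 with hx2 | hx2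
  · exfalso
    have hc2 : c₂ ∈ C := by
      refine Mx_subset C (pth p q t) ?_
      rw [hs.tie]; simp
    have h3 := Mx_le hx hc2
    have h4 := hs.lt (t - ε) (by linarith) (by linarith)
    rw [hx2] at h3
    linarith
  · rw [hx2] at hx; exact hx

theorem mem_A {A C : Finset E} {a c p q : E} (hseg : Seg A C a c p q) {s : ℝ} (h0 : 0 ≤ s)
    (h1 : s ≤ 1) : a ∈ Mx A (pth p q s) :=
  mem_Mx_comb (by linarith) h0 hseg.ap hseg.aq

end MVisit

theorem t_Visit (hRegTie : StmtRegTie) (hLocalPath : StmtLocalPath) : StmtVisit := by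
  classical
  intro A C a c d p q p' q' t t' c₁ c₂ hA hC hseg hseg' hst hst'
  by_contra hcon
  push Not at hcon
  obtain ⟨hc, hd⟩ := hcon
  -- the first walk meets both kinds of cells
  set S1 : Set ℝ := ⋃ x ∈ {x ∈ C | Vis C p' q' t' x}, {s : ℝ | x ∈ Mx C (pth p q s)} with hS1
  set S2 : Set ℝ := ⋃ x ∈ {x ∈ C | ¬ Vis C p' q' t' x}, {s : ℝ | x ∈ Mx C (pth p q s)} with hS2
  have cl1 : IsClosed S1 := by
    rw [hS1]
    exact Set.Finite.isClosed_biUnion (Finset.finite_toSet _)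
      (fun x _ => MVisit.closed_mem C p q x)
  have cl2 : IsClosed S2 := by
    rw [hS2]
    exact Set.Finite.isClosed_biUnion (Finset.finite_toSet _)
      (fun x _ => MVisit.closed_mem C p q x)
  have hCne : C.Nonempty := by rw [← Finset.card_pos]; omega
  have hcov : Set.Ioo 0 t ⊆ S1 ∪ S2 := by
    intro s _
    obtain ⟨x, hx⟩ := Mx_nonempty hCne (pth p q s)
    by_cases hv : Vis C p' q' t' x
    · left
      rw [hS1, Set.mem_iUnion₂]
      exact ⟨x, by simpa using ⟨Mx_subset _ _ hx, hv⟩, hx⟩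
    · right
      rw [hS2, Set.mem_iUnion₂]
      exact ⟨x, by simpa using ⟨Mx_subset _ _ hx, hv⟩, hx⟩
  have ne1 : (Set.Ioo 0 t ∩ S1).Nonempty := by
    obtain ⟨s, hs0, hs1, hs2⟩ := MVisit.vis_last hst
    refine ⟨s, ⟨hs0, hs1⟩, ?_⟩
    rw [hS1, Set.mem_iUnion₂]
    exact ⟨c₂, by simpa using ⟨Mx_subset _ _ hs2, MVisit.vis_last hst'⟩, hs2⟩
  have ne2 : (Set.Ioo 0 t ∩ S2).Nonempty := by
    obtain ⟨ε, hε, hst0⟩ := hseg.start
    have htp := hst.pos
    have hm : 0 < min ε t := lt_min hε htp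
    have h1 : min ε t ≤ ε := min_le_left _ _
    have h2 : min ε t ≤ t := min_le_right _ _
    have h3 := hst0 (min ε t / 2) (by linarith) (by linarith)
    have h4 : c ∈ Mx C (pth p q (min ε t / 2)) := by rw [h3]; simp
    refine ⟨min ε t / 2, ⟨by linarith, by linarith⟩, ?_⟩
    rw [hS2, Set.mem_iUnion₂]
    exact ⟨c, by simpa using ⟨Mx_subset _ _ h4, hc⟩, h4⟩
  obtain ⟨s, hs, hs1, hs2⟩ :=
    (isPreconnected_closed_iff.mp (isPreconnected_Ioo (a := (0 : ℝ)) (b := t))) S1 S2 cl1 cl2 hcov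
      ne1 ne2
  rw [hS1, Set.mem_iUnion₂] at hs1
  rw [hS2, Set.mem_iUnion₂] at hs2
  obtain ⟨x, hxF, hx⟩ := hs1
  obtain ⟨y, hyF, hy⟩ := hs2
  have hxV : Vis C p' q' t' x := (Finset.mem_filter.mp hxF).2
  have hyV : ¬ Vis C p' q' t' y := (Finset.mem_filter.mp hyF).2
  simp only [Set.mem_setOf_eq] at hx hy
  have hyx : y ≠ x := by rintro rfl; exact hyV hxV
  have ht1 := hst.le
  have ht1' := hst'.le
  have regx : Reg A C a x := hst.before s hs.1 hs.2 x hx
  have regy : Reg A C a y := hst.before s hs.1 hs.2 y hy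
  have hyN : y ∈ NA C A x a := MVisit.nbr_of_tie hRegTie hA regx
    (hseg.nz s hs.1.le (hs.2.le.trans ht1)) (MVisit.mem_A hseg hs.1.le (hs.2.le.trans ht1)) hx hy hyx
  have hxd : x ≠ d := by
    rintro rfl
    exact hd ⟨s, hs.1, hs.2, hx⟩
  obtain ⟨tb, n₂, b1, b2, b3, b4, b5, b6⟩ :=
    hLocalPath A C a d p' q' t' c₁ c₂ x hA hC hseg' hst' hxV
  obtain ⟨ta, n₁, a1, a2, a3, a4, a5, a6⟩ := b6 hxd
  have hn2 : n₂ ∈ NA C A x a := MVisit.nbr_of_tie hRegTie hA regx
    (hseg'.nz tb b1.le (b2.trans ht1')) (MVisit.mem_A hseg' b1.le (b2.trans ht1'))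
    (by rw [b4]; simp) (by rw [b4]; simp) b3
  have hn1 : n₁ ∈ NA C A x a := MVisit.nbr_of_tie hRegTie hA regx
    (hseg'.nz ta a1.le (a2.le.trans (b2.trans ht1')))
    (MVisit.mem_A hseg' a1.le (a2.le.trans (b2.trans ht1')))
    (by rw [a5]; simp) (by rw [a5]; simp) a3
  have hsub : ({n₁, n₂} : Finset E) ⊆ NA C A x a := by
    intro z hz
    rcases Finset.mem_insert.mp hz with h | h
    · rw [h]; exact hn1
    · rw [Finset.mem_singleton.mp h]; exact hn2
  have heq : ({n₁, n₂} : Finset E) = NA C A x a :=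
    Finset.eq_of_subset_of_card_le hsub (by rw [regx.2.2.2, Finset.card_pair a4])
  rw [← heq, Finset.mem_insert, Finset.mem_singleton] at hyN
  rcases hyN with h | h
  · rw [h] at hyV; exact hyV a6
  · rw [h] at hyV regy
    rcases b5 with h5 | h5
    · rw [h5] at regy
      exact hst.bad regy
    · exact hyV h5

end TPH
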