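import Pool.Agent.TPH.Abstract
import Pool.Agent.TPH.BadAB
import Pool.Agent.TPH.BadCharge
import Pool.Agent.TPH.BadCount
import Pool.Agent.TPH.Between
import Pool.Agent.TPH.ConstNbr
import Pool.Agent.TPH.CornerNbr
import Pool.Agent.TPH.CrossLe
import Pool.Agent.TPH.CrossTri
import Pool.Agent.TPH.Drop1
import Pool.Agent.TPH.Drop2
import Pool.Agent.TPH.Drop2Path
import Pool.Agent.TPH.Drop3
import Pool.Agent.TPH.DropAll
import Pool.Agent.TPH.EdgeCount
import Pool.Agent.TPH.EdgeLin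
import Pool.Agent.TPH.Escape
import Pool.Agent.TPH.Exit2
import Pool.Agent.TPH.FaceSum
import Pool.Agent.TPH.FirstBad
import Pool.Agent.TPH.FirstExit
import Pool.Agent.TPH.FlatBasic
import Pool.Agent.TPH.FlatsBound
import Pool.Agent.TPH.GapInj
import Pool.Agent.TPH.GapTrans
import Pool.Agent.TPH.Generic
import Pool.Agent.TPH.HalfExit
import Pool.Agent.TPH.IntIn
import Pool.Agent.TPH.Key
import Pool.Agent.TPH.KeyFn
import Pool.Agent.TPH.KeyHalf
import Pool.Agent.TPH.LocalPath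
import Pool.Agent.TPH.MDex
import Pool.Agent.TPH.MainCount
import Pool.Agent.TPH.MainMult
import Pool.Agent.TPH.NoTie
import Pool.Agent.TPH.NonCol
import Pool.Agent.TPH.NotPar
import Pool.Agent.TPH.OCount
import Pool.Agent.TPH.Order
import Pool.Agent.TPH.OrderAgree
import Pool.Agent.TPH.OutCount
import Pool.Agent.TPH.OutMult
import Pool.Agent.TPH.OutPair
import Pool.Agent.TPH.ParO
import Pool.Agent.TPH.Pieces
import Pool.Agent.TPH.PolySum
import Pool.Agent.TPH.Quad
import Pool.Agent.TPH.QuadCone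
import Pool.Agent.TPH.RegCorner
import Pool.Agent.TPH.RegSide
import Pool.Agent.TPH.RegTie
import Pool.Agent.TPH.RunGood
import Pool.Agent.TPH.SameNbr
import Pool.Agent.TPH.SegZ
import Pool.Agent.TPH.Side
import Pool.Agent.TPH.Small
import Pool.Agent.TPH.SpecialBound
import Pool.Agent.TPH.TangentPath
import Pool.Agent.TPH.Three
import Pool.Agent.TPH.TwoCorners
import Pool.Agent.TPH.TwoMax
import Pool.Agent.TPH.TwoPer
import Pool.Agent.TPH.Visit
import Pool.Agent.TPH.ZDet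

/-! closed forms -/

/-!
# Three parallel hyperplanes: all statements closed
-/

set_option autoImplicit false

namespace TPH.Closed

theorem c_t_Abstract : StmtAbstract := TPH.t_Abstract
theorem c_t_Between : StmtBetween := TPH.t_Between
theorem c_t_Order : StmtOrder := TPH.t_Order
theorem c_t_QuadCone : StmtQuadCone := TPH.t_QuadCone
theorem c_t_SegZ : StmtSegZ := TPH.t_SegZ c_t_Order c_t_QuadCone
theorem c_t_IntIn : StmtIntIn := TPH.t_IntIn c_t_Between
theorem c_t_ParO : StmtParO := TPH.t_ParO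
theorem c_t_CornerNbr : StmtCornerNbr := TPH.t_CornerNbr
theorem c_t_RegTie : StmtRegTie := TPH.t_RegTie c_t_ParO c_t_CornerNbr
theorem c_t_FirstBad : StmtFirstBad := TPH.t_FirstBad c_t_RegTie
theorem c_t_TwoCorners : StmtTwoCorners := TPH.t_TwoCorners
theorem c_t_RegCorner : StmtRegCorner := TPH.t_RegCorner c_t_TwoCorners c_t_CornerNbr
theorem c_t_ConstNbr : StmtConstNbr := TPH.t_ConstNbr c_t_RegCorner c_t_CornerNbr
theorem c_t_SameNbr : StmtSameNbr := TPH.t_SameNbr c_t_RegTie c_t_ConstNbr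
theorem c_t_TwoMax : StmtTwoMax := TPH.t_TwoMax c_t_Order
theorem c_t_BadCharge : StmtBadCharge := TPH.t_BadCharge c_t_SegZ c_t_IntIn c_t_FirstBad c_t_RegTie c_t_SameNbr c_t_RegCorner c_t_CornerNbr c_t_TwoMax
theorem c_t_LocalPath : StmtLocalPath := TPH.t_LocalPath c_t_RegTie
theorem c_t_NoTie : StmtNoTie := TPH.t_NoTie c_t_SegZ c_t_IntIn
theorem c_t_Visit : StmtVisit := TPH.t_Visit c_t_RegTie c_t_LocalPath
theorem c_t_GapInj : StmtGapInj := TPH.t_GapInj c_t_RegTie c_t_LocalPath c_t_SegZ c_t_IntIn c_t_NoTie c_t_Visit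
theorem c_t_BadCount : StmtBadCount := TPH.t_BadCount c_t_Between c_t_BadCharge c_t_GapInj
theorem c_t_BadAB : StmtBadAB := TPH.t_BadAB c_t_BadCount
theorem c_t_Three : StmtThree := TPH.t_Three
theorem c_t_Generic : StmtGeneric := TPH.t_Generic
theorem c_t_CrossLe : StmtCrossLe := TPH.t_CrossLe c_t_Three c_t_Generic
theorem c_t_Escape : StmtEscape := TPH.t_Escape
theorem c_t_NotPar : StmtNotPar := TPH.t_NotPar c_t_Escape
theorem c_t_KeyHalf : StmtKeyHalf := TPH.t_KeyHalf c_t_Order c_t_Escape c_t_NotPar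
theorem c_t_Key : StmtKey := TPH.t_Key c_t_KeyHalf
theorem c_t_KeyFn : StmtKeyFn := TPH.t_KeyFn
theorem c_t_GapTrans : StmtGapTrans := TPH.t_GapTrans c_t_KeyFn c_t_Between
theorem c_t_RunGood : StmtRunGood := TPH.t_RunGood c_t_Between c_t_GapTrans
theorem c_t_CrossTri : StmtCrossTri := TPH.t_CrossTri c_t_Between c_t_Key c_t_RunGood
theorem c_t_FlatBasic : StmtFlatBasic := TPH.t_FlatBasic
theorem c_t_TwoPer : StmtTwoPer := TPH.t_TwoPer c_t_FlatBasic
theorem c_t_Drop1 : StmtDrop1 := TPH.t_Drop1 c_t_FlatBasic c_t_TwoPer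
theorem c_t_FirstExit : StmtFirstExit := TPH.t_FirstExit c_t_FlatBasic
theorem c_t_Drop2Path : StmtDrop2Path := TPH.t_Drop2Path c_t_FlatBasic c_t_FirstBad c_t_RegTie
theorem c_t_Drop2 : StmtDrop2 := TPH.t_Drop2 c_t_FlatBasic c_t_FirstExit c_t_CornerNbr c_t_Drop2Path
theorem c_t_RegSide : StmtRegSide := TPH.t_RegSide
theorem c_t_TangentPath : StmtTangentPath := TPH.t_TangentPath c_t_FlatBasic c_t_TwoCorners c_t_CornerNbr c_t_FirstBad c_t_RegTie
theorem c_t_Drop3 : StmtDrop3 := TPH.t_Drop3 c_t_FlatBasic c_t_TwoPer c_t_CornerNbr c_t_RegSide c_t_TangentPath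
theorem c_t_HalfExit : StmtHalfExit := TPH.t_HalfExit c_t_FlatBasic c_t_RegSide
theorem c_t_DropAll : StmtDropAll := TPH.t_DropAll c_t_Drop1 c_t_Drop2 c_t_Drop3 c_t_HalfExit
theorem c_t_NonCol : StmtNonCol := TPH.t_NonCol
theorem c_t_EdgeCount : StmtEdgeCount := TPH.t_EdgeCount c_t_NonCol
theorem c_t_FaceSum : StmtFaceSum := TPH.t_FaceSum c_t_Three c_t_Generic c_t_NonCol
theorem c_t_EdgeLin : StmtEdgeLin := TPH.t_EdgeLin c_t_FaceSum c_t_EdgeCount
theorem c_t_Exit2 : StmtExit2 := TPH.t_Exit2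
theorem c_t_Pieces : StmtPieces := TPH.t_Pieces c_t_NonCol
theorem c_t_Quad : StmtQuad := TPH.t_Quad c_t_TwoCorners c_t_CornerNbr c_t_ParO
theorem c_t_PolySum : StmtPolySum := TPH.t_PolySum
theorem c_t_OCount : StmtOCount := TPH.t_OCount c_t_NonCol c_t_PolySum c_t_EdgeLin
theorem c_t_SpecialBound : StmtSpecialBound := TPH.t_SpecialBound c_t_Pieces c_t_CrossLe c_t_EdgeLin c_t_Quad c_t_OCount c_t_CornerNbr
theorem c_t_MainMult : StmtMainMult := TPH.t_MainMult c_t_FlatBasic c_t_FirstExit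
theorem c_t_ZDet : StmtZDet := TPH.t_ZDet
theorem c_t_Side : StmtSide := TPH.t_Side c_t_KeyFn c_t_Between
theorem c_t_OrderAgree : StmtOrderAgree := TPH.t_OrderAgree c_t_KeyFn c_t_Order
theorem c_t_MDex : StmtMDex := TPH.t_MDex c_t_FlatBasic c_t_KeyFn c_t_NotPar c_t_ZDet c_t_Side c_t_OrderAgree
theorem c_t_MainCount : StmtMainCount := TPH.t_MainCount c_t_Abstract c_t_KeyFn c_t_Between c_t_MainMult c_t_MDex c_t_BadAB c_t_CrossTri
theorem c_t_OutPair : StmtOutPair := TPH.t_OutPair c_t_Order c_t_QuadCone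
theorem c_t_OutMult : StmtOutMult := TPH.t_OutMult c_t_FlatBasic c_t_Exit2
theorem c_t_OutCount : StmtOutCount := TPH.t_OutCount c_t_Abstract c_t_FlatBasic c_t_KeyFn c_t_NotPar c_t_ZDet c_t_Order c_t_OutPair c_t_OutMult
theorem c_t_Small : StmtSmall := TPH.t_Small c_t_TwoPer c_t_EdgeLin
theorem c_t_FlatsBound : StmtFlatsBound := TPH.t_FlatsBound c_t_EdgeLin c_t_SpecialBound c_t_DropAll c_t_MainCount c_t_OutCount c_t_Small

/-- The bound for the flats. -/
theorem flats_bound : StmtFlatsBound := c_t_FlatsBound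

/-- Linear bounds for edges and faces. -/
theorem edge_lin : StmtEdgeLin := c_t_EdgeLin

end TPH.Closed
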