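import Pool.Agent.TPH.St4

/-!
# Three parallel hyperplanes: alternations, statements of the geometric part

`A`, `B` are the outer layers, `C` is the middle layer.  A position of an edge `e` of `A` is a vector
`u` on the arc of `e` (`Mx A u = e`), in the cell of `c` (`Mx C u = {c}`), on the boundary of `R_c`.
An alternation `x = ((a,e),(b,f),c)` has two ends `u`, `v` in the plane `ip a + ip b = 2 ip c`: at `u`
the maximisers are `e`, `b`, `c` (with `a ∈ e`), at `v` they are `a`, `f`, `c` (with `b ∈ f`).  So `u` is a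
position of `e` and `v` is a position of `f`.  For an alternation `x : Al` we have `x.1.1 = a`,
`x.1.2 = e`, `x.2.1.1 = b`, `x.2.1.2 = f`, `x.2.2 = c`.

The proofs are variations of the proofs about flats in `St2`, `St3`, `St4`, where `u = v`; the Lean
proofs of those statements are in the files `Pool/Agent/TPH/<Name>.lean` (for example `Drop2Path.lean`,
`TangentPath.lean`, `HalfExit.lean`, `MainMult.lean`, `MDex.lean`) and can be used as a model.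

Conventions used in the proofs: `ω = c - c'`, `[s,t] = det3 ω s t`, `δ_i w = det3 z_i w u_i` (it
vanishes exactly on the plane of `e_i`), `ε_i w = det3 y_i w v_i` (it vanishes exactly on the plane of
`f_i`), `T = 2 c - a - b` (`Tv x`).  For `ip ω p > 0` and `s, t` orthogonal to `ω` the sign of
`det3 s t p` is the sign of `[s,t]` (`HF.sign_iff`, `HF.det_pos_iff`).  `K_c` is `InRc A B c`, `R_c` is
`InR A B c`.
-/

namespace TPH

/-- `u` is a position of the edge `e` of `A` on the boundary of `R_c`, in the cell of `c`. -/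
structure IsPos (A B C e : Finset E) (c u : E) : Prop where
  card : e.card = 2
  eu : Mx A u = e
  cu : Mx C u = {c}
  clo : InRc A B c u
  out : ∀ κ : ℝ, ¬ InR A B c (κ • u)

/-- The type of alternations `((a,e),(b,f),c)`. -/
abbrev Al := (E × Finset E) × (E × Finset E) × E

/-- `u` and `v` are the ends of the alternation `x = ((a,e),(b,f),c)`. -/
structure IsAlt (A B C : Finset E) (x : Al) (u v : E) : Prop where
  ce : x.1.2.card = 2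
  cf : x.2.1.2.card = 2
  ae : x.1.1 ∈ x.1.2
  bf : x.2.1.1 ∈ x.2.1.2
  ua : Mx A u = x.1.2
  ub : Mx B u = {x.2.1.1}
  uc : Mx C u = {x.2.2}
  va : Mx A v = {x.1.1}
  vb : Mx B v = x.2.1.2
  vc : Mx C v = {x.2.2}
  tu : ip x.1.1 u + ip x.2.1.1 u = 2 * ip x.2.2 u
  tv : ip x.1.1 v + ip x.2.1.1 v = 2 * ip x.2.2 v

/-- The set of all alternations. -/
noncomputable def alts (A B C : Finset E) : Finset Al :=
  @Finset.filter Al (fun x => ∃ u v, IsAlt A B C x u v) (Classical.decPred _)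
    ((A ×ˢ A.powerset) ×ˢ (B ×ˢ B.powerset) ×ˢ C)

/-- The vector `2 c - a - b`. -/
def Tv (x : Al) : E := (2 : ℝ) • x.2.2 - x.1.1 - x.2.1.1

/-- Exchange the roles of `A` and `B`. -/
def asw (x : Al) : Al := (x.2.1, x.1, x.2.2)

/-- **StmtPosBasic.** First facts about positions.
PROOF. `¬ InR A B d u`: `c ∈ C` (`Mx C u = {c}`), `ip d u ≤ ip c u` as `Mx C u = {c}`, so `InR A B d u` would give
`InR A B c u`, but `out 1`.  Positive multiples: `Mx_smul`, `InRc.smul`.  `u ≠ 0`: otherwise `Mx A u = A`,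
`Mx C u = C`.  `(a,c) ∈ Fc A C` for `a ∈ e`: with `e = {a,a'}` perturb `u` in the direction `a - a'`
(`Mx_pert3`, `Mx_pair_left`, `Mx_singleton`); `a' ∈ NA A C a c` by definition. -/
def StmtPosBasic : Prop := ∀ (A B C e : Finset E) (c u : E), IsPos A B C e c u →
  c ∈ C ∧ (∀ d ∈ C, ¬ InR A B d u) ∧ (∀ k : ℝ, 0 < k → IsPos A B C e c (k • u)) ∧
  ((3 ≤ A.card ∨ 2 ≤ C.card) → u ≠ 0) ∧
  ∀ a ∈ e, (a, c) ∈ Fc A C ∧ ∀ a' ∈ e, a' ≠ a → e = {a, a'} ∧ a' ∈ NA A C a c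

/-- **StmtAltBasic.** First facts about alternations.
PROOF. `u` is a position: `InRc` by `inRc_of_mem` (`a ∈ Mx A u`, `b ∈ Mx B u`, equality `tu`); `out`: at `κ • u` the
two sides `ip a + ip b` and `2 ip c` are equal.  `v` in the same way with `A`, `B` exchanged.  `ip (Tv x) w`
is `2 ip c w - ip a w - ip b w`, so it is positive on `R_c` and nonnegative on `K_c` (`a ∈ A`, `b ∈ B`).
`e = {a,a'}`, and `Mx A v = {a}` gives `ip (a - a') v > 0`; similarly `ip (b - b') u > 0`.  `cr u v ≠ 0`: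
`u ≠ 0` because of `ip (b - b') u > 0`; if `cr u v = 0` then `v = k • u` (`par_of_cr`) and
`ip (a - a') v = k * ip (a - a') u = 0`.  The last claim is the symmetry of the definition. -/
def StmtAltBasic : Prop := ∀ (A B C : Finset E) (x : Al) (u v : E), IsAlt A B C x u v →
  IsPos A B C x.1.2 x.2.2 u ∧ IsPos B A C x.2.1.2 x.2.2 v ∧
  ip (Tv x) u = 0 ∧ ip (Tv x) v = 0 ∧
  (∀ w, InR A B x.2.2 w → 0 < ip (Tv x) w) ∧ (∀ w, InRc A B x.2.2 w → 0 ≤ ip (Tv x) w) ∧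
  (∀ a' ∈ x.1.2, a' ≠ x.1.1 → x.1.2 = {x.1.1, a'} ∧ 0 < ip (x.1.1 - a') v) ∧
  (∀ b' ∈ x.2.1.2, b' ≠ x.2.1.1 → x.2.1.2 = {x.2.1.1, b'} ∧ 0 < ip (x.2.1.1 - b') u) ∧
  cr u v ≠ 0 ∧ IsAlt B A C (asw x) v u

/-- **StmtAltDet.** An alternation is determined by one end and the point on the other side.
PROOF. First claim.  `u' = k • u` gives `x'.1.2 = x.1.2 = e`, `x'.2.1.1 = x.2.1.1 = b`, `x'.2.2 = x.2.2 = c`
(`Mx_smul`), and `x'.1.1 = x.1.1 = a`; so `Tv x' = Tv x =: T`, and `T ≠ 0` as it is positive on `R_c`.  `u, v` are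
independent and orthogonal to `T`, so `v' = α • u + β • v` (`comb_of_perp`).  Let `e = {a,a'}`:
`ip (a-a')` is zero at `u` and positive at `v` and `v'`, so `β > 0`.  If `α > 0` then `Mx B v' = Mx B u ∩ Mx B v`
is contained in `{b}` (`Mx_comb`, common element `b`), but it has two elements.  If `α < 0` then
`v = (1/β) • v' + (-α/β) • u` and `Mx B v ⊆ {b}`, contradiction.  So `v' = β • v` and `x'.2.1.2 = x.2.1.2`.
The second claim is the first one for `asw x`, `asw x'` (use `inR_comm`). -/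
def StmtAltDet : Prop := ∀ (A B C : Finset E) (x x' : Al) (u v u' v' : E) (k : ℝ),
  (∃ r, InR A B x.2.2 r) → IsAlt A B C x u v → IsAlt A B C x' u' v' → 0 < k →
  (x'.1.1 = x.1.1 → u' = k • u → x' = x) ∧ (x'.2.1.1 = x.2.1.1 → v' = k • v → x' = x)

/-- **StmtPosFirstExit.** A position is determined by `e`, a point `t` of `R_c` in the plane of `e`, and the
side of `t` on which it lies.
PROOF. As for `StmtFirstExit` (file `FirstExit.lean`).  `u, u', t` are orthogonal to `a - a'`, `t` is not a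
multiple of `u` (the determinant is not zero), so `u' = α t + β u` and `β > 0`.  If `α > 0` then
`u' ∈ R_c` (`InR.comb`), contradiction to `StmtPosBasic` for `u'` (`c ∈ C`).  If `α < 0` then
`u = (1/β) u' + (-α/β) t ∈ R_{c'}`, contradiction to `StmtPosBasic` for `u`.  So `u' = β u`. -/
def StmtPosFirstExit : Prop := ∀ (A B C e : Finset E) (c c' u u' t a a' : E),
  IsPos A B C e c u → IsPos A B C e c' u' → e = {a, a'} → a ≠ a' → Perp {a, a'} t →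
  InR A B c t → InR A B c' t → 0 < det3 (a - a') t u * det3 (a - a') t u' →
  ∃ k : ℝ, 0 < k ∧ u' = k • u

/-- **StmtAltPer.** At most four alternations for given `e` and `c`.
PROOF. Let `S` be this set; for `x ∈ S` choose the ends `u_x, v_x`.  CLAIM: among any three members
`x₁,x₂,x₃` of `S` there are two whose `u` are positive multiples of each other.  Suppose not.  They are
not negative multiples either, as they lie in a convex cone which does not contain `0`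
(`{v | Mx A v = e}` if `3 ≤ |A|`, `{v | Mx C v = {c}}` if `2 ≤ |C|`), and they are orthogonal to `δ = a - a'`,
`e = {a,a'}`.  As in `StmtTwoPer` (file `TwoPer.lean`), after renaming `u₂ = α u₁ + β u₃` with `α, β > 0`.
Let `T = Tv x₂`.  `ip T u₂ = 0`, and `ip T u₁ ≥ 0`, `ip T u₃ ≥ 0` (`StmtAltBasic`, `u₁, u₃ ∈ K_c`), so all three
are zero.  `u₁`, `u₃` are independent and orthogonal to `δ` and to `T`, so `T = l • δ`
(`par_cr_of_ip` for both).  `ip T v₂ = 0` and `ip δ v₂ ≠ 0` (`StmtAltBasic`), so `l = 0`, `T = 0`; but `T` is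
positive on `R_c`.  So the `u_x` belong to at most two classes up to positive multiples, and within a
class `x` is determined by `x.1.1 ∈ e` (`StmtAltDet`).  So there are at most four. -/
def StmtAltPer : Prop := ∀ (A B C : Finset E) (e : Finset E) (c : E), (3 ≤ A.card ∨ 2 ≤ C.card) →
  (∃ r, InR A B c r) →
  (@Finset.filter Al (fun x => x.1.2 = e ∧ x.2.2 = c) (Classical.decPred _) (alts A B C)).card ≤ 4

/-- The alternations for which some cell `(a,c)`, `a ∈ e`, is special. -/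
noncomputable def AD1 (A B C : Finset E) : Finset Al :=
  @Finset.filter _ (fun x => ∃ a ∈ x.1.2, ¬ Reg A C a x.2.2) (Classical.decPred _) (alts A B C)

/-- The alternations with regular cells for which `R_c` meets the plane of `e`, but the arc of `e` does
not contain the whole chord. -/
noncomputable def AD2 (A B C : Finset E) : Finset Al :=
  @Finset.filter _ (fun x => (∀ a ∈ x.1.2, Reg A C a x.2.2) ∧
    (∃ r, InR A B x.2.2 r ∧ Perp x.1.2 r) ∧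
    ¬ ∀ v, InR A B x.2.2 v → Perp x.1.2 v → Mx A v = x.1.2) (Classical.decPred _) (alts A B C)

/-- The alternations with regular cells for which `R_c` does not meet the plane of `e`. -/
noncomputable def AD3 (A B C : Finset E) : Finset Al :=
  @Finset.filter _ (fun x => (∀ a ∈ x.1.2, Reg A C a x.2.2) ∧
    ∀ r, InR A B x.2.2 r → ¬ Perp x.1.2 r) (Classical.decPred _) (alts A B C)

/-- **StmtAD1.**
PROOF. For `x ∈ AD1` choose `a ∈ x.1.2` with `¬ Reg A C a c` and the other element `a'` of `x.1.2`.  By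
`StmtPosBasic` (`u` is a position by `StmtAltBasic`) `(a,c) ∈ Fc A C`, so `(a,c) ∈ Sp A C`, and
`a' ∈ NA A C a c`.  The value `((a,c),a')` determines `x.1.2` and `x.2.2`, so each value is taken at
most four times (`StmtAltPer`); the number of values is at most `∑_{p ∈ Sp} |NA A C p.1 p.2| ≤ spSum A C`
(see `Drop1.lean`). -/
def StmtAD1 : Prop := ∀ A B C : Finset E, 3 ≤ A.card → (∀ c ∈ C, ∃ r, InR A B c r) →
  (AD1 A B C).card ≤ 4 * spSum A C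

/-- **StmtPosPath2.** What happens for a position as in `AD2`.
PROOF. Word for word the proof of `StmtDrop2Path` (file `Drop2Path.lean`), which uses only that `u` is a
position: `Mx A u = e`, `Mx C u = {c}`, `InRc A B c u` and `StmtPosBasic`. -/
def StmtPosPath2 : Prop := ∀ (A B C e : Finset E) (c u : E), 3 ≤ A.card → 3 ≤ C.card →
  IsPos A B C e c u → (∀ a ∈ e, Reg A C a c) →
  (¬ ∀ v, InR A B c v → Perp e v → Mx A v = e) → ∀ a ∈ e, ∀ a' ∈ e, a' ≠ a →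
  ∃ ρ c₁ c₂, InR A B c ρ ∧ Perp e ρ ∧ Mx A ρ = {a, a'} ∧ Mx C ρ = {c₁, c₂} ∧
    (a, c₁) ∈ Sp A C ∧ c₂ ∈ NA C A c₁ a ∧ Reg A C a c₂ ∧ a' ∈ NA A C a c₂ ∧
    Corner A C a a' c₂ c₁ ∧ ip c₁ u < ip c₂ u

/-- **StmtAD2.**
PROOF. For `x ∈ AD2` let `u, v` be the ends, `a = x.1.1`, `a'` the other element of `x.1.2`, and take
`ρ, c₁, c₂` by `StmtPosPath2`.  The value `((a,c₁),c₂,a')` takes at most
`2 * ∑_{p ∈ Sp} |NA C A p.2 p.1| ≤ 2 * spSum A C` values (`a' ∈ NA A C a c₂`, which has two elements).  It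
determines `x`: if `x, x'` have the same value then `x.1.2 = x'.1.2 = {a,a'}`, and as in the proof of
`StmtDrop2` (file `Drop2.lean`) `ρ' = κ ρ`, `κ > 0`, the determinants `det3 (a-a') ρ u` and `det3 (a-a') ρ u'`
have the same sign, so `StmtPosFirstExit` gives `u' = k • u`, `k > 0`.  As `x.1.1 = x'.1.1`, `StmtAltDet` gives
`x = x'` (with `ρ ∈ R_c`). -/
def StmtAD2 : Prop := ∀ A B C : Finset E, 3 ≤ A.card → 3 ≤ C.card →
  (AD2 A B C).card ≤ 2 * spSum A C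

/-- **StmtPosTangent.** Tangent positions have the data `TG` (for the triple `(e,c,∅)`).
PROOF. Word for word the proof of `StmtTangentPath` (file `TangentPath.lean`), which uses only the facts of
`StmtPosBasic`. -/
def StmtPosTangent : Prop := ∀ (A B C e : Finset E) (c u : E), 3 ≤ A.card → 3 ≤ C.card →
  (∃ r, InR A B c r) → IsPos A B C e c u → (∀ a ∈ e, Reg A C a c) →
  (∀ r, InR A B c r → ¬ Perp e r) → ∃ δ c' z ρ a₁ a₂, TG A B C (e, c, ∅) δ c' z ρ a₁ a₂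

/-- **StmtTangentUniq.** The data determine the edge.
PROOF. This is the CLAIM in the proof of `StmtDrop3` (file `Drop3.lean`); it uses only that `u`, `u'` are
positions (`Mx A u = e`, `Mx C u = {c}`, `InRc A B c u`, and the same for `u'` and `e'`) and the regularity of
the cells. -/
def StmtTangentUniq : Prop := ∀ (A B C e e' : Finset E) (c c' u u' δ δ' z z' ρ ρ' a₁ a₂ : E),
  3 ≤ A.card → 3 ≤ C.card → (∃ r, InR A B c r) → IsPos A B C e c u → IsPos A B C e' c u' →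
  (∀ a ∈ e, Reg A C a c) → (∀ a ∈ e', Reg A C a c) →
  TG A B C (e, c, ∅) δ c' z ρ a₁ a₂ → TG A B C (e', c, ∅) δ' c' z' ρ' a₁ a₂ → e = e'

/-- **StmtAD3.**
PROOF. Choose the data of `StmtPosTangent` for every `x ∈ AD3`.  The value `((a₁,c),a₂,c')` takes at most
`2 * ∑_{p ∈ Sp} |NA A C p.1 p.2| ≤ 2 * spSum A C` values (`c' ∈ NA C A c a₂`, which has two elements by
`Reg A C a₂ c`), see `Drop3.lean`.  It determines `x.2.2 = c` and `x.1.2` (`StmtTangentUniq`), so it is taken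
at most four times (`StmtAltPer`). -/
def StmtAD3 : Prop := ∀ A B C : Finset E, 3 ≤ A.card → 3 ≤ C.card →
  (∀ c ∈ C, ∃ r, InR A B c r) → (AD3 A B C).card ≤ 8 * spSum A C

/-- **StmtPosExit.** The remaining positions have an exit.
PROOF. Word for word the proof of `StmtHalfExit` (file `HalfExit.lean`). -/
def StmtPosExit : Prop := ∀ (A B C e : Finset E) (c u : E), 3 ≤ A.card → 3 ≤ C.card →
  IsPos A B C e c u → (∀ a ∈ e, Reg A C a c) → (∃ r, InR A B c r ∧ Perp e r) →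
  (∀ v, InR A B c v → Perp e v → Mx A v = e) → ∃ z c', HF A B C e c c' u z

/-- The alternations which are good for `A` and for `B`, with all their data. -/
structure AGD (A B C : Finset E) (x : Al) (u v z y c₁ c₂ : E) : Prop where
  al : IsAlt A B C x u v
  hA : HF A B C x.1.2 x.2.2 c₁ u z
  hB : HF B A C x.2.1.2 x.2.2 c₂ v y

/-- The good alternations. -/
noncomputable def AGF (A B C : Finset E) : Finset Al :=
  @Finset.filter _ (fun x => ∃ u v z y c₁ c₂, AGD A B C x u v z y c₁ c₂) (Classical.decPred _)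
    (alts A B C)

/-- **StmtAltDrop.** All but linearly many alternations are good.
PROOF. `asw` is a bijection between `alts A B C` and `alts B A C` (`StmtAltBasic`).  If `x ∉ AGF` then `x` is in
`AD1 ∪ AD2 ∪ AD3` for `(A,B,C)` or `asw x` is in `AD1 ∪ AD2 ∪ AD3` for `(B,A,C)`: otherwise `StmtPosExit` gives
the half flats for the positions `u` and `v` (`StmtAltBasic`).  The sets have at most
`(4 + 2 + 8) * spSum` elements. -/
def StmtAltDrop : Prop := ∀ A B C : Finset E, 3 ≤ A.card → 3 ≤ B.card → 3 ≤ C.card →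
  (∀ c ∈ C, ∃ r, InR A B c r) →
  (alts A B C).card ≤ (AGF A B C).card + 14 * (spSum A C + spSum B C)

/-- **StmtAlpha.** Points of `R_c` in the plane of a half flat.
PROOF. `HF.beta_neg` gives `v = α u + β z` with `β < 0`.  Suppose `α ≤ 0`.  Then
`-z = (1/(-β)) v + ((-α)/(-β)) u` is in `R_c` (`InR.comb`: `v ∈ R_c`, `u ∈ K_c`), and `Perp e (-z)`, so
`HF.full` gives `Mx A (-z) = e`.  Also `Mx A z = e`.  So for `a ∈ e` and every `b ∈ A` both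
`ip b z ≤ ip a z` and `ip b (-z) ≤ ip a (-z)`, hence `b ∈ Mx A z = e`; so `A ⊆ e` has at most two elements. -/
def StmtAlpha : Prop := ∀ (A B C e : Finset E) (c c' u z v : E), 3 ≤ A.card →
  HF A B C e c c' u z → InR A B c v → Perp e v → ∃ α β : ℝ, 0 < α ∧ β < 0 ∧ v = α • u + β • z

/-- **StmtAltSide.** Both ends of an alternation are strictly on the same side of the plane of another
half flat.
PROOF. Write `f t = det3 z₂ ((1-t) • u + t • v) u₂`, affine in `t ∈ [0,1]`.  If it vanishes at `t`, let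
`w = (1-t) • u + t • v`; `Perp e₂ w` (`HF.perp_iff`), `Mx C w = {c}` (`Mx_comb_left`, `Mx_comb_right`), so
`w ≠ 0` (`Mx C 0 = C` contains `c₂ ≠ c`), and `HF.fullZ` gives `Mx A w = e₂`.  But `Mx A w = e` for `t = 0`
(`e ≠ e₂`), and `Mx A w = {a}` for `t > 0` (`Mx_comb_right`: `Mx A v = {a} ⊆ Mx A u`), which has one
element.  So `f` has no zero and `f 0`, `f 1` have the same sign. -/
def StmtAltSide : Prop := ∀ (A B C : Finset E) (x : Al) (u v : E) (e₂ : Finset E) (c₂ u₂ z₂ : E),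
  IsAlt A B C x u v → HF A B C e₂ x.2.2 c₂ u₂ z₂ → x.1.2 ≠ e₂ →
  0 < det3 z₂ u u₂ * det3 z₂ v u₂

/-- **StmtAltSigns.** Signs for a good alternation.
PROOF. `HF.beyond` for `hA` (`a ∈ e`, `b ∈ Mx B u`) and for `hB` (`b ∈ f`, `a ∈ Mx A v`) give the first two.
`T = Tv x`, `ip T u = ip T v = 0`, `cr u v ≠ 0`, so `T = l • cr u v` (`par_cr_of_ip`), and `l ≠ 0` because
`ip T z < 0`.  `ip T z = l * det3 u v z = l * det3 z u v = - l * det3 z v u` and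
`ip T y = l * det3 u v y = l * det3 y u v`; both are negative, so the product of the two determinants is
negative. -/
def StmtAltSigns : Prop := ∀ (A B C : Finset E) (x : Al) (u v z y c₁ c₂ : E),
  AGD A B C x u v z y c₁ c₂ → ip (Tv x) z < 0 ∧ ip (Tv x) y < 0 ∧ det3 z v u * det3 y u v < 0

/-- **StmtAltNe.** For out alternations `y` is not in the plane of `e`.
PROOF. Suppose `det3 z y u = 0`: `Perp e y`, `y = α u + β z` (`HF.comb`).  `T = Tv x`: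
`ip T y < 0`, `ip T z < 0`, `ip T u = 0` give `β > 0`.  `ip (c - c₁)` is positive at `u`, zero at `z`, and
positive at `y` (`c₁ ∉ Mx C y = {c,c₂}`), so `α > 0`.  `ip (c - c₂)` is positive at `u` and at `z`
(`c₂ ∉ Mx C z = {c,c₁}`), so positive at `y`, but it is zero at `y`. -/
def StmtAltNe : Prop := ∀ (A B C : Finset E) (x : Al) (u v z y c₁ c₂ : E),
  AGD A B C x u v z y c₁ c₂ → c₂ ≠ c₁ → det3 z y u ≠ 0

/-- **StmtArc.** Comparison of two rays of the arc of `{c,c'}`.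
PROOF. `[s,t] > 0`, `[s,t] < 0` or `[s,t] = 0`; in the last case `StmtKeyFn` gives `t = k • s`, `k > 0`.  The
second claim: `s < p ≤ t` or `s ≤ p < t`; if both inequalities are strict use `StmtBetween`, if `s`, `p` are
parallel `p = k • s + 0 • t`, if `p`, `t` are parallel `p = 0 • s + k • t`.  For `σ = -1` use the order with
`s` and `t` exchanged. -/
def StmtArc : Prop := ∀ (C : Finset E) (c c' s p t : E) (σ : ℝ), 3 ≤ C.card → c ≠ c' →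
  (σ = 1 ∨ σ = -1) → Mx C s = {c, c'} → Mx C p = {c, c'} → Mx C t = {c, c'} →
  (0 < σ * det3 (c - c') s p ∨ 0 < σ * det3 (c - c') p s ∨ ∃ k : ℝ, 0 < k ∧ p = k • s) ∧
  (0 ≤ σ * det3 (c - c') s p → 0 ≤ σ * det3 (c - c') p t →
    ∃ α β : ℝ, 0 ≤ α ∧ 0 ≤ β ∧ 0 < α + β ∧ p = α • s + β • t ∧
      (0 < σ * det3 (c - c') s p → 0 < σ * det3 (c - c') s t ∧ 0 < β) ∧
      (0 < σ * det3 (c - c') p t → 0 < σ * det3 (c - c') s t ∧ 0 < α))

/-- **StmtAltOrder.** In a class the order of the `z` and the order of the `y` agree.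
PROOF. Write `c = x₁.2.2 = x₂.2.2`, `T₁ = Tv x₁`.
(0) `[y₁,y₂] ≠ 0`.  Otherwise `y₂ = κ y₁`, `κ > 0` (`StmtArc`), so `f₁ = f₂ =: f`, and `v₂ = κ' v₁`, `κ' > 0`
(`StmtZDet` for `B`).  So `a₁ = a₂` (`Mx A v₁ = Mx A v₂`).  If `b₁ = b₂` then `x₁ = x₂` by `StmtAltDet`, hence
`e₁ = e₂`, but then `z₁, z₂, u₁` are in the plane of `e₁` and `[z₁,z₂] ≠ 0`, so `u₁` is a combination of
`z₁, z₂` and `ip ω u₁ = 0`, contradiction to `HF.wu`.  So `f = {b₁,b₂}`, and `ip (b₁ - b₂)` is positive at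
`u₁`, negative at `u₂` (`StmtAltBasic`).  It vanishes on the plane of `f`, so it is `l * ε₁` (`par_cr_of_ip`),
and `ε₂ = κ κ' ε₁`; so `ε₁ u₁ * ε₂ u₂ < 0`.  By `StmtAltSigns` `δ_i v_i` and `ε_i u_i` have opposite signs, so
`δ₁ v₁ * δ₂ v₂ < 0`, contradiction.
(1) It is enough to show: if `σ = 1` then `[y₁,y₂] > 0`.  For `σ = -1`: `[z₁,z₂] < 0`, and if `[y₁,y₂] > 0` the
case `σ = 1` for `B, A, C`, `asw x₁`, `asw x₂` (with `u ↔ v`, `z ↔ y`; `det3 y_i u_i v_i` has the opposite sign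
of `det3 z_i v_i u_i`) gives `[z₁,z₂] > 0`, a contradiction.
(2) `σ = 1`, suppose `[y₁,y₂] < 0`.  `StmtOrder` for `A` and `(1,2)`: `δ₂ u₁ < 0 < δ₁ u₂`; `e₁ ≠ e₂` (see (0)), so
by `StmtAltSide` `δ₂ v₁ < 0 < δ₁ v₂`.  `StmtOrder` for `B` and `(2,1)`, and `StmtAltSide` for `B` (`f₁ ≠ f₂` by
the same argument as in (0)): `ε₁ v₂ < 0`, `ε₁ u₂ < 0`, `ε₂ v₁ > 0`, `ε₂ u₁ > 0`.  In the order of the arc
`z₁ < z₂ ≤ y₂ < y₁`, so `z₂` and `y₂` are positive combinations of `z₁` and `y₁`, and `ip T₁` is negative at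
`z₂` and at `y₂` (`StmtAltSigns`).  `ip T₁ ≥ 0` at `u₂` (`u₂ ∈ K_c`), `ip T₁ u₁ = 0`.
(3) Case `δ_i v_i > 0` (`i = 1, 2`), so `ε_i u_i < 0`.  If `[z₂,y₂] > 0`: `D = det3 z₂ y₂ u₂ > 0`, Cramer
(`cramer`): `u₁ = α z₂ + β y₂ + γ u₂` with `β = det3 z₂ u₁ u₂ / D = δ₂ u₁ / D < 0` and
`γ = det3 z₂ y₂ u₁ / D > 0`.  Apply `ε₂`: `ε₂ u₁ = α det3 y₂ z₂ v₂ + γ ε₂ u₂`, where `det3 y₂ z₂ v₂ < 0`,
`ε₂ u₂ < 0`, `ε₂ u₁ > 0`; so `α < 0`.  Then `ip T₁ u₁ = α ip T₁ z₂ + β ip T₁ y₂ + γ ip T₁ u₂ > 0`, a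
contradiction.  If `[z₂,y₂] = 0`: `y₂ = κ z₂`, `κ > 0`; `det3 z₂ v₂ u₂ = δ₂ v₂ > 0`, so
`u₁ = α z₂ + β u₂ + γ v₂`; `δ₂ u₁ = γ δ₂ v₂ < 0` gives `γ < 0`;
`ε₂ u₁ = κ det3 z₂ u₁ v₂ = κ β det3 z₂ u₂ v₂ = - κ β δ₂ v₂ > 0` gives `β < 0`; so
`ip ω u₁ = β ip ω u₂ + γ ip ω v₂ < 0`, a contradiction.
(4) Case `δ_i v_i < 0`, so `ε_i u_i > 0`.  `D = det3 z₁ y₁ u₁ > 0` (`z₁ < y₁`), `u₂ = α z₁ + β y₁ + γ u₁` with
`β = δ₁ u₂ / D > 0`, `γ = det3 z₁ y₁ u₂ / D > 0`.  `ε₁ u₂ = α det3 y₁ z₁ v₁ + γ ε₁ u₁ < 0` with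
`det3 y₁ z₁ v₁ < 0`, `ε₁ u₁ > 0` gives `α > 0`.  So `ip T₁ u₂ = α ip T₁ z₁ + β ip T₁ y₁ < 0`, but
`u₂ ∈ K_c`, a contradiction. -/
def StmtAltOrder : Prop := ∀ (A B C : Finset E) (x₁ x₂ : Al)
  (u₁ v₁ z₁ y₁ u₂ v₂ z₂ y₂ c' : E) (σ : ℝ), 3 ≤ C.card →
  AGD A B C x₁ u₁ v₁ z₁ y₁ c' c' → AGD A B C x₂ u₂ v₂ z₂ y₂ c' c' → x₂.2.2 = x₁.2.2 →
  (σ = 1 ∨ σ = -1) → 0 ≤ σ * det3 (x₁.2.2 - c') z₁ y₁ → 0 ≤ σ * det3 (x₁.2.2 - c') z₂ y₂ →
  0 < det3 z₁ v₁ u₁ * det3 z₂ v₂ u₂ → 0 < σ * det3 (x₁.2.2 - c') z₁ z₂ →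
  0 < σ * det3 (x₁.2.2 - c') y₁ y₂

/-- The planes of `e` (of `x`) and of `f` (of `x'`) meet in `R_c`. -/
def ACrs (A B : Finset E) (x x' : Al) : Prop :=
  ∃ r, InR A B x.2.2 r ∧ Perp x.1.2 r ∧ Perp x'.2.1.2 r

/-- **StmtAltKeyI.** First case of the key lemma.
PROOF. We write the case `σ = 1`; for `σ = -1` reverse the inequalities between determinants.  Write
`c = x₁.2.2`.  (*) `y₁ = κ z₁ + μ y₂` with `κ > 0`, `μ ≥ 0` (`StmtArc`: `z₁ ≤ y₁ < y₂`).  So if `α > 0`, `β ≥ 0` and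
`b ∈ Mx B (α y₁ + β y₂)` then `ip b₂ z₁ ≤ ip b z₁`: the vector is `α κ z₁ + (α μ + β) y₂`, and
`ip b y₂ ≤ ip b₂ y₂` since `b₂ ∈ f₂ = Mx B y₂`.
Apply `StmtEscape` to `HF A B C e₁ c c' u₁ z₁` with `m = ip b₂ z₁` and `a = a₁ ∈ e₁ = Mx A z₁`:
`2 ip c z₁ < ip a₂ z₁ + ip b₂ z₁ ≤ ip a₁ z₁ + m`.  Let `v ∈ R_c`, `Perp e₁ v`, `b ∈ Mx B v`; we show
`m ≤ ip b z₁`.  `v = α u₁ + β z₁`, `α > 0`, `β < 0` (`StmtAlpha`).
(1) `ε₂ v < 0`: `StmtOrder` for `B`, `(1,2)`: `ε₂ v₁ < 0`; `f₁ ≠ f₂` (otherwise `v₁` is a combination of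
`y₁, y₂`), so `StmtAltSide` for `B, A, C` and `asw x₁` gives `ε₂ u₁ < 0`; the points `(1-t) u₁ + t v`,
`0 < t ≤ 1`, are in `R_c` and orthogonal to `e₁`, so not orthogonal to `f₂` (otherwise `ACrs A B x₁ x₂`), so
`ε₂` does not vanish on the segment.
(2) If `ε₁ v > 0`: `v` is in the lune of `y₁ v₁ y₂ v₂` (`det3 y₁ y₂ v₁ > 0 > det3 y₂ y₁ v₂`), so `Good` gives
`Reach B y₁ y₂ b` and (*) applies.
(3) If `ε₁ v = 0`: `Perp f₁ v`, so `Mx B v = f₁ = Mx B y₁` (`HF.full`), and (*) applies with `α = 1, β = 0`.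
(4) If `ε₁ v < 0`.  Suppose first `det3 z₁ v₁ u₁ < 0`.  Then `ε₁ u₁ > 0` (`StmtAltSigns`) and
`ε₁ v = α ε₁ u₁ + β det3 y₁ z₁ v₁`, where `det3 y₁ z₁ v₁ ≤ 0` (as `z₁ ≤ y₁`), so `ε₁ v > 0`, a contradiction.
Otherwise there is `p ∈ R_c` orthogonal to `e₁` and `f₁`, and `det3 z₁ v₁ u₁ > 0` (it is not zero by
`StmtAltSigns`), so `ε₁ u₁ < 0`.  `p` is not a multiple of `u₁` (`HF.out`), so `v = x u₁ + y p`
(`perp_comb` or `comb_of_perp`).  `ε₁ v = x ε₁ u₁ < 0` gives `x > 0`.  `y ≥ 0`, otherwise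
`u₁ = (1/x) v + (-y/x) p ∈ R_c`.  `Mx B u₁ = {b₁}` and `b₁ ∈ f₁ = Mx B p` (`HF.full`), so `Mx B v = {b₁}`
(`Mx_comb_left`), `b = b₁ ∈ f₁ = Mx B y₁`, and (*) applies with `α = 1, β = 0`. -/
def StmtAltKeyI : Prop := ∀ (A B C : Finset E) (x₁ x₂ : Al)
  (u₁ v₁ z₁ y₁ u₂ v₂ z₂ y₂ c' : E) (σ : ℝ), 3 ≤ A.card → 3 ≤ C.card →
  AGD A B C x₁ u₁ v₁ z₁ y₁ c' c' → AGD A B C x₂ u₂ v₂ z₂ y₂ c' c' → x₂.2.2 = x₁.2.2 →
  (σ = 1 ∨ σ = -1) → 0 ≤ σ * det3 (x₁.2.2 - c') z₁ y₁ →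
  0 < σ * det3 (x₁.2.2 - c') y₁ y₂ → ip (Tv x₂) z₁ < 0 →
  Good B A x₁.2.2 y₁ v₁ y₂ v₂ → (σ * det3 z₁ v₁ u₁ < 0 ∨ ACrs A B x₁ x₁) →
  ¬ ACrs A B x₁ x₂ → False

/-- **StmtAltKeyII.** Second case of the key lemma.
PROOF. We write the case `σ = 1`.  Write `c = x₁.2.2`.  Apply `StmtEscape` to
`HF B A C f₁ c c' v₁ y₁` with `m = min (ip a₁ y₁) (ip a₂ y₁ + ip b₂ y₁ - ip b₁ y₁)` and `b₁ ∈ f₁`: we have
`2 ip c y₁ < ip b₁ y₁ + m` because `ip (Tv x₁) y₁ < 0` (`StmtAltSigns`) and `ip (Tv x₂) y₁ < 0`.  Let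
`v ∈ R_c`, `Perp f₁ v`, `a ∈ Mx A v`; we show `m ≤ ip a y₁`.
(1) `δ₁ v > 0`: it is positive at `v₁`, and the points `(1-t) v₁ + t v`, `0 < t ≤ 1`, are in `R_c` and
orthogonal to `f₁`, so not orthogonal to `e₁` (otherwise `ACrs A B x₁ x₁`).
(2) `δ₂ v < 0`: `StmtOrder` for `A`, `(1,2)`: `δ₂ u₁ < 0`; `e₁ ≠ e₂` (otherwise `u₁` is a combination of
`z₁, z₂`), so `StmtAltSide` gives `δ₂ v₁ < 0`; on the segment `δ₂` does not vanish (otherwise
`ACrs A B x₂ x₁`).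
(3) So `v` is in the lune of `z₁ u₁ z₂ u₂`, and `Good` gives `s = α z₁ + β z₂`, `α, β > 0`, `Mx A s = {a}`;
`Mx C s = {c,c'}` (`Mx_comb`).  `[z₁,s] = β [z₁,z₂] > 0`, `[s,z₂] = α [z₁,z₂] > 0`.
(4) If `[y₁,s] ≥ 0`: `s = κ y₁ + μ z₂` with `κ > 0`, `μ ≥ 0` (`StmtArc`).  `ip a₂ s ≤ ip a s` and
`ip a z₂ ≤ ip a₂ z₂` (`a₂ ∈ e₂ = Mx A z₂`) give `ip a₂ y₁ ≤ ip a y₁`, and `ip b₂ y₁ ≤ ip b₁ y₁` as
`b₁ ∈ f₁ = Mx B y₁`; so `m ≤ ip a y₁`.  If `[y₁,s] < 0`: `s = κ z₁ + μ y₁` with `κ ≥ 0`, `μ > 0`;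
`ip a₁ s ≤ ip a s` and `ip a z₁ ≤ ip a₁ z₁` (`a₁ ∈ e₁ = Mx A z₁`) give `ip a₁ y₁ ≤ ip a y₁`. -/
def StmtAltKeyII : Prop := ∀ (A B C : Finset E) (x₁ x₂ : Al)
  (u₁ v₁ z₁ y₁ u₂ v₂ z₂ y₂ c' : E) (σ : ℝ), 3 ≤ B.card → 3 ≤ C.card →
  AGD A B C x₁ u₁ v₁ z₁ y₁ c' c' → AGD A B C x₂ u₂ v₂ z₂ y₂ c' c' → x₂.2.2 = x₁.2.2 →
  (σ = 1 ∨ σ = -1) → 0 < σ * det3 (x₁.2.2 - c') z₁ z₂ → ip (Tv x₂) y₁ < 0 →
  Good A B x₁.2.2 z₁ u₁ z₂ u₂ → 0 < σ * det3 z₁ v₁ u₁ → ¬ ACrs A B x₁ x₁ →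
  ¬ ACrs A B x₂ x₁ → False

/-- **StmtAltKey.** The key lemma for alternations: two members of a class, `x₁` before `x₂`.
PROOF. First alternative (`Tv x₂`): if neither of the two crossings exists, then `det3 z₁ v₁ u₁ ≠ 0`
(`StmtAltSigns`); if `σ * det3 z₁ v₁ u₁ < 0` or `ACrs A B x₁ x₁` use `StmtAltKeyI`, otherwise
`StmtAltKeyII`.  Second alternative (`Tv x₁`): apply the first alternative to `B, A, C`, `asw x₂`, `asw x₁`,
with `u ↔ v`, `z ↔ y`, `-σ` (`StmtAltBasic` for `IsAlt B A C (asw x) v u`, `Good_swap`, `inR_comm`); the two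
possible crossings are the same. -/
def StmtAltKey : Prop := ∀ (A B C : Finset E) (x₁ x₂ : Al)
  (u₁ v₁ z₁ y₁ u₂ v₂ z₂ y₂ c' : E) (σ : ℝ), 3 ≤ A.card → 3 ≤ B.card → 3 ≤ C.card →
  AGD A B C x₁ u₁ v₁ z₁ y₁ c' c' → AGD A B C x₂ u₂ v₂ z₂ y₂ c' c' → x₂.2.2 = x₁.2.2 →
  (σ = 1 ∨ σ = -1) → 0 ≤ σ * det3 (x₁.2.2 - c') z₁ y₁ → 0 ≤ σ * det3 (x₁.2.2 - c') z₂ y₂ →
  0 < σ * det3 (x₁.2.2 - c') z₁ z₂ → 0 < σ * det3 (x₁.2.2 - c') y₁ y₂ →
  Good A B x₁.2.2 z₁ u₁ z₂ u₂ → Good B A x₁.2.2 y₁ v₁ y₂ v₂ →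
  ((ip (Tv x₂) z₁ < 0 ∧ ip (Tv x₂) y₁ < 0) ∨ (ip (Tv x₁) z₂ < 0 ∧ ip (Tv x₁) y₂ < 0)) →
  ACrs A B x₁ x₂ ∨ ACrs A B x₂ x₁

/-- **StmtAltThree.** For three members of a class the functional of the middle one is negative at the
exits of one of the other two.
PROOF. We write the case `σ = 1`.  Suppose not: there are `p ∈ {z₁,y₁}` and `q ∈ {z₃,y₃}` with `ip T p ≥ 0`,
`ip T q ≥ 0`.  By `StmtArc`, if `p ≤ s ≤ q` for some `s` of the arc, then `s` is a nonnegative combination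
of `p`, `q` and `ip T s ≥ 0`; so this is impossible for `s = z₂` and for `s = y₂`.
`p = z₁`: `z₁ < z₂`; if `q = z₃` then `z₂ < z₃`, if `q = y₃` then `z₂ ≤ y₂ < y₃`; contradiction with
`s = z₂`.  `p = y₁`, `q = y₃`: `y₁ < y₂ < y₃`, contradiction with `s = y₂`.  `p = y₁`, `q = z₃`: if `y₁ ≤ z₂`,
then `y₁ ≤ z₂ < z₃`, contradiction.  So `z₂ < y₁ < y₂`, hence `y₁` is a positive combination of `z₂` and
`y₂` and `ip T y₁ < 0`, a contradiction.  (It may be convenient to use the real valued positions of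
`StmtKeyFn` for the comparison of the rays.) -/
def StmtAltThree : Prop := ∀ (C : Finset E) (c c' T z₁ y₁ z₂ y₂ z₃ y₃ : E) (σ : ℝ), 3 ≤ C.card →
  c ≠ c' → (σ = 1 ∨ σ = -1) → Mx C z₁ = {c, c'} → Mx C y₁ = {c, c'} → Mx C z₂ = {c, c'} →
  Mx C y₂ = {c, c'} → Mx C z₃ = {c, c'} → Mx C y₃ = {c, c'} →
  0 ≤ σ * det3 (c - c') z₂ y₂ → 0 < σ * det3 (c - c') z₁ z₂ → 0 < σ * det3 (c - c') z₂ z₃ →
  0 < σ * det3 (c - c') y₁ y₂ → 0 < σ * det3 (c - c') y₂ y₃ → ip T z₂ < 0 → ip T y₂ < 0 →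
  (ip T z₁ < 0 ∧ ip T y₁ < 0) ∨ (ip T z₃ < 0 ∧ ip T y₃ < 0)

/-- **StmtAltOutPair.** Two out alternations of the same group cross.
PROOF. Write `c = x.2.2`, `ω = c - c'`, `T = Tv x`, `e₁ = x.1.2`.  By the symmetry which changes all signs
(treat the case of negative determinants in the same way) assume first `0 < det3 z₁ z₂ u₁` and
`0 < det3 z₁ y₁ u₁`; then `[z₁,z₂] > 0`.  `StmtOrder`: `δ₂ u₁ < 0`, `0 < det3 z₁ u₂ u₁`; `e₁ ≠ e₂` (otherwise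
`det3 z₁ z₂ u₁ = 0`), so `StmtAltSide` gives `δ₂ v₁ < 0`.  Put `λ w = det3 u₁ w u₂`:
`λ z₁ = det3 z₁ u₂ u₁ > 0`, `λ z₂ = - δ₂ u₁ > 0`.
(1) `λ y₁ > 0`: by Cramer in the basis `z₁, u₂, u₁` (determinant `D = det3 z₁ u₂ u₁ > 0`)
`y₁ = α z₁ + β u₂ + γ u₁`, `α = λ y₁ / D`, `β = det3 z₁ y₁ u₁ / D > 0`.  `ip T y₁ < 0`, `ip T z₁ < 0`
(`StmtAltSigns`), `ip T u₂ ≥ 0` (`u₂ ∈ K_c`), `ip T u₁ = 0` give `α ip T z₁ < 0`, so `α > 0`.
(2) `δ₂ y₁ > 0`: as in step (2) of the proof of `StmtOutPair` (file `OutPair.lean`): `ip ω y₁ > 0`, and if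
`δ₂ y₁ ≤ 0` then `StmtQuadCone` with `v = y₁` gives `y₁ = k₁ z₁ + k₂ z₂ + k₃ u₁ + k₄ u₂`, where `ip (c - c'')`
is positive at the four vectors and zero at `y₁`.
(3) If `δ₂ p < 0` for a vector `p = x₁ v₁ + x₂ y₁` with `x₁ > 0`, `x₂ ≥ 0`, then
`t = δ₂ y₁ • p - δ₂ p • y₁` is a positive combination of `v₁` and `y₁`, and `δ₂ t = 0`, so
`t = α' u₂ + β' z₂` (`HF.comb`).  `ip ω t > 0` (`ip ω v₁ > 0`, `ip ω y₁ > 0`) and `ip ω z₂ = 0` give `α' > 0`.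
`λ t = β' λ z₂`, so it remains to find such a `p` with `λ p ≥ 0`: then `λ t > 0` because `λ y₁ > 0`, and
`β' > 0`.
(4) If `λ v₁ ≥ 0`: `p = v₁`.  Suppose `λ v₁ < 0`.  `T` is orthogonal to `u₁, v₁`, so
`ip T w = τ * det3 u₁ w v₁` (`par_cr_of_ip`).  `ip T u₂ = τ det3 u₁ u₂ v₁ = - τ λ v₁ ≥ 0` gives `τ ≥ 0`, and
`ip T z₁ = τ det3 u₁ z₁ v₁ = τ det3 z₁ v₁ u₁ < 0` gives `τ > 0` and `δ₁ v₁ = det3 z₁ v₁ u₁ < 0`.  Put
`p = δ₁ y₁ • v₁ - δ₁ v₁ • y₁`: both coefficients are positive (`δ₁ y₁ = det3 z₁ y₁ u₁ > 0`), `δ₁ p = 0`, so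
`p = α'' u₁ + β'' z₁` (`HF.comb`); `ip ω p > 0` gives `α'' > 0`; `ip T p = - δ₁ v₁ * ip T y₁ < 0` gives
`β'' > 0`.  So `λ p = β'' λ z₁ > 0`, and `δ₂ p = α'' δ₂ u₁ + β'' det3 z₂ z₁ u₂ < 0`.
In the case of negative determinants: `[z₁,z₂] < 0`, `StmtOrder` for `(2,1)`, and all the inequalities
between determinants are reversed; apply `StmtQuadCone` to the five negated vectors. -/
def StmtAltOutPair : Prop := ∀ (A B C : Finset E) (x : Al) (u₁ v₁ z₁ y₁ c' c'' : E)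
  (e₂ : Finset E) (u₂ z₂ : E), AGD A B C x u₁ v₁ z₁ y₁ c' c'' → HF A B C e₂ x.2.2 c' u₂ z₂ →
  c'' ≠ c' → 0 < det3 z₁ z₂ u₁ * det3 z₁ y₁ u₁ →
  ∃ α β α' β' : ℝ, 0 < α ∧ 0 < β ∧ 0 < α' ∧ 0 < β' ∧ α • v₁ + β • y₁ = α' • u₂ + β' • z₂

end TPH
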