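import Mathlib
import Pool.Agent.TPH.St5
import Pool.Agent.TPH.Closed

/-!
# Alternations whose arc does not contain the chord
-/

namespace TPH

namespace MAD2

/-- The quadruple attached to an alternation of `AD2`. -/
def Q (A B C : Finset E) (x : Al) (q : (E × E) × E × E) : Prop :=
  ∃ u v ρ, IsAlt A B C x u v ∧ InR A B x.2.2 ρ ∧ x.1.1 = q.1.1 ∧ x.1.2 = {q.1.1, q.2.2} ∧
    q.2.2 ≠ q.1.1 ∧
    Mx A ρ = {q.1.1, q.2.2} ∧ Mx C ρ = {q.1.2, q.2.1} ∧ q.1 ∈ Sp A C ∧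
    q.2.1 ∈ NA C A q.1.2 q.1.1 ∧ Reg A C q.1.1 q.2.1 ∧ q.2.2 ∈ NA A C q.1.1 q.2.1 ∧
    Corner A C q.1.1 q.2.2 q.2.1 q.1.2 ∧ ip q.1.2 u < ip q.2.1 u

theorem exQ (hAltBasic : StmtAltBasic) (hPosPath2 : StmtPosPath2) {A B C : Finset E}
    (hA : 3 ≤ A.card) (hC : 3 ≤ C.card) {x : Al} (hx : x ∈ AD2 A B C) : ∃ q, Q A B C x q := by
  classical
  obtain ⟨hxa, hreg, -, hnot⟩ := (@Finset.mem_filter _ _ (Classical.decPred _) _ _).mp hx
  obtain ⟨-, u, v, halt⟩ := (@Finset.mem_filter _ _ (Classical.decPred _) _ _).mp hxa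
  have hpos := (hAltBasic A B C x u v halt).1
  obtain ⟨a', ha', hne⟩ : ∃ a' ∈ x.1.2, a' ≠ x.1.1 := by
    refine Finset.exists_mem_ne ?_ _
    rw [halt.ce]; norm_num
  have he : x.1.2 = {x.1.1, a'} :=
    ((hAltBasic A B C x u v halt).2.2.2.2.2.2.1 a' ha' hne).1
  obtain ⟨ρ, c₁, c₂, h1, -, h3, h4, h5, h6, h7, h8, h9, h10⟩ :=
    hPosPath2 A B C x.1.2 x.2.2 u hA hC hpos hreg hnot x.1.1 halt.ae a' ha' hne
  exact ⟨((x.1.1, c₁), c₂, a'), u, v, ρ, halt, h1, rfl, he, hne, h3, h4, h5, h6, h7, h8, h9, h10⟩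

theorem not_const {A : Finset E} (hA : 3 ≤ A.card) {ρ a a' : E} (h : Mx A ρ = {a, a'})
    (hc : ∀ b ∈ A, ip b ρ = ip a ρ) : False := by
  classical
  have h1 : A ⊆ Mx A ρ := by
    intro b hb
    refine mem_Mx_of_eq (a := a) ?_ hb (hc b hb)
    rw [h]; simp
  have h2 := Finset.card_le_card h1
  rw [h] at h2
  have h3 : ({a, a'} : Finset E).card ≤ 2 := Finset.card_le_two
  omega

theorem inj (hAltBasic : StmtAltBasic) (hAltDet : StmtAltDet) (hFirstExit : StmtPosFirstExit)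
    (hCornerNbr : StmtCornerNbr) {A B C : Finset E}
    (hA : 3 ≤ A.card) {x x' : Al} {q : (E × E) × E × E}
    (h : Q A B C x q) (h' : Q A B C x' q) : x = x' := by
  classical
  obtain ⟨⟨a, c₁⟩, c₂, a'⟩ := q
  obtain ⟨u, v, ρ, f1, f2, f2a, f3, f4, f5, f6, -, -, -, -, f7, f8⟩ := h
  obtain ⟨u', v', ρ', g1, g2, g2a, g3, g4, g5, g6, -, -, -, -, g7, g8⟩ := h'
  simp only at f2a f3 f4 f5 f6 f7 f8 g2a g3 g4 g5 g6 g7 g8
  have hδ : a - a' ≠ 0 := sub_ne_zero.mpr f4.symm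
  have hind := (hCornerNbr A C a a' c₂ c₁ f7).2.2.2.2.2.2
  have hcr : cr (a - a') (c₂ - c₁) ≠ 0 := by
    intro h0
    obtain ⟨k, hk⟩ := par_of_cr hδ h0
    obtain ⟨w, hw1, hw2⟩ := hind 0 1
    rw [hk, ip_smul_left, hw1, mul_zero] at hw2
    exact zero_ne_one hw2
  have orth : ∀ r : E, Mx A r = {a, a'} → Mx C r = {c₁, c₂} →
      ip r (a - a') = 0 ∧ ip r (c₂ - c₁) = 0 := by
    intro r h1 h2
    constructor
    · rw [ip_sub_right, ip_comm r a, ip_comm r a',
        Mx_eq (A := A) (u := r) (a := a) (a' := a') (h1 ▸ by simp) (h1 ▸ by simp), sub_self]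
    · rw [ip_sub_right, ip_comm r c₂, ip_comm r c₁,
        Mx_eq (A := C) (u := r) (a := c₂) (a' := c₁) (h2 ▸ by simp) (h2 ▸ by simp), sub_self]
  obtain ⟨k, hk⟩ := par_cr_of_ip hcr (orth ρ f5 f6).1 (orth ρ f5 f6).2
  obtain ⟨k', hk'⟩ := par_cr_of_ip hcr (orth ρ' g5 g6).1 (orth ρ' g5 g6).2
  have nz : ∀ r : E, Mx A r = {a, a'} → r ≠ 0 := by
    intro r hr h0
    refine not_const hA hr (fun b _ => ?_)
    rw [h0, ip_zero_right, ip_zero_right]
  have hk0 : k ≠ 0 := by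
    rintro rfl
    rw [zero_smul] at hk
    exact nz ρ f5 hk
  have hk0' : k' ≠ 0 := by
    rintro rfl
    rw [zero_smul] at hk'
    exact nz ρ' g5 hk'
  have hρ' : ρ' = (k' / k) • ρ := by
    rw [hk, hk', smul_smul, div_mul_cancel₀ _ hk0]
  have hκ : 0 < k' / k := by
    rcases lt_trichotomy (k' / k) 0 with hlt | h0 | hgt
    · exfalso
      refine not_const hA f5 (fun b hb => ?_)
      have h1 : a ∈ Mx A ρ := by rw [f5]; simp
      have h2 : a ∈ Mx A ρ' := by rw [g5]; simp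
      have h3 := Mx_le h1 hb
      have h4 := Mx_le h2 hb
      rw [hρ', ip_smul_right, ip_smul_right] at h4
      have h5 : ip a ρ ≤ ip b ρ := by
        by_contra hcon
        push Not at hcon
        nlinarith
      exact le_antisymm h3 h5
    · exfalso
      exact (div_ne_zero hk0' hk0) h0
    · exact hgt
  have hρ : ρ = (k' / k)⁻¹ • ρ' := by
    rw [hρ', smul_smul, inv_mul_cancel₀ hκ.ne', one_smul]
  have hR' : InR A B x'.2.2 ρ := by
    rw [hρ]
    exact InR.smul (inv_pos.mpr hκ) g2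
  have hperp : Perp {a, a'} ρ := f5 ▸ perp_Mx A ρ
  have dotu : ∀ (e : Finset E) (w : E), Mx A w = e → e = {a, a'} → ip (a - a') w = 0 := by
    intro e w hw he
    have h1 : Mx A w = {a, a'} := hw.trans he
    rw [ip_sub_left, Mx_eq (A := A) (u := w) (a := a) (a' := a') (h1 ▸ by simp) (h1 ▸ by simp),
      sub_self]
  have hdet : ∀ v : E, ip (a - a') v = 0 →
      det3 (a - a') ρ v = -k * (ip (a - a') (a - a') * ip (c₂ - c₁) v) := by
    intro v hv
    rw [hk, det3_smul2]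
    have e1 : det3 (a - a') (cr (a - a') (c₂ - c₁)) v =
        ip (a - a') (c₂ - c₁) * ip (a - a') v - ip (a - a') (a - a') * ip (c₂ - c₁) v := by
      simp only [det3, cr, ip, Matrix.cons_val_zero, Matrix.cons_val_one, Matrix.cons_val]
      ring
    rw [e1, hv]
    ring
  have hu0 := dotu x.1.2 u f1.ua f3
  have hu0' := dotu x'.1.2 u' g1.ua g3
  have hpos : 0 < ip (a - a') (a - a') := ip_self_pos hδ
  have hw : 0 < ip (c₂ - c₁) u := by rw [ip_sub_left]; linarith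
  have hw' : 0 < ip (c₂ - c₁) u' := by rw [ip_sub_left]; linarith
  have p1 : IsPos A B C x.1.2 x.2.2 u := (hAltBasic A B C x u v f1).1
  have p2 : IsPos A B C x.1.2 x'.2.2 u' := by
    have := (hAltBasic A B C x' u' v' g1).1
    rwa [g3, ← f3] at this
  have hdd : 0 < det3 (a - a') ρ u * det3 (a - a') ρ u' := by
    rw [hdet u hu0, hdet u' hu0']
    have e2 : -k * (ip (a - a') (a - a') * ip (c₂ - c₁) u) *
        (-k * (ip (a - a') (a - a') * ip (c₂ - c₁) u')) =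
        (k * k) * ((ip (a - a') (a - a') * ip (c₂ - c₁) u) *
          (ip (a - a') (a - a') * ip (c₂ - c₁) u')) := by ring
    rw [e2]
    have hkk : 0 < k * k := mul_self_pos.mpr hk0
    positivity
  obtain ⟨m, hm, hum⟩ := hFirstExit A B C x.1.2 x.2.2 x'.2.2 u u' ρ a a' p1 p2 f3 f4.symm hperp
    f2 hR' hdd
  exact ((hAltDet A B C x x' u v u' v' m ⟨ρ, f2⟩ f1 g1 hm).1 (g2a.trans f2a.symm) hum).symm

end MAD2

theorem t_AD2 (hPosBasic : StmtPosBasic) (hAltBasic : StmtAltBasic) (hAltDet : StmtAltDet)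
    (hPosFirstExit : StmtPosFirstExit) (hPosPath2 : StmtPosPath2) : StmtAD2 := by
  classical
  intro A B C hA hC
  have _ := hPosBasic
  have hex : ∀ x ∈ AD2 A B C, ∃ q, MAD2.Q A B C x q := fun x hx =>
    MAD2.exQ hAltBasic hPosPath2 hA hC hx
  choose! Φ hΦ using hex
  set T : Finset ((E × E) × E × E) := (Sp A C).biUnion (fun p => (NA C A p.2 p.1).biUnion
    (fun c₂ => (if (NA A C p.1 c₂).card = 2 then NA A C p.1 c₂ else ∅).image
      (fun a' => (p, c₂, a')))) with hT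
  have h1 : (AD2 A B C).card ≤ T.card := by
    refine Finset.card_le_card_of_injOn Φ ?_ ?_
    · intro x hx
      obtain ⟨u, v, ρ, -, -, -, -, -, -, -, f1, f2, f3, f4, -, -⟩ := hΦ x hx
      rw [hT, Finset.mem_coe, Finset.mem_biUnion]
      refine ⟨(Φ x).1, f1, ?_⟩
      rw [Finset.mem_biUnion]
      refine ⟨(Φ x).2.1, f2, ?_⟩
      rw [if_pos f3.2.2.1, Finset.mem_image]
      exact ⟨(Φ x).2.2, f4, rfl⟩
    · intro x hx x' hx' heq
      have a1 := hΦ x hx
      have a2 := hΦ x' hx'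
      rw [← heq] at a2
      exact MAD2.inj hAltBasic hAltDet hPosFirstExit Closed.c_t_CornerNbr hA a1 a2
  have h2 : T.card ≤ ∑ p ∈ Sp A C, 2 * (NA C A p.2 p.1).card := by
    rw [hT]
    refine Finset.card_biUnion_le.trans (Finset.sum_le_sum (fun p _ => ?_))
    refine Finset.card_biUnion_le.trans ?_
    calc ∑ c₂ ∈ NA C A p.2 p.1, _ ≤ ∑ c₂ ∈ NA C A p.2 p.1, 2 := by
          refine Finset.sum_le_sum (fun c₂ _ => ?_)
          refine Finset.card_image_le.trans ?_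
          split_ifs with h
          · exact h.le
          · simp
      _ = 2 * (NA C A p.2 p.1).card := by
          rw [Finset.sum_const, smul_eq_mul, mul_comm]
  refine h1.trans (h2.trans ?_)
  unfold spSum
  rw [Finset.mul_sum]
  refine Finset.sum_le_sum (fun p _ => ?_)
  omega

end TPH
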