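import Pool.Agent.TPH.St5

/-!
# Three parallel hyperplanes: there are few tangent alternations
-/

set_option autoImplicit false

namespace TPH

namespace MAD3

theorem mem_AD3 {A B C : Finset E} {x : Al} : x ∈ AD3 A B C ↔
    x ∈ alts A B C ∧ (∀ a ∈ x.1.2, Reg A C a x.2.2) ∧ ∀ r, InR A B x.2.2 r → ¬ Perp x.1.2 r := by
  simp only [AD3, Finset.mem_filter]

theorem ex_alt {A B C : Finset E} {x : Al} (h : x ∈ alts A B C) : ∃ u v, IsAlt A B C x u v := by
  simp only [alts, Finset.mem_filter] at h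
  exact h.2

end MAD3

theorem t_AD3 (hPosBasic : StmtPosBasic) (hAltBasic : StmtAltBasic) (hAltPer : StmtAltPer)
    (hPosTangent : StmtPosTangent) (hTangentUniq : StmtTangentUniq) : StmtAD3 := by
  classical
  have _ := hPosBasic
  intro A B C hA hC hR
  have hpos : ∀ x ∈ AD3 A B C, ∃ u : E, IsPos A B C x.1.2 x.2.2 u := by
    intro x hx
    obtain ⟨u, v, hu⟩ := MAD3.ex_alt (MAD3.mem_AD3.1 hx).1
    exact ⟨u, (hAltBasic A B C x u v hu).1⟩
  have hcC : ∀ x ∈ AD3 A B C, x.2.2 ∈ C := by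
    intro x hx
    obtain ⟨u, v, hu⟩ := MAD3.ex_alt (MAD3.mem_AD3.1 hx).1
    exact Mx_subset C u (by rw [hu.uc]; simp)
  have hdata : ∀ x ∈ AD3 A B C, ∃ c' a₁ a₂ : E, ∃ δ z ρ : E,
      TG A B C (x.1.2, x.2.2, ∅) δ c' z ρ a₁ a₂ := by
    intro x hx
    obtain ⟨u, hu⟩ := hpos x hx
    have h1 := MAD3.mem_AD3.1 hx
    obtain ⟨δ, c', z, ρ, a₁, a₂, h⟩ := hPosTangent A B C x.1.2 x.2.2 u hA hC (hR _ (hcC x hx)) hu
      h1.2.1 h1.2.2
    exact ⟨c', a₁, a₂, δ, z, ρ, h⟩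
  choose! c' a₁ a₂ h using hdata
  set k : Al → E × E × E × E := fun x => (a₁ x, x.2.2, a₂ x, c' x) with hk
  set T : Finset (E × E × E × E) := (Sp A C).biUnion (fun p =>
    ((NA A C p.1 p.2).filter (fun a => Reg A C a p.2)).biUnion (fun a =>
      (NA C A p.2 a).image (fun c => (p.1, p.2, a, c)))) with hT
  have hmaps : ∀ x ∈ AD3 A B C, k x ∈ T := by
    intro x hx
    obtain ⟨δ, z, ρ, hg⟩ := h x hx
    rw [hT, Finset.mem_biUnion]
    refine ⟨(a₁ x, x.2.2), hg.sp, ?_⟩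
    rw [Finset.mem_biUnion]
    refine ⟨a₂ x, Finset.mem_filter.2 ⟨hg.na, hg.reg⟩, ?_⟩
    rw [Finset.mem_image]
    exact ⟨c' x, hg.nc', rfl⟩
  have hfib : ∀ t ∈ T, ((AD3 A B C).filter (fun x => k x = t)).card ≤ 4 := by
    intro t _
    rcases ((AD3 A B C).filter (fun x => k x = t)).eq_empty_or_nonempty with he | ⟨x, hx⟩
    · rw [he, Finset.card_empty]; norm_num
    · rw [Finset.mem_filter] at hx
      refine (Finset.card_le_card ?_).trans
        (hAltPer A B C x.1.2 x.2.2 (Or.inl hA) (hR _ (hcC x hx.1)))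
      intro y hy
      rw [Finset.mem_filter] at hy
      simp only [Finset.mem_filter]
      have hky : k x = k y := hx.2.trans hy.2.symm
      have e1 : a₁ x = a₁ y := congrArg Prod.fst hky
      have e2 : x.2.2 = y.2.2 := congrArg (fun w => w.2.1) hky
      have e3 : a₂ x = a₂ y := congrArg (fun w => w.2.2.1) hky
      have e4 : c' x = c' y := congrArg (fun w => w.2.2.2) hky
      obtain ⟨δ, z, ρ, hg⟩ := h x hx.1
      obtain ⟨δ', z', ρ', hg'⟩ := h y hy.1
      rw [← e1, ← e2, ← e3, ← e4] at hg'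
      obtain ⟨u, hu⟩ := hpos x hx.1
      obtain ⟨u', hu'⟩ := hpos y hy.1
      rw [← e2] at hu'
      have hreg' := (MAD3.mem_AD3.1 hy.1).2.1
      rw [← e2] at hreg'
      refine ⟨(MAD3.mem_AD3.1 hy.1).1, ?_, e2.symm⟩
      exact (hTangentUniq A B C x.1.2 y.1.2 x.2.2 (c' x) u u' δ δ' z z' ρ ρ' (a₁ x) (a₂ x) hA hC
        (hR _ (hcC x hx.1)) hu hu' (MAD3.mem_AD3.1 hx.1).2.1 hreg' hg hg').symm
  have h1 := Finset.card_le_mul_card_image_of_maps_to hmaps 4 hfib
  have h2 : T.card ≤ ∑ p ∈ Sp A C, (NA A C p.1 p.2).card * 2 := by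
    rw [hT]
    refine Finset.card_biUnion_le.trans (Finset.sum_le_sum (fun p _ => ?_))
    refine (Finset.card_biUnion_le_card_mul _ _ 2 (fun a ha => ?_)).trans
      (Nat.mul_le_mul_right _ (Finset.card_le_card (Finset.filter_subset _ _)))
    rw [Finset.mem_filter] at ha
    refine Finset.card_image_le.trans ?_
    exact ha.2.2.2.2.le
  have h3 : ∑ p ∈ Sp A C, (NA A C p.1 p.2).card * 2 ≤ spSum A C * 2 := by
    rw [← Finset.sum_mul]
    refine Nat.mul_le_mul_right _ ?_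
    unfold spSum
    exact Finset.sum_le_sum (fun p _ => Nat.le_add_right _ _)
  omega

end TPH
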