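import Pool.Agent.TPH.St5
import Pool.Agent.TPH.Closed

/-!
# Points of `R_c` in the plane of a half flat (module Alpha)
-/

set_option autoImplicit false

namespace TPH

theorem t_Alpha : StmtAlpha := by
  intro A B C e c c' u z v hA h hv hp
  obtain ⟨α, β, hβ, hvv⟩ := h.beta_neg hv hp
  refine ⟨α, β, ?_, hβ, hvv⟩
  by_contra hα
  rw [not_lt] at hα
  have hb : 0 < -β := by linarith
  have h1 : -z = (-β)⁻¹ • v + (-α * (-β)⁻¹) • u := by
    rw [hvv, smul_add, smul_smul, smul_smul]
    have e1 : (-β)⁻¹ * β = -1 := by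
      have := inv_mul_cancel₀ hb.ne'
      linarith
    rw [e1]
    have e2 : -α * (-β)⁻¹ = -((-β)⁻¹ * α) := by ring
    rw [e2, neg_smul, neg_smul, one_smul]
    abel
  have h2 : InR A B c (-z) := by
    rw [h1]
    exact InR.comb (inv_pos.mpr hb) (mul_nonneg (by linarith) (inv_pos.mpr hb).le) hv h.clo
  have h3 : Perp e (-z) := by
    rw [h1]
    exact Perp.comb _ _ hp h.perp_u
  have h4 : Mx A (-z) = e := h.full _ h2 h3
  obtain ⟨a, ha⟩ := h.e_ne
  have ha1 : a ∈ Mx A z := h.ez.symm ▸ ha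
  have ha2 : a ∈ Mx A (-z) := h4.symm ▸ ha
  have hsub : A ⊆ e := by
    intro b hb'
    rw [← h.ez]
    refine mem_Mx_of_eq ha1 hb' ?_
    have i1 := Mx_le ha1 hb'
    have i2 := Mx_le ha2 hb'
    rw [ip_neg_right, ip_neg_right] at i2
    linarith
  have := Finset.card_le_card hsub
  rw [h.card] at this
  omega

end TPH
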