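import Pool.Agent.TPH.St5
import Pool.Agent.TPH.Closed

/-!
# First facts about alternations
-/

set_option autoImplicit false

namespace TPH

namespace MAltBasic

theorem clo_of {A B : Finset E} {c u a b : E} (ha : a ∈ Mx A u) (hb : b ∈ Mx B u)
    (h : ip a u + ip b u = 2 * ip c u) : InRc A B c u := by
  intro a' ha' b' hb'
  have h1 := Mx_le ha ha'
  have h2 := Mx_le hb hb'
  linarith

theorem out_of {A B : Finset E} {c u a b : E} (ha : a ∈ A) (hb : b ∈ B)
    (h : ip a u + ip b u = 2 * ip c u) (κ : ℝ) : ¬ InR A B c (κ • u) := by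
  intro hR
  have h1 := hR a ha b hb
  rw [ip_smul_right, ip_smul_right, ip_smul_right] at h1
  have h2 : κ * ip a u + κ * ip b u = 2 * (κ * ip c u) := by
    have : κ * (ip a u + ip b u) = κ * (2 * ip c u) := by rw [h]
    linarith
  linarith

theorem pair_of {e : Finset E} {a a' : E} (hc : e.card = 2) (ha : a ∈ e) (ha' : a' ∈ e)
    (hn : a' ≠ a) : e = {a, a'} := by
  classical
  refine (Finset.eq_of_subset_of_card_le ?_ ?_).symm
  · intro z hz
    simp only [Finset.mem_insert, Finset.mem_singleton] at hz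
    rcases hz with rfl | rfl <;> assumption
  · rw [hc, Finset.card_pair hn.symm]

theorem exists_other {e : Finset E} {a : E} (hc : e.card = 2) : ∃ a' ∈ e, a' ≠ a := by
  by_contra hcon
  push Not at hcon
  have : e ⊆ {a} := fun z hz => by rw [Finset.mem_singleton]; exact hcon z hz
  have := Finset.card_le_card this
  rw [hc, Finset.card_singleton] at this
  omega

theorem pos_of {A : Finset E} {v a a' : E} (h : Mx A v = {a}) (ha' : a' ∈ A) (hn : a' ≠ a) :
    0 < ip (a - a') v := by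
  have h1 : a ∈ Mx A v := by rw [h]; exact Finset.mem_singleton_self a
  have h2 : a' ∉ Mx A v := by rw [h, Finset.mem_singleton]; exact hn
  have := Mx_lt h1 ha' h2
  rw [ip_sub_left]
  linarith

theorem ip_Tv (x : Al) (w : E) :
    ip (Tv x) w = 2 * ip x.2.2 w - ip x.1.1 w - ip x.2.1.1 w := by
  unfold Tv
  rw [ip_sub_left, ip_sub_left, ip_smul_left]

end MAltBasic

open MAltBasic in
theorem t_AltBasic : StmtAltBasic := by
  intro A B C x u v h
  have hau : x.1.1 ∈ Mx A u := by rw [h.ua]; exact h.ae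
  have hbu : x.2.1.1 ∈ Mx B u := by rw [h.ub]; exact Finset.mem_singleton_self _
  have hav : x.1.1 ∈ Mx A v := by rw [h.va]; exact Finset.mem_singleton_self _
  have hbv : x.2.1.1 ∈ Mx B v := by rw [h.vb]; exact h.bf
  have haA : x.1.1 ∈ A := Mx_subset _ _ hau
  have hbB : x.2.1.1 ∈ B := Mx_subset _ _ hbu
  have heA : x.1.2 ⊆ A := by rw [← h.ua]; exact Mx_subset _ _
  have hfB : x.2.1.2 ⊆ B := by rw [← h.vb]; exact Mx_subset _ _
  have hA : ∀ a' ∈ x.1.2, a' ≠ x.1.1 → x.1.2 = {x.1.1, a'} ∧ 0 < ip (x.1.1 - a') v :=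
    fun a' ha' hn => ⟨pair_of h.ce h.ae ha' hn, pos_of h.va (heA ha') hn⟩
  have hB : ∀ b' ∈ x.2.1.2, b' ≠ x.2.1.1 →
      x.2.1.2 = {x.2.1.1, b'} ∧ 0 < ip (x.2.1.1 - b') u :=
    fun b' hb' hn => ⟨pair_of h.cf h.bf hb' hn, pos_of h.ub (hfB hb') hn⟩
  have htv' : ip x.2.1.1 v + ip x.1.1 v = 2 * ip x.2.2 v := by
    have := h.tv
    linarith
  refine ⟨⟨h.ce, h.ua, h.uc, clo_of hau hbu h.tu, out_of haA hbB h.tu⟩,
    ⟨h.cf, h.vb, h.vc, clo_of hbv hav htv', out_of hbB haA htv'⟩, ?_, ?_, ?_, ?_, hA, hB, ?_, ?_⟩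
  · rw [ip_Tv]
    have := h.tu
    linarith
  · rw [ip_Tv]
    have := h.tv
    linarith
  · intro w hw
    rw [ip_Tv]
    have := hw _ haA _ hbB
    linarith
  · intro w hw
    rw [ip_Tv]
    have := hw _ haA _ hbB
    linarith
  · intro hcr
    obtain ⟨b', hb', hbn⟩ := exists_other (a := x.2.1.1) h.cf
    have h1 := (hB b' hb' hbn).2
    have hu : u ≠ 0 := by
      rintro rfl
      rw [ip_zero_right] at h1
      exact lt_irrefl _ h1
    obtain ⟨k, hk⟩ := par_of_cr hu hcr
    obtain ⟨a', ha', han⟩ := exists_other (a := x.1.1) h.ce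
    have h2 := (hA a' ha' han).2
    rw [hk, ip_smul_right, ip_sub_left] at h2
    have h3 : ip x.1.1 u = ip a' u := Mx_eq hau (by rw [h.ua]; exact ha')
    rw [h3, sub_self, mul_zero] at h2
    exact lt_irrefl _ h2
  · exact
      { ce := h.cf
        cf := h.ce
        ae := h.bf
        bf := h.ae
        ua := h.vb
        ub := h.va
        uc := h.vc
        va := h.ub
        vb := h.ua
        vc := h.uc
        tu := htv'
        tv := by
          have := h.tu
          show ip x.2.1.1 u + ip x.1.1 u = 2 * ip x.2.2 u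
          linarith }

end TPH
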