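import Pool.Agent.TPH.St6
import Pool.Agent.TPH.Closed

/-!
# Three parallel hyperplanes: the bound for the number of alternations

Proof of `StmtAltBound` from the bounds for main, out and dropped alternations.
-/

set_option autoImplicit false

namespace TPH.MAltBound

theorem arith (x a n : ℕ) (hn : 1 ≤ n) (h : x ^ 2 ≤ a * n * (4608 * n ^ 2 + x)) :
    x ^ 2 ≤ (9216 * a + 4 * a ^ 2) * n ^ 3 := by
  by_cases hx : x ≤ 4608 * n ^ 2
  · calc x ^ 2 ≤ a * n * (4608 * n ^ 2 + x) := h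
      _ ≤ a * n * (4608 * n ^ 2 + 4608 * n ^ 2) :=
        Nat.mul_le_mul_left _ (Nat.add_le_add_left hx _)
      _ = 9216 * a * n ^ 3 := by ring
      _ ≤ (9216 * a + 4 * a ^ 2) * n ^ 3 := Nat.mul_le_mul_right _ (Nat.le_add_right _ _)
  · push Not at hx
    have hxpos : 0 < x := by omega
    have h1 : x * x ≤ (2 * a * n) * x := by
      calc x * x = x ^ 2 := by ring
        _ ≤ a * n * (4608 * n ^ 2 + x) := h
        _ ≤ a * n * (x + x) := Nat.mul_le_mul_left _ (Nat.add_le_add_right hx.le _)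
        _ = (2 * a * n) * x := by ring
    have h2 : x ≤ 2 * a * n := Nat.le_of_mul_le_mul_right h1 hxpos
    calc x ^ 2 ≤ (2 * a * n) ^ 2 := Nat.pow_le_pow_left h2 2
      _ = 4 * a ^ 2 * n ^ 2 := by ring
      _ ≤ 4 * a ^ 2 * n ^ 3 := Nat.mul_le_mul_left _ (Nat.pow_le_pow_right hn (by norm_num))
      _ ≤ (9216 * a + 4 * a ^ 2) * n ^ 3 := Nat.mul_le_mul_right _ (Nat.le_add_left _ _)

theorem sq4 (x y z t w : ℕ) (h : w ≤ x + y + z + t) :
    w ^ 2 ≤ 4 * (x ^ 2 + y ^ 2 + z ^ 2 + t ^ 2) := by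
  have h1 : w ^ 2 ≤ (x + y + z + t) ^ 2 := Nat.pow_le_pow_left h 2
  zify at h1 ⊢
  nlinarith [sq_nonneg ((x : ℤ) - y), sq_nonneg ((x : ℤ) - z), sq_nonneg ((y : ℤ) - z),
    sq_nonneg ((x : ℤ) - t), sq_nonneg ((y : ℤ) - t), sq_nonneg ((z : ℤ) - t)]

end TPH.MAltBound

namespace TPH

open MAltBound in
theorem t_AltBound (hAltDrop : StmtAltDrop) (hAltMain : StmtAltMain) (hAltOut : StmtAltOut)
    (hAltSmall : StmtAltSmall) : StmtAltBound := by
  classical
  have hEdgeLin : StmtEdgeLin := TPH.Closed.edge_lin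
  obtain ⟨K₁, hK₁⟩ := TPH.Closed.c_t_SpecialBound
  set a : ℕ := 8 * (192 + 16 * K₁) with ha
  refine ⟨9216 + 4 * (3 * (9216 * a + 4 * a ^ 2) + 784 * K₁ ^ 2), ?_⟩
  intro A B C hA hB hC hR
  set n := A.card + B.card + C.card with hn
  by_cases hs : A.card ≤ 2 ∨ B.card ≤ 2 ∨ C.card ≤ 2
  · have h := hAltSmall A B C hA hB hR hs
    rw [← hn] at h
    rcases Nat.eq_zero_or_pos n with h0 | hpos
    · rw [h0] at h ⊢
      have h1 : (alts A B C).card = 0 := by omega
      rw [h1]; norm_num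
    · calc (alts A B C).card ^ 2 ≤ (96 * n) ^ 2 := Nat.pow_le_pow_left h 2
        _ = 9216 * n ^ 2 := by ring
        _ ≤ 9216 * n ^ 3 := Nat.mul_le_mul_left _ (Nat.pow_le_pow_right hpos (by norm_num))
        _ ≤ _ := Nat.mul_le_mul_right _ (Nat.le_add_right _ _)
  · push Not at hs
    obtain ⟨hA3, hB3, hC3⟩ := hs
    have hA3 : 3 ≤ A.card := hA3
    have hB3 : 3 ≤ B.card := hB3
    have hC3 : 3 ≤ C.card := hC3
    have hnpos : 1 ≤ n := by omega
    have hEA : (Ed A).card ≤ 12 * n := (hEdgeLin A hA).2.2.trans (by omega)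
    have hEB : (Ed B).card ≤ 12 * n := (hEdgeLin B hB).2.2.trans (by omega)
    have hEC : (Ed C).card ≤ 12 * n := (hEdgeLin C hC).2.2.trans (by omega)
    have hSA : spSum A C ≤ K₁ * n :=
      (hK₁ A C hA3 hC3 hA hC).trans (Nat.mul_le_mul_left _ (by omega))
    have hSB : spSum B C ≤ K₁ * n :=
      (hK₁ B C hB3 hC3 hB hC).trans (Nat.mul_le_mul_left _ (by omega))
    have hprod : 32 * ((Ed A).card * (Ed B).card) ≤ 4608 * n ^ 2 := by
      calc 32 * ((Ed A).card * (Ed B).card) ≤ 32 * ((12 * n) * (12 * n)) :=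
            Nat.mul_le_mul_left _ (Nat.mul_le_mul hEA hEB)
        _ = 4608 * n ^ 2 := by ring
    have hprod2 : 16 * ((Ed A).card * (Ed B).card) ≤ 4608 * n ^ 2 :=
      (Nat.mul_le_mul_right _ (by norm_num)).trans hprod
    have hdrop := hAltDrop A B C hA3 hB3 hC3 hR
    let X₁ : Finset Al := (AGF A B C).filter fun x => ∃ u v z y c',
      AGD A B C x u v z y c' c' ∧ 0 ≤ (1 : ℝ) * det3 (x.2.2 - c') z y
    let X₂ : Finset Al := (AGF A B C).filter fun x => ∃ u v z y c',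
      AGD A B C x u v z y c' c' ∧ 0 ≤ (-1 : ℝ) * det3 (x.2.2 - c') z y
    let X₃ : Finset Al := (AGF A B C).filter fun x => ∃ u v z y c₁ c₂,
      AGD A B C x u v z y c₁ c₂ ∧ c₂ ≠ c₁
    have hcov : AGF A B C ⊆ (X₁ ∪ X₂) ∪ X₃ := by
      intro x hx
      have hx' := hx
      simp only [AGF, Finset.mem_filter] at hx'
      obtain ⟨-, u, v, z, y, c₁, c₂, h⟩ := hx'
      by_cases hc : c₂ = c₁
      · subst hc
        rcases le_total 0 (det3 (x.2.2 - c₂) z y) with h0 | h0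
        · refine Finset.mem_union_left _ (Finset.mem_union_left _ (Finset.mem_filter.mpr
            ⟨hx, u, v, z, y, c₂, h, ?_⟩))
          linarith
        · refine Finset.mem_union_left _ (Finset.mem_union_right _ (Finset.mem_filter.mpr
            ⟨hx, u, v, z, y, c₂, h, ?_⟩))
          linarith
      · exact Finset.mem_union_right _ (Finset.mem_filter.mpr ⟨hx, u, v, z, y, c₁, c₂, h, hc⟩)
    have hGF : (AGF A B C).card ≤ X₁.card + X₂.card + X₃.card :=
      (Finset.card_le_card hcov).trans ((Finset.card_union_le _ _).trans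
        (Nat.add_le_add_right (Finset.card_union_le _ _) _))
    have h1 := hAltMain A B C X₁ 1 hA3 hB3 hC3 (Or.inl rfl) fun x hx => (Finset.mem_filter.mp hx).2
    have h2 := hAltMain A B C X₂ (-1) hA3 hB3 hC3 (Or.inr rfl)
      fun x hx => (Finset.mem_filter.mp hx).2
    have h3 := hAltOut A B C X₃ hA3 hB3 hC3 fun x hx => (Finset.mem_filter.mp hx).2
    have hcoef : 8 * (16 * (Ed C).card + (8 * spSum A C + 8 * spSum B C)) ≤ a * n := by
      calc 8 * (16 * (Ed C).card + (8 * spSum A C + 8 * spSum B C))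
          ≤ 8 * (16 * (12 * n) + (8 * (K₁ * n) + 8 * (K₁ * n))) := by
            apply Nat.mul_le_mul_left
            omega
        _ = a * n := by rw [ha]; ring
    have h1' : X₁.card ^ 2 ≤ a * n * (4608 * n ^ 2 + X₁.card) :=
      h1.trans (Nat.mul_le_mul hcoef (Nat.add_le_add_right hprod _))
    have h2' : X₂.card ^ 2 ≤ a * n * (4608 * n ^ 2 + X₂.card) :=
      h2.trans (Nat.mul_le_mul hcoef (Nat.add_le_add_right hprod _))
    have h3' : X₃.card ^ 2 ≤ a * n * (4608 * n ^ 2 + X₃.card) := by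
      refine h3.trans (Nat.mul_le_mul (le_trans ?_ hcoef) (Nat.add_le_add_right hprod2 _))
      exact Nat.mul_le_mul_left _ (Nat.le_add_right _ _)
    have b1 := arith _ _ _ hnpos h1'
    have b2 := arith _ _ _ hnpos h2'
    have b3 := arith _ _ _ hnpos h3'
    have hsum : (alts A B C).card ≤ X₁.card + X₂.card + X₃.card + 28 * (K₁ * n) := by
      have h4 : 14 * (spSum A C + spSum B C) ≤ 28 * (K₁ * n) := by omega
      omega
    have h4 := sq4 _ _ _ _ _ hsum
    have h5 : (28 * (K₁ * n)) ^ 2 ≤ 784 * K₁ ^ 2 * n ^ 3 := by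
      calc (28 * (K₁ * n)) ^ 2 = 784 * K₁ ^ 2 * n ^ 2 := by ring
        _ ≤ 784 * K₁ ^ 2 * n ^ 3 :=
          Nat.mul_le_mul_left _ (Nat.pow_le_pow_right hnpos (by norm_num))
    calc (alts A B C).card ^ 2
        ≤ 4 * (X₁.card ^ 2 + X₂.card ^ 2 + X₃.card ^ 2 + (28 * (K₁ * n)) ^ 2) := h4
      _ ≤ 4 * ((9216 * a + 4 * a ^ 2) * n ^ 3 + (9216 * a + 4 * a ^ 2) * n ^ 3 +
          (9216 * a + 4 * a ^ 2) * n ^ 3 + 784 * K₁ ^ 2 * n ^ 3) :=
        Nat.mul_le_mul_left _ (Nat.add_le_add (Nat.add_le_add (Nat.add_le_add b1 b2) b3) h5)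
      _ = (4 * (3 * (9216 * a + 4 * a ^ 2) + 784 * K₁ ^ 2)) * n ^ 3 := by ring
      _ ≤ _ := Nat.mul_le_mul_right _ (Nat.le_add_left _ _)

end TPH
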