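import Pool.Agent.TPH.St6
import Pool.Agent.TPH.Closed

/-!
# Three parallel hyperplanes: of three alternations of a run, two neighbours cross
-/

set_option autoImplicit false

namespace TPH

namespace MAltCrossTri

/-- Same class is symmetric. -/
theorem symm {c' : Al → E} {lab : Al → Fin 8} {x y : Al} (h : ASame c' lab x y) :
    ASame c' lab y x := ⟨h.1.symm, h.2.1.symm, h.2.2.symm⟩

/-- Same class is transitive. -/
theorem tr {c' : Al → E} {lab : Al → Fin 8} {x y w : Al} (h : ASame c' lab x y)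
    (h' : ASame c' lab y w) : ASame c' lab x w :=
  ⟨h.1.trans h'.1, h.2.1.trans h'.2.1, h.2.2.trans h'.2.2⟩

/-- A gap inside a class which contains no bad consecutive gap is good. -/
theorem run {A B C : Finset E} {X : Finset Al} {u z c' : Al → E}
    {σ : ℝ} {lab : Al → Fin 8} {e : Al → Finset E} (hC : 3 ≤ C.card) {x₀ x w : Al}
    (hσ : σ = 1 ∨ σ = -1)
    (hf : ∀ x ∈ X, HF A B C (e x) x.2.2 (c' x) (u x) (z x))
    (inj : ∀ x ∈ X, ∀ x' ∈ X, ASame c' lab x x' → det3 (x.2.2 - c' x) (z x) (z x') = 0 → x = x')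
    (hx : x ∈ X) (hw : w ∈ X) (sx : ASame c' lab x₀ x) (sw : ASame c' lab x₀ w)
    (hxw : 0 < σ * det3 (x₀.2.2 - c' x₀) (z x) (z w))
    (hno : ∀ k ∈ X, k ∈ ABd A B X u z c' σ lab → ASame c' lab x₀ k →
      ¬ ((k = x ∨ 0 < σ * det3 (x₀.2.2 - c' x₀) (z x) (z k)) ∧
        0 < σ * det3 (x₀.2.2 - c' x₀) (z k) (z w))) :
    Good A B x₀.2.2 (z x) (u x) (z w) (u w) := by
  classical
  refine Closed.c_t_RunGood Al (X.filter (fun k => ASame c' lab x₀ k))
    ((ABd A B X u z c' σ lab).filter (fun k => ASame c' lab x₀ k)) A B C e x₀.2.2 (c' x₀) u z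
    σ x w hC hσ ?_ ?_ (Finset.mem_filter.mpr ⟨hx, sx⟩) (Finset.mem_filter.mpr ⟨hw, sw⟩) hxw
    ?_ ?_
  · intro i hi
    obtain ⟨hi, si⟩ := Finset.mem_filter.mp hi
    have h := hf i hi
    rw [← si.1, ← si.2.1] at h
    exact h
  · intro i hi j hj hd
    obtain ⟨hi, si⟩ := Finset.mem_filter.mp hi
    obtain ⟨hj, sj⟩ := Finset.mem_filter.mp hj
    refine inj i hi j hj (tr (symm si) sj) ?_
    rw [← si.1, ← si.2.1]
    exact hd
  · rintro k hk ⟨j, hj, hkj, hbt, hng⟩
    obtain ⟨hk, sk⟩ := Finset.mem_filter.mp hk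
    obtain ⟨hj, sj⟩ := Finset.mem_filter.mp hj
    refine Finset.mem_filter.mpr ⟨?_, sk⟩
    unfold ABd
    rw [@Finset.mem_filter _ _ (Classical.decPred _)]
    refine ⟨hk, j, hj, tr (symm sk) sj, ?_, ?_, ?_⟩
    · rw [← sk.1, ← sk.2.1]
      exact hkj
    · intro i hi si
      rw [← sk.1, ← sk.2.1]
      exact hbt i (Finset.mem_filter.mpr ⟨hi, tr sk si⟩)
    · rw [← sk.1]
      exact hng
  · intro k hk
    obtain ⟨hk, sk⟩ := Finset.mem_filter.mp hk
    have hkX : k ∈ X := by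
      unfold ABd at hk
      exact @Finset.filter_subset _ _ (Classical.decPred _) _ _ hk
    exact hno k hkX hk sk

end MAltCrossTri

open MAltCrossTri MCrossTri in
/-- **Of three alternations of a run, two neighbours cross.** -/
theorem t_AltCrossTri (hAltSigns : StmtAltSigns) (hAltKey : StmtAltKey)
    (hAltThree : StmtAltThree) : StmtAltCrossTri := by
  intro A B C X u v z y c' σ lab x x' x'' hA hB hC md hx hx' hx'' hs hs' h1 h2 hbad
  have hs'' : ASame c' lab x x'' := MAltCrossTri.tr hs hs'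
  have hσ := md.sg
  have hne : x.2.2 ≠ c' x := (md.gd x hx).hA.ne
  have hBt := Closed.c_t_Between
  -- membership in the arc
  have hz : ∀ k ∈ X, ASame c' lab x k → Mx C (z k) = {x.2.2, c' x} := by
    intro k hk sk
    rw [sk.1, sk.2.1]
    exact (md.gd k hk).hA.cz
  have hy : ∀ k ∈ X, ASame c' lab x k → Mx C (y k) = {x.2.2, c' x} := by
    intro k hk sk
    rw [sk.1, sk.2.1]
    exact (md.gd k hk).hB.cz
  have hxx : ASame c' lab x x := ⟨rfl, rfl, rfl⟩
  -- the two orders agree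
  have ag : ∀ i ∈ X, ∀ j ∈ X, ASame c' lab x i → ASame c' lab x j →
      (0 < σ * det3 (x.2.2 - c' x) (z i) (z j) ↔ 0 < σ * det3 (x.2.2 - c' x) (y i) (y j)) := by
    intro i hi j hj si sj
    have h := md.ag i hi j hj (MAltCrossTri.tr (MAltCrossTri.symm si) sj)
    rw [← si.1, ← si.2.1] at h
    exact h
  have ty : ∀ i ∈ X, ASame c' lab x i → 0 ≤ σ * det3 (x.2.2 - c' x) (z i) (y i) := by
    intro i hi si
    have h := md.ty i hi
    rw [← si.1, ← si.2.1] at h
    exact h
  -- injectivity for `y`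
  have injy : ∀ i ∈ X, ∀ j ∈ X, ASame c' lab i j →
      det3 (i.2.2 - c' i) (y i) (y j) = 0 → i = j := by
    intro i hi j hj sij hd
    refine md.inj i hi j hj sij ?_
    have a1 := md.ag i hi j hj sij
    have a2 := md.ag j hj i hi (MAltCrossTri.symm sij)
    rw [← sij.1, ← sij.2.1] at a2
    rw [hd, mul_zero] at a1
    have hd' : det3 (i.2.2 - c' i) (y j) (y i) = 0 := by rw [det3_swap23, hd, neg_zero]
    rw [hd', mul_zero, det3_swap23] at a2
    have n1 : ¬ 0 < σ * det3 (i.2.2 - c' i) (z i) (z j) := fun h => lt_irrefl _ (a1.mp h)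
    have n2 : ¬ 0 < σ * -det3 (i.2.2 - c' i) (z i) (z j) := fun h => lt_irrefl _ (a2.mp h)
    rcases hσ with h | h
    · rw [h] at n1 n2; linarith
    · rw [h] at n1 n2; linarith
  -- orders
  have o1 : 0 < σ * det3 (x.2.2 - c' x) (y x) (y x') := (ag x hx x' hx' hxx hs).mp h1
  have o2 : 0 < σ * det3 (x.2.2 - c' x) (y x') (y x'') := (ag x' hx' x'' hx'' hs hs'').mp h2
  -- the first gap is good for `A`
  have gA1 : Good A B x.2.2 (z x) (u x) (z x') (u x') := by
    refine run (A := A) (B := B) (C := C) (X := X) (u := u) (z := z) (c' := c') (σ := σ)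
      (lab := lab) (e := fun k => k.1.2) (x₀ := x) hC hσ (fun k hk => (md.gd k hk).hA) md.inj
      hx hx' hxx hs h1 ?_
    rintro k hk hkA sk ⟨hor, hlt⟩
    refine hbad k hk (Or.inl hkA) sk hor ?_
    exact (trans hBt hC hne hσ (hz k hk sk) (hz x' hx' hs) (hz x'' hx'' hs'') hlt h2).1
  -- the first gap is good for `B`
  have gB1 : Good B A x.2.2 (y x) (v x) (y x') (v x') := by
    refine run (A := B) (B := A) (C := C) (X := X) (u := v) (z := y) (c' := c') (σ := σ)
      (lab := lab) (e := fun k => k.2.1.2) (x₀ := x) hC hσ (fun k hk => (md.gd k hk).hB) injy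
      hx hx' hxx hs o1 ?_
    rintro k hk hkB sk ⟨hor, hlt⟩
    refine hbad k hk (Or.inr hkB) sk ?_ ?_
    · rcases hor with h | h
      · exact Or.inl h
      · exact Or.inr ((ag x hx k hk hxx sk).mpr h)
    · exact (trans hBt hC hne hσ (hz k hk sk) (hz x' hx' hs) (hz x'' hx'' hs'')
        ((ag k hk x' hx' sk hs).mpr hlt) h2).1
  -- the second gap is good for `A`
  have gA2 : Good A B x.2.2 (z x') (u x') (z x'') (u x'') := by
    refine run (A := A) (B := B) (C := C) (X := X) (u := u) (z := z) (c' := c') (σ := σ)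
      (lab := lab) (e := fun k => k.1.2) (x₀ := x) hC hσ (fun k hk => (md.gd k hk).hA) md.inj
      hx' hx'' hs hs'' h2 ?_
    rintro k hk hkA sk ⟨hor, hlt⟩
    refine hbad k hk (Or.inl hkA) sk (Or.inr ?_) hlt
    rcases hor with rfl | h
    · exact h1
    · exact (trans hBt hC hne hσ (hz x hx hxx) (hz x' hx' hs) (hz k hk sk) h1 h).1
  -- the second gap is good for `B`
  have gB2 : Good B A x.2.2 (y x') (v x') (y x'') (v x'') := by
    refine run (A := B) (B := A) (C := C) (X := X) (u := v) (z := y) (c' := c') (σ := σ)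
      (lab := lab) (e := fun k => k.2.1.2) (x₀ := x) hC hσ (fun k hk => (md.gd k hk).hB) injy
      hx' hx'' hs hs'' o2 ?_
    rintro k hk hkB sk ⟨hor, hlt⟩
    refine hbad k hk (Or.inr hkB) sk (Or.inr ?_) ((ag k hk x'' hx'' sk hs'').mpr hlt)
    rcases hor with rfl | h
    · exact h1
    · exact (trans hBt hC hne hσ (hz x hx hxx) (hz x' hx' hs) (hz k hk sk) h1
        ((ag x' hx' k hk hs sk).mpr h)).1
  -- the data of the three alternations
  have f1 := md.gd x hx
  have f2 : AGD A B C x' (u x') (v x') (z x') (y x') (c' x) (c' x) := by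
    have h := md.gd x' hx'
    rw [← hs.2.1] at h
    exact h
  have f3 : AGD A B C x'' (u x'') (v x'') (z x'') (y x'') (c' x) (c' x) := by
    have h := md.gd x'' hx''
    rw [← hs''.2.1] at h
    exact h
  obtain ⟨s1, s2, -⟩ := hAltSigns A B C x' (u x') (v x') (z x') (y x') (c' x) (c' x) f2
  have key := hAltThree C x.2.2 (c' x) (Tv x') (z x) (y x) (z x') (y x') (z x'') (y x'') σ hC hne
    hσ (hz x hx hxx) (hy x hx hxx) (hz x' hx' hs) (hy x' hx' hs) (hz x'' hx'' hs'')
    (hy x'' hx'' hs'') (ty x' hx' hs) h1 h2 o1 o2 s1 s2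
  rcases key with h | h
  · left
    exact hAltKey A B C x x' (u x) (v x) (z x) (y x) (u x') (v x') (z x') (y x') (c' x) σ hA hB hC
      f1 f2 hs.1.symm hσ (ty x hx hxx) (ty x' hx' hs) h1 o1 gA1 gB1 (Or.inl h)
  · right
    have e1 : x'.2.2 = x.2.2 := hs.1.symm
    have e2 : x''.2.2 = x'.2.2 := hs'.1.symm
    refine hAltKey A B C x' x'' (u x') (v x') (z x') (y x') (u x'') (v x'') (z x'') (y x'')
      (c' x) σ hA hB hC f2 f3 e2 hσ ?_ ?_ ?_ ?_ ?_ ?_ (Or.inr h)
    · rw [e1]; exact ty x' hx' hs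
    · rw [e1]; exact ty x'' hx'' hs''
    · rw [e1]; exact h2
    · rw [e1]; exact o2
    · rw [e1]; exact gA2
    · rw [e1]; exact gB2

end TPH
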