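import Pool.Agent.TPH.St5
import Pool.Agent.TPH.Closed

/-!
# Three parallel hyperplanes: an alternation is determined by one end
-/

namespace TPH

namespace MAltDet

theorem one (hAltBasic : StmtAltBasic) (A B C : Finset E) (x x' : Al) (u v u' v' : E) (k : ℝ)
    (hr : ∃ r, InR A B x.2.2 r) (hx : IsAlt A B C x u v) (hx' : IsAlt A B C x' u' v') (hk : 0 < k)
    (ha : x'.1.1 = x.1.1) (hu : u' = k • u) : x' = x := by
  obtain ⟨-, -, t1, t2, t3, -, t5, -, t7, -⟩ := hAltBasic A B C x u v hx
  obtain ⟨-, -, -, t2', -, -, t5', -, -, -⟩ := hAltBasic A B C x' u' v' hx'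
  have he : x'.1.2 = x.1.2 := by rw [← hx'.ua, hu, Mx_smul hk, hx.ua]
  have hb : x'.2.1.1 = x.2.1.1 := by
    have h1 := hx'.ub
    rw [hu, Mx_smul hk, hx.ub] at h1
    exact (Finset.singleton_injective h1).symm
  have hc : x'.2.2 = x.2.2 := by
    have h1 := hx'.uc
    rw [hu, Mx_smul hk, hx.uc] at h1
    exact (Finset.singleton_injective h1).symm
  have hT : Tv x' = Tv x := by unfold Tv; rw [ha, hb, hc]
  rw [hT] at t2'
  have hT0 : Tv x ≠ 0 := by
    intro h0
    obtain ⟨r, hr⟩ := hr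
    have h1 := t3 r hr
    rw [h0, ip_zero_left] at h1
    exact lt_irrefl _ h1
  obtain ⟨α, β, hv'⟩ := comb_of_perp hT0 t7 t1 t2 t2'
  -- the other element of `e`
  obtain ⟨a', ha', hne⟩ : ∃ a' ∈ x.1.2, a' ≠ x.1.1 := by
    have h1 : 1 < x.1.2.card := by rw [hx.ce]; norm_num
    exact Finset.exists_mem_ne h1 x.1.1
  have p1 := (t5 a' ha' hne).2
  have p2 := (t5' a' (by rw [he]; exact ha') (by rw [ha]; exact hne)).2
  rw [ha] at p2
  have p0 : ip (x.1.1 - a') u = 0 := by
    have h1 : x.1.1 ∈ Mx A u := by rw [hx.ua]; exact hx.ae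
    have h2 : a' ∈ Mx A u := by rw [hx.ua]; exact ha'
    rw [ip_sub_left, Mx_eq h1 h2, sub_self]
  have hβ : 0 < β := by
    rw [hv', ip_add_right, ip_smul_right, ip_smul_right, p0, mul_zero, zero_add] at p2
    exact pos_of_mul_pos_left p2 p1.le
  have bu : x.2.1.1 ∈ Mx B u := by rw [hx.ub]; exact Finset.mem_singleton_self _
  have bv : x.2.1.1 ∈ Mx B v := by rw [hx.vb]; exact hx.bf
  have bv' : x.2.1.1 ∈ Mx B v' := by
    rw [hx'.vb, ← hb]
    exact hx'.bf
  have hα : α = 0 := by
    rcases lt_trichotomy α 0 with h | h | h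
    · exfalso
      have e : v = (1 / β) • v' + (-α / β) • u := by
        rw [hv', smul_add, smul_smul, smul_smul, add_assoc, add_comm _ ((-α / β) • u), ← add_assoc,
          ← add_smul]
        have h1 : 1 / β * α + -α / β = 0 := by ring
        have h2 : 1 / β * β = 1 := by field_simp
        rw [h1, h2]
        simp
      have h1 : 0 < 1 / β := by positivity
      have h2 : 0 < -α / β := div_pos (by linarith) hβ
      have h3 := Mx_comb h1 h2 bv' bu
      rw [← e, hx.vb, hx.ub] at h3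
      have h4 : x.2.1.2.card ≤ 1 := by
        rw [h3]
        exact (Finset.card_le_card Finset.inter_subset_right).trans (by simp)
      rw [hx.cf] at h4
      omega
    · exact h
    · exfalso
      have h3 := Mx_comb h hβ bu bv
      rw [← hv', hx'.vb, hx.ub] at h3
      have h4 : x'.2.1.2.card ≤ 1 := by
        rw [h3]
        exact (Finset.card_le_card Finset.inter_subset_left).trans (by simp)
      rw [hx'.cf] at h4
      omega
  have hf : x'.2.1.2 = x.2.1.2 := by
    rw [← hx'.vb, hv', hα, zero_smul, zero_add, Mx_smul hβ, hx.vb]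
  exact Prod.ext (Prod.ext ha he) (Prod.ext (Prod.ext hb hf) hc)

end MAltDet

theorem t_AltDet (hAltBasic : StmtAltBasic) : StmtAltDet := by
  intro A B C x x' u v u' v' k hr hx hx' hk
  refine ⟨fun ha hu => MAltDet.one hAltBasic A B C x x' u v u' v' k hr hx hx' hk ha hu,
    fun ha hv => ?_⟩
  have h1 : IsAlt B A C (asw x) v u := (hAltBasic A B C x u v hx).2.2.2.2.2.2.2.2.2
  have h2 : IsAlt B A C (asw x') v' u' := (hAltBasic A B C x' u' v' hx').2.2.2.2.2.2.2.2.2
  have h3 : ∃ r, InR B A (asw x).2.2 r := by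
    obtain ⟨r, hr⟩ := hr
    exact ⟨r, inR_comm.mp hr⟩
  have h4 := MAltDet.one hAltBasic B A C (asw x) (asw x') v u v' u' k h3 h1 h2 hk ha hv
  have h5 := congrArg asw h4
  exact h5

end TPH
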