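import Pool.Agent.TPH.St5
import Pool.Agent.TPH.Closed

/-!
# Module AltDrop: all but linearly many alternations are good
-/

namespace TPH

namespace MAltDrop

theorem inR_symm {A B : Finset E} {c u : E} (h : InR A B c u) : InR B A c u := by
  intro b hb a ha
  have := h a ha b hb
  linarith

theorem asw_asw (x : Al) : asw (asw x) = x := rfl

theorem mem_alts {A B C : Finset E} {x : Al} : x ∈ alts A B C ↔
    x ∈ ((A ×ˢ A.powerset) ×ˢ (B ×ˢ B.powerset) ×ˢ C) ∧ ∃ u v, IsAlt A B C x u v := by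
  exact @Finset.mem_filter _ _ (Classical.decPred _) _ _

theorem asw_mem {A B C : Finset E} {x : Al} (hAltBasic : StmtAltBasic) (hx : x ∈ alts A B C) :
    asw x ∈ alts B A C := by
  rw [mem_alts] at hx ⊢
  obtain ⟨h1, u, v, h2⟩ := hx
  refine ⟨?_, v, u, (hAltBasic A B C x u v h2).2.2.2.2.2.2.2.2.2⟩
  simp only [Finset.mem_product] at h1 ⊢
  exact ⟨h1.2.1, h1.1, h1.2.2⟩

/-- The bad alternations, on one side. -/
theorem side {A B C : Finset E} {x : Al} {u v : E} (hAltBasic : StmtAltBasic)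
    (hPosExit : StmtPosExit) (hA : 3 ≤ A.card) (hC : 3 ≤ C.card)
    (hx : x ∈ alts A B C) (hal : IsAlt A B C x u v) (h1 : x ∉ AD1 A B C) (h2 : x ∉ AD2 A B C)
    (h3 : x ∉ AD3 A B C) : ∃ z c', HF A B C x.1.2 x.2.2 c' u z := by
  have hp := (hAltBasic A B C x u v hal).1
  have r1 : ∀ a ∈ x.1.2, Reg A C a x.2.2 := by
    intro a ha
    by_contra hr
    exact h1 ((@Finset.mem_filter _ _ (Classical.decPred _) _ _).2 ⟨hx, a, ha, hr⟩)
  have r3 : ∃ r, InR A B x.2.2 r ∧ Perp x.1.2 r := by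
    by_contra hr
    push Not at hr
    exact h3 ((@Finset.mem_filter _ _ (Classical.decPred _) _ _).2 ⟨hx, r1, hr⟩)
  have r2 : ∀ v, InR A B x.2.2 v → Perp x.1.2 v → Mx A v = x.1.2 := by
    by_contra hr
    exact h2 ((@Finset.mem_filter _ _ (Classical.decPred _) _ _).2 ⟨hx, r1, r3, hr⟩)
  exact hPosExit A B C x.1.2 x.2.2 u hA hC hp r1 r3 r2

end MAltDrop

open MAltDrop in
theorem t_AltDrop (hAltBasic : StmtAltBasic) (hAD1 : StmtAD1) (hAD2 : StmtAD2)
    (hAD3 : StmtAD3) (hPosExit : StmtPosExit) : StmtAltDrop := by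
  classical
  intro A B C hA hB hC hr
  have hr' : ∀ c ∈ C, ∃ r, InR B A c r := fun c hc => by
    obtain ⟨r, h⟩ := hr c hc
    exact ⟨r, inR_symm h⟩
  have hsub : alts A B C ⊆ AGF A B C ∪ ((AD1 A B C ∪ (AD2 A B C ∪ AD3 A B C)) ∪
      ((AD1 B A C ∪ (AD2 B A C ∪ AD3 B A C)).image asw)) := by
    intro x hx
    by_contra hn
    simp only [Finset.mem_union, Finset.mem_image, not_or, not_exists, not_and] at hn
    obtain ⟨g, ⟨a1, a2, a3⟩, b⟩ := hn
    have b' : asw x ∉ AD1 B A C ∧ asw x ∉ AD2 B A C ∧ asw x ∉ AD3 B A C := by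
      refine ⟨fun h => b (asw x) ?_ (asw_asw x), fun h => b (asw x) ?_ (asw_asw x),
        fun h => b (asw x) ?_ (asw_asw x)⟩
      · exact Or.inl h
      · exact Or.inr (Or.inl h)
      · exact Or.inr (Or.inr h)
    obtain ⟨u, v, hal⟩ := (mem_alts.1 hx).2
    have hal' := (hAltBasic A B C x u v hal).2.2.2.2.2.2.2.2.2
    obtain ⟨z, c₁, hf⟩ := side hAltBasic hPosExit hA hC hx hal a1 a2 a3
    obtain ⟨y, c₂, hg⟩ := side hAltBasic hPosExit hB hC (asw_mem hAltBasic hx) hal' b'.1 b'.2.1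
      b'.2.2
    refine g ?_
    exact (@Finset.mem_filter _ _ (Classical.decPred _) _ _).2
      ⟨hx, u, v, z, y, c₁, c₂, ⟨hal, hf, hg⟩⟩
  have c1 := Finset.card_le_card hsub
  have c2 := Finset.card_union_le (AGF A B C) ((AD1 A B C ∪ (AD2 A B C ∪ AD3 A B C)) ∪
      ((AD1 B A C ∪ (AD2 B A C ∪ AD3 B A C)).image asw))
  have c3 := Finset.card_union_le (AD1 A B C ∪ (AD2 A B C ∪ AD3 A B C))
      ((AD1 B A C ∪ (AD2 B A C ∪ AD3 B A C)).image asw)
  have c4 := Finset.card_union_le (AD1 A B C) (AD2 A B C ∪ AD3 A B C)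
  have c5 := Finset.card_union_le (AD2 A B C) (AD3 A B C)
  have c6 := Finset.card_image_le (s := AD1 B A C ∪ (AD2 B A C ∪ AD3 B A C)) (f := asw)
  have c7 := Finset.card_union_le (AD1 B A C) (AD2 B A C ∪ AD3 B A C)
  have c8 := Finset.card_union_le (AD2 B A C) (AD3 B A C)
  have d1 := hAD1 A B C hA hr
  have d2 := hAD2 A B C hA hC
  have d3 := hAD3 A B C hA hC hr
  have d4 := hAD1 B A C hB hr'
  have d5 := hAD2 B A C hB hC
  have d6 := hAD3 B A C hB hC hr'
  omega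

end TPH
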