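import Pool.Agent.TPH.St5
import Pool.Agent.TPH.Closed

/-!
# The key lemma for alternations
-/

namespace TPH

namespace MAltKey

/-- The first alternative of the key lemma. -/
theorem key1 (hAltSigns : StmtAltSigns) (hAltKeyI : StmtAltKeyI) (hAltKeyII : StmtAltKeyII)
    (A B C : Finset E) (x₁ x₂ : Al) (u₁ v₁ z₁ y₁ u₂ v₂ z₂ y₂ c' : E) (σ : ℝ)
    (hA : 3 ≤ A.card) (hB : 3 ≤ B.card) (hC : 3 ≤ C.card)
    (h₁ : AGD A B C x₁ u₁ v₁ z₁ y₁ c' c') (h₂ : AGD A B C x₂ u₂ v₂ z₂ y₂ c' c')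
    (hc : x₂.2.2 = x₁.2.2) (hσ : σ = 1 ∨ σ = -1)
    (hzy : 0 ≤ σ * det3 (x₁.2.2 - c') z₁ y₁)
    (hz : 0 < σ * det3 (x₁.2.2 - c') z₁ z₂) (hy : 0 < σ * det3 (x₁.2.2 - c') y₁ y₂)
    (hG : Good A B x₁.2.2 z₁ u₁ z₂ u₂) (hG' : Good B A x₁.2.2 y₁ v₁ y₂ v₂)
    (hT : ip (Tv x₂) z₁ < 0) (hT' : ip (Tv x₂) y₁ < 0) :
    ACrs A B x₁ x₂ ∨ ACrs A B x₂ x₁ := by
  by_contra hcon
  have hn1 : ¬ ACrs A B x₁ x₂ := fun h => hcon (Or.inl h)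
  have hn2 : ¬ ACrs A B x₂ x₁ := fun h => hcon (Or.inr h)
  obtain ⟨-, -, hs⟩ := hAltSigns A B C x₁ u₁ v₁ z₁ y₁ c' c' h₁
  by_cases hI : σ * det3 z₁ v₁ u₁ < 0 ∨ ACrs A B x₁ x₁
  · exact hAltKeyI A B C x₁ x₂ u₁ v₁ z₁ y₁ u₂ v₂ z₂ y₂ c' σ hA hC h₁ h₂ hc hσ hzy hy hT hG' hI hn1
  · have hI1 : ¬ σ * det3 z₁ v₁ u₁ < 0 := fun h => hI (Or.inl h)
    have hI2 : ¬ ACrs A B x₁ x₁ := fun h => hI (Or.inr h)
    have hne : det3 z₁ v₁ u₁ ≠ 0 := fun h => by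
      rw [h, zero_mul] at hs
      exact lt_irrefl _ hs
    have hσ0 : σ ≠ 0 := by
      rcases hσ with h | h <;> rw [h] <;> norm_num
    have hpos : 0 < σ * det3 z₁ v₁ u₁ :=
      lt_of_le_of_ne (not_lt.mp hI1) (Ne.symm (mul_ne_zero hσ0 hne))
    exact hAltKeyII A B C x₁ x₂ u₁ v₁ z₁ y₁ u₂ v₂ z₂ y₂ c' σ hB hC h₁ h₂ hc hσ hz hT' hG hpos hI2 hn2

theorem Tv_asw (x : Al) : Tv (asw x) = Tv x := by
  unfold Tv asw
  exact sub_right_comm _ _ _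

theorem agd_asw (hAltBasic : StmtAltBasic) {A B C : Finset E} {x : Al} {u v z y c₁ c₂ : E}
    (h : AGD A B C x u v z y c₁ c₂) : AGD B A C (asw x) v u y z c₂ c₁ := by
  obtain ⟨-, -, -, -, -, -, -, -, -, hal⟩ := hAltBasic A B C x u v h.al
  exact ⟨hal, h.hB, h.hA⟩

theorem acrs_asw {A B : Finset E} {x x' : Al} (hc : x'.2.2 = x.2.2)
    (h : ACrs B A (asw x) (asw x')) : ACrs A B x' x := by
  obtain ⟨r, hr, hp, hp'⟩ := h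
  refine ⟨r, ?_, hp', hp⟩
  rw [hc]
  exact inR_comm.1 hr

end MAltKey

open MAltKey in
theorem t_AltKey (hAltBasic : StmtAltBasic) (hAltSigns : StmtAltSigns) (hAltKeyI : StmtAltKeyI)
    (hAltKeyII : StmtAltKeyII) : StmtAltKey := by
  intro A B C x₁ x₂ u₁ v₁ z₁ y₁ u₂ v₂ z₂ y₂ c' σ hA hB hC h₁ h₂ hc hσ hzy hzy' hz hy hG hG' hT
  rcases hT with ⟨hT, hT'⟩ | ⟨hT, hT'⟩
  · exact key1 hAltSigns hAltKeyI hAltKeyII A B C x₁ x₂ u₁ v₁ z₁ y₁ u₂ v₂ z₂ y₂ c' σ hA hB hC h₁ h₂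
      hc hσ hzy hz hy hG hG' hT hT'
  · have hc' : (asw x₂).2.2 = x₁.2.2 := hc
    have hc2 : (asw x₁).2.2 = (asw x₂).2.2 := hc.symm
    have hσ' : -σ = 1 ∨ -σ = -1 := by
      rcases hσ with h | h
      · exact Or.inr (by rw [h])
      · exact Or.inl (by rw [h, neg_neg])
    have key := key1 hAltSigns hAltKeyI hAltKeyII B A C (asw x₂) (asw x₁) v₂ u₂ y₂ z₂ v₁ u₁ y₁ z₁ c'
      (-σ) hB hA hC (agd_asw hAltBasic h₂) (agd_asw hAltBasic h₁) hc2 hσ'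
      (by rw [hc', det3_swap23, neg_mul_neg]; exact hzy')
      (by rw [hc', det3_swap23, neg_mul_neg]; exact hy)
      (by rw [hc', det3_swap23, neg_mul_neg]; exact hz)
      (by rw [hc']; exact Good_swap.1 hG')
      (by rw [hc']; exact Good_swap.1 hG)
      (by rw [Tv_asw]; exact hT')
      (by rw [Tv_asw]; exact hT)
    rcases key with h | h
    · exact Or.inl (acrs_asw hc.symm h)
    · exact Or.inr (acrs_asw hc h)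

end TPH
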