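import Pool.Agent.TPH.St5
import Pool.Agent.TPH.Closed

set_option autoImplicit false

/-!
# Three parallel hyperplanes: first case of the key lemma for alternations
-/

namespace TPH

namespace MAltKeyI

/-- A positive sign in the plane of `w`, read at a point `p` on the side of `c`. -/
theorem sgn_pos {w s t p : E} {σ : ℝ} (hs : ip w s = 0) (ht : ip w t = 0) (hp : 0 < ip w p)
    (h : 0 < σ * det3 w s t) : 0 < σ * det3 s t p := by
  have hw : w ≠ 0 := by rintro rfl; rw [ip_zero_left] at hp; exact lt_irrefl _ hp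
  have hww := ip_self_pos hw
  have h1 := HF.sign_aux hs ht p
  by_contra hcon
  push Not at hcon
  have h2 : σ * det3 s t p * ip w w = σ * det3 w s t * ip w p := by
    rw [mul_assoc, h1, mul_assoc]
  have h3 := mul_pos h hp
  have h4 := mul_nonpos_of_nonpos_of_nonneg hcon hww.le
  linarith

/-- The same for a nonnegative sign. -/
theorem sgn_nonneg {w s t p : E} {σ : ℝ} (hs : ip w s = 0) (ht : ip w t = 0) (hp : 0 < ip w p)
    (h : 0 ≤ σ * det3 w s t) : 0 ≤ σ * det3 s t p := by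
  have hw : w ≠ 0 := by rintro rfl; rw [ip_zero_left] at hp; exact lt_irrefl _ hp
  have hww := ip_self_pos hw
  have h1 := HF.sign_aux hs ht p
  by_contra hcon
  push Not at hcon
  have h2 : σ * det3 s t p * ip w w = σ * det3 w s t * ip w p := by
    rw [mul_assoc, h1, mul_assoc]
  have h3 := mul_nonneg h hp.le
  have h4 := mul_neg_of_neg_of_pos hcon hww
  linarith

/-- The order of two half flats, with a sign. -/
theorem order_neg (hOrder : StmtOrder) {A B C e₁ e₂ : Finset E} {c c' u₁ z₁ u₂ z₂ : E} {σ : ℝ}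
    (h1 : HF A B C e₁ c c' u₁ z₁) (h2 : HF A B C e₂ c c' u₂ z₂) (hσ : σ = 1 ∨ σ = -1)
    (h : 0 < σ * det3 (c - c') z₁ z₂) : σ * det3 z₂ u₁ u₂ < 0 := by
  rcases hσ with rfl | rfl
  · have h' : 0 < det3 (c - c') z₁ z₂ := by linarith
    have := (hOrder A B C e₁ e₂ c c' u₁ z₁ u₂ z₂ h1 h2 h').1
    linarith
  · have h' : 0 < det3 (c - c') z₂ z₁ := by rw [det3_swap23]; linarith
    have := (hOrder A B C e₂ e₁ c c' u₂ z₂ u₁ z₁ h2 h1 h').2.2.1
    linarith

/-- Comparison of values at `z`. -/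
theorem values {B : Finset E} {z₁ y₁ y₂ b₂ b : E} {κ μ α β : ℝ} (hκ : 0 < κ) (hμ : 0 ≤ μ)
    (hy : y₁ = κ • z₁ + μ • y₂) (hb₂ : b₂ ∈ Mx B y₂) (hα : 0 < α) (hβ : 0 ≤ β)
    (hb : b ∈ Mx B (α • y₁ + β • y₂)) : ip b₂ z₁ ≤ ip b z₁ := by
  have h4 := Mx_le hb (Mx_subset _ _ hb₂)
  have h5 := Mx_le hb₂ (Mx_subset _ _ hb)
  rw [hy] at h4
  simp only [ip_add_right, ip_smul_right] at h4
  have h7 : 0 ≤ (α * μ + β) * (ip b₂ y₂ - ip b y₂) :=
    mul_nonneg (by positivity) (by linarith)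
  have h8 : 0 < α * κ := mul_pos hα hκ
  by_contra hcon
  push Not at hcon
  have h9 : (α * κ) * (ip b z₁ - ip b₂ z₁) < 0 :=
    mul_neg_of_pos_of_neg h8 (by linarith)
  nlinarith

end MAltKeyI

open MAltKeyI in
theorem t_AltKeyI (hAltBasic : StmtAltBasic) (hAlpha : StmtAlpha) (hAltSide : StmtAltSide)
    (hAltSigns : StmtAltSigns) (hArc : StmtArc) : StmtAltKeyI := by
  intro A B C x₁ x₂ u₁ v₁ z₁ y₁ u₂ v₂ z₂ y₂ c' σ hA hC g₁ g₂ hc hσ hzy hyy hT hgood hcase hncr
  have hA₁ := g₁.hA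
  have hB₁ := g₁.hB
  have hB₂ := g₂.hB
  rw [hc] at hB₂
  -- the point `(*)`
  obtain ⟨κ, μ, hκ0, hμ, -, hy, -, hκ1⟩ := (hArc C x₁.2.2 c' z₁ y₁ y₂ σ hC hA₁.ne hσ hA₁.cz hB₁.cz
    hB₂.cz).2 hzy hyy.le
  have hκ : 0 < κ := (hκ1 hyy).2
  have hb₂ : x₂.2.1.1 ∈ Mx B y₂ := by rw [hB₂.ez]; exact g₂.al.bf
  have hval : ∀ {α β : ℝ} {b : E}, 0 < α → 0 ≤ β → b ∈ Mx B (α • y₁ + β • y₂) →
      ip x₂.2.1.1 z₁ ≤ ip b z₁ := fun hα hβ hb => values hκ hμ hy hb₂ hα hβ hb
  have hval1 : ∀ {b : E}, b ∈ x₁.2.1.2 → ip x₂.2.1.1 z₁ ≤ ip b z₁ := by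
    intro b hb
    refine hval (α := 1) (β := 0) one_pos le_rfl ?_
    rw [one_smul, zero_smul, add_zero, hB₁.ez]
    exact hb
  obtain ⟨hT₁z, hT₁y, hopp⟩ := hAltSigns A B C x₁ u₁ v₁ z₁ y₁ c' c' g₁
  refine TPH.Closed.c_t_Escape A B C x₁.1.2 x₁.2.2 c' u₁ z₁ (ip x₂.2.1.1 z₁) hA hA₁ ?_ ?_
  · intro v hv hpv b hb
    obtain ⟨α, β, hα, hβ, hve⟩ := hAlpha A B C x₁.1.2 x₁.2.2 c' u₁ z₁ v hA hA₁ hv hpv
    -- `(1)`
    have hyy1 : 0 < σ * det3 y₁ y₂ v₁ := sgn_pos hB₁.wz hB₂.wz hB₁.wu hyy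
    have hyy2 : 0 < σ * det3 y₁ y₂ v₂ := sgn_pos hB₁.wz hB₂.wz hB₂.wu hyy
    have hff : x₁.2.1.2 ≠ x₂.2.1.2 := by
      intro he
      have hp : Perp x₁.2.1.2 y₂ := by rw [he]; exact hB₂.perp_z
      rw [(hB₁.perp_iff y₂).mp hp, mul_zero] at hyy1
      exact lt_irrefl _ hyy1
    have hord : σ * det3 y₂ v₁ v₂ < 0 :=
      order_neg TPH.Closed.c_t_Order hB₁ hB₂ hσ hyy
    have hswp : IsAlt B A C (asw x₁) v₁ u₁ :=
      (hAltBasic A B C x₁ u₁ v₁ g₁.al).2.2.2.2.2.2.2.2.2
    have hside : 0 < det3 y₂ v₁ v₂ * det3 y₂ u₁ v₂ :=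
      hAltSide B A C (asw x₁) v₁ u₁ x₂.2.1.2 c' v₂ y₂ hswp hB₂ hff
    have hu₁ : σ * det3 y₂ u₁ v₂ < 0 := by
      rcases hσ with rfl | rfl
      · by_contra hcon
        push Not at hcon
        have h1 := mul_nonpos_of_nonpos_of_nonneg (a := det3 y₂ v₁ v₂) (b := det3 y₂ u₁ v₂)
          (by linarith) (by linarith)
        linarith
      · by_contra hcon
        push Not at hcon
        have h1 := mul_nonpos_of_nonneg_of_nonpos (a := det3 y₂ v₁ v₂) (b := det3 y₂ u₁ v₂)
          (by linarith) (by linarith)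
        linarith
    have h1 : σ * det3 y₂ v v₂ < 0 := by
      by_contra hcon
      push Not at hcon
      apply hncr
      refine ⟨(-(σ * det3 y₂ u₁ v₂)) • v + (σ * det3 y₂ v v₂) • u₁,
        InR.comb (by linarith) hcon hv hA₁.clo, Perp.comb _ _ hpv hA₁.perp_u, ?_⟩
      rw [hB₂.perp_iff, det3_add2, det3_smul2, det3_smul2]
      ring
    have hlun : 0 < σ * det3 y₁ v v₁ → Lune y₁ v₁ y₂ v₂ v := by
      intro h
      have h3 : det3 y₂ y₁ v₂ = - det3 y₁ y₂ v₂ := det3_swap12 y₁ y₂ v₂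
      rcases hσ with rfl | rfl
      · exact ⟨mul_pos (by linarith) (by linarith), mul_pos_of_neg_of_neg (by linarith)
          (by linarith)⟩
      · exact ⟨mul_pos_of_neg_of_neg (by linarith) (by linarith), mul_pos (by linarith)
          (by linarith)⟩
    rcases lt_trichotomy (σ * det3 y₁ v v₁) 0 with h2 | h2 | h2
    · -- `(4)`
      have hA : ¬ σ * det3 z₁ v₁ u₁ < 0 := by
        intro hn
        have hpos : 0 < σ * det3 y₁ u₁ v₁ := by
          rcases hσ with rfl | rfl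
          · by_contra hcon
            push Not at hcon
            have h3 := mul_nonneg_of_nonpos_of_nonpos (a := det3 z₁ v₁ u₁)
              (b := det3 y₁ u₁ v₁) (by linarith) (by linarith)
            linarith
          · by_contra hcon
            push Not at hcon
            have h3 := mul_nonneg (a := det3 z₁ v₁ u₁)
              (b := det3 y₁ u₁ v₁) (by linarith) (by linarith)
            linarith
        have hzy1 : 0 ≤ σ * det3 z₁ y₁ v₁ := sgn_nonneg hA₁.wz hB₁.wz hB₁.wu hzy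
        have h3 : det3 y₁ z₁ v₁ = - det3 z₁ y₁ v₁ := det3_swap12 z₁ y₁ v₁
        have h4 : σ * det3 y₁ v v₁ = α * (σ * det3 y₁ u₁ v₁) + (-β) * (σ * det3 z₁ y₁ v₁) := by
          rw [hve, det3_add2, det3_smul2, det3_smul2, h3]
          ring
        have h5 := mul_pos hα hpos
        have h6 := mul_nonneg (neg_pos.mpr hβ).le hzy1
        linarith
      rcases hcase with hcase | hcase
      · exact absurd hcase hA
      obtain ⟨p, hp, hpe, hpf⟩ := hcase
      have hne0 : σ * det3 y₁ u₁ v₁ < 0 := by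
        rcases hσ with rfl | rfl
        · by_contra hcon
          push Not at hcon
          push Not at hA
          have h3 := mul_nonneg (a := det3 z₁ v₁ u₁)
            (b := det3 y₁ u₁ v₁) (by linarith) (by linarith)
          linarith
        · by_contra hcon
          push Not at hcon
          push Not at hA
          have h3 := mul_nonneg_of_nonpos_of_nonpos (a := det3 z₁ v₁ u₁)
            (b := det3 y₁ u₁ v₁) (by linarith) (by linarith)
          linarith
      have hcr : cr u₁ p ≠ 0 := by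
        intro h0
        obtain ⟨k, hk⟩ := par_of_cr hA₁.u_ne h0
        rw [hk] at hp
        exact hA₁.out k hp
      obtain ⟨r, q, hvp⟩ := perp_comb hA₁.card hA₁.perp_u hpe hcr hpv
      have hp0 : det3 y₁ p v₁ = 0 := (hB₁.perp_iff p).mp hpf
      have h3 : σ * det3 y₁ v v₁ = r * (σ * det3 y₁ u₁ v₁) := by
        rw [hvp, det3_add2, det3_smul2, det3_smul2, hp0]
        ring
      have hr : 0 < r := by
        by_contra hcon
        push Not at hcon
        have := mul_nonneg_of_nonpos_of_nonpos hcon hne0.le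
        linarith
      have hq : 0 ≤ q := by
        by_contra hcon
        push Not at hcon
        apply hA₁.out r
        have h4 : r • u₁ = (1 : ℝ) • v + (-q) • p := by
          rw [hvp, one_smul, neg_smul]
          abel
        rw [h4]
        exact InR.comb one_pos (by linarith) hv hp.le
      have hMp : Mx B p = x₁.2.1.2 := hB₁.full p (inR_comm.mp hp) hpf
      have hMv : Mx B v = {x₁.2.1.1} := by
        rw [hvp]
        refine Mx_comb_left hr hq (Finset.singleton_nonempty _) g₁.al.ub ?_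
        rw [hMp, Finset.singleton_subset_iff]
        exact g₁.al.bf
      rw [hMv, Finset.mem_singleton] at hb
      rw [hb]
      exact hval1 g₁.al.bf
    · -- `(3)`
      have h3 : det3 y₁ v v₁ = 0 := by
        rcases hσ with rfl | rfl
        · linarith
        · linarith
      have hpf := (hB₁.perp_iff v).mpr h3
      have hM := hB₁.full v (inR_comm.mp hv) hpf
      rw [hM] at hb
      exact hval1 hb
    · -- `(2)`
      obtain ⟨r, s, hr, hs, hM⟩ := hgood v (inR_comm.mp hv) (hlun h2) b hb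
      refine hval hr hs.le ?_
      rw [hM]
      exact Finset.mem_singleton_self b
  · refine ⟨x₁.1.1, g₁.al.ae, ?_⟩
    have ha₂ : x₂.1.1 ∈ A := by
      have : x₂.1.1 ∈ Mx A u₂ := by rw [g₂.al.ua]; exact g₂.al.ae
      exact Mx_subset _ _ this
    have ha₁ : x₁.1.1 ∈ Mx A z₁ := by rw [hA₁.ez]; exact g₁.al.ae
    have hle := Mx_le ha₁ ha₂
    simp only [Tv, ip_sub_left, ip_smul_left] at hT
    rw [hc] at hT
    linarith

end TPH
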