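import Pool.Agent.TPH.St5
import Pool.Agent.TPH.Closed

set_option autoImplicit false

/-!
# Three parallel hyperplanes: alternations, the second case of the key lemma
-/

namespace TPH

namespace MAltKeyII

/-- the sign is constant along a segment on which the linear function does not vanish -/
theorem seg_pos {p q σ : ℝ} (hp : 0 < σ * p)
    (h : ∀ α β : ℝ, 0 ≤ α → 0 < β → β * q + α * p ≠ 0) : 0 < σ * q := by
  by_contra hcon
  push Not at hcon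
  exact h (-(σ * q)) (σ * p) (by linarith) hp (by ring)

theorem seg_neg {p q σ : ℝ} (hp : σ * p < 0)
    (h : ∀ α β : ℝ, 0 ≤ α → 0 < β → β * q + α * p ≠ 0) : σ * q < 0 := by
  by_contra hcon
  push Not at hcon
  exact h (σ * q) (-(σ * p)) hcon (by linarith) (by ring)

/-- comparison of a maximiser with another point, along a ray of the arc -/
theorem compare {A : Finset E} {a a' s t y z : E} {κ μ : ℝ} (hκ : 0 < κ) (hμ : 0 ≤ μ)
    (hs : s = κ • y + μ • z) (ha : a ∈ Mx A s) (ha' : a' ∈ Mx A z) (ht : t = y) :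
    ip a' t ≤ ip a t := by
  subst ht
  have h1 := Mx_le ha (Mx_subset _ _ ha')
  have h2 := Mx_le ha' (Mx_subset _ _ ha)
  rw [hs] at h1
  simp only [ip_add_right, ip_smul_right] at h1
  have h3 : 0 ≤ μ * (ip a' z - ip a z) := mul_nonneg hμ (by linarith)
  have h4 : 0 ≤ κ * (ip a t - ip a' t) := by linarith
  have h5 : 0 ≤ ip a t - ip a' t := nonneg_of_mul_nonneg_right h4 hκ
  linarith

/-- the sign of the order of the exits, in terms of the functionals of the half flats -/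
theorem order_sign {A B C e₁ e₂ : Finset E} {c c' u₁ z₁ u₂ z₂ : E} {σ : ℝ}
    (hσ : σ = 1 ∨ σ = -1) (h₁ : HF A B C e₁ c c' u₁ z₁) (h₂ : HF A B C e₂ c c' u₂ z₂)
    (hzz : 0 < σ * det3 (c - c') z₁ z₂) :
    0 < σ * det3 z₁ z₂ u₁ ∧ σ * det3 z₂ z₁ u₂ < 0 ∧ σ * det3 z₂ u₁ u₂ < 0 := by
  have e1 := HF.sign_iff h₁.wz h₂.wz h₁.wu
  have e2 := HF.sign_iff h₂.wz h₁.wz h₂.wu
  have hsw : det3 (c - c') z₂ z₁ = -det3 (c - c') z₁ z₂ := det3_swap23 _ _ _
  rcases hσ with rfl | rfl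
  · rw [one_mul] at hzz
    have ho := Closed.c_t_Order A B C e₁ e₂ c c' u₁ z₁ u₂ z₂ h₁ h₂ hzz
    have g1 := e1.1.mpr hzz
    have g2 := e2.2.1.mpr (by rw [hsw]; linarith)
    refine ⟨by linarith, by linarith, by linarith [ho.1]⟩
  · have hzz' : det3 (c - c') z₁ z₂ < 0 := by linarith
    have hzz2 : 0 < det3 (c - c') z₂ z₁ := by rw [hsw]; linarith
    have ho := Closed.c_t_Order A B C e₂ e₁ c c' u₂ z₂ u₁ z₁ h₂ h₁ hzz2
    have g1 := e1.2.1.mpr hzz'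
    have g2 := e2.1.mpr hzz2
    refine ⟨by linarith, by linarith, by linarith [ho.2.2.1]⟩

end MAltKeyII

open MAltKeyII in
theorem t_AltKeyII (hAltBasic : StmtAltBasic) (hAltSide : StmtAltSide)
    (hAltSigns : StmtAltSigns) (hArc : StmtArc) : StmtAltKeyII := by
  have _ := hAltBasic
  intro A B C x₁ x₂ u₁ v₁ z₁ y₁ u₂ v₂ z₂ y₂ c' σ hBc hC h₁ h₂ hcc hσ hzz hT₂ hgood hdv hn11 hn21
  obtain ⟨⟨a₁, e₁⟩, ⟨b₁, f₁⟩, c⟩ := x₁
  obtain ⟨⟨a₂, e₂⟩, ⟨b₂, f₂⟩, cc⟩ := x₂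
  simp only at hcc
  subst hcc
  have hs₁ := hAltSigns A B C _ u₁ v₁ z₁ y₁ c' c' h₁
  have hT₁ : ip (Tv ((a₁, e₁), (b₁, f₁), cc)) y₁ < 0 := hs₁.2.1
  have hA₁ : HF A B C e₁ cc c' u₁ z₁ := h₁.hA
  have hB₁ : HF B A C f₁ cc c' v₁ y₁ := h₁.hB
  have hA₂ : HF A B C e₂ cc c' u₂ z₂ := h₂.hA
  have hB₂ : HF B A C f₂ cc c' v₂ y₂ := h₂.hB
  have ha₁ : a₁ ∈ e₁ := h₁.al.ae
  have ha₂ : a₂ ∈ e₂ := h₂.al.ae
  have hb₁ : b₁ ∈ f₁ := h₁.al.bf
  have hb₂ : b₂ ∈ f₂ := h₂.al.bf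
  simp only at hzz hgood hdv
  simp only [Tv, ip_sub_left, ip_smul_left] at hT₁ hT₂
  have hb₂B : b₂ ∈ B := Mx_subset B y₂ (hB₂.ez ▸ hb₂)
  have hbb : ip b₂ y₁ ≤ ip b₁ y₁ := Mx_le (hB₁.ez ▸ hb₁ : b₁ ∈ Mx B y₁) hb₂B
  obtain ⟨k1, k2, k3⟩ := order_sign hσ hA₁ hA₂ hzz
  -- the edges are different
  have hne : e₁ ≠ e₂ := by
    intro h0
    have hp : Perp e₂ u₁ := h0 ▸ hA₁.perp_u
    rw [hA₂.perp_iff] at hp
    rw [hp, mul_zero] at k3
    exact lt_irrefl _ k3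
  have hside := hAltSide A B C _ u₁ v₁ e₂ c' u₂ z₂ h₁.al hA₂ hne
  have k4 : σ * det3 z₂ v₁ u₂ < 0 := by
    by_contra hcon
    push Not at hcon
    have h5 := mul_nonpos_of_nonpos_of_nonneg k3.le hcon
    have h6 : σ * det3 z₂ u₁ u₂ * (σ * det3 z₂ v₁ u₂) =
        (σ * σ) * (det3 z₂ u₁ u₂ * det3 z₂ v₁ u₂) := by ring
    have h7 : σ * σ = 1 := by rcases hσ with rfl | rfl <;> norm_num
    rw [h6, h7, one_mul] at h5
    linarith
  refine Closed.c_t_Escape B A C f₁ cc c' v₁ y₁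
    (min (ip a₁ y₁) (ip a₂ y₁ + ip b₂ y₁ - ip b₁ y₁)) hBc hB₁ ?_ ⟨b₁, hb₁, ?_⟩
  · intro v hv hpv a ha
    have hin : ∀ α β : ℝ, 0 ≤ α → 0 < β → InR A B cc (β • v + α • v₁) ∧
        Perp f₁ (β • v + α • v₁) := by
      intro α β hα hβ
      exact ⟨inR_comm.mp (InR.comb hβ hα hv hB₁.clo), Perp.comb β α hpv hB₁.perp_u⟩
    -- (1)
    have l1 : 0 < σ * det3 z₁ v u₁ := by
      refine seg_pos hdv (fun α β hα hβ h0 => ?_)
      obtain ⟨i1, i2⟩ := hin α β hα hβ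
      refine hn11 ⟨β • v + α • v₁, i1, ?_, i2⟩
      show Perp e₁ (β • v + α • v₁)
      rw [hA₁.perp_iff, det3_add2, det3_smul2, det3_smul2]
      exact h0
    -- (2)
    have l2 : σ * det3 z₂ v u₂ < 0 := by
      refine seg_neg k4 (fun α β hα hβ h0 => ?_)
      obtain ⟨i1, i2⟩ := hin α β hα hβ
      refine hn21 ⟨β • v + α • v₁, i1, ?_, i2⟩
      show Perp e₂ (β • v + α • v₁)
      rw [hA₂.perp_iff, det3_add2, det3_smul2, det3_smul2]
      exact h0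
    -- (3)
    have h7 : σ * σ = 1 := by rcases hσ with rfl | rfl <;> norm_num
    have hl : Lune z₁ u₁ z₂ u₂ v := by
      constructor
      · have := mul_pos k1 l1
        have e : σ * det3 z₁ z₂ u₁ * (σ * det3 z₁ v u₁) =
          (σ * σ) * (det3 z₁ z₂ u₁ * det3 z₁ v u₁) := by ring
        rw [e, h7, one_mul] at this
        exact this
      · have := mul_pos_of_neg_of_neg k2 l2
        have e : σ * det3 z₂ z₁ u₂ * (σ * det3 z₂ v u₂) =
          (σ * σ) * (det3 z₂ z₁ u₂ * det3 z₂ v u₂) := by ring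
        rw [e, h7, one_mul] at this
        exact this
    obtain ⟨α, β, hα, hβ, hs⟩ := hgood v (inR_comm.mp hv) hl a ha
    obtain ⟨s, hsdef⟩ : ∃ s, s = α • z₁ + β • z₂ := ⟨_, rfl⟩
    rw [← hsdef] at hs
    have has : a ∈ Mx A s := by rw [hs]; exact Finset.mem_singleton_self a
    have hCs : Mx C s = {cc, c'} := by
      rw [hsdef]
      exact Mx_comb_left hα hβ.le ⟨cc, by simp⟩ hA₁.cz (by rw [hA₂.cz])
    have m1 : 0 < σ * det3 (cc - c') z₁ s := by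
      rw [hsdef, det3_add3, det3_smul3, det3_smul3, det3_self23, mul_zero, zero_add]
      have := mul_pos hβ hzz
      linarith
    have m2 : 0 < σ * det3 (cc - c') s z₂ := by
      rw [hsdef, det3_add2, det3_smul2, det3_smul2, det3_self23, mul_zero, add_zero]
      have := mul_pos hα hzz
      linarith
    have ha₁z : a₁ ∈ Mx A z₁ := hA₁.ez ▸ ha₁
    have ha₂z : a₂ ∈ Mx A z₂ := hA₂.ez ▸ ha₂
    rcases le_or_gt 0 (σ * det3 (cc - c') y₁ s) with h0 | h0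
    · obtain ⟨κ, μ, hκ, hμ, -, he, -, hk⟩ :=
        (hArc C cc c' y₁ s z₂ σ hC hA₁.ne hσ hB₁.cz hCs hA₂.cz).2 h0 m2.le
      have hκ' := (hk m2).2
      have h8 := compare hκ' hμ he has ha₂z rfl
      exact (min_le_right _ _).trans (by linarith)
    · have h0' : 0 < σ * det3 (cc - c') s y₁ := by
        rw [det3_swap23]; linarith
      obtain ⟨κ, μ, hκ, hμ, -, he, hk, -⟩ :=
        (hArc C cc c' z₁ s y₁ σ hC hA₁.ne hσ hA₁.cz hCs hB₁.cz).2 m1.le h0'.le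
      have hμ' := (hk m1).2
      have h8 := compare hμ' hκ (by rw [he]; abel) has ha₁z rfl
      exact (min_le_left _ _).trans h8
  · rcases min_choice (ip a₁ y₁) (ip a₂ y₁ + ip b₂ y₁ - ip b₁ y₁) with h | h <;> rw [h] <;> linarith

end TPH
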