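import Pool.Agent.TPH.St6
import Pool.Agent.TPH.Closed

/-!
# Three parallel hyperplanes: the data of the main alternations exist
-/

namespace TPH

namespace MAltMDex

/-- In a class, if the exits and the positions of two main alternations agree up to positive
multiples, then the points of `A` on the other side agree. -/
theorem a_eq (hAltBasic : StmtAltBasic) {A B C : Finset E} {x x' : Al}
    {u v z y c₁ c₂ u' v' z' y' c₁' c₂' : E} {k k' : ℝ} (g : AGD A B C x u v z y c₁ c₂)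
    (g' : AGD A B C x' u' v' z' y' c₁' c₂') (he : x'.1.2 = x.1.2) (hk : 0 < k) (hk' : 0 < k')
    (hz : z' = k • z) (hu : u' = k' • u) (hpo : 0 < det3 z v u * det3 z' v' u') :
    x.1.1 = x'.1.1 := by
  by_contra hne
  have hb := hAltBasic A B C x u v g.al
  have hb' := hAltBasic A B C x' u' v' g'.al
  have hm : x'.1.1 ∈ x.1.2 := he ▸ g'.al.ae
  have hm' : x.1.1 ∈ x'.1.2 := he.symm ▸ g.al.ae
  have h1 := (hb.2.2.2.2.2.2.1 x'.1.1 hm (fun h => hne h.symm)).2
  have h2 := (hb'.2.2.2.2.2.2.1 x.1.1 hm' hne).2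
  have hpz : ip (x.1.1 - x'.1.1) z = 0 := by
    rw [ip_sub_left, g.hA.perp_z x.1.1 g.al.ae x'.1.1 hm, sub_self]
  have hpu : ip (x.1.1 - x'.1.1) u = 0 := by
    rw [ip_sub_left, g.hA.perp_u x.1.1 g.al.ae x'.1.1 hm, sub_self]
  obtain ⟨l, hl⟩ := par_cr_of_ip g.hA.cr_ne hpz hpu
  have e1 : ip (x.1.1 - x'.1.1) v = -(l * det3 z v u) := by
    rw [hl, ip_smul_left, ip_cr, det3_swap23 z v u]; ring
  have e2 : ip (x'.1.1 - x.1.1) v' = l * det3 z v' u := by
    have : x'.1.1 - x.1.1 = -(x.1.1 - x'.1.1) := by abel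
    rw [this, ip_neg_left, hl, ip_smul_left, ip_cr, det3_swap23 z v' u]; ring
  have e3 : det3 z' v' u' = k * k' * det3 z v' u := by
    rw [hz, hu, det3_smul1, det3_smul3]; ring
  rw [e1] at h1
  rw [e2] at h2
  rw [e3] at hpo
  have h3 : 0 < -(l * det3 z v u) * (l * det3 z v' u) * (k * k') :=
    mul_pos (mul_pos h1 h2) (mul_pos hk hk')
  have h4 : 0 ≤ (l * l) * (det3 z v u * (k * k' * det3 z v' u)) :=
    mul_nonneg (mul_self_nonneg l) hpo.le
  nlinarith

end MAltMDex

open MMDex in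
theorem t_AltMDex (hAltBasic : StmtAltBasic) (hAltDet : StmtAltDet) (hAltSigns : StmtAltSigns)
    (hArc : StmtArc) (hAltOrder : StmtAltOrder) : StmtAltMDex := by
  intro A B C X σ hA hB hC hσ hX
  choose! u v z y c' hG using hX
  have hgd : ∀ x ∈ X, AGD A B C x (u x) (v x) (z x) (y x) (c' x) (c' x) := fun x hx => (hG x hx).1
  have hty : ∀ x ∈ X, 0 ≤ σ * det3 (x.2.2 - c' x) (z x) (y x) := fun x hx => (hG x hx).2
  let lab : Al → Fin 8 := fun x => code (0 < det3 (z x) (v x) (u x))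
    (SideR A B C x.2.2 (c' x) (z x)) (SideR B A C x.2.2 (c' x) (y x))
  have hsym : ∀ x x', ASame c' lab x x' → ASame c' lab x' x :=
    fun x x' hs => ⟨hs.1.symm, hs.2.1.symm, hs.2.2.symm⟩
  have hne : ∀ x ∈ X, det3 (z x) (v x) (u x) ≠ 0 := by
    intro x hx h0
    have h := (hAltSigns A B C x (u x) (v x) (z x) (y x) (c' x) (c' x) (hgd x hx)).2.2
    rw [h0, zero_mul] at h
    exact lt_irrefl _ h
  have hpo : ∀ x ∈ X, ∀ x' ∈ X, ASame c' lab x x' →
      0 < det3 (z x) (v x) (u x) * det3 (z x') (v x') (u x') := by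
    intro x hx x' hx' hs
    have hc := (code_inj hs.2.2).1
    by_cases h : 0 < det3 (z x) (v x) (u x)
    · exact mul_pos h (hc.mp h)
    · have h' : ¬ 0 < det3 (z x') (v x') (u x') := fun h' => h (hc.mpr h')
      exact mul_pos_of_neg_of_neg (lt_of_le_of_ne (not_lt.mp h) (hne x hx))
        (lt_of_le_of_ne (not_lt.mp h') (hne x' hx'))
  have hinj : ∀ x ∈ X, ∀ x' ∈ X, ASame c' lab x x' →
      det3 (x.2.2 - c' x) (z x) (z x') = 0 → x = x' := by
    intro x hx x' hx' hs h0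
    have g := hgd x hx
    have g' := hgd x' hx'
    have hp := hpo x hx x' hx' hs
    obtain ⟨hs1, hs2, _⟩ := hs
    have gA' := g'.hA
    rw [← hs1, ← hs2] at gA'
    have h1 := (hArc C x.2.2 (c' x) (z x) (z x') (z x) 1 hC g.hA.ne (Or.inl rfl) g.hA.cz gA'.cz
      g.hA.cz).1
    obtain ⟨k, hk, hzk⟩ : ∃ k : ℝ, 0 < k ∧ z x' = k • z x := by
      rcases h1 with h | h | h
      · rw [h0, mul_zero] at h; exact absurd h (lt_irrefl _)
      · rw [swap23 _ (z x) (z x'), h0, neg_zero, mul_zero] at h; exact absurd h (lt_irrefl _)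
      · exact h
    obtain ⟨k', hk', huk⟩ := Closed.c_t_ZDet A B C x.1.2 x'.1.2 x.2.2 (c' x) (c' x) (u x) (z x)
      (u x') (z x') k g.hA gA' hk hzk
    have he : x'.1.2 = x.1.2 := by
      rw [← g'.hA.ez, ← g.hA.ez, hzk, Mx_smul hk]
    have ha := MAltMDex.a_eq hAltBasic g g' he hk hk' hzk huk hp
    obtain ⟨κ, _, hin⟩ := g.hA.enter
    exact ((hAltDet A B C x x' (u x) (v x) (u x') (v x') k' ⟨_, hin⟩ g.al g'.al hk').1
      ha.symm huk).symm
  have hag1 : ∀ x ∈ X, ∀ x' ∈ X, ASame c' lab x x' →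
      0 < σ * det3 (x.2.2 - c' x) (z x) (z x') →
      0 < σ * det3 (x.2.2 - c' x) (y x) (y x') := by
    intro x hx x' hx' hs h0
    have g := hgd x hx
    have g' := hgd x' hx'
    have ht' := hty x' hx'
    rw [← hs.2.1] at g' ht'
    rw [← hs.1] at ht'
    exact hAltOrder A B C x x' (u x) (v x) (z x) (y x) (u x') (v x') (z x') (y x') (c' x) σ hC
      g g' hs.1.symm hσ (hty x hx) ht' (hpo x hx x' hx' hs) h0
  refine ⟨u, v, z, y, c', lab, ?_⟩
  refine ⟨hgd, hσ, hty, hpo, ?_, ?_, hinj, ?_⟩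
  · intro x hx x' hx' hs
    have g := hgd x hx
    have gA' := (hgd x' hx').hA
    have hc := (code_inj hs.2.2).2.1
    rw [← hs.1, ← hs.2.1] at gA' hc
    exact Closed.c_t_Side A B C x.1.2 x'.1.2 x.2.2 (c' x) (u x) (z x) (u x') (z x') hC g.hA gA' hc
  · intro x hx x' hx' hs
    have g := hgd x hx
    have gB' := (hgd x' hx').hB
    have hc := (code_inj hs.2.2).2.2
    rw [← hs.1, ← hs.2.1] at gB' hc
    exact Closed.c_t_Side B A C x.2.1.2 x'.2.1.2 x.2.2 (c' x) (v x) (y x) (v x') (y x') hC g.hB gB'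
      hc
  · intro x hx x' hx' hs
    refine ⟨hag1 x hx x' hx' hs, fun h0 => ?_⟩
    have hxx : x ≠ x' := by
      rintro rfl
      rw [det_self, mul_zero] at h0
      exact lt_irrefl _ h0
    have hd : det3 (x.2.2 - c' x) (z x) (z x') ≠ 0 := fun h => hxx (hinj x hx x' hx' hs h)
    rcases lt_trichotomy (σ * det3 (x.2.2 - c' x) (z x) (z x')) 0 with h | h | h
    · exfalso
      have h1 := hag1 x' hx' x hx (hsym x x' hs)
      rw [← hs.1, ← hs.2.1, swap23 _ (z x) (z x'), swap23 _ (y x) (y x')] at h1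
      have h2 : 0 < σ * -det3 (x.2.2 - c' x) (z x) (z x') := by
        rw [mul_neg]; linarith
      have h3 := h1 h2
      rw [mul_neg] at h3
      linarith
    · exfalso
      rcases mul_eq_zero.mp h with h1 | h1
      · rcases hσ with h2 | h2
        · rw [h2] at h1; norm_num at h1
        · rw [h2] at h1; norm_num at h1
      · exact hd h1
    · exact h

end TPH
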