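import Pool.Agent.TPH.St6
import Pool.Agent.TPH.Closed

/-!
# Three parallel hyperplanes: the bound for main alternations
-/

set_option autoImplicit false

namespace TPH

namespace MAltMain

theorem mem_alts {A B C : Finset E} {x : Al} {u v : E} (h : IsAlt A B C x u v) :
    x ∈ alts A B C := by
  simp only [alts, Finset.mem_filter, Finset.mem_product, Finset.mem_powerset]
  refine ⟨⟨⟨?_, ?_⟩, ⟨?_, ?_⟩, ?_⟩, u, v, h⟩
  · exact Mx_subset A v (h.va ▸ Finset.mem_singleton_self _)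
  · exact h.ua ▸ Mx_subset A u
  · exact Mx_subset B u (h.ub ▸ Finset.mem_singleton_self _)
  · exact h.vb ▸ Mx_subset B v
  · exact Mx_subset C u (h.uc ▸ Finset.mem_singleton_self _)

theorem ABd_sub {A B : Finset E} {X : Finset Al} {u z c' : Al → E} {σ : ℝ}
    {lab : Al → Fin 8} : ABd A B X u z c' σ lab ⊆ X := by
  unfold ABd
  exact @Finset.filter_subset _ _ (Classical.decPred _) _

/-- The conditions of `StmtAltMult` for a crossing pair of a class. -/
theorem mult_cond (hAltBasic : StmtAltBasic) (hAltSide : StmtAltSide) {A B C : Finset E}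
    {X : Finset Al} {u v z y c' : Al → E} {σ : ℝ} {lab : Al → Fin 8}
    (md : AMD A B C X u v z y c' σ lab) {p q : Al} (hp : p ∈ X) (hq : q ∈ X)
    (hs : ASame c' lab p q) (hy : det3 (p.2.2 - c' p) (y p) (y q) ≠ 0) (hcr : ACrs A B p q) :
    p ∈ alts A B C ∧ q ∈ alts A B C ∧ ∃ t, InR A B p.2.2 t ∧ InR A B q.2.2 t ∧
      Mx A t = p.1.2 ∧ Mx B t = q.2.1.2 ∧ ∃ v, Perp p.1.2 v ∧ ¬ Perp q.2.1.2 v := by
  obtain ⟨r, hr, hr1, hr2⟩ := hcr
  have gp := md.gd p hp
  have gq := md.gd q hq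
  have hr' : InR A B q.2.2 r := by rw [← hs.1]; exact hr
  refine ⟨mem_alts gp.al, mem_alts gq.al, r, hr, hr', gp.hA.full r hr hr1,
    gq.hB.full r (inR_comm.mp hr') hr2, u p, gp.hA.perp_u, ?_⟩
  -- the edges of `B` are different
  have hne : p.2.1.2 ≠ q.2.1.2 := by
    intro he
    have h1 : Perp p.2.1.2 (y q) := by rw [he]; exact gq.hB.perp_z
    have h2 := (gp.hB.perp_iff (y q)).mp h1
    have w1 : ip (p.2.2 - c' p) (y q) = 0 := by rw [hs.1, hs.2.1]; exact gq.hB.wz
    exact hy ((HF.sign_iff gp.hB.wz w1 gp.hB.wu).2.2.mp h2)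
  have hal : IsAlt B A C (asw p) (v p) (u p) :=
    (hAltBasic A B C p (u p) (v p) gp.al).2.2.2.2.2.2.2.2.2
  have hB' : HF B A C q.2.1.2 (asw p).2.2 (c' q) (v q) (y q) := by
    have e : (asw p).2.2 = q.2.2 := hs.1
    rw [e]; exact gq.hB
  have h3 := hAltSide B A C (asw p) (v p) (u p) q.2.1.2 (c' q) (v q) (y q) hal hB' hne
  intro hperp
  have h4 := (gq.hB.perp_iff (u p)).mp hperp
  rw [h4, mul_zero] at h3
  exact lt_irrefl _ h3

end MAltMain

open MAltMain in
theorem t_AltMain (hAltBasic : StmtAltBasic) (hAltSide : StmtAltSide) (hAltMult : StmtAltMult)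
    (hAltMDex : StmtAltMDex) (hAltBadAB : StmtAltBadAB) (hAltCrossTri : StmtAltCrossTri) :
    StmtAltMain := by
  classical
  intro A B C X σ hA hB hC hσ hX
  obtain ⟨u, v, z, y, c', lab, md⟩ := hAltMDex A B C X σ hA hB hC hσ hX
  obtain ⟨K, hK⟩ := MMainCount.keys TPH.Closed.c_t_KeyFn C hC
  obtain ⟨hb1, hb2⟩ := hAltBadAB A B C X u v z y c' σ lab hA hB hC md
  let key : Al → ℝ := fun x => σ * K x.2.2 (c' x) (z x)
  let cls : Al → E × E × Fin 8 := fun x => (x.2.2, c' x, lab x)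
  have hcls : ∀ x x' : Al, cls x = cls x' ↔ ASame c' lab x x' := by
    intro x x'
    constructor
    · intro h
      have h' := Prod.mk.inj h
      have h'' := Prod.mk.inj h'.2
      exact ⟨h'.1, h''.1, h''.2⟩
    · rintro ⟨h1, h2, h3⟩
      exact Prod.ext h1 (Prod.ext h2 h3)
  have hne : ∀ x ∈ X, x.2.2 ≠ c' x := fun x hx => (md.gd x hx).hA.ne
  have hz : ∀ x ∈ X, Mx C (z x) = {x.2.2, c' x} := fun x hx => (md.gd x hx).hA.cz
  have hkey : ∀ x ∈ X, ∀ x' ∈ X, ASame c' lab x x' →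
      (key x < key x' ↔ 0 < σ * det3 (x.2.2 - c' x) (z x) (z x')) := by
    intro x hx x' hx' hs
    have hz' : Mx C (z x') = {x.2.2, c' x} := by rw [hs.1, hs.2.1]; exact hz x' hx'
    have e : key x' = σ * K x.2.2 (c' x) (z x') := by
      show σ * K x'.2.2 (c' x') (z x') = _
      rw [← hs.1, ← hs.2.1]
    rw [e]
    refine MMainCount.key_iff md.sg (hK _ _ (hne x hx) _ _ (hz x hx) hz') ?_
    rw [← det3_swap23]
    exact hK _ _ (hne x hx) _ _ hz' (hz x hx)
  have hsym : ∀ x x' : Al, ASame c' lab x x' → ASame c' lab x' x :=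
    fun x x' h => ⟨h.1.symm, h.2.1.symm, h.2.2.symm⟩
  -- the exits for `B` are independent
  have hydet : ∀ x ∈ X, ∀ x' ∈ X, ASame c' lab x x' → key x < key x' →
      det3 (x.2.2 - c' x) (y x) (y x') ≠ 0 := by
    intro x hx x' hx' hs hk h0
    have h1 := (md.ag x hx x' hx' hs).mp ((hkey x hx x' hx' hs).mp hk)
    rw [h0, mul_zero] at h1
    exact lt_irrefl _ h1
  let Bd : Finset Al := ABd A B X u z c' σ lab ∪ ABd B A X v y c' σ lab
  let cross : Al → Al → Prop := fun x x' => ACrs A B x x' ∨ ACrs A B x' x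
  let P₁ : Finset (Al × Al) := (X ×ˢ X).filter
    (fun p => cls p.1 = cls p.2 ∧ key p.1 < key p.2 ∧ ACrs A B p.1 p.2)
  let P₂ : Finset (Al × Al) := (X ×ˢ X).filter
    (fun p => cls p.1 = cls p.2 ∧ key p.1 < key p.2 ∧ ACrs A B p.2 p.1)
  have hBd : ∀ k ∈ Bd, k ∈ X ∧ (k ∈ ABd A B X u z c' σ lab ∨ k ∈ ABd B A X v y c' σ lab) := by
    intro k hk
    have hk' := Finset.mem_union.mp hk
    refine ⟨?_, hk'⟩
    rcases hk' with h | h
    · exact ABd_sub h
    · exact ABd_sub h
  have main := TPH.Closed.c_t_Abstract Al (E × E × Fin 8) X Bd cls key cross (P₁ ∪ P₂)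
    (by
      intro x hx x' hx' hc hk
      have hs := (hcls x x').mp hc
      have hs' := hsym x x' hs
      have n1 : ¬ 0 < σ * det3 (x.2.2 - c' x) (z x) (z x') := by
        rw [← hkey x hx x' hx' hs, hk]; exact lt_irrefl _
      have n2 : ¬ 0 < σ * det3 (x'.2.2 - c' x') (z x') (z x) := by
        rw [← hkey x' hx' x hx hs', hk]; exact lt_irrefl _
      rw [← hs.1, ← hs.2.1, det3_swap23] at n2
      refine md.inj x hx x' hx' hs ?_
      rcases md.sg with h | h
      · rw [h] at n1 n2; linarith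
      · rw [h] at n1 n2; linarith)
    (by
      intro x hx x' hx' x'' hx'' hc hc' hk hk' hB'
      have hs := (hcls x x').mp hc
      have hs' := (hcls x' x'').mp hc'
      have h1 := (hkey x hx x' hx' hs).mp hk
      have h2 := (hkey x' hx' x'' hx'' hs').mp hk'
      rw [← hs.1, ← hs.2.1] at h2
      refine hAltCrossTri A B C X u v z y c' σ lab x x' x'' hA hB hC md hx hx' hx'' hs hs' h1 h2 ?_
      intro k hkX hkB hxk hor h3
      refine hB' k (Finset.mem_union.mpr hkB) ((hcls k x).mpr (hsym x k hxk)) ?_ ?_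
      · rcases hor with rfl | hor
        · exact le_refl _
        · exact ((hkey x hx k hkX hxk).mpr hor).le
      · have hkx'' : ASame c' lab k x'' :=
          ⟨hxk.1.symm.trans (hs.1.trans hs'.1), hxk.2.1.symm.trans (hs.2.1.trans hs'.2.1),
            hxk.2.2.symm.trans (hs.2.2.trans hs'.2.2)⟩
        refine (hkey k hkX x'' hx'' hkx'').mpr ?_
        rw [← hxk.1, ← hxk.2.1]
        exact h3)
    (by
      intro x hx x' hx' hc hk hcr
      rcases hcr with h | h
      · exact Finset.mem_union_left _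
          (Finset.mem_filter.mpr ⟨Finset.mem_product.mpr ⟨hx, hx'⟩, hc, hk, h⟩)
      · exact Finset.mem_union_right _
          (Finset.mem_filter.mpr ⟨Finset.mem_product.mpr ⟨hx, hx'⟩, hc, hk, h⟩))
  -- multiplicities
  have hP1 : P₁.card ≤ 16 * ((Ed A).card * (Ed B).card) := by
    refine hAltMult A B C P₁ hA hB ?_
    rintro ⟨x, x'⟩ hp
    obtain ⟨hpX, hc, hk, hcr⟩ := Finset.mem_filter.mp hp
    obtain ⟨hx, hx'⟩ := Finset.mem_product.mp hpX
    simp only at hx hx' hc hk hcr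
    have hs := (hcls x x').mp hc
    exact mult_cond hAltBasic hAltSide md hx hx' hs (hydet x hx x' hx' hs hk) hcr
  have hP2 : P₂.card ≤ 16 * ((Ed A).card * (Ed B).card) := by
    have hsw : (P₂.image Prod.swap).card = P₂.card :=
      Finset.card_image_of_injective _ Prod.swap_injective
    rw [← hsw]
    refine hAltMult A B C _ hA hB ?_
    rintro ⟨x', x⟩ hp
    obtain ⟨⟨w, w'⟩, hw, he⟩ := Finset.mem_image.mp hp
    have he' := Prod.mk.inj he
    obtain ⟨e1, e2⟩ := he'
    simp only at e1 e2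
    subst e1
    subst e2
    obtain ⟨hpX, hc, hk, hcr⟩ := Finset.mem_filter.mp hw
    obtain ⟨hx, hx'⟩ := Finset.mem_product.mp hpX
    simp only at hx hx' hc hk hcr
    have hs := (hcls w w').mp hc
    refine mult_cond hAltBasic hAltSide md hx' hx (hsym _ _ hs) ?_ hcr
    have h1 := hydet w hx w' hx' hs hk
    rw [← hs.1, ← hs.2.1, det3_swap23]
    exact neg_ne_zero.mpr h1
  have hP : (P₁ ∪ P₂).card ≤ 32 * ((Ed A).card * (Ed B).card) := by
    have := Finset.card_union_le P₁ P₂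
    omega
  have hI : (X.image cls).card ≤ 16 * (Ed C).card := by
    refine MMainCount.classes _ (fun p hp => ?_)
    obtain ⟨x, hx, rfl⟩ := Finset.mem_image.mp hp
    exact ⟨hne x hx, mem_Ed.mpr ⟨Finset.card_pair (hne x hx), z x, hz x hx⟩⟩
  have hBc : Bd.card ≤ 8 * spSum A C + 8 * spSum B C :=
    (Finset.card_union_le _ _).trans (add_le_add hb1 hb2)
  refine main.trans ?_
  exact Nat.mul_le_mul (Nat.mul_le_mul_left _ (add_le_add hI hBc)) (Nat.add_le_add_right hP _)

end TPH
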