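import Pool.Agent.TPH.St6
import Pool.Agent.TPH.Closed

/-!
# Three parallel hyperplanes: multiplicity of crossings of main alternations
-/

namespace TPH

namespace MAltMult

theorem mem_alts' {A B C : Finset E} {x : Al} (h : x ∈ alts A B C) : ∃ u v, IsAlt A B C x u v := by
  unfold alts at h
  exact (@Finset.mem_filter _ _ (Classical.decPred _) _ _).mp h |>.2

theorem ne_zero {A e : Finset E} {t : E} (hA : 3 ≤ A.card) (he : e.card = 2) (h : Mx A t = e) :
    t ≠ 0 := by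
  rintro rfl
  rw [Mx_zero] at h
  rw [h] at hA
  omega

/-- Two edges which are not parallel determine the exposing ray. -/
theorem same_ray {A B e f : Finset E} {t t' v : E} (hA : 3 ≤ A.card) (he : e.card = 2)
    (hf : f.card = 2) (h1 : Mx A t = e) (h1' : Mx A t' = e) (h2 : Mx B t = f) (h2' : Mx B t' = f)
    (hv : Perp e v) (hv' : ¬ Perp f v) : ∃ κ : ℝ, 0 < κ ∧ t' = κ • t :=
  TPH.MMainMult.same_ray hA he hf h1 h1' h2 h2' hv hv'

theorem det_ne {A B C e : Finset E} {c u t a a' : E}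
    (hA : 3 ≤ A.card) (hx : IsPos A B C e c u) (he : e = {a, a'}) (hne : a ≠ a')
    (ht : Mx A t = {a, a'}) (hR : InR A B c t) : det3 (a - a') t u ≠ 0 := by
  intro h0
  have hout := hx.out
  have hu0 : u ≠ 0 := ne_zero hA hx.card hx.eu
  have ht0 : t ≠ 0 := ne_zero hA (Finset.card_pair hne) ht
  have h1 : ip (a - a') t = 0 := by
    rw [ip_sub_left, Mx_eq (A := A) (u := t) (a := a) (a' := a') (by rw [ht]; simp)
      (by rw [ht]; simp), sub_self]
  have hAu : Mx A u = {a, a'} := by rw [hx.eu, he]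
  have h2 : ip (a - a') u = 0 := by
    rw [ip_sub_left, Mx_eq (A := A) (u := u) (a := a) (a' := a') (by rw [hAu]; simp)
      (by rw [hAu]; simp), sub_self]
  by_cases hc : cr t u = 0
  · obtain ⟨k, hk⟩ := par_of_cr ht0 hc
    have hk0 : k ≠ 0 := by
      rintro rfl
      exact hu0 (by rw [hk, zero_smul])
    apply hout k⁻¹
    rw [hk, smul_smul, inv_mul_cancel₀ hk0, one_smul]
    exact hR
  · obtain ⟨k, hk⟩ := par_cr_of_ip hc h1 h2
    have hk0 : k ≠ 0 := by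
      rintro rfl
      exact hne (sub_eq_zero.mp (by rw [hk, zero_smul]))
    rw [hk, det3_smul1, ← det3_cyc, ← ip_cr] at h0
    rcases mul_eq_zero.mp h0 with h | h
    · exact hk0 h
    · exact (ip_self_pos hc).ne' h

theorem inj1 (hFE : StmtPosFirstExit) {A B C e : Finset E} {c c' u u' t a a' : E}
    (hA : 3 ≤ A.card) (hx : IsPos A B C e c u) (hx' : IsPos A B C e c' u')
    (he : e = {a, a'}) (hne : a ≠ a') (ht : Mx A t = {a, a'})
    (hR : InR A B c t) (hR' : InR A B c' t)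
    (hs : 0 < det3 (a - a') t u ↔ 0 < det3 (a - a') t u') : ∃ k : ℝ, 0 < k ∧ u' = k • u := by
  have h1 := det_ne hA hx he hne ht hR
  have h2 := det_ne hA hx' he hne ht hR'
  refine hFE A B C e c c' u u' t a a' hx hx' he hne (ht ▸ perp_Mx A t) hR hR' ?_
  rcases h1.lt_or_gt with h | h
  · rcases h2.lt_or_gt with h' | h'
    · exact mul_pos_of_neg_of_neg h h'
    · exact absurd (hs.mpr h') (not_lt.mpr h.le)
  · exact mul_pos h (hs.mp h)

/-- Two elements of a pair which agree about being the first one are equal. -/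
theorem eq_of_dec {a a' x y : E} {e : Finset E} (he : e = {a, a'}) (hx : x ∈ e) (hy : y ∈ e)
    (h : x = a ↔ y = a) : x = y := by
  rw [he, Finset.mem_insert, Finset.mem_singleton] at hx hy
  by_cases hxa : x = a
  · rw [hxa, h.mp hxa]
  · have hya : ¬ y = a := fun h1 => hxa (h.mpr h1)
    rcases hx with h1 | h1
    · exact absurd h1 hxa
    · rcases hy with h2 | h2
      · exact absurd h2 hya
      · rw [h1, h2]

end MAltMult

open MAltMult

theorem t_AltMult (hAltBasic : StmtAltBasic) (hAltDet : StmtAltDet)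
    (hPosFirstExit : StmtPosFirstExit) : StmtAltMult := by
  classical
  intro A B C P hA hB hP
  have hcard : ∀ p ∈ P, p.1.1.2.card = 2 ∧ p.2.2.1.2.card = 2 := by
    intro p hp
    obtain ⟨h1, h2, -⟩ := hP p hp
    obtain ⟨u, v, hu⟩ := mem_alts' h1
    obtain ⟨w, s, hw⟩ := mem_alts' h2
    exact ⟨hu.ce, hw.cf⟩
  rw [← Finset.card_product]
  refine Finset.card_le_mul_card_image_of_maps_to
    (f := fun p : Al × Al => (p.1.1.2, p.2.2.1.2)) (fun p hp => ?_) 16 ?_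
  · obtain ⟨-, -, t, -, -, h3, h4, -⟩ := hP p hp
    exact Finset.mem_product.mpr ⟨mem_Ed.mpr ⟨(hcard p hp).1, t, h3⟩,
      mem_Ed.mpr ⟨(hcard p hp).2, t, h4⟩⟩
  rintro ⟨e, f⟩ -
  rcases (P.filter fun p => (p.1.1.2, p.2.2.1.2) = (e, f)).eq_empty_or_nonempty with h0 | ⟨p₀, hp₀⟩
  · rw [h0]; simp
  rw [Finset.mem_filter, Prod.mk.injEq] at hp₀
  obtain ⟨hp₀P, he₀, hf₀⟩ := hp₀
  obtain ⟨-, -, t, -, -, htA, htB, v, hv, hv'⟩ := hP p₀ hp₀P
  have hce : e.card = 2 := he₀ ▸ (hcard p₀ hp₀P).1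
  have hcf : f.card = 2 := hf₀ ▸ (hcard p₀ hp₀P).2
  rw [he₀] at htA hv
  rw [hf₀] at htB hv'
  obtain ⟨a, a', haa, hea⟩ := Finset.card_eq_two.mp hce
  obtain ⟨b, b', hbb, hfb⟩ := Finset.card_eq_two.mp hcf
  -- data for each member of the fibre
  have hdat : ∀ p : Al × Al, ∃ u v u' v' : E, p ∈ P → p.1.1.2 = e → p.2.2.1.2 = f →
      IsAlt A B C p.1 u v ∧ IsAlt A B C p.2 u' v' ∧ InR A B p.1.2.2 t ∧ InR A B p.2.2.2 t := by
    intro p
    by_cases hp : p ∈ P ∧ p.1.1.2 = e ∧ p.2.2.1.2 = f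
    · obtain ⟨hpP, hpe, hpf⟩ := hp
      obtain ⟨h1, h2, s, hs1, hs2, hsA, hsB, -⟩ := hP p hpP
      obtain ⟨u, v1, hu⟩ := mem_alts' h1
      obtain ⟨w, v2, hw⟩ := mem_alts' h2
      rw [hpe] at hsA
      rw [hpf] at hsB
      obtain ⟨κ, hκ, hst⟩ := same_ray hA hce hcf hsA htA hsB htB hv hv'
      refine ⟨u, v1, w, v2, fun _ _ _ => ⟨hu, hw, ?_, ?_⟩⟩
      · rw [hst]; exact hs1.smul hκ
      · rw [hst]; exact hs2.smul hκ
    · exact ⟨0, 0, 0, 0, fun h1 h2 h3 => absurd ⟨h1, h2, h3⟩ hp⟩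
  choose u v1 w v2 huw using hdat
  have hle : (P.filter fun p => (p.1.1.2, p.2.2.1.2) = (e, f)).card ≤
      (Finset.univ : Finset ((Bool × Bool) × (Bool × Bool))).card := by
    refine Finset.card_le_card_of_injOn
      (fun p => ((decide (0 < det3 (a - a') t (u p)), decide (p.1.1.1 = a)),
        (decide (0 < det3 (b - b') t (v2 p)), decide (p.2.2.1.1 = b))))
      (fun _ _ => Finset.mem_coe.mpr (Finset.mem_univ _)) ?_
    intro p hp q hq hpq
    rw [Finset.mem_coe, Finset.mem_filter, Prod.mk.injEq] at hp hq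
    obtain ⟨hpP, hpe, hpf⟩ := hp
    obtain ⟨hqP, hqe, hqf⟩ := hq
    obtain ⟨p1, p2, p3, p4⟩ := huw p hpP hpe hpf
    obtain ⟨q1, q2, q3, q4⟩ := huw q hqP hqe hqf
    simp only [Prod.mk.injEq, decide_eq_decide] at hpq
    obtain ⟨⟨hpq1, hpq2⟩, hpq3, hpq4⟩ := hpq
    have hpos1 := (hAltBasic A B C p.1 (u p) (v1 p) p1).1
    have hpos1' := (hAltBasic A B C q.1 (u q) (v1 q) q1).1
    rw [hpe] at hpos1
    rw [hqe] at hpos1'
    have hpos2 := (hAltBasic A B C p.2 (w p) (v2 p) p2).2.1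
    have hpos2' := (hAltBasic A B C q.2 (w q) (v2 q) q2).2.1
    rw [hpf] at hpos2
    rw [hqf] at hpos2'
    obtain ⟨k, hk, hku⟩ := inj1 hPosFirstExit hA hpos1 hpos1' hea haa (htA.trans hea) p3 q3 hpq1
    obtain ⟨k', hk', hku'⟩ := inj1 hPosFirstExit (A := B) (B := A) (C := C) hB hpos2 hpos2' hfb hbb
      (htB.trans hfb) (inR_comm.mp p4) (inR_comm.mp q4) hpq3
    have e1 : q.1.1.1 = p.1.1.1 :=
      (eq_of_dec (hpe.trans hea ▸ hea : e = {a, a'}) (hpe ▸ p1.ae) (hqe ▸ q1.ae) hpq2).symm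
    have e2 : q.2.2.1.1 = p.2.2.1.1 :=
      (eq_of_dec hfb (hpf ▸ p2.bf) (hqf ▸ q2.bf) hpq4).symm
    have h1 := (hAltDet A B C p.1 q.1 (u p) (v1 p) (u q) (v1 q) k ⟨t, p3⟩ p1 q1 hk).1 e1 hku
    have h2 := (hAltDet A B C p.2 q.2 (w p) (v2 p) (w q) (v2 q) k' ⟨t, p4⟩ p2 q2 hk').2 e2 hku'
    exact (Prod.ext h1 h2).symm
  exact hle

end TPH
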