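import Pool.Agent.TPH.St5
import Pool.Agent.TPH.Closed

set_option autoImplicit false

/-!
# Three parallel hyperplanes: in a class the two orders agree
-/

namespace TPH

namespace MAltOrder

/-- A positive sign in the plane of `w`, read at a point `p` on the side of `c`. -/
theorem rd {w s t p : E} (hs : ip w s = 0) (ht : ip w t = 0) (hp : 0 < ip w p)
    (h : 0 < det3 w s t) : 0 < det3 s t p := (HF.sign_iff hs ht hp).1.mpr h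

/-- Two edges with distinct exits are distinct. -/
theorem e_ne {A B C e₁ e₂ : Finset E} {c c' u₁ z₁ u₂ z₂ : E}
    (h1 : HF A B C e₁ c c' u₁ z₁) (h2 : HF A B C e₂ c c' u₂ z₂)
    (h : det3 (c - c') z₁ z₂ ≠ 0) : e₁ ≠ e₂ := by
  intro he
  have hp : Perp e₁ z₂ := by rw [he]; exact h2.perp_z
  exact h ((HF.sign_iff h1.wz h2.wz h1.wu).2.2.mp ((h1.perp_iff z₂).mp hp))

/-- The exits on the side of `B` are not parallel. -/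
theorem not_par (hAltBasic : StmtAltBasic) (hAltDet : StmtAltDet) (hAltSigns : StmtAltSigns)
    {A B C : Finset E} {x₁ x₂ : Al} {u₁ v₁ z₁ y₁ u₂ v₂ z₂ y₂ c' : E}
    (g₁ : AGD A B C x₁ u₁ v₁ z₁ y₁ c' c') (g₂ : AGD A B C x₂ u₂ v₂ z₂ y₂ c' c')
    (hc : x₂.2.2 = x₁.2.2) (hprod : 0 < det3 z₁ v₁ u₁ * det3 z₂ v₂ u₂)
    (hzz : det3 (x₁.2.2 - c') z₁ z₂ ≠ 0) {k : ℝ} (hk : 0 < k) (hy : y₂ = k • y₁) : False := by
  have hA₁ := g₁.hA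
  have hA₂ := g₂.hA
  have hB₁ := g₁.hB
  have hB₂ := g₂.hB
  rw [hc] at hA₂ hB₂
  have hff : x₂.2.1.2 = x₁.2.1.2 := by rw [← hB₂.ez, hy, Mx_smul hk, hB₁.ez]
  obtain ⟨k', hk', hv⟩ := TPH.Closed.c_t_ZDet B A C _ _ _ _ _ _ _ _ _ k hB₁ hB₂ hk hy
  by_cases hb : x₂.2.1.1 = x₁.2.1.1
  · have hR : ∃ r, InR A B x₁.2.2 r := by
      obtain ⟨κ, _, hr⟩ := hA₁.enter
      exact ⟨_, hr⟩
    have hxx := (hAltDet A B C x₁ x₂ u₁ v₁ u₂ v₂ k' hR g₁.al g₂.al hk').2 hb hv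
    exact e_ne hA₁ hA₂ hzz (by rw [hxx])
  · have m₂ : x₂.2.1.1 ∈ x₁.2.1.2 := hff ▸ g₂.al.bf
    have m₁ : x₁.2.1.1 ∈ x₂.2.1.2 := hff ▸ g₁.al.bf
    have b₁ := (hAltBasic A B C x₁ u₁ v₁ g₁.al).2.2.2.2.2.2.2.1 _ m₂ hb
    have b₂ := (hAltBasic A B C x₂ u₂ v₂ g₂.al).2.2.2.2.2.2.2.1 _ m₁ (Ne.symm hb)
    have hd1 : ip (x₁.2.1.1 - x₂.2.1.1) y₁ = 0 := by
      rw [ip_sub_left, hB₁.perp_z _ g₁.al.bf _ m₂, sub_self]
    have hd2 : ip (x₁.2.1.1 - x₂.2.1.1) v₁ = 0 := by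
      rw [ip_sub_left, hB₁.perp_u _ g₁.al.bf _ m₂, sub_self]
    obtain ⟨l, hl⟩ := par_cr_of_ip hB₁.cr_ne hd1 hd2
    have e₁ : ip (x₁.2.1.1 - x₂.2.1.1) u₁ = - (l * det3 y₁ u₁ v₁) := by
      rw [hl, ip_smul_left, ip_cr, det3_swap23]; ring
    have e₂ : ip (x₂.2.1.1 - x₁.2.1.1) u₂ = l * det3 y₁ u₂ v₁ := by
      have : x₂.2.1.1 - x₁.2.1.1 = - (x₁.2.1.1 - x₂.2.1.1) := by abel
      rw [this, ip_neg_left, hl, ip_smul_left, ip_cr, det3_swap23]; ring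
    have e₃ : det3 y₂ u₂ v₂ = (k * k') * det3 y₁ u₂ v₁ := by
      rw [hy, hv, det3_smul1, det3_smul3]; ring
    have p₁ := b₁.2
    have p₂ := b₂.2
    rw [e₁] at p₁
    rw [e₂] at p₂
    have s₁ := (hAltSigns A B C x₁ u₁ v₁ z₁ y₁ c' c' g₁).2.2
    have s₂ := (hAltSigns A B C x₂ u₂ v₂ z₂ y₂ c' c' g₂).2.2
    rw [e₃] at s₂
    have q1 : 0 < (det3 z₁ v₁ u₁ * det3 y₁ u₁ v₁) * (det3 z₂ v₂ u₂ * (k * k' * det3 y₁ u₂ v₁)) :=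
      mul_pos_of_neg_of_neg s₁ s₂
    have q2 : 0 < (det3 z₁ v₁ u₁ * det3 z₂ v₂ u₂) * (k * k') :=
      mul_pos hprod (mul_pos hk hk')
    have q3 : (det3 z₁ v₁ u₁ * det3 y₁ u₁ v₁) * (det3 z₂ v₂ u₂ * (k * k' * det3 y₁ u₂ v₁)) =
        ((det3 z₁ v₁ u₁ * det3 z₂ v₂ u₂) * (k * k')) * (det3 y₁ u₁ v₁ * det3 y₁ u₂ v₁) := by ring
    rw [q3] at q1
    have q4 : 0 < det3 y₁ u₁ v₁ * det3 y₁ u₂ v₁ := (pos_iff_pos_of_mul_pos q1).mp q2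
    have q5 : 0 < - (l * det3 y₁ u₁ v₁) * (l * det3 y₁ u₂ v₁) := mul_pos p₁ p₂
    have q6 : - (l * det3 y₁ u₁ v₁) * (l * det3 y₁ u₂ v₁) =
        - ((l * l) * (det3 y₁ u₁ v₁ * det3 y₁ u₂ v₁)) := by ring
    rw [q6] at q5
    have q7 := mul_nonneg (mul_self_nonneg l) q4.le
    linarith

/-- The positive case. -/
theorem core (hAltBasic : StmtAltBasic) (hAltSide : StmtAltSide) (hAltSigns : StmtAltSigns)
    (hArc : StmtArc) {A B C : Finset E} {x₁ x₂ : Al} {u₁ v₁ z₁ y₁ u₂ v₂ z₂ y₂ c' : E}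
    (hC : 3 ≤ C.card)
    (g₁ : AGD A B C x₁ u₁ v₁ z₁ y₁ c' c') (g₂ : AGD A B C x₂ u₂ v₂ z₂ y₂ c' c')
    (hc : x₂.2.2 = x₁.2.2) (h2 : 0 ≤ det3 (x₁.2.2 - c') z₂ y₂)
    (hprod : 0 < det3 z₁ v₁ u₁ * det3 z₂ v₂ u₂)
    (hzz : 0 < det3 (x₁.2.2 - c') z₁ z₂) (hyy : 0 < det3 (x₁.2.2 - c') y₂ y₁) : False := by
  have hA₁ := g₁.hA
  have hA₂ := g₂.hA
  have hB₁ := g₁.hB
  have hB₂ := g₂.hB
  rw [hc] at hA₂ hB₂
  have hyy' : det3 (x₁.2.2 - c') y₁ y₂ ≠ 0 := by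
    rw [det3_swap23]; exact (neg_neg_of_pos hyy).ne
  have hee : x₁.1.2 ≠ x₂.1.2 := e_ne hA₁ hA₂ hzz.ne'
  have hff : x₁.2.1.2 ≠ x₂.2.1.2 := e_ne hB₁ hB₂ hyy'
  obtain ⟨oA1, -, oA2, -⟩ := TPH.Closed.c_t_Order A B C _ _ _ _ _ _ _ _ hA₁ hA₂ hzz
  obtain ⟨oB1, -, oB2, -⟩ := TPH.Closed.c_t_Order B A C _ _ _ _ _ _ _ _ hB₂ hB₁ hyy
  have bas₁ := hAltBasic A B C x₁ u₁ v₁ g₁.al
  have bas₂ := hAltBasic A B C x₂ u₂ v₂ g₂.al
  have sw₁ : IsAlt B A C (asw x₁) v₁ u₁ := bas₁.2.2.2.2.2.2.2.2.2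
  have sw₂ : IsAlt B A C (asw x₂) v₂ u₂ := bas₂.2.2.2.2.2.2.2.2.2
  have hB₁' : HF B A C x₁.2.1.2 (asw x₂).2.2 c' v₁ y₁ := by
    have : (asw x₂).2.2 = x₁.2.2 := hc
    rw [this]; exact hB₁
  -- `ε₁ u₂ < 0` and `ε₂ u₁ > 0`
  have s1 : 0 < det3 y₁ v₂ v₁ * det3 y₁ u₂ v₁ :=
    hAltSide B A C (asw x₂) v₂ u₂ x₁.2.1.2 c' v₁ y₁ sw₂ hB₁' (Ne.symm hff)
  have s2 : 0 < det3 y₂ v₁ v₂ * det3 y₂ u₁ v₂ :=
    hAltSide B A C (asw x₁) v₁ u₁ x₂.2.1.2 c' v₂ y₂ sw₁ hB₂ hff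
  have ε₁u₂ : det3 y₁ u₂ v₁ < 0 := by
    by_contra hcon
    push Not at hcon
    have := mul_nonpos_of_nonpos_of_nonneg oB1.le hcon
    linarith
  have ε₂u₁ : 0 < det3 y₂ u₁ v₂ := (pos_iff_pos_of_mul_pos s2).mp oB2
  obtain ⟨t1z, t1y, sg1⟩ := hAltSigns A B C x₁ u₁ v₁ z₁ y₁ c' c' g₁
  obtain ⟨-, -, sg2⟩ := hAltSigns A B C x₂ u₂ v₂ z₂ y₂ c' c' g₂
  have tu1 : ip (Tv x₁) u₁ = 0 := bas₁.2.2.1
  have tu2 : 0 ≤ ip (Tv x₁) u₂ := bas₁.2.2.2.2.2.1 u₂ hA₂.clo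
  -- the arc
  have one : (1 : ℝ) = 1 ∨ (1 : ℝ) = -1 := Or.inl rfl
  have arc2 := hArc C x₁.2.2 c' z₂ y₂ y₁ 1 hC hA₁.ne one hA₂.cz hB₂.cz hB₁.cz
  obtain ⟨α₂, β₂, hα₂, hβ₂, hs₂, hp₂, -, hz₂y₁⟩ := arc2.2 (by linarith) (by linarith)
  have zy21 : 0 < det3 (x₁.2.2 - c') z₂ y₁ := by
    have := (hz₂y₁ (by linarith)).1; linarith
  have arc1 := hArc C x₁.2.2 c' z₁ z₂ y₁ 1 hC hA₁.ne one hA₁.cz hA₂.cz hB₁.cz
  obtain ⟨α₁, β₁, hα₁, hβ₁, hs₁, hp₁, hz₁y₁, -⟩ := arc1.2 (by linarith) (by linarith)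
  have zy11 : 0 < det3 (x₁.2.2 - c') z₁ y₁ := by
    have := (hz₁y₁ (by linarith)).1; linarith
  have neg_comb : ∀ {α β p q : ℝ}, 0 ≤ α → 0 ≤ β → 0 < α + β → p < 0 → q < 0 →
      α * p + β * q < 0 := by
    intro α β p q h1 h2 h3 h4 h5
    rcases h1.eq_or_lt with h | h
    · rw [← h] at h3 ⊢
      have := mul_neg_of_pos_of_neg (show 0 < β by linarith) h5
      linarith
    · have i1 := mul_neg_of_pos_of_neg h h4
      have i2 := mul_nonpos_of_nonneg_of_nonpos h2 h5.le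
      linarith
  have t1z2 : ip (Tv x₁) z₂ < 0 := by
    rw [hp₁, ip_add_right, ip_smul_right, ip_smul_right]
    exact neg_comb hα₁ hβ₁ hs₁ t1z t1y
  have t1y2 : ip (Tv x₁) y₂ < 0 := by
    rw [hp₂, ip_add_right, ip_smul_right, ip_smul_right]
    exact neg_comb hα₂ hβ₂ hs₂ t1z2 t1y
  rcases lt_trichotomy (det3 z₁ v₁ u₁) 0 with hδ | hδ | hδ
  · -- `(4)`
    have ε₁u₁ : 0 < det3 y₁ u₁ v₁ := by
      by_contra hcon
      push Not at hcon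
      have := mul_nonneg_of_nonpos_of_nonpos hδ.le hcon
      linarith
    have D : 0 < det3 z₁ y₁ u₁ := rd hA₁.wz hB₁.wz hA₁.wu zy11
    have γ : 0 < det3 z₁ y₁ u₂ := rd hA₁.wz hB₁.wz hA₂.wu zy11
    have e0 : 0 < det3 z₁ y₁ v₁ := rd hA₁.wz hB₁.wz hB₁.wu zy11
    have key := cramer z₁ y₁ u₁ u₂
    have k1 := congrArg (fun w => det3 y₁ w v₁) key
    simp only [det3_add2, det3_smul2, det3_self12] at k1
    have e1 : det3 y₁ z₁ v₁ = - det3 z₁ y₁ v₁ := det3_swap12 z₁ y₁ v₁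
    rw [e1] at k1
    have i1 : det3 z₁ y₁ u₁ * det3 y₁ u₂ v₁ < 0 := mul_neg_of_pos_of_neg D ε₁u₂
    have i2 : 0 < det3 z₁ y₁ u₂ * det3 y₁ u₁ v₁ := mul_pos γ ε₁u₁
    have hα : 0 < det3 u₂ y₁ u₁ := by
      by_contra hcon
      push Not at hcon
      have := mul_nonpos_of_nonpos_of_nonneg hcon e0.le
      linarith
    have k2 := congrArg (fun w => ip (Tv x₁) w) key
    simp only [ip_add_right, ip_smul_right, tu1] at k2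
    have j1 := mul_nonneg D.le tu2
    have j2 := mul_neg_of_pos_of_neg hα t1z
    have j3 := mul_neg_of_pos_of_neg oA2 t1y
    linarith
  · rw [hδ, zero_mul] at hprod
    exact lt_irrefl _ hprod
  · -- `(3)`
    have hδ₂ : 0 < det3 z₂ v₂ u₂ := (pos_iff_pos_of_mul_pos hprod).mp hδ
    have ε₂u₂ : det3 y₂ u₂ v₂ < 0 := by
      by_contra hcon
      push Not at hcon
      have := mul_nonneg hδ₂.le hcon
      linarith
    rcases arc2.1 with hz | hz | ⟨k, hk, hz⟩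
    · rw [one_mul] at hz
      have D : 0 < det3 z₂ y₂ u₂ := rd hA₂.wz hB₂.wz hA₂.wu hz
      have γ : 0 < det3 z₂ y₂ u₁ := rd hA₂.wz hB₂.wz hA₁.wu hz
      have e0 : 0 < det3 z₂ y₂ v₂ := rd hA₂.wz hB₂.wz hB₂.wu hz
      have key := cramer z₂ y₂ u₂ u₁
      have k1 := congrArg (fun w => det3 y₂ w v₂) key
      simp only [det3_add2, det3_smul2, det3_self12] at k1
      have e1 : det3 y₂ z₂ v₂ = - det3 z₂ y₂ v₂ := det3_swap12 z₂ y₂ v₂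
      rw [e1] at k1
      have i1 : 0 < det3 z₂ y₂ u₂ * det3 y₂ u₁ v₂ := mul_pos D ε₂u₁
      have i2 : det3 z₂ y₂ u₁ * det3 y₂ u₂ v₂ < 0 := mul_neg_of_pos_of_neg γ ε₂u₂
      have hα : det3 u₁ y₂ u₂ < 0 := by
        by_contra hcon
        push Not at hcon
        have := mul_nonneg hcon e0.le
        linarith
      have k2 := congrArg (fun w => ip (Tv x₁) w) key
      simp only [ip_add_right, ip_smul_right, tu1] at k2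
      have j1 := mul_nonneg γ.le tu2
      have j2 := mul_pos_of_neg_of_neg hα t1z2
      have j3 := mul_pos_of_neg_of_neg oA1 t1y2
      linarith
    · rw [one_mul, det3_swap23] at hz
      linarith
    · have key := cramer z₂ u₂ v₂ u₁
      have hεz : 0 < det3 z₂ u₁ v₂ := by
        rw [hz, det3_smul1] at ε₂u₁
        exact (pos_iff_pos_of_mul_pos ε₂u₁).mp hk
      have k2 := congrArg (fun w => ip (x₁.2.2 - c') w) key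
      simp only [ip_add_right, ip_smul_right, hA₂.wz] at k2
      have e1 : det3 z₂ u₂ v₂ = - det3 z₂ v₂ u₂ := det3_swap23 z₂ v₂ u₂
      have e2 : det3 z₂ u₂ u₁ = - det3 z₂ u₁ u₂ := det3_swap23 z₂ u₁ u₂
      rw [e1, e2] at k2
      have j1 := mul_pos hδ₂ hA₁.wu
      have j2 := mul_pos hεz hA₂.wu
      have j3 := mul_neg_of_neg_of_pos oA1 hB₂.wu
      linarith

end MAltOrder

open MAltOrder in
theorem t_AltOrder (hAltBasic : StmtAltBasic) (hAltDet : StmtAltDet) (hAltSide : StmtAltSide)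
    (hAltSigns : StmtAltSigns) (hArc : StmtArc) : StmtAltOrder := by
  intro A B C x₁ x₂ u₁ v₁ z₁ y₁ u₂ v₂ z₂ y₂ c' σ hC g₁ g₂ hc hσ h1 h2 hprod hzz
  have hB₁ := g₁.hB
  have hB₂ := g₂.hB
  rw [hc] at hB₂
  have hz0 : det3 (x₁.2.2 - c') z₁ z₂ ≠ 0 := by
    intro h; rw [h, mul_zero] at hzz; exact lt_irrefl _ hzz
  rcases (hArc C x₁.2.2 c' y₁ y₂ y₂ σ hC hB₁.ne hσ hB₁.cz hB₂.cz hB₂.cz).1 with h | h | ⟨k, hk, h⟩
  · exact h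
  · exfalso
    rcases hσ with rfl | rfl
    · exact core hAltBasic hAltSide hAltSigns hArc hC g₁ g₂ hc (by linarith) hprod (by linarith)
        (by linarith)
    · have sw : ∀ {x : Al} {u v z y : E}, AGD A B C x u v z y c' c' →
          AGD B A C (asw x) v u y z c' c' := fun g =>
        ⟨(hAltBasic A B C _ _ _ g.al).2.2.2.2.2.2.2.2.2, g.hB, g.hA⟩
      have s₁ := (hAltSigns A B C x₁ u₁ v₁ z₁ y₁ c' c' g₁).2.2
      have s₂ := (hAltSigns A B C x₂ u₂ v₂ z₂ y₂ c' c' g₂).2.2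
      have q1 := mul_pos_of_neg_of_neg s₁ s₂
      have q3 : det3 z₁ v₁ u₁ * det3 y₁ u₁ v₁ * (det3 z₂ v₂ u₂ * det3 y₂ u₂ v₂) =
          (det3 z₁ v₁ u₁ * det3 z₂ v₂ u₂) * (det3 y₁ u₁ v₁ * det3 y₂ u₂ v₂) := by ring
      rw [q3] at q1
      have q4 := (pos_iff_pos_of_mul_pos q1).mp hprod
      have r1 : det3 (x₁.2.2 - c') y₂ y₁ = - det3 (x₁.2.2 - c') y₁ y₂ := det3_swap23 _ _ _
      have r2 : det3 (x₁.2.2 - c') z₂ z₁ = - det3 (x₁.2.2 - c') z₁ z₂ := det3_swap23 _ _ _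
      have r3 : det3 (x₁.2.2 - c') y₂ z₂ = - det3 (x₁.2.2 - c') z₂ y₂ := det3_swap23 _ _ _
      exact core (x₁ := asw x₁) (x₂ := asw x₂) hAltBasic hAltSide hAltSigns hArc hC (sw g₁)
        (sw g₂) hc (show 0 ≤ det3 (x₁.2.2 - c') y₂ z₂ by linarith) q4
        (show 0 < det3 (x₁.2.2 - c') y₁ y₂ by linarith)
        (show 0 < det3 (x₁.2.2 - c') z₂ z₁ by linarith)
  · exact (not_par hAltBasic hAltDet hAltSigns g₁ g₂ hc hprod hz0 hk h).elim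

end TPH
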