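import Pool.Agent.TPH.St6
import Pool.Agent.TPH.Closed

/-!
# Three parallel hyperplanes: the bound for out alternations
-/

set_option autoImplicit false

namespace TPH

namespace MAltOut

/-- A truth value as a Boolean. -/
noncomputable def tb (p : Prop) : Bool := @decide p (Classical.propDecidable _)

theorem tb_true {p : Prop} (h : tb p = true) : p := @of_decide_eq_true _ (Classical.propDecidable _) h

theorem tb_false {p : Prop} (h : tb p = false) : ¬ p :=
  @of_decide_eq_false _ (Classical.propDecidable _) h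

theorem tb_eq {p q : Prop} (h : tb p = tb q) : p ↔ q := by
  constructor
  · intro hp
    by_contra hq
    have h1 : tb p = true := @decide_eq_true _ (Classical.propDecidable _) hp
    have h2 : tb q = false := @decide_eq_false _ (Classical.propDecidable _) hq
    rw [h1, h2] at h
    exact Bool.noConfusion h
  · intro hq
    by_contra hp
    have h1 : tb p = false := @decide_eq_false _ (Classical.propDecidable _) hp
    have h2 : tb q = true := @decide_eq_true _ (Classical.propDecidable _) hq
    rw [h1, h2] at h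
    exact Bool.noConfusion h

/-- The sign as a number. -/
noncomputable def sr (b : Bool) : ℝ := if b then 1 else -1

/-- The position and the exit up to positive multiples, together with the sign of `det3 z v u`,
determine the alternation. -/
theorem same (hAltBasic : StmtAltBasic) (hAltDet : StmtAltDet) (hAltSigns : StmtAltSigns)
    {A B C : Finset E} {x x' : Al} {u v z y c₁ c₂ u' v' z' y' c₁' c₂' : E} {k k' : ℝ}
    (h : AGD A B C x u v z y c₁ c₂) (h' : AGD A B C x' u' v' z' y' c₁' c₂')
    (hk : 0 < k) (hk' : 0 < k') (hz : z' = k • z) (hu : u' = k' • u)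
    (hs : 0 < det3 z v u ↔ 0 < det3 z' v' u') : x = x' := by
  have hr : ∃ r, InR A B x.2.2 r := by
    obtain ⟨κ, _, hκ⟩ := h.hA.enter
    exact ⟨_, hκ⟩
  have he : x'.1.2 = x.1.2 := by
    rw [← h.al.ua, ← h'.al.ua, hu, Mx_smul hk']
  have ha : x'.1.1 = x.1.1 := by
    by_contra hne
    obtain ⟨_, _, _, _, _, _, hb, _, _, _⟩ := hAltBasic A B C x u v h.al
    obtain ⟨_, _, _, _, _, _, hb', _, _, _⟩ := hAltBasic A B C x' u' v' h'.al
    have h1 := (hb x'.1.1 (he ▸ h'.al.ae) hne).2
    have h2 := (hb' x.1.1 (he ▸ h.al.ae) (Ne.symm hne)).2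
    have hpu : ip (x.1.1 - x'.1.1) u = 0 := by
      rw [ip_sub_left, h.hA.perp_u x.1.1 h.al.ae x'.1.1 (he ▸ h'.al.ae), sub_self]
    have hpz : ip (x.1.1 - x'.1.1) z = 0 := by
      rw [ip_sub_left, h.hA.perp_z x.1.1 h.al.ae x'.1.1 (he ▸ h'.al.ae), sub_self]
    obtain ⟨l, hl⟩ := par_cr_of_ip h.hA.cr_ne hpz hpu
    have g : ∀ w, ip (x.1.1 - x'.1.1) w = -(l * det3 z w u) := by
      intro w
      rw [hl, ip_smul_left, ip_cr, det3_swap23]
      ring
    rw [g] at h1
    have h3 : ip (x'.1.1 - x.1.1) v' = l * det3 z v' u := by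
      have : x'.1.1 - x.1.1 = -(x.1.1 - x'.1.1) := by abel
      rw [this, ip_neg_left, g, neg_neg]
    rw [h3] at h2
    have h4 : det3 z' v' u' = k * k' * det3 z v' u := by
      rw [hz, hu, det3_smul1, det3_smul3]
      ring
    have h5 := (hAltSigns A B C x u v z y c₁ c₂ h).2.2
    have h6 := (hAltSigns A B C x' u' v' z' y' c₁' c₂' h').2.2
    rw [h4] at hs h6
    have hkk : 0 < k * k' := mul_pos hk hk'
    have hs' : 0 < det3 z v u ↔ 0 < det3 z v' u := by
      rw [hs]
      exact ⟨fun q => (mul_pos_iff_of_pos_left hkk).mp q, fun q => mul_pos hkk q⟩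
    rcases lt_trichotomy (det3 z v u) 0 with g1 | g1 | g1
    · have g2 : ¬ 0 < det3 z v' u := fun q => absurd (hs'.mpr q) (not_lt.mpr g1.le)
      have g3 : 0 < l := by
        by_contra hl0
        have := mul_nonneg_of_nonpos_of_nonpos (not_lt.mp hl0) g1.le
        linarith
      have := mul_nonpos_of_nonneg_of_nonpos g3.le (not_lt.mp g2)
      linarith
    · rw [g1, zero_mul] at h5
      exact lt_irrefl _ h5
    · have g2 : 0 < det3 z v' u := hs'.mp g1
      have g3 : l < 0 := by
        by_contra hl0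
        have := mul_nonneg (not_lt.mp hl0) g1.le
        linarith
      have := mul_neg_of_neg_of_pos g3 g2
      linarith
  exact ((hAltDet A B C x x' u v u' v' k' hr h.al h'.al hk').1 ha hu).symm

end MAltOut

open MAltOut in
theorem t_AltOut (hAltBasic : StmtAltBasic) (hAltDet : StmtAltDet) (hAltSigns : StmtAltSigns)
    (hAltNe : StmtAltNe) (hAltSide : StmtAltSide) (hAltOutPair : StmtAltOutPair)
    (hAltOutMult : StmtAltOutMult) : StmtAltOut := by
  classical
  intro A B C X hA hB hC hX
  choose! u v z y c₁ c₂ hG using hX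
  have hk : ∀ c c' : E, c ≠ c' → ∃ key : E → ℝ, ∀ s t, Mx C s = {c, c'} → Mx C t = {c, c'} →
      (key s < key t ↔ 0 < det3 (c - c') s t) ∧ (key s = key t ↔ ∃ k : ℝ, 0 < k ∧ t = k • s) :=
    fun c c' hne => Closed.c_t_KeyFn C c c' hC hne
  choose! kf hkf using hk
  set sg : Al → Bool := fun x => tb (0 < det3 (z x) (y x) (u x)) with hsgdef
  set po : Al → Bool := fun x => tb (0 < det3 (z x) (v x) (u x)) with hpodef
  set cls : Al → E × E × Bool × Bool := fun x => (x.2.2, c₁ x, sg x, po x) with hcls
  set key : Al → ℝ := fun x => sr (sg x) * kf x.2.2 (c₁ x) (z x) with hkey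
  set P : Finset (Al × Al) := (X ×ˢ X).filter (fun p => cls p.1 = cls p.2 ∧ key p.1 < key p.2)
    with hP
  have hdet0 : ∀ x ∈ X, det3 (z x) (y x) (u x) ≠ 0 := fun x hx =>
    hAltNe A B C x (u x) (v x) (z x) (y x) (c₁ x) (c₂ x) (hG x hx).1 (hG x hx).2
  -- transport of the half flat
  have hHF : ∀ x ∈ X, ∀ x' ∈ X, cls x = cls x' →
      HF A B C x'.1.2 x.2.2 (c₁ x) (u x') (z x') := by
    intro x _ x' hx' he
    have h1 : x.2.2 = x'.2.2 := congrArg (fun q : E × E × Bool × Bool => q.1) he
    have h2 : c₁ x = c₁ x' := congrArg (fun q : E × E × Bool × Bool => q.2.1) he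
    rw [h1, h2]
    exact (hG x' hx').1.hA
  have hsg : ∀ x x', cls x = cls x' → sg x = sg x' := fun x x' he =>
    congrArg (fun q : E × E × Bool × Bool => q.2.2.1) he
  have hpo : ∀ x x', cls x = cls x' → po x = po x' := fun x x' he =>
    congrArg (fun q : E × E × Bool × Bool => q.2.2.2) he
  have hkey' : ∀ x x', cls x = cls x' →
      key x' = sr (sg x) * kf x.2.2 (c₁ x) (z x') := by
    intro x x' he
    have h1 : x.2.2 = x'.2.2 := congrArg (fun q : E × E × Bool × Bool => q.1) he
    have h2 : c₁ x = c₁ x' := congrArg (fun q : E × E × Bool × Bool => q.2.1) he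
    rw [h1, h2, hsg x x' he]
  have hmain := Closed.c_t_Abstract Al (E × E × Bool × Bool) X ∅ cls key (fun _ _ => True) P
    ?_ ?_ ?_
  · -- conclusion
    have hcard1 : (X.image cls).card ≤ 16 * (Ed C).card := by
      have hsub : X.image cls ⊆
          (Ed C).biUnion (fun e => e ×ˢ (e ×ˢ (Finset.univ : Finset (Bool × Bool)))) := by
        intro q hq
        rw [Finset.mem_image] at hq
        obtain ⟨x, hx, rfl⟩ := hq
        have hf := (hG x hx).1.hA
        rw [Finset.mem_biUnion]
        refine ⟨{x.2.2, c₁ x}, ?_, ?_⟩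
        · rw [mem_Ed]
          exact ⟨Finset.card_pair hf.ne, z x, hf.cz⟩
        · simp only [hcls, Finset.mem_product, Finset.mem_univ, and_true]
          exact ⟨by simp, by simp⟩
      refine (Finset.card_le_card hsub).trans ?_
      refine (Finset.card_biUnion_le_card_mul _ _ 16 ?_).trans (by rw [Nat.mul_comm])
      intro e he
      have h2 := (mem_Ed.mp he).1
      rw [Finset.card_product, Finset.card_product, h2]
      simp
    have hcard2 : P.card ≤ 16 * ((Ed A).card * (Ed B).card) := by
      refine hAltOutMult A B C P hA hB ?_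
      intro p hp
      rw [hP, Finset.mem_filter, Finset.mem_product] at hp
      obtain ⟨⟨hx, hx'⟩, he, hlt⟩ := hp
      set x := p.1 with hxdef
      set x' := p.2 with hx'def
      have hf := (hG x hx).1.hA
      have hf' := hHF x hx x' hx' he
      have h1 : x.2.2 = x'.2.2 := congrArg (fun q : E × E × Bool × Bool => q.1) he
      rw [hkey' x x' he] at hlt
      have hkk := hkf x.2.2 (c₁ x) hf.ne
      have hcase : (0 < det3 (x.2.2 - c₁ x) (z x) (z x') ∧ 0 < det3 (z x) (y x) (u x)) ∨
          (0 < det3 (x.2.2 - c₁ x) (z x') (z x) ∧ det3 (z x) (y x) (u x) < 0) := by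
        cases hb : sg x with
        | true =>
          left
          have hlt' : kf x.2.2 (c₁ x) (z x) < kf x.2.2 (c₁ x) (z x') := by
            simpa [hkey, hb, sr] using hlt
          exact ⟨(hkk _ _ hf.cz hf'.cz).1.mp hlt', tb_true hb⟩
        | false =>
          right
          have hlt' : kf x.2.2 (c₁ x) (z x') < kf x.2.2 (c₁ x) (z x) := by
            simpa [hkey, hb, sr] using hlt
          refine ⟨(hkk _ _ hf'.cz hf.cz).1.mp hlt', ?_⟩
          exact lt_of_le_of_ne (not_lt.mp (tb_false hb)) (hdet0 x hx)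
      have hprod : 0 < det3 (z x) (z x') (u x) * det3 (z x) (y x) (u x) := by
        rcases hcase with ⟨ha, hb⟩ | ⟨ha, hb⟩
        · exact mul_pos ((hf.det_pos_iff hf' hf.wu).1.mpr ha) hb
        · have h3 : det3 (x.2.2 - c₁ x) (z x) (z x') < 0 := by
            rw [det3_swap23] at ha
            linarith
          exact mul_pos_of_neg_of_neg ((hf.det_pos_iff hf' hf.wu).2.1.mpr h3) hb
      have hee : x.1.2 ≠ x'.1.2 := by
        intro hee
        have h4 : Perp x.1.2 (z x') := by
          rw [hee]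
          exact hf'.perp_z
        rw [(hf.perp_iff _).mp h4, zero_mul] at hprod
        exact lt_irrefl _ hprod
      have hnp : ¬ Perp x'.1.2 (v x) := by
        rw [hf'.perp_iff]
        intro h0
        have h5 := hAltSide A B C x (u x) (v x) x'.1.2 (c₁ x) (u x') (z x') (hG x hx).1.al hf' hee
        rw [h0, mul_zero] at h5
        exact lt_irrefl _ h5
      obtain ⟨α, β, α', β', g1, g2, g3, g4, g5⟩ := hAltOutPair A B C x (u x) (v x) (z x) (y x)
        (c₁ x) (c₂ x) x'.1.2 (u x') (z x') (hG x hx).1 hf' (hG x hx).2 hprod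
      exact ⟨u x, v x, z x, y x, c₁ x, c₂ x, u x', v x', z x', y x', c₁ x', c₂ x', α, β, α', β',
        (hG x hx).1, (hG x' hx').1, h1, g1, g2, g3, g4, g5, hnp⟩
    refine hmain.trans ?_
    rw [Finset.card_empty, add_zero]
    exact Nat.mul_le_mul (Nat.mul_le_mul_left 8 hcard1) (Nat.add_le_add_right hcard2 _)
  · intro x hx x' hx' he hkeq
    have hf := (hG x hx).1.hA
    have hf' := hHF x hx x' hx' he
    rw [hkey' x x' he] at hkeq
    have hkeq' : kf x.2.2 (c₁ x) (z x) = kf x.2.2 (c₁ x) (z x') := by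
      cases hb : sg x with
      | true => simpa [hkey, hb, sr] using hkeq
      | false => simpa [hkey, hb, sr] using hkeq
    obtain ⟨k, hk0, hzk⟩ := (hkf x.2.2 (c₁ x) hf.ne _ _ hf.cz hf'.cz).2.mp hkeq'
    obtain ⟨k', hk'0, huk⟩ := Closed.c_t_ZDet A B C x.1.2 x'.1.2 x.2.2 (c₁ x) (c₁ x) (u x) (z x)
      (u x') (z x') k hf hf' hk0 hzk
    exact same hAltBasic hAltDet hAltSigns (hG x hx).1 (hG x' hx').1 hk0 hk'0 hzk huk
      (tb_eq (hpo x x' he))
  · intro x _ y' _ z' _ _ _ _ _ _
    exact Or.inl trivial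
  · intro x hx x' hx' he hlt _
    rw [hP, Finset.mem_filter, Finset.mem_product]
    exact ⟨⟨hx, hx'⟩, he, hlt⟩

end TPH
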