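import Pool.Agent.TPH.St6
import Pool.Agent.TPH.Closed

/-!
# Three parallel hyperplanes: the multiplicity of the crossings of out alternations
-/

set_option autoImplicit false

namespace TPH

namespace MAltOutMult

/-- The data of a pair of alternations and of their crossing. -/
structure PD (A B C : Finset E) (p : Al × Al) (t u₁ v₁ y₁ d₁ u₂ v₂ z₂ c₂ : E) (α β α' β' : ℝ) :
    Prop where
  al1 : IsAlt A B C p.1 u₁ v₁
  al2 : IsAlt A B C p.2 u₂ v₂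
  hB : HF B A C p.1.2.1.2 p.1.2.2 d₁ v₁ y₁
  hA : HF A B C p.2.1.2 p.2.2.2 c₂ u₂ z₂
  cc : p.1.2.2 = p.2.2.2
  hα : 0 < α
  hβ : 0 < β
  hα' : 0 < α'
  hβ' : 0 < β'
  t1 : t = α • v₁ + β • y₁
  t2 : t = α' • u₂ + β' • z₂
  np : ¬ Perp p.2.1.2 v₁

section

variable {A B C : Finset E} {p p' : Al × Al} {t u₁ v₁ y₁ d₁ u₂ v₂ z₂ c₂ : E} {α β α' β' : ℝ}
  {s r₁ q₁ w₁ b₁ r₂ q₂ w₂ b₂ : E} {γ δ γ' δ' : ℝ}

theorem PD.MxA (h : PD A B C p t u₁ v₁ y₁ d₁ u₂ v₂ z₂ c₂ α β α' β') : Mx A t = p.2.1.2 := by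
  rw [h.t2]
  exact h.hA.Mx_A_comb h.hα'.le h.hβ'.le (add_pos h.hα' h.hβ')

theorem PD.MxC (h : PD A B C p t u₁ v₁ y₁ d₁ u₂ v₂ z₂ c₂ α β α' β') : Mx C t = {p.1.2.2} := by
  rw [h.t1]
  exact h.hB.Mx_C_comb h.hα h.hβ.le

theorem PD.perpA (h : PD A B C p t u₁ v₁ y₁ d₁ u₂ v₂ z₂ c₂ α β α' β') : Perp p.2.1.2 t := by
  rw [h.t2]
  exact Perp.comb _ _ h.hA.perp_u h.hA.perp_z

theorem PD.perpB (h : PD A B C p t u₁ v₁ y₁ d₁ u₂ v₂ z₂ c₂ α β α' β') : Perp p.1.2.1.2 t := by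
  rw [h.t1]
  exact Perp.comb _ _ h.hB.perp_u h.hB.perp_z

theorem PD.t_ne (hA3 : 3 ≤ A.card) (h : PD A B C p t u₁ v₁ y₁ d₁ u₂ v₂ z₂ c₂ α β α' β') :
    t ≠ 0 := by
  intro h0
  have h1 := h.MxA
  rw [h0, Mx_zero] at h1
  have h2 := h.hA.card
  rw [← h1] at h2
  omega

/-- The crossing is determined by the two edges up to a positive factor. -/
theorem par (hA3 : 3 ≤ A.card) (h : PD A B C p t u₁ v₁ y₁ d₁ u₂ v₂ z₂ c₂ α β α' β')
    (h' : PD A B C p' s r₁ q₁ w₁ b₁ r₂ q₂ w₂ b₂ γ δ γ' δ') (he : p.2.1.2 = p'.2.1.2)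
    (hf : p.1.2.1.2 = p'.1.2.1.2) : ∃ k : ℝ, 0 < k ∧ s = k • t := by
  obtain ⟨a, a', hne, hea⟩ := Finset.card_eq_two.mp h.hA.card
  obtain ⟨b, b', hne', hfb⟩ := Finset.card_eq_two.mp h.hB.card
  have hd : a - a' ≠ 0 := sub_ne_zero.mpr hne
  have hg : b - b' ≠ 0 := sub_ne_zero.mpr hne'
  have hcr : cr (a - a') (b - b') ≠ 0 := by
    intro h0
    obtain ⟨k, hk⟩ := par_of_cr hd h0
    have hk0 : k ≠ 0 := by
      rintro rfl
      rw [zero_smul] at hk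
      exact hg hk
    have h1 := h.hB.perp_u
    rw [hfb, perp_pair] at h1
    have h2 : ip (b - b') v₁ = 0 := by rw [ip_sub_left, h1, sub_self]
    rw [hk, ip_smul_left] at h2
    rcases mul_eq_zero.mp h2 with h3 | h3
    · exact hk0 h3
    · apply h.np
      rw [hea, perp_pair]
      rw [ip_sub_left] at h3
      linarith
  have key : ∀ x : E, Perp p.2.1.2 x → Perp p.1.2.1.2 x →
      ∃ k : ℝ, x = k • cr (a - a') (b - b') := by
    intro x hx hx'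
    rw [hea, perp_pair] at hx
    rw [hfb, perp_pair] at hx'
    apply par_cr_of_ip hcr
    · rw [ip_comm, ip_sub_left, hx, sub_self]
    · rw [ip_comm, ip_sub_left, hx', sub_self]
  obtain ⟨k₁, hk₁⟩ := key t h.perpA h.perpB
  obtain ⟨k₂, hk₂⟩ := key s (he ▸ h'.perpA) (hf ▸ h'.perpB)
  have ht := h.t_ne hA3
  have hs := h'.t_ne hA3
  have hk₁0 : k₁ ≠ 0 := by
    rintro rfl
    rw [zero_smul] at hk₁
    exact ht hk₁
  have hk₂0 : k₂ ≠ 0 := by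
    rintro rfl
    rw [zero_smul] at hk₂
    exact hs hk₂
  have hst : s = (k₂ / k₁) • t := by
    rw [hk₁, smul_smul, div_mul_cancel₀ _ hk₁0, hk₂]
  refine ⟨k₂ / k₁, ?_, hst⟩
  rcases lt_or_gt_of_ne (div_ne_zero hk₂0 hk₁0) with hneg | hpos
  · exfalso
    -- a point of `A` outside of the edge
    have hsub : ∃ x ∈ A, x ∉ p.2.1.2 := by
      by_contra hcon
      push Not at hcon
      have := Finset.card_le_card hcon
      have h2 := h.hA.card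
      omega
    obtain ⟨x, hxA, hx⟩ := hsub
    have haM : a ∈ Mx A t := by rw [h.MxA, hea]; simp
    have haM' : a ∈ Mx A s := by rw [h'.MxA, ← he, hea]; simp
    have h1 := Mx_lt haM hxA (by rw [h.MxA]; exact hx)
    have h2 := Mx_le haM' hxA
    rw [hst, ip_smul_right, ip_smul_right] at h2
    have h3 : (k₂ / k₁) * ip a t < (k₂ / k₁) * ip x t := mul_lt_mul_of_neg_left h1 hneg
    linarith
  · exact hpos

/-- A pair is determined by the two edges, two signs and two vertices. -/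
theorem uniq (hAltDet : StmtAltDet) (hExit2 : StmtExit2) (hA3 : 3 ≤ A.card)
    (h : PD A B C p t u₁ v₁ y₁ d₁ u₂ v₂ z₂ c₂ α β α' β')
    (h' : PD A B C p' s r₁ q₁ w₁ b₁ r₂ q₂ w₂ b₂ γ δ γ' δ') {a a' b b' : E} (ha : a ≠ a')
    (hb : b ≠ b') (he : p.2.1.2 = {a, a'}) (he' : p'.2.1.2 = {a, a'})
    (hf : p.1.2.1.2 = {b, b'}) (hf' : p'.1.2.1.2 = {b, b'})
    (hs1 : 0 < det3 (b - b') t v₁ ↔ 0 < det3 (b - b') s q₁)
    (hs2 : 0 < det3 (a - a') t u₂ ↔ 0 < det3 (a - a') s r₂)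
    (hv1 : p'.1.2.1.1 = p.1.2.1.1) (hv2 : p'.2.1.1 = p.2.1.1) : p = p' := by
  obtain ⟨k, hk, hst⟩ := par hA3 h h' (he.trans he'.symm) (hf.trans hf'.symm)
  have hc : p.1.2.2 = p'.1.2.2 := by
    have h1 := h.MxC
    have h2 := h'.MxC
    rw [hst, Mx_smul hk, h1] at h2
    exact Finset.singleton_inj.mp h2
  have sgn : ∀ x y : ℝ, x ≠ 0 → y ≠ 0 → (0 < x ↔ 0 < y) → 0 < x * y := by
    intro x y hx hy hxy
    rcases lt_or_gt_of_ne hx with h1 | h1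
    · have h2 : ¬ 0 < y := fun h3 => absurd (hxy.mpr h3) (not_lt.mpr h1.le)
      exact mul_pos_of_neg_of_neg h1 (lt_of_le_of_ne (not_lt.mp h2) hy)
    · exact mul_pos h1 (hxy.mp h1)
  have hk' : t = (1 / k) • s := by
    rw [hst, smul_smul, one_div, inv_mul_cancel₀ hk.ne', one_smul]
  -- the first alternations
  have n1 := MOutMult.det_ne h.hB hf hb h.hβ h.t1
  have n1' := MOutMult.det_ne h'.hB hf' hb h'.hβ h'.t1
  have q1 : 0 < det3 (b - b') t v₁ * det3 (b - b') t q₁ := by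
    have h1 := sgn _ _ n1 n1' hs1
    rw [hst, det3_smul2] at h1
    have h2 : 0 < k * (det3 (b - b') t v₁ * det3 (b - b') t q₁) := by
      have : k * (det3 (b - b') t v₁ * det3 (b - b') t q₁) =
        det3 (b - b') t v₁ * (k * det3 (b - b') t q₁) := by ring
      rw [this]; exact h1
    exact pos_of_mul_pos_right h2 hk.le
  have n2 := MOutMult.det_ne h.hA he ha h.hβ' h.t2
  have n2' := MOutMult.det_ne h'.hA he' ha h'.hβ' h'.t2
  have q2 : 0 < det3 (a - a') t u₂ * det3 (a - a') t r₂ := by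
    have h1 := sgn _ _ n2 n2' hs2
    rw [hst, det3_smul2] at h1
    have h2 : 0 < k * (det3 (a - a') t u₂ * det3 (a - a') t r₂) := by
      have : k * (det3 (a - a') t u₂ * det3 (a - a') t r₂) =
        det3 (a - a') t u₂ * (k * det3 (a - a') t r₂) := by ring
      rw [this]; exact h1
    exact pos_of_mul_pos_right h2 hk.le
  have g1 : ∃ k : ℝ, 0 < k ∧ q₁ = k • v₁ := by
    refine hExit2 B A C {b, b'} p.1.2.2 d₁ b₁ v₁ y₁ q₁ w₁ t b b' α β ((1 / k) * γ) ((1 / k) * δ)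
      (hf ▸ h.hB) ?_ rfl hb h.hα h.hβ (mul_pos (one_div_pos.mpr hk) h'.hα)
      (mul_pos (one_div_pos.mpr hk) h'.hβ) h.t1 ?_ q1
    · rw [hc]
      exact hf' ▸ h'.hB
    · rw [hk', h'.t1, smul_add, smul_smul, smul_smul]
  have g2 : ∃ k : ℝ, 0 < k ∧ r₂ = k • u₂ := by
    refine hExit2 A B C {a, a'} p.2.2.2 c₂ b₂ u₂ z₂ r₂ w₂ t a a' α' β' ((1 / k) * γ')
      ((1 / k) * δ') (he ▸ h.hA) ?_ rfl ha h.hα' h.hβ' (mul_pos (one_div_pos.mpr hk) h'.hα')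
      (mul_pos (one_div_pos.mpr hk) h'.hβ') h.t2 ?_ q2
    · rw [← h.cc, hc, h'.cc]
      exact he' ▸ h'.hA
    · rw [hk', h'.t2, smul_add, smul_smul, smul_smul]
  obtain ⟨k₁, hk₁, hv₁⟩ := g1
  obtain ⟨k₂, hk₂, hv₂⟩ := g2
  have hr2 : ∃ r, InR A B p.2.2.2 r := by
    obtain ⟨κ, -, hin⟩ := h.hA.enter
    exact ⟨_, hin⟩
  have hr1 : ∃ r, InR A B p.1.2.2 r := by
    rw [h.cc]
    exact hr2
  have r1 : p'.1 = p.1 := (hAltDet A B C p.1 p'.1 u₁ v₁ r₁ q₁ k₁ hr1 h.al1 h'.al1 hk₁).2 hv1 hv₁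
  have r2 : p'.2 = p.2 := (hAltDet A B C p.2 p'.2 u₂ v₂ r₂ q₂ k₂ hr2 h.al2 h'.al2 hk₂).1 hv2 hv₂
  exact (Prod.ext r1 r2).symm

end

/-- Two elements of a pair which agree about being the first one are equal. -/
theorem eq_of_dec {a a' x y : E} {e : Finset E} (he : e = {a, a'}) (hx : x ∈ e) (hy : y ∈ e)
    (h : x = a ↔ y = a) : x = y := by
  rw [he, Finset.mem_insert, Finset.mem_singleton] at hx hy
  by_cases hxa : x = a
  · rw [hxa, h.mp hxa]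
  · have hya : ¬ y = a := fun h1 => hxa (h.mpr h1)
    rcases hx with h1 | h1
    · exact absurd h1 hxa
    · rcases hy with h2 | h2
      · exact absurd h2 hya
      · rw [h1, h2]

/-- The relation between a pair of alternations and its signs. -/
def Rel (A B C : Finset E) (a a' b b' : E) (p : Al × Al) (σ : (Bool × Bool) × (Bool × Bool)) :
    Prop :=
  ∃ (t u₁ v₁ y₁ d₁ u₂ v₂ z₂ c₂ : E) (α β α' β' : ℝ),
    PD A B C p t u₁ v₁ y₁ d₁ u₂ v₂ z₂ c₂ α β α' β' ∧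
    (σ.1.1 = true ↔ 0 < det3 (b - b') t v₁) ∧ (σ.1.2 = true ↔ 0 < det3 (a - a') t u₂) ∧
    (σ.2.1 = true ↔ p.1.2.1.1 = b) ∧ (σ.2.2 = true ↔ p.2.1.1 = a)

end MAltOutMult

open MAltOutMult in
/-- Each pair of edges is the crossing of at most 16 pairs of out alternations. -/
theorem t_AltOutMult (_hAltBasic : StmtAltBasic) (hAltDet : StmtAltDet) : StmtAltOutMult := by
  classical
  have hExit2 : StmtExit2 := Closed.c_t_Exit2
  intro A B C P hA3 _ hP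
  have hPD : ∀ p ∈ P, ∃ (t u₁ v₁ y₁ d₁ u₂ v₂ z₂ c₂ : E) (α β α' β' : ℝ),
      PD A B C p t u₁ v₁ y₁ d₁ u₂ v₂ z₂ c₂ α β α' β' := by
    intro p hp
    obtain ⟨u₁, v₁, z₁, y₁, c₁, d₁, u₂, v₂, z₂, y₂, c₂, d₂, α, β, α', β', h1, h2, h3, h4, h5, h6,
      h7, h8, h9⟩ := hP p hp
    exact ⟨α • v₁ + β • y₁, u₁, v₁, y₁, d₁, u₂, v₂, z₂, c₂, α, β, α', β',
      ⟨h1.al, h2.al, h1.hB, h2.hA, h3, h4, h5, h6, h7, rfl, h8, h9⟩⟩
  have hfib : ∀ x ∈ P.image (fun p : Al × Al => (p.2.1.2, p.1.2.1.2)),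
      (P.filter fun p => (p.2.1.2, p.1.2.1.2) = x).card ≤ 16 := by
    intro x hx
    rw [Finset.mem_image] at hx
    obtain ⟨p₀, hp₀, rfl⟩ := hx
    obtain ⟨t, u₁, v₁, y₁, d₁, u₂, v₂, z₂, c₂, α, β, α', β', h0⟩ := hPD p₀ hp₀
    obtain ⟨a, a', hne, hea⟩ := Finset.card_eq_two.mp h0.hA.card
    obtain ⟨b, b', hne', hfb⟩ := Finset.card_eq_two.mp h0.hB.card
    have h4 : (16 : ℕ) = (Finset.univ : Finset ((Bool × Bool) × (Bool × Bool))).card := by decide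
    rw [h4]
    refine Finset.card_le_card_of_forall_subsingleton (Rel A B C a a' b b') ?_ ?_
    · intro p hp
      rw [Finset.mem_filter] at hp
      obtain ⟨t, u₁, v₁, y₁, d₁, u₂, v₂, z₂, c₂, α, β, α', β', h⟩ := hPD p hp.1
      exact ⟨((decide (0 < det3 (b - b') t v₁), decide (0 < det3 (a - a') t u₂)),
        (decide (p.1.2.1.1 = b), decide (p.2.1.1 = a))),
        Finset.mem_univ _, t, u₁, v₁, y₁, d₁, u₂, v₂, z₂, c₂, α, β, α', β', h, decide_eq_true_iff,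
        decide_eq_true_iff, decide_eq_true_iff, decide_eq_true_iff⟩
    · rintro σ _ p ⟨hp, hr⟩ p' ⟨hp', hr'⟩
      have m := (Finset.mem_filter.mp hp).2
      have m' := (Finset.mem_filter.mp hp').2
      obtain ⟨t, u₁, v₁, y₁, d₁, u₂, v₂, z₂, c₂, α, β, α', β', h, h1, h2, h3, h4⟩ := hr
      obtain ⟨s, r₁, q₁, w₁, b₁, r₂, q₂, w₂, b₂, γ, δ, γ', δ', h', h1', h2', h3', h4'⟩ := hr'
      have m1 := (Prod.mk.injEq _ _ _ _).mp m
      have m1' := (Prod.mk.injEq _ _ _ _).mp m'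
      have x1 : p'.1.2.1.1 = p.1.2.1.1 :=
        (eq_of_dec (m1.2.trans hfb) h.al1.bf (m1.2.trans m1'.2.symm ▸ h'.al1.bf)
          (h3.symm.trans h3')).symm
      have x2 : p'.2.1.1 = p.2.1.1 :=
        (eq_of_dec (m1.1.trans hea) h.al2.ae (m1.1.trans m1'.1.symm ▸ h'.al2.ae)
          (h4.symm.trans h4')).symm
      exact uniq hAltDet hExit2 hA3 h h' hne hne' (m1.1.trans hea) (m1'.1.trans hea)
        (m1.2.trans hfb) (m1'.2.trans hfb) (h1.symm.trans h1') (h2.symm.trans h2') x1 x2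
  have himg : (P.image (fun p : Al × Al => (p.2.1.2, p.1.2.1.2))).card ≤
      (Ed A).card * (Ed B).card := by
    rw [← Finset.card_product]
    apply Finset.card_le_card
    intro x hx
    rw [Finset.mem_image] at hx
    obtain ⟨p, hp, rfl⟩ := hx
    obtain ⟨t, u₁, v₁, y₁, d₁, u₂, v₂, z₂, c₂, α, β, α', β', h⟩ := hPD p hp
    rw [Finset.mem_product]
    exact ⟨mem_Ed.mpr ⟨h.hA.card, u₂, h.hA.eu⟩, mem_Ed.mpr ⟨h.hB.card, v₁, h.hB.eu⟩⟩
  calc P.card ≤ 16 * (P.image (fun p : Al × Al => (p.2.1.2, p.1.2.1.2))).card :=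
        Finset.card_le_mul_card_image P 16 hfib
    _ ≤ 16 * ((Ed A).card * (Ed B).card) := Nat.mul_le_mul_left 16 himg

end TPH
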