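import Pool.Agent.TPH.St5
import Pool.Agent.TPH.Closed

/-!
# Three parallel hyperplanes: two out alternations of the same group cross
-/

set_option autoImplicit false

namespace TPH

namespace MAltOutPair

theorem det3_smul3' (s : ℝ) (hs : s * s = 1) (a b c : E) :
    det3 (s • a) (s • b) (s • c) = s * det3 a b c := by
  rw [det3_smul1, det3_smul2, det3_smul3]
  linear_combination (s * det3 a b c) * hs

/-- Step (3): from a suitable vector `p` to the crossing. -/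
theorem step3 {A B C e₂ : Finset E} {c c' v₁ y₁ u₁ u₂ z₂ : E} {s : ℝ}
    (h3 : HF A B C e₂ c c' u₂ z₂)
    (hωv : 0 < ip (c - c') v₁) (hωy : 0 < ip (c - c') y₁)
    (l2 : 0 < s * det3 u₁ z₂ u₂) (l3 : 0 < s * det3 u₁ y₁ u₂) (l4 : 0 < s * det3 z₂ y₁ u₂)
    {x₁ x₂ : ℝ} (hx₁ : 0 < x₁) (hx₂ : 0 ≤ x₂)
    (hp : s * det3 z₂ (x₁ • v₁ + x₂ • y₁) u₂ < 0)
    (hl : 0 ≤ s * det3 u₁ (x₁ • v₁ + x₂ • y₁) u₂) :
    ∃ α β α' β' : ℝ, 0 < α ∧ 0 < β ∧ 0 < α' ∧ 0 < β' ∧ α • v₁ + β • y₁ = α' • u₂ + β' • z₂ := by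
  set p : E := x₁ • v₁ + x₂ • y₁ with hpdef
  set t : E := (s * det3 z₂ y₁ u₂) • p + (-(s * det3 z₂ p u₂)) • y₁ with ht
  have hβ : 0 < -(s * det3 z₂ p u₂) := by linarith
  have hdt : det3 z₂ t u₂ = 0 := by
    rw [ht, det3_add2, det3_smul2, det3_smul2]; ring
  obtain ⟨α', β', hc⟩ := h3.comb ((h3.perp_iff t).mpr hdt)
  have hωp : 0 < ip (c - c') p := by
    rw [hpdef, ip_add_right, ip_smul_right, ip_smul_right]
    exact add_pos_of_pos_of_nonneg (mul_pos hx₁ hωv) (mul_nonneg hx₂ hωy.le)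
  have htt : t = ((s * det3 z₂ y₁ u₂) * x₁) • v₁ +
      ((s * det3 z₂ y₁ u₂) * x₂ + (-(s * det3 z₂ p u₂))) • y₁ := by
    rw [ht]
    conv_lhs => rw [hpdef]
    rw [smul_add, smul_smul, smul_smul, add_smul, ← hpdef]
    abel
  refine ⟨(s * det3 z₂ y₁ u₂) * x₁, (s * det3 z₂ y₁ u₂) * x₂ + (-(s * det3 z₂ p u₂)), α', β',
    mul_pos l4 hx₁, add_pos_of_nonneg_of_pos (mul_nonneg l4.le hx₂) hβ, ?_, ?_, ?_⟩
  · have e1 : ip (c - c') t = α' * ip (c - c') u₂ := by
      rw [hc, ip_add_right, ip_smul_right, ip_smul_right, h3.wz, mul_zero, add_zero]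
    have e2 : 0 < ip (c - c') t := by
      rw [ht, ip_add_right, ip_smul_right, ip_smul_right]
      exact add_pos (mul_pos l4 hωp) (mul_pos hβ hωy)
    rw [e1] at e2
    exact (pos_iff_pos_of_mul_pos e2).mpr h3.wu
  · have e1 : s * det3 u₁ t u₂ = β' * (s * det3 u₁ z₂ u₂) := by
      rw [hc, det3_add2, det3_smul2, det3_smul2, det3_self23]; ring
    have e2 : 0 < s * det3 u₁ t u₂ := by
      rw [ht, det3_add2, det3_smul2, det3_smul2]
      have h5 := mul_pos hβ l3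
      have h6 := mul_nonneg l4.le hl
      linarith
    rw [e1] at e2
    exact (pos_iff_pos_of_mul_pos e2).mpr l2
  · rw [← htt]; exact hc

theorem core (hQuadCone : StmtQuadCone) {A B C e₁ f₁ e₂ : Finset E}
    {c c' c'' u₁ v₁ z₁ y₁ u₂ z₂ T : E} {s : ℝ} (hs : s * s = 1)
    (h1 : HF A B C e₁ c c' u₁ z₁) (h2 : HF B A C f₁ c c'' v₁ y₁)
    (h3 : HF A B C e₂ c c' u₂ z₂) (hne : c'' ≠ c')
    (Tu : ip T u₁ = 0) (Tv1 : ip T v₁ = 0) (Tz : ip T z₁ < 0) (Ty : ip T y₁ < 0)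
    (Tu2 : 0 ≤ ip T u₂) (hcr : cr u₁ v₁ ≠ 0)
    (d1 : 0 < s * det3 z₁ z₂ u₁) (d2 : 0 < s * det3 z₁ y₁ u₁)
    (d3 : s * det3 z₂ u₁ u₂ < 0) (d4 : 0 < s * det3 z₁ u₂ u₁) (d5 : s * det3 z₂ v₁ u₂ < 0) :
    ∃ α β α' β' : ℝ, 0 < α ∧ 0 < β ∧ 0 < α' ∧ 0 < β' ∧ α • v₁ + β • y₁ = α' • u₂ + β' • z₂ := by
  -- positivity of the functionals `c - c'` and `c - c''`
  have hω1 : 0 < ip (c - c') u₁ := h1.wu
  have hω2 : 0 < ip (c - c') u₂ := h3.wu
  have hωv : 0 < ip (c - c') v₁ := by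
    have h := Mx_lt (A := C) (u := v₁) (a := c) (a' := c') (by rw [h2.cu]; simp) h1.c'_mem
      (by
        rw [h2.cu, Finset.mem_singleton]
        exact fun h => h1.ne h.symm)
    rw [ip_sub_left]; linarith
  have hωy : 0 < ip (c - c') y₁ := by
    have h := Mx_lt (A := C) (u := y₁) (a := c) (a' := c') (by rw [h2.cz]; simp) h1.c'_mem
      (by
        rw [h2.cz, Finset.mem_insert, Finset.mem_singleton]
        rintro (h | h)
        · exact h1.ne h.symm
        · exact hne h.symm)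
    rw [ip_sub_left]; linarith
  have hc2 : ∀ z : E, Mx C z = {c, c'} → 0 < ip (c - c'') z := by
    intro z hz
    have h := Mx_lt (A := C) (u := z) (a := c) (a' := c'') (by rw [hz]; simp) h2.c'_mem
      (by
        rw [hz, Finset.mem_insert, Finset.mem_singleton]
        rintro (h | h)
        · exact h2.ne h.symm
        · exact hne h)
    rw [ip_sub_left]; linarith
  have hc3 : ∀ z : E, Mx C z = {c} → 0 < ip (c - c'') z := by
    intro z hz
    have h := Mx_lt (A := C) (u := z) (a := c) (a' := c'') (by rw [hz]; simp) h2.c'_mem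
      (by
        rw [hz, Finset.mem_singleton]
        exact fun h => h2.ne h.symm)
    rw [ip_sub_left]; linarith
  -- the form `v ↦ det3 u₁ v u₂`
  have l1 : 0 < s * det3 u₁ z₁ u₂ := by
    have e : det3 u₁ z₁ u₂ = det3 z₁ u₂ u₁ := (det3_cyc u₁ z₁ u₂).symm
    rw [e]; exact d4
  have l2 : 0 < s * det3 u₁ z₂ u₂ := by
    have e : det3 u₁ z₂ u₂ = -det3 z₂ u₁ u₂ := det3_swap12 z₂ u₁ u₂
    rw [e]; linarith
  -- (1)
  have l3 : 0 < s * det3 u₁ y₁ u₂ := by
    have hc := congrArg (fun w => ip T w) (cramer z₁ u₂ u₁ y₁)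
    have e : det3 y₁ u₂ u₁ = det3 u₁ y₁ u₂ := det3_cyc u₁ y₁ u₂
    simp only [ip_add_right, ip_smul_right] at hc
    rw [e, Tu, mul_zero, add_zero] at hc
    by_contra hcon
    push Not at hcon
    have q1 : (s * det3 z₁ u₂ u₁) * ip T y₁ < 0 := mul_neg_of_pos_of_neg d4 Ty
    have q2 : 0 ≤ (s * det3 z₁ y₁ u₁) * ip T u₂ := mul_nonneg d2.le Tu2
    have q3 : 0 ≤ (s * det3 u₁ y₁ u₂) * ip T z₁ := mul_nonneg_of_nonpos_of_nonpos hcon Tz.le
    have q4 : (s * det3 z₁ u₂ u₁) * ip T y₁ = (s * det3 u₁ y₁ u₂) * ip T z₁ +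
        (s * det3 z₁ y₁ u₁) * ip T u₂ := by
      linear_combination s * hc
    linarith
  -- (2)
  have hp : s * det3 z₁ z₂ y₁ > 0 := by
    have hpi := h1.det_pos_iff h3 hωy
    have hpu := h1.det_pos_iff h3 hω1
    rcases lt_trichotomy s 0 with hs0 | hs0 | hs0
    · have h5 : det3 z₁ z₂ u₁ < 0 := by
        by_contra h6; push Not at h6; nlinarith
      have h6 := hpi.2.1.mpr (hpu.2.1.mp h5)
      exact mul_pos_of_neg_of_neg hs0 h6
    · rw [hs0, zero_mul] at d1; exact absurd d1 (lt_irrefl _)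
    · have h5 : 0 < det3 z₁ z₂ u₁ := by
        by_contra h6; push Not at h6; nlinarith
      have h6 := hpi.1.mpr (hpu.1.mp h5)
      exact mul_pos hs0 h6
  have l4 : 0 < s * det3 z₂ y₁ u₂ := by
    by_contra hcon
    push Not at hcon
    obtain ⟨k₁, k₂, k₃, k₄, p1, p2, p3, p4, _, hv⟩ := hQuadCone (s • z₁) (s • z₂) (s • u₁)
      (s • u₂) (s • y₁) (by rw [det3_smul3' s hs]; exact d1) (by rw [det3_smul3' s hs]; exact hp)
      (by rw [det3_smul3' s hs]; exact d2) (by rw [det3_smul3' s hs]; exact hcon)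
      (by rw [det3_smul3' s hs]; exact l3) (by rw [det3_smul3' s hs]; exact d3)
    have hs0 : s ≠ 0 := by rintro rfl; simp at hs
    have h5 := congrArg (fun v => ip (c - c'') v) hv
    simp only [ip_add_right, ip_smul_right] at h5
    have h6 : s * (k₁ * ip (c - c'') z₁ + k₂ * ip (c - c'') z₂ + k₃ * ip (c - c'') u₁ +
        k₄ * ip (c - c'') u₂) = 0 := by
      have h7 : ip (c - c'') y₁ = 0 := h2.wz
      rw [h7] at h5
      linarith
    have h7 := (mul_eq_zero.mp h6).resolve_left hs0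
    have q1 := mul_nonneg p1 (hc2 z₁ h1.cz).le
    have q2 := mul_pos p2 (hc2 z₂ h3.cz)
    have q3 := mul_nonneg p3 (hc3 u₁ h1.cu).le
    have q4 := mul_nonneg p4 (hc3 u₂ h3.cu).le
    linarith
  -- (4)
  rcases le_or_gt 0 (s * det3 u₁ v₁ u₂) with hlv | hlv
  · refine step3 (u₁ := u₁) h3 hωv hωy l2 l3 l4 one_pos le_rfl ?_ ?_
    · rw [one_smul, zero_smul, add_zero]; exact d5
    · rw [one_smul, zero_smul, add_zero]; exact hlv
  · -- `T` in terms of the cross product of `u₁` and `v₁`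
    obtain ⟨τ, hτ⟩ := par_cr_of_ip hcr Tu Tv1
    have hTw : ∀ w, ip T w = τ * det3 u₁ v₁ w := by
      intro w; rw [hτ, ip_smul_left, ip_cr]
    -- sign of `τ`: `s τ < 0`
    have t1 : ip T u₂ = τ * det3 u₁ v₁ u₂ := hTw u₂
    have t2 : ip T z₁ = -(τ * det3 z₁ v₁ u₁) := by
      rw [hTw z₁]
      have : det3 u₁ v₁ z₁ = -det3 z₁ v₁ u₁ := det3_swap13 z₁ v₁ u₁
      rw [this]; ring
    have hss : ∀ a : ℝ, s * (s * a) = a := by
      intro a; rw [← mul_assoc, hs, one_mul]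
    have t3 : (s * τ) * (s * det3 u₁ v₁ u₂) = ip T u₂ := by
      rw [t1]; linear_combination (τ * det3 u₁ v₁ u₂) * hs
    have t4 : (s * τ) * (s * det3 z₁ v₁ u₁) = -ip T z₁ := by
      rw [t2]; linear_combination (τ * det3 z₁ v₁ u₁) * hs
    have hsτ : s * τ ≤ 0 := by
      by_contra h
      push Not at h
      have := mul_neg_of_pos_of_neg h hlv
      rw [t3] at this
      linarith
    have hd : s * det3 z₁ v₁ u₁ < 0 := by
      by_contra h
      push Not at h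
      have := mul_nonpos_of_nonpos_of_nonneg hsτ h
      rw [t4] at this
      linarith
    -- the vector `p`
    have hx₁ : 0 < s * det3 z₁ y₁ u₁ := d2
    have hx₂ : 0 < -(s * det3 z₁ v₁ u₁) := by linarith
    have hp0 : det3 z₁ ((s * det3 z₁ y₁ u₁) • v₁ + (-(s * det3 z₁ v₁ u₁)) • y₁) u₁ = 0 := by
      rw [det3_add2, det3_smul2, det3_smul2]; ring
    obtain ⟨α'', β'', hc⟩ := h1.comb ((h1.perp_iff _).mpr hp0)
    have hα : 0 < α'' := by
      have e1 := congrArg (fun w => ip (c - c') w) hc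
      simp only [ip_add_right, ip_smul_right, h1.wz, mul_zero, add_zero] at e1
      have e2 := add_pos (mul_pos hx₁ hωv) (mul_pos hx₂ hωy)
      rw [e1] at e2
      exact (pos_iff_pos_of_mul_pos e2).mpr hω1
    have hβ : 0 < β'' := by
      have e1 := congrArg (fun w => ip T w) hc
      simp only [ip_add_right, ip_smul_right, Tu, Tv1, mul_zero, zero_add] at e1
      have e2 : -(s * det3 z₁ v₁ u₁) * ip T y₁ < 0 := mul_neg_of_pos_of_neg hx₂ Ty
      rw [e1] at e2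
      by_contra h
      push Not at h
      have := mul_nonneg_of_nonpos_of_nonpos h Tz.le
      linarith
    refine step3 (u₁ := u₁) h3 hωv hωy l2 l3 l4 hx₁ hx₂.le ?_ ?_
    · rw [hc, det3_add2, det3_smul2, det3_smul2]
      have e1 : s * det3 z₂ z₁ u₂ < 0 := by
        have h5 := (h1.det_pos_iff h3 hω1)
        have h6 := (h1.det_pos_iff h3 hω2)
        rw [det3_swap12]
        rcases lt_trichotomy s 0 with hs0 | hs0 | hs0
        · have h7 : det3 z₁ z₂ u₁ < 0 := by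
            by_contra h8; push Not at h8; nlinarith
          have h8 := h6.2.1.mpr (h5.2.1.mp h7)
          have := mul_pos_of_neg_of_neg hs0 h8
          linarith
        · rw [hs0, zero_mul] at d1; exact absurd d1 (lt_irrefl _)
        · have h7 : 0 < det3 z₁ z₂ u₁ := by
            by_contra h8; push Not at h8; nlinarith
          have h8 := h6.1.mpr (h5.1.mp h7)
          have := mul_pos hs0 h8
          linarith
      have q1 := mul_neg_of_pos_of_neg hα d3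
      have q2 := mul_neg_of_pos_of_neg hβ e1
      linarith
    · rw [hc, det3_add2, det3_smul2, det3_smul2, det3_self12]
      have q1 := mul_pos hβ l1
      linarith

end MAltOutPair

open MAltOutPair in
/-- **Two out alternations of the same group cross.** -/
theorem t_AltOutPair (hAltBasic : StmtAltBasic) (hAltSide : StmtAltSide)
    (hAltSigns : StmtAltSigns) : StmtAltOutPair := by
  intro A B C x u₁ v₁ z₁ y₁ c' c'' e₂ u₂ z₂ hG h3 hne hpos
  have h1 := hG.hA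
  have h2 := hG.hB
  obtain ⟨-, -, Tu, Tv1, -, hK, -, -, hcr, -⟩ := hAltBasic A B C x u₁ v₁ hG.al
  obtain ⟨Tz, Ty, -⟩ := hAltSigns A B C x u₁ v₁ z₁ y₁ c' c'' hG
  have Tu2 : 0 ≤ ip (Tv x) u₂ := hK u₂ h3.clo
  have hene : x.1.2 ≠ e₂ := by
    intro he
    have hz : Perp x.1.2 z₂ := by rw [he]; exact h3.perp_z
    have h0 := (h1.perp_iff z₂).mp hz
    rw [h0, zero_mul] at hpos
    exact lt_irrefl _ hpos
  have hside := hAltSide A B C x u₁ v₁ e₂ c' u₂ z₂ hG.al h3 hene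
  rcases lt_trichotomy (det3 z₁ z₂ u₁) 0 with h0 | h0 | h0
  · have hy : det3 z₁ y₁ u₁ < 0 := by
      by_contra h; push Not at h; nlinarith
    have hω : det3 (x.2.2 - c') z₁ z₂ < 0 := (h1.det_pos_iff h3 h1.wu).2.1.mp h0
    have hω' : 0 < det3 (x.2.2 - c') z₂ z₁ := by rw [det3_swap23]; linarith
    obtain ⟨o1, -, o3, -⟩ := Closed.c_t_Order A B C e₂ x.1.2 x.2.2 c' u₂ z₂ u₁ z₁ h3 h1 hω'
    have hv : 0 < det3 z₂ v₁ u₂ := (pos_iff_pos_of_mul_pos hside).mp o3
    exact core Closed.c_t_QuadCone (s := -1) (T := Tv x) (by norm_num) h1 h2 h3 hne Tu Tv1 Tz Ty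
      Tu2 hcr (by linarith) (by linarith) (by linarith) (by linarith) (by linarith)
  · rw [h0, zero_mul] at hpos; exact absurd hpos (lt_irrefl _)
  · have hy : 0 < det3 z₁ y₁ u₁ := (pos_iff_pos_of_mul_pos hpos).mp h0
    have hω : 0 < det3 (x.2.2 - c') z₁ z₂ := (h1.det_pos_iff h3 h1.wu).1.mp h0
    obtain ⟨o1, -, o3, -⟩ := Closed.c_t_Order A B C x.1.2 e₂ x.2.2 c' u₁ z₁ u₂ z₂ h1 h3 hω
    have hv : det3 z₂ v₁ u₂ < 0 := by
      by_contra h
      push Not at h
      have := mul_nonpos_of_nonpos_of_nonneg o1.le h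
      linarith
    exact core Closed.c_t_QuadCone (s := 1) (T := Tv x) (by norm_num) h1 h2 h3 hne Tu Tv1 Tz Ty
      Tu2 hcr (by linarith) (by linarith) (by linarith) (by linarith) (by linarith)

end TPH
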