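import Pool.Agent.TPH.St5

/-!
# Three parallel hyperplanes: at most four alternations for given `e` and `c`
-/

namespace TPH

namespace MAltPer

/-- the convex cone of the vectors exposing `e` in `A` and `c` in `C` -/
def K (A C e : Finset E) (c v : E) : Prop := Mx A v = e ∧ Mx C v = {c}

theorem K.ne_zero {A C e : Finset E} {c v : E} (hc : 3 ≤ A.card ∨ 2 ≤ C.card) (he : e.card = 2)
    (h : K A C e c v) : v ≠ 0 := by
  rintro rfl
  obtain ⟨h1, h2⟩ := h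
  rw [Mx_zero] at h1 h2
  rcases hc with hc | hc
  · rw [h1] at hc
    omega
  · rw [h2, Finset.card_singleton] at hc
    omega

theorem K.comb {A C e : Finset E} {c u v : E} {α β : ℝ} (he : e.card = 2) (hα : 0 < α)
    (hβ : 0 < β) (hu : K A C e c u) (hv : K A C e c v) : K A C e c (α • u + β • v) := by
  have hne : e.Nonempty := Finset.card_pos.1 (by omega)
  exact ⟨Mx_comb_left hα hβ.le hne hu.1 (by rw [hv.1]),
    Mx_comb_left hα hβ.le (Finset.singleton_nonempty c) hu.2 (by rw [hv.2])⟩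

/-- no position of an alternation lies strictly between two other positions -/
theorem mid {A B C : Finset E} {e : Finset E} {c a a' r : E} {x : Al} {u₁ u v u₃ : E} {α β : ℝ}
    (hAltBasic : StmtAltBasic) (hα : 0 < α) (hβ : 0 < β) (hr : InR A B c r)
    (hx : IsAlt A B C x u v) (he : x.1.2 = e) (hc : x.2.2 = c) (hea : e = {a, a'}) (haa : a ≠ a')
    (hd1 : ip (a - a') u₁ = 0) (hd3 : ip (a - a') u₃ = 0) (hcr : cr u₁ u₃ ≠ 0)
    (hc1 : InRc A B c u₁) (hc3 : InRc A B c u₃) (h : u = α • u₁ + β • u₃) : False := by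
  obtain ⟨-, -, tu, tv, tR, tK, fa, -, -, -⟩ := hAltBasic A B C x u v hx
  rw [hc] at tR tK
  have t1 := tK u₁ hc1
  have t3 := tK u₃ hc3
  rw [h, ip_add_right, ip_smul_right, ip_smul_right] at tu
  have z1 : ip (Tv x) u₁ = 0 := by
    refine le_antisymm ?_ t1
    by_contra hcon
    push Not at hcon
    nlinarith
  have z3 : ip (Tv x) u₃ = 0 := by
    refine le_antisymm ?_ t3
    by_contra hcon
    push Not at hcon
    nlinarith
  obtain ⟨k, hk⟩ := par_cr_of_ip hcr z1 z3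
  obtain ⟨l, hl⟩ := par_cr_of_ip hcr hd1 hd3
  have hl0 : l ≠ 0 := by
    rintro rfl
    rw [zero_smul] at hl
    exact haa (sub_eq_zero.1 hl)
  -- the value of `a - a'` at `v`
  have hv : ip (a - a') v ≠ 0 := by
    have hmem : x.1.1 ∈ e := by rw [← he]; exact hx.ae
    rw [hea, Finset.mem_insert, Finset.mem_singleton] at hmem
    rcases hmem with h0 | h0
    · have h1 := (fa a' (by rw [he, hea]; simp) (by rw [h0]; exact fun h => haa h.symm)).2
      rw [h0] at h1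
      exact h1.ne'
    · have h1 := (fa a (by rw [he, hea]; simp) (by rw [h0]; exact haa)).2
      rw [h0, ip_sub_left] at h1
      rw [ip_sub_left]
      intro h2
      linarith
  rw [hl, ip_smul_left] at hv
  have hcv : ip (cr u₁ u₃) v ≠ 0 := right_ne_zero_of_mul hv
  rw [hk, ip_smul_left] at tv
  have hk0 : k = 0 := by
    rcases mul_eq_zero.1 tv with h0 | h0
    · exact h0
    · exact absurd h0 hcv
  have hpos := tR r hr
  rw [hk, hk0, zero_smul, ip_zero_left] at hpos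
  exact lt_irrefl _ hpos

end MAltPer

open MAltPer in
theorem t_AltPer (hPosBasic : StmtPosBasic) (hAltBasic : StmtAltBasic)
    (hAltDet : StmtAltDet) : StmtAltPer := by
  classical
  intro A B C e c hAC hR
  obtain ⟨r, hr⟩ := hR
  by_contra hcon
  push Not at hcon
  have key : ∀ x, x ∈ @Finset.filter Al
      (fun x => x.1.2 = e ∧ x.2.2 = c) (Classical.decPred _) (alts A B C) →
      (∃ u v, IsAlt A B C x u v) ∧ x.1.2 = e ∧ x.2.2 = c := by
    intro x hx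
    obtain ⟨hx1, hx2, hx3⟩ := (@Finset.mem_filter _ _ (Classical.decPred _) _ _).1 hx
    have hx4 := (@Finset.mem_filter _ _ (Classical.decPred _) _ _).1 hx1
    exact ⟨hx4.2, hx2, hx3⟩
  obtain ⟨S, hS⟩ : ∃ S, S = @Finset.filter Al
      (fun x => x.1.2 = e ∧ x.2.2 = c) (Classical.decPred _) (alts A B C) := ⟨_, rfl⟩
  rw [← hS] at hcon key
  -- the edge `e` has two elements
  have hSne : S.Nonempty := Finset.card_pos.1 (by omega)
  obtain ⟨x₀, hx₀⟩ := hSne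
  obtain ⟨⟨w₀, w₀', f0⟩, e0, c0⟩ := key x₀ hx₀
  have he : e.card = 2 := by rw [← e0]; exact f0.ce
  -- three alternations with the same point `a`
  have hmaps : ∀ x ∈ S, (fun x : Al => x.1.1) x ∈ e := by
    intro x hx
    obtain ⟨⟨u, v, f⟩, ex, -⟩ := key x hx
    rw [← ex]
    exact f.ae
  obtain ⟨p, -, hp⟩ := Finset.exists_lt_card_fiber_of_mul_lt_card_of_maps_to hmaps
    (n := 2) (by rw [he]; omega)
  obtain ⟨x₁, m1, x₂, m2, x₃, m3, n12, n13, n23⟩ := Finset.two_lt_card.1 hp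
  rw [Finset.mem_filter] at m1 m2 m3
  obtain ⟨m1, q1⟩ := m1
  obtain ⟨m2, q2⟩ := m2
  obtain ⟨m3, q3⟩ := m3
  obtain ⟨⟨u₁, v₁, f1⟩, e1, c1⟩ := key x₁ m1
  obtain ⟨⟨u₂, v₂, f2⟩, e2, c2⟩ := key x₂ m2
  obtain ⟨⟨u₃, v₃, f3⟩, e3, c3⟩ := key x₃ m3
  have k1 : K A C e c u₁ := ⟨by rw [← e1]; exact f1.ua, by rw [← c1]; exact f1.uc⟩
  have k2 : K A C e c u₂ := ⟨by rw [← e2]; exact f2.ua, by rw [← c2]; exact f2.uc⟩
  have k3 : K A C e c u₃ := ⟨by rw [← e3]; exact f3.ua, by rw [← c3]; exact f3.uc⟩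
  have r1 : InRc A B c u₁ := by rw [← c1]; exact (hAltBasic A B C x₁ u₁ v₁ f1).1.clo
  have r2 : InRc A B c u₂ := by rw [← c2]; exact (hAltBasic A B C x₂ u₂ v₂ f2).1.clo
  have r3 : InRc A B c u₃ := by rw [← c3]; exact (hAltBasic A B C x₃ u₃ v₃ f3).1.clo
  have z1 : u₁ ≠ 0 := k1.ne_zero hAC he
  have z2 : u₂ ≠ 0 := k2.ne_zero hAC he
  -- positive multiples do not occur
  have hpar : ∀ (x y : Al) (u v u' v' : E), IsAlt A B C x u v → IsAlt A B C y u' v' →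
      x.2.2 = c → y.1.1 = x.1.1 → y ≠ x → ∀ κ : ℝ, 0 < κ → u' = κ • u → False := by
    intro x y u v u' v' fx fy hxc hxy hne κ hκ h
    exact hne ((hAltDet A B C x y u v u' v' κ ⟨r, by rw [hxc]; exact hr⟩ fx fy hκ).1 hxy h)
  obtain ⟨a, a', haa, hea⟩ := Finset.card_eq_two.1 he
  obtain ⟨δ, hδ⟩ : ∃ δ, δ = a - a' := ⟨_, rfl⟩
  have hδ0 : δ ≠ 0 := by rw [hδ]; exact sub_ne_zero.2 haa
  have hperp : ∀ u, K A C e c u → ip δ u = 0 := by
    intro u hu
    have ha : a ∈ Mx A u := by rw [hu.1, hea]; simp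
    have ha' : a' ∈ Mx A u := by rw [hu.1, hea]; simp
    rw [hδ, ip_sub_left, Mx_eq ha ha', sub_self]
  have hcr : ∀ u v : E, K A C e c u → K A C e c v →
      (∀ κ : ℝ, 0 < κ → v = κ • u → False) → cr u v ≠ 0 := by
    intro u v hu hv hp hcr
    obtain ⟨k, hk⟩ := par_of_cr (hu.ne_zero hAC he) hcr
    rcases lt_trichotomy k 0 with hk0 | hk0 | hk0
    · have h1 := (hv.comb he one_pos (neg_pos.2 hk0) hu).ne_zero hAC he
      apply h1
      rw [hk, one_smul, neg_smul, add_neg_cancel]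
    · apply hv.ne_zero hAC he
      rw [hk, hk0, zero_smul]
    · exact hp k hk0 hk
  have hcr12 : cr u₁ u₂ ≠ 0 := hcr u₁ u₂ k1 k2 fun κ h1 h2 =>
    hpar x₁ x₂ u₁ v₁ u₂ v₂ f1 f2 c1 (q2.trans q1.symm) n12.symm κ h1 h2
  have hcr13 : cr u₁ u₃ ≠ 0 := hcr u₁ u₃ k1 k3 fun κ h1 h2 =>
    hpar x₁ x₃ u₁ v₁ u₃ v₃ f1 f3 c1 (q3.trans q1.symm) n13.symm κ h1 h2
  have hcr23 : cr u₂ u₃ ≠ 0 := hcr u₂ u₃ k2 k3 fun κ h1 h2 =>
    hpar x₂ x₃ u₂ v₂ u₃ v₃ f2 f3 c2 (q3.trans q2.symm) n23.symm κ h1 h2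
  -- the determinants do not vanish
  have hdet : ∀ u v : E, K A C e c u → K A C e c v → cr u v ≠ 0 → det3 δ u v ≠ 0 := by
    intro u v hu hv hcr h0
    obtain ⟨k, hk⟩ := par_cr_of_ip hcr (hperp u hu) (hperp v hv)
    have hk0 : k ≠ 0 := by
      rintro rfl
      apply hδ0
      rw [hk, zero_smul]
    have h1 : det3 δ u v = k * ip (cr u v) (cr u v) := by
      rw [← det3_cyc, ← ip_cr, ← ip_smul_right, ← hk]
    rw [h1] at h0
    exact mul_ne_zero hk0 (ip_self_pos hcr).ne' h0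
  have d12 := hdet u₁ u₂ k1 k2 hcr12
  have d13 := hdet u₁ u₃ k1 k3 hcr13
  have d23 := hdet u₂ u₃ k2 k3 hcr23
  have hpl := plucker hδ0 (hperp u₁ k1) (hperp u₂ k2) (hperp u₃ k3)
  obtain ⟨p, hp⟩ : ∃ p, p = det3 δ u₂ u₃ := ⟨_, rfl⟩
  obtain ⟨q, hq⟩ : ∃ q, q = det3 δ u₁ u₃ := ⟨_, rfl⟩
  obtain ⟨s, hs⟩ : ∃ s, s = det3 δ u₁ u₂ := ⟨_, rfl⟩
  rw [← hp] at d23
  rw [← hq] at d13
  rw [← hs] at d12
  rw [← hp, ← hq, ← hs] at hpl
  -- `p u₁ - q u₂ + s u₃ = 0`
  have hco : ∀ i, p * u₁ i - q * u₂ i + s * u₃ i = 0 := fun i => by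
    have := congrFun hpl i
    simpa using this
  have hall : ∀ α β γ : ℝ, 0 < α → 0 < β → 0 < γ → α • u₁ + (β • u₂ + γ • u₃) ≠ 0 := by
    intro α β γ hα hβ hγ
    have h1 := (k1.comb he hα one_pos (k2.comb he hβ hγ k3)).ne_zero hAC he
    rwa [one_smul] at h1
  have hd1 : ip (a - a') u₁ = 0 := by rw [← hδ]; exact hperp u₁ k1
  have hd2 : ip (a - a') u₂ = 0 := by rw [← hδ]; exact hperp u₂ k2
  have hd3 : ip (a - a') u₃ = 0 := by rw [← hδ]; exact hperp u₃ k3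
  -- the three possible middles
  have m1' : ∀ α β : ℝ, 0 < α → 0 < β → u₁ = α • u₂ + β • u₃ → False := by
    intro α β hα hβ h
    exact mid hAltBasic hα hβ hr f1 e1 c1 hea haa hd2 hd3 hcr23 r2 r3 h
  have m2' : ∀ α β : ℝ, 0 < α → 0 < β → u₂ = α • u₁ + β • u₃ → False := by
    intro α β hα hβ h
    exact mid hAltBasic hα hβ hr f2 e2 c2 hea haa hd1 hd3 hcr13 r1 r3 h
  have m3' : ∀ α β : ℝ, 0 < α → 0 < β → u₃ = α • u₁ + β • u₂ → False := by
    intro α β hα hβ h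
    exact mid hAltBasic hα hβ hr f3 e3 c3 hea haa hd1 hd2 hcr12 r1 r2 h
  have e1' : p ≠ 0 → u₁ = (q / p) • u₂ + (-s / p) • u₃ := fun h => by
    funext i
    have := hco i
    simp only [Pi.add_apply, Pi.smul_apply, smul_eq_mul]
    field_simp
    linarith
  have e2' : q ≠ 0 → u₂ = (p / q) • u₁ + (s / q) • u₃ := fun h => by
    funext i
    have := hco i
    simp only [Pi.add_apply, Pi.smul_apply, smul_eq_mul]
    field_simp
    linarith
  have e3' : s ≠ 0 → u₃ = (-p / s) • u₁ + (q / s) • u₂ := fun h => by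
    funext i
    have := hco i
    simp only [Pi.add_apply, Pi.smul_apply, smul_eq_mul]
    field_simp
    linarith
  rcases lt_or_gt_of_ne d23 with hp0 | hp0 <;> rcases lt_or_gt_of_ne d13 with hq0 | hq0 <;>
    rcases lt_or_gt_of_ne d12 with hr0 | hr0
  · exact m2' _ _ (div_pos_of_neg_of_neg hp0 hq0) (div_pos_of_neg_of_neg hr0 hq0) (e2' d13)
  · exact m1' _ _ (div_pos_of_neg_of_neg hq0 hp0) (div_pos_of_neg_of_neg (neg_neg_of_pos hr0) hp0)
      (e1' d23)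
  · -- `p < 0`, `q > 0`, `s < 0`
    refine hall (-p) q (-s) (neg_pos.2 hp0) hq0 (neg_pos.2 hr0) ?_
    funext i
    have := hco i
    simp only [Pi.add_apply, Pi.smul_apply, smul_eq_mul, Pi.zero_apply]
    linarith
  · exact m3' _ _ (div_pos (neg_pos.2 hp0) hr0) (div_pos hq0 hr0) (e3' d12)
  · exact m3' _ _ (div_pos_of_neg_of_neg (neg_neg_of_pos hp0) hr0) (div_pos_of_neg_of_neg hq0 hr0)
      (e3' d12)
  · -- `p > 0`, `q < 0`, `s > 0`
    refine hall p (-q) s hp0 (neg_pos.2 hq0) hr0 ?_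
    funext i
    have := hco i
    simp only [Pi.add_apply, Pi.smul_apply, smul_eq_mul, Pi.zero_apply]
    linarith
  · exact m1' _ _ (div_pos hq0 hp0) (div_pos (neg_pos.2 hr0) hp0) (e1' d23)
  · exact m2' _ _ (div_pos hp0 hq0) (div_pos hr0 hq0) (e2' d13)

end TPH
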