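import Pool.Agent.TPH.St5
import Pool.Agent.TPH.Closed

/-!
# Three parallel hyperplanes: the two ends of an alternation are on the same side
-/

set_option autoImplicit false

namespace TPH

namespace MAltSide

/-- An affine function on the unit interval without zero has the same sign at both ends. -/
theorem same_sign {f₀ f₁ : ℝ} (h : ∀ t : ℝ, 0 ≤ t → t ≤ 1 → (1 - t) * f₀ + t * f₁ ≠ 0) :
    0 < f₀ * f₁ := by
  by_contra hcon
  rw [not_lt] at hcon
  have h0 : f₀ ≠ 0 := by
    have := h 0 le_rfl zero_le_one
    simpa using this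
  have h1 : f₁ ≠ 0 := by
    have := h 1 zero_le_one le_rfl
    simpa using this
  rcases lt_or_gt_of_ne h0 with h2 | h2
  · have h3 : 0 < f₁ := by
      rcases lt_or_gt_of_ne h1 with h4 | h4
      · exact absurd (mul_pos_of_neg_of_neg h2 h4) (not_lt_of_ge hcon)
      · exact h4
    have h5 : 0 < f₁ - f₀ := by linarith
    refine h (-f₀ / (f₁ - f₀)) (div_nonneg (by linarith) h5.le) ?_ ?_
    · rw [div_le_one h5]
      linarith
    · field_simp
      ring
  · have h3 : f₁ < 0 := by
      rcases lt_or_gt_of_ne h1 with h4 | h4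
      · exact h4
      · exact absurd (mul_pos h2 h4) (not_lt_of_ge hcon)
    have h5 : 0 < f₀ - f₁ := by linarith
    refine h (f₀ / (f₀ - f₁)) (div_nonneg h2.le h5.le) ?_ ?_
    · rw [div_le_one h5]
      linarith
    · field_simp
      ring

end MAltSide

open MAltSide in
theorem t_AltSide : StmtAltSide := by
  intro A B C x u v e₂ c₂ u₂ z₂ hx h hne
  apply same_sign
  intro t ht0 ht1 hzero
  have hdet : det3 z₂ ((1 - t) • u + t • v) u₂ = 0 := by
    rw [det3_add2, det3_smul2, det3_smul2]
    exact hzero
  have hperp : Perp e₂ ((1 - t) • u + t • v) := (h.perp_iff _).mpr hdet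
  have hC : Mx C ((1 - t) • u + t • v) = {x.2.2} := by
    rcases ht0.lt_or_eq with h0 | h0
    · exact Mx_comb_right (by linarith) h0 (Finset.singleton_nonempty _) hx.vc
        (by rw [hx.uc])
    · exact Mx_comb_left (by linarith) ht0 (Finset.singleton_nonempty _) hx.uc
        (by rw [hx.vc])
  have hw : (1 - t) • u + t • v ≠ 0 := by
    intro h0
    rw [h0, Mx_zero] at hC
    have h1 := h.c'_mem
    rw [hC, Finset.mem_singleton] at h1
    exact h.ne h1.symm
  have hA := h.fullZ _ hw hperp (by rw [hC]; exact Finset.mem_singleton_self _)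
  rcases ht0.lt_or_eq with h0 | h0
  · have h1 : Mx A ((1 - t) • u + t • v) = {x.1.1} :=
      Mx_comb_right (by linarith) h0 (Finset.singleton_nonempty _) hx.va
        (by rw [hx.ua]; exact Finset.singleton_subset_iff.mpr hx.ae)
    have h2 := h.card
    rw [← hA, h1, Finset.card_singleton] at h2
    omega
  · rw [← h0, sub_zero, one_smul, zero_smul, add_zero, hx.ua] at hA
    exact hne hA

end TPH
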