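import Pool.Agent.TPH.St5

/-!
# Signs for a good alternation
-/

set_option autoImplicit false

namespace TPH

theorem t_AltSigns (hAltBasic : StmtAltBasic) : StmtAltSigns := by
  intro A B C x u v z y c₁ c₂ h
  obtain ⟨-, -, hTu, hTv, -, -, -, -, hcr, -⟩ := hAltBasic A B C x u v h.al
  have hT : ∀ w : E, ip (Tv x) w = 2 * ip x.2.2 w - ip x.1.1 w - ip x.2.1.1 w := by
    intro w
    simp only [Tv]
    rw [ip_sub_left, ip_sub_left, ip_smul_left]
  have hb : x.2.1.1 ∈ Mx B u := by rw [h.al.ub]; exact Finset.mem_singleton_self _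
  have ha : x.1.1 ∈ Mx A v := by rw [h.al.va]; exact Finset.mem_singleton_self _
  have h1 := h.hA.beyond h.al.ae hb
  have h2 := h.hB.beyond h.al.bf ha
  have hz : ip (Tv x) z < 0 := by rw [hT z]; linarith
  have hy : ip (Tv x) y < 0 := by rw [hT y]; linarith
  obtain ⟨l, hl⟩ := par_cr_of_ip hcr hTu hTv
  have ez : ip (Tv x) z = - (l * det3 z v u) := by
    rw [hl, ip_smul_left, ip_cr, ← det3_cyc' u v z, det3_swap23 z v u]
    ring
  have ey : ip (Tv x) y = l * det3 y u v := by
    rw [hl, ip_smul_left, ip_cr, ← det3_cyc' u v y]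
  refine ⟨hz, hy, ?_⟩
  have hl0 : l ≠ 0 := by
    intro h0
    rw [h0, zero_mul] at ey
    linarith
  have hpos : 0 < l * l := mul_self_pos.mpr hl0
  rw [ez] at hz
  rw [ey] at hy
  nlinarith [mul_pos (show 0 < l * det3 z v u by linarith) (show 0 < - (l * det3 y u v) by linarith)]

end TPH
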