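import Pool.Agent.TPH.St6
import Pool.Agent.TPH.Closed

/-!
# Three parallel hyperplanes: alternations, one of the sets has at most two elements
-/

set_option autoImplicit false

namespace TPH

namespace MAltSmall

theorem mem_alts {A B C : Finset E} {x : Al} : x ∈ alts A B C ↔ ∃ u v, IsAlt A B C x u v := by
  unfold alts
  rw [@Finset.mem_filter _ _ (Classical.decPred _) _ _]
  constructor
  · exact fun h => h.2
  · intro h
    refine ⟨?_, h⟩
    obtain ⟨u, v, h⟩ := h
    simp only [Finset.mem_product, Finset.mem_powerset]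
    refine ⟨⟨?_, ?_⟩, ⟨?_, ?_⟩, ?_⟩
    · exact Mx_subset A v (h.va ▸ Finset.mem_singleton_self _)
    · exact h.ua ▸ Mx_subset A u
    · exact Mx_subset B u (h.ub ▸ Finset.mem_singleton_self _)
    · exact h.vb ▸ Mx_subset B v
    · exact Mx_subset C u (h.uc ▸ Finset.mem_singleton_self _)

theorem card_swap (hAltBasic : StmtAltBasic) (A B C : Finset E) :
    (alts A B C).card ≤ (alts B A C).card := by
  refine Finset.card_le_card_of_injOn asw ?_ ?_
  · intro x hx
    obtain ⟨u, v, hu⟩ := mem_alts.mp hx
    exact mem_alts.mpr ⟨v, u, (hAltBasic A B C x u v hu).2.2.2.2.2.2.2.2.2⟩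
  · intro x _ y _ hxy
    have h : asw (asw x) = asw (asw y) := by rw [hxy]
    exact h

theorem le_four (hAltPer : StmtAltPer) (A B C : Finset E) (hR : ∀ c ∈ C, ∃ r, InR A B c r)
    (h : 3 ≤ A.card ∨ 2 ≤ C.card) : (alts A B C).card ≤ 4 * ((Ed A).card * C.card) := by
  classical
  rw [← Finset.card_product]
  refine Finset.card_le_mul_card_image_of_maps_to (f := fun x : Al => (x.1.2, x.2.2)) ?_ 4 ?_
  · intro x hx
    obtain ⟨u, v, hu⟩ := mem_alts.mp hx
    refine Finset.mem_product.mpr ⟨mem_Ed.mpr ⟨hu.ce, u, hu.ua⟩, ?_⟩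
    exact Mx_subset C u (hu.uc ▸ Finset.mem_singleton_self _)
  · rintro ⟨e, c⟩ hec
    have hc : c ∈ C := (Finset.mem_product.mp hec).2
    refine le_trans (le_of_eq ?_) (hAltPer A B C e c h (hR c hc))
    congr 1
    ext x
    rw [Finset.mem_filter, @Finset.mem_filter _ _ (Classical.decPred _) _ _, Prod.mk.injEq]

theorem ed_small {A : Finset E} (h : A.card ≤ 2) : (Ed A).card ≤ 1 := by
  have hsub : Ed A ⊆ {A} := by
    intro e he
    rw [mem_Ed] at he
    obtain ⟨h2, u, hu⟩ := he
    have hs : e ⊆ A := hu ▸ Mx_subset A u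
    rw [Finset.mem_singleton]
    exact Finset.eq_of_subset_of_card_le hs (by omega)
  have := Finset.card_le_card hsub
  simpa using this

theorem few {A B C : Finset E} (hA : A.card ≤ 2) (hB : B.card ≤ 2) (hC : C.card = 1) :
    (alts A B C).card ≤ 4 := by
  classical
  obtain ⟨c, rfl⟩ := Finset.card_eq_one.mp hC
  have h1 : (alts A B {c}).card ≤ (A ×ˢ B).card := by
    refine Finset.card_le_card_of_injOn (fun x : Al => (x.1.1, x.2.1.1)) ?_ ?_
    · intro x hx
      obtain ⟨u, v, h⟩ := mem_alts.mp hx
      refine Finset.mem_coe.mpr (Finset.mem_product.mpr ⟨?_, ?_⟩)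
      · exact Mx_subset A v (h.va ▸ Finset.mem_singleton_self _)
      · exact Mx_subset B u (h.ub ▸ Finset.mem_singleton_self _)
    · intro x hx y hy hxy
      obtain ⟨u, v, h⟩ := mem_alts.mp hx
      obtain ⟨u', v', h'⟩ := mem_alts.mp hy
      have e1 : x.1.2 = A :=
        Finset.eq_of_subset_of_card_le (h.ua ▸ Mx_subset A u) (by rw [h.ce]; exact hA)
      have e2 : y.1.2 = A :=
        Finset.eq_of_subset_of_card_le (h'.ua ▸ Mx_subset A u') (by rw [h'.ce]; exact hA)
      have f1 : x.2.1.2 = B :=
        Finset.eq_of_subset_of_card_le (h.vb ▸ Mx_subset B v) (by rw [h.cf]; exact hB)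
      have f2 : y.2.1.2 = B :=
        Finset.eq_of_subset_of_card_le (h'.vb ▸ Mx_subset B v') (by rw [h'.cf]; exact hB)
      have c1 : x.2.2 = c := by
        have : x.2.2 ∈ ({c} : Finset E) := Mx_subset _ u (h.uc ▸ Finset.mem_singleton_self _)
        rwa [Finset.mem_singleton] at this
      have c2 : y.2.2 = c := by
        have : y.2.2 ∈ ({c} : Finset E) := Mx_subset _ u' (h'.uc ▸ Finset.mem_singleton_self _)
        rwa [Finset.mem_singleton] at this
      have hxy' : ((x.1.1, x.2.1.1) : E × E) = (y.1.1, y.2.1.1) := hxy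
      rw [Prod.mk.injEq] at hxy'
      obtain ⟨g1, g2⟩ := hxy'
      exact Prod.ext (Prod.ext g1 (e1.trans e2.symm))
        (Prod.ext (Prod.ext g2 (f1.trans f2.symm)) (c1.trans c2.symm))
  rw [Finset.card_product] at h1
  have h2 : A.card * B.card ≤ 2 * 2 := Nat.mul_le_mul hA hB
  omega

theorem none {A B C : Finset E} (hC : C.card = 0) : (alts A B C).card = 0 := by
  rw [Finset.card_eq_zero] at hC
  subst hC
  rw [Finset.card_eq_zero, Finset.eq_empty_iff_forall_notMem]
  intro x hx
  obtain ⟨u, v, h⟩ := mem_alts.mp hx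
  have := Mx_subset _ u (h.uc ▸ Finset.mem_singleton_self x.2.2)
  simp at this

end MAltSmall

open MAltSmall in
theorem t_AltSmall (hAltBasic : StmtAltBasic) (hAltPer : StmtAltPer) : StmtAltSmall := by
  intro A B C hA hB hR hsm
  have hR' : ∀ c ∈ C, ∃ r, InR B A c r := by
    intro c hc
    obtain ⟨r, hr⟩ := hR c hc
    exact ⟨r, inR_comm.mp hr⟩
  have eA := (Closed.edge_lin A hA).2.2
  have eB := (Closed.edge_lin B hB).2.2
  have hsw := card_swap hAltBasic A B C
  rcases Nat.lt_or_ge C.card 2 with hC | hC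
  · rcases Nat.eq_zero_or_pos C.card with h0 | h0
    · rw [MAltSmall.none h0]
      exact Nat.zero_le _
    · have h1 : C.card = 1 := by omega
      rcases Nat.lt_or_ge A.card 3 with hA3 | hA3
      · rcases Nat.lt_or_ge B.card 3 with hB3 | hB3
        · have := few (A := A) (B := B) (C := C) (by omega) (by omega) h1
          omega
        · have := le_four hAltPer B A C hR' (Or.inl hB3)
          rw [h1] at this
          omega
      · have := le_four hAltPer A B C hR (Or.inl hA3)
        rw [h1] at this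
        omega
  · have kA := le_four hAltPer A B C hR (Or.inr hC)
    have kB := le_four hAltPer B A C hR' (Or.inr hC)
    rcases hsm with h | h | h
    · have h1 := ed_small h
      have h2 : (Ed A).card * C.card ≤ 1 * C.card := Nat.mul_le_mul_right _ h1
      omega
    · have h1 := ed_small h
      have h2 : (Ed B).card * C.card ≤ 1 * C.card := Nat.mul_le_mul_right _ h1
      omega
    · have h1 : C.card = 2 := by omega
      rw [h1] at kA
      omega

end TPH
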