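import Pool.Agent.TPH.St5
import Pool.Agent.TPH.Closed

/-!
# AltThree: three members of a class of alternations
-/

set_option autoImplicit false

namespace TPH

namespace MAltThree

theorem ip_comb (T p q : E) (α β : ℝ) : ip T (α • p + β • q) = α * ip T p + β * ip T q := by
  simp only [ip, Pi.add_apply, Pi.smul_apply, smul_eq_mul]
  ring

/-- A real valued position which is increasing in the direction `σ`. -/
theorem exists_pos (C : Finset E) (c c' : E) (σ : ℝ) (hC : 3 ≤ C.card) (hcc : c ≠ c')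
    (hσ : σ = 1 ∨ σ = -1) :
    ∃ K : E → ℝ, ∀ s t, Mx C s = {c, c'} → Mx C t = {c, c'} →
      (0 < σ * det3 (c - c') s t ↔ K s < K t) ∧ (0 ≤ σ * det3 (c - c') s t ↔ K s ≤ K t) := by
  obtain ⟨key, hk⟩ := Closed.c_t_KeyFn C c c' hC hcc
  have hpos : ∀ s t, Mx C s = {c, c'} → Mx C t = {c, c'} →
      (0 < σ * det3 (c - c') s t ↔ σ * key s < σ * key t) := by
    intro s t hs ht
    have e1 : det3 (c - c') t s = -det3 (c - c') s t := det3_swap23 _ _ _
    have h1 := (hk s t hs ht).1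
    have h2 := (hk t s ht hs).1
    rcases hσ with rfl | rfl
    · rw [one_mul, one_mul, one_mul]
      exact h1.symm
    · rw [e1] at h2
      constructor
      · intro h
        have := h2.2 (by linarith)
        linarith
      · intro h
        have := h2.1 (by linarith)
        linarith
  refine ⟨fun s => σ * key s, fun s t hs ht => ⟨hpos s t hs ht, ?_⟩⟩
  have e1 : det3 (c - c') t s = -det3 (c - c') s t := det3_swap23 _ _ _
  have h3 := hpos t s ht hs
  rw [e1] at h3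
  constructor
  · intro h
    by_contra hc
    have := h3.2 (not_le.1 hc)
    linarith
  · intro h
    by_contra hc
    have := h3.1 (by linarith)
    exact absurd h (not_le.2 this)

end MAltThree

open MAltThree in
theorem t_AltThree (hArc : StmtArc) : StmtAltThree := by
  intro C c c' T z₁ y₁ z₂ y₂ z₃ y₃ σ hC hcc hσ hz₁ hy₁ hz₂ hy₂ hz₃ hy₃ hzy h12 h23 g12 g23 hTz hTy
  obtain ⟨K, hK⟩ := exists_pos C c c' σ hC hcc hσ
  -- nonnegativity is inherited by rays in between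
  have hnn : ∀ p s q : E, Mx C p = {c, c'} → Mx C s = {c, c'} → Mx C q = {c, c'} →
      K p ≤ K s → K s ≤ K q → 0 ≤ ip T p → 0 ≤ ip T q → 0 ≤ ip T s := by
    intro p s q hp hs hq h1 h2 h3 h4
    obtain ⟨α, β, hα, hβ, -, he, -⟩ := (hArc C c c' p s q σ hC hcc hσ hp hs hq).2
      ((hK p s hp hs).2.2 h1) ((hK s q hs hq).2.2 h2)
    rw [he, ip_comb]
    exact add_nonneg (mul_nonneg hα h3) (mul_nonneg hβ h4)
  have hneg : ∀ p s q : E, Mx C p = {c, c'} → Mx C s = {c, c'} → Mx C q = {c, c'} →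
      K p ≤ K s → K s ≤ K q → ip T p < 0 → ip T q < 0 → ip T s < 0 := by
    intro p s q hp hs hq h1 h2 h3 h4
    obtain ⟨α, β, hα, hβ, hab, he, -⟩ := (hArc C c c' p s q σ hC hcc hσ hp hs hq).2
      ((hK p s hp hs).2.2 h1) ((hK s q hs hq).2.2 h2)
    rw [he, ip_comb]
    rcases hα.lt_or_eq with h | h
    · have := mul_neg_of_pos_of_neg h h3
      have := mul_nonpos_of_nonneg_of_nonpos hβ h4.le
      linarith
    · have hb : 0 < β := by linarith
      have := mul_neg_of_pos_of_neg hb h4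
      have := mul_nonpos_of_nonneg_of_nonpos hα h3.le
      linarith
  have k0 : K z₂ ≤ K y₂ := (hK _ _ hz₂ hy₂).2.1 hzy
  have k1 : K z₁ < K z₂ := (hK _ _ hz₁ hz₂).1.1 h12
  have k2 : K z₂ < K z₃ := (hK _ _ hz₂ hz₃).1.1 h23
  have k3 : K y₁ < K y₂ := (hK _ _ hy₁ hy₂).1.1 g12
  have k4 : K y₂ < K y₃ := (hK _ _ hy₂ hy₃).1.1 g23
  by_contra hcon
  have hA : 0 ≤ ip T z₁ ∨ 0 ≤ ip T y₁ := by
    by_contra h
    rw [not_or, not_le, not_le] at h
    exact hcon (Or.inl h)
  have hB : 0 ≤ ip T z₃ ∨ 0 ≤ ip T y₃ := by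
    by_contra h
    rw [not_or, not_le, not_le] at h
    exact hcon (Or.inr h)
  rcases hA with hA | hA
  · rcases hB with hB | hB
    · exact absurd (hnn z₁ z₂ z₃ hz₁ hz₂ hz₃ k1.le k2.le hA hB) (not_le.2 hTz)
    · exact absurd (hnn z₁ z₂ y₃ hz₁ hz₂ hy₃ k1.le (by linarith) hA hB) (not_le.2 hTz)
  · rcases hB with hB | hB
    · rcases le_or_gt (K y₁) (K z₂) with h | h
      · exact absurd (hnn y₁ z₂ z₃ hy₁ hz₂ hz₃ h k2.le hA hB) (not_le.2 hTz)
      · exact absurd (hneg z₂ y₁ y₂ hz₂ hy₁ hy₂ h.le k3.le hTz hTy) (not_lt.2 hA)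
    · exact absurd (hnn y₁ y₂ y₃ hy₁ hy₂ hy₃ k3.le k4.le hA hB) (not_le.2 hTy)

end TPH
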