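import Pool.Agent.TPH.St7

/-!
# Parallel hyperplanes: facts about angular positions
-/

namespace TPH

namespace MAng

theorem ident (r p w w' : E) :
    det3 r w w' * det3 r p (cr r p) =
      det3 r w (cr r p) * det3 r p w' - det3 r p w * det3 r w' (cr r p) := by
  simp only [det3, cr, Matrix.cons_val_zero, Matrix.cons_val_one, Matrix.cons_val]
  ring

theorem D_eq (r p : E) : det3 r p (cr r p) = ip (cr r p) (cr r p) := by
  simp only [det3, cr, ip, Matrix.cons_val_zero, Matrix.cons_val_one, Matrix.cons_val]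
  ring

theorem det_eq (r p w : E) : det3 r p w = ip (cr r p) w := by
  simp only [det3, cr, ip, Matrix.cons_val_zero, Matrix.cons_val_one, Matrix.cons_val]
  ring

theorem D_pos (r p w : E) (h : 0 < det3 r p w) : 0 < det3 r p (cr r p) := by
  rw [D_eq]
  rw [det_eq] at h
  by_contra hcon
  have h0 : (cr r p) 0 = 0 := by
    unfold ip at hcon
    nlinarith [sq_nonneg ((cr r p) 0), sq_nonneg ((cr r p) 1), sq_nonneg ((cr r p) 2)]
  have h1 : (cr r p) 1 = 0 := by
    unfold ip at hcon
    nlinarith [sq_nonneg ((cr r p) 0), sq_nonneg ((cr r p) 1), sq_nonneg ((cr r p) 2)]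
  have h2 : (cr r p) 2 = 0 := by
    unfold ip at hcon
    nlinarith [sq_nonneg ((cr r p) 0), sq_nonneg ((cr r p) 1), sq_nonneg ((cr r p) 2)]
  unfold ip at h
  rw [h0, h1, h2] at h
  simp at h

theorem diff (r p w w' : E) (hw : 0 < det3 r p w) (hw' : 0 < det3 r p w') :
    akey r p w' - akey r p w =
      det3 r w w' * det3 r p (cr r p) / (det3 r p w * det3 r p w') := by
  unfold akey
  rw [ident, eq_div_iff (by positivity)]
  field_simp
  ring

theorem one (r p w w' : E) (hw : 0 < det3 r p w) (hw' : 0 < det3 r p w') :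
    (akey r p w < akey r p w' ↔ 0 < det3 r w w') ∧
      (akey r p w = akey r p w' ↔ det3 r w w' = 0) := by
  have hD := D_pos r p w hw
  have hd := diff r p w w' hw hw'
  have hP : 0 < det3 r p w * det3 r p w' := mul_pos hw hw'
  constructor
  · rw [← sub_pos, hd]
    constructor
    · intro h
      by_contra hc
      have h1 : det3 r w w' * det3 r p (cr r p) ≤ 0 :=
        mul_nonpos_of_nonpos_of_nonneg (not_lt.mp hc) hD.le
      have h2 : det3 r w w' * det3 r p (cr r p) / (det3 r p w * det3 r p w') ≤ 0 :=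
        div_nonpos_of_nonpos_of_nonneg h1 hP.le
      linarith
    · intro h
      exact div_pos (mul_pos h hD) hP
  · constructor
    · intro h
      rw [h, sub_self] at hd
      rcases div_eq_zero_iff.mp hd.symm with h1 | h1
      · rcases mul_eq_zero.mp h1 with h2 | h2
        · exact h2
        · exact absurd h2 hD.ne'
      · exact absurd h1 hP.ne'
    · intro h
      rw [h, zero_mul, zero_div] at hd
      linarith

theorem two (r p w : E) (κ : ℝ) (hκ : κ ≠ 0) : akey r p (κ • w) = akey r p w := by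
  unfold akey
  have h1 : det3 r (κ • w) (cr r p) = κ * det3 r w (cr r p) := by
    simp only [det3, Pi.smul_apply, smul_eq_mul]
    ring
  have h2 : det3 r p (κ • w) = κ * det3 r p w := by
    simp only [det3, Pi.smul_apply, smul_eq_mul]
    ring
  rw [h1, h2, ← mul_neg, mul_div_mul_left _ _ hκ]

theorem three (r p w₁ w₂ q : E) (h₁ : 0 < det3 r p w₁) (h₂ : 0 < det3 r p w₂)
    (h : akey r p w₁ ≤ akey r p w₂) (hq : InSec r w₁ w₂ q) :
    0 < det3 r p q ∧ akey r p w₁ ≤ akey r p q ∧ akey r p q ≤ akey r p w₂ := by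
  obtain ⟨α, β, τ, hα, hβ, hαβ, rfl⟩ := hq
  have e0 : det3 r p (α • w₁ + β • w₂ - τ • r) = α * det3 r p w₁ + β * det3 r p w₂ := by
    simp only [det3, Pi.smul_apply, Pi.add_apply, Pi.sub_apply, smul_eq_mul]
    ring
  have e1 : det3 r w₁ (α • w₁ + β • w₂ - τ • r) = β * det3 r w₁ w₂ := by
    simp only [det3, Pi.smul_apply, Pi.add_apply, Pi.sub_apply, smul_eq_mul]
    ring
  have e2 : det3 r (α • w₁ + β • w₂ - τ • r) w₂ = α * det3 r w₁ w₂ := by
    simp only [det3, Pi.smul_apply, Pi.add_apply, Pi.sub_apply, smul_eq_mul]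
    ring
  have hpos : 0 < det3 r p (α • w₁ + β • w₂ - τ • r) := by
    rw [e0]
    rcases hα.eq_or_lt with h0 | h0
    · have hb : 0 < β := by linarith
      rw [← h0, zero_mul, zero_add]
      exact mul_pos hb h₂
    · exact add_pos_of_pos_of_nonneg (mul_pos h0 h₁) (mul_nonneg hβ h₂.le)
  have hdet : 0 ≤ det3 r w₁ w₂ := by
    rcases h.eq_or_lt with h0 | h0
    · exact ((one r p w₁ w₂ h₁ h₂).2.mp h0).ge
    · exact ((one r p w₁ w₂ h₁ h₂).1.mp h0).le
  refine ⟨hpos, ?_, ?_⟩
  · have h3 : 0 ≤ det3 r w₁ (α • w₁ + β • w₂ - τ • r) := by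
      rw [e1]
      exact mul_nonneg hβ hdet
    rcases h3.eq_or_lt with h0 | h0
    · exact ((one r p w₁ _ h₁ hpos).2.mpr h0.symm).le
    · exact ((one r p w₁ _ h₁ hpos).1.mpr h0).le
  · have h3 : 0 ≤ det3 r (α • w₁ + β • w₂ - τ • r) w₂ := by
      rw [e2]
      exact mul_nonneg hα hdet
    rcases h3.eq_or_lt with h0 | h0
    · exact ((one r p _ w₂ hpos h₂).2.mpr h0.symm).le
    · exact ((one r p _ w₂ hpos h₂).1.mpr h0).le

end MAng

/-- Facts about angular positions. -/
theorem t_Ang : StmtAng := by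
  intro r p
  exact ⟨fun w w' hw hw' => MAng.one r p w w' hw hw', fun w κ hκ => MAng.two r p w κ hκ,
    fun w₁ w₂ q h₁ h₂ h hq => MAng.three r p w₁ w₂ q h₁ h₂ h hq⟩

end TPH
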