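import Pool.Agent.TPH.St5
import Pool.Agent.TPH.Closed

/-!
# Arc: comparison of two rays of the arc of `{c,c'}`
-/

set_option autoImplicit false

namespace TPH

namespace MArc

theorem par0 {C : Finset E} {c c' s t : E} (hC : 3 ≤ C.card) (hcc : c ≠ c')
    (hs : Mx C s = {c, c'}) (ht : Mx C t = {c, c'}) (h : det3 (c - c') s t = 0) :
    ∃ k : ℝ, 0 < k ∧ t = k • s := by
  obtain ⟨key, hk⟩ := Closed.c_t_KeyFn C c c' hC hcc
  obtain ⟨h1, h2⟩ := hk s t hs ht
  obtain ⟨h3, -⟩ := hk t s ht hs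
  have hsw : det3 (c - c') t s = -det3 (c - c') s t := det3_swap23 _ _ _
  rcases lt_trichotomy (key s) (key t) with hlt | heq | hgt
  · have := h1.1 hlt
    linarith
  · exact h2.1 heq
  · have := h3.1 hgt
    linarith

theorem core {C : Finset E} {c c' s p t : E} (hC : 3 ≤ C.card) (hcc : c ≠ c')
    (hs : Mx C s = {c, c'}) (hp : Mx C p = {c, c'}) (ht : Mx C t = {c, c'})
    (h1 : 0 ≤ det3 (c - c') s p) (h2 : 0 ≤ det3 (c - c') p t) :
    ∃ α β : ℝ, 0 ≤ α ∧ 0 ≤ β ∧ 0 < α + β ∧ p = α • s + β • t ∧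
      (0 < det3 (c - c') s p → 0 < det3 (c - c') s t ∧ 0 < β) ∧
      (0 < det3 (c - c') p t → 0 < det3 (c - c') s t ∧ 0 < α) := by
  rcases h1.lt_or_eq with h1' | h1'
  · rcases h2.lt_or_eq with h2' | h2'
    · obtain ⟨h3, α, β, hα, hβ, he⟩ := Closed.c_t_Between C c c' s p t hC hcc hs hp ht h1' h2'
      exact ⟨α, β, hα.le, hβ.le, by linarith, he, fun _ => ⟨h3, hβ⟩, fun _ => ⟨h3, hα⟩⟩
    · obtain ⟨k, hk, he⟩ := par0 hC hcc hp ht h2'.symm
      have hki : 0 < k⁻¹ := inv_pos.mpr hk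
      refine ⟨0, k⁻¹, le_rfl, hki.le, by linarith, ?_, fun _ => ⟨?_, hki⟩, fun h => ?_⟩
      · rw [he, zero_smul, zero_add, smul_smul, inv_mul_cancel₀ hk.ne', one_smul]
      · rw [he, det3_smul3]
        exact mul_pos hk h1'
      · rw [← h2'] at h
        exact absurd h (lt_irrefl _)
  · obtain ⟨k, hk, he⟩ := par0 hC hcc hs hp h1'.symm
    refine ⟨k, 0, hk.le, le_rfl, by linarith, ?_, fun h => ?_, fun h => ⟨?_, hk⟩⟩
    · rw [zero_smul, add_zero, he]
    · rw [← h1'] at h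
      exact absurd h (lt_irrefl _)
    · rw [he, det3_smul2] at h
      exact (pos_iff_pos_of_mul_pos h).1 hk

end MArc

theorem t_Arc : StmtArc := by
  intro C c c' s p t σ hC hcc hσ hs hp ht
  have e1 : det3 (c - c') p s = -det3 (c - c') s p := det3_swap23 _ _ _
  have e2 : det3 (c - c') t p = -det3 (c - c') p t := det3_swap23 _ _ _
  have e3 : det3 (c - c') t s = -det3 (c - c') s t := det3_swap23 _ _ _
  constructor
  · rcases lt_trichotomy (det3 (c - c') s p) 0 with hlt | heq | hgt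
    · rcases hσ with rfl | rfl
      · exact Or.inr (Or.inl (by rw [e1]; linarith))
      · exact Or.inl (by linarith)
    · exact Or.inr (Or.inr (MArc.par0 hC hcc hs hp heq))
    · rcases hσ with rfl | rfl
      · exact Or.inl (by linarith)
      · exact Or.inr (Or.inl (by rw [e1]; linarith))
  · intro h1 h2
    rcases hσ with rfl | rfl
    · simp only [one_mul] at h1 h2 ⊢
      exact MArc.core hC hcc hs hp ht h1 h2
    · have h1' : 0 ≤ det3 (c - c') p s := by rw [e1]; linarith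
      have h2' : 0 ≤ det3 (c - c') t p := by rw [e2]; linarith
      obtain ⟨α, β, hα, hβ, hab, he, ha, hb⟩ := MArc.core hC hcc ht hp hs h2' h1'
      refine ⟨β, α, hβ, hα, by linarith, ?_, fun h => ?_, fun h => ?_⟩
      · rw [add_comm]
        exact he
      · obtain ⟨h5, h6⟩ := hb (by rw [e1]; linarith)
        exact ⟨by rw [e3] at h5; linarith, h6⟩
      · obtain ⟨h5, h6⟩ := ha (by rw [e2]; linarith)
        exact ⟨by rw [e3] at h5; linarith, h6⟩

end TPH
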