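import Pool.Agent.TPH.St7
import Pool.Agent.TPH.Closed

set_option autoImplicit false

/-!
# Three parallel hyperplanes: the total number of event classes
-/

namespace TPH

namespace MEvSum

/-- Double counting. -/
theorem dc {α : Type} (S : Finset α) (C : Finset E) (F : E → Finset α)
    (h : ∀ c ∈ C, F c ⊆ S) :
    ∑ c ∈ C, (F c).card =
      ∑ x ∈ S, (@Finset.filter E (fun c => x ∈ F c) (Classical.decPred _) C).card := by
  classical
  have h1 : ∀ c ∈ C, (F c).card = ∑ x ∈ S, (if x ∈ F c then 1 else 0) := by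
    intro c hc
    rw [← Finset.sum_filter, Finset.sum_const, smul_eq_mul, mul_one]
    congr 1
    ext x
    simp only [Finset.mem_filter]
    exact ⟨fun hx => ⟨h c hc hx, hx⟩, fun hx => hx.2⟩
  rw [Finset.sum_congr rfl h1, Finset.sum_comm]
  refine Finset.sum_congr rfl fun x _ => ?_
  rw [← Finset.sum_filter, Finset.sum_const, smul_eq_mul, mul_one]
  congr 1
  ext c
  simp only [Finset.mem_filter]

/-- Double counting with a uniform bound. -/
theorem dcb {α : Type} (S : Finset α) (C : Finset E) (F : E → Finset α) (k : ℕ)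
    (h : ∀ c ∈ C, F c ⊆ S)
    (h2 : ∀ x ∈ S, (@Finset.filter E (fun c => x ∈ F c) (Classical.decPred _) C).card ≤ k) :
    ∑ c ∈ C, (F c).card ≤ k * S.card := by
  rw [dc S C F h, mul_comm]
  exact Finset.sum_le_card_nsmul S _ k h2

theorem one_of {P : E → Prop} (C : Finset E) (c₀ : E) (h : ∀ c ∈ C, P c → c = c₀) :
    (@Finset.filter E P (Classical.decPred _) C).card ≤ 1 := by
  classical
  rw [Finset.card_le_one]
  intro a ha b hb
  rw [Finset.mem_filter] at ha hb
  rw [h a ha.1 ha.2, h b hb.1 hb.2]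

theorem s1 (A B C : Finset E) : ∑ c ∈ C, (ev1 A B C c).card ≤ (alts A B C).card := by
  have := dcb (alts A B C) C (fun c => ev1 A B C c) 1
    (fun c _ x hx => by simp only [ev1, Finset.mem_filter] at hx; exact hx.1) ?_
  · rwa [one_mul] at this
  · intro x _
    apply one_of C x.2.2
    intro c _ h
    simp only [ev1, Finset.mem_filter] at h
    exact h.2.symm

theorem s2 (A B C : Finset E) : ∑ c ∈ C, (ev2 A B C c).card ≤ (flats A B C).card := by
  have := dcb (flats A B C) C (fun c => ev2 A B C c) 1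
    (fun c _ x hx => by simp only [ev2, Finset.mem_filter] at hx; exact hx.1) ?_
  · rwa [one_mul] at this
  · intro x _
    apply one_of C x.2.1
    intro c _ h
    simp only [ev2, Finset.mem_filter] at h
    exact h.2.symm

theorem sing_inj {c d : E} (h : ({c} : Finset E) = {d}) : c = d := Finset.singleton_injective h

theorem s3 (A C : Finset E) (hA : ConvPos A) :
    ∑ c ∈ C, (ev3 A C c).card ≤ 2 * (Faces A).card := by
  apply dcb (Faces A) C (fun c => ev3 A C c) 2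
    (fun c _ x hx => by simp only [ev3, Finset.mem_filter] at hx; exact hx.1)
  intro G hG
  by_contra hcon
  push Not at hcon
  obtain ⟨c₁, h1, c₂, h2, c₃, h3, h12, h13, h23⟩ := Finset.two_lt_card.mp hcon
  simp only [ev3, Finset.mem_filter] at h1 h2 h3
  obtain ⟨hc1, -, u₁, hu1, hv1⟩ := h1
  obtain ⟨hc2, -, u₂, hu2, hv2⟩ := h2
  obtain ⟨hc3, -, u₃, hu3, hv3⟩ := h3
  have hG3 : 3 ≤ G.card := (mem_Faces.mp hG).1
  obtain ⟨a, ha, b, hb, d, hd, hab, had, hbd⟩ := Finset.two_lt_card.mp (show 2 < G.card from hG3)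
  have hsub : G ⊆ A := by rw [← hu1]; exact Mx_subset _ _
  have hP : ∀ u : E, Mx A u = G → Perp {a, b, d} u := by
    intro u hu
    have h := perp_Mx A u
    rw [hu] at h
    apply h.mono
    intro x hx
    simp only [Finset.mem_insert, Finset.mem_singleton] at hx
    rcases hx with rfl | rfl | rfl <;> assumption
  have hne : ∀ (u c c' : E), Mx C u = {c} → c' ∈ C → c ∈ C → c' ≠ c → u ≠ 0 := by
    rintro u c c' hu hc' - hcc rfl
    rw [Mx_zero] at hu
    rw [hu, Finset.mem_singleton] at hc'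
    exact hcc hc'
  have n1 : u₁ ≠ 0 := hne u₁ c₁ c₂ hv1 hc2 hc1 (Ne.symm h12)
  have n2 : u₂ ≠ 0 := hne u₂ c₂ c₁ hv2 hc1 hc2 h12
  have n3 : u₃ ≠ 0 := hne u₃ c₃ c₁ hv3 hc1 hc3 h13
  have key : ∀ u u' : E, u ≠ 0 → Mx A u = G → Mx A u' = G → ∃ κ : ℝ, u' = κ • u :=
    fun u u' hu h h' => TPH.Closed.c_t_NonCol A a b d u u' hA (hsub ha) (hsub hb) (hsub hd)
      hab had hbd hu (hP u h) (hP u' h')
  have neg : ∀ (u u' c c' : E), u ≠ 0 → u' ≠ 0 → Mx A u = G → Mx A u' = G → Mx C u = {c} →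
      Mx C u' = {c'} → c ≠ c' → ∃ κ : ℝ, κ < 0 ∧ u' = κ • u := by
    intro u u' c c' hu hu' h h' hc hc' hcc
    obtain ⟨κ, hκ⟩ := key u u' hu h h'
    refine ⟨κ, ?_, hκ⟩
    rcases lt_trichotomy κ 0 with hk | hk | hk
    · exact hk
    · exfalso; apply hu'; rw [hκ, hk, zero_smul]
    · exfalso
      apply hcc
      apply sing_inj
      rw [← hc, ← hc', hκ, Mx_smul hk]
  obtain ⟨κ, hκ, e1⟩ := neg u₁ u₂ c₁ c₂ n1 n2 hu1 hu2 hv1 hv2 h12
  obtain ⟨μ, hμ, e2⟩ := neg u₁ u₃ c₁ c₃ n1 n3 hu1 hu3 hv1 hv3 h13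
  obtain ⟨ν, hν, e3⟩ := neg u₂ u₃ c₂ c₃ n2 n3 hu2 hu3 hv2 hv3 h23
  have e4 : μ • u₁ = (ν * κ) • u₁ := by rw [← e2, e3, e1, smul_smul]
  have e5 : (μ - ν * κ) • u₁ = 0 := by rw [sub_smul, e4, sub_self]
  rcases smul_eq_zero.mp e5 with h | h
  · have := mul_pos_of_neg_of_neg hν hκ
    linarith
  · exact n1 h

theorem s5 (C : Finset E) : ∑ c ∈ C, (ev5 C c).card ≤ ∑ G ∈ Faces C, G.card := by
  rw [dc (Faces C) C (fun c => ev5 C c)
    (fun c _ x hx => by simp only [ev5, Finset.mem_filter] at hx; exact hx.1)]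
  apply Finset.sum_le_sum
  intro G _
  apply Finset.card_le_card
  intro c hc
  simp only [ev5, Finset.mem_filter] at hc
  exact hc.2.2

/-- Edges at `c`. -/
noncomputable def eat (C : Finset E) (c : E) : Finset (Finset E) :=
  @Finset.filter _ (fun e => c ∈ e) (Classical.decPred _) (Ed C)

theorem s6a (C : Finset E) (c : E) : (ev6 C c).card ≤ (eat C c).card := by
  classical
  apply Finset.card_le_card_of_injOn (fun c' => ({c, c'} : Finset E))
  · intro c' hc'
    simp only [ev6, Finset.coe_filter, Set.mem_ofPred_eq] at hc'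
    simp only [eat, Finset.coe_filter, Set.mem_ofPred_eq]
    refine ⟨?_, by simp⟩
    convert hc'.2.2
  · intro x hx y hy hxy
    simp only [ev6, Finset.coe_filter, Set.mem_ofPred_eq] at hx hy
    have hxy' : ({c, x} : Finset E) = {c, y} := hxy
    have : x ∈ ({c, y} : Finset E) := by rw [← hxy']; simp
    simp only [Finset.mem_insert, Finset.mem_singleton] at this
    rcases this with h | h
    · exact absurd h hx.2.1
    · exact h

theorem s6 (C : Finset E) : ∑ c ∈ C, (ev6 C c).card ≤ 2 * (Ed C).card := by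
  calc ∑ c ∈ C, (ev6 C c).card ≤ ∑ c ∈ C, (eat C c).card := Finset.sum_le_sum fun c _ => s6a C c
    _ ≤ 2 * (Ed C).card := by
      apply dcb (Ed C) C (fun c => eat C c) 2
        (fun c _ x hx => by simp only [eat, Finset.mem_filter] at hx; exact hx.1)
      intro e he
      have h2 : e.card = 2 := (mem_Ed.mp he).1
      rw [← h2]
      apply Finset.card_le_card
      intro c hc
      simp only [eat, Finset.mem_filter] at hc
      exact hc.2.2

theorem sq3 (x y z w : ℕ) (h : w ≤ x + y + z) : w ^ 2 ≤ 3 * (x ^ 2 + y ^ 2 + z ^ 2) := by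
  have h1 : w ^ 2 ≤ (x + y + z) ^ 2 := Nat.pow_le_pow_left h 2
  zify at h1 ⊢
  nlinarith [sq_nonneg ((x : ℤ) - y), sq_nonneg ((x : ℤ) - z), sq_nonneg ((y : ℤ) - z)]

end MEvSum

open MEvSum in
theorem t_EvSum (hAltBound : StmtAltBound) (hTangPairs : StmtTangPairs) : StmtEvSum := by
  obtain ⟨K₁, hK₁⟩ := hAltBound
  obtain ⟨K₂, hK₂⟩ := TPH.Closed.flats_bound
  obtain ⟨K₇, hK₇⟩ := hTangPairs
  refine ⟨3 * (K₁ + K₂ + (38 + K₇) ^ 2), ?_⟩
  intro A B C hA hB hC hR
  set n := A.card + B.card + C.card with hn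
  have b1 := hK₁ A B C hA hB hC hR
  have b2 := hK₂ A B C hA hB hC hR
  have b7 := hK₇ A B C hA hC hR
  rw [← hn] at b1 b2
  have fA := TPH.Closed.edge_lin A hA
  have fB := TPH.Closed.edge_lin B hB
  have fC := TPH.Closed.edge_lin C hC
  have t1 := s1 A B C
  have t2 := s2 A B C
  have t3 := s3 A C hA
  have t4 := s3 B C hB
  have t5 := s5 C
  have t6 := s6 C
  set x := (alts A B C).card with hx
  set y := (flats A B C).card with hy
  have hsum : ∑ c ∈ C, evc A B C c = ∑ c ∈ C, (ev1 A B C c).card + ∑ c ∈ C, (ev2 A B C c).card +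
      ∑ c ∈ C, (ev3 A C c).card + ∑ c ∈ C, (ev3 B C c).card + ∑ c ∈ C, (ev5 C c).card +
      ∑ c ∈ C, (ev6 C c).card + ∑ c ∈ C, (ev7 A B C c).card := by
    simp only [evc, Finset.sum_add_distrib]
  have hl7 : K₇ * (A.card + C.card) ≤ K₇ * n := Nat.mul_le_mul_left _ (by omega)
  have hlin : ∑ c ∈ C, evc A B C c ≤ x + y + (38 + K₇) * n := by
    rw [hsum, add_mul]
    omega
  have h4 := sq3 _ _ _ _ hlin
  have h5 : ((38 + K₇) * n) ^ 2 ≤ (38 + K₇) ^ 2 * n ^ 3 := by
    rw [mul_pow]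
    apply Nat.mul_le_mul_left
    rcases Nat.eq_zero_or_pos n with h0 | hpos
    · rw [h0]; norm_num
    · exact Nat.pow_le_pow_right hpos (by norm_num)
  calc (∑ c ∈ C, evc A B C c) ^ 2 ≤ 3 * (x ^ 2 + y ^ 2 + ((38 + K₇) * n) ^ 2) := h4
    _ ≤ 3 * (K₁ * n ^ 3 + K₂ * n ^ 3 + (38 + K₇) ^ 2 * n ^ 3) :=
      Nat.mul_le_mul_left _ (Nat.add_le_add (Nat.add_le_add b1 b2) h5)
    _ = 3 * (K₁ + K₂ + (38 + K₇) ^ 2) * n ^ 3 := by ring

end TPH
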