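import Pool.Agent.TPH.St7
import Pool.Agent.TPH.Closed

/-!
# Events in a sector (module Event)
-/

set_option autoImplicit false

namespace TPH

namespace MEvent

open Set

theorem cont_ip {q : ℝ → E} (hq : Continuous q) (a : E) : Continuous fun t => ip a (q t) := by
  have h0 : Continuous fun t => q t 0 := (continuous_apply 0).comp hq
  have h1 : Continuous fun t => q t 1 := (continuous_apply 1).comp hq
  have h2 : Continuous fun t => q t 2 := (continuous_apply 2).comp hq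
  unfold ip
  exact ((continuous_const.mul h0).add (continuous_const.mul h1)).add (continuous_const.mul h2)

theorem closed_mem {q : ℝ → E} (hq : Continuous q) (A : Finset E) (a : E) :
    IsClosed {t : ℝ | a ∈ Mx A (q t)} := by
  by_cases ha : a ∈ A
  · have h : {t : ℝ | a ∈ Mx A (q t)} = ⋂ a' ∈ A, {t : ℝ | ip a' (q t) ≤ ip a (q t)} := by
      ext t
      simp only [mem_ofPred_eq, mem_iInter, mem_Mx]
      exact ⟨fun h => h.2, fun h => ⟨ha, h⟩⟩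
    rw [h]
    exact isClosed_biInter fun a' _ => isClosed_le (cont_ip hq a') (cont_ip hq a)
  · have h : {t : ℝ | a ∈ Mx A (q t)} = ∅ := by
      ext t
      simp only [mem_ofPred_eq, mem_Mx, mem_empty_iff_false, iff_false]
      exact fun h => ha h.1
    rw [h]
    exact isClosed_empty

theorem closed_other {q : ℝ → E} (hq : Continuous q) (A : Finset E) (a : E) :
    IsClosed {t : ℝ | ∃ b ∈ A, b ≠ a ∧ b ∈ Mx A (q t)} := by
  classical
  have h : {t : ℝ | ∃ b ∈ A, b ≠ a ∧ b ∈ Mx A (q t)} =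
      ⋃ b ∈ A.filter (· ≠ a), {t : ℝ | b ∈ Mx A (q t)} := by
    ext t
    simp only [mem_ofPred_eq, mem_iUnion, Finset.mem_filter, exists_prop]
    constructor
    · rintro ⟨b, h1, h2, h3⟩
      exact ⟨b, ⟨h1, h2⟩, h3⟩
    · rintro ⟨b, ⟨h1, h2⟩, h3⟩
      exact ⟨b, h1, h2, h3⟩
  rw [h]
  exact isClosed_biUnion_finset fun b _ => closed_mem hq A b

theorem closed_two {q : ℝ → E} (hq : Continuous q) (A : Finset E) :
    IsClosed {t : ℝ | 2 ≤ (Mx A (q t)).card} := by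
  have h : {t : ℝ | 2 ≤ (Mx A (q t)).card} =
      ⋃ a ∈ A, ({t : ℝ | a ∈ Mx A (q t)} ∩ {t : ℝ | ∃ b ∈ A, b ≠ a ∧ b ∈ Mx A (q t)}) := by
    ext t
    simp only [mem_ofPred_eq, mem_iUnion, mem_inter_iff, exists_prop]
    constructor
    · intro h
      obtain ⟨a, ha, b, hb, hab⟩ := Finset.one_lt_card.mp (show 1 < (Mx A (q t)).card by omega)
      exact ⟨a, Mx_subset _ _ ha, ha, b, Mx_subset _ _ hb, fun e => hab e.symm, hb⟩
    · rintro ⟨a, _, ha, b, _, hab, hb⟩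
      exact Finset.one_lt_card.mpr ⟨a, ha, b, hb, fun e => hab e.symm⟩
  rw [h]
  exact isClosed_biUnion_finset fun a _ => (closed_mem hq A a).inter (closed_other hq A a)

/-- Between two points where nothing ties the only maximiser is constant. -/
theorem const_single {q : ℝ → E} (hq : Continuous q) {A : Finset E} (hA : A.Nonempty) {s₁ s₂ : ℝ}
    (hs : s₁ < s₂) (h : ∀ t ∈ Ioo s₁ s₂, (Mx A (q t)).card < 2) :
    ∃ a, a ∈ Mx A (q s₁) ∧ a ∈ Mx A (q s₂) := by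
  obtain ⟨t₀, ht₀⟩ := nonempty_Ioo.mpr hs
  obtain ⟨a, ha⟩ := Mx_nonempty hA (q t₀)
  have hall : ∀ t ∈ Ioo s₁ s₂, a ∈ Mx A (q t) := by
    intro t ht
    by_contra hn
    obtain ⟨b, hb⟩ := Mx_nonempty hA (q t)
    have hp := isPreconnected_closed_iff.mp (isPreconnected_Ioo (a := s₁) (b := s₂))
      {t : ℝ | a ∈ Mx A (q t)} {t : ℝ | ∃ b ∈ A, b ≠ a ∧ b ∈ Mx A (q t)}
      (closed_mem hq A a) (closed_other hq A a) ?_ ⟨t₀, ht₀, ha⟩
      ⟨t, ht, b, Mx_subset _ _ hb, fun e => hn (e ▸ hb), hb⟩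
    · obtain ⟨t', ht', h1, b', _, h2, h3⟩ := hp
      have h4 := h t' ht'
      have h5 : 1 < (Mx A (q t')).card :=
        Finset.one_lt_card.mpr ⟨a, h1, b', h3, fun e => h2 e.symm⟩
      omega
    · intro t' _
      obtain ⟨b', hb'⟩ := Mx_nonempty hA (q t')
      by_cases hbb : b' = a
      · exact Or.inl (show a ∈ Mx A (q t') from hbb ▸ hb')
      · exact Or.inr ⟨b', Mx_subset _ _ hb', hbb, hb'⟩
  have hcl : closure (Ioo s₁ s₂) ⊆ {t : ℝ | a ∈ Mx A (q t)} :=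
    closure_minimal (fun t ht => hall t ht) (closed_mem hq A a)
  rw [closure_Ioo hs.ne] at hcl
  exact ⟨a, hcl ⟨le_rfl, hs.le⟩, hcl ⟨hs.le, le_rfl⟩⟩

theorem eq_single {S : Finset E} {a : E} (h : S.card < 2) (ha : a ∈ S) : S = {a} := by
  have h1 : S.card = 1 := by
    have := Finset.card_pos.mpr ⟨a, ha⟩
    omega
  obtain ⟨b, hb⟩ := Finset.card_eq_one.mp h1
  rw [hb] at ha
  rw [hb, Finset.mem_singleton.mp ha]

/-- The core: two neighbouring ties, one of `A` and one of `B`. -/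
theorem core {q : ℝ → E} (hq : Continuous q) {A B : Finset E} (hA : A.Nonempty) (hB : B.Nonempty)
    {sA sB : ℝ} (hs : sA < sB)
    (h : ∀ t ∈ Icc sA sB, (Mx A (q t)).card < 3 ∧ (Mx B (q t)).card < 3 ∧
      ¬ (2 ≤ (Mx A (q t)).card ∧ 2 ≤ (Mx B (q t)).card))
    (hsA : 2 ≤ (Mx A (q sA)).card) (hsB : 2 ≤ (Mx B (q sB)).card) :
    ∃ s₁ s₂ a b, s₁ ∈ Icc sA sB ∧ s₂ ∈ Icc sA sB ∧ (Mx A (q s₁)).card = 2 ∧
      a ∈ Mx A (q s₁) ∧ Mx B (q s₁) = {b} ∧ Mx A (q s₂) = {a} ∧ (Mx B (q s₂)).card = 2 ∧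
      b ∈ Mx B (q s₂) := by
  have hK : IsCompact (Icc sA sB ∩ {t : ℝ | 2 ≤ (Mx B (q t)).card}) :=
    isCompact_Icc.inter_right (closed_two hq B)
  obtain ⟨s₂, ⟨h2I, h2c⟩, h2m⟩ := hK.exists_isLeast ⟨sB, ⟨hs.le, le_rfl⟩, hsB⟩
  have h2c' : 2 ≤ (Mx B (q s₂)).card := h2c
  have hlt2 : sA < s₂ := by
    rcases h2I.1.lt_or_eq with hl | he
    · exact hl
    · exfalso
      rw [← he] at h2c'
      exact (h sA ⟨le_rfl, hs.le⟩).2.2 ⟨hsA, h2c'⟩
  have hK' : IsCompact (Icc sA s₂ ∩ {t : ℝ | 2 ≤ (Mx A (q t)).card}) :=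
    isCompact_Icc.inter_right (closed_two hq A)
  obtain ⟨s₁, ⟨h1I, h1c⟩, h1m⟩ := hK'.exists_isGreatest ⟨sA, ⟨le_rfl, hlt2.le⟩, hsA⟩
  have h1c' : 2 ≤ (Mx A (q s₁)).card := h1c
  have h1I' : s₁ ∈ Icc sA sB := ⟨h1I.1, h1I.2.trans h2I.2⟩
  have hlt1 : s₁ < s₂ := by
    rcases h1I.2.lt_or_eq with hl | he
    · exact hl
    · exfalso
      rw [he] at h1c'
      exact (h s₂ h2I).2.2 ⟨h1c', h2c'⟩
  have hIA : ∀ t ∈ Ioo s₁ s₂, (Mx A (q t)).card < 2 := by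
    intro t ht
    by_contra hn
    have := h1m (show t ∈ Icc sA s₂ ∩ {t : ℝ | 2 ≤ (Mx A (q t)).card} from
      ⟨⟨h1I.1.trans ht.1.le, ht.2.le⟩, show 2 ≤ (Mx A (q t)).card by omega⟩)
    exact absurd ht.1 (not_lt.mpr this)
  have hIB : ∀ t ∈ Ioo s₁ s₂, (Mx B (q t)).card < 2 := by
    intro t ht
    by_contra hn
    have := h2m (show t ∈ Icc sA sB ∩ {t : ℝ | 2 ≤ (Mx B (q t)).card} from
      ⟨⟨h1I.1.trans ht.1.le, ht.2.le.trans h2I.2⟩, show 2 ≤ (Mx B (q t)).card by omega⟩)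
    exact absurd ht.2 (not_lt.mpr this)
  obtain ⟨a, ha1, ha2⟩ := const_single hq hA hlt1 hIA
  obtain ⟨b, hb1, hb2⟩ := const_single hq hB hlt1 hIB
  have g1 := h s₁ h1I'
  have g2 := h s₂ h2I
  have e1 : (Mx B (q s₁)).card < 2 := by
    by_contra hn
    exact g1.2.2 ⟨h1c', by omega⟩
  have e2 : (Mx A (q s₂)).card < 2 := by
    by_contra hn
    exact g2.2.2 ⟨by omega, h2c'⟩
  exact ⟨s₁, s₂, a, b, h1I', h2I, by omega, ha1, eq_single e1 hb1, eq_single e2 ha2, by omega, hb2⟩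

end MEvent

open MEvent Set in
theorem t_Event (hTieBasic : StmtTieBasic) (hTPath : StmtTPath) : StmtEvent := by
  intro A B C c r w₁ w₂ qA qB hr hw₁ hw₂ hC hqA hqA' hqA2 hqB hqB' hqB2
  obtain ⟨q, τ, P⟩ := hTPath A B c r w₁ w₂ hr hw₁ hw₂
  obtain ⟨sA, κA, hA0, hA1, hκA, heA⟩ := P.all qA hqA hqA'
  obtain ⟨sB, κB, hB0, hB1, hκB, heB⟩ := P.all qB hqB hqB'
  rw [heA, Mx_smul hκA] at hqA2
  rw [heB, Mx_smul hκB] at hqB2
  have hq : Continuous q := by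
    have h1 : q = fun s => (1 - s) • w₁ + s • w₂ - τ s • r := funext P.eq
    rw [h1]
    exact (((continuous_const.sub continuous_id).smul continuous_const).add
      (continuous_id.smul continuous_const)).sub (P.cont.smul continuous_const)
  have hsec : ∀ t ∈ Icc (0 : ℝ) 1, InSec r w₁ w₂ (q t) := by
    intro t ht
    exact ⟨1 - t, t, τ t, by linarith [ht.2], ht.1, by linarith, P.eq t⟩
  have hne := (hTieBasic A B c w₁).1 hw₁
  have hAne : A.Nonempty := hne.1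
  have hBne : B.Nonempty := hne.2.1
  have heq : ∀ t ∈ Icc (0 : ℝ) 1, ∀ a ∈ Mx A (q t), ∀ b ∈ Mx B (q t),
      ip a (q t) + ip b (q t) = 2 * ip c (q t) := by
    intro t ht
    exact ((hTieBasic A B c (q t)).1 (P.tie t ht.1 ht.2)).2.2.1
  have hcC : c ∈ C := Mx_subset C w₁ (hC ▸ Finset.mem_singleton_self c)
  by_cases hall : ∀ t ∈ Icc (0 : ℝ) 1, Mx C (q t) = {c}
  · by_cases hev : ∃ t ∈ Icc (0 : ℝ) 1, 3 ≤ (Mx A (q t)).card ∨ 3 ≤ (Mx B (q t)).card ∨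
        ((Mx A (q t)).card = 2 ∧ (Mx B (q t)).card = 2)
    · obtain ⟨t, ht, hev⟩ := hev
      right
      refine ⟨q t, P.tie t ht.1 ht.2, hsec t ht, ?_, Or.inr ⟨hall t ht, hev⟩⟩
      rw [hall t ht]
      exact Finset.mem_singleton_self c
    · have hsmall : ∀ t ∈ Icc (0 : ℝ) 1, (Mx A (q t)).card < 3 ∧ (Mx B (q t)).card < 3 ∧
          ¬ (2 ≤ (Mx A (q t)).card ∧ 2 ≤ (Mx B (q t)).card) := by
        intro t ht
        have h1 : ¬ (3 ≤ (Mx A (q t)).card ∨ 3 ≤ (Mx B (q t)).card ∨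
          ((Mx A (q t)).card = 2 ∧ (Mx B (q t)).card = 2)) := fun h => hev ⟨t, ht, h⟩
        refine ⟨by omega, by omega, by omega⟩
      left
      rcases lt_trichotomy sA sB with hlt | heq' | hlt
      · obtain ⟨s₁, s₂, a, b, i1, i2, c1, m1, e1, e2, c2, m2⟩ := core hq hAne hBne hlt
          (fun t ht => hsmall t ⟨hA0.trans ht.1, ht.2.trans hB1⟩) hqA2 hqB2
        have j1 : s₁ ∈ Icc (0 : ℝ) 1 := ⟨hA0.trans i1.1, i1.2.trans hB1⟩
        have j2 : s₂ ∈ Icc (0 : ℝ) 1 := ⟨hA0.trans i2.1, i2.2.trans hB1⟩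
        have hb1 : b ∈ Mx B (q s₁) := e1 ▸ Finset.mem_singleton_self b
        have ha2 : a ∈ Mx A (q s₂) := e2 ▸ Finset.mem_singleton_self a
        exact ⟨((a, Mx A (q s₁)), (b, Mx B (q s₂)), c), q s₁, q s₂,
          ⟨c1, c2, m1, m2, rfl, e1, hall s₁ j1, e2, rfl, hall s₂ j2,
            heq s₁ j1 a m1 b hb1, heq s₂ j2 a ha2 b m2⟩, rfl, hsec s₁ j1⟩
      · exfalso
        rw [← heq'] at hqB2
        exact (hsmall sA ⟨hA0, hA1⟩).2.2 ⟨hqA2, hqB2⟩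
      · obtain ⟨s₁, s₂, b, a, i1, i2, c1, m1, e1, e2, c2, m2⟩ := core hq hBne hAne hlt
          (fun t ht => by
            have h1 := hsmall t ⟨hB0.trans ht.1, ht.2.trans hA1⟩
            exact ⟨h1.2.1, h1.1, fun h2 => h1.2.2 ⟨h2.2, h2.1⟩⟩) hqB2 hqA2
        have j1 : s₁ ∈ Icc (0 : ℝ) 1 := ⟨hB0.trans i1.1, i1.2.trans hA1⟩
        have j2 : s₂ ∈ Icc (0 : ℝ) 1 := ⟨hB0.trans i2.1, i2.2.trans hA1⟩
        have ha1 : a ∈ Mx A (q s₁) := e1 ▸ Finset.mem_singleton_self a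
        have hb2 : b ∈ Mx B (q s₂) := e2 ▸ Finset.mem_singleton_self b
        exact ⟨((a, Mx A (q s₂)), (b, Mx B (q s₁)), c), q s₂, q s₁,
          ⟨c2, c1, m2, m1, rfl, e2, hall s₂ j2, e1, rfl, hall s₁ j1,
            heq s₂ j2 a m2 b hb2, heq s₁ j1 a ha1 b m1⟩, rfl, hsec s₂ j2⟩
  · right
    have hex : ∃ t ∈ Icc (0 : ℝ) 1, ∃ b ∈ C, b ≠ c ∧ b ∈ Mx C (q t) := by
      by_contra hn
      apply hall
      intro t ht
      obtain ⟨b, hb⟩ := Mx_nonempty ⟨c, hcC⟩ (q t)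
      apply Finset.eq_singleton_iff_nonempty_unique_mem.mpr
      refine ⟨⟨b, hb⟩, fun b' hb' => ?_⟩
      by_contra hne'
      exact hn ⟨t, ht, b', Mx_subset _ _ hb', hne', hb'⟩
    have hK : IsCompact (Icc (0 : ℝ) 1 ∩ {t : ℝ | ∃ b ∈ C, b ≠ c ∧ b ∈ Mx C (q t)}) :=
      isCompact_Icc.inter_right (closed_other hq C c)
    obtain ⟨t', ht', htt⟩ := hex
    obtain ⟨t₀, ⟨h0I, h0c⟩, h0m⟩ := hK.exists_isLeast ⟨t', ht', htt⟩
    obtain ⟨b, hbC, hbc, hb⟩ := h0c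
    have hpos : 0 < t₀ := by
      rcases h0I.1.lt_or_eq with hl | he
      · exact hl
      · exfalso
        rw [← he, P.zero, hC] at hb
        exact hbc (Finset.mem_singleton.mp hb)
    have hIco : ∀ t ∈ Ico (0 : ℝ) t₀, c ∈ Mx C (q t) := by
      intro t ht
      obtain ⟨b', hb'⟩ := Mx_nonempty ⟨c, hcC⟩ (q t)
      by_cases hbb : b' = c
      · exact hbb ▸ hb'
      · exfalso
        have := h0m (show t ∈ Icc (0 : ℝ) 1 ∩ {t : ℝ | ∃ b ∈ C, b ≠ c ∧ b ∈ Mx C (q t)} from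
          ⟨⟨ht.1, ht.2.le.trans h0I.2⟩, ⟨b', Mx_subset _ _ hb', hbb, hb'⟩⟩)
        exact absurd ht.2 (not_lt.mpr this)
    have hcl : closure (Ico (0 : ℝ) t₀) ⊆ {t : ℝ | c ∈ Mx C (q t)} :=
      closure_minimal (fun t ht => hIco t ht) (closed_mem hq C c)
    rw [closure_Ico hpos.ne] at hcl
    have hc0 : c ∈ Mx C (q t₀) := hcl ⟨hpos.le, le_rfl⟩
    refine ⟨q t₀, P.tie t₀ h0I.1 h0I.2, hsec t₀ h0I, hc0, Or.inl ?_⟩
    exact Finset.one_lt_card.mpr ⟨c, hc0, b, hb, fun e => hbc e.symm⟩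

end TPH
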