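import Pool.Agent.TPH.St7
import Pool.Agent.TPH.Closed

/-!
# Parallel hyperplanes: three ties in a plane
-/

set_option autoImplicit false

namespace TPH

namespace MHLem

theorem cram (r q₁ q₃ x v : E) : det3 r q₁ q₃ * ip x v =
    det3 v q₁ q₃ * ip x r + det3 r v q₃ * ip x q₁ + det3 r q₁ v * ip x q₃ := by
  simp only [ip, det3]
  ring

theorem cramv (r q₁ q₃ v : E) (i : Fin 3) : det3 r q₁ q₃ * v i =
    det3 v q₁ q₃ * r i + det3 r v q₃ * q₁ i + det3 r q₁ v * q₃ i := by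
  fin_cases i <;> simp only [det3, Fin.zero_eta, Fin.mk_one, Fin.reduceFinMk] <;> ring

end MHLem

open MHLem in
theorem t_HLem (hTieBasic : StmtTieBasic) : StmtHLem := by
  intro A B c r H q₁ q₂ q₃ w hr h1 h2 h3 hw hHr hH1 hH2 hH3 d12 d23 d13 d1w dw3
  have hg : det3 q₂ q₁ q₃ = 0 := by
    have e := cram r q₁ q₃ H q₂
    rw [hH1, hH2, hH3] at e
    have e2 : det3 q₂ q₁ q₃ * ip H r = 0 := by linarith
    exact (mul_eq_zero.1 e2).resolve_right hHr
  obtain ⟨⟨a0, ha0⟩, ⟨b0, hb0⟩, hT, -⟩ := (hTieBasic A B c q₂).1 h2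
  obtain ⟨a, ha⟩ := Mx_nonempty ⟨a0, ha0⟩ q₂
  obtain ⟨b, hb⟩ := Mx_nonempty ⟨b0, hb0⟩ q₂
  have haA := Mx_subset A q₂ ha
  have hbB := Mx_subset B q₂ hb
  have t2 := hT a ha b hb
  have t1 := h1.1 a haA b hbB
  have t3 := h3.1 a haA b hbB
  have tr := hr a haA b hbB
  have tw := hw.1 a haA b hbB
  have ca := cram r q₁ q₃ a q₂
  have cb := cram r q₁ q₃ b q₂
  have cc := cram r q₁ q₃ c q₂
  rw [hg] at ca cb cc
  have wa := cram r q₁ q₃ a w
  have wb := cram r q₁ q₃ b w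
  have wc := cram r q₁ q₃ c w
  have s : det3 r q₂ q₃ * (2 * ip c q₁ - ip a q₁ - ip b q₁)
      + det3 r q₁ q₂ * (2 * ip c q₃ - ip a q₃ - ip b q₃) = 0 := by
    have e : det3 r q₁ q₃ * (2 * ip c q₂ - ip a q₂ - ip b q₂) = 0 := by
      rw [show 2 * ip c q₂ - ip a q₂ - ip b q₂ = 0 by linarith, mul_zero]
    linarith
  have m1 : 0 ≤ det3 r q₂ q₃ * (2 * ip c q₁ - ip a q₁ - ip b q₁) :=
    mul_nonneg d23.le (by linarith)
  have m3 : 0 ≤ det3 r q₁ q₂ * (2 * ip c q₃ - ip a q₃ - ip b q₃) :=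
    mul_nonneg d12.le (by linarith)
  have z1 : 2 * ip c q₁ - ip a q₁ - ip b q₁ = 0 := by
    have e : det3 r q₂ q₃ * (2 * ip c q₁ - ip a q₁ - ip b q₁) = 0 := by linarith
    exact (mul_eq_zero.1 e).resolve_left d23.ne'
  have z3 : 2 * ip c q₃ - ip a q₃ - ip b q₃ = 0 := by
    have e : det3 r q₁ q₂ * (2 * ip c q₃ - ip a q₃ - ip b q₃) = 0 := by linarith
    exact (mul_eq_zero.1 e).resolve_left d12.ne'
  have hge : 0 ≤ det3 w q₁ q₃ := by
    have e : det3 r q₁ q₃ * (2 * ip c w - ip a w - ip b w)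
        = det3 w q₁ q₃ * (2 * ip c r - ip a r - ip b r)
          + det3 r w q₃ * (2 * ip c q₁ - ip a q₁ - ip b q₁)
          + det3 r q₁ w * (2 * ip c q₃ - ip a q₃ - ip b q₃) := by linarith
    rw [z1, z3, mul_zero, mul_zero, add_zero, add_zero] at e
    have e2 : 0 ≤ det3 w q₁ q₃ * (2 * ip c r - ip a r - ip b r) := by
      rw [← e]; exact mul_nonneg d13.le (by linarith)
    by_contra hlt
    push Not at hlt
    have := mul_neg_of_neg_of_pos hlt (show 0 < 2 * ip c r - ip a r - ip b r by linarith)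
    linarith
  have hz : det3 w q₁ q₃ = 0 := by
    by_contra hne
    have hpos : 0 < det3 w q₁ q₃ := lt_of_le_of_ne hge (Ne.symm hne)
    refine hw.2 fun a' ha' b' hb' => ?_
    have wa := cram r q₁ q₃ a' w
    have wb := cram r q₁ q₃ b' w
    have e : det3 r q₁ q₃ * (2 * ip c w - ip a' w - ip b' w)
        = det3 w q₁ q₃ * (2 * ip c r - ip a' r - ip b' r)
          + det3 r w q₃ * (2 * ip c q₁ - ip a' q₁ - ip b' q₁)
          + det3 r q₁ w * (2 * ip c q₃ - ip a' q₃ - ip b' q₃) := by linarith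
    have p1 : 0 < det3 w q₁ q₃ * (2 * ip c r - ip a' r - ip b' r) :=
      mul_pos hpos (by have := hr a' ha' b' hb'; linarith)
    have p2 : 0 ≤ det3 r w q₃ * (2 * ip c q₁ - ip a' q₁ - ip b' q₁) :=
      mul_nonneg dw3.le (by have := h1.1 a' ha' b' hb'; linarith)
    have p3 : 0 ≤ det3 r q₁ w * (2 * ip c q₃ - ip a' q₃ - ip b' q₃) :=
      mul_nonneg d1w.le (by have := h3.1 a' ha' b' hb'; linarith)
    have p4 : 0 < det3 r q₁ q₃ * (2 * ip c w - ip a' w - ip b' w) := by rw [e]; linarith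
    have p5 := (pos_iff_pos_of_mul_pos p4).1 d13
    linarith
  refine ⟨det3 r w q₃ / det3 r q₁ q₃, det3 r q₁ w / det3 r q₁ q₃, div_pos dw3 d13,
    div_pos d1w d13, ?_⟩
  ext i
  have e := cramv r q₁ q₃ w i
  rw [hz] at e
  simp only [Pi.add_apply, Pi.smul_apply, smul_eq_mul]
  field_simp
  linarith

end TPH
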