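import Pool.Agent.TPH.St7
import Pool.Agent.TPH.Closed

/-!
# Parallel hyperplanes: directions in a half space are counted by events
-/

set_option autoImplicit false

namespace TPH

namespace MMulti

/-- The type of events. -/
abbrev K : Type := (((((Al ⊕ Fl) ⊕ Finset E) ⊕ Finset E) ⊕ Finset E) ⊕ E) ⊕ Finset E

/-- All events at `c`. -/
noncomputable def evs (A B C : Finset E) (c : E) : Finset K :=
  ((((((ev1 A B C c).disjSum (ev2 A B C c)).disjSum (ev3 A C c)).disjSum (ev3 B C c)).disjSum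
    (ev5 C c)).disjSum (ev6 C c)).disjSum (ev7 A B C c)

theorem card_evs (A B C : Finset E) (c : E) : (evs A B C c).card = evc A B C c := by
  simp only [evs, evc, Finset.card_disjSum]

/-- `u` is a position of the event. -/
def PV (A B C : Finset E) (c u : E) : K → Prop
  | .inl (.inl (.inl (.inl (.inl (.inl x))))) => ∃ v, IsAlt A B C x u v
  | .inl (.inl (.inl (.inl (.inl (.inr x))))) => IsFlat A B C x u
  | .inl (.inl (.inl (.inl (.inr G)))) => Mx A u = G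
  | .inl (.inl (.inl (.inr G))) => Mx B u = G
  | .inl (.inl (.inr G)) => Mx C u = G
  | .inl (.inr c') => Tie A B c u ∧ Mx C u = {c, c'}
  | .inr e => Tie A B c u ∧ Mx A u = e

/-- Two vectors orthogonal to two independent vectors are multiples of each other. -/
theorem par_two {s t u u' : E} (hn : cr s t ≠ 0) (hu : u ≠ 0) (h1 : ip s u = 0) (h2 : ip t u = 0)
    (h3 : ip s u' = 0) (h4 : ip t u' = 0) : ∃ κ : ℝ, u' = κ • u := by
  obtain ⟨k, hk⟩ := par_cr_of_ip (d := u) hn (by rw [ip_comm]; exact h1) (by rw [ip_comm]; exact h2)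
  obtain ⟨k', hk'⟩ := par_cr_of_ip (d := u') hn (by rw [ip_comm]; exact h3)
    (by rw [ip_comm]; exact h4)
  have hk0 : k ≠ 0 := by
    rintro rfl
    exact hu (by rw [hk, zero_smul])
  refine ⟨k' / k, ?_⟩
  rw [hk, hk', smul_smul, div_mul_cancel₀ _ hk0]

theorem par_alt (hAltBasic : StmtAltBasic) {A B C : Finset E} {x : Al} {r u v u' v' : E}
    (hr : InR A B x.2.2 r) (h : IsAlt A B C x u v) (h' : IsAlt A B C x u' v') (hu : u ≠ 0) :
    ∃ κ : ℝ, u' = κ • u := by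
  obtain ⟨-, -, hTu, hTv, hTR, -, hae, -⟩ := hAltBasic A B C x u v h
  obtain ⟨-, -, hTu', -⟩ := hAltBasic A B C x u' v' h'
  obtain ⟨a', ha', hne⟩ := Finset.exists_mem_ne (by rw [h.ce]; norm_num : 1 < x.1.2.card) x.1.1
  obtain ⟨-, hpos⟩ := hae a' ha' hne
  have hδ0 : x.1.1 - a' ≠ 0 := by
    intro h0
    rw [h0, ip_zero_left] at hpos
    exact lt_irrefl _ hpos
  have hn : cr (x.1.1 - a') (Tv x) ≠ 0 := by
    intro h0
    obtain ⟨k, hk⟩ := par_of_cr hδ0 h0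
    rw [hk, ip_smul_left] at hTv
    rcases mul_eq_zero.mp hTv with h1 | h1
    · rw [h1, zero_smul] at hk
      have := hTR r hr
      rw [hk, ip_zero_left] at this
      exact lt_irrefl _ this
    · rw [h1] at hpos
      exact lt_irrefl _ hpos
  have key : ∀ w : E, Mx A w = x.1.2 → ip (x.1.1 - a') w = 0 := by
    intro w hw
    have := Mx_eq (A := A) (u := w) (a := x.1.1) (a' := a') (hw ▸ h.ae) (hw ▸ ha')
    rw [ip_sub_left, this, sub_self]
  exact par_two hn hu (key u h.ua) hTu (key u' h'.ua) hTu'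

theorem par_face {A G : Finset E} {u u' : E} (hA : ConvPos A) (hG : 3 ≤ G.card)
    (h : Mx A u = G) (h' : Mx A u' = G) (hu : u ≠ 0) : ∃ κ : ℝ, u' = κ • u := by
  obtain ⟨a, ha, b, hb, c, hc, hab, hac, hbc⟩ := Finset.two_lt_card.mp (by omega : 2 < G.card)
  have hsub : ({a, b, c} : Finset E) ⊆ G := by
    intro z hz
    simp only [Finset.mem_insert, Finset.mem_singleton] at hz
    rcases hz with rfl | rfl | rfl <;> assumption
  have hGA : G ⊆ A := h ▸ Mx_subset A u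
  exact Closed.c_t_NonCol A a b c u u' hA (hGA ha) (hGA hb) (hGA hc) hab hac hbc hu
    ((h ▸ perp_Mx A u : Perp G u).mono hsub) ((h' ▸ perp_Mx A u' : Perp G u').mono hsub)

theorem par_flat {A B C : Finset E} {x : Fl} {u u' : E} (h : IsFlat A B C x u)
    (h' : IsFlat A B C x u') : ∃ κ : ℝ, u' = κ • u := by
  obtain ⟨-, -, -, -, -, -, h7⟩ := h
  obtain ⟨-, -, h3, -, h5, h6, -⟩ := h'
  exact h7 u' (h3 ▸ perp_Mx A u') (h5 ▸ perp_Mx B u') h6

theorem mem_alts {A B C : Finset E} {x : Al} {u v : E} (h : IsAlt A B C x u v) :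
    x ∈ alts A B C := by
  simp only [alts, Finset.mem_filter, Finset.mem_product, Finset.mem_powerset]
  refine ⟨⟨⟨?_, ?_⟩, ⟨?_, ?_⟩, ?_⟩, u, v, h⟩
  · exact Mx_subset A u (h.ua ▸ h.ae)
  · exact h.ua ▸ Mx_subset A u
  · exact Mx_subset B v (h.vb ▸ h.bf)
  · exact h.vb ▸ Mx_subset B v
  · exact Mx_subset C u (h.uc ▸ Finset.mem_singleton_self _)

/-- Not a flat: the edge is a tangent edge. -/
theorem tangent {A B : Finset E} {c q v : E} (hq : q ≠ 0) (hA : (Mx A q).card = 2)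
    (hB : (Mx B q).Nonempty) (htie : ∀ a ∈ Mx A q, ∀ b ∈ Mx B q, ip a q + ip b q = 2 * ip c q)
    (hv1 : Perp (Mx A q) v)
    (hv3 : ∀ a ∈ Mx A q, ∀ b ∈ Mx B q, ip a v + ip b v = 2 * ip c v)
    (hv4 : ∀ κ : ℝ, v ≠ κ • q) : ∀ r', InR A B c r' → ¬ Perp (Mx A q) r' := by
  intro r' hr' hperp
  have hn : cr q v ≠ 0 := by
    intro h0
    obtain ⟨k, hk⟩ := par_of_cr hq h0
    exact hv4 k hk
  obtain ⟨a, a', hne, he⟩ := Finset.card_eq_two.mp hA
  have ha : a ∈ Mx A q := by rw [he]; simp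
  have ha' : a' ∈ Mx A q := by rw [he]; simp
  obtain ⟨b, hb⟩ := hB
  have hd0 : a - a' ≠ 0 := sub_ne_zero.mpr hne
  obtain ⟨k₁, hk₁⟩ := par_cr_of_ip (d := a - a') hn
    (by rw [ip_sub_left, Mx_eq ha ha', sub_self]) (by rw [ip_sub_left, hv1 a ha a' ha', sub_self])
  obtain ⟨k₂, hk₂⟩ := par_cr_of_ip (d := (2 : ℝ) • c - a - b) hn
    (by rw [ip_sub_left, ip_sub_left, ip_smul_left]; linarith [htie a ha b hb])
    (by rw [ip_sub_left, ip_sub_left, ip_smul_left]; linarith [hv3 a ha b hb])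
  have hk0 : k₁ ≠ 0 := by
    rintro rfl
    exact hd0 (by rw [hk₁, zero_smul])
  have h1 : ip (a - a') r' = 0 := by rw [ip_sub_left, hperp a ha a' ha', sub_self]
  rw [hk₁, ip_smul_left] at h1
  have h2 : ip (cr q v) r' = 0 := by
    rcases mul_eq_zero.mp h1 with h | h
    · exact absurd h hk0
    · exact h
  have h3 : ip ((2 : ℝ) • c - a - b) r' = 0 := by rw [hk₂, ip_smul_left, h2, mul_zero]
  rw [ip_sub_left, ip_sub_left, ip_smul_left] at h3
  have h4 := hr' a (Mx_subset A q ha) b (Mx_subset B q hb)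
  linarith

/-- Existence of events. -/
theorem first (hTieBasic : StmtTieBasic) (hTieMid : StmtTieMid) (hEvent : StmtEvent)
    {A B C : Finset E} {c r w₁ w₂ w₃ : E} (hr : InR A B c r) (h1 : Tie A B c w₁)
    (h2 : Tie A B c w₂) (h3 : Tie A B c w₃) (hC : Mx C w₁ = {c}) (hs : InSec r w₁ w₃ w₂)
    (hne : ∀ q, InSec r w₁ w₃ q → q ≠ 0)
    (cA : 2 ≤ (Mx A w₁).card ∨ Mx A w₁ ≠ Mx A w₂ ∨ Mx A w₁ ≠ Mx A w₃)
    (cB : 2 ≤ (Mx B w₁).card ∨ Mx B w₁ ≠ Mx B w₂ ∨ Mx B w₁ ≠ Mx B w₃) :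
    ∃ k ∈ evs A B C c, ∃ u, InSec r w₁ w₃ u ∧ PV A B C c u k := by
  have s1 : InSec r w₁ w₃ w₁ := ⟨1, 0, 0, by norm_num, le_rfl, by norm_num, by simp⟩
  have s3 : InSec r w₁ w₃ w₃ := ⟨0, 1, 0, le_rfl, by norm_num, by norm_num, by simp⟩
  obtain ⟨qA, tA, sA, eA⟩ : ∃ q, Tie A B c q ∧ InSec r w₁ w₃ q ∧ 2 ≤ (Mx A q).card := by
    rcases cA with h | h | h
    · exact ⟨w₁, h1, s1, h⟩
    · exact hTieMid A B c r w₁ w₃ w₁ w₂ hr h1 h3 h1 s1 h2 hs h
    · exact hTieMid A B c r w₁ w₃ w₁ w₃ hr h1 h3 h1 s1 h3 s3 h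
  have sw : ∀ {w : E}, Tie A B c w → Tie B A c w := fun {w} h =>
    ((hTieBasic A B c w).1 h).2.2.2.2.2.1
  have sw' : ∀ {w : E}, Tie B A c w → Tie A B c w := fun {w} h =>
    ((hTieBasic B A c w).1 h).2.2.2.2.2.1
  obtain ⟨qB, tB, sB, eB⟩ : ∃ q, Tie A B c q ∧ InSec r w₁ w₃ q ∧ 2 ≤ (Mx B q).card := by
    rcases cB with h | h | h
    · exact ⟨w₁, h1, s1, h⟩
    · obtain ⟨q, hq1, hq2, hq3⟩ := hTieMid B A c r w₁ w₃ w₁ w₂ (inR_comm.mp hr) (sw h1) (sw h3)
        (sw h1) s1 (sw h2) hs h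
      exact ⟨q, sw' hq1, hq2, hq3⟩
    · obtain ⟨q, hq1, hq2, hq3⟩ := hTieMid B A c r w₁ w₃ w₁ w₃ (inR_comm.mp hr) (sw h1) (sw h3)
        (sw h1) s1 (sw h3) s3 h
      exact ⟨q, sw' hq1, hq2, hq3⟩
  rcases hEvent A B C c r w₁ w₃ qA qB hr h1 h3 hC tA sA eA tB sB eB with
    ⟨x, u, v, hx, hxc, hu⟩ | ⟨q, hq, hqs, hqC, hq'⟩
  · refine ⟨.inl (.inl (.inl (.inl (.inl (.inl x))))), ?_, u, hu, v, hx⟩
    simp only [evs, Finset.inl_mem_disjSum, ev1, Finset.mem_filter]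
    exact ⟨mem_alts hx, hxc⟩
  · have hq0 := hne q hqs
    obtain ⟨hAne, hBne, hT, hout, -, -, -⟩ := (hTieBasic A B c q).1 hq
    rcases hq' with hq' | ⟨hC1, hq' | hq' | ⟨hA2, hB2⟩⟩
    · by_cases h3 : 3 ≤ (Mx C q).card
      · refine ⟨.inl (.inl (.inr (Mx C q))), ?_, q, hqs, rfl⟩
        simp only [evs, Finset.inl_mem_disjSum, Finset.inr_mem_disjSum, ev5, Finset.mem_filter]
        exact ⟨mem_Faces.mpr ⟨h3, q, hq0, rfl⟩, hqC⟩
      · have h2' : (Mx C q).card = 2 := by omega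
        obtain ⟨c', hc', hne'⟩ := Finset.exists_mem_ne (by omega : 1 < (Mx C q).card) c
        have he : Mx C q = {c, c'} := by
          symm
          apply Finset.eq_of_subset_of_card_le
          · intro z hz
            simp only [Finset.mem_insert, Finset.mem_singleton] at hz
            rcases hz with rfl | rfl
            · exact hqC
            · exact hc'
          · rw [h2', Finset.card_pair hne'.symm]
        refine ⟨.inl (.inr c'), ?_, q, hqs, hq, he⟩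
        simp only [evs, Finset.inl_mem_disjSum, Finset.inr_mem_disjSum, ev6, Finset.mem_filter]
        exact ⟨Mx_subset C q hc', hne', mem_Ed.mpr ⟨he ▸ h2', q, he⟩⟩
    · refine ⟨.inl (.inl (.inl (.inl (.inr (Mx A q))))), ?_, q, hqs, rfl⟩
      simp only [evs, Finset.inl_mem_disjSum, Finset.inr_mem_disjSum, ev3, Finset.mem_filter]
      exact ⟨mem_Faces.mpr ⟨hq', q, hq0, rfl⟩, q, rfl, hC1⟩
    · refine ⟨.inl (.inl (.inl (.inr (Mx B q)))), ?_, q, hqs, rfl⟩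
      simp only [evs, Finset.inl_mem_disjSum, Finset.inr_mem_disjSum, ev3, Finset.mem_filter]
      exact ⟨mem_Faces.mpr ⟨hq', q, hq0, rfl⟩, q, rfl, hC1⟩
    · by_cases hflat : IsFlat A B C (Mx A q, c, Mx B q) q
      · refine ⟨.inl (.inl (.inl (.inl (.inl (.inr (Mx A q, c, Mx B q)))))), ?_, q, hqs, hflat⟩
        simp only [evs, Finset.inl_mem_disjSum, Finset.inr_mem_disjSum, ev2, Finset.mem_filter]
        exact ⟨mem_flats.mpr ⟨q, hflat⟩, trivial⟩
      · have hv : ∃ v, Perp (Mx A q) v ∧ (∀ a ∈ Mx A q, ∀ b ∈ Mx B q,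
            ip a v + ip b v = 2 * ip c v) ∧ ∀ κ : ℝ, v ≠ κ • q := by
          by_contra hcon
          push Not at hcon
          apply hflat
          refine ⟨hA2, hB2, rfl, hC1, rfl, hT, ?_⟩
          intro v hv1 _ hv3
          exact hcon v hv1 hv3
        obtain ⟨v, hv1, hv3, hv4⟩ := hv
        refine ⟨.inr (Mx A q), ?_, q, hqs, hq, rfl⟩
        simp only [evs, Finset.inr_mem_disjSum, ev7, Finset.mem_filter]
        exact ⟨mem_Ed.mpr ⟨hA2, q, rfl⟩, ⟨q, hA2, rfl, hC1, hq.1, hout⟩,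
          tangent hq0 hA2 (Mx_nonempty hBne q) hT hv1 hv3 hv4⟩

/-- Every event has few positions. -/
theorem second (hAltBasic : StmtAltBasic) (hHLem : StmtHLem) (hAng : StmtAng)
    {A B C : Finset E} {c r p : E} (cA : ConvPos A) (cB : ConvPos B) (cC : ConvPos C)
    (hr : InR A B c r) (hCr : Mx C r = {c}) (k : K) (hk : k ∈ evs A B C c)
    {u₁ u₂ u₃ w₁ w₂ w₃ : E} (d1 : 0 < det3 r p u₁) (d2 : 0 < det3 r p u₂) (d3 : 0 < det3 r p u₃)
    (p1 : PV A B C c u₁ k) (p2 : PV A B C c u₂ k) (p3 : PV A B C c u₃ k)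
    (k12 : akey r p u₁ < akey r p u₂) (k23 : akey r p u₂ < akey r p u₃)
    (e1 : 0 < det3 r p w₁) (e2 : 0 < det3 r p w₂) (e3 : 0 < det3 r p w₃)
    (c1 : Mx C w₁ = {c}) (t1 : Tie A B c w₁) (t2 : Tie A B c w₂) (t3 : Tie A B c w₃)
    (l1 : akey r p u₁ < akey r p w₁) (l2 : akey r p w₁ < akey r p w₂)
    (l3 : akey r p w₂ < akey r p w₃) (l4 : akey r p w₃ < akey r p u₃)
    (hed : ∀ e : Finset E, e.card = 2 → e ⊆ Mx A w₁ → e ⊆ Mx A w₂ → e ⊆ Mx A w₃ → False) :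
    False := by
  obtain ⟨ang1, ang2, -⟩ := hAng r p
  have u10 : u₁ ≠ 0 := by
    rintro rfl
    rw [det3_zero3] at d1
    exact lt_irrefl _ d1
  have par : (∃ κ : ℝ, u₂ = κ • u₁) → False := by
    rintro ⟨κ, hκ⟩
    have hκ0 : κ ≠ 0 := by
      rintro rfl
      rw [hκ, zero_smul, det3_zero3] at d2
      exact lt_irrefl _ d2
    rw [hκ, ang2 u₁ κ hκ0] at k12
    exact lt_irrefl _ k12
  have lem : ∀ H : E, ip H r ≠ 0 → ip H u₁ = 0 → ip H u₂ = 0 → ip H u₃ = 0 →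
      Tie A B c u₁ → Tie A B c u₂ → Tie A B c u₃ → ∀ w, Tie A B c w → 0 < det3 r p w →
      akey r p u₁ < akey r p w → akey r p w < akey r p u₃ →
      ∃ α β : ℝ, 0 < α ∧ 0 < β ∧ w = α • u₁ + β • u₃ := by
    intro H hH h1 h2 h3 T1 T2 T3 w hw hdw hlt hgt
    exact hHLem A B c r H u₁ u₂ u₃ w hr T1 T2 T3 hw hH h1 h2 h3
      ((ang1 _ _ d1 d2).1.mp k12) ((ang1 _ _ d2 d3).1.mp k23)
      ((ang1 _ _ d1 d3).1.mp (k12.trans k23)) ((ang1 _ _ d1 hdw).1.mp hlt)
      ((ang1 _ _ hdw d3).1.mp hgt)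
  rcases k with (((((x | x) | G) | G) | G) | c') | e
  · simp only [evs, Finset.inl_mem_disjSum, ev1, Finset.mem_filter] at hk
    obtain ⟨v₁, hv₁⟩ := p1
    obtain ⟨v₂, hv₂⟩ := p2
    exact par (par_alt hAltBasic (hk.2 ▸ hr) hv₁ hv₂ u10)
  · exact par (par_flat p1 p2)
  · simp only [evs, Finset.inl_mem_disjSum, Finset.inr_mem_disjSum, ev3, Finset.mem_filter] at hk
    exact par (par_face cA (mem_Faces.mp hk.1).1 p1 p2 u10)
  · simp only [evs, Finset.inl_mem_disjSum, Finset.inr_mem_disjSum, ev3, Finset.mem_filter] at hk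
    exact par (par_face cB (mem_Faces.mp hk.1).1 p1 p2 u10)
  · simp only [evs, Finset.inl_mem_disjSum, Finset.inr_mem_disjSum, ev5, Finset.mem_filter] at hk
    exact par (par_face cC (mem_Faces.mp hk.1).1 p1 p2 u10)
  · simp only [evs, Finset.inl_mem_disjSum, Finset.inr_mem_disjSum, ev6, Finset.mem_filter] at hk
    have hzero : ∀ {u : E}, Mx C u = {c, c'} → ip (c - c') u = 0 := by
      intro u hu
      rw [ip_sub_left, Mx_eq (A := C) (u := u) (a := c) (a' := c') (by rw [hu]; simp)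
        (by rw [hu]; simp), sub_self]
    have hpos : ∀ {u : E}, Mx C u = {c} → 0 < ip (c - c') u := by
      intro u hu
      have := Mx_lt (A := C) (u := u) (a := c) (a' := c') (by rw [hu]; simp) hk.1
        (by rw [hu, Finset.mem_singleton]; exact hk.2.1)
      rw [ip_sub_left]; linarith
    obtain ⟨α, β, -, -, hw⟩ := lem (c - c') (hpos hCr).ne' (hzero p1.2) (hzero p2.2) (hzero p3.2)
      p1.1 p2.1 p3.1 w₁ t1 e1 l1 ((l2.trans l3).trans l4)
    have h1 := hpos c1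
    rw [hw, ip_add_right, ip_smul_right, ip_smul_right, hzero p1.2, hzero p3.2] at h1
    norm_num at h1
  · simp only [evs, Finset.inr_mem_disjSum, ev7, Finset.mem_filter] at hk
    obtain ⟨-, ⟨q, hq⟩, hR⟩ := hk
    obtain ⟨a, a', hne, he⟩ := Finset.card_eq_two.mp hq.card
    have hzero : ∀ {u : E}, Mx A u = e → ip (a - a') u = 0 := by
      intro u hu
      rw [ip_sub_left, Mx_eq (A := A) (u := u) (a := a) (a' := a') (by rw [hu, he]; simp)
        (by rw [hu, he]; simp), sub_self]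
    have hH : ip (a - a') r ≠ 0 := by
      intro h0
      apply hR r hr
      rw [he, perp_pair]
      rw [ip_sub_left] at h0
      linarith
    have key : ∀ w, Tie A B c w → 0 < det3 r p w → akey r p u₁ < akey r p w →
        akey r p w < akey r p u₃ → e ⊆ Mx A w := by
      intro w hw hdw hlt hgt
      obtain ⟨α, β, hα, hβ, hw'⟩ := lem (a - a') hH (hzero p1.2) (hzero p2.2) (hzero p3.2)
        p1.1 p2.1 p3.1 w hw hdw hlt hgt
      intro z hz
      rw [hw']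
      exact mem_Mx_comb hα.le hβ.le (p1.2 ▸ hz) (p3.2 ▸ hz)
    exact hed e hq.card (key w₁ t1 e1 l1 ((l2.trans l3).trans l4))
      (key w₂ t2 e2 (l1.trans l2) (l3.trans l4)) (key w₃ t3 e3 ((l1.trans l2).trans l3) l4)

end MMulti

open MMulti in
/-- **Multi.** -/
theorem t_Multi (hAltBasic : StmtAltBasic) (hTieBasic : StmtTieBasic) (hTieMid : StmtTieMid)
    (hEvent : StmtEvent) (hHLem : StmtHLem) (hAng : StmtAng) (hTriples : StmtTriples) :
    StmtMulti := by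
  intro N A B C c r p W cA cB cC hR hCr hW hpar htri hedge
  by_cases hcard : W.card ≤ 2
  · omega
  push Not at hcard
  obtain ⟨ang1, ang2, ang3⟩ := hAng r p
  -- there is a pair
  obtain ⟨a₀, ha₀, b₀, hb₀, c₀, hc₀, h01, h02, h12⟩ := Finset.two_lt_card.mp hcard
  obtain ⟨j₀, -⟩ := htri a₀ ha₀ b₀ hb₀ c₀ hc₀ h01 h02 h12
  have hcardE : (Finset.univ.sigma fun j : Fin N => evs (A j) (B j) C c).card =
      ∑ j, evc (A j) (B j) C c := by
    rw [Finset.card_sigma]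
    exact Finset.sum_congr rfl fun j _ => card_evs _ _ _ _
  rw [← hcardE]
  apply hTriples E (Σ _ : Fin N, K) W (akey r p) _
    (fun ε q => ∃ u, 0 < det3 r p u ∧ akey r p u = q ∧ PV (A ε.1) (B ε.1) C c u ε.2)
  · -- injectivity
    intro w hw w' hw' hkey
    obtain ⟨hd, hCw, hT⟩ := hW w hw
    obtain ⟨hd', hCw', hT'⟩ := hW w' hw'
    have hdet := (ang1 w w' hd hd').2.mp hkey
    have hcr : cr r w ≠ 0 := by
      intro h0
      have hrn : r ≠ 0 := by
        rintro rfl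
        rw [det3_zero1] at hd
        exact lt_irrefl _ hd
      obtain ⟨k, hk⟩ := par_of_cr hrn h0
      rw [hk, det3_smul3, det3_self13] at hd
      simp at hd
    -- `w'` is a combination of `r` and `w`
    have hn : cr r w ≠ 0 := hcr
    obtain ⟨ρ, κ, hw'eq⟩ := comb_of_perp (z := r) (u := w) (d := cr r w) (v := w') hn hn
      (by rw [ip_cr]; exact det3_self13 _ _) (by rw [ip_cr]; exact det3_self23 _ _)
      (by rw [ip_cr]; exact hdet)
    have hκ : 0 < κ := by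
      have h1 : det3 r p w' = κ * det3 r p w := by
        rw [hw'eq, det3_add3, det3_smul3, det3_smul3, det3_self13]; ring
      rw [h1] at hd'
      exact (pos_iff_pos_of_mul_pos hd').mpr hd
    obtain ⟨-, -, -, -, hsm, -, -⟩ := (hTieBasic (A j₀) (B j₀) c w).1 (hT j₀)
    obtain ⟨-, -, -, -, -, -, hlast⟩ := (hTieBasic (A j₀) (B j₀) c (κ • w)).1 (hsm κ hκ)
    have hρ : ρ = 0 := by
      apply hlast r ρ (hR j₀)
      have : κ • w + ρ • r = w' := by rw [hw'eq, add_comm]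
      rw [this]
      exact hT' j₀
    have : w' = κ • w := by rw [hw'eq, hρ, zero_smul, zero_add]
    exact (hpar w hw w' hw' κ hκ this).symm
  · -- existence of events
    intro w₁ hw₁ w₂ hw₂ w₃ hw₃ h12 h23
    obtain ⟨d1, C1, T1⟩ := hW w₁ hw₁
    obtain ⟨d2, C2, T2⟩ := hW w₂ hw₂
    obtain ⟨d3, C3, T3⟩ := hW w₃ hw₃
    have n12 : w₁ ≠ w₂ := by rintro rfl; exact lt_irrefl _ h12
    have n13 : w₁ ≠ w₃ := by rintro rfl; exact lt_irrefl _ (h12.trans h23)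
    have n23 : w₂ ≠ w₃ := by rintro rfl; exact lt_irrefl _ h23
    obtain ⟨j, jA, jB⟩ := htri w₁ hw₁ w₂ hw₂ w₃ hw₃ n12 n13 n23
    have D12 := (ang1 _ _ d1 d2).1.mp h12
    have D23 := (ang1 _ _ d2 d3).1.mp h23
    have D13 := (ang1 _ _ d1 d3).1.mp (h12.trans h23)
    have hsec : InSec r w₁ w₃ w₂ := by
      have hc := cramer w₁ w₃ r w₂
      have e1 : det3 w₁ w₃ r = det3 r w₁ w₃ := (det3_cyc' w₁ w₃ r).symm
      have e2 : det3 w₂ w₃ r = det3 r w₂ w₃ := (det3_cyc' w₂ w₃ r).symm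
      have e3 : det3 w₁ w₂ r = det3 r w₁ w₂ := (det3_cyc' w₁ w₂ r).symm
      rw [e1, e2, e3] at hc
      refine ⟨det3 r w₂ w₃ / det3 r w₁ w₃, det3 r w₁ w₂ / det3 r w₁ w₃,
        -(det3 w₁ w₃ w₂ / det3 r w₁ w₃), (div_pos D23 D13).le, (div_pos D12 D13).le,
        add_pos (div_pos D23 D13) (div_pos D12 D13), ?_⟩
      have hne := D13.ne'
      funext i
      have := congrFun hc i
      simp only [Pi.smul_apply, Pi.add_apply, Pi.sub_apply, smul_eq_mul] at this ⊢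
      field_simp
      linarith
    have h31 : akey r p w₁ ≤ akey r p w₃ := (h12.trans h23).le
    obtain ⟨k, hk, u, hu, hPV⟩ := first hTieBasic hTieMid hEvent (hR j) (T1 j) (T2 j) (T3 j) C1
      hsec (fun q hq => by
        rintro rfl
        have := (ang3 w₁ w₃ 0 d1 d3 h31 hq).1
        rw [det3_zero3] at this
        exact lt_irrefl _ this) jA jB
    obtain ⟨hu1, hu2, hu3⟩ := ang3 w₁ w₃ u d1 d3 h31 hu
    exact ⟨⟨j, k⟩, Finset.mem_sigma.mpr ⟨Finset.mem_univ _, hk⟩, akey r p u, ⟨u, hu1, rfl, hPV⟩,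
      hu2, hu3⟩
  · -- few positions
    rintro ⟨j, k⟩ hε q₁ q₂ q₃ ⟨u₁, du1, rfl, p1⟩ ⟨u₂, du2, rfl, p2⟩ ⟨u₃, du3, rfl, p3⟩ h12 h23
      w₁ hw₁ w₂ hw₂ w₃ hw₃ hw12 hw23 hl hg
    obtain ⟨d1, C1, T1⟩ := hW w₁ hw₁
    obtain ⟨d2, C2, T2⟩ := hW w₂ hw₂
    obtain ⟨d3, C3, T3⟩ := hW w₃ hw₃
    have n12 : w₁ ≠ w₂ := by rintro rfl; exact lt_irrefl _ hw12
    have n13 : w₁ ≠ w₃ := by rintro rfl; exact lt_irrefl _ (hw12.trans hw23)
    have n23 : w₂ ≠ w₃ := by rintro rfl; exact lt_irrefl _ hw23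
    exact second hAltBasic hHLem hAng (cA j) (cB j) cC (hR j) hCr k
      (Finset.mem_sigma.mp hε).2 du1 du2 du3 p1 p2 p3 h12 h23 d1 d2 d3 C1 (T1 j) (T2 j) (T3 j)
      hl hw12 hw23 hg (hedge j w₁ hw₁ w₂ hw₂ w₃ hw₃ n12 n13 n23)

end TPH
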