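import Pool.Agent.TPH.St5
import Pool.Agent.TPH.Closed

/-!
# Three parallel hyperplanes: first facts about positions
-/

namespace TPH

theorem t_PosBasic : StmtPosBasic := by
  intro A B C e c u hp
  obtain ⟨he, hA, hC, hclo, hout⟩ := hp
  have hcM : c ∈ Mx C u := hC ▸ Finset.mem_singleton_self c
  have hout1 : ¬ InR A B c u := by
    have := hout 1
    rwa [one_smul] at this
  refine ⟨Mx_subset C u hcM, ?_, ?_, ?_, ?_⟩
  · intro d hd h
    refine hout1 fun a ha b hb => ?_
    have h1 := h a ha b hb
    have h2 := Mx_le hcM hd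
    linarith
  · intro k hk
    refine ⟨he, by rw [Mx_smul hk, hA], by rw [Mx_smul hk, hC], hclo.smul hk.le, ?_⟩
    intro κ
    rw [smul_smul]
    exact hout (κ * k)
  · rintro hcard rfl
    rw [Mx_zero] at hA hC
    subst hA
    rcases hcard with h | h
    · omega
    · rw [hC] at h
      simp at h
  · intro a ha
    obtain ⟨p, q, hpq, rfl⟩ := Finset.card_eq_two.mp he
    have hswap : ∀ a' ∈ ({p, q} : Finset E), a' ≠ a → ({p, q} : Finset E) = {a, a'} := by
      intro a' ha' hne
      simp only [Finset.mem_insert, Finset.mem_singleton] at ha ha'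
      rcases ha with rfl | rfl <;> rcases ha' with rfl | rfl
      · exact absurd rfl hne
      · rfl
      · exact Finset.pair_comm _ _
      · exact absurd rfl hne
    refine ⟨?_, fun a' ha' hne => ⟨hswap a' ha' hne, ?_⟩⟩
    · obtain ⟨a', ha', hne⟩ : ∃ a' ∈ ({p, q} : Finset E), a' ≠ a := by
        simp only [Finset.mem_insert, Finset.mem_singleton] at ha
        rcases ha with rfl | rfl
        · exact ⟨q, by simp, fun h => hpq h.symm⟩
        · exact ⟨p, by simp, hpq⟩
      have h1 := hswap a' ha' hne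
      obtain ⟨ε₀, hε₀, hε⟩ := Mx_pert3 A C C u (a - a')
      obtain ⟨h2, h3, -⟩ := hε (ε₀ / 2) (by linarith) (by linarith)
      rw [mem_Fc]
      refine ⟨u + (ε₀ / 2) • (a - a'), ?_, ?_⟩
      · rw [h2, hA, h1]
        apply Mx_pair_left
        have h4 := ip_self_pos (sub_ne_zero.mpr hne.symm : a - a' ≠ 0)
        rw [ip_sub_left] at h4
        linarith
      · rw [h3, hC, Mx_singleton]
    · rw [mem_NA]
      refine ⟨hne, u, ?_, hC⟩
      rw [hA]
      exact hswap a' ha' hne

end TPH
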