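import Pool.Agent.TPH.St5
import Pool.Agent.TPH.Closed

/-!
# Three parallel hyperplanes: the remaining positions have an exit
-/

set_option autoImplicit false

namespace TPH

theorem t_PosExit (hPosBasic : StmtPosBasic) : StmtPosExit := by
  classical
  intro A B C e c u hA hC hpos hreg hr hfull
  obtain ⟨-, -, -, -, hcell⟩ := hPosBasic A B C e c u hpos
  obtain ⟨hc2, heu, hcu, hclo, hout⟩ := hpos
  obtain ⟨a, a', hne, he⟩ := Finset.card_eq_two.mp hc2
  have ha : a ∈ e := by rw [he]; simp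
  have ha' : a' ∈ e := by rw [he]; simp
  obtain ⟨-, hcell'⟩ := hcell a ha
  obtain ⟨-, hNA⟩ := hcell' a' ha' hne.symm
  have hOv : ¬ Ov A C a c := (hreg a ha).2.1
  have hfullZ : ∀ v, v ≠ 0 → Perp e v → c ∈ Mx C v → Mx A v = e := by
    intro v hv hp hc
    rw [he] at hp ⊢
    exact Closed.c_t_RegSide A C a c a' v (by omega) hOv hNA hv hp hc
  obtain ⟨r, hrR, hrP⟩ := hr
  have hSA : e ≠ A := by
    intro h
    rw [h] at hc2
    omega
  have hPr : Perp e (-r) := by
    have h := hrP.smul (-1)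
    rwa [neg_one_smul] at h
  obtain ⟨M, τ, hM, hτ, hSz, hTz, hor, -⟩ := rotate heu hcu ⟨a, ha⟩
    ⟨c, Finset.mem_singleton_self _⟩ (Or.inl hSA) hPr (perp_singleton _ _)
  have hPu : Perp e u := heu ▸ perp_Mx A u
  have hPz : Perp e (u + τ • (-r - M • u)) := hPu.add ((hPr.sub (hPu.smul M)).smul τ)
  have hcz : c ∈ Mx C (u + τ • (-r - M • u)) := hTz (Finset.mem_singleton_self _)
  have hz0 : u + τ • (-r - M • u) ≠ 0 := by
    intro h
    have hreq : r = ((1 - τ * M) / τ) • u := by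
      funext i
      have h1 := congrFun h i
      simp only [Pi.add_apply, Pi.smul_apply, Pi.sub_apply, Pi.neg_apply, Pi.zero_apply,
        smul_eq_mul] at h1 ⊢
      rw [div_mul_eq_mul_div, eq_div_iff hτ.ne']
      linarith
    rw [hreq] at hrR
    exact hout _ hrR
  have hAz := hfullZ _ hz0 hPz hcz
  have hcard : (Mx C (u + τ • (-r - M • u))).card ≤ 2 := by
    by_contra h
    exact hOv ⟨_, hz0, by rw [hAz]; exact ha, hcz, Or.inr (by omega)⟩
  have hCne : Mx C (u + τ • (-r - M • u)) ≠ {c} := by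
    rcases hor with h | h
    · exact absurd hAz h
    · exact h
  obtain ⟨c', hcc', hCz⟩ := MHalfExit.pair_of hcz hCne hcard
  refine ⟨_, c', ⟨hc2, heu, hcu, hclo, hout, hAz, hCz, hcc', ⟨1, one_pos, ?_⟩, hfull, hfullZ⟩⟩
  have h1 : InR A B c (τ • r + (τ * M) • u) :=
    InR.comb hτ (mul_pos hτ hM).le hrR hclo
  have h2 : u - (1 : ℝ) • (u + τ • (-r - M • u)) = τ • r + (τ * M) • u := by
    funext i
    simp only [Pi.add_apply, Pi.smul_apply, Pi.sub_apply, Pi.neg_apply, smul_eq_mul]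
    ring
  rw [h2]
  exact h1

end TPH
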