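import Pool.Agent.TPH.St5
import Pool.Agent.TPH.Closed

/-!
# Three parallel hyperplanes: tangent positions
-/

set_option autoImplicit false

namespace TPH

open MTangentPath in
theorem t_PosTangent (hPosBasic : StmtPosBasic) : StmtPosTangent := by
  intro A B C e c u hA hC _ hu hreg hno
  obtain ⟨_, _, _, _, hcell⟩ := hPosBasic A B C e c u hu
  obtain ⟨a, a', hne, rfl⟩ := Finset.card_eq_two.mp hu.card
  have ha : a ∈ ({a, a'} : Finset E) := by simp
  have ha' : a' ∈ ({a, a'} : Finset E) := by simp
  rcases side_or (A := A) (B := B) (c := c) (a := a) (a' := a') hno with hs | hs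
  · exact MTangentPath.main Closed.c_t_TwoCorners Closed.c_t_CornerNbr Closed.c_t_FirstBad
      Closed.c_t_RegTie hA hC hs (hreg a ha) (hreg a' ha')
      ((hcell a ha).2 a' ha' hne.symm).2
  · rw [Finset.pair_comm a a']
    exact MTangentPath.main Closed.c_t_TwoCorners Closed.c_t_CornerNbr Closed.c_t_FirstBad
      Closed.c_t_RegTie hA hC hs (hreg a' ha') (hreg a ha)
      ((hcell a' ha').2 a ha hne).2

end TPH
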