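import Pool.Agent.TPH.St7

/-!
# Three parallel hyperplanes: the path of ties between two ties
-/

namespace TPH

namespace MTPath

/-- The defect of the pair `p` at `w`. -/
noncomputable def T (c : E) (p : E × E) (w : E) : ℝ := 2 * ip c w - ip p.1 w - ip p.2 w

theorem T_sub (c : E) (p : E × E) (v w : E) (k : ℝ) : T c p (v - k • w) = T c p v - k * T c p w := by
  simp only [T, ip_sub_right, ip_smul_right]; ring

theorem T_seg (c : E) (p : E × E) (v w : E) (s : ℝ) :
    T c p ((1 - s) • v + s • w) = (1 - s) * T c p v + s * T c p w := by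
  simp only [T, ip_add_right, ip_smul_right]; ring

end MTPath

open MTPath in
theorem t_TPath (hTieBasic : StmtTieBasic) : StmtTPath := by
  intro A B c r w₁ w₂ hr h1 h2
  obtain ⟨hA, hB, -, -, -, -, hlast1⟩ := (hTieBasic A B c w₁).1 h1
  obtain ⟨-, -, -, -, -, -, hlast2⟩ := (hTieBasic A B c w₂).1 h2
  have hP : (A ×ˢ B).Nonempty := hA.product hB
  have hT : ∀ p ∈ A ×ˢ B, 0 < T c p r := by
    intro p hp
    rw [Finset.mem_product] at hp
    have := hr p.1 hp.1 p.2 hp.2
    simp only [T]; linarith
  set τ : ℝ → ℝ := fun s => (A ×ˢ B).inf' hP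
    (fun p => T c p ((1 - s) • w₁ + s • w₂) / T c p r) with hτ
  set q : ℝ → E := fun s => (1 - s) • w₁ + s • w₂ - τ s • r with hq
  have hle : ∀ s, ∀ p ∈ A ×ˢ B, τ s ≤ T c p ((1 - s) • w₁ + s • w₂) / T c p r := by
    intro s p hp
    exact Finset.inf'_le (fun p => T c p ((1 - s) • w₁ + s • w₂) / T c p r) hp
  have htie : ∀ s, Tie A B c (q s) := by
    intro s
    have hc : InRc A B c (q s) := by
      intro a ha b hb
      have hp : (a, b) ∈ A ×ˢ B := Finset.mem_product.mpr ⟨ha, hb⟩
      have h3 := hle s (a, b) hp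
      rw [le_div_iff₀ (hT _ hp)] at h3
      have h4 : T c (a, b) (q s) = T c (a, b) ((1 - s) • w₁ + s • w₂) - τ s * T c (a, b) r :=
        T_sub c (a, b) _ _ _
      have h5 : 0 ≤ T c (a, b) (q s) := by rw [h4]; linarith
      simp only [T] at h5; linarith
    obtain ⟨p, hp, he⟩ := Finset.exists_mem_eq_inf' hP
      (fun p => T c p ((1 - s) • w₁ + s • w₂) / T c p r)
    have hp' := Finset.mem_product.mp hp
    refine (hTieBasic A B c (q s)).2 hc p.1 hp'.1 p.2 hp'.2 ?_
    have h4 : T c p (q s) = T c p ((1 - s) • w₁ + s • w₂) - τ s * T c p r := T_sub c p _ _ _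
    have h6 : τ s = T c p ((1 - s) • w₁ + s • w₂) / T c p r := he
    have h5 : T c p (q s) = 0 := by
      rw [h4, h6, div_mul_cancel₀ _ (hT p hp).ne']; ring
    simp only [T] at h5; linarith
  have h0 : τ 0 = 0 := by
    have h3 := htie 0
    have h4 : q 0 = w₁ + (-τ 0) • r := by
      simp only [hq, sub_zero, one_smul, zero_smul, add_zero, neg_smul]
      abel
    rw [h4] at h3
    have := hlast1 r _ hr h3
    linarith
  have h1' : τ 1 = 0 := by
    have h3 := htie 1
    have h4 : q 1 = w₂ + (-τ 1) • r := by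
      simp only [hq, sub_self, one_smul, zero_smul, zero_add, neg_smul]
      abel
    rw [h4] at h3
    have := hlast2 r _ hr h3
    linarith
  refine ⟨q, τ, ⟨fun s => rfl, fun s _ _ => htie s, ?_, ?_, ?_, ?_⟩⟩
  · have : ∀ p ∈ A ×ˢ B, Continuous (fun s : ℝ => T c p ((1 - s) • w₁ + s • w₂) / T c p r) := by
      intro p _
      have h3 : (fun s : ℝ => T c p ((1 - s) • w₁ + s • w₂) / T c p r)
          = fun s : ℝ => ((1 - s) * T c p w₁ + s * T c p w₂) / T c p r := by
        funext s; rw [T_seg]
      rw [h3]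
      fun_prop
    exact Continuous.finset_inf'_apply hP this
  · simp only [hq, sub_zero, one_smul, zero_smul, add_zero, h0]
  · simp only [hq, sub_self, one_smul, zero_smul, zero_add, h1', sub_zero]
  · rintro v hv ⟨α, β, τ', hα, hβ, hαβ, hv'⟩
    have hne : α + β ≠ 0 := hαβ.ne'
    have hsum : 1 - β / (α + β) = α / (α + β) := by field_simp; ring
    refine ⟨β / (α + β), α + β, div_nonneg hβ hαβ.le, ?_, hαβ, ?_⟩
    · rw [div_le_one hαβ]; linarith
    · obtain ⟨-, -, -, -, hpos, -, -⟩ := (hTieBasic A B c v).1 hv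
      have h3 := hpos (1 / (α + β)) (by positivity)
      obtain ⟨-, -, -, -, -, -, hlast⟩ := (hTieBasic A B c _).1 h3
      have h4 : q (β / (α + β)) = (1 / (α + β)) • v + (τ' / (α + β) - τ (β / (α + β))) • r := by
        simp only [hq, hsum, hv']
        funext i
        simp only [Pi.add_apply, Pi.sub_apply, Pi.smul_apply, smul_eq_mul]
        field_simp
        ring
      have h5 := htie (β / (α + β))
      rw [h4] at h5
      have h6 := hlast r _ hr h5
      rw [h4, h6, zero_smul, add_zero, smul_smul, mul_one_div, div_self hne, one_smul]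

end TPH
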