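import Pool.Agent.TPH.St7
import Pool.Agent.TPH.Closed

/-!
# Three parallel hyperplanes: there are few tangent pairs
-/

set_option autoImplicit false

namespace TPH

namespace MTangPairs

theorem mem_ev7 {A B C e : Finset E} {c : E} : e ∈ ev7 A B C c ↔
    e ∈ Ed A ∧ (∃ q, IsPos A B C e c q) ∧ ∀ r, InR A B c r → ¬ Perp e r := by
  simp only [ev7, Finset.mem_filter]

theorem ev7_sub (A B C : Finset E) (c : E) : ev7 A B C c ⊆ Ed A := fun _ he =>
  (mem_ev7.1 he).1

/-- A set with at most two points has at most one edge. -/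
theorem Ed_small {A : Finset E} (hA : A.card ≤ 2) : (Ed A).card ≤ 1 := by
  classical
  have h : ∀ e ∈ Ed A, e = A := by
    intro e he
    simp only [Ed, Finset.mem_filter, Finset.mem_powerset] at he
    exact Finset.eq_of_subset_of_card_le he.1 (by rw [he.2.1]; exact hA)
  refine Finset.card_le_one.2 fun e he e' he' => ?_
  rw [h e he, h e' he']

/-- All tangent pairs. -/
noncomputable def TP (A B C : Finset E) : Finset (E × Finset E) :=
  @Finset.filter _ (fun p => p.2 ∈ ev7 A B C p.1) (Classical.decPred _) (C ×ˢ Ed A)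

theorem mem_TP {A B C : Finset E} {p : E × Finset E} : p ∈ TP A B C ↔
    p.1 ∈ C ∧ p.2 ∈ ev7 A B C p.1 := by
  simp only [TP, Finset.mem_filter, Finset.mem_product]
  constructor
  · rintro ⟨⟨h1, _⟩, h2⟩
    exact ⟨h1, h2⟩
  · rintro ⟨h1, h2⟩
    exact ⟨⟨h1, ev7_sub A B C _ h2⟩, h2⟩

theorem sum_eq (A B C : Finset E) : ∑ c ∈ C, (ev7 A B C c).card = (TP A B C).card := by
  classical
  have h : ∀ p ∈ TP A B C, p.1 ∈ C := fun p hp => (mem_TP.1 hp).1
  rw [Finset.card_eq_sum_card_fiberwise (f := Prod.fst) (t := C) h]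
  refine Finset.sum_congr rfl fun c hc => ?_
  refine Finset.card_bij (fun e _ => (c, e)) ?_ ?_ ?_
  · intro e he
    rw [Finset.mem_filter]
    exact ⟨mem_TP.2 ⟨hc, he⟩, rfl⟩
  · intro e _ e' _ h
    exact congrArg Prod.snd h
  · rintro ⟨d, e⟩ hp
    rw [Finset.mem_filter] at hp
    have h1 : d = c := hp.2
    subst h1
    exact ⟨e, (mem_TP.1 hp.1).2, rfl⟩

/-- The pairs with a cell which is not regular. -/
theorem bad_le (hPosBasic : StmtPosBasic) (A B C : Finset E) :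
    (@Finset.filter _ (fun p => ¬ ∀ a ∈ p.2, Reg A C a p.1) (Classical.decPred _)
      (TP A B C)).card ≤ spSum A C := by
  classical
  set S := @Finset.filter _ (fun p => ¬ ∀ a ∈ p.2, Reg A C a p.1) (Classical.decPred _)
      (TP A B C) with hS
  have hmem : ∀ p, p ∈ S ↔ p ∈ TP A B C ∧ ¬ ∀ a ∈ p.2, Reg A C a p.1 := by
    intro p
    simp only [hS, Finset.mem_filter]
  have hdata : ∀ p ∈ S, ∃ a a' : E, (a, p.1) ∈ Sp A C ∧ p.2 = {a, a'} ∧ a' ∈ NA A C a p.1 := by
    intro p hp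
    obtain ⟨h1, h2⟩ := (hmem p).1 hp
    obtain ⟨_, h4⟩ := mem_TP.1 h1
    obtain ⟨_, ⟨q, hq⟩, _⟩ := mem_ev7.1 h4
    push Not at h2
    obtain ⟨a, ha, hreg⟩ := h2
    obtain ⟨k1, k2⟩ := (hPosBasic A B C p.2 p.1 q hq).2.2.2.2 a ha
    obtain ⟨a', ha', hne⟩ := Finset.exists_mem_ne (by rw [hq.card]; norm_num) a
    obtain ⟨k3, k4⟩ := k2 a' ha' hne
    exact ⟨a, a', mem_Sp.2 ⟨k1, hreg⟩, k3, k4⟩
  choose! a a' h using hdata
  set k : E × Finset E → E × E × E := fun p => (a p, p.1, a' p) with hk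
  set T : Finset (E × E × E) := (Sp A C).biUnion (fun p =>
    (NA A C p.1 p.2).image (fun a' => (p.1, p.2, a'))) with hT
  have hmaps : ∀ p ∈ S, k p ∈ T := by
    intro p hp
    obtain ⟨h1, _, h3⟩ := h p hp
    rw [hT, Finset.mem_biUnion]
    refine ⟨(a p, p.1), h1, ?_⟩
    rw [Finset.mem_image]
    exact ⟨a' p, h3, rfl⟩
  have hinj : ∀ p ∈ S, ∀ p' ∈ S, k p = k p' → p = p' := by
    intro p hp p' hp' he
    have e1 : a p = a p' := congrArg Prod.fst he
    have e2 : p.1 = p'.1 := congrArg (fun w => w.2.1) he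
    have e3 : a' p = a' p' := congrArg (fun w => w.2.2) he
    refine Prod.ext e2 ?_
    rw [(h p hp).2.1, (h p' hp').2.1, e1, e3]
  have h1 : S.card ≤ T.card := Finset.card_le_card_of_injOn k hmaps
    (fun p hp p' hp' he => hinj p hp p' hp' he)
  have h2 : T.card ≤ ∑ p ∈ Sp A C, (NA A C p.1 p.2).card := by
    rw [hT]
    exact Finset.card_biUnion_le.trans (Finset.sum_le_sum (fun p _ => Finset.card_image_le))
  have h3 : ∑ p ∈ Sp A C, (NA A C p.1 p.2).card ≤ spSum A C := by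
    unfold spSum
    exact Finset.sum_le_sum (fun p _ => Nat.le_add_right _ _)
  exact h1.trans (h2.trans h3)

/-- The pairs with regular cells. -/
theorem good_le (hPosTangent : StmtPosTangent) (hTangentUniq : StmtTangentUniq)
    (A B C : Finset E) (hA : 3 ≤ A.card) (hC : 3 ≤ C.card) (hR : ∀ c ∈ C, ∃ r, InR A B c r) :
    (@Finset.filter _ (fun p => ∀ a ∈ p.2, Reg A C a p.1) (Classical.decPred _)
      (TP A B C)).card ≤ 2 * spSum A C := by
  classical
  set S := @Finset.filter _ (fun p => ∀ a ∈ p.2, Reg A C a p.1) (Classical.decPred _)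
      (TP A B C) with hS
  have hmem : ∀ p, p ∈ S ↔ p ∈ TP A B C ∧ ∀ a ∈ p.2, Reg A C a p.1 := by
    intro p
    simp only [hS, Finset.mem_filter]
  have hcC : ∀ p ∈ S, p.1 ∈ C := fun p hp => (mem_TP.1 ((hmem p).1 hp).1).1
  have hpos : ∀ p ∈ S, ∃ q : E, IsPos A B C p.2 p.1 q := by
    intro p hp
    exact (mem_ev7.1 (mem_TP.1 ((hmem p).1 hp).1).2).2.1
  have hdata : ∀ p ∈ S, ∃ c' a₁ a₂ : E, ∃ δ z ρ : E,
      TG A B C (p.2, p.1, ∅) δ c' z ρ a₁ a₂ := by
    intro p hp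
    obtain ⟨u, hu⟩ := hpos p hp
    have h1 := (mem_ev7.1 (mem_TP.1 ((hmem p).1 hp).1).2).2.2
    obtain ⟨δ, c', z, ρ, a₁, a₂, h⟩ := hPosTangent A B C p.2 p.1 u hA hC (hR _ (hcC p hp)) hu
      ((hmem p).1 hp).2 h1
    exact ⟨c', a₁, a₂, δ, z, ρ, h⟩
  choose! c' a₁ a₂ h using hdata
  set k : E × Finset E → E × E × E × E := fun p => (a₁ p, p.1, a₂ p, c' p) with hk
  set T : Finset (E × E × E × E) := (Sp A C).biUnion (fun p =>
    ((NA A C p.1 p.2).filter (fun a => Reg A C a p.2)).biUnion (fun a =>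
      (NA C A p.2 a).image (fun c => (p.1, p.2, a, c)))) with hT
  have hmaps : ∀ p ∈ S, k p ∈ T := by
    intro p hp
    obtain ⟨δ, z, ρ, hg⟩ := h p hp
    rw [hT, Finset.mem_biUnion]
    refine ⟨(a₁ p, p.1), hg.sp, ?_⟩
    rw [Finset.mem_biUnion]
    refine ⟨a₂ p, Finset.mem_filter.2 ⟨hg.na, hg.reg⟩, ?_⟩
    rw [Finset.mem_image]
    exact ⟨c' p, hg.nc', rfl⟩
  have hinj : ∀ p ∈ S, ∀ p' ∈ S, k p = k p' → p = p' := by
    intro p hp p' hp' he
    have e1 : a₁ p = a₁ p' := congrArg Prod.fst he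
    have e2 : p.1 = p'.1 := congrArg (fun w => w.2.1) he
    have e3 : a₂ p = a₂ p' := congrArg (fun w => w.2.2.1) he
    have e4 : c' p = c' p' := congrArg (fun w => w.2.2.2) he
    obtain ⟨δ, z, ρ, hg⟩ := h p hp
    obtain ⟨δ', z', ρ', hg'⟩ := h p' hp'
    rw [← e1, ← e2, ← e3, ← e4] at hg'
    obtain ⟨u, hu⟩ := hpos p hp
    obtain ⟨u', hu'⟩ := hpos p' hp'
    rw [← e2] at hu'
    have hreg' := ((hmem p').1 hp').2
    rw [← e2] at hreg'
    refine Prod.ext e2 ?_
    exact hTangentUniq A B C p.2 p'.2 p.1 (c' p) u u' δ δ' z z' ρ ρ' (a₁ p) (a₂ p) hA hC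
      (hR _ (hcC p hp)) hu hu' ((hmem p).1 hp).2 hreg' hg hg'
  have h1 : S.card ≤ T.card := Finset.card_le_card_of_injOn k hmaps
    (fun p hp p' hp' he => hinj p hp p' hp' he)
  have h2 : T.card ≤ ∑ p ∈ Sp A C, (NA A C p.1 p.2).card * 2 := by
    rw [hT]
    refine Finset.card_biUnion_le.trans (Finset.sum_le_sum (fun p _ => ?_))
    refine (Finset.card_biUnion_le_card_mul _ _ 2 (fun a ha => ?_)).trans
      (Nat.mul_le_mul_right _ (Finset.card_le_card (Finset.filter_subset _ _)))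
    rw [Finset.mem_filter] at ha
    refine Finset.card_image_le.trans ?_
    exact ha.2.2.2.2.le
  have h3 : ∑ p ∈ Sp A C, (NA A C p.1 p.2).card * 2 ≤ spSum A C * 2 := by
    rw [← Finset.sum_mul]
    refine Nat.mul_le_mul_right _ ?_
    unfold spSum
    exact Finset.sum_le_sum (fun p _ => Nat.le_add_right _ _)
  omega

end MTangPairs

open MTangPairs in
theorem t_TangPairs (hPosBasic : StmtPosBasic) (hPosTangent : StmtPosTangent)
    (hTangentUniq : StmtTangentUniq) : StmtTangPairs := by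
  classical
  obtain ⟨K, hK⟩ := TPH.Closed.c_t_SpecialBound
  refine ⟨3 * K + 24, ?_⟩
  intro A B C hA hC hR
  have hsum : ∑ c ∈ C, (ev7 A B C c).card ≤ C.card * (Ed A).card := by
    rw [← smul_eq_mul]
    exact Finset.sum_le_card_nsmul _ _ _ fun c _ => Finset.card_le_card (ev7_sub A B C c)
  by_cases h1 : A.card ≤ 2
  · have h2 := Ed_small h1
    calc ∑ c ∈ C, (ev7 A B C c).card ≤ C.card * (Ed A).card := hsum
      _ ≤ C.card * 1 := Nat.mul_le_mul_left _ h2
      _ ≤ (3 * K + 24) * (A.card + C.card) := by nlinarith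
  by_cases h2 : C.card ≤ 2
  · have h3 := (TPH.Closed.edge_lin A hA).2.2
    calc ∑ c ∈ C, (ev7 A B C c).card ≤ C.card * (Ed A).card := hsum
      _ ≤ 2 * (12 * A.card) := Nat.mul_le_mul h2 h3
      _ ≤ (3 * K + 24) * (A.card + C.card) := by nlinarith
  push Not at h1 h2
  have hS := hK A C (by omega) (by omega) hA hC
  have hb := bad_le hPosBasic A B C
  have hg := good_le hPosTangent hTangentUniq A B C (by omega) (by omega) hR
  have hsplit : (TP A B C).card
      = (@Finset.filter _ (fun p => ∀ a ∈ p.2, Reg A C a p.1) (Classical.decPred _)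
        (TP A B C)).card
        + (@Finset.filter _ (fun p => ¬ ∀ a ∈ p.2, Reg A C a p.1) (Classical.decPred _)
        (TP A B C)).card := by
    convert (Finset.card_filter_add_card_filter_not
      (s := TP A B C) (fun p => ∀ a ∈ p.2, Reg A C a p.1)).symm
  rw [sum_eq, hsplit]
  have h4 : 3 * spSum A C ≤ 3 * (K * (A.card + C.card)) := Nat.mul_le_mul_left _ hS
  have h5 : (3 * K + 24) * (A.card + C.card)
      = 3 * (K * (A.card + C.card)) + 24 * (A.card + C.card) := by ring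
  rw [h5]
  omega

end TPH
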