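import Pool.Agent.TPH.St5
import Pool.Agent.TPH.Closed

/-!
# Three parallel hyperplanes: the data of a tangent position determine the edge
-/

set_option autoImplicit false

namespace TPH

namespace MTangentUniq

/-- A common maximiser of `ρ` and of a negative multiple. -/
theorem Mx_neg {A : Finset E} {ρ a : E} {κ : ℝ} (hκ : κ < 0) (h1 : a ∈ Mx A ρ)
    (h2 : a ∈ Mx A (κ • ρ)) : Mx A ρ = A := by
  apply Finset.Subset.antisymm (Mx_subset _ _)
  intro b hb
  apply mem_Mx_of_eq h1 hb
  have e1 := Mx_le h1 hb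
  have e2 := Mx_le h2 hb
  rw [ip_smul_right, ip_smul_right] at e2
  have e3 : ip a ρ ≤ ip b ρ := by
    by_contra hc
    push Not at hc
    have := mul_lt_mul_of_neg_left hc hκ
    linarith
  linarith

/-- The main step of the claim. -/
theorem core (hPosBasic : StmtPosBasic) {A B C e e' : Finset E}
    {c u u' δ c' z ρ a₁ a₂ δ' z' ρ' : E} (hA : 3 ≤ A.card) (hC : 3 ≤ C.card)
    (hu : IsPos A B C e c u) (hu' : IsPos A B C e' c u') (hreg : ∀ a ∈ e, Reg A C a c)
    (hr : ∃ r, InR A B c r)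
    (h : TG A B C (e, c, ∅) δ c' z ρ a₁ a₂) (h' : TG A B C (e', c, ∅) δ' c' z' ρ' a₁ a₂)
    {α β : ℝ} (hα : 0 < α) (he : z' = β • z + α • ρ) : e = e' := by
  classical
  obtain ⟨r, hr⟩ := hr
  have fx := hPosBasic A B C e c u hu
  have hz0 : ip δ z = 0 := (h.perp z).1 (h.zA ▸ perp_Mx A z)
  have hz' : ip δ z' < 0 := by
    rw [he, ip_add_right, ip_smul_right, ip_smul_right, hz0, mul_zero, zero_add]
    exact mul_neg_of_pos_of_neg hα h.ρδ
  have hu0 : 0 ≤ ip δ u' := by
    by_contra hneg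
    push Not at hneg
    have hδr : 0 < ip δ r := h.side r hr
    have hε : 0 < -ip δ u' / ip δ r := div_pos (by linarith) hδr
    have hin : InR A B c (u' + (-ip δ u' / ip δ r) • r) := by
      have h2 := (hr.smul hε).add hu'.clo
      rwa [add_comm] at h2
    have h3 := h.side _ hin
    rw [ip_add_right, ip_smul_right, div_mul_cancel₀ _ hδr.ne'] at h3
    linarith
  set v : E := (ip δ u') • z' + (-ip δ z') • u' with hv
  have hpos : 0 < -ip δ z' := by linarith
  have hδv : ip δ v = 0 := by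
    rw [hv, ip_add_right, ip_smul_right, ip_smul_right]; ring
  have hzC' : Mx C z' = {c, c'} := h'.zC
  have hzA' : Mx A z' = e' := h'.zA
  have hvC : Mx C v = {c} := by
    refine Mx_comb_right hu0 hpos (Finset.singleton_nonempty _) hu'.cu ?_
    rw [hzC']
    simp
  have hvA : Mx A v = e' := by
    refine Mx_comb_right hu0 hpos ?_ hu'.eu ?_
    · rw [← Finset.card_pos, hu'.card]; norm_num
    · rw [hzA']
  have hv0 : v ≠ 0 := by
    intro h0
    rw [h0, Mx_zero] at hvC
    rw [hvC, Finset.card_singleton] at hC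
    omega
  obtain ⟨a, a', haa, hxe⟩ := Finset.card_eq_two.1 hu.card
  have ha : a ∈ e := by rw [hxe]; simp
  have ha' : a' ∈ e := by rw [hxe]; simp
  have hnb := ((fx.2.2.2.2 a ha).2 a' ha' haa.symm).2
  have hreg := hreg a ha
  have hperp : Perp e v := (h.perp v).2 hδv
  have hside := Closed.c_t_RegSide A C a c a' v (by omega) hreg.2.1 hnb hv0
    (by rw [← hxe]; exact hperp) (by rw [hvC]; simp)
  rw [hxe, ← hside, hvA]

end MTangentUniq

open MTangentUniq in
theorem t_TangentUniq (hPosBasic : StmtPosBasic) : StmtTangentUniq := by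
  classical
  intro A B C e e' c c' u u' δ δ' z z' ρ ρ' a₁ a₂ hA hC hr hu hu' hre hre' h h'
  have hN := (Closed.c_t_CornerNbr A C a₂ a₁ c c' h.cor).2.2.2.2.2.2
  set d₁ : E := a₂ - a₁ with hd₁
  set d₂ : E := c - c' with hd₂
  have hd1 : d₁ ≠ 0 := by
    intro h0
    obtain ⟨w, hw, -⟩ := hN 1 0
    rw [h0, ip_zero_left] at hw
    norm_num at hw
  have hd2 : d₂ ≠ 0 := by
    intro h0
    obtain ⟨w, -, hw⟩ := hN 0 1
    rw [h0, ip_zero_left] at hw
    norm_num at hw
  have hcr : cr d₁ d₂ ≠ 0 := by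
    intro h0
    obtain ⟨k, hk⟩ := par_of_cr hd1 h0
    obtain ⟨w, hw1, hw2⟩ := hN 0 1
    rw [hk, ip_smul_left, hw1, mul_zero] at hw2
    norm_num at hw2
  -- orthogonality
  have o1 : ∀ {w : E}, Mx A w = {a₁, a₂} → ip d₁ w = 0 := by
    intro w hw
    rw [hd₁, ip_sub_left, Mx_eq (A := A) (u := w) (a := a₂) (a' := a₁) (by rw [hw]; simp)
      (by rw [hw]; simp), sub_self]
  have o2 : ∀ {w : E}, Mx C w = {c, c'} → ip d₂ w = 0 := by
    intro w hw
    rw [hd₂, ip_sub_left, Mx_eq (A := C) (u := w) (a := c) (a' := c') (by rw [hw]; simp)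
      (by rw [hw]; simp), sub_self]
  have hρ1 := o1 h.ρA
  have hρ1' := o1 h'.ρA
  have hρ2 := o2 h.ρC
  have hρ2' : ip d₂ ρ' = 0 := o2 h'.ρC
  have hz2 := o2 h.zC
  have hz2' : ip d₂ z' = 0 := o2 h'.zC
  have hρ0 : ρ ≠ 0 := by
    intro h0
    have := h.ρδ
    rw [h0, ip_zero_right] at this
    exact lt_irrefl _ this
  have hρ0' : ρ' ≠ 0 := by
    intro h0
    have := h'.ρδ
    rw [h0, ip_zero_right] at this
    exact lt_irrefl _ this
  -- `ρ'` is a positive multiple of `ρ`
  obtain ⟨k, hk⟩ := par_cr_of_ip hcr (by rw [ip_comm]; exact hρ1) (by rw [ip_comm]; exact hρ2)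
  obtain ⟨k', hk'⟩ := par_cr_of_ip hcr (by rw [ip_comm]; exact hρ1') (by rw [ip_comm]; exact hρ2')
  have hk0 : k ≠ 0 := by
    rintro rfl
    exact hρ0 (by rw [hk, zero_smul])
  have hκ : ρ' = (k' / k) • ρ := by
    rw [hk, hk', smul_smul, div_mul_cancel₀ _ hk0]
  have hκ0 : k' / k ≠ 0 := by
    intro h0
    rw [h0, zero_smul] at hκ
    exact hρ0' hκ
  have hκpos : 0 < k' / k := by
    rcases lt_or_gt_of_ne hκ0 with hneg | hpos
    · exfalso
      have h1 : a₁ ∈ Mx A ρ := by rw [h.ρA]; simp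
      have h2 : a₁ ∈ Mx A ((k' / k) • ρ) := by rw [← hκ, h'.ρA]; simp
      have h3 := Mx_neg hneg h1 h2
      rw [h.ρA] at h3
      rw [← h3] at hA
      have := Finset.card_le_two (a := a₁) (b := a₂)
      omega
    · exact hpos
  -- decomposition of `z'`
  have hza : 0 < ip d₁ z := by
    rw [hd₁, ip_sub_left]
    have := h.za
    linarith
  have hza' : 0 < ip d₁ z' := by
    rw [hd₁, ip_sub_left]
    have := h'.za
    linarith
  have hz0 : z ≠ 0 := by
    intro h0
    rw [h0, ip_zero_right] at hza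
    exact lt_irrefl _ hza
  have hzρ : cr z ρ ≠ 0 := by
    intro h0
    obtain ⟨m, hm⟩ := par_of_cr hz0 h0
    rw [hm, ip_smul_right] at hρ1
    rcases mul_eq_zero.1 hρ1 with h1 | h1
    · apply hρ0
      rw [hm, h1, zero_smul]
    · exact hza.ne' h1
  obtain ⟨β, α, he⟩ := comb_of_perp hd2 hzρ hz2 hρ2 hz2'
  have hβ : 0 < β := by
    rw [he, ip_add_right, ip_smul_right, ip_smul_right, hρ1, mul_zero, add_zero] at hza'
    exact (pos_iff_pos_of_mul_pos hza').mpr hza
  rcases lt_trichotomy α 0 with hα | hα | hα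
  · -- exchange the roles
    have he' : z = (1 / β) • z' + (-α / (β * (k' / k))) • ρ' := by
      have h1 : (-α / (β * (k' / k))) • ρ' = (-α / β) • ρ := by
        rw [hκ, smul_smul]
        congr 1
        generalize k' / k = κ at hκ0
        field_simp
      rw [h1, he, smul_add, smul_smul, smul_smul, one_div, inv_mul_cancel₀ hβ.ne', one_smul,
        add_assoc, ← add_smul]
      have : β⁻¹ * α + -α / β = 0 := by field_simp; ring
      rw [this, zero_smul, add_zero]
    exact (core hPosBasic hA hC hu' hu hre' hr h' h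
      (div_pos (by linarith) (mul_pos hβ hκpos)) he').symm
  · rw [hα, zero_smul, add_zero] at he
    have e1 : Mx A z = e := h.zA
    have e2 : Mx A z' = e' := h'.zA
    rw [← e1, ← e2, he, Mx_smul hβ]
  · exact core hPosBasic hA hC hu hu' hre hr h h' hα he

end TPH
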