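import Pool.Agent.TPH.St7
import Pool.Agent.TPH.Closed

namespace TPH

namespace MTieBasic

theorem ip_le_of_mx {A : Finset E} {w a a' : E} (h : a ∈ Mx A w) (h' : a' ∈ A) :
    ip a' w ≤ ip a w := Mx_le h h'

/-- the maximisers of a tie vector give equality -/
theorem eqs {A B : Finset E} {c w : E} (h : Tie A B c w) :
    A.Nonempty ∧ B.Nonempty ∧ ∀ a ∈ Mx A w, ∀ b ∈ Mx B w, ip a w + ip b w = 2 * ip c w := by
  obtain ⟨h1, h2⟩ := h
  have h3 : ∃ a ∈ A, ∃ b ∈ B, 2 * ip c w ≤ ip a w + ip b w := by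
    by_contra hcon
    push Not at hcon
    exact h2 (fun a ha b hb => hcon a ha b hb)
  obtain ⟨a0, ha0, b0, hb0, h0⟩ := h3
  refine ⟨⟨a0, ha0⟩, ⟨b0, hb0⟩, ?_⟩
  intro a ha b hb
  have e1 := Mx_le ha ha0
  have e2 := Mx_le hb hb0
  have e3 := h1 a (Mx_subset _ _ ha) b (Mx_subset _ _ hb)
  linarith

theorem of_eq {A B : Finset E} {c w a b : E} (h : InRc A B c w) (ha : a ∈ A) (hb : b ∈ B)
    (he : ip a w + ip b w = 2 * ip c w) : Tie A B c w :=
  ⟨h, fun h' => by have := h' a ha b hb; linarith⟩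

theorem smul_not {A B : Finset E} {c w : E} (h : Tie A B c w) (κ : ℝ) : ¬ InR A B c (κ • w) := by
  obtain ⟨hA, hB, he⟩ := eqs h
  obtain ⟨a, ha⟩ := Mx_nonempty hA w
  obtain ⟨b, hb⟩ := Mx_nonempty hB w
  intro h'
  have h1 := h' a (Mx_subset _ _ ha) b (Mx_subset _ _ hb)
  have h2 := he a ha b hb
  rw [ip_smul_right, ip_smul_right, ip_smul_right] at h1
  have h3 : κ * ip a w + κ * ip b w = 2 * (κ * ip c w) := by
    calc κ * ip a w + κ * ip b w = κ * (ip a w + ip b w) := by ring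
      _ = κ * (2 * ip c w) := by rw [h2]
      _ = 2 * (κ * ip c w) := by ring
  linarith

theorem no_shift {A B : Finset E} {c w : E} (h : Tie A B c w) (r : E) (ρ : ℝ) (hr : InR A B c r)
    (h' : Tie A B c (w + ρ • r)) : ρ = 0 := by
  rcases lt_trichotomy ρ 0 with hlt | heq | hgt
  · exfalso
    have h1 : InR A B c ((-ρ) • r + (1 : ℝ) • (w + ρ • r)) :=
      InR.comb (neg_pos.mpr hlt) zero_le_one hr h'.1
    have h2 : (-ρ) • r + (1 : ℝ) • (w + ρ • r) = w := by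
      rw [one_smul, neg_smul]; abel
    rw [h2] at h1
    exact h.2 h1
  · exact heq
  · exfalso
    have h1 : InR A B c (ρ • r + (1 : ℝ) • w) := InR.comb hgt zero_le_one hr h.1
    have h2 : ρ • r + (1 : ℝ) • w = w + ρ • r := by
      rw [one_smul]; abel
    rw [h2] at h1
    exact h'.2 h1

end MTieBasic

open MTieBasic in
theorem t_TieBasic : StmtTieBasic := by
  intro A B c w
  refine ⟨fun h => ?_, fun h a ha b hb he => of_eq h ha hb he⟩
  obtain ⟨hA, hB, he⟩ := eqs h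
  refine ⟨hA, hB, he, smul_not h, fun κ hκ => ⟨h.1.smul hκ.le, smul_not h κ⟩, ?_, ?_⟩
  · exact ⟨inRc_comm.mp h.1, fun h' => h.2 (inR_comm.mpr h')⟩
  · exact fun r ρ hr h' => no_shift h r ρ hr h'

end TPH
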