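import Pool.Agent.TPH.St7
import Pool.Agent.TPH.Closed

/-!
# Parallel hyperplanes: if the maximisers change along the path of ties, two of them tie somewhere
-/

namespace TPH

namespace MTieMid

theorem exists_ne_of_ne {S T : Finset E} (hS : S.Nonempty) (hT : T.Nonempty) (h : S ≠ T) :
    ∃ a ∈ S, ∃ b ∈ T, b ≠ a := by
  by_contra hc
  push Not at hc
  apply h
  ext x
  constructor
  · intro hx
    obtain ⟨b, hb⟩ := hT
    rw [← hc x hx b hb]; exact hb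
  · intro hx
    obtain ⟨a, ha⟩ := hS
    rw [hc a ha x hx]; exact ha

theorem cont_ip {q : ℝ → E} (hq : Continuous q) (a : E) : Continuous (fun t => ip a (q t)) := by
  simp only [ip]
  fun_prop

theorem closed_Mx {q : ℝ → E} (hq : Continuous q) (A : Finset E) (a : E) :
    IsClosed {t : ℝ | a ∈ Mx A (q t)} := by
  by_cases ha : a ∈ A
  · have h1 : {t : ℝ | a ∈ Mx A (q t)} = ⋂ a' ∈ A, {t : ℝ | ip a' (q t) ≤ ip a (q t)} := by
      ext t
      simp only [Set.mem_ofPred_eq, mem_Mx, Set.mem_iInter]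
      exact ⟨fun h => h.2, fun h => ⟨ha, h⟩⟩
    rw [h1]
    exact isClosed_biInter fun a' _ => isClosed_le (cont_ip hq a') (cont_ip hq a)
  · have h1 : {t : ℝ | a ∈ Mx A (q t)} = ∅ := by
      ext t
      simp only [Set.mem_ofPred_eq, Set.mem_empty_iff_false, iff_false]
      exact fun h => ha (Mx_subset _ _ h)
    rw [h1]
    exact isClosed_empty

theorem cont_path {A B : Finset E} {c r w₁ w₂ : E} {q : ℝ → E} {τ : ℝ → ℝ}
    (hp : TPath A B c r w₁ w₂ q τ) : Continuous q := by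
  have h1 : q = fun s => (1 - s) • w₁ + s • w₂ - τ s • r := funext hp.eq
  have h2 := hp.cont
  rw [h1]
  fun_prop

theorem inSec_path {A B : Finset E} {c r w₁ w₂ : E} {q : ℝ → E} {τ : ℝ → ℝ}
    (hp : TPath A B c r w₁ w₂ q τ) {t : ℝ} (h0 : 0 ≤ t) (h1 : t ≤ 1) : InSec r w₁ w₂ (q t) :=
  ⟨1 - t, t, τ t, by linarith, h0, by linarith, hp.eq t⟩

end MTieMid

open MTieMid in
theorem t_TieMid (hTieBasic : StmtTieBasic) (hTPath : StmtTPath) : StmtTieMid := by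
  classical
  intro A B c r w₁ w₂ v v' hr hw₁ hw₂ hv hsv hv' hsv' hne
  obtain ⟨q, τ, hp⟩ := hTPath A B c r w₁ w₂ hr hw₁ hw₂
  have hq : Continuous q := cont_path hp
  have hA : A.Nonempty := ((hTieBasic A B c v).1 hv).1
  obtain ⟨s, κ, hs0, hs1, hκ, hvs⟩ := hp.all v hv hsv
  obtain ⟨s', κ', hs0', hs1', hκ', hvs'⟩ := hp.all v' hv' hsv'
  have e1 : Mx A (q s) = Mx A v := by rw [hvs, Mx_smul hκ]
  have e2 : Mx A (q s') = Mx A v' := by rw [hvs', Mx_smul hκ']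
  have hne' : Mx A (q s) ≠ Mx A (q s') := by rw [e1, e2]; exact hne
  obtain ⟨a, ha, b, hb, hba⟩ := exists_ne_of_ne (Mx_nonempty hA _) (Mx_nonempty hA _) hne'
  -- two closed sets
  have hF : IsClosed {t : ℝ | a ∈ Mx A (q t)} := closed_Mx hq A a
  have hG : IsClosed (⋃ a' ∈ A.erase a, {t : ℝ | a' ∈ Mx A (q t)}) :=
    (A.erase a).finite_toSet.isClosed_biUnion fun a' _ => closed_Mx hq A a'
  have hcov : Set.Icc (0 : ℝ) 1 ⊆
      {t : ℝ | a ∈ Mx A (q t)} ∪ ⋃ a' ∈ A.erase a, {t : ℝ | a' ∈ Mx A (q t)} := by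
    intro t _
    obtain ⟨x, hx⟩ := Mx_nonempty hA (q t)
    by_cases hxa : x = a
    · left; rw [← hxa]; exact hx
    · right
      exact Set.mem_biUnion (Finset.mem_coe.mpr (Finset.mem_erase.mpr ⟨hxa, Mx_subset _ _ hx⟩)) hx
  have h1 : (Set.Icc (0 : ℝ) 1 ∩ {t : ℝ | a ∈ Mx A (q t)}).Nonempty := ⟨s, ⟨hs0, hs1⟩, ha⟩
  have h2 : (Set.Icc (0 : ℝ) 1 ∩ ⋃ a' ∈ A.erase a, {t : ℝ | a' ∈ Mx A (q t)}).Nonempty :=
    ⟨s', ⟨hs0', hs1'⟩, Set.mem_biUnion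
      (Finset.mem_coe.mpr (Finset.mem_erase.mpr ⟨hba, Mx_subset _ _ hb⟩)) hb⟩
  obtain ⟨t, ⟨ht0, ht1⟩, htF, htG⟩ :=
    isPreconnected_closed_iff.mp isPreconnected_Icc _ _ hF hG hcov h1 h2
  obtain ⟨x, hxA, hx⟩ := Set.mem_iUnion₂.mp htG
  have hxa : x ≠ a := (Finset.mem_erase.mp hxA).1
  refine ⟨q t, hp.tie t ht0 ht1, inSec_path hp ht0 ht1, ?_⟩
  have h3 : 1 < (Mx A (q t)).card := Finset.one_lt_card.mpr ⟨x, hx, a, htF, hxa⟩
  exact h3

end TPH
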