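import Pool.Agent.TPH.St7
import Pool.Agent.TPH.Closed

/-!
# Counting directions by events
-/

namespace TPH

theorem t_Triples : StmtTriples := by
  intro ι κ W key Ev pos hinj h1 h2
  classical
  obtain ⟨K, hK⟩ : ∃ K : Finset ℝ, K = W.image key := ⟨_, rfl⟩
  have hKc : K.card = W.card := by
    rw [hK]
    exact Finset.card_image_of_injOn fun w hw w' hw' h => hinj w hw w' hw' h
  obtain ⟨N, hN⟩ : ∃ N : ℕ, W.card = N := ⟨_, rfl⟩
  rw [hN] at hKc ⊢
  have hF : ∀ n : Fin N, ∃ w ∈ W, key w = K.orderEmbOfFin hKc n := by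
    intro n
    have h : K.orderEmbOfFin hKc n ∈ W.image key := hK ▸ K.orderEmbOfFin_mem hKc n
    exact Finset.mem_image.mp h
  choose w hw hkey using hF
  have hlt : ∀ m n : Fin N, m < n → key (w m) < key (w n) := by
    intro m n hmn
    rw [hkey, hkey]
    exact (K.orderEmbOfFin hKc).strictMono hmn
  -- the events
  have hex : ∀ i : Fin (N / 3), ∃ ε ∈ Ev, ∃ q : ℝ, pos ε q ∧
      key (w ⟨3 * i, by omega⟩) ≤ q ∧ q ≤ key (w ⟨3 * i + 2, by omega⟩) := by
    intro i
    exact h1 (w ⟨3 * i, by omega⟩) (hw _) (w ⟨3 * i + 1, by omega⟩)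
      (hw _) (w ⟨3 * i + 2, by omega⟩) (hw _) (hlt _ _ (by simp [Fin.lt_def]))
      (hlt _ _ (by simp [Fin.lt_def]))
  choose ε hε q hq hq1 hq2 using hex
  have hgap : ∀ i j : Fin (N / 3), i < j → q i < key (w ⟨3 * j, by omega⟩) := by
    intro i j hij
    have hij' : (i : ℕ) < j := hij
    refine (hq2 i).trans_lt (hlt _ _ ?_)
    rw [Fin.lt_def]
    show 3 * (i : ℕ) + 2 < 3 * (j : ℕ)
    omega
  have hgap' : ∀ i j : Fin (N / 3), i < j → key (w ⟨3 * i + 2, by omega⟩) < q j := by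
    intro i j hij
    have hij' : (i : ℕ) < j := hij
    refine (hlt _ _ ?_).trans_le (hq1 j)
    rw [Fin.lt_def]
    show 3 * (i : ℕ) + 2 < 3 * (j : ℕ)
    omega
  have hkk : ∀ i j l : Fin (N / 3), i < j → j < l → ε i = ε j → ε l = ε j → False := by
    intro i j l hij hjl e1 e2
    have p1 := hq i
    have p2 := hq l
    rw [e1] at p1
    rw [e2] at p2
    exact h2 (ε j) (hε j) (q i) (q j) (q l) p1 (hq j) p2 ((hgap i j hij).trans_le (hq1 j))
      ((hq2 j).trans_lt (hgap' j l hjl)) (w ⟨3 * j, by omega⟩) (hw _) (w ⟨3 * j + 1, by omega⟩)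
      (hw _) (w ⟨3 * j + 2, by omega⟩) (hw _) (hlt _ _ (by simp [Fin.lt_def]))
      (hlt _ _ (by simp [Fin.lt_def])) (hgap i j hij) (hgap' j l hjl)
  have hcard : (Finset.univ : Finset (Fin (N / 3))).card ≤ 2 * Ev.card := by
    refine Finset.card_le_mul_card_image_of_maps_to (f := ε) (fun i _ => hε i) 2 ?_
    intro a _
    by_contra hcon
    push Not at hcon
    obtain ⟨i, hi, j, hj, l, hl, hij, hil, hjl⟩ := Finset.two_lt_card.mp hcon
    simp only [Finset.mem_filter, Finset.mem_univ, true_and] at hi hj hl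
    rcases lt_or_gt_of_ne hij with a1 | a1 <;> rcases lt_or_gt_of_ne hil with a2 | a2 <;>
      rcases lt_or_gt_of_ne hjl with a3 | a3
    · exact hkk i j l a1 a3 (hi.trans hj.symm) (hl.trans hj.symm)
    · exact hkk i l j a2 a3 (hi.trans hl.symm) (hj.trans hl.symm)
    · exact hkk i j l a1 a3 (hi.trans hj.symm) (hl.trans hj.symm)
    · exact hkk l i j a2 a1 (hl.trans hi.symm) (hj.trans hi.symm)
    · exact hkk j i l a1 a2 (hj.trans hi.symm) (hl.trans hi.symm)
    · exact hkk l j i a3 a1 (hl.trans hj.symm) (hi.trans hj.symm)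
    · exact hkk j l i a3 a2 (hj.trans hl.symm) (hi.trans hl.symm)
    · exact hkk l j i a3 a1 (hl.trans hj.symm) (hi.trans hj.symm)
  rw [Finset.card_univ, Fintype.card_fin] at hcard
  omega

end TPH
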