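import Pool.Agent.TPH.TrA

/-!
# Three parallel hyperplanes: the count of all non-simplex facets by the flats (abstract part)
-/

set_option autoImplicit false

namespace TPH

namespace Tr

variable {V : Finset (E × ℝ)} {ι : Type*} {G : Finset ι} {u : ι → E} {s q : ι → ℝ}

/-- The value on the projected layer. -/
theorem ip_of_mem {t k : ℝ} {u : E} {s q : ℝ} (hk : 0 < k)
    (hnn : ∀ v ∈ V, val u s v ≤ q) (h0 : (zer V t u s q).Nonempty) {a : E}
    (ha : a ∈ Mx (img V t k) u) : ip a u = k * (q - s * t) := by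
  classical
  rw [Mx_img hk hnn h0, Finset.mem_image] at ha
  obtain ⟨v, hv, rfl⟩ := ha
  rw [mem_zer] at hv
  rw [ip_smul_left, ← hv.2.2, val, hv.2.1]
  ring

/-- The flat of a facet with two, one, two vertices in the layers. -/
theorem isFlat (D : Data V G u s q) {t₁ t₂ t₃ α β : ℝ} (hα : 0 < α) (hβ : 0 < β)
    (hαβ : α + β = 1) (ht : α * t₁ + β * t₃ = t₂) (h13 : t₁ ≠ t₃)
    (hl : ∀ v ∈ V, v.2 = t₁ ∨ v.2 = t₂ ∨ v.2 = t₃) {g : ι} (hg : g ∈ G)
    (h1 : (zer V t₁ (u g) (s g) (q g)).card = 2) (h2 : (zer V t₂ (u g) (s g) (q g)).card = 1)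
    (h3 : (zer V t₃ (u g) (s g) (q g)).card = 2) :
    ∃ c, Mx (img V t₂ 1) (u g) = {c} ∧
      IsFlat (img V t₁ (2 * α)) (img V t₃ (2 * β)) (img V t₂ 1)
        (Mx (img V t₁ (2 * α)) (u g), c, Mx (img V t₃ (2 * β)) (u g)) (u g) := by
  classical
  have hnn := D.nn g hg
  have k1 : 0 < 2 * α := by linarith
  have k3 : 0 < 2 * β := by linarith
  have n1 : (zer V t₁ (u g) (s g) (q g)).Nonempty := by rw [← Finset.card_pos]; omega
  have n2 : (zer V t₂ (u g) (s g) (q g)).Nonempty := by rw [← Finset.card_pos]; omega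
  have n3 : (zer V t₃ (u g) (s g) (q g)).Nonempty := by rw [← Finset.card_pos]; omega
  have hc2 := card_Mx one_pos hnn n2
  rw [h2] at hc2
  obtain ⟨c, hc⟩ := Finset.card_eq_one.1 hc2
  refine ⟨c, hc, ?_, ?_, rfl, hc, rfl, ?_, ?_⟩
  · show (Mx (img V t₁ (2 * α)) (u g)).card = 2
    rw [card_Mx k1 hnn n1, h1]
  · show (Mx (img V t₃ (2 * β)) (u g)).card = 2
    rw [card_Mx k3 hnn n3, h3]
  · intro a ha b hb
    have e1 := ip_of_mem k1 hnn n1 ha
    have e3 := ip_of_mem k3 hnn n3 hb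
    have e2 := ip_of_mem one_pos hnn n2 (by rw [hc]; simp : c ∈ Mx (img V t₂ 1) (u g))
    show ip a (u g) + ip b (u g) = 2 * ip c (u g)
    rw [e1, e2, e3, ← ht]
    have : β = 1 - α := by linarith
    rw [this]; ring
  · intro v hv1 hv3 hv2
    dsimp only at hv1 hv3 hv2
    obtain ⟨x, hx⟩ := n1
    obtain ⟨y, hy⟩ := n3
    have hx' := mem_zer.1 hx
    have hy' := mem_zer.1 hy
    have hxM : (2 * α) • x.1 ∈ Mx (img V t₁ (2 * α)) (u g) :=
      (mem_Mx_img k1 hnn ⟨x, hx⟩ (mem_lay.2 ⟨hx'.1, hx'.2.1⟩)).2 hx'.2.2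
    have hyM : (2 * β) • y.1 ∈ Mx (img V t₃ (2 * β)) (u g) :=
      (mem_Mx_img k3 hnn ⟨y, hy⟩ (mem_lay.2 ⟨hy'.1, hy'.2.1⟩)).2 hy'.2.2
    -- solve for the height coefficient
    set s' : ℝ := (ip x.1 v - ip y.1 v) / (t₃ - t₁) with hs'
    set q' : ℝ := ip x.1 v + s' * t₁ with hq'
    have ht31 : t₃ - t₁ ≠ 0 := sub_ne_zero.2 h13.symm
    have hs1 : s' * (t₃ - t₁) = ip x.1 v - ip y.1 v := by rw [hs', div_mul_cancel₀ _ ht31]
    have hq3 : ip y.1 v + s' * t₃ = q' := by rw [hq']; linarith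
    have hz : ∀ w ∈ V, val (u g) (s g) w = q g → val v s' w = q' := by
      intro w hw hw0
      rcases hl w hw with h | h | h
      · have hwM : (2 * α) • w.1 ∈ Mx (img V t₁ (2 * α)) (u g) :=
          (mem_Mx_img k1 hnn ⟨x, hx⟩ (mem_lay.2 ⟨hw, h⟩)).2 hw0
        have e := hv1 _ hwM _ hxM
        rw [ip_smul_left, ip_smul_left] at e
        have e' := mul_left_cancel₀ k1.ne' e
        rw [val, h, e']
      · have hwM : (1 : ℝ) • w.1 ∈ Mx (img V t₂ 1) (u g) :=
          (mem_Mx_img one_pos hnn n2 (mem_lay.2 ⟨hw, h⟩)).2 hw0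
        rw [hc, Finset.mem_singleton, one_smul] at hwM
        have e := hv2 _ hxM _ hyM
        rw [ip_smul_left, ip_smul_left, ← hwM] at e
        rw [val, h, ← ht]
        have e1 : ip w.1 v = α * ip x.1 v + β * ip y.1 v := by linarith
        rw [e1]
        have e2 : ip y.1 v = q' - s' * t₃ := by linarith
        have e3 : ip x.1 v = q' - s' * t₁ := by rw [hq']; ring
        rw [e2, e3]
        have : β = 1 - α := by linarith
        rw [this]; ring
      · have hwM : (2 * β) • w.1 ∈ Mx (img V t₃ (2 * β)) (u g) :=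
          (mem_Mx_img k3 hnn ⟨y, hy⟩ (mem_lay.2 ⟨hw, h⟩)).2 hw0
        have e := hv3 _ hwM _ hyM
        rw [ip_smul_left, ip_smul_left] at e
        have e' := mul_left_cancel₀ k3.ne' e
        rw [val, h, e']
        exact hq3
    obtain ⟨k, hk, -, -⟩ := D.span g hg v s' q' hz
    exact ⟨k, hk⟩

/-- The facet is determined by the maximisers on the three layers. -/
theorem inj_three (D : Data V G u s q) {t₁ t₂ t₃ k₁ k₂ k₃ : ℝ} (h1 : 0 < k₁) (h2 : 0 < k₂)
    (h3 : 0 < k₃) (hl : ∀ v ∈ V, v.2 = t₁ ∨ v.2 = t₂ ∨ v.2 = t₃) {g g' : ι} (hg : g ∈ G)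
    (hg' : g' ∈ G) (n1 : (zer V t₁ (u g) (s g) (q g)).Nonempty)
    (n2 : (zer V t₂ (u g) (s g) (q g)).Nonempty) (n3 : (zer V t₃ (u g) (s g) (q g)).Nonempty)
    (n1' : (zer V t₁ (u g') (s g') (q g')).Nonempty)
    (n2' : (zer V t₂ (u g') (s g') (q g')).Nonempty)
    (n3' : (zer V t₃ (u g') (s g') (q g')).Nonempty)
    (e1 : Mx (img V t₁ k₁) (u g) = Mx (img V t₁ k₁) (u g'))
    (e2 : Mx (img V t₂ k₂) (u g) = Mx (img V t₂ k₂) (u g'))
    (e3 : Mx (img V t₃ k₃) (u g) = Mx (img V t₃ k₃) (u g')) : g = g' := by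
  refine D.inj g hg g' hg' (fun v hv h0 => ?_)
  have hnn := D.nn g hg
  have hnn' := D.nn g' hg'
  rcases hl v hv with h | h | h
  · rw [← mem_Mx_img h1 hnn' n1' (mem_lay.2 ⟨hv, h⟩), ← e1,
      mem_Mx_img h1 hnn n1 (mem_lay.2 ⟨hv, h⟩)]
    exact h0
  · rw [← mem_Mx_img h2 hnn' n2' (mem_lay.2 ⟨hv, h⟩), ← e2,
      mem_Mx_img h2 hnn n2 (mem_lay.2 ⟨hv, h⟩)]
    exact h0
  · rw [← mem_Mx_img h3 hnn' n3' (mem_lay.2 ⟨hv, h⟩), ← e3,
      mem_Mx_img h3 hnn n3 (mem_lay.2 ⟨hv, h⟩)]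
    exact h0

theorem card_lay {V : Finset (E × ℝ)} {t₁ t₂ t₃ : ℝ} (h12 : t₁ ≠ t₂) (h13 : t₁ ≠ t₃)
    (h23 : t₂ ≠ t₃) (hl : ∀ v ∈ V, v.2 = t₁ ∨ v.2 = t₂ ∨ v.2 = t₃) :
    (lay V t₁).card + (lay V t₂).card + (lay V t₃).card = V.card := by
  classical
  have e : V = lay V t₁ ∪ lay V t₂ ∪ lay V t₃ := by
    ext v
    rw [Finset.mem_union, Finset.mem_union, mem_lay, mem_lay, mem_lay]
    constructor
    · intro hv
      rcases hl v hv with h | h | h
      · exact Or.inl (Or.inl ⟨hv, h⟩)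
      · exact Or.inl (Or.inr ⟨hv, h⟩)
      · exact Or.inr ⟨hv, h⟩
    · rintro ((h | h) | h) <;> exact h.1
  have d1 : Disjoint (lay V t₁) (lay V t₂) := by
    rw [Finset.disjoint_left]
    intro v h h'
    exact h12 ((mem_lay.1 h).2.symm.trans (mem_lay.1 h').2)
  have d2 : Disjoint (lay V t₁ ∪ lay V t₂) (lay V t₃) := by
    rw [Finset.disjoint_left]
    intro v h h'
    rcases Finset.mem_union.1 h with h | h
    · exact h13 ((mem_lay.1 h).2.symm.trans (mem_lay.1 h').2)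
    · exact h23 ((mem_lay.1 h).2.symm.trans (mem_lay.1 h').2)
  conv_rhs => rw [e]
  rw [Finset.card_union_of_disjoint d2, Finset.card_union_of_disjoint d1]

theorem five_le (D : Data V G u s q) {t₁ t₂ t₃ : ℝ}
    (hl : ∀ v ∈ V, v.2 = t₁ ∨ v.2 = t₂ ∨ v.2 = t₃) {g : ι} (hg : g ∈ G) :
    5 ≤ (zer V t₁ (u g) (s g) (q g)).card + (zer V t₂ (u g) (s g) (q g)).card +
      (zer V t₃ (u g) (s g) (q g)).card := by
  classical
  obtain ⟨Z, hZ, hZV⟩ := D.five g hg
  have hsub : Z ⊆ zer V t₁ (u g) (s g) (q g) ∪ zer V t₂ (u g) (s g) (q g) ∪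
      zer V t₃ (u g) (s g) (q g) := by
    intro v hv
    have h1 := hZV v hv
    rw [Finset.mem_union, Finset.mem_union, mem_zer, mem_zer, mem_zer]
    rcases hl v h1.1 with h | h | h
    · exact Or.inl (Or.inl ⟨h1.1, h, h1.2⟩)
    · exact Or.inl (Or.inr ⟨h1.1, h, h1.2⟩)
    · exact Or.inr ⟨h1.1, h, h1.2⟩
  have h1 := Finset.card_le_card hsub
  have h2 := Finset.card_union_le (zer V t₁ (u g) (s g) (q g) ∪ zer V t₂ (u g) (s g) (q g))
    (zer V t₃ (u g) (s g) (q g))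
  have h3 := Finset.card_union_le (zer V t₁ (u g) (s g) (q g)) (zer V t₂ (u g) (s g) (q g))
  omega

/-- The flats count all facets with two, one, two vertices. -/
theorem count_flat (D : Data V G u s q) {t₁ t₂ t₃ α β : ℝ} (hα : 0 < α) (hβ : 0 < β)
    (hαβ : α + β = 1) (ht : α * t₁ + β * t₃ = t₂) (h13 : t₁ ≠ t₃)
    (hl : ∀ v ∈ V, v.2 = t₁ ∨ v.2 = t₂ ∨ v.2 = t₃) (S : Finset ι) (hS : S ⊆ G)
    (h : ∀ g ∈ S, (zer V t₁ (u g) (s g) (q g)).card = 2 ∧
      (zer V t₂ (u g) (s g) (q g)).card = 1 ∧ (zer V t₃ (u g) (s g) (q g)).card = 2) :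
    S.card ≤ (flats (img V t₁ (2 * α)) (img V t₃ (2 * β)) (img V t₂ 1)).card := by
  classical
  have k1 : 0 < 2 * α := by linarith
  have k3 : 0 < 2 * β := by linarith
  set A := img V t₁ (2 * α) with hA
  set B := img V t₃ (2 * β) with hB
  set C := img V t₂ 1 with hC
  have hinj : Set.InjOn (fun g => (Mx A (u g), Mx C (u g), Mx B (u g))) (S : Set ι) := by
    intro g hg g' hg' he
    have e1 : Mx A (u g) = Mx A (u g') := congrArg Prod.fst he
    have e2 : Mx C (u g) = Mx C (u g') := congrArg (fun x => x.2.1) he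
    have e3 : Mx B (u g) = Mx B (u g') := congrArg (fun x => x.2.2) he
    obtain ⟨a1, a2, a3⟩ := h g hg
    obtain ⟨b1, b2, b3⟩ := h g' hg'
    refine inj_three D k1 one_pos k3 hl (hS hg) (hS hg') ?_ ?_ ?_ ?_ ?_ ?_ e1 e2 e3 <;>
    · rw [← Finset.card_pos]; omega
  rw [← Finset.card_image_of_injOn hinj]
  refine (Finset.card_le_card (t := (flats A B C).image (fun x => (x.1, {x.2.1}, x.2.2))) ?_).trans
    Finset.card_image_le
  intro z hz
  obtain ⟨g, hg, rfl⟩ := Finset.mem_image.1 hz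
  obtain ⟨a1, a2, a3⟩ := h g hg
  obtain ⟨c, hc, hflat⟩ := isFlat D hα hβ hαβ ht h13 hl (hS hg) a1 a2 a3
  rw [Finset.mem_image]
  refine ⟨(Mx A (u g), c, Mx B (u g)), mem_flats.2 ⟨u g, hflat⟩, ?_⟩
  show (Mx A (u g), ({c} : Finset E), Mx B (u g)) = (Mx A (u g), Mx C (u g), Mx B (u g))
  rw [hc]

/-- **The abstract translation.** -/
theorem count_all (D : Data V G u s q) (hEL : StmtEdgeLin) {t₁ t₂ t₃ : ℝ} (h12 : t₁ < t₂)
    (h23 : t₂ < t₃) (hl : ∀ v ∈ V, v.2 = t₁ ∨ v.2 = t₂ ∨ v.2 = t₃) :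
    ∃ A B C : Finset E, ConvPos A ∧ ConvPos B ∧ ConvPos C ∧ (∀ c ∈ C, ∃ r, InR A B c r) ∧
      A.card + B.card + C.card = V.card ∧ G.card ≤ (flats A B C).card + 29 * V.card := by
  classical
  have h31 : 0 < t₃ - t₁ := by linarith
  set α : ℝ := (t₃ - t₂) / (t₃ - t₁) with hα'
  set β : ℝ := (t₂ - t₁) / (t₃ - t₁) with hβ'
  have hα : 0 < α := div_pos (by linarith) h31
  have hβ : 0 < β := div_pos (by linarith) h31
  have hαβ : α + β = 1 := by
    rw [hα', hβ', ← add_div, div_eq_one_iff_eq h31.ne']; ring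
  have ht : α * t₁ + β * t₃ = t₂ := by
    rw [hα', hβ']
    field_simp
    ring
  have k1 : 0 < 2 * α := by linarith
  have k3 : 0 < 2 * β := by linarith
  have h13 : t₁ ≠ t₃ := by intro h; linarith
  have hcl := card_lay (V := V) h12.ne h13 h23.ne hl
  refine ⟨img V t₁ (2 * α), img V t₃ (2 * β), img V t₂ 1, convPos_img k1 D.exp,
    convPos_img k3 D.exp, convPos_img one_pos D.exp,
    exists_inR hα hβ hαβ ht h12.ne h23.ne' D.exp, ?_, ?_⟩
  · rw [card_img k1, card_img k3, card_img one_pos]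
    omega
  rcases G.eq_empty_or_nonempty with hG | ⟨g0, hg0⟩
  · rw [hG, Finset.card_empty]; exact Nat.zero_le _
  have hV5 : 5 ≤ V.card := by
    obtain ⟨Z, hZ, hZV⟩ := D.five g0 hg0
    exact hZ.trans (Finset.card_le_card (fun v hv => (hZV v hv).1))
  set z₁ : ι → ℕ := fun g => (zer V t₁ (u g) (s g) (q g)).card with hz₁
  set z₂ : ι → ℕ := fun g => (zer V t₂ (u g) (s g) (q g)).card with hz₂
  set z₃ : ι → ℕ := fun g => (zer V t₃ (u g) (s g) (q g)).card with hz₃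
  have hz5 : ∀ g ∈ G, 5 ≤ z₁ g + z₂ g + z₃ g := fun g hg => five_le D hl hg
  set G0 := G.filter (fun g => u g = 0) with hG0
  set GA := G.filter (fun g => u g ≠ 0 ∧ 3 ≤ z₁ g) with hGA
  set GB := G.filter (fun g => u g ≠ 0 ∧ 3 ≤ z₃ g) with hGB
  set GC := G.filter (fun g => u g ≠ 0 ∧ 3 ≤ z₂ g) with hGC
  set GM := G.filter (fun g => z₂ g = 2 ∧ 1 ≤ z₁ g ∧ 1 ≤ z₃ g ∧ z₁ g ≤ 2 ∧ z₃ g ≤ 2) with hGM
  set GF := G.filter (fun g => z₁ g = 2 ∧ z₂ g = 1 ∧ z₃ g = 2) with hGF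
  have hcover : G ⊆ G0 ∪ GA ∪ GB ∪ GC ∪ GM ∪ GF := by
    intro g hg
    have h5 := hz5 g hg
    simp only [Finset.mem_union, hG0, hGA, hGB, hGC, hGM, hGF, Finset.mem_filter]
    by_cases hu : u g = 0
    · exact Or.inl (Or.inl (Or.inl (Or.inl (Or.inl ⟨hg, hu⟩))))
    · by_cases h1 : 3 ≤ z₁ g
      · exact Or.inl (Or.inl (Or.inl (Or.inl (Or.inr ⟨hg, hu, h1⟩))))
      · by_cases h3 : 3 ≤ z₃ g
        · exact Or.inl (Or.inl (Or.inl (Or.inr ⟨hg, hu, h3⟩)))
        · by_cases h2 : 3 ≤ z₂ g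
          · exact Or.inl (Or.inl (Or.inr ⟨hg, hu, h2⟩))
          · by_cases h2' : z₂ g = 2
            · exact Or.inl (Or.inr ⟨hg, h2', by omega, by omega, by omega, by omega⟩)
            · exact Or.inr ⟨hg, by omega, by omega, by omega⟩
  have c0 : G0.card ≤ 3 := count_zero D hl G0 (Finset.filter_subset _ _)
    (fun g hg => (Finset.mem_filter.1 hg).2)
  have cA : GA.card ≤ 4 * (lay V t₁).card := count_three D hEL one_pos GA
    (Finset.filter_subset _ _) (fun g hg => (Finset.mem_filter.1 hg).2.1)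
    (fun g hg => (Finset.mem_filter.1 hg).2.2)
  have cB : GB.card ≤ 4 * (lay V t₃).card := count_three D hEL one_pos GB
    (Finset.filter_subset _ _) (fun g hg => (Finset.mem_filter.1 hg).2.1)
    (fun g hg => (Finset.mem_filter.1 hg).2.2)
  have cC : GC.card ≤ 4 * (lay V t₂).card := count_three D hEL one_pos GC
    (Finset.filter_subset _ _) (fun g hg => (Finset.mem_filter.1 hg).2.1)
    (fun g hg => (Finset.mem_filter.1 hg).2.2)
  have cF : GF.card ≤ (flats (img V t₁ (2 * α)) (img V t₃ (2 * β)) (img V t₂ 1)).card :=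
    count_flat D hα hβ hαβ ht h13 hl GF (Finset.filter_subset _ _)
      (fun g hg => (Finset.mem_filter.1 hg).2)
  have cM : GM.card ≤ 24 * V.card := by
    by_cases h3 : 3 ≤ (lay V t₂).card
    · have := count_mid D hEL h12 h23 h3 GM (Finset.filter_subset _ _)
        (fun g hg => (Finset.mem_filter.1 hg).2.1)
        (fun g hg => by
          rw [← Finset.card_pos]
          exact (Finset.mem_filter.1 hg).2.2.1)
        (fun g hg => by
          rw [← Finset.card_pos]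
          exact (Finset.mem_filter.1 hg).2.2.2.1)
      omega
    · rcases GM.eq_empty_or_nonempty with hM | ⟨g1, hg1⟩
      · rw [hM, Finset.card_empty]; exact Nat.zero_le _
      have hzl : ∀ g ∈ GM, zer V t₂ (u g) (s g) (q g) = lay V t₂ := by
        intro g hg
        apply Finset.eq_of_subset_of_card_le
        · intro v hv
          rw [mem_zer] at hv
          exact mem_lay.2 ⟨hv.1, hv.2.1⟩
        · have h1 : z₂ g = 2 := (Finset.mem_filter.1 hg).2.1
          have h2 : (zer V t₂ (u g) (s g) (q g)).card = 2 := h1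
          rw [h2]; omega
      have h2 : (zer V t₂ (u g1) (s g1) (q g1)).card = 2 := (Finset.mem_filter.1 hg1).2.1
      obtain ⟨w, hw⟩ := Finset.card_pos.1 (by rw [h2]; norm_num :
        0 < (zer V t₂ (u g1) (s g1) (q g1)).card)
      have hwl : w ∈ lay V t₂ := by rw [← hzl g1 hg1]; exact hw
      have hw0 : ∀ g ∈ GM, val (u g) (s g) w = q g := by
        intro g hg
        have : w ∈ zer V t₂ (u g) (s g) (q g) := by rw [hzl g hg]; exact hwl
        exact (mem_zer.1 this).2.2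
      have hcov : GM ⊆ GM.filter (fun g => z₁ g = 2) ∪ GM.filter (fun g => z₃ g = 2) := by
        intro g hg
        have hg' := Finset.mem_filter.1 hg
        have h5 := hz5 g hg'.1
        obtain ⟨-, a1, a2, a3, a4, a5⟩ := hg'
        by_cases h : z₁ g = 2
        · exact Finset.mem_union.2 (Or.inl (Finset.mem_filter.2 ⟨hg, h⟩))
        · exact Finset.mem_union.2 (Or.inr (Finset.mem_filter.2 ⟨hg, by omega⟩))
      have m1 := count_edge D hEL (t := t₁) one_pos w (mem_lay.1 hwl).1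
        (by rw [(mem_lay.1 hwl).2]; exact h12.ne') (GM.filter (fun g => z₁ g = 2))
        ((Finset.filter_subset _ _).trans (Finset.filter_subset _ _))
        (fun g hg => (Finset.mem_filter.1 hg).2)
        (fun g hg => hw0 g (Finset.mem_filter.1 hg).1)
      have m3 := count_edge D hEL (t := t₃) one_pos w (mem_lay.1 hwl).1
        (by rw [(mem_lay.1 hwl).2]; exact h23.ne) (GM.filter (fun g => z₃ g = 2))
        ((Finset.filter_subset _ _).trans (Finset.filter_subset _ _))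
        (fun g hg => (Finset.mem_filter.1 hg).2)
        (fun g hg => hw0 g (Finset.mem_filter.1 hg).1)
      have m := (Finset.card_le_card hcov).trans (Finset.card_union_le _ _)
      omega
  have c1 := (Finset.card_le_card hcover).trans (Finset.card_union_le _ _)
  have c2 := Finset.card_union_le (G0 ∪ GA ∪ GB ∪ GC) GM
  have c3 := Finset.card_union_le (G0 ∪ GA ∪ GB) GC
  have c4 := Finset.card_union_le (G0 ∪ GA) GB
  have c5 := Finset.card_union_le G0 GA
  omega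

end Tr

end TPH
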