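import Pool.Agent.Lib_helper55.SharpPlane2

/-!
# Three parallel hyperplanes: 4-polytopes with many non-simplex facets

The vertices `pa k`, `pb k`, `pc s t` have the last coordinates `0`, `1`, `1/2`.  The nodes `nd q j`
are `-1` and the numbers `3 s + √((i + 1) / (q + 1))`.
-/

set_option autoImplicit false

namespace TPH

namespace Low

open Module SharpPlane

/-- The space `ℝ⁴`. -/
abbrev E4 : Type := EuclideanSpace ℝ (Fin 4)

/-! ### the nodes -/

/-- the numbers in the unit interval -/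
noncomputable def av (q i : ℕ) : ℝ := √(((i : ℝ) + 1) / (q + 1))

/-- the nodes -/
noncomputable def nd (q : ℕ) : ℕ → ℝ
  | 0 => -1
  | j + 1 => 3 * (j / q : ℕ) + av q (j % q)

theorem av_sq (q i : ℕ) : av q i ^ 2 = ((i : ℝ) + 1) / (q + 1) := Real.sq_sqrt (by positivity)

theorem av_pos (q i : ℕ) : 0 < av q i := Real.sqrt_pos.2 (by positivity)

theorem av_lt {q i : ℕ} (h : i < q) : av q i < 1 := by
  unfold av
  rw [Real.sqrt_lt' one_pos, one_pow, div_lt_one (by positivity)]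
  have : (i : ℝ) < q := by exact_mod_cast h
  linarith

theorem av_mono {q i i' : ℕ} (h : i < i') : av q i < av q i' := by
  unfold av
  apply Real.sqrt_lt_sqrt (by positivity)
  have : (i : ℝ) < i' := by exact_mod_cast h
  gcongr

theorem av_add {q i : ℕ} (h : i < q) : av q i ^ 2 + av q (q - 1 - i) ^ 2 = 1 := by
  rw [av_sq, av_sq]
  have h4 : ((q - 1 - i : ℕ) : ℝ) = q - 1 - i := by
    rw [Nat.cast_sub (by omega), Nat.cast_sub (by omega), Nat.cast_one]
  rw [h4]
  have h5 : (q : ℝ) + 1 ≠ 0 := by positivity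
  field_simp
  ring

theorem nd_block {q : ℕ} (s : ℕ) {i : ℕ} (hi : i < q) :
    nd q (s * q + i + 1) = 3 * s + av q i := by
  have hq : 0 < q := by omega
  have e1 : (s * q + i) / q = s := by
    rw [mul_comm, Nat.mul_add_div hq, Nat.div_eq_of_lt hi, add_zero]
  have e2 : (s * q + i) % q = i := by
    rw [mul_comm, Nat.mul_add_mod, Nat.mod_eq_of_lt hi]
  show 3 * (((s * q + i) / q : ℕ) : ℝ) + av q ((s * q + i) % q) = _
  rw [e1, e2]

theorem nd_succ_pos (q j : ℕ) : 0 < nd q (j + 1) := by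
  show 0 < 3 * ((j / q : ℕ) : ℝ) + av q (j % q)
  have := av_pos q (j % q)
  positivity

theorem nd_lt {q : ℕ} (hq : 0 < q) (j : ℕ) : nd q j < nd q (j + 1) := by
  rcases j with _ | j
  · have h1 := nd_succ_pos q 0
    have h2 : nd q 0 = -1 := rfl
    rw [h2]
    linarith
  · show 3 * ((j / q : ℕ) : ℝ) + av q (j % q) < 3 * (((j + 1) / q : ℕ) : ℝ) + av q ((j + 1) % q)
    have hm := Nat.mod_lt j hq
    by_cases hlt : j % q + 1 < q
    · have e1 : (j + 1) % q = j % q + 1 := by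
        rw [Nat.add_mod, Nat.mod_eq_of_lt (show 1 < q by omega), Nat.mod_eq_of_lt hlt]
      have e2 : (j + 1) / q = j / q := by
        apply Nat.div_eq_of_lt_le
        · have := Nat.div_mul_le_self j q
          omega
        · have := Nat.div_add_mod j q
          rw [Nat.add_mul, one_mul, mul_comm]
          omega
      rw [e1, e2]
      have := av_mono (q := q) (Nat.lt_succ_self (j % q))
      linarith
    · have e3 : j % q + 1 = q := by omega
      have e2 : (j + 1) / q = j / q + 1 := by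
        have h2 := Nat.div_add_mod j q
        have h3 : j + 1 = (j / q + 1) * q := by
          rw [Nat.add_mul, one_mul, mul_comm (j / q) q]
          omega
        rw [h3, Nat.mul_div_cancel _ hq]
      have h4 := av_lt hm
      have h5 := av_pos q ((j + 1) % q)
      rw [e2]
      push_cast
      linarith

theorem nd_mono {q : ℕ} (hq : 0 < q) : StrictMono (nd q) := strictMono_nat_of_lt_succ (nd_lt hq)

/-- the product of two consecutive nodes -/
theorem nd_mul {q : ℕ} (hq : 0 < q) (k : ℕ) : -(nd q k * nd q (k + 1)) ≤ 1 := by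
  rcases k with _ | k
  · have h0 : nd q 0 = -1 := rfl
    have h1 : nd q 1 = 3 * ((0 / q : ℕ) : ℝ) + av q (0 % q) := rfl
    rw [Nat.zero_div, Nat.zero_mod, Nat.cast_zero, mul_zero, zero_add] at h1
    have h2 := av_lt hq
    show -(nd q 0 * nd q 1) ≤ 1
    rw [h0, h1]
    linarith
  · have h1 := nd_succ_pos q k
    have h2 := nd_succ_pos q (k + 1)
    have := mul_pos h1 h2
    linarith

theorem prod_nonneg {q : ℕ} (hq : 0 < q) (j k : ℕ) :
    0 ≤ (nd q j - nd q k) * (nd q j - nd q (k + 1)) := by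
  rcases le_or_gt j k with h | h
  · have h1 := (nd_mono hq).monotone h
    have h2 := (nd_mono hq).monotone (show j ≤ k + 1 by omega)
    exact mul_nonneg_of_nonpos_of_nonpos (by linarith) (by linarith)
  · have h1 := (nd_mono hq).monotone h.le
    have h2 := (nd_mono hq).monotone (show k + 1 ≤ j by omega)
    exact mul_nonneg (by linarith) (by linarith)

theorem prod_eq_zero {q : ℕ} (hq : 0 < q) {j k : ℕ} :
    (nd q j - nd q k) * (nd q j - nd q (k + 1)) = 0 ↔ j = k ∨ j = k + 1 := by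
  rw [mul_eq_zero, sub_eq_zero, sub_eq_zero, (nd_mono hq).injective.eq_iff,
    (nd_mono hq).injective.eq_iff]

/-- the middle between two nodes -/
noncomputable def md (q k : ℕ) : ℝ := (nd q k + nd q (k + 1)) / 2

theorem md_self {q : ℕ} (hq : 0 < q) (k : ℕ) : (md q k - nd q k) * (md q k - nd q (k + 1)) < 0 := by
  have h := nd_lt hq k
  unfold md
  have h1 : (nd q k + nd q (k + 1)) / 2 - nd q k = (nd q (k + 1) - nd q k) / 2 := by ring
  have h2 : (nd q k + nd q (k + 1)) / 2 - nd q (k + 1) = -((nd q (k + 1) - nd q k) / 2) := by ring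
  rw [h1, h2]
  have : 0 < (nd q (k + 1) - nd q k) / 2 := by linarith
  nlinarith

theorem md_other {q : ℕ} (hq : 0 < q) {k k' : ℕ} (hne : k' ≠ k) :
    0 < (md q k - nd q k') * (md q k - nd q (k' + 1)) := by
  have h := nd_lt hq k
  have h' := nd_lt hq k'
  have e1 : nd q k < md q k := by unfold md; linarith
  have e2 : md q k < nd q (k + 1) := by unfold md; linarith
  rcases lt_or_gt_of_ne hne with hlt | hlt
  · have h1 := (nd_mono hq).monotone (show k' + 1 ≤ k by omega)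
    exact mul_pos (by linarith) (by linarith)
  · have h1 := (nd_mono hq).monotone (show k + 1 ≤ k' by omega)
    exact mul_pos_of_neg_of_neg (by linarith) (by linarith)

/-! ### the points -/

/-- points of `ℝ⁴` -/
def mk (a b c d : ℝ) : E4 := !₂[a, b, c, d]

/-- functionals on `ℝ⁴` -/
noncomputable def fn (a b c d : ℝ) : E4 →L[ℝ] ℝ :=
  a • EuclideanSpace.proj (0 : Fin 4) + b • EuclideanSpace.proj (1 : Fin 4) +
    c • EuclideanSpace.proj (2 : Fin 4) + d • EuclideanSpace.proj (3 : Fin 4)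

theorem fn_mk (a b c d x y z w : ℝ) : fn a b c d (mk x y z w) = a * x + b * y + c * z + d * w := by
  simp [fn, mk]

/-- the points in the layer `0` -/
noncomputable def pa (q k : ℕ) : E4 := mk (nd q k + nd q (k + 1)) 0 (-(nd q k * nd q (k + 1))) 0
/-- the points in the layer `1` -/
noncomputable def pb (q k : ℕ) : E4 := mk 0 (nd q k + nd q (k + 1)) (-(nd q k * nd q (k + 1))) 1
/-- the points in the layer `1/2` -/
noncomputable def pc (z : ℕ × ℕ) : E4 :=
  mk (3 * z.1) (3 * z.2) ((1 - 9 * (z.1 : ℝ) ^ 2 - 9 * (z.2 : ℝ) ^ 2) / 2) (1 / 2)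

open Classical in
/-- the vertices -/
noncomputable def VV (q m l : ℕ) : Finset E4 :=
  (Finset.range m).image (pa q) ∪ ((Finset.range l).image (pb q) ∪
    (Finset.range q ×ˢ Finset.range q).image pc)

theorem mem_VV {q m l : ℕ} {v : E4} : v ∈ VV q m l ↔ (∃ k, k < m ∧ pa q k = v) ∨
    (∃ k, k < l ∧ pb q k = v) ∨ ∃ s t, s < q ∧ t < q ∧ pc (s, t) = v := by
  unfold VV
  simp only [Finset.mem_union, Finset.mem_image, Finset.mem_range, Finset.mem_product,
    Prod.exists, and_assoc]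

/-- the functional of the pair `(x,y)` -/
noncomputable def fxy (x y : ℝ) : E4 →L[ℝ] ℝ := fn x y 1 (x ^ 2 - y ^ 2)

theorem fxy_a (x y : ℝ) (q k : ℕ) :
    fxy x y (pa q k) = x ^ 2 - (x - nd q k) * (x - nd q (k + 1)) := by
  unfold fxy pa
  rw [fn_mk]
  ring

theorem fxy_b (x y : ℝ) (q k : ℕ) :
    fxy x y (pb q k) = x ^ 2 - (y - nd q k) * (y - nd q (k + 1)) := by
  unfold fxy pb
  rw [fn_mk]
  ring

theorem fxy_c (x y : ℝ) (z : ℕ × ℕ) :
    fxy x y (pc z) = x ^ 2 + (1 - (x - 3 * z.1) ^ 2 - (y - 3 * z.2) ^ 2) / 2 := by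
  unfold fxy pc
  rw [fn_mk]
  ring

/-- different blocks are far away -/
theorem far {q s s' i : ℕ} (hi : i < q) (hne : s' ≠ s) :
    1 < (nd q (s * q + i + 1) - 3 * (s' : ℝ)) ^ 2 := by
  rw [nd_block s hi]
  have h1 := av_pos q i
  have h2 := av_lt hi
  rcases lt_or_gt_of_ne hne with h | h
  · have h3 : (s' : ℝ) + 1 ≤ s := by exact_mod_cast h
    nlinarith
  · have h3 : (s : ℝ) + 1 ≤ s' := by exact_mod_cast h
    nlinarith

theorem c_lt {q s t i j s' t' : ℕ} (hi : i < q) (hj : j < q) (hne : ¬ (s' = s ∧ t' = t)) :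
    fxy (nd q (s * q + i + 1)) (nd q (t * q + j + 1)) (pc (s', t')) <
      nd q (s * q + i + 1) ^ 2 := by
  rw [fxy_c]
  by_cases h : s' = s
  · have h1 := far (q := q) (s := t) (s' := t') hj (by tauto)
    have h2 := sq_nonneg (nd q (s * q + i + 1) - 3 * (s' : ℝ))
    dsimp only
    linarith
  · have h1 := far (q := q) (s := s) (s' := s') hi h
    have h2 := sq_nonneg (nd q (t * q + j + 1) - 3 * (t' : ℝ))
    dsimp only
    linarith

/-- on the circle -/
theorem c_eq {q s t i : ℕ} (hi : i < q) :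
    fxy (nd q (s * q + i + 1)) (nd q (t * q + (q - 1 - i) + 1)) (pc (s, t)) =
      nd q (s * q + i + 1) ^ 2 := by
  rw [fxy_c, nd_block s hi, nd_block t (show q - 1 - i < q by omega)]
  have h := av_add hi
  dsimp only
  linear_combination (-(1 / 2 : ℝ)) * h

/-- inside the circle -/
theorem c_gt {q s t : ℕ} (hq : 2 ≤ q) :
    nd q (s * q + 0 + 1) ^ 2 < fxy (nd q (s * q + 0 + 1)) (nd q (t * q + 0 + 1)) (pc (s, t)) := by
  rw [fxy_c, nd_block s (show 0 < q by omega), nd_block t (show 0 < q by omega)]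
  have h1 : av q 0 ^ 2 < 1 / 2 := by
    rw [av_sq, div_lt_div_iff₀ (by positivity) (by norm_num)]
    have : (2 : ℝ) ≤ q := by exact_mod_cast hq
    push_cast
    linarith
  dsimp only
  nlinarith

theorem expd {q : ℕ} (hq : 2 ≤ q) (m l : ℕ) : Expd (VV q m l) := by
  have hq0 : 0 < q := by omega
  intro v hv
  rw [mem_VV] at hv
  rcases hv with ⟨k, hk, rfl⟩ | ⟨k, hk, rfl⟩ | ⟨s, t, hs, ht, rfl⟩
  · refine ⟨fn (md q k) 0 1 (-2), ?_⟩
    have hv : fn (md q k) 0 1 (-2) (pa q k) =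
        md q k ^ 2 - (md q k - nd q k) * (md q k - nd q (k + 1)) := by
      unfold pa
      rw [fn_mk]
      ring
    have hs := md_self hq0 k
    have hsq := sq_nonneg (md q k)
    intro w hw hne
    rw [hv]
    rw [mem_VV] at hw
    rcases hw with ⟨k', hk', rfl⟩ | ⟨k', hk', rfl⟩ | ⟨s', t', hs', ht', rfl⟩
    · have h1 := md_other hq0 (k := k) (k' := k') (by rintro rfl; exact hne rfl)
      have h2 : fn (md q k) 0 1 (-2) (pa q k') =
          md q k ^ 2 - (md q k - nd q k') * (md q k - nd q (k' + 1)) := by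
        unfold pa
        rw [fn_mk]
        ring
      rw [h2]
      linarith
    · have h1 := nd_mul hq0 k'
      unfold pb
      rw [fn_mk]
      linarith
    · unfold pc
      rw [fn_mk]
      dsimp only
      have h1 := sq_nonneg (md q k - 3 * (s' : ℝ))
      have h2 := sq_nonneg (t' : ℝ)
      nlinarith
  · refine ⟨fn 0 (md q k) 1 2, ?_⟩
    have hv : fn 0 (md q k) 1 2 (pb q k) =
        md q k ^ 2 - (md q k - nd q k) * (md q k - nd q (k + 1)) + 2 := by
      unfold pb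
      rw [fn_mk]
      ring
    have hs := md_self hq0 k
    have hsq := sq_nonneg (md q k)
    intro w hw hne
    rw [hv]
    rw [mem_VV] at hw
    rcases hw with ⟨k', hk', rfl⟩ | ⟨k', hk', rfl⟩ | ⟨s', t', hs', ht', rfl⟩
    · have h1 := nd_mul hq0 k'
      unfold pa
      rw [fn_mk]
      linarith
    · have h1 := md_other hq0 (k := k) (k' := k') (by rintro rfl; exact hne rfl)
      have h2 : fn 0 (md q k) 1 2 (pb q k') =
          md q k ^ 2 - (md q k - nd q k') * (md q k - nd q (k' + 1)) + 2 := by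
        unfold pb
        rw [fn_mk]
        ring
      rw [h2]
      linarith
    · unfold pc
      rw [fn_mk]
      dsimp only
      have h1 := sq_nonneg (md q k - 3 * (t' : ℝ))
      have h2 := sq_nonneg (s' : ℝ)
      nlinarith
  · refine ⟨fxy (nd q (s * q + 0 + 1)) (nd q (t * q + 0 + 1)), ?_⟩
    intro w hw hne
    refine lt_of_le_of_lt ?_ (c_gt (s := s) (t := t) hq)
    rw [mem_VV] at hw
    rcases hw with ⟨k', hk', rfl⟩ | ⟨k', hk', rfl⟩ | ⟨s', t', hs', ht', rfl⟩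
    · rw [fxy_a]
      have := prod_nonneg hq0 (s * q + 0 + 1) k'
      linarith
    · rw [fxy_b]
      have := prod_nonneg hq0 (t * q + 0 + 1) k'
      linarith
    · refine (c_lt hq0 hq0 ?_).le
      rintro ⟨rfl, rfl⟩
      exact hne rfl

/-! ### different points -/

theorem mk_inj {a b c d a' b' c' d' : ℝ} (h : mk a b c d = mk a' b' c' d') :
    a = a' ∧ b = b' ∧ c = c' ∧ d = d' := by
  have h0 := congrFun (congrArg (fun v : E4 => v.ofLp) h) 0
  have h1 := congrFun (congrArg (fun v : E4 => v.ofLp) h) 1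
  have h2 := congrFun (congrArg (fun v : E4 => v.ofLp) h) 2
  have h3 := congrFun (congrArg (fun v : E4 => v.ofLp) h) 3
  simp [mk] at h0 h1 h2 h3
  exact ⟨h0, h1, h2, h3⟩

theorem sum_inj {q : ℕ} (hq : 0 < q) {k k' : ℕ} (h : nd q k + nd q (k + 1) = nd q k' + nd q (k' + 1)) :
    k = k' := by
  rcases lt_trichotomy k k' with h1 | h1 | h1
  · have a1 := nd_mono hq h1
    have a2 := nd_mono hq (show k + 1 < k' + 1 by omega)
    linarith
  · exact h1
  · have a1 := nd_mono hq h1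
    have a2 := nd_mono hq (show k' + 1 < k + 1 by omega)
    linarith

theorem pa_inj {q : ℕ} (hq : 0 < q) {k k' : ℕ} (h : pa q k = pa q k') : k = k' :=
  sum_inj hq (mk_inj h).1

theorem pb_inj {q : ℕ} (hq : 0 < q) {k k' : ℕ} (h : pb q k = pb q k') : k = k' :=
  sum_inj hq (mk_inj h).2.1

theorem pc_inj {z z' : ℕ × ℕ} (h : pc z = pc z') : z = z' := by
  obtain ⟨h1, h2, -, -⟩ := mk_inj h
  have e1 : (z.1 : ℝ) = z'.1 := by linarith
  have e2 : (z.2 : ℝ) = z'.2 := by linarith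
  exact Prod.ext (by exact_mod_cast e1) (by exact_mod_cast e2)

theorem pa_ne_pb (q k k' : ℕ) : pa q k ≠ pb q k' := by
  intro h
  have := (mk_inj h).2.2.2
  norm_num at this

theorem pa_ne_pc (q k : ℕ) (z : ℕ × ℕ) : pa q k ≠ pc z := by
  intro h
  have := (mk_inj h).2.2.2
  norm_num at this

theorem pb_ne_pc (q k : ℕ) (z : ℕ × ℕ) : pb q k ≠ pc z := by
  intro h
  have := (mk_inj h).2.2.2
  norm_num at this

theorem card_VV {q : ℕ} (hq : 0 < q) (m l : ℕ) : (VV q m l).card = m + (l + q * q) := by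
  classical
  unfold VV
  rw [Finset.card_union_of_disjoint, Finset.card_union_of_disjoint, Finset.card_image_of_injOn,
    Finset.card_image_of_injOn, Finset.card_image_of_injOn, Finset.card_range,
    Finset.card_range, Finset.card_product, Finset.card_range]
  · intro z _ z' _ h
    exact pc_inj h
  · intro k _ k' _ h
    exact pb_inj hq h
  · intro k _ k' _ h
    exact pa_inj hq h
  · rw [Finset.disjoint_left]
    intro v hv hv'
    simp only [Finset.mem_image] at hv hv'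
    obtain ⟨k, _, rfl⟩ := hv
    obtain ⟨z, _, h⟩ := hv'
    exact pb_ne_pc _ _ _ h.symm
  · rw [Finset.disjoint_left]
    intro v hv hv'
    simp only [Finset.mem_image, Finset.mem_union] at hv hv'
    obtain ⟨k, _, rfl⟩ := hv
    rcases hv' with ⟨k', _, h⟩ | ⟨z, _, h⟩
    · exact pa_ne_pb _ _ _ h.symm
    · exact pa_ne_pc _ _ _ h.symm

/-! ### the facets -/

/-- the functional of a facet, with the value `1` on the facet -/
noncomputable def ff (q : ℕ) (z : ℕ × ℕ × ℕ) : E4 →L[ℝ] ℝ :=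
  (nd q (z.1 * q + z.2.2 + 1) ^ 2)⁻¹ •
    fxy (nd q (z.1 * q + z.2.2 + 1)) (nd q (z.2.1 * q + (q - 1 - z.2.2) + 1))

theorem ff_apply (q : ℕ) (z : ℕ × ℕ × ℕ) (v : E4) : ff q z v =
    (nd q (z.1 * q + z.2.2 + 1) ^ 2)⁻¹ *
      fxy (nd q (z.1 * q + z.2.2 + 1)) (nd q (z.2.1 * q + (q - 1 - z.2.2) + 1)) v := rfl

theorem ff_le_iff (q : ℕ) (z : ℕ × ℕ × ℕ) (v : E4) : ff q z v ≤ 1 ↔
    fxy (nd q (z.1 * q + z.2.2 + 1)) (nd q (z.2.1 * q + (q - 1 - z.2.2) + 1)) v ≤
      nd q (z.1 * q + z.2.2 + 1) ^ 2 := by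
  have h := pow_pos (nd_succ_pos q (z.1 * q + z.2.2)) 2
  rw [ff_apply, inv_mul_le_iff₀ h, mul_one]

theorem ff_eq_iff (q : ℕ) (z : ℕ × ℕ × ℕ) (v : E4) : ff q z v = 1 ↔
    fxy (nd q (z.1 * q + z.2.2 + 1)) (nd q (z.2.1 * q + (q - 1 - z.2.2) + 1)) v =
      nd q (z.1 * q + z.2.2 + 1) ^ 2 := by
  have h := pow_pos (nd_succ_pos q (z.1 * q + z.2.2)) 2
  rw [ff_apply, inv_mul_eq_iff_eq_mul₀ h.ne', mul_one]

theorem ff_le {q : ℕ} (hq : 0 < q) (m l : ℕ) {z : ℕ × ℕ × ℕ} (hi : z.2.2 < q) :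
    ∀ v ∈ VV q m l, ff q z v ≤ 1 := by
  intro v hv
  rw [ff_le_iff]
  rw [mem_VV] at hv
  rcases hv with ⟨k, hk, rfl⟩ | ⟨k, hk, rfl⟩ | ⟨s, t, hs, ht, rfl⟩
  · rw [fxy_a]
    have := prod_nonneg hq (z.1 * q + z.2.2 + 1) k
    linarith
  · rw [fxy_b]
    have := prod_nonneg hq (z.2.1 * q + (q - 1 - z.2.2) + 1) k
    linarith
  · by_cases h : s = z.1 ∧ t = z.2.1
    · obtain ⟨rfl, rfl⟩ := h
      exact (c_eq hi).le
    · exact (c_lt hi (by omega) h).le

open Classical in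
/-- the five vertices of a facet -/
noncomputable def F5 (q : ℕ) (z : ℕ × ℕ × ℕ) : Finset E4 :=
  {pa q (z.1 * q + z.2.2), pa q (z.1 * q + z.2.2 + 1), pb q (z.2.1 * q + (q - 1 - z.2.2)),
    pb q (z.2.1 * q + (q - 1 - z.2.2) + 1), pc (z.1, z.2.1)}

theorem idx {q m : ℕ} (hm : q * q < m) {s i : ℕ} (hs : s < q) (hi : i < q) :
    s * q + i + 1 < m := by
  have h1 : s * q + i + 1 ≤ q * q := by
    have : (s + 1) * q ≤ q * q := Nat.mul_le_mul_right q hs
    nlinarith
  omega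

open Classical in
theorem ff_filter {q m l : ℕ} (hq : 0 < q) (hm : q * q < m) (hl : q * q < l) {z : ℕ × ℕ × ℕ}
    (hs : z.1 < q) (ht : z.2.1 < q) (hi : z.2.2 < q) :
    (VV q m l).filter (fun v => ff q z v = 1) = F5 q z := by
  have a1 := idx hm hs hi
  have a2 := idx hl ht (show q - 1 - z.2.2 < q by omega)
  ext v
  simp only [Finset.mem_filter, F5, Finset.mem_insert, Finset.mem_singleton, ff_eq_iff]
  constructor
  · rintro ⟨hv, hf⟩
    rw [mem_VV] at hv
    rcases hv with ⟨k, hk, rfl⟩ | ⟨k, hk, rfl⟩ | ⟨s', t', hs', ht', rfl⟩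
    · rw [fxy_a, sub_eq_self, prod_eq_zero hq] at hf
      rcases hf with hf | hf
      · right; left
        rw [hf]
      · left
        rw [show k = z.1 * q + z.2.2 by omega]
    · rw [fxy_b, sub_eq_self, prod_eq_zero hq] at hf
      rcases hf with hf | hf
      · right; right; right; left
        rw [hf]
      · right; right; left
        rw [show k = z.2.1 * q + (q - 1 - z.2.2) by omega]
    · right; right; right; right
      by_cases h : s' = z.1 ∧ t' = z.2.1
      · rw [h.1, h.2]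
      · exact absurd hf (c_lt hi (by omega) h).ne
  · rintro (rfl | rfl | rfl | rfl | rfl)
    · refine ⟨mem_VV.2 (Or.inl ⟨_, by omega, rfl⟩), ?_⟩
      rw [fxy_a, sub_eq_self, prod_eq_zero hq]
      exact Or.inr rfl
    · refine ⟨mem_VV.2 (Or.inl ⟨_, by omega, rfl⟩), ?_⟩
      rw [fxy_a, sub_eq_self, prod_eq_zero hq]
      exact Or.inl rfl
    · refine ⟨mem_VV.2 (Or.inr (Or.inl ⟨_, by omega, rfl⟩)), ?_⟩
      rw [fxy_b, sub_eq_self, prod_eq_zero hq]
      exact Or.inr rfl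
    · refine ⟨mem_VV.2 (Or.inr (Or.inl ⟨_, by omega, rfl⟩)), ?_⟩
      rw [fxy_b, sub_eq_self, prod_eq_zero hq]
      exact Or.inl rfl
    · exact ⟨mem_VV.2 (Or.inr (Or.inr ⟨_, _, hs, ht, rfl⟩)), c_eq hi⟩

theorem F5_card {q : ℕ} (hq : 0 < q) (z : ℕ × ℕ × ℕ) : (F5 q z).card = 5 := by
  classical
  have b1 : pa q (z.1 * q + z.2.2) ≠ pa q (z.1 * q + z.2.2 + 1) := by
    intro h
    have := pa_inj hq h
    omega
  have b2 : pb q (z.2.1 * q + (q - 1 - z.2.2)) ≠ pb q (z.2.1 * q + (q - 1 - z.2.2) + 1) := by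
    intro h
    have := pb_inj hq h
    omega
  unfold F5
  rw [Finset.card_insert_of_notMem, Finset.card_insert_of_notMem, Finset.card_insert_of_notMem,
    Finset.card_insert_of_notMem, Finset.card_singleton]
  · simp [pb_ne_pc]
  · simp [pb_ne_pc, b2]
  · simp [pa_ne_pb, pa_ne_pc]
  · simp [pa_ne_pb, pa_ne_pc, b1]

theorem F5_inj {q : ℕ} (hq : 0 < q) {z z' : ℕ × ℕ × ℕ} (h : F5 q z = F5 q z') : z = z' := by
  classical
  have hC : pc (z.1, z.2.1) ∈ F5 q z' := by
    rw [← h]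
    simp [F5]
  simp only [F5, Finset.mem_insert, Finset.mem_singleton] at hC
  have hst : (z.1, z.2.1) = (z'.1, z'.2.1) := by
    rcases hC with hC | hC | hC | hC | hC
    · exact absurd hC.symm (pa_ne_pc _ _ _)
    · exact absurd hC.symm (pa_ne_pc _ _ _)
    · exact absurd hC.symm (pb_ne_pc _ _ _)
    · exact absurd hC.symm (pb_ne_pc _ _ _)
    · exact pc_inj hC
  obtain ⟨s, t, i⟩ := z
  obtain ⟨s', t', i'⟩ := z'
  simp only [Prod.mk.injEq] at hst
  obtain ⟨rfl, rfl⟩ := hst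
  have hA : ∀ k, k = s * q + i ∨ k = s * q + i + 1 → k = s * q + i' ∨ k = s * q + i' + 1 := by
    intro k hk
    have hA1 : pa q k ∈ F5 q (s, t, i') := by
      rw [← h]
      rcases hk with rfl | rfl <;> simp [F5]
    simp only [F5, Finset.mem_insert, Finset.mem_singleton] at hA1
    rcases hA1 with hC | hC | hC | hC | hC
    · exact Or.inl (pa_inj hq hC)
    · exact Or.inr (pa_inj hq hC)
    · exact absurd hC (pa_ne_pb _ _ _)
    · exact absurd hC (pa_ne_pb _ _ _)
    · exact absurd hC (pa_ne_pc _ _ _)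
  have h3 := hA _ (Or.inl rfl)
  have h4 := hA _ (Or.inr rfl)
  have : i = i' := by omega
  rw [this]

/-- two points in each of two layers span -/
theorem span_four {G : Set E4} {x₀ x₁ x₂ y₀ y₁ y₂ : ℝ} (hx1 : x₁ ≠ 0) (hx : x₀ ≠ x₂) (hy : y₀ ≠ y₂)
    (h1 : mk (x₀ + x₁) 0 (-(x₀ * x₁)) 0 ∈ G) (h2 : mk (x₁ + x₂) 0 (-(x₁ * x₂)) 0 ∈ G)
    (h3 : mk 0 (y₀ + y₁) (-(y₀ * y₁)) 1 ∈ G) (h4 : mk 0 (y₁ + y₂) (-(y₁ * y₂)) 1 ∈ G) :
    Submodule.span ℝ G = ⊤ := by
  have g1 := Submodule.subset_span (R := ℝ) h1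
  have g2 := Submodule.subset_span (R := ℝ) h2
  have g3 := Submodule.subset_span (R := ℝ) h3
  have g4 := Submodule.subset_span (R := ℝ) h4
  have hx02 : x₀ - x₂ ≠ 0 := sub_ne_zero.2 hx
  have hy20 : y₂ - y₀ ≠ 0 := sub_ne_zero.2 hy.symm
  have hD : x₁ ^ 2 * (x₀ - x₂) ≠ 0 := mul_ne_zero (pow_ne_zero 2 hx1) hx02
  -- the first basis vector
  have e0 : mk 1 0 0 0 ∈ Submodule.span ℝ G := by
    have h : mk 1 0 0 0 = (x₁ ^ 2 * (x₀ - x₂))⁻¹ • ((-(x₁ * x₂)) • mk (x₀ + x₁) 0 (-(x₀ * x₁)) 0 +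
        (x₀ * x₁) • mk (x₁ + x₂) 0 (-(x₁ * x₂)) 0) := by
      ext i
      fin_cases i <;> simp [mk]
      · field_simp
        ring
      · ring
    rw [h]
    exact Submodule.smul_mem _ _ (Submodule.add_mem _ (Submodule.smul_mem _ _ g1)
      (Submodule.smul_mem _ _ g2))
  have e2 : mk 0 0 1 0 ∈ Submodule.span ℝ G := by
    have h : mk 0 0 1 0 = (x₁ ^ 2 * (x₀ - x₂))⁻¹ • ((-(x₁ + x₂)) • mk (x₀ + x₁) 0 (-(x₀ * x₁)) 0 +
        (x₀ + x₁) • mk (x₁ + x₂) 0 (-(x₁ * x₂)) 0) := by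
      ext i
      fin_cases i <;> simp [mk]
      · ring
      · field_simp
        ring
    rw [h]
    exact Submodule.smul_mem _ _ (Submodule.add_mem _ (Submodule.smul_mem _ _ g1)
      (Submodule.smul_mem _ _ g2))
  have e1 : mk 0 1 0 0 ∈ Submodule.span ℝ G := by
    have h : mk 0 1 0 0 = (y₂ - y₀)⁻¹ • (mk 0 (y₁ + y₂) (-(y₁ * y₂)) 1 -
        mk 0 (y₀ + y₁) (-(y₀ * y₁)) 1 + (y₁ * y₂ - y₀ * y₁) • mk 0 0 1 0) := by
      ext i
      fin_cases i <;> simp [mk]
      · field_simp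
        ring
      · ring
    rw [h]
    exact Submodule.smul_mem _ _ (Submodule.add_mem _ (Submodule.sub_mem _ g4 g3)
      (Submodule.smul_mem _ _ e2))
  have e3 : mk 0 0 0 1 ∈ Submodule.span ℝ G := by
    have h : mk 0 0 0 1 = mk 0 (y₀ + y₁) (-(y₀ * y₁)) 1 - (y₀ + y₁) • mk 0 1 0 0 +
        (y₀ * y₁) • mk 0 0 1 0 := by
      ext i
      fin_cases i <;> simp [mk]
    rw [h]
    exact Submodule.add_mem _ (Submodule.sub_mem _ g3 (Submodule.smul_mem _ _ e1))
      (Submodule.smul_mem _ _ e2)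
  rw [eq_top_iff]
  intro v _
  have h : v = v 0 • mk 1 0 0 0 + v 1 • mk 0 1 0 0 + v 2 • mk 0 0 1 0 + v 3 • mk 0 0 0 1 := by
    ext i
    fin_cases i <;> simp [mk]
  rw [h]
  exact Submodule.add_mem _ (Submodule.add_mem _ (Submodule.add_mem _ (Submodule.smul_mem _ _ e0)
    (Submodule.smul_mem _ _ e1)) (Submodule.smul_mem _ _ e2)) (Submodule.smul_mem _ _ e3)

theorem F5_span {q : ℕ} (hq : 0 < q) (z : ℕ × ℕ × ℕ) :
    Submodule.span ℝ ((F5 q z : Finset E4) : Set E4) = ⊤ := by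
  classical
  refine span_four (x₀ := nd q (z.1 * q + z.2.2)) (x₁ := nd q (z.1 * q + z.2.2 + 1))
    (x₂ := nd q (z.1 * q + z.2.2 + 1 + 1)) (y₀ := nd q (z.2.1 * q + (q - 1 - z.2.2)))
    (y₁ := nd q (z.2.1 * q + (q - 1 - z.2.2) + 1))
    (y₂ := nd q (z.2.1 * q + (q - 1 - z.2.2) + 1 + 1)) (nd_succ_pos _ _).ne' ?_ ?_ ?_ ?_ ?_ ?_
  · intro h
    have := (nd_mono hq).injective h
    omega
  · intro h
    have := (nd_mono hq).injective h
    omega
  all_goals
    rw [Finset.mem_coe]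
    simp [F5, pa, pb]

end Low

end TPH
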