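import Pool.Agent.TPH.St7

/-!
# Three parallel hyperplanes: edges which do not lie in exactly four facets

The polytope is the convex hull of `A`, `C`, `B` placed at the heights `-1`, `0`, `1` (after scaling), so a
functional touches `a`, `c`, `b` at the same time iff `ip a w + ip b w = 2 ip c w`.  `FG X Y 𝒯 x y w` says that
`w` exposes a spanning set which contains the two points `x ∈ X`, `y ∈ Y` of two of the layers; the
elements of `𝒯` are the linear conditions `0 ≤ ip t w` that the third layer does not stick out: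
`t = 2 c - a - b'`, `b' ∈ B`, for the pair `(a,c)` (`TAC`), and `t = a + b - 2 c'`, `c' ∈ C`, for the pair `(a,b)`
(`TAB`).  The number of facets containing the edge `xy` is the number of rays `w` with `FG`.  The points of
the closed cell of `(x,y)` are the `w ≠ 0` with `x ∈ Mx X w`, `y ∈ Mx Y w`.
-/

namespace TPH

/-- `w` exposes a spanning set which contains `x` and `y`. -/
structure FG (X Y 𝒯 : Finset E) (x y w : E) : Prop where
  nz : w ≠ 0
  xw : x ∈ Mx X w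
  yw : y ∈ Mx Y w
  dom : ∀ t ∈ 𝒯, 0 ≤ ip t w
  span : ∀ v, Perp (Mx X w) v → Perp (Mx Y w) v → (∀ t ∈ 𝒯, ip t w = 0 → ip t v = 0) →
    ∃ κ : ℝ, v = κ • w

/-- There are exactly four rays with the property `P`. -/
def Rays4 (P : E → Prop) : Prop := ∃ w : Fin 4 → E, (∀ i, P (w i)) ∧
  (∀ i j, ∀ κ : ℝ, 0 < κ → w j = κ • w i → i = j) ∧ ∀ v, P v → ∃ i, ∃ κ : ℝ, 0 < κ ∧ v = κ • w i

/-- The standing assumptions on a cell `(x,y)` and the conditions `𝒯`: regular cell, some interior point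
satisfies all conditions strictly, at most one condition is tight at a point of the cell, none is tight
at a corner, and none is tight both on an `X`-side and on a `Y`-side. -/
structure Cell (X Y 𝒯 : Finset E) (x y w₀ : E) : Prop where
  cX : 3 ≤ X.card
  cY : 3 ≤ Y.card
  reg : Reg X Y x y
  x₀ : Mx X w₀ = {x}
  y₀ : Mx Y w₀ = {y}
  dom₀ : ∀ t ∈ 𝒯, 0 < ip t w₀
  one : ∀ w, w ≠ 0 → x ∈ Mx X w → y ∈ Mx Y w → (∀ t ∈ 𝒯, 0 ≤ ip t w) →
    ∀ t ∈ 𝒯, ∀ t' ∈ 𝒯, ip t w = 0 → ip t' w = 0 → t = t'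
  crn : ∀ w, w ≠ 0 → x ∈ Mx X w → y ∈ Mx Y w → (∀ t ∈ 𝒯, 0 ≤ ip t w) →
    2 ≤ (Mx X w).card → 2 ≤ (Mx Y w).card → ∀ t ∈ 𝒯, ip t w ≠ 0
  alt : ∀ t ∈ 𝒯, ∀ z z', z ≠ 0 → z' ≠ 0 → x ∈ Mx X z → y ∈ Mx Y z → x ∈ Mx X z' → y ∈ Mx Y z' →
    (∀ t' ∈ 𝒯, 0 ≤ ip t' z) → (∀ t' ∈ 𝒯, 0 ≤ ip t' z') → 2 ≤ (Mx X z).card → ip t z = 0 →
    2 ≤ (Mx Y z').card → ip t z' = 0 → False

/-- The sides (points `p i` of `X`, `q j` of `Y`) and the corners `ρ i j` of a regular cell `(x,y)`. -/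
structure CF (X Y : Finset E) (x y : E) (p q : Fin 2 → E) (ρ : Fin 2 → Fin 2 → E) : Prop where
  pn : p 0 ≠ p 1
  qn : q 0 ≠ q 1
  px : ∀ i, p i ≠ x
  qy : ∀ j, q j ≠ y
  nz : ∀ i j, ρ i j ≠ 0
  mx : ∀ i j, Mx X (ρ i j) = {x, p i}
  my : ∀ i j, Mx Y (ρ i j) = {y, q j}
  span : ∀ i j, ∀ v, Perp {x, p i} v → Perp {y, q j} v → ∃ κ : ℝ, v = κ • ρ i j
  sx : ∀ i w, w ≠ 0 → Mx X w = {x, p i} → y ∈ Mx Y w →
    ∃ α β : ℝ, 0 ≤ α ∧ 0 ≤ β ∧ 0 < α + β ∧ w = α • ρ i 0 + β • ρ i 1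
  sy : ∀ j w, w ≠ 0 → Mx Y w = {y, q j} → x ∈ Mx X w →
    ∃ α β : ℝ, 0 ≤ α ∧ 0 ≤ β ∧ 0 < α + β ∧ w = α • ρ 0 j + β • ρ 1 j
  tie : ∀ w, w ≠ 0 → x ∈ Mx X w → y ∈ Mx Y w →
    (Mx X w = {x} ∨ ∃ i, Mx X w = {x, p i}) ∧ (Mx Y w = {y} ∨ ∃ j, Mx Y w = {y, q j})

/-- **StmtCellFacts.** Sides and corners of a regular cell.
PROOF. `NA X Y x y = {p 0, p 1}`, `NA Y X y x = {q 0, q 1}` (two elements each, `Reg`, `Finset.card_eq_two`).
`TPH.Closed.c_t_RegCorner` gives the four corners `ρ i j` with `Mx X (ρ i j) = {x, p i}`,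
`Mx Y (ρ i j) = {y, q j}` (`Corner`); `ρ i j ≠ 0` because `Mx X 0 = X` has three elements.  `span`: the last
clause of `Corner` says that `x - p i`, `y - q j` are not parallel (if `y - q j = k • (x - p i)` then
`Perp {x, p i} v` implies `Perp {y, q j} v`), both are orthogonal to `ρ i j` and to `v`; `par_cr_of_ip`.  `tie`:
`TPH.Closed.c_t_RegTie`.  `sx`: `w, ρ i 0, ρ i 1` are orthogonal to `x - p i ≠ 0`; `ip (y - q 0)` is zero at
`ρ i 0` and positive at `ρ i 1` (`q 0 ∉ Mx Y (ρ i 1)`), `ip (y - q 1)` is zero at `ρ i 1` and positive at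
`ρ i 0`; so `ρ i 0`, `ρ i 1` are independent, `w = α • ρ i 0 + β • ρ i 1` (`comb_of_perp`), and
`ip (y - q 0) w = β * ip (y - q 0) (ρ i 1) ≥ 0` gives `β ≥ 0`, similarly `α ≥ 0`; `α + β > 0` as `w ≠ 0`.
`sy` in the same way. -/
def StmtCellFacts : Prop := ∀ (X Y : Finset E) (x y : E), 3 ≤ X.card → 3 ≤ Y.card →
  Reg X Y x y → ∃ p q ρ, CF X Y x y p q ρ

/-- **StmtSideTwo.** The facets on an `X`-side of the cell.  `ρ₀`, `ρ₁` are the two ends of the side of `x'`
and `p s = (1 - s) • ρ₀ + s • ρ₁`.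
PROOF. `Mx X (p s) = {x,x'}` for `s ∈ [0,1]` (`Mx_comb`, `Mx_comb_left`, `Mx_comb_right`), `Mx Y (p s) = {y}` for
`0 < s < 1` (`q₀ ≠ q₁`), `p s ≠ 0` (`3 ≤ |X|`); `ρ₀`, `ρ₁` are independent (`ip (y - q₀)` is zero at `ρ₀` and
positive at `ρ₁`, `ρ₀ ≠ 0`).  Let `J` be the set of the `s ∈ [0,1]` with `∀ t ∈ 𝒯, 0 ≤ ip t (p s)`: closed and
convex (the conditions are affine in `s`), not empty, so `J = [j₀,j₁]`.
(A) If `s ∈ J` is `0` or `1` then all conditions are strict at `p s` (`crn`).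
(B) If `s ∈ J` and `ip t (p s) = 0`, then `0 < s < 1` by (A), all other conditions are strict at `p s` (`one`),
and `s' ↦ ip t (p s')` is not identically zero: otherwise it is zero for all `s'`, so at every point of `J` all
other conditions are strict (`one`), so `J` is relatively open in `[0,1]`, hence `J = [0,1]`, contradicting
(A) at `s = 0`.  (Or directly: let `j₀ = min J`; if `j₀ = 0` we have the contradiction; if `j₀ > 0` then
slightly smaller `s` are in `J` as well.)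
(C) `j₀ < j₁`: if `J = {j}`: if all conditions are strict at `p j` then a neighbourhood in `[0,1]` is in `J`;
otherwise exactly one `t` is tight, `0 < j < 1`, the affine function `ip t (p s')` is zero at `j` and not
identically zero, so it is positive on one side of `j`, and points close to `j` on this side are in `J`.
Contradiction in both cases.
(D) At `s ∈ (j₀,j₁)` all conditions are strict: if `ip t (p s) = 0` then the affine function `ip t (p ·)` is
`≥ 0` at `j₀`, `j₁` and zero between, so identically zero, contradicting (B).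
(E) If `0 < j₀` then some `t` is tight at `p j₀` (otherwise smaller `s` are in `J`); `FG` holds: if `v` is
orthogonal to `x - x'` and to `t`, then, as `ip t` is not identically zero on the plane
`(x - x')^⊥ = span (ρ₀, ρ₁)`, `v` is a multiple of `p j₀`.  If `j₀ = 0` then `p 0 = ρ₀` and `FG` holds by the
hypothesis on `ρ₀`.  The same for `j₁`.  If `s ∈ (j₀,j₁)` then `FG` fails at `p s`: no condition is tight,
`Mx Y (p s) = {y}`, so every `v` orthogonal to `x - x'`, for example `v = ρ₀`, would have to be a multiple of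
`p s`. -/
def StmtSideTwo : Prop := ∀ (X Y 𝒯 : Finset E) (x y w₀ x' q₀ q₁ ρ₀ ρ₁ : E),
  Cell X Y 𝒯 x y w₀ → x' ≠ x → q₀ ≠ q₁ → q₀ ≠ y → q₁ ≠ y → Mx X ρ₀ = {x, x'} → Mx X ρ₁ = {x, x'} →
  Mx Y ρ₀ = {y, q₀} → Mx Y ρ₁ = {y, q₁} →
  (∀ v, Perp {x, x'} v → Perp {y, q₀} v → ∃ κ : ℝ, v = κ • ρ₀) →
  (∀ v, Perp {x, x'} v → Perp {y, q₁} v → ∃ κ : ℝ, v = κ • ρ₁) →
  (∃ s : ℝ, 0 ≤ s ∧ s ≤ 1 ∧ ∀ t ∈ 𝒯, 0 ≤ ip t ((1 - s) • ρ₀ + s • ρ₁)) →
  ∃ j₀ j₁ : ℝ, 0 ≤ j₀ ∧ j₀ < j₁ ∧ j₁ ≤ 1 ∧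
    (∀ s : ℝ, 0 ≤ s → s ≤ 1 → ((∀ t ∈ 𝒯, 0 ≤ ip t ((1 - s) • ρ₀ + s • ρ₁)) ↔ j₀ ≤ s ∧ s ≤ j₁)) ∧
    FG X Y 𝒯 x y ((1 - j₀) • ρ₀ + j₀ • ρ₁) ∧ FG X Y 𝒯 x y ((1 - j₁) • ρ₀ + j₁ • ρ₁) ∧
    (∀ s : ℝ, 0 ≤ s → s ≤ 1 → FG X Y 𝒯 x y ((1 - s) • ρ₀ + s • ρ₁) → s = j₀ ∨ s = j₁) ∧
    (∀ s : ℝ, j₀ ≤ s → s ≤ j₁ → ∀ t ∈ 𝒯, ip t ((1 - s) • ρ₀ + s • ρ₁) = 0 →
      (s = j₀ ∨ s = j₁) ∧ 0 < s ∧ s < 1)

/-- **StmtSideNZ.** No condition vanishes at both ends of a side which has a point with all conditions.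
PROOF. `w` is on the side of `p i`: by `CF.sx` a positive multiple of some `(1 - s) • ρ i 0 + s • ρ i 1`,
`0 ≤ s ≤ 1`; `StmtSideTwo` gives `j₀ < j₁`, and `t` is tight on all of `[j₀,j₁]`, contradicting the last claim of
`StmtSideTwo` for `s = (j₀ + j₁) / 2`. -/
def StmtSideNZ : Prop := ∀ (X Y 𝒯 : Finset E) (x y w₀ : E) (p q : Fin 2 → E)
  (ρ : Fin 2 → Fin 2 → E), Cell X Y 𝒯 x y w₀ → CF X Y x y p q ρ → ∀ i w t, w ≠ 0 →
  Mx X w = {x, p i} → y ∈ Mx Y w → (∀ t' ∈ 𝒯, 0 ≤ ip t' w) → t ∈ 𝒯 → ip t (ρ i 0) = 0 →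
  ip t (ρ i 1) = 0 → False

/-- **StmtFollow.** A tight condition at an interior point of the cell can be followed in both
directions to the sides.
PROOF. `q ≠ 0` (`3 ≤ |X|`).  Choose `d` orthogonal to `t`, not a multiple of `q` (`t ≠ 0` because `ip t w₀ > 0`; for
example `d = cr t q`, and `cr q d ≠ 0`).  Apply `rotate_core` to the finite set `D` of the vectors `x' - x`
(`x' ∈ X`, `x' ≠ x`), `y' - y` (`y' ∈ Y`, `y' ≠ y`), `-t'` (`t' ∈ 𝒯`, `t' ≠ t`), the vector `u = q` (all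
`ip d' q < 0`, by `Mx X q = {x}`, `Mx Y q = {y}` and `one`) and the direction `d`: `z = q + τ (d - M q)`, all
`ip d' z ≤ 0`, with equality for some `d' ∈ D`.  `ip t z = 0`; so `x ∈ Mx X z`, `y ∈ Mx Y z`, all conditions hold
at `z`; `z ≠ 0` because `cr q z = τ • cr q d ≠ 0`.  Equality cannot be for `-t'` (`one`), so it is for some
`x' - x` or `y' - y`.  In the same way with `-d`: `z' = q + τ' (-d - M' q)`.  Then
`τ' z + τ z' = λ q` with `λ = τ' (1 - τ M) + τ (1 - τ' M')`.  `λ > 0`: if `λ = 0` then `z' = -(τ'/τ) z`, and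
`x ∈ Mx X z ∩ Mx X z'` gives `Mx X z = X`, which has three elements, contradicting the regularity
(`TPH.Closed.c_t_RegTie`: `Mx X z` has at most two elements).  If `λ < 0` then `x ∈ Mx X (-q)`
(`mem_Mx_comb`), and with `Mx X q = {x}` this gives `X = {x}`.  So `q = (τ'/λ) z + (τ/λ) z'`. -/
def StmtFollow : Prop := ∀ (X Y 𝒯 : Finset E) (x y w₀ q t : E), Cell X Y 𝒯 x y w₀ →
  Mx X q = {x} → Mx Y q = {y} → (∀ t' ∈ 𝒯, 0 ≤ ip t' q) → t ∈ 𝒯 → ip t q = 0 →
  ∃ z z' : E, ∃ α β : ℝ, 0 < α ∧ 0 < β ∧ q = α • z + β • z' ∧ z ≠ 0 ∧ z' ≠ 0 ∧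
    (x ∈ Mx X z ∧ y ∈ Mx Y z ∧ (∀ t' ∈ 𝒯, 0 ≤ ip t' z) ∧ ip t z = 0 ∧
      (2 ≤ (Mx X z).card ∨ 2 ≤ (Mx Y z).card)) ∧
    (x ∈ Mx X z' ∧ y ∈ Mx Y z' ∧ (∀ t' ∈ 𝒯, 0 ≤ ip t' z') ∧ ip t z' = 0 ∧
      (2 ≤ (Mx X z').card ∨ 2 ≤ (Mx Y z').card))

/-- The condition `t` is tight on both `X`-sides. -/
def TightX (X Y 𝒯 : Finset E) (x y : E) (p : Fin 2 → E) (t : E) : Prop :=
  ∃ z : Fin 2 → E, ∀ i, z i ≠ 0 ∧ Mx X (z i) = {x, p i} ∧ Mx Y (z i) = {y} ∧
    (∀ t' ∈ 𝒯, 0 ≤ ip t' (z i)) ∧ ip t (z i) = 0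

/-- **StmtCellSwap.** Symmetry.
PROOF. All fields are symmetric; `Reg_swap`.  For `CF` the corners are `fun j i => ρ i j`. -/
def StmtCellSwap : Prop := ∀ (X Y 𝒯 : Finset E) (x y w₀ : E) (p q : Fin 2 → E)
  (ρ : Fin 2 → Fin 2 → E), (Cell X Y 𝒯 x y w₀ → Cell Y X 𝒯 y x w₀) ∧
  (CF X Y x y p q ρ → CF Y X y x q p (fun j i => ρ i j)) ∧
  (∀ w, FG X Y 𝒯 x y w ↔ FG Y X 𝒯 y x w) ∧
  (CF X Y x y p q ρ → CF X Y x y p (fun j => q (1 - j)) (fun i j => ρ i (1 - j)))

/-- **StmtTight.** If some condition is tight somewhere in the cell, then it is tight on both `X`-sides or on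
both `Y`-sides.
PROOF. STEP 1: we may assume `Mx X r = {x}`, `Mx Y r = {y}`.  Otherwise, by `crn`, exactly one of the sets has
two elements, say `Mx X r = {x, p i}`, `Mx Y r = {y}` (`CF.tie`; the other case by `StmtCellSwap`).  There is `d`
with `ip t d = 0` and `ip (x - p i) d > 0`, unless `x - p i` is a multiple of `t` (`t ≠ 0` as `ip t w₀ > 0`); but
then `t` is zero on the whole plane of the side, which contradicts `StmtSideNZ`.  For small `ε > 0` the point
`r + ε d` has `Mx X = {x}` (`Mx_pert3`, `Mx_pair_left`), `Mx Y = {y}` (`Mx_singleton`), `ip t = 0`, and all other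
conditions are still strict (`one` at `r`; finitely many).  Replace `r` by this point.
STEP 2: `StmtFollow` gives `z`, `z'`.  By `crn` each of them has exactly one of the two sets with two
elements (`CF.tie`); by `alt` either both have two elements in `Mx X`, or both in `Mx Y`.  Suppose
`Mx X z = {x, p i}`, `Mx X z' = {x, p i'}`.  If `i = i'` then `p i ∈ Mx X r` as `r = α z + β z'`
(`mem_Mx_comb`), but `Mx X r = {x}`.  So `i ≠ i'`, and the family `![z, z']` or `![z', z]` is as wanted.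
The same for `Y`. -/
def StmtTight : Prop := ∀ (X Y 𝒯 : Finset E) (x y w₀ : E) (p q : Fin 2 → E)
  (ρ : Fin 2 → Fin 2 → E), Cell X Y 𝒯 x y w₀ → CF X Y x y p q ρ →
  ∀ r t, r ≠ 0 → x ∈ Mx X r → y ∈ Mx Y r → (∀ t' ∈ 𝒯, 0 ≤ ip t' r) → t ∈ 𝒯 → ip t r = 0 →
  TightX X Y 𝒯 x y p t ∨ TightX Y X 𝒯 y x q t

/-- **StmtQuadRel.** The linear relation between the corners.
PROOF. Four vectors of `ℝ^3` have a nontrivial relation `∑ y_ij ρ i j = 0` (for example by `cramer`, with the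
determinants as coefficients, or from `Module.finrank`).  Apply `ip (x - p 0)` (zero at `ρ 0 j`, positive at
`ρ 1 j`, because `p 0 ∉ Mx X (ρ 1 j)`): `y_10`, `y_11` have opposite signs or are both zero; with `x - p 1`:
`y_00`, `y_01`; with `y - q 0` (zero at `ρ i 0`, positive at `ρ i 1`): `y_01`, `y_11`; with `y - q 1`: `y_00`, `y_10`.
So all four are nonzero, `y_00`, `y_11` have the same sign and `y_01`, `y_10` the other one. -/
def StmtQuadRel : Prop := ∀ (X Y : Finset E) (x y : E) (p q : Fin 2 → E)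
  (ρ : Fin 2 → Fin 2 → E), CF X Y x y p q ρ → ∃ a b c d : ℝ, 0 < a ∧ 0 < b ∧ 0 < c ∧ 0 < d ∧
  a • ρ 0 0 + b • ρ 1 1 = c • ρ 0 1 + d • ρ 1 0

/-- **StmtQuadZero.** If no condition is tight in the cell, there are exactly four facets.
PROOF. Let `D` be the set of the `w` with all conditions.  `ρ i j ∈ D`: on the segment `(1-s) w₀ + s ρ i j` all
points are in the closed cell, and for `s < 1` they are not zero (`Mx X = {x}`, `Mx_comb_left`); if some
condition is negative at `s = 1`, take for each negative condition its zero `s_t ∈ (0,1)`, and the smallest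
of these; there all conditions hold and one is tight, a contradiction.  `FG` at `ρ i j`: `span` is `CF.span`.
If `FG` holds at `w` then no condition is tight at `w`, so `span` forces `Mx X w = {x, p i}` and
`Mx Y w = {y, q j}` (`CF.tie`; if one of the sets is a singleton, then all vectors orthogonal to the other one
would be multiples of `w`, but there are two independent ones), and then `w = κ • ρ i j` (`CF.span`, `Perp` by
`perp_Mx`); `κ > 0` because `κ < 0` gives `x ∈ Mx X (-(ρ i j))`, so `Mx X (ρ i j) = X`, which has three elements.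
The four rays are different because of their maximisers (`Mx_smul`). -/
def StmtQuadZero : Prop := ∀ (X Y 𝒯 : Finset E) (x y w₀ : E), Cell X Y 𝒯 x y w₀ →
  (∀ w, w ≠ 0 → x ∈ Mx X w → y ∈ Mx Y w → (∀ t ∈ 𝒯, 0 ≤ ip t w) → ∀ t ∈ 𝒯, ip t w ≠ 0) →
  Rays4 (FG X Y 𝒯 x y)

/-- **StmtQuadSgn.** A condition which is tight on both `X`-sides separates the two `Y`-sides.
PROOF. Let `z` be as in `TightX`.  `z i = α_i • ρ i 0 + β_i • ρ i 1` (`CF.sx`), with `α_i, β_i > 0` (if `β_i = 0` then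
`Mx Y (z i) = Mx Y (ρ i 0)` has two elements), so `ip t (ρ i 0)` and `ip t (ρ i 1)` have opposite signs or are
both zero; they are not zero by `StmtSideNZ` (for `w = z i`).  By `StmtQuadRel` the numbers `ip t (ρ 0 0)` and
`ip t (ρ 1 0)` have the same sign (otherwise `a ip t (ρ 0 0) + b ip t (ρ 1 1)` and
`c ip t (ρ 0 1) + d ip t (ρ 1 0)` have different signs). -/
def StmtQuadSgn : Prop := ∀ (X Y 𝒯 : Finset E) (x y w₀ : E) (p q : Fin 2 → E)
  (ρ : Fin 2 → Fin 2 → E), Cell X Y 𝒯 x y w₀ → CF X Y x y p q ρ → ∀ t ∈ 𝒯,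
  TightX X Y 𝒯 x y p t →
  (∀ i, 0 < ip t (ρ i 0) ∧ ip t (ρ i 1) < 0) ∨ (∀ i, ip t (ρ i 0) < 0 ∧ 0 < ip t (ρ i 1))

/-- **StmtQuadOne.** If some condition is tight on both `X`-sides, there are exactly four facets.
PROOF. By `StmtQuadSgn`, and after exchanging `q 0`, `q 1` if necessary (last claim of `StmtCellSwap`; note
that `TightX` does not depend on `q`, `ρ`), `ip t (ρ i 0) > 0 > ip t (ρ i 1)`.
(a) No `w ≠ 0` with `Mx Y w = {y, q 1}`, `x ∈ Mx X w` satisfies all conditions (`CF.sy`: it is a nonnegative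
combination of `ρ 0 1`, `ρ 1 1`, so `ip t w < 0`).
(b) No condition `t'` is tight at a `w ≠ 0` with `Mx Y w = {y, q 0}`, `x ∈ Mx X w` and all conditions:
suppose it is.  `StmtTight` (for `r = w` and `t'`): `TightX Y X 𝒯 y x q t'` is impossible by (a) (`j = 1`), so
`TightX X Y 𝒯 x y p t'`, and by `StmtQuadSgn` `ip t' (ρ 0 0)` and `ip t' (ρ 1 0)` have the same sign and are not
zero; `w` is a nonnegative combination of them, not both coefficients zero (`CF.sy`), so `ip t' w ≠ 0`.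
(c) If `FG` holds at `w` then `Mx X w = {x, p i}` for some `i`: otherwise `Mx X w = {x}` (`CF.tie`).  If
`Mx Y w = {y}`: at most one condition is tight (`one`), so the `v` in `span` are the vectors orthogonal to at
most one vector, there are two independent ones, contradiction.  If `Mx Y w = {y, q j}`: `j = 1` is impossible
by (a); for `j = 0` no condition is tight by (b), and the `v` in `span` are the vectors orthogonal to
`y - q 0`, contradiction.
(d) `StmtSideTwo` for both `X`-sides (a positive multiple of `z i` is a point `p s` of the side, `CF.sx`; the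
conditions are invariant under positive multiples): exactly two `FG` rays on each of them.  All four are
different: for different `i` the sets `Mx X` are different, and `(1 - j₀) • ρ₀ + j₀ • ρ₁`,
`(1 - j₁) • ρ₀ + j₁ • ρ₁` are not multiples of each other as `ρ₀, ρ₁` are independent and `j₀ ≠ j₁`. -/
def StmtQuadOne : Prop := ∀ (X Y 𝒯 : Finset E) (x y w₀ : E) (p q : Fin 2 → E)
  (ρ : Fin 2 → Fin 2 → E), Cell X Y 𝒯 x y w₀ → CF X Y x y p q ρ → ∀ t ∈ 𝒯,
  TightX X Y 𝒯 x y p t → Rays4 (FG X Y 𝒯 x y)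

/-- **StmtQuadDeg.** Under the standing assumptions there are exactly four facets.
PROOF. Take `CF` from `StmtCellFacts`.  If no condition is tight at a point of the cell with all
conditions: `StmtQuadZero`.  Otherwise `StmtTight`; in the first case `StmtQuadOne`; in the second case
`StmtQuadOne` for `Y, X` (`StmtCellSwap`), and `FG Y X 𝒯 y x` is the same predicate. -/
def StmtQuadDeg : Prop := ∀ (X Y 𝒯 : Finset E) (x y w₀ : E), Cell X Y 𝒯 x y w₀ →
  Rays4 (FG X Y 𝒯 x y)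

/-- **StmtSpCard.** The number of special cells is linear.
PROOF. A cell `p ∈ Sp A C` without `Ov` has at least four sides (`TPH.Closed.c_t_Quad`), so there are at most
`spSum A C` of them (`TPH.Closed.c_t_SpecialBound`); the others are counted by `TPH.Closed.c_t_OCount`. -/
def StmtSpCard : Prop := ∃ K : ℕ, ∀ A C : Finset E, 3 ≤ A.card → 3 ≤ C.card → ConvPos A →
  ConvPos C → (Sp A C).card ≤ K * (A.card + C.card)

/-- A local event at the pair `(a,c)` of an outer and the middle layer. -/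
def LE (A B C : Finset E) (a c : E) : Prop :=
  Ov A C a c ∨ (∃ x ∈ alts A B C, x.1.1 = a ∧ x.2.2 = c) ∨
  ∃ q, q ≠ 0 ∧ Tie A B c q ∧ a ∈ Mx A q ∧ c ∈ Mx C q ∧
    (2 ≤ (Mx C q).card ∨ 3 ≤ (Mx B q).card ∨ (2 ≤ (Mx A q).card ∧ 2 ≤ (Mx B q).card))

/-- A local event at the pair `(a,b)` of the two outer layers. -/
def LB (A B C : Finset E) (a b : E) : Prop :=
  Ov A B a b ∨ (∃ x ∈ alts A B C, x.1.1 = a ∧ x.2.1.1 = b) ∨
  ∃ q c, q ≠ 0 ∧ Tie A B c q ∧ a ∈ Mx A q ∧ b ∈ Mx B q ∧ c ∈ Mx C q ∧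
    (2 ≤ (Mx C q).card ∨ (2 ≤ (Mx A q).card ∧ 2 ≤ (Mx B q).card))

/-- Two points of `B` tie at a tie of `c` in the cell `(a,c)`. -/
def BB (A B C : Finset E) (a c : E) : Prop :=
  ∃ w, Tie A B c w ∧ Mx A w = {a} ∧ Mx C w = {c} ∧ 2 ≤ (Mx B w).card

/-- **StmtLocEvent.** Local form of `StmtEvent` (the Lean proof in `Pool/Agent/TPH/Event.lean` can be used as a
model).
PROOF. Take the path `q s` from `w₁` to `w₂` (`StmtTPath`); `q s = (1-s) w₁ + s w₂ - τ s r ≠ 0` since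
`r, w₁, w₂` are independent.  The set of the `s ∈ [0,1]` for which some `a' ∈ A`, `a' ≠ a`, is in
`Mx A (q s)` is closed and contains `1`; let `s₁` be its minimum.  `s₁ > 0`, and `Mx A (q s) = {a}` for
`s < s₁`, so `a ∈ Mx A (q s)` for all `s ∈ [0,s₁]`, and `2 ≤ (Mx A (q s₁)).card`.
If `Mx C (q s) ≠ {c}` for some `s ∈ [0,s₁]`, take the first such `s`: `c ∈ Mx C (q s)` and
`2 ≤ (Mx C (q s)).card`, third part of `LE`.  So let `Mx C (q s) = {c}` on `[0,s₁]`.  If
`3 ≤ (Mx A (q s₁)).card` then `Ov A C a c`.  If `3 ≤ (Mx B (q s)).card` for some `s ∈ [0,s₁]`, or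
`2 ≤ (Mx B (q s₁)).card`: third part of `LE`.  Otherwise let `s₂` be the maximum of the closed set of the
`s ∈ [0,s₁]` with `2 ≤ (Mx B (q s)).card` (it contains `0`); `s₂ < s₁`.  On `(s₂,s₁)` `Mx A = {a}` and `Mx B` is a
constant singleton `{b}` (see `StmtEvent`), so with `u = q s₁`, `v = q s₂`:
`x = ((a, Mx A u), (b, Mx B v), c)` is an alternation with ends `u, v`: second part of `LE`. -/
def StmtLocEvent : Prop := ∀ (A B C : Finset E) (a c r w₁ w₂ : E), InR A B c r →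
  Tie A B c w₁ → Tie A B c w₂ → det3 r w₁ w₂ ≠ 0 → Mx A w₁ = {a} → Mx C w₁ = {c} →
  2 ≤ (Mx B w₁).card → a ∉ Mx A w₂ → LE A B C a c

/-- **StmtBBUniq.** For every `c` there is at most one `a` with `BB` and without a local event.
PROOF. Let `w₁`, `w₂` belong to `(a₁,c)`, `(a₂,c)`, `a₁ ≠ a₂`.  They are independent (`cr w₁ w₂ ≠ 0`): `w₁ ≠ 0`,
because otherwise `A = Mx A 0 = {a₁}`, but `a₂ ∈ A`; if `w₂ = κ w₁` (`par_of_cr`) then `κ > 0` gives
`Mx A w₂ = Mx A w₁`, `κ = 0` gives `A = {a₂}`, and `κ < 0` gives `C = {c}` (`c` is the only maximiser of `w₁` and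
of `-w₁`), all impossible.  Choose `r ∈ R_c` with `det3 r w₁ w₂ ≠ 0`: if the given `r` has determinant zero,
replace it by `r + ε cr w₁ w₂` (`InR.open'`; `det3 (cr w₁ w₂) w₁ w₂ = ip (cr w₁ w₂) (cr w₁ w₂) > 0`).
`StmtLocEvent` for `(a₁,c)` gives `LE A B C a₁ c` (`a₁ ∉ Mx A w₂ = {a₂}`). -/
def StmtBBUniq : Prop := ∀ (A B C : Finset E) (a₁ a₂ c : E), 2 ≤ C.card → (∃ r, InR A B c r) →
  BB A B C a₁ c → BB A B C a₂ c → ¬ LE A B C a₁ c → a₁ = a₂

/-- **StmtPlanar.** Ties in a plane: the maximisers at all of them are among those at six of them.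
PROOF. Choose `g ≠ 0` orthogonal to `H` and put `f = cr H g`; then every `q ∈ Q` is `x g + y f` (`comb_of_perp`),
`x`, `y` unique.  Let `Q₊` be the set of the `q ∈ Q` with `y > 0`; if it is not empty let `q₁, q₂ ∈ Q₊` have the
smallest and the largest `x / y` (`Finset.exists_min_image`).  Let `q ∈ Q₊`.  If `x / y` agrees with that of
`q₁` or `q₂` then `q` is a positive multiple of `q₁` or `q₂`, and the claim is clear (`Mx_smul`).  Otherwise it is
strictly between and `q = α q₁ + β q₂` with `α, β > 0`.  For `a ∈ Mx A q`, `b ∈ Mx B q` let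
`T v = 2 ip c v - ip a v - ip b v`: `T q = 0` (`StmtTieBasic`), `T q₁ ≥ 0`, `T q₂ ≥ 0` (`InRc`), so `T q₁ = 0`.
Then `a ∈ Mx A q₁`: for `a'' ∈ A` we have `2 ip c q₁ - ip a'' q₁ - ip b q₁ ≥ 0 = T q₁`, so
`ip a'' q₁ ≤ ip a q₁`; similarly `b ∈ Mx B q₁`.  So `q₁, q₂` are enough for `Q₊`.  The same for the `q` with
`y < 0`.  The `q` with `y = 0` and `x > 0` are positive multiples of each other, the same for `x < 0`: one
element is enough in each case. -/
def StmtPlanar : Prop := ∀ (A B : Finset E) (c H : E) (Q : Finset E), H ≠ 0 →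
  (∀ q ∈ Q, q ≠ 0 ∧ Tie A B c q ∧ ip H q = 0) →
  ∃ Q' ⊆ Q, Q'.card ≤ 6 ∧ ∀ q ∈ Q, ∃ q' ∈ Q', Mx A q ⊆ Mx A q' ∧ Mx B q ⊆ Mx B q'

/-- **StmtTieEv.** A tie of `c` where two points of `A` and two points of `B` tie is a flat or tangent.
PROOF. This is part of the proof of `StmtMulti` (file `Pool/Agent/TPH/Multi.lean`).
`x = (Mx A q, c, Mx B q)`; if `IsFlat A B C x q` then `x ∈ flats A B C` (`mem_flats`).  Otherwise the last
clause of `IsFlat` fails (the others hold by `StmtTieBasic`): there is `v`, not a multiple of `q`, orthogonal to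
`a - a'`, `b - b'` and `T = 2 c - a - b` (`e = Mx A q = {a,a'}`, `Mx B q = {b,b'}`).  `q` is orthogonal to them
as well, so `a - a' = k₁ cr q v`, `T = k₂ cr q v` (`par_cr_of_ip`), `k₁ ≠ 0`; if `Perp e r'` with `r' ∈ R_c` then
`ip (cr q v) r' = 0`, so `ip T r' = 0`, but it is positive.  So `e ∈ ev7 A B C c` (`IsPos` by `StmtTieBasic`). -/
def StmtTieEv : Prop := ∀ (A B C : Finset E) (c q : E), q ≠ 0 → Tie A B c q → Mx C q = {c} →
  (Mx A q).card = 2 → (Mx B q).card = 2 →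
  (Mx A q, c, Mx B q) ∈ flats A B C ∨ Mx A q ∈ ev7 A B C c

/-- **StmtLECount.** The number of pairs `(a,c)` with a local event is at most `K n^(3/2)`.
PROOF. If `|A| ≤ 2` or `|C| ≤ 2` then there are at most `|A| |C| ≤ 2 n` pairs.  Otherwise:
(1) `Ov A C a c`: at most `K (|A| + |C|)` (`TPH.Closed.c_t_OCount`).
(2) alternations: at most `|alts A B C|`, `StmtAltBound`.
(3) Let `q` be as in the third part, and `¬ Ov A C a c`, so `|Mx A q| ≤ 2`, `|Mx C q| ≤ 2`.
(3a) `Mx C q = {c,c'}`, `c' ≠ c`, `{c,c'} ∈ Ed C`: for a fixed ordered pair `(c,c')` at most twelve values of `a`: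
choose for every such `a` one `q`, a finite set `Q`; `StmtPlanar` with `H = c - c'`: all these `a` are in
`Mx A q'` for one of at most six `q'`, and `|Mx A q'| ≤ 2`.  So at most `12 * 2 * |Ed C| ≤ 288 |C|` pairs
(`TPH.Closed.edge_lin`).
(3b) `Mx C q = {c}` and `3 ≤ |Mx B q|`: `G = Mx B q ∈ Faces B`, `q` is a real multiple of a fixed vector `ρ_G`
(`TPH.Closed.c_t_NonCol`), so for every `G` there are at most two rays `q`, each determines `c` and leaves at
most two `a`: at most `4 |Faces B| ≤ 8 |B|` pairs.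
(3c) `Mx C q = {c}`, `|Mx A q| = 2` and `|Mx B q| = 2`: `StmtTieEv`.  If `(Mx A q, c, Mx B q) ∈ flats A B C`: at
most `2 |flats|` pairs (`TPH.Closed.flats_bound`); if `Mx A q ∈ ev7 A B C c`: at most `2 * ∑_c |ev7 A B C c|`
pairs (`StmtTangPairs`).
The square of a sum of `k` numbers is at most `k` times the sum of their squares; linear terms `≤ L n` have
square `≤ L^2 n^3`. -/
def StmtLECount : Prop := ∃ K : ℕ, ∀ (A B C : Finset E) (P : Finset (E × E)), ConvPos A →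
  ConvPos B → ConvPos C → (∀ c ∈ C, ∃ r, InR A B c r) →
  (∀ p ∈ P, p ∈ Fc A C ∧ LE A B C p.1 p.2) →
  P.card ^ 2 ≤ K * (A.card + B.card + C.card) ^ 3

/-- **StmtLBCount.** The number of pairs `(a,b)` with a local event is at most `K n^(3/2)`.
PROOF. If `|A| ≤ 2` or `|B| ≤ 2` then there are at most `2 n` pairs.  Otherwise:
(1) `Ov A B a b`: `TPH.Closed.c_t_OCount`.  (2) alternations: at most `|alts A B C|`.
(3) Let `q`, `c` be as in the third part and `¬ Ov A B a b`, so `|Mx A q| ≤ 2`, `|Mx B q| ≤ 2`.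
(3a) `3 ≤ |Mx C q|`: `G = Mx C q ∈ Faces C`, at most two rays `q` for each `G` (`TPH.Closed.c_t_NonCol`), at most
four pairs for each ray: at most `8 |Faces C| ≤ 16 |C|`.
(3b) `Mx C q = {c,c'}` has two elements: `{c,c'} ∈ Ed C`; `StmtPlanar` with `H = c - c'` for the set of chosen
`q`: for a fixed ordered pair `(c,c')` all pairs `(a,b)` are in `Mx A q' × Mx B q'` for one of at most six `q'`: at
most `24` pairs for each of the at most `2 |Ed C|` ordered pairs.
(3c) `Mx C q = {c}`, `|Mx A q| = |Mx B q| = 2`: `StmtTieEv`.  If `(Mx A q, c, Mx B q) ∈ flats A B C`: at most four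
pairs for each flat.  If `e = Mx A q ∈ ev7 A B C c`: for fixed `(e,c)` `StmtPlanar` with `H = a - a'`, `e = {a,a'}`,
shows that all pairs are in `Mx A q' × Mx B q'` for one of at most six `q'`: at most `24` pairs for each
`(e,c)`; `StmtTangPairs`. -/
def StmtLBCount : Prop := ∃ K : ℕ, ∀ (A B C : Finset E) (P : Finset (E × E)), ConvPos A →
  ConvPos B → ConvPos C → (∀ c ∈ C, ∃ r, InR A B c r) →
  (∀ p ∈ P, p ∈ Fc A B ∧ LB A B C p.1 p.2) →
  P.card ^ 2 ≤ K * (A.card + B.card + C.card) ^ 3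

/-- The conditions for a pair `(a,c)`: `B` does not stick out. -/
noncomputable def TAC (B : Finset E) (a c : E) : Finset E :=
  @Finset.image E E (Classical.decEq E) (fun b => (2 : ℝ) • c - a - b) B

/-- The conditions for a pair `(a,b)`: `C` does not stick out. -/
noncomputable def TAB (C : Finset E) (a b : E) : Finset E :=
  @Finset.image E E (Classical.decEq E) (fun c => a + b - (2 : ℝ) • c) C

/-- **StmtCellAC.** Pairs without local events satisfy the standing assumptions.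
PROOF. For `a ∈ Mx A w` the conditions `0 ≤ ip t w`, `t ∈ TAC B a c`, mean `InRc A B c w`; if moreover
`t = 2 c - a - b` is tight then `Tie A B c w` (`StmtTieBasic`) and `b ∈ Mx B w`.  `one`: if `2 c - a - b`,
`2 c - a - b'` are tight at `w` and `b ≠ b'` then `2 ≤ |Mx B w|`; if `2 ≤ |Mx C w|` or `2 ≤ |Mx A w|` then `LE`
holds, otherwise `Mx A w = {a}`, `Mx C w = {c}` and `BB` holds.  `crn`: `2 ≤ |Mx C w|` and a tie: `LE`.  `alt`: at
`z'` we have `2 ≤ |Mx C z'|` and a tie: `LE`. -/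
def StmtCellAC : Prop := ∀ (A B C : Finset E) (a c w₀ : E), 3 ≤ A.card → 3 ≤ C.card →
  Reg A C a c → ¬ LE A B C a c → ¬ BB A B C a c → Mx A w₀ = {a} → Mx C w₀ = {c} →
  InR A B c w₀ → Cell A C (TAC B a c) a c w₀

/-- **StmtCellAB.** Pairs without local events satisfy the standing assumptions.
PROOF. Let `a ∈ Mx A w`, `b ∈ Mx B w`, and let all conditions of `TAB C a b` hold at `w`.  If `a + b - 2 c'` is
tight then `c' ∈ Mx C w` and `Tie A B c' w` (`StmtTieBasic`, `inRc_of_mem`).  `one`: two different tight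
conditions belong to two different points of `Mx C w`, so `LB`.  `crn`: `2 ≤ |Mx A w|`, `2 ≤ |Mx B w|` and a
tie: `LB`.  `alt`: let `t = a + b - 2 c'` be tight at `z` (`2 ≤ |Mx A z|`) and at `z'` (`2 ≤ |Mx B z'|`).
`Mx C z = {c'}`, `Mx C z' = {c'}`, `Mx B z = {b}`, `Mx A z' = {a}`, otherwise `LB`;
`|Mx A z| = 2`, `|Mx B z'| = 2`, otherwise `Ov A B a b`.  So `((a, Mx A z), (b, Mx B z'), c')` is an
alternation with ends `z`, `z'` (`IsAlt`), and `LB` holds. -/
def StmtCellAB : Prop := ∀ (A B C : Finset E) (a b w₀ : E), 3 ≤ A.card → 3 ≤ B.card →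
  Reg A B a b → ¬ LB A B C a b → Mx A w₀ = {a} → Mx B w₀ = {b} →
  (∀ c ∈ C, 2 * ip c w₀ < ip a w₀ + ip b w₀) → Cell A B (TAB C a b) a b w₀

/-- **StmtNonQuadAC.** The number of edges `(a,c)` which are not in exactly four facets.
PROOF. If `|A| ≤ 2` or `|C| ≤ 2` then there are at most `2 n` pairs (`a ∈ A`, `c ∈ C`).  Otherwise let
`(a,c) ∈ P` with `w₀`; `(a,c) ∈ Fc A C`.  Either it is not regular: `StmtSpCard`; or `LE`: `StmtLECount`; or `BB`
and not `LE`: at most one `a` for every `c`, by `StmtBBUniq`, so at most `|C|` pairs; or `StmtCellAC` and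
`StmtQuadDeg` give `Rays4`, which was excluded. -/
def StmtNonQuadAC : Prop := ∃ K : ℕ, ∀ (A B C : Finset E) (P : Finset (E × E)), ConvPos A →
  ConvPos B → ConvPos C → (∀ c ∈ C, ∃ r, InR A B c r) →
  (∀ p ∈ P, (∃ w, Mx A w = {p.1} ∧ Mx C w = {p.2} ∧ InR A B p.2 w) ∧
    ¬ Rays4 (FG A C (TAC B p.1 p.2) p.1 p.2)) →
  P.card ^ 2 ≤ K * (A.card + B.card + C.card) ^ 3

/-- **StmtNonQuadAB.** The number of edges `(a,b)` which are not in exactly four facets.
PROOF. If `|A| ≤ 2` or `|B| ≤ 2` then there are at most `2 n` pairs.  Otherwise `(a,b) ∈ Fc A B`; either it is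
not regular: `StmtSpCard`; or `LB`: `StmtLBCount`; or `StmtCellAB` and `StmtQuadDeg` give `Rays4`. -/
def StmtNonQuadAB : Prop := ∃ K : ℕ, ∀ (A B C : Finset E) (P : Finset (E × E)), ConvPos A →
  ConvPos B → ConvPos C → (∀ c ∈ C, ∃ r, InR A B c r) →
  (∀ p ∈ P, (∃ w, Mx A w = {p.1} ∧ Mx B w = {p.2} ∧
      ∀ c ∈ C, 2 * ip c w < ip p.1 w + ip p.2 w) ∧
    ¬ Rays4 (FG A B (TAB C p.1 p.2) p.1 p.2)) →
  P.card ^ 2 ≤ K * (A.card + B.card + C.card) ^ 3

end TPH
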