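import Pool.Agent.TPH.St5

/-!
# Three parallel hyperplanes: alternations with a special cell
-/

set_option autoImplicit false

namespace TPH

namespace MAD1

theorem mem_AD1 {A B C : Finset E} {x : Al} : x ∈ AD1 A B C ↔
    x ∈ alts A B C ∧ ∃ a ∈ x.1.2, ¬ Reg A C a x.2.2 := by
  simp only [AD1, Finset.mem_filter]

theorem ex_alt {A B C : Finset E} {x : Al} (h : x ∈ alts A B C) : ∃ u v, IsAlt A B C x u v := by
  simp only [alts, Finset.mem_filter] at h
  exact h.2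

end MAD1

theorem t_AD1 (hPosBasic : StmtPosBasic) (hAltBasic : StmtAltBasic) (hAltPer : StmtAltPer) :
    StmtAD1 := by
  classical
  intro A B C hA hR
  have hcC : ∀ x ∈ AD1 A B C, x.2.2 ∈ C := by
    intro x hx
    obtain ⟨u, v, hu⟩ := MAD1.ex_alt (MAD1.mem_AD1.1 hx).1
    exact Mx_subset C u (by rw [hu.uc]; simp)
  have key : ∀ x ∈ AD1 A B C, ∃ q : (Σ _ : E × E, E),
      q ∈ (Sp A C).sigma (fun p => NA A C p.1 p.2) ∧ x.1.2 = {q.1.1, q.2} ∧ x.2.2 = q.1.2 := by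
    intro x hx
    obtain ⟨hx1, a, ha, hreg⟩ := MAD1.mem_AD1.1 hx
    obtain ⟨u, v, hu⟩ := MAD1.ex_alt hx1
    have hp := (hAltBasic A B C x u v hu).1
    obtain ⟨_, _, _, _, h5⟩ := hPosBasic A B C x.1.2 x.2.2 u hp
    obtain ⟨h6, h7⟩ := h5 a ha
    have h8 : 1 < x.1.2.card := by rw [hu.ce]; norm_num
    obtain ⟨a', ha', hne⟩ := Finset.exists_mem_ne h8 a
    obtain ⟨h9, h10⟩ := h7 a' ha' hne
    refine ⟨⟨(a, x.2.2), a'⟩, ?_, h9, rfl⟩
    rw [Finset.mem_sigma]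
    exact ⟨mem_Sp.mpr ⟨h6, hreg⟩, h10⟩
  choose! F hF using key
  have h1 : (AD1 A B C).card ≤ 4 * ((AD1 A B C).image F).card := by
    apply Finset.card_le_mul_card_image
    intro q hq
    obtain ⟨x₀, hx₀, hq₀⟩ := Finset.mem_image.mp hq
    have hc₀ : q.1.2 ∈ C := by
      rw [← hq₀, ← (hF x₀ hx₀).2.2]
      exact hcC x₀ hx₀
    refine le_trans (Finset.card_le_card ?_)
      (hAltPer A B C {q.1.1, q.2} q.1.2 (Or.inl hA) (hR _ hc₀))
    intro x hx
    obtain ⟨hx1, hx2⟩ := Finset.mem_filter.mp hx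
    simp only [Finset.mem_filter]
    obtain ⟨_, h3, h4⟩ := hF x hx1
    rw [hx2] at h3 h4
    exact ⟨(MAD1.mem_AD1.mp hx1).1, h3, h4⟩
  have h2 : ((AD1 A B C).image F).card ≤ ((Sp A C).sigma (fun p => NA A C p.1 p.2)).card := by
    apply Finset.card_le_card
    intro q hq
    obtain ⟨x, hx, rfl⟩ := Finset.mem_image.mp hq
    exact (hF x hx).1
  have h3 : ((Sp A C).sigma (fun p => NA A C p.1 p.2)).card ≤ spSum A C := by
    rw [Finset.card_sigma, spSum]
    exact Finset.sum_le_sum fun p _ => Nat.le_add_right _ _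
  exact h1.trans (Nat.mul_le_mul_left 4 (h2.trans h3))

end TPH
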