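import Pool.Agent.TPH.St4

/-!
# Three parallel hyperplanes: the abstract counting lemma
-/

set_option autoImplicit false

namespace TPH

namespace MAbstract

open Finset

/-- the pairs of `T` in increasing order -/
noncomputable def LT {ι : Type} (key : ι → ℝ) (T : Finset ι) : Finset (ι × ι) :=
  (T ×ˢ T).filter (fun p => key p.1 < key p.2)

theorem mem_LT {ι : Type} {key : ι → ℝ} {T : Finset ι} {p : ι × ι} :
    p ∈ LT key T ↔ (p.1 ∈ T ∧ p.2 ∈ T) ∧ key p.1 < key p.2 := by
  unfold LT
  rw [mem_filter, mem_product]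

theorem card_LT {ι : Type} (key : ι → ℝ) (T : Finset ι)
    (hinj : ∀ x ∈ T, ∀ y ∈ T, key x = key y → x = y) :
    T.card * T.card = 2 * (LT key T).card + T.card := by
  classical
  have h1 : (T ×ˢ T).card = T.card * T.card := Finset.card_product T T
  have h2 : (LT key T).card = ((T ×ˢ T).filter (fun p => key p.2 < key p.1)).card := by
    refine Finset.card_bij (fun p _ => (p.2, p.1)) ?_ ?_ ?_
    · intro p hp
      rw [mem_LT] at hp
      rw [mem_filter, mem_product]
      exact ⟨⟨hp.1.2, hp.1.1⟩, hp.2⟩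
    · intro p _ q _ h
      rw [Prod.mk.injEq] at h
      exact Prod.ext h.2 h.1
    · intro p hp
      rw [mem_filter, mem_product] at hp
      exact ⟨(p.2, p.1), mem_LT.2 ⟨⟨hp.1.2, hp.1.1⟩, hp.2⟩, rfl⟩
  have h3 : T.card = ((T ×ˢ T).filter (fun p => key p.1 = key p.2)).card := by
    refine Finset.card_bij (fun x _ => (x, x)) ?_ ?_ ?_
    · intro x hx
      rw [mem_filter, mem_product]
      exact ⟨⟨hx, hx⟩, rfl⟩
    · intro x _ y _ h
      exact congrArg Prod.fst h
    · intro p hp
      rw [mem_filter, mem_product] at hp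
      refine ⟨p.1, hp.1.1, ?_⟩
      have := hinj p.1 hp.1.1 p.2 hp.1.2 hp.2
      exact Prod.ext rfl this
  have h4 : (T ×ˢ T).card = (LT key T).card +
      ((T ×ˢ T).filter (fun p => key p.2 < key p.1)).card +
      ((T ×ˢ T).filter (fun p => key p.1 = key p.2)).card := by
    unfold LT
    rw [Finset.card_eq_sum_ones, Finset.card_filter, Finset.card_filter, Finset.card_filter,
      ← Finset.sum_add_distrib, ← Finset.sum_add_distrib]
    refine Finset.sum_congr rfl fun p _ => ?_
    rcases lt_trichotomy (key p.1) (key p.2) with h | h | h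
    · rw [if_pos h, if_neg h.not_gt, if_neg h.ne]
    · rw [if_neg h.not_lt, if_neg h.not_gt, if_pos h]
    · rw [if_neg h.not_gt, if_pos h, if_neg h.ne']
  rw [← h2, ← h3] at h4
  omega

end MAbstract

open MAbstract Finset in
theorem t_Abstract : StmtAbstract := by
  intro ι κ _ X Bd cls key cross P hinj htri hP
  classical
  -- the runs
  set J : ι → Finset ι := fun x => Bd.filter (fun k => cls k = cls x ∧ key k < key x) with hJ
  set ρ : ι → κ × ℕ := fun x => (cls x, (J x).card) with hρ
  -- number of runs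
  have hruns : (X.image ρ).card ≤ (X.image cls).card + Bd.card := by
    have h1 : X.image ρ ⊆ (X.image cls).biUnion (fun c =>
        (range ((Bd.filter (fun k => cls k = c)).card + 1)).image (fun j => (c, j))) := by
      intro r hr
      rw [mem_image] at hr
      obtain ⟨x, hx, rfl⟩ := hr
      rw [mem_biUnion]
      refine ⟨cls x, mem_image_of_mem _ hx, ?_⟩
      rw [mem_image]
      refine ⟨(J x).card, ?_, rfl⟩
      rw [mem_range, Nat.lt_succ_iff]
      apply card_le_card
      intro k hk
      rw [hJ, mem_filter] at hk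
      rw [mem_filter]
      exact ⟨hk.1, hk.2.1⟩
    have h2 : ∀ c ∈ X.image cls, ((range ((Bd.filter (fun k => cls k = c)).card + 1)).image
        (fun j => (c, j))).card ≤ (Bd.filter (fun k => cls k = c)).card + 1 := by
      intro c _
      exact card_image_le.trans (le_of_eq (card_range _))
    have h3 := (card_le_card h1).trans (card_biUnion_le.trans (Finset.sum_le_sum h2))
    rw [Finset.sum_add_distrib, Finset.sum_const, smul_eq_mul, mul_one,
      Finset.sum_card_fiberwise_eq_card_filter] at h3
    have h4 : (Bd.filter (fun k => cls k ∈ X.image cls)).card ≤ Bd.card :=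
      card_le_card (filter_subset _ _)
    omega
  -- one run
  have hrun : ∀ r ∈ X.image ρ, (X.filter (fun x => ρ x = r)).card ^ 2 ≤
      4 * (P.filter (fun q => ρ q.1 = r)).card + 2 * (X.filter (fun x => ρ x = r)).card := by
    intro r _
    set R := X.filter (fun x => ρ x = r) with hR
    have hRX : ∀ x ∈ R, x ∈ X := fun x hx => (mem_filter.1 hx).1
    have hRr : ∀ x ∈ R, ρ x = r := fun x hx => (mem_filter.1 hx).2
    have hcls : ∀ x ∈ R, ∀ y ∈ R, cls x = cls y := by
      intro x hx y hy
      exact congrArg Prod.fst ((hRr x hx).trans (hRr y hy).symm)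
    have hcard : ∀ x ∈ R, ∀ y ∈ R, (J x).card = (J y).card := by
      intro x hx y hy
      exact congrArg Prod.snd ((hRr x hx).trans (hRr y hy).symm)
    have htriR : ∀ x ∈ R, ∀ y ∈ R, ∀ z ∈ R, key x < key y → key y < key z →
        cross x y ∨ cross y z := by
      intro x hx y hy z hz hxy hyz
      refine htri x (hRX x hx) y (hRX y hy) z (hRX z hz) (hcls x hx y hy) (hcls y hy z hz)
        hxy hyz ?_
      intro k hk hkc hk1 hk2
      have hsub : J x ⊆ J z := by
        intro l hl
        rw [hJ, mem_filter] at hl ⊢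
        exact ⟨hl.1, hl.2.1.trans (hcls x hx z hz), hl.2.2.trans (hxy.trans hyz)⟩
      have heq : J x = J z := eq_of_subset_of_card_le hsub (hcard z hz x hx).le
      have hkz : k ∈ J z := by
        rw [hJ, mem_filter]
        exact ⟨hk, hkc.trans (hcls x hx z hz), hk2⟩
      rw [← heq, hJ, mem_filter] at hkz
      linarith [hkz.2.2]
    set S := R.filter (fun y => ∃ x ∈ R, key x < key y ∧ ¬ cross x y) with hS
    have hinjR : ∀ x ∈ R, ∀ y ∈ R, key x = key y → x = y := fun x hx y hy h =>
      hinj x (hRX x hx) y (hRX y hy) (hcls x hx y hy) h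
    have hSR : ∀ x ∈ S, x ∈ R := fun x hx => (mem_filter.1 hx).1
    have hTR : ∀ x ∈ R \ S, x ∈ R := fun x hx => (mem_sdiff.1 hx).1
    have hs := card_LT key S (fun x hx y hy => hinjR x (hSR x hx) y (hSR y hy))
    have ht := card_LT key (R \ S) (fun x hx y hy => hinjR x (hTR x hx) y (hTR y hy))
    have hsum : S.card + (R \ S).card = R.card := by
      have h1 := card_sdiff_add_card_eq_card (s := S) (t := R) (filter_subset _ _)
      omega
    have hsub : LT key S ∪ LT key (R \ S) ⊆ P.filter (fun q => ρ q.1 = r) := by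
      intro q hq
      rw [mem_union, mem_LT, mem_LT] at hq
      rw [mem_filter]
      rcases hq with ⟨⟨h1, h2⟩, h3⟩ | ⟨⟨h1, h2⟩, h3⟩
      · refine ⟨?_, hRr _ (hSR _ h1)⟩
        refine hP q.1 (hRX _ (hSR _ h1)) q.2 (hRX _ (hSR _ h2)) (hcls _ (hSR _ h1) _ (hSR _ h2))
          h3 ?_
        obtain ⟨-, x, hx, hx1, hx2⟩ := mem_filter.1 h1
        rcases htriR x hx q.1 (hSR _ h1) q.2 (hSR _ h2) hx1 h3 with h4 | h4
        · exact absurd h4 hx2
        · exact h4
      · refine ⟨?_, hRr _ (hTR _ h1)⟩
        refine hP q.1 (hRX _ (hTR _ h1)) q.2 (hRX _ (hTR _ h2)) (hcls _ (hTR _ h1) _ (hTR _ h2))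
          h3 ?_
        by_contra h4
        exact (mem_sdiff.1 h2).2 (mem_filter.2 ⟨hTR _ h2, q.1, hTR _ h1, h3, h4⟩)
    have hdisj : Disjoint (LT key S) (LT key (R \ S)) := by
      rw [disjoint_left]
      intro q h1 h2
      rw [mem_LT] at h1 h2
      exact (mem_sdiff.1 h2.1.1).2 h1.1.1
    have hle := card_le_card hsub
    rw [card_union_of_disjoint hdisj] at hle
    set s := S.card
    set t := (R \ S).card
    set w := R.card
    set a := (LT key S).card
    set b := (LT key (R \ S)).card
    have hsq : w ^ 2 ≤ 2 * (s * s) + 2 * (t * t) := by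
      rw [← hsum]
      zify
      nlinarith [sq_nonneg ((s : ℤ) - t)]
    omega
  -- summation
  have hmaps : ∀ x ∈ X, ρ x ∈ X.image ρ := fun x hx => mem_image_of_mem _ hx
  have hX : X.card = ∑ r ∈ X.image ρ, (X.filter (fun x => ρ x = r)).card :=
    card_eq_sum_card_fiberwise hmaps
  have hPs : ∑ r ∈ X.image ρ, (P.filter (fun q => ρ q.1 = r)).card ≤ P.card := by
    rw [Finset.sum_card_fiberwise_eq_card_filter]
    exact card_le_card (filter_subset _ _)
  have hCS : (∑ r ∈ X.image ρ, (X.filter (fun x => ρ x = r)).card) ^ 2 ≤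
      (X.image ρ).card * ∑ r ∈ X.image ρ, (X.filter (fun x => ρ x = r)).card ^ 2 :=
    sq_sum_le_card_mul_sum_sq
  have hsumsq : ∑ r ∈ X.image ρ, (X.filter (fun x => ρ x = r)).card ^ 2 ≤
      4 * P.card + 2 * X.card := by
    refine (Finset.sum_le_sum hrun).trans ?_
    rw [Finset.sum_add_distrib, ← Finset.mul_sum, ← Finset.mul_sum, ← hX]
    omega
  rw [← hX] at hCS
  calc X.card ^ 2 ≤ (X.image ρ).card * (4 * P.card + 2 * X.card) :=
        hCS.trans (Nat.mul_le_mul_left _ hsumsq)
    _ ≤ ((X.image cls).card + Bd.card) * (4 * P.card + 2 * X.card) :=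
        Nat.mul_le_mul_right _ hruns
    _ ≤ ((X.image cls).card + Bd.card) * (8 * (P.card + X.card)) :=
        Nat.mul_le_mul_left _ (by omega)
    _ = 8 * ((X.image cls).card + Bd.card) * (P.card + X.card) := by ring

end TPH
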