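import Pool.Agent.TPH.St5
import Pool.Agent.TPH.Closed

/-!
# Three parallel hyperplanes: for out alternations `y` is not in the plane of `e`
-/

set_option autoImplicit false

namespace TPH

/-- **AltNe.** -/
theorem t_AltNe (hAltBasic : StmtAltBasic) (hAltSigns : StmtAltSigns) : StmtAltNe := by
  intro A B C x u v z y c₁ c₂ h hne hdet
  obtain ⟨-, -, hTu, -⟩ := hAltBasic A B C x u v h.al
  obtain ⟨hTz, hTy, -⟩ := hAltSigns A B C x u v z y c₁ c₂ h
  have hA := h.hA
  have hB := h.hB
  obtain ⟨α, β, hy⟩ := hA.comb ((hA.perp_iff y).mpr hdet)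
  -- `β > 0`
  have hβ : 0 < β := by
    have h1 : ip (Tv x) y = β * ip (Tv x) z := by
      rw [hy, ip_add_right, ip_smul_right, ip_smul_right, hTu]; ring
    rw [h1] at hTy
    by_contra hcon
    push Not at hcon
    have := mul_nonneg_of_nonpos_of_nonpos hcon hTz.le
    linarith
  -- `c` is a maximiser of `y` and of `z`
  have hcy : x.2.2 ∈ Mx C y := by rw [hB.cz]; simp
  have hcz : x.2.2 ∈ Mx C z := by rw [hA.cz]; simp
  have hcu : x.2.2 ∈ Mx C u := by rw [hA.cu]; simp
  -- `α > 0`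
  have hα : 0 < α := by
    have h1 : c₁ ∉ Mx C y := by
      rw [hB.cz]
      simp only [Finset.mem_insert, Finset.mem_singleton, not_or]
      exact ⟨hA.ne.symm, fun h => hne h.symm⟩
    have h2 := Mx_lt hcy hA.c'_mem h1
    have h3 : ip (x.2.2 - c₁) y = α * ip (x.2.2 - c₁) u := by
      rw [hy, ip_add_right, ip_smul_right, ip_smul_right, hA.wz]; ring
    have h4 : 0 < ip (x.2.2 - c₁) y := by rw [ip_sub_left]; linarith
    rw [h3] at h4
    exact (pos_iff_pos_of_mul_pos h4).mpr hA.wu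
  -- the contradiction
  have h1 : c₂ ∉ Mx C z := by
    rw [hA.cz]
    simp only [Finset.mem_insert, Finset.mem_singleton, not_or]
    exact ⟨hB.ne.symm, hne⟩
  have h2 : c₂ ∉ Mx C u := by
    rw [hA.cu]
    simp only [Finset.mem_singleton]
    exact hB.ne.symm
  have h3 := Mx_lt hcz hB.c'_mem h1
  have h4 := Mx_lt hcu hB.c'_mem h2
  have h5 := hB.wz
  rw [hy, ip_add_right, ip_smul_right, ip_smul_right, ip_sub_left, ip_sub_left] at h5
  have h6 : 0 < α * (ip x.2.2 u - ip c₂ u) := mul_pos hα (by linarith)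
  have h7 : 0 < β * (ip x.2.2 z - ip c₂ z) := mul_pos hβ (by linarith)
  linarith

end TPH
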