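import Pool.Agent.TPH.St9
import Pool.Agent.TPH.Closed

/-!
# Three parallel hyperplanes: at most one point of `A` with `BB` and without a local event
-/

set_option autoImplicit false

namespace TPH

namespace MBBUniq

theorem ne_zero {C : Finset E} {c w : E} (hC : 2 ≤ C.card) (h : Mx C w = {c}) : w ≠ 0 := by
  rintro rfl
  rw [Mx_zero] at h
  rw [h, Finset.card_singleton] at hC
  omega

theorem cr_ne {A C : Finset E} {a₁ a₂ c w₁ w₂ : E} (hC : 2 ≤ C.card) (hne : a₁ ≠ a₂)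
    (hA1 : Mx A w₁ = {a₁}) (hC1 : Mx C w₁ = {c}) (hA2 : Mx A w₂ = {a₂}) (hC2 : Mx C w₂ = {c}) :
    cr w₁ w₂ ≠ 0 := by
  intro h
  obtain ⟨k, hk⟩ := par_of_cr (ne_zero hC hC1) h
  rcases lt_trichotomy k 0 with h0 | h0 | h0
  · have hc1 : c ∈ Mx C w₁ := by rw [hC1]; exact Finset.mem_singleton_self c
    have hc2 : c ∈ Mx C w₂ := by rw [hC2]; exact Finset.mem_singleton_self c
    have hsub : C ⊆ {c} := by
      intro c' hc'
      have h1 := Mx_le hc1 hc'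
      have h2 := Mx_le hc2 hc'
      rw [hk, ip_smul_right, ip_smul_right] at h2
      have h3 : ip c' w₁ = ip c w₁ := by nlinarith
      have h4 := mem_Mx_of_eq hc1 hc' h3
      rwa [hC1] at h4
    have := Finset.card_le_card hsub
    rw [Finset.card_singleton] at this
    omega
  · rw [h0, zero_smul] at hk
    exact ne_zero hC hC2 hk
  · rw [hk, Mx_smul h0, hA1] at hA2
    exact hne (Finset.singleton_injective hA2)

theorem exists_r {A B : Finset E} {c w₁ w₂ : E} (hr : ∃ r, InR A B c r) (h : cr w₁ w₂ ≠ 0) :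
    ∃ r, InR A B c r ∧ det3 r w₁ w₂ ≠ 0 := by
  obtain ⟨r, hr⟩ := hr
  by_cases h0 : det3 r w₁ w₂ = 0
  · obtain ⟨ε, hε, h1⟩ := hr.open' (cr w₁ w₂)
    refine ⟨r + (ε / 2) • cr w₁ w₂, h1 _ (by rw [abs_of_pos (by linarith)]; linarith), ?_⟩
    have h2 := ip_self_pos h
    have h3 : det3 (cr w₁ w₂) w₁ w₂ = ip (cr w₁ w₂) (cr w₁ w₂) := by
      rw [ip_cr]
      exact (det3_cyc (cr w₁ w₂) w₁ w₂).symm
    rw [det3_add1, det3_smul1, h0, h3, zero_add]
    exact (mul_pos (by linarith) h2).ne'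
  · exact ⟨r, hr, h0⟩

end MBBUniq

open MBBUniq in
theorem t_BBUniq (hLocEvent : StmtLocEvent) : StmtBBUniq := by
  intro A B C a₁ a₂ c hC hr hb1 hb2 hle
  by_contra hne
  obtain ⟨w₁, t1, hA1, hC1, hB1⟩ := hb1
  obtain ⟨w₂, t2, hA2, hC2, -⟩ := hb2
  obtain ⟨r, hr', hdet⟩ := exists_r hr (cr_ne hC hne hA1 hC1 hA2 hC2)
  apply hle
  refine hLocEvent A B C a₁ c r w₁ w₂ hr' t1 t2 hdet hA1 hC1 hB1 ?_
  rw [hA2, Finset.mem_singleton]
  exact hne

end TPH
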