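import Pool.Agent.TPH.Defs

/-!
# Three parallel hyperplanes: basic lemmas
-/

namespace TPH

/-! ### inner product -/

theorem ip_comm (u v : E) : ip u v = ip v u := by simp only [ip]; ring
theorem ip_add_left (u v w : E) : ip (u + v) w = ip u w + ip v w := by
  simp only [ip, Pi.add_apply]; ring
theorem ip_add_right (u v w : E) : ip u (v + w) = ip u v + ip u w := by
  simp only [ip, Pi.add_apply]; ring
theorem ip_sub_left (u v w : E) : ip (u - v) w = ip u w - ip v w := by
  simp only [ip, Pi.sub_apply]; ring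
theorem ip_sub_right (u v w : E) : ip u (v - w) = ip u v - ip u w := by
  simp only [ip, Pi.sub_apply]; ring
theorem ip_smul_left (k : ℝ) (u v : E) : ip (k • u) v = k * ip u v := by
  simp only [ip, Pi.smul_apply, smul_eq_mul]; ring
theorem ip_smul_right (k : ℝ) (u v : E) : ip u (k • v) = k * ip u v := by
  simp only [ip, Pi.smul_apply, smul_eq_mul]; ring
theorem ip_neg_left (u v : E) : ip (-u) v = -ip u v := by
  simp only [ip, Pi.neg_apply]; ring
theorem ip_neg_right (u v : E) : ip u (-v) = -ip u v := by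
  simp only [ip, Pi.neg_apply]; ring
theorem ip_zero_left (u : E) : ip 0 u = 0 := by simp [ip]
theorem ip_zero_right (u : E) : ip u 0 = 0 := by simp [ip]

theorem ip_self_pos {u : E} (h : u ≠ 0) : 0 < ip u u := by
  have h1 : 0 ≤ ip u u := by simp only [ip]; nlinarith [mul_self_nonneg (u 0), mul_self_nonneg (u 1), mul_self_nonneg (u 2)]
  rcases h1.lt_or_eq with h2 | h2
  · exact h2
  · exfalso; apply h
    simp only [ip] at h2
    have h0 : u 0 = 0 := by nlinarith [mul_self_nonneg (u 0), mul_self_nonneg (u 1), mul_self_nonneg (u 2)]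
    have h1 : u 1 = 0 := by nlinarith [mul_self_nonneg (u 0), mul_self_nonneg (u 1), mul_self_nonneg (u 2)]
    have h3 : u 2 = 0 := by nlinarith [mul_self_nonneg (u 0), mul_self_nonneg (u 1), mul_self_nonneg (u 2)]
    funext i; fin_cases i <;> simp [h0, h1, h3]

/-! ### determinant and cross product -/

theorem det3_add1 (a b v w : E) : det3 (a + b) v w = det3 a v w + det3 b v w := by
  simp only [det3, Pi.add_apply]; ring
theorem det3_add2 (u a b w : E) : det3 u (a + b) w = det3 u a w + det3 u b w := by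
  simp only [det3, Pi.add_apply]; ring
theorem det3_add3 (u v a b : E) : det3 u v (a + b) = det3 u v a + det3 u v b := by
  simp only [det3, Pi.add_apply]; ring
theorem det3_sub1 (a b v w : E) : det3 (a - b) v w = det3 a v w - det3 b v w := by
  simp only [det3, Pi.sub_apply]; ring
theorem det3_sub2 (u a b w : E) : det3 u (a - b) w = det3 u a w - det3 u b w := by
  simp only [det3, Pi.sub_apply]; ring
theorem det3_sub3 (u v a b : E) : det3 u v (a - b) = det3 u v a - det3 u v b := by
  simp only [det3, Pi.sub_apply]; ring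
theorem det3_smul1 (k : ℝ) (u v w : E) : det3 (k • u) v w = k * det3 u v w := by
  simp only [det3, Pi.smul_apply, smul_eq_mul]; ring
theorem det3_smul2 (k : ℝ) (u v w : E) : det3 u (k • v) w = k * det3 u v w := by
  simp only [det3, Pi.smul_apply, smul_eq_mul]; ring
theorem det3_smul3 (k : ℝ) (u v w : E) : det3 u v (k • w) = k * det3 u v w := by
  simp only [det3, Pi.smul_apply, smul_eq_mul]; ring
theorem det3_neg1 (u v w : E) : det3 (-u) v w = -det3 u v w := by
  simp only [det3, Pi.neg_apply]; ring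
theorem det3_neg2 (u v w : E) : det3 u (-v) w = -det3 u v w := by
  simp only [det3, Pi.neg_apply]; ring
theorem det3_neg3 (u v w : E) : det3 u v (-w) = -det3 u v w := by
  simp only [det3, Pi.neg_apply]; ring
theorem det3_swap12 (u v w : E) : det3 v u w = -det3 u v w := by simp only [det3]; ring
theorem det3_swap23 (u v w : E) : det3 u w v = -det3 u v w := by simp only [det3]; ring
theorem det3_swap13 (u v w : E) : det3 w v u = -det3 u v w := by simp only [det3]; ring
theorem det3_cyc (u v w : E) : det3 v w u = det3 u v w := by simp only [det3]; ring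
theorem det3_cyc' (u v w : E) : det3 w u v = det3 u v w := by simp only [det3]; ring
theorem det3_self12 (u w : E) : det3 u u w = 0 := by simp only [det3]; ring
theorem det3_self13 (u v : E) : det3 u v u = 0 := by simp only [det3]; ring
theorem det3_self23 (u v : E) : det3 u v v = 0 := by simp only [det3]; ring
theorem det3_zero1 (v w : E) : det3 0 v w = 0 := by simp [det3]
theorem det3_zero2 (u w : E) : det3 u 0 w = 0 := by simp [det3]
theorem det3_zero3 (u v : E) : det3 u v 0 = 0 := by simp [det3]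

theorem ip_cr (u v w : E) : ip (cr u v) w = det3 u v w := by
  simp only [ip, cr, det3, Matrix.cons_val_zero, Matrix.cons_val_one, Matrix.cons_val]; ring
theorem ip_cr' (u v w : E) : ip w (cr u v) = det3 u v w := by rw [ip_comm, ip_cr]
theorem cr_self (u : E) : cr u u = 0 := by
  funext i; fin_cases i <;> simp [cr] <;> ring
theorem cr_swap (u v : E) : cr v u = -cr u v := by
  funext i; fin_cases i <;> simp [cr] <;> ring

/-- Cramer's rule. -/
theorem cramer (z y u v : E) :
    det3 z y u • v = det3 v y u • z + det3 z v u • y + det3 z y v • u := by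
  funext i; fin_cases i <;> simp [det3] <;> ring

/-- Lagrange's identity. -/
theorem lagrange (u v : E) : ip (cr u v) (cr u v) = ip u u * ip v v - ip u v * ip u v := by
  simp only [ip, cr, Matrix.cons_val_zero, Matrix.cons_val_one, Matrix.cons_val]; ring

/-- If the cross product vanishes and `u ≠ 0`, then `v` is a multiple of `u`. -/
theorem par_of_cr {u v : E} (hu : u ≠ 0) (h : cr u v = 0) : ∃ k : ℝ, v = k • u := by
  have hp := ip_self_pos hu
  refine ⟨ip u v / ip u u, ?_⟩
  have h0 : u 1 * v 2 - u 2 * v 1 = 0 := by simpa [cr] using congrFun h 0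
  have h1 : u 2 * v 0 - u 0 * v 2 = 0 := by simpa [cr] using congrFun h 1
  have h2 : u 0 * v 1 - u 1 * v 0 = 0 := by simpa [cr] using congrFun h 2
  have key : ∀ i, ip u u * v i = ip u v * u i := by
    intro i
    fin_cases i
    · simp only [ip, Fin.zero_eta, Fin.mk_one, Fin.reduceFinMk]; linear_combination (-u 1) * h2 + u 2 * h1
    · simp only [ip, Fin.zero_eta, Fin.mk_one, Fin.reduceFinMk]; linear_combination (u 0) * h2 - u 2 * h0
    · simp only [ip, Fin.zero_eta, Fin.mk_one, Fin.reduceFinMk]; linear_combination (-u 0) * h1 + u 1 * h0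
  funext i
  have := key i
  simp only [Pi.smul_apply, smul_eq_mul]
  field_simp
  linarith

/-- A vector orthogonal to two independent vectors `z`, `u` is a multiple of their cross product. -/
theorem par_cr_of_ip {z u d : E} (hzu : cr z u ≠ 0) (h1 : ip d z = 0) (h2 : ip d u = 0) :
    ∃ k : ℝ, d = k • cr z u := by
  apply par_of_cr hzu
  have e1 : u 0 * d 0 + u 1 * d 1 + u 2 * d 2 = 0 := by simp only [ip] at h2; linarith
  have e2 : z 0 * d 0 + z 1 * d 1 + z 2 * d 2 = 0 := by simp only [ip] at h1; linarith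
  funext i; fin_cases i
  · simp [cr]; linear_combination (-z 0) * e1 + u 0 * e2
  · simp [cr]; linear_combination (-z 1) * e1 + u 1 * e2
  · simp [cr]; linear_combination (-z 2) * e1 + u 2 * e2

/-- In the plane `d^⊥`, every vector is a combination of two independent vectors. -/
theorem comb_of_perp {z u d v : E} (hd : d ≠ 0) (hzu : cr z u ≠ 0) (hz : ip d z = 0)
    (hu : ip d u = 0) (hv : ip d v = 0) : ∃ α β : ℝ, v = α • z + β • u := by
  obtain ⟨k, hk⟩ := par_cr_of_ip hzu hz hu
  have hk0 : k ≠ 0 := by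
    rintro rfl; apply hd; rw [hk]; simp
  have hdet : det3 z u v = 0 := by
    have : ip d v = k * det3 z u v := by rw [hk, ip_smul_left, ip_cr]
    rw [hv] at this
    rcases mul_eq_zero.mp this.symm with h | h
    · exact absurd h hk0
    · exact h
  -- use Cramer's rule with the third vector `cr z u`
  have hc := cramer z u (cr z u) v
  have hpos : 0 < det3 z u (cr z u) := by rw [← ip_cr]; exact ip_self_pos hzu
  rw [hdet, zero_smul, add_zero] at hc
  refine ⟨det3 v u (cr z u) / det3 z u (cr z u), det3 z v (cr z u) / det3 z u (cr z u), ?_⟩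
  have hne := hpos.ne'
  funext i
  have := congrFun hc i
  simp only [Pi.smul_apply, Pi.add_apply, smul_eq_mul] at this ⊢
  field_simp
  linarith

/-! ### maximisers -/

theorem mem_Mx {A : Finset E} {u a : E} : a ∈ Mx A u ↔ a ∈ A ∧ ∀ a' ∈ A, ip a' u ≤ ip a u := by
  simp [Mx]

theorem Mx_subset (A : Finset E) (u : E) : Mx A u ⊆ A := fun _ h => (mem_Mx.mp h).1

theorem Mx_nonempty {A : Finset E} (h : A.Nonempty) (u : E) : (Mx A u).Nonempty := by
  obtain ⟨a, ha, hm⟩ := A.exists_max_image (fun a => ip a u) h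
  exact ⟨a, mem_Mx.mpr ⟨ha, hm⟩⟩

theorem Mx_le {A : Finset E} {u a a' : E} (h : a ∈ Mx A u) (h' : a' ∈ A) : ip a' u ≤ ip a u :=
  (mem_Mx.mp h).2 a' h'

theorem Mx_eq {A : Finset E} {u a a' : E} (h : a ∈ Mx A u) (h' : a' ∈ Mx A u) :
    ip a u = ip a' u :=
  le_antisymm (Mx_le h' (Mx_subset _ _ h)) (Mx_le h (Mx_subset _ _ h'))

theorem Mx_lt {A : Finset E} {u a a' : E} (h : a ∈ Mx A u) (h' : a' ∈ A) (hn : a' ∉ Mx A u) :
    ip a' u < ip a u := by
  rcases (Mx_le h h').lt_or_eq with hl | he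
  · exact hl
  · exfalso; apply hn
    refine mem_Mx.mpr ⟨h', fun b hb => ?_⟩
    rw [he]; exact Mx_le h hb

theorem mem_Mx_of_eq {A : Finset E} {u a a' : E} (h : a ∈ Mx A u) (h' : a' ∈ A)
    (he : ip a' u = ip a u) : a' ∈ Mx A u :=
  mem_Mx.mpr ⟨h', fun b hb => he ▸ Mx_le h hb⟩

theorem Mx_zero (A : Finset E) : Mx A 0 = A := by
  ext a; simp [mem_Mx, ip_zero_right]

theorem Mx_smul {k : ℝ} (hk : 0 < k) (A : Finset E) (u : E) : Mx A (k • u) = Mx A u := by
  ext a
  simp only [mem_Mx, ip_smul_right]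
  constructor
  · rintro ⟨h1, h2⟩; exact ⟨h1, fun a' h' => le_of_mul_le_mul_left (h2 a' h') hk⟩
  · rintro ⟨h1, h2⟩; exact ⟨h1, fun a' h' => mul_le_mul_of_nonneg_left (h2 a' h') hk.le⟩

/-- A common maximiser of `u` and `v` is a maximiser of every nonnegative combination. -/
theorem mem_Mx_comb {A : Finset E} {u v a : E} {α β : ℝ} (hα : 0 ≤ α) (hβ : 0 ≤ β)
    (hu : a ∈ Mx A u) (hv : a ∈ Mx A v) : a ∈ Mx A (α • u + β • v) := by
  refine mem_Mx.mpr ⟨(mem_Mx.mp hu).1, fun b hb => ?_⟩
  rw [ip_add_right, ip_add_right, ip_smul_right, ip_smul_right, ip_smul_right, ip_smul_right]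
  exact add_le_add (mul_le_mul_of_nonneg_left (Mx_le hu hb) hα)
    (mul_le_mul_of_nonneg_left (Mx_le hv hb) hβ)

/-- If `u` and `v` have a common maximiser, the maximisers of a positive combination are exactly the
common maximisers. -/
theorem Mx_comb {A : Finset E} {u v a : E} {α β : ℝ} (hα : 0 < α) (hβ : 0 < β)
    (hu : a ∈ Mx A u) (hv : a ∈ Mx A v) : Mx A (α • u + β • v) = Mx A u ∩ Mx A v := by
  have ha := mem_Mx_comb hα.le hβ.le hu hv
  ext b
  rw [Finset.mem_inter]
  constructor
  · intro hb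
    have hbA := Mx_subset _ _ hb
    have he := Mx_eq hb ha
    rw [ip_add_right, ip_add_right, ip_smul_right, ip_smul_right, ip_smul_right,
      ip_smul_right] at he
    have h1 := Mx_le hu hbA
    have h2 := Mx_le hv hbA
    constructor
    · apply mem_Mx_of_eq hu hbA
      nlinarith
    · apply mem_Mx_of_eq hv hbA
      nlinarith
  · rintro ⟨h1, h2⟩; exact mem_Mx_comb hα.le hβ.le h1 h2

/-- Variant of `Mx_comb`: one coefficient may vanish. -/
theorem Mx_comb_left {A : Finset E} {u v : E} {S : Finset E} {α β : ℝ} (hα : 0 < α) (hβ : 0 ≤ β)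
    (hne : S.Nonempty) (hu : Mx A u = S) (hv : S ⊆ Mx A v) : Mx A (α • u + β • v) = S := by
  obtain ⟨a, ha⟩ := hne
  rcases hβ.eq_or_lt with h | h
  · rw [← h, zero_smul, add_zero, Mx_smul hα, hu]
  · rw [Mx_comb hα h (a := a) (hu ▸ ha) (hv ha), hu]
    exact Finset.inter_eq_left.mpr hv

theorem Mx_comb_right {A : Finset E} {u v : E} {S : Finset E} {α β : ℝ} (hα : 0 ≤ α) (hβ : 0 < β)
    (hne : S.Nonempty) (hv : Mx A v = S) (hu : S ⊆ Mx A u) : Mx A (α • u + β • v) = S := by
  rw [add_comm]; exact Mx_comb_left hβ hα hne hv hu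

/-- Perturbation: for small positive `ε` the maximisers of `u + ε w` are the maximisers of `w` among
the maximisers of `u`. -/
theorem Mx_pert (A : Finset E) (u w : E) :
    ∃ ε₀ : ℝ, 0 < ε₀ ∧ ∀ ε : ℝ, 0 < ε → ε < ε₀ → Mx A (u + ε • w) = Mx (Mx A u) w := by
  classical
  rcases A.eq_empty_or_nonempty with rfl | hne
  · exact ⟨1, one_pos, fun ε _ _ => by ext a; simp [mem_Mx]⟩
  obtain ⟨m, hm⟩ := Mx_nonempty hne u
  obtain ⟨m', hm'⟩ := Mx_nonempty ⟨m, hm⟩ w
  -- for every `a` outside `Mx A u` there is a threshold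
  have hth : ∀ a ∈ A, ∃ δ : ℝ, 0 < δ ∧ (a ∉ Mx A u → ∀ ε : ℝ, 0 < ε → ε < δ →
      ip a (u + ε • w) < ip m' (u + ε • w)) := by
    intro a ha
    by_cases h : a ∈ Mx A u
    · exact ⟨1, one_pos, fun h' => absurd h h'⟩
    · have hlt : ip a u < ip m' u := Mx_lt (Mx_subset _ _ hm') ha h
      refine ⟨(ip m' u - ip a u) / (|ip a w - ip m' w| + 1), by
        apply div_pos; linarith; positivity, fun _ ε hε hε' => ?_⟩
      rw [lt_div_iff₀ (by positivity)] at hε'
      rw [ip_add_right, ip_add_right, ip_smul_right, ip_smul_right]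
      have := le_abs_self (ip a w - ip m' w)
      nlinarith
  choose! δ hδ hδ' using hth
  have hne' : (A.image δ).Nonempty := hne.image δ
  refine ⟨(A.image δ).min' hne', ?_, ?_⟩
  · rw [Finset.lt_min'_iff]
    intro x hx
    obtain ⟨a, ha, rfl⟩ := Finset.mem_image.mp hx
    exact hδ a ha
  · intro ε hε hε'
    have hsmall : ∀ a ∈ A, ε < δ a := fun a ha =>
      hε'.trans_le (Finset.min'_le _ _ (Finset.mem_image_of_mem _ ha))
    have hmax : m' ∈ Mx A (u + ε • w) := by
      refine mem_Mx.mpr ⟨Mx_subset _ _ (Mx_subset _ _ hm'), fun b hb => ?_⟩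
      by_cases hbm : b ∈ Mx A u
      · rw [ip_add_right, ip_add_right, ip_smul_right, ip_smul_right,
          Mx_eq hbm (Mx_subset _ _ hm')]
        have := Mx_le hm' hbm
        nlinarith
      · exact (hδ' b hb hbm ε hε (hsmall b hb)).le
    ext b
    constructor
    · intro hb
      have hbA := Mx_subset _ _ hb
      have hbm : b ∈ Mx A u := by
        by_contra hbm
        exact absurd (Mx_eq hb hmax) (hδ' b hbA hbm ε hε (hsmall b hbA)).ne
      have he := Mx_eq hb hmax
      rw [ip_add_right, ip_add_right, ip_smul_right, ip_smul_right,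
          Mx_eq hbm (Mx_subset _ _ hm')] at he
      have he' : ip b w = ip m' w := by
        have := add_left_cancel he
        exact mul_left_cancel₀ hε.ne' this
      exact mem_Mx_of_eq hm' hbm he'
    · intro hb
      have hbm := Mx_subset _ _ hb
      have he := Mx_eq hb hm'
      apply mem_Mx_of_eq hmax (Mx_subset _ _ hbm)
      rw [ip_add_right, ip_add_right, ip_smul_right, ip_smul_right,
          Mx_eq hbm (Mx_subset _ _ hm'), he]

/-- Three sets at once (use `∅` or repeat a set if you need fewer). -/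
theorem Mx_pert3 (A B C : Finset E) (u w : E) :
    ∃ ε₀ : ℝ, 0 < ε₀ ∧ ∀ ε : ℝ, 0 < ε → ε < ε₀ → Mx A (u + ε • w) = Mx (Mx A u) w ∧
      Mx B (u + ε • w) = Mx (Mx B u) w ∧ Mx C (u + ε • w) = Mx (Mx C u) w := by
  obtain ⟨ε₁, h1, h1'⟩ := Mx_pert A u w
  obtain ⟨ε₂, h2, h2'⟩ := Mx_pert B u w
  obtain ⟨ε₃, h3, h3'⟩ := Mx_pert C u w
  refine ⟨min ε₁ (min ε₂ ε₃), lt_min h1 (lt_min h2 h3), fun ε hε hlt => ?_⟩
  have ha := hlt.trans_le (min_le_left _ _)
  have hb := hlt.trans_le ((min_le_right _ _).trans (min_le_left _ _))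
  have hc := hlt.trans_le ((min_le_right _ _).trans (min_le_right _ _))
  exact ⟨h1' ε hε ha, h2' ε hε hb, h3' ε hε hc⟩

theorem Mx_singleton (a w : E) : Mx {a} w = {a} := by
  ext b
  simp only [mem_Mx, Finset.mem_singleton, forall_eq]
  constructor
  · rintro ⟨h, _⟩; exact h
  · rintro rfl; exact ⟨rfl, le_rfl⟩

theorem Mx_of_perp {S : Finset E} {w : E} (h : Perp S w) : Mx S w = S := by
  ext a
  simp only [mem_Mx]
  exact ⟨fun h' => h'.1, fun h' => ⟨h', fun b hb => (h b hb a h').le⟩⟩

/-- The maximisers of `w` on a pair. -/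
theorem Mx_pair_left {a a' w : E} (h : ip a' w < ip a w) : Mx {a, a'} w = {a} := by
  ext b
  simp only [mem_Mx, Finset.mem_insert, Finset.mem_singleton, forall_eq_or_imp, forall_eq]
  constructor
  · rintro ⟨rfl | rfl, h1, h2⟩
    · rfl
    · exfalso; linarith
  · rintro rfl; exact ⟨Or.inl rfl, le_rfl, h.le⟩

theorem Mx_pair_right {a a' w : E} (h : ip a w < ip a' w) : Mx {a, a'} w = {a'} := by
  rw [Finset.pair_comm]; exact Mx_pair_left h

/-! ### orthogonality to a face -/

theorem perp_Mx (A : Finset E) (u : E) : Perp (Mx A u) u := fun _ h _ h' => Mx_eq h h'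

theorem Perp.mono {S T : Finset E} {v : E} (h : Perp T v) (hST : S ⊆ T) : Perp S v :=
  fun a ha b hb => h a (hST ha) b (hST hb)

theorem Perp.add {S : Finset E} {u v : E} (hu : Perp S u) (hv : Perp S v) : Perp S (u + v) := by
  intro a ha b hb; rw [ip_add_right, ip_add_right, hu a ha b hb, hv a ha b hb]

theorem Perp.sub {S : Finset E} {u v : E} (hu : Perp S u) (hv : Perp S v) : Perp S (u - v) := by
  intro a ha b hb; rw [ip_sub_right, ip_sub_right, hu a ha b hb, hv a ha b hb]

theorem Perp.smul {S : Finset E} {u : E} (k : ℝ) (hu : Perp S u) : Perp S (k • u) := by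
  intro a ha b hb; rw [ip_smul_right, ip_smul_right, hu a ha b hb]

theorem Perp.comb {S : Finset E} {u v : E} (α β : ℝ) (hu : Perp S u) (hv : Perp S v) :
    Perp S (α • u + β • v) := (hu.smul α).add (hv.smul β)

theorem perp_singleton (c v : E) : Perp {c} v := by
  intro a ha b hb
  rw [Finset.mem_singleton] at ha hb; rw [ha, hb]

theorem perp_pair {a a' v : E} : Perp {a, a'} v ↔ ip a v = ip a' v := by
  constructor
  · intro h; exact h a (by simp) a' (by simp)
  · intro h b hb b' hb'
    simp only [Finset.mem_insert, Finset.mem_singleton] at hb hb'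
    rcases hb with rfl | rfl <;> rcases hb' with rfl | rfl <;> simp [h]

/-- For a pair `e`, with `Perp e z`, `Perp e u` and `z`, `u` independent, the plane of `e` is given
by the determinant, and it is spanned by `z` and `u`. -/
theorem perp_iff_det {e : Finset E} (he : e.card = 2) {z u : E} (hz : Perp e z) (hu : Perp e u)
    (hzu : cr z u ≠ 0) (v : E) : Perp e v ↔ det3 z v u = 0 := by
  obtain ⟨a, a', hne, rfl⟩ := Finset.card_eq_two.mp he
  rw [perp_pair] at hz hu ⊢
  have h1 : ip (a - a') z = 0 := by rw [ip_sub_left, hz, sub_self]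
  have h2 : ip (a - a') u = 0 := by rw [ip_sub_left, hu, sub_self]
  obtain ⟨k, hk⟩ := par_cr_of_ip hzu h1 h2
  have hk0 : k ≠ 0 := by
    rintro rfl; apply hne; rw [zero_smul] at hk; exact sub_eq_zero.mp hk
  have h3 : ip a v - ip a' v = k * det3 z u v := by
    rw [← ip_sub_left, hk, ip_smul_left, ip_cr]
  rw [det3_swap23 z u v, neg_eq_zero]
  constructor
  · intro h
    rw [h, sub_self] at h3
    rcases mul_eq_zero.mp h3.symm with h | h
    · exact absurd h hk0
    · exact h
  · intro h
    rw [h, mul_zero] at h3; linarith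

theorem perp_comb {e : Finset E} (he : e.card = 2) {z u v : E} (hz : Perp e z) (hu : Perp e u)
    (hzu : cr z u ≠ 0) (hv : Perp e v) : ∃ α β : ℝ, v = α • z + β • u := by
  obtain ⟨a, a', hne, rfl⟩ := Finset.card_eq_two.mp he
  rw [perp_pair] at hz hu hv
  exact comb_of_perp (d := a - a') (sub_ne_zero.mpr hne) hzu
    (by rw [ip_sub_left, hz, sub_self]) (by rw [ip_sub_left, hu, sub_self])
    (by rw [ip_sub_left, hv, sub_self])

/-! ### the cone `R_c` -/

theorem InR.le {A B : Finset E} {c u : E} (h : InR A B c u) : InRc A B c u :=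
  fun a ha b hb => (h a ha b hb).le

theorem inR_comm {A B : Finset E} {c u : E} : InR A B c u ↔ InR B A c u := by
  constructor <;> intro h a ha b hb <;> · have := h b hb a ha; linarith

theorem inRc_comm {A B : Finset E} {c u : E} : InRc A B c u ↔ InRc B A c u := by
  constructor <;> intro h a ha b hb <;> · have := h b hb a ha; linarith

theorem InR.add {A B : Finset E} {c u v : E} (hu : InR A B c u) (hv : InRc A B c v) :
    InR A B c (u + v) := by
  intro a ha b hb
  have h1 := hu a ha b hb; have h2 := hv a ha b hb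
  rw [ip_add_right, ip_add_right, ip_add_right]; linarith

theorem InRc.add {A B : Finset E} {c u v : E} (hu : InRc A B c u) (hv : InRc A B c v) :
    InRc A B c (u + v) := by
  intro a ha b hb
  have h1 := hu a ha b hb; have h2 := hv a ha b hb
  rw [ip_add_right, ip_add_right, ip_add_right]; linarith

theorem InR.smul {A B : Finset E} {c u : E} {k : ℝ} (hk : 0 < k) (hu : InR A B c u) :
    InR A B c (k • u) := by
  intro a ha b hb
  have h1 := hu a ha b hb
  rw [ip_smul_right, ip_smul_right, ip_smul_right]; nlinarith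

theorem InRc.smul {A B : Finset E} {c u : E} {k : ℝ} (hk : 0 ≤ k) (hu : InRc A B c u) :
    InRc A B c (k • u) := by
  intro a ha b hb
  have h1 := hu a ha b hb
  rw [ip_smul_right, ip_smul_right, ip_smul_right]; nlinarith

/-- Combination: first coefficient positive with `InR`, second nonnegative with `InRc`. -/
theorem InR.comb {A B : Finset E} {c u v : E} {α β : ℝ} (hα : 0 < α) (hβ : 0 ≤ β)
    (hu : InR A B c u) (hv : InRc A B c v) : InR A B c (α • u + β • v) :=
  (hu.smul hα).add (hv.smul hβ)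

theorem InRc.comb {A B : Finset E} {c u v : E} {α β : ℝ} (hα : 0 ≤ α) (hβ : 0 ≤ β)
    (hu : InRc A B c u) (hv : InRc A B c v) : InRc A B c (α • u + β • v) :=
  (hu.smul hα).add (hv.smul hβ)

/-- `R_c` is open. -/
theorem InR.open' {A B : Finset E} {c u : E} (hu : InR A B c u) (w : E) :
    ∃ ε₀ : ℝ, 0 < ε₀ ∧ ∀ ε : ℝ, |ε| < ε₀ → InR A B c (u + ε • w) := by
  classical
  rcases (A ×ˢ B).eq_empty_or_nonempty with h | hne
  · refine ⟨1, one_pos, fun ε _ a ha b hb => ?_⟩
    have : (a, b) ∈ A ×ˢ B := Finset.mem_product.mpr ⟨ha, hb⟩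
    rw [h] at this; simp at this
  · have hth : ∀ p ∈ A ×ˢ B, ∃ δ : ℝ, 0 < δ ∧ ∀ ε : ℝ, |ε| < δ →
        ip p.1 (u + ε • w) + ip p.2 (u + ε • w) < 2 * ip c (u + ε • w) := by
      rintro ⟨a, b⟩ hp
      obtain ⟨ha, hb⟩ := Finset.mem_product.mp hp
      have h := hu a ha b hb
      refine ⟨(2 * ip c u - (ip a u + ip b u)) / (|ip a w + ip b w - 2 * ip c w| + 1), by
        apply div_pos; linarith; positivity, fun ε hε => ?_⟩
      rw [lt_div_iff₀ (by positivity)] at hε
      simp only [ip_add_right, ip_smul_right]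
      have h1 : ε * (ip a w + ip b w - 2 * ip c w) ≤ |ε| * |ip a w + ip b w - 2 * ip c w| := by
        rw [← abs_mul]; exact le_abs_self _
      have h2 := abs_nonneg ε
      nlinarith
    choose! δ hδ hδ' using hth
    have hne' : ((A ×ˢ B).image δ).Nonempty := hne.image δ
    refine ⟨((A ×ˢ B).image δ).min' hne', ?_, ?_⟩
    · rw [Finset.lt_min'_iff]
      intro x hx
      obtain ⟨p, hp, rfl⟩ := Finset.mem_image.mp hx
      exact hδ p hp
    · intro ε hε a ha b hb
      have hp : (a, b) ∈ A ×ˢ B := Finset.mem_product.mpr ⟨ha, hb⟩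
      exact hδ' _ hp ε (hε.trans_le (Finset.min'_le _ _ (Finset.mem_image_of_mem _ hp)))

theorem not_inR_zero {A B : Finset E} (hA : A.Nonempty) (hB : B.Nonempty) (c : E) :
    ¬ InR A B c 0 := by
  obtain ⟨a, ha⟩ := hA
  obtain ⟨b, hb⟩ := hB
  intro h
  have := h a ha b hb
  simp [ip_zero_right] at this

/-- To be in `R_c` it is enough to compare with one pair of maximisers. -/
theorem inR_of_mem {A B : Finset E} {c u a b : E} (ha : a ∈ Mx A u) (hb : b ∈ Mx B u)
    (h : ip a u + ip b u < 2 * ip c u) : InR A B c u := by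
  intro a' ha' b' hb'
  have h1 := Mx_le ha ha'; have h2 := Mx_le hb hb'; linarith

theorem inRc_of_mem {A B : Finset E} {c u a b : E} (ha : a ∈ Mx A u) (hb : b ∈ Mx B u)
    (h : ip a u + ip b u ≤ 2 * ip c u) : InRc A B c u := by
  intro a' ha' b' hb'
  have h1 := Mx_le ha ha'; have h2 := Mx_le hb hb'; linarith

/-! ### rotation -/

/-- Rotate `u` towards `w` (and then further, towards `-u`) until a constraint becomes tight. -/
theorem rotate_core (D : Finset E) (hD : D.Nonempty) (u w : E) (h : ∀ d ∈ D, ip d u < 0) :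
    ∃ M τ : ℝ, 0 < M ∧ 0 < τ ∧ (∀ d ∈ D, ip d (u + τ • (w - M • u)) ≤ 0) ∧
      (∃ d ∈ D, ip d (u + τ • (w - M • u)) = 0) ∧
      ∀ τ' : ℝ, 0 ≤ τ' → τ' < τ → ∀ d ∈ D, ip d (u + τ' • (w - M • u)) < 0 := by
  classical
  -- choose `M`
  have hM : ∃ M : ℝ, 0 < M ∧ ∀ d ∈ D, 0 < ip d (w - M • u) := by
    have hth : ∀ d ∈ D, ∃ m : ℝ, 0 < m ∧ ∀ M : ℝ, m ≤ M → 0 < ip d (w - M • u) := by
      intro d hd
      have hdu := h d hd
      refine ⟨(|ip d w| + 1) / (-ip d u), by apply div_pos; positivity; linarith, fun M hM => ?_⟩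
      rw [div_le_iff₀ (by linarith)] at hM
      rw [ip_sub_right, ip_smul_right]
      have := neg_abs_le (ip d w)
      linarith
    choose! m hm hm' using hth
    have hne' : (D.image m).Nonempty := hD.image m
    refine ⟨(D.image m).max' hne', ?_, fun d hd => ?_⟩
    · obtain ⟨d, hd⟩ := hD
      exact (hm d hd).trans_le (Finset.le_max' _ _ (Finset.mem_image_of_mem _ hd))
    · exact hm' d hd _ (Finset.le_max' _ _ (Finset.mem_image_of_mem _ hd))
  obtain ⟨M, hM0, hM⟩ := hM
  obtain ⟨d₀, hd₀, hmin⟩ := D.exists_min_image (fun d => (-ip d u) / ip d (w - M • u)) hD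
  have hτ : 0 < (-ip d₀ u) / ip d₀ (w - M • u) := by
    apply div_pos; have := h d₀ hd₀; linarith; exact hM d₀ hd₀
  refine ⟨M, (-ip d₀ u) / ip d₀ (w - M • u), hM0, hτ, ?_, ⟨d₀, hd₀, ?_⟩, ?_⟩
  · intro d hd
    rw [ip_add_right, ip_smul_right]
    have h1 := hmin d hd
    have h2 := hM d hd
    have h3 : (-ip d₀ u) / ip d₀ (w - M • u) * ip d (w - M • u) ≤ -ip d u := by
      rw [← le_div_iff₀ h2]; exact h1
    linarith
  · rw [ip_add_right, ip_smul_right, div_mul_cancel₀ _ (hM d₀ hd₀).ne']; ring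
  · intro τ' h0 hlt d hd
    rw [ip_add_right, ip_smul_right]
    have h1 := hmin d hd
    have h2 := hM d hd
    have h3 : τ' * ip d (w - M • u) < -ip d u := by
      rw [← lt_div_iff₀ h2]; exact hlt.trans_le h1
    linarith

/-- Rotation for two sets. Start at `u` with maximisers `S` on `A` and `T` on `C`, and rotate towards
`w` orthogonal to both, until the pair of maximisers changes. -/
theorem rotate {A C S T : Finset E} {u w : E} (hS : Mx A u = S) (hT : Mx C u = T)
    (hSne : S.Nonempty) (hTne : T.Nonempty) (hne : S ≠ A ∨ T ≠ C) (hwS : Perp S w)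
    (hwT : Perp T w) :
    ∃ M τ : ℝ, 0 < M ∧ 0 < τ ∧ S ⊆ Mx A (u + τ • (w - M • u)) ∧ T ⊆ Mx C (u + τ • (w - M • u)) ∧
      (Mx A (u + τ • (w - M • u)) ≠ S ∨ Mx C (u + τ • (w - M • u)) ≠ T) ∧
      ∀ τ' : ℝ, 0 ≤ τ' → τ' < τ → Mx A (u + τ' • (w - M • u)) = S ∧
        Mx C (u + τ' • (w - M • u)) = T := by
  classical
  obtain ⟨s, hs⟩ := hSne
  obtain ⟨t, ht⟩ := hTne
  have hsM : s ∈ Mx A u := hS ▸ hs
  have htM : t ∈ Mx C u := hT ▸ ht
  set D : Finset E := ((A \ S).image (fun a => a - s)) ∪ ((C \ T).image (fun c => c - t)) with hDdef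
  have hDne : D.Nonempty := by
    rcases hne with h | h
    · have : (A \ S).Nonempty := by
        rw [Finset.sdiff_nonempty]; intro hsub
        exact h (Finset.Subset.antisymm (hS ▸ Mx_subset A u) hsub)
      exact (this.image _).mono Finset.subset_union_left
    · have : (C \ T).Nonempty := by
        rw [Finset.sdiff_nonempty]; intro hsub
        exact h (Finset.Subset.antisymm (hT ▸ Mx_subset C u) hsub)
      exact (this.image _).mono Finset.subset_union_right
  have hDneg : ∀ d ∈ D, ip d u < 0 := by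
    intro d hd
    rw [hDdef, Finset.mem_union, Finset.mem_image, Finset.mem_image] at hd
    rcases hd with ⟨a, ha, rfl⟩ | ⟨c, hc, rfl⟩
    · rw [Finset.mem_sdiff] at ha
      rw [ip_sub_left]
      have := Mx_lt hsM ha.1 (hS ▸ ha.2)
      linarith
    · rw [Finset.mem_sdiff] at hc
      rw [ip_sub_left]
      have := Mx_lt htM hc.1 (hT ▸ hc.2)
      linarith
  obtain ⟨M, τ, hM, hτ, hle, ⟨d₀, hd₀, heq⟩, hlt⟩ := rotate_core D hDne u w hDneg
  -- values on `S` and on `T` stay equal
  have hSperp : ∀ x : ℝ, Perp S (u + x • (w - M • u)) := fun x =>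
    (hS ▸ perp_Mx A u : Perp S u).add ((hwS.sub ((hS ▸ perp_Mx A u : Perp S u).smul M)).smul x)
  have hTperp : ∀ x : ℝ, Perp T (u + x • (w - M • u)) := fun x =>
    (hT ▸ perp_Mx C u : Perp T u).add ((hwT.sub ((hT ▸ perp_Mx C u : Perp T u).smul M)).smul x)
  have hSA : S ⊆ A := hS ▸ Mx_subset A u
  have hTC : T ⊆ C := hT ▸ Mx_subset C u
  have hSsub : S ⊆ Mx A (u + τ • (w - M • u)) := by
    intro a ha
    refine mem_Mx.mpr ⟨hSA ha, fun b hb => ?_⟩
    by_cases hbS : b ∈ S
    · exact (hSperp τ b hbS a ha).le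
    · have h1 := hle (b - s) (by
        rw [hDdef]; exact Finset.mem_union_left _ (Finset.mem_image_of_mem _
          (Finset.mem_sdiff.mpr ⟨hb, hbS⟩)))
      rw [ip_sub_left] at h1
      rw [hSperp τ a ha s hs]; linarith
  have hTsub : T ⊆ Mx C (u + τ • (w - M • u)) := by
    intro a ha
    refine mem_Mx.mpr ⟨hTC ha, fun b hb => ?_⟩
    by_cases hbS : b ∈ T
    · exact (hTperp τ b hbS a ha).le
    · have h1 := hle (b - t) (by
        rw [hDdef]; exact Finset.mem_union_right _ (Finset.mem_image_of_mem _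
          (Finset.mem_sdiff.mpr ⟨hb, hbS⟩)))
      rw [ip_sub_left] at h1
      rw [hTperp τ a ha t ht]; linarith
  refine ⟨M, τ, hM, hτ, hSsub, hTsub, ?_, ?_⟩
  · rw [hDdef, Finset.mem_union, Finset.mem_image, Finset.mem_image] at hd₀
    rcases hd₀ with ⟨a, ha, rfl⟩ | ⟨c, hc, rfl⟩
    · left
      intro hcontra
      rw [Finset.mem_sdiff] at ha
      apply ha.2
      rw [← hcontra]
      rw [ip_sub_left] at heq
      exact mem_Mx_of_eq (hSsub hs) ha.1 (by linarith)
    · right
      intro hcontra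
      rw [Finset.mem_sdiff] at hc
      apply hc.2
      rw [← hcontra]
      rw [ip_sub_left] at heq
      exact mem_Mx_of_eq (hTsub ht) hc.1 (by linarith)
  · intro τ' h0 h1
    have hneg := hlt τ' h0 h1
    constructor
    · ext b
      constructor
      · intro hb
        by_contra hbS
        have hbA := Mx_subset _ _ hb
        have h2 := hneg (b - s) (by
          rw [hDdef]; exact Finset.mem_union_left _ (Finset.mem_image_of_mem _
            (Finset.mem_sdiff.mpr ⟨hbA, hbS⟩)))
        rw [ip_sub_left] at h2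
        have h3 := Mx_le hb (hSA hs)
        linarith
      · intro hb
        refine mem_Mx.mpr ⟨hSA hb, fun b' hb' => ?_⟩
        by_cases hbS : b' ∈ S
        · exact (hSperp τ' b' hbS b hb).le
        · have h2 := hneg (b' - s) (by
            rw [hDdef]; exact Finset.mem_union_left _ (Finset.mem_image_of_mem _
              (Finset.mem_sdiff.mpr ⟨hb', hbS⟩)))
          rw [ip_sub_left] at h2
          rw [hSperp τ' b hb s hs]; linarith
    · ext b
      constructor
      · intro hb
        by_contra hbS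
        have hbA := Mx_subset _ _ hb
        have h2 := hneg (b - t) (by
          rw [hDdef]; exact Finset.mem_union_right _ (Finset.mem_image_of_mem _
            (Finset.mem_sdiff.mpr ⟨hbA, hbS⟩)))
        rw [ip_sub_left] at h2
        have h3 := Mx_le hb (hTC ht)
        linarith
      · intro hb
        refine mem_Mx.mpr ⟨hTC hb, fun b' hb' => ?_⟩
        by_cases hbS : b' ∈ T
        · exact (hTperp τ' b' hbS b hb).le
        · have h2 := hneg (b' - t) (by
            rw [hDdef]; exact Finset.mem_union_right _ (Finset.mem_image_of_mem _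
              (Finset.mem_sdiff.mpr ⟨hb', hbS⟩)))
          rw [ip_sub_left] at h2
          rw [hTperp τ' b hb t ht]; linarith

/-! ### membership in the combinatorial sets -/

theorem mem_Fc {A C : Finset E} {a c : E} :
    (a, c) ∈ Fc A C ↔ ∃ u, Mx A u = {a} ∧ Mx C u = {c} := by
  simp only [Fc, Finset.mem_filter, Finset.mem_product]
  constructor
  · exact fun h => h.2
  · rintro ⟨u, h1, h2⟩
    exact ⟨⟨Mx_subset A u (h1 ▸ Finset.mem_singleton_self a),
      Mx_subset C u (h2 ▸ Finset.mem_singleton_self c)⟩, u, h1, h2⟩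

theorem mem_Ed {A e : Finset E} : e ∈ Ed A ↔ e.card = 2 ∧ ∃ u, Mx A u = e := by
  simp only [Ed, Finset.mem_filter, Finset.mem_powerset]
  constructor
  · exact fun h => h.2
  · rintro ⟨h1, u, h2⟩
    exact ⟨h2 ▸ Mx_subset A u, h1, u, h2⟩

theorem mem_Faces {A G : Finset E} : G ∈ Faces A ↔ 3 ≤ G.card ∧ ∃ u, u ≠ 0 ∧ Mx A u = G := by
  simp only [Faces, Finset.mem_filter, Finset.mem_powerset]
  constructor
  · exact fun h => h.2
  · rintro ⟨h1, u, h0, h2⟩
    exact ⟨h2 ▸ Mx_subset A u, h1, u, h0, h2⟩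

theorem mem_Xc {A C e g : Finset E} : (e, g) ∈ Xc A C ↔ e.card = 2 ∧ g.card = 2 ∧
    (∃ u, Mx A u = e ∧ Mx C u = g) ∧ ∃ v, Perp e v ∧ ¬ Perp g v := by
  simp only [Xc, Finset.mem_filter, Finset.mem_product, Finset.mem_powerset]
  constructor
  · exact fun h => h.2
  · rintro ⟨h1, h2, ⟨u, h3, h4⟩, h5⟩
    exact ⟨⟨h3 ▸ Mx_subset A u, h4 ▸ Mx_subset C u⟩, h1, h2, ⟨u, h3, h4⟩, h5⟩

theorem mem_Pc {A C e : Finset E} {c : E} : (e, c) ∈ Pc A C ↔ e.card = 2 ∧
    ∃ u, Mx A u = e ∧ Mx C u = {c} := by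
  simp only [Pc, Finset.mem_filter, Finset.mem_product, Finset.mem_powerset]
  constructor
  · exact fun h => h.2
  · rintro ⟨h1, u, h3, h4⟩
    exact ⟨⟨h3 ▸ Mx_subset A u, Mx_subset C u (h4 ▸ Finset.mem_singleton_self c)⟩, h1, u, h3, h4⟩

theorem mem_NA {A C : Finset E} {a c a' : E} : a' ∈ NA A C a c ↔ a' ≠ a ∧
    ∃ u, Mx A u = {a, a'} ∧ Mx C u = {c} := by
  simp only [NA, Finset.mem_filter]
  constructor
  · exact fun h => h.2
  · rintro ⟨h1, u, h3, h4⟩
    exact ⟨Mx_subset A u (h3 ▸ by simp), h1, u, h3, h4⟩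

theorem mem_Sp {A C : Finset E} {a c : E} : (a, c) ∈ Sp A C ↔ (a, c) ∈ Fc A C ∧ ¬ Reg A C a c := by
  simp only [Sp, Finset.mem_filter]

theorem mem_flats {A B C : Finset E} {x : Finset E × E × Finset E} :
    x ∈ flats A B C ↔ ∃ u, IsFlat A B C x u := by
  simp only [flats, Finset.mem_filter, Finset.mem_product, Finset.mem_powerset]
  constructor
  · exact fun h => h.2
  · rintro ⟨u, h⟩
    refine ⟨⟨?_, ?_, ?_⟩, u, h⟩
    · exact h.2.2.1 ▸ Mx_subset A u
    · exact Mx_subset C u (h.2.2.2.1 ▸ Finset.mem_singleton_self _)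
    · exact h.2.2.2.2.1 ▸ Mx_subset B u

theorem fc_swap {A C : Finset E} {a c : E} : (a, c) ∈ Fc A C ↔ (c, a) ∈ Fc C A := by
  rw [mem_Fc, mem_Fc]
  constructor <;> rintro ⟨u, h1, h2⟩ <;> exact ⟨u, h2, h1⟩

theorem Ov_swap {A C : Finset E} {a c : E} : Ov A C a c ↔ Ov C A c a := by
  constructor <;> rintro ⟨ρ, h0, h1, h2, h3⟩ <;> exact ⟨ρ, h0, h2, h1, h3.symm⟩

theorem Reg_swap {A C : Finset E} {a c : E} : Reg A C a c ↔ Reg C A c a := by
  constructor <;> rintro ⟨h1, h2, h3, h4⟩ <;>
    exact ⟨fc_swap.mp h1, fun h => h2 (Ov_swap.mp h), h4, h3⟩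

end TPH
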