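import Pool.Agent.TPH.St9

/-!
# Three parallel hyperplanes: pairs of the two outer layers without local events

Proof of `StmtCellAB`: a pair `(a,b)` of the two outer layers without a local event satisfies the standing
assumptions `Cell`.
-/

namespace TPH

namespace MCellAB

/-- The elements of `TAB C a b`. -/
theorem mem_TAB {C : Finset E} {a b t : E} :
    t ∈ TAB C a b ↔ ∃ c ∈ C, a + b - (2 : ℝ) • c = t := by
  unfold TAB
  exact @Finset.mem_image E E (Classical.decEq E) (fun c => a + b - (2 : ℝ) • c) C t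

/-- The value of a condition. -/
theorem ip_cond (a b c w : E) :
    ip (a + b - (2 : ℝ) • c) w = ip a w + ip b w - 2 * ip c w := by
  rw [ip_sub_left, ip_add_left, ip_smul_left]

/-- A set which contains `a` and has at most one element is `{a}`. -/
theorem eq_single {S : Finset E} {a : E} (h : a ∈ S) (hc : ¬ 2 ≤ S.card) : S = {a} := by
  have h1 : S.card ≤ 1 := by omega
  refine Finset.eq_singleton_iff_unique_mem.mpr ⟨h, ?_⟩
  intro x hx
  exact Finset.card_le_one.mp h1 x hx a h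

/-- A tight condition gives a maximiser on `C` and a tie. -/
theorem tight (hTieBasic : StmtTieBasic) {A B C : Finset E} {a b c w : E} (hcC : c ∈ C)
    (ha : a ∈ Mx A w) (hb : b ∈ Mx B w) (hdom : ∀ t ∈ TAB C a b, 0 ≤ ip t w)
    (ht : ip (a + b - (2 : ℝ) • c) w = 0) :
    c ∈ Mx C w ∧ Tie A B c w ∧ ip a w + ip b w = 2 * ip c w := by
  rw [ip_cond] at ht
  have heq : ip a w + ip b w = 2 * ip c w := by linarith
  have hcM : c ∈ Mx C w := by
    rw [mem_Mx]
    refine ⟨hcC, ?_⟩
    intro c' hc'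
    have h1 := hdom (a + b - (2 : ℝ) • c') (mem_TAB.mpr ⟨c', hc', rfl⟩)
    rw [ip_cond] at h1
    linarith
  have hin : InRc A B c w := by
    intro a' ha' b' hb'
    have h1 := Mx_le ha ha'
    have h2 := Mx_le hb hb'
    linarith
  exact ⟨hcM, (hTieBasic A B c w).2 hin a (Mx_subset A w ha) b (Mx_subset B w hb) heq, heq⟩

end MCellAB

open MCellAB in
/-- **StmtCellAB.** -/
theorem t_CellAB (hTieBasic : StmtTieBasic) : StmtCellAB := by
  intro A B C a b w₀ hA hB hreg hLB ha₀ hb₀ hdom₀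
  have hOv : ¬ Ov A B a b := hreg.2.1
  have hthird : ∀ q c, q ≠ 0 → Tie A B c q → a ∈ Mx A q → b ∈ Mx B q → c ∈ Mx C q →
      ¬ (2 ≤ (Mx C q).card ∨ (2 ≤ (Mx A q).card ∧ 2 ≤ (Mx B q).card)) := by
    intro q c h1 h2 h3 h4 h5 h6
    exact hLB (Or.inr (Or.inr ⟨q, c, h1, h2, h3, h4, h5, h6⟩))
  refine
    { cX := hA
      cY := hB
      reg := hreg
      x₀ := ha₀
      y₀ := hb₀
      dom₀ := ?_
      one := ?_
      crn := ?_
      alt := ?_ }
  · intro t ht
    obtain ⟨c, hc, rfl⟩ := mem_TAB.mp ht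
    rw [ip_cond]
    have := hdom₀ c hc
    linarith
  · intro w hw ha hb hdom t ht t' ht' h0 h0'
    obtain ⟨c, hc, rfl⟩ := mem_TAB.mp ht
    obtain ⟨c', hc', rfl⟩ := mem_TAB.mp ht'
    obtain ⟨h1, h2, _⟩ := tight hTieBasic hc ha hb hdom h0
    obtain ⟨h1', _, _⟩ := tight hTieBasic hc' ha hb hdom h0'
    by_cases hcc : c = c'
    · rw [hcc]
    · exfalso
      refine hthird w c hw h2 ha hb h1 (Or.inl ?_)
      have : 1 < (Mx C w).card := Finset.one_lt_card.mpr ⟨c, h1, c', h1', hcc⟩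
      omega
  · intro w hw ha hb hdom h2A h2B t ht h0
    obtain ⟨c, hc, rfl⟩ := mem_TAB.mp ht
    obtain ⟨h1, h2, _⟩ := tight hTieBasic hc ha hb hdom h0
    exact hthird w c hw h2 ha hb h1 (Or.inr ⟨h2A, h2B⟩)
  · intro t ht z z' hz hz' haz hbz haz' hbz' hd hd' h2A h0 h2B h0'
    obtain ⟨c, hc, rfl⟩ := mem_TAB.mp ht
    obtain ⟨h1, h2, h3⟩ := tight hTieBasic hc haz hbz hd h0
    obtain ⟨h1', h2', h3'⟩ := tight hTieBasic hc haz' hbz' hd' h0'
    have hn := hthird z c hz h2 haz hbz h1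
    have hn' := hthird z' c hz' h2' haz' hbz' h1'
    have hCz : Mx C z = {c} := eq_single h1 (fun h => hn (Or.inl h))
    have hCz' : Mx C z' = {c} := eq_single h1' (fun h => hn' (Or.inl h))
    have hBz : Mx B z = {b} := eq_single hbz (fun h => hn (Or.inr ⟨h2A, h⟩))
    have hAz' : Mx A z' = {a} := eq_single haz' (fun h => hn' (Or.inr ⟨h, h2B⟩))
    have hAc : (Mx A z).card = 2 := by
      have : ¬ 3 ≤ (Mx A z).card := fun h => hOv ⟨z, hz, haz, hbz, Or.inl h⟩
      omega
    have hBc : (Mx B z').card = 2 := by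
      have : ¬ 3 ≤ (Mx B z').card := fun h => hOv ⟨z', hz', haz', hbz', Or.inr h⟩
      omega
    have halt : IsAlt A B C ((a, Mx A z), (b, Mx B z'), c) z z' :=
      { ce := hAc
        cf := hBc
        ae := haz
        bf := hbz'
        ua := rfl
        ub := hBz
        uc := hCz
        va := hAz'
        vb := rfl
        vc := hCz'
        tu := h3
        tv := h3' }
    refine hLB (Or.inr (Or.inl ⟨((a, Mx A z), (b, Mx B z'), c), ?_, rfl, rfl⟩))
    unfold alts
    simp only [Finset.mem_filter, Finset.mem_product, Finset.mem_powerset]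
    exact ⟨⟨⟨Mx_subset A z haz, Mx_subset A z⟩, ⟨Mx_subset B z hbz, Mx_subset B z'⟩, hc⟩,
      z, z', halt⟩

end TPH
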