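import Pool.Agent.TPH.St9
import Pool.Agent.TPH.Closed

/-!
# Three parallel hyperplanes: pairs of an outer and the middle layer without local events

Proof of `StmtCellAC`: a pair `(a,c)` of an outer layer and the middle layer without a local event satisfies
the standing assumptions `Cell`.
-/

namespace TPH

namespace MCellAC

/-- The elements of `TAC B a c`. -/
theorem mem_TAC {B : Finset E} {a c t : E} :
    t ∈ TAC B a c ↔ ∃ b ∈ B, (2 : ℝ) • c - a - b = t := by
  unfold TAC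
  exact @Finset.mem_image E E (Classical.decEq E) (fun b => (2 : ℝ) • c - a - b) B t

/-- The value of a condition. -/
theorem ip_cond (a b c w : E) :
    ip ((2 : ℝ) • c - a - b) w = 2 * ip c w - ip a w - ip b w := by
  rw [ip_sub_left, ip_sub_left, ip_smul_left]

/-- A set which contains `a` and has at most one element is `{a}`. -/
theorem eq_single {S : Finset E} {a : E} (h : a ∈ S) (hc : ¬ 2 ≤ S.card) : S = {a} := by
  have h1 : S.card ≤ 1 := by omega
  refine Finset.eq_singleton_iff_unique_mem.mpr ⟨h, ?_⟩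
  intro x hx
  exact Finset.card_le_one.mp h1 x hx a h

/-- A tight condition gives a maximiser on `B` and a tie. -/
theorem tight (hTieBasic : StmtTieBasic) {A B : Finset E} {a b c w : E} (hbB : b ∈ B)
    (ha : a ∈ Mx A w) (hdom : ∀ t ∈ TAC B a c, 0 ≤ ip t w)
    (ht : ip ((2 : ℝ) • c - a - b) w = 0) :
    b ∈ Mx B w ∧ Tie A B c w := by
  rw [ip_cond] at ht
  have heq : ip a w + ip b w = 2 * ip c w := by linarith
  have hbM : b ∈ Mx B w := by
    rw [mem_Mx]
    refine ⟨hbB, ?_⟩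
    intro b' hb'
    have h1 := hdom ((2 : ℝ) • c - a - b') (mem_TAC.mpr ⟨b', hb', rfl⟩)
    rw [ip_cond] at h1
    linarith
  have hin : InRc A B c w := inRc_of_mem ha hbM heq.le
  exact ⟨hbM, (hTieBasic A B c w).2 hin a (Mx_subset A w ha) b hbB heq⟩

end MCellAC

open MCellAC in
/-- **StmtCellAC.** -/
theorem t_CellAC (hTieBasic : StmtTieBasic) : StmtCellAC := by
  intro A B C a c w₀ hA hC hreg hLE hBB ha₀ hc₀ hr₀
  have hthird : ∀ q, q ≠ 0 → Tie A B c q → a ∈ Mx A q → c ∈ Mx C q →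
      ¬ (2 ≤ (Mx C q).card ∨ 3 ≤ (Mx B q).card ∨
        (2 ≤ (Mx A q).card ∧ 2 ≤ (Mx B q).card)) := by
    intro q h1 h2 h3 h4 h5
    exact hLE (Or.inr (Or.inr ⟨q, h1, h2, h3, h4, h5⟩))
  refine
    { cX := hA
      cY := hC
      reg := hreg
      x₀ := ha₀
      y₀ := hc₀
      dom₀ := ?_
      one := ?_
      crn := ?_
      alt := ?_ }
  · intro t ht
    obtain ⟨b, hb, rfl⟩ := mem_TAC.mp ht
    rw [ip_cond]
    have haA : a ∈ A := Mx_subset A w₀ (ha₀ ▸ Finset.mem_singleton_self a)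
    have := hr₀ a haA b hb
    linarith
  · intro w hw ha hc hdom t ht t' ht' h0 h0'
    obtain ⟨b, hb, rfl⟩ := mem_TAC.mp ht
    obtain ⟨b', hb', rfl⟩ := mem_TAC.mp ht'
    obtain ⟨h1, h2⟩ := tight hTieBasic hb ha hdom h0
    obtain ⟨h1', _⟩ := tight hTieBasic hb' ha hdom h0'
    by_cases hbb : b = b'
    · rw [hbb]
    · exfalso
      have h2B : 2 ≤ (Mx B w).card := by
        have : 1 < (Mx B w).card := Finset.one_lt_card.mpr ⟨b, h1, b', h1', hbb⟩
        omega
      have hn := hthird w hw h2 ha hc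
      have hCw : Mx C w = {c} := eq_single hc (fun h => hn (Or.inl h))
      have hAw : Mx A w = {a} := eq_single ha (fun h => hn (Or.inr (Or.inr ⟨h, h2B⟩)))
      exact hBB ⟨w, h2, hAw, hCw, h2B⟩
  · intro w hw ha hc hdom _ h2C t ht h0
    obtain ⟨b, hb, rfl⟩ := mem_TAC.mp ht
    obtain ⟨_, h2⟩ := tight hTieBasic hb ha hdom h0
    exact hthird w hw h2 ha hc (Or.inl h2C)
  · intro t ht z z' _ hz' _ _ haz' hcz' _ hd' _ _ h2C h0'
    obtain ⟨b, hb, rfl⟩ := mem_TAC.mp ht
    obtain ⟨_, h2⟩ := tight hTieBasic hb haz' hd' h0'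
    exact hthird z' hz' h2 haz' hcz' (Or.inl h2C)

end TPH
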