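import Pool.Agent.TPH.St9
import Pool.Agent.TPH.Closed

/-!
# Sides and corners of a regular cell (CellFacts)
-/

set_option autoImplicit false

namespace TPH

namespace MCellFacts

/-- a functional with only two maximisers is not zero -/
theorem ne_zero {X : Finset E} {x x' w : E} (h3 : 3 ≤ X.card) (h : Mx X w = {x, x'}) :
    w ≠ 0 := by
  rintro rfl
  rw [Mx_zero] at h
  have h2 := Finset.card_le_two (a := x) (b := x')
  rw [h] at h3
  omega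

/-- the linear algebra of one side -/
theorem side {δ η₀ η₁ ρ₀ ρ₁ w : E} (hδ : δ ≠ 0) (h0 : ip δ ρ₀ = 0) (h1 : ip δ ρ₁ = 0)
    (hw : ip δ w = 0) (hρ : ρ₀ ≠ 0) (a0 : ip η₀ ρ₀ = 0) (a1 : 0 < ip η₀ ρ₁) (b1 : ip η₁ ρ₁ = 0)
    (b0 : 0 < ip η₁ ρ₀) (c0 : 0 ≤ ip η₀ w) (c1 : 0 ≤ ip η₁ w) (w0 : w ≠ 0) :
    ∃ α β : ℝ, 0 ≤ α ∧ 0 ≤ β ∧ 0 < α + β ∧ w = α • ρ₀ + β • ρ₁ := by
  have hcr : cr ρ₀ ρ₁ ≠ 0 := by
    intro h
    obtain ⟨k, hk⟩ := par_of_cr hρ h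
    rw [hk, ip_smul_right, a0, mul_zero] at a1
    exact lt_irrefl _ a1
  obtain ⟨α, β, he⟩ := comb_of_perp hδ hcr h0 h1 hw
  have e0 : ip η₀ w = β * ip η₀ ρ₁ := by
    rw [he, ip_add_right, ip_smul_right, ip_smul_right, a0]; ring
  have e1 : ip η₁ w = α * ip η₁ ρ₀ := by
    rw [he, ip_add_right, ip_smul_right, ip_smul_right, b1]; ring
  have hβ : 0 ≤ β := by
    by_contra h
    push Not at h
    have := mul_neg_of_neg_of_pos h a1
    linarith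
  have hα : 0 ≤ α := by
    by_contra h
    push Not at h
    have := mul_neg_of_neg_of_pos h b0
    linarith
  refine ⟨α, β, hα, hβ, ?_, he⟩
  by_contra h
  push Not at h
  have hα0 : α = 0 := by linarith
  have hβ0 : β = 0 := by linarith
  apply w0
  rw [he, hα0, hβ0, zero_smul, zero_smul, add_zero]

/-- a point of a side is a nonnegative combination of its two ends -/
theorem sideXY {X Y : Finset E} {x x' y q₀ q₁ ρ₀ ρ₁ w : E} (hx : x' ≠ x) (hq : q₀ ≠ q₁)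
    (hq0 : q₀ ≠ y) (hq1 : q₁ ≠ y) (m0 : Mx X ρ₀ = {x, x'}) (m1 : Mx X ρ₁ = {x, x'})
    (n0 : Mx Y ρ₀ = {y, q₀}) (n1 : Mx Y ρ₁ = {y, q₁}) (z0 : ρ₀ ≠ 0) (w0 : w ≠ 0)
    (mw : Mx X w = {x, x'}) (nw : y ∈ Mx Y w) :
    ∃ α β : ℝ, 0 ≤ α ∧ 0 ≤ β ∧ 0 < α + β ∧ w = α • ρ₀ + β • ρ₁ := by
  have hperp : ∀ {v : E}, Mx X v = {x, x'} → ip (x - x') v = 0 := by
    intro v hv
    have h1 : x ∈ Mx X v := by rw [hv]; simp
    have h2 : x' ∈ Mx X v := by rw [hv]; simp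
    rw [ip_sub_left, Mx_eq h1 h2, sub_self]
  have q0Y : q₀ ∈ Y := Mx_subset Y ρ₀ (by rw [n0]; simp)
  have q1Y : q₁ ∈ Y := Mx_subset Y ρ₁ (by rw [n1]; simp)
  have y0 : y ∈ Mx Y ρ₀ := by rw [n0]; simp
  have y1 : y ∈ Mx Y ρ₁ := by rw [n1]; simp
  have q00 : q₀ ∈ Mx Y ρ₀ := by rw [n0]; simp
  have q11 : q₁ ∈ Mx Y ρ₁ := by rw [n1]; simp
  have q01 : q₀ ∉ Mx Y ρ₁ := by
    rw [n1, Finset.mem_insert, Finset.mem_singleton]
    rintro (h | h)
    · exact hq0 h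
    · exact hq h
  have q10 : q₁ ∉ Mx Y ρ₀ := by
    rw [n0, Finset.mem_insert, Finset.mem_singleton]
    rintro (h | h)
    · exact hq1 h
    · exact hq h.symm
  refine side (δ := x - x') (η₀ := y - q₀) (η₁ := y - q₁) ?_ (hperp m0) (hperp m1) (hperp mw) z0
    ?_ ?_ ?_ ?_ ?_ ?_ w0
  · intro h
    exact hx (sub_eq_zero.mp h).symm
  · rw [ip_sub_left, Mx_eq y0 q00, sub_self]
  · rw [ip_sub_left]
    have := Mx_lt y1 q0Y q01
    linarith
  · rw [ip_sub_left, Mx_eq y1 q11, sub_self]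
  · rw [ip_sub_left]
    have := Mx_lt y0 q1Y q10
    linarith
  · rw [ip_sub_left]
    have := Mx_le nw q0Y
    linarith
  · rw [ip_sub_left]
    have := Mx_le nw q1Y
    linarith

/-- the last clause of a corner -/
theorem spanC {x x' y y' ρ v : E} (hx : x' ≠ x) (hρ : ρ ≠ 0) (h1 : Perp {x, x'} ρ)
    (h2 : Perp {y, y'} ρ) (hn : ∃ v, Perp {x, x'} v ∧ ¬ Perp {y, y'} v) (v1 : Perp {x, x'} v)
    (v2 : Perp {y, y'} v) : ∃ κ : ℝ, v = κ • ρ := by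
  have conv : ∀ {a a' u : E}, Perp {a, a'} u → ip (a - a') u = 0 := by
    intro a a' u h
    rw [ip_sub_left, perp_pair.mp h, sub_self]
  have hcr : cr (x - x') (y - y') ≠ 0 := by
    intro h
    have hd : x - x' ≠ 0 := fun h' => hx (sub_eq_zero.mp h').symm
    obtain ⟨k, hk⟩ := par_of_cr hd h
    obtain ⟨u, hu, hu'⟩ := hn
    apply hu'
    rw [perp_pair]
    have h3 : ip (y - y') u = 0 := by rw [hk, ip_smul_left, conv hu, mul_zero]
    rw [ip_sub_left] at h3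
    linarith
  obtain ⟨k₁, hk₁⟩ := par_cr_of_ip hcr (by rw [ip_comm]; exact conv h1)
    (by rw [ip_comm]; exact conv h2)
  obtain ⟨k₂, hk₂⟩ := par_cr_of_ip hcr (by rw [ip_comm]; exact conv v1)
    (by rw [ip_comm]; exact conv v2)
  have hk0 : k₁ ≠ 0 := by
    rintro rfl
    apply hρ
    rw [hk₁, zero_smul]
  refine ⟨k₂ / k₁, ?_⟩
  rw [hk₁, smul_smul, div_mul_cancel₀ _ hk0]
  exact hk₂

/-- the two elements of a set as a family -/
theorem fam {S : Finset E} (hS : S.card = 2) : ∃ p : Fin 2 → E, p 0 ≠ p 1 ∧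
    (∀ i, p i ∈ S) ∧ ∀ s ∈ S, ∃ i, s = p i := by
  classical
  obtain ⟨a, b, hab, rfl⟩ := Finset.card_eq_two.mp hS
  refine ⟨![a, b], by simpa using hab, ?_, ?_⟩
  · intro i
    fin_cases i <;> simp
  · intro s hs
    rcases Finset.mem_insert.mp hs with h | h
    · exact ⟨0, by simpa using h⟩
    · exact ⟨1, by simpa using Finset.mem_singleton.mp h⟩

end MCellFacts

open MCellFacts in
theorem t_CellFacts : StmtCellFacts := by
  classical
  intro X Y x y hX hY hreg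
  obtain ⟨p, pn, pm, ps⟩ := fam hreg.2.2.1
  obtain ⟨q, qn, qm, qs⟩ := fam hreg.2.2.2
  have hC : ∀ i j, Corner X Y x (p i) y (q j) := fun i j =>
    TPH.Closed.c_t_RegCorner X Y x y (p i) (q j) hX hreg (pm i) (qm j)
  have hex : ∀ i j, ∃ ρ, Mx X ρ = {x, p i} ∧ Mx Y ρ = {y, q j} := fun i j => (hC i j).2.2.1
  choose ρ mx my using hex
  have px : ∀ i, p i ≠ x := fun i => (hC i 0).1
  have qy : ∀ j, q j ≠ y := fun j => (hC 0 j).2.1
  have nz : ∀ i j, ρ i j ≠ 0 := fun i j => ne_zero hX (mx i j)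
  refine ⟨p, q, ρ, ⟨pn, qn, px, qy, nz, mx, my, ?_, ?_, ?_, ?_⟩⟩
  · intro i j v v1 v2
    refine spanC (px i) (nz i j) ?_ ?_ (hC i j).2.2.2 v1 v2
    · rw [← mx i j]; exact perp_Mx X (ρ i j)
    · rw [← my i j]; exact perp_Mx Y (ρ i j)
  · intro i w w0 mw nw
    exact sideXY (px i) qn (qy 0) (qy 1) (mx i 0) (mx i 1) (my i 0) (my i 1) (nz i 0) w0 mw nw
  · intro j w w0 mw nw
    exact sideXY (qy j) pn (px 0) (px 1) (my 0 j) (my 1 j) (mx 0 j) (mx 1 j) (nz 0 j) w0 mw nw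
  · intro w w0 xw yw
    obtain ⟨t1, t2, -⟩ := TPH.Closed.c_t_RegTie X Y x y w hX hreg w0 xw yw
    constructor
    · rcases t1 with h | ⟨a, ha, h⟩
      · exact Or.inl h
      · obtain ⟨i, hi⟩ := ps a ha
        exact Or.inr ⟨i, by rw [h, hi]⟩
    · rcases t2 with h | ⟨a, ha, h⟩
      · exact Or.inl h
      · obtain ⟨j, hj⟩ := qs a ha
        exact Or.inr ⟨j, by rw [h, hj]⟩

end TPH
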