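import Pool.Agent.TPH.St9
import Pool.Agent.TPH.Closed

/-!
# Three parallel hyperplanes: symmetry of the standing assumptions on a cell
-/

set_option autoImplicit false

namespace TPH

namespace MCellSwap

variable {X Y 𝒯 : Finset E} {x y w₀ : E} {p q : Fin 2 → E} {ρ : Fin 2 → Fin 2 → E}

theorem cell (h : Cell X Y 𝒯 x y w₀) : Cell Y X 𝒯 y x w₀ where
  cX := h.cY
  cY := h.cX
  reg := Reg_swap.mp h.reg
  x₀ := h.y₀
  y₀ := h.x₀
  dom₀ := h.dom₀
  one := fun w hw hy hx hd => h.one w hw hx hy hd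
  crn := fun w hw hy hx hd c1 c2 => h.crn w hw hx hy hd c2 c1
  alt := fun t ht z z' hz hz' hy hx hy' hx' hd hd' c1 e c2 e' =>
    h.alt t ht z' z hz' hz hx' hy' hx hy hd' hd c2 e' c1 e

theorem cf (h : CF X Y x y p q ρ) : CF Y X y x q p (fun j i => ρ i j) where
  pn := h.qn
  qn := h.pn
  px := h.qy
  qy := h.px
  nz := fun i j => h.nz j i
  mx := fun i j => h.my j i
  my := fun i j => h.mx j i
  span := fun i j v h1 h2 => h.span j i v h2 h1
  sx := fun i w hw h1 h2 => h.sy i w hw h1 h2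
  sy := fun j w hw h1 h2 => h.sx j w hw h1 h2
  tie := fun w hw h1 h2 => ⟨(h.tie w hw h2 h1).2, (h.tie w hw h2 h1).1⟩

theorem fg {w : E} (h : FG X Y 𝒯 x y w) : FG Y X 𝒯 y x w where
  nz := h.nz
  xw := h.yw
  yw := h.xw
  dom := h.dom
  span := fun v h1 h2 h3 => h.span v h2 h1 h3

theorem cf_rev (h : CF X Y x y p q ρ) :
    CF X Y x y p (fun j => q (1 - j)) (fun i j => ρ i (1 - j)) where
  pn := h.pn
  qn := by
    show q (1 - 0) ≠ q (1 - 1)
    rw [sub_zero, sub_self]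
    exact h.qn.symm
  px := h.px
  qy := fun j => h.qy (1 - j)
  nz := fun i j => h.nz i (1 - j)
  mx := fun i j => h.mx i (1 - j)
  my := fun i j => h.my i (1 - j)
  span := fun i j => h.span i (1 - j)
  sx := fun i w hw h1 h2 => by
    obtain ⟨α, β, hα, hβ, hs, he⟩ := h.sx i w hw h1 h2
    refine ⟨β, α, hβ, hα, by rw [add_comm]; exact hs, ?_⟩
    show w = β • ρ i (1 - 0) + α • ρ i (1 - 1)
    rw [sub_zero, sub_self, he, add_comm]
  sy := fun j => h.sy (1 - j)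
  tie := fun w hw h1 h2 => by
    obtain ⟨e1, e2⟩ := h.tie w hw h1 h2
    refine ⟨e1, e2.imp_right ?_⟩
    rintro ⟨j, hj⟩
    refine ⟨1 - j, ?_⟩
    show Mx Y w = {y, q (1 - (1 - j))}
    rw [sub_sub_cancel, hj]

end MCellSwap

/-- **StmtCellSwap.** -/
theorem t_CellSwap : StmtCellSwap := fun _ _ _ _ _ _ _ _ _ =>
  ⟨MCellSwap.cell, MCellSwap.cf, fun _ => ⟨MCellSwap.fg, MCellSwap.fg⟩, MCellSwap.cf_rev⟩

end TPH
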