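import Pool.Agent.TPH.St7
import Pool.Agent.TPH.Closed

/-!
# `StmtMultiAll`: counting directions without the half space
-/

namespace TPH

namespace MMultiAll

/-- A nonzero vector has a vector which is not parallel to it. -/
theorem exists_cr_ne {r : E} (hr : r ≠ 0) : ∃ p : E, cr r p ≠ 0 := by
  by_contra hcon
  push Not at hcon
  obtain ⟨k, hk⟩ := par_of_cr hr (hcon ![1, 0, 0])
  obtain ⟨l, hl⟩ := par_of_cr hr (hcon ![0, 1, 0])
  have h1 : (1 : ℝ) = k * r 0 := by simpa using congrFun hk 0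
  have h2 : (0 : ℝ) = k * r 1 := by simpa using congrFun hk 1
  have h3 : (1 : ℝ) = l * r 1 := by simpa using congrFun hl 1
  rcases mul_eq_zero.mp h2.symm with h | h
  · rw [h, zero_mul] at h1; exact one_ne_zero h1
  · rw [h, mul_zero] at h3; exact one_ne_zero h3

theorem card_le_one_of {S : Finset E} (h : ∀ w ∈ S, ∀ w' ∈ S, w' = w) : S.card ≤ 1 := by
  rw [Finset.card_le_one]
  intro a ha b hb
  exact h b hb a ha

end MMultiAll

open MMultiAll

theorem t_MultiAll (hTieBasic : StmtTieBasic) (hMulti : StmtMulti) : StmtMultiAll := by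
  classical
  intro N A B C c r W hA hB hC hr hCr hW hdil htri hedge
  rcases Nat.eq_zero_or_pos N with hN | hN
  · -- no pair at all
    subst hN
    have hle : W.card ≤ 2 := by
      by_contra hcon
      push Not at hcon
      obtain ⟨a, ha, b, hb, d, hd, hab, had, hbd⟩ := Finset.two_lt_card.mp hcon
      obtain ⟨j, _⟩ := htri a ha b hb d hd hab had hbd
      exact j.elim0
    omega
  rcases W.eq_empty_or_nonempty with hWe | hWne
  · rw [hWe, Finset.card_empty]; exact Nat.zero_le _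
  let j₀ : Fin N := ⟨0, hN⟩
  obtain ⟨w₀, hw₀⟩ := hWne
  have hT₀ := ((hTieBasic (A j₀) (B j₀) c w₀).1 ((hW w₀ hw₀).2.2 j₀))
  have hr0 : r ≠ 0 := by
    intro h0
    have h1 := hr j₀
    rw [h0] at h1
    exact not_inR_zero hT₀.1 hT₀.2.1 c h1
  obtain ⟨p, hp⟩ := exists_cr_ne hr0
  -- the three parts
  set Wp : Finset E := W.filter (fun w => 0 < det3 r p w) with hWp
  set Wm : Finset E := W.filter (fun w => 0 < det3 r (-p) w) with hWm
  set Wz : Finset E := W.filter (fun w => det3 r p w = 0) with hWz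
  have hsub : ∀ (q : E) (S : Finset E), S ⊆ W → (∀ w ∈ S, 0 < det3 r q w) →
      S.card ≤ 6 * (∑ j, evc (A j) (B j) C c) + 2 := by
    intro q S hS hpos
    refine hMulti N A B C c r q S hA hB hC hr hCr ?_ ?_ ?_ ?_
    · intro w hw
      exact ⟨hpos w hw, (hW w (hS hw)).2.1, (hW w (hS hw)).2.2⟩
    · intro w hw w' hw' κ hκ he
      exact hdil w (hS hw) w' (hS hw') κ hκ he
    · intro w₁ h₁ w₂ h₂ w₃ h₃ h12 h13 h23
      exact htri w₁ (hS h₁) w₂ (hS h₂) w₃ (hS h₃) h12 h13 h23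
    · intro j w₁ h₁ w₂ h₂ w₃ h₃ h12 h13 h23 e he e1 e2 e3
      exact hedge j w₁ (hS h₁) w₂ (hS h₂) w₃ (hS h₃) h12 h13 h23 e he e1 e2 e3
  have hcp : Wp.card ≤ 6 * (∑ j, evc (A j) (B j) C c) + 2 :=
    hsub p Wp (Finset.filter_subset _ _) (fun w hw => (Finset.mem_filter.mp hw).2)
  have hcm : Wm.card ≤ 6 * (∑ j, evc (A j) (B j) C c) + 2 :=
    hsub (-p) Wm (Finset.filter_subset _ _) (fun w hw => (Finset.mem_filter.mp hw).2)
  -- the plane spanned by `r` and `p`
  have hcomb : ∀ w ∈ Wz, ∃ α β : ℝ, w = α • r + β • p ∧ β ≠ 0 := by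
    intro w hw
    obtain ⟨hwW, hdet⟩ := Finset.mem_filter.mp hw
    obtain ⟨α, β, hαβ⟩ := comb_of_perp (z := r) (u := p) (d := cr r p) (v := w) hp hp
      (by rw [ip_cr, det3_self13]) (by rw [ip_cr, det3_self23]) (by rw [ip_cr]; exact hdet)
    refine ⟨α, β, hαβ, ?_⟩
    rintro rfl
    rw [zero_smul, add_zero] at hαβ
    have hα : α ≠ 0 := by
      rintro rfl
      rw [zero_smul] at hαβ
      exact (hW w hwW).1 hαβ
    have hT := ((hTieBasic (A j₀) (B j₀) c w).1 ((hW w hwW).2.2 j₀)).2.2.2.1 (1 / α)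
    apply hT
    rw [hαβ, smul_smul, one_div_mul_cancel hα, one_smul]
    exact hr j₀
  have hsame : ∀ w ∈ Wz, ∀ w' ∈ Wz, ∀ α β α' β' : ℝ, w = α • r + β • p →
      w' = α' • r + β' • p → 0 < β' / β → w' = w := by
    intro w hw w' hw' α β α' β' h1 h2 hκ
    obtain ⟨hwW, _⟩ := Finset.mem_filter.mp hw
    obtain ⟨hwW', _⟩ := Finset.mem_filter.mp hw'
    have hβ : β ≠ 0 := by
      rintro rfl
      rw [div_zero] at hκ
      exact lt_irrefl _ hκ
    have hTb := (hTieBasic (A j₀) (B j₀) c w).1 ((hW w hwW).2.2 j₀)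
    have hTκ : Tie (A j₀) (B j₀) c ((β' / β) • w) := hTb.2.2.2.2.1 _ hκ
    have hTκb := (hTieBasic (A j₀) (B j₀) c ((β' / β) • w)).1 hTκ
    have hdecomp : w' = (β' / β) • w + (α' - β' / β * α) • r := by
      rw [h2, h1]
      funext i
      simp only [Pi.add_apply, Pi.smul_apply, smul_eq_mul]
      field_simp
      ring
    have hρ : α' - β' / β * α = 0 := by
      apply hTκb.2.2.2.2.2.2 r _ (hr j₀)
      rw [← hdecomp]
      exact (hW w' hwW').2.2 j₀
    rw [hρ, zero_smul, add_zero] at hdecomp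
    exact hdil w hwW w' hwW' _ hκ hdecomp
  choose! fα fβ hf using hcomb
  have hcz : Wz.card ≤ 2 := by
    have hu : Wz ⊆ (Wz.filter (fun w => 0 < fβ w)) ∪ (Wz.filter (fun w => fβ w < 0)) := by
      intro w hw
      rcases lt_trichotomy (fβ w) 0 with h | h | h
      · exact Finset.mem_union_right _ (Finset.mem_filter.mpr ⟨hw, h⟩)
      · exact absurd h (hf w hw).2
      · exact Finset.mem_union_left _ (Finset.mem_filter.mpr ⟨hw, h⟩)
    have h1 : (Wz.filter (fun w => 0 < fβ w)).card ≤ 1 := by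
      apply card_le_one_of
      intro w hw w' hw'
      obtain ⟨ha, hb⟩ := Finset.mem_filter.mp hw
      obtain ⟨ha', hb'⟩ := Finset.mem_filter.mp hw'
      exact hsame w ha w' ha' _ _ _ _ (hf w ha).1 (hf w' ha').1 (div_pos hb' hb)
    have h2 : (Wz.filter (fun w => fβ w < 0)).card ≤ 1 := by
      apply card_le_one_of
      intro w hw w' hw'
      obtain ⟨ha, hb⟩ := Finset.mem_filter.mp hw
      obtain ⟨ha', hb'⟩ := Finset.mem_filter.mp hw'
      exact hsame w ha w' ha' _ _ _ _ (hf w ha).1 (hf w' ha').1 (div_pos_of_neg_of_neg hb' hb)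
    have h3 := Finset.card_le_card hu
    have h4 := Finset.card_union_le (Wz.filter (fun w => 0 < fβ w)) (Wz.filter (fun w => fβ w < 0))
    omega
  have hcov : W ⊆ (Wp ∪ Wm) ∪ Wz := by
    intro w hw
    rw [Finset.mem_union, Finset.mem_union, hWp, hWm, hWz, Finset.mem_filter, Finset.mem_filter,
      Finset.mem_filter]
    rcases lt_trichotomy (det3 r p w) 0 with h | h | h
    · refine Or.inl (Or.inr ⟨hw, ?_⟩)
      rw [det3_neg2]; linarith
    · exact Or.inr ⟨hw, h⟩
    · exact Or.inl (Or.inl ⟨hw, h⟩)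
  have e1 := Finset.card_le_card hcov
  have e2 := Finset.card_union_le (Wp ∪ Wm) Wz
  have e3 := Finset.card_union_le Wp Wm
  omega

end TPH
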