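import Pool.Agent.TPH.Closed
import Pool.Agent.TPH.PosBasic
import Pool.Agent.TPH.AltBasic
import Pool.Agent.TPH.AltDet
import Pool.Agent.TPH.PosFirstExit
import Pool.Agent.TPH.AltPer
import Pool.Agent.TPH.AD1
import Pool.Agent.TPH.PosPath2
import Pool.Agent.TPH.AD2
import Pool.Agent.TPH.PosTangent
import Pool.Agent.TPH.TangentUniq
import Pool.Agent.TPH.AD3
import Pool.Agent.TPH.PosExit
import Pool.Agent.TPH.AltDrop
import Pool.Agent.TPH.Alpha
import Pool.Agent.TPH.AltSide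
import Pool.Agent.TPH.AltSigns
import Pool.Agent.TPH.AltNe
import Pool.Agent.TPH.Arc
import Pool.Agent.TPH.AltOrder
import Pool.Agent.TPH.AltKeyI
import Pool.Agent.TPH.AltKeyII
import Pool.Agent.TPH.AltKey
import Pool.Agent.TPH.AltThree
import Pool.Agent.TPH.AltOutPair
import Pool.Agent.TPH.AltMult
import Pool.Agent.TPH.AltOutMult
import Pool.Agent.TPH.AltMDex
import Pool.Agent.TPH.AltBadAB
import Pool.Agent.TPH.AltCrossTri
import Pool.Agent.TPH.AltMain
import Pool.Agent.TPH.AltOut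
import Pool.Agent.TPH.AltSmall
import Pool.Agent.TPH.AltBound
import Pool.Agent.TPH.TieBasic
import Pool.Agent.TPH.TPath
import Pool.Agent.TPH.TieMid
import Pool.Agent.TPH.Event
import Pool.Agent.TPH.Triples
import Pool.Agent.TPH.TangPairs
import Pool.Agent.TPH.Multi
import Pool.Agent.TPH.MultiAll
import Pool.Agent.TPH.EvSum
import Pool.Agent.TPH.HLem
import Pool.Agent.TPH.Ang

/-!
# Three parallel hyperplanes: the statements of St5, St6, St7 as closed theorems
-/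

set_option autoImplicit false

namespace TPH.Closed

open TPH

theorem c_t_PosBasic : StmtPosBasic := TPH.t_PosBasic
theorem c_t_AltBasic : StmtAltBasic := TPH.t_AltBasic
theorem c_t_AltDet : StmtAltDet := TPH.t_AltDet c_t_AltBasic
theorem c_t_PosFirstExit : StmtPosFirstExit := TPH.t_PosFirstExit c_t_PosBasic
theorem c_t_AltPer : StmtAltPer := TPH.t_AltPer c_t_PosBasic c_t_AltBasic c_t_AltDet
theorem c_t_AD1 : StmtAD1 := TPH.t_AD1 c_t_PosBasic c_t_AltBasic c_t_AltPer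
theorem c_t_PosPath2 : StmtPosPath2 := TPH.t_PosPath2 c_t_PosBasic
theorem c_t_AD2 : StmtAD2 := TPH.t_AD2
    c_t_PosBasic c_t_AltBasic c_t_AltDet c_t_PosFirstExit c_t_PosPath2
theorem c_t_PosTangent : StmtPosTangent := TPH.t_PosTangent c_t_PosBasic
theorem c_t_TangentUniq : StmtTangentUniq := TPH.t_TangentUniq c_t_PosBasic
theorem c_t_AD3 : StmtAD3 := TPH.t_AD3
    c_t_PosBasic c_t_AltBasic c_t_AltPer c_t_PosTangent c_t_TangentUniq
theorem c_t_PosExit : StmtPosExit := TPH.t_PosExit c_t_PosBasic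
theorem c_t_AltDrop : StmtAltDrop := TPH.t_AltDrop c_t_AltBasic c_t_AD1 c_t_AD2 c_t_AD3 c_t_PosExit
theorem c_t_Alpha : StmtAlpha := TPH.t_Alpha
theorem c_t_AltSide : StmtAltSide := TPH.t_AltSide
theorem c_t_AltSigns : StmtAltSigns := TPH.t_AltSigns c_t_AltBasic
theorem c_t_AltNe : StmtAltNe := TPH.t_AltNe c_t_AltBasic c_t_AltSigns
theorem c_t_Arc : StmtArc := TPH.t_Arc
theorem c_t_AltOrder : StmtAltOrder := TPH.t_AltOrder
    c_t_AltBasic c_t_AltDet c_t_AltSide c_t_AltSigns c_t_Arc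
theorem c_t_AltKeyI : StmtAltKeyI := TPH.t_AltKeyI
    c_t_AltBasic c_t_Alpha c_t_AltSide c_t_AltSigns c_t_Arc
theorem c_t_AltKeyII : StmtAltKeyII := TPH.t_AltKeyII c_t_AltBasic c_t_AltSide c_t_AltSigns c_t_Arc
theorem c_t_AltKey : StmtAltKey := TPH.t_AltKey c_t_AltBasic c_t_AltSigns c_t_AltKeyI c_t_AltKeyII
theorem c_t_AltThree : StmtAltThree := TPH.t_AltThree c_t_Arc
theorem c_t_AltOutPair : StmtAltOutPair := TPH.t_AltOutPair c_t_AltBasic c_t_AltSide c_t_AltSigns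
theorem c_t_AltMult : StmtAltMult := TPH.t_AltMult c_t_AltBasic c_t_AltDet c_t_PosFirstExit
theorem c_t_AltOutMult : StmtAltOutMult := TPH.t_AltOutMult c_t_AltBasic c_t_AltDet
theorem c_t_AltMDex : StmtAltMDex := TPH.t_AltMDex
    c_t_AltBasic c_t_AltDet c_t_AltSigns c_t_Arc c_t_AltOrder
theorem c_t_AltBadAB : StmtAltBadAB := TPH.t_AltBadAB
theorem c_t_AltCrossTri : StmtAltCrossTri := TPH.t_AltCrossTri c_t_AltSigns c_t_AltKey c_t_AltThree
theorem c_t_AltMain : StmtAltMain := TPH.t_AltMain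
    c_t_AltBasic c_t_AltSide c_t_AltMult c_t_AltMDex c_t_AltBadAB c_t_AltCrossTri
theorem c_t_AltOut : StmtAltOut := TPH.t_AltOut
    c_t_AltBasic c_t_AltDet c_t_AltSigns c_t_AltNe c_t_AltSide c_t_AltOutPair c_t_AltOutMult
theorem c_t_AltSmall : StmtAltSmall := TPH.t_AltSmall c_t_AltBasic c_t_AltPer
theorem c_t_AltBound : StmtAltBound := TPH.t_AltBound
    c_t_AltDrop c_t_AltMain c_t_AltOut c_t_AltSmall
theorem c_t_TieBasic : StmtTieBasic := TPH.t_TieBasic
theorem c_t_TPath : StmtTPath := TPH.t_TPath c_t_TieBasic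
theorem c_t_TieMid : StmtTieMid := TPH.t_TieMid c_t_TieBasic c_t_TPath
theorem c_t_Event : StmtEvent := TPH.t_Event c_t_TieBasic c_t_TPath
theorem c_t_Triples : StmtTriples := TPH.t_Triples
theorem c_t_TangPairs : StmtTangPairs := TPH.t_TangPairs c_t_PosBasic c_t_PosTangent c_t_TangentUniq
theorem c_t_EvSum : StmtEvSum := TPH.t_EvSum c_t_AltBound c_t_TangPairs
theorem c_t_HLem : StmtHLem := TPH.t_HLem c_t_TieBasic
theorem c_t_Ang : StmtAng := TPH.t_Ang
theorem c_t_Multi : StmtMulti := TPH.t_Multi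
    c_t_AltBasic c_t_TieBasic c_t_TieMid c_t_Event c_t_HLem c_t_Ang c_t_Triples
theorem c_t_MultiAll : StmtMultiAll := TPH.t_MultiAll c_t_TieBasic c_t_Multi

end TPH.Closed
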