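import Pool.Agent.TPH.St9
import Pool.Agent.TPH.Closed

/-!
# TPH: following a tight condition from an interior point of a cell to the sides
-/

namespace TPH

namespace MFollow

/-- A finite set with two different elements. -/
theorem two_le_card {S : Finset E} {a b : E} (ha : a ∈ S) (hb : b ∈ S) (hab : a ≠ b) :
    2 ≤ S.card := by
  have h : 1 < S.card := Finset.one_lt_card.mpr ⟨a, ha, b, hb, hab⟩
  omega

/-- One direction. -/
theorem dir {X Y 𝒯 : Finset E} {x y w₀ q t : E} (hc : Cell X Y 𝒯 x y w₀) (hX : Mx X q = {x})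
    (hY : Mx Y q = {y}) (hq0 : q ≠ 0) (hT : ∀ t' ∈ 𝒯, 0 ≤ ip t' q) (ht : t ∈ 𝒯)
    (htq : ip t q = 0) (d : E) (hd : ip t d = 0) (hcr : cr q d ≠ 0) :
    ∃ M τ : ℝ, 0 < τ ∧ q + τ • (d - M • q) ≠ 0 ∧ x ∈ Mx X (q + τ • (d - M • q)) ∧
      y ∈ Mx Y (q + τ • (d - M • q)) ∧ (∀ t' ∈ 𝒯, 0 ≤ ip t' (q + τ • (d - M • q))) ∧
      ip t (q + τ • (d - M • q)) = 0 ∧
      (2 ≤ (Mx X (q + τ • (d - M • q))).card ∨ 2 ≤ (Mx Y (q + τ • (d - M • q))).card) := by
  classical
  have hxq : x ∈ Mx X q := by rw [hX]; exact Finset.mem_singleton_self x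
  have hyq : y ∈ Mx Y q := by rw [hY]; exact Finset.mem_singleton_self y
  have hxX : x ∈ X := Mx_subset _ _ hxq
  have hyY : y ∈ Y := Mx_subset _ _ hyq
  set D : Finset E := ((X.erase x).image (fun a => a - x)) ∪ (((Y.erase y).image (fun a => a - y)) ∪
    ((𝒯.erase t).image (fun a => -a))) with hD
  have memX : ∀ a ∈ X, a ≠ x → a - x ∈ D := fun a ha hne => by
    rw [hD]
    exact Finset.mem_union_left _ (Finset.mem_image_of_mem _ (Finset.mem_erase.mpr ⟨hne, ha⟩))
  have memY : ∀ a ∈ Y, a ≠ y → a - y ∈ D := fun a ha hne => by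
    rw [hD]
    exact Finset.mem_union_right _ (Finset.mem_union_left _
      (Finset.mem_image_of_mem (fun a => a - y) (Finset.mem_erase.mpr ⟨hne, ha⟩)))
  have memT : ∀ a ∈ 𝒯, a ≠ t → -a ∈ D := fun a ha hne => by
    rw [hD]
    exact Finset.mem_union_right _ (Finset.mem_union_right _
      (Finset.mem_image_of_mem (fun a => -a) (Finset.mem_erase.mpr ⟨hne, ha⟩)))
  have hDne : D.Nonempty := by
    have h1 : 1 < X.card := by have := hc.cX; omega
    obtain ⟨a, ha, hax⟩ := Finset.exists_mem_ne h1 x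
    exact ⟨a - x, memX a ha hax⟩
  have hneg : ∀ v ∈ D, ip v q < 0 := by
    intro v hv
    rw [hD, Finset.mem_union, Finset.mem_union, Finset.mem_image, Finset.mem_image,
      Finset.mem_image] at hv
    rcases hv with ⟨a, ha, rfl⟩ | ⟨a, ha, rfl⟩ | ⟨a, ha, rfl⟩
    · rw [Finset.mem_erase] at ha
      have := Mx_lt hxq ha.2 (by rw [hX, Finset.mem_singleton]; exact ha.1)
      rw [ip_sub_left]; linarith
    · rw [Finset.mem_erase] at ha
      have := Mx_lt hyq ha.2 (by rw [hY, Finset.mem_singleton]; exact ha.1)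
      rw [ip_sub_left]; linarith
    · rw [Finset.mem_erase] at ha
      rw [ip_neg_left]
      have h0 := hT a ha.2
      rcases h0.lt_or_eq with h | h
      · linarith
      · exact absurd (hc.one q hq0 hxq hyq hT a ha.2 t ht h.symm htq) ha.1
  obtain ⟨M, τ, -, hτ, hle, ⟨v₀, hv₀, heq⟩, -⟩ := rotate_core D hDne q d hneg
  have hz0 : q + τ • (d - M • q) ≠ 0 := by
    intro h0
    apply hcr
    have h1 : cr q (q + τ • (d - M • q)) = τ • cr q d := by
      funext i
      fin_cases i <;> simp [cr] <;> ring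
    rw [h0] at h1
    have h2 : cr q 0 = 0 := by
      funext i
      fin_cases i <;> simp [cr]
    rw [h2] at h1
    rcases smul_eq_zero.mp h1.symm with h | h
    · exact absurd h hτ.ne'
    · exact h
  have htz : ip t (q + τ • (d - M • q)) = 0 := by
    rw [ip_add_right, ip_smul_right, ip_sub_right, ip_smul_right, htq, hd]; ring
  have hxz : x ∈ Mx X (q + τ • (d - M • q)) := by
    refine mem_Mx.mpr ⟨hxX, fun b hb => ?_⟩
    by_cases hbx : b = x
    · rw [hbx]
    · have h1 := hle _ (memX b hb hbx)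
      rw [ip_sub_left] at h1; linarith
  have hyz : y ∈ Mx Y (q + τ • (d - M • q)) := by
    refine mem_Mx.mpr ⟨hyY, fun b hb => ?_⟩
    by_cases hbx : b = y
    · rw [hbx]
    · have h1 := hle _ (memY b hb hbx)
      rw [ip_sub_left] at h1; linarith
  have hTz : ∀ t' ∈ 𝒯, 0 ≤ ip t' (q + τ • (d - M • q)) := by
    intro t' ht'
    by_cases h : t' = t
    · rw [h, htz]
    · have h1 := hle _ (memT t' ht' h)
      rw [ip_neg_left] at h1; linarith
  refine ⟨M, τ, hτ, hz0, hxz, hyz, hTz, htz, ?_⟩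
  rw [hD, Finset.mem_union, Finset.mem_union, Finset.mem_image, Finset.mem_image,
    Finset.mem_image] at hv₀
  rcases hv₀ with ⟨a, ha, rfl⟩ | ⟨a, ha, rfl⟩ | ⟨a, ha, rfl⟩
  · rw [Finset.mem_erase] at ha
    left
    rw [ip_sub_left] at heq
    exact two_le_card (mem_Mx_of_eq hxz ha.2 (by linarith)) hxz ha.1
  · rw [Finset.mem_erase] at ha
    right
    rw [ip_sub_left] at heq
    exact two_le_card (mem_Mx_of_eq hyz ha.2 (by linarith)) hyz ha.1
  · rw [Finset.mem_erase] at ha
    rw [ip_neg_left] at heq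
    exact absurd (hc.one _ hz0 hxz hyz hTz a ha.2 t ht (by linarith) htz) ha.1

end MFollow

open MFollow in
theorem t_Follow : StmtFollow := by
  classical
  intro X Y 𝒯 x y w₀ q t hc hX hY hT ht htq
  have hxq : x ∈ Mx X q := by rw [hX]; exact Finset.mem_singleton_self x
  have hxX : x ∈ X := Mx_subset _ _ hxq
  have h3 := hc.cX
  have hq0 : q ≠ 0 := by
    rintro rfl
    rw [Mx_zero] at hX
    rw [hX, Finset.card_singleton] at h3
    omega
  have ht0 : t ≠ 0 := by
    rintro rfl
    have := hc.dom₀ 0 ht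
    rw [ip_zero_left] at this
    exact absurd this (lt_irrefl 0)
  -- the direction
  have hd : ip t (cr t q) = 0 := by rw [ip_cr', det3_self13]
  have hcr : cr q (cr t q) ≠ 0 := by
    intro h
    obtain ⟨k, hk⟩ := par_of_cr hq0 h
    -- `cr t q` is orthogonal to `q`
    have h1 : ip q (cr t q) = 0 := by rw [ip_cr', det3_self23]
    rw [hk, ip_smul_right] at h1
    have hk0 : k = 0 := by
      rcases mul_eq_zero.mp h1 with h2 | h2
      · exact h2
      · exact absurd h2 (ip_self_pos hq0).ne'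
    rw [hk0, zero_smul] at hk
    have h2 := lagrange t q
    rw [hk, ip_zero_left, htq] at h2
    have h4 : ip t t * ip q q = 0 := by linarith
    rcases mul_eq_zero.mp h4 with h5 | h5
    · exact absurd h5 (ip_self_pos ht0).ne'
    · exact absurd h5 (ip_self_pos hq0).ne'
  have hd' : ip t (-cr t q) = 0 := by rw [ip_neg_right, hd, neg_zero]
  have hcr' : cr q (-cr t q) ≠ 0 := by
    intro h
    apply hcr
    have h1 : cr q (-cr t q) = -cr q (cr t q) := by
      funext i
      fin_cases i <;> simp [cr] <;> ring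
    rw [h1, neg_eq_zero] at h
    exact h
  obtain ⟨M, τ, hτ, hz0, hxz, hyz, hTz, htz, h2z⟩ :=
    dir hc hX hY hq0 hT ht htq (cr t q) hd hcr
  obtain ⟨M', τ', hτ', hz0', hxz', hyz', hTz', htz', h2z'⟩ :=
    dir hc hX hY hq0 hT ht htq (-cr t q) hd' hcr'
  obtain ⟨z, hz⟩ : ∃ z, z = q + τ • (cr t q - M • q) := ⟨_, rfl⟩
  obtain ⟨z', hz'⟩ : ∃ z', z' = q + τ' • (-cr t q - M' • q) := ⟨_, rfl⟩
  rw [← hz] at hz0 hxz hyz hTz htz h2z
  rw [← hz'] at hz0' hxz' hyz' hTz' htz' h2z'
  obtain ⟨l, hl⟩ : ∃ l, l = τ' * (1 - τ * M) + τ * (1 - τ' * M') := ⟨_, rfl⟩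
  have hsum : τ' • z + τ • z' = l • q := by
    rw [hz, hz', hl]
    funext i
    simp only [Pi.add_apply, Pi.smul_apply, Pi.sub_apply, Pi.neg_apply, smul_eq_mul]
    ring
  have hlpos : 0 < l := by
    rcases lt_trichotomy l 0 with hneg | hzero | hpos
    · exfalso
      have h1 : x ∈ Mx X (l • q) := hsum ▸ mem_Mx_comb hτ'.le hτ.le hxz hxz'
      have h1c : 1 < X.card := by omega
      obtain ⟨a, ha, hax⟩ := Finset.exists_mem_ne h1c x
      have h2 := Mx_lt hxq ha (by rw [hX, Finset.mem_singleton]; exact hax)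
      have h4 := Mx_le h1 ha
      rw [ip_smul_right, ip_smul_right] at h4
      nlinarith
    · exfalso
      rw [hzero, zero_smul] at hsum
      -- all of `X` is maximal at `z`
      have hall : ∀ a ∈ X, a ∈ Mx X z := by
        intro a ha
        apply mem_Mx_of_eq hxz ha
        have h1 := Mx_le hxz ha
        have h2 := Mx_le hxz' ha
        have h4 : ∀ b : E, τ' * ip b z + τ * ip b z' = 0 := by
          intro b
          have := congrArg (ip b) hsum
          rw [ip_add_right, ip_smul_right, ip_smul_right, ip_zero_right] at this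
          exact this
        have h5 := h4 a
        have h6 := h4 x
        have h7 : τ' * (ip x z - ip a z) + τ * (ip x z' - ip a z') = 0 := by linarith
        have h8 : 0 ≤ τ * (ip x z' - ip a z') := mul_nonneg hτ.le (by linarith)
        have h9 : 0 ≤ τ' * (ip x z - ip a z) := mul_nonneg hτ'.le (by linarith)
        have h10 : τ' * (ip x z - ip a z) = 0 := by linarith
        rcases mul_eq_zero.mp h10 with h11 | h11
        · exact absurd h11 hτ'.ne'
        · linarith
      have hXz : Mx X z = X := Finset.Subset.antisymm (Mx_subset _ _) hall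
      obtain ⟨h1, -, -⟩ := TPH.Closed.c_t_RegTie X Y x y z h3 hc.reg hz0 hxz hyz
      rw [hXz] at h1
      rcases h1 with h1 | ⟨a', -, h1⟩
      · rw [h1, Finset.card_singleton] at h3; omega
      · have : X.card ≤ 2 := by rw [h1]; exact Finset.card_le_two
        omega
    · exact hpos
  refine ⟨z, z', τ' / l, τ / l, div_pos hτ' hlpos, div_pos hτ hlpos, ?_, hz0, hz0',
    ⟨hxz, hyz, hTz, htz, h2z⟩, ⟨hxz', hyz', hTz', htz', h2z'⟩⟩
  funext i
  have h1 := congrFun hsum i
  simp only [Pi.add_apply, Pi.smul_apply, smul_eq_mul] at h1 ⊢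
  have h2 : τ' / l * z i + τ / l * z' i = (τ' * z i + τ * z' i) / l := by ring
  rw [h2, h1, mul_comm, mul_div_assoc, div_self hlpos.ne', mul_one]

end TPH
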