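import Pool.Agent.TPH.St9
import Pool.Agent.TPH.Closed

/-!
# Three parallel hyperplanes: counting the pairs of outer points with a local event
-/

set_option autoImplicit false

namespace TPH

namespace MLBCount

theorem card_rel {α κ : Type} (P : Finset α) (S : Finset κ) (R : α → κ → Prop) (k : ℕ)
    (h1 : ∀ p ∈ P, ∃ s ∈ S, R p s)
    (h2 : ∀ s ∈ S, ∀ P' : Finset α, (∀ p ∈ P', R p s) → P'.card ≤ k) : P.card ≤ k * S.card := by
  classical
  by_cases hP : P = ∅
  · subst hP; simp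
  obtain ⟨p₀, hp₀⟩ := Finset.nonempty_iff_ne_empty.mpr hP
  obtain ⟨s₀, -, -⟩ := h1 p₀ hp₀
  have h : ∀ p : α, ∃ s : κ, p ∈ P → s ∈ S ∧ R p s := by
    intro p
    by_cases hp : p ∈ P
    · obtain ⟨s, hs, hR⟩ := h1 p hp
      exact ⟨s, fun _ => ⟨hs, hR⟩⟩
    · exact ⟨s₀, fun h => absurd h hp⟩
  choose f hf using h
  refine Finset.card_le_mul_card_image_of_maps_to (f := f) (fun p hp => (hf p hp).1) k ?_
  intro s hs
  refine h2 s hs _ ?_
  intro p hp
  rw [Finset.mem_filter] at hp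
  have := (hf p hp.1).2
  rw [hp.2] at this
  exact this

theorem card_prod_le {A B : Finset E} (P : Finset (E × E)) (w : E)
    (h : ∀ p ∈ P, p.1 ∈ Mx A w ∧ p.2 ∈ Mx B w ∧ (Mx A w).card ≤ 2 ∧ (Mx B w).card ≤ 2) :
    P.card ≤ 4 := by
  classical
  by_cases hP : P = ∅
  · subst hP; simp
  obtain ⟨p₀, hp₀⟩ := Finset.nonempty_iff_ne_empty.mpr hP
  obtain ⟨-, -, hA, hB⟩ := h p₀ hp₀
  have hsub : P ⊆ Mx A w ×ˢ Mx B w := fun p hp =>
    Finset.mem_product.mpr ⟨(h p hp).1, (h p hp).2.1⟩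
  calc P.card ≤ (Mx A w ×ˢ Mx B w).card := Finset.card_le_card hsub
    _ = (Mx A w).card * (Mx B w).card := Finset.card_product _ _
    _ ≤ 2 * 2 := Nat.mul_le_mul hA hB

theorem planar_card (hPlanar : StmtPlanar) {A B : Finset E} (c H : E) (hH : H ≠ 0)
    (P : Finset (E × E))
    (h : ∀ p ∈ P, ∃ q, q ≠ 0 ∧ Tie A B c q ∧ ip H q = 0 ∧ p.1 ∈ Mx A q ∧ p.2 ∈ Mx B q ∧
      (Mx A q).card ≤ 2 ∧ (Mx B q).card ≤ 2) : P.card ≤ 24 := by
  classical
  have h' : ∀ p : E × E, ∃ q : E, p ∈ P → (q ≠ 0 ∧ Tie A B c q ∧ ip H q = 0 ∧ p.1 ∈ Mx A q ∧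
      p.2 ∈ Mx B q ∧ (Mx A q).card ≤ 2 ∧ (Mx B q).card ≤ 2) := by
    intro p
    by_cases hp : p ∈ P
    · obtain ⟨q, hq⟩ := h p hp
      exact ⟨q, fun _ => hq⟩
    · exact ⟨0, fun h => absurd h hp⟩
  choose f hf using h'
  obtain ⟨Q', hQ', hcard, hcov⟩ := hPlanar A B c H (P.image f) hH (by
    intro q hq
    obtain ⟨p, hp, rfl⟩ := Finset.mem_image.mp hq
    exact ⟨(hf p hp).1, (hf p hp).2.1, (hf p hp).2.2.1⟩)
  have hle : P.card ≤ 4 * Q'.card := by
    refine card_rel P Q' (fun p q' => p.1 ∈ Mx A q' ∧ p.2 ∈ Mx B q' ∧ (Mx A q').card ≤ 2 ∧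
      (Mx B q').card ≤ 2) 4 ?_ ?_
    · intro p hp
      obtain ⟨q', hq', hA, hB⟩ := hcov (f p) (Finset.mem_image_of_mem f hp)
      obtain ⟨p', hp', hfp'⟩ := Finset.mem_image.mp (hQ' hq')
      have h1 := hf p hp
      have h2 := hf p' hp'
      rw [hfp'] at h2
      exact ⟨q', hq', hA h1.2.2.2.1, hB h1.2.2.2.2.1, h2.2.2.2.2.2.1, h2.2.2.2.2.2.2⟩
    · intro q' _ P' hP'
      exact card_prod_le P' q' hP'
  omega

theorem pair_of {e : Finset E} (he : e.card = 2) {c : E} (hc : c ∈ e) :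
    ∃ c', c' ∈ e ∧ c' ≠ c := by
  classical
  obtain ⟨x, y, hxy, rfl⟩ := Finset.card_eq_two.mp he
  rw [Finset.mem_insert, Finset.mem_singleton] at hc
  rcases hc with rfl | rfl
  · exact ⟨y, by simp, fun h => hxy h.symm⟩
  · exact ⟨x, by simp, hxy⟩

theorem sq3 (x y z : ℕ) : (x + y + z) ^ 2 ≤ 3 * (x ^ 2 + y ^ 2 + z ^ 2) := by
  have : ((x + y + z : ℕ) : ℤ) ^ 2 ≤ 3 * ((x : ℤ) ^ 2 + (y : ℤ) ^ 2 + (z : ℤ) ^ 2) := by
    push_cast
    nlinarith [sq_nonneg ((x : ℤ) - y), sq_nonneg ((y : ℤ) - z), sq_nonneg ((x : ℤ) - z)]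
  exact_mod_cast this

/-- The local data without a degenerate corner. -/
def Dat (A B C : Finset E) (p : E × E) (q c : E) : Prop :=
  q ≠ 0 ∧ Tie A B c q ∧ p.1 ∈ Mx A q ∧ p.2 ∈ Mx B q ∧ c ∈ Mx C q ∧
    (Mx A q).card ≤ 2 ∧ (Mx B q).card ≤ 2

theorem cov6 {α : Type} (P : Finset α) (D1 D2 D3 D4 D5 D6 : α → Prop) (n1 n2 n3 n4 n5 n6 : ℕ)
    (h : ∀ p ∈ P, D1 p ∨ D2 p ∨ D3 p ∨ D4 p ∨ D5 p ∨ D6 p)
    (h1 : ∀ P' ⊆ P, (∀ p ∈ P', D1 p) → P'.card ≤ n1)
    (h2 : ∀ P' ⊆ P, (∀ p ∈ P', D2 p) → P'.card ≤ n2)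
    (h3 : ∀ P' ⊆ P, (∀ p ∈ P', D3 p) → P'.card ≤ n3)
    (h4 : ∀ P' ⊆ P, (∀ p ∈ P', D4 p) → P'.card ≤ n4)
    (h5 : ∀ P' ⊆ P, (∀ p ∈ P', D5 p) → P'.card ≤ n5)
    (h6 : ∀ P' ⊆ P, (∀ p ∈ P', D6 p) → P'.card ≤ n6) :
    P.card ≤ n1 + n2 + n3 + n4 + n5 + n6 := by
  classical
  have hsub : P ⊆ P.filter D1 ∪ (P.filter D2 ∪ (P.filter D3 ∪ (P.filter D4 ∪
      (P.filter D5 ∪ P.filter D6)))) := by
    intro p hp
    simp only [Finset.mem_union, Finset.mem_filter, hp, true_and]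
    exact h p hp
  have e1 := h1 (P.filter D1) (Finset.filter_subset _ _) (fun p hp => (Finset.mem_filter.mp hp).2)
  have e2 := h2 (P.filter D2) (Finset.filter_subset _ _) (fun p hp => (Finset.mem_filter.mp hp).2)
  have e3 := h3 (P.filter D3) (Finset.filter_subset _ _) (fun p hp => (Finset.mem_filter.mp hp).2)
  have e4 := h4 (P.filter D4) (Finset.filter_subset _ _) (fun p hp => (Finset.mem_filter.mp hp).2)
  have e5 := h5 (P.filter D5) (Finset.filter_subset _ _) (fun p hp => (Finset.mem_filter.mp hp).2)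
  have e6 := h6 (P.filter D6) (Finset.filter_subset _ _) (fun p hp => (Finset.mem_filter.mp hp).2)
  have c0 := Finset.card_le_card hsub
  have u1 := Finset.card_union_le (P.filter D1) (P.filter D2 ∪ (P.filter D3 ∪ (P.filter D4 ∪
      (P.filter D5 ∪ P.filter D6))))
  have u2 := Finset.card_union_le (P.filter D2) (P.filter D3 ∪ (P.filter D4 ∪
      (P.filter D5 ∪ P.filter D6)))
  have u3 := Finset.card_union_le (P.filter D3) (P.filter D4 ∪ (P.filter D5 ∪ P.filter D6))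
  have u4 := Finset.card_union_le (P.filter D4) (P.filter D5 ∪ P.filter D6)
  have u5 := Finset.card_union_le (P.filter D5) (P.filter D6)
  omega

theorem face_card {A B C : Finset E} (hC : ConvPos C) (P : Finset (E × E))
    (h : ∀ p ∈ P, ∃ q c, Dat A B C p q c ∧ 3 ≤ (Mx C q).card) : P.card ≤ 16 * C.card := by
  classical
  have h1 : P.card ≤ 8 * (Faces C).card := by
    refine card_rel P (Faces C) (fun p G => ∃ q c, Dat A B C p q c ∧ Mx C q = G) 8 ?_ ?_
    · intro p hp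
      obtain ⟨q, c, hd, h3⟩ := h p hp
      exact ⟨Mx C q, mem_Faces.mpr ⟨h3, q, hd.1, rfl⟩, q, c, hd, rfl⟩
    · intro G hG P' hP'
      obtain ⟨hG3, ρ, hρ, hρG⟩ := mem_Faces.mp hG
      obtain ⟨x, hx, y, hy, z, hz, hxy, hxz, hyz⟩ := Finset.two_lt_card.mp (show 2 < G.card from hG3)
      have hle : P'.card ≤ 4 * (Finset.univ : Finset Bool).card := by
        refine card_rel P' Finset.univ (fun p s =>
          p.1 ∈ Mx A (if s then ρ else -ρ) ∧ p.2 ∈ Mx B (if s then ρ else -ρ) ∧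
            (Mx A (if s then ρ else -ρ)).card ≤ 2 ∧ (Mx B (if s then ρ else -ρ)).card ≤ 2) 4 ?_ ?_
        · intro p hp
          obtain ⟨q, c, ⟨hq0, -, ha, hb, -, hcA, hcB⟩, hqG⟩ := hP' p hp
          have hsubG : ({x, y, z} : Finset E) ⊆ G := by
            intro t ht
            simp only [Finset.mem_insert, Finset.mem_singleton] at ht
            rcases ht with rfl | rfl | rfl
            · exact hx
            · exact hy
            · exact hz
          have hGC : G ⊆ C := by rw [← hρG]; exact Mx_subset C ρ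
          have pρ : Perp {x, y, z} ρ := by
            have := perp_Mx C ρ
            rw [hρG] at this
            exact this.mono hsubG
          have pq : Perp {x, y, z} q := by
            have := perp_Mx C q
            rw [hqG] at this
            exact this.mono hsubG
          obtain ⟨κ, hκ⟩ := TPH.Closed.c_t_NonCol C x y z ρ q hC (hGC hx) (hGC hy) (hGC hz) hxy hxz
            hyz hρ pρ pq
          rcases lt_trichotomy κ 0 with hneg | hz0 | hpos
          · have hq' : q = (-κ) • (-ρ) := by rw [hκ, smul_neg, neg_smul, neg_neg]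
            refine ⟨false, Finset.mem_univ _, ?_⟩
            have eA : Mx A q = Mx A (-ρ) := by rw [hq']; exact Mx_smul (by linarith) A _
            have eB : Mx B q = Mx B (-ρ) := by rw [hq']; exact Mx_smul (by linarith) B _
            rw [eA] at ha hcA
            rw [eB] at hb hcB
            simpa using ⟨ha, hb, hcA, hcB⟩
          · exact absurd (by rw [hκ, hz0, zero_smul]) hq0
          · refine ⟨true, Finset.mem_univ _, ?_⟩
            have eA : Mx A q = Mx A ρ := by rw [hκ]; exact Mx_smul hpos A _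
            have eB : Mx B q = Mx B ρ := by rw [hκ]; exact Mx_smul hpos B _
            rw [eA] at ha hcA
            rw [eB] at hb hcB
            simpa using ⟨ha, hb, hcA, hcB⟩
        · intro s _ P'' hP''
          exact card_prod_le P'' _ hP''
      have : (Finset.univ : Finset Bool).card = 2 := rfl
      omega
  have h2 := (TPH.Closed.edge_lin C hC).1
  omega

theorem edge_card (hPlanar : StmtPlanar) {A B C : Finset E} (hC : ConvPos C) (P : Finset (E × E))
    (h : ∀ p ∈ P, ∃ q c, Dat A B C p q c ∧ (Mx C q).card = 2) : P.card ≤ 576 * C.card := by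
  classical
  have h1 : P.card ≤ 48 * (Ed C).card := by
    refine card_rel P (Ed C) (fun p e => ∃ q c, Dat A B C p q c ∧ Mx C q = e) 48 ?_ ?_
    · intro p hp
      obtain ⟨q, c, hd, h3⟩ := h p hp
      exact ⟨Mx C q, mem_Ed.mpr ⟨h3, q, rfl⟩, q, c, hd, rfl⟩
    · intro e he P' hP'
      obtain ⟨he2, -⟩ := mem_Ed.mp he
      have hle : P'.card ≤ 24 * e.card := by
        refine card_rel P' e (fun p c => ∃ q, Dat A B C p q c ∧ Mx C q = e) 24 ?_ ?_
        · intro p hp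
          obtain ⟨q, c, hd, hq⟩ := hP' p hp
          exact ⟨c, hq ▸ hd.2.2.2.2.1, q, hd, hq⟩
        · intro c hc P'' hP''
          obtain ⟨c', hc', hne⟩ := pair_of he2 hc
          refine planar_card hPlanar (A := A) (B := B) c (c - c') (sub_ne_zero.mpr (Ne.symm hne)) P'' ?_
          intro p hp
          obtain ⟨q, ⟨hq0, ht, ha, hb, hcm, hcA, hcB⟩, hq⟩ := hP'' p hp
          refine ⟨q, hq0, ht, ?_, ha, hb, hcA, hcB⟩
          rw [ip_sub_left, Mx_eq hcm (hq.symm ▸ hc'), sub_self]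
      omega
  have h2 := (TPH.Closed.edge_lin C hC).2.2
  omega

theorem flat_card {A B C : Finset E} (P : Finset (E × E))
    (h : ∀ p ∈ P, ∃ q c, p.1 ∈ Mx A q ∧ p.2 ∈ Mx B q ∧ (Mx A q, c, Mx B q) ∈ flats A B C) :
    P.card ≤ 4 * (flats A B C).card := by
  classical
  refine card_rel P (flats A B C) (fun p x => p.1 ∈ x.1 ∧ p.2 ∈ x.2.2) 4 ?_ ?_
  · intro p hp
    obtain ⟨q, c, ha, hb, hx⟩ := h p hp
    exact ⟨_, hx, ha, hb⟩
  · intro x hx P' hP'
    obtain ⟨u, hu⟩ := mem_flats.mp hx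
    have hsub : P' ⊆ x.1 ×ˢ x.2.2 := fun p hp =>
      Finset.mem_product.mpr ⟨(hP' p hp).1, (hP' p hp).2⟩
    have h1 : x.1.card = 2 := hu.1
    have h2 : x.2.2.card = 2 := hu.2.1
    have := Finset.card_le_card hsub
    rw [Finset.card_product, h1, h2] at this
    exact this

theorem tang_card (hPlanar : StmtPlanar) {A B C : Finset E} (P : Finset (E × E))
    (h : ∀ p ∈ P, ∃ q c, Dat A B C p q c ∧ (Mx A q).card = 2 ∧ Mx A q ∈ ev7 A B C c) :
    P.card ≤ 24 * ∑ c ∈ C, (ev7 A B C c).card := by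
  classical
  have h1 : P.card ≤ 24 * (C.sigma (fun c => ev7 A B C c)).card := by
    refine card_rel P (C.sigma (fun c => ev7 A B C c))
      (fun p s => ∃ q, Dat A B C p q s.1 ∧ Mx A q = s.2 ∧ s.2.card = 2) 24 ?_ ?_
    · intro p hp
      obtain ⟨q, c, hd, h2, h7⟩ := h p hp
      exact ⟨⟨c, Mx A q⟩, Finset.mem_sigma.mpr ⟨Mx_subset _ _ hd.2.2.2.2.1, h7⟩, q, hd, rfl, h2⟩
    · rintro ⟨c, e⟩ _ P' hP'
      by_cases hP0 : P' = ∅
      · subst hP0; simp
      obtain ⟨p₀, hp₀⟩ := Finset.nonempty_iff_ne_empty.mpr hP0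
      obtain ⟨q₀, -, -, he2⟩ := hP' p₀ hp₀
      have he2' : e.card = 2 := he2
      obtain ⟨a, a', hne, hee⟩ := Finset.card_eq_two.mp he2'
      refine planar_card hPlanar (A := A) (B := B) c (a - a') (sub_ne_zero.mpr hne) P' ?_
      intro p hp
      obtain ⟨q, ⟨hq0, ht, ha, hb, hcm, hcA, hcB⟩, hq, -⟩ := hP' p hp
      have hq' : Mx A q = e := hq
      refine ⟨q, hq0, ht, ?_, ha, hb, hcA, hcB⟩
      have m1 : a ∈ Mx A q := by rw [hq', hee]; simp
      have m2 : a' ∈ Mx A q := by rw [hq', hee]; simp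
      rw [ip_sub_left, Mx_eq m1 m2, sub_self]
  rwa [Finset.card_sigma] at h1

theorem alt_card {A B C : Finset E} (P : Finset (E × E))
    (h : ∀ p ∈ P, ∃ x ∈ alts A B C, x.1.1 = p.1 ∧ x.2.1.1 = p.2) :
    P.card ≤ (alts A B C).card := by
  classical
  have := card_rel P (alts A B C) (fun p x => x.1.1 = p.1 ∧ x.2.1.1 = p.2) 1 h (by
    intro x _ P' hP'
    rw [Finset.card_le_one]
    intro p hp p' hp'
    have h1 := hP' p hp
    have h2 := hP' p' hp'
    exact Prod.ext (h1.1.symm.trans h2.1) (h1.2.symm.trans h2.2))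
  omega

end MLBCount

open MLBCount in
theorem t_LBCount (hAltBound : StmtAltBound) (hTangPairs : StmtTangPairs) (hPlanar : StmtPlanar)
    (hTieEv : StmtTieEv) : StmtLBCount := by
  classical
  obtain ⟨K1, hK1⟩ := TPH.Closed.c_t_OCount
  obtain ⟨K2, hK2⟩ := hAltBound
  obtain ⟨K3, hK3⟩ := TPH.Closed.flats_bound
  obtain ⟨K4, hK4⟩ := hTangPairs
  refine ⟨3 * ((K1 + 592 + 24 * K4) ^ 2 + K2 + 16 * K3), ?_⟩
  intro A B C P hA hB hC hR hP
  set n := A.card + B.card + C.card with hn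
  have bAlt := hK2 A B C hA hB hC hR
  have bFlat := hK3 A B C hA hB hC hR
  have bT := hK4 A B C hA hC hR
  have bO := hK1 A B hA hB
  have hcov := cov6 P (fun p => Ov A B p.1 p.2)
    (fun p => ∃ x ∈ alts A B C, x.1.1 = p.1 ∧ x.2.1.1 = p.2)
    (fun p => ∃ q c, Dat A B C p q c ∧ 3 ≤ (Mx C q).card)
    (fun p => ∃ q c, Dat A B C p q c ∧ (Mx C q).card = 2)
    (fun p => ∃ q c, p.1 ∈ Mx A q ∧ p.2 ∈ Mx B q ∧ (Mx A q, c, Mx B q) ∈ flats A B C)
    (fun p => ∃ q c, Dat A B C p q c ∧ (Mx A q).card = 2 ∧ Mx A q ∈ ev7 A B C c)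
    (K1 * (A.card + B.card)) (alts A B C).card (16 * C.card) (576 * C.card)
    (4 * (flats A B C).card) (24 * ∑ c ∈ C, (ev7 A B C c).card)
    (by
      intro p hp
      obtain ⟨-, hLB⟩ := hP p hp
      by_cases hOv : Ov A B p.1 p.2
      · exact Or.inl hOv
      rcases hLB with h | h | ⟨q, c, hq0, ht, ha, hb, hc, hcase⟩
      · exact absurd h hOv
      · exact Or.inr (Or.inl h)
      · have hcA : (Mx A q).card ≤ 2 := by
          by_contra hcon
          exact hOv ⟨q, hq0, ha, hb, Or.inl (by omega)⟩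
        have hcB : (Mx B q).card ≤ 2 := by
          by_contra hcon
          exact hOv ⟨q, hq0, ha, hb, Or.inr (by omega)⟩
        have hd : Dat A B C p q c := ⟨hq0, ht, ha, hb, hc, hcA, hcB⟩
        by_cases h3 : 3 ≤ (Mx C q).card
        · exact Or.inr (Or.inr (Or.inl ⟨q, c, hd, h3⟩))
        by_cases h2 : 2 ≤ (Mx C q).card
        · exact Or.inr (Or.inr (Or.inr (Or.inl ⟨q, c, hd, by omega⟩)))
        have h1 : (Mx C q).card = 1 := by
          have : 0 < (Mx C q).card := Finset.card_pos.mpr ⟨c, hc⟩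
          omega
        obtain ⟨c₁, hc₁⟩ := Finset.card_eq_one.mp h1
        have hcc : c = c₁ := by rw [hc₁, Finset.mem_singleton] at hc; exact hc
        subst hcc
        rcases hcase with h' | ⟨hA2, hB2⟩
        · exact absurd h' h2
        have eA : (Mx A q).card = 2 := by omega
        have eB : (Mx B q).card = 2 := by omega
        rcases hTieEv A B C c q hq0 ht hc₁ eA eB with hf | h7
        · exact Or.inr (Or.inr (Or.inr (Or.inr (Or.inl ⟨q, c, ha, hb, hf⟩))))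
        · exact Or.inr (Or.inr (Or.inr (Or.inr (Or.inr ⟨q, c, hd, eA, h7⟩)))))
    (by
      intro P' hsub hP'
      refine le_trans (Finset.card_le_card ?_) bO
      intro p hp
      rw [Finset.mem_filter]
      exact ⟨(hP p (hsub hp)).1, hP' p hp⟩)
    (fun P' _ hP' => alt_card P' hP')
    (fun P' _ hP' => face_card hC P' hP')
    (fun P' _ hP' => edge_card hPlanar hC P' hP')
    (fun P' _ hP' => flat_card P' hP')
    (fun P' _ hP' => tang_card hPlanar P' hP')
  have hAB : A.card + B.card ≤ n := by omega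
  have hAC : A.card + C.card ≤ n := by omega
  have hCn : C.card ≤ n := by omega
  have l1 : K1 * (A.card + B.card) ≤ K1 * n := Nat.mul_le_mul_left _ hAB
  have l4 : K4 * (A.card + C.card) ≤ K4 * n := Nat.mul_le_mul_left _ hAC
  have lin : P.card ≤ (K1 + 592 + 24 * K4) * n + (alts A B C).card + 4 * (flats A B C).card := by
    have e : (K1 + 592 + 24 * K4) * n = K1 * n + 592 * n + 24 * (K4 * n) := by ring
    rw [e]
    omega
  have nn : n ^ 2 ≤ n ^ 3 := by
    rcases Nat.eq_zero_or_pos n with h0 | h0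
    · rw [h0]; norm_num
    · exact Nat.pow_le_pow_right h0 (by norm_num)
  calc P.card ^ 2 ≤ ((K1 + 592 + 24 * K4) * n + (alts A B C).card + 4 * (flats A B C).card) ^ 2 :=
        Nat.pow_le_pow_left lin 2
    _ ≤ 3 * (((K1 + 592 + 24 * K4) * n) ^ 2 + (alts A B C).card ^ 2 +
        (4 * (flats A B C).card) ^ 2) := sq3 _ _ _
    _ = 3 * ((K1 + 592 + 24 * K4) ^ 2 * n ^ 2 + (alts A B C).card ^ 2 +
        16 * (flats A B C).card ^ 2) := by ring
    _ ≤ 3 * ((K1 + 592 + 24 * K4) ^ 2 * n ^ 3 + K2 * n ^ 3 + 16 * (K3 * n ^ 3)) := by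
        gcongr
    _ = 3 * ((K1 + 592 + 24 * K4) ^ 2 + K2 + 16 * K3) * n ^ 3 := by ring

end TPH
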