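import Pool.Agent.TPH.St9
import Pool.Agent.TPH.Closed

/-!
# Three parallel hyperplanes: the number of pairs `(a,c)` with a local event (module LECount)
-/

set_option autoImplicit false

namespace TPH

namespace MLECount

open Classical in
/-- Pairs with an alternation. -/
noncomputable def U2 (A B C : Finset E) : Finset (E × E) :=
  (alts A B C).image (fun x => (x.1.1, x.2.2))

open Classical in
/-- The points `a` which belong to the ordered pair `(c,c')`. -/
noncomputable def S3 (A B C : Finset E) (c c' : E) : Finset E :=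
  A.filter (fun a => ∃ q, q ≠ 0 ∧ Tie A B c q ∧ a ∈ Mx A q ∧ (Mx A q).card ≤ 2 ∧ Mx C q = {c, c'})

open Classical in
/-- Pairs of the third kind, first part. -/
noncomputable def U3 (A B C : Finset E) : Finset (E × E) :=
  (Ed C).biUnion (fun e => e.offDiag.biUnion
    (fun p => (S3 A B C p.1 p.2).image (fun a => (a, p.1))))

open Classical in
/-- The pairs exposed by `u`, if there are few of them. -/
noncomputable def V4 (A C : Finset E) (u : E) : Finset (E × E) :=
  if (Mx A u).card ≤ 2 ∧ (Mx C u).card = 1 then Mx A u ×ˢ Mx C u else ∅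

open Classical in
/-- Pairs of the third kind, second part. -/
noncomputable def U4 (A B C : Finset E) (ρ : Finset E → E) : Finset (E × E) :=
  (Faces B).biUnion (fun G => V4 A C (ρ G) ∪ V4 A C (-ρ G))

open Classical in
/-- Pairs of flats. -/
noncomputable def U5 (A B C : Finset E) : Finset (E × E) :=
  (flats A B C).biUnion (fun x => x.1 ×ˢ {x.2.1})

open Classical in
/-- Tangent pairs. -/
noncomputable def U6 (A B C : Finset E) : Finset (E × E) :=
  C.biUnion (fun c => (ev7 A B C c).biUnion (fun e => e ×ˢ {c}))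

theorem card_U2 (A B C : Finset E) : (U2 A B C).card ≤ (alts A B C).card :=
  Finset.card_image_le

theorem card_S3 (hP : StmtPlanar) (A B C : Finset E) (c c' : E) (hcc : c ≠ c') :
    (S3 A B C c c').card ≤ 12 := by
  classical
  have h1 : ∀ a, ∃ q, a ∈ S3 A B C c c' → (q ≠ 0 ∧ Tie A B c q ∧ a ∈ Mx A q ∧
      (Mx A q).card ≤ 2 ∧ Mx C q = {c, c'}) := by
    intro a
    by_cases h : a ∈ S3 A B C c c'
    · unfold S3 at h
      obtain ⟨q, hq⟩ := (Finset.mem_filter.mp h).2
      exact ⟨q, fun _ => hq⟩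
    · exact ⟨0, fun h' => absurd h' h⟩
  choose Q hQ using h1
  obtain ⟨Q', hQ', hc6, hcov⟩ := hP A B c (c - c') ((S3 A B C c c').image Q) (sub_ne_zero.mpr hcc)
    (by
      intro q hq
      obtain ⟨a, ha, rfl⟩ := Finset.mem_image.mp hq
      obtain ⟨h0, ht, -, -, hm⟩ := hQ a ha
      refine ⟨h0, ht, ?_⟩
      have h2 : c ∈ Mx C (Q a) := by rw [hm]; simp
      have h3 : c' ∈ Mx C (Q a) := by rw [hm]; simp
      rw [ip_sub_left, Mx_eq h2 h3, sub_self])
  have hsub : S3 A B C c c' ⊆ Q'.biUnion (fun q => Mx A q) := by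
    intro a ha
    obtain ⟨q', hq', hA, -⟩ := hcov (Q a) (Finset.mem_image_of_mem _ ha)
    exact Finset.mem_biUnion.mpr ⟨q', hq', hA (hQ a ha).2.2.1⟩
  calc (S3 A B C c c').card ≤ (Q'.biUnion (fun q => Mx A q)).card := Finset.card_le_card hsub
    _ ≤ ∑ q ∈ Q', (Mx A q).card := Finset.card_biUnion_le
    _ ≤ ∑ _q ∈ Q', 2 := by
        refine Finset.sum_le_sum (fun q hq => ?_)
        obtain ⟨a, ha, rfl⟩ := Finset.mem_image.mp (hQ' hq)
        exact (hQ a ha).2.2.2.1
    _ = 2 * Q'.card := by rw [Finset.sum_const, smul_eq_mul, mul_comm]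
    _ ≤ 12 := by omega

theorem card_U3 (hP : StmtPlanar) (A B C : Finset E) (hC : ConvPos C) :
    (U3 A B C).card ≤ 288 * C.card := by
  classical
  have hE := (Closed.edge_lin C hC).2.2
  have h1 : ∀ e ∈ Ed C, (e.offDiag.biUnion
      (fun p => (S3 A B C p.1 p.2).image (fun a => (a, p.1)))).card ≤ 24 := by
    intro e he
    have hc2 : e.card = 2 := (mem_Ed.mp he).1
    calc (e.offDiag.biUnion (fun p => (S3 A B C p.1 p.2).image (fun a => (a, p.1)))).card
        ≤ ∑ p ∈ e.offDiag, ((S3 A B C p.1 p.2).image (fun a => (a, p.1))).card :=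
          Finset.card_biUnion_le
      _ ≤ ∑ _p ∈ e.offDiag, 12 := by
          refine Finset.sum_le_sum (fun p hp => ?_)
          exact Finset.card_image_le.trans
            (card_S3 hP A B C p.1 p.2 (Finset.mem_offDiag.mp hp).2.2)
      _ = 24 := by
          rw [Finset.sum_const, smul_eq_mul, Finset.offDiag_card, hc2]
  calc (U3 A B C).card ≤ ∑ e ∈ Ed C, (e.offDiag.biUnion
        (fun p => (S3 A B C p.1 p.2).image (fun a => (a, p.1)))).card := by
        unfold U3
        exact Finset.card_biUnion_le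
    _ ≤ ∑ _e ∈ Ed C, 24 := Finset.sum_le_sum h1
    _ = 24 * (Ed C).card := by rw [Finset.sum_const, smul_eq_mul, mul_comm]
    _ ≤ 288 * C.card := by omega

theorem card_V4 (A C : Finset E) (u : E) : (V4 A C u).card ≤ 2 := by
  unfold V4
  split_ifs with h
  · rw [Finset.card_product, h.2, mul_one]
    exact h.1
  · simp

theorem card_U4 (A B C : Finset E) (ρ : Finset E → E) (hB : ConvPos B) :
    (U4 A B C ρ).card ≤ 8 * B.card := by
  classical
  have hF := (Closed.edge_lin B hB).1
  calc (U4 A B C ρ).card ≤ ∑ G ∈ Faces B, (V4 A C (ρ G) ∪ V4 A C (-ρ G)).card := by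
        unfold U4
        convert Finset.card_biUnion_le
    _ ≤ ∑ _G ∈ Faces B, 4 := by
        refine Finset.sum_le_sum (fun G _ => ?_)
        have h1 := Finset.card_union_le (V4 A C (ρ G)) (V4 A C (-ρ G))
        have h2 := card_V4 A C (ρ G)
        have h3 := card_V4 A C (-ρ G)
        omega
    _ = 4 * (Faces B).card := by rw [Finset.sum_const, smul_eq_mul, mul_comm]
    _ ≤ 8 * B.card := by omega

theorem card_U5 (A B C : Finset E) : (U5 A B C).card ≤ 2 * (flats A B C).card := by
  classical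
  calc (U5 A B C).card ≤ ∑ x ∈ flats A B C, (x.1 ×ˢ ({x.2.1} : Finset E)).card := by
        unfold U5
        exact Finset.card_biUnion_le
    _ ≤ ∑ _x ∈ flats A B C, 2 := by
        refine Finset.sum_le_sum (fun x hx => ?_)
        obtain ⟨-, u, hu⟩ := (@Finset.mem_filter _ _ (Classical.decPred _) _ _).1 hx
        rw [Finset.card_product, Finset.card_singleton, mul_one]
        exact hu.1.le
    _ = 2 * (flats A B C).card := by rw [Finset.sum_const, smul_eq_mul, mul_comm]

theorem card_U6 (A B C : Finset E) :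
    (U6 A B C).card ≤ 2 * ∑ c ∈ C, (ev7 A B C c).card := by
  classical
  calc (U6 A B C).card ≤ ∑ c ∈ C, ((ev7 A B C c).biUnion (fun e => e ×ˢ ({c} : Finset E))).card := by
        unfold U6
        exact Finset.card_biUnion_le
    _ ≤ ∑ c ∈ C, 2 * (ev7 A B C c).card := by
        refine Finset.sum_le_sum (fun c _ => ?_)
        calc ((ev7 A B C c).biUnion (fun e => e ×ˢ ({c} : Finset E))).card
            ≤ ∑ e ∈ ev7 A B C c, (e ×ˢ ({c} : Finset E)).card := Finset.card_biUnion_le
          _ ≤ ∑ _e ∈ ev7 A B C c, 2 := by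
              refine Finset.sum_le_sum (fun e he => ?_)
              have h1 := ((@Finset.mem_filter _ _ (Classical.decPred _) _ _).1 he).1
              rw [Finset.card_product, Finset.card_singleton, mul_one]
              exact (mem_Ed.mp h1).1.le
          _ = 2 * (ev7 A B C c).card := by rw [Finset.sum_const, smul_eq_mul, mul_comm]
    _ = 2 * ∑ c ∈ C, (ev7 A B C c).card := by rw [Finset.mul_sum]

/-- `q` is a nonzero multiple of the chosen normal of the face `Mx B q`. -/
theorem face_ray (B : Finset E) (hB : ConvPos B) (q r : E) (hq : q ≠ 0) (hr : r ≠ 0)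
    (h3 : 3 ≤ (Mx B q).card) (he : Mx B r = Mx B q) :
    ∃ κ : ℝ, 0 < κ ∧ (q = κ • r ∨ q = κ • (-r)) := by
  classical
  obtain ⟨a, b, c, ha, hb, hc, hab, hac, hbc⟩ :=
    Finset.two_lt_card_iff.mp (by omega : 2 < (Mx B q).card)
  have hsub : ({a, b, c} : Finset E) ⊆ Mx B q := by
    intro x hx
    simp only [Finset.mem_insert, Finset.mem_singleton] at hx
    rcases hx with rfl | rfl | rfl
    · exact ha
    · exact hb
    · exact hc
  have hp1 : Perp {a, b, c} q := (perp_Mx B q).mono hsub
  have hp2 : Perp {a, b, c} r := by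
    have h2 := perp_Mx B r
    rw [he] at h2
    exact h2.mono hsub
  obtain ⟨κ, hκ⟩ := Closed.c_t_NonCol B a b c r q hB (Mx_subset _ _ ha) (Mx_subset _ _ hb)
    (Mx_subset _ _ hc) hab hac hbc hr hp2 hp1
  rcases lt_trichotomy κ 0 with hneg | hz | hpos
  · refine ⟨-κ, by linarith, Or.inr ?_⟩
    rw [smul_neg, neg_smul, neg_neg]
    exact hκ
  · exfalso
    rw [hz, zero_smul] at hκ
    exact hq hκ
  · exact ⟨κ, hpos, Or.inl hκ⟩

theorem mem_V4 {A C : Finset E} {a c u q : E} {κ : ℝ} (hκ : 0 < κ) (hq : q = κ • u)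
    (ha : a ∈ Mx A q) (hA : (Mx A q).card ≤ 2) (hc : Mx C q = {c}) : (a, c) ∈ V4 A C u := by
  rw [hq, Mx_smul hκ] at ha hA hc
  unfold V4
  rw [if_pos ⟨hA, by rw [hc]; simp⟩]
  refine Finset.mem_product.mpr ⟨ha, ?_⟩
  rw [hc]
  simp

/-- The squares of the three kinds of terms add up. -/
theorem sq_sum (x y z u L M N : ℕ) (n : ℕ) (h : x ≤ y + z + u) (hy : y ≤ L * n)
    (hz : z ^ 2 ≤ M * n ^ 3) (hu : u ^ 2 ≤ N * n ^ 3) :
    x ^ 2 ≤ (3 * L ^ 2 + 3 * M + 3 * N) * n ^ 3 := by
  have h1 : x ^ 2 ≤ (y + z + u) ^ 2 := Nat.pow_le_pow_left h 2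
  have h2 : (y + z + u) ^ 2 ≤ 3 * (y ^ 2 + z ^ 2 + u ^ 2) := by
    zify
    nlinarith [sq_nonneg ((y : ℤ) - z), sq_nonneg ((z : ℤ) - u), sq_nonneg ((y : ℤ) - u)]
  have h3 : y ^ 2 ≤ (L * n) ^ 2 := Nat.pow_le_pow_left hy 2
  have h4 : n ^ 2 ≤ n ^ 3 := by
    rcases Nat.eq_zero_or_pos n with h0 | h0
    · subst h0
      simp
    · exact Nat.pow_le_pow_right h0 (by norm_num)
  have h5 : (L * n) ^ 2 ≤ L ^ 2 * n ^ 3 := by
    rw [mul_pow]
    exact Nat.mul_le_mul_left _ h4
  calc x ^ 2 ≤ 3 * (y ^ 2 + z ^ 2 + u ^ 2) := h1.trans h2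
    _ ≤ 3 * (L ^ 2 * n ^ 3 + M * n ^ 3 + N * n ^ 3) := by
        refine Nat.mul_le_mul_left _ ?_
        exact Nat.add_le_add (Nat.add_le_add (h3.trans h5) hz) hu
    _ = (3 * L ^ 2 + 3 * M + 3 * N) * n ^ 3 := by ring

end MLECount

open MLECount in
theorem t_LECount (hAltBound : StmtAltBound) (hTangPairs : StmtTangPairs) (hPlanar : StmtPlanar)
    (hTieEv : StmtTieEv) : StmtLECount := by
  classical
  obtain ⟨K1, hK1⟩ := Closed.c_t_OCount
  obtain ⟨K2, hK2⟩ := hAltBound
  obtain ⟨K3, hK3⟩ := Closed.flats_bound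
  obtain ⟨K4, hK4⟩ := hTangPairs
  refine ⟨3 * (K1 + 296 + 2 * K4) ^ 2 + 3 * K2 + 3 * (4 * K3) + 4, ?_⟩
  intro A B C P hA hB hC hR hPp
  set n := A.card + B.card + C.card with hn
  by_cases hsm : A.card ≤ 2 ∨ C.card ≤ 2
  · -- small case
    have h1 : P ⊆ A ×ˢ C := by
      rintro ⟨a, c⟩ hp
      have h2 := (hPp _ hp).1
      rw [mem_Fc] at h2
      obtain ⟨u, hu1, hu2⟩ := h2
      refine Finset.mem_product.mpr ⟨?_, ?_⟩
      · exact Mx_subset A u (by rw [hu1]; exact Finset.mem_singleton_self _)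
      · exact Mx_subset C u (by rw [hu2]; exact Finset.mem_singleton_self _)
    have h2 : P.card ≤ A.card * C.card := by
      have := Finset.card_le_card h1
      rwa [Finset.card_product] at this
    have h3 : P.card ≤ 2 * n := by
      rcases hsm with h | h
      · have : A.card * C.card ≤ 2 * C.card := Nat.mul_le_mul_right _ h
        omega
      · have : A.card * C.card ≤ A.card * 2 := Nat.mul_le_mul_left _ h
        omega
    have h4 : P.card ^ 2 ≤ (2 * n) ^ 2 := Nat.pow_le_pow_left h3 2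
    have h5 : n ^ 2 ≤ n ^ 3 := by
      rcases Nat.eq_zero_or_pos n with h0 | h0
      · rw [h0]
        norm_num
      · exact Nat.pow_le_pow_right h0 (by norm_num)
    calc P.card ^ 2 ≤ (2 * n) ^ 2 := h4
      _ = 4 * n ^ 2 := by ring
      _ ≤ 4 * n ^ 3 := Nat.mul_le_mul_left _ h5
      _ ≤ _ := Nat.mul_le_mul_right _ (Nat.le_add_left _ _)
  -- the normals of the faces of `B`
  have hρ : ∀ G, ∃ r : E, G ∈ Faces B → (r ≠ 0 ∧ Mx B r = G) := by
    intro G
    by_cases h : G ∈ Faces B
    · obtain ⟨-, u, hu0, hu⟩ := mem_Faces.mp h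
      exact ⟨u, fun _ => ⟨hu0, hu⟩⟩
    · exact ⟨0, fun h' => absurd h' h⟩
  choose ρ hρ using hρ
  set U1 : Finset (E × E) := @Finset.filter (E × E) (fun p => Ov A C p.1 p.2)
    (Classical.decPred _) (Fc A C) with hU1
  have hcov : P ⊆ U1 ∪ U2 A B C ∪ U3 A B C ∪ U4 A B C ρ ∪ U5 A B C ∪ U6 A B C := by
    rintro ⟨a, c⟩ hp
    obtain ⟨hF, hLE⟩ := hPp _ hp
    simp only [Finset.mem_union]
    by_cases hOv : Ov A C a c
    · left; left; left; left; left
      rw [hU1, @Finset.mem_filter _ _ (Classical.decPred _)]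
      exact ⟨hF, hOv⟩
    rcases hLE with h | ⟨x, hx, hxa, hxc⟩ | ⟨q, hq0, hT, haq, hcq, hcase⟩
    · exact absurd h hOv
    · left; left; left; left; right
      unfold U2
      refine Finset.mem_image.mpr ⟨x, hx, ?_⟩
      exact Prod.ext hxa hxc
    · have hnA : (Mx A q).card ≤ 2 := by
        by_contra h
        exact hOv ⟨q, hq0, haq, hcq, Or.inl (by omega)⟩
      have hnC : (Mx C q).card ≤ 2 := by
        by_contra h
        exact hOv ⟨q, hq0, haq, hcq, Or.inr (by omega)⟩
      have hCpos : 0 < (Mx C q).card := Finset.card_pos.mpr ⟨c, hcq⟩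
      by_cases hC2' : (Mx C q).card = 2
      · -- (3a)
        left; left; left; right
        obtain ⟨c₁, c₂, hne, hM⟩ := Finset.card_eq_two.mp hC2'
        have hex : ∃ c', c ≠ c' ∧ Mx C q = {c, c'} := by
          have h1 : c ∈ ({c₁, c₂} : Finset E) := by rw [← hM]; exact hcq
          rcases Finset.mem_insert.mp h1 with h2 | h2
          · exact ⟨c₂, by rw [h2]; exact hne, by rw [hM, h2]⟩
          · rw [Finset.mem_singleton] at h2
            exact ⟨c₁, by rw [h2]; exact hne.symm, by rw [hM, h2, Finset.pair_comm]⟩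
        obtain ⟨c', hcc, hM'⟩ := hex
        unfold U3
        refine Finset.mem_biUnion.mpr ⟨{c, c'}, ?_, ?_⟩
        · exact mem_Ed.mpr ⟨Finset.card_pair hcc, q, hM'⟩
        refine Finset.mem_biUnion.mpr ⟨(c, c'), ?_, ?_⟩
        · rw [Finset.mem_offDiag]
          exact ⟨by simp, by simp, hcc⟩
        refine Finset.mem_image.mpr ⟨a, ?_, rfl⟩
        unfold S3
        exact Finset.mem_filter.mpr ⟨Mx_subset _ _ haq, q, hq0, hT, haq, hnA, hM'⟩
      · have hC1 : (Mx C q).card = 1 := by omega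
        have hMc : Mx C q = {c} := by
          obtain ⟨d, hd⟩ := Finset.card_eq_one.mp hC1
          rw [hd] at hcq ⊢
          have h7 : c = d := Finset.mem_singleton.mp hcq
          rw [h7]
        by_cases hB3 : 3 ≤ (Mx B q).card
        · -- (3b)
          left; left; right
          have hG : Mx B q ∈ Faces B := mem_Faces.mpr ⟨hB3, q, hq0, rfl⟩
          obtain ⟨hr0, hr⟩ := hρ _ hG
          obtain ⟨κ, hκ, hq⟩ := face_ray B hB q (ρ (Mx B q)) hq0 hr0 hB3 hr
          unfold U4
          refine Finset.mem_biUnion.mpr ⟨Mx B q, hG, ?_⟩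
          rw [Finset.mem_union]
          rcases hq with hq | hq
          · exact Or.inl (mem_V4 hκ hq haq hnA hMc)
          · exact Or.inr (mem_V4 hκ hq haq hnA hMc)
        · -- (3c)
          rcases hcase with h | h | ⟨h2A, h2B⟩
          · omega
          · exact absurd h hB3
          · have hA2' : (Mx A q).card = 2 := by omega
            have hB2' : (Mx B q).card = 2 := by omega
            rcases hTieEv A B C c q hq0 hT hMc hA2' hB2' with h | h
            · left; right
              unfold U5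
              refine Finset.mem_biUnion.mpr ⟨_, h, ?_⟩
              exact Finset.mem_product.mpr ⟨haq, Finset.mem_singleton.mpr rfl⟩
            · right
              unfold U6
              refine Finset.mem_biUnion.mpr ⟨c, ?_, ?_⟩
              · exact Mx_subset _ _ hcq
              refine Finset.mem_biUnion.mpr ⟨_, h, ?_⟩
              exact Finset.mem_product.mpr ⟨haq, Finset.mem_singleton.mpr rfl⟩
  have c1 : U1.card ≤ K1 * (A.card + C.card) := hK1 A C hA hC
  have c2 := card_U2 A B C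
  have c3 := card_U3 hPlanar A B C hC
  have c4 := card_U4 A B C ρ hB
  have c5 := card_U5 A B C
  have c6 := card_U6 A B C
  have c6' := hK4 A B C hA hC hR
  have hAlt := hK2 A B C hA hB hC hR
  have hFl := hK3 A B C hA hB hC hR
  have hcard : P.card ≤ U1.card + (U2 A B C).card + (U3 A B C).card + (U4 A B C ρ).card +
      (U5 A B C).card + (U6 A B C).card := by
    refine (Finset.card_le_card hcov).trans ?_
    refine (Finset.card_union_le _ _).trans (Nat.add_le_add_right ?_ _)
    refine (Finset.card_union_le _ _).trans (Nat.add_le_add_right ?_ _)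
    refine (Finset.card_union_le _ _).trans (Nat.add_le_add_right ?_ _)
    refine (Finset.card_union_le _ _).trans (Nat.add_le_add_right ?_ _)
    exact Finset.card_union_le _ _
  have hACn : A.card + C.card ≤ n := by omega
  have hBn : B.card ≤ n := by omega
  have hCn : C.card ≤ n := by omega
  have e1 : U1.card ≤ K1 * n := c1.trans (Nat.mul_le_mul_left _ hACn)
  have e3 : (U3 A B C).card ≤ 288 * n := c3.trans (Nat.mul_le_mul_left _ hCn)
  have e4 : (U4 A B C ρ).card ≤ 8 * n := c4.trans (Nat.mul_le_mul_left _ hBn)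
  have e6 : (U6 A B C).card ≤ 2 * (K4 * n) :=
    c6.trans (Nat.mul_le_mul_left _ (c6'.trans (Nat.mul_le_mul_left _ hACn)))
  have hfin := sq_sum P.card (K1 * n + 288 * n + 8 * n + 2 * (K4 * n)) (alts A B C).card
    (2 * (flats A B C).card) (K1 + 296 + 2 * K4) K2 (4 * K3) n (by omega) (le_of_eq (by ring)) hAlt
    (by
      calc (2 * (flats A B C).card) ^ 2 = 4 * (flats A B C).card ^ 2 := by ring
        _ ≤ 4 * (K3 * n ^ 3) := Nat.mul_le_mul_left _ hFl
        _ = 4 * K3 * n ^ 3 := by ring)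
  exact hfin.trans (Nat.mul_le_mul_right _ (Nat.le_add_right _ _))

end TPH
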