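import Pool.Agent.TPH.St9
import Pool.Agent.TPH.Closed
import Pool.Agent.TPH.Event

/-!
# Local events (module LocEvent)
-/

set_option autoImplicit false

namespace TPH

namespace MLocEvent

theorem mem_alts {A B C : Finset E} {x : Al} {u v : E} (h : IsAlt A B C x u v) :
    x ∈ alts A B C := by
  classical
  have ha : x.1.1 ∈ A := Mx_subset _ _ (h.ua ▸ h.ae)
  have he : x.1.2 ⊆ A := h.ua ▸ Mx_subset _ _
  have hb : x.2.1.1 ∈ B := Mx_subset _ _ (h.vb ▸ h.bf)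
  have hf : x.2.1.2 ⊆ B := h.vb ▸ Mx_subset _ _
  have hc : x.2.2 ∈ C := Mx_subset C u (h.uc ▸ Finset.mem_singleton_self _)
  unfold alts
  rw [Finset.mem_filter]
  refine ⟨?_, u, v, h⟩
  simp only [Finset.mem_product, Finset.mem_powerset]
  exact ⟨⟨ha, he⟩, ⟨hb, hf⟩, hc⟩

end MLocEvent

open MEvent Set in
theorem t_LocEvent (hTieBasic : StmtTieBasic) (hTPath : StmtTPath) : StmtLocEvent := by
  intro A B C a c r w₁ w₂ hr hw₁ hw₂ hdet hA hC hB2 haw₂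
  obtain ⟨q, τ, P⟩ := hTPath A B c r w₁ w₂ hr hw₁ hw₂
  have hq : Continuous q := by
    have h1 : q = fun s => (1 - s) • w₁ + s • w₂ - τ s • r := funext P.eq
    rw [h1]
    exact (((continuous_const.sub continuous_id).smul continuous_const).add
      (continuous_id.smul continuous_const)).sub (P.cont.smul continuous_const)
  have hnz : ∀ t, q t ≠ 0 := by
    intro t h0
    have h1 : (1 - t) • w₁ + t • w₂ - τ t • r = 0 := by rw [← P.eq]; exact h0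
    have h2 : det3 r ((1 - t) • w₁ + t • w₂ - τ t • r) w₂ = 0 := by rw [h1, det3_zero2]
    have h3 : det3 r w₁ ((1 - t) • w₁ + t • w₂ - τ t • r) = 0 := by rw [h1, det3_zero3]
    rw [det3_sub2, det3_add2, det3_smul2, det3_smul2, det3_smul2, det3_self12, det3_self23] at h2
    rw [det3_sub3, det3_add3, det3_smul3, det3_smul3, det3_smul3, det3_self13, det3_self23] at h3
    have h4 : (1 - t) * det3 r w₁ w₂ = 0 := by linarith
    have h5 : t * det3 r w₁ w₂ = 0 := by linarith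
    apply hdet
    linarith
  have hne := (hTieBasic A B c w₁).1 hw₁
  have hAne : A.Nonempty := hne.1
  have hBne : B.Nonempty := hne.2.1
  have heq : ∀ t ∈ Icc (0 : ℝ) 1, ∀ a ∈ Mx A (q t), ∀ b ∈ Mx B (q t),
      ip a (q t) + ip b (q t) = 2 * ip c (q t) := by
    intro t ht
    exact ((hTieBasic A B c (q t)).1 (P.tie t ht.1 ht.2)).2.2.1
  have hcC : c ∈ C := Mx_subset C w₁ (hC ▸ Finset.mem_singleton_self c)
  have haA : a ∈ A := Mx_subset A w₁ (hA ▸ Finset.mem_singleton_self a)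
  -- the first time another point of `A` ties
  have h1A : ∃ b ∈ A, b ≠ a ∧ b ∈ Mx A (q 1) := by
    obtain ⟨b, hb⟩ := Mx_nonempty hAne w₂
    refine ⟨b, Mx_subset _ _ hb, fun e => haw₂ (e ▸ hb), ?_⟩
    rw [P.one]
    exact hb
  have hKA : IsCompact (Icc (0 : ℝ) 1 ∩ {t : ℝ | ∃ b ∈ A, b ≠ a ∧ b ∈ Mx A (q t)}) :=
    isCompact_Icc.inter_right (closed_other hq A a)
  obtain ⟨s₁, ⟨hs₁I, hs₁c⟩, hs₁m⟩ := hKA.exists_isLeast ⟨1, ⟨zero_le_one, le_rfl⟩, h1A⟩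
  obtain ⟨a', ha'A, ha'a, ha'⟩ := hs₁c
  have hs₁pos : 0 < s₁ := by
    rcases hs₁I.1.lt_or_eq with hl | he
    · exact hl
    · exfalso
      rw [← he, P.zero, hA] at ha'
      exact ha'a (Finset.mem_singleton.mp ha')
  have hAs : ∀ t ∈ Ico (0 : ℝ) s₁, Mx A (q t) = {a} := by
    intro t ht
    apply Finset.eq_singleton_iff_nonempty_unique_mem.mpr
    refine ⟨Mx_nonempty hAne (q t), fun b' hb' => ?_⟩
    by_contra hbb
    have := hs₁m (show t ∈ Icc (0 : ℝ) 1 ∩ {t : ℝ | ∃ b ∈ A, b ≠ a ∧ b ∈ Mx A (q t)} from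
      ⟨⟨ht.1, ht.2.le.trans hs₁I.2⟩, ⟨b', Mx_subset _ _ hb', hbb, hb'⟩⟩)
    exact absurd ht.2 (not_lt.mpr this)
  have haI : ∀ t ∈ Icc (0 : ℝ) s₁, a ∈ Mx A (q t) := by
    have hcl : closure (Ico (0 : ℝ) s₁) ⊆ {t : ℝ | a ∈ Mx A (q t)} :=
      closure_minimal (fun t ht => by
        show a ∈ Mx A (q t)
        rw [hAs t ht]
        exact Finset.mem_singleton_self a) (closed_mem hq A a)
    rw [closure_Ico hs₁pos.ne] at hcl
    exact fun t ht => hcl ht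
  have has₁ : a ∈ Mx A (q s₁) := haI s₁ ⟨hs₁pos.le, le_rfl⟩
  have hA2 : 2 ≤ (Mx A (q s₁)).card :=
    Finset.one_lt_card.mpr ⟨a, has₁, a', ha', fun e => ha'a e.symm⟩
  have hI1 : ∀ t ∈ Icc (0 : ℝ) s₁, t ∈ Icc (0 : ℝ) 1 := fun t ht => ⟨ht.1, ht.2.trans hs₁I.2⟩
  have hAB : a ∈ A := haA
  by_cases hall : ∀ t ∈ Icc (0 : ℝ) s₁, Mx C (q t) = {c}
  · have hcI : ∀ t ∈ Icc (0 : ℝ) s₁, c ∈ Mx C (q t) := fun t ht => by
      rw [hall t ht]
      exact Finset.mem_singleton_self c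
    have h1I : s₁ ∈ Icc (0 : ℝ) s₁ := ⟨hs₁pos.le, le_rfl⟩
    by_cases hA3 : 3 ≤ (Mx A (q s₁)).card
    · exact Or.inl ⟨q s₁, hnz s₁, has₁, hcI s₁ h1I, Or.inl hA3⟩
    by_cases hB3 : ∃ t ∈ Icc (0 : ℝ) s₁, 3 ≤ (Mx B (q t)).card
    · obtain ⟨t, ht, hB3⟩ := hB3
      exact Or.inr (Or.inr ⟨q t, hnz t, P.tie t (hI1 t ht).1 (hI1 t ht).2, haI t ht, hcI t ht,
        Or.inr (Or.inl hB3)⟩)
    have hB3' : ∀ t ∈ Icc (0 : ℝ) s₁, (Mx B (q t)).card < 3 := fun t ht => by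
      by_contra hn
      exact hB3 ⟨t, ht, by omega⟩
    by_cases hB2' : 2 ≤ (Mx B (q s₁)).card
    · exact Or.inr (Or.inr ⟨q s₁, hnz s₁, P.tie s₁ (hI1 s₁ h1I).1 (hI1 s₁ h1I).2, has₁, hcI s₁ h1I,
        Or.inr (Or.inr ⟨hA2, hB2'⟩)⟩)
    have hKB : IsCompact (Icc (0 : ℝ) s₁ ∩ {t : ℝ | 2 ≤ (Mx B (q t)).card}) :=
      isCompact_Icc.inter_right (closed_two hq B)
    have h0B : 2 ≤ (Mx B (q 0)).card := by rw [P.zero]; exact hB2
    obtain ⟨s₂, ⟨hs₂I, hs₂c⟩, hs₂m⟩ := hKB.exists_isGreatest ⟨0, ⟨le_rfl, hs₁pos.le⟩, h0B⟩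
    have hs₂c' : 2 ≤ (Mx B (q s₂)).card := hs₂c
    have hlt : s₂ < s₁ := by
      rcases hs₂I.2.lt_or_eq with hl | he
      · exact hl
      · exfalso
        rw [he] at hs₂c'
        exact hB2' hs₂c'
    have hIB : ∀ t ∈ Ioo s₂ s₁, (Mx B (q t)).card < 2 := by
      intro t ht
      by_contra hn
      have := hs₂m (show t ∈ Icc (0 : ℝ) s₁ ∩ {t : ℝ | 2 ≤ (Mx B (q t)).card} from
        ⟨⟨hs₂I.1.trans ht.1.le, ht.2.le⟩, show 2 ≤ (Mx B (q t)).card by omega⟩)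
      exact absurd ht.1 (not_lt.mpr this)
    obtain ⟨b, hb2, hb1⟩ := const_single hq hBne hlt hIB
    have e1 : Mx B (q s₁) = {b} := eq_single (by omega) hb1
    have e2 : Mx A (q s₂) = {a} := hAs s₂ ⟨hs₂I.1, hlt⟩
    have c1 : (Mx A (q s₁)).card = 2 := by omega
    have c2 : (Mx B (q s₂)).card = 2 := by
      have := hB3' s₂ hs₂I
      omega
    have ha2 : a ∈ Mx A (q s₂) := haI s₂ hs₂I
    have halt : IsAlt A B C ((a, Mx A (q s₁)), (b, Mx B (q s₂)), c) (q s₁) (q s₂) :=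
      ⟨c1, c2, has₁, hb2, rfl, e1, hall s₁ h1I, e2, rfl, hall s₂ hs₂I,
        heq s₁ (hI1 s₁ h1I) a has₁ b hb1, heq s₂ (hI1 s₂ hs₂I) a ha2 b hb2⟩
    exact Or.inr (Or.inl ⟨_, MLocEvent.mem_alts halt, rfl, rfl⟩)
  · right
    right
    have hex : ∃ t ∈ Icc (0 : ℝ) s₁, ∃ b ∈ C, b ≠ c ∧ b ∈ Mx C (q t) := by
      by_contra hn
      apply hall
      intro t ht
      obtain ⟨b, hb⟩ := Mx_nonempty ⟨c, hcC⟩ (q t)
      apply Finset.eq_singleton_iff_nonempty_unique_mem.mpr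
      refine ⟨⟨b, hb⟩, fun b' hb' => ?_⟩
      by_contra hne'
      exact hn ⟨t, ht, b', Mx_subset _ _ hb', hne', hb'⟩
    have hK : IsCompact (Icc (0 : ℝ) s₁ ∩ {t : ℝ | ∃ b ∈ C, b ≠ c ∧ b ∈ Mx C (q t)}) :=
      isCompact_Icc.inter_right (closed_other hq C c)
    obtain ⟨t', ht', htt⟩ := hex
    obtain ⟨t₀, ⟨h0I, h0c⟩, h0m⟩ := hK.exists_isLeast ⟨t', ht', htt⟩
    obtain ⟨b, hbC, hbc, hb⟩ := h0c
    have hpos : 0 < t₀ := by
      rcases h0I.1.lt_or_eq with hl | he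
      · exact hl
      · exfalso
        rw [← he, P.zero, hC] at hb
        exact hbc (Finset.mem_singleton.mp hb)
    have hIco : ∀ t ∈ Ico (0 : ℝ) t₀, c ∈ Mx C (q t) := by
      intro t ht
      obtain ⟨b', hb'⟩ := Mx_nonempty ⟨c, hcC⟩ (q t)
      by_cases hbb : b' = c
      · exact hbb ▸ hb'
      · exfalso
        have := h0m (show t ∈ Icc (0 : ℝ) s₁ ∩ {t : ℝ | ∃ b ∈ C, b ≠ c ∧ b ∈ Mx C (q t)} from
          ⟨⟨ht.1, ht.2.le.trans h0I.2⟩, ⟨b', Mx_subset _ _ hb', hbb, hb'⟩⟩)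
        exact absurd ht.2 (not_lt.mpr this)
    have hcl : closure (Ico (0 : ℝ) t₀) ⊆ {t : ℝ | c ∈ Mx C (q t)} :=
      closure_minimal (fun t ht => hIco t ht) (closed_mem hq C c)
    rw [closure_Ico hpos.ne] at hcl
    have hc0 : c ∈ Mx C (q t₀) := hcl ⟨hpos.le, le_rfl⟩
    have h0I1 := hI1 t₀ h0I
    refine ⟨q t₀, hnz t₀, P.tie t₀ h0I1.1 h0I1.2, haI t₀ h0I, hc0, Or.inl ?_⟩
    exact Finset.one_lt_card.mpr ⟨c, hc0, b, hb, fun e => hbc e.symm⟩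

end TPH
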