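import Pool.Agent.TPH.St9
import Pool.Agent.TPH.Closed

/-!
# Three parallel hyperplanes: the edges between the two outer layers
-/

set_option autoImplicit false

namespace TPH

namespace MNonQuadAB

/-- A set of pairs of a product with a small first factor. -/
theorem small_bound {A B C : Finset E} {P : Finset (E × E)} (hP : P ⊆ A ×ˢ B)
    (h : A.card ≤ 2 ∨ B.card ≤ 2) :
    P.card ^ 2 ≤ 4 * (A.card + B.card + C.card) ^ 3 := by
  have h1 : P.card ≤ A.card * B.card := by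
    have := Finset.card_le_card hP
    rwa [Finset.card_product] at this
  have h2 : P.card ≤ 2 * (A.card + B.card + C.card) := by
    rcases h with h | h
    · calc P.card ≤ A.card * B.card := h1
        _ ≤ 2 * B.card := Nat.mul_le_mul_right _ h
        _ ≤ 2 * (A.card + B.card + C.card) := by omega
    · calc P.card ≤ A.card * B.card := h1
        _ ≤ A.card * 2 := Nat.mul_le_mul_left _ h
        _ ≤ 2 * (A.card + B.card + C.card) := by omega
  set n := A.card + B.card + C.card with hn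
  have h3 : P.card ^ 2 ≤ (2 * n) ^ 2 := Nat.pow_le_pow_left h2 2
  have h4 : n ^ 2 ≤ n ^ 3 := by
    rcases Nat.eq_zero_or_pos n with h0 | h0
    · rw [h0]; norm_num
    · exact Nat.pow_le_pow_right h0 (by norm_num)
  calc P.card ^ 2 ≤ (2 * n) ^ 2 := h3
    _ = 4 * n ^ 2 := by ring
    _ ≤ 4 * n ^ 3 := Nat.mul_le_mul_left _ h4

/-- The arithmetic of the last step. -/
theorem arith {x y z n K₁ K₂ : ℕ} (hz : z ≤ x + y) (hx : x ≤ K₁ * n) (hy : y ^ 2 ≤ K₂ * n ^ 3) :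
    z ^ 2 ≤ (2 * K₁ ^ 2 + 2 * K₂) * n ^ 3 := by
  have h1 : z ^ 2 ≤ (x + y) ^ 2 := Nat.pow_le_pow_left hz 2
  have h2 : (x + y) ^ 2 ≤ 2 * x ^ 2 + 2 * y ^ 2 := by
    have : ((x : ℤ) + y) ^ 2 ≤ 2 * (x : ℤ) ^ 2 + 2 * (y : ℤ) ^ 2 := by
      nlinarith [sq_nonneg ((x : ℤ) - y)]
    exact_mod_cast this
  have h3 : x ^ 2 ≤ (K₁ * n) ^ 2 := Nat.pow_le_pow_left hx 2
  have h4 : n ^ 2 ≤ n ^ 3 := by
    rcases Nat.eq_zero_or_pos n with h0 | h0
    · rw [h0]; norm_num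
    · exact Nat.pow_le_pow_right h0 (by norm_num)
  calc z ^ 2 ≤ (x + y) ^ 2 := h1
    _ ≤ 2 * x ^ 2 + 2 * y ^ 2 := h2
    _ ≤ 2 * (K₁ * n) ^ 2 + 2 * (K₂ * n ^ 3) :=
        Nat.add_le_add (Nat.mul_le_mul_left _ h3) (Nat.mul_le_mul_left _ hy)
    _ = 2 * K₁ ^ 2 * n ^ 2 + 2 * K₂ * n ^ 3 := by ring
    _ ≤ 2 * K₁ ^ 2 * n ^ 3 + 2 * K₂ * n ^ 3 :=
        Nat.add_le_add_right (Nat.mul_le_mul_left _ h4) _
    _ = (2 * K₁ ^ 2 + 2 * K₂) * n ^ 3 := by ring

end MNonQuadAB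

open MNonQuadAB in
/-- The number of edges `(a,b)` which are not in exactly four facets. -/
theorem t_NonQuadAB (hQuadDeg : StmtQuadDeg) (hSpCard : StmtSpCard) (hLBCount : StmtLBCount)
    (hCellAB : StmtCellAB) : StmtNonQuadAB := by
  classical
  obtain ⟨K₁, hK₁⟩ := hSpCard
  obtain ⟨K₂, hK₂⟩ := hLBCount
  refine ⟨4 + (2 * K₁ ^ 2 + 2 * K₂), fun A B C P hA hB hC hr hP => ?_⟩
  have hFc : ∀ p ∈ P, p ∈ Fc A B := by
    intro p hp
    obtain ⟨⟨w, h1, h2, -⟩, -⟩ := hP p hp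
    exact mem_Fc.mpr ⟨w, h1, h2⟩
  have hsub : P ⊆ A ×ˢ B := by
    intro p hp
    obtain ⟨⟨w, h1, h2, -⟩, -⟩ := hP p hp
    rw [Finset.mem_product]
    exact ⟨Mx_subset A w (h1 ▸ Finset.mem_singleton_self _),
      Mx_subset B w (h2 ▸ Finset.mem_singleton_self _)⟩
  by_cases hsm : A.card ≤ 2 ∨ B.card ≤ 2
  · refine (small_bound (C := C) hsub hsm).trans (Nat.mul_le_mul_right _ (by omega))
  · rw [not_or, not_le, not_le] at hsm
    have hA3 : 3 ≤ A.card := hsm.1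
    have hB3 : 3 ≤ B.card := hsm.2
    set Q : Finset (E × E) := P.filter (fun p => LB A B C p.1 p.2) with hQ
    have hQc : Q.card ^ 2 ≤ K₂ * (A.card + B.card + C.card) ^ 3 := by
      refine hK₂ A B C Q hA hB hC hr (fun p hp => ?_)
      rw [hQ, Finset.mem_filter] at hp
      exact ⟨hFc p hp.1, hp.2⟩
    have hcov : P ⊆ Sp A B ∪ Q := by
      intro p hp
      rw [Finset.mem_union]
      by_cases hreg : Reg A B p.1 p.2
      · right
        rw [hQ, Finset.mem_filter]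
        refine ⟨hp, ?_⟩
        by_contra hlb
        obtain ⟨⟨w, h1, h2, h3⟩, h4⟩ := hP p hp
        exact h4 (hQuadDeg A B (TAB C p.1 p.2) p.1 p.2 w
          (hCellAB A B C p.1 p.2 w hA3 hB3 hreg hlb h1 h2 h3))
      · left
        exact mem_Sp.mpr ⟨hFc p hp, hreg⟩
    have hcard : P.card ≤ (Sp A B).card + Q.card :=
      (Finset.card_le_card hcov).trans (Finset.card_union_le _ _)
    have hsp : (Sp A B).card ≤ K₁ * (A.card + B.card + C.card) :=
      (hK₁ A B hA3 hB3 hA hB).trans (Nat.mul_le_mul_left _ (by omega))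
    exact (arith hcard hsp hQc).trans (Nat.mul_le_mul_right _ (by omega))

end TPH
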