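import Pool.Agent.TPH.St9
import Pool.Agent.TPH.Closed

/-!
# Three parallel hyperplanes: the edges between an outer and the middle layer

Proof of `StmtNonQuadAC`.
-/

namespace TPH

namespace MNonQuadAC

theorem sq_sum3 {x y z u a b c N : ℕ} (hx : x ≤ u + y + z) (hu : u ^ 2 ≤ a * N)
    (hy : y ^ 2 ≤ b * N) (hz : z ^ 2 ≤ c * N) : x ^ 2 ≤ 3 * (a + b + c) * N := by
  have h1 : x ^ 2 ≤ (u + y + z) ^ 2 := Nat.pow_le_pow_left hx 2
  have h2 : (u + y + z) ^ 2 ≤ 3 * (u ^ 2 + y ^ 2 + z ^ 2) := by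
    zify
    nlinarith [sq_nonneg ((u : ℤ) - y), sq_nonneg ((y : ℤ) - z), sq_nonneg ((u : ℤ) - z)]
  nlinarith

theorem lin_sq {x L n : ℕ} (hx : x ≤ L * n) : x ^ 2 ≤ L ^ 2 * n ^ 3 := by
  rcases Nat.eq_zero_or_pos n with h | h
  · subst h
    have : x = 0 := by simpa using hx
    subst this
    simp
  · calc x ^ 2 ≤ (L * n) ^ 2 := Nat.pow_le_pow_left hx 2
      _ = L ^ 2 * n ^ 2 := by ring
      _ ≤ L ^ 2 * n ^ 3 := Nat.mul_le_mul_left _ (Nat.pow_le_pow_right h (by norm_num))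

end MNonQuadAC

open MNonQuadAC in
theorem t_NonQuadAC (hQuadDeg : StmtQuadDeg) (hSpCard : StmtSpCard) (hBBUniq : StmtBBUniq)
    (hLECount : StmtLECount) (hCellAC : StmtCellAC) : StmtNonQuadAC := by
  classical
  obtain ⟨K₁, hK₁⟩ := hSpCard
  obtain ⟨K₂, hK₂⟩ := hLECount
  refine ⟨3 * (K₁ ^ 2 + K₂ + 1 ^ 2) + 2 ^ 2, ?_⟩
  intro A B C P hA hB hC hR hP
  set n := A.card + B.card + C.card with hn
  have hFc : ∀ p ∈ P, p ∈ Fc A C := by
    intro p hp
    obtain ⟨⟨w, h1, h2, -⟩, -⟩ := hP p hp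
    exact mem_Fc.mpr ⟨w, h1, h2⟩
  have hpA : ∀ p ∈ P, p.1 ∈ A := by
    intro p hp
    obtain ⟨⟨w, h1, h2, -⟩, -⟩ := hP p hp
    apply Mx_subset A w
    rw [h1]
    exact Finset.mem_singleton_self _
  have hpC : ∀ p ∈ P, p.2 ∈ C := by
    intro p hp
    obtain ⟨⟨w, h1, h2, -⟩, -⟩ := hP p hp
    apply Mx_subset C w
    rw [h2]
    exact Finset.mem_singleton_self _
  by_cases hsm : A.card ≤ 2 ∨ C.card ≤ 2
  · have h1 : P.card ≤ A.card * C.card := by
      rw [← Finset.card_product]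
      apply Finset.card_le_card
      intro p hp
      exact Finset.mem_product.mpr ⟨hpA p hp, hpC p hp⟩
    have h2 : P.card ≤ 2 * n := by
      rcases hsm with h | h <;> nlinarith
    calc P.card ^ 2 ≤ 2 ^ 2 * n ^ 3 := lin_sq h2
      _ ≤ (3 * (K₁ ^ 2 + K₂ + 1 ^ 2) + 2 ^ 2) * n ^ 3 :=
        Nat.mul_le_mul_right _ (Nat.le_add_left _ _)
  · push Not at hsm
    obtain ⟨hA3, hC3⟩ := hsm
    let P₁ := P.filter (fun p => ¬ Reg A C p.1 p.2)
    let P₂ := P.filter (fun p => LE A B C p.1 p.2)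
    let P₃ := P.filter (fun p => BB A B C p.1 p.2 ∧ ¬ LE A B C p.1 p.2)
    have hsub : P ⊆ P₁ ∪ P₂ ∪ P₃ := by
      intro p hp
      rw [Finset.mem_union, Finset.mem_union]
      by_cases h1 : Reg A C p.1 p.2
      · by_cases h2 : LE A B C p.1 p.2
        · exact Or.inl (Or.inr (Finset.mem_filter.mpr ⟨hp, h2⟩))
        · by_cases h3 : BB A B C p.1 p.2
          · exact Or.inr (Finset.mem_filter.mpr ⟨hp, h3, h2⟩)
          · exfalso
            obtain ⟨⟨w, e1, e2, e3⟩, h4⟩ := hP p hp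
            exact h4 (hQuadDeg A C (TAC B p.1 p.2) p.1 p.2 w
              (hCellAC A B C p.1 p.2 w hA3 hC3 h1 h2 h3 e1 e2 e3))
      · exact Or.inl (Or.inl (Finset.mem_filter.mpr ⟨hp, h1⟩))
    have hcard : P.card ≤ P₁.card + P₂.card + P₃.card :=
      (Finset.card_le_card hsub).trans ((Finset.card_union_le _ _).trans
        (Nat.add_le_add_right (Finset.card_union_le _ _) _))
    have b1 : P₁.card ≤ K₁ * n := by
      have h1 : P₁ ⊆ Sp A C := by
        intro p hp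
        obtain ⟨hp1, hp2⟩ := Finset.mem_filter.mp hp
        exact mem_Sp.mpr ⟨hFc p hp1, hp2⟩
      calc P₁.card ≤ (Sp A C).card := Finset.card_le_card h1
        _ ≤ K₁ * (A.card + C.card) := hK₁ A C hA3 hC3 hA hC
        _ ≤ K₁ * n := Nat.mul_le_mul_left _ (by omega)
    have b2 : P₂.card ^ 2 ≤ K₂ * n ^ 3 := by
      apply hK₂ A B C P₂ hA hB hC hR
      intro p hp
      obtain ⟨hp1, hp2⟩ := Finset.mem_filter.mp hp
      exact ⟨hFc p hp1, hp2⟩
    have b3 : P₃.card ≤ 1 * n := by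
      have h1 : P₃.card ≤ C.card := by
        apply Finset.card_le_card_of_injOn (fun p => p.2)
        · intro p hp
          exact hpC p (Finset.mem_filter.mp (Finset.mem_coe.mp hp)).1
        · intro p hp q hq hpq
          obtain ⟨hp1, hp2, hp3⟩ := Finset.mem_filter.mp (Finset.mem_coe.mp hp)
          obtain ⟨hq1, hq2, hq3⟩ := Finset.mem_filter.mp (Finset.mem_coe.mp hq)
          obtain ⟨a, c⟩ := p
          obtain ⟨a', c'⟩ := q
          have hcc : c = c' := hpq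
          subst hcc
          have haa : a = a' := hBBUniq A B C a a' c (by omega) (hR c (hpC _ hp1)) hp2 hq2 hp3
          subst haa
          rfl
      omega
    calc P.card ^ 2 ≤ 3 * (K₁ ^ 2 + K₂ + 1 ^ 2) * n ^ 3 :=
          sq_sum3 hcard (lin_sq b1) b2 (lin_sq b3)
      _ ≤ (3 * (K₁ ^ 2 + K₂ + 1 ^ 2) + 2 ^ 2) * n ^ 3 :=
        Nat.mul_le_mul_right _ (Nat.le_add_right _ _)

end TPH
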