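import Pool.Agent.TPH.St9
import Pool.Agent.TPH.Closed

/-!
# Under the standing assumptions there are exactly four facets
-/

set_option autoImplicit false

namespace TPH

/-- Under the standing assumptions there are exactly four facets. -/
theorem t_QuadDeg (hCellFacts : StmtCellFacts) (hCellSwap : StmtCellSwap) (hTight : StmtTight)
    (hQuadZero : StmtQuadZero) (hQuadOne : StmtQuadOne) : StmtQuadDeg := by
  intro X Y 𝒯 x y w₀ hC
  obtain ⟨p, q, ρ, hCF⟩ := hCellFacts X Y x y hC.cX hC.cY hC.reg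
  by_cases h : ∀ w, w ≠ 0 → x ∈ Mx X w → y ∈ Mx Y w → (∀ t ∈ 𝒯, 0 ≤ ip t w) →
      ∀ t ∈ 𝒯, ip t w ≠ 0
  · exact hQuadZero X Y 𝒯 x y w₀ hC h
  · push Not at h
    obtain ⟨w, hw, hx, hy, hd, t, ht, h0⟩ := h
    rcases hTight X Y 𝒯 x y w₀ p q ρ hC hCF w t hw hx hy hd ht h0 with h1 | h1
    · exact hQuadOne X Y 𝒯 x y w₀ p q ρ hC hCF t ht h1
    · obtain ⟨s1, s2, s3, _⟩ := hCellSwap X Y 𝒯 x y w₀ p q ρ
      have h2 := hQuadOne Y X 𝒯 y x w₀ q p (fun j i => ρ i j) (s1 hC) (s2 hCF) t ht h1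
      have h3 : FG X Y 𝒯 x y = FG Y X 𝒯 y x := by
        funext w
        exact propext (s3 w)
      rw [h3]
      exact h2

end TPH
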