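import Pool.Agent.TPH.St9
import Pool.Agent.TPH.Closed

set_option autoImplicit false

/-!
# Three parallel hyperplanes: one tight condition
-/

namespace TPH

namespace MQuadOne

/-- A nonzero vector orthogonal to `w`. -/
theorem perp1 (w : E) : ∃ v : E, v ≠ 0 ∧ ip w v = 0 := by
  by_cases h : w 0 = 0
  · refine ⟨![1, 0, 0], ?_, ?_⟩
    · intro h1
      have := congrFun h1 0
      simp at this
    · simp [ip, h]
  · refine ⟨![w 1, -(w 0), 0], ?_, ?_⟩
    · intro h1
      have := congrFun h1 1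
      simp at this
      exact h this
    · simp only [ip, Matrix.cons_val_zero, Matrix.cons_val_one, Matrix.cons_val]
      ring

/-- A nonzero vector orthogonal to two orthogonal vectors. -/
theorem perp2 {g w : E} (hw : w ≠ 0) (h : ip g w = 0) :
    ∃ v : E, v ≠ 0 ∧ ip g v = 0 ∧ ip w v = 0 := by
  by_cases hg : g = 0
  · obtain ⟨v, hv, hv'⟩ := perp1 w
    exact ⟨v, hv, by rw [hg, ip_zero_left], hv'⟩
  · refine ⟨cr g w, ?_, ?_, ?_⟩
    · intro h0
      have h1 := lagrange g w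
      rw [h0, ip_zero_left, h, mul_zero, sub_zero] at h1
      have := mul_pos (ip_self_pos hg) (ip_self_pos hw)
      linarith
    · rw [ip_cr', det3_self13]
    · rw [ip_cr', det3_self23]

theorem line_absurd {g w : E} (hw : w ≠ 0) (h : ip g w = 0)
    (H : ∀ v, ip g v = 0 → ∃ κ : ℝ, v = κ • w) : False := by
  obtain ⟨v, hv, h1, h2⟩ := perp2 hw h
  obtain ⟨κ, hκ⟩ := H v h1
  rw [hκ, ip_smul_right] at h2
  rcases mul_eq_zero.mp h2 with h3 | h3
  · apply hv
    rw [hκ, h3, zero_smul]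
  · exact (ip_self_pos hw).ne' h3

theorem FG_smul {X Y 𝒯 : Finset E} {x y w : E} (h : FG X Y 𝒯 x y w) {k : ℝ} (hk : 0 < k) :
    FG X Y 𝒯 x y (k • w) := by
  refine ⟨?_, ?_, ?_, ?_, ?_⟩
  · intro h0
    rcases smul_eq_zero.mp h0 with h1 | h1
    · exact hk.ne' h1
    · exact h.nz h1
  · rw [Mx_smul hk]; exact h.xw
  · rw [Mx_smul hk]; exact h.yw
  · intro t ht
    rw [ip_smul_right]
    exact mul_nonneg hk.le (h.dom t ht)
  · intro v h1 h2 h3
    rw [Mx_smul hk] at h1 h2
    obtain ⟨κ, hκ⟩ := h.span v h1 h2 (fun t ht h4 => h3 t ht (by rw [ip_smul_right, h4, mul_zero]))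
    refine ⟨κ / k, ?_⟩
    rw [hκ, smul_smul]
    congr 1
    field_simp

/-- Points of a side. -/
def PS (ρ : Fin 2 → Fin 2 → E) (i : Fin 2) (s : ℝ) : E := (1 - s) • ρ i 0 + s • ρ i 1

theorem core (hSideTwo : StmtSideTwo) (hTight : StmtTight) (hQuadSgn : StmtQuadSgn)
    {X Y 𝒯 : Finset E} {x y w₀ : E} {p q : Fin 2 → E} {ρ : Fin 2 → Fin 2 → E}
    (hC : Cell X Y 𝒯 x y w₀) (hF : CF X Y x y p q ρ) {t : E} (ht : t ∈ 𝒯)
    (hT : TightX X Y 𝒯 x y p t) (hs : ∀ i, 0 < ip t (ρ i 0) ∧ ip t (ρ i 1) < 0) :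
    Rays4 (FG X Y 𝒯 x y) := by
  classical
  -- (a)
  have ha : ∀ w, w ≠ 0 → Mx Y w = {y, q 1} → x ∈ Mx X w → (∀ t' ∈ 𝒯, 0 ≤ ip t' w) → False := by
    intro w hw h1 h2 h3
    obtain ⟨α, β, hα, hβ, hαβ, he⟩ := hF.sy 1 w hw h1 h2
    have h4 := h3 t ht
    rw [he, ip_add_right, ip_smul_right, ip_smul_right] at h4
    have h5 := (hs 0).2
    have h6 := (hs 1).2
    rcases hα.eq_or_lt with h | h
    · have hβ' : 0 < β := by linarith
      have := mul_neg_of_pos_of_neg hβ' h6
      rw [← h] at h4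
      linarith
    · have e1 := mul_neg_of_pos_of_neg h h5
      have e2 := mul_nonpos_of_nonneg_of_nonpos hβ h6.le
      linarith
  -- (b)
  have hb : ∀ w, w ≠ 0 → Mx Y w = {y, q 0} → x ∈ Mx X w → (∀ t' ∈ 𝒯, 0 ≤ ip t' w) →
      ∀ t' ∈ 𝒯, ip t' w ≠ 0 := by
    intro w hw h1 h2 h3 t' ht' h0
    have hy : y ∈ Mx Y w := by rw [h1]; simp
    rcases hTight X Y 𝒯 x y w₀ p q ρ hC hF w t' hw h2 hy h3 ht' h0 with h | h
    · obtain ⟨α, β, hα, hβ, hαβ, he⟩ := hF.sy 0 w hw h1 h2
      rw [he, ip_add_right, ip_smul_right, ip_smul_right] at h0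
      rcases hQuadSgn X Y 𝒯 x y w₀ p q ρ hC hF t' ht' h with hg | hg
      · have h5 := (hg 0).1
        have h6 := (hg 1).1
        rcases hα.eq_or_lt with h | h
        · have hβ' : 0 < β := by linarith
          have := mul_pos hβ' h6
          rw [← h] at h0
          linarith
        · have e1 := mul_pos h h5
          have e2 := mul_nonneg hβ h6.le
          linarith
      · have h5 := (hg 0).1
        have h6 := (hg 1).1
        rcases hα.eq_or_lt with h | h
        · have hβ' : 0 < β := by linarith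
          have := mul_neg_of_pos_of_neg hβ' h6
          rw [← h] at h0
          linarith
        · have e1 := mul_neg_of_pos_of_neg h h5
          have e2 := mul_nonpos_of_nonneg_of_nonpos hβ h6.le
          linarith
    · obtain ⟨z, hz⟩ := h
      obtain ⟨z1, z2, z3, z4, -⟩ := hz 1
      exact ha (z 1) z1 z2 (by rw [z3]; simp) z4
  -- (c)
  have hc : ∀ w, FG X Y 𝒯 x y w → ∃ i, Mx X w = {x, p i} := by
    intro w hw
    obtain ⟨h1, h2⟩ := hF.tie w hw.nz hw.xw hw.yw
    rcases h1 with h1 | h1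
    · exfalso
      have hXp : ∀ v, Perp (Mx X w) v := fun v => by rw [h1]; exact perp_singleton x v
      rcases h2 with h2 | ⟨j, h2⟩
      · have hYp : ∀ v, Perp (Mx Y w) v := fun v => by rw [h2]; exact perp_singleton y v
        by_cases hex : ∃ t₀ ∈ 𝒯, ip t₀ w = 0
        · obtain ⟨t₀, ht₀, h0⟩ := hex
          apply line_absurd hw.nz h0
          intro v hv
          apply hw.span v (hXp v) (hYp v)
          intro t' ht' h0'
          rw [hC.one w hw.nz hw.xw hw.yw hw.dom t' ht' t₀ ht₀ h0' h0]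
          exact hv
        · push Not at hex
          apply line_absurd (g := 0) hw.nz (ip_zero_left w)
          intro v _
          exact hw.span v (hXp v) (hYp v) (fun t' ht' h0' => absurd h0' (hex t' ht'))
      · have hj : j = 0 := by
          by_contra hj
          have hj1 : j = 1 := by omega
          rw [hj1] at h2
          exact ha w hw.nz h2 hw.xw hw.dom
        rw [hj] at h2
        have hno := hb w hw.nz h2 hw.xw hw.dom
        have hq : q 0 ∈ Mx Y w := by rw [h2]; simp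
        apply line_absurd (g := y - q 0) hw.nz (by rw [ip_sub_left, Mx_eq hw.yw hq, sub_self])
        intro v hv
        apply hw.span v (hXp v)
        · rw [h2, perp_pair]
          rw [ip_sub_left] at hv
          linarith
        · intro t' ht' h0'
          exact absurd h0' (hno t' ht')
    · exact h1
  -- (d)
  have hpos : ∀ i j j', j ≠ j' → ip (y - q j) (ρ i j) = 0 ∧ 0 < ip (y - q j) (ρ i j') := by
    intro i j j' hjj
    constructor
    · have h1 : y ∈ Mx Y (ρ i j) := by rw [hF.my]; simp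
      have h2 : q j ∈ Mx Y (ρ i j) := by rw [hF.my]; simp
      rw [ip_sub_left, Mx_eq h1 h2, sub_self]
    · have h1 : y ∈ Mx Y (ρ i j') := by rw [hF.my]; simp
      have h2 : q j ∈ Y := by
        apply Mx_subset Y (ρ i j)
        rw [hF.my]; simp
      have hqq : q j ≠ q j' := by
        have := hF.qn
        fin_cases j <;> fin_cases j' <;> simp_all
        exact fun h => this h.symm
      have h3 : q j ∉ Mx Y (ρ i j') := by
        rw [hF.my]
        simp only [Finset.mem_insert, Finset.mem_singleton, not_or]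
        exact ⟨hF.qy j, hqq⟩
      have := Mx_lt h1 h2 h3
      rw [ip_sub_left]
      linarith
  have hMX : ∀ (i : Fin 2) (s : ℝ), 0 ≤ s → s ≤ 1 → Mx X (PS ρ i s) = {x, p i} := by
    intro i s h0 h1
    unfold PS
    rcases h1.eq_or_lt with h | h
    · apply Mx_comb_right (by linarith) (by linarith) ⟨x, by simp⟩ (hF.mx i 1)
      rw [hF.mx i 0]
    · apply Mx_comb_left (by linarith) h0 ⟨x, by simp⟩ (hF.mx i 0)
      rw [hF.mx i 1]
  have huniq : ∀ (i i' : Fin 2) (s s' κ : ℝ), 0 ≤ s → s ≤ 1 → 0 ≤ s' → s' ≤ 1 → 0 < κ →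
      PS ρ i s = κ • PS ρ i' s' → i = i' ∧ s = s' := by
    intro i i' s s' κ h0 h1 h0' h1' hκ he
    have hi : i = i' := by
      have e1 : ({x, p i} : Finset E) = {x, p i'} := by
        rw [← hMX i s h0 h1, he, Mx_smul hκ, hMX i' s' h0' h1']
      have e2 : p i ∈ ({x, p i'} : Finset E) := by rw [← e1]; simp
      simp only [Finset.mem_insert, Finset.mem_singleton] at e2
      have e3 : p i = p i' := e2.resolve_left (hF.px i)
      have := hF.pn
      by_contra hne
      fin_cases i <;> fin_cases i' <;> simp_all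
    subst hi
    refine ⟨rfl, ?_⟩
    have k0 := hpos i 0 1 (by decide)
    have k1 := hpos i 1 0 (by decide)
    have f0 := congrArg (fun v => ip (y - q 0) v) he
    have f1 := congrArg (fun v => ip (y - q 1) v) he
    simp only [PS, ip_add_right, ip_smul_right, k0.1, k1.1, mul_zero, add_zero, zero_add] at f0 f1
    have g0 : s = κ * s' := by
      have : (s - κ * s') * ip (y - q 0) (ρ i 1) = 0 := by linear_combination f0
      rcases mul_eq_zero.mp this with h | h
      · linarith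
      · exact absurd h k0.2.ne'
    have g1 : 1 - s = κ * (1 - s') := by
      have : (1 - s - κ * (1 - s')) * ip (y - q 1) (ρ i 0) = 0 := by linear_combination f1
      rcases mul_eq_zero.mp this with h | h
      · linarith
      · exact absurd h k1.2.ne'
    have g2 : κ = 1 := by linarith
    rw [g2] at g0
    linarith
  have hto : ∀ i w, w ≠ 0 → Mx X w = {x, p i} → y ∈ Mx Y w →
      ∃ s k : ℝ, 0 ≤ s ∧ s ≤ 1 ∧ 0 < k ∧ w = k • PS ρ i s := by
    intro i w hw h1 h2
    obtain ⟨α, β, hα, hβ, hαβ, he⟩ := hF.sx i w hw h1 h2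
    refine ⟨β / (α + β), α + β, by positivity, ?_, hαβ, ?_⟩
    · rw [div_le_one hαβ]; linarith
    · rw [he]
      unfold PS
      rw [smul_add, smul_smul, smul_smul]
      congr 2
      · field_simp; ring
      · field_simp
  have hside : ∀ i, ∃ j₀ j₁ : ℝ, 0 ≤ j₀ ∧ j₀ < j₁ ∧ j₁ ≤ 1 ∧ FG X Y 𝒯 x y (PS ρ i j₀) ∧
      FG X Y 𝒯 x y (PS ρ i j₁) ∧
      (∀ s : ℝ, 0 ≤ s → s ≤ 1 → FG X Y 𝒯 x y (PS ρ i s) → s = j₀ ∨ s = j₁) := by
    intro i
    obtain ⟨z, hz⟩ := hT
    obtain ⟨z1, z2, z3, z4, z5⟩ := hz i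
    obtain ⟨s, k, hs0, hs1, hk, he⟩ := hto i (z i) z1 z2 (by rw [z3]; simp)
    obtain ⟨j₀, j₁, a1, a2, a3, -, a5, a6, a7, -⟩ := hSideTwo X Y 𝒯 x y w₀ (p i) (q 0) (q 1)
      (ρ i 0) (ρ i 1) hC (hF.px i) hF.qn (hF.qy 0) (hF.qy 1) (hF.mx i 0) (hF.mx i 1)
      (hF.my i 0) (hF.my i 1) (hF.span i 0) (hF.span i 1) ⟨s, hs0, hs1, fun t' ht' => by
        have h1 := z4 t' ht'
        rw [he, ip_smul_right] at h1
        exact nonneg_of_mul_nonneg_right h1 hk⟩
    exact ⟨j₀, j₁, a1, a2, a3, a5, a6, a7⟩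
  choose j₀ j₁ b1 b2 b3 b4 b5 b6 using hside
  let jj : Fin 2 → Fin 2 → ℝ := fun i e => if e = 0 then j₀ i else j₁ i
  have hjj0 : ∀ i, jj i 0 = j₀ i := fun i => if_pos rfl
  have hjj1 : ∀ i, jj i 1 = j₁ i := fun i => if_neg (by decide)
  have hjr : ∀ i e, 0 ≤ jj i e ∧ jj i e ≤ 1 ∧ FG X Y 𝒯 x y (PS ρ i (jj i e)) := by
    intro i e
    by_cases he : e = 0
    · rw [he, hjj0]
      exact ⟨b1 i, (b2 i).le.trans (b3 i), b4 i⟩
    · have he1 : e = 1 := by omega
      rw [he1, hjj1]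
      exact ⟨(b1 i).trans (b2 i).le, b3 i, b5 i⟩
  have hinj : ∀ i e e', jj i e = jj i e' → e = e' := by
    intro i e e' h
    have hlt := b2 i
    by_cases he : e = 0 <;> by_cases he' : e' = 0
    · rw [he, he']
    · have he1 : e' = 1 := by omega
      rw [he, he1, hjj0, hjj1] at h
      exact absurd h hlt.ne
    · have he1 : e = 1 := by omega
      rw [he1, he', hjj0, hjj1] at h
      exact absurd h hlt.ne'
    · have he1 : e = 1 := by omega
      have he2 : e' = 1 := by omega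
      rw [he1, he2]
  let φ : Fin 2 × Fin 2 ≃ Fin (2 * 2) := finProdFinEquiv
  refine ⟨fun k => PS ρ (φ.symm k).1 (jj (φ.symm k).1 (φ.symm k).2), ?_, ?_, ?_⟩
  · intro k
    exact (hjr _ _).2.2
  · intro k l κ hκ he
    obtain ⟨h1, h2⟩ := huniq _ _ _ _ κ (hjr _ _).1 (hjr _ _).2.1 (hjr _ _).1 (hjr _ _).2.1 hκ he
    rw [h1] at h2
    have h3 := hinj _ _ _ h2
    apply φ.symm.injective
    exact (Prod.ext h1 h3).symm
  · intro v hv
    obtain ⟨i, hi⟩ := hc v hv
    obtain ⟨s, k, hs0, hs1, hk, he⟩ := hto i v hv.nz hi hv.yw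
    have hFG : FG X Y 𝒯 x y (PS ρ i s) := by
      have := FG_smul hv (inv_pos.mpr hk)
      rw [he, smul_smul, inv_mul_cancel₀ hk.ne', one_smul] at this
      exact this
    rcases b6 i s hs0 hs1 hFG with h | h
    · refine ⟨φ (i, 0), k, hk, ?_⟩
      simp only [Equiv.symm_apply_apply]
      rw [hjj0, ← h]
      exact he
    · refine ⟨φ (i, 1), k, hk, ?_⟩
      simp only [Equiv.symm_apply_apply]
      rw [hjj1, ← h]
      exact he

end MQuadOne

open MQuadOne in
theorem t_QuadOne (hSideTwo : StmtSideTwo) (hCellSwap : StmtCellSwap) (hTight : StmtTight)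
    (hQuadSgn : StmtQuadSgn) : StmtQuadOne := by
  intro X Y 𝒯 x y w₀ p q ρ hC hF t ht hT
  rcases hQuadSgn X Y 𝒯 x y w₀ p q ρ hC hF t ht hT with h | h
  · exact core hSideTwo hTight hQuadSgn hC hF ht hT h
  · have hF' := (hCellSwap X Y 𝒯 x y w₀ p q ρ).2.2.2 hF
    refine core hSideTwo hTight hQuadSgn hC hF' ht hT (fun i => ?_)
    have e0 : (1 : Fin 2) - 0 = 1 := by decide
    have e1 : (1 : Fin 2) - 1 = 0 := by decide
    simp only [e0, e1]
    exact ⟨(h i).2, (h i).1⟩

end TPH
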