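import Pool.Agent.TPH.St9

/-!
# The linear relation between the four corners of a regular cell
-/

namespace TPH

namespace MQuadRel

/-- Four vectors in three-space are linearly dependent. -/
theorem rel4 (v : Fin 4 → E) : ∃ g : Fin 4 → ℝ,
    g 0 • v 0 + g 1 • v 1 + g 2 • v 2 + g 3 • v 3 = 0 ∧ ∃ i, g i ≠ 0 := by
  have hn : ¬ LinearIndependent ℝ v := by
    intro h
    have h1 := h.fintype_card_le_finrank
    rw [Fintype.card_fin, Module.finrank_fin_fun] at h1
    omega
  obtain ⟨g, hg, hi⟩ := Fintype.not_linearIndependent_iff.mp hn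
  refine ⟨g, ?_, hi⟩
  rw [Fin.sum_univ_four] at hg
  exact hg

/-- The side functional of one point of a side: zero at the corner on its own side. -/
theorem zero_of {X : Finset E} {x p w : E} (h : Mx X w = {x, p}) : ip (x - p) w = 0 := by
  have h1 : x ∈ Mx X w := by rw [h]; simp
  have h2 : p ∈ Mx X w := by rw [h]; simp
  rw [ip_sub_left, Mx_eq h1 h2, sub_self]

/-- The side functional of one point of a side: positive at the corner on the other side. -/
theorem pos_of {X : Finset E} {x p p' w w' : E} (h : Mx X w = {x, p}) (h' : Mx X w' = {x, p'})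
    (hpx : p ≠ x) (hpp : p ≠ p') : 0 < ip (x - p) w' := by
  have h1 : x ∈ Mx X w' := by rw [h']; simp
  have h2 : p ∈ X := Mx_subset X w (by rw [h]; simp)
  have h3 : p ∉ Mx X w' := by
    rw [h']
    simp [hpx, hpp]
  have := Mx_lt h1 h2 h3
  rw [ip_sub_left]
  linarith

/-- Two numbers with a positive combination equal to zero have opposite signs or are both zero. -/
theorem opp {a b s t : ℝ} (hs : 0 < s) (ht : 0 < t) (h : a * s + b * t = 0) :
    (0 < a ↔ b < 0) ∧ (a < 0 ↔ 0 < b) := by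
  have key : ∀ a b s t : ℝ, 0 < s → 0 < t → a * s + b * t = 0 → 0 < a → b < 0 := by
    intro a b s t hs ht h ha
    by_contra hb
    push Not at hb
    have := mul_pos ha hs
    have := mul_nonneg hb ht.le
    linarith
  refine ⟨⟨key a b s t hs ht h, fun hb => ?_⟩, ⟨fun ha => ?_, fun hb => ?_⟩⟩
  · have := key (-b) (-a) t s ht hs (by linarith) (by linarith)
    linarith
  · have := key (-a) (-b) s t hs ht (by linarith) (by linarith)
    linarith
  · exact key b a t s ht hs (by linarith) hb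

end MQuadRel

open MQuadRel in
theorem t_QuadRel : StmtQuadRel := by
  intro X Y x y p q ρ hCF
  obtain ⟨g, hg, hi⟩ := rel4 ![ρ 0 0, ρ 1 1, ρ 0 1, ρ 1 0]
  simp only [Matrix.cons_val_zero, Matrix.cons_val_one, Matrix.cons_val] at hg
  have hip : ∀ n : E, g 0 * ip n (ρ 0 0) + g 1 * ip n (ρ 1 1) + g 2 * ip n (ρ 0 1)
      + g 3 * ip n (ρ 1 0) = 0 := by
    intro n
    have := congrArg (ip n) hg
    rwa [ip_add_right, ip_add_right, ip_add_right, ip_smul_right, ip_smul_right, ip_smul_right,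
      ip_smul_right, ip_zero_right] at this
  have zx : ∀ i j, ip (x - p i) (ρ i j) = 0 := fun i j => zero_of (hCF.mx i j)
  have zy : ∀ i j, ip (y - q j) (ρ i j) = 0 := fun i j => zero_of (hCF.my i j)
  have px0 : ∀ j, 0 < ip (x - p 0) (ρ 1 j) :=
    fun j => pos_of (hCF.mx 0 j) (hCF.mx 1 j) (hCF.px 0) hCF.pn
  have px1 : ∀ j, 0 < ip (x - p 1) (ρ 0 j) :=
    fun j => pos_of (hCF.mx 1 j) (hCF.mx 0 j) (hCF.px 1) hCF.pn.symm
  have py0 : ∀ i, 0 < ip (y - q 0) (ρ i 1) :=
    fun i => pos_of (hCF.my i 0) (hCF.my i 1) (hCF.qy 0) hCF.qn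
  have py1 : ∀ i, 0 < ip (y - q 1) (ρ i 0) :=
    fun i => pos_of (hCF.my i 1) (hCF.my i 0) (hCF.qy 1) hCF.qn.symm
  -- the four relations
  have r1 := opp (a := g 1) (b := g 3) (px0 1) (px0 0)
    (by have := hip (x - p 0); rw [zx 0 0, zx 0 1] at this; linarith)
  have r2 := opp (a := g 0) (b := g 2) (px1 0) (px1 1)
    (by have := hip (x - p 1); rw [zx 1 0, zx 1 1] at this; linarith)
  have r3 := opp (a := g 1) (b := g 2) (py0 1) (py0 0)
    (by have := hip (y - q 0); rw [zy 0 0, zy 1 0] at this; linarith)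
  have r4 := opp (a := g 0) (b := g 3) (py1 0) (py1 1)
    (by have := hip (y - q 1); rw [zy 0 1, zy 1 1] at this; linarith)
  have e0 : g 0 ≠ 0 := by
    intro h0
    have n2 : g 2 = 0 := by
      rcases lt_trichotomy (g 2) 0 with h | h | h
      · exact absurd (r2.1.mpr h) (by rw [h0]; exact lt_irrefl 0)
      · exact h
      · exact absurd (r2.2.mpr h) (by rw [h0]; exact lt_irrefl 0)
    have n3 : g 3 = 0 := by
      rcases lt_trichotomy (g 3) 0 with h | h | h
      · exact absurd (r4.1.mpr h) (by rw [h0]; exact lt_irrefl 0)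
      · exact h
      · exact absurd (r4.2.mpr h) (by rw [h0]; exact lt_irrefl 0)
    have n1 : g 1 = 0 := by
      rcases lt_trichotomy (g 1) 0 with h | h | h
      · exact absurd (r1.2.mp h) (by rw [n3]; exact lt_irrefl 0)
      · exact h
      · exact absurd (r1.1.mp h) (by rw [n3]; exact lt_irrefl 0)
    obtain ⟨i, hi⟩ := hi
    fin_cases i
    · exact hi h0
    · exact hi n1
    · exact hi n2
    · exact hi n3
  rcases lt_or_gt_of_ne e0 with h | h
  · have k2 : 0 < g 2 := r2.2.mp h
    have k3 : 0 < g 3 := r4.2.mp h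
    have k1 : g 1 < 0 := r1.2.mpr k3
    refine ⟨-g 0, -g 1, g 2, g 3, by linarith, by linarith, k2, k3, ?_⟩
    have : -g 0 • ρ 0 0 + -g 1 • ρ 1 1 = g 2 • ρ 0 1 + g 3 • ρ 1 0 := by
      funext k
      have hk := congrFun hg k
      simp only [Pi.add_apply, Pi.smul_apply, Pi.zero_apply, smul_eq_mul] at hk ⊢
      linarith
    exact this
  · have k2 : g 2 < 0 := r2.1.mp h
    have k3 : g 3 < 0 := r4.1.mp h
    have k1 : 0 < g 1 := r1.1.mpr k3
    refine ⟨g 0, g 1, -g 2, -g 3, h, k1, by linarith, by linarith, ?_⟩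
    have : g 0 • ρ 0 0 + g 1 • ρ 1 1 = -g 2 • ρ 0 1 + -g 3 • ρ 1 0 := by
      funext k
      have hk := congrFun hg k
      simp only [Pi.add_apply, Pi.smul_apply, Pi.zero_apply, smul_eq_mul] at hk ⊢
      linarith
    exact this

end TPH
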