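import Pool.Agent.TPH.St9
import Pool.Agent.TPH.Closed

/-! # A condition which is tight on both sides of one type separates the two sides of the other type -/

set_option autoImplicit false

namespace TPH

namespace MQuadSgn

theorem pair_ne {y q : E} (h : q ≠ y) : ({y, q} : Finset E) ≠ {y} := by
  intro h1
  have h2 : q ∈ ({y, q} : Finset E) := by simp
  rw [h1, Finset.mem_singleton] at h2
  exact h h2

end MQuadSgn

open MQuadSgn in
theorem t_QuadSgn (hSideNZ : StmtSideNZ) (hQuadRel : StmtQuadRel) : StmtQuadSgn := by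
  intro X Y 𝒯 x y w₀ p q ρ hC hF t ht hT
  obtain ⟨z, hz⟩ := hT
  have key : ∀ i, (0 < ip t (ρ i 0) ∧ ip t (ρ i 1) < 0) ∨ (ip t (ρ i 0) < 0 ∧ 0 < ip t (ρ i 1)) := by
    intro i
    obtain ⟨h1, h2, h3, h4, h5⟩ := hz i
    have hy : y ∈ Mx Y (z i) := by rw [h3]; simp
    obtain ⟨α, β, hα, hβ, hs, he⟩ := hF.sx i (z i) h1 h2 hy
    have hα' : 0 < α := by
      rcases hα.lt_or_eq with h | h
      · exact h
      · exfalso
        have hb : 0 < β := by linarith
        rw [← h, zero_smul, zero_add] at he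
        have h6 := hF.my i 1
        rw [he, Mx_smul hb, h6] at h3
        exact pair_ne (hF.qy 1) h3
    have hβ' : 0 < β := by
      rcases hβ.lt_or_eq with h | h
      · exact h
      · exfalso
        have hb : 0 < α := by linarith
        rw [← h, zero_smul, add_zero] at he
        have h6 := hF.my i 0
        rw [he, Mx_smul hb, h6] at h3
        exact pair_ne (hF.qy 0) h3
    have h7 : α * ip t (ρ i 0) + β * ip t (ρ i 1) = 0 := by
      rw [← ip_smul_right, ← ip_smul_right, ← ip_add_right, ← he]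
      exact h5
    rcases lt_trichotomy (ip t (ρ i 0)) 0 with h8 | h8 | h8
    · right
      refine ⟨h8, ?_⟩
      by_contra h9
      push Not at h9
      have h10 : α * ip t (ρ i 0) < 0 := mul_neg_of_pos_of_neg hα' h8
      have h11 : β * ip t (ρ i 1) ≤ 0 := mul_nonpos_of_nonneg_of_nonpos hβ'.le h9
      linarith
    · exfalso
      have h9 : ip t (ρ i 1) = 0 := by
        rw [h8, mul_zero, zero_add] at h7
        exact (mul_eq_zero.mp h7).resolve_left hβ'.ne'
      exact hSideNZ X Y 𝒯 x y w₀ p q ρ hC hF i (z i) t h1 h2 hy h4 ht h8 h9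
    · left
      refine ⟨h8, ?_⟩
      by_contra h9
      push Not at h9
      have h10 : 0 < α * ip t (ρ i 0) := mul_pos hα' h8
      have h11 : 0 ≤ β * ip t (ρ i 1) := mul_nonneg hβ'.le h9
      linarith
  obtain ⟨a, b, c, d, ha, hb, hc, hd, hrel⟩ := hQuadRel X Y x y p q ρ hF
  have h12 : a * ip t (ρ 0 0) + b * ip t (ρ 1 1) = c * ip t (ρ 0 1) + d * ip t (ρ 1 0) := by
    rw [← ip_smul_right, ← ip_smul_right, ← ip_smul_right, ← ip_smul_right, ← ip_add_right,
      ← ip_add_right, hrel]
  rcases key 0 with ⟨k1, k2⟩ | ⟨k1, k2⟩ <;> rcases key 1 with ⟨k3, k4⟩ | ⟨k3, k4⟩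
  · left
    intro i
    fin_cases i
    · exact ⟨k1, k2⟩
    · exact ⟨k3, k4⟩
  · exfalso
    have h1 := mul_pos ha k1
    have h2 := mul_pos hb k4
    have h3 := mul_neg_of_pos_of_neg hc k2
    have h4 := mul_neg_of_pos_of_neg hd k3
    linarith
  · exfalso
    have h1 := mul_neg_of_pos_of_neg ha k1
    have h2 := mul_neg_of_pos_of_neg hb k4
    have h3 := mul_pos hc k2
    have h4 := mul_pos hd k3
    linarith
  · right
    intro i
    fin_cases i
    · exact ⟨k1, k2⟩
    · exact ⟨k3, k4⟩

end TPH
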