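import Pool.Agent.TPH.St9
import Pool.Agent.TPH.Closed

/-!
# Three parallel hyperplanes: no tight condition in the cell
-/

namespace TPH

namespace MQuadZero

theorem perp_of {S : Finset E} {v r r' : E} {k k' : ℝ} (hr : r = k • v) (hr' : r' = k' • v)
    (h0 : r ≠ 0) (hp : Perp S r) : Perp S r' := by
  have hk : k ≠ 0 := by
    rintro rfl
    apply h0
    rw [hr, zero_smul]
  have hv : v = k⁻¹ • r := by
    rw [hr, smul_smul, inv_mul_cancel₀ hk, one_smul]
  rw [hr', hv]
  exact (hp.smul _).smul _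

theorem perp_own {X : Finset E} {r x p : E} (h : Mx X r = {x, p}) : Perp {x, p} r := by
  rw [← h]
  exact perp_Mx X r

/-- `p` ties with `x` at `r`, so it is one of the maximisers. -/
theorem mem_of_perp {X : Finset E} {r x p p' : E} (h : Mx X r = {x, p'}) (hp : p ∈ X)
    (hperp : Perp {x, p} r) : p = x ∨ p = p' := by
  have h1 : x ∈ Mx X r := by rw [h]; simp
  have h2 : ip x r = ip p r := perp_pair.mp hperp
  have h3 : p ∈ Mx X r := mem_Mx_of_eq h1 hp h2.symm
  rw [h] at h3
  simpa using h3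

end MQuadZero

open MQuadZero

theorem t_QuadZero (hCellFacts : StmtCellFacts) : StmtQuadZero := by
  intro X Y 𝒯 x y w₀ hc hno
  obtain ⟨p, q, ρ, hf⟩ := hCellFacts X Y x y hc.cX hc.cY hc.reg
  have xr : ∀ i j, x ∈ Mx X (ρ i j) := fun i j => by rw [hf.mx]; simp
  have yr : ∀ i j, y ∈ Mx Y (ρ i j) := fun i j => by rw [hf.my]; simp
  have pX : ∀ i, p i ∈ X := fun i => by
    have h : p i ∈ Mx X (ρ i 0) := by rw [hf.mx]; simp
    exact Mx_subset _ _ h
  have qY : ∀ j, q j ∈ Y := fun j => by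
    have h : q j ∈ Mx Y (ρ 0 j) := by rw [hf.my]; simp
    exact Mx_subset _ _ h
  have x0 : x ∈ Mx X w₀ := by rw [hc.x₀]; simp
  have y0 : y ∈ Mx Y w₀ := by rw [hc.y₀]; simp
  -- all the conditions hold at the corners
  have hdom : ∀ i j, ∀ t ∈ 𝒯, 0 ≤ ip t (ρ i j) := by
    intro i j
    by_contra hcon
    push Not at hcon
    obtain ⟨t₁, ht₁, hneg₁⟩ := hcon
    classical
    set N := 𝒯.filter fun t => ip t (ρ i j) < 0 with hN
    have hNne : N.Nonempty := ⟨t₁, Finset.mem_filter.mpr ⟨ht₁, hneg₁⟩⟩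
    obtain ⟨t, ht, hmin⟩ := N.exists_min_image
      (fun t => ip t w₀ / (ip t w₀ - ip t (ρ i j))) hNne
    obtain ⟨htT, htn⟩ := Finset.mem_filter.mp ht
    have hw := hc.dom₀ t htT
    set s : ℝ := ip t w₀ / (ip t w₀ - ip t (ρ i j)) with hs
    have hden : 0 < ip t w₀ - ip t (ρ i j) := by linarith
    have hs0 : 0 < s := div_pos hw hden
    have hs1 : s < 1 := by
      rw [hs, div_lt_one hden]
      linarith
    have hx : Mx X ((1 - s) • w₀ + s • ρ i j) = {x} := by
      rw [Mx_comb (by linarith) hs0 x0 (xr i j), hc.x₀, hf.mx]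
      exact Finset.inter_eq_left.mpr (by simp)
    have hy : y ∈ Mx Y ((1 - s) • w₀ + s • ρ i j) :=
      mem_Mx_comb (by linarith) hs0.le y0 (yr i j)
    have hne : (1 - s) • w₀ + s • ρ i j ≠ 0 := by
      intro h0
      rw [h0, Mx_zero] at hx
      have := hc.cX
      rw [hx, Finset.card_singleton] at this
      omega
    have hval : ∀ t' : E, ip t' ((1 - s) • w₀ + s • ρ i j) =
        ip t' w₀ - s * (ip t' w₀ - ip t' (ρ i j)) := by
      intro t'
      rw [ip_add_right, ip_smul_right, ip_smul_right]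
      ring
    refine hno _ hne (by rw [hx]; simp) hy ?_ t htT ?_
    · intro t' ht'
      rw [hval]
      have hw' := hc.dom₀ t' ht'
      by_cases hn : ip t' (ρ i j) < 0
      · have h1 := hmin t' (Finset.mem_filter.mpr ⟨ht', hn⟩)
        have h2 : s ≤ ip t' w₀ / (ip t' w₀ - ip t' (ρ i j)) := h1
        rw [le_div_iff₀ (by linarith)] at h2
        linarith
      · push Not at hn
        nlinarith
    · rw [hval, hs, div_mul_cancel₀ _ hden.ne', sub_self]
  have hFG : ∀ i j, FG X Y 𝒯 x y (ρ i j) := by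
    intro i j
    refine ⟨hf.nz i j, xr i j, yr i j, hdom i j, ?_⟩
    intro v h1 h2 _
    rw [hf.mx] at h1
    rw [hf.my] at h2
    exact hf.span i j v h1 h2
  -- the corners are different rays
  have hpi : ∀ i i' : Fin 2, p i = p i' → i = i' := by
    intro i i' h
    fin_cases i <;> fin_cases i' <;> first
      | rfl
      | exact absurd h hf.pn
      | exact absurd h.symm hf.pn
  have hqi : ∀ j j' : Fin 2, q j = q j' → j = j' := by
    intro i i' h
    fin_cases i <;> fin_cases i' <;> first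
      | rfl
      | exact absurd h hf.qn
      | exact absurd h.symm hf.qn
  have hdist : ∀ i j i' j' : Fin 2, ∀ κ : ℝ, 0 < κ → ρ i' j' = κ • ρ i j → i = i' ∧ j = j' := by
    intro i j i' j' κ hκ h
    have h1 := hf.mx i' j'
    have h2 := hf.my i' j'
    rw [h, Mx_smul hκ, hf.mx] at h1
    rw [h, Mx_smul hκ, hf.my] at h2
    have h3 : p i ∈ ({x, p i'} : Finset E) := by rw [← h1]; simp
    have h4 : q j ∈ ({y, q j'} : Finset E) := by rw [← h2]; simp
    rw [Finset.mem_insert, Finset.mem_singleton] at h3 h4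
    exact ⟨hpi _ _ (h3.resolve_left (hf.px i)), hqi _ _ (h4.resolve_left (hf.qy j))⟩
  -- there are no others
  have hall : ∀ v, FG X Y 𝒯 x y v → ∃ i j : Fin 2, ∃ κ : ℝ, 0 < κ ∧ v = κ • ρ i j := by
    intro v hv
    have hnt := hno v hv.nz hv.xw hv.yw hv.dom
    have hsp : ∀ v', Perp (Mx X v) v' → Perp (Mx Y v) v' → ∃ κ : ℝ, v' = κ • v :=
      fun v' h1 h2 => hv.span v' h1 h2 fun t ht h0 => absurd h0 (hnt t ht)
    obtain ⟨hX, hY⟩ := hf.tie v hv.nz hv.xw hv.yw
    rcases hX with hX | ⟨i, hX⟩ <;> rcases hY with hY | ⟨j, hY⟩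
    · exfalso
      rw [hX, hY] at hsp
      obtain ⟨k, hk⟩ := hsp (ρ 0 0) (perp_singleton _ _) (perp_singleton _ _)
      obtain ⟨k', hk'⟩ := hsp (ρ 1 0) (perp_singleton _ _) (perp_singleton _ _)
      have h1 := perp_of hk hk' (hf.nz 0 0) (perp_own (hf.mx 0 0))
      rcases mem_of_perp (hf.mx 1 0) (pX 0) h1 with h2 | h2
      · exact hf.px 0 h2
      · exact hf.pn h2
    · exfalso
      rw [hX, hY] at hsp
      obtain ⟨k, hk⟩ := hsp (ρ 0 j) (perp_singleton _ _) (perp_own (hf.my 0 j))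
      obtain ⟨k', hk'⟩ := hsp (ρ 1 j) (perp_singleton _ _) (perp_own (hf.my 1 j))
      have h1 := perp_of hk hk' (hf.nz 0 j) (perp_own (hf.mx 0 j))
      rcases mem_of_perp (hf.mx 1 j) (pX 0) h1 with h2 | h2
      · exact hf.px 0 h2
      · exact hf.pn h2
    · exfalso
      rw [hX, hY] at hsp
      obtain ⟨k, hk⟩ := hsp (ρ i 0) (perp_own (hf.mx i 0)) (perp_singleton _ _)
      obtain ⟨k', hk'⟩ := hsp (ρ i 1) (perp_own (hf.mx i 1)) (perp_singleton _ _)
      have h1 := perp_of hk hk' (hf.nz i 0) (perp_own (hf.my i 0))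
      rcases mem_of_perp (hf.my i 1) (qY 0) h1 with h2 | h2
      · exact hf.qy 0 h2
      · exact hf.qn h2
    · obtain ⟨κ, hκ⟩ := hf.span i j v (perp_own hX) (perp_own hY)
      refine ⟨i, j, κ, ?_, hκ⟩
      rcases lt_trichotomy κ 0 with h | h | h
      · exfalso
        have h1 : X ⊆ {x, p i} := by
          intro a ha
          have h2 := Mx_le hv.xw ha
          have h3 := Mx_le (xr i j) ha
          rw [hκ, ip_smul_right, ip_smul_right] at h2
          have h4 : ip x (ρ i j) ≤ ip a (ρ i j) := by nlinarith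
          have h5 : a ∈ Mx X (ρ i j) := mem_Mx_of_eq (xr i j) ha (le_antisymm h3 h4)
          rwa [hf.mx] at h5
        have h2 := Finset.card_le_card h1
        have h3 := Finset.card_le_two (a := x) (b := p i)
        have h4 := hc.cX
        omega
      · exfalso
        apply hv.nz
        rw [hκ, h, zero_smul]
      · exact h
  refine ⟨![ρ 0 0, ρ 0 1, ρ 1 0, ρ 1 1], ?_, ?_, ?_⟩
  · intro i
    fin_cases i
    · exact hFG 0 0
    · exact hFG 0 1
    · exact hFG 1 0
    · exact hFG 1 1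
  · intro i j κ hκ h
    fin_cases i <;> fin_cases j <;> first
      | rfl
      | (exfalso
         simp only [Fin.zero_eta, Fin.isValue, Fin.mk_one, Fin.reduceFinMk, Matrix.cons_val_zero,
           Matrix.cons_val_one, Matrix.cons_val] at h
         have := hdist _ _ _ _ κ hκ h
         simp at this)
  · intro v hv
    obtain ⟨i, j, κ, hκ, h⟩ := hall v hv
    fin_cases i <;> fin_cases j
    · exact ⟨0, κ, hκ, h⟩
    · exact ⟨1, κ, hκ, h⟩
    · exact ⟨2, κ, hκ, h⟩
    · exact ⟨3, κ, hκ, h⟩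

end TPH
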