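import Pool.Agent.TPH.St9
import Pool.Agent.TPH.Closed

/-!
# No condition vanishes at both ends of a side which has a point with all conditions
-/

namespace TPH

namespace MSideNZ

theorem ip_comb (t a b : E) (r s : ℝ) :
    ip t (r • a + s • b) = r * ip t a + s * ip t b := by
  simp only [ip_add_right, ip_smul_right]

end MSideNZ

theorem t_SideNZ (hSideTwo : StmtSideTwo) : StmtSideNZ := by
  intro X Y 𝒯 x y w₀ p q ρ hC hF i w t hw hMx hy hdom ht h0 h1
  obtain ⟨α, β, hα, hβ, hs, hwe⟩ := hF.sx i w hw hMx hy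
  have hex : ∃ s : ℝ, 0 ≤ s ∧ s ≤ 1 ∧
      ∀ t ∈ 𝒯, 0 ≤ ip t ((1 - s) • ρ i 0 + s • ρ i 1) := by
    refine ⟨β / (α + β), by positivity, ?_, fun t' ht' => ?_⟩
    · rw [div_le_one hs]
      linarith
    · have h := hdom t' ht'
      rw [hwe, MSideNZ.ip_comb] at h
      rw [MSideNZ.ip_comb]
      have e : (1 - β / (α + β)) * ip t' (ρ i 0) + β / (α + β) * ip t' (ρ i 1) =
          (α * ip t' (ρ i 0) + β * ip t' (ρ i 1)) / (α + β) := by
        field_simp
        ring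
      rw [e]
      positivity
  obtain ⟨j₀, j₁, hj0, hj, hj1, -, -, -, -, htight⟩ :=
    hSideTwo X Y 𝒯 x y w₀ (p i) (q 0) (q 1) (ρ i 0) (ρ i 1) hC (hF.px i) hF.qn (hF.qy 0) (hF.qy 1)
      (hF.mx i 0) (hF.mx i 1) (hF.my i 0) (hF.my i 1) (hF.span i 0) (hF.span i 1) hex
  have hz : ip t ((1 - (j₀ + j₁) / 2) • ρ i 0 + ((j₀ + j₁) / 2) • ρ i 1) = 0 := by
    rw [MSideNZ.ip_comb, h0, h1]
    ring
  rcases (htight ((j₀ + j₁) / 2) (by linarith) (by linarith) t ht hz).1 with h | h <;> linarith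

end TPH
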