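import Pool.Agent.TPH.St9
import Pool.Agent.TPH.Closed

/-!
# Three parallel hyperplanes: the facets on an `X`-side of a cell
-/

namespace TPH

namespace MSideTwo

/-- A common range for finitely many conditions. -/
theorem unif {α : Type*} (T : Finset α) (P : α → ℝ → Prop)
    (h : ∀ t ∈ T, ∃ δ : ℝ, 0 < δ ∧ ∀ ε : ℝ, 0 ≤ ε → ε ≤ δ → P t ε) :
    ∃ δ : ℝ, 0 < δ ∧ ∀ ε : ℝ, 0 ≤ ε → ε ≤ δ → ∀ t ∈ T, P t ε := by
  classical
  induction T using Finset.induction_on with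
  | empty => exact ⟨1, one_pos, fun ε _ _ t ht => absurd ht (Finset.notMem_empty t)⟩
  | insert a T _ ih =>
    obtain ⟨δ₁, h1, h1'⟩ := ih (fun t ht => h t (Finset.mem_insert_of_mem ht))
    obtain ⟨δ₂, h2, h2'⟩ := h a (Finset.mem_insert_self a T)
    refine ⟨min δ₁ δ₂, lt_min h1 h2, fun ε hε hle t ht => ?_⟩
    rcases Finset.mem_insert.mp ht with rfl | ht'
    · exact h2' ε hε (hle.trans (min_le_right _ _))
    · exact h1' ε hε (hle.trans (min_le_left _ _)) t ht'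

/-- If every condition is strict at `s`, or does not decrease in the direction `d`, then we can move
a little in the direction `d`. -/
theorem move {α : Type*} (T : Finset α) (a b : α → ℝ) (s d : ℝ)
    (h : ∀ t ∈ T, 0 < (1 - s) * a t + s * b t ∨
      ((1 - s) * a t + s * b t = 0 ∧ 0 ≤ (b t - a t) * d)) :
    ∃ δ : ℝ, 0 < δ ∧ ∀ ε : ℝ, 0 ≤ ε → ε ≤ δ → ∀ t ∈ T,
      0 ≤ (1 - (s + ε * d)) * a t + (s + ε * d) * b t := by
  apply unif T (fun t ε => 0 ≤ (1 - (s + ε * d)) * a t + (s + ε * d) * b t)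
  intro t ht
  rcases h t ht with h1 | ⟨h1, h2⟩
  · refine ⟨((1 - s) * a t + s * b t) / (|(b t - a t) * d| + 1), by positivity, fun ε hε hle => ?_⟩
    rw [le_div_iff₀ (by positivity)] at hle
    have h3 : -|(b t - a t) * d| ≤ (b t - a t) * d := neg_abs_le _
    have h4 : ε * (-|(b t - a t) * d|) ≤ ε * ((b t - a t) * d) := mul_le_mul_of_nonneg_left h3 hε
    have h5 : (1 - (s + ε * d)) * a t + (s + ε * d) * b t =
      ((1 - s) * a t + s * b t) + ε * ((b t - a t) * d) := by ring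
    rw [h5]
    nlinarith
  · refine ⟨1, one_pos, fun ε hε _ => ?_⟩
    have h5 : (1 - (s + ε * d)) * a t + (s + ε * d) * b t =
      ((1 - s) * a t + s * b t) + ε * ((b t - a t) * d) := by ring
    rw [h5, h1, zero_add]
    exact mul_nonneg hε h2

/-- The interval of the points with all conditions. -/
theorem interval {α : Type*} (T : Finset α) (a b : α → ℝ)
    (hne : ∃ s : ℝ, 0 ≤ s ∧ s ≤ 1 ∧ ∀ t ∈ T, 0 ≤ (1 - s) * a t + s * b t)
    (h0 : (∀ t ∈ T, 0 ≤ a t) → ∀ t ∈ T, a t ≠ 0)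
    (h1 : (∀ t ∈ T, 0 ≤ b t) → ∀ t ∈ T, b t ≠ 0)
    (hone : ∀ s : ℝ, 0 ≤ s → s ≤ 1 → (∀ t ∈ T, 0 ≤ (1 - s) * a t + s * b t) →
      ∀ t ∈ T, ∀ t' ∈ T, (1 - s) * a t + s * b t = 0 → (1 - s) * a t' + s * b t' = 0 → t = t') :
    ∃ j₀ j₁ : ℝ, 0 ≤ j₀ ∧ j₀ < j₁ ∧ j₁ ≤ 1 ∧
      (∀ s : ℝ, 0 ≤ s → s ≤ 1 →
        ((∀ t ∈ T, 0 ≤ (1 - s) * a t + s * b t) ↔ j₀ ≤ s ∧ s ≤ j₁)) ∧
      (∀ t ∈ T, ¬ (a t = 0 ∧ b t = 0)) ∧
      (0 < j₀ → ∃ t ∈ T, (1 - j₀) * a t + j₀ * b t = 0) ∧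
      (j₁ < 1 → ∃ t ∈ T, (1 - j₁) * a t + j₁ * b t = 0) ∧
      (∀ s : ℝ, j₀ ≤ s → s ≤ j₁ → ∀ t ∈ T, (1 - s) * a t + s * b t = 0 →
        (s = j₀ ∨ s = j₁) ∧ 0 < s ∧ s < 1) := by
  classical
  -- the set of the points with all conditions
  let J : Set ℝ := {s | (0 ≤ s ∧ s ≤ 1) ∧ ∀ t ∈ T, 0 ≤ (1 - s) * a t + s * b t}
  have hJ : ∀ s, s ∈ J ↔ (0 ≤ s ∧ s ≤ 1) ∧ ∀ t ∈ T, 0 ≤ (1 - s) * a t + s * b t := fun s => Iff.rfl
  have hJeq : J = Set.Icc (0 : ℝ) 1 ∩ ⋂ t ∈ T, {s : ℝ | 0 ≤ (1 - s) * a t + s * b t} := by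
    ext s
    rw [hJ, Set.mem_inter_iff, Set.mem_Icc, Set.mem_iInter₂]
    rfl
  have hcl : IsClosed (⋂ t ∈ T, {s : ℝ | 0 ≤ (1 - s) * a t + s * b t}) := by
    refine isClosed_biInter fun t _ => ?_
    exact isClosed_le continuous_const (by fun_prop)
  have hcpt : IsCompact J := by
    rw [hJeq]
    exact isCompact_Icc.inter_right hcl
  have hJne : J.Nonempty := by
    obtain ⟨s, hs0, hs1, hs⟩ := hne
    exact ⟨s, (hJ s).mpr ⟨⟨hs0, hs1⟩, hs⟩⟩
  obtain ⟨j₀, hj0, hmin⟩ := hcpt.exists_isLeast hJne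
  obtain ⟨j₁, hj1, hmax⟩ := hcpt.exists_isGreatest hJne
  have hmin' : ∀ s, s ∈ J → j₀ ≤ s := fun s hs => hmin hs
  have hmax' : ∀ s, s ∈ J → s ≤ j₁ := fun s hs => hmax hs
  rw [hJ] at hj0 hj1
  obtain ⟨⟨hj00, hj01⟩, hj0t⟩ := hj0
  obtain ⟨⟨hj10, hj11⟩, hj1t⟩ := hj1
  -- no condition is tight at `0` or `1`
  have hend0 : (0 : ℝ) ∈ J → ∀ t ∈ T, a t ≠ 0 := by
    intro h
    apply h0
    intro t ht
    have := ((hJ 0).mp h).2 t ht
    linarith
  have hend1 : (1 : ℝ) ∈ J → ∀ t ∈ T, b t ≠ 0 := by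
    intro h
    apply h1
    intro t ht
    have := ((hJ 1).mp h).2 t ht
    linarith
  have hin : ∀ s, s ∈ J → ∀ t ∈ T, (1 - s) * a t + s * b t = 0 → 0 < s ∧ s < 1 := by
    intro s hs t ht h
    have hs' := (hJ s).mp hs
    constructor
    · rcases hs'.1.1.lt_or_eq with h' | h'
      · exact h'
      · exfalso
        rw [← h'] at h hs
        exact hend0 hs t ht (by linarith)
    · rcases hs'.1.2.lt_or_eq with h' | h'
      · exact h'
      · exfalso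
        rw [h'] at h hs
        exact hend1 hs t ht (by linarith)
  -- other conditions are strict
  have hoth : ∀ s, s ∈ J → ∀ t ∈ T, (1 - s) * a t + s * b t = 0 → ∀ t' ∈ T, t' ≠ t →
      0 < (1 - s) * a t' + s * b t' := by
    intro s hs t ht h t' ht' hne
    have hs' := (hJ s).mp hs
    rcases (hs'.2 t' ht').lt_or_eq with h' | h'
    · exact h'
    · exact absurd (hone s hs'.1.1 hs'.1.2 hs'.2 t' ht' t ht h'.symm h) hne
  have hj0J : j₀ ∈ J := (hJ _).mpr ⟨⟨hj00, hj01⟩, hj0t⟩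
  have hj1J : j₁ ∈ J := (hJ _).mpr ⟨⟨hj10, hj11⟩, hj1t⟩
  -- moving down from `j₀` is impossible
  have hdown : ∀ s, s ∈ J → 0 < s → (∀ t ∈ T, 0 < (1 - s) * a t + s * b t ∨
      ((1 - s) * a t + s * b t = 0 ∧ 0 ≤ (b t - a t) * (-1))) → ∃ s', s' ∈ J ∧ s' < s := by
    intro s hs hs0 h
    obtain ⟨δ, hδ, hδ'⟩ := move T a b s (-1) h
    have hs' := (hJ s).mp hs
    have hm := lt_min hδ hs0
    refine ⟨s + min δ s * (-1), (hJ _).mpr ⟨⟨?_, ?_⟩, hδ' _ hm.le (min_le_left _ _)⟩, ?_⟩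
    · have := min_le_right δ s; linarith
    · have := hs'.1.2; linarith
    · linarith
  have hup : ∀ s, s ∈ J → s < 1 → (∀ t ∈ T, 0 < (1 - s) * a t + s * b t ∨
      ((1 - s) * a t + s * b t = 0 ∧ 0 ≤ (b t - a t) * 1)) → ∃ s', s' ∈ J ∧ s < s' := by
    intro s hs hs1 h
    obtain ⟨δ, hδ, hδ'⟩ := move T a b s 1 h
    have hs' := (hJ s).mp hs
    have hm : 0 < min δ (1 - s) := lt_min hδ (by linarith)
    refine ⟨s + min δ (1 - s) * 1, (hJ _).mpr ⟨⟨?_, ?_⟩, hδ' _ hm.le (min_le_left _ _)⟩, ?_⟩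
    · have := hs'.1.1; linarith
    · have := min_le_right δ (1 - s); linarith
    · linarith
  -- no condition vanishes identically
  have hnz : ∀ t ∈ T, ¬ (a t = 0 ∧ b t = 0) := by
    rintro t ht ⟨ha, hb⟩
    have hz : (1 - j₀) * a t + j₀ * b t = 0 := by rw [ha, hb]; ring
    obtain ⟨hpos, -⟩ := hin j₀ hj0J t ht hz
    obtain ⟨s', hs', hlt⟩ := hdown j₀ hj0J hpos (by
      intro t' ht'
      by_cases h : t' = t
      · right; rw [h]; exact ⟨hz, by rw [ha, hb]; simp⟩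
      · left; exact hoth j₀ hj0J t ht hz t' ht' h)
    exact absurd (hmin' s' hs') (not_le.mpr hlt)
  -- `j₀ < j₁`
  have hle : j₀ ≤ j₁ := hmin' j₁ hj1J
  have hlt : j₀ < j₁ := by
    rcases hle.lt_or_eq with h | h
    · exact h
    exfalso
    -- every point of `J` is `j₀`
    have huniq : ∀ s, s ∈ J → s = j₀ := fun s hs =>
      le_antisymm (h ▸ hmax' s hs) (hmin' s hs)
    by_cases htt : ∃ t ∈ T, (1 - j₀) * a t + j₀ * b t = 0
    · obtain ⟨t, ht, hz⟩ := htt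
      obtain ⟨hp0, hp1⟩ := hin j₀ hj0J t ht hz
      rcases le_total 0 (b t - a t) with hc | hc
      · obtain ⟨s', hs', hl⟩ := hup j₀ hj0J hp1 (by
          intro t' ht'
          by_cases h : t' = t
          · right; rw [h]; exact ⟨hz, by linarith⟩
          · left; exact hoth j₀ hj0J t ht hz t' ht' h)
        exact absurd (huniq s' hs') hl.ne'
      · obtain ⟨s', hs', hl⟩ := hdown j₀ hj0J hp0 (by
          intro t' ht'
          by_cases h : t' = t
          · right; rw [h]; exact ⟨hz, by linarith⟩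
          · left; exact hoth j₀ hj0J t ht hz t' ht' h)
        exact absurd (huniq s' hs') hl.ne
    · push Not at htt
      have hst : ∀ t ∈ T, 0 < (1 - j₀) * a t + j₀ * b t := fun t ht =>
        lt_of_le_of_ne (hj0t t ht) (Ne.symm (htt t ht))
      rcases hj01.lt_or_eq with h' | h'
      · obtain ⟨s', hs', hl⟩ := hup j₀ hj0J h' (fun t ht => Or.inl (hst t ht))
        exact absurd (huniq s' hs') hl.ne'
      · obtain ⟨s', hs', hl⟩ := hdown j₀ hj0J (by linarith) (fun t ht => Or.inl (hst t ht))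
        exact absurd (huniq s' hs') hl.ne
  refine ⟨j₀, j₁, hj00, hlt, hj11, ?_, hnz, ?_, ?_, ?_⟩
  · intro s hs0 hs1
    constructor
    · intro h
      have hs : s ∈ J := (hJ s).mpr ⟨⟨hs0, hs1⟩, h⟩
      exact ⟨hmin' s hs, hmax' s hs⟩
    · rintro ⟨h2, h3⟩ t ht
      have e : (j₁ - j₀) * ((1 - s) * a t + s * b t) =
        (j₁ - s) * ((1 - j₀) * a t + j₀ * b t) + (s - j₀) * ((1 - j₁) * a t + j₁ * b t) := by ring
      have h4 : 0 ≤ (j₁ - j₀) * ((1 - s) * a t + s * b t) := by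
        rw [e]
        exact add_nonneg (mul_nonneg (by linarith) (hj0t t ht)) (mul_nonneg (by linarith) (hj1t t ht))
      exact nonneg_of_mul_nonneg_right h4 (by linarith)
  · intro hpos
    by_contra hcon
    push Not at hcon
    obtain ⟨s', hs', hl⟩ := hdown j₀ hj0J hpos (fun t ht => Or.inl
      (lt_of_le_of_ne (hj0t t ht) (Ne.symm (hcon t ht))))
    exact absurd (hmin' s' hs') (not_le.mpr hl)
  · intro hpos
    by_contra hcon
    push Not at hcon
    obtain ⟨s', hs', hl⟩ := hup j₁ hj1J hpos (fun t ht => Or.inl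
      (lt_of_le_of_ne (hj1t t ht) (Ne.symm (hcon t ht))))
    exact absurd (hmax' s' hs') (not_le.mpr hl)
  · intro s hs0 hs1 t ht hz
    have hall : ∀ t ∈ T, 0 ≤ (1 - s) * a t + s * b t := by
      intro t' ht'
      have e : (j₁ - j₀) * ((1 - s) * a t' + s * b t') =
        (j₁ - s) * ((1 - j₀) * a t' + j₀ * b t') +
          (s - j₀) * ((1 - j₁) * a t' + j₁ * b t') := by ring
      have h4 : 0 ≤ (j₁ - j₀) * ((1 - s) * a t' + s * b t') := by
        rw [e]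
        exact add_nonneg (mul_nonneg (by linarith) (hj0t t' ht'))
          (mul_nonneg (by linarith) (hj1t t' ht'))
      exact nonneg_of_mul_nonneg_right h4 (by linarith)
    have hsJ : s ∈ J := (hJ s).mpr ⟨⟨by linarith, by linarith⟩, hall⟩
    refine ⟨?_, hin s hsJ t ht hz⟩
    by_contra hcon
    push Not at hcon
    have hl0 : j₀ < s := lt_of_le_of_ne hs0 (Ne.symm hcon.1)
    have hl1 : s < j₁ := lt_of_le_of_ne hs1 hcon.2
    have e : (j₁ - s) * ((1 - j₀) * a t + j₀ * b t) + (s - j₀) * ((1 - j₁) * a t + j₁ * b t) = 0 := by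
      have : (j₁ - j₀) * ((1 - s) * a t + s * b t) = 0 := by rw [hz, mul_zero]
      linarith
    have n0 := mul_nonneg (sub_nonneg.mpr hl1.le) (hj0t t ht)
    have n1 := mul_nonneg (sub_nonneg.mpr hl0.le) (hj1t t ht)
    have z0 : (j₁ - s) * ((1 - j₀) * a t + j₀ * b t) = 0 := by linarith
    have z1 : (s - j₀) * ((1 - j₁) * a t + j₁ * b t) = 0 := by linarith
    have w0 : (1 - j₀) * a t + j₀ * b t = 0 := by
      rcases mul_eq_zero.mp z0 with h | h
      · exact absurd h (by linarith [hl1] : ¬ (j₁ - s = 0))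
      · exact h
    have w1 : (1 - j₁) * a t + j₁ * b t = 0 := by
      rcases mul_eq_zero.mp z1 with h | h
      · exact absurd h (by linarith [hl0] : ¬ (s - j₀ = 0))
      · exact h
    apply hnz t ht
    -- subtract
    have hd : (j₁ - j₀) * (b t - a t) = 0 := by linarith
    have hd' : b t - a t = 0 := by
      rcases mul_eq_zero.mp hd with h | h
      · exact absurd h (by linarith [hlt] : ¬ (j₁ - j₀ = 0))
      · exact h
    have hba : b t = a t := by linarith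
    have haz : a t = 0 := by
      rw [hba] at w0
      linarith
    exact ⟨haz, hba.trans haz⟩

/-- In the plane, a vector on which a tight and not identically zero condition vanishes is a multiple
of the tight point. -/
theorem mult {ρ₀ ρ₁ t v : E} {s α β : ℝ} (hv : v = α • ρ₀ + β • ρ₁)
    (hnz : ¬ (ip t ρ₀ = 0 ∧ ip t ρ₁ = 0)) (hz : (1 - s) * ip t ρ₀ + s * ip t ρ₁ = 0)
    (htv : ip t v = 0) : ∃ κ : ℝ, v = κ • ((1 - s) • ρ₀ + s • ρ₁) := by
  have h1 : α * ip t ρ₀ + β * ip t ρ₁ = 0 := by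
    rw [hv, ip_add_right, ip_smul_right, ip_smul_right] at htv; exact htv
  have ha : (α * s - β * (1 - s)) * ip t ρ₀ = 0 := by linear_combination s * h1 - β * hz
  have hb : (α * s - β * (1 - s)) * ip t ρ₁ = 0 := by linear_combination (s - 1) * h1 + α * hz
  have hk : α * s - β * (1 - s) = 0 := by
    by_contra hne
    apply hnz
    exact ⟨(mul_eq_zero.mp ha).resolve_left hne, (mul_eq_zero.mp hb).resolve_left hne⟩
  refine ⟨α + β, ?_⟩
  rw [hv, smul_add, smul_smul, smul_smul]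
  have e1 : (α + β) * (1 - s) = α := by linear_combination -hk
  have e2 : (α + β) * s = β := by linear_combination hk
  rw [e1, e2]

end MSideTwo

open MSideTwo in
theorem t_SideTwo : StmtSideTwo := by
  intro X Y T x y w₀ x' q₀ q₁ ρ₀ ρ₁ hC hx' hq hq₀ hq₁ hX0 hX1 hY0 hY1 hs0 hs1 hex
  have hx0 : x ∈ Mx X ρ₀ := by rw [hX0]; simp
  have hx1 : x ∈ Mx X ρ₁ := by rw [hX1]; simp
  have hy0 : y ∈ Mx Y ρ₀ := by rw [hY0]; simp
  have hy1 : y ∈ Mx Y ρ₁ := by rw [hY1]; simp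
  have hcardX : ({x, x'} : Finset E).card = 2 := Finset.card_pair (Ne.symm hx')
  -- the points of the side
  have hpX : ∀ s : ℝ, 0 ≤ s → s ≤ 1 → Mx X ((1 - s) • ρ₀ + s • ρ₁) = {x, x'} := by
    intro s h0 h1
    rcases h1.lt_or_eq with h | h
    · exact Mx_comb_left (by linarith) h0 ⟨x, by simp⟩ hX0 (by rw [hX1])
    · exact Mx_comb_right (by linarith) (by linarith) ⟨x, by simp⟩ hX1 (by rw [hX0])
  have hpy : ∀ s : ℝ, 0 ≤ s → s ≤ 1 → y ∈ Mx Y ((1 - s) • ρ₀ + s • ρ₁) := by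
    intro s h0 h1
    exact mem_Mx_comb (by linarith) h0 hy0 hy1
  have hpx : ∀ s : ℝ, 0 ≤ s → s ≤ 1 → x ∈ Mx X ((1 - s) • ρ₀ + s • ρ₁) := by
    intro s h0 h1
    rw [hpX s h0 h1]; simp
  have hpY : ∀ s : ℝ, 0 < s → s < 1 → Mx Y ((1 - s) • ρ₀ + s • ρ₁) = {y} := by
    intro s h0 h1
    rw [Mx_comb (by linarith) h0 hy0 hy1, hY0, hY1]
    ext z
    simp only [Finset.mem_inter, Finset.mem_insert, Finset.mem_singleton]
    constructor
    · rintro ⟨h | h, h' | h'⟩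
      · exact h
      · exact h
      · exact h'
      · exact absurd (h.symm.trans h') hq
    · intro h; exact ⟨Or.inl h, Or.inl h⟩
  have hnzX : ∀ w : E, Mx X w = {x, x'} → w ≠ 0 := by
    intro w hw h
    rw [h, Mx_zero] at hw
    have := hC.cX
    rw [hw, hcardX] at this
    omega
  have hpnz : ∀ s : ℝ, 0 ≤ s → s ≤ 1 → (1 - s) • ρ₀ + s • ρ₁ ≠ 0 := fun s h0 h1 =>
    hnzX _ (hpX s h0 h1)
  have hρ0 : ρ₀ ≠ 0 := hnzX _ hX0
  have hρ1 : ρ₁ ≠ 0 := hnzX _ hX1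
  have hval : ∀ (s : ℝ) (t : E), ip t ((1 - s) • ρ₀ + s • ρ₁) =
      (1 - s) * ip t ρ₀ + s * ip t ρ₁ := by
    intro s t
    rw [ip_add_right, ip_smul_right, ip_smul_right]
  -- independence
  have hcr : cr ρ₀ ρ₁ ≠ 0 := by
    intro h
    obtain ⟨k, hk⟩ := par_of_cr hρ0 h
    have hq0 : q₀ ∈ Mx Y ρ₀ := by rw [hY0]; simp
    have he := Mx_eq hq0 hy0
    have hq0' : q₀ ∈ Mx Y ρ₁ := by
      apply mem_Mx_of_eq hy1 (Mx_subset _ _ hq0)
      rw [hk, ip_smul_right, ip_smul_right, he]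
    rw [hY1] at hq0'
    simp only [Finset.mem_insert, Finset.mem_singleton] at hq0'
    rcases hq0' with h' | h'
    · exact hq₀ h'
    · exact hq h'
  have hPerp0 : Perp {x, x'} ρ₀ := hX0 ▸ perp_Mx X ρ₀
  have hPerp1 : Perp {x, x'} ρ₁ := hX1 ▸ perp_Mx X ρ₁
  -- the interval
  obtain ⟨j₀, j₁, hj0, hlt, hj1, hiff, hnz, ht0, ht1, htight⟩ := interval T (fun t => ip t ρ₀)
    (fun t => ip t ρ₁)
    (by
      obtain ⟨s, h0, h1, h⟩ := hex
      refine ⟨s, h0, h1, fun t ht => ?_⟩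
      have := h t ht
      rw [hval] at this
      exact this)
    (by
      intro h t ht
      exact hC.crn ρ₀ hρ0 hx0 hy0 h (by rw [hX0, hcardX])
        (by rw [hY0, Finset.card_pair (Ne.symm hq₀)]) t ht)
    (by
      intro h t ht
      exact hC.crn ρ₁ hρ1 hx1 hy1 h (by rw [hX1, hcardX])
        (by rw [hY1, Finset.card_pair (Ne.symm hq₁)]) t ht)
    (by
      intro s h0 h1 h t ht t' ht' hz hz'
      refine hC.one _ (hpnz s h0 h1) (hpx s h0 h1) (hpy s h0 h1) ?_ t ht t' ht' ?_ ?_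
      · intro t'' ht''
        rw [hval]; exact h t'' ht''
      · rw [hval]; exact hz
      · rw [hval]; exact hz')
  have hiff' : ∀ s : ℝ, 0 ≤ s → s ≤ 1 →
      ((∀ t ∈ T, 0 ≤ ip t ((1 - s) • ρ₀ + s • ρ₁)) ↔ j₀ ≤ s ∧ s ≤ j₁) := by
    intro s h0 h1
    rw [← hiff s h0 h1]
    constructor
    · intro h t ht
      have := h t ht
      rw [hval] at this
      exact this
    · intro h t ht
      rw [hval]; exact h t ht
  have htight' : ∀ s : ℝ, j₀ ≤ s → s ≤ j₁ → ∀ t ∈ T, ip t ((1 - s) • ρ₀ + s • ρ₁) = 0 →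
      (s = j₀ ∨ s = j₁) ∧ 0 < s ∧ s < 1 := by
    intro s h0 h1 t ht hz
    rw [hval] at hz
    exact htight s h0 h1 t ht hz
  refine ⟨j₀, j₁, hj0, hlt, hj1, hiff', ?_, ?_, ?_, htight'⟩
  · have hj0' : j₀ ≤ 1 := by linarith
    refine ⟨hpnz _ hj0 hj0', hpx _ hj0 hj0', hpy _ hj0 hj0',
      (hiff' _ hj0 hj0').mpr ⟨le_rfl, hlt.le⟩, ?_⟩
    intro v hv1 hv2 hv3
    rcases hj0.lt_or_eq with h | h
    · obtain ⟨t, ht, hz⟩ := ht0 h
      rw [hpX _ hj0 hj0'] at hv1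
      obtain ⟨α, β, hv⟩ := perp_comb hcardX hPerp0 hPerp1 hcr hv1
      exact mult hv (hnz t ht) hz (hv3 t ht (by rw [hval]; exact hz))
    · have e : (1 - j₀) • ρ₀ + j₀ • ρ₁ = ρ₀ := by rw [← h]; simp
      rw [e] at hv1 hv2 ⊢
      rw [hX0] at hv1
      rw [hY0] at hv2
      exact hs0 v hv1 hv2
  · have hj1' : 0 ≤ j₁ := by linarith
    refine ⟨hpnz _ hj1' hj1, hpx _ hj1' hj1, hpy _ hj1' hj1,
      (hiff' _ hj1' hj1).mpr ⟨hlt.le, le_rfl⟩, ?_⟩
    intro v hv1 hv2 hv3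
    rcases hj1.lt_or_eq with h | h
    · obtain ⟨t, ht, hz⟩ := ht1 h
      rw [hpX _ hj1' hj1] at hv1
      obtain ⟨α, β, hv⟩ := perp_comb hcardX hPerp0 hPerp1 hcr hv1
      exact mult hv (hnz t ht) hz (hv3 t ht (by rw [hval]; exact hz))
    · have e : (1 - j₁) • ρ₀ + j₁ • ρ₁ = ρ₁ := by rw [h]; simp
      rw [e] at hv1 hv2 ⊢
      rw [hX1] at hv1
      rw [hY1] at hv2
      exact hs1 v hv1 hv2
  · intro s h0 h1 hFG
    by_contra hcon
    push Not at hcon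
    obtain ⟨hl, hr⟩ := (hiff' s h0 h1).mp hFG.dom
    have hl' : j₀ < s := lt_of_le_of_ne hl (Ne.symm hcon.1)
    have hr' : s < j₁ := lt_of_le_of_ne hr hcon.2
    have hs0' : 0 < s := by linarith
    have hs1' : s < 1 := by linarith
    obtain ⟨κ, hκ⟩ := hFG.span ρ₀ (by rw [hpX s h0 h1]; exact hPerp0)
      (by rw [hpY s hs0' hs1']; exact perp_singleton _ _)
      (by
        intro t ht hz
        rcases (htight' s hl hr t ht hz).1 with h | h
        · exact absurd h hcon.1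
        · exact absurd h hcon.2)
    have h3 : cr ρ₀ (κ • ((1 - s) • ρ₀ + s • ρ₁)) = (κ * s) • cr ρ₀ ρ₁ := by
      funext i
      fin_cases i <;> simp [cr] <;> ring
    rw [← hκ, cr_self] at h3
    rcases smul_eq_zero.mp h3.symm with h | h
    · rcases mul_eq_zero.mp h with h' | h'
      · rw [h', zero_smul] at hκ
        exact hρ0 hκ
      · exact absurd h' hs0'.ne'
    · exact hcr h

end TPH
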