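import Pool.Agent.TPH.St9
import Pool.Agent.TPH.Closed

/-!
# Three parallel hyperplanes: the number of special cells is linear
-/

namespace TPH

namespace MSpCard

theorem sp_sub (A C : Finset E) : Sp A C ⊆ Fc A C := by
  unfold Sp
  exact @Finset.filter_subset (E × E) _ (Classical.decPred _) _

end MSpCard

/-- The number of special cells is linear. -/
theorem t_SpCard : StmtSpCard := by
  classical
  obtain ⟨K₁, h₁⟩ := Closed.c_t_OCount
  obtain ⟨K₂, h₂⟩ := Closed.c_t_SpecialBound
  refine ⟨K₁ + K₂, ?_⟩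
  intro A C hA hC cA cC
  have o := h₁ A C cA cC
  have s := h₂ A C hA hC cA cC
  have split : (Sp A C).card = ((Sp A C).filter (fun p => Ov A C p.1 p.2)).card +
      ((Sp A C).filter (fun p => ¬ Ov A C p.1 p.2)).card :=
    (Finset.card_filter_add_card_filter_not (fun p : E × E => Ov A C p.1 p.2)).symm
  have e₁ : ((Sp A C).filter (fun p => Ov A C p.1 p.2)).card ≤ K₁ * (A.card + C.card) := by
    refine le_trans (Finset.card_le_card ?_) o
    intro p hp
    rw [Finset.mem_filter] at hp
    exact (@Finset.mem_filter (E × E) _ (Classical.decPred _) _ _).2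
      ⟨MSpCard.sp_sub A C hp.1, hp.2⟩
  have e₂ : ((Sp A C).filter (fun p => ¬ Ov A C p.1 p.2)).card ≤ K₂ * (A.card + C.card) := by
    refine le_trans ?_ s
    unfold spSum
    calc ((Sp A C).filter (fun p => ¬ Ov A C p.1 p.2)).card
        = ∑ _p ∈ (Sp A C).filter (fun p => ¬ Ov A C p.1 p.2), 1 := by simp
      _ ≤ ∑ p ∈ (Sp A C).filter (fun p => ¬ Ov A C p.1 p.2),
          ((NA A C p.1 p.2).card + (NA C A p.2 p.1).card) := by
          refine Finset.sum_le_sum ?_
          intro p hp
          rw [Finset.mem_filter] at hp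
          have q := Closed.c_t_Quad A C p.1 p.2 hA hC (MSpCard.sp_sub A C hp.1) hp.2
          omega
      _ ≤ ∑ p ∈ Sp A C, ((NA A C p.1 p.2).card + (NA C A p.2 p.1).card) :=
          Finset.sum_le_sum_of_subset (Finset.filter_subset _ _)
  rw [split, add_mul]
  exact add_le_add e₁ e₂

end TPH
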