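import Pool.Agent.TPH.St9
import Pool.Agent.TPH.Closed
import Pool.Agent.TPH.Multi

/-!
# Parallel hyperplanes: a tie where two points of `A` and two points of `B` tie is a flat or tangent
-/

set_option autoImplicit false

namespace TPH

/-- **StmtTieEv.** -/
theorem t_TieEv (hTieBasic : StmtTieBasic) : StmtTieEv := by
  intro A B C c q hq0 hq hC1 hA2 hB2
  obtain ⟨hAne, hBne, hT, hout, -, -, -⟩ := (hTieBasic A B c q).1 hq
  by_cases hflat : IsFlat A B C (Mx A q, c, Mx B q) q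
  · exact Or.inl (mem_flats.mpr ⟨q, hflat⟩)
  · right
    have hv : ∃ v, Perp (Mx A q) v ∧ (∀ a ∈ Mx A q, ∀ b ∈ Mx B q,
        ip a v + ip b v = 2 * ip c v) ∧ ∀ κ : ℝ, v ≠ κ • q := by
      by_contra hcon
      push Not at hcon
      apply hflat
      refine ⟨hA2, hB2, rfl, hC1, rfl, hT, ?_⟩
      intro v hv1 _ hv3
      exact hcon v hv1 hv3
    obtain ⟨v, hv1, hv3, hv4⟩ := hv
    simp only [ev7, Finset.mem_filter]
    exact ⟨mem_Ed.mpr ⟨hA2, q, rfl⟩, ⟨q, hA2, rfl, hC1, hq.1, hout⟩,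
      MMulti.tangent hq0 hA2 (Mx_nonempty hBne q) hT hv1 hv3 hv4⟩

end TPH
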