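import Pool.Agent.TPH.St9
import Pool.Agent.TPH.Closed

/-!
# Three parallel hyperplanes: a tight condition is tight on two opposite sides of the cell
-/

namespace TPH

namespace MTight

/-- From a point of a side to an interior point of the cell. -/
theorem push (hSideNZ : StmtSideNZ) {X Y 𝒯 : Finset E} {x y w₀ : E} {p q : Fin 2 → E}
    {ρ : Fin 2 → Fin 2 → E} (hC : Cell X Y 𝒯 x y w₀) (hF : CF X Y x y p q ρ) {i : Fin 2} {r t : E}
    (hr : r ≠ 0) (hX : Mx X r = {x, p i}) (hY : Mx Y r = {y}) (hd : ∀ t' ∈ 𝒯, 0 ≤ ip t' r)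
    (ht : t ∈ 𝒯) (h0 : ip t r = 0) :
    ∃ r', Mx X r' = {x} ∧ Mx Y r' = {y} ∧ (∀ t' ∈ 𝒯, 0 ≤ ip t' r') ∧ ip t r' = 0 := by
  have ht0 : t ≠ 0 := by
    rintro rfl
    have := hC.dom₀ 0 ht
    rw [ip_zero_left] at this
    exact lt_irrefl _ this
  have hδ : ∀ j, ip (x - p i) (ρ i j) = 0 := by
    intro j
    have h1 : x ∈ Mx X (ρ i j) := by rw [hF.mx]; simp
    have h2 : p i ∈ Mx X (ρ i j) := by rw [hF.mx]; simp
    rw [ip_sub_left, Mx_eq h1 h2, sub_self]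
  have hne : cr t (x - p i) ≠ 0 := by
    intro hc
    obtain ⟨k, hk⟩ := par_of_cr ht0 hc
    have hk0 : k ≠ 0 := by
      rintro rfl
      rw [zero_smul, sub_eq_zero] at hk
      exact hF.px i hk.symm
    have h1 : ∀ j, ip t (ρ i j) = 0 := by
      intro j
      have h2 := hδ j
      rw [hk, ip_smul_left] at h2
      exact (mul_eq_zero.1 h2).resolve_left hk0
    exact hSideNZ X Y 𝒯 x y w₀ p q ρ hC hF i r t hr hX (by rw [hY]; simp) hd ht (h1 0) (h1 1)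
  set δ : E := x - p i with hδdef
  set d : E := (ip t t) • δ - (ip t δ) • t with hddef
  have hd1 : ip t d = 0 := by
    rw [hddef, ip_sub_right, ip_smul_right, ip_smul_right]; ring
  have hd2 : 0 < ip δ d := by
    have h1 := ip_self_pos hne
    rw [lagrange] at h1
    have h2 : ip δ d = ip t t * ip δ δ - ip t δ * ip t δ := by
      rw [hddef, ip_sub_right, ip_smul_right, ip_smul_right, ip_comm δ t]
    rw [h2]; exact h1
  obtain ⟨ε₀, hε₀, hp⟩ := Mx_pert3 X Y Y r d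
  have hev : ∀ᶠ ε in nhds (0 : ℝ), ∀ t' ∈ 𝒯, t' ≠ t → 0 < ip t' r + ε * ip t' d := by
    rw [Filter.eventually_all_finset]
    intro t' ht'
    by_cases he : t' = t
    · exact Filter.Eventually.of_forall fun ε h => absurd he h
    · have hpos : 0 < ip t' r := by
        rcases (hd t' ht').lt_or_eq with h | h
        · exact h
        · exact absurd (hC.one r hr (by rw [hX]; simp) (by rw [hY]; simp) hd t' ht' t ht h.symm h0) he
      have hcont : Continuous fun ε : ℝ => ip t' r + ε * ip t' d := by fun_prop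
      have h1 := hcont.tendsto 0
      simp only [zero_mul, add_zero] at h1
      exact (h1.eventually (lt_mem_nhds hpos)).mono fun ε h _ => h
  obtain ⟨ε₁, hε₁, hb⟩ := Metric.eventually_nhds_iff.1 hev
  set ε : ℝ := min ε₀ ε₁ / 2 with hεdef
  have hεpos : 0 < ε := by rw [hεdef]; exact half_pos (lt_min hε₀ hε₁)
  have hε1 : ε < ε₀ := by
    have : min ε₀ ε₁ ≤ ε₀ := min_le_left _ _
    have h2 : 0 < min ε₀ ε₁ := lt_min hε₀ hε₁
    rw [hεdef]; linarith
  have hε2 : ε < ε₁ := by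
    have : min ε₀ ε₁ ≤ ε₁ := min_le_right _ _
    have h2 : 0 < min ε₀ ε₁ := lt_min hε₀ hε₁
    rw [hεdef]; linarith
  obtain ⟨p1, p2, -⟩ := hp ε hεpos hε1
  refine ⟨r + ε • d, ?_, ?_, ?_, ?_⟩
  · rw [p1, hX]
    refine Mx_pair_left ?_
    have h3 : 0 < ip x d - ip (p i) d := by rw [← ip_sub_left]; exact hd2
    linarith
  · rw [p2, hY, Mx_singleton]
  · intro t' ht'
    rw [ip_add_right, ip_smul_right]
    by_cases he : t' = t
    · rw [he, h0, hd1]; simp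
    · refine (hb ?_ t' ht' he).le
      rw [Real.dist_eq, sub_zero, abs_of_pos hεpos]
      exact hε2
  · rw [ip_add_right, ip_smul_right, h0, hd1]; simp

/-- Two opposite sides from two different indices. -/
theorem fam {X Y 𝒯 : Finset E} {x y : E} {p : Fin 2 → E} {t z z' : E} {i i' : Fin 2} (hii : i ≠ i')
    (h : z ≠ 0 ∧ Mx X z = {x, p i} ∧ Mx Y z = {y} ∧ (∀ t' ∈ 𝒯, 0 ≤ ip t' z) ∧ ip t z = 0)
    (h' : z' ≠ 0 ∧ Mx X z' = {x, p i'} ∧ Mx Y z' = {y} ∧ (∀ t' ∈ 𝒯, 0 ≤ ip t' z') ∧ ip t z' = 0) :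
    TightX X Y 𝒯 x y p t := by
  refine ⟨fun k => if k = i then z else z', fun k => ?_⟩
  by_cases hk : k = i
  · subst hk; simpa using h
  · have hk' : k = i' := by omega
    subst hk'
    simpa [hk] using h'

/-- The case of an interior point. -/
theorem core (hFollow : StmtFollow) {X Y 𝒯 : Finset E} {x y w₀ : E} {p q : Fin 2 → E}
    {ρ : Fin 2 → Fin 2 → E} (hC : Cell X Y 𝒯 x y w₀) (hF : CF X Y x y p q ρ) {r t : E}
    (hX : Mx X r = {x}) (hY : Mx Y r = {y}) (hd : ∀ t' ∈ 𝒯, 0 ≤ ip t' r)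
    (ht : t ∈ 𝒯) (h0 : ip t r = 0) : TightX X Y 𝒯 x y p t ∨ TightX Y X 𝒯 y x q t := by
  obtain ⟨z, z', α, β, hα, hβ, hr, hz, hz', ⟨zx, zy, zd, zt, zc⟩, ⟨zx', zy', zd', zt', zc'⟩⟩ :=
    hFollow X Y 𝒯 x y w₀ r t hC hX hY hd ht h0
  have split : ∀ v, v ≠ 0 → x ∈ Mx X v → y ∈ Mx Y v → (∀ t' ∈ 𝒯, 0 ≤ ip t' v) → ip t v = 0 →
      (2 ≤ (Mx X v).card ∨ 2 ≤ (Mx Y v).card) →
      (∃ i, Mx X v = {x, p i} ∧ Mx Y v = {y}) ∨ (∃ j, Mx Y v = {y, q j} ∧ Mx X v = {x}) := by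
    intro v hv vx vy vd vt vc
    have cX : ∀ i, (({x, p i} : Finset E)).card = 2 := fun i =>
      Finset.card_pair (Ne.symm (hF.px i))
    have cY : ∀ j, (({y, q j} : Finset E)).card = 2 := fun j =>
      Finset.card_pair (Ne.symm (hF.qy j))
    obtain ⟨h1, h2⟩ := hF.tie v hv vx vy
    rcases h1 with h1 | ⟨i, h1⟩ <;> rcases h2 with h2 | ⟨j, h2⟩
    · rw [h1, h2] at vc
      simp at vc
    · exact Or.inr ⟨j, h2, h1⟩
    · exact Or.inl ⟨i, h1, h2⟩
    · exact absurd vt (hC.crn v hv vx vy vd (by rw [h1, cX]) (by rw [h2, cY]) t ht)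
  have cX : ∀ i, (({x, p i} : Finset E)).card = 2 := fun i =>
    Finset.card_pair (Ne.symm (hF.px i))
  have cY : ∀ j, (({y, q j} : Finset E)).card = 2 := fun j =>
    Finset.card_pair (Ne.symm (hF.qy j))
  rcases split z hz zx zy zd zt zc with ⟨i, h1, h2⟩ | ⟨j, h1, h2⟩ <;>
    rcases split z' hz' zx' zy' zd' zt' zc' with ⟨i', h1', h2'⟩ | ⟨j', h1', h2'⟩
  · left
    refine fam (i := i) (i' := i') ?_ ⟨hz, h1, h2, zd, zt⟩ ⟨hz', h1', h2', zd', zt'⟩
    rintro rfl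
    have hm : p i ∈ Mx X (α • z + β • z') :=
      mem_Mx_comb hα.le hβ.le (by rw [h1]; simp) (by rw [h1']; simp)
    rw [← hr, hX, Finset.mem_singleton] at hm
    exact hF.px i hm
  · exact (hC.alt t ht z z' hz hz' zx zy zx' zy' zd zd' (by rw [h1, cX]) zt (by rw [h1', cY])
      zt').elim
  · exact (hC.alt t ht z' z hz' hz zx' zy' zx zy zd' zd (by rw [h1', cX]) zt' (by rw [h1, cY])
      zt).elim
  · right
    refine fam (i := j) (i' := j') ?_ ⟨hz, h1, h2, zd, zt⟩ ⟨hz', h1', h2', zd', zt'⟩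
    rintro rfl
    have hm : q j ∈ Mx Y (α • z + β • z') :=
      mem_Mx_comb hα.le hβ.le (by rw [h1]; simp) (by rw [h1']; simp)
    rw [← hr, hY, Finset.mem_singleton] at hm
    exact hF.qy j hm

end MTight

open MTight in
theorem t_Tight (hSideNZ : StmtSideNZ) (hFollow : StmtFollow) (hCellSwap : StmtCellSwap) :
    StmtTight := by
  intro X Y 𝒯 x y w₀ p q ρ hC hF r t hr hx hy hd ht h0
  obtain ⟨s1, s2, -, -⟩ := hCellSwap X Y 𝒯 x y w₀ p q ρ
  obtain ⟨h1, h2⟩ := hF.tie r hr hx hy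
  rcases h1 with h1 | ⟨i, h1⟩ <;> rcases h2 with h2 | ⟨j, h2⟩
  · exact core hFollow hC hF h1 h2 hd ht h0
  · obtain ⟨r', a1, a2, a3, a4⟩ := push hSideNZ (s1 hC) (s2 hF) hr h2 h1 hd ht h0
    exact core hFollow hC hF a2 a1 a3 ht a4
  · obtain ⟨r', a1, a2, a3, a4⟩ := push hSideNZ hC hF hr h1 h2 hd ht h0
    exact core hFollow hC hF a1 a2 a3 ht a4
  · refine absurd h0 (hC.crn r hr hx hy hd ?_ ?_ t ht)
    · rw [h1, Finset.card_pair (Ne.symm (hF.px i))]
    · rw [h2, Finset.card_pair (Ne.symm (hF.qy j))]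

end TPH
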