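import Pool.Agent.TPH.Closed2
import Pool.Agent.TPH.CellFacts
import Pool.Agent.TPH.SideTwo
import Pool.Agent.TPH.SideNZ
import Pool.Agent.TPH.Follow
import Pool.Agent.TPH.CellSwap
import Pool.Agent.TPH.Tight
import Pool.Agent.TPH.QuadRel
import Pool.Agent.TPH.QuadZero
import Pool.Agent.TPH.QuadSgn
import Pool.Agent.TPH.QuadOne
import Pool.Agent.TPH.QuadDeg
import Pool.Agent.TPH.SpCard
import Pool.Agent.TPH.LocEvent
import Pool.Agent.TPH.BBUniq
import Pool.Agent.TPH.Planar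
import Pool.Agent.TPH.TieEv
import Pool.Agent.TPH.LECount
import Pool.Agent.TPH.LBCount
import Pool.Agent.TPH.CellAC
import Pool.Agent.TPH.CellAB
import Pool.Agent.TPH.NonQuadAC
import Pool.Agent.TPH.NonQuadAB

/-!
# Three parallel hyperplanes: the statements of St9 as closed theorems
-/

set_option autoImplicit false

namespace TPH.Closed

open TPH

theorem c_t_CellFacts : StmtCellFacts := TPH.t_CellFacts
theorem c_t_SideTwo : StmtSideTwo := TPH.t_SideTwo
theorem c_t_SideNZ : StmtSideNZ := TPH.t_SideNZ c_t_SideTwo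
theorem c_t_Follow : StmtFollow := TPH.t_Follow
theorem c_t_CellSwap : StmtCellSwap := TPH.t_CellSwap
theorem c_t_Tight : StmtTight := TPH.t_Tight c_t_SideNZ c_t_Follow c_t_CellSwap
theorem c_t_QuadRel : StmtQuadRel := TPH.t_QuadRel
theorem c_t_QuadZero : StmtQuadZero := TPH.t_QuadZero c_t_CellFacts
theorem c_t_QuadSgn : StmtQuadSgn := TPH.t_QuadSgn c_t_SideNZ c_t_QuadRel
theorem c_t_QuadOne : StmtQuadOne := TPH.t_QuadOne c_t_SideTwo c_t_CellSwap c_t_Tight c_t_QuadSgn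
theorem c_t_QuadDeg : StmtQuadDeg := TPH.t_QuadDeg
    c_t_CellFacts c_t_CellSwap c_t_Tight c_t_QuadZero c_t_QuadOne
theorem c_t_SpCard : StmtSpCard := TPH.t_SpCard
theorem c_t_LocEvent : StmtLocEvent := TPH.t_LocEvent c_t_TieBasic c_t_TPath
theorem c_t_BBUniq : StmtBBUniq := TPH.t_BBUniq c_t_LocEvent
theorem c_t_Planar : StmtPlanar := TPH.t_Planar c_t_TieBasic
theorem c_t_TieEv : StmtTieEv := TPH.t_TieEv c_t_TieBasic
theorem c_t_LECount : StmtLECount := TPH.t_LECount c_t_AltBound c_t_TangPairs c_t_Planar c_t_TieEv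
theorem c_t_LBCount : StmtLBCount := TPH.t_LBCount c_t_AltBound c_t_TangPairs c_t_Planar c_t_TieEv
theorem c_t_CellAC : StmtCellAC := TPH.t_CellAC c_t_TieBasic
theorem c_t_CellAB : StmtCellAB := TPH.t_CellAB c_t_TieBasic
theorem c_t_NonQuadAC : StmtNonQuadAC := TPH.t_NonQuadAC
    c_t_QuadDeg c_t_SpCard c_t_BBUniq c_t_LECount c_t_CellAC
theorem c_t_NonQuadAB : StmtNonQuadAB := TPH.t_NonQuadAB
    c_t_QuadDeg c_t_SpCard c_t_LBCount c_t_CellAB

end TPH.Closed
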