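import Mathlib

/-!
# Three parallel hyperplanes: definitions

Everything lives in `E = ℝ^3`.  `Mx A u` is the set of maximisers of the functional `u` on `A`.
-/

namespace TPH

/-- Three dimensional space. -/
abbrev E := Fin 3 → ℝ

/-- The inner product. -/
def ip (u v : E) : ℝ := u 0 * v 0 + u 1 * v 1 + u 2 * v 2

/-- The determinant of three vectors. -/
def det3 (u v w : E) : ℝ :=
  u 0 * (v 1 * w 2 - v 2 * w 1) + u 1 * (v 2 * w 0 - v 0 * w 2) + u 2 * (v 0 * w 1 - v 1 * w 0)

/-- The cross product. -/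
def cr (u v : E) : E := ![u 1 * v 2 - u 2 * v 1, u 2 * v 0 - u 0 * v 2, u 0 * v 1 - u 1 * v 0]

/-- The maximisers of the functional `u` on the finite set `A`. -/
noncomputable def Mx (A : Finset E) (u : E) : Finset E :=
  @Finset.filter E (fun a => ∀ a' ∈ A, ip a' u ≤ ip a u) (Classical.decPred _) A

/-- Convex position: every point of `A` is the only maximiser of some functional. -/
def ConvPos (A : Finset E) : Prop := ∀ a ∈ A, ∃ u, Mx A u = {a}

/-- `v` is orthogonal to all differences of points of `e`. -/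
def Perp (e : Finset E) (v : E) : Prop := ∀ a ∈ e, ∀ a' ∈ e, ip a v = ip a' v

/-- The open cone `R_c`. -/
def InR (A B : Finset E) (c u : E) : Prop := ∀ a ∈ A, ∀ b ∈ B, ip a u + ip b u < 2 * ip c u

/-- The closed version of `R_c`. -/
def InRc (A B : Finset E) (c u : E) : Prop := ∀ a ∈ A, ∀ b ∈ B, ip a u + ip b u ≤ 2 * ip c u

/-- The edges of `A`: exposed faces with exactly two elements. -/
noncomputable def Ed (A : Finset E) : Finset (Finset E) :=
  @Finset.filter (Finset E) (fun e => e.card = 2 ∧ ∃ u, Mx A u = e) (Classical.decPred _) A.powerset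

/-- The faces of `A` with at least three elements, exposed by a nonzero functional. -/
noncomputable def Faces (A : Finset E) : Finset (Finset E) :=
  @Finset.filter (Finset E) (fun G => 3 ≤ G.card ∧ ∃ u, u ≠ 0 ∧ Mx A u = G) (Classical.decPred _)
    A.powerset

/-- The vertices of `A + C`, that is, the cells of the overlay of the two normal fans. -/
noncomputable def Fc (A C : Finset E) : Finset (E × E) :=
  @Finset.filter (E × E) (fun p => ∃ u, Mx A u = {p.1} ∧ Mx C u = {p.2}) (Classical.decPred _)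
    (A ×ˢ C)

/-- The crossings of the overlay: an edge of `A` and a non-parallel edge of `C` that are exposed by
the same functional. -/
noncomputable def Xc (A C : Finset E) : Finset (Finset E × Finset E) :=
  @Finset.filter (Finset E × Finset E)
    (fun p => p.1.card = 2 ∧ p.2.card = 2 ∧ (∃ u, Mx A u = p.1 ∧ Mx C u = p.2) ∧
      ∃ v, Perp p.1 v ∧ ¬ Perp p.2 v)
    (Classical.decPred _) (A.powerset ×ˢ C.powerset)

/-- The pieces `(e,c)` of the overlay: an edge `e` of `A` and a point `c` of `C` exposed by the same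
functional. -/
noncomputable def Pc (A C : Finset E) : Finset (Finset E × E) :=
  @Finset.filter (Finset E × E)
    (fun p => p.1.card = 2 ∧ ∃ u, Mx A u = p.1 ∧ Mx C u = {p.2})
    (Classical.decPred _) (A.powerset ×ˢ C)

/-- The `A`-neighbours of the cell `(a,c)` of the overlay of `A` and `C`. -/
noncomputable def NA (A C : Finset E) (a c : E) : Finset E :=
  @Finset.filter E (fun a' => a' ≠ a ∧ ∃ u, Mx A u = {a, a'} ∧ Mx C u = {c}) (Classical.decPred _) A

/-- The cell `(a,c)` has a corner ray where three points of `A` or three points of `C` tie. -/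
def Ov (A C : Finset E) (a c : E) : Prop :=
  ∃ ρ : E, ρ ≠ 0 ∧ a ∈ Mx A ρ ∧ c ∈ Mx C ρ ∧ (3 ≤ (Mx A ρ).card ∨ 3 ≤ (Mx C ρ).card)

/-- The cell `(a,c)` is regular: no corner of degenerate type, exactly two `A`-neighbours and
exactly two `C`-neighbours. -/
def Reg (A C : Finset E) (a c : E) : Prop :=
  (a, c) ∈ Fc A C ∧ ¬ Ov A C a c ∧ (NA A C a c).card = 2 ∧ (NA C A c a).card = 2

/-- The special (that is, not regular) cells. -/
noncomputable def Sp (A C : Finset E) : Finset (E × E) :=
  @Finset.filter (E × E) (fun p => ¬ Reg A C p.1 p.2) (Classical.decPred _) (Fc A C)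

/-- The total number of sides of the special cells. -/
noncomputable def spSum (A C : Finset E) : ℕ :=
  ∑ p ∈ Sp A C, ((NA A C p.1 p.2).card + (NA C A p.2 p.1).card)

/-- The triple `x = (e,c,f)` is a flat exposed by `u`. -/
def IsFlat (A B C : Finset E) (x : Finset E × E × Finset E) (u : E) : Prop :=
  x.1.card = 2 ∧ x.2.2.card = 2 ∧ Mx A u = x.1 ∧ Mx C u = {x.2.1} ∧ Mx B u = x.2.2 ∧
  (∀ a ∈ x.1, ∀ b ∈ x.2.2, ip a u + ip b u = 2 * ip x.2.1 u) ∧
  (∀ v, Perp x.1 v → Perp x.2.2 v →
    (∀ a ∈ x.1, ∀ b ∈ x.2.2, ip a v + ip b v = 2 * ip x.2.1 v) → ∃ κ : ℝ, v = κ • u)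

/-- The set of all flats. -/
noncomputable def flats (A B C : Finset E) : Finset (Finset E × E × Finset E) :=
  @Finset.filter (Finset E × E × Finset E) (fun x => ∃ u, IsFlat A B C x u) (Classical.decPred _)
    (A.powerset ×ˢ C ×ˢ B.powerset)

/-- A half flat: the position `u` of a flat on the arc of the edge `e` of `A` in the cell of `c`,
together with the exit `z` of that arc from the cell of `c` into the cell of `c'`. -/
structure HF (A B C e : Finset E) (c c' u z : E) : Prop where
  card : e.card = 2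
  eu : Mx A u = e
  cu : Mx C u = {c}
  clo : InRc A B c u
  out : ∀ κ : ℝ, ¬ InR A B c (κ • u)
  ez : Mx A z = e
  cz : Mx C z = {c, c'}
  ne : c ≠ c'
  enter : ∃ κ : ℝ, 0 < κ ∧ InR A B c (u - κ • z)
  full : ∀ v, InR A B c v → Perp e v → Mx A v = e
  fullZ : ∀ v, v ≠ 0 → Perp e v → c ∈ Mx C v → Mx A v = e

/-- `q` lies strictly between the planes of two half flats. -/
def Lune (z₁ u₁ z₂ u₂ q : E) : Prop :=
  0 < det3 z₁ z₂ u₁ * det3 z₁ q u₁ ∧ 0 < det3 z₂ z₁ u₂ * det3 z₂ q u₂

/-- `a` is the only maximiser on `A` of some functional strictly between `z₁` and `z₂`. -/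
def Reach (A : Finset E) (z₁ z₂ a : E) : Prop :=
  ∃ α β : ℝ, 0 < α ∧ 0 < β ∧ Mx A (α • z₁ + β • z₂) = {a}

/-- The gap between two half flats is good. -/
def Good (A B : Finset E) (c z₁ u₁ z₂ u₂ : E) : Prop :=
  ∀ q, InR A B c q → Lune z₁ u₁ z₂ u₂ q → ∀ a ∈ Mx A q, Reach A z₁ z₂ a

/-- The cone over `z₁, z₂` misses `R_c`. -/
def Miss (A B : Finset E) (c z₁ z₂ : E) : Prop :=
  ∀ α β : ℝ, 0 ≤ α → 0 ≤ β → ¬ InR A B c (α • z₁ + β • z₂)

end TPH
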