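import Pool.Agent.TPH.St1

set_option autoImplicit false

/-! # Three parallel hyperplanes, module EdgeLin -/

namespace TPH

theorem MEdgeLin.small {A : Finset E} (h : A.card < 3) : (Ed A).card ≤ 12 * A.card := by
  have hsub : Ed A ⊆ {A} := by
    intro e he
    rw [mem_Ed] at he
    obtain ⟨h2, u, hu⟩ := he
    have hs : e ⊆ A := hu ▸ Mx_subset A u
    rw [Finset.mem_singleton]
    exact Finset.eq_of_subset_of_card_le hs (by omega)
  have h1 : (Ed A).card ≤ 1 := by
    have := Finset.card_le_card hsub
    simpa using this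
  rcases (Ed A).eq_empty_or_nonempty with h0 | ⟨e, he⟩
  · rw [h0]; simp
  · have hA : e = A := by simpa using hsub he
    have h2 : e.card = 2 := (mem_Ed.mp he).1
    rw [hA] at h2
    omega

theorem t_EdgeLin (hFaceSum : StmtFaceSum) (hEdgeCount : StmtEdgeCount) : StmtEdgeLin := by
  intro A hA
  have h1 := hFaceSum A hA
  have h3 : ∀ G ∈ Faces A, 3 ≤ G.card := fun G hG => (mem_Faces.mp hG).1
  have ha : (Faces A).card ≤ ∑ G ∈ Faces A, (G.card - 2) := by
    rw [Finset.card_eq_sum_ones]
    refine Finset.sum_le_sum fun G hG => ?_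
    have := h3 G hG
    omega
  have hb : ∑ G ∈ Faces A, G.card ≤ 3 * ∑ G ∈ Faces A, (G.card - 2) := by
    rw [Finset.mul_sum]
    refine Finset.sum_le_sum fun G hG => ?_
    have := h3 G hG
    omega
  refine ⟨by omega, by omega, ?_⟩
  by_cases hc : 3 ≤ A.card
  · have := hEdgeCount A hc hA
    omega
  · exact MEdgeLin.small (by omega)

end TPH
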