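import Pool.Agent.TPH.St1

/-!
# Three parallel hyperplanes: the local structure of a path before the first bad time
-/

set_option autoImplicit false

namespace TPH

namespace MLocalPath

theorem ip_pth (c p q : E) (s : ℝ) : ip c (pth p q s) = (1 - s) * ip c p + s * ip c q := by
  simp only [pth, ip_add_right, ip_smul_right]

theorem pth_fwd (p q : E) (s η : ℝ) : pth p q s + η • (q - p) = pth p q (s + η) := by
  funext i
  simp only [pth, Pi.add_apply, Pi.smul_apply, Pi.sub_apply, smul_eq_mul]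
  ring

theorem pth_bwd (p q : E) (s η : ℝ) : pth p q s + η • (p - q) = pth p q (s - η) := by
  funext i
  simp only [pth, Pi.add_apply, Pi.smul_apply, Pi.sub_apply, smul_eq_mul]
  ring

/-- The set of times at which `x` is a maximiser is closed. -/
theorem isClosed_vis (C : Finset E) (p q x : E) : IsClosed {s : ℝ | x ∈ Mx C (pth p q s)} := by
  have h1 : {s : ℝ | x ∈ Mx C (pth p q s)}
      = {s : ℝ | x ∈ C} ∩ ⋂ y ∈ C, {s : ℝ | ip y (pth p q s) ≤ ip x (pth p q s)} := by
    ext s
    simp only [Set.mem_setOf_eq, mem_Mx, Set.mem_inter_iff, Set.mem_iInter]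
  rw [h1]
  refine IsClosed.inter isClosed_const (isClosed_biInter fun y _ => ?_)
  have hc : ∀ z : E, Continuous fun s : ℝ => ip z (pth p q s) := by
    intro z
    simp only [ip_pth]
    fun_prop
  exact isClosed_le (hc y) (hc x)

/-- Some maximiser takes over. -/
theorem takeover {C : Finset E} {v w : E} (hC : C.Nonempty) {x : E} {δ : ℝ} (hδ : 0 < δ)
    (hx : ∀ η : ℝ, 0 < η → η < δ → x ∉ Mx C (v + η • w)) :
    ∃ n, n ∈ Mx C v ∧ n ≠ x ∧ ∃ η : ℝ, 0 < η ∧ η < δ ∧ n ∈ Mx C (v + η • w) := by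
  obtain ⟨ε₀, h0, h1⟩ := Mx_pert C v w
  obtain ⟨n, hn⟩ := Mx_nonempty (Mx_nonempty hC v) w
  have hm : 0 < min ε₀ δ / 2 := by positivity
  have hm1 : min ε₀ δ / 2 < ε₀ := by
    have := min_le_left ε₀ δ
    linarith
  have hm2 : min ε₀ δ / 2 < δ := by
    have := min_le_right ε₀ δ
    linarith
  have h2 := h1 _ hm hm1
  refine ⟨n, Mx_subset _ _ hn, ?_, min ε₀ δ / 2, hm, hm2, by rw [h2]; exact hn⟩
  rintro rfl
  exact hx _ hm hm2 (by rw [h2]; exact hn)

/-- A tie of a regular cell with another maximiser. -/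
theorem tie_pair (hRegTie : StmtRegTie) {A C : Finset E} {a x n ρ : E} (hA : 3 ≤ A.card)
    (hreg : Reg A C a x) (hρ : ρ ≠ 0) (ha : a ∈ Mx A ρ) (hx : x ∈ Mx C ρ) (hn : n ∈ Mx C ρ)
    (hnx : n ≠ x) : Mx C ρ = {x, n} := by
  rcases (hRegTie A C a x ρ hA hreg hρ ha hx).2.1 with h | ⟨c', _, h⟩
  · rw [h, Finset.mem_singleton] at hn
    exact absurd hn hnx
  · rw [h, Finset.mem_insert, Finset.mem_singleton] at hn
    rcases hn with hn | hn
    · exact absurd hn hnx
    · rw [h, hn]

end MLocalPath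

open MLocalPath in
theorem t_LocalPath (hRegTie : StmtRegTie) : StmtLocalPath := by
  intro A C a c₀ p q t c₁ c₂ x hA hC hseg hstop hvis
  have hCne : C.Nonempty := Finset.card_pos.mp (by omega)
  obtain ⟨tx, htx0, htxt, hx⟩ := hvis
  have hregx : Reg A C a x := hstop.before tx htx0 htxt x hx
  have ht1 := hstop.le
  have haM : ∀ s : ℝ, 0 ≤ s → s ≤ 1 → a ∈ Mx A (pth p q s) := fun s h0 h1 =>
    mem_Mx_comb (by linarith) h0 hseg.ap hseg.aq
  -- the last time
  obtain ⟨tb, ⟨⟨htb1, htb2⟩, htb3⟩, htbmax⟩ :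
      ∃ tb, IsGreatest (Set.Icc tx t ∩ {s : ℝ | x ∈ Mx C (pth p q s)}) tb := by
    refine IsCompact.exists_isGreatest (isCompact_Icc.inter_right (isClosed_vis C p q x)) ?_
    exact ⟨tx, ⟨le_rfl, htxt.le⟩, hx⟩
  simp only [Set.mem_setOf_eq] at htb3
  have htb0 : 0 < tb := htx0.trans_le htb1
  have hafter : ∀ s, tb < s → s ≤ t → x ∉ Mx C (pth p q s) := by
    intro s hs hst hxs
    have := htbmax ⟨⟨htb1.trans hs.le, hst⟩, hxs⟩
    linarith
  -- leaving
  obtain ⟨n₂, hn2x, hn2eq, hn2v⟩ : ∃ n₂, n₂ ≠ x ∧ Mx C (pth p q tb) = {x, n₂} ∧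
      (n₂ = c₁ ∨ Vis C p q t n₂) := by
    rcases htb2.lt_or_eq with hlt | heq
    · obtain ⟨n, hn1, hn2, -⟩ := takeover (v := pth p q tb) (w := q - p) hCne (x := x)
        (δ := t - tb) (by linarith) (fun η h0 h1 => by
          rw [pth_fwd]
          exact hafter _ (by linarith) (by linarith))
      refine ⟨n, hn2, tie_pair hRegTie hA hregx (hseg.nz tb htb0.le (by linarith))
        (haM tb htb0.le (by linarith)) htb3 hn1 hn2, Or.inr ⟨tb, htb0, hlt, hn1⟩⟩
    · subst heq
      have hmem := htb3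
      rw [hstop.tie, Finset.mem_insert, Finset.mem_singleton] at hmem
      rcases hmem with h | h
      · exact absurd (h ▸ hregx) hstop.bad
      · exact ⟨c₁, by rw [h]; exact hstop.ne, by rw [hstop.tie, h, Finset.pair_comm], Or.inl rfl⟩
  refine ⟨tb, n₂, htb0, htb2, hn2x, hn2eq, hn2v, fun hx0 => ?_⟩
  -- entering
  obtain ⟨ε, hε, hstart⟩ := hseg.start
  set ε' := min ε tx / 2 with hε'
  have he0 : 0 < ε' := by positivity
  have he1 : ε' < ε := by
    have := min_le_left ε tx
    linarith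
  have he2 : ε' < tx := by
    have := min_le_right ε tx
    linarith
  obtain ⟨ta, ⟨⟨hta1, hta2⟩, hta3⟩, htamin⟩ :
      ∃ ta, IsLeast (Set.Icc ε' tx ∩ {s : ℝ | x ∈ Mx C (pth p q s)}) ta := by
    refine IsCompact.exists_isLeast (isCompact_Icc.inter_right (isClosed_vis C p q x)) ?_
    exact ⟨tx, ⟨he2.le, le_rfl⟩, hx⟩
  simp only [Set.mem_setOf_eq] at hta3
  have hta1' : ε' < ta := by
    rcases hta1.lt_or_eq with h | h
    · exact h
    · exfalso
      have h1 := hta3
      rw [← h, hstart ε' he0 he1, Finset.mem_singleton] at h1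
      exact hx0 h1
  have hta0 : 0 < ta := he0.trans hta1'
  have htat : ta < t := hta2.trans_lt htxt
  have hbefore : ∀ s, ε' ≤ s → s < ta → x ∉ Mx C (pth p q s) := by
    intro s hs hst hxs
    have := htamin ⟨⟨hs, hst.le.trans hta2⟩, hxs⟩
    linarith
  obtain ⟨n₁, hn1, hn1x, η, hη0, hη1, hn1η⟩ := takeover (v := pth p q ta) (w := p - q) hCne
    (x := x) (δ := ta - ε') (by linarith) (fun η h0 h1 => by
      rw [pth_bwd]
      exact hbefore _ (by linarith) (by linarith))
  have hn1eq : Mx C (pth p q ta) = {x, n₁} :=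
    tie_pair hRegTie hA hregx (hseg.nz ta hta0.le (by linarith)) (haM ta hta0.le (by linarith))
      hta3 hn1 hn1x
  rw [pth_bwd] at hn1η
  -- the difference is an affine function of the time
  have hxC : x ∈ C := Mx_subset _ _ hx
  have hf0 : ip n₁ (pth p q ta) = ip x (pth p q ta) := Mx_eq hn1 hta3
  have hf1 : ip x (pth p q (ta - η)) < ip n₁ (pth p q (ta - η)) :=
    Mx_lt hn1η hxC (hbefore _ (by linarith) (by linarith))
  have hslope : ip n₁ (q - p) < ip x (q - p) := by
    rw [ip_pth, ip_pth] at hf0 hf1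
    rw [ip_sub_right, ip_sub_right]
    have h2 : 0 < η * ((ip x q - ip x p) - (ip n₁ q - ip n₁ p)) := by
      have : (1 - (ta - η)) * ip x p + (ta - η) * ip x q
          = ((1 - ta) * ip x p + ta * ip x q) - η * (ip x q - ip x p) := by ring
      rw [this] at hf1
      have : (1 - (ta - η)) * ip n₁ p + (ta - η) * ip n₁ q
          = ((1 - ta) * ip n₁ p + ta * ip n₁ q) - η * (ip n₁ q - ip n₁ p) := by ring
      rw [this] at hf1
      rw [mul_sub]
      linarith
    have h3 := (mul_pos_iff_of_pos_left hη0).mp h2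
    linarith
  have hneg : ∀ s, ta < s → ip n₁ (pth p q s) < ip x (pth p q s) := by
    intro s hs
    have h2 : pth p q s = pth p q ta + (s - ta) • (q - p) := by
      rw [pth_fwd]; congr 1; ring
    rw [h2, ip_add_right, ip_add_right, ip_smul_right, ip_smul_right, hf0]
    have := mul_lt_mul_of_pos_left hslope (sub_pos.mpr hs)
    linarith
  have htab : ta < tb := by
    rcases (hta2.trans htb1).lt_or_eq with h | h
    · exact h
    · exfalso
      obtain ⟨ε₀, h0, h1⟩ := Mx_pert C (pth p q ta) (q - p)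
      have hm : 0 < min ε₀ (t - ta) / 2 := by
        have : 0 < t - ta := by linarith
        positivity
      have hm1 : min ε₀ (t - ta) / 2 < ε₀ := by
        have := min_le_left ε₀ (t - ta)
        linarith
      have hm2 : min ε₀ (t - ta) / 2 < t - ta := by
        have := min_le_right ε₀ (t - ta)
        linarith
      have h2 := h1 _ hm hm1
      rw [hn1eq, Mx_pair_left hslope, pth_fwd] at h2
      exact hafter (ta + min ε₀ (t - ta) / 2) (by linarith) (by linarith)
        (by rw [h2]; exact Finset.mem_singleton_self x)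
  refine ⟨ta, n₁, hta0, htab, hn1x, ?_, by rw [hn1eq, Finset.pair_comm], ⟨ta, hta0, htat, hn1⟩⟩
  rintro rfl
  have h1 : n₁ ∈ Mx C (pth p q tb) := by rw [hn2eq]; simp
  have h2 := Mx_eq h1 htb3
  have h3 := hneg tb htab
  linarith

end TPH
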