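import Pool.Agent.TPH.St9
import Pool.Agent.TPH.Closed

/-!
# Ties in a plane
-/

set_option autoImplicit false

namespace TPH

namespace MPlanar

/-- A tie which is a combination with a positive first coefficient. -/
theorem between (hTB : StmtTieBasic) {A B : Finset E} {c q q₁ q₂ : E} {α β : ℝ}
    (hq : Tie A B c q) (h1 : InRc A B c q₁) (h2 : InRc A B c q₂) (hα : 0 < α) (hβ : 0 ≤ β)
    (he : q = α • q₁ + β • q₂) : Mx A q ⊆ Mx A q₁ ∧ Mx B q ⊆ Mx B q₁ := by
  obtain ⟨hA, hB, heq, -⟩ := (hTB A B c q).1 hq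
  have key : ∀ a ∈ Mx A q, ∀ b ∈ Mx B q, ip a q₁ + ip b q₁ = 2 * ip c q₁ := by
    intro a ha b hb
    have h3 := heq a ha b hb
    have haA := Mx_subset A q ha
    have hbB := Mx_subset B q hb
    have h4 := h1 a haA b hbB
    have h5 := h2 a haA b hbB
    rw [he, ip_add_right, ip_add_right, ip_add_right, ip_smul_right, ip_smul_right,
      ip_smul_right, ip_smul_right, ip_smul_right, ip_smul_right] at h3
    have h6 : α * (2 * ip c q₁ - ip a q₁ - ip b q₁) = -(β * (2 * ip c q₂ - ip a q₂ - ip b q₂)) := by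
      linarith
    have h7 : 0 ≤ β * (2 * ip c q₂ - ip a q₂ - ip b q₂) := mul_nonneg hβ (by linarith)
    have h8 : α * (2 * ip c q₁ - ip a q₁ - ip b q₁) ≤ 0 := by linarith
    have h9 : 2 * ip c q₁ - ip a q₁ - ip b q₁ ≤ 0 := by
      by_contra hc
      push Not at hc
      exact absurd h8 (not_le.mpr (mul_pos hα hc))
    linarith
  obtain ⟨a₀, ha₀⟩ := Mx_nonempty hA q
  obtain ⟨b₀, hb₀⟩ := Mx_nonempty hB q
  constructor
  · intro a ha
    refine mem_Mx.mpr ⟨Mx_subset A q ha, fun a' ha' => ?_⟩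
    have h3 := key a ha b₀ hb₀
    have h4 := h1 a' ha' b₀ (Mx_subset B q hb₀)
    linarith
  · intro b hb
    refine mem_Mx.mpr ⟨Mx_subset B q hb, fun b' hb' => ?_⟩
    have h3 := key a₀ ha₀ b hb
    have h4 := h1 a₀ (Mx_subset A q ha₀) b' hb'
    linarith

/-- `q` is a combination of two elements of `S`. -/
def Cov (S : Finset E) (q : E) : Prop :=
  ∃ q₁ ∈ S, ∃ q₂ ∈ S, ∃ α β : ℝ, 0 < α ∧ 0 ≤ β ∧ q = α • q₁ + β • q₂

theorem Cov.mono {S T : Finset E} (h : S ⊆ T) {q : E} (hq : Cov S q) : Cov T q := by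
  obtain ⟨q₁, h1, q₂, h2, h3⟩ := hq
  exact ⟨q₁, h h1, q₂, h h2, h3⟩

theorem sel1 (S : Finset E) (f : E) (ψ : E → ℝ) (h : ∀ q ∈ S, 0 < ψ q ∧ q = ψ q • f) :
    ∃ S' ⊆ S, S'.card ≤ 1 ∧ ∀ q ∈ S, Cov S' q := by
  rcases S.eq_empty_or_nonempty with rfl | ⟨q₀, hq₀⟩
  · exact ⟨∅, le_rfl, by simp, by simp⟩
  · refine ⟨{q₀}, by simpa using hq₀, by simp, fun q hq => ?_⟩
    obtain ⟨h1, h2⟩ := h q hq
    obtain ⟨h3, h4⟩ := h q₀ hq₀
    refine ⟨q₀, by simp, q₀, by simp, ψ q / ψ q₀, 0, div_pos h1 h3, le_rfl, ?_⟩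
    rw [zero_smul, add_zero]
    have h5 : (ψ q / ψ q₀) • q₀ = (ψ q / ψ q₀) • (ψ q₀ • f) := by rw [← h4]
    rw [h5, smul_smul, div_mul_cancel₀ _ h3.ne']
    exact h2

theorem sel2 (S : Finset E) (g f : E) (φ ψ : E → ℝ)
    (h : ∀ q ∈ S, 0 < ψ q ∧ q = φ q • g + ψ q • f) :
    ∃ S' ⊆ S, S'.card ≤ 2 ∧ ∀ q ∈ S, Cov S' q := by
  classical
  rcases S.eq_empty_or_nonempty with rfl | hne
  · exact ⟨∅, le_rfl, by simp, by simp⟩
  · obtain ⟨q₁, hq₁, hmin⟩ := S.exists_min_image (fun q => φ q / ψ q) hne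
    obtain ⟨q₂, hq₂, hmax⟩ := S.exists_max_image (fun q => φ q / ψ q) hne
    have hsub : ({q₁, q₂} : Finset E) ⊆ S := by
      intro z hz
      simp only [Finset.mem_insert, Finset.mem_singleton] at hz
      rcases hz with rfl | rfl
      · exact hq₁
      · exact hq₂
    refine ⟨{q₁, q₂}, hsub, Finset.card_le_two, fun q hq => ?_⟩
    obtain ⟨p1, e1⟩ := h q₁ hq₁
    obtain ⟨p2, e2⟩ := h q₂ hq₂
    obtain ⟨p, e⟩ := h q hq
    have m1 : φ q₁ / ψ q₁ ≤ φ q / ψ q := hmin q hq
    have m2 : φ q / ψ q ≤ φ q₂ / ψ q₂ := hmax q hq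
    -- normal forms
    have n1 : φ q₁ = ψ q₁ * (φ q₁ / ψ q₁) := by field_simp
    have n2 : φ q₂ = ψ q₂ * (φ q₂ / ψ q₂) := by field_simp
    have n : φ q = ψ q * (φ q / ψ q) := by field_simp
    set t₁ := φ q₁ / ψ q₁ with ht₁
    set t₂ := φ q₂ / ψ q₂ with ht₂
    set t := φ q / ψ q with ht
    -- multiples
    have mult : ∀ q' s, 0 < ψ q' → q' = φ q' • g + ψ q' • f → φ q' = ψ q' * s → t = s →
        q = (ψ q / ψ q') • q' := by
      intro q' s hp he hn hs
      have h5 : (ψ q / ψ q') • q' = (ψ q / ψ q') • (φ q' • g + ψ q' • f) := by rw [← he]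
      rw [h5, smul_add, smul_smul, smul_smul, div_mul_cancel₀ _ hp.ne']
      have h6 : ψ q / ψ q' * φ q' = φ q := by
        rw [hn, n, hs]; field_simp
      rw [h6]
      exact e
    rcases m2.lt_or_eq with hlt | heq
    · rcases m1.lt_or_eq with hlt' | heq'
      · -- strictly between
        have hd : 0 < t₂ - t₁ := by linarith
        refine ⟨q₁, by simp, q₂, by simp, ψ q / ψ q₁ * ((t₂ - t) / (t₂ - t₁)),
          ψ q / ψ q₂ * ((t - t₁) / (t₂ - t₁)), ?_, ?_, ?_⟩
        · exact mul_pos (div_pos p p1) (div_pos (by linarith) hd)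
        · exact mul_nonneg (div_pos p p2).le (div_nonneg (by linarith) hd.le)
        · have h5 : ∀ A' B' : ℝ, A' • q₁ + B' • q₂ = A' • (φ q₁ • g + ψ q₁ • f) +
              B' • (φ q₂ • g + ψ q₂ • f) := by
            intro A' B'; rw [← e1, ← e2]
          rw [h5]
          have c1 : ψ q / ψ q₁ * ((t₂ - t) / (t₂ - t₁)) * φ q₁ +
              ψ q / ψ q₂ * ((t - t₁) / (t₂ - t₁)) * φ q₂ = φ q := by
            rw [n1, n2, n]
            have := p1.ne'; have := p2.ne'; have := hd.ne'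
            field_simp
            ring
          have c2 : ψ q / ψ q₁ * ((t₂ - t) / (t₂ - t₁)) * ψ q₁ +
              ψ q / ψ q₂ * ((t - t₁) / (t₂ - t₁)) * ψ q₂ = ψ q := by
            have := p1.ne'; have := p2.ne'; have := hd.ne'
            field_simp
            ring
          have h6 : ∀ A' B' x y x' y' : ℝ, A' • (x • g + y • f) + B' • (x' • g + y' • f) =
              (A' * x + B' * x') • g + (A' * y + B' * y') • f := by
            intro A' B' x y x' y'
            funext i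
            simp only [Pi.add_apply, Pi.smul_apply, smul_eq_mul]
            ring
          rw [h6, c1, c2]
          exact e
      · refine ⟨q₁, by simp, q₁, by simp, ψ q / ψ q₁, 0, div_pos p p1, le_rfl, ?_⟩
        rw [zero_smul, add_zero]
        exact mult q₁ t₁ p1 e1 n1 heq'.symm
    · refine ⟨q₂, by simp, q₂, by simp, ψ q / ψ q₂, 0, div_pos p p2, le_rfl, ?_⟩
      rw [zero_smul, add_zero]
      exact mult q₂ t₂ p2 e2 n2 heq

/-- A vector orthogonal to `H`. -/
theorem exists_perp {H : E} (_hH : H ≠ 0) : ∃ g : E, g ≠ 0 ∧ ip H g = 0 := by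
  by_cases h : H 0 = 0 ∧ H 1 = 0
  · refine ⟨![1, 0, 0], ?_, ?_⟩
    · intro h'; have := congrFun h' 0; simp at this
    · simp [ip, h.1]
  · refine ⟨![-H 1, H 0, 0], ?_, ?_⟩
    · intro h'
      apply h
      have h0 := congrFun h' 0
      have h1 := congrFun h' 1
      simp at h0 h1
      exact ⟨h1, h0⟩
    · simp [ip]; ring

end MPlanar

open MPlanar in
theorem t_Planar (hTieBasic : StmtTieBasic) : StmtPlanar := by
  classical
  intro A B c H Q hH hQ
  obtain ⟨g, hg, hHg⟩ := exists_perp hH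
  have hgg := ip_self_pos hg
  have hHH := ip_self_pos hH
  have hff : 0 < ip (cr H g) (cr H g) := by
    rw [lagrange, hHg]
    have := mul_pos hHH hgg
    linarith
  set f := cr H g with hf
  have hgf : ip g f = 0 := by rw [hf, ip_cr', det3_self23]
  have hHf : ip H f = 0 := by rw [hf, ip_cr', det3_self13]
  have hcr : cr g f ≠ 0 := by
    intro h0
    have h1 := lagrange g f
    rw [h0, ip_zero_right, hgf] at h1
    have := mul_pos hgg hff
    linarith
  set φ : E → ℝ := fun q => ip g q / ip g g with hφ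
  set ψ : E → ℝ := fun q => ip f q / ip f f with hψ
  have co : ∀ q ∈ Q, q = φ q • g + ψ q • f := by
    intro q hq
    obtain ⟨α, β, h⟩ := comb_of_perp hH hcr hHg hHf (hQ q hq).2.2
    have h1 : φ q = α := by
      simp only [hφ]
      rw [h, ip_add_right, ip_smul_right, ip_smul_right, hgf, mul_zero, add_zero,
        mul_div_assoc, div_self hgg.ne', mul_one]
    have h2 : ψ q = β := by
      simp only [hψ]
      rw [h, ip_add_right, ip_smul_right, ip_smul_right, ip_comm f g, hgf, mul_zero, zero_add,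
        mul_div_assoc, div_self hff.ne', mul_one]
    rw [h1, h2]; exact h
  obtain ⟨S1, s1, c1, k1⟩ := sel2 (Q.filter fun q => 0 < ψ q) g f φ ψ (by
    intro q hq
    rw [Finset.mem_filter] at hq
    exact ⟨hq.2, co q hq.1⟩)
  obtain ⟨S2, s2, c2, k2⟩ := sel2 (Q.filter fun q => ψ q < 0) g (-f) φ (fun q => -ψ q) (by
    intro q hq
    rw [Finset.mem_filter] at hq
    refine ⟨by linarith [hq.2], ?_⟩
    rw [neg_smul_neg]
    exact co q hq.1)
  obtain ⟨S3, s3, c3, k3⟩ := sel1 (Q.filter fun q => ψ q = 0 ∧ 0 < φ q) g φ (by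
    intro q hq
    rw [Finset.mem_filter] at hq
    refine ⟨hq.2.2, ?_⟩
    have := co q hq.1
    rw [hq.2.1, zero_smul, add_zero] at this
    exact this)
  obtain ⟨S4, s4, c4, k4⟩ := sel1 (Q.filter fun q => ψ q = 0 ∧ φ q < 0) (-g) (fun q => -φ q) (by
    intro q hq
    rw [Finset.mem_filter] at hq
    refine ⟨by linarith [hq.2.2], ?_⟩
    have := co q hq.1
    rw [hq.2.1, zero_smul, add_zero] at this
    rw [neg_smul_neg]
    exact this)
  have hsub : S1 ∪ S2 ∪ (S3 ∪ S4) ⊆ Q := by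
    refine Finset.union_subset (Finset.union_subset ?_ ?_) (Finset.union_subset ?_ ?_)
    · exact s1.trans (Finset.filter_subset _ _)
    · exact s2.trans (Finset.filter_subset _ _)
    · exact s3.trans (Finset.filter_subset _ _)
    · exact s4.trans (Finset.filter_subset _ _)
  refine ⟨S1 ∪ S2 ∪ (S3 ∪ S4), hsub, ?_, fun q hq => ?_⟩
  · have h1 := Finset.card_union_le (S1 ∪ S2) (S3 ∪ S4)
    have h2 := Finset.card_union_le S1 S2
    have h3 := Finset.card_union_le S3 S4
    omega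
  · have hcov : Cov (S1 ∪ S2 ∪ (S3 ∪ S4)) q := by
      rcases lt_trichotomy (ψ q) 0 with h | h | h
      · refine (k2 q (Finset.mem_filter.mpr ⟨hq, h⟩)).mono ?_
        exact Finset.subset_union_right.trans Finset.subset_union_left
      · rcases lt_trichotomy (φ q) 0 with h' | h' | h'
        · refine (k4 q (Finset.mem_filter.mpr ⟨hq, h, h'⟩)).mono ?_
          exact Finset.subset_union_right.trans Finset.subset_union_right
        · exfalso
          have := co q hq
          rw [h, h', zero_smul, zero_smul, add_zero] at this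
          exact (hQ q hq).1 this
        · refine (k3 q (Finset.mem_filter.mpr ⟨hq, h, h'⟩)).mono ?_
          exact Finset.subset_union_left.trans Finset.subset_union_right
      · refine (k1 q (Finset.mem_filter.mpr ⟨hq, h⟩)).mono ?_
        exact Finset.subset_union_left.trans Finset.subset_union_left
    obtain ⟨q₁, h1, q₂, h2, α, β, hα, hβ, he⟩ := hcov
    exact ⟨q₁, h1, between hTieBasic (hQ q hq).2.1 (hQ q₁ (hsub h1)).2.1.1
      (hQ q₂ (hsub h2)).2.1.1 hα hβ he⟩

end TPH
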