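import Pool.Agent.TPH.St3

/-!
# A cone over a convex quadrilateral
-/

set_option autoImplicit false

namespace TPH

namespace MQuadCone

/-- Cramer's rule, divided by the determinant. -/
theorem cram (z y u v : E) (h : det3 z y u ≠ 0) :
    v = (det3 v y u / det3 z y u) • z + (det3 z v u / det3 z y u) • y +
      (det3 z y v / det3 z y u) • u := by
  have h1 := cramer z y u v
  have h2 : v = (det3 z y u)⁻¹ • (det3 z y u • v) := by
    rw [smul_smul, inv_mul_cancel₀ h, one_smul]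
  rw [h1] at h2
  rw [smul_add, smul_add, smul_smul, smul_smul, smul_smul] at h2
  rw [div_eq_inv_mul, div_eq_inv_mul, div_eq_inv_mul]
  exact h2

end MQuadCone

theorem t_QuadCone : StmtQuadCone := by
  intro z₁ z₂ u₁ u₂ v h1 h2 h3 h4 h5 h6
  rcases le_or_gt 0 (det3 v z₂ u₁) with hm | hm
  · refine ⟨det3 v z₂ u₁ / det3 z₁ z₂ u₁, det3 z₁ v u₁ / det3 z₁ z₂ u₁,
      det3 z₁ z₂ v / det3 z₁ z₂ u₁, 0, by positivity, by positivity, by positivity, le_refl _,
      by positivity, ?_⟩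
    rw [zero_smul, add_zero]
    exact MQuadCone.cram z₁ z₂ u₁ v h1.ne'
  · have e1 : det3 v u₁ u₂ = - det3 u₁ v u₂ := by
      simp only [det3]
      ring
    have e2 : det3 z₂ u₁ v = det3 v z₂ u₁ := by
      simp only [det3]
      ring
    refine ⟨0, det3 v u₁ u₂ / det3 z₂ u₁ u₂, det3 z₂ v u₂ / det3 z₂ u₁ u₂,
      det3 z₂ u₁ v / det3 z₂ u₁ u₂, le_refl _, ?_, ?_, ?_, ?_, ?_⟩
    · apply div_pos_of_neg_of_neg _ h6
      rw [e1]
      linarith
    · exact div_nonneg_of_nonpos h4 h6.le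
    · apply div_nonneg_of_nonpos _ h6.le
      rw [e2]
      exact hm.le
    · have k1 : 0 ≤ det3 z₂ v u₂ / det3 z₂ u₁ u₂ := div_nonneg_of_nonpos h4 h6.le
      have k2 : 0 < det3 z₂ u₁ v / det3 z₂ u₁ u₂ := by
        apply div_pos_of_neg_of_neg _ h6
        rw [e2]
        exact hm
      linarith
    · rw [zero_smul, zero_add]
      exact MQuadCone.cram z₂ u₁ u₂ v h6.ne

end TPH
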