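import Pool.Agent.TPH.St3

/-!
# Three parallel hyperplanes: statements of the counting part

`Fl` is the type of triples `(e,c,f)`.  `GD A B C x u z y c₁ c₂` (file St2) are the data of a good flat:
`u` exposes it, `z` is the exit for `A`, `y` is the exit for `B`.  A good flat is called main if
`c₁ = c₂` and out otherwise.
-/

namespace TPH

/-- Triples `(e,c,f)`. -/
abbrev Fl := Finset E × E × Finset E

/-- **StmtAbstract.** The abstract counting lemma.
PROOF. For `x ∈ X` let `j x` be the number of `k ∈ Bd` with `cls k = cls x` and `key k < key x`.  Call two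
elements of `X` equivalent if they have the same `cls` and the same `j` (a run).  The number of runs is
at most `|X.image cls| + |Bd|` (for each class, `j` takes at most `1 + |Bd ∩ class|` values).  Let `R` be a
run with `w` elements.  For `x,y,z ∈ R` with `key x < key y < key z` no `k ∈ Bd` of this class has
`key x ≤ key k < key z` (it would be counted in `j z` and not in `j x`), so `cross x y ∨ cross y z`.
Let `S` be the set of the `y ∈ R` such that `¬ cross x y` for some `x ∈ R` with `key x < key y`.  If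
`y ∈ S`, then `cross y z` for all `z ∈ R` with `key y < key z`; so all pairs of `S` are crossing pairs.
All pairs of `R \ S` are crossing pairs by the definition of `S`.  So the number of crossing pairs in `R` is
at least `(s choose 2) + (w - s choose 2) ≥ w^2/4 - w/2`, and these pairs are in `P`, different runs give
different pairs.  So `∑ w^2 ≤ 4 |P| + 2 |X|`, and by Cauchy-Schwarz
`|X|^2 = (∑ w)^2 ≤ (number of runs) * ∑ w^2`. -/
def StmtAbstract : Prop := ∀ (ι κ : Type) [DecidableEq κ] (X Bd : Finset ι) (cls : ι → κ)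
  (key : ι → ℝ) (cross : ι → ι → Prop) (P : Finset (ι × ι)),
  (∀ x ∈ X, ∀ y ∈ X, cls x = cls y → key x = key y → x = y) →
  (∀ x ∈ X, ∀ y ∈ X, ∀ z ∈ X, cls x = cls y → cls y = cls z → key x < key y → key y < key z →
    (∀ k ∈ Bd, cls k = cls x → key x ≤ key k → ¬ key k < key z) → cross x y ∨ cross y z) →
  (∀ x ∈ X, ∀ y ∈ X, cls x = cls y → key x < key y → cross x y → (x, y) ∈ P) →
  X.card ^ 2 ≤ 8 * ((X.image cls).card + Bd.card) * (P.card + X.card)

/-- **StmtMainMult.** Each pair `(e,f)` is the crossing of at most four pairs of flats.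
PROOF. It is enough to show that for fixed `e, f` at most four `p ∈ P` have `p.1.1 = e` and
`p.2.2.2 = f` (both are edges: `e = Mx A t`, `f = Mx B t`; `Finset.card_le_mul_card_image` or a sum over
`Ed A ×ˢ Ed B`).  Let `p, p'` be two such pairs with `t, t'`.  `e = {a,a'}`, `f = {b,b'}`; the last clause
says that `a - a'` and `b - b'` are independent; `t` and `t'` are orthogonal to both, and not zero
(`Mx A 0 = A ≠ e`), so `t' = κ t`, and `κ > 0` because `Mx A t = Mx A t' ≠ A`.  So all the conditions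
hold for one fixed `t₀` (`InR.smul`).  Let `x = p.1`, exposed by `u`: `t₀` is not a multiple of `u`
(`StmtFlatBasic`: multiples of `u` are not in `R_c`) and both are orthogonal to `a - a'`, so
`det3 (a-a') t₀ u ≠ 0`, and by `StmtFirstExit` its sign determines `x`.  So there are at most two
possible `x`.  In the same way, with `A` and `B` exchanged (`(y.2.2, y.2.1, y.1)` is a flat of `B, A, C`),
there are at most two possible `y = p.2`. -/
def StmtMainMult : Prop := ∀ (A B C : Finset E) (P : Finset (Fl × Fl)), 3 ≤ A.card → 3 ≤ B.card →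
  (∀ p ∈ P, p.1 ∈ flats A B C ∧ p.2 ∈ flats A B C ∧ ∃ t, InR A B p.1.2.1 t ∧ InR A B p.2.2.1 t ∧
    Mx A t = p.1.1 ∧ Mx B t = p.2.2.2 ∧ ∃ v, Perp p.1.1 v ∧ ¬ Perp p.2.2.2 v) →
  P.card ≤ 4 * ((Ed A).card * (Ed B).card)

/-- **StmtOutMult.** The same for the crossings of out flats.
PROOF. As for `StmtMainMult`.  Put `t = α u₁ + β y₁`.  `Mx B t = p.1.2.2` (`HF.Mx_A_comb` for the half
flat of `B`), `Mx A t = p.2.1`, `Mx C t = {c}` with `c = p.1.2.1 = p.2.2.1`.  `e = p.2.1` and `f = p.1.2.2` are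
not parallel, because `u₁` is orthogonal to `f` and not to `e`.  For fixed `e, f` the vector `t` is
determined up to positive multiples, hence `c` is determined.  `x = p.1`: the half flats
`HF B A C f c _ u₁ y₁` with `t₀ = (α/k) u₁ + (β/k) y₁`; `det3 (b-b') t₀ u₁ ≠ 0` since `u₁, y₁` are
independent (`HF.cr_ne`); its sign determines `u₁` up to positive multiples by `StmtExit2`, and hence `x`
(`StmtFlatBasic`, last clause).  The same for `y = p.2` with `HF A B C e c _ u₂ z₂`. -/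
def StmtOutMult : Prop := ∀ (A B C : Finset E) (P : Finset (Fl × Fl)), 3 ≤ A.card → 3 ≤ B.card →
  (∀ p ∈ P, ∃ (u₁ z₁ y₁ c₁ d₁ u₂ z₂ y₂ c₂ d₂ : E) (α β α' β' : ℝ),
    GD A B C p.1 u₁ z₁ y₁ c₁ d₁ ∧ GD A B C p.2 u₂ z₂ y₂ c₂ d₂ ∧ p.1.2.1 = p.2.2.1 ∧
    0 < α ∧ 0 < β ∧ 0 < α' ∧ 0 < β' ∧ α • u₁ + β • y₁ = α' • u₂ + β' • z₂ ∧ ¬ Perp p.2.1 u₁) →
  P.card ≤ 4 * ((Ed A).card * (Ed B).card)

/-- **StmtZDet.** The exit determines the position.
PROOF. `e' = Mx A z' = Mx A z = e`, `{c,c₂} = Mx C z' = Mx C z = {c,c₁}`, so `c₁ = c₂`.  `Perp e u'`, so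
`u' = α u + β z` (`HF.comb`).  `ip (c - c₁)` is positive at `u` and `u'`, zero at `z`: `α > 0`.
`HF.beta_nonpos` gives `β ≤ 0`.  `u = (1/α) u' + (-β/(α k)) z'`, and `HF.beta_nonpos` for the second half
flat gives `-β/(α k) ≤ 0`.  So `β = 0`. -/
def StmtZDet : Prop := ∀ (A B C e e' : Finset E) (c c₁ c₂ u z u' z' : E) (k : ℝ),
  HF A B C e c c₁ u z → HF A B C e' c c₂ u' z' → 0 < k → z' = k • z → ∃ k' : ℝ, 0 < k' ∧ u' = k' • u

/-- There is a point of `R_c` on the arc of `{c,c'}` to the right of `z`. -/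
def SideR (A B C : Finset E) (c c' z : E) : Prop :=
  ∃ r, InR A B c r ∧ Mx C r = {c, c'} ∧ 0 < det3 (c - c') z r

/-- **StmtSide.** If `z₁` and `z₂` are on the same side of `R_c`, the cone over them misses `R_c`.
PROOF. Let `r = α z₁ + β z₂ ∈ R_c`, `α, β ≥ 0`.  `α = 0` or `β = 0` is impossible by `HF.not_inR`
(with the coefficient 0 for `u`).  So `Mx C r = {c,c'}` (`Mx_comb`).  If `[z₁,z₂] > 0`:
`[z₁,r] = β [z₁,z₂] > 0`, so `SideR` holds for `z₁`, hence for `z₂`: there is `r'` with `[z₂,r'] > 0`;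
`[r,z₂] = α [z₁,z₂] > 0`, so `z₂ = κ r + μ r'` with `κ, μ > 0` (`StmtBetween`) is in `R_c`, contradicting
`HF.not_inR`.  If `[z₁,z₂] < 0`, exchange the roles.  If `[z₁,z₂] = 0` then `z₂ = k z₁` with `k > 0`
(`StmtKeyFn`: neither key is smaller), and `r` is a multiple of `z₁`, again impossible. -/
def StmtSide : Prop := ∀ (A B C e₁ e₂ : Finset E) (c c' u₁ z₁ u₂ z₂ : E), 3 ≤ C.card →
  HF A B C e₁ c c' u₁ z₁ → HF A B C e₂ c c' u₂ z₂ →
  (SideR A B C c c' z₁ ↔ SideR A B C c c' z₂) → Miss A B c z₁ z₂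

/-- The members of a family with the same `c`, `c'` and label. -/
def SameC {ι : Type} (c c' : ι → E) (lab : ι → Fin 8) (x y : ι) : Prop :=
  c x = c y ∧ c' x = c' y ∧ lab x = lab y

/-- **StmtBadCount.** The number of bad consecutive gaps is linear.
PROOF. For `x ∈ Bd` let `y` be as in the hypothesis.  If `σ x = 1` then
`Gap A B C (e x) (e y) (c x) (c' x) (u x) (z x) (u y) (z y)`; if `σ x = -1` then the same with `x` and `y`
exchanged (`det3 ω (z y) (z x) > 0`, `Miss_swap`, `Good_swap`).  `StmtBadCharge` gives `a, c₁, c₂` with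
`(a,c₁) ∈ Sp A C`, `c₂ ∈ NA C A c₁ a` and `Chg`.  The value `((a,c₁),c₂,lab x)` takes at most
`8 * ∑_{p ∈ Sp} |NA C A p.2 p.1| ≤ 8 * spSum A C` values.  It is injective: suppose `x`, `x̃` have the same
value.  `StmtGapInj`: `c`, `c'` are the same, so `x`, `x̃` are in the same class and `σ` is the same, and
there is a common point `s` of the two open cones.  In the order `0 < σ * det3 ω · ·` of the rays of the
arc, `z x < s < z y` and `z x̃ < s < z ỹ` (`det3 ω (z x) s = β det3 ω (z x) (z y)` etc.).  If `x ≠ x̃`, then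
`det3 ω (z x) (z x̃) ≠ 0`, say `z x < z x̃` in this order; then `z x̃ < s < z y` and transitivity
(`StmtBetween`, with `Mx C s = {c,c'}` from `Mx_comb`) give `z x < z x̃ < z y`, contradicting the choice
of `y`. -/
def StmtBadCount : Prop := ∀ (ι : Type) (X Bd : Finset ι) (A B C : Finset E) (e : ι → Finset E)
  (c c' u z : ι → E) (lab : ι → Fin 8) (σ : ι → ℝ), 3 ≤ A.card → 3 ≤ C.card →
  (∀ x ∈ X, HF A B C (e x) (c x) (c' x) (u x) (z x)) → (∀ x ∈ X, σ x = 1 ∨ σ x = -1) →
  (∀ x ∈ X, ∀ y ∈ X, SameC c c' lab x y → σ x = σ y ∧ Miss A B (c x) (z x) (z y)) →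
  (∀ x ∈ X, ∀ y ∈ X, SameC c c' lab x y → det3 (c x - c' x) (z x) (z y) = 0 → x = y) →
  Bd ⊆ X →
  (∀ x ∈ Bd, ∃ y ∈ X, SameC c c' lab x y ∧ 0 < σ x * det3 (c x - c' x) (z x) (z y) ∧
    (∀ k ∈ X, SameC c c' lab x k → ¬ (0 < σ x * det3 (c x - c' x) (z x) (z k) ∧
      0 < σ x * det3 (c x - c' x) (z k) (z y))) ∧
    ¬ Good A B (c x) (z x) (u x) (z y) (u y)) →
  Bd.card ≤ 8 * spSum A C

/-- **StmtRunGood.** If there is no bad gap between `x` and `w` then the gap `(x,w)` is good.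
PROOF. `σ = 1`: `StmtGapTrans`; for consecutive `i, j` with `x ≤ i`, `j ≤ w`, if the gap were not good
then `i ∈ Bd` by hypothesis, `i = x ∨ 0 < [z x, z i]`, and `0 < [z i, z w]` (because `z i < z j ≤ z w`,
`StmtBetween`), contradicting the last hypothesis.  `σ = -1`: apply `StmtGapTrans` to `(w,x)` and use
`Good_swap` at the end: for consecutive `i,j` (`0 < [z i, z j]`, `w ≤ i`, `j ≤ x` in the positive order),
`j` has the successor `i` in the negative order; if the gap were not good, `j ∈ Bd`, `j = x` or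
`0 < [z j, z x] = σ [z x, z j]`, and `0 < [z w, z j] = σ [z j, z w]`, a contradiction. -/
def StmtRunGood : Prop := ∀ (ι : Type) (S Bd : Finset ι) (A B C : Finset E) (e : ι → Finset E)
  (c c' : E) (u z : ι → E) (σ : ℝ) (x w : ι), 3 ≤ C.card → (σ = 1 ∨ σ = -1) →
  (∀ i ∈ S, HF A B C (e i) c c' (u i) (z i)) →
  (∀ i ∈ S, ∀ j ∈ S, det3 (c - c') (z i) (z j) = 0 → i = j) → x ∈ S → w ∈ S →
  0 < σ * det3 (c - c') (z x) (z w) →
  (∀ k ∈ S, (∃ j ∈ S, 0 < σ * det3 (c - c') (z k) (z j) ∧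
    (∀ i ∈ S, ¬ (0 < σ * det3 (c - c') (z k) (z i) ∧ 0 < σ * det3 (c - c') (z i) (z j))) ∧
    ¬ Good A B c (z k) (u k) (z j) (u j)) → k ∈ Bd) →
  (∀ k ∈ Bd, ¬ ((k = x ∨ 0 < σ * det3 (c - c') (z x) (z k)) ∧ 0 < σ * det3 (c - c') (z k) (z w))) →
  Good A B c (z x) (u x) (z w) (u w)

/-- Same class for flats: same `c`, same `c'`, same label. -/
def Same (c' : Fl → E) (lab : Fl → Fin 8) (x y : Fl) : Prop :=
  x.2.1 = y.2.1 ∧ c' x = c' y ∧ lab x = lab y

/-- The data of a finite set of main flats, with all the properties needed for the count. -/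
structure MD (A B C : Finset E) (X : Finset Fl) (u z y c' : Fl → E) (σ : Fl → ℝ)
    (lab : Fl → Fin 8) : Prop where
  gd : ∀ x ∈ X, GD A B C x (u x) (z x) (y x) (c' x) (c' x)
  sg : ∀ x ∈ X, σ x = 1 ∨ σ x = -1
  ty : ∀ x ∈ X, 0 < σ x * det3 (x.2.1 - c' x) (z x) (y x)
  sσ : ∀ x ∈ X, ∀ x' ∈ X, Same c' lab x x' → σ x = σ x'
  mA : ∀ x ∈ X, ∀ x' ∈ X, Same c' lab x x' → Miss A B x.2.1 (z x) (z x')
  mB : ∀ x ∈ X, ∀ x' ∈ X, Same c' lab x x' → Miss B A x.2.1 (y x) (y x')
  inj : ∀ x ∈ X, ∀ x' ∈ X, Same c' lab x x' → det3 (x.2.1 - c' x) (z x) (z x') = 0 → x = x'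
  ag : ∀ x ∈ X, ∀ x' ∈ X, Same c' lab x x' →
    (0 < σ x * det3 (x.2.1 - c' x) (z x) (z x') ↔ 0 < σ x * det3 (x.2.1 - c' x) (y x) (y x'))

/-- **StmtMDex.** Such data exist.
PROOF. Choose `u, z, y, c'` for the elements of `X`.  `σ x` is the sign of `det3 (z x) (y x) (u x)`, not
zero by `StmtNotPar`, equal to the sign of `det3 (x.2.1 - c' x) (z x) (y x)` (`HF.sign_iff`).  `lab x`
encodes the three truth values `σ x = 1`, `SideR A B C x.2.1 (c' x) (z x)`, `SideR B A C x.2.1 (c' x) (y x)`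
(for example `4 * [.] + 2 * [.] + [.]`).  `mA`, `mB`: `StmtSide` for `(A,B)` and for `(B,A)`.  `inj`: if
`det3 ω (z x) (z x') = 0` then by `StmtKeyFn` `z x' = k • z x`, `k > 0`; `StmtZDet`: `u x' = k' • u x`, and
`StmtFlatBasic` (last clause) gives `x' = x`.  `ag`, direction from left to right: `StmtOrderAgree`.
From right to left: `x ≠ x'` as `det3 ω (y x) (y x) = 0`, so `det3 ω (z x) (z x') ≠ 0` by `inj`; if
`σ x * det3 ω (z x) (z x') < 0` then `0 < σ * det3 ω (z x') (z x)` and `StmtOrderAgree` for `(x',x)` gives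
`0 < σ * det3 ω (y x') (y x)`, a contradiction. -/
def StmtMDex : Prop := ∀ (A B C : Finset E) (X : Finset Fl), 3 ≤ A.card → 3 ≤ B.card →
  3 ≤ C.card → (∀ x ∈ X, ∃ u z y c', GD A B C x u z y c' c') →
  ∃ u z y c' σ lab, MD A B C X u z y c' σ lab

/-- The flats whose gap to the next one in their class is not good for `A`. -/
noncomputable def BdA (A B : Finset E) (X : Finset Fl) (u z c' : Fl → E) (σ : Fl → ℝ)
    (lab : Fl → Fin 8) : Finset Fl :=
  @Finset.filter _ (fun x => ∃ x' ∈ X, Same c' lab x x' ∧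
    0 < σ x * det3 (x.2.1 - c' x) (z x) (z x') ∧
    (∀ k ∈ X, Same c' lab x k → ¬ (0 < σ x * det3 (x.2.1 - c' x) (z x) (z k) ∧
      0 < σ x * det3 (x.2.1 - c' x) (z k) (z x'))) ∧
    ¬ Good A B x.2.1 (z x) (u x) (z x') (u x')) (Classical.decPred _) X

/-- **StmtBadAB.** Both sets of bad gaps are small.
PROOF. `StmtBadCount` with `ι = Fl`, `Bd = BdA A B X u z c' σ lab`, `c x = x.2.1`, `e x = x.1`: the
hypotheses are `MD.gd` (`GD.hA`), `MD.sg`, `MD.sσ`, `MD.mA`, `MD.inj`.  For the second set: the same with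
`A` and `B` exchanged, `e x = x.2.2`, `z` replaced by `y` (`GD.hB`, `MD.mB`); injectivity for `y`: if
`det3 ω (y x) (y x') = 0` then by `MD.ag` (both for `(x,x')` and `(x',x)`) `det3 ω (z x) (z x') = 0`, so
`x = x'` by `MD.inj`. -/
def StmtBadAB : Prop := ∀ (A B C : Finset E) (X : Finset Fl) (u z y c' : Fl → E) (σ : Fl → ℝ)
  (lab : Fl → Fin 8), 3 ≤ A.card → 3 ≤ B.card → 3 ≤ C.card → MD A B C X u z y c' σ lab →
  (BdA A B X u z c' σ lab).card ≤ 8 * spSum A C ∧ (BdA B A X u y c' σ lab).card ≤ 8 * spSum B C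

/-- The planes of `e` (of `x`) and of `f` (of `x'`) meet in `R_c`. -/
def Crs (A B : Finset E) (x x' : Fl) : Prop := ∃ r, InR A B x.2.1 r ∧ Perp x.1 r ∧ Perp x'.2.2 r

/-- **StmtCrossTri.** Of three flats of a run, two neighbours cross.
PROOF. Suppose neither `Crs A B x x'` nor `Crs A B x' x''`.  All three have the same `c`, `c'`, `σ`.  Let `S` be
the set of the members of `X` in this class.  `StmtRunGood` for `(B,A)`, `z := y`, `e := (·).2.2`, applied
to `(x,x')`, gives `Good B A c (y x) (u x) (y x') (u x')`: the hypotheses in terms of `y` follow from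
those in terms of `z` by `MD.ag` (a `k ∈ S` with a successor in the `y`-order and a gap that is not good is
in `BdA B A X u y c' σ lab`; and no element of that set lies in `[x,x')` in the `y`-order, by the last
hypothesis here and transitivity `StmtBetween`).  In the same way `StmtRunGood` for `(A,B)` applied to
`(x',x'')` gives `Good A B c (z x') (u x') (z x'') (u x'')`.  With `o s t = σ * det3 ω s t` we have
`z x < z x' < z x''`, `y x < y x' < y x''` (`MD.ag`), `z x < y x` etc. (`MD.ty`), hence also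
`z x' < y x''`, and `StmtBetween` (for `σ = -1` with the order reversed) gives the three positive
combinations in `StmtKey`: `y x` between `z x` and `y x'`; `z x''` between `y x''` and `z x'`; `z x'`
between `z x` and `y x''`.  `StmtKey` gives the contradiction. -/
def StmtCrossTri : Prop := ∀ (A B C : Finset E) (X : Finset Fl) (u z y c' : Fl → E) (σ : Fl → ℝ)
  (lab : Fl → Fin 8) (x x' x'' : Fl), 3 ≤ A.card → 3 ≤ B.card → 3 ≤ C.card →
  MD A B C X u z y c' σ lab → x ∈ X → x' ∈ X → x'' ∈ X → Same c' lab x x' → Same c' lab x' x'' →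
  0 < σ x * det3 (x.2.1 - c' x) (z x) (z x') → 0 < σ x * det3 (x.2.1 - c' x) (z x') (z x'') →
  (∀ k ∈ X, (k ∈ BdA A B X u z c' σ lab ∨ k ∈ BdA B A X u y c' σ lab) → Same c' lab x k →
    (k = x ∨ 0 < σ x * det3 (x.2.1 - c' x) (z x) (z k)) →
    ¬ 0 < σ x * det3 (x.2.1 - c' x) (z k) (z x'')) →
  Crs A B x x' ∨ Crs A B x' x''

/-- **StmtMainCount.** The bound for main flats.
PROOF. Take data by `StmtMDex`.  Use `StmtAbstract` with `ι = Fl`, `κ = E × E × Fin 8`,
`cls x = (x.2.1, c' x, lab x)`, `Bd = BdA A B X u z c' σ lab ∪ BdA B A X u y c' σ lab`, `cross = Crs A B`,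
`key x = σ x * κ(z x)` where `κ` is a key function for `(x.2.1, c' x)` (`StmtKeyFn`, chosen for every
pair).  For `x, x'` in the same class `key x < key x' ↔ 0 < σ x * det3 ω (z x) (z x')`, and if the keys
agree then `det3 ω (z x) (z x') = 0`, so `x = x'` (`MD.inj`).  The condition on triples is
`StmtCrossTri`.  `P` is the set of the pairs `(x,x')` in `X × X` of the same class with
`key x < key x'` and `Crs A B x x'`; `StmtMainMult` gives `|P| ≤ 4 |Ed A| |Ed B|`: let `t = r` be the common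
point in `R_c`; `Mx A r = x.1` and `Mx B r = x'.2.2` (`HF.full`, `inR_comm`); not parallel:
`v = z x` is orthogonal to `x.1` and not to `x'.2.2`, because `σ det3 ω (z x) (y x') > 0` (by
`z x < y x < y x'`, `StmtBetween`) and `Perp x'.2.2 v ↔ det3 (y x') v (u x') = 0` (`HF.perp_iff`,
`HF.sign_iff`).  `|X.image cls| ≤ 16 |Ed C|`: `{c,c'} = Mx C (z x) ∈ Ed C`; an edge has two orders; eight
labels.  `|Bd| ≤ 8 spSum A C + 8 spSum B C` by `StmtBadAB`. -/
def StmtMainCount : Prop := ∀ (A B C : Finset E) (X : Finset Fl), 3 ≤ A.card → 3 ≤ B.card →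
  3 ≤ C.card → (∀ x ∈ X, ∃ u z y c', GD A B C x u z y c' c') →
  X.card ^ 2 ≤ 8 * (16 * (Ed C).card + (8 * spSum A C + 8 * spSum B C)) *
    (4 * ((Ed A).card * (Ed B).card) + X.card)

/-- **StmtOutCount.** The bound for out flats.
PROOF. Choose `u, z, y, c₁, c₂` for the elements of `X`.  `σ x = 1` if `det3 (z x) (y x) (u x) > 0` and
`σ x = -1` otherwise (the determinant is not zero by `StmtNotPar`).  Use `StmtAbstract` with `Bd = ∅`,
`cross` always true, `κ = E × E × Bool`, `cls x = (x.2.1, c₁ x, [σ x = 1])`, `key x = σ x * κ(z x)` with a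
key function for `(x.2.1, c₁ x)` (`StmtKeyFn`).  If the keys agree in a class, `z x' = k • z x`, `k > 0`, so
`u x' = k' • u x` (`StmtZDet`) and `x = x'` (`StmtFlatBasic`).  `P` is the set of pairs of `X × X` in the
same class with `key x < key x'`; `|P| ≤ 4 |Ed A| |Ed B|` by `StmtOutMult`: `key x < key x'` means that
`det3 (z x) (z x') (u x)` has the sign `σ x` (`HF.sign_iff`), so
`0 < det3 (z x) (z x') (u x) * det3 (z x) (y x) (u x)`, and `StmtOutPair` gives the four coefficients;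
`¬ Perp x'.1 (u x)` because `det3 (z x') (u x) (u x') ≠ 0` by `StmtOrder` (for `(x,x')` or `(x',x)`) and
`HF.perp_iff`.  `|X.image cls| ≤ 4 |Ed C|`. -/
def StmtOutCount : Prop := ∀ (A B C : Finset E) (X : Finset Fl), 3 ≤ A.card → 3 ≤ B.card →
  3 ≤ C.card → (∀ x ∈ X, ∃ u z y c₁ c₂, GD A B C x u z y c₁ c₂ ∧ c₂ ≠ c₁) →
  X.card ^ 2 ≤ 8 * (16 * (Ed C).card) * (4 * ((Ed A).card * (Ed B).card) + X.card)

/-- **StmtSmall.** The bound if one of the sets has at most two elements.
PROOF. `StmtTwoPer`: if `3 ≤ |A|` or `2 ≤ |C|` then `|flats A B C| ≤ 2 |Ed A| |C|` (the pair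
`(x.1, x.2.1)` is in `Ed A ×ˢ C`).  By the symmetry `(e,c,f) ↦ (f,c,e)` between `flats A B C` and
`flats B A C`: if `3 ≤ |B|` or `2 ≤ |C|` then `|flats A B C| ≤ 2 |Ed B| |C|`.  `|Ed A| ≤ 12 |A|` by
`StmtEdgeLin`, and `|Ed A| ≤ 1` if `|A| ≤ 2` (an edge has two elements, so it is `A`).  Cases: `|C| = 0`: no
flats.  `|C| = 1`: if `|A| ≥ 3` or `|B| ≥ 3` use the bounds, otherwise there is at most one flat.
`|C| = 2`: `|flats| ≤ 4 |Ed A|`.  `|C| ≥ 3`: then `|A| ≤ 2` or `|B| ≤ 2`, `|flats| ≤ 2 |C|`. -/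
def StmtSmall : Prop := ∀ A B C : Finset E, ConvPos A → ConvPos B →
  (A.card ≤ 2 ∨ B.card ≤ 2 ∨ C.card ≤ 2) → (flats A B C).card ≤ 48 * (A.card + B.card + C.card)

/-- **StmtFlatsBound.** The main theorem for flats.
PROOF. If one of the sets has at most two elements: `StmtSmall`, and `(48 n)^2 ≤ 48^2 n^3`.
Otherwise `StmtDropAll`: `|flats| ≤ |GF| + 8 (spSum A C + spSum B C)`, `spSum ≤ K₁ n`
(`StmtSpecialBound` for `(A,C)` and `(B,C)`).  `GF = X₁ ∪ X₂`, the main and the out flats.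
`StmtMainCount` and `StmtOutCount` with `|Ed| ≤ 12 n` (`StmtEdgeLin`) give
`|X_i|^2 ≤ K₂ n (K₃ n^2 + |X_i|)`.  If `|X_i| ≤ K₃ n^2` this is at most `2 K₂ K₃ n^3`; otherwise
`|X_i|^2 ≤ 2 K₂ n |X_i|`, so `|X_i| ≤ 2 K₂ n` and `|X_i|^2 ≤ 4 K₂^2 n^2`.  Sum up. -/
def StmtFlatsBound : Prop := ∃ K : ℕ, ∀ A B C : Finset E, ConvPos A → ConvPos B → ConvPos C →
  (∀ c ∈ C, ∃ r, InR A B c r) → (flats A B C).card ^ 2 ≤ K * (A.card + B.card + C.card) ^ 3

end TPH
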