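import Pool.Agent.TPH.St5

/-!
# Three parallel hyperplanes: alternations, statements of the counting part

See the header of `St5`.  The statements here are variations of the statements of `St4`; the Lean proofs
of those (files `MainMult.lean`, `OutMult.lean`, `MDex.lean`, `BadAB.lean`, `CrossTri.lean`, `MainCount.lean`,
`OutCount.lean`, `Small.lean`, `FlatsBound.lean`) are good models.  `AGD A B C x u v z y c₁ c₂` are the data
of a good alternation `x = ((a,e),(b,f),c)`: ends `u` (position of `e`) and `v` (position of `f`), exits `z`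
(for `A`) and `y` (for `B`).  It is called main if `c₁ = c₂`, and out otherwise.
-/

namespace TPH

/-- **StmtAltMult.** Each pair `(e,f)` is the crossing of at most 16 pairs of alternations.
PROOF. As for `StmtMainMult` (file `MainMult.lean`) it is enough to bound, for fixed `e`, `f`, the number of the
`p ∈ P` with `p.1.1.2 = e` and `p.2.2.1.2 = f`.  The vector `t` is determined by `e`, `f` up to positive
multiples (it is orthogonal to both, they are not parallel, and `Mx A t ≠ A`), so all the conditions hold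
for one fixed `t₀`.  Let `x = p.1`, with ends `u, v` (`alts`); `u` is a position of `e` (`StmtAltBasic`), `t₀`
is not a multiple of `u` (field `out`), both are orthogonal to `a - a'` (`e = {a,a'}`), so
`det3 (a-a') t₀ u ≠ 0`, and its sign determines `u` up to positive multiples (`StmtPosFirstExit`); given `u`,
`x` is determined by `x.1.1 ∈ e` (`StmtAltDet`, first claim).  So there are at most four possible `x`.  In the
same way, with `A` and `B` exchanged (`v` is a position of `f`, second claim of `StmtAltDet`, `y.2.1.1 ∈ f`),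
there are at most four possible `y = p.2`. -/
def StmtAltMult : Prop := ∀ (A B C : Finset E) (P : Finset (Al × Al)), 3 ≤ A.card → 3 ≤ B.card →
  (∀ p ∈ P, p.1 ∈ alts A B C ∧ p.2 ∈ alts A B C ∧ ∃ t, InR A B p.1.2.2 t ∧ InR A B p.2.2.2 t ∧
    Mx A t = p.1.1.2 ∧ Mx B t = p.2.2.1.2 ∧ ∃ v, Perp p.1.1.2 v ∧ ¬ Perp p.2.2.1.2 v) →
  P.card ≤ 16 * ((Ed A).card * (Ed B).card)

/-- **StmtAltOutMult.** The same for the crossings of out alternations.
PROOF. As for `StmtOutMult` (file `OutMult.lean`).  Put `t = α v₁ + β y₁`.  `Mx B t = p.1.2.1.2 =: f`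
(`HF.Mx_A_comb` for the half flat of `B` of `p.1`), `Mx A t = p.2.1.2 =: e`, `Mx C t = {c}` with
`c = p.1.2.2 = p.2.2.2`.  `e` and `f` are not parallel, because `v₁` is orthogonal to `f` and not to `e`.  For
fixed `e, f` the vector `t` is determined up to positive multiples, hence `c` is determined.  `x = p.1`: the
half flats `HF B A C f c _ v₁ y₁` with `t₀` a positive combination of `v₁` and `y₁`;
`det3 (b-b') t₀ v₁ ≠ 0` (`HF.cr_ne`), its sign determines `v₁` up to positive multiples by `StmtExit2`, and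
then `x` is determined by `x.2.1.1 ∈ f` (`StmtAltDet`, second claim).  The same for `y = p.2` with
`HF A B C e c _ u₂ z₂` and `y.1.1 ∈ e`. -/
def StmtAltOutMult : Prop := ∀ (A B C : Finset E) (P : Finset (Al × Al)), 3 ≤ A.card →
  3 ≤ B.card →
  (∀ p ∈ P, ∃ (u₁ v₁ z₁ y₁ c₁ d₁ u₂ v₂ z₂ y₂ c₂ d₂ : E) (α β α' β' : ℝ),
    AGD A B C p.1 u₁ v₁ z₁ y₁ c₁ d₁ ∧ AGD A B C p.2 u₂ v₂ z₂ y₂ c₂ d₂ ∧ p.1.2.2 = p.2.2.2 ∧
    0 < α ∧ 0 < β ∧ 0 < α' ∧ 0 < β' ∧ α • v₁ + β • y₁ = α' • u₂ + β' • z₂ ∧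
    ¬ Perp p.2.1.2 v₁) →
  P.card ≤ 16 * ((Ed A).card * (Ed B).card)

/-- Same class for alternations: same `c`, same `c'`, same label. -/
def ASame (c' : Al → E) (lab : Al → Fin 8) (x y : Al) : Prop :=
  x.2.2 = y.2.2 ∧ c' x = c' y ∧ lab x = lab y

/-- The data of a finite set of main alternations, with all the properties needed for the count. -/
structure AMD (A B C : Finset E) (X : Finset Al) (u v z y c' : Al → E) (σ : ℝ)
    (lab : Al → Fin 8) : Prop where
  gd : ∀ x ∈ X, AGD A B C x (u x) (v x) (z x) (y x) (c' x) (c' x)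
  sg : σ = 1 ∨ σ = -1
  ty : ∀ x ∈ X, 0 ≤ σ * det3 (x.2.2 - c' x) (z x) (y x)
  po : ∀ x ∈ X, ∀ x' ∈ X, ASame c' lab x x' →
    0 < det3 (z x) (v x) (u x) * det3 (z x') (v x') (u x')
  mA : ∀ x ∈ X, ∀ x' ∈ X, ASame c' lab x x' → Miss A B x.2.2 (z x) (z x')
  mB : ∀ x ∈ X, ∀ x' ∈ X, ASame c' lab x x' → Miss B A x.2.2 (y x) (y x')
  inj : ∀ x ∈ X, ∀ x' ∈ X, ASame c' lab x x' → det3 (x.2.2 - c' x) (z x) (z x') = 0 → x = x'
  ag : ∀ x ∈ X, ∀ x' ∈ X, ASame c' lab x x' →
    (0 < σ * det3 (x.2.2 - c' x) (z x) (z x') ↔ 0 < σ * det3 (x.2.2 - c' x) (y x) (y x'))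

/-- **StmtAltMDex.** Such data exist.
PROOF. Choose `u, v, z, y, c'` for the elements of `X`.  `lab x` encodes the three truth values
`0 < det3 (z x) (v x) (u x)`, `SideR A B C x.2.2 (c' x) (z x)`, `SideR B A C x.2.2 (c' x) (y x)` (for example
`4 * [.] + 2 * [.] + [.]`).  `po`: the determinants are not zero (`StmtAltSigns`) and have the same sign.
`mA`, `mB`: `StmtSide` for `(A,B)` and for `(B,A)`.  `inj`: if `det3 ω (z x) (z x') = 0` then
`z x' = k • z x`, `k > 0` (`StmtArc`), `u x' = k' • u x`, `k' > 0` (`StmtZDet`), so `x.1.2 = x'.1.2 = e`.  If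
`x.1.1 ≠ x'.1.1` then `e = {x.1.1, x'.1.1}` and `ip (x.1.1 - x'.1.1)` is positive at `v x` and negative at
`v x'` (`StmtAltBasic`); it vanishes on the plane of `e`, so it is `l * det3 (z x) · (u x)`
(`par_cr_of_ip`), and `det3 (z x') · (u x') = k k' det3 (z x) · (u x)`; this contradicts `po`.  So
`x.1.1 = x'.1.1` and `StmtAltDet` gives `x' = x`.  `ag`, from left to right: `StmtAltOrder`.  From right to
left: `x ≠ x'` as `det3 ω (y x) (y x) = 0`, so `det3 ω (z x) (z x') ≠ 0` by `inj`; if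
`σ * det3 ω (z x) (z x') < 0` then `0 < σ * det3 ω (z x') (z x)` and `StmtAltOrder` for `(x',x)` gives
`0 < σ * det3 ω (y x') (y x)`, a contradiction. -/
def StmtAltMDex : Prop := ∀ (A B C : Finset E) (X : Finset Al) (σ : ℝ), 3 ≤ A.card →
  3 ≤ B.card → 3 ≤ C.card → (σ = 1 ∨ σ = -1) →
  (∀ x ∈ X, ∃ u v z y c', AGD A B C x u v z y c' c' ∧ 0 ≤ σ * det3 (x.2.2 - c') z y) →
  ∃ u v z y c' lab, AMD A B C X u v z y c' σ lab

/-- The alternations whose gap to the next one in their class is not good for `A`. -/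
noncomputable def ABd (A B : Finset E) (X : Finset Al) (u z c' : Al → E) (σ : ℝ)
    (lab : Al → Fin 8) : Finset Al :=
  @Finset.filter _ (fun x => ∃ x' ∈ X, ASame c' lab x x' ∧
    0 < σ * det3 (x.2.2 - c' x) (z x) (z x') ∧
    (∀ k ∈ X, ASame c' lab x k → ¬ (0 < σ * det3 (x.2.2 - c' x) (z x) (z k) ∧
      0 < σ * det3 (x.2.2 - c' x) (z k) (z x'))) ∧
    ¬ Good A B x.2.2 (z x) (u x) (z x') (u x')) (Classical.decPred _) X

/-- **StmtAltBadAB.** Both sets of bad gaps are small.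
PROOF. `StmtBadCount` with `ι = Al`, `Bd = ABd A B X u z c' σ lab`, `c x = x.2.2`, `e x = x.1.2`, the constant
function `σ`: the hypotheses are `AMD.gd` (`AGD.hA`), `AMD.sg`, `AMD.mA`, `AMD.inj` (`SameC` unfolds to
`ASame`).  For the second set: the same with `A` and `B` exchanged, `e x = x.2.1.2`, `u` replaced by `v`, `z`
replaced by `y` (`AGD.hB`, `AMD.mB`); injectivity for `y`: if `det3 ω (y x) (y x') = 0` then by `AMD.ag` (both
for `(x,x')` and `(x',x)`) `det3 ω (z x) (z x') = 0`, so `x = x'` by `AMD.inj`.  See `BadAB.lean`. -/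
def StmtAltBadAB : Prop := ∀ (A B C : Finset E) (X : Finset Al) (u v z y c' : Al → E) (σ : ℝ)
  (lab : Al → Fin 8), 3 ≤ A.card → 3 ≤ B.card → 3 ≤ C.card → AMD A B C X u v z y c' σ lab →
  (ABd A B X u z c' σ lab).card ≤ 8 * spSum A C ∧ (ABd B A X v y c' σ lab).card ≤ 8 * spSum B C

/-- **StmtAltCrossTri.** Of three alternations of a run, two neighbours cross.
PROOF. All three have the same `c`, `c'`.  As in the proof of `StmtCrossTri` (file `CrossTri.lean`), let `S` be
the set of the members of `X` in this class; `StmtRunGood` for `(A,B)` (`z`, `u`, `e := (·).1.2`) and for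
`(B,A)` (`z := y`, `u := v`, `e := (·).2.1.2`), applied to `(x,x')` and to `(x',x'')`, shows that the four gaps
are good: `Good A B c (z x) (u x) (z x') (u x')`, `Good B A c (y x) (v x) (y x') (v x')`, and the same for
`(x',x'')` (no element of the two bad sets lies in `[x,x')` or in `[x',x'')`, because it would lie in `[x,x'')`,
by transitivity).  `AMD.ag` translates between the two orders.  By `StmtAltSigns` for `x'` the functional
`T = Tv x'` is negative at `z x'` and `y x'`, so `StmtAltThree` gives two cases.  If `ip T` is negative at `z x`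
and `y x`: `StmtAltKey` for `(x,x')`, first alternative.  If it is negative at `z x''` and `y x''`:
`StmtAltKey` for `(x',x'')`, second alternative. -/
def StmtAltCrossTri : Prop := ∀ (A B C : Finset E) (X : Finset Al) (u v z y c' : Al → E) (σ : ℝ)
  (lab : Al → Fin 8) (x x' x'' : Al), 3 ≤ A.card → 3 ≤ B.card → 3 ≤ C.card →
  AMD A B C X u v z y c' σ lab → x ∈ X → x' ∈ X → x'' ∈ X → ASame c' lab x x' →
  ASame c' lab x' x'' →
  0 < σ * det3 (x.2.2 - c' x) (z x) (z x') → 0 < σ * det3 (x.2.2 - c' x) (z x') (z x'') →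
  (∀ k ∈ X, (k ∈ ABd A B X u z c' σ lab ∨ k ∈ ABd B A X v y c' σ lab) → ASame c' lab x k →
    (k = x ∨ 0 < σ * det3 (x.2.2 - c' x) (z x) (z k)) →
    ¬ 0 < σ * det3 (x.2.2 - c' x) (z k) (z x'')) →
  (ACrs A B x x' ∨ ACrs A B x' x) ∨ (ACrs A B x' x'' ∨ ACrs A B x'' x')

/-- **StmtAltMain.** The bound for main alternations.
PROOF. As for `StmtMainCount` (file `MainCount.lean`).  Take data by `StmtAltMDex`.  Use `StmtAbstract` with
`ι = Al`, `κ = E × E × Fin 8`, `cls x = (x.2.2, c' x, lab x)`,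
`Bd = ABd A B X u z c' σ lab ∪ ABd B A X v y c' σ lab`, `cross x y = ACrs A B x y ∨ ACrs A B y x`,
`key x = σ * κ(z x)` where `κ` is a key function for `(x.2.2, c' x)` (`StmtKeyFn`, chosen for every pair).
The condition on triples is `StmtAltCrossTri`.  `P` is the set of the pairs `(x,x')` in `X × X` of the same
class with `key x < key x'` and `cross x x'`.  It is the union of `P₁` (those with `ACrs A B x x'`) and `P₂`
(those with `ACrs A B x' x`).  `|P₁| ≤ 16 |Ed A| |Ed B|` by `StmtAltMult`: let `r` be the common point in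
`R_c`; `Mx A r = x.1.2`, `Mx B r = x'.2.1.2` (`HF.full`, `inR_comm`); not parallel: `u x` is orthogonal to
`x.1.2` and not to `x'.2.1.2`, since `det3 (y x') (u x) (v x') ≠ 0` by `StmtAltSide` for `B, A, C` and `asw x`
(`x.2.1.2 ≠ x'.2.1.2`, otherwise `v x` is a combination of `y x` and `y x'`, which are independent by
`AMD.ag`).  For `P₂` apply `StmtAltMult` to the set of the pairs `(x',x)`: `Mx A r = x'.1.2`,
`Mx B r = x.2.1.2`, and `u x'` is orthogonal to `x'.1.2` and not to `x.2.1.2` (the same argument).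
`|X.image cls| ≤ 16 |Ed C|`, `|Bd| ≤ 8 spSum A C + 8 spSum B C` by `StmtAltBadAB`. -/
def StmtAltMain : Prop := ∀ (A B C : Finset E) (X : Finset Al) (σ : ℝ), 3 ≤ A.card →
  3 ≤ B.card → 3 ≤ C.card → (σ = 1 ∨ σ = -1) →
  (∀ x ∈ X, ∃ u v z y c', AGD A B C x u v z y c' c' ∧ 0 ≤ σ * det3 (x.2.2 - c') z y) →
  X.card ^ 2 ≤ 8 * (16 * (Ed C).card + (8 * spSum A C + 8 * spSum B C)) *
    (32 * ((Ed A).card * (Ed B).card) + X.card)

/-- **StmtAltOut.** The bound for out alternations.
PROOF. As for `StmtOutCount` (file `OutCount.lean`).  Choose `u, v, z, y, c₁, c₂` for the elements of `X`.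
`σ x = 1` if `det3 (z x) (y x) (u x) > 0` and `σ x = -1` otherwise (the determinant is not zero by
`StmtAltNe`), `po x` is the truth value of `det3 (z x) (v x) (u x) > 0` (not zero by `StmtAltSigns`).  Use
`StmtAbstract` with `Bd = ∅`, `cross` always true, `κ = E × E × Bool × Bool`,
`cls x = (x.2.2, c₁ x, [σ x = 1], po x)`, `key x = σ x * κ(z x)` with a key function for `(x.2.2, c₁ x)`
(`StmtKeyFn`).  If the keys agree in a class, `z x' = k • z x`, `k > 0`, so `u x' = k' • u x` (`StmtZDet`), and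
as in the proof of `inj` in `StmtAltMDex` `x.1.1 = x'.1.1` and `x' = x` (`StmtAltDet`).  `P` is the set of pairs
of `X × X` in the same class with `key x < key x'`; `|P| ≤ 16 |Ed A| |Ed B|` by `StmtAltOutMult`:
`key x < key x'` means that `det3 (z x) (z x') (u x)` has the sign `σ x` (`HF.sign_iff`), so
`0 < det3 (z x) (z x') (u x) * det3 (z x) (y x) (u x)`, and `StmtAltOutPair` gives the four coefficients;
`¬ Perp x'.1.2 (v x)` because `det3 (z x') (v x) (u x') ≠ 0` by `StmtAltSide` (`x.1.2 ≠ x'.1.2`, otherwise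
`det3 (z x) (z x') (u x) = 0`) and `HF.perp_iff`.  `|X.image cls| ≤ 8 |Ed C|`. -/
def StmtAltOut : Prop := ∀ (A B C : Finset E) (X : Finset Al), 3 ≤ A.card → 3 ≤ B.card →
  3 ≤ C.card → (∀ x ∈ X, ∃ u v z y c₁ c₂, AGD A B C x u v z y c₁ c₂ ∧ c₂ ≠ c₁) →
  X.card ^ 2 ≤ 8 * (16 * (Ed C).card) * (16 * ((Ed A).card * (Ed B).card) + X.card)

/-- **StmtAltSmall.** The bound if one of the sets has at most two elements.
PROOF. `StmtAltPer`: if `3 ≤ |A|` or `2 ≤ |C|` then `|alts A B C| ≤ 4 |Ed A| |C|` (the pair `(x.1.2, x.2.2)` is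
in `Ed A ×ˢ C`).  By the symmetry `asw` between `alts A B C` and `alts B A C` (`StmtAltBasic`, `inR_comm`): if
`3 ≤ |B|` or `2 ≤ |C|` then `|alts A B C| ≤ 4 |Ed B| |C|`.  `|Ed A| ≤ 12 |A|` by `StmtEdgeLin` (closed theorem
`TPH.Closed.edge_lin`), and `|Ed A| ≤ 1` if `|A| ≤ 2` (an edge has two elements, so it is `A`).  Cases:
`|C| = 0`: none.  `|C| = 1`: if `|A| ≥ 3` or `|B| ≥ 3` use the bounds, otherwise `x.1.2 = A`, `x.2.1.2 = B` and
there are at most four.  `|C| = 2`: at most `8 |Ed A|`.  `|C| ≥ 3`: then `|A| ≤ 2` or `|B| ≤ 2`, at most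
`4 |C|`.  See `Small.lean`. -/
def StmtAltSmall : Prop := ∀ A B C : Finset E, ConvPos A → ConvPos B →
  (∀ c ∈ C, ∃ r, InR A B c r) → (A.card ≤ 2 ∨ B.card ≤ 2 ∨ C.card ≤ 2) →
  (alts A B C).card ≤ 96 * (A.card + B.card + C.card)

/-- **StmtAltBound.** The main theorem for alternations.
PROOF. If one of the sets has at most two elements: `StmtAltSmall`, and `(96 n)^2 ≤ 96^2 n^3`.
Otherwise `StmtAltDrop`: `|alts| ≤ |AGF| + 14 (spSum A C + spSum B C)`, `spSum ≤ K₁ n`
(`TPH.Closed.c_t_SpecialBound` for `(A,C)` and `(B,C)`).  `AGF = X₁ ∪ X₂ ∪ X₃`: `X₃` are the out alternations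
(those with data `c₂ ≠ c₁`), `X₁` and `X₂` the main ones with data `0 ≤ det3 ω z y`, respectively
`0 ≤ - det3 ω z y`.  `StmtAltMain` (`σ = 1`, `σ = -1`) and `StmtAltOut` with `|Ed| ≤ 12 n`
(`TPH.Closed.edge_lin`) give `|X_i|^2 ≤ K₂ n (K₃ n^2 + |X_i|)`.  If `|X_i| ≤ K₃ n^2` this is at most
`2 K₂ K₃ n^3`; otherwise `|X_i|^2 ≤ 2 K₂ n |X_i|`, so `|X_i| ≤ 2 K₂ n` and `|X_i|^2 ≤ 4 K₂^2 n^2`.  Sum up.
See `FlatsBound.lean`. -/
def StmtAltBound : Prop := ∃ K : ℕ, ∀ A B C : Finset E, ConvPos A → ConvPos B → ConvPos C →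
  (∀ c ∈ C, ∃ r, InR A B c r) → (alts A B C).card ^ 2 ≤ K * (A.card + B.card + C.card) ^ 3

end TPH
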