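import Pool.Agent.TPH.St6

/-!
# Parallel hyperplanes: events on the boundary of the cone of a vertex of a middle layer

`K_c` is `InRc A B c`, `R_c` is `InR A B c`; a tie vector is in `K_c` and not in `R_c`.  We fix a vector
`r ∈ R_c` and look at the tie vectors in angular order around `r`: for `det3 r w w' > 0` the vector `w'`
comes after `w`.  An event is a tie vector where something special happens (end of an alternation, a
flat, a big face of one of the three sets, an exit from the cell of `c`).  The main point (`StmtMulti`): if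
three sets are given which all have ties in a finite set `W` of directions, such that of every three
members of `W` the maximisers of `A` and of `B` both change for one of several pairs `(A,B)`, then there
are at most about as many directions in `W` as there are events.
-/

namespace TPH

/-- `w` is in the closed cone `K_c` and not in the open cone `R_c`. -/
def Tie (A B : Finset E) (c w : E) : Prop := InRc A B c w ∧ ¬ InR A B c w

/-- `q` is in the closed sector from `w₁` to `w₂`, seen from `r`. -/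
def InSec (r w₁ w₂ q : E) : Prop :=
  ∃ α β τ : ℝ, 0 ≤ α ∧ 0 ≤ β ∧ 0 < α + β ∧ q = α • w₁ + β • w₂ - τ • r

/-- **StmtTieBasic.** First facts about ties.
PROOF. If `A` or `B` is empty then `InR A B c w` holds for all `w`.  By `¬ InR` there are `a₀ ∈ A`, `b₀ ∈ B` with
`2 ip c w ≤ ip a₀ w + ip b₀ w`; for `a ∈ Mx A w`, `b ∈ Mx B w` the sum `ip a w + ip b w` is at least this, and at
most `2 ip c w` because of `InRc`.  So there is equality, and then `InR A B c (κ • w)` is false for every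
real `κ` (the two sides are equal for `a`, `b`).  Positive multiples: `InRc.smul`.  Symmetry: `inR_comm`,
`inRc_comm`.  If `InRc A B c w` and there is equality for some `a ∈ A`, `b ∈ B` then it is a tie.  Last
claim: if `ρ > 0` then `w + ρ r ∈ R_c` (`InR.comb`), if `ρ < 0` then `w = (w + ρ r) + (-ρ) r ∈ R_c`. -/
def StmtTieBasic : Prop := ∀ (A B : Finset E) (c w : E),
  (Tie A B c w → A.Nonempty ∧ B.Nonempty ∧
    (∀ a ∈ Mx A w, ∀ b ∈ Mx B w, ip a w + ip b w = 2 * ip c w) ∧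
    (∀ κ : ℝ, ¬ InR A B c (κ • w)) ∧ (∀ κ : ℝ, 0 < κ → Tie A B c (κ • w)) ∧ Tie B A c w ∧
    (∀ (r : E) (ρ : ℝ), InR A B c r → Tie A B c (w + ρ • r) → ρ = 0)) ∧
  (InRc A B c w → ∀ a ∈ A, ∀ b ∈ B, ip a w + ip b w = 2 * ip c w → Tie A B c w)

/-- The path of ties from `w₁` to `w₂` seen from `r`. -/
structure TPath (A B : Finset E) (c r w₁ w₂ : E) (q : ℝ → E) (τ : ℝ → ℝ) : Prop where
  eq : ∀ s : ℝ, q s = (1 - s) • w₁ + s • w₂ - τ s • r
  tie : ∀ s : ℝ, 0 ≤ s → s ≤ 1 → Tie A B c (q s)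
  cont : Continuous τ
  zero : q 0 = w₁
  one : q 1 = w₂
  all : ∀ v, Tie A B c v → InSec r w₁ w₂ v → ∃ s κ : ℝ, 0 ≤ s ∧ s ≤ 1 ∧ 0 < κ ∧ v = κ • q s

/-- **StmtTPath.** The path exists.
PROOF. `A` and `B` are not empty (`StmtTieBasic`).  For `(a,b) ∈ A × B` put
`T_ab w = 2 ip c w - ip a w - ip b w`; `T_ab r > 0`.  With `p s = (1 - s) • w₁ + s • w₂` let `τ s` be the minimum
over `(a,b) ∈ A ×ˢ B` of `T_ab (p s) / T_ab r` (`Finset.inf'`; a minimum of finitely many affine functions, so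
continuous), and `q s = p s - τ s • r`.  Then `T_ab (q s) = T_ab (p s) - τ s * T_ab r ≥ 0` with equality for
some `(a,b)`, so `q s` is a tie (for all real `s`; `StmtTieBasic`).  `τ 0 = 0`: `q 0 = w₁ + (-τ 0) • r` is a tie, so
`τ 0 = 0` by the last claim about ties in `StmtTieBasic`; in the same way `τ 1 = 0`.  If
`v = α • w₁ + β • w₂ - τ' • r` is a tie, let `κ = α + β > 0`, `s = β / κ`; `(1/κ) • v = p s - (τ'/κ) • r` and `q s`
are ties which differ by a multiple of `r`, so they are equal. -/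
def StmtTPath : Prop := ∀ (A B : Finset E) (c r w₁ w₂ : E), InR A B c r → Tie A B c w₁ →
  Tie A B c w₂ → ∃ q τ, TPath A B c r w₁ w₂ q τ

/-- **StmtTieMid.** If the maximisers on `A` change, then somewhere two of them tie.
PROOF. Take the path (`StmtTPath`), `v = κ • q s`, `v' = κ' • q s'`; `Mx A (q s) = Mx A v ≠ Mx A v' = Mx A (q s')`
(`Mx_smul`), so `s ≠ s'`, say `s < s'`.  Suppose that `Mx A (q t)` has at most one, hence (`A` is not empty)
exactly one element for all `t ∈ [s,s']`.  For `a ∈ A` the set of the `t ∈ [s,s']` with `a ∈ Mx A (q t)` is closed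
(`q` is continuous, weak inequalities).  These finitely many closed sets are disjoint and cover the
connected set `[s,s']`, so one of them is everything (`isPreconnected_Icc`,
`isPreconnected_closed_iff` with the set of `a` and the union of the others), contradiction.  The point
`q t` is in the sector (`α = 1 - t`, `β = t`). -/
def StmtTieMid : Prop := ∀ (A B : Finset E) (c r w₁ w₂ v v' : E), InR A B c r → Tie A B c w₁ →
  Tie A B c w₂ → Tie A B c v → InSec r w₁ w₂ v → Tie A B c v' → InSec r w₁ w₂ v' →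
  Mx A v ≠ Mx A v' → ∃ q, Tie A B c q ∧ InSec r w₁ w₂ q ∧ 2 ≤ (Mx A q).card

/-- **StmtEvent.** If in the sector from `w₁` to `w₂` two points of `A` tie somewhere, and two points of `B`
tie somewhere, then there is an event in this sector.
PROOF. Take the path (`StmtTPath`): `qA = κ • q s_A`, `qB = κ' • q s_B`.  All sets
`{t ∈ [0,1] | a ∈ Mx A (q t)}`, and the same for `B` and `C`, are closed.
(1) Suppose `Mx C (q t) ≠ {c}` for some `t ∈ [0,1]`, that is, some `c' ∈ C`, `c' ≠ c`, is in `Mx C (q t)` (`C` is not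
empty).  The set of these `t` is closed, let `t₀` be its minimum (`IsCompact.exists_isLeast`).  `t₀ > 0` as
`Mx C (q 0) = Mx C w₁ = {c}`, and `Mx C (q t) = {c}` for `t < t₀`, so `c ∈ Mx C (q t₀)` by closedness: event
`c ∈ Mx C q`, `2 ≤ (Mx C q).card`.
(2) Otherwise `Mx C (q t) = {c}` for all `t`.  If `Mx A (q t)` or `Mx B (q t)` has at least three elements for
some `t`, or both have two, we have an event.  So suppose that for every `t` both have at most two
elements and at least one of them has only one.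
(3) Then `s_A ≠ s_B`.  Suppose `s_A < s_B`.  Let `s₂` be the minimum of the closed set
`{t ∈ [s_A,s_B] | 2 ≤ (Mx B (q t)).card}` (it is closed: a finite union over pairs `b ≠ b'` of the sets where
both are maximisers); `s₂ > s_A`.  Let `s₁` be the maximum of the closed set
`{t ∈ [s_A,s₂] | 2 ≤ (Mx A (q t)).card}`; `s₁ < s₂`.  For `t ∈ (s₁,s₂)` both sets have one element, and
they are constant there, `{a}` and `{b}` (connectedness as in `StmtTieMid`, or take a sequence; it is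
enough to have one interval `(s₁, s₁+η)` and then use that the set of `t ∈ [s₁,s₂)` with `b ∈ Mx B` is open
and closed).  By closedness `a ∈ Mx A (q s₁)`, `a ∈ Mx A (q s₂)`, `b ∈ Mx B (q s₁)`, `b ∈ Mx B (q s₂)`.  So with
`u = q s₁`, `v = q s₂`: `Mx A u` has two elements and contains `a`, `Mx B u = {b}`, `Mx A v = {a}`, `Mx B v` has
two elements and contains `b`, and the equalities `tu`, `tv` hold by `StmtTieBasic`.  So
`x = ((a, Mx A u), (b, Mx B v), c)` is an alternation with ends `u`, `v`.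
(4) If `s_B < s_A`: the same with the roles of `A` and `B` exchanged: first the minimum `s₂` of the
`t ∈ [s_B,s_A]` with `2 ≤ (Mx A (q t)).card`, then the maximum `s₁` of the `t ∈ [s_B,s₂]` with
`2 ≤ (Mx B (q t)).card`, `u = q s₂`, `v = q s₁`. -/
def StmtEvent : Prop := ∀ (A B C : Finset E) (c r w₁ w₂ qA qB : E), InR A B c r →
  Tie A B c w₁ → Tie A B c w₂ → Mx C w₁ = {c} →
  Tie A B c qA → InSec r w₁ w₂ qA → 2 ≤ (Mx A qA).card →
  Tie A B c qB → InSec r w₁ w₂ qB → 2 ≤ (Mx B qB).card →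
  (∃ x u v, IsAlt A B C x u v ∧ x.2.2 = c ∧ InSec r w₁ w₂ u) ∨
  ∃ q, Tie A B c q ∧ InSec r w₁ w₂ q ∧ c ∈ Mx C q ∧ (2 ≤ (Mx C q).card ∨
    (Mx C q = {c} ∧ (3 ≤ (Mx A q).card ∨ 3 ≤ (Mx B q).card ∨
      ((Mx A q).card = 2 ∧ (Mx B q).card = 2))))

/-- **StmtHLem.** Three ties in a plane which does not contain `r`: all ties between them are in this
plane.
PROOF. `q₁, q₃, r` are a basis (`det3 r q₁ q₃ > 0`); `q₂ = α q₁ + β q₃ + γ r`; applying `ip H` gives `γ = 0`;
`det3 r q₂ q₃ = α det3 r q₁ q₃` and `det3 r q₁ q₂ = β det3 r q₁ q₃` give `α, β > 0`.  Let `a ∈ Mx A q₂`,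
`b ∈ Mx B q₂`, `T v = 2 ip c v - ip a v - ip b v`: `T q₂ = 0` (`StmtTieBasic`), `T q₁ ≥ 0`, `T q₃ ≥ 0` (`InRc`), so
`T q₁ = T q₃ = 0`.  `T r > 0`.  Write `w = α' q₁ + β' q₃ + γ' r`; as before `α', β' > 0`.  `T w = γ' T r ≥ 0`, so
`γ' ≥ 0`.  If `γ' > 0` then `w ∈ R_c` (`InR.comb`), contradiction.  So `w = α' q₁ + β' q₃`. -/
def StmtHLem : Prop := ∀ (A B : Finset E) (c r H q₁ q₂ q₃ w : E), InR A B c r →
  Tie A B c q₁ → Tie A B c q₂ → Tie A B c q₃ → Tie A B c w →
  ip H r ≠ 0 → ip H q₁ = 0 → ip H q₂ = 0 → ip H q₃ = 0 →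
  0 < det3 r q₁ q₂ → 0 < det3 r q₂ q₃ → 0 < det3 r q₁ q₃ → 0 < det3 r q₁ w → 0 < det3 r w q₃ →
  ∃ α β : ℝ, 0 < α ∧ 0 < β ∧ w = α • q₁ + β • q₃

/-- The angular position around `r`, in the half space `0 < det3 r p ·`. -/
noncomputable def akey (r p w : E) : ℝ := -(det3 r w (cr r p)) / det3 r p w

/-- **StmtAng.** Facts about angular positions.
PROOF. `D = det3 r p (cr r p) = ip (cr r p) (cr r p) > 0` if `det3 r p w > 0` for some `w`.  Identity:
`det3 r w w' * D = det3 r w (cr r p) * det3 r p w' - det3 r p w * det3 r w' (cr r p)` (ring after unfolding,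
or write `w`, `w'` in the basis `r, p, cr r p`); so
`akey w' - akey w = det3 r w w' * D / (det3 r p w * det3 r p w')`.  (3): if `q = α w₁ + β w₂ - τ r` then
`det3 r p q = α det3 r p w₁ + β det3 r p w₂ > 0`, `det3 r w₁ q = β det3 r w₁ w₂`,
`det3 r q w₂ = α det3 r w₁ w₂`. -/
def StmtAng : Prop := ∀ (r p : E),
  (∀ w w', 0 < det3 r p w → 0 < det3 r p w' →
    (akey r p w < akey r p w' ↔ 0 < det3 r w w') ∧ (akey r p w = akey r p w' ↔ det3 r w w' = 0)) ∧
  (∀ w (κ : ℝ), κ ≠ 0 → akey r p (κ • w) = akey r p w) ∧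
  (∀ w₁ w₂ q, 0 < det3 r p w₁ → 0 < det3 r p w₂ → akey r p w₁ ≤ akey r p w₂ → InSec r w₁ w₂ q →
    0 < det3 r p q ∧ akey r p w₁ ≤ akey r p q ∧ akey r p q ≤ akey r p w₂)

/-- **StmtTriples.** Abstract counting of directions by events.
PROOF. Let `N = |W|`, and sort `W` by `key`: let `rk w` be the number of `w' ∈ W` with `key w' < key w`, a
bijection from `W` to `{0,…,N-1}`.  For every `i` with `3 i + 2 < N` let `w_{i,0}, w_{i,1}, w_{i,2}` be the
elements of rank `3i, 3i+1, 3i+2`; by the first hypothesis there are `ε_i ∈ Ev` and a position `q_i` of `ε_i`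
in `[key w_{i,0}, key w_{i,2}]`.  CLAIM: each `ε` is `ε_i` for at most two `i`: if `ε_i = ε_j = ε_l`, `i < j < l`,
then `q_i ≤ key w_{i,2} < key w_{j,0} ≤ q_j ≤ key w_{j,2} < key w_{l,0} ≤ q_l`, so `q_i < q_j < q_l`... here
`q_i < key w_{j,0} < key w_{j,1} < key w_{j,2} < q_l`, contradiction to the second hypothesis.  So the number
of such `i`, which is at least `(N - 2) / 3`, is at most `2 |Ev|`, and `N ≤ 6 |Ev| + 2`. -/
def StmtTriples : Prop := ∀ (ι κ : Type) (W : Finset ι) (key : ι → ℝ) (Ev : Finset κ)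
  (pos : κ → ℝ → Prop), (∀ w ∈ W, ∀ w' ∈ W, key w = key w' → w = w') →
  (∀ w₁ ∈ W, ∀ w₂ ∈ W, ∀ w₃ ∈ W, key w₁ < key w₂ → key w₂ < key w₃ →
    ∃ ε ∈ Ev, ∃ q, pos ε q ∧ key w₁ ≤ q ∧ q ≤ key w₃) →
  (∀ ε ∈ Ev, ∀ q₁ q₂ q₃, pos ε q₁ → pos ε q₂ → pos ε q₃ → q₁ < q₂ → q₂ < q₃ →
    ∀ w₁ ∈ W, ∀ w₂ ∈ W, ∀ w₃ ∈ W, key w₁ < key w₂ → key w₂ < key w₃ →
      q₁ < key w₁ → key w₃ < q₃ → False) →
  W.card ≤ 6 * Ev.card + 2

/-- Alternations at `c`. -/
noncomputable def ev1 (A B C : Finset E) (c : E) : Finset Al :=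
  @Finset.filter _ (fun x => x.2.2 = c) (Classical.decPred _) (alts A B C)

/-- Flats at `c`. -/
noncomputable def ev2 (A B C : Finset E) (c : E) : Finset Fl :=
  @Finset.filter _ (fun x => x.2.1 = c) (Classical.decPred _) (flats A B C)

/-- Big faces of `A` in the cell of `c`. -/
noncomputable def ev3 (A C : Finset E) (c : E) : Finset (Finset E) :=
  @Finset.filter _ (fun G => ∃ u, Mx A u = G ∧ Mx C u = {c}) (Classical.decPred _) (Faces A)

/-- Big faces of `C` at `c`. -/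
noncomputable def ev5 (C : Finset E) (c : E) : Finset (Finset E) :=
  @Finset.filter _ (fun G => c ∈ G) (Classical.decPred _) (Faces C)

/-- Neighbours of `c` in `C`. -/
noncomputable def ev6 (C : Finset E) (c : E) : Finset E :=
  @Finset.filter _ (fun c' => c' ≠ c ∧ {c, c'} ∈ Ed C) (Classical.decPred _) C

/-- Edges of `A` with a position in the cell of `c` whose plane does not meet `R_c`. -/
noncomputable def ev7 (A B C : Finset E) (c : E) : Finset (Finset E) :=
  @Finset.filter _ (fun e => (∃ q, IsPos A B C e c q) ∧ ∀ r, InR A B c r → ¬ Perp e r)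
    (Classical.decPred _) (Ed A)

/-- The number of event classes at `c`. -/
noncomputable def evc (A B C : Finset E) (c : E) : ℕ :=
  (ev1 A B C c).card + (ev2 A B C c).card + (ev3 A C c).card + (ev3 B C c).card +
    (ev5 C c).card + (ev6 C c).card + (ev7 A B C c).card

/-- **StmtTangPairs.** There are few tangent pairs `(e,c)`.
PROOF. If `|A| ≤ 2` then `|Ed A| ≤ 1` and the sum is at most `|C|`; if `|C| ≤ 2` it is at most
`2 |Ed A| ≤ 24 |A|` (`TPH.Closed.edge_lin`).  Now let `3 ≤ |A|`, `3 ≤ |C|`.  The sum is the number of pairs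
`(e,c)`, `c ∈ C`, `e ∈ ev7 A B C c`.  (1) Pairs such that some cell `(a,c)`, `a ∈ e`, is not regular: with
`e = {a,a'}`, `(a,c) ∈ Sp A C`, `a' ∈ NA A C a c` (`StmtPosBasic`), and `((a,c),a')` determines the pair; at most
`spSum A C` of them.  (2) The others have the data of `StmtPosTangent`, the value `((a₁,c),a₂,c')` takes at
most `2 * spSum A C` values (as in `StmtAD3`, `Drop3.lean`) and determines the pair by `StmtTangentUniq`.
So the sum is at most `3 * spSum A C ≤ K (|A| + |C|)` (`TPH.Closed.c_t_SpecialBound`). -/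
def StmtTangPairs : Prop := ∃ K : ℕ, ∀ A B C : Finset E, ConvPos A → ConvPos C →
  (∀ c ∈ C, ∃ r, InR A B c r) → ∑ c ∈ C, (ev7 A B C c).card ≤ K * (A.card + C.card)

/-- **StmtEvSum.** The total number of event classes is at most `K n^(3/2)`.
PROOF. `∑ |ev1| = |alts A B C|` (`StmtAltBound`; `x.2.2 ∈ C` for `x ∈ alts`), `∑ |ev2| = |flats A B C|`
(`TPH.Closed.flats_bound`).  `∑ |ev3 A C c| ≤ 2 |Faces A| ≤ 4 |A|`: for `G ∈ Faces A` the vectors `u ≠ 0` with
`Mx A u = G` are real multiples of one vector (`TPH.Closed.c_t_NonCol`), so `Mx C u = {c}` is possible for at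
most two `c` (positive and negative multiples, `Mx_smul`); a `u` with `Mx A u = G` and `Mx C u = {c}` which is
zero gives `G = A`, `C = {c}`: then `C` has one element and the sum is at most `|Faces A|`.  The same for
`ev3 B C`.  `∑ |ev5 C c| ≤ ∑_G |G| ≤ 6 |C|` (`TPH.Closed.edge_lin`).  `∑ |ev6 C c| ≤ 2 |Ed C| ≤ 24 |C|`.
`∑ |ev7|`: `StmtTangPairs`.  The square of a sum of four numbers is at most four times the sum of the
squares; linear terms `≤ L n` have square `≤ L^2 n^2 ≤ L^2 n^3` (if `n = 0` everything is zero). -/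
def StmtEvSum : Prop := ∃ K : ℕ, ∀ A B C : Finset E, ConvPos A → ConvPos B → ConvPos C →
  (∀ c ∈ C, ∃ r, InR A B c r) →
  (∑ c ∈ C, evc A B C c) ^ 2 ≤ K * (A.card + B.card + C.card) ^ 3

/-- **StmtMulti.** Directions in a half space are counted by events.
PROOF. If `W` is empty there is nothing to prove, otherwise `det3 r p w > 0` for some `w`.  Use `StmtTriples`
with `ι = E`, `key = akey r p`.  Keys are injective on `W`: if the keys of `w`, `w'` agree then
`det3 r w w' = 0` (`StmtAng`), `r` and `w` are independent (`det3 r p w > 0`), so `w' = κ w + ρ r`;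
`det3 r p w' = κ det3 r p w` gives `κ > 0`; `w'` and `κ • w` are ties for the pair `j = 0` (there is one: if
`N = 0` then by the hypothesis on triples `|W| ≤ 2` and the claim holds), so `ρ = 0` (`StmtTieBasic`), and
`w' = w` by hypothesis.
`Ev` is the disjoint union over `j : Fin N` of the seven sets `ev1 (A j) (B j) C c`, …,
`ev7 (A j) (B j) C c` (for example as a `Finset` of a sigma or sum type; its cardinality is
`∑ j, evc (A j) (B j) C c`).  Positions: in all cases `pos ε q` means that there is a vector `u` with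
`0 < det3 r p u`, `akey r p u = q` and: (1) `IsAlt (A j) (B j) C x u v` for some `v`; (2)
`IsFlat (A j) (B j) C x u`; (3) `Mx (A j) u = G`; (4) `Mx (B j) u = G`; (5) `Mx C u = G`; (6)
`Tie (A j) (B j) c u` and `Mx C u = {c,c'}`; (7) `Tie (A j) (B j) c u` and `Mx (A j) u = e`.
FIRST HYPOTHESIS of `StmtTriples`: let `w₁, w₂, w₃` be in order, so `det3 r w₁ w₃ > 0`, and `w₂` is in the
sector `InSec r w₁ w₃` (write `w₂` in the basis `w₁, w₃, r`; the coefficients of `w₁`, `w₃` are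
`det3 r w₂ w₃ / det3 r w₁ w₃` and `det3 r w₁ w₂ / det3 r w₁ w₃`, both positive).  Take `j` for
`(w₁,w₂,w₃)`.  We get `qA`: `w₁` if `2 ≤ (Mx (A j) w₁).card`, otherwise by `StmtTieMid` (for `w₁, w₂` or
`w₁, w₃`), and `qB` in the same way (`StmtTieMid` for `B, A`, `StmtTieBasic`).  `StmtEvent` gives an event.
Alternation: class (1).  Otherwise a tie `q` in the sector: `3 ≤ |Mx C q|`: class (5), `Mx C q ∈ Faces C` (`q ≠ 0`
because `0 < det3 r p q`, `StmtAng`).  `|Mx C q| = 2`: class (6), `Mx C q = {c,c'} ∈ Ed C`.  `Mx C q = {c}` and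
`3 ≤ |Mx A q|` or `3 ≤ |Mx B q|`: class (3), (4).  `|Mx A q| = |Mx B q| = 2`: `x = (Mx A q, c, Mx B q)`; if
`IsFlat … x q` then class (2).  Otherwise the last clause of `IsFlat` fails (the others hold by
`StmtTieBasic`): there is `v`, not a multiple of `q`, orthogonal to `a - a'`, `b - b'` and
`T = 2 c - a - b` (`e = Mx A q = {a,a'}`, `f = Mx B q = {b,b'}`).  `q` is orthogonal to them as well, so
`a - a' = k₁ cr q v`, `T = k₂ cr q v` (`par_cr_of_ip`), `k₁ ≠ 0`; if `Perp e r'` with `r' ∈ R_c` then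
`ip (cr q v) r' = 0`, so `ip T r' = 0`, but it is positive.  So `e ∈ ev7`: class (7) (`IsPos` by
`StmtTieBasic`).
SECOND HYPOTHESIS: for (1)–(5) all positions of a class agree, because the vectors `u` are real multiples
of each other: (1) `u` is orthogonal to `a - a'` and to `Tv x`, which are independent (`Tv x` is zero at `v`
and positive at `r`, `a - a'` is not zero at `v`, `StmtAltBasic`; so if `a - a' = k • Tv x` … contradiction);
(2) last clause of `IsFlat`; (3)–(5) `TPH.Closed.c_t_NonCol`.  (6): `StmtHLem` with `H = c - c'`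
(`ip H r > 0` as `Mx C r = {c}`) gives `w₁ = α q₁ + β q₃`, so `ip H w₁ = 0`, but `Mx C w₁ = {c}`.  (7): let
`e = {a,a'}`, `H = a - a'`, `ip H r ≠ 0` as `¬ Perp e r`; `StmtHLem` for `w₁`, `w₂` and `w₃` gives
`w_i = α q₁ + β q₃`, so `e ⊆ Mx A w_i` (`mem_Mx_comb`) for `i = 1,2,3`: contradiction to the last
hypothesis. -/
def StmtMulti : Prop := ∀ (N : ℕ) (A B : Fin N → Finset E) (C : Finset E) (c r p : E)
  (W : Finset E), (∀ j, ConvPos (A j)) → (∀ j, ConvPos (B j)) → ConvPos C →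
  (∀ j, InR (A j) (B j) c r) → Mx C r = {c} →
  (∀ w ∈ W, 0 < det3 r p w ∧ Mx C w = {c} ∧ ∀ j, Tie (A j) (B j) c w) →
  (∀ w ∈ W, ∀ w' ∈ W, ∀ κ : ℝ, 0 < κ → w' = κ • w → w' = w) →
  (∀ w₁ ∈ W, ∀ w₂ ∈ W, ∀ w₃ ∈ W, w₁ ≠ w₂ → w₁ ≠ w₃ → w₂ ≠ w₃ → ∃ j,
    (2 ≤ (Mx (A j) w₁).card ∨ Mx (A j) w₁ ≠ Mx (A j) w₂ ∨ Mx (A j) w₁ ≠ Mx (A j) w₃) ∧
    (2 ≤ (Mx (B j) w₁).card ∨ Mx (B j) w₁ ≠ Mx (B j) w₂ ∨ Mx (B j) w₁ ≠ Mx (B j) w₃)) →
  (∀ j, ∀ w₁ ∈ W, ∀ w₂ ∈ W, ∀ w₃ ∈ W, w₁ ≠ w₂ → w₁ ≠ w₃ → w₂ ≠ w₃ → ∀ e : Finset E,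
    e.card = 2 → e ⊆ Mx (A j) w₁ → e ⊆ Mx (A j) w₂ → e ⊆ Mx (A j) w₃ → False) →
  W.card ≤ 6 * (∑ j, evc (A j) (B j) C c) + 2

/-- **StmtMultiAll.** The same without the half space.
PROOF. If `N = 0` then `|W| ≤ 2` by the hypothesis on triples (it gives `j : Fin 0`).  Let `j₀ = 0`.  `r ≠ 0`
(`not_inR_zero`, the sets are not empty if `W` is not, `StmtTieBasic`).  Choose `p` with `cr r p ≠ 0`.  `W` is
the union of `W₊` (`0 < det3 r p w`), `W₋` (`0 < det3 r (-p) w`) and `W₀` (`det3 r p w = 0`).  `StmtMulti` applies to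
`W₊` and (with `-p`) to `W₋`.  `|W₀| ≤ 2`: every `w ∈ W₀` is `α r + β p` (`comb_of_perp` with the normal
vector `cr r p`); `β ≠ 0`, since `w = α r` is not a tie if `α > 0` (it is in `R_c`) or `α < 0` (`-w` would be in
`R_c`, so `ip a w + ip b w > 2 ip c w`), and `w ≠ 0`.  If two members `w = α r + β p`, `w' = α' r + β' p` have
`β, β'` of the same sign, then `w' = κ w + ρ r` with `κ = β'/β > 0`; `w'` and `κ • w` are ties, so `ρ = 0`
(`StmtTieBasic`) and `w' = w`. -/
def StmtMultiAll : Prop := ∀ (N : ℕ) (A B : Fin N → Finset E) (C : Finset E) (c r : E)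
  (W : Finset E), (∀ j, ConvPos (A j)) → (∀ j, ConvPos (B j)) → ConvPos C →
  (∀ j, InR (A j) (B j) c r) → Mx C r = {c} →
  (∀ w ∈ W, w ≠ 0 ∧ Mx C w = {c} ∧ ∀ j, Tie (A j) (B j) c w) →
  (∀ w ∈ W, ∀ w' ∈ W, ∀ κ : ℝ, 0 < κ → w' = κ • w → w' = w) →
  (∀ w₁ ∈ W, ∀ w₂ ∈ W, ∀ w₃ ∈ W, w₁ ≠ w₂ → w₁ ≠ w₃ → w₂ ≠ w₃ → ∃ j,
    (2 ≤ (Mx (A j) w₁).card ∨ Mx (A j) w₁ ≠ Mx (A j) w₂ ∨ Mx (A j) w₁ ≠ Mx (A j) w₃) ∧
    (2 ≤ (Mx (B j) w₁).card ∨ Mx (B j) w₁ ≠ Mx (B j) w₂ ∨ Mx (B j) w₁ ≠ Mx (B j) w₃)) →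
  (∀ j, ∀ w₁ ∈ W, ∀ w₂ ∈ W, ∀ w₃ ∈ W, w₁ ≠ w₂ → w₁ ≠ w₃ → w₂ ≠ w₃ → ∀ e : Finset E,
    e.card = 2 → e ⊆ Mx (A j) w₁ → e ⊆ Mx (A j) w₂ → e ⊆ Mx (A j) w₃ → False) →
  W.card ≤ 12 * (∑ j, evc (A j) (B j) C c) + 6

end TPH
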