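import Pool.Agent.TPH.St1

/-!
# Three parallel hyperplanes: from facet functionals to the overlay (abstract part)

The vertices are given as points of `E × ℝ`, the second coordinate is the height.
-/

set_option autoImplicit false

namespace TPH

namespace Tr

/-- The value of the functional `(u,s)`. -/
def val (u : E) (s : ℝ) (v : E × ℝ) : ℝ := ip v.1 u + s * v.2

/-- Facet data: the vertices `V`, and for every facet `g` the functional `(u g, s g)` with the maximal
value `q g`. -/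
structure Data (V : Finset (E × ℝ)) {ι : Type*} (G : Finset ι) (u : ι → E) (s q : ι → ℝ) :
    Prop where
  nn : ∀ g ∈ G, ∀ v ∈ V, val (u g) (s g) v ≤ q g
  inj : ∀ g ∈ G, ∀ g' ∈ G, (∀ v ∈ V, val (u g) (s g) v = q g → val (u g') (s g') v = q g') → g = g'
  span : ∀ g ∈ G, ∀ (u' : E) (s' q' : ℝ), (∀ v ∈ V, val (u g) (s g) v = q g → val u' s' v = q') →
    ∃ k : ℝ, u' = k • u g ∧ s' = k * s g ∧ q' = k * q g
  nz : ∀ g ∈ G, u g = 0 → s g ≠ 0
  five : ∀ g ∈ G, ∃ Z : Finset (E × ℝ), 5 ≤ Z.card ∧ ∀ v ∈ Z, v ∈ V ∧ val (u g) (s g) v = q g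
  exp : ∀ v ∈ V, ∃ (u : E) (s : ℝ), ∀ v' ∈ V, v' ≠ v → val u s v' < val u s v
  two : ∀ x ∈ V, ∀ y ∈ V, ∀ z ∈ V, x ≠ y → x ≠ z → y ≠ z → ∀ S : Finset ι, S ⊆ G →
    (∀ g ∈ S, val (u g) (s g) x = q g ∧ val (u g) (s g) y = q g ∧ val (u g) (s g) z = q g) →
    S.card ≤ 2

open Classical in
/-- A layer. -/
noncomputable def lay (V : Finset (E × ℝ)) (t : ℝ) : Finset (E × ℝ) := V.filter (fun v => v.2 = t)

open Classical in
/-- The scaled projection of a layer. -/
noncomputable def img (V : Finset (E × ℝ)) (t k : ℝ) : Finset E := (lay V t).image (fun v => k • v.1)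

open Classical in
/-- The points of a layer in the facet. -/
noncomputable def zer (V : Finset (E × ℝ)) (t : ℝ) (u : E) (s q : ℝ) : Finset (E × ℝ) :=
  (lay V t).filter (fun v => val u s v = q)

theorem mem_lay {V : Finset (E × ℝ)} {t : ℝ} {v : E × ℝ} : v ∈ lay V t ↔ v ∈ V ∧ v.2 = t := by
  classical
  simp [lay]

theorem mem_zer {V : Finset (E × ℝ)} {t : ℝ} {u : E} {s q : ℝ} {v : E × ℝ} :
    v ∈ zer V t u s q ↔ v ∈ V ∧ v.2 = t ∧ val u s v = q := by
  classical
  simp [zer, mem_lay, and_assoc]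

theorem mem_img {V : Finset (E × ℝ)} {t k : ℝ} {a : E} :
    a ∈ img V t k ↔ ∃ v ∈ lay V t, k • v.1 = a := by
  classical
  simp [img]

theorem injOn {V : Finset (E × ℝ)} {t k : ℝ} (hk : 0 < k) :
    Set.InjOn (fun v : E × ℝ => k • v.1) (lay V t : Set (E × ℝ)) := by
  intro v hv w hw h
  rw [Finset.mem_coe, mem_lay] at hv hw
  have h1 : v.1 = w.1 := by
    have h2 : k • v.1 = k • w.1 := h
    have h3 := congrArg (fun x : E => k⁻¹ • x) h2
    simpa [smul_smul, inv_mul_cancel₀ hk.ne'] using h3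
  exact Prod.ext h1 (hv.2.trans hw.2.symm)

theorem card_img {V : Finset (E × ℝ)} {t k : ℝ} (hk : 0 < k) : (img V t k).card = (lay V t).card := by
  classical
  exact Finset.card_image_of_injOn (injOn hk)

theorem card_image_zer {V : Finset (E × ℝ)} {t k : ℝ} (hk : 0 < k) (u : E) (s q : ℝ) :
    ((zer V t u s q).image (fun v => k • v.1)).card = (zer V t u s q).card := by
  classical
  refine Finset.card_image_of_injOn ((injOn (V := V) (t := t) hk).mono ?_)
  intro v hv
  rw [Finset.mem_coe, mem_zer] at hv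
  rw [Finset.mem_coe, mem_lay]
  exact ⟨hv.1, hv.2.1⟩

/-- The maximisers on a layer. -/
theorem Mx_img {V : Finset (E × ℝ)} {t k : ℝ} {u : E} {s q : ℝ} (hk : 0 < k)
    (hnn : ∀ v ∈ V, val u s v ≤ q) (h0 : (zer V t u s q).Nonempty) :
    Mx (img V t k) u = (zer V t u s q).image (fun v => k • v.1) := by
  classical
  obtain ⟨w, hw⟩ := h0
  rw [mem_zer] at hw
  have hwl : w ∈ lay V t := mem_lay.2 ⟨hw.1, hw.2.1⟩
  have hval : ∀ v ∈ lay V t, ip (k • v.1) u = k * (val u s v - s * t) := by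
    intro v hv
    rw [ip_smul_left, val, (mem_lay.1 hv).2]
    ring
  have hmax : ∀ a ∈ img V t k, ip a u ≤ k * (q - s * t) := by
    intro a ha
    obtain ⟨v, hv, rfl⟩ := mem_img.1 ha
    rw [hval v hv]
    have := hnn v (mem_lay.1 hv).1
    have h1 : val u s v - s * t ≤ q - s * t := by linarith
    exact mul_le_mul_of_nonneg_left h1 hk.le
  ext a
  rw [mem_Mx, Finset.mem_image]
  constructor
  · rintro ⟨ha, hm⟩
    obtain ⟨v, hv, rfl⟩ := mem_img.1 ha
    refine ⟨v, mem_zer.2 ⟨(mem_lay.1 hv).1, (mem_lay.1 hv).2, ?_⟩, rfl⟩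
    have h1 := hm (k • w.1) (mem_img.2 ⟨w, hwl, rfl⟩)
    rw [hval v hv, hval w hwl, hw.2.2] at h1
    have h2 := le_of_mul_le_mul_left h1 hk
    have h3 := hnn v (mem_lay.1 hv).1
    linarith
  · rintro ⟨v, hv, rfl⟩
    rw [mem_zer] at hv
    have hvl : v ∈ lay V t := mem_lay.2 ⟨hv.1, hv.2.1⟩
    refine ⟨mem_img.2 ⟨v, hvl, rfl⟩, fun a ha => ?_⟩
    rw [hval v hvl, hv.2.2]
    exact hmax a ha

theorem card_Mx {V : Finset (E × ℝ)} {t k : ℝ} {u : E} {s q : ℝ} (hk : 0 < k)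
    (hnn : ∀ v ∈ V, val u s v ≤ q) (h0 : (zer V t u s q).Nonempty) :
    (Mx (img V t k) u).card = (zer V t u s q).card := by
  classical
  rw [Mx_img hk hnn h0, card_image_zer hk]

/-- A point of a layer is in the facet if and only if its image is a maximiser. -/
theorem mem_Mx_img {V : Finset (E × ℝ)} {t k : ℝ} {u : E} {s q : ℝ} (hk : 0 < k)
    (hnn : ∀ v ∈ V, val u s v ≤ q) (h0 : (zer V t u s q).Nonempty) {v : E × ℝ}
    (hv : v ∈ lay V t) : k • v.1 ∈ Mx (img V t k) u ↔ val u s v = q := by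
  classical
  rw [Mx_img hk hnn h0, Finset.mem_image]
  constructor
  · rintro ⟨w, hw, he⟩
    have hw' := mem_zer.1 hw
    have h1 : w = v := injOn (V := V) (t := t) hk (mem_lay.2 ⟨hw'.1, hw'.2.1⟩) hv he
    rw [← h1]
    exact hw'.2.2
  · intro h
    exact ⟨v, mem_zer.2 ⟨(mem_lay.1 hv).1, (mem_lay.1 hv).2, h⟩, rfl⟩

/-- The projected layers are in convex position. -/
theorem convPos_img {V : Finset (E × ℝ)} {t k : ℝ} (hk : 0 < k)
    (hexp : ∀ v ∈ V, ∃ (u : E) (s : ℝ), ∀ v' ∈ V, v' ≠ v → val u s v' < val u s v) :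
    ConvPos (img V t k) := by
  classical
  intro a ha
  obtain ⟨v, hv, rfl⟩ := mem_img.1 ha
  have hv' := mem_lay.1 hv
  obtain ⟨u, s, h⟩ := hexp v hv'.1
  have hnn : ∀ w ∈ V, val u s w ≤ val u s v := by
    intro w hw
    by_cases hwv : w = v
    · rw [hwv]
    · exact (h w hw hwv).le
  refine ⟨u, ?_⟩
  have hz : zer V t u s (val u s v) = {v} := by
    ext w
    rw [mem_zer, Finset.mem_singleton]
    constructor
    · rintro ⟨h1, h2, h3⟩
      by_contra hwv
      exact (h w h1 hwv).ne h3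
    · rintro rfl
      exact ⟨hv'.1, hv'.2, rfl⟩
  rw [Mx_img hk hnn (by rw [hz]; exact ⟨v, by simp⟩), hz, Finset.image_singleton]

/-- The cone of a point of the middle layer is not empty. -/
theorem exists_inR {V : Finset (E × ℝ)} {t₁ t₂ t₃ α β : ℝ} (hα : 0 < α) (hβ : 0 < β)
    (hαβ : α + β = 1) (ht : α * t₁ + β * t₃ = t₂) (h12 : t₁ ≠ t₂) (h32 : t₃ ≠ t₂)
    (hexp : ∀ v ∈ V, ∃ (u : E) (s : ℝ), ∀ v' ∈ V, v' ≠ v → val u s v' < val u s v) :
    ∀ c ∈ img V t₂ 1, ∃ r, InR (img V t₁ (2 * α)) (img V t₃ (2 * β)) c r := by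
  intro c hc
  obtain ⟨v, hv, rfl⟩ := mem_img.1 hc
  have hv' := mem_lay.1 hv
  obtain ⟨u, s, h⟩ := hexp v hv'.1
  refine ⟨u, ?_⟩
  intro a ha b hb
  obtain ⟨x, hx, rfl⟩ := mem_img.1 ha
  obtain ⟨y, hy, rfl⟩ := mem_img.1 hb
  have hx' := mem_lay.1 hx
  have hy' := mem_lay.1 hy
  have h1 := h x hx'.1 (by rintro rfl; exact h12 (hx'.2.symm.trans hv'.2))
  have h2 := h y hy'.1 (by rintro rfl; exact h32 (hy'.2.symm.trans hv'.2))
  rw [val, val, hx'.2, hv'.2] at h1
  rw [val, val, hy'.2, hv'.2] at h2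
  rw [ip_smul_left, ip_smul_left, ip_smul_left]
  have h3 : α * (ip x.1 u + s * t₁) + β * (ip y.1 u + s * t₃) < α * (ip v.1 u + s * t₂)
      + β * (ip v.1 u + s * t₂) := by
    have e1 := mul_lt_mul_of_pos_left h1 hα
    have e2 := mul_lt_mul_of_pos_left h2 hβ
    linarith
  have h4 : α * (ip v.1 u + s * t₂) + β * (ip v.1 u + s * t₂) = ip v.1 u + s * t₂ := by
    rw [← add_mul, hαβ, one_mul]
  have h5 : s * t₂ = α * (s * t₁) + β * (s * t₃) := by rw [← ht]; ring
  nlinarith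

section count

variable {V : Finset (E × ℝ)} {ι : Type*} {G : Finset ι} {u : ι → E} {s q : ι → ℝ}

/-- Facets with functional `u = 0`. -/
theorem count_zero (D : Data V G u s q) {t₁ t₂ t₃ : ℝ}
    (hl : ∀ v ∈ V, v.2 = t₁ ∨ v.2 = t₂ ∨ v.2 = t₃) (S : Finset ι) (hS : S ⊆ G)
    (h0 : ∀ g ∈ S, u g = 0) : S.card ≤ 3 := by
  classical
  have hval : ∀ g ∈ S, ∀ v : E × ℝ, val (u g) (s g) v = q g ↔ v.2 = q g / s g := by
    intro g hg v
    have hs := D.nz g (hS hg) (h0 g hg)
    rw [val, h0 g hg, ip_zero_right, zero_add, eq_div_iff hs, mul_comm]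
  have hinj : Set.InjOn (fun g => q g / s g) (S : Set ι) := by
    intro g hg g' hg' he
    refine D.inj g (hS hg) g' (hS hg') (fun v _ h => ?_)
    rw [hval g hg] at h
    rw [hval g' hg', h]
    exact he
  have hsub : S.image (fun g => q g / s g) ⊆ {t₁, t₂, t₃} := by
    intro x hx
    obtain ⟨g, hg, rfl⟩ := Finset.mem_image.1 hx
    obtain ⟨Z, hZ, hZV⟩ := D.five g (hS hg)
    obtain ⟨v, hv⟩ := Finset.card_pos.1 (by omega : 0 < Z.card)
    have h1 := hZV v hv
    have h2 := (hval g hg v).1 h1.2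
    have h3 := hl v h1.1
    rw [Finset.mem_insert, Finset.mem_insert, Finset.mem_singleton, ← h2]
    exact h3
  rw [← Finset.card_image_of_injOn hinj]
  exact (Finset.card_le_card hsub).trans Finset.card_le_three

/-- Facets with at least three vertices in a layer. -/
theorem count_three (D : Data V G u s q) (hEL : StmtEdgeLin) {t k : ℝ} (hk : 0 < k) (S : Finset ι)
    (hS : S ⊆ G) (hu : ∀ g ∈ S, u g ≠ 0) (h3 : ∀ g ∈ S, 3 ≤ (zer V t (u g) (s g) (q g)).card) :
    S.card ≤ 4 * (lay V t).card := by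
  classical
  have hne : ∀ g ∈ S, (zer V t (u g) (s g) (q g)).Nonempty := by
    intro g hg
    rw [← Finset.card_pos]
    have := h3 g hg
    omega
  have hmaps : ∀ g ∈ S, Mx (img V t k) (u g) ∈ Faces (img V t k) := by
    intro g hg
    rw [mem_Faces]
    refine ⟨?_, u g, hu g hg, rfl⟩
    rw [card_Mx hk (D.nn g (hS hg)) (hne g hg)]
    exact h3 g hg
  have hfib : ∀ F ∈ Faces (img V t k), (S.filter (fun g => Mx (img V t k) (u g) = F)).card ≤ 2 := by
    intro F hF
    rw [mem_Faces] at hF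
    obtain ⟨a, b, c, ha, hb, hc, hab, hac, hbc⟩ := Finset.two_lt_card_iff.1 (by omega : 2 < F.card)
    obtain ⟨w, -, hw⟩ := hF.2
    have hsub : F ⊆ img V t k := by rw [← hw]; exact Mx_subset _ _
    obtain ⟨x, hx, rfl⟩ := mem_img.1 (hsub ha)
    obtain ⟨y, hy, rfl⟩ := mem_img.1 (hsub hb)
    obtain ⟨z, hz, rfl⟩ := mem_img.1 (hsub hc)
    refine D.two x (mem_lay.1 hx).1 y (mem_lay.1 hy).1 z (mem_lay.1 hz).1 ?_ ?_ ?_ _
      ((Finset.filter_subset _ _).trans hS) ?_
    · rintro rfl; exact hab rfl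
    · rintro rfl; exact hac rfl
    · rintro rfl; exact hbc rfl
    · intro g hg
      rw [Finset.mem_filter] at hg
      have hnn := D.nn g (hS hg.1)
      have hn := hne g hg.1
      refine ⟨?_, ?_, ?_⟩
      · rw [← mem_Mx_img hk hnn hn hx, hg.2]; exact ha
      · rw [← mem_Mx_img hk hnn hn hy, hg.2]; exact hb
      · rw [← mem_Mx_img hk hnn hn hz, hg.2]; exact hc
  have h1 := Finset.card_le_mul_card_image_of_maps_to hmaps 2 hfib
  have h2 := (hEL (img V t k) (convPos_img hk D.exp)).1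
  rw [card_img hk] at h2
  omega

/-- Facets with two vertices in the layer `t` and a given other vertex. -/
theorem count_edge (D : Data V G u s q) (hEL : StmtEdgeLin) {t k : ℝ} (hk : 0 < k) (w : E × ℝ)
    (hw : w ∈ V) (hwt : w.2 ≠ t) (S : Finset ι)
    (hS : S ⊆ G) (h2 : ∀ g ∈ S, (zer V t (u g) (s g) (q g)).card = 2)
    (hwS : ∀ g ∈ S, val (u g) (s g) w = q g) :
    S.card ≤ 24 * (lay V t).card := by
  classical
  have hne : ∀ g ∈ S, (zer V t (u g) (s g) (q g)).Nonempty := by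
    intro g hg
    rw [← Finset.card_pos]
    have := h2 g hg
    omega
  have hmaps : ∀ g ∈ S, Mx (img V t k) (u g) ∈ Ed (img V t k) := by
    intro g hg
    rw [mem_Ed]
    refine ⟨?_, u g, rfl⟩
    rw [card_Mx hk (D.nn g (hS hg)) (hne g hg)]
    exact h2 g hg
  have hfib : ∀ F ∈ Ed (img V t k), (S.filter (fun g => Mx (img V t k) (u g) = F)).card ≤ 2 := by
    intro F hF
    rw [mem_Ed] at hF
    obtain ⟨a, b, hab, hFe⟩ := Finset.card_eq_two.1 hF.1
    obtain ⟨v, hv⟩ := hF.2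
    have hsub : F ⊆ img V t k := by rw [← hv]; exact Mx_subset _ _
    have ha : a ∈ F := by rw [hFe]; simp
    have hb : b ∈ F := by rw [hFe]; simp
    obtain ⟨x, hx, rfl⟩ := mem_img.1 (hsub ha)
    obtain ⟨y, hy, rfl⟩ := mem_img.1 (hsub hb)
    refine D.two x (mem_lay.1 hx).1 y (mem_lay.1 hy).1 w hw ?_ ?_ ?_ _
      ((Finset.filter_subset _ _).trans hS) ?_
    · rintro rfl; exact hab rfl
    · rintro rfl; exact hwt (mem_lay.1 hx).2
    · rintro rfl; exact hwt (mem_lay.1 hy).2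
    · intro g hg
      rw [Finset.mem_filter] at hg
      have hnn := D.nn g (hS hg.1)
      have hn := hne g hg.1
      refine ⟨?_, ?_, hwS g hg.1⟩
      · rw [← mem_Mx_img hk hnn hn hx, hg.2]; exact ha
      · rw [← mem_Mx_img hk hnn hn hy, hg.2]; exact hb
  have h1 := Finset.card_le_mul_card_image_of_maps_to hmaps 2 hfib
  have h3 := (hEL (img V t k) (convPos_img hk D.exp)).2.2
  rw [card_img hk] at h3
  omega

/-- One facet functional is not a nonnegative combination of two others. -/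
theorem no_comb (D : Data V G u s q) {t₁ t₂ t₃ : ℝ} (h12 : t₁ < t₂) (h23 : t₂ < t₃) {g₁ g₂ g₃ : ι}
    (h1 : g₁ ∈ G) (h2 : g₂ ∈ G) (h3 : g₃ ∈ G) (n12 : g₁ ≠ g₂) (n13 : g₁ ≠ g₃) {v x y : E × ℝ}
    (hv : v ∈ V) (hvt : v.2 = t₂) (hv1 : val (u g₁) (s g₁) v = q g₁)
    (hv2 : val (u g₂) (s g₂) v = q g₂) (hv3 : val (u g₃) (s g₃) v = q g₃)
    (hx : x ∈ V) (hxt : x.2 = t₁) (hx1 : val (u g₁) (s g₁) x = q g₁)
    (hy : y ∈ V) (hyt : y.2 = t₃) (hy1 : val (u g₁) (s g₁) y = q g₁) {β γ : ℝ} (hβ : 0 ≤ β)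
    (hγ : 0 ≤ γ) (hu : u g₁ ≠ 0) (he : u g₁ = β • u g₂ + γ • u g₃) : False := by
  have hlin : ∀ w : E × ℝ, ip w.1 (u g₁) + (β * s g₂ + γ * s g₃) * w.2 =
      β * val (u g₂) (s g₂) w + γ * val (u g₃) (s g₃) w := by
    intro w
    rw [he, ip_add_right, ip_smul_right, ip_smul_right, val, val]
    ring
  have e1 := hlin v
  rw [hv2, hv3] at e1
  have e2 := hlin x
  have e3 := hlin y
  have f2 := mul_le_mul_of_nonneg_left (D.nn g₂ h2 x hx) hβ
  have f3 := mul_le_mul_of_nonneg_left (D.nn g₃ h3 x hx) hγ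
  have k2 := mul_le_mul_of_nonneg_left (D.nn g₂ h2 y hy) hβ
  have k3 := mul_le_mul_of_nonneg_left (D.nn g₃ h3 y hy) hγ
  rw [val, hvt] at hv1
  rw [val, hxt] at hx1
  rw [val, hyt] at hy1
  rw [hvt] at e1
  rw [hxt] at e2
  rw [hyt] at e3
  set s' := β * s g₂ + γ * s g₃ with hs'
  set q' := β * q g₂ + γ * q g₃ with hq'
  have a1 : q' - q g₁ = (s' - s g₁) * t₂ := by linarith
  have a2 : (s' - s g₁) * t₁ ≤ q' - q g₁ := by linarith
  have a3 : (s' - s g₁) * t₃ ≤ q' - q g₁ := by linarith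
  have a4 : s' = s g₁ := by
    have b1 : 0 ≤ (s' - s g₁) * (t₂ - t₁) := by linarith
    have b2 : 0 ≤ (s' - s g₁) * (t₂ - t₃) := by linarith
    have b3 : 0 ≤ s' - s g₁ := by
      by_contra hc
      push Not at hc
      have := mul_neg_of_neg_of_pos hc (by linarith : 0 < t₂ - t₁)
      linarith
    have b4 : s' - s g₁ ≤ 0 := by
      by_contra hc
      push Not at hc
      have := mul_neg_of_pos_of_neg hc (by linarith : t₂ - t₃ < 0)
      linarith
    linarith
  have a5 : q' = q g₁ := by rw [a4, sub_self, zero_mul] at a1; linarith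
  -- zeros of `g₁` are zeros of the others
  have key : ∀ w ∈ V, val (u g₁) (s g₁) w = q g₁ →
      β * (q g₂ - val (u g₂) (s g₂) w) = 0 ∧ γ * (q g₃ - val (u g₃) (s g₃) w) = 0 := by
    intro w hw hw1
    have c1 := hlin w
    rw [a4] at c1
    have c2 : val (u g₁) (s g₁) w = ip w.1 (u g₁) + s g₁ * w.2 := rfl
    rw [← c2, hw1, ← a5] at c1
    have c3 : 0 ≤ β * (q g₂ - val (u g₂) (s g₂) w) :=
      mul_nonneg hβ (by have := D.nn g₂ h2 w hw; linarith)
    have c4 : 0 ≤ γ * (q g₃ - val (u g₃) (s g₃) w) :=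
      mul_nonneg hγ (by have := D.nn g₃ h3 w hw; linarith)
    have c5 : β * (q g₂ - val (u g₂) (s g₂) w) + γ * (q g₃ - val (u g₃) (s g₃) w) = 0 := by
      rw [hq'] at c1
      linarith
    constructor <;> linarith
  rcases hβ.lt_or_eq with hb | hb
  · apply n12
    refine D.inj g₁ h1 g₂ h2 (fun w hw hw1 => ?_)
    have := (key w hw hw1).1
    rcases mul_eq_zero.1 this with h | h
    · exact absurd h hb.ne'
    · linarith
  · rcases hγ.lt_or_eq with hc | hc
    · apply n13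
      refine D.inj g₁ h1 g₃ h3 (fun w hw hw1 => ?_)
      have := (key w hw hw1).2
      rcases mul_eq_zero.1 this with h | h
      · exact absurd h hc.ne'
      · linarith
    · apply hu
      rw [he, ← hb, ← hc, zero_smul, zero_smul, add_zero]

/-- Three vectors orthogonal to `d ≠ 0` are dependent. -/
theorem dep_three {d u₁ u₂ u₃ : E} (hd : d ≠ 0) (h1 : ip d u₁ = 0) (h2 : ip d u₂ = 0)
    (h3 : ip d u₃ = 0) : ∃ a b c : ℝ, ¬ (a = 0 ∧ b = 0 ∧ c = 0) ∧ a • u₁ + b • u₂ + c • u₃ = 0 := by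
  by_cases hc : cr u₁ u₂ = 0
  · by_cases hu : u₁ = 0
    · refine ⟨1, 0, 0, fun h => one_ne_zero h.1, ?_⟩
      rw [hu]; simp
    · obtain ⟨k, hk⟩ := par_of_cr hu hc
      refine ⟨k, -1, 0, fun h => by linarith [h.2.1], ?_⟩
      rw [hk]; module
  · obtain ⟨a, b, hab⟩ := comb_of_perp hd hc h1 h2 h3
    refine ⟨a, b, -1, fun h => by linarith [h.2.2], ?_⟩
    rw [hab]; module

/-- Facets with two vertices in the middle layer which touch the three layers. -/
theorem count_mid (D : Data V G u s q) (hEL : StmtEdgeLin) {t₁ t₂ t₃ : ℝ} (h12 : t₁ < t₂)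
    (h23 : t₂ < t₃) (hC : 3 ≤ (lay V t₂).card) (S : Finset ι) (hS : S ⊆ G)
    (h2 : ∀ g ∈ S, (zer V t₂ (u g) (s g) (q g)).card = 2)
    (hA : ∀ g ∈ S, (zer V t₁ (u g) (s g) (q g)).Nonempty)
    (hB : ∀ g ∈ S, (zer V t₃ (u g) (s g) (q g)).Nonempty) :
    S.card ≤ 24 * (lay V t₂).card := by
  classical
  have hne : ∀ g ∈ S, (zer V t₂ (u g) (s g) (q g)).Nonempty := by
    intro g hg
    rw [← Finset.card_pos]
    have := h2 g hg
    omega
  have hmaps : ∀ g ∈ S, Mx (img V t₂ 1) (u g) ∈ Ed (img V t₂ 1) := by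
    intro g hg
    rw [mem_Ed]
    refine ⟨?_, u g, rfl⟩
    rw [card_Mx one_pos (D.nn g (hS hg)) (hne g hg)]
    exact h2 g hg
  have hcard : (img V t₂ 1).card = (lay V t₂).card := card_img one_pos
  have hfib : ∀ F ∈ Ed (img V t₂ 1),
      (S.filter (fun g => Mx (img V t₂ 1) (u g) = F)).card ≤ 2 := by
    intro F hF
    rw [mem_Ed] at hF
    obtain ⟨a, b, hab, hFe⟩ := Finset.card_eq_two.1 hF.1
    obtain ⟨v, hv⟩ := hF.2
    have hsub : F ⊆ img V t₂ 1 := by rw [← hv]; exact Mx_subset _ _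
    have ha : a ∈ F := by rw [hFe]; simp
    have hb : b ∈ F := by rw [hFe]; simp
    -- a third point
    obtain ⟨c, hc, hcF⟩ : ∃ c ∈ img V t₂ 1, c ∉ F := by
      by_contra hcon
      push Not at hcon
      have : (img V t₂ 1).card ≤ F.card := Finset.card_le_card hcon
      rw [hF.1, hcard] at this
      omega
    obtain ⟨x, hx, hxa⟩ := mem_img.1 (hsub ha)
    by_contra hcon
    push Not at hcon
    obtain ⟨g1, g2, g3, hg1, hg2, hg3, h12', h13', h23'⟩ := Finset.two_lt_card_iff.1 hcon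
    rw [Finset.mem_filter] at hg1 hg2 hg3
    -- common facts
    have fact : ∀ g, g ∈ S → Mx (img V t₂ 1) (u g) = F → ip (a - b) (u g) = 0 ∧
        0 < ip (a - c) (u g) ∧ u g ≠ 0 ∧ val (u g) (s g) x = q g := by
      intro g hg hgF
      have ha' : a ∈ Mx (img V t₂ 1) (u g) := by rw [hgF]; exact ha
      have hb' : b ∈ Mx (img V t₂ 1) (u g) := by rw [hgF]; exact hb
      have hc' : c ∉ Mx (img V t₂ 1) (u g) := by rw [hgF]; exact hcF
      refine ⟨?_, ?_, ?_, ?_⟩
      · rw [ip_sub_left, Mx_eq ha' hb', sub_self]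
      · rw [ip_sub_left]
        have := Mx_lt ha' hc hc'
        linarith
      · intro h0
        apply hc'
        rw [h0, Mx_zero]
        exact hc
      · rw [← mem_Mx_img one_pos (D.nn g (hS hg)) (hne g hg) hx, hxa]
        exact ha'
    have hgen : ∀ g g' g'' : ι, g ∈ S → g' ∈ S → g'' ∈ S → Mx (img V t₂ 1) (u g) = F →
        Mx (img V t₂ 1) (u g') = F → Mx (img V t₂ 1) (u g'') = F → g ≠ g' → g ≠ g'' →
        ∀ β γ : ℝ, 0 ≤ β → 0 ≤ γ → u g = β • u g' + γ • u g'' → False := by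
      intro g g' g'' hg hg' hg'' e e' e'' n n' β γ hβ hγ he
      obtain ⟨y, hy⟩ := hA g hg
      obtain ⟨z, hz⟩ := hB g hg
      rw [mem_zer] at hy hz
      exact no_comb D h12 h23 (hS hg) (hS hg') (hS hg'') n n' (mem_lay.1 hx).1 (mem_lay.1 hx).2
        (fact g hg e).2.2.2 (fact g' hg' e').2.2.2 (fact g'' hg'' e'').2.2.2 hy.1 hy.2.1 hy.2.2
        hz.1 hz.2.1 hz.2.2 hβ hγ (fact g hg e).2.2.1 he
    obtain ⟨α, β, γ, hne0, hrel⟩ := dep_three (d := a - b) (sub_ne_zero.2 hab)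
      (fact g1 hg1.1 hg1.2).1 (fact g2 hg2.1 hg2.2).1 (fact g3 hg3.1 hg3.2).1
    have hpos := congrArg (ip (a - c)) hrel
    rw [ip_add_right, ip_add_right, ip_smul_right, ip_smul_right, ip_smul_right,
      ip_zero_right] at hpos
    have p1 := (fact g1 hg1.1 hg1.2).2.1
    have p2 := (fact g2 hg2.1 hg2.2).2.1
    have p3 := (fact g3 hg3.1 hg3.2).2.1
    -- one coefficient has a strict sign, the others the opposite weak sign
    have solve : ∀ g g' g'' : ι, g ∈ S → g' ∈ S → g'' ∈ S → Mx (img V t₂ 1) (u g) = F →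
        Mx (img V t₂ 1) (u g') = F → Mx (img V t₂ 1) (u g'') = F → g ≠ g' → g ≠ g'' →
        ∀ a b c : ℝ, a < 0 → 0 ≤ b → 0 ≤ c → a • u g + b • u g' + c • u g'' = 0 → False := by
      intro g g' g'' hg hg' hg'' e e' e'' n n' a b c ha hb hc hr
      refine hgen g g' g'' hg hg' hg'' e e' e'' n n' (b / -a) (c / -a)
        (div_nonneg hb (by linarith)) (div_nonneg hc (by linarith)) ?_
      have h1 : (-a) • u g = b • u g' + c • u g'' := by
        have : (-a) • u g = -(a • u g + b • u g' + c • u g'') + (b • u g' + c • u g'') := by module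
        rw [this, hr, neg_zero, zero_add]
      have h2 : u g = (-a)⁻¹ • ((-a) • u g) := by
        rw [smul_smul, inv_mul_cancel₀ (by linarith : -a ≠ 0), one_smul]
      rw [h2, h1, smul_add, smul_smul, smul_smul, div_eq_inv_mul, div_eq_inv_mul]
    have solve' : ∀ g g' g'' : ι, g ∈ S → g' ∈ S → g'' ∈ S → Mx (img V t₂ 1) (u g) = F →
        Mx (img V t₂ 1) (u g') = F → Mx (img V t₂ 1) (u g'') = F → g ≠ g' → g ≠ g'' →
        ∀ a b c : ℝ, 0 < a → b ≤ 0 → c ≤ 0 → a • u g + b • u g' + c • u g'' = 0 → False := by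
      intro g g' g'' hg hg' hg'' e e' e'' n n' a b c ha hb hc hr
      refine solve g g' g'' hg hg' hg'' e e' e'' n n' (-a) (-b) (-c) (by linarith) (by linarith)
        (by linarith) ?_
      have : (-a) • u g + (-b) • u g' + (-c) • u g'' = -(a • u g + b • u g' + c • u g'') := by
        module
      rw [this, hr, neg_zero]
    have r213 : β • u g2 + α • u g1 + γ • u g3 = 0 := by rw [← hrel]; module
    have r312 : γ • u g3 + α • u g1 + β • u g2 = 0 := by rw [← hrel]; module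
    rcases lt_trichotomy α 0 with ha0 | ha0 | ha0
    · rcases le_or_gt 0 β with hb0 | hb0
      · rcases le_or_gt 0 γ with hc0 | hc0
        · exact solve g1 g2 g3 hg1.1 hg2.1 hg3.1 hg1.2 hg2.2 hg3.2 h12' h13' α β γ ha0 hb0 hc0 hrel
        · rcases hb0.lt_or_eq with hb1 | hb1
          · exact solve' g2 g1 g3 hg2.1 hg1.1 hg3.1 hg2.2 hg1.2 hg3.2 h12'.symm h23' β α γ hb1
              ha0.le hc0.le r213
          · rw [← hb1, zero_mul] at hpos
            have := mul_neg_of_neg_of_pos ha0 p1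
            have := mul_neg_of_neg_of_pos hc0 p3
            linarith
      · rcases le_or_gt γ 0 with hc0 | hc0
        · have := mul_neg_of_neg_of_pos ha0 p1
          have := mul_neg_of_neg_of_pos hb0 p2
          have := mul_nonpos_of_nonpos_of_nonneg hc0 p3.le
          linarith
        · exact solve' g3 g1 g2 hg3.1 hg1.1 hg2.1 hg3.2 hg1.2 hg2.2 h13'.symm h23'.symm γ α β hc0
            ha0.le hb0.le r312
    · rw [ha0, zero_mul, zero_add] at hpos
      rcases lt_trichotomy β 0 with hb0 | hb0 | hb0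
      · rcases le_or_gt γ 0 with hc0 | hc0
        · have := mul_neg_of_neg_of_pos hb0 p2
          have := mul_nonpos_of_nonpos_of_nonneg hc0 p3.le
          linarith
        · exact solve g2 g1 g3 hg2.1 hg1.1 hg3.1 hg2.2 hg1.2 hg3.2 h12'.symm h23' β α γ hb0
            ha0.ge hc0.le r213
      · rw [hb0, zero_mul, zero_add] at hpos
        have hc0 : γ = 0 := by
          rcases mul_eq_zero.1 hpos with h | h
          · exact h
          · exact absurd h p3.ne'
        exact hne0 ⟨ha0, hb0, hc0⟩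
      · rcases le_or_gt 0 γ with hc0 | hc0
        · have := mul_pos hb0 p2
          have := mul_nonneg hc0 p3.le
          linarith
        · exact solve' g2 g1 g3 hg2.1 hg1.1 hg3.1 hg2.2 hg1.2 hg3.2 h12'.symm h23' β α γ hb0
            ha0.le hc0.le r213
    · rcases le_or_gt β 0 with hb0 | hb0
      · rcases le_or_gt γ 0 with hc0 | hc0
        · exact solve' g1 g2 g3 hg1.1 hg2.1 hg3.1 hg1.2 hg2.2 hg3.2 h12' h13' α β γ ha0 hb0 hc0 hrel
        · rcases hb0.lt_or_eq with hb1 | hb1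
          · exact solve g2 g1 g3 hg2.1 hg1.1 hg3.1 hg2.2 hg1.2 hg3.2 h12'.symm h23' β α γ hb1
              ha0.le hc0.le r213
          · rw [hb1, zero_mul] at hpos
            have := mul_pos ha0 p1
            have := mul_pos hc0 p3
            linarith
      · rcases le_or_gt 0 γ with hc0 | hc0
        · have := mul_pos ha0 p1
          have := mul_pos hb0 p2
          have := mul_nonneg hc0 p3.le
          linarith
        · exact solve g3 g1 g2 hg3.1 hg1.1 hg2.1 hg3.2 hg1.2 hg2.2 h13'.symm h23'.symm γ α β hc0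
            ha0.le hb0.le r312
  have h1 := Finset.card_le_mul_card_image_of_maps_to hmaps 2 hfib
  have h3 := (hEL (img V t₂ 1) (convPos_img one_pos D.exp)).2.2
  rw [hcard] at h3
  omega

end count

end Tr

end TPH
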