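import Pool.Agent.TPH.St4

/-!
# Three parallel hyperplanes: the exit determines the position
-/

namespace TPH

theorem t_ZDet : StmtZDet := by
  intro A B C e e' c c₁ c₂ u z u' z' k h h' hk hz
  have he : e' = e := by rw [← h'.ez, hz, Mx_smul hk, h.ez]
  have hc : c₂ = c₁ := by
    have h1 : c₂ ∈ Mx C z := by
      rw [← Mx_smul hk C z, ← hz, h'.cz]
      simp
    rw [h.cz, Finset.mem_insert, Finset.mem_singleton] at h1
    rcases h1 with h1 | h1
    · exact absurd h1.symm h'.ne
    · exact h1
  subst he hc
  obtain ⟨α, β, hu⟩ := h.comb h'.perp_u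
  have hα : 0 < α := by
    have h1 := h'.wu
    rw [hu, ip_add_right, ip_smul_right, ip_smul_right, h.wz, mul_zero, add_zero] at h1
    exact (pos_iff_pos_of_mul_pos h1).mpr h.wu
  have hβ : β ≤ 0 := by
    apply h.beta_nonpos (α := α)
    rw [← hu]
    exact h'.clo
  have hβ' : -β / (α * k) ≤ 0 := by
    apply h'.beta_nonpos (α := 1 / α)
    have h1 : (1 / α) • u' + (-β / (α * k)) • z' = u := by
      rw [hu, hz, smul_add, smul_smul, smul_smul, smul_smul, add_assoc, ← add_smul]
      have e1 : 1 / α * α = 1 := by field_simp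
      have e2 : 1 / α * β + -β / (α * k) * k = 0 := by
        field_simp
        ring
      rw [e1, e2, one_smul, zero_smul, add_zero]
    rw [h1]
    exact h.clo
  have hβ0 : β = 0 := by
    apply le_antisymm hβ
    by_contra hneg
    push Not at hneg
    have : 0 < -β / (α * k) := div_pos (by linarith) (mul_pos hα hk)
    linarith
  refine ⟨α, hα, ?_⟩
  rw [hu, hβ0, zero_smul, add_zero]

end TPH
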